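import Pool.Agent.Work.MP_c41774_al.Formal
import Pool.Agent.Work.MP_c41774_al.Defs
import Pool.Agent.Work.MP_c41774_al.QTorus

/-! Bundle of small proof modules (one section per former module). -/

section

/-!
# Positive families and the greedy family at the level of coefficient functions
-/

noncomputable section

namespace Pool.Agent.Work.MP_c41774_al

open LaurentPolynomial Finset

/-- The coefficient functions of the greedy elements. -/
structure GreedyFam (b c : ℤ) (g : ℤ × ℤ → ℕ × ℕ → R) : Prop where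
  one : ∀ a, g a 0 = 1
  row : ∀ a κ, κ ≠ 0 → 0 ≤ LL b c κ a → H b c a (g a) κ = 0
  col : ∀ a κ, κ ≠ 0 → LL b c κ a ≤ 0 → Ht b c a (g a) κ = 0

/-- The coefficient functions of a family satisfying the positivity requirements. -/
structure PosFam (b c : ℤ) (e : ℤ × ℤ → ℕ × ℕ → R) : Prop where
  one : ∀ a, e a 0 = 1
  bar : ∀ a κ, invert (e a κ) = e a κ
  left : ∀ a : ℤ × ℤ, a.1 ≤ 0 → ∀ κ : ℕ × ℕ,
    e a κ = if κ.2 = 0 then qb b a.2.toNat κ.1 else 0
  right : ∀ a : ℤ × ℤ, a.2 ≤ 0 → ∀ κ : ℕ × ℕ,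
    e a κ = if κ.1 = 0 then qb c a.1.toNat κ.2 else 0
  mul : ∀ a u : ℤ × ℤ, ∃ β : ℕ × ℕ → R, (∀ κ, NN (β κ)) ∧ (Function.support β).Finite ∧
    ∀ κ, conv b c a u (e a) (e u) κ = ∑ κ' ∈ Finset.Iic κ, β κ' * M b c e (a + u) κ' κ

/-- flip of a family -/
def flf (e : ℤ × ℤ → ℕ × ℕ → R) : ℤ × ℤ → ℕ × ℕ → R := fun a => fl (e a.swap)

theorem flf_apply (e : ℤ × ℤ → ℕ × ℕ → R) (a : ℤ × ℤ) (κ : ℕ × ℕ) :
    flf e a κ = e a.swap κ.swap := rfl

theorem LL_swap (b c : ℤ) (κ : ℕ × ℕ) (a : ℤ × ℤ) : LL c b κ.swap a.swap = - LL b c κ a := by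
  simp only [LL, Prod.fst_swap, Prod.snd_swap]; ring

theorem LL_swap' (b c : ℤ) (κ : ℕ × ℕ) (a : ℤ × ℤ) : LL b c κ.swap a.swap = - LL c b κ a := by
  simp only [LL, Prod.fst_swap, Prod.snd_swap]; ring

theorem M_flf (b c : ℤ) (e : ℤ × ℤ → ℕ × ℕ → R) (s : ℤ × ℤ) (κ' κ : ℕ × ℕ) :
    M c b (flf e) s.swap κ'.swap κ.swap = M b c e s κ' κ := by
  by_cases h : κ' ≤ κ
  · rw [M_of_le h, M_of_le (Prod.swap_le_swap.mpr h), flf_apply]
    rfl
  · rw [M_of_not_le h, M_of_not_le (fun h' => h (Prod.swap_le_swap.mp h'))]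

theorem Ht_flf (b c : ℤ) (a : ℤ × ℤ) (e : ℤ × ℤ → ℕ × ℕ → R) (κ : ℕ × ℕ) :
    Ht b c a (flf e a) κ = H c b a.swap (e a.swap) κ.swap := by
  rw [Ht, flf, fl_fl]

theorem H_flf (b c : ℤ) (a : ℤ × ℤ) (e : ℤ × ℤ → ℕ × ℕ → R) (κ : ℕ × ℕ) :
    H b c a (flf e a) κ = Ht c b a.swap (e a.swap) κ.swap := by
  rw [Ht, Prod.swap_swap, Prod.swap_swap, flf]

theorem GreedyFam.flip {b c : ℤ} {g : ℤ × ℤ → ℕ × ℕ → R} (hg : GreedyFam b c g) :
    GreedyFam c b (flf g) where
  one a := hg.one _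
  row a κ hκ hL := by
    rw [H_flf]
    refine hg.col _ _ (fun h => hκ ?_) ?_
    · rw [← Prod.swap_swap κ, h]; rfl
    · rw [LL_swap']; omega
  col a κ hκ hL := by
    rw [Ht_flf]
    refine hg.row _ _ (fun h => hκ ?_) ?_
    · rw [← Prod.swap_swap κ, h]; rfl
    · rw [LL_swap']; omega

theorem sum_Iic_swap {f : ℕ × ℕ → R} (κ : ℕ × ℕ) :
    ∑ κ' ∈ Finset.Iic κ.swap, f κ' = ∑ κ' ∈ Finset.Iic κ, f κ'.swap := by
  refine Finset.sum_bij' (fun κ' _ => κ'.swap) (fun κ' _ => κ'.swap) ?_ ?_ ?_ ?_ ?_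
  · intro κ' h
    rw [Finset.mem_Iic] at h ⊢
    rw [← Prod.swap_le_swap, Prod.swap_swap]; exact h
  · intro κ' h
    rw [Finset.mem_Iic] at h ⊢
    exact Prod.swap_le_swap.mpr h
  · intro κ' _; simp
  · intro κ' _; simp
  · intro κ' _; simp

theorem PosFam.flip {b c : ℤ} {e : ℤ × ℤ → ℕ × ℕ → R} (he : PosFam b c e) :
    PosFam c b (flf e) where
  one a := he.one _
  bar a κ := he.bar _ _
  left a ha κ := he.right a.swap ha κ.swap
  right a ha κ := he.left a.swap ha κ.swap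
  mul a u := by
    obtain ⟨β, h1, h2, h3⟩ := he.mul u.swap a.swap
    refine ⟨fl β, fun κ => h1 _, ?_, fun κ => ?_⟩
    · have : Function.support (fl β) = Prod.swap ⁻¹' Function.support β := by
        ext κ; simp
      rw [this]
      exact h2.preimage Prod.swap_injective.injOn
    · have e1 := conv_flip b c u.swap a.swap (e u.swap) (e a.swap) κ.swap
      rw [Prod.swap_swap, Prod.swap_swap, Prod.swap_swap] at e1
      have e2 : conv c b a u (flf e a) (flf e u) κ =
        conv b c u.swap a.swap (e u.swap) (e a.swap) κ.swap := e1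
      rw [e2, h3, sum_Iic_swap]
      refine Finset.sum_congr rfl fun κ' _ => ?_
      rw [fl_apply, ← M_flf b c e _ κ'.swap κ.swap]
      simp only [Prod.swap_swap]
      congr 2
      ext <;> simp [add_comm]

/-! ### Expansions -/

/-- recursive solution of the unitriangular system -/
def expand (b c : ℤ) (g : ℤ × ℤ → ℕ × ℕ → R) (s : ℤ × ℤ) (z : ℕ × ℕ → R) (κ : ℕ × ℕ) : R :=
  z κ - ∑ κ' ∈ (Finset.Iio κ).attach, expand b c g s z κ'.1 * M b c g s κ'.1 κ
termination_by κ.1 + κ.2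
decreasing_by
  have h := Finset.mem_Iio.mp κ'.2
  rcases Prod.lt_iff.mp h with ⟨h1, h2⟩ | ⟨h1, h2⟩ <;> omega

theorem expand_eq (b c : ℤ) (g : ℤ × ℤ → ℕ × ℕ → R) (s : ℤ × ℤ) (z : ℕ × ℕ → R) (κ : ℕ × ℕ) :
    expand b c g s z κ = z κ - ∑ κ' ∈ Finset.Iio κ, expand b c g s z κ' * M b c g s κ' κ := by
  rw [expand, Finset.sum_attach (Finset.Iio κ) (fun κ' => expand b c g s z κ' * M b c g s κ' κ)]

theorem sum_Iic_eq (f : ℕ × ℕ → R) (κ : ℕ × ℕ) :
    ∑ κ' ∈ Finset.Iic κ, f κ' = ∑ κ' ∈ Finset.Iio κ, f κ' + f κ := by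
  rw [← Finset.Iio_insert, Finset.sum_insert (by simp), add_comm]

theorem M_self {b c : ℤ} {g : ℤ × ℤ → ℕ × ℕ → R} (hg : ∀ a, g a 0 = 1) (s : ℤ × ℤ)
    (κ : ℕ × ℕ) : M b c g s κ κ = 1 := by
  rw [M_of_le le_rfl, tsub_self, hg]

theorem expand_spec {b c : ℤ} {g : ℤ × ℤ → ℕ × ℕ → R} (hg : ∀ a, g a 0 = 1) (s : ℤ × ℤ)
    (z : ℕ × ℕ → R) (κ : ℕ × ℕ) :
    z κ = ∑ κ' ∈ Finset.Iic κ, expand b c g s z κ' * M b c g s κ' κ := by
  rw [sum_Iic_eq, M_self hg, mul_one, expand_eq b c g s z κ]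
  ring

/-- uniqueness of expansions, truncated version -/
theorem expand_unique {b c : ℤ} {g g' : ℤ × ℤ → ℕ × ℕ → R} (hg : ∀ a, g a 0 = 1)
    {s : ℤ × ℤ} {κ₀ : ℕ × ℕ} {α α' : ℕ × ℕ → R}
    (hM : ∀ κ' κ, κ' ≤ κ → κ ≤ κ₀ → M b c g s κ' κ = M b c g' s κ' κ)
    (h : ∀ κ ≤ κ₀, ∑ κ' ∈ Finset.Iic κ, α κ' * M b c g s κ' κ =
      ∑ κ' ∈ Finset.Iic κ, α' κ' * M b c g' s κ' κ) :
    ∀ κ ≤ κ₀, α κ = α' κ := by
  intro κ
  induction κ using WellFoundedLT.induction with
  | ind κ ih =>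
    intro hκ
    have h1 := h κ hκ
    rw [sum_Iic_eq, sum_Iic_eq, ← hM κ κ le_rfl hκ, M_self hg, mul_one, mul_one] at h1
    have h2 : ∑ κ' ∈ Finset.Iio κ, α κ' * M b c g s κ' κ =
        ∑ κ' ∈ Finset.Iio κ, α' κ' * M b c g' s κ' κ := by
      refine Finset.sum_congr rfl fun κ' hκ' => ?_
      have hlt := Finset.mem_Iio.mp hκ'
      rw [ih κ' hlt (hlt.le.trans hκ), hM κ' κ hlt.le hκ]
    rw [h2] at h1
    exact add_left_cancel h1

/-- extension of the range of summation -/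
theorem sum_Iic_extend {b c : ℤ} {g : ℤ × ℤ → ℕ × ℕ → R} {s : ℤ × ℤ} {κ κ₀ : ℕ × ℕ}
    (hκ : κ ≤ κ₀) (α : ℕ × ℕ → R) :
    ∑ κ' ∈ Finset.Iic κ, α κ' * M b c g s κ' κ = ∑ κ' ∈ Finset.Iic κ₀, α κ' * M b c g s κ' κ := by
  refine Finset.sum_subset (Finset.Iic_subset_Iic.mpr hκ) fun κ' _ h => ?_
  rw [Finset.mem_Iic] at h
  rw [M_of_not_le h, mul_zero]

end Pool.Agent.Work.MP_c41774_al

end
end

section

/-!
# Consequences of positivity
-/

noncomputable section

namespace Pool.Agent.Work.MP_c41774_al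

open LaurentPolynomial Finset

theorem sum_Iic_prod (f : ℕ × ℕ → R) (κ : ℕ × ℕ) :
    ∑ κ' ∈ Finset.Iic κ, f κ' = ∑ i ∈ range (κ.1 + 1), ∑ j ∈ range (κ.2 + 1), f (i, j) := by
  rw [← Finset.sum_product']
  refine Finset.sum_congr ?_ fun _ _ => rfl
  ext x
  simp only [Finset.mem_Iic, Finset.mem_product, Finset.mem_range, Prod.le_def]
  omega

theorem conv_delta {b c : ℤ} {a u : ℤ × ℤ} {x y : ℕ × ℕ → R} {κ : ℕ × ℕ}
    (hy : ∀ κ', y κ' = if κ' = 0 then 1 else 0) :
    conv b c a u x y κ = T (tw b c a u κ 0) * x κ := by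
  rw [conv, Finset.sum_eq_single (κ.1, 0), Finset.sum_eq_single (κ.2, 0)]
  · have : y (0, 0) = 1 := by rw [hy]; exact if_pos rfl
    show T (tw b c a u κ 0) * (x κ * y (0, 0)) = _
    rw [this, mul_one]
  · intro B hB hne
    have hB := Finset.HasAntidiagonal.mem_antidiagonal.mp hB
    rw [hy, if_neg, mul_zero, mul_zero]
    intro h
    have h2 : B.2 = 0 := congrArg Prod.snd h
    exact hne (Prod.ext (by simpa [h2] using hB) h2)
  · intro h; exact absurd (by simp) h
  · intro A hA hne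
    have hA := Finset.HasAntidiagonal.mem_antidiagonal.mp hA
    refine Finset.sum_eq_zero fun B _ => ?_
    rw [hy, if_neg, mul_zero, mul_zero]
    intro h
    have h2 : A.2 = 0 := congrArg Prod.fst h
    exact hne (Prod.ext (by simpa [h2] using hA) h2)
  · intro h; exact absurd (by simp) h

theorem conv_cross {b c : ℤ} {a u : ℤ × ℤ} {x y : ℕ × ℕ → R} {f g : ℕ → R} {κ : ℕ × ℕ}
    (hx : ∀ κ' : ℕ × ℕ, x κ' = if κ'.1 = 0 then f κ'.2 else 0)
    (hy : ∀ κ' : ℕ × ℕ, y κ' = if κ'.2 = 0 then g κ'.1 else 0) :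
    conv b c a u x y κ = T (tw b c a u (0, κ.2) (κ.1, 0)) * (f κ.2 * g κ.1) := by
  rw [conv, Finset.sum_eq_single (0, κ.1), Finset.sum_eq_single (κ.2, 0)]
  · rw [hx, hy, if_pos rfl, if_pos rfl]
  · intro B hB hne
    have hB := Finset.HasAntidiagonal.mem_antidiagonal.mp hB
    rw [hy, if_neg, mul_zero, mul_zero]
    intro h2
    have h2 : B.2 = 0 := h2
    exact hne (Prod.ext (by simpa [h2] using hB) h2)
  · intro h; exact absurd (by simp) h
  · intro A hA hne
    have hA := Finset.HasAntidiagonal.mem_antidiagonal.mp hA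
    refine Finset.sum_eq_zero fun B _ => ?_
    rw [hx, if_neg, zero_mul, mul_zero]
    intro h1
    have h1 : A.1 = 0 := h1
    exact hne (Prod.ext h1 (by simpa [h1] using hA))
  · intro h; exact absurd (by simp) h

namespace PosFam

variable {b c : ℤ} {e : ℤ × ℤ → ℕ × ℕ → R}

theorem delta (he : PosFam b c e) {a : ℤ × ℤ} (h1 : a.1 ≤ 0) (h2 : a.2 ≤ 0) (κ : ℕ × ℕ) :
    e a κ = if κ = 0 then 1 else 0 := by
  rw [he.left a h1, Int.toNat_of_nonpos h2]
  obtain ⟨p, q⟩ := κ
  rcases q with _ | q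
  · rcases p with _ | p
    · simp
    · simp
  · simp

/-- (A1): all coefficients are nonnegative, and there are finitely many of them. -/
theorem A1 (hb : 0 ≤ b) (hc : 0 ≤ c) (he : PosFam b c e) (a : ℤ × ℤ) :
    (∀ κ, NN (e a κ)) ∧ (Function.support (e a)).Finite := by
  obtain ⟨β, h1, h2, h3⟩ := he.mul a (-|a.1|, -|a.2|)
  have key : ∀ κ, T (tw b c a (-|a.1|, -|a.2|) κ 0) * e a κ = β κ := by
    intro κ
    have hd : ∀ κ', e (-|a.1|, -|a.2|) κ' = if κ' = 0 then 1 else 0 :=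
      he.delta (neg_nonpos.mpr (abs_nonneg _)) (neg_nonpos.mpr (abs_nonneg _))
    rw [← conv_delta hd, h3, Finset.sum_eq_single κ]
    · rw [M_self he.one, mul_one]
    · intro κ' hκ' hne
      have hle := Finset.mem_Iic.mp hκ'
      rw [M_of_le hle, he.delta, if_neg, mul_zero]
      · intro h
        apply hne
        apply le_antisymm hle
        exact tsub_eq_zero_iff_le.mp h
      · simp only [Prod.fst_sub, Prod.fst_add, kk_fst]
        have := le_abs_self a.1
        have : 0 ≤ b * (κ'.1 : ℤ) := by positivity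
        omega
      · simp only [Prod.snd_sub, Prod.snd_add, kk_snd]
        have := le_abs_self a.2
        have : 0 ≤ c * (κ'.2 : ℤ) := by positivity
        omega
    · intro h; exact absurd (by simp) h
  refine ⟨fun κ => ?_, h2.subset fun κ hκ => ?_⟩
  · rw [← NN_T_mul, key]; exact h1 κ
  · rw [Function.mem_support] at hκ ⊢
    intro h0
    rw [← key κ] at h0
    have := congrArg (fun f => T (-(tw b c a (-|a.1|, -|a.2|) κ 0)) * f) h0
    simp only [← mul_assoc, ← T_add, mul_zero] at this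
    rw [neg_add_cancel, T_zero, one_mul] at this
    exact hκ this

theorem T_mul_eq_iff {m : ℤ} {f g : R} : T m * f = g ↔ f = T (-m) * g := by
  constructor
  · rintro rfl
    rw [← mul_assoc, ← T_add, neg_add_cancel, T_zero, one_mul]
  · rintro rfl
    rw [← mul_assoc, ← T_add, add_neg_cancel, T_zero, one_mul]

/-- (A2): the row transform is nonnegative, with finite support. -/
theorem A2 (hb : 0 ≤ b) (_hc : 0 ≤ c) (he : PosFam b c e) (a : ℤ × ℤ) :
    (∀ κ, NN (H b c a (e a) κ)) ∧ (Function.support (H b c a (e a))).Finite := by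
  obtain ⟨β, h1, h2, h3⟩ := he.mul a (-|a.1|, 0)
  have hrow : ∀ q : ℕ, PowerSeries.C (T ((a.2 - c * q) * (-|a.1|)) : R) * row (e a) q =
      row β q * P b (ht c a q) := by
    intro q
    ext1 p
    have e1 := h3 (p, q)
    rw [conv_delta (he.delta (neg_nonpos.mpr (abs_nonneg _)) le_rfl)] at e1
    rw [PowerSeries.coeff_C_mul, coeff_row]
    have e2 : tw b c a (-|a.1|, 0) (p, q) 0 = (a.2 - c * q) * (-|a.1|) := by
      simp [tw]; ring
    rw [e2] at e1
    rw [e1, sum_Iic_prod, PowerSeries.coeff_mul,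
      Finset.Nat.sum_antidiagonal_eq_sum_range_succ_mk]
    refine Finset.sum_congr rfl fun i hi => ?_
    have hi := Finset.mem_range.mp hi
    rw [Finset.sum_eq_single q]
    · rw [M_of_le (Prod.mk_le_mk.mpr ⟨by omega, le_rfl⟩), he.left, if_pos (by simp),
        coeff_row, coeff_P, ht]
      · simp
      · simp only [Prod.fst_sub, Prod.fst_add, kk_fst]
        have := le_abs_self a.1
        have : 0 ≤ b * (i : ℤ) := by positivity
        omega
    · intro j hj hne
      have hj := Finset.mem_range.mp hj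
      rw [M_of_le (Prod.mk_le_mk.mpr ⟨by omega, by omega⟩), he.left, if_neg, mul_zero]
      · simp only [Prod.mk_sub_mk]
        simp only at hj
        omega
      · simp only [Prod.fst_sub, Prod.fst_add, kk_fst]
        have := le_abs_self a.1
        have : 0 ≤ b * (i : ℤ) := by positivity
        omega
    · intro h; exact absurd (by simp) h
  have key : ∀ κ, T ((a.2 - c * κ.2) * (-|a.1|)) * H b c a (e a) κ = β κ := by
    intro κ
    have := congrArg (fun f => PowerSeries.coeff κ.1 (f * Pinv b (ht c a κ.2))) (hrow κ.2)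
    rw [mul_assoc, PowerSeries.coeff_C_mul, mul_assoc, P_mul_Pinv, mul_one, coeff_row] at this
    exact this
  refine ⟨fun κ => ?_, h2.subset fun κ hκ => ?_⟩
  · rw [← NN_T_mul, key]; exact h1 κ
  · rw [Function.mem_support] at hκ ⊢
    intro h0
    rw [← key κ, T_mul_eq_iff, mul_zero] at h0
    exact hκ h0

theorem A2t (hb : 0 ≤ b) (hc : 0 ≤ c) (he : PosFam b c e) (a : ℤ × ℤ) :
    (∀ κ, NN (Ht b c a (e a) κ)) ∧ (Function.support (Ht b c a (e a))).Finite := by
  obtain ⟨h1, h2⟩ := he.flip.A2 hc hb a.swap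
  have : ∀ κ, H c b a.swap (flf e a.swap) κ = Ht b c a (e a) κ.swap := fun κ => by
    rw [H_flf, Prod.swap_swap]
  refine ⟨fun κ => ?_, ?_⟩
  · have := this κ.swap
    rw [Prod.swap_swap] at this
    rw [← this]; exact h1 _
  · have h3 : Function.support (Ht b c a (e a)) =
        Prod.swap ⁻¹' Function.support (H c b a.swap (flf e a.swap)) := by
      ext κ
      rw [Set.mem_preimage, Function.mem_support, Function.mem_support, this, Prod.swap_swap]
    rw [h3]
    exact h2.preimage Prod.swap_injective.injOn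

/-- the upper bound for the coefficients -/
theorem bound (hb : 0 ≤ b) (hc : 0 ≤ c) (he : PosFam b c e) (a : ℤ × ℤ) (κ : ℕ × ℕ) :
    NN (T (b * c * κ.1 * κ.2) * (qb c a.1.toNat κ.2 * qb b a.2.toNat κ.1) - e a κ) := by
  obtain ⟨β, hβ1, _, hβ3⟩ := he.mul (a.1, 0) (0, a.2)
  have hconv : ∀ κ, conv b c (a.1, 0) (0, a.2) (e (a.1, 0)) (e (0, a.2)) κ =
      T (tw b c (a.1, 0) (0, a.2) (0, κ.2) (κ.1, 0)) *
        (qb c a.1.toNat κ.2 * qb b a.2.toNat κ.1) := by
    intro κ
    exact conv_cross (fun κ' => he.right (a.1, 0) le_rfl κ') (fun κ' => he.left (0, a.2) le_rfl κ')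
  have ha : ((a.1, 0) + (0, a.2) : ℤ × ℤ) = a := by ext <;> simp
  have h0 : β 0 = T (-(a.1 * a.2)) := by
    have := hβ3 0
    rw [hconv, sum_Iic_eq, M_self he.one] at this
    have hIio : Finset.Iio (0 : ℕ × ℕ) = ∅ := by
      ext x; simp
    rw [hIio, Finset.sum_empty, zero_add, mul_one] at this
    rw [← this]
    simp [tw]
  have h := hβ3 κ
  rw [hconv, ha] at h
  rw [← NN_T_mul (m := -(a.1 * a.2)), mul_sub, ← mul_assoc, ← T_add]
  have e1 : -(a.1 * a.2) + b * c * κ.1 * κ.2 =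
      tw b c (a.1, 0) (0, a.2) (0, κ.2) (κ.1, 0) := by
    simp [tw]; ring
  rw [e1, h, ← h0]
  have e2 : β 0 * e a κ = β 0 * M b c e a 0 κ := by
    rw [M_of_le (zero_le), tsub_zero]
    have : a - kk b c 0 = a := by ext <;> simp
    rw [this]
  rw [e2, ← Finset.add_sum_erase _ _ (Finset.mem_Iic.mpr (zero_le : 0 ≤ κ)), add_sub_cancel_left]
  refine NN.sum fun κ' hκ' => ?_
  rw [Finset.mem_erase, Finset.mem_Iic] at hκ'
  rw [M_of_le hκ'.2]
  exact (hβ1 _).mul ((he.A1 hb hc _).1 _)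

/-- the row transform is bar-invariant -/
theorem invert_H (he : PosFam b c e) (a : ℤ × ℤ) (κ : ℕ × ℕ) :
    invert (H b c a (e a) κ) = H b c a (e a) κ := by
  have h1 : barPS (row (e a) κ.2) = row (e a) κ.2 := by
    ext1 p
    rw [PowerSeries.coeff_map, coeff_row]
    exact he.bar a _
  have h2 : barPS (row (e a) κ.2 * Pinv b (ht c a κ.2)) =
      row (e a) κ.2 * Pinv b (ht c a κ.2) := by
    rw [map_mul, h1, barPS_Pinv]
  have := congrArg (PowerSeries.coeff κ.1) h2
  rw [PowerSeries.coeff_map] at this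
  exact this

theorem H_le (hb : 0 ≤ b) (hc : 0 ≤ c) (he : PosFam b c e) (a : ℤ × ℤ) (κ : ℕ × ℕ) :
    NN (e a (κ.1 + ht c a κ.2, κ.2) - H b c a (e a) κ) := by
  have h := congrArg (PowerSeries.coeff (κ.1 + ht c a κ.2)) (row_H_mul b c a (e a) κ.2)
  rw [coeff_row, PowerSeries.coeff_mul] at h
  rw [← h, ← Finset.add_sum_erase _ _
    (Finset.HasAntidiagonal.mem_antidiagonal.mpr rfl :
      (κ.1, ht c a κ.2) ∈ antidiagonal (κ.1 + ht c a κ.2))]
  rw [coeff_row, coeff_P, qb_self, mul_one, add_sub_cancel_left]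
  refine NN.sum fun A _ => ?_
  rw [coeff_row, coeff_P]
  exact ((he.A2 hb hc a).1 _).mul (NN_qb _ _ _)

end PosFam

/-- The quadratic form `Q(p,q) = b p² + c q² - b c p q`. -/
def QQ (b c : ℤ) (κ : ℕ × ℕ) : ℤ := b * κ.1 ^ 2 + c * κ.2 ^ 2 - b * c * κ.1 * κ.2

theorem QQ_swap (b c : ℤ) (κ : ℕ × ℕ) : QQ c b κ.swap = QQ b c κ := by
  simp only [QQ, Prod.fst_swap, Prod.snd_swap]; ring

namespace PosFam

variable {b c : ℤ} {e : ℤ × ℤ → ℕ × ℕ → R}

/-- (A3): vanishing of the row transform. -/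
theorem A3 (hb : 0 ≤ b) (hc : 0 ≤ c) (he : PosFam b c e) {a : ℤ × ℤ} (h1 : 0 ≤ a.1)
    (h2 : 0 ≤ a.2) {κ : ℕ × ℕ} (h : 0 < LL b c κ a + QQ b c κ) : H b c a (e a) κ = 0 := by
  refine eq_zero_of_SG_invert ?_ (he.invert_H a κ)
  refine SG.of_le ?_ ((he.A2 hb hc a).1 κ) (he.H_le hb hc a κ)
  refine SG.of_le ?_ ((he.A1 hb hc a).1 _) (he.bound hb hc a _)
  refine SG.mono ((SG_T _).mul ((SG_qb hc _ _).mul (SG_qb hb _ _))) ?_
  dsimp only
  rw [Int.toNat_of_nonneg h1, Int.toNat_of_nonneg h2]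
  have hp : (0 : ℤ) ≤ κ.1 := by positivity
  have hq : (0 : ℤ) ≤ κ.2 := by positivity
  simp only [LL, QQ] at h
  rcases le_or_gt 0 (a.2 - c * κ.2) with hn | hn
  · have : ((ht c a κ.2 : ℕ) : ℤ) = a.2 - c * κ.2 := by rw [ht, Int.toNat_of_nonneg hn]
    push_cast
    rw [this]
    nlinarith
  · have : ht c a κ.2 = 0 := by rw [ht, Int.toNat_of_nonpos hn.le]
    rw [this]
    push_cast
    nlinarith [mul_nonneg (mul_nonneg hb hp) (sub_nonneg.mpr (by omega : a.2 ≤ c * κ.2))]

theorem A3t (hb : 0 ≤ b) (hc : 0 ≤ c) (he : PosFam b c e) {a : ℤ × ℤ} (h1 : 0 ≤ a.1)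
    (h2 : 0 ≤ a.2) {κ : ℕ × ℕ} (h : 0 < - LL b c κ a + QQ b c κ) : Ht b c a (e a) κ = 0 := by
  have := he.flip.A3 hc hb (a := a.swap) h2 h1 (κ := κ.swap)
    (by rw [LL_swap, QQ_swap]; exact h)
  rwa [H_flf, Prod.swap_swap, Prod.swap_swap] at this

/-- (A4), Claim U: in the stable range the element of the positive family is greedy. -/
theorem stable (hb : 0 ≤ b) (hc : 0 ≤ c) (he : PosFam b c e) {g : ℤ × ℤ → ℕ × ℕ → R}
    (hg : GreedyFam b c g) {u : ℤ × ℤ} (h1 : 0 ≤ u.1) (h2 : 0 ≤ u.2) {κ₀ : ℕ × ℕ}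
    (h : ∀ κ ≤ κ₀, κ ≠ 0 → 0 < |LL b c κ u| + QQ b c κ) : ∀ κ ≤ κ₀, e u κ = g u κ := by
  intro κ
  induction κ using WellFoundedLT.induction with
  | ind κ ih =>
    intro hκ
    by_cases h0 : κ = 0
    · rw [h0, he.one, hg.one]
    · rcases le_total 0 (LL b c κ u) with hL | hL
      · have hh := h κ hκ h0
        rw [abs_of_nonneg hL] at hh
        refine eq_of_H_eq (b := b) (c := c) (a := u)
          (fun κ' hlt => ih κ' hlt (hlt.le.trans hκ)) ?_
        rw [he.A3 hb hc h1 h2 hh, hg.row u κ h0 hL]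
      · have hh := h κ hκ h0
        rw [abs_of_nonpos hL] at hh
        have : fl (e u) κ.swap = fl (g u) κ.swap := by
          refine eq_of_H_eq (b := c) (c := b) (a := u.swap) (fun κ' hlt => ?_) ?_
          · have hlt' : κ'.swap < κ := by
              rw [← Prod.swap_lt_swap, Prod.swap_swap]; exact hlt
            exact ih κ'.swap hlt' (hlt'.le.trans hκ)
          · have e1 := he.A3t hb hc h1 h2 hh
            have e2 := hg.col u κ h0 hL
            rw [Ht] at e1 e2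
            rw [e1, e2]
        simpa using this

end PosFam

end Pool.Agent.Work.MP_c41774_al

end
end

section

/-!
# Vanishing of expansion coefficients
-/

noncomputable section

namespace Pool.Agent.Work.MP_c41774_al

open LaurentPolynomial Finset

theorem H_at_zero {b c : ℤ} {a : ℤ × ℤ} {x : ℕ × ℕ → R} : H b c a x 0 = x 0 :=
  H_zero_zero b c a x 0

theorem vanish_row {b c : ℤ} {g : ℤ × ℤ → ℕ × ℕ → R} (hg : GreedyFam b c g) {s : ℤ × ℤ}
    {κ₀ : ℕ × ℕ} {α z : ℕ × ℕ → R}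
    (hz : ∀ κ ≤ κ₀, z κ = ∑ κ' ∈ Finset.Iic κ, α κ' * M b c g s κ' κ)
    (S : ℕ × ℕ → Prop) (h1 : ∀ κ ≤ κ₀, H b c s z κ ≠ 0 → S κ)
    (h2 : ∀ κ'' κ, κ'' ≤ κ → κ ≤ κ₀ → κ'' ≠ κ → S κ'' →
      LL b c (κ - κ'') (s - kk b c κ'') < 0 → S κ) :
    ∀ κ ≤ κ₀, α κ ≠ 0 → S κ := by
  intro κ
  induction κ using WellFoundedLT.induction with
  | ind κ ih =>
    intro hκ hα
    by_contra hS
    have hH0 : H b c s z κ = 0 := by
      by_contra h; exact hS (h1 κ hκ h)
    have e1 : H b c s z κ = ∑ κ' ∈ Finset.Iic κ₀, α κ' * H b c s (M b c g s κ') κ := by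
      rw [← H_sum]
      refine H_congr fun κ₁ h₁ => ?_
      rw [hz κ₁ (h₁.trans hκ), sum_Iic_extend (h₁.trans hκ)]
    rw [e1, Finset.sum_eq_single κ] at hH0
    · rw [H_M, if_pos le_rfl, tsub_self, H_at_zero, hg.one, mul_one] at hH0
      exact hα hH0
    · intro κ' hκ' hne
      rw [H_M]
      split_ifs with hle
      · by_contra hcon
        have hα' : α κ' ≠ 0 := left_ne_zero_of_mul hcon
        have hH' := right_ne_zero_of_mul hcon
        have hlt : κ' < κ := lt_of_le_of_ne hle hne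
        have hS' := ih κ' hlt (hle.trans hκ) hα'
        apply hS
        refine h2 κ' κ hle hκ hne hS' ?_
        by_contra hL
        push Not at hL
        apply hH'
        refine hg.row _ _ (fun h0 => hne ?_) hL
        exact le_antisymm hle (tsub_eq_zero_iff_le.mp h0)
      · rw [mul_zero]
    · intro h; exact absurd (Finset.mem_Iic.mpr hκ) h

theorem swap_sub (κ κ' : ℕ × ℕ) : (κ - κ').swap = κ.swap - κ'.swap := rfl

theorem Ht_M (b c : ℤ) (g : ℤ × ℤ → ℕ × ℕ → R) (s : ℤ × ℤ) (κ' κ : ℕ × ℕ) :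
    Ht b c s (M b c g s κ') κ =
      if κ' ≤ κ then Ht b c (s - kk b c κ') (g (s - kk b c κ')) (κ - κ') else 0 := by
  have e1 : fl (M b c g s κ') = M c b (flf g) s.swap κ'.swap := by
    funext κ₁
    rw [fl_apply, ← M_flf, Prod.swap_swap]
  rw [Ht, e1, H_M]
  by_cases h : κ' ≤ κ
  · rw [if_pos h, if_pos (Prod.swap_le_swap.mpr h), Ht]
    rfl
  · rw [if_neg h, if_neg (fun h' => h (Prod.swap_le_swap.mp h'))]

theorem vanish_col {b c : ℤ} {g : ℤ × ℤ → ℕ × ℕ → R} (hg : GreedyFam b c g) {s : ℤ × ℤ}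
    {κ₀ : ℕ × ℕ} {α z : ℕ × ℕ → R}
    (hz : ∀ κ ≤ κ₀, z κ = ∑ κ' ∈ Finset.Iic κ, α κ' * M b c g s κ' κ)
    (S : ℕ × ℕ → Prop) (h1 : ∀ κ ≤ κ₀, Ht b c s z κ ≠ 0 → S κ)
    (h2 : ∀ κ'' κ, κ'' ≤ κ → κ ≤ κ₀ → κ'' ≠ κ → S κ'' →
      0 < LL b c (κ - κ'') (s - kk b c κ'') → S κ) :
    ∀ κ ≤ κ₀, α κ ≠ 0 → S κ := by
  intro κ hκ hα
  have := vanish_row hg.flip (s := s.swap) (κ₀ := κ₀.swap) (α := fl α) (z := fl z)
    (fun κ₁ h₁ => ?_) (fun κ₁ => S κ₁.swap) (fun κ₁ h₁ hh => ?_)
    (fun κ₂ κ₁ h₂₁ h₁ hne hS hL => ?_) κ.swap (Prod.swap_le_swap.mpr hκ)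
    (by simpa using hα)
  · simpa using this
  · rw [fl_apply, hz κ₁.swap (Prod.swap_le_swap.mp (by simpa using h₁)), sum_Iic_swap]
    refine Finset.sum_congr rfl fun κ' _ => ?_
    rw [fl_apply, ← M_flf]
    simp
  · apply h1 κ₁.swap (Prod.swap_le_swap.mp (by simpa using h₁))
    rw [Ht, Prod.swap_swap]
    exact hh
  · refine h2 κ₂.swap κ₁.swap (Prod.swap_le_swap.mpr h₂₁)
      (Prod.swap_le_swap.mp (by simpa using h₁)) (fun h => hne (Prod.swap_injective h)) hS ?_
    have e := LL_swap' b c (κ₁ - κ₂) (s.swap - kk c b κ₂)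
    have e2 : (s.swap - kk c b κ₂).swap = s - kk b c κ₂.swap := by
      ext <;> simp
    rw [e2, swap_sub] at e
    rw [e]
    omega

/-- Support of the column transform of a product, in the region of nonnegative widths. -/
theorem Ht_conv_ne_zero {b c : ℤ} (hb : 0 ≤ b) {a u : ℤ × ℤ} {x y : ℕ × ℕ → R} {κ : ℕ × ℕ}
    (ha : 0 ≤ a.1 - b * κ.1) (hu : 0 ≤ u.1 - b * κ.1)
    (h : Ht b c (a + u) (conv b c a u x y) κ ≠ 0) :
    ∃ κ₁ κ₂ : ℕ × ℕ, κ₁ + κ₂ = κ ∧ Ht b c a x κ₁ ≠ 0 ∧ Ht b c u y κ₂ ≠ 0 := by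
  have e1 : fl (conv b c a u x y) = conv c b u.swap a.swap (fl y) (fl x) := by
    funext κ₁
    rw [fl_apply, ← conv_flip, Prod.swap_swap]
  rw [Ht, e1] at h
  have e2 : (a + u).swap = u.swap + a.swap := by ext <;> simp [add_comm]
  rw [e2] at h
  obtain ⟨κ₁, κ₂, h12, hx, hy⟩ := H_conv_ne_zero (b := c) (c := b) hb (a := u.swap) (u := a.swap)
    (κ := κ.swap) (by simpa using hu) (by simpa using ha) h
  refine ⟨κ₂.swap, κ₁.swap, ?_, ?_, ?_⟩
  · rw [← Prod.swap_inj, ← h12]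
    ext <;> simp [add_comm]
  · rw [Ht, Prod.swap_swap]; exact hy
  · rw [Ht, Prod.swap_swap]; exact hx

/-! ### Arithmetic of the linear form -/

theorem LL_add_left (b c : ℤ) (κ κ' : ℕ × ℕ) (a : ℤ × ℤ) :
    LL b c (κ + κ') a = LL b c κ a + LL b c κ' a := by
  simp only [LL, Prod.fst_add, Prod.snd_add]; push_cast; ring

theorem LL_add_right (b c : ℤ) (κ : ℕ × ℕ) (a a' : ℤ × ℤ) :
    LL b c κ (a + a') = LL b c κ a + LL b c κ a' := by
  simp only [LL, Prod.fst_add, Prod.snd_add]; ring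

theorem LL_kk_self (b c : ℤ) (κ : ℕ × ℕ) : LL b c κ (kk b c κ) = 0 := by
  simp only [LL, kk_fst, kk_snd]; ring

theorem LL_zero (b c : ℤ) (a : ℤ × ℤ) : LL b c 0 a = 0 := by simp [LL]

/-- key claim K, first half -/
theorem LL_key {b c : ℤ} (hb : 0 < b) (hc : 0 < c) {d : ℤ × ℤ} (hd2 : 0 < d.2)
    {κ κe : ℕ × ℕ} (h : LL b c κ d ≤ 0) (he : 0 ≤ LL b c κe d) :
    LL b c κ (d + kk b c κe) ≤ LL b c κ d := by
  rw [LL_add_right]
  have hq : (0 : ℤ) ≤ κ.2 := by positivity
  have hqe : (0 : ℤ) ≤ κe.2 := by positivity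
  simp only [LL, kk_fst, kk_snd] at *
  have h1 : (b * d.2) * ((κ.1 : ℤ) * κe.2 - κ.2 * κe.1) ≤ 0 := by
    nlinarith [mul_nonneg he hq, mul_nonneg (sub_nonneg.mpr h) hqe]
  have h2 : (κ.1 : ℤ) * κe.2 - κ.2 * κe.1 ≤ 0 := by
    by_contra hcon
    push Not at hcon
    have := mul_pos (mul_pos hb hd2) hcon
    omega
  have h3 : 0 ≤ b * c := by positivity
  nlinarith [mul_nonneg h3 (neg_nonneg.mpr h2)]

/-- key claim K, second half -/
theorem LL_key' {b c : ℤ} (hb : 0 < b) (hc : 0 < c) {d : ℤ × ℤ} (hd2 : 0 < d.2)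
    {κ κe : ℕ × ℕ} (h : 0 ≤ LL b c κ d) (he : LL b c κe d ≤ 0) :
    LL b c κ d ≤ LL b c κ (d + kk b c κe) := by
  rw [LL_add_right]
  have hq : (0 : ℤ) ≤ κ.2 := by positivity
  have hqe : (0 : ℤ) ≤ κe.2 := by positivity
  simp only [LL, kk_fst, kk_snd] at *
  have h1 : 0 ≤ (b * d.2) * ((κ.1 : ℤ) * κe.2 - κ.2 * κe.1) := by
    nlinarith [mul_nonneg h hqe, mul_nonneg (sub_nonneg.mpr he) hq]
  have h2 : 0 ≤ (κ.1 : ℤ) * κe.2 - κ.2 * κe.1 := by
    by_contra hcon
    push Not at hcon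
    have := mul_neg_of_pos_of_neg (mul_pos hb hd2) hcon
    omega
  have h3 : 0 ≤ b * c := by positivity
  nlinarith [mul_nonneg h3 h2]

end Pool.Agent.Work.MP_c41774_al

end
end

section

/-!
# The cone theorem at the level of coefficient functions
-/

noncomputable section

namespace Pool.Agent.Work.MP_c41774_al

open LaurentPolynomial Finset

/-- The pair of numerical facts used about the large vector `u`. -/
structure Big (b c : ℤ) (κ₀ : ℕ × ℕ) (d u : ℤ × ℤ) (C : ℤ) : Prop where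
  pos : ∀ κ ≤ κ₀, 0 < LL b c κ d → C < LL b c κ u
  neg : ∀ κ ≤ κ₀, κ ≠ 0 → LL b c κ d ≤ 0 → LL b c κ u < -C
  h1 : b * κ₀.1 ≤ u.1
  h2 : c * κ₀.2 ≤ u.2

theorem exists_big {b c : ℤ} (hb : 0 < b) (hc : 0 < c) (κ₀ : ℕ × ℕ) {d : ℤ × ℤ}
    (hd1 : 0 < d.1) (hd2 : 0 < d.2) {C : ℤ} (hC : 0 ≤ C) : ∃ u, Big b c κ₀ d u C := by
  have hP : (0 : ℤ) ≤ κ₀.1 := by positivity
  have hQ : (0 : ℤ) ≤ κ₀.2 := by positivity
  have hbP : 0 ≤ b * κ₀.1 := by positivity
  have hcQ : 0 ≤ c * κ₀.2 := by positivity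
  have hMcQ : 0 ≤ (C + 1) * (c * κ₀.2) := by positivity
  have hcQ' : c * κ₀.2 ≤ (C + 1) * (c * κ₀.2) := by nlinarith
  set N : ℤ := C + 1 + (C + 1) * (c * κ₀.2) + b * κ₀.1 with hN
  have hN0 : 0 ≤ N := by omega
  refine ⟨(N * d.1 + (C + 1), N * d.2), ?_, ?_, ?_, ?_⟩
  · intro κ hκ hL
    have hq : (κ.2 : ℤ) ≤ κ₀.2 := by exact_mod_cast hκ.2
    have e1 : LL b c κ (N * d.1 + (C + 1), N * d.2) =
        N * LL b c κ d - (C + 1) * (c * κ.2) := by simp only [LL]; ring
    rw [e1]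
    have h1 : N ≤ N * LL b c κ d := by nlinarith
    have h2 : (C + 1) * (c * κ.2) ≤ (C + 1) * (c * κ₀.2) := by
      have := mul_le_mul_of_nonneg_left hq hc.le
      nlinarith
    omega
  · intro κ hκ h0 hL
    have e1 : LL b c κ (N * d.1 + (C + 1), N * d.2) =
        N * LL b c κ d - (C + 1) * (c * κ.2) := by simp only [LL]; ring
    rw [e1]
    have h1 : N * LL b c κ d ≤ 0 := mul_nonpos_of_nonneg_of_nonpos hN0 hL
    have h2 : 1 ≤ (κ.2 : ℤ) := by
      by_contra hcon
      have hq0 : κ.2 = 0 := by omega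
      have hp0 : κ.1 ≠ 0 := fun hp => h0 (Prod.ext hp hq0)
      have hp1 : 0 < (κ.1 : ℤ) := by positivity
      simp only [LL, hq0] at hL
      have := mul_pos (mul_pos hb hp1) hd2
      simp only [Nat.cast_zero, mul_zero, zero_mul, sub_zero] at hL
      omega
    have h3 : C + 1 ≤ (C + 1) * (c * κ.2) := by
      have : 1 ≤ c * κ.2 := by nlinarith
      nlinarith
    omega
  · simp only
    have : N ≤ N * d.1 := by nlinarith
    omega
  · simp only
    have : N ≤ N * d.2 := by nlinarith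
    omega

theorem expand_eq_zero {b c : ℤ} {g : ℤ × ℤ → ℕ × ℕ → R} {s : ℤ × ℤ} {κ₀ : ℕ × ℕ}
    {z : ℕ × ℕ → R} (hz : ∀ κ < κ₀, z κ = 0) : ∀ κ < κ₀, expand b c g s z κ = 0 := by
  intro κ
  induction κ using WellFoundedLT.induction with
  | ind κ ih =>
    intro hκ
    rw [expand_eq, hz κ hκ, Finset.sum_eq_zero, sub_zero]
    intro κ' hκ'
    have := Finset.mem_Iio.mp hκ'
    rw [ih κ' this (this.trans hκ), zero_mul]

theorem expand_at {b c : ℤ} {g : ℤ × ℤ → ℕ × ℕ → R} {s : ℤ × ℤ} {κ₀ : ℕ × ℕ}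
    {z : ℕ × ℕ → R} (hz : ∀ κ < κ₀, z κ = 0) : expand b c g s z κ₀ = z κ₀ := by
  rw [expand_eq, Finset.sum_eq_zero, sub_zero]
  intro κ' hκ'
  rw [expand_eq_zero hz κ' (Finset.mem_Iio.mp hκ'), zero_mul]

section

variable {b c : ℤ} {g : ℤ × ℤ → ℕ × ℕ → R}

/-- The vanishing statement for the product of two greedy elements. -/
theorem alpha_eq_zero (hb : 0 < b) (hc : 0 < c) (hg : GreedyFam b c g) {a u : ℤ × ℤ}
    {κ₀ κ' : ℕ × ℕ} {C : ℤ}
    (hd1 : 0 < a.1 - b * κ₀.1) (hd2 : 0 < a.2 - c * κ₀.2)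
    (hu : Big b c κ₀ (a - kk b c κ₀) u C)
    (hC : ∀ κ ≤ κ₀, ∀ κ'' ≤ κ₀, |LL b c κ (a - kk b c κ'')| ≤ C)
    (hle : κ' ≤ κ₀) (hne : κ' ≠ κ₀) :
    expand b c g (a + u) (conv b c a u (M b c g a κ') (g u)) κ₀ = 0 := by
  set z := conv b c a u (M b c g a κ') (g u) with hzdef
  set d := a - kk b c κ₀ with hd
  have hC0 : 0 ≤ C := (abs_nonneg _).trans (hC κ₀ le_rfl κ₀ le_rfl)
  obtain ⟨κe, rfl⟩ := exists_add_of_le hle
  have hκe : κe ≠ 0 := by rintro rfl; exact hne (by simp)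
  set e' := a - kk b c κ' with he'
  have hde : e' = d + kk b c κe := by
    rw [hd, he']
    ext <;> simp <;> ring
  have hcoord : ∀ κ ≤ κ' + κe, 0 ≤ a.1 - b * κ.1 ∧ 0 ≤ a.2 - c * κ.2 := by
    intro κ hκ
    have h1 : b * (κ.1 : ℤ) ≤ b * ((κ' + κe).1 : ℕ) :=
      mul_le_mul_of_nonneg_left (by exact_mod_cast hκ.1) hb.le
    have h2 : c * (κ.2 : ℤ) ≤ c * ((κ' + κe).2 : ℕ) :=
      mul_le_mul_of_nonneg_left (by exact_mod_cast hκ.2) hc.le
    constructor <;> omega
  have hcoordu : ∀ κ ≤ κ' + κe, 0 ≤ u.1 - b * κ.1 ∧ 0 ≤ u.2 - c * κ.2 := by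
    intro κ hκ
    have h1 : b * (κ.1 : ℤ) ≤ b * ((κ' + κe).1 : ℕ) :=
      mul_le_mul_of_nonneg_left (by exact_mod_cast hκ.1) hb.le
    have h2 : c * (κ.2 : ℤ) ≤ c * ((κ' + κe).2 : ℕ) :=
      mul_le_mul_of_nonneg_left (by exact_mod_cast hκ.2) hc.le
    have := hu.h1
    have := hu.h2
    constructor <;> omega
  have hLe : LL b c κe e' = LL b c κe d := by
    rw [hde, LL_add_right, LL_kk_self, add_zero]
  have hz : ∀ κ ≤ κ' + κe, z κ = ∑ κ'' ∈ Finset.Iic κ,
      expand b c g (a + u) z κ'' * M b c g (a + u) κ'' κ :=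
    fun κ _ => expand_spec hg.one (a + u) z κ
  have hdpos : 0 < d.2 := by simpa [hd] using hd2
  by_contra hcon
  rcases lt_or_ge 0 (LL b c κe d) with hL | hL
  · -- use the row transform
    have hK : ∀ κ₂ ≤ κ' + κe, LL b c κ₂ u ≤ C → LL b c κ₂ e' ≤ 0 := by
      intro κ₂ h₂ hLu
      have hLd : LL b c κ₂ d ≤ 0 := by
        by_contra h
        push Not at h
        have := hu.pos κ₂ h₂ h
        omega
      rw [hde]
      exact (LL_key hb hc hdpos hLd hL.le).trans hLd
    have hS := vanish_row hg hz (fun κ => LL b c κ e' ≤ LL b c κ' e') ?_ ?_ _ le_rfl hcon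
    · rw [LL_add_left, hLe] at hS
      omega
    · intro κ hκ hHne
      obtain ⟨κ₁, κ₂, h12, hx, hy⟩ := H_conv_ne_zero hc.le (hcoord κ hκ).2 (hcoordu κ hκ).2 hHne
      have hκ₁ : κ₁ ≤ κ := by rw [← h12]; exact le_add_of_nonneg_right zero_le
      have hκ₂ : κ₂ ≤ κ := by rw [← h12]; exact le_add_of_nonneg_left zero_le
      rw [H_M] at hx
      split_ifs at hx with hle1
      · obtain ⟨δ, rfl⟩ := exists_add_of_le hle1
        rw [add_tsub_cancel_left] at hx
        have h1 : LL b c δ e' ≤ 0 := by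
          by_cases hδ : δ = 0
          · rw [hδ, LL_zero]
          · by_contra h
            push Not at h
            exact hx (hg.row _ _ hδ h.le)
        have h2 : LL b c κ₂ e' ≤ 0 := by
          refine hK κ₂ (hκ₂.trans hκ) ?_
          by_contra h
          push Not at h
          apply hy
          refine hg.row _ _ ?_ (hC0.trans h.le)
          rintro rfl
          rw [LL_zero] at h
          omega
        rw [← h12, LL_add_left, LL_add_left]
        omega
      · exact absurd rfl hx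
    · intro κ'' κ hle2 hκ hne2 hS2 hneg
      obtain ⟨δ, rfl⟩ := exists_add_of_le hle2
      rw [add_tsub_cancel_left] at hneg
      have hδ : δ ≤ κ' + κe := le_trans (le_add_of_nonneg_left zero_le) hκ
      have e1 : a + u - kk b c κ'' = u + (a - kk b c κ'') := by
        ext <;> simp <;> ring
      rw [e1, LL_add_right] at hneg
      have h1 := abs_le.mp (hC δ hδ κ'' (hle2.trans hκ))
      have h2 : LL b c δ e' ≤ 0 := hK δ hδ (by omega)
      rw [LL_add_left]
      omega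
  · -- use the column transform
    have hK : ∀ κ₂ ≤ κ' + κe, κ₂ ≠ 0 → -C ≤ LL b c κ₂ u → 0 < LL b c κ₂ e' := by
      intro κ₂ h₂ hne₂ hLu
      have hLd : 0 < LL b c κ₂ d := by
        by_contra h
        push Not at h
        have := hu.neg κ₂ h₂ hne₂ h
        omega
      rw [hde]
      exact hLd.trans_le (LL_key' hb hc hdpos hLd.le hL)
    have hS := vanish_col hg hz (fun κ => κ = κ' ∨ LL b c κ' e' < LL b c κ e') ?_ ?_ _ le_rfl hcon
    · rcases hS with hS | hS
      · exact hne hS.symm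
      · rw [LL_add_left, hLe] at hS
        omega
    · intro κ hκ hHne
      obtain ⟨κ₁, κ₂, h12, hx, hy⟩ :=
        Ht_conv_ne_zero hb.le (hcoord κ hκ).1 (hcoordu κ hκ).1 hHne
      have hκ₂ : κ₂ ≤ κ := by rw [← h12]; exact le_add_of_nonneg_left zero_le
      rw [Ht_M] at hx
      split_ifs at hx with hle1
      · obtain ⟨δ, rfl⟩ := exists_add_of_le hle1
        rw [add_tsub_cancel_left] at hx
        have h1 : δ ≠ 0 → 0 < LL b c δ e' := by
          intro hδ
          by_contra h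
          push Not at h
          exact hx (hg.col _ _ hδ h)
        have h2 : κ₂ ≠ 0 → 0 < LL b c κ₂ e' := by
          intro hne₂
          refine hK κ₂ (hκ₂.trans hκ) hne₂ ?_
          by_contra h
          push Not at h
          apply hy
          exact hg.col _ _ hne₂ (by omega)
        by_cases hδ : δ = 0
        · by_cases hκ₂0 : κ₂ = 0
          · left
            rw [← h12, hδ, hκ₂0]; simp
          · right
            have := h2 hκ₂0
            rw [← h12, LL_add_left, LL_add_left, hδ, LL_zero]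
            omega
        · right
          have := h1 hδ
          rw [← h12, LL_add_left, LL_add_left]
          by_cases hκ₂0 : κ₂ = 0
          · rw [hκ₂0, LL_zero]; omega
          · have := h2 hκ₂0
            omega
      · exact absurd rfl hx
    · intro κ'' κ hle2 hκ hne2 hS2 hpos
      obtain ⟨δ, rfl⟩ := exists_add_of_le hle2
      rw [add_tsub_cancel_left] at hpos
      have hδ : δ ≤ κ' + κe := le_trans (le_add_of_nonneg_left zero_le) hκ
      have hδ0 : δ ≠ 0 := by rintro rfl; exact hne2 (by simp)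
      have e1 : a + u - kk b c κ'' = u + (a - kk b c κ'') := by
        ext <;> simp <;> ring
      rw [e1, LL_add_right] at hpos
      have h1 := abs_le.mp (hC δ hδ κ'' (hle2.trans hκ))
      have h2 : 0 < LL b c δ e' := hK δ hδ hδ0 (by omega)
      right
      rw [LL_add_left]
      rcases hS2 with rfl | hS2 <;> omega

/-- numerical bounds -/
theorem LL_bounds (hb : 0 < b) (hc : 0 < c) {a : ℤ × ℤ} {κ₀ : ℕ × ℕ}
    (hd1 : 0 < a.1 - b * κ₀.1) (hd2 : 0 < a.2 - c * κ₀.2) :
    ∀ κ ≤ κ₀, ∀ κ'' ≤ κ₀, |LL b c κ (a - kk b c κ'')| ≤ b * κ₀.1 * a.2 + c * κ₀.2 * a.1 := by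
  intro κ hκ κ'' hκ''
  have hbP : 0 ≤ b * (κ₀.1 : ℤ) := by positivity
  have hcQ : 0 ≤ c * (κ₀.2 : ℤ) := by positivity
  have p1 : b * (κ.1 : ℤ) ≤ b * κ₀.1 :=
    mul_le_mul_of_nonneg_left (by exact_mod_cast hκ.1) hb.le
  have p2 : c * (κ.2 : ℤ) ≤ c * κ₀.2 :=
    mul_le_mul_of_nonneg_left (by exact_mod_cast hκ.2) hc.le
  have p3 : b * (κ''.1 : ℤ) ≤ b * κ₀.1 :=
    mul_le_mul_of_nonneg_left (by exact_mod_cast hκ''.1) hb.le
  have p4 : c * (κ''.2 : ℤ) ≤ c * κ₀.2 :=
    mul_le_mul_of_nonneg_left (by exact_mod_cast hκ''.2) hc.le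
  have q1 : 0 ≤ b * (κ.1 : ℤ) := by positivity
  have q2 : 0 ≤ c * (κ.2 : ℤ) := by positivity
  have q3 : 0 ≤ b * (κ''.1 : ℤ) := by positivity
  have q4 : 0 ≤ c * (κ''.2 : ℤ) := by positivity
  simp only [LL, Prod.fst_sub, Prod.snd_sub, kk_fst, kk_snd]
  have r1 : b * κ.1 * (a.2 - c * κ''.2) ≤ b * κ₀.1 * a.2 :=
    mul_le_mul p1 (by omega) (by omega) hbP
  have r2 : c * κ.2 * (a.1 - b * κ''.1) ≤ c * κ₀.2 * a.1 :=
    mul_le_mul p2 (by omega) (by omega) hcQ
  have r3 : 0 ≤ b * κ.1 * (a.2 - c * κ''.2) := mul_nonneg q1 (by omega)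
  have r4 : 0 ≤ c * κ.2 * (a.1 - b * κ''.1) := mul_nonneg q2 (by omega)
  rw [abs_le]
  constructor <;> omega

theorem QQ_bound (hb : 0 < b) (hc : 0 < c) {κ κ₀ : ℕ × ℕ} (hκ : κ ≤ κ₀) :
    -(b * c * κ₀.1 * κ₀.2) ≤ QQ b c κ := by
  have h1 : (κ.1 : ℤ) * κ.2 ≤ κ₀.1 * κ₀.2 := by
    exact_mod_cast Nat.mul_le_mul hκ.1 hκ.2
  have h2 : 0 ≤ b * (κ.1 : ℤ) ^ 2 := by positivity
  have h3 : 0 ≤ c * (κ.2 : ℤ) ^ 2 := by positivity
  have h4 : 0 ≤ b * c := by positivity
  have h5 := mul_le_mul_of_nonneg_left h1 h4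
  simp only [QQ]
  nlinarith

variable {e : ℤ × ℤ → ℕ × ℕ → R} {r : ℤ × ℤ → ℕ × ℕ → R}

/-- Interior case of the cone theorem. -/
theorem interior (hb : 0 < b) (hc : 0 < c) (hg : GreedyFam b c g) (he : PosFam b c e)
    {a : ℤ × ℤ} {ρ : ℕ × ℕ → R}
    (hρ : ∀ κ, e a κ = ∑ κ' ∈ Finset.Iic κ, ρ κ' * M b c g a κ' κ) {κ₀ : ℕ × ℕ}
    (hd1 : 0 < a.1 - b * κ₀.1) (hd2 : 0 < a.2 - c * κ₀.2) : NN (ρ κ₀) := by
  have hP : (0 : ℤ) ≤ κ₀.1 := by positivity
  have hQ : (0 : ℤ) ≤ κ₀.2 := by positivity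
  have hbP : 0 ≤ b * (κ₀.1 : ℤ) := by positivity
  have hcQ : 0 ≤ c * (κ₀.2 : ℤ) := by positivity
  set C₁ : ℤ := b * κ₀.1 * a.2 + c * κ₀.2 * a.1 with hC₁
  set C₂ : ℤ := b * c * κ₀.1 * κ₀.2 with hC₂
  have hC₂0 : 0 ≤ C₂ := by positivity
  have hC₁0 : 0 ≤ C₁ := by
    have := mul_nonneg hbP (by omega : 0 ≤ a.2)
    have := mul_nonneg hcQ (by omega : 0 ≤ a.1)
    omega
  obtain ⟨u, hu⟩ := exists_big hb hc κ₀ (d := a - kk b c κ₀) hd1 hd2 (C := C₁ + C₂) (by omega)
  have hu' : Big b c κ₀ (a - kk b c κ₀) u (C₁ + C₂) := hu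
  have hCb := LL_bounds hb hc hd1 hd2
  have hQb : ∀ κ ≤ κ₀, -C₂ ≤ QQ b c κ := fun κ hκ => QQ_bound hb hc hκ
  have hLu : ∀ κ ≤ κ₀, κ ≠ 0 → C₁ + C₂ < |LL b c κ u| := by
    intro κ hκ h0
    rcases lt_or_ge 0 (LL b c κ (a - kk b c κ₀)) with h | h
    · have := hu'.pos κ hκ h
      exact this.trans_le (le_abs_self _)
    · have := hu'.neg κ hκ h0 h
      have h2 := neg_le_abs (LL b c κ u)
      omega
  have hu1 : 0 ≤ u.1 := hbP.trans hu.h1
  have hu2 : 0 ≤ u.2 := hcQ.trans hu.h2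
  -- stability at `u`
  have st1 : ∀ κ ≤ κ₀, e u κ = g u κ := by
    refine he.stable hb.le hc.le hg hu1 hu2 fun κ hκ h0 => ?_
    have := hLu κ hκ h0
    have := hQb κ hκ
    omega
  -- stability at `a + u - kk κ''`
  have st2 : ∀ κ'' ≤ κ₀, ∀ κ ≤ κ₀, e (a + u - kk b c κ'') κ = g (a + u - kk b c κ'') κ := by
    intro κ'' hκ''
    have p3 : b * (κ''.1 : ℤ) ≤ b * κ₀.1 :=
      mul_le_mul_of_nonneg_left (by exact_mod_cast hκ''.1) hb.le
    have p4 : c * (κ''.2 : ℤ) ≤ c * κ₀.2 :=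
      mul_le_mul_of_nonneg_left (by exact_mod_cast hκ''.2) hc.le
    refine he.stable hb.le hc.le hg ?_ ?_ fun κ hκ h0 => ?_
    · simp only [Prod.fst_sub, Prod.fst_add, kk_fst]; omega
    · simp only [Prod.snd_sub, Prod.snd_add, kk_snd]; omega
    · have e1 : a + u - kk b c κ'' = u + (a - kk b c κ'') := by
        ext <;> simp <;> ring
      rw [e1, LL_add_right]
      have h1 := hLu κ hκ h0
      have h2 := hQb κ hκ
      have h3 := hCb κ hκ κ'' hκ''
      have h4 := abs_sub_abs_le_abs_sub (LL b c κ u) (-(LL b c κ (a - kk b c κ'')))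
      rw [abs_neg, sub_neg_eq_add] at h4
      omega
  obtain ⟨β, hβ1, _, hβ3⟩ := he.mul a u
  -- expansion of the product
  have hprod : ∀ κ ≤ κ₀, conv b c a u (e a) (e u) κ =
      ∑ κ'' ∈ Finset.Iic κ, (∑ κ' ∈ Finset.Iic κ₀, ρ κ' *
        expand b c g (a + u) (conv b c a u (M b c g a κ') (g u)) κ'') *
          M b c g (a + u) κ'' κ := by
    intro κ hκ
    have e1 : conv b c a u (e a) (e u) κ =
        conv b c a u (fun κ₁ => ∑ κ' ∈ Finset.Iic κ₀, ρ κ' * M b c g a κ' κ₁) (g u) κ := by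
      refine conv_congr (fun κ₁ h₁ => ?_) (fun κ₁ h₁ => st1 κ₁ (h₁.trans hκ))
      rw [hρ κ₁, sum_Iic_extend (h₁.trans hκ)]
    rw [e1, conv_sum]
    simp only [Finset.sum_mul]
    rw [Finset.sum_comm]
    refine Finset.sum_congr rfl fun κ' _ => ?_
    rw [expand_spec hg.one (a + u) (conv b c a u (M b c g a κ') (g u)) κ, Finset.mul_sum]
    refine Finset.sum_congr rfl fun κ'' _ => ?_
    ring
  have huniq := expand_unique (b := b) (c := c) (g := g) (g' := e) (s := a + u) (κ₀ := κ₀)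
    (α := fun κ'' => ∑ κ' ∈ Finset.Iic κ₀, ρ κ' *
        expand b c g (a + u) (conv b c a u (M b c g a κ') (g u)) κ'') (α' := β) hg.one
    (fun κ' κ h1 h2 => by
      rw [M_of_le h1, M_of_le h1]
      exact (st2 κ' (h1.trans h2) (κ - κ') (tsub_le_self.trans h2)).symm)
    (fun κ hκ => by rw [← hprod κ hκ, hβ3 κ]) κ₀ le_rfl
  rw [Finset.sum_eq_single κ₀] at huniq
  · -- the diagonal term
    have hz : ∀ κ, κ < κ₀ → conv b c a u (M b c g a κ₀) (g u) κ = 0 := by
      intro κ hκ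
      rw [conv_congr (x' := fun _ => 0) (y' := g u) (fun κ₁ h₁ => ?_) (fun _ _ => rfl)]
      · simp [conv]
      · exact M_of_not_le (fun h => absurd (h.trans h₁) (not_le_of_gt hκ))
    rw [expand_at hz] at huniq
    have hdiag : conv b c a u (M b c g a κ₀) (g u) κ₀ = T (tw b c a u κ₀ 0) := by
      rw [conv, Finset.sum_eq_single (κ₀.1, 0), Finset.sum_eq_single (κ₀.2, 0)]
      · show T (tw b c a u κ₀ 0) * (M b c g a κ₀ κ₀ * g u 0) = _
        rw [M_self hg.one, hg.one, mul_one, mul_one]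
      · intro B hB hneB
        have hB := Finset.HasAntidiagonal.mem_antidiagonal.mp hB
        rw [M_of_not_le, zero_mul, mul_zero]
        intro h
        have h2 : κ₀.2 ≤ B.1 := h.2
        exact hneB (Prod.ext (by simp only; omega) (by simp only; omega))
      · intro h; exact absurd (by simp) h
      · intro A hA hneA
        have hA := Finset.HasAntidiagonal.mem_antidiagonal.mp hA
        refine Finset.sum_eq_zero fun B _ => ?_
        rw [M_of_not_le, zero_mul, mul_zero]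
        intro h
        have h2 : κ₀.1 ≤ A.1 := h.1
        exact hneA (Prod.ext (by simp only; omega) (by simp only; omega))
      · intro h; exact absurd (by simp) h
    rw [hdiag, mul_comm] at huniq
    rw [← NN_T_mul, huniq]
    exact hβ1 κ₀
  · intro κ' hκ' hne
    rw [alpha_eq_zero hb hc hg hd1 hd2 hu' (fun κ hκ κ'' hκ'' => (hCb κ hκ κ'' hκ'').trans ?_)
      (Finset.mem_Iic.mp hκ') hne, mul_zero]
    omega
  · intro h; exact absurd (Finset.mem_Iic.mpr le_rfl) h

/-- Boundary case `d₁ ≤ 0 ≤ d₂`. -/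
theorem boundary_row (hb : 0 < b) (hc : 0 < c) (hg : GreedyFam b c g)
    {a : ℤ × ℤ} {ρ : ℕ × ℕ → R}
    (hρ : ∀ κ, e a κ = ∑ κ' ∈ Finset.Iic κ, ρ κ' * M b c g a κ' κ) {κ₀ : ℕ × ℕ}
    (hd1 : a.1 - b * κ₀.1 ≤ 0) (hd2 : 0 ≤ a.2 - c * κ₀.2) : ρ κ₀ = H b c a (e a) κ₀ := by
  have e1 : H b c a (e a) κ₀ = ∑ κ' ∈ Finset.Iic κ₀, ρ κ' * H b c a (M b c g a κ') κ₀ := by
    rw [← H_sum]
    refine H_congr fun κ₁ h₁ => ?_
    rw [hρ κ₁, sum_Iic_extend h₁]
  rw [e1, Finset.sum_eq_single κ₀]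
  · rw [H_M, if_pos le_rfl, tsub_self, H_at_zero, hg.one, mul_one]
  · intro κ' hκ' hne
    have hle := Finset.mem_Iic.mp hκ'
    rw [H_M, if_pos hle]
    obtain ⟨δ, rfl⟩ := exists_add_of_le hle
    rw [add_tsub_cancel_left]
    have hδ : δ ≠ 0 := by rintro rfl; exact hne (by simp)
    rw [hg.row _ _ hδ, mul_zero]
    have e2 : a - kk b c κ' = (a - kk b c (κ' + δ)) + kk b c δ := by
      ext <;> simp <;> ring
    rw [e2, LL_add_right, LL_kk_self, add_zero]
    simp only [LL, Prod.fst_sub, Prod.snd_sub, kk_fst, kk_snd]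
    have q1 : 0 ≤ b * (δ.1 : ℤ) := by positivity
    have q2 : 0 ≤ c * (δ.2 : ℤ) := by positivity
    have r1 := mul_nonneg q1 hd2
    have r2 := mul_nonneg q2 (neg_nonneg.mpr hd1)
    nlinarith
  · intro h; exact absurd (Finset.mem_Iic.mpr le_rfl) h

theorem flip_expansion {a : ℤ × ℤ} {ρ : ℕ × ℕ → R}
    (hρ : ∀ κ, e a κ = ∑ κ' ∈ Finset.Iic κ, ρ κ' * M b c g a κ' κ) :
    ∀ κ, flf e a.swap κ = ∑ κ' ∈ Finset.Iic κ, fl ρ κ' * M c b (flf g) a.swap κ' κ := by
  intro κ
  rw [flf_apply, Prod.swap_swap, hρ, sum_Iic_swap]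
  refine Finset.sum_congr rfl fun κ' _ => ?_
  rw [fl_apply, ← M_flf, Prod.swap_swap, Prod.swap_swap]

/-- Boundary case `d₂ ≤ 0 ≤ d₁`. -/
theorem boundary_col (hb : 0 < b) (hc : 0 < c) (hg : GreedyFam b c g)
    {a : ℤ × ℤ} {ρ : ℕ × ℕ → R}
    (hρ : ∀ κ, e a κ = ∑ κ' ∈ Finset.Iic κ, ρ κ' * M b c g a κ' κ) {κ₀ : ℕ × ℕ}
    (hd1 : 0 ≤ a.1 - b * κ₀.1) (hd2 : a.2 - c * κ₀.2 ≤ 0) : ρ κ₀ = Ht b c a (e a) κ₀ := by
  have := boundary_row hc hb hg.flip (flip_expansion hρ) (κ₀ := κ₀.swap) hd2 hd1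
  rw [fl_apply, Prod.swap_swap] at this
  rw [this, H_flf, Prod.swap_swap, Prod.swap_swap]

/-- greedy coefficients at nonpositive positions vanish -/
theorem GreedyFam.vanish (hg : GreedyFam b c g) {a : ℤ × ℤ} {κ : ℕ × ℕ} (hκ : κ ≠ 0)
    (hd1 : a.1 - b * κ.1 ≤ 0) (hd2 : a.2 - c * κ.2 ≤ 0) : g a κ = 0 := by
  rcases le_total 0 (LL b c κ a) with h | h
  · have := hg.row a κ hκ h
    rwa [H, ht, Int.toNat_of_nonpos hd2, Pinv_zero, mul_one, coeff_row] at this
  · have := hg.col a κ hκ h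
    rwa [Ht, H, ht, Prod.snd_swap, Prod.snd_swap, Int.toNat_of_nonpos hd1, Pinv_zero, mul_one,
      coeff_row, fl_apply] at this

/-- Boundary case `d ≤ 0`. -/
theorem boundary_neg (hg : GreedyFam b c g)
    {a : ℤ × ℤ} {ρ : ℕ × ℕ → R}
    (hρ : ∀ κ, e a κ = ∑ κ' ∈ Finset.Iic κ, ρ κ' * M b c g a κ' κ) {κ₀ : ℕ × ℕ}
    (hd1 : a.1 - b * κ₀.1 ≤ 0) (hd2 : a.2 - c * κ₀.2 ≤ 0) : ρ κ₀ = e a κ₀ := by
  rw [hρ, Finset.sum_eq_single κ₀]
  · rw [M_self hg.one, mul_one]
  · intro κ' hκ' hne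
    have hle := Finset.mem_Iic.mp hκ'
    obtain ⟨δ, rfl⟩ := exists_add_of_le hle
    have hδ : δ ≠ 0 := by rintro rfl; exact hne (by simp)
    rw [M_add, hg.vanish hδ, mul_zero]
    · simp only [Prod.fst_sub, kk_fst, Prod.fst_add] at *
      push_cast at hd1
      nlinarith
    · simp only [Prod.snd_sub, kk_snd, Prod.snd_add] at *
      push_cast at hd2
      nlinarith
  · intro h; exact absurd (Finset.mem_Iic.mpr le_rfl) h

/-- **Cone theorem** for coefficient functions: the expansion coefficients of a positive family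
in terms of the greedy family are nonnegative, and almost all of them vanish. -/
theorem cone (hb : 0 < b) (hc : 0 < c) (hg : GreedyFam b c g) (he : PosFam b c e)
    {a : ℤ × ℤ} {ρ : ℕ × ℕ → R}
    (hρ : ∀ κ, e a κ = ∑ κ' ∈ Finset.Iic κ, ρ κ' * M b c g a κ' κ) :
    (∀ κ, NN (ρ κ)) ∧ (Function.support ρ).Finite := by
  constructor
  · intro κ
    rcases lt_or_ge 0 (a.1 - b * κ.1) with h1 | h1
    · rcases lt_or_ge 0 (a.2 - c * κ.2) with h2 | h2
      · exact interior hb hc hg he hρ h1 h2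
      · rw [boundary_col hb hc hg hρ h1.le h2]
        exact (he.A2t hb.le hc.le a).1 κ
    · rcases le_total 0 (a.2 - c * κ.2) with h2 | h2
      · rw [boundary_row hb hc hg hρ h1 h2]
        exact (he.A2 hb.le hc.le a).1 κ
      · rw [boundary_neg hg hρ h1 h2]
        exact (he.A1 hb.le hc.le a).1 κ
  · have hfin : (Function.support (e a) ∪ Function.support (H b c a (e a)) ∪
        Function.support (Ht b c a (e a)) ∪
        (Finset.Iic (a.1.toNat, a.2.toNat) : Set (ℕ × ℕ))).Finite :=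
      (((he.A1 hb.le hc.le a).2.union (he.A2 hb.le hc.le a).2).union
        (he.A2t hb.le hc.le a).2).union (Finset.finite_toSet _)
    refine hfin.subset fun κ hκ => ?_
    rw [Function.mem_support] at hκ
    rcases lt_or_ge 0 (a.1 - b * κ.1) with h1 | h1
    · rcases lt_or_ge 0 (a.2 - c * κ.2) with h2 | h2
      · right
        rw [Finset.mem_coe, Finset.mem_Iic]
        have q1 : (κ.1 : ℤ) ≤ b * κ.1 := by
          have : (0 : ℤ) ≤ κ.1 := by positivity
          nlinarith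
        have q2 : (κ.2 : ℤ) ≤ c * κ.2 := by
          have : (0 : ℤ) ≤ κ.2 := by positivity
          nlinarith
        constructor
        · simp only; omega
        · simp only; omega
      · left; right
        rw [Function.mem_support, ← boundary_col hb hc hg hρ h1.le h2]
        exact hκ
    · rcases le_total 0 (a.2 - c * κ.2) with h2 | h2
      · left; left; right
        rw [Function.mem_support, ← boundary_row hb hc hg hρ h1 h2]
        exact hκ
      · left; left; left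
        rw [Function.mem_support, ← boundary_neg hg hρ h1 h2]
        exact hκ

end

end Pool.Agent.Work.MP_c41774_al

end
end

section

/-!
# Lemmas on pointed elements and cluster monomials
-/

noncomputable section

namespace Pool.Agent.Work.MP_c41774_al

open LaurentPolynomial Finset

/-! ### Positions -/

theorem kk_sub (b c : ℤ) (κ : ℕ × ℕ) (a : ℤ × ℤ) :
    (b * (κ.1 : ℤ) - a.1, c * (κ.2 : ℤ) - a.2) = kk b c κ - a := rfl

theorem coef_def (b c : ℕ) (a : ℤ × ℤ) (x : QTorus) (κ : ℕ × ℕ) :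
    coef b c a x κ = x (kk b c κ - a) := rfl

theorem kk_injective {b c : ℤ} (hb : 0 < b) (hc : 0 < c) : Function.Injective (kk b c) := by
  intro κ κ' h
  have h1 := congrArg Prod.fst h
  have h2 := congrArg Prod.snd h
  simp only [kk_fst, kk_snd] at h1 h2
  have h3 := mul_left_cancel₀ hb.ne' h1
  have h4 := mul_left_cancel₀ hc.ne' h2
  exact Prod.ext (by exact_mod_cast h3) (by exact_mod_cast h4)

theorem kk_add (b c : ℤ) (κ κ' : ℕ × ℕ) : kk b c (κ + κ') = kk b c κ + kk b c κ' := by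
  ext <;> simp [mul_add]

@[simp] theorem kk_zero (b c : ℤ) : kk b c 0 = 0 := by ext <;> simp

theorem kk_swap (b c : ℤ) (κ : ℕ × ℕ) : (kk b c κ).swap = kk c b κ.swap := rfl

theorem pointed_unique {b c : ℕ} (hb : 0 < b) (hc : 0 < c) {a a' : ℤ × ℤ} {x : QTorus}
    (h : IsPointed b c a x) (h' : IsPointed b c a' x) : a = a' := by
  have hb' : (0 : ℤ) < b := by exact_mod_cast hb
  have hc' : (0 : ℤ) < c := by exact_mod_cast hc
  have h1 : x (-a) ≠ 0 := by
    have := h.2
    rw [coef_def, kk_zero, zero_sub] at this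
    rw [this]; exact one_ne_zero
  have h1' : x (-a') ≠ 0 := by
    have := h'.2
    rw [coef_def, kk_zero, zero_sub] at this
    rw [this]; exact one_ne_zero
  obtain ⟨κ, hκ⟩ := h'.1 _ h1
  obtain ⟨κ', hκ'⟩ := h.1 _ h1'
  have e1 := congrArg Prod.fst hκ
  have e2 := congrArg Prod.snd hκ
  have e3 := congrArg Prod.fst hκ'
  have e4 := congrArg Prod.snd hκ'
  simp only [Prod.fst_neg, Prod.snd_neg] at e1 e2 e3 e4
  have p1 : 0 ≤ (b : ℤ) * κ.1 := by positivity
  have p2 : 0 ≤ (c : ℤ) * κ.2 := by positivity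
  have p3 : 0 ≤ (b : ℤ) * κ'.1 := by positivity
  have p4 : 0 ≤ (c : ℤ) * κ'.2 := by positivity
  exact Prod.ext (by omega) (by omega)

/-! ### Products of pointed elements -/

theorem sum_Iic_antidiagonal (F : ℕ × ℕ → ℕ × ℕ → R) (κ : ℕ × ℕ) :
    ∑ κ₁ ∈ Finset.Iic κ, F κ₁ (κ - κ₁) =
      ∑ A ∈ antidiagonal κ.1, ∑ B ∈ antidiagonal κ.2, F (A.1, B.1) (A.2, B.2) := by
  rw [sum_Iic_prod, Finset.Nat.sum_antidiagonal_eq_sum_range_succ_mk]
  refine Finset.sum_congr rfl fun i _ => ?_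
  rw [Finset.Nat.sum_antidiagonal_eq_sum_range_succ_mk]
  rfl

theorem coef_mul {b c : ℕ} (hb : 0 < b) (hc : 0 < c) {a u : ℤ × ℤ} {x y : QTorus}
    (hx : IsPointed b c a x) (hy : IsPointed b c u y) (κ : ℕ × ℕ) :
    coef b c (a + u) (x * y) κ = conv b c a u (coef b c a x) (coef b c u y) κ := by
  have hb' : (0 : ℤ) < b := by exact_mod_cast hb
  have hc' : (0 : ℤ) < c := by exact_mod_cast hc
  rw [conv, ← sum_Iic_antidiagonal (fun κ₁ κ₂ =>
    T (tw b c a u κ₁ κ₂) * (coef b c a x κ₁ * coef b c u y κ₂)), coef_def, QTorus.mul_apply]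
  symm
  have hterm : ∀ κ₁ ≤ κ, T (tw b c a u κ₁ (κ - κ₁)) *
      (coef b c a x κ₁ * coef b c u y (κ - κ₁)) =
      T (QTorus.Lam (kk b c κ₁ - a) (kk b c κ - (a + u) - (kk b c κ₁ - a))) *
      (x (kk b c κ₁ - a) * y (kk b c κ - (a + u) - (kk b c κ₁ - a))) := by
    intro κ₁ h₁
    obtain ⟨κ₂, rfl⟩ := exists_add_of_le h₁
    have e1 : kk b c (κ₁ + κ₂) - (a + u) - (kk b c κ₁ - a) = kk b c κ₂ - u := by
      rw [kk_add]; abel
    rw [e1, add_tsub_cancel_left]
    rfl
  refine Finset.sum_bij_ne_zero (fun κ₁ _ _ => kk b c κ₁ - a) ?_ ?_ ?_ ?_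
  · intro κ₁ h₁ hne
    rw [QTorus.mem_supp]
    intro h0
    apply hne
    rw [coef_def, h0, zero_mul, mul_zero]
  · intro κ₁ _ _ κ₂ _ _ h
    exact kk_injective hb' hc' (sub_left_injective h)
  · intro m hm hne
    obtain ⟨κ₁, hκ₁⟩ := hx.1 m (QTorus.mem_supp.mp hm)
    rw [kk_sub] at hκ₁
    have hy0 : y (kk b c κ - (a + u) - m) ≠ 0 := by
      intro h0
      apply hne
      rw [h0, mul_zero, mul_zero]
    obtain ⟨κ₂, hκ₂⟩ := hy.1 _ hy0
    rw [kk_sub, hκ₁] at hκ₂
    have e : kk b c κ = kk b c (κ₁ + κ₂) := by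
      rw [kk_add]
      have : kk b c κ = (kk b c κ - (a + u) - (kk b c κ₁ - a)) + (kk b c κ₁ - a) + (a + u) := by
        abel
      rw [this, hκ₂]; abel
    have e' := kk_injective hb' hc' e
    have hle : κ₁ ≤ κ := by rw [e']; exact le_add_of_nonneg_right zero_le
    refine ⟨κ₁, Finset.mem_Iic.mpr hle, ?_, hκ₁.symm⟩
    rw [hterm κ₁ hle, ← hκ₁]
    exact hne
  · intro κ₁ h₁ _
    exact hterm κ₁ (Finset.mem_Iic.mp h₁)

theorem mul_support {b c : ℕ} {a u : ℤ × ℤ} {x y : QTorus}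
    (hx : IsPointed b c a x) (hy : IsPointed b c u y) {n : ℤ × ℤ} (h : (x * y) n ≠ 0) :
    ∃ κ, n = kk b c κ - (a + u) := by
  rw [QTorus.mul_apply] at h
  obtain ⟨m, hm, hne⟩ := Finset.exists_ne_zero_of_sum_ne_zero h
  obtain ⟨κ₁, hκ₁⟩ := hx.1 m (QTorus.mem_supp.mp hm)
  have hy0 : y (n - m) ≠ 0 := by
    intro h0
    apply hne
    rw [h0, mul_zero, mul_zero]
  obtain ⟨κ₂, hκ₂⟩ := hy.1 _ hy0
  rw [kk_sub] at hκ₁ hκ₂
  refine ⟨κ₁ + κ₂, ?_⟩
  rw [kk_add]
  have : n = (n - m) + m := by abel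
  rw [this, hκ₂, hκ₁]; abel

/-! ### Cluster monomials -/

section Monomials

open QTorus

variable {b c : ℕ} {X : ℤ → QTorus}

theorem X_zero (hX : IsClusterSeq b c X) : X 0 = mon (0, -1) 1 + mon (b, -1) 1 := by
  have h := hX.odd 1 (by decide)
  norm_num at h
  rw [hX.two, hX.one] at h
  have h2 : mon (0, -1) 1 * (X2 * X 0) = X 0 := by
    rw [← mul_assoc, inv_mul_X2, one_mul]
  rw [← h2, h, mul_add, mul_one, X1, mon_pow, smul_mon, mon_mul_mon, add_comm]
  congr 1
  simp only [Prod.smul_mk, nsmul_eq_mul, mul_one, mul_zero, Prod.mk_add_mk, zero_add, add_zero,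
    Lam, one_mul, ← T_add]
  congr 1
  rw [← T_zero]; congr 1; ring

theorem X_three (hX : IsClusterSeq b c X) : X 3 = mon (-1, 0) 1 + mon (-1, c) 1 := by
  have h := hX.even 2 (by decide)
  norm_num at h
  rw [hX.two, hX.one] at h
  have h2 : (X 3 * X1) * mon (-1, 0) 1 = X 3 := by
    rw [mul_assoc, X1_mul_inv, mul_one]
  rw [← h2, h, add_mul, one_mul, X2, mon_pow, smul_mon, mon_mul_mon, add_comm]
  congr 1
  simp only [Prod.smul_mk, nsmul_eq_mul, mul_one, mul_zero, Prod.mk_add_mk, zero_add, add_zero,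
    Lam, ← T_add]
  congr 1
  rw [← T_zero]; congr 1; ring

/-- Pascal's rule in the form needed below -/
theorem sum_mon_pascal (w : ℤ) (n : ℕ) (f : ℕ → ℤ × ℤ) :
    ∑ p ∈ range (n + 1), mon (f p) (T (w * p) * qb w n p) +
      ∑ p ∈ range (n + 1), mon (f (p + 1)) (T (-(w * ((n : ℤ) - p))) * qb w n p) =
    ∑ p ∈ range (n + 1 + 1), mon (f p) (qb w (n + 1) p) := by
  have e1 : ∑ p ∈ range (n + 1), mon (f p) (T (w * p) * qb w n p) =
      ∑ p ∈ range (n + 1 + 1), mon (f p) (T (w * p) * qb w n p) := by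
    rw [Finset.sum_range_succ _ (n + 1), qb_eq_zero w n (n + 1) (by omega), mul_zero]
    have : mon (f (n + 1)) 0 = 0 := map_zero (lmon (f (n + 1)))
    rw [this, add_zero]
  rw [e1, Finset.sum_range_succ' _ (n + 1), Finset.sum_range_succ' _ (n + 1), add_right_comm,
    ← Finset.sum_add_distrib]
  congr 1
  · refine Finset.sum_congr rfl fun p _ => ?_
    rw [← mon_add, qb_succ_succ]
    push_cast
    rfl
  · simp

/-- powers of `X₀` -/
theorem X_zero_pow (hX : IsClusterSeq b c X) (n : ℕ) :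
    X 0 ^ n = ∑ p ∈ range (n + 1), mon ((b : ℤ) * p, -n) (qb b n p) := by
  induction n with
  | zero => simp [one_def]; rfl
  | succ n ih =>
    rw [pow_succ, ih, X_zero hX, mul_add, Finset.sum_mul, Finset.sum_mul, ← sum_mon_pascal]
    refine congrArg₂ (· + ·) (Finset.sum_congr rfl fun p _ => ?_)
      (Finset.sum_congr rfl fun p _ => ?_)
    · rw [mon_mul_mon, mul_one]
      congr 2
      · ext <;> simp; ring
      · congr 1; simp only [Lam]; ring
    · rw [mon_mul_mon, mul_one]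
      congr 2
      · ext
        · simp; ring
        · simp; ring
      · congr 1; simp only [Lam]; ring

/-- powers of `X₃` -/
theorem X_three_pow (hX : IsClusterSeq b c X) (n : ℕ) :
    X 3 ^ n = ∑ q ∈ range (n + 1), mon (-n, (c : ℤ) * q) (qb c n q) := by
  induction n with
  | zero => simp [one_def]; rfl
  | succ n ih =>
    rw [pow_succ', ih, X_three hX, add_mul, Finset.mul_sum, Finset.mul_sum, ← sum_mon_pascal]
    refine congrArg₂ (· + ·) (Finset.sum_congr rfl fun p _ => ?_)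
      (Finset.sum_congr rfl fun p _ => ?_)
    · rw [mon_mul_mon, one_mul]
      congr 2
      · ext <;> simp <;> ring
      · congr 1; simp only [Lam]; ring
    · rw [mon_mul_mon, one_mul]
      congr 2
      · ext <;> simp <;> ring
      · congr 1; simp only [Lam]; ring

/-- cluster monomials of the cluster `{X₀, X₁}` -/
theorem left_monomial (hX : IsClusterSeq b c X) (n m : ℕ) :
    (T ((n : ℤ) * m) : R) • (X 0 ^ n * X 1 ^ m) =
      ∑ p ∈ range (n + 1), mon ((b : ℤ) * p + m, -n) (qb b n p) := by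
  rw [X_zero_pow hX, hX.one, X1, mon_pow, Finset.sum_mul, Finset.smul_sum]
  refine Finset.sum_congr rfl fun p _ => ?_
  rw [mon_mul_mon, smul_mon, mul_one, ← mul_assoc, ← T_add]
  congr 1
  · ext <;> simp
  · have : (n : ℤ) * m + Lam ((b : ℤ) * p, -n) (m • (1, 0)) = 0 := by
      simp [Lam]
    rw [this, T_zero, one_mul]

/-- cluster monomials of the cluster `{X₂, X₃}` -/
theorem right_monomial (hX : IsClusterSeq b c X) (m n : ℕ) :
    (T ((m : ℤ) * n) : R) • (X 2 ^ m * X 3 ^ n) =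
      ∑ q ∈ range (n + 1), mon (-n, (c : ℤ) * q + m) (qb c n q) := by
  rw [X_three_pow hX, hX.two, X2, mon_pow, Finset.mul_sum, Finset.smul_sum]
  refine Finset.sum_congr rfl fun p _ => ?_
  rw [mon_mul_mon, smul_mon, one_mul, ← mul_assoc, ← T_add]
  congr 1
  · ext
    · simp
    · simp; ring
  · have : (m : ℤ) * n + Lam (m • (0, 1)) (-n, (c : ℤ) * p) = 0 := by
      simp [Lam]
    rw [this, T_zero, one_mul]

theorem sum_mon_row (hb : 0 < b) (w : ℤ) (n : ℕ) (a : ℤ × ℤ) (p q : ℕ) (hc : 0 < c) :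
    coef b c a (∑ p' ∈ range (n + 1), mon ((b : ℤ) * p' - a.1, -a.2) (qb w n p')) (p, q) =
      if q = 0 then qb w n p else 0 := by
  rw [coef, sum_apply]
  simp only [mon_apply]
  by_cases hq : q = 0
  · rw [if_pos hq]
    subst hq
    by_cases hp : p < n + 1
    · rw [Finset.sum_eq_single p]
      · rw [if_pos]
        simp
      · intro p' _ hne
        rw [if_neg]
        intro h
        have := congrArg Prod.fst h
        simp only at this
        have : (b : ℤ) * p' = b * p := by omega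
        have := mul_left_cancel₀ (by positivity : (b : ℤ) ≠ 0) this
        exact hne (by exact_mod_cast this)
      · intro h; exact absurd (Finset.mem_range.mpr hp) h
    · rw [qb_eq_zero w n p (by omega), Finset.sum_eq_zero]
      intro p' hp'
      have hp' := Finset.mem_range.mp hp'
      rw [if_neg]
      intro h
      have := congrArg Prod.fst h
      simp only at this
      have : (b : ℤ) * p' = b * p := by omega
      have := mul_left_cancel₀ (by positivity : (b : ℤ) ≠ 0) this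
      have : p' = p := by exact_mod_cast this
      omega
  · rw [if_neg hq, Finset.sum_eq_zero]
    intro p' _
    rw [if_neg]
    intro h
    have := congrArg Prod.snd h
    simp only at this
    have h1 : 0 < (c : ℤ) * q := by positivity
    omega

theorem sum_mon_col (hb : 0 < b) (w : ℤ) (n : ℕ) (a : ℤ × ℤ) (p q : ℕ) (hc : 0 < c) :
    coef b c a (∑ q' ∈ range (n + 1), mon (-a.1, (c : ℤ) * q' - a.2) (qb w n q')) (p, q) =
      if p = 0 then qb w n q else 0 := by
  rw [coef, sum_apply]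
  simp only [mon_apply]
  by_cases hp : p = 0
  · rw [if_pos hp]
    subst hp
    by_cases hq : q < n + 1
    · rw [Finset.sum_eq_single q]
      · rw [if_pos]
        simp
      · intro p' _ hne
        rw [if_neg]
        intro h
        have := congrArg Prod.snd h
        simp only at this
        have : (c : ℤ) * p' = c * q := by omega
        have := mul_left_cancel₀ (by positivity : (c : ℤ) ≠ 0) this
        exact hne (by exact_mod_cast this)
      · intro h; exact absurd (Finset.mem_range.mpr hq) h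
    · rw [qb_eq_zero w n q (by omega), Finset.sum_eq_zero]
      intro p' hp'
      have hp' := Finset.mem_range.mp hp'
      rw [if_neg]
      intro h
      have := congrArg Prod.snd h
      simp only at this
      have : (c : ℤ) * p' = c * q := by omega
      have := mul_left_cancel₀ (by positivity : (c : ℤ) ≠ 0) this
      have : p' = q := by exact_mod_cast this
      omega
  · rw [if_neg hp, Finset.sum_eq_zero]
    intro p' _
    rw [if_neg]
    intro h
    have := congrArg Prod.fst h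
    simp only at this
    have h1 : 0 < (b : ℤ) * p := by positivity
    omega

theorem pointed_row (hb : 0 < b) (hc : 0 < c) (w : ℤ) (n : ℕ) (a : ℤ × ℤ) :
    IsPointed b c a (∑ p' ∈ range (n + 1), mon ((b : ℤ) * p' - a.1, -a.2) (qb w n p')) := by
  refine ⟨fun m hm => ?_, ?_⟩
  · rw [sum_apply] at hm
    obtain ⟨p, _, hp⟩ := Finset.exists_ne_zero_of_sum_ne_zero hm
    rw [mon_apply] at hp
    split_ifs at hp with h
    · exact ⟨(p, 0), by rw [← h]; simp⟩
    · exact absurd rfl hp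
  · have := sum_mon_row hb w n a 0 0 hc
    exact this.trans (by simp)

theorem pointed_col (hb : 0 < b) (hc : 0 < c) (w : ℤ) (n : ℕ) (a : ℤ × ℤ) :
    IsPointed b c a (∑ q' ∈ range (n + 1), mon (-a.1, (c : ℤ) * q' - a.2) (qb w n q')) := by
  refine ⟨fun m hm => ?_, ?_⟩
  · rw [sum_apply] at hm
    obtain ⟨p, _, hp⟩ := Finset.exists_ne_zero_of_sum_ne_zero hm
    rw [mon_apply] at hp
    split_ifs at hp with h
    · exact ⟨(0, p), by rw [← h]; simp⟩
    · exact absurd rfl hp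
  · have := sum_mon_col hb w n a 0 0 hc
    exact this.trans (by simp)

end Monomials

end Pool.Agent.Work.MP_c41774_al

end
end

section

/-!
# From strongly positive bases to positive families
-/

noncomputable section

namespace Pool.Agent.Work.MP_c41774_al

open LaurentPolynomial Finset QTorus

variable {b c : ℕ} {X : ℤ → QTorus} {B : ℤ × ℤ → QTorus}

theorem sp_left (hb : 0 < b) (hc : 0 < c) (hX : IsClusterSeq b c X)
    (hB : IsStronglyPositive b c X B) (a : ℤ × ℤ) (ha : a.1 ≤ 0) :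
    B a = ∑ p' ∈ range (a.2.toNat + 1), mon ((b : ℤ) * p' - a.1, -a.2) (qb b a.2.toNat p') := by
  have hp := pointed_row hb hc b a.2.toNat a
  have hmem : (∑ p' ∈ range (a.2.toNat + 1),
      mon ((b : ℤ) * p' - a.1, -a.2) (qb b a.2.toNat p')) ∈ Set.range B := by
    have h1 : (((-a.1).toNat : ℕ) : ℤ) = -a.1 := Int.toNat_of_nonneg (by omega)
    rcases le_or_gt 0 a.2 with h | h
    · have h2 : ((a.2.toNat : ℕ) : ℤ) = a.2 := Int.toNat_of_nonneg h
      have := hB.monomials 0 a.2.toNat (-a.1).toNat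
      rw [zero_add, left_monomial hX, h1, h2] at this
      exact this
    · have h2 : (((-a.2).toNat : ℕ) : ℤ) = -a.2 := Int.toNat_of_nonneg (by omega)
      have h3 : a.2.toNat = 0 := Int.toNat_of_nonpos h.le
      have := hB.monomials 1 (-a.1).toNat (-a.2).toNat
      have e : (1 : ℤ) + 1 = 2 := by norm_num
      rw [e, hX.one, hX.two, ← mon_eq, h1, h2] at this
      rw [h3]
      simpa using this
  obtain ⟨a', ha'⟩ := hmem
  have h1 := hB.pointed a'
  rw [ha'] at h1
  rw [pointed_unique hb hc hp h1]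
  rw [← pointed_unique hb hc hp h1] at ha' ⊢
  exact ha'

theorem sp_right (hb : 0 < b) (hc : 0 < c) (hX : IsClusterSeq b c X)
    (hB : IsStronglyPositive b c X B) (a : ℤ × ℤ) (ha : a.2 ≤ 0) :
    B a = ∑ q' ∈ range (a.1.toNat + 1), mon (-a.1, (c : ℤ) * q' - a.2) (qb c a.1.toNat q') := by
  have hp := pointed_col hb hc c a.1.toNat a
  have hmem : (∑ q' ∈ range (a.1.toNat + 1),
      mon (-a.1, (c : ℤ) * q' - a.2) (qb c a.1.toNat q')) ∈ Set.range B := by
    have h1 : (((-a.2).toNat : ℕ) : ℤ) = -a.2 := Int.toNat_of_nonneg (by omega)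
    rcases le_or_gt 0 a.1 with h | h
    · have h2 : ((a.1.toNat : ℕ) : ℤ) = a.1 := Int.toNat_of_nonneg h
      have := hB.monomials 2 (-a.2).toNat a.1.toNat
      have e : (2 : ℤ) + 1 = 3 := by norm_num
      rw [e, right_monomial hX, h1, h2] at this
      exact this
    · have h2 : (((-a.1).toNat : ℕ) : ℤ) = -a.1 := Int.toNat_of_nonneg (by omega)
      have h3 : a.1.toNat = 0 := Int.toNat_of_nonpos h.le
      have := hB.monomials 1 (-a.1).toNat (-a.2).toNat
      have e : (1 : ℤ) + 1 = 2 := by norm_num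
      rw [e, hX.one, hX.two, ← mon_eq, h1, h2] at this
      rw [h3]
      simpa using this
  obtain ⟨a', ha'⟩ := hmem
  have h1 := hB.pointed a'
  rw [ha'] at h1
  have h2 := pointed_unique hb hc hp h1
  rw [← h2] at ha'
  exact ha'

/-- positions of the elements occurring in an expansion of a product -/
theorem expansion_position (hb : 0 < b) (hc : 0 < c) (hB : ∀ a, IsPointed b c a (B a))
    {s : ℤ × ℤ} {x : QTorus} (hx : ∀ n, x n ≠ 0 → ∃ κ, n = kk b c κ - s)
    {β : (ℤ × ℤ) →₀ R} (hβ : x = β.sum fun d r => r • B d) {d : ℤ × ℤ} (hd : β d ≠ 0) :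
    ∃ κ, d = s - kk b c κ := by
  classical
  have hb' : (0 : ℤ) < b := by exact_mod_cast hb
  have hc' : (0 : ℤ) < c := by exact_mod_cast hc
  by_contra hcon
  set D := β.support.filter fun d => ¬ ∃ κ, d = s - kk b c κ with hD
  have hDne : D.Nonempty := ⟨d, by simp only [hD, Finset.mem_filter, Finsupp.mem_support_iff]
                                   exact ⟨hd, hcon⟩⟩
  obtain ⟨d₀, hd₀, hmax⟩ := Finset.exists_max_image D (fun d => d.1 + d.2) hDne
  simp only [hD, Finset.mem_filter, Finsupp.mem_support_iff] at hd₀ hmax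
  have h1 : x (-d₀) = β d₀ := by
    rw [hβ, Finsupp.sum, QTorus.sum_apply, Finset.sum_eq_single d₀]
    · rw [QTorus.smul_apply]
      have := (hB d₀).2
      rw [coef_def, kk_zero, zero_sub] at this
      rw [this, mul_one]
    · intro d' hd' hne
      rw [Finsupp.mem_support_iff] at hd'
      rw [QTorus.smul_apply]
      by_contra h
      have h2 := right_ne_zero_of_mul h
      obtain ⟨κ, hκ⟩ := (hB d').1 _ h2
      rw [kk_sub] at hκ
      have e1 : d' = d₀ + kk b c κ := by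
        have : d' = kk b c κ - (-d₀) := by rw [hκ]; abel
        rw [this]; abel
      by_cases hd'' : ∃ κ', d' = s - kk b c κ'
      · obtain ⟨κ', hκ'⟩ := hd''
        apply hd₀.2
        refine ⟨κ' + κ, ?_⟩
        rw [kk_add]
        have : d₀ = d' - kk b c κ := by rw [e1]; abel
        rw [this, hκ']; abel
      · have h3 := hmax d' ⟨hd', hd''⟩
        have h4 : κ ≠ 0 := by
          rintro rfl
          rw [kk_zero, add_zero] at e1
          exact hne e1
        rw [e1] at h3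
        simp only [Prod.fst_add, Prod.snd_add, kk_fst, kk_snd] at h3
        have p1 : 0 ≤ (b : ℤ) * κ.1 := by positivity
        have p2 : 0 ≤ (c : ℤ) * κ.2 := by positivity
        have p3 : (b : ℤ) * κ.1 = 0 := by omega
        have p4 : (c : ℤ) * κ.2 = 0 := by omega
        apply h4
        have q1 := (mul_eq_zero.mp p3).resolve_left hb'.ne'
        have q2 := (mul_eq_zero.mp p4).resolve_left hc'.ne'
        exact Prod.ext (by exact_mod_cast q1) (by exact_mod_cast q2)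
    · intro h
      rw [Finsupp.notMem_support_iff] at h
      exact absurd h hd₀.1
  obtain ⟨κ, hκ⟩ := hx (-d₀) (by rw [h1]; exact hd₀.1)
  apply hd₀.2
  refine ⟨κ, ?_⟩
  have : d₀ = -(-d₀) := by abel
  rw [this, hκ]; abel

theorem coef_shift (hb : 0 < b) (hc : 0 < c) (hB : ∀ a, IsPointed b c a (B a)) (s : ℤ × ℤ)
    (κ' κ : ℕ × ℕ) : coef b c s (B (s - kk b c κ')) κ =
      M b c (fun a => coef b c a (B a)) s κ' κ := by
  have hb' : (0 : ℤ) < b := by exact_mod_cast hb
  have hc' : (0 : ℤ) < c := by exact_mod_cast hc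
  by_cases h : κ' ≤ κ
  · obtain ⟨δ, rfl⟩ := exists_add_of_le h
    rw [M_add, coef_def, coef_def, kk_add]
    congr 1
    abel
  · rw [M_of_not_le h]
    by_contra hne
    rw [coef_def] at hne
    obtain ⟨δ, hδ⟩ := (hB (s - kk b c κ')).1 _ hne
    rw [kk_sub] at hδ
    have : kk b c κ = kk b c (κ' + δ) := by
      rw [kk_add]
      have : kk b c κ = kk b c κ - s + s := by abel
      rw [this, hδ]; abel
    rw [kk_injective hb' hc' this] at h
    exact h (le_add_of_nonneg_right zero_le)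

/-- The coefficient functions of a strongly positive basis form a positive family. -/
theorem posFam_of_sp (hb : 0 < b) (hc : 0 < c) (hX : IsClusterSeq b c X)
    (hB : IsStronglyPositive b c X B) : PosFam b c (fun a => coef b c a (B a)) where
  one a := (hB.pointed a).2
  bar a κ := by
    show invert (B a _) = B a _
    rw [← bar_apply, hB.bar]
  left a ha κ := by
    show coef b c a (B a) κ = _
    rw [sp_left hb hc hX hB a ha]
    exact sum_mon_row hb b a.2.toNat a κ.1 κ.2 hc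
  right a ha κ := by
    show coef b c a (B a) κ = _
    rw [sp_right hb hc hX hB a ha]
    exact sum_mon_col hb c a.1.toNat a κ.1 κ.2 hc
  mul a u := by
    have hb' : (0 : ℤ) < b := by exact_mod_cast hb
    have hc' : (0 : ℤ) < c := by exact_mod_cast hc
    obtain ⟨β, hβ1, hβ2⟩ := hB.mul a u
    have hinj : Function.Injective fun κ => (a + u) - kk b c κ := fun κ κ' h =>
      kk_injective hb' hc' (sub_right_injective h)
    refine ⟨fun κ => β ((a + u) - kk b c κ), fun κ => hβ1 _, ?_, fun κ => ?_⟩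
    · have : Function.support (fun κ => β ((a + u) - kk b c κ)) =
          (fun κ => (a + u) - kk b c κ) ⁻¹' (β.support : Set (ℤ × ℤ)) := by
        ext κ
        simp
      rw [this]
      exact (Finset.finite_toSet _).preimage hinj.injOn
    · show conv b c a u (coef b c a (B a)) (coef b c u (B u)) κ = _
      rw [← coef_mul hb hc (hB.pointed a) (hB.pointed u), coef_def, hβ2, Finsupp.sum,
        QTorus.sum_apply]
      symm
      refine Finset.sum_bij_ne_zero (fun κ' _ _ => (a + u) - kk b c κ') ?_ ?_ ?_ ?_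
      · intro κ' _ hne
        rw [Finsupp.mem_support_iff]
        exact left_ne_zero_of_mul hne
      · intro κ' _ _ κ'' _ _ h
        exact hinj h
      · intro d hd hne
        rw [Finsupp.mem_support_iff] at hd
        obtain ⟨κ', hκ'⟩ := expansion_position hb hc hB.pointed
          (fun n hn => mul_support (hB.pointed a) (hB.pointed u) hn) hβ2 hd
        rw [QTorus.smul_apply, hκ'] at hne
        have h2 := right_ne_zero_of_mul hne
        have h3 := coef_shift hb hc hB.pointed (a + u) κ' κ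
        rw [coef_def] at h3
        rw [h3] at h2
        have hle : κ' ≤ κ := by
          by_contra h
          exact h2 (M_of_not_le h)
        refine ⟨κ', Finset.mem_Iic.mpr hle, ?_, hκ'.symm⟩
        rw [← h3]
        exact hne
      · intro κ' _ _
        rw [QTorus.smul_apply, ← coef_shift hb hc hB.pointed, coef_def]

/-- The coefficient functions of the greedy elements form a greedy family. -/
theorem greedyFam_of_isGreedy {G : ℤ × ℤ → QTorus} (hG : ∀ a, IsGreedy b c a (G a)) :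
    GreedyFam b c (fun a => coef b c a (G a)) where
  one a := (hG a).1.2
  row a κ hκ hL := by
    have h := ((hG a).2 κ.1 κ.2 hκ).1 (by
      simp only [LL] at hL
      nlinarith)
    rw [H_eq, sub_eq_zero]
    exact h
  col a κ hκ hL := by
    have h := ((hG a).2 κ.1 κ.2 hκ).2 (by
      simp only [LL] at hL
      nlinarith)
    rw [Ht, H_eq, sub_eq_zero]
    exact h

/-- **Main theorem.** Every element of a strongly positive basis is the greedy element pointed at
the same vector plus a nonnegative combination of lower greedy elements. -/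
theorem sp_expansion (hb : 0 < b) (hc : 0 < c) (hX : IsClusterSeq b c X)
    {G : ℤ × ℤ → QTorus} (hG : ∀ a, IsGreedy b c a (G a))
    (hB : IsStronglyPositive b c X B) (a : ℤ × ℤ) :
    ∃ ρ : (ℕ × ℕ) →₀ R, ρ 0 = 1 ∧ (∀ κ, NN (ρ κ)) ∧
      B a = ρ.sum fun κ r => r • G (a.1 - b * κ.1, a.2 - c * κ.2) := by
  have hb' : (0 : ℤ) < b := by exact_mod_cast hb
  have hc' : (0 : ℤ) < c := by exact_mod_cast hc
  have hg := greedyFam_of_isGreedy hG
  have he := posFam_of_sp hb hc hX hB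
  set g : ℤ × ℤ → ℕ × ℕ → R := fun a => coef b c a (G a) with hgdef
  set e : ℤ × ℤ → ℕ × ℕ → R := fun a => coef b c a (B a) with hedef
  have hρ := expand_spec (b := (b : ℤ)) (c := (c : ℤ)) hg.one a (e a)
  set ρ := expand (b : ℤ) (c : ℤ) g a (e a) with hρdef
  obtain ⟨hpos, hfin⟩ := cone hb' hc' hg he hρ
  refine ⟨Finsupp.ofSupportFinite ρ hfin, ?_, fun κ => hpos κ, ?_⟩
  · show ρ 0 = 1
    have h0 := hρ 0
    rw [sum_Iic_eq, M_self hg.one, mul_one] at h0
    have hIio : Finset.Iio (0 : ℕ × ℕ) = ∅ := by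
      ext x; simp
    rw [hIio, Finset.sum_empty, zero_add] at h0
    rw [← h0]
    exact he.one a
  · have hval : ∀ κ : ℕ × ℕ, ((Finsupp.ofSupportFinite ρ hfin).sum fun κ' r =>
        r • G (a.1 - b * κ'.1, a.2 - c * κ'.2)) (kk b c κ - a) = e a κ := by
      intro κ
      rw [Finsupp.sum, QTorus.sum_apply, hρ κ]
      have e1 : ∀ κ' : ℕ × ℕ, ((Finsupp.ofSupportFinite ρ hfin) κ' •
          G (a.1 - b * κ'.1, a.2 - c * κ'.2)) (kk b c κ - a) = ρ κ' * M b c g a κ' κ := by
        intro κ'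
        rw [QTorus.smul_apply, ← coef_shift hb hc (fun a => (hG a).1) a κ' κ, coef_def]
        rfl
      rw [Finset.sum_congr rfl fun κ' _ => e1 κ']
      classical
      have s1 := Finset.sum_subset (Finset.subset_union_left :
        (Finsupp.ofSupportFinite ρ hfin).support ⊆
          (Finsupp.ofSupportFinite ρ hfin).support ∪ Finset.Iic κ)
        (f := fun κ' => ρ κ' * M b c g a κ' κ) (fun κ' _ h => by
          rw [Finsupp.notMem_support_iff] at h
          have h' : ρ κ' = 0 := h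
          simp only [h', zero_mul])
      have s2 := Finset.sum_subset (Finset.subset_union_right :
        Finset.Iic κ ⊆ (Finsupp.ofSupportFinite ρ hfin).support ∪ Finset.Iic κ)
        (f := fun κ' => ρ κ' * M b c g a κ' κ) (fun κ' _ h => by
          rw [Finset.mem_Iic] at h
          simp only [M_of_not_le h, mul_zero])
      rw [s1, ← s2]
    refine QTorus.ext fun m => ?_
    by_cases hm : ∃ κ, m = kk b c κ - a
    · obtain ⟨κ, rfl⟩ := hm
      rw [hval κ]
      rfl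
    · have h1 : B a m = 0 := by
        by_contra h
        exact hm ((hB.pointed a).1 m h)
      rw [h1, Finsupp.sum, QTorus.sum_apply]
      symm
      refine Finset.sum_eq_zero fun κ' _ => ?_
      rw [QTorus.smul_apply]
      have h2 : G (a.1 - b * κ'.1, a.2 - c * κ'.2) m = 0 := by
        by_contra h
        obtain ⟨δ, hδ⟩ := (hG (a.1 - b * κ'.1, a.2 - c * κ'.2)).1.1 m h
        apply hm
        refine ⟨δ + κ', ?_⟩
        rw [hδ, kk_sub, kk_add]
        have : ((a.1 - b * κ'.1, a.2 - c * κ'.2) : ℤ × ℤ) = a - kk b c κ' := rfl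
        rw [this]; abel
      rw [h2, mul_zero]

/-- elements of a strongly positive basis have nonnegative coefficients -/
theorem sp_nonneg (hb : 0 < b) (hc : 0 < c) (hX : IsClusterSeq b c X)
    (hB : IsStronglyPositive b c X B) (a m : ℤ × ℤ) : NN (B a m) := by
  have hb' : (0 : ℤ) < b := by exact_mod_cast hb
  have hc' : (0 : ℤ) < c := by exact_mod_cast hc
  by_cases hm : ∃ κ, m = kk b c κ - a
  · obtain ⟨κ, rfl⟩ := hm
    exact ((posFam_of_sp hb hc hX hB).A1 hb'.le hc'.le a).1 κ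
  · have : B a m = 0 := by
      by_contra h
      exact hm ((hB.pointed a).1 m h)
    rw [this]
    exact NN_zero

theorem greedy_le (hb : 0 < b) (hc : 0 < c) (hX : IsClusterSeq b c X)
    {G : ℤ × ℤ → QTorus} (hG : ∀ a, IsGreedy b c a (G a)) (hGpos : ∀ a m, NN (G a m))
    (hB : IsStronglyPositive b c X B) (a : ℤ × ℤ) : CoefLE (G a) (B a) := by
  classical
  obtain ⟨ρ, h0, hpos, hsum⟩ := sp_expansion hb hc hX hG hB a
  intro m
  rw [hsum, Finsupp.sum, QTorus.sub_apply, QTorus.sum_apply,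
    ← Finset.add_sum_erase _ _ (Finsupp.mem_support_iff.mpr (by rw [h0]; exact one_ne_zero) :
      (0 : ℕ × ℕ) ∈ ρ.support)]
  have e1 : (ρ 0 • G (a.1 - b * ((0 : ℕ × ℕ).1 : ℕ), a.2 - c * ((0 : ℕ × ℕ).2 : ℕ))) m =
      G a m := by
    rw [h0, one_smul]; simp
  rw [e1, add_sub_cancel_left]
  refine NN.sum fun κ _ => ?_
  rw [QTorus.smul_apply]
  exact (hpos κ).mul (hGpos _ _)

theorem CoefLE.antisymm {Y Z : QTorus} (h1 : CoefLE Y Z) (h2 : CoefLE Z Y) : Y = Z := by
  refine QTorus.ext fun m => ?_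
  refine LaurentPolynomial.ext fun n => ?_
  have e1 := h1 m n
  have e2 := h2 m n
  rw [QTorus.sub_apply, AddMonoidAlgebra.coeff_sub, Finsupp.sub_apply] at e1 e2
  omega

end Pool.Agent.Work.MP_c41774_al

end
end

section

/-!
# Existence and uniqueness of the sequence of quantum cluster variables in the quantum torus

This is the (known) Laurent phenomenon in rank two; it shows that the hypothesis `IsClusterSeq`
of the main theorem is satisfied by exactly one sequence.
-/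

noncomputable section

namespace Pool.Agent.Work.MP_c41774_al

open LaurentPolynomial Finset QTorus

/-- Four consecutive cluster variables; `v` is replaced by `v^t`. -/
structure Quad (t : ℤ) (β γ : ℕ) (x0 x1 x2 x3 : QTorus) : Prop where
  c01 : x1 * x0 = (T (2 * t) : R) • (x0 * x1)
  c12 : x2 * x1 = (T (2 * t) : R) • (x1 * x2)
  c23 : x3 * x2 = (T (2 * t) : R) • (x2 * x3)
  r1 : x2 * x0 = (T (t * β) : R) • x1 ^ β + 1
  r1' : x0 * x2 = (T (-(t * β)) : R) • x1 ^ β + 1
  r2 : x3 * x1 = (T (t * γ) : R) • x2 ^ γ + 1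
  r2' : x1 * x3 = (T (-(t * γ)) : R) • x2 ^ γ + 1
  n1 : x1 ≠ 0
  n2 : x2 ≠ 0

theorem T_smul_cancel (m : ℤ) (x y : QTorus) (h : x = (T m : R) • y) :
    y = (T (-m) : R) • x := by
  rw [h, smul_smul, ← T_add, neg_add_cancel, T_zero, one_smul]

theorem Quad.reverse {t : ℤ} {β γ : ℕ} {x0 x1 x2 x3 : QTorus} (h : Quad t β γ x0 x1 x2 x3) :
    Quad (-t) γ β x3 x2 x1 x0 where
  c01 := by have := T_smul_cancel _ _ _ h.c23; rwa [← mul_neg] at this
  c12 := by have := T_smul_cancel _ _ _ h.c12; rwa [← mul_neg] at this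
  c23 := by have := T_smul_cancel _ _ _ h.c01; rwa [← mul_neg] at this
  r1 := by rw [neg_mul]; exact h.r2'
  r1' := by rw [neg_mul, neg_neg]; exact h.r2
  r2 := by rw [neg_mul]; exact h.r1'
  r2' := by rw [neg_mul, neg_neg]; exact h.r1
  n1 := h.n2
  n2 := h.n1

theorem qcomm_pow_right {m : ℤ} {x y : QTorus} (h : y * x = (T m : R) • (x * y)) (k : ℕ) :
    y * x ^ k = (T (m * k) : R) • (x ^ k * y) := by
  induction k with
  | zero => simp
  | succ k ih =>
    rw [pow_succ, ← mul_assoc, ih, smul_mul_assoc, mul_assoc, h, mul_smul_comm, smul_smul,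
      ← T_add, ← mul_assoc]
    congr 2
    push_cast; ring

theorem qcomm_pow_left {m : ℤ} {x y : QTorus} (h : y * x = (T m : R) • (x * y)) (k : ℕ) :
    y ^ k * x = (T (m * k) : R) • (x * y ^ k) := by
  induction k with
  | zero => simp
  | succ k ih =>
    rw [pow_succ', mul_assoc, ih, mul_smul_comm, ← mul_assoc, h, smul_mul_assoc, smul_smul,
      ← T_add, mul_assoc]
    congr 2
    push_cast; ring

theorem qcomm_pow_pow {m : ℤ} {x y : QTorus} (h : y * x = (T m : R) • (x * y)) (k l : ℕ) :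
    y ^ l * x ^ k = (T (m * l * k) : R) • (x ^ k * y ^ l) := by
  have := qcomm_pow_right (m := m * l) (qcomm_pow_left h l) k
  exact this

theorem Quad.poly {t : ℤ} {β γ : ℕ} {x0 x1 x2 x3 : QTorus} (h : Quad t β γ x0 x1 x2 x3)
    (hγ : 0 < γ) (k : ℕ) : ∃ w : QTorus, Commute w x2 ∧ x3 ^ k * x1 ^ k = 1 + w * x2 := by
  induction k with
  | zero => exact ⟨0, Commute.zero_left _, by simp⟩
  | succ k ih =>
    obtain ⟨w, hw, hk⟩ := ih
    obtain ⟨γ', rfl⟩ : ∃ j, γ = j + 1 := ⟨γ - 1, by omega⟩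
    have e1 : x3 ^ (k + 1) * x1 ^ (k + 1) = x3 ^ k * x1 ^ k *
        (1 + (T (t * ((γ' + 1 : ℕ) : ℤ) + 2 * t * ((γ' + 1 : ℕ) : ℤ) * k) : R) •
          x2 ^ (γ' + 1)) := by
      rw [pow_succ, pow_succ', mul_assoc, ← mul_assoc x3 x1, h.r2, add_mul, one_mul, mul_add,
        smul_mul_assoc, qcomm_pow_pow h.c12, smul_smul, ← T_add, mul_smul_comm, mul_add, mul_one,
        mul_smul_comm, ← mul_assoc (x3 ^ k) (x1 ^ k), mul_assoc (2 * t), add_comm]
    rw [e1, hk]
    set s : R := T (t * ((γ' + 1 : ℕ) : ℤ) + 2 * t * ((γ' + 1 : ℕ) : ℤ) * k) with hs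
    refine ⟨w + s • x2 ^ γ' + w * x2 * s • x2 ^ γ', ?_, ?_⟩
    · have h1 : Commute (s • x2 ^ γ') x2 := ((Commute.refl x2).pow_left γ').smul_left s
      exact (hw.add_left h1).add_left ((hw.mul_left (Commute.refl x2)).mul_left h1)
    · rw [mul_add, mul_one, add_mul, one_mul, pow_succ, ← smul_mul_assoc, add_mul, add_mul,
        ← mul_assoc (w * x2)]
      abel

theorem T_injective' : Function.Injective (T : ℤ → R) := by
  intro m n h
  have := congrArg (fun f : R => f.coeff m) h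
  simp only [T_apply, if_true] at this
  by_contra hne
  rw [if_neg (Ne.symm hne)] at this
  exact one_ne_zero this

theorem Quad.step {t : ℤ} {β γ : ℕ} {x0 x1 x2 x3 : QTorus} (h : Quad t β γ x0 x1 x2 x3)
    (ht : t ≠ 0) (hβ : 0 < β) (hγ : 0 < γ) (n3 : x3 ≠ 0) :
    ∃ x4, Quad t γ β x1 x2 x3 x4 ∧ x4 ≠ 0 := by
  obtain ⟨w, hw, hk⟩ := h.poly hγ β
  have hwx : w * x2 = x3 ^ β * x1 ^ β - 1 := by rw [hk]; abel
  have r3 : ((T (t * β) : R) • (x3 ^ β * x0) - w) * x2 = (T (t * β) : R) • x3 ^ β + 1 := by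
    rw [sub_mul, hwx, smul_mul_assoc, mul_assoc, h.r1', mul_add, mul_one, mul_smul_comm,
      smul_add, smul_smul, ← T_add, add_neg_cancel, T_zero, one_smul]
    abel
  have r3' : x2 * ((T (t * β) : R) • (x3 ^ β * x0) - w) =
      (T (-(t * β)) : R) • x3 ^ β + 1 := by
    have e1 : x2 * x3 ^ β = (T (-(2 * t * β)) : R) • (x3 ^ β * x2) :=
      T_smul_cancel _ _ _ (qcomm_pow_left h.c23 β)
    rw [mul_sub, ← hw.eq, hwx, mul_smul_comm, ← mul_assoc, e1, smul_mul_assoc, smul_smul,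
      ← T_add, mul_assoc (x3 ^ β), h.r1, mul_add, mul_one, mul_smul_comm, smul_add, smul_smul,
      ← T_add]
    have e2 : t * (β : ℤ) + -(2 * t * β) + t * β = 0 := by ring
    have e3 : t * (β : ℤ) + -(2 * t * β) = -(t * β) := by ring
    rw [e2, e3, T_zero, one_smul]
    abel
  set x4 := (T (t * β) : R) • (x3 ^ β * x0) - w with hx4
  have c34 : x4 * x3 = (T (2 * t) : R) • (x3 * x4) := by
    have e1 : (x4 * x3 - (T (2 * t) : R) • (x3 * x4)) * x2 = 0 := by
      rw [sub_mul, mul_assoc, h.c23, mul_smul_comm, ← mul_assoc, r3, smul_mul_assoc, mul_assoc,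
        r3, add_mul, mul_add, one_mul, mul_one, smul_mul_assoc, mul_smul_comm, ← pow_succ,
        ← pow_succ', sub_self]
    rcases mul_eq_zero.mp e1 with h1 | h1
    · exact sub_eq_zero.mp h1
    · exact absurd h1 h.n2
  refine ⟨x4, ⟨h.c12, h.c23, c34, h.r2, h.r2', r3, r3', h.n2, n3⟩, ?_⟩
  intro h0
  rw [h0, zero_mul] at r3
  rw [h0, mul_zero] at r3'
  have e1 : (T (t * β) : R) • x3 ^ β = (T (-(t * β)) : R) • x3 ^ β := by
    have := r3.symm.trans r3'
    exact add_right_cancel this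
  have e2 : ((T (t * β) : R) - T (-(t * β))) • x3 ^ β = 0 := by
    rw [sub_smul, e1, sub_self]
  have e3 : (T (t * β) : R) - T (-(t * β)) ≠ 0 := by
    intro h1
    have := T_injective' (sub_eq_zero.mp h1)
    have : t * (β : ℤ) = 0 := by omega
    rcases mul_eq_zero.mp this with h2 | h2
    · exact ht h2
    · have : β = 0 := by exact_mod_cast h2
      omega
  have e4 : x3 ^ β ≠ 0 := pow_ne_zero β n3
  apply e4
  ext1 m
  have := congrArg (fun f : QTorus => f m) e2
  simp only [QTorus.smul_apply, QTorus.zero_apply] at this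
  exact (mul_eq_zero.mp this).resolve_left e3

theorem Quad.exists_seq {t : ℤ} {β γ : ℕ} {x0 x1 x2 x3 : QTorus} (h : Quad t β γ x0 x1 x2 x3)
    (ht : t ≠ 0) (hβ : 0 < β) (hγ : 0 < γ) (n3 : x3 ≠ 0) :
    ∃ f : ℕ → QTorus, f 0 = x0 ∧ f 1 = x1 ∧ f 2 = x2 ∧ f 3 = x3 ∧
      ∀ n, Quad t (if Even n then β else γ) (if Even n then γ else β)
        (f n) (f (n + 1)) (f (n + 2)) (f (n + 3)) := by
  classical
  -- states
  let S := {q : ℕ × QTorus × QTorus × QTorus × QTorus //
    Quad t (if Even q.1 then β else γ) (if Even q.1 then γ else β)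
      q.2.1 q.2.2.1 q.2.2.2.1 q.2.2.2.2 ∧ q.2.2.2.2 ≠ 0}
  have hstep : ∀ s : S, ∃ s' : S, s'.1.1 = s.1.1 + 1 ∧ s'.1.2.1 = s.1.2.2.1 ∧
      s'.1.2.2.1 = s.1.2.2.2.1 ∧ s'.1.2.2.2.1 = s.1.2.2.2.2 := by
    rintro ⟨⟨n, y0, y1, y2, y3⟩, hq, hn⟩
    simp only at hq hn
    obtain ⟨y4, h4, hn4⟩ := hq.step ht (by split_ifs <;> assumption)
      (by split_ifs <;> assumption) hn
    refine ⟨⟨⟨n + 1, y1, y2, y3, y4⟩, ?_, hn4⟩, rfl, rfl, rfl, rfl⟩
    simp only
    by_cases hev : Even n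
    · have : ¬ Even (n + 1) := by rw [Nat.even_add_one]; simpa using hev
      rw [if_neg this, if_neg this]
      rw [if_pos hev, if_pos hev] at h4
      exact h4
    · have : Even (n + 1) := by rw [Nat.even_add_one]; exact hev
      rw [if_pos this, if_pos this]
      rw [if_neg hev, if_neg hev] at h4
      exact h4
  choose nxt h1 h2 h3 h4 using hstep
  let s0 : S := ⟨⟨0, x0, x1, x2, x3⟩, by simpa using h, n3⟩
  let s : ℕ → S := fun n => Nat.rec s0 (fun _ s => nxt s) n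
  have hs : ∀ n, s (n + 1) = nxt (s n) := fun n => rfl
  have hidx : ∀ n, (s n).1.1 = n := by
    intro n
    induction n with
    | zero => rfl
    | succ n ih => rw [hs, h1, ih]
  have e1 : ∀ n, (s (n + 1)).1.2.1 = (s n).1.2.2.1 := fun n => by rw [hs, h2]
  have e2 : ∀ n, (s (n + 1)).1.2.2.1 = (s n).1.2.2.2.1 := fun n => by rw [hs, h3]
  have e3 : ∀ n, (s (n + 1)).1.2.2.2.1 = (s n).1.2.2.2.2 := fun n => by rw [hs, h4]
  refine ⟨fun n => (s n).1.2.1, rfl, ?_, ?_, ?_, fun n => ?_⟩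
  · exact e1 0
  · simp only [e1, e2]; rfl
  · simp only [e1, e2, e3]; rfl
  · have hq := (s n).2.1
    rw [hidx n] at hq
    have f1 : (s (n + 1)).1.2.1 = (s n).1.2.2.1 := e1 n
    have f2 : (s (n + 2)).1.2.1 = (s n).1.2.2.2.1 := (e1 (n + 1)).trans (e2 n)
    have f3 : (s (n + 3)).1.2.1 = (s n).1.2.2.2.2 :=
      ((e1 (n + 2)).trans (e2 (n + 1))).trans (e3 n)
    simp only [f1, f2, f3]
    exact hq

theorem mon_congr {m m' : ℤ × ℤ} {r r' : R} (h1 : m.1 = m'.1) (h2 : m.2 = m'.2) (h3 : r = r') :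
    mon m r = mon m' r' := by rw [Prod.ext h1 h2, h3]

theorem T_eq_one {m : ℤ} (h : m = 0) : (T m : R) = 1 := by rw [h, T_zero]

/-- The initial four cluster variables. -/
theorem initial_quad (b c : ℕ) : Quad 1 b c (mon (0, -1) 1 + mon (b, -1) 1) X1 X2
    (mon (-1, 0) 1 + mon (-1, c) 1) where
  c01 := by
    rw [X1, mul_add, add_mul, smul_add]
    simp only [mon_mul_mon, smul_mon, Prod.mk_add_mk, Lam, mul_one, ← T_add]
    exact congrArg₂ (· + ·) (mon_congr (by simp) (by simp) (congrArg T (by ring)))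
      (mon_congr (by simp; ring) (by simp) (congrArg T (by ring)))
  c12 := X2_mul_X1
  c23 := by
    rw [X2, mul_add, add_mul, smul_add]
    simp only [mon_mul_mon, smul_mon, Prod.mk_add_mk, Lam, mul_one, ← T_add]
    exact congrArg₂ (· + ·) (mon_congr (by simp) (by simp) (congrArg T (by ring)))
      (mon_congr (by simp) (by simp; ring) (congrArg T (by ring)))
  r1 := by
    rw [X1, X2, mon_pow, mul_add]
    simp only [mon_mul_mon, smul_mon, Prod.mk_add_mk, Lam, mul_one, one_def]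
    rw [add_comm]
    exact congrArg₂ (· + ·) (mon_congr (by simp) (by simp) (congrArg T (by ring)))
      (mon_congr (by simp) (by simp) (T_eq_one (by ring)))
  r1' := by
    rw [X1, X2, mon_pow, add_mul]
    simp only [mon_mul_mon, smul_mon, Prod.mk_add_mk, Lam, mul_one, one_def]
    rw [add_comm]
    exact congrArg₂ (· + ·) (mon_congr (by simp) (by simp) (congrArg T (by ring)))
      (mon_congr (by simp) (by simp) (T_eq_one (by ring)))
  r2 := by
    rw [X1, X2, mon_pow, add_mul]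
    simp only [mon_mul_mon, smul_mon, Prod.mk_add_mk, Lam, mul_one, one_def]
    rw [add_comm]
    exact congrArg₂ (· + ·) (mon_congr (by simp) (by simp) (congrArg T (by ring)))
      (mon_congr (by simp) (by simp) (T_eq_one (by ring)))
  r2' := by
    rw [X1, X2, mon_pow, mul_add]
    simp only [mon_mul_mon, smul_mon, Prod.mk_add_mk, Lam, mul_one, one_def]
    rw [add_comm]
    exact congrArg₂ (· + ·) (mon_congr (by simp) (by simp) (congrArg T (by ring)))
      (mon_congr (by simp) (by simp) (T_eq_one (by ring)))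
  n1 := by
    intro h
    have := congrArg (fun f : QTorus => f (1, 0)) h
    simp [X1, mon_apply] at this
  n2 := by
    intro h
    have := congrArg (fun f : QTorus => f (0, 1)) h
    simp [X2, mon_apply] at this

/-- **Laurent phenomenon**: the sequence of cluster variables exists in the quantum torus. -/
theorem exists_clusterSeq_ne_zero {b c : ℕ} (hb : 0 < b) (hc : 0 < c) :
    ∃ X : ℤ → QTorus, IsClusterSeq b c X ∧ ∀ m, X m ≠ 0 := by
  have hq := initial_quad b c
  have n3 : (mon (-1, 0) 1 + mon (-1, c) 1 : QTorus) ≠ 0 := by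
    intro h
    have := congrArg (fun f : QTorus => f (-1, 0)) h
    simp [mon_apply, hc.ne'] at this
  have n0 : (mon (0, -1) 1 + mon (b, -1) 1 : QTorus) ≠ 0 := by
    intro h
    have := congrArg (fun f : QTorus => f (0, -1)) h
    simp [mon_apply, hb.ne'] at this
  obtain ⟨f, f0, f1, f2, f3, hf⟩ := hq.exists_seq one_ne_zero hb hc n3
  obtain ⟨g, g0, g1, g2, g3, hg⟩ := hq.reverse.exists_seq (by norm_num) hc hb n0
  let X : ℤ → QTorus := fun m => if 0 ≤ m then f m.toNat else g (3 - m).toNat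
  have hXf : ∀ m : ℤ, 0 ≤ m → X m = f m.toNat := fun m hm => if_pos hm
  have hXg : ∀ m : ℤ, m ≤ 3 → X m = g (3 - m).toNat := by
    intro m hm
    rcases lt_or_ge m 0 with h | h
    · exact if_neg (by omega)
    · rw [hXf m h]
      interval_cases m
      · simp [f0, g3]
      · simp [f1, g2]
      · simp [f2, g1]
      · simp [f3, g0]
  refine ⟨X, ⟨?_, ?_, ?_, ?_⟩, ?_⟩
  · rw [hXf 1 (by norm_num)]; simpa using f1
  · rw [hXf 2 (by norm_num)]; simpa using f2
  · intro m hm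
    rcases le_or_gt 1 m with h | h
    · rw [hXf _ (by omega), hXf _ (by omega), hXf _ (by omega)]
      obtain ⟨n, rfl⟩ : ∃ n : ℕ, m = n + 1 := ⟨(m - 1).toNat, by omega⟩
      have h1 := (hf n).r1
      have hev : Even n := by
        rcases Nat.even_or_odd n with h | h
        · exact h
        · exfalso
          have : Odd (n : ℤ) := by exact_mod_cast h
          have h2 : Even ((n : ℤ) + 1) := this.add_one
          exact (Int.not_even_iff_odd.mpr hm) h2
      rw [if_pos hev] at h1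
      have e1 : ((n : ℤ) + 1 + 1).toNat = n + 2 := by omega
      have e2 : ((n : ℤ) + 1 - 1).toNat = n := by omega
      have e3 : ((n : ℤ) + 1).toNat = n + 1 := by omega
      rw [e1, e2, e3, h1, one_mul]
    · rw [hXg _ (by omega), hXg _ (by omega), hXg _ (by omega)]
      obtain ⟨n, hn⟩ : ∃ n : ℕ, m = 2 - n := ⟨(2 - m).toNat, by omega⟩
      subst hn
      have h1 := (hg n).r1'
      have hodd : ¬ Even n := by
        intro h
        have h3 : Even (n : ℤ) := by exact_mod_cast h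
        have h2 : Even (2 - (n : ℤ)) := (by decide : Even (2 : ℤ)).sub h3
        exact (Int.not_even_iff_odd.mpr hm) h2
      rw [if_neg hodd] at h1
      have e1 : (3 - (2 - (n : ℤ) + 1)).toNat = n := by omega
      have e2 : (3 - (2 - (n : ℤ) - 1)).toNat = n + 2 := by omega
      have e3 : (3 - (2 - (n : ℤ))).toNat = n + 1 := by omega
      rw [e1, e2, e3, h1, neg_mul, neg_neg, one_mul]
  · intro m hm
    rcases le_or_gt 1 m with h | h
    · rw [hXf _ (by omega), hXf _ (by omega), hXf _ (by omega)]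
      obtain ⟨n, rfl⟩ : ∃ n : ℕ, m = n + 1 := ⟨(m - 1).toNat, by omega⟩
      have h1 := (hf n).r1
      have hodd : ¬ Even n := by
        intro h
        have h3 : Even (n : ℤ) := by exact_mod_cast h
        have h2 : Odd ((n : ℤ) + 1) := h3.add_one
        exact (Int.not_even_iff_odd.mpr h2) hm
      rw [if_neg hodd] at h1
      have e1 : ((n : ℤ) + 1 + 1).toNat = n + 2 := by omega
      have e2 : ((n : ℤ) + 1 - 1).toNat = n := by omega
      have e3 : ((n : ℤ) + 1).toNat = n + 1 := by omega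
      rw [e1, e2, e3, h1, one_mul]
    · rw [hXg _ (by omega), hXg _ (by omega), hXg _ (by omega)]
      obtain ⟨n, hn⟩ : ∃ n : ℕ, m = 2 - n := ⟨(2 - m).toNat, by omega⟩
      subst hn
      have h1 := (hg n).r1'
      have hev : Even n := by
        rcases Nat.even_or_odd n with h | h
        · exact h
        · exfalso
          have h3 : Odd (n : ℤ) := by exact_mod_cast h
          have h2 : Odd (2 - (n : ℤ)) := (by decide : Even (2 : ℤ)).sub_odd h3
          exact (Int.not_even_iff_odd.mpr h2) hm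
      rw [if_pos hev] at h1
      have e1 : (3 - (2 - (n : ℤ) + 1)).toNat = n := by omega
      have e2 : (3 - (2 - (n : ℤ) - 1)).toNat = n + 2 := by omega
      have e3 : (3 - (2 - (n : ℤ))).toNat = n + 1 := by omega
      rw [e1, e2, e3, h1, neg_mul, neg_neg, one_mul]

  · intro m
    rcases le_or_gt 1 m with h | h
    · rw [hXf _ (by omega)]
      obtain ⟨n, rfl⟩ : ∃ n : ℕ, m = n + 1 := ⟨(m - 1).toNat, by omega⟩
      have e3 : ((n : ℤ) + 1).toNat = n + 1 := by omega
      rw [e3]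
      exact (hf n).n1
    · rw [hXg _ (by omega)]
      obtain ⟨n, hn⟩ : ∃ n : ℕ, m = 2 - n := ⟨(2 - m).toNat, by omega⟩
      subst hn
      have e3 : (3 - (2 - (n : ℤ))).toNat = n + 1 := by omega
      rw [e3]
      exact (hg n).n1

/-- The sequence of quantum cluster variables exists in the quantum torus and is unique. -/
theorem existsUnique_clusterSeq {b c : ℕ} (hb : 0 < b) (hc : 0 < c) :
    ∃! X : ℤ → QTorus, IsClusterSeq b c X := by
  obtain ⟨X, hX, hne⟩ := exists_clusterSeq_ne_zero hb hc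
  refine ⟨X, hX, fun Y hY => ?_⟩
  have hrel : ∀ m : ℤ, X (m + 1) * X (m - 1) = Y (m + 1) * Y (m - 1) ∨ X m ≠ Y m := by
    intro m
    by_cases hm : X m = Y m
    · left
      rcases Int.even_or_odd m with h | h
      · rw [hX.even m h, hY.even m h, hm]
      · rw [hX.odd m h, hY.odd m h, hm]
    · right; exact hm
  have hup : ∀ n : ℕ, X (n + 1) = Y (n + 1) ∧ X (n + 2) = Y (n + 2) := by
    intro n
    induction n with
    | zero => simp [hX.one, hY.one, hX.two, hY.two]
    | succ n ih =>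
      have e2 : (((n + 1 : ℕ) : ℤ) + 1) = n + 2 := by push_cast; ring
      have e3 : (((n + 1 : ℕ) : ℤ) + 2) = n + 3 := by push_cast; ring
      rw [e2, e3]
      refine ⟨ih.2, ?_⟩
      have h := (hrel (n + 2)).resolve_right (fun h => h ih.2)
      have e4 : (n : ℤ) + 2 + 1 = n + 3 := by ring
      have e5 : (n : ℤ) + 2 - 1 = n + 1 := by ring
      rw [e4, e5, ← ih.1] at h
      exact mul_right_cancel₀ (hne _) h
  have hdown : ∀ n : ℕ, X (2 - n) = Y (2 - n) ∧ X (1 - n) = Y (1 - n) := by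
    intro n
    induction n with
    | zero => simp [hX.one, hY.one, hX.two, hY.two]
    | succ n ih =>
      have e2 : (2 - ((n + 1 : ℕ) : ℤ)) = 1 - n := by push_cast; ring
      have e3 : (1 - ((n + 1 : ℕ) : ℤ)) = -n := by push_cast; ring
      rw [e2, e3]
      refine ⟨ih.2, ?_⟩
      have h := (hrel (1 - n)).resolve_right (fun h => h ih.2)
      have e4 : 1 - (n : ℤ) + 1 = 2 - n := by ring
      have e5 : 1 - (n : ℤ) - 1 = -n := by ring
      rw [e4, e5, ← ih.1] at h
      exact mul_left_cancel₀ (hne _) h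
  funext m
  rcases le_or_gt 1 m with h | h
  · have := (hup (m - 1).toNat).1
    rw [Int.toNat_of_nonneg (by omega), sub_add_cancel] at this
    exact this.symm
  · have := (hdown (1 - m).toNat).2
    rw [Int.toNat_of_nonneg (by omega), sub_sub_cancel] at this
    exact this.symm

end Pool.Agent.Work.MP_c41774_al

end
end
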