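import Mathlib
import Pool.Agent.Work.MP_c41774_al.Full.BStmts
import Pool.Agent.Work.MP_c41774_al.Full.CStmts

/-! Bundle of small proof modules (one section per former module). -/

section

/-!
# Block G, part 1: generating series of locally finite bigraded sets
-/

noncomputable section

namespace Pool.Agent.Work.MP_c41774_al.Full

open Finset
open Pool.Agent.Work.MP_c41774_al.Wall

/-- locally finite bigraded set -/
def LFin {T : Type*} (s : T → ℕ) (d : T → ℤ) : Prop :=
  ∀ (K : ℕ) (J : ℤ), {t | s t = K ∧ d t ≤ J}.Finite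

/-- number of elements of size `K` and degree `J` -/
def cnt {T : Type*} (s : T → ℕ) (d : T → ℤ) (K : ℕ) (J : ℤ) : ℕ :=
  Nat.card {t // s t = K ∧ d t = J}

section

variable {T U : Type*} {s : T → ℕ} {d : T → ℤ} {s' : U → ℕ} {d' : U → ℤ}

lemma LFin.bdd (h : LFin s d) (K : ℕ) : ∃ B : ℤ, ∀ t, s t = K → B ≤ d t := by
  obtain ⟨B, hB⟩ := ((h K 0).image d).bddBelow
  refine ⟨min B 0, fun t ht => ?_⟩
  rcases le_or_gt (d t) 0 with h0 | h0
  · exact le_trans (min_le_left _ _) (hB ⟨t, ⟨ht, h0⟩, rfl⟩)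
  · exact le_trans (min_le_right _ _) h0.le

lemma LFin.finite (h : LFin s d) (K : ℕ) (J : ℤ) : Finite {t // s t = K ∧ d t = J} := by
  have : {t | s t = K ∧ d t = J}.Finite := (h K J).subset fun t ht => ⟨ht.1, ht.2.le⟩
  exact this

lemma cnt_eq_zero {B : ℤ} {K : ℕ} (hB : ∀ t, s t = K → B ≤ d t) {J : ℤ} (hJ : J < B) :
    cnt s d K J = 0 := by
  have : IsEmpty {t // s t = K ∧ d t = J} := ⟨fun t => by
    have := hB t.1 t.2.1
    have := t.2.2
    omega⟩
  exact Nat.card_of_isEmpty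

lemma LFin.supp (h : LFin s d) (K : ℕ) :
    BddBelow (Function.support fun J : ℤ => (cnt s d K J : ℤ)) := by
  obtain ⟨B, hB⟩ := h.bdd K
  refine ⟨B, fun J hJ => ?_⟩
  by_contra hlt
  exact hJ (by simp [cnt_eq_zero hB (not_le.mp hlt)])

/-- The generating series `∑_t v^{d t} Z^{s t}`. -/
def GS (h : LFin s d) : PowerSeries S :=
  PowerSeries.mk fun K => HahnSeries.ofSuppBddBelow (fun J : ℤ => (cnt s d K J : ℤ)) (h.supp K)

lemma coeff_GS (h : LFin s d) (K : ℕ) (J : ℤ) :
    (PowerSeries.coeff K (GS h)).coeff J = (cnt s d K J : ℤ) := by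
  simp [GS]

lemma SN_GS (h : LFin s d) (K : ℕ) : SN (PowerSeries.coeff K (GS h)) := by
  intro J
  rw [coeff_GS]
  positivity

lemma GS_congr (e : T ≃ U) (hs : ∀ t, s' (e t) = s t) (hd : ∀ t, d' (e t) = d t)
    (h : LFin s d) (h' : LFin s' d') : GS h = GS h' := by
  ext K J
  rw [coeff_GS, coeff_GS]
  unfold cnt
  congr 1
  refine Nat.card_congr (e.subtypeEquiv fun t => ?_)
  rw [hs, hd]

lemma LFin.congr (e : T ≃ U) (hs : ∀ t, s' (e t) = s t) (hd : ∀ t, d' (e t) = d t)
    (h : LFin s d) : LFin s' d' := by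
  intro K J
  refine ((h K J).image e).subset fun u hu => ⟨e.symm u, ?_, by simp⟩
  constructor
  · rw [← hs]; simpa using hu.1
  · rw [← hd]; simpa using hu.2

/-- shift of the degrees -/
lemma LFin.shift (h : LFin s d) (a : ℤ) : LFin s fun t => d t + a * s t := by
  intro K J
  refine (h K (J - a * K)).subset fun t ht => ⟨ht.1, ?_⟩
  have h1 := ht.1
  have h2 : d t + a * s t ≤ J := ht.2
  rw [h1] at h2
  linarith

lemma w_pow (a : ℤ) (n : ℕ) : (w a) ^ n = w (a * n) := by
  unfold w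
  rw [HahnSeries.single_pow]
  simp [mul_comm]

lemma GS_shift (h : LFin s d) (a : ℤ) :
    GS (h.shift a) = PowerSeries.rescale (w a) (GS h) := by
  ext K J
  rw [PowerSeries.coeff_rescale, w_pow, coeff_GS]
  unfold w
  rw [HahnSeries.coeff_single_mul, one_mul, coeff_GS]
  unfold cnt
  congr 1
  refine Nat.card_congr (Equiv.subtypeEquivRight fun t => ?_)
  beta_reduce
  constructor
  · rintro ⟨h1, h2⟩
    refine ⟨h1, ?_⟩
    rw [h1] at h2
    linarith
  · rintro ⟨h1, h2⟩
    refine ⟨h1, ?_⟩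
    rw [h1]
    linarith

/-- coefficients of products of Laurent series -/
lemma coeff_mul_Icc (f g : S) {B B' : ℤ} (hf : ∀ i < B, f.coeff i = 0)
    (hg : ∀ i < B', g.coeff i = 0) (J : ℤ) :
    (f * g).coeff J = ∑ i ∈ Finset.Icc B (J - B'), f.coeff i * g.coeff (J - i) := by
  rw [HahnSeries.coeff_mul]
  refine Finset.sum_bij_ne_zero (fun ij _ _ => ij.1) ?_ ?_ ?_ ?_
  · intro ij h1 h2
    rw [Finset.mem_antidiagonal] at h1
    obtain ⟨_, _, h5⟩ := h1
    rw [Finset.mem_Icc]
    constructor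
    · by_contra hlt
      exact h2 (by rw [hf _ (not_le.mp hlt), zero_mul])
    · by_contra hlt
      exact h2 (by rw [hg _ (by omega), mul_zero])
  · intro ij h1 _ ij' h1' _ h3
    rw [Finset.mem_antidiagonal] at h1 h1'
    ext
    · exact h3
    · have := h1.2.2
      have := h1'.2.2
      omega
  · intro i _ h2
    have h3 : f.coeff i ≠ 0 := left_ne_zero_of_mul h2
    have h4 : g.coeff (J - i) ≠ 0 := right_ne_zero_of_mul h2
    refine ⟨(i, J - i), ?_, h2, rfl⟩
    rw [Finset.mem_antidiagonal]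
    exact ⟨h3, h4, by ring⟩
  · intro ij h1 _
    rw [Finset.mem_antidiagonal] at h1
    have : J - ij.1 = ij.2 := by
      have := h1.2.2
      omega
    rw [this]

/-- product of two bigraded sets -/
lemma LFin.prod (h : LFin s d) (h' : LFin s' d') :
    LFin (fun x : T × U => s x.1 + s' x.2) (fun x => d x.1 + d' x.2) := by
  intro K J
  choose B hB using h.bdd
  choose B' hB' using h'.bdd
  have : {x : T × U | s x.1 + s' x.2 = K ∧ d x.1 + d' x.2 ≤ J} ⊆
      ⋃ p ∈ Finset.HasAntidiagonal.antidiagonal K, {t | s t = p.1 ∧ d t ≤ J - B' p.2} ×ˢ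
        {u | s' u = p.2 ∧ d' u ≤ J - B p.1} := by
    rintro ⟨t, u⟩ ⟨h1, h2⟩
    simp only [Set.mem_iUnion]
    refine ⟨(s t, s' u), by simpa using h1, ⟨rfl, ?_⟩, ⟨rfl, ?_⟩⟩
    · have := hB' (s' u) u rfl
      simp only at h2 ⊢
      linarith
    · have := hB (s t) t rfl
      simp only at h2 ⊢
      linarith
  refine Set.Finite.subset ?_ this
  refine Set.Finite.biUnion (Finset.finite_toSet _) fun p _ => ?_
  exact (h _ _).prod (h' _ _)

lemma GS_prod (h : LFin s d) (h' : LFin s' d') : GS (h.prod h') = GS h * GS h' := by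
  ext K J
  choose B hB using h.bdd
  choose B' hB' using h'.bdd
  rw [PowerSeries.coeff_mul, HahnSeries.coeff_sum, coeff_GS]
  have h1 : ∀ p ∈ Finset.HasAntidiagonal.antidiagonal K,
      (PowerSeries.coeff p.1 (GS h) * PowerSeries.coeff p.2 (GS h')).coeff J =
        ∑ i ∈ Finset.Icc (B p.1) (J - B' p.2), (cnt s d p.1 i : ℤ) * cnt s' d' p.2 (J - i) := by
    intro p _
    rw [coeff_mul_Icc _ _ (B := B p.1) (B' := B' p.2)]
    · refine Finset.sum_congr rfl fun i _ => ?_
      rw [coeff_GS, coeff_GS]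
    · intro i hi
      rw [coeff_GS, cnt_eq_zero (hB p.1) hi, Nat.cast_zero]
    · intro i hi
      rw [coeff_GS, cnt_eq_zero (hB' p.2) hi, Nat.cast_zero]
  rw [Finset.sum_congr rfl h1]
  have h2 : cnt (fun x : T × U => s x.1 + s' x.2) (fun x => d x.1 + d' x.2) K J =
      ∑ p ∈ Finset.HasAntidiagonal.antidiagonal K, ∑ i ∈ Finset.Icc (B p.1) (J - B' p.2),
        cnt s d p.1 i * cnt s' d' p.2 (J - i) := by
    have e : {x : T × U // s x.1 + s' x.2 = K ∧ d x.1 + d' x.2 = J} ≃
        Σ (p : ↥(Finset.HasAntidiagonal.antidiagonal K)) (i : Finset.Icc (B p.1.1) (J - B' p.1.2)),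
          {t // s t = p.1.1 ∧ d t = i.1} × {u // s' u = p.1.2 ∧ d' u = J - i.1} :=
      { toFun := fun x => ⟨⟨(s x.1.1, s' x.1.2), by simpa using x.2.1⟩,
          ⟨⟨d x.1.1, by
            rw [Finset.mem_Icc]
            have h3 := hB (s x.1.1) x.1.1 rfl
            have h4 := hB' (s' x.1.2) x.1.2 rfl
            have h5 := x.2.2
            simp only
            omega⟩, ⟨x.1.1, rfl, rfl⟩, ⟨x.1.2, rfl, by
            have h5 := x.2.2
            simp only
            omega⟩⟩⟩
        invFun := fun y => ⟨(y.2.2.1.1, y.2.2.2.1), by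
          obtain ⟨⟨p, hp⟩, ⟨i, hi⟩, ⟨t, ht⟩, ⟨u, hu⟩⟩ := y
          rw [Finset.HasAntidiagonal.mem_antidiagonal] at hp
          simp only at ht hu ⊢
          omega⟩
        left_inv := fun x => rfl
        right_inv := by
          rintro ⟨⟨⟨p1, p2⟩, hp⟩, ⟨i, hi⟩, ⟨t, ht1, ht2⟩, ⟨u, hu1, hu2⟩⟩
          simp only at ht1 ht2 hu1 hu2
          subst ht1 ht2 hu1
          rfl }
    unfold cnt
    rw [Nat.card_congr e]
    haveI : ∀ (p : ↥(Finset.HasAntidiagonal.antidiagonal K)) (i : Finset.Icc (B p.1.1) (J - B' p.1.2)),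
        Finite ({t // s t = p.1.1 ∧ d t = i.1} × {u // s' u = p.1.2 ∧ d' u = J - i.1}) := by
      intro p i
      haveI := h.finite p.1.1 i.1
      haveI := h'.finite p.1.2 (J - i.1)
      infer_instance
    rw [Nat.card_sigma, ← Finset.sum_coe_sort (Finset.HasAntidiagonal.antidiagonal K)]
    refine Finset.sum_congr rfl fun p _ => ?_
    rw [Nat.card_sigma, ← Finset.sum_coe_sort (Finset.Icc (B p.1.1) (J - B' p.1.2))]
    refine Finset.sum_congr rfl fun i _ => ?_
    rw [Nat.card_prod]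
  rw [h2]
  push_cast
  rfl

end

end Pool.Agent.Work.MP_c41774_al.Full

end
end

section

/-!
# Block H: definitions (Harder–Narasimhan filtration at one slope)
-/

noncomputable section

namespace Pool.Agent.Work.MP_c41774_al.Full

open Finset MvPolynomial
open Pool.Agent.Work.MP_c41774_al.Wall

section filt

variable {L : Type*} [Fintype L] [DecidableEq L]

/-- the filtration `J_n = I⁺ + (κ(T) : θ(T) = 0, #T ≥ n)` -/
def Jf (κ₀ : ℕ × ℕ) (τ : L → Bool) (n : ℕ) : Ideal (MvPolynomial L ℚ) :=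
  Ip κ₀ τ tv ⊔ Ideal.span {f | ∃ T : Finset L, th κ₀ τ T = 0 ∧ n ≤ #T ∧ f = pr (cut τ tv T)}

end filt

/-- `J_n` as a subspace -/
def JfS (L : Type*) [Fintype L] [DecidableEq L] (κ₀ : ℕ × ℕ) (n : ℕ) (τ : L → Bool) :
    Submodule ℚ (MvPolynomial L ℚ) := (Jf κ₀ τ n).restrictScalars ℚ

section two

variable {L₁ L₂ : Type} [Fintype L₁] [DecidableEq L₁] [Fintype L₂] [DecidableEq L₂]

/-- the left labels -/
def T0 : Finset (L₁ ⊕ L₂) := univ.filter fun l => l.isLeft = true

/-- the ideal `I⁺(T0) + I⁰(T0ᶜ)` -/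
def KI (κ₀ : ℕ × ℕ) (τ : L₁ ⊕ L₂ → Bool) : Ideal (MvPolynomial (L₁ ⊕ L₂) ℚ) :=
  (Ip κ₀ (τ ∘ Sum.inl) tv).map (rename (R := ℚ) (Sum.inl : L₁ → L₁ ⊕ L₂)) ⊔
    (I0 κ₀ (τ ∘ Sum.inr)).map (rename (R := ℚ) (Sum.inr : L₂ → L₁ ⊕ L₂))

/-- the outer product of two families -/
def ox {b c : ℕ} (F : Fm b c L₁) (G : Fm b c L₂) : Fm b c (L₁ ⊕ L₂) := fun w =>
  rename (Sum.inl : L₁ → L₁ ⊕ L₂) (F (w ∘ Sum.inl)) *
    rename (Sum.inr : L₂ → L₁ ⊕ L₂) (G (w ∘ Sum.inr))

/-- multiplication with `κ(T0)` -/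
def ph {b c : ℕ} (H : Fm b c (L₁ ⊕ L₂)) : Fm b c (L₁ ⊕ L₂) := fun w =>
  pr (cut (tw w) tv T0) * H w

end two

/-- the slope condition `θ(κ') = 0` -/
def Th0 (κ₀ κ' : ℕ × ℕ) : Prop := κ₀.2 * κ'.1 = κ₀.1 * κ'.2

instance (κ₀ κ' : ℕ × ℕ) : Decidable (Th0 κ₀ κ') := inferInstanceAs (Decidable (_ = _))

/-- the pairs of degrees `(j₁, j₂)` with `j₁ + j₂ + 2 b c κ'₁ κ''₂ = J` -/
def Jp (b c : ℕ) (κ' κ'' : ℕ × ℕ) (J : ℕ) : Finset (ℕ × ℕ) :=
  (range (J + 1) ×ˢ range (J + 1)).filter fun x => x.1 + x.2 + 2 * b * c * (κ'.1 * κ''.2) = J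

/-- finitely supported signed functions on maps `u : L → X`, supported on maps whose image has the
property `P` -/
def SF (L X : Type) [Fintype L] [DecidableEq L] [DecidableEq X] (P : Finset X → Prop) :
    Submodule ℚ ((L → X) →₀ ℚ) where
  carrier := {φ | (∀ (g : Equiv.Perm L) u, φ (u ∘ g) = sg g * φ u) ∧
    ∀ u, ¬ P (univ.image u) → φ u = 0}
  add_mem' := by
    rintro φ ψ ⟨h1, h2⟩ ⟨h3, h4⟩
    refine ⟨fun g u => ?_, fun u hu => ?_⟩
    · rw [Finsupp.add_apply, Finsupp.add_apply, h1, h3, mul_add]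
    · rw [Finsupp.add_apply, h2 u hu, h4 u hu, add_zero]
  zero_mem' := ⟨fun g u => by simp, fun u _ => rfl⟩
  smul_mem' := by
    rintro r φ ⟨h1, h2⟩
    refine ⟨fun g u => ?_, fun u hu => ?_⟩
    · rw [Finsupp.smul_apply, Finsupp.smul_apply, h1, smul_eq_mul, smul_eq_mul]
      ring
    · rw [Finsupp.smul_apply, h2 u hu, smul_zero]

/-- the subsets `A` of `Col × ℕ` of charge `κ` and total degree `j` -/
def PA (b c : ℕ) (κ : ℕ × ℕ) (j : ℕ) (A : Finset (Col b c × ℕ)) : Prop :=
  #(A.filter fun x => x.1.isLeft = true) = κ.1 ∧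
    #(A.filter fun x => x.1.isLeft = false) = κ.2 ∧
    ∑ x ∈ A, (2 * b * c * x.2 + cwt b c x.1) = j

/-- number of finite subsets `A` of `ℕ` with `#A = n` and `s ∑_{k ∈ A} (2k+1) = j` -/
def cs (s n j : ℕ) : ℕ := Nat.card {A : Finset ℕ // #A = n ∧ s * ∑ k ∈ A, (2 * k + 1) = j}

end Pool.Agent.Work.MP_c41774_al.Full

end
end

section

/-!
# Item ACT: permutations preserve the subspaces
-/

noncomputable section

namespace Pool.Agent.Work.MP_c41774_al.Full

open Finset MvPolynomial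
open Pool.Agent.Work.MP_c41774_al.Wall

theorem pr_ACT (hrel : C_REL) : C_ACT := by
  intro b c L _ _ g F κ₀ n
  obtain ⟨φ, h1, _, _, h4, h5, h6⟩ := hrel b c L L g
  have hF : φ F = act g F := h1 F
  refine ⟨fun hf => ?_, fun hf => ?_, fun hf => ?_⟩
  · rw [← hF, ← h4 κ₀]
    exact Submodule.mem_map_of_mem hf
  · rw [← hF, ← h5 κ₀]
    exact Submodule.mem_map_of_mem hf
  · rw [← hF, ← h6 κ₀ n]
    exact Submodule.mem_map_of_mem hf

end Pool.Agent.Work.MP_c41774_al.Full

end
end

section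

/-!
# Item AV: properties of the signed average
-/

noncomputable section

namespace Pool.Agent.Work.MP_c41774_al.Full

open Finset MvPolynomial
open Pool.Agent.Work.MP_c41774_al.Wall

section AV

variable {b c : ℕ} {L : Type} [Fintype L] [DecidableEq L]

lemma AV_act_act (h g : Equiv.Perm L) (F : Fm b c L) : act h (act g F) = act (h * g) F := by
  funext w
  simp only [act, rename_rename]
  rfl

/-- the action as a linear map -/
def AV_lin (g : Equiv.Perm L) : Fm b c L →ₗ[ℚ] Fm b c L where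
  toFun := act g
  map_add' F G := by
    funext w
    simp [act]
  map_smul' r F := by
    funext w
    simp [act]

lemma AV_lin_apply (g : Equiv.Perm L) (F : Fm b c L) : AV_lin g F = act g F := rfl

lemma AV_sg_mul (g h : Equiv.Perm L) : sg (g * h) = sg g * sg h := by
  unfold sg
  rw [Equiv.Perm.sign_mul]
  push_cast
  ring

lemma AV_sg_sq (g : Equiv.Perm L) : sg g * sg g = 1 := by
  unfold sg
  rcases Int.units_eq_one_or (Equiv.Perm.sign g) with h | h <;> rw [h] <;> norm_num

lemma AV_act_Av (g : Equiv.Perm L) (F : Fm b c L) : act g (Av F) = sg g • Av F := by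
  rw [← AV_lin_apply]
  unfold Av
  rw [map_smul, map_sum, smul_comm]
  congr 1
  rw [Finset.smul_sum, ← Equiv.sum_comp (Equiv.mulLeft g) (fun h => sg g • sg h • act h F)]
  refine Finset.sum_congr rfl fun h _ => ?_
  rw [map_smul, AV_lin_apply, AV_act_act]
  show sg h • act (g * h) F = sg g • sg (g * h) • act (g * h) F
  rw [smul_smul, AV_sg_mul, ← mul_assoc, AV_sg_sq, one_mul]

lemma AV_Av_act (g : Equiv.Perm L) (F : Fm b c L) : Av (act g F) = sg g • Av F := by
  unfold Av
  rw [smul_comm]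
  congr 1
  rw [Finset.smul_sum, ← Equiv.sum_comp (Equiv.mulRight g) (fun h => sg g • sg h • act h F)]
  refine Finset.sum_congr rfl fun h _ => ?_
  rw [AV_act_act]
  show sg h • act (h * g) F = sg g • sg (h * g) • act (h * g) F
  rw [smul_smul, AV_sg_mul, mul_comm (sg h), ← mul_assoc, AV_sg_sq, one_mul]

lemma AV_fix (F : Fm b c L) (hF : ∀ g : Equiv.Perm L, act g F = sg g • F) : Av F = F := by
  unfold Av
  have h1 : ∑ g : Equiv.Perm L, sg g • act g F = (Fintype.card (Equiv.Perm L) : ℚ) • F := by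
    have h2 : ∀ g ∈ (univ : Finset (Equiv.Perm L)), sg g • act g F = F := by
      intro g _
      rw [hF g, smul_smul, AV_sg_sq, one_smul]
    rw [Finset.sum_congr rfl h2, Finset.sum_const, Finset.card_univ, Nat.cast_smul_eq_nsmul]
  rw [h1, smul_smul, inv_mul_cancel₀ (by exact_mod_cast Fintype.card_ne_zero), one_smul]

lemma AV_chg (w : L → Col b c) (g : Equiv.Perm L) : chg (w ∘ g) = chg w := by
  unfold chg nx ny
  refine Prod.ext ?_ ?_
  · show #(univ.filter fun l => tw (w ∘ g) l = true) = #(univ.filter fun l => tw w l = true)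
    refine Finset.card_bij (fun l _ => g l) ?_ ?_ ?_
    · intro l hl
      simpa [tw] using hl
    · intro l _ l' _ h
      exact g.injective h
    · intro l hl
      refine ⟨g.symm l, ?_, by simp⟩
      simpa [tw] using hl
  · show #(univ.filter fun l => tw (w ∘ g) l = false) = #(univ.filter fun l => tw w l = false)
    refine Finset.card_bij (fun l _ => g l) ?_ ?_ ?_
    · intro l hl
      simpa [tw] using hl
    · intro l _ l' _ h
      exact g.injective h
    · intro l hl
      refine ⟨g.symm l, ?_, by simp⟩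
      simpa [tw] using hl

lemma AV_apply (F : Fm b c L) (w : L → Col b c) : Av F w =
    ((Fintype.card (Equiv.Perm L) : ℚ)⁻¹) • ∑ g : Equiv.Perm L, sg g • rename g (F (w ∘ g)) := by
  unfold Av
  rw [Pi.smul_apply, Finset.sum_apply]
  rfl

end AV

theorem pr_AV : C_AV := by
  intro b c L _ _ F κ j
  refine ⟨fun g => AV_act_Av g F, fun g => AV_Av_act g F, fun h => AV_fix F h, ?_⟩
  rintro ⟨h1, h2⟩
  refine ⟨fun g => AV_act_Av g F, fun w hw => ?_, fun w m hm => ?_⟩
  · rw [AV_apply]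
    have h3 : ∀ g ∈ (univ : Finset (Equiv.Perm L)), sg g • rename g (F (w ∘ g)) =
        (0 : MvPolynomial L ℚ) := by
      intro g _
      rw [h1 (w ∘ g) (by rw [AV_chg]; exact hw), map_zero, smul_zero]
    rw [Finset.sum_congr rfl h3, Finset.sum_const_zero, smul_zero]
  · rw [AV_apply] at hm
    have hm1 := MvPolynomial.support_smul hm
    have hm2 := MvPolynomial.support_sum hm1
    rw [Finset.mem_biUnion] at hm2
    obtain ⟨g, _, hg⟩ := hm2
    have hg1 := MvPolynomial.support_smul hg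
    rw [MvPolynomial.support_rename_of_injective g.injective, Finset.mem_image] at hg1
    obtain ⟨m', hm', rfl⟩ := hg1
    have h4 := h2 (w ∘ g) m' hm'
    rw [Finsupp.degree_mapDomain]
    rw [← h4]
    congr 1
    exact (Equiv.sum_comp g (fun l => cwt b c (w l))).symm

end Pool.Agent.Work.MP_c41774_al.Full

end
end

section

namespace Pool.Agent.Work.MP_c41774_al.Full

theorem pr_BAS : C_BAS := by
  intro E _ _ U W hU
  have : FiniteDimensional ℚ (U ⧸ W.submoduleOf U) := inferInstance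
  let b : Module.Basis (Fin (dimQ U W)) ℚ (U ⧸ W.submoduleOf U) := Module.finBasis ℚ _
  choose v hv using fun i => Submodule.mkQ_surjective (W.submoduleOf U) (b i)
  refine ⟨fun i => (v i : E), fun i => (v i).2, ?_, ?_⟩
  · intro a ha
    have h1 : (W.submoduleOf U).mkQ (∑ i, a i • v i) = 0 := by
      rw [Submodule.mkQ_apply, Submodule.Quotient.mk_eq_zero]
      simpa [Submodule.submoduleOf] using ha
    rw [map_sum] at h1
    have h2 : ∑ i, a i • b i = 0 := by
      rw [← h1]
      refine Finset.sum_congr rfl fun i _ => ?_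
      rw [map_smul, hv]
    exact funext fun i => (Fintype.linearIndependent_iff.mp b.linearIndependent) a h2 i
  · intro u hu
    refine ⟨fun i => b.repr ((W.submoduleOf U).mkQ ⟨u, hu⟩) i, ?_⟩
    have h1 : (W.submoduleOf U).mkQ (⟨u, hu⟩ - ∑ i, b.repr ((W.submoduleOf U).mkQ ⟨u, hu⟩) i • v i) = 0 := by
      rw [map_sub, map_sum, sub_eq_zero]
      conv_lhs => rw [← b.sum_repr ((W.submoduleOf U).mkQ ⟨u, hu⟩)]
      refine Finset.sum_congr rfl fun i _ => ?_
      rw [map_smul, hv]
    rw [Submodule.mkQ_apply, Submodule.Quotient.mk_eq_zero] at h1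
    simpa [Submodule.submoduleOf] using h1

end Pool.Agent.Work.MP_c41774_al.Full

end

section

/-!
# CARD: dimension from an adapted family
-/

noncomputable section

namespace Pool.Agent.Work.MP_c41774_al.Full

open Finset

theorem pr_CARD : C_CARD := by
  intro E _ _ U W ι _ v hv hli hsp
  classical
  let w : ι → (U ⧸ W.submoduleOf U) := fun i => Submodule.Quotient.mk (⟨v i, hv i⟩ : U)
  have hsum : ∀ a : ι → ℚ, (∑ i, a i • w i) =
      Submodule.Quotient.mk (⟨∑ i, a i • v i, U.sum_mem fun i _ => U.smul_mem _ (hv i)⟩ : U) := by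
    intro a
    have : (⟨∑ i, a i • v i, U.sum_mem fun i _ => U.smul_mem _ (hv i)⟩ : U) =
        ∑ i, a i • (⟨v i, hv i⟩ : U) := by
      apply Subtype.ext
      simp
    rw [this]
    change _ = (W.submoduleOf U).mkQ _
    rw [map_sum]
    simp only [map_smul]
    rfl
  have hw : LinearIndependent ℚ w := by
    rw [Fintype.linearIndependent_iff]
    intro a ha i
    rw [hsum, Submodule.Quotient.mk_eq_zero] at ha
    have ha' : ∑ i, a i • v i ∈ W := by
      simpa [Submodule.submoduleOf] using ha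
    have := hli a ha'
    rw [this]
    rfl
  have hs : ⊤ ≤ Submodule.span ℚ (Set.range w) := by
    rintro x -
    obtain ⟨⟨u, hu⟩, rfl⟩ := Submodule.Quotient.mk_surjective _ x
    obtain ⟨a, ha⟩ := hsp u hu
    have : (Submodule.Quotient.mk (⟨u, hu⟩ : U) : U ⧸ W.submoduleOf U) = ∑ i, a i • w i := by
      rw [hsum, Submodule.Quotient.eq]
      simpa [Submodule.submoduleOf] using ha
    rw [this]
    exact Submodule.sum_mem _ fun i _ => Submodule.smul_mem _ _ (Submodule.subset_span ⟨i, rfl⟩)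
  have b := Module.Basis.mk hw hs
  unfold dimQ
  exact Module.finrank_eq_card_basis b

end Pool.Agent.Work.MP_c41774_al.Full

end
end

section

/-!
# Item C DIM: dimension formula for nested subspaces
-/

noncomputable section

namespace Pool.Agent.Work.MP_c41774_al.Full

open Finset MvPolynomial

theorem DIM_aux {E : Type*} [AddCommGroup E] [Module ℚ E] (U W : Submodule ℚ E)
    [FiniteDimensional ℚ U] (h : W ≤ U) : dimQ U W + Module.finrank ℚ W = Module.finrank ℚ U := by
  rw [dimQ, ← (Submodule.submoduleOfEquivOfLe h).finrank_eq]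
  exact Submodule.finrank_quotient_add_finrank _

theorem pr_DIM : C_DIM := by
  intro E _ _ U V W hU hWV hVU
  have hV : FiniteDimensional ℚ V := Submodule.finiteDimensional_of_le hVU
  have h1 := DIM_aux U W (hWV.trans hVU)
  have h2 := DIM_aux U V hVU
  have h3 := DIM_aux V W hWV
  omega

end Pool.Agent.Work.MP_c41774_al.Full

end
end

section

/-!
# Block C, item DVD: multiples of cuts
-/

noncomputable section

namespace Pool.Agent.Work.MP_c41774_al.Full

open Finset MvPolynomial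

theorem pr_DVD : C_DVD := by
  intro L _ _ E E'
  refine ⟨fun h => ?_, fun h => ?_⟩
  · exact Finset.prod_dvd_prod_of_subset E E' _ h
  · exact Finset.prod_union h

end Pool.Agent.Work.MP_c41774_al.Full

end
end

section

set_option autoImplicit false

noncomputable section

namespace Pool.Agent.Work.MP_c41774_al.Full

open Finset MvPolynomial
open Pool.Agent.Work.MP_c41774_al.Wall

theorem pr_FD : C_FD := by
  classical
  intro b c hb hc L _ _ κ j
  have hmem : ∀ F ∈ VV b c L κ j, ∀ w, F w ∈ restrictTotalDegree L ℚ j := by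
    rintro F ⟨_, _, h3⟩ w
    rw [mem_restrictTotalDegree]
    unfold MvPolynomial.totalDegree
    refine Finset.sup_le fun m hm => ?_
    have h := h3 w m hm
    have hdeg : (m.sum fun _ e => e) = m.degree := rfl
    rw [hdeg]
    have hbc : 1 ≤ 2 * b * c := Nat.one_le_iff_ne_zero.mpr (by positivity)
    calc m.degree = 1 * m.degree := (one_mul _).symm
      _ ≤ 2 * b * c * m.degree := Nat.mul_le_mul_right _ hbc
      _ ≤ j := by omega
  let φ : VV b c L κ j →ₗ[ℚ] ((L → Col b c) → restrictTotalDegree L ℚ j) :=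
    { toFun := fun F w => ⟨F.1 w, hmem F.1 F.2 w⟩
      map_add' := fun F G => rfl
      map_smul' := fun r F => rfl }
  refine FiniteDimensional.of_injective φ ?_
  intro F G h
  apply Subtype.ext
  funext w
  have := congrFun h w
  exact congrArg Subtype.val this

end Pool.Agent.Work.MP_c41774_al.Full

end
end

section

noncomputable section

namespace Pool.Agent.Work.MP_c41774_al.Full

open Finset MvPolynomial
open Pool.Agent.Work.MP_c41774_al.Wall

theorem HOM_pr {L : Type} [Fintype L] [DecidableEq L] (E : Finset (L × L)) :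
    (pr E : MvPolynomial L ℚ).IsHomogeneous (#E) := by
  unfold pr
  have h := MvPolynomial.IsHomogeneous.prod E (fun e => (X e.2 - X e.1 : MvPolynomial L ℚ))
    (fun _ => 1) (fun e _ => (isHomogeneous_X ℚ e.2).sub (isHomogeneous_X ℚ e.1))
  simpa using h

attribute [local instance] MvPolynomial.gradedAlgebra in
theorem HOM_span {L : Type} [Fintype L] [DecidableEq L] (S : Set (MvPolynomial L ℚ))
    (hS : ∀ f ∈ S, ∃ n, f.IsHomogeneous n) (f : MvPolynomial L ℚ) (n : ℕ)
    (hf : f ∈ Ideal.span S) : homogeneousComponent n f ∈ Ideal.span S := by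
  have h := Ideal.homogeneous_span (homogeneousSubmodule L ℚ) S (fun x hx => by
    obtain ⟨k, hk⟩ := hS x hx
    exact ⟨k, by simpa [mem_homogeneousSubmodule] using hk⟩)
  exact homogeneousComponent_mem_of_mem h hf n

theorem pr_HOM : C_HOM := by
  intro L _ _ D _ κ₀ τ β f n
  constructor
  · intro hf
    refine HOM_span _ ?_ f n hf
    rintro g ⟨T, hT, rfl⟩
    exact ⟨_, HOM_pr _⟩
  · intro hf
    refine HOM_span _ ?_ f n hf
    rintro g ⟨T, hT, hT', rfl⟩
    exact ⟨_, HOM_pr _⟩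

end Pool.Agent.Work.MP_c41774_al.Full

end
end

section

noncomputable section

namespace Pool.Agent.Work.MP_c41774_al.Full

open Finset MvPolynomial
open Pool.Agent.Work.MP_c41774_al.Wall

theorem pr_REF : C_REF := by
  intro L _ _ D D' _ _ κ₀ τ β β' φ hβ
  unfold Ip
  rw [Ideal.span_le]
  rintro f ⟨T, hT, rfl⟩
  have hsub : cut τ β' T ⊆ cut τ β T := by
    intro e he
    unfold cut at he ⊢
    rw [Finset.mem_filter] at he ⊢
    obtain ⟨h0, h1, h2, h3, h4, h5⟩ := he
    exact ⟨h0, h1, h2, h3, h4, by rw [hβ, hβ, h5]⟩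
  have hdvd : (pr (cut τ β' T) : MvPolynomial L ℚ) ∣ pr (cut τ β T) :=
    Finset.prod_dvd_prod_of_subset _ _ _ hsub
  obtain ⟨g, hg⟩ := hdvd
  rw [SetLike.mem_coe, hg]
  exact Ideal.mul_mem_right _ _ (Ideal.subset_span ⟨T, hT, rfl⟩)

end Pool.Agent.Work.MP_c41774_al.Full

end
end

section

/-!
# Item REL
-/

noncomputable section

namespace Pool.Agent.Work.MP_c41774_al.Full

open Finset MvPolynomial
open Pool.Agent.Work.MP_c41774_al.Wall

lemma REL_nx {L L' : Type} [Fintype L] [DecidableEq L] [Fintype L'] [DecidableEq L']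
    (e : L ≃ L') (τ : L' → Bool) (T : Finset L) :
    nx (τ ∘ e) T = nx τ (T.map e.toEmbedding) := by
  unfold nx
  rw [Finset.filter_map, Finset.card_map]
  rfl

lemma REL_ny {L L' : Type} [Fintype L] [DecidableEq L] [Fintype L'] [DecidableEq L']
    (e : L ≃ L') (τ : L' → Bool) (T : Finset L) :
    ny (τ ∘ e) T = ny τ (T.map e.toEmbedding) := by
  unfold ny
  rw [Finset.filter_map, Finset.card_map]
  rfl

lemma REL_th {L L' : Type} [Fintype L] [DecidableEq L] [Fintype L'] [DecidableEq L']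
    (e : L ≃ L') (κ₀ : ℕ × ℕ) (τ : L' → Bool) (T : Finset L) :
    th κ₀ (τ ∘ e) T = th κ₀ τ (T.map e.toEmbedding) := by
  unfold th
  rw [REL_nx, REL_ny]

lemma REL_pr {L L' : Type} [Fintype L] [DecidableEq L] [Fintype L'] [DecidableEq L']
    (e : L ≃ L') (E : Finset (L × L)) :
    rename e (pr E : MvPolynomial L ℚ) = pr (E.map (Equiv.prodCongr e e).toEmbedding) := by
  unfold pr
  rw [map_prod, Finset.prod_map]
  refine Finset.prod_congr rfl fun p _ => ?_
  rw [map_sub, rename_X, rename_X]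
  rfl

lemma REL_cut {L L' : Type} [Fintype L] [DecidableEq L] [Fintype L'] [DecidableEq L']
    (e : L ≃ L') (τ : L' → Bool) (T : Finset L) :
    (cut (τ ∘ e) tv T).map (Equiv.prodCongr e e).toEmbedding =
      cut τ tv (T.map e.toEmbedding) := by
  ext ⟨a, b⟩
  rw [Finset.mem_map_equiv]
  simp only [cut, Finset.mem_filter, Finset.mem_univ, true_and, Finset.mem_map_equiv,
    Equiv.prodCongr_symm, Equiv.prodCongr_apply, Prod.map_apply, Function.comp_apply,
    Equiv.apply_symm_apply, tv]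

lemma REL_I0 {L L' : Type} [Fintype L] [DecidableEq L] [Fintype L'] [DecidableEq L']
    (e : L ≃ L') (κ₀ : ℕ × ℕ) (τ : L' → Bool) (f : MvPolynomial L ℚ)
    (hf : f ∈ I0 κ₀ (τ ∘ e)) : rename e f ∈ I0 κ₀ τ := by
  have hle : I0 κ₀ (τ ∘ e) ≤ (I0 κ₀ τ).comap (rename e : MvPolynomial L ℚ →ₐ[ℚ] _) := by
    unfold I0
    rw [Ideal.span_le]
    rintro _ ⟨T, hT1, hT2, rfl⟩
    change rename e (pr (cut (τ ∘ e) tv T)) ∈ Ideal.span {f : MvPolynomial L' ℚ |
      ∃ T : Finset L', T.Nonempty ∧ 0 ≤ th κ₀ τ T ∧ f = pr (cut τ tv T)}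
    refine Ideal.subset_span ⟨T.map e.toEmbedding, ?_, ?_, ?_⟩
    · exact hT1.map
    · rw [← REL_th]
      exact hT2
    · rw [REL_pr, REL_cut]
  exact hle hf

lemma REL_I0' {L L' : Type} [Fintype L] [DecidableEq L] [Fintype L'] [DecidableEq L']
    (e : L ≃ L') (κ₀ : ℕ × ℕ) (τ : L' → Bool) (f : MvPolynomial L ℚ) :
    rename e f ∈ I0 κ₀ τ ↔ f ∈ I0 κ₀ (τ ∘ e) := by
  refine ⟨fun h => ?_, REL_I0 e κ₀ τ f⟩
  have h1 : τ = (τ ∘ e) ∘ e.symm := by
    funext l
    simp
  rw [h1] at h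
  have h2 := REL_I0 e.symm κ₀ (τ ∘ e) (rename e f) h
  rw [rename_rename, Equiv.symm_comp_self, rename_id_apply] at h2
  exact h2

lemma REL_Sh {L L' : Type} [Fintype L] [DecidableEq L] [Fintype L'] [DecidableEq L']
    (e : L ≃ L') {d : ℕ} (β' : L' → Fin d) (f : MvPolynomial L ℚ) :
    Sh β' (rename e f) = MvPolynomial.map ((rename e : MvPolynomial L ℚ →ₐ[ℚ] _) :
      MvPolynomial L ℚ →+* MvPolynomial L' ℚ) (Sh (β' ∘ e) f) := by
  have h : (Sh β').comp (rename e : MvPolynomial L ℚ →ₐ[ℚ] MvPolynomial L' ℚ) =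
      (MvPolynomial.mapAlgHom (rename e : MvPolynomial L ℚ →ₐ[ℚ] MvPolynomial L' ℚ)).comp
        (Sh (β' ∘ e)) := by
    apply MvPolynomial.algHom_ext
    intro l
    simp [Sh]
  exact congrArg (fun a => a f) h

lemma REL_dege {L L' : Type} [Fintype L] [DecidableEq L] [Fintype L'] [DecidableEq L']
    (e : L ≃ L') (τ : L' → Bool) {d : ℕ} (β' : L' → Fin d) :
    dege (τ ∘ e) (β' ∘ e) = dege τ β' := by
  unfold dege
  rw [← Finset.card_map (Equiv.prodCongr e e).toEmbedding]
  congr 1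
  ext ⟨a, b⟩
  rw [Finset.mem_map_equiv]
  simp only [crs, Finset.mem_filter, Finset.mem_univ, true_and,
    Equiv.prodCongr_symm, Equiv.prodCongr_apply, Prod.map_apply, Function.comp_apply,
    Equiv.apply_symm_apply]

lemma REL_fib {L L' : Type} [Fintype L] [DecidableEq L] [Fintype L'] [DecidableEq L']
    (e : L ≃ L') {d : ℕ} (β' : L' → Fin d) (i : Fin d) :
    (univ.filter fun l => (β' ∘ e) l = i).map e.toEmbedding = univ.filter fun l => β' l = i := by
  ext l
  rw [Finset.mem_map_equiv]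
  simp

lemma REL_Good {L L' : Type} [Fintype L] [DecidableEq L] [Fintype L'] [DecidableEq L']
    (e : L ≃ L') (κ₀ : ℕ × ℕ) (τ : L' → Bool) {d : ℕ} (β' : L' → Fin d)
    (h : Good κ₀ τ β') : Good κ₀ (τ ∘ e) (β' ∘ e) := by
  intro i
  obtain ⟨h1, h2⟩ := h i
  rw [← REL_fib e β' i] at h1 h2
  refine ⟨Finset.map_nonempty.1 h1, ?_⟩
  rw [REL_th]
  exact h2

lemma REL_Pf (hI : C_RELI) {L L' : Type} [Fintype L] [DecidableEq L] [Fintype L']
    [DecidableEq L'] (e : L ≃ L') (κ₀ : ℕ × ℕ) (n : ℤ) (τ : L' → Bool) (f : MvPolynomial L ℚ)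
    (hf : f ∈ Pf κ₀ n (τ ∘ e)) : rename e f ∈ Pf κ₀ n τ := by
  intro d β' hβ' α hα
  have h1 := hf d (β' ∘ e) (REL_Good e κ₀ τ β' hβ') α (by rw [REL_dege]; exact hα)
  rw [REL_Sh, coeff_map]
  exact (hI L L' (Fin d) (Fin d) e id κ₀ τ (β' ∘ e) β' Function.injective_id
    (fun l => rfl) _).2 h1

lemma REL_Pf' (hI : C_RELI) {L L' : Type} [Fintype L] [DecidableEq L] [Fintype L']
    [DecidableEq L'] (e : L ≃ L') (κ₀ : ℕ × ℕ) (n : ℤ) (τ : L' → Bool) (f : MvPolynomial L ℚ) :
    rename e f ∈ Pf κ₀ n τ ↔ f ∈ Pf κ₀ n (τ ∘ e) := by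
  refine ⟨fun h => ?_, REL_Pf hI e κ₀ n τ f⟩
  have h1 : τ = (τ ∘ e) ∘ e.symm := by
    funext l
    simp
  rw [h1] at h
  have h2 := REL_Pf hI e.symm κ₀ n (τ ∘ e) (rename e f) h
  rw [rename_rename, Equiv.symm_comp_self, rename_id_apply] at h2
  exact h2

lemma REL_rel_rel {b c : ℕ} {L L' : Type} (e : L ≃ L') (F : Fm b c L) :
    rel e.symm (rel e F) = F := by
  funext w
  unfold rel
  rw [rename_rename, Equiv.symm_comp_self, rename_id_apply]
  congr 1
  funext l
  simp

lemma REL_VV {b c : ℕ} {L L' : Type} [Fintype L] [DecidableEq L] [Fintype L']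
    [DecidableEq L'] (e : L ≃ L') (κ : ℕ × ℕ) (j : ℕ) (F : Fm b c L)
    (hF : F ∈ VV b c L κ j) : rel e F ∈ VV b c L' κ j := by
  obtain ⟨h1, h2, h3⟩ := hF
  refine ⟨?_, ?_, ?_⟩
  · intro g
    have hg := h1 ((e.trans g).trans e.symm)
    have hs : sg ((e.trans g).trans e.symm) = sg g := by
      unfold sg
      rw [Equiv.Perm.sign_trans_trans_symm]
    rw [hs] at hg
    funext w
    have hgw := congrFun hg (w ∘ e)
    unfold act at hgw
    change rename g (rename e (F ((w ∘ g) ∘ e))) = sg g • rename e (F (w ∘ e))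
    have e1 := congrArg (rename e) hgw
    rw [Pi.smul_apply, map_smul, rename_rename] at e1
    rw [rename_rename, ← e1]
    have e2 : (e : L → L') ∘ ((e.trans g).trans e.symm : Equiv.Perm L) = g ∘ e := by
      funext l
      simp
    have e3 : (w ∘ e) ∘ ((e.trans g).trans e.symm : Equiv.Perm L) = (w ∘ g) ∘ e := by
      funext l
      simp
    rw [e2, e3]
  · intro w hw
    have hc : chg (w ∘ e) = chg w := by
      unfold chg
      have e1 : tw (w ∘ e) = tw w ∘ e := rfl
      rw [e1, REL_nx, REL_ny, Finset.map_univ_equiv]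
    change rename e (F (w ∘ e)) = 0
    rw [h2 (w ∘ e) (by rw [hc]; exact hw), map_zero]
  · intro w m hm
    change m ∈ (rename e (F (w ∘ e))).support at hm
    classical
    rw [support_rename_of_injective e.injective, Finset.mem_image] at hm
    obtain ⟨m0, hm0, rfl⟩ := hm
    have e1 := h3 (w ∘ e) m0 hm0
    have e2 : (Finsupp.mapDomain e m0).degree = m0.degree := by
      simp [Finsupp.degree_eq_sum, Finsupp.mapDomain_equiv_apply]
      exact Equiv.sum_comp e.symm (fun l => m0 l)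
    have e3 : ∑ l, cwt b c (w l) = ∑ l, cwt b c ((w ∘ e) l) :=
      (Equiv.sum_comp e (fun l => cwt b c (w l))).symm
    rw [e2, e3]
    exact e1

lemma REL_map {E E' : Type} [AddCommGroup E] [Module ℚ E] [AddCommGroup E'] [Module ℚ E']
    (φ : E ≃ₗ[ℚ] E') (U : Submodule ℚ E) (U' : Submodule ℚ E') (h1 : ∀ F ∈ U, φ F ∈ U')
    (h2 : ∀ F ∈ U', φ.symm F ∈ U) : U.map φ.toLinearMap = U' := by
  ext G
  constructor
  · rintro ⟨F, hF, rfl⟩
    exact h1 F hF
  · intro hG
    exact ⟨φ.symm G, h2 G hG, by simp⟩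

/-- the linear equivalence -/
def REL_equiv {b c : ℕ} {L L' : Type} (e : L ≃ L') : Fm b c L ≃ₗ[ℚ] Fm b c L' where
  toFun := rel e
  invFun := rel e.symm
  map_add' := by
    intro F G
    funext w
    simp only [rel, Pi.add_apply, map_add]
  map_smul' := by
    intro r F
    funext w
    simp only [rel, Pi.smul_apply, map_smul, RingHom.id_apply]
  left_inv := fun F => REL_rel_rel e F
  right_inv := fun F => REL_rel_rel e.symm F

theorem pr_REL (hI : C_RELI) : C_REL := by
  intro b c L L' _ _ _ _ e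
  refine ⟨REL_equiv e, fun F => rfl, fun F => rfl, ?_, ?_, ?_, ?_⟩
  · intro κ j
    exact REL_map _ _ _ (REL_VV e κ j) (REL_VV e.symm κ j)
  · intro κ₀
    have key : ∀ (M M' : Type) [Fintype M] [DecidableEq M] [Fintype M'] [DecidableEq M']
        (g : M ≃ M') (F : Fm b c M), F ∈ (vin (IpS M κ₀) : Submodule ℚ (Fm b c M)) →
          rel g F ∈ (vin (IpS M' κ₀) : Submodule ℚ (Fm b c M')) := by
      intro M M' _ _ _ _ g F hF w
      exact (hI M M' Unit Unit g id κ₀ (tw w) tv tv Function.injective_id (fun l => rfl) _).2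
        (hF (w ∘ g))
    exact REL_map _ _ _ (key L L' e) (key L' L e.symm)
  · intro κ₀
    have key : ∀ (M M' : Type) [Fintype M] [DecidableEq M] [Fintype M'] [DecidableEq M']
        (g : M ≃ M') (F : Fm b c M), F ∈ (vin (I0S M κ₀) : Submodule ℚ (Fm b c M)) →
          rel g F ∈ (vin (I0S M' κ₀) : Submodule ℚ (Fm b c M')) := by
      intro M M' _ _ _ _ g F hF w
      exact REL_I0 g κ₀ (tw w) _ (hF (w ∘ g))
    exact REL_map _ _ _ (key L L' e) (key L' L e.symm)
  · intro κ₀ n
    have key : ∀ (M M' : Type) [Fintype M] [DecidableEq M] [Fintype M'] [DecidableEq M']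
        (g : M ≃ M') (F : Fm b c M), F ∈ (vin (Pf κ₀ n) : Submodule ℚ (Fm b c M)) →
          rel g F ∈ (vin (Pf κ₀ n) : Submodule ℚ (Fm b c M')) := by
      intro M M' _ _ _ _ g F hF w
      exact REL_Pf hI g κ₀ n (tw w) _ (hF (w ∘ g))
    exact REL_map _ _ _ (key L L' e) (key L' L e.symm)

end Pool.Agent.Work.MP_c41774_al.Full

end
end

section

/-!
# C_RELI: relabelling of the ideals `I⁺_β`
-/

noncomputable section

namespace Pool.Agent.Work.MP_c41774_al.Full

open Finset MvPolynomial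
open Pool.Agent.Work.MP_c41774_al.Wall

theorem RELI_pr {L L' : Type} [Fintype L] [DecidableEq L] [Fintype L'] [DecidableEq L']
    (e : L ≃ L') (E : Finset (L × L)) :
    rename e (pr E) = pr (E.map (e.prodCongr e).toEmbedding) := by
  unfold pr
  rw [map_prod, Finset.prod_map]
  refine Finset.prod_congr rfl (fun x _ => ?_)
  rw [map_sub, rename_X, rename_X]
  rfl

theorem RELI_cut {L L' : Type} [Fintype L] [DecidableEq L] [Fintype L'] [DecidableEq L']
    {D D' : Type} [DecidableEq D] [DecidableEq D'] (e : L ≃ L') (τ : L' → Bool) (β : L → D)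
    (β' : L' → D') (h : ∀ k l, β k = β l ↔ β' (e k) = β' (e l)) (T : Finset L) :
    cut τ β' (T.map e.toEmbedding) = (cut (τ ∘ e) β T).map (e.prodCongr e).toEmbedding := by
  ext ⟨k', l'⟩
  obtain ⟨k, rfl⟩ := e.surjective k'
  obtain ⟨l, rfl⟩ := e.surjective l'
  have h1 : (e k, e l) = (e.prodCongr e).toEmbedding (k, l) := rfl
  have h2 : ((e k, e l) ∈ (cut (τ ∘ e) β T).map (e.prodCongr e).toEmbedding) ↔
      (k, l) ∈ cut (τ ∘ e) β T := by
    rw [h1, Finset.mem_map']
  have h3 : ∀ x : L, e x ∈ T.map e.toEmbedding ↔ x ∈ T := by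
    intro x
    have : e x = e.toEmbedding x := rfl
    rw [this, Finset.mem_map']
  rw [h2]
  unfold cut
  rw [Finset.mem_filter, Finset.mem_filter]
  simp only [Finset.mem_univ, true_and, h3, Function.comp, h k l]

theorem RELI_nx {L L' : Type} [Fintype L] [DecidableEq L] [Fintype L'] [DecidableEq L']
    (e : L ≃ L') (τ : L' → Bool) (T : Finset L) :
    nx τ (T.map e.toEmbedding) = nx (τ ∘ e) T := by
  unfold nx
  rw [Finset.filter_map, Finset.card_map]
  rfl

theorem RELI_ny {L L' : Type} [Fintype L] [DecidableEq L] [Fintype L'] [DecidableEq L']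
    (e : L ≃ L') (τ : L' → Bool) (T : Finset L) :
    ny τ (T.map e.toEmbedding) = ny (τ ∘ e) T := by
  unfold ny
  rw [Finset.filter_map, Finset.card_map]
  rfl

theorem RELI_th {L L' : Type} [Fintype L] [DecidableEq L] [Fintype L'] [DecidableEq L']
    (e : L ≃ L') (κ₀ : ℕ × ℕ) (τ : L' → Bool) (T : Finset L) :
    th κ₀ τ (T.map e.toEmbedding) = th κ₀ (τ ∘ e) T := by
  unfold th
  rw [RELI_nx, RELI_ny]

theorem RELI_le {L L' : Type} [Fintype L] [DecidableEq L] [Fintype L'] [DecidableEq L']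
    {D D' : Type} [DecidableEq D] [DecidableEq D'] (e : L ≃ L') (κ₀ : ℕ × ℕ) (τ : L' → Bool)
    (β : L → D) (β' : L' → D') (h : ∀ k l, β k = β l ↔ β' (e k) = β' (e l))
    (f : MvPolynomial L ℚ) (hf : f ∈ Ip κ₀ (τ ∘ e) β) : rename e f ∈ Ip κ₀ τ β' := by
  have h1 : Ip κ₀ (τ ∘ e) β ≤ (Ip κ₀ τ β').comap (rename e : MvPolynomial L ℚ →ₐ[ℚ] _) := by
    unfold Ip
    rw [Ideal.span_le]
    rintro g ⟨T, hT, rfl⟩
    show rename e (pr (cut (τ ∘ e) β T)) ∈ Ideal.span {f | ∃ T : Finset L', 0 < th κ₀ τ T ∧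
      f = pr (cut τ β' T)}
    rw [RELI_pr, ← RELI_cut e τ β β' h T]
    exact Ideal.subset_span ⟨T.map e.toEmbedding, by rw [RELI_th]; exact hT, rfl⟩
  exact h1 hf

theorem pr_RELI : C_RELI := by
  intro L L' _ _ _ _ D D' _ _ e φ κ₀ τ β β' hφ hβ f
  have h : ∀ k l, β k = β l ↔ β' (e k) = β' (e l) := by
    intro k l
    rw [hβ, hβ]
    exact ⟨fun hkl => by rw [hkl], fun hkl => hφ hkl⟩
  constructor
  · intro hf
    have h' : ∀ k l, β' k = β' l ↔ β (e.symm k) = β (e.symm l) := by
      intro k l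
      rw [h, e.apply_symm_apply, e.apply_symm_apply]
    have hτ : (τ ∘ e) ∘ e.symm = τ := by
      funext x
      simp
    have h1 := RELI_le e.symm κ₀ (τ ∘ e) β' β h' (rename e f) (by rw [hτ]; exact hf)
    have h2 : rename e.symm (rename e f) = f := by
      rw [rename_rename]
      have : (e.symm : L' → L) ∘ e = id := by funext x; simp
      rw [this, rename_id_apply]
    rw [h2] at h1
    exact h1
  · intro hf
    exact RELI_le e κ₀ τ β β' h f hf

end Pool.Agent.Work.MP_c41774_al.Full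

end
end

section

/-!
# Block translations preserve the ideals `I⁺`
-/

noncomputable section

namespace Pool.Agent.Work.MP_c41774_al.Full

open Finset MvPolynomial
open Pool.Agent.Work.MP_c41774_al.Wall

theorem shi_gen {L D D' : Type} [Fintype L] [DecidableEq L] [DecidableEq D] [DecidableEq D']
    (τ : L → Bool) (β : L → D) (γ : L → D') (φ : D → D') (h : ∀ l, γ l = φ (β l))
    (T : Finset L) : Sh γ (pr (cut τ β T)) = C (pr (cut τ β T)) := by
  unfold pr
  rw [map_prod, map_prod]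
  refine Finset.prod_congr rfl fun e he => ?_
  have hb : β e.1 = β e.2 := by
    simp only [cut, mem_filter, mem_univ, true_and] at he
    exact he.2.2.2.2
  have hg : γ e.1 = γ e.2 := by rw [h, h, hb]
  simp only [Sh, map_sub, aeval_X, hg]
  ring

theorem pr_SHI : C_SHI := by
  intro L _ _ D D' _ _ κ₀ τ β γ φ h f hf
  unfold Ip at hf
  refine Submodule.span_induction (p := fun f _ => ∀ α, (Sh γ f).coeff α ∈ Ip κ₀ τ β)
    ?_ ?_ ?_ ?_ hf
  · rintro x ⟨T, hT, rfl⟩ α
    rw [shi_gen τ β γ φ h T, coeff_C]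
    split_ifs
    · exact Ideal.subset_span ⟨T, hT, rfl⟩
    · exact Ideal.zero_mem _
  · intro α
    rw [map_zero, coeff_zero]
    exact Ideal.zero_mem _
  · intro x y _ _ hx hy α
    rw [map_add, coeff_add]
    exact Ideal.add_mem _ (hx α) (hy α)
  · intro a x _ hx α
    rw [smul_eq_mul, map_mul, coeff_mul]
    exact Ideal.sum_mem _ fun p _ => Ideal.mul_mem_left _ _ (hx _)

end Pool.Agent.Work.MP_c41774_al.Full

end
end

section

/-!
# The wall data from the outputs of the blocks H, P, T, G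
-/

noncomputable section

namespace Pool.Agent.Work.MP_c41774_al.Full

open Finset
open Pool.Agent.Work.MP_c41774_al.Wall

theorem mkWall_SN_w (n : ℤ) : SN (w n) := by
  intro m
  unfold w
  by_cases h : m = n
  · subst h; simp
  · rw [HahnSeries.coeff_single_of_ne h]

theorem mkWall_SN_one : SN 1 := by
  have := mkWall_SN_w 0
  intro m
  have h1 : (1 : S) = w 0 := rfl
  rw [h1]; exact this m

theorem mkWall_SN_zero : SN 0 := fun m => by simp

theorem mkWall_onePlusX (n : ℕ) : SN (PowerSeries.coeff n (1 + PowerSeries.X : PowerSeries S)) := by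
  rw [map_add, PowerSeries.coeff_one, PowerSeries.coeff_X]
  rcases n with _ | _ | n
  · simpa using mkWall_SN_one
  · simpa using mkWall_SN_one
  · simpa using mkWall_SN_zero

theorem mkWall (hX : H_CROSS) (hN : H_NEXT) (hL : H_LOZ) (hI : H_HIINF) (hC : H_CONST)
    (hEX : H_EX) (hEY : H_EY) (hP : P_PBW) (hT : T_POS) (hG : G_POS)
    (b c : ℕ) (hb : 0 < b) (hc : 0 < c) (hbc : b ∣ c ∨ c ∣ b) : Nonempty (WallData b c) := by
  refine ⟨{
    M := MB b c
    lo := loB b c
    hi := hiB b c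
    lo_zero := hL b c hb hc
    hi_inf := hI b c hb hc
    cross := hX b c hb hc
    next := hN b c hb hc
    const := hC b c hb hc
    ex := hEX b c hb hc
    ey := hEY b c hb hc
    pos := ?_ }⟩
  intro κ₀ hco
  obtain ⟨p, q⟩ := κ₀
  rcases Nat.eq_zero_or_pos p with hp | hp
  · subst hp
    have hq : q = 1 := by simpa using hco
    subst hq
    refine ⟨1 + PowerSeries.X, mkWall_onePlusX, ?_⟩
    simpa using hEY b c hb hc
  · rcases Nat.eq_zero_or_pos q with hq | hq
    · subst hq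
      have hp1 : p = 1 := by simpa using hco
      subst hp1
      refine ⟨1 + PowerSeries.X, mkWall_onePlusX, ?_⟩
      simpa using hEX b c hb hc
    · exact hG hP hT b c hb hc hbc (p, q) hco hp hq

end Pool.Agent.Work.MP_c41774_al.Full

end
end

section

/-!
# Block G, part 2: super-multisets
-/

noncomputable section

namespace Pool.Agent.Work.MP_c41774_al.Full

open Finset
open Pool.Agent.Work.MP_c41774_al.Wall

/-- super-multisets -/
def SM {X : Type*} (od : X → Prop) : Type _ := {m : X →₀ ℕ // ∀ x, od x → m x ≤ 1}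

/-- size -/
def ssz {X : Type*} {od : X → Prop} (sz : X → ℕ) (m : SM od) : ℕ := m.1.sum fun x n => n * sz x

/-- degree -/
def sdg {X : Type*} {od : X → Prop} (dg : X → ℤ) (m : SM od) : ℤ :=
  m.1.sum fun x n => (n : ℤ) * dg x

lemma cnt_eq_smc {X : Type*} (sz : X → ℕ) (dg : X → ℤ) (od : X → Prop) (K : ℕ) (J : ℤ) :
    cnt (T := SM od) (ssz sz) (sdg dg) K J = smc sz dg od K J := by
  unfold cnt smc
  exact Nat.card_congr (Equiv.subtypeSubtypeEquivSubtypeInter (fun m : X →₀ ℕ => ∀ x, od x → m x ≤ 1)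
    fun m => (m.sum fun x n => n * sz x) = K ∧ (m.sum fun x n => (n : ℤ) * dg x) = J)

section

variable {X : Type*} {sz : X → ℕ} {dg : X → ℤ}

lemma LFin_SM (od : X → Prop) (hpos : ∀ x, 0 < sz x)
    (hfin : ∀ (K : ℕ) (J : ℤ), {x | sz x ≤ K ∧ dg x ≤ J}.Finite) :
    LFin (T := SM od) (ssz sz) (sdg dg) := by
  classical
  intro K J
  obtain ⟨B, hB0, hB⟩ : ∃ B : ℤ, B ≤ 0 ∧ ∀ x, sz x ≤ K → B ≤ dg x := by
    obtain ⟨B, hB⟩ := ((hfin K 0).image dg).bddBelow
    refine ⟨min B 0, min_le_right _ _, fun t ht => ?_⟩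
    rcases le_or_gt (dg t) 0 with h0 | h0
    · exact le_trans (min_le_left _ _) (hB ⟨t, ⟨ht, h0⟩, rfl⟩)
    · exact le_trans (min_le_right _ _) h0.le
  set F : Finset X := (hfin K (max 0 (J - B * K))).toFinset with hF
  set M : X →₀ ℕ := Finsupp.onFinset F (fun x => if x ∈ F then K else 0) (by
    intro x hx
    by_contra h
    exact hx (if_neg h)) with hM
  have hsub : {m : SM od | ssz sz m = K ∧ sdg dg m ≤ J} ⊆ Subtype.val ⁻¹' (Set.Icc 0 M) := by
    rintro ⟨m, hm⟩ ⟨h1, h2⟩
    simp only [ssz, sdg, Finsupp.sum] at h1 h2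
    have h3 : ∀ x ∈ m.support, m x * sz x ≤ K := fun x hx => by
      rw [← h1]
      exact Finset.single_le_sum (f := fun x => m x * sz x) (fun _ _ => Nat.zero_le _) hx
    have h4 : ∀ x ∈ m.support, m x ≤ K := fun x hx =>
      le_trans (Nat.le_mul_of_pos_right _ (hpos x)) (h3 x hx)
    have h5 : ∀ x ∈ m.support, sz x ≤ K := fun x hx =>
      le_trans (Nat.le_mul_of_pos_left _ (Nat.pos_of_ne_zero (Finsupp.mem_support_iff.mp hx)))
        (h3 x hx)
    have h6 : ∀ x ∈ m.support, dg x ≤ max 0 (J - B * K) := by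
      intro x hx
      have h7 : (m x : ℤ) * dg x + ∑ y ∈ m.support.erase x, (m y : ℤ) * dg y ≤ J := by
        rw [Finset.add_sum_erase _ (fun y => (m y : ℤ) * dg y) hx]
        exact h2
      have h8 : B * K ≤ ∑ y ∈ m.support.erase x, (m y : ℤ) * dg y := by
        have h9 : ∑ y ∈ m.support.erase x, m y ≤ K := by
          rw [← h1]
          calc ∑ y ∈ m.support.erase x, m y ≤ ∑ y ∈ m.support, m y :=
                Finset.sum_le_sum_of_subset (Finset.erase_subset _ _)
            _ ≤ _ := Finset.sum_le_sum fun y _ => Nat.le_mul_of_pos_right _ (hpos y)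
        have h10 : ∑ y ∈ m.support.erase x, (m y : ℤ) * B ≤
            ∑ y ∈ m.support.erase x, (m y : ℤ) * dg y :=
          Finset.sum_le_sum fun y hy => mul_le_mul_of_nonneg_left
            (hB y (h5 y (Finset.mem_of_mem_erase hy))) (by positivity)
        rw [← Finset.sum_mul] at h10
        have h11 : (∑ y ∈ m.support.erase x, (m y : ℤ)) ≤ K := by exact_mod_cast h9
        nlinarith
      by_contra hlt
      push Not at hlt
      have h12 : 0 < dg x := lt_of_le_of_lt (le_max_left _ _) hlt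
      have h13 : J - B * K < dg x := lt_of_le_of_lt (le_max_right _ _) hlt
      have h14 : (1 : ℤ) ≤ m x := by
        have := Nat.pos_of_ne_zero (Finsupp.mem_support_iff.mp hx)
        exact_mod_cast this
      nlinarith
    rw [Set.mem_preimage, Set.mem_Icc]
    refine ⟨zero_le, fun x => ?_⟩
    by_cases hx : x ∈ m.support
    · have hxF : x ∈ F := by
        rw [hF, Set.Finite.mem_toFinset]
        exact ⟨h5 x hx, h6 x hx⟩
      rw [hM, Finsupp.onFinset_apply, if_pos hxF]
      exact h4 x hx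
    · rw [Finsupp.notMem_support_iff.mp hx]
      exact Nat.zero_le _
  exact ((Set.finite_Icc (0 : X →₀ ℕ) M).preimage Subtype.val_injective.injOn).subset hsub

end

section

variable {X Y : Type*}

lemma sum_sumElim' {A : Type*} [AddCommMonoid A] (a : X →₀ ℕ) (b : Y →₀ ℕ) (f : X ⊕ Y → ℕ → A)
    (hf : ∀ z, f z 0 = 0) :
    (Finsupp.sumElim a b).sum f = (a.sum fun x n => f (Sum.inl x) n) +
      b.sum fun y n => f (Sum.inr y) n := by
  rw [Finsupp.sum_of_support_subset (Finsupp.sumElim a b) (s := a.support.disjSum b.support) _ f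
    (fun z _ => hf z)]
  · rw [Finset.sum_disjSum]
    rfl
  · intro z hz
    rw [Finsupp.mem_support_iff] at hz
    rcases z with x | y
    · rw [Finset.inl_mem_disjSum, Finsupp.mem_support_iff]
      exact hz
    · rw [Finset.inr_mem_disjSum, Finsupp.mem_support_iff]
      exact hz

/-- super-multisets in a disjoint union -/
def SMsum (od : X → Prop) (od' : Y → Prop) : SM od × SM od' ≃ SM (Sum.elim od od') where
  toFun p := ⟨Finsupp.sumElim p.1.1 p.2.1, by
    rintro (x | y) h
    · exact p.1.2 x h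
    · exact p.2.2 y h⟩
  invFun m := (⟨(Finsupp.sumFinsuppEquivProdFinsupp m.1).1, fun x h => m.2 (Sum.inl x) h⟩,
    ⟨(Finsupp.sumFinsuppEquivProdFinsupp m.1).2, fun y h => m.2 (Sum.inr y) h⟩)
  left_inv := by
    rintro ⟨⟨a, ha⟩, ⟨b, hb⟩⟩
    refine Prod.ext (Subtype.ext ?_) (Subtype.ext ?_)
    · ext x; rfl
    · ext x; rfl
  right_inv := by
    rintro ⟨m, hm⟩
    refine Subtype.ext ?_
    ext z
    rcases z with x | y <;> rfl

/-- transport of super-multisets -/
def SMcongr (e : X ≃ Y) {od : X → Prop} {od' : Y → Prop} (ho : ∀ x, od' (e x) ↔ od x) :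
    SM od ≃ SM od' where
  toFun m := ⟨Finsupp.equivMapDomain e m.1, fun y hy => by
    rw [Finsupp.equivMapDomain_apply]
    exact m.2 _ ((ho _).mp (by simpa using hy))⟩
  invFun m := ⟨Finsupp.equivMapDomain e.symm m.1, fun y hy => by
    rw [Finsupp.equivMapDomain_apply]
    exact m.2 _ (by simpa using (ho _).mpr hy)⟩
  left_inv := by
    rintro ⟨m, hm⟩
    refine Subtype.ext ?_
    ext z
    simp
  right_inv := by
    rintro ⟨m, hm⟩
    refine Subtype.ext ?_
    ext z
    simp

lemma ssz_SMcongr (e : X ≃ Y) {od : X → Prop} {od' : Y → Prop} (ho : ∀ x, od' (e x) ↔ od x)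
    {sz : X → ℕ} {sz' : Y → ℕ} (hs : ∀ x, sz' (e x) = sz x) (m : SM od) :
    ssz sz' (SMcongr e ho m) = ssz sz m := by
  unfold ssz SMcongr
  simp only [Equiv.coe_fn_mk]
  rw [Finsupp.sum_equivMapDomain]
  simp only [hs]

lemma sdg_SMcongr (e : X ≃ Y) {od : X → Prop} {od' : Y → Prop} (ho : ∀ x, od' (e x) ↔ od x)
    {dg : X → ℤ} {dg' : Y → ℤ} (hs : ∀ x, dg' (e x) = dg x) (m : SM od) :
    sdg dg' (SMcongr e ho m) = sdg dg m := by
  unfold sdg SMcongr
  simp only [Equiv.coe_fn_mk]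
  rw [Finsupp.sum_equivMapDomain]
  simp only [hs]

lemma ssz_SMsum {od : X → Prop} {od' : Y → Prop} (sz : X → ℕ) (sz' : Y → ℕ)
    (p : SM od × SM od') :
    ssz (Sum.elim sz sz') (SMsum od od' p) = ssz sz p.1 + ssz sz' p.2 := by
  unfold ssz SMsum
  simp only [Equiv.coe_fn_mk]
  rw [sum_sumElim']
  · rfl
  · intro z
    rw [zero_mul]

lemma sdg_SMsum {od : X → Prop} {od' : Y → Prop} (dg : X → ℤ) (dg' : Y → ℤ)
    (p : SM od × SM od') :
    sdg (Sum.elim dg dg') (SMsum od od' p) = sdg dg p.1 + sdg dg' p.2 := by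
  unfold sdg SMsum
  simp only [Equiv.coe_fn_mk]
  rw [sum_sumElim']
  · rfl
  · intro z
    rw [Nat.cast_zero, zero_mul]

lemma sdg_shift {od : X → Prop} (sz : X → ℕ) (dg : X → ℤ) (a : ℤ) (m : SM od) :
    sdg (fun x => dg x + a * sz x) m = sdg dg m + a * ssz sz m := by
  unfold sdg ssz Finsupp.sum
  rw [Nat.cast_sum, Finset.mul_sum, ← Finset.sum_add_distrib]
  refine Finset.sum_congr rfl fun x _ => ?_
  push_cast
  ring

/-- The main statement on super-multisets: if there is an injection `ι` of `X` in itself which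
raises the degree of `x` by `2 a (sz x)`, then the ratio of the shifted series is a generating
series. -/
theorem GS_ratio {sz : X → ℕ} {dg : X → ℤ} {od : X → Prop} (hpos : ∀ x, 0 < sz x)
    (hfin : ∀ (K : ℕ) (J : ℤ), {x | sz x ≤ K ∧ dg x ≤ J}.Finite) (a : ℤ)
    (ι : X → X) (hι : Function.Injective ι) (hsz : ∀ x, sz (ι x) = sz x)
    (hdg : ∀ x, dg (ι x) = dg x + 2 * a * sz x) (hod : ∀ x, od (ι x) ↔ od x) :
    ∃ f : PowerSeries S, (∀ n, SN (PowerSeries.coeff n f)) ∧
      PowerSeries.rescale (w (-a)) (GS (LFin_SM od hpos hfin)) =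
        f * PowerSeries.rescale (w a) (GS (LFin_SM od hpos hfin)) := by
  classical
  set h := LFin_SM od hpos hfin with hh
  have hdgF : ∀ K : ℕ, ∀ J : ℤ, {x | sz x ≤ K ∧ dg x + (-a) * sz x ≤ J}.Finite := by
    intro K J
    refine (hfin K (max (J + a * 0) (J + a * K))).subset fun x hx => ⟨hx.1, ?_⟩
    have h1 := hx.1
    have h2 : dg x + (-a) * sz x ≤ J := hx.2
    rcases le_or_gt 0 a with ha | ha
    · refine le_trans ?_ (le_max_right _ _)
      have : a * sz x ≤ a * K := mul_le_mul_of_nonneg_left (by exact_mod_cast h1) ha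
      linarith
    · refine le_trans ?_ (le_max_left _ _)
      have : a * sz x ≤ 0 := mul_nonpos_of_nonpos_of_nonneg ha.le (by positivity)
      linarith
  set Z : Type _ := {x // x ∉ Set.range ι} with hZ
  set szZ : Z → ℕ := fun z => sz z.1 with hszZ
  set dgZ : Z → ℤ := fun z => dg z.1 + (-a) * sz z.1 with hdgZ
  set odZ : Z → Prop := fun z => od z.1 with hodZ
  have hfinZ : ∀ (K : ℕ) (J : ℤ), {z : Z | szZ z ≤ K ∧ dgZ z ≤ J}.Finite := fun K J =>
    (hdgF K J).preimage Subtype.val_injective.injOn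
  have hZL : LFin (T := SM odZ) (ssz szZ) (sdg dgZ) := LFin_SM odZ (fun z => hpos z.1) hfinZ
  refine ⟨GS hZL, fun n => SN_GS hZL n, ?_⟩
  rw [← GS_shift, ← GS_shift, ← GS_prod]
  -- the equivalence `Z ⊕ X ≃ X`
  let e : Z ⊕ X ≃ X := (Equiv.sumComm _ _).trans (((Equiv.ofInjective ι hι).sumCongr
    (Equiv.refl _)).trans (Equiv.Set.sumCompl (Set.range ι)))
  have e1 : ∀ z : Z, e (Sum.inl z) = z.1 := fun z => rfl
  have e2 : ∀ x : X, e (Sum.inr x) = ι x := fun x => rfl
  have ho : ∀ y, od (e y) ↔ Sum.elim odZ od y := by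
    rintro (z | x)
    · rfl
    · rw [e2]
      exact hod x
  symm
  refine GS_congr ((SMsum odZ od).trans (SMcongr e ho)) ?_ ?_ _ _
  · intro p
    rw [Equiv.trans_apply, ssz_SMcongr (sz := Sum.elim szZ sz), ssz_SMsum]
    rintro (z | x)
    · rfl
    · rw [e2]
      exact hsz x
  · intro p
    beta_reduce
    rw [← sdg_shift, ← sdg_shift, Equiv.trans_apply,
      sdg_SMcongr (dg := Sum.elim dgZ fun x => dg x + a * sz x), sdg_SMsum]
    rintro (z | x)
    · rfl
    · rw [e2, hsz, hdg, Sum.elim_inr]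
      ring

end

end Pool.Agent.Work.MP_c41774_al.Full

end
end
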