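import Pool.Agent.Work.MP_c41774_al.Bd.B02
import Pool.Agent.Work.MP_c41774_al.T.Defs
import Pool.Agent.Work.MP_c41774_al.Full.BStmts

/-! Bundle of small proof modules (one section per former module). -/

section

/-!
# Block H: statements
-/

noncomputable section

namespace Pool.Agent.Work.MP_c41774_al.Full

open Finset MvPolynomial
open Pool.Agent.Work.MP_c41774_al.Wall

/-! ### the filtration -/

/-- ends, monotonicity, homogeneity -/
def HN_J : Prop := ∀ (L : Type) [Fintype L] [DecidableEq L] (κ₀ : ℕ × ℕ) (τ : L → Bool),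
  Jf κ₀ τ 0 = ⊤ ∧ (∀ n, Fintype.card L < n → Jf κ₀ τ n = Ip κ₀ τ tv) ∧
    (∀ n, Ip κ₀ τ tv ≤ Jf κ₀ τ n) ∧ (∀ n, Jf κ₀ τ (n + 1) ≤ Jf κ₀ τ n) ∧
    ∀ n i f, f ∈ Jf κ₀ τ n → homogeneousComponent i f ∈ Jf κ₀ τ n

/-- transport of cuts -/
def HN_TR : Prop := ∀ (L L' : Type) [Fintype L] [DecidableEq L] [Fintype L'] [DecidableEq L']
  (e : L ≃ L') (κ₀ : ℕ × ℕ) (τ : L' → Bool) (T : Finset L),
    rename e (pr (cut (τ ∘ e) tv T) : MvPolynomial L ℚ) = pr (cut τ tv (T.map e.toEmbedding)) ∧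
    th κ₀ (τ ∘ e) T = th κ₀ τ (T.map e.toEmbedding)

/-- relabelling, permutations and averages preserve the filtration -/
def HN_REL : Prop := ∀ (b c : ℕ) (L L' : Type) [Fintype L] [DecidableEq L] [Fintype L']
  [DecidableEq L'] (e : L ≃ L') (κ₀ : ℕ × ℕ) (n : ℕ) (F : Fm b c L),
    (F ∈ vin (JfS L κ₀ n) ↔ rel e F ∈ vin (JfS L' κ₀ n)) ∧
    (F ∈ vin (JfS L κ₀ n) → ∀ g : Equiv.Perm L, act g F ∈ vin (JfS L κ₀ n)) ∧
    (F ∈ vin (JfS L κ₀ n) → Av F ∈ vin (JfS L κ₀ n))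

/-- charges of words and `θ` -/
def HN_CHG : Prop := ∀ (b c : ℕ) (L₁ L₂ : Type) [Fintype L₁] [DecidableEq L₁] [Fintype L₂]
  [DecidableEq L₂] (κ₀ κ' : ℕ × ℕ) (w : L₁ ⊕ L₂ → Col b c),
    chg w = chg (w ∘ Sum.inl) + chg (w ∘ Sum.inr) ∧
    (chg (w ∘ Sum.inl)).1 + (chg (w ∘ Sum.inl)).2 = Fintype.card L₁ ∧
    #(T0 : Finset (L₁ ⊕ L₂)) = Fintype.card L₁ ∧
    th κ₀ (tw w) T0 =
      (κ₀.2 : ℤ) * (chg (w ∘ Sum.inl)).1 - (κ₀.1 : ℤ) * (chg (w ∘ Sum.inl)).2 ∧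
    #(cut (tw w) tv (T0 : Finset (L₁ ⊕ L₂))) =
      (chg (w ∘ Sum.inl)).1 * (chg (w ∘ Sum.inr)).2 ∧
    (κ₀ ≠ 0 → Th0 κ₀ κ' → κ'.1 + κ'.2 = Fintype.card L₁ →
      (th κ₀ (tw w) T0 = 0 ↔ chg (w ∘ Sum.inl) = κ'))

/-! ### divisibility of cuts -/

/-- `κ(T0) (I⁺(T0) + I⁰(T0ᶜ)) ⊆ J_{#T0 + 1}` -/
def HN_DIV1 : Prop := ∀ (L₁ L₂ : Type) [Fintype L₁] [DecidableEq L₁] [Fintype L₂]
  [DecidableEq L₂] (κ₀ : ℕ × ℕ) (τ : L₁ ⊕ L₂ → Bool), th κ₀ τ T0 = 0 → ∀ f ∈ KI κ₀ τ,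
    pr (cut τ tv T0) * f ∈ Jf κ₀ τ (Fintype.card L₁ + 1)

/-- cuts in `I⁺(T0) + I⁰(T0ᶜ)` -/
def HN_DIV2 : Prop := ∀ (L₁ L₂ : Type) [Fintype L₁] [DecidableEq L₁] [Fintype L₂]
  [DecidableEq L₂] (κ₀ : ℕ × ℕ) (τ : L₁ ⊕ L₂ → Bool), th κ₀ τ T0 = 0 →
    Jf κ₀ τ (Fintype.card L₁ + 1) ≤ KI κ₀ τ ∧
    ∀ T : Finset (L₁ ⊕ L₂), T ≠ T0 → th κ₀ τ T = 0 → Fintype.card L₁ ≤ #T →
      pr (cut τ tv T) ∈ KI κ₀ τ

/-- `κ(T0)` is a nonzerodivisor modulo `I⁺(T0) + I⁰(T0ᶜ)` -/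
def HN_NZD : Prop := ∀ (L₁ L₂ : Type) [Fintype L₁] [DecidableEq L₁] [Fintype L₂]
  [DecidableEq L₂] (κ₀ : ℕ × ℕ) (τ : L₁ ⊕ L₂ → Bool) (f : MvPolynomial (L₁ ⊕ L₂) ℚ),
    pr (cut τ tv T0) * f ∈ KI κ₀ τ → f ∈ KI κ₀ τ

/-! ### averages of products -/

/-- permutations of the two parts -/
def HN_ACT2 : Prop := ∀ (b c : ℕ) (L₁ L₂ : Type) [Fintype L₁] [DecidableEq L₁] [Fintype L₂]
  [DecidableEq L₂] (g₁ : Equiv.Perm L₁) (g₂ : Equiv.Perm L₂) (F : Fm b c L₁) (G : Fm b c L₂)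
  (H : Fm b c (L₁ ⊕ L₂)),
    act (Equiv.Perm.sumCongr g₁ g₂) (ph H) = ph (act (Equiv.Perm.sumCongr g₁ g₂) H) ∧
    act (Equiv.Perm.sumCongr g₁ g₂) (ox F G) = ox (act g₁ F) (act g₂ G) ∧
    sg (Equiv.Perm.sumCongr g₁ g₂) = sg g₁ * sg g₂

/-- averages of the factors -/
def HN_AV2 : Prop := ∀ (b c : ℕ) (L₁ L₂ : Type) [Fintype L₁] [DecidableEq L₁] [Fintype L₂]
  [DecidableEq L₂] (F : Fm b c L₁) (G : Fm b c L₂),
    Av (ph (ox F G)) = Av (ph (ox (Av F) (Av G)))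

/-- `Av(κ(T0) F ⊠ G)` modulo `I⁺(T0) + I⁰(T0ᶜ)` -/
def HN_AVG : Prop := ∀ (b c : ℕ) (L₁ L₂ : Type) [Fintype L₁] [DecidableEq L₁] [Fintype L₂]
  [DecidableEq L₂] (κ₀ κ' : ℕ × ℕ) (F : Fm b c L₁) (G : Fm b c L₂),
    (∀ g : Equiv.Perm L₁, act g F = sg g • F) → (∀ g : Equiv.Perm L₂, act g G = sg g • G) →
    (∀ w, chg w ≠ κ' → F w = 0) → Th0 κ₀ κ' →
    ∀ w : L₁ ⊕ L₂ → Col b c, chg (w ∘ Sum.inl) = κ' →
      (((Fintype.card (Equiv.Perm (L₁ ⊕ L₂)) : ℚ)) • Av (ph (ox F G)) w -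
        ((Fintype.card (Equiv.Perm L₁) : ℚ) * (Fintype.card (Equiv.Perm L₂) : ℚ)) •
          ph (ox F G) w) ∈ KI κ₀ (tw w)

/-- products of invariants give elements of the `n`-th step -/
def HN_MEM : Prop := ∀ (b c : ℕ) (L₁ L₂ : Type) [Fintype L₁] [DecidableEq L₁] [Fintype L₂]
  [DecidableEq L₂] (κ₀ κ' κ'' : ℕ × ℕ) (j₁ j₂ J : ℕ) (F : Fm b c L₁) (G : Fm b c L₂),
    Th0 κ₀ κ' → F ∈ VV b c L₁ κ' j₁ → G ∈ VV b c L₂ κ'' j₂ →
    j₁ + j₂ + 2 * b * c * (κ'.1 * κ''.2) = J →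
      Av (ph (ox F G)) ∈ VV b c (L₁ ⊕ L₂) (κ' + κ'') J ∧
        Av (ph (ox F G)) ∈ vin (JfS (L₁ ⊕ L₂) κ₀ (Fintype.card L₁))

/-- products with a factor in the ideal -/
def HN_KILL : Prop := ∀ (b c : ℕ) (L₁ L₂ : Type) [Fintype L₁] [DecidableEq L₁] [Fintype L₂]
  [DecidableEq L₂] (κ₀ κ' : ℕ × ℕ) (F : Fm b c L₁) (G : Fm b c L₂), Th0 κ₀ κ' →
    (∀ w, chg w ≠ κ' → F w = 0) → (F ∈ vin (IpS L₁ κ₀) ∨ G ∈ vin (I0S L₂ κ₀)) →
      Av (ph (ox F G)) ∈ vin (JfS (L₁ ⊕ L₂) κ₀ (Fintype.card L₁ + 1))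

/-! ### independence -/

/-- contraction with a functional -/
def HN_CON : Prop := ∀ (L₁ L₂ : Type) (lam : MvPolynomial L₂ ℚ →ₗ[ℚ] ℚ),
  ∃ C : MvPolynomial (L₁ ⊕ L₂) ℚ →ₗ[ℚ] MvPolynomial L₁ ℚ, ∀ f g,
    C (rename (Sum.inl : L₁ → L₁ ⊕ L₂) f * rename (Sum.inr : L₂ → L₁ ⊕ L₂) g) = lam g • f

/-- independence of outer products -/
def HN_TENS : Prop := ∀ (b c : ℕ) (L₁ L₂ : Type) [Fintype L₁] [DecidableEq L₁] [Fintype L₂]
  [DecidableEq L₂] (κ₀ : ℕ × ℕ) (ι₁ ι₂ : Type) [Fintype ι₁] [Fintype ι₂]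
  (F : ι₁ → Fm b c L₁) (G : ι₂ → Fm b c L₂),
    (∀ a : ι₁ → ℚ, ∑ i, a i • F i ∈ vin (IpS L₁ κ₀) → a = 0) →
    (∀ a : ι₂ → ℚ, ∑ i, a i • G i ∈ vin (I0S L₂ κ₀) → a = 0) →
    ∀ a : ι₁ × ι₂ → ℚ, (∀ w, (∑ x, a x • ox (F x.1) (G x.2)) w ∈ KI κ₀ (tw w)) → a = 0

/-- homogeneous families of different degrees are independent modulo a homogeneous subspace -/
def HN_DEG : Prop := ∀ (b c : ℕ), 0 < b → 0 < c → ∀ (L : Type) [Fintype L] [DecidableEq L]
  (κ : ℕ × ℕ) (I : (L → Bool) → Submodule ℚ (MvPolynomial L ℚ)),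
    (∀ τ f n, f ∈ I τ → homogeneousComponent n f ∈ I τ) →
    ∀ (N : ℕ) (d : ℕ → ℕ) (F : ∀ j, Fin (d j) → Fm b c L), (∀ j i, F j i ∈ VV b c L κ j) →
    (∀ j, ∀ a : Fin (d j) → ℚ, ∑ i, a i • F j i ∈ vin I → a = 0) →
    ∀ a : (Σ j : Fin N, Fin (d j)) → ℚ, ∑ x, a x • F x.1 x.2 ∈ vin I → a = 0

/-- independence in the graded piece -/
def HN_IND : Prop := ∀ (b c : ℕ), 0 < b → 0 < c → ∀ (L₁ L₂ : Type) [Fintype L₁] [DecidableEq L₁]
  [Fintype L₂] [DecidableEq L₂] (κ₀ κ' κ'' : ℕ × ℕ), Th0 κ₀ κ' → ∀ (J : ℕ) (d₁ d₂ : ℕ → ℕ)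
  (F : ∀ j, Fin (d₁ j) → Fm b c L₁) (G : ∀ j, Fin (d₂ j) → Fm b c L₂),
    (∀ j i, F j i ∈ VV b c L₁ κ' j) → (∀ j i, G j i ∈ VV b c L₂ κ'' j) →
    (∀ j, ∀ a : Fin (d₁ j) → ℚ, ∑ i, a i • F j i ∈ vin (IpS L₁ κ₀) → a = 0) →
    (∀ j, ∀ a : Fin (d₂ j) → ℚ, ∑ i, a i • G j i ∈ vin (I0S L₂ κ₀) → a = 0) →
    ∀ a : (Σ x : Jp b c κ' κ'' J, Fin (d₁ x.1.1) × Fin (d₂ x.1.2)) → ℚ,
      ∑ y, a y • Av (ph (ox (F y.1.1.1 y.2.1) (G y.1.1.2 y.2.2))) ∈
        vin (JfS (L₁ ⊕ L₂) κ₀ (Fintype.card L₁ + 1)) → a = 0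

/-! ### spanning -/

/-- decomposition of the elements of `J_{#T0}` -/
def HN_GEN : Prop := ∀ (b c : ℕ) (L₁ L₂ : Type) [Fintype L₁] [DecidableEq L₁] [Fintype L₂]
  [DecidableEq L₂] (κ₀ : ℕ × ℕ) (F : Fm b c (L₁ ⊕ L₂)),
    F ∈ vin (JfS (L₁ ⊕ L₂) κ₀ (Fintype.card L₁)) →
    ∃ H : Equiv.Perm (L₁ ⊕ L₂) → Fm b c (L₁ ⊕ L₂),
      (∀ g w, th κ₀ (tw w) T0 ≠ 0 → H g w = 0) ∧
      F - ∑ g, act g (ph (H g)) ∈ vin (JfS (L₁ ⊕ L₂) κ₀ (Fintype.card L₁ + 1))

/-- the same for signed invariants -/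
def HN_SYM : Prop := ∀ (b c : ℕ) (L₁ L₂ : Type) [Fintype L₁] [DecidableEq L₁] [Fintype L₂]
  [DecidableEq L₂] (κ₀ : ℕ × ℕ) (F : Fm b c (L₁ ⊕ L₂)),
    (∀ g : Equiv.Perm (L₁ ⊕ L₂), act g F = sg g • F) →
    F ∈ vin (JfS (L₁ ⊕ L₂) κ₀ (Fintype.card L₁)) →
    ∃ H : Fm b c (L₁ ⊕ L₂), (∀ w, th κ₀ (tw w) T0 ≠ 0 → H w = 0) ∧
      F - Av (ph H) ∈ vin (JfS (L₁ ⊕ L₂) κ₀ (Fintype.card L₁ + 1))

/-- projection to charge `κ` and degree `J` -/
def HN_PJ : Prop := ∀ (b c : ℕ), 0 < b → 0 < c → ∀ (L : Type) [Fintype L] [DecidableEq L]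
  (κ : ℕ × ℕ) (J : ℕ), ∃ P : Fm b c L →ₗ[ℚ] Fm b c L,
    (∀ F w m, (P F w).coeff m = if chg w = κ ∧ 2 * b * c * m.degree + ∑ l, cwt b c (w l) = J
      then (F w).coeff m else 0) ∧
    (∀ F, P (Av F) = Av (P F)) ∧
    (∀ κ₀ n F, F ∈ vin (JfS L κ₀ n) → P F ∈ vin (JfS L κ₀ n)) ∧
    ∀ F ∈ VV b c L κ J, P F = F

/-- the same for homogeneous signed invariants -/
def HN_HOMP : Prop := ∀ (b c : ℕ), 0 < b → 0 < c → ∀ (L₁ L₂ : Type) [Fintype L₁] [DecidableEq L₁]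
  [Fintype L₂] [DecidableEq L₂] (κ₀ κ' κ'' : ℕ × ℕ), κ₀ ≠ 0 → Th0 κ₀ κ' →
    κ'.1 + κ'.2 = Fintype.card L₁ → ∀ (J : ℕ) (F : Fm b c (L₁ ⊕ L₂)),
    F ∈ VV b c (L₁ ⊕ L₂) (κ' + κ'') J → F ∈ vin (JfS (L₁ ⊕ L₂) κ₀ (Fintype.card L₁)) →
    ∃ H : Fm b c (L₁ ⊕ L₂),
      (∀ w, ¬ (chg (w ∘ Sum.inl) = κ' ∧ chg (w ∘ Sum.inr) = κ'') → H w = 0) ∧
      (∀ w, ∀ m ∈ (H w).support,
        2 * b * c * m.degree + ∑ l, cwt b c (w l) + 2 * b * c * (κ'.1 * κ''.2) = J) ∧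
      F - Av (ph H) ∈ vin (JfS (L₁ ⊕ L₂) κ₀ (Fintype.card L₁ + 1))

/-- averages of families of the form `κ(T0) H` are combinations of averages of products -/
def HN_TEN : Prop := ∀ (b c : ℕ), 0 < b → 0 < c → ∀ (L₁ L₂ : Type) [Fintype L₁] [DecidableEq L₁]
  [Fintype L₂] [DecidableEq L₂] (κ' κ'' : ℕ × ℕ) (J : ℕ) (H : Fm b c (L₁ ⊕ L₂)),
    (∀ w, ¬ (chg (w ∘ Sum.inl) = κ' ∧ chg (w ∘ Sum.inr) = κ'') → H w = 0) →
    (∀ w, ∀ m ∈ (H w).support,
      2 * b * c * m.degree + ∑ l, cwt b c (w l) + 2 * b * c * (κ'.1 * κ''.2) = J) →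
    Av (ph H) ∈ Submodule.span ℚ {G : Fm b c (L₁ ⊕ L₂) | ∃ j₁ j₂ : ℕ,
      j₁ + j₂ + 2 * b * c * (κ'.1 * κ''.2) = J ∧ ∃ F₁ ∈ VV b c L₁ κ' j₁,
        ∃ F₂ ∈ VV b c L₂ κ'' j₂, G = Av (ph (ox F₁ F₂))}

/-- spanning in the graded piece -/
def HN_SPAN : Prop := ∀ (b c : ℕ), 0 < b → 0 < c → ∀ (L₁ L₂ : Type) [Fintype L₁] [DecidableEq L₁]
  [Fintype L₂] [DecidableEq L₂] (κ₀ κ' κ'' : ℕ × ℕ), κ₀ ≠ 0 → Th0 κ₀ κ' →
    κ'.1 + κ'.2 = Fintype.card L₁ → ∀ (J : ℕ) (d₁ d₂ : ℕ → ℕ)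
  (F : ∀ j, Fin (d₁ j) → Fm b c L₁) (G : ∀ j, Fin (d₂ j) → Fm b c L₂),
    (∀ j i, F j i ∈ VV b c L₁ κ' j) → (∀ j i, G j i ∈ VV b c L₂ κ'' j) →
    (∀ j, ∀ u ∈ VV b c L₁ κ' j, ∃ a : Fin (d₁ j) → ℚ, u - ∑ i, a i • F j i ∈ vin (IpS L₁ κ₀)) →
    (∀ j, ∀ u ∈ VV b c L₂ κ'' j, ∃ a : Fin (d₂ j) → ℚ, u - ∑ i, a i • G j i ∈ vin (I0S L₂ κ₀)) →
    ∀ u ∈ VV b c (L₁ ⊕ L₂) (κ' + κ'') J, u ∈ vin (JfS (L₁ ⊕ L₂) κ₀ (Fintype.card L₁)) →
    ∃ a : (Σ x : Jp b c κ' κ'' J, Fin (d₁ x.1.1) × Fin (d₂ x.1.2)) → ℚ,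
      u - ∑ y, a y • Av (ph (ox (F y.1.1.1 y.2.1) (G y.1.1.2 y.2.2))) ∈
        vin (JfS (L₁ ⊕ L₂) κ₀ (Fintype.card L₁ + 1))

/-! ### dimensions -/

/-- dimension of the graded piece -/
def HN_GR : Prop := ∀ (b c : ℕ), 0 < b → 0 < c → ∀ (κ₀ κ' κ'' : ℕ × ℕ), κ₀ ≠ 0 → Th0 κ₀ κ' →
  ∀ J : ℕ,
    dimQ (VV b c (Fin (κ'.1 + κ'.2) ⊕ Fin (κ''.1 + κ''.2)) (κ' + κ'') J ⊓
      vin (JfS _ κ₀ (κ'.1 + κ'.2))) (vin (JfS _ κ₀ (κ'.1 + κ'.2 + 1))) =
    ∑ x ∈ Jp b c κ' κ'' J, hp b c κ₀ κ' x.1 * h0 b c κ₀ κ'' x.2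

/-- relabelling of the graded pieces -/
def HN_DREL : Prop := ∀ (b c : ℕ) (L L' : Type) [Fintype L] [DecidableEq L] [Fintype L']
  [DecidableEq L'], Fintype.card L = Fintype.card L' → ∀ (κ₀ κ : ℕ × ℕ) (J n : ℕ),
    dimQ (VV b c L κ J ⊓ vin (JfS L κ₀ n)) (vin (JfS L κ₀ (n + 1))) =
      dimQ (VV b c L' κ J ⊓ vin (JfS L' κ₀ n)) (vin (JfS L' κ₀ (n + 1)))

/-- empty graded pieces -/
def HN_ZERO : Prop := ∀ (b c : ℕ) (L : Type) [Fintype L] [DecidableEq L] (κ₀ κ : ℕ × ℕ)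
  (J n : ℕ), (∀ κ' ≤ κ, Th0 κ₀ κ' → κ'.1 + κ'.2 ≠ n) →
    dimQ (VV b c L κ J ⊓ vin (JfS L κ₀ n)) (vin (JfS L κ₀ (n + 1))) = 0

/-- telescoping -/
def HN_TEL : Prop := ∀ (b c : ℕ), 0 < b → 0 < c → ∀ (L : Type) [Fintype L] [DecidableEq L]
  (κ₀ κ : ℕ × ℕ) (J : ℕ),
    dimQ (VV b c L κ J) (vin (IpS L κ₀)) = ∑ n ∈ range (Fintype.card L + 1),
      dimQ (VV b c L κ J ⊓ vin (JfS L κ₀ n)) (vin (JfS L κ₀ (n + 1)))

/-- the numerical form of `cross` -/
def HN_COUNT : Prop := ∀ (b c : ℕ), 0 < b → 0 < c → ∀ (κ₀ κ : ℕ × ℕ), κ₀ ≠ 0 → ∀ J : ℕ,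
  hp b c κ₀ κ J = ∑ κ' ∈ (Finset.Iic κ).filter (Th0 κ₀),
    ∑ x ∈ Jp b c κ' (κ - κ') J, hp b c κ₀ κ' x.1 * h0 b c κ₀ (κ - κ') x.2

/-! ### series -/

/-- rules for series -/
def HN_SER : Prop :=
  (∀ f g : ℕ → ℕ, ser f * ser g = ser fun j => ∑ x ∈ antidiagonal j, f x.1 * g x.2) ∧
  (∀ (k : ℕ) (f : ℕ → ℕ), w k * ser f = ser fun j => if k ≤ j then f (j - k) else 0) ∧
  (∀ f g : ℕ → ℕ, ser f + ser g = ser fun j => f j + g j) ∧
  (∀ (ι : Type) (s : Finset ι) (f : ι → ℕ → ℕ), ∑ i ∈ s, ser (f i) = ser fun j => ∑ i ∈ s, f i j) ∧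
  (ser (fun _ => 0) = 0) ∧ (ser (fun j => if j = 0 then 1 else 0) = 1) ∧
  (∀ m n : ℤ, w (m + n) = w m * w n) ∧ w 0 = 1 ∧ ∀ (m : ℤ) (n : ℕ), w m ^ n = w (n * m)

/-- the series `∑_j M_j X^{j κ₀}` -/
def HN_DIR : Prop := ∀ (b c : ℕ) (κ₀ : ℕ × ℕ), Nat.Coprime κ₀.1 κ₀.2 → ∀ κ',
  dirf κ₀ (MB b c κ₀) κ' = if Th0 κ₀ κ' then hiB b c κ₀ κ' else 0

/-- no labels -/
def HN_EMP : Prop := ∀ (b c : ℕ) (κ₀ : ℕ × ℕ) (j : ℕ),
  hp b c κ₀ (0, 0) j = (if j = 0 then 1 else 0) ∧ h0 b c κ₀ (0, 0) j = (if j = 0 then 1 else 0)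

/-! ### signed invariants of the free modules -/

/-- coefficient functions of signed invariants -/
def HN_FREE1 : Prop := ∀ (b c : ℕ), 0 < b → 0 < c → ∀ (L : Type) [Fintype L] [DecidableEq L]
  (κ : ℕ × ℕ) (j : ℕ), Nonempty (VV b c L κ j ≃ₗ[ℚ] SF L (Col b c × ℕ) (PA b c κ j))

/-- dimension of the space of signed functions -/
def HN_FREE2 : Prop := ∀ (L X : Type) [Fintype L] [DecidableEq L] [DecidableEq X]
  (P : Finset X → Prop), {A : Finset X | #A = Fintype.card L ∧ P A}.Finite →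
    Module.finrank ℚ (SF L X P) = Nat.card {A : Finset X // #A = Fintype.card L ∧ P A}

/-- finiteness -/
def HN_FREE3 : Prop := ∀ (b c : ℕ), 0 < b → 0 < c → ∀ (κ : ℕ × ℕ) (j : ℕ),
  {A : Finset (Col b c × ℕ) | PA b c κ j A}.Finite ∧ ∀ A, PA b c κ j A → #A = κ.1 + κ.2

/-- the dimension of the space of signed invariants -/
def HN_FREE : Prop := ∀ (b c : ℕ), 0 < b → 0 < c → ∀ (L : Type) [Fintype L] [DecidableEq L]
  (κ : ℕ × ℕ) (j : ℕ), κ.1 + κ.2 = Fintype.card L →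
    Module.finrank ℚ (VV b c L κ j) = Nat.card {A : Finset (Col b c × ℕ) // PA b c κ j A}

/-- `I⁺ = 0` at the two ends -/
def HN_ENDS : Prop := ∀ (b c : ℕ), 0 < b → 0 < c →
  (∀ κ j, hp b c (1, 0) κ j = Module.finrank ℚ (VV b c (Fin (κ.1 + κ.2)) κ j)) ∧
  ∀ n j, hp b c (0, 1) (0, n) j = Module.finrank ℚ (VV b c (Fin (0 + n)) (0, n) j)

/-- the two walls at the ends in terms of subsets of `ℕ` -/
def HN_EXC : Prop := ∀ (b c : ℕ), 0 < b → 0 < c → ∀ n j,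
  hp b c (1, 0) (n, 0) j = cs b n j ∧ hp b c (0, 1) (0, n) j = cs c n j

/-- the full product in terms of the ends -/
def HN_KUN : Prop := ∀ (b c : ℕ), 0 < b → 0 < c → ∀ (κ : ℕ × ℕ) (j : ℕ),
  hp b c (1, 0) κ j = ∑ x ∈ antidiagonal j, hp b c (1, 0) (κ.1, 0) x.1 * hp b c (0, 1) (0, κ.2) x.2

/-- recursion for `cs` -/
def HN_CS : Prop := ∀ s : ℕ, 0 < s → (∀ j, cs s 0 j = if j = 0 then 1 else 0) ∧ ∀ n j,
  cs s (n + 1) j = (if 2 * s * (n + 1) ≤ j then cs s (n + 1) (j - 2 * s * (n + 1)) else 0) +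
    (if s * (2 * n + 1) ≤ j then cs s n (j - s * (2 * n + 1)) else 0)

end Pool.Agent.Work.MP_c41774_al.Full

end
end

section

/-!
# Block T (Part 2 of note 1545): statements of the items. Captain helper12.
-/

noncomputable section

namespace Pool.Agent.Work.MP_c41774_al.Full.T

open Finset MvPolynomial
open Pool.Agent.Work.MP_c41774_al.Wall

/-! ### numeric items -/

/-- toolkit for tails and class sums -/
def T_TL : Prop := ∀ (N : ℤ), 0 < N → ∀ f g : ℤ → ℤ, FS f → FS g →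
  (∀ x, tl N f x = f x + tl N f (x - N)) ∧
  (∀ x, cl N f (x + N) = cl N f x) ∧
  (∀ c0 : ℤ, (∀ x, f (c0 - x) = f x) → ∀ x, cl N f x = tl N f x + tl N f (c0 - x - N)) ∧
  (∀ x, tl N (fun y => f y - g y) x = tl N f x - tl N g x) ∧
  (∀ x, tl N (fun y => f y + g y) x = tl N f x + tl N g x) ∧
  (∀ x, cl N (fun y => f y - g y) x = cl N f x - cl N g x) ∧
  (∀ x, cl N (fun y => f y + g y) x = cl N f x + cl N g x) ∧
  (∀ d x : ℤ, tl N (fun y => f (y + d)) x = tl N f (x + d)) ∧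
  (∀ d x : ℤ, cl N (fun y => f (y + d)) x = cl N f (x + d)) ∧
  ∃ M : ℤ, (∀ x, x < -M → tl N f x = 0) ∧ ∀ x, M < x → tl N f x = cl N f x

/-- the half trick: symmetry and finite support -/
def T_HT : Prop := ∀ (N : ℤ), 0 < N → ∀ (f : ℤ → ℤ) (c0 d : ℤ), FS f → (∀ x, f (c0 - x) = f x) →
  (∀ x, cl N f (x + d) = cl N f (x - d)) →
    (∀ a, tl N f (c0 - N - a + d) - tl N f (c0 - N - a - d) = tl N f (a + d) - tl N f (a - d)) ∧
    FS (fun a => tl N f (a + d) - tl N f (a - d))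

/-- two periods -/
def T_PER : Prop := ∀ (h : ℤ → ℤ) (a b : ℕ), (∀ x, h (x + 2 * a) = h x) →
  (∀ x, h (x + 2 * b) = h x) → ∀ d : ℤ, (Nat.gcd a b : ℤ) ∣ d → ∀ x, h (x + 2 * d) = h x

/-- class sums for a divisor of the modulus -/
def T_SUBC : Prop := ∀ (N : ℤ), 0 < N → ∀ (s : ℕ), 0 < s → ∀ f : ℤ → ℤ, FS f →
  ∀ x, cl N f x = ∑ t ∈ range s, cl (N * s) f (x + N * t)

/-- monotonicity for symmetric unimodal functions -/
def T_UNI : Prop := ∀ f : ℤ → ℤ, (∀ x, f (-x) = f x) → (∀ x, x ≤ 1 → f (x - 2) ≤ f x) →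
  ∀ y d : ℤ, y ≤ 0 → 0 ≤ d → f (y - d) ≤ f (y + d)

/-- step 1 of the half trick -/
def T_ST1 : Prop := ∀ (b c p q : ℕ), 0 < b → 0 < c → ∀ χ, ChiP b c p q χ →
  ∀ r e : ℕ, 0 < r → 0 < e → r ∣ b → e = Nat.gcd r q →
    FS2 (stA r e χ) ∧ (∀ i J, stA r e χ (-i) J = stA r e χ i J) ∧
    (∀ i J, i ≤ 1 → stA r e χ (i - 2) J ≤ stA r e χ i J) ∧
    (∀ i J, cl (2 * c) (fun x => stA r e χ x J) (i + 2 * p) =
      cl (2 * c) (fun x => stA r e χ x J) i) ∧
    (∀ i J, stA r e χ i J - stA r e χ i (J - 2 * r) = χ i (J + e) - χ i (J - e))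

/-- step 2 of the half trick -/
def T_ST2 : Prop := ∀ (n m r e d1 g : ℕ), 0 < n → 0 < m → 0 < r → 0 < e → 0 < d1 → e ∣ r →
  r * m ≤ n → d1 ∣ r * m → Nat.gcd (e * m) d1 ∣ g →
    ∀ A : ℤ → ℤ, FS A → (∀ x, A (-x) = A x) → (∀ x, x ≤ 1 → A (x - 2) ≤ A x) →
      (∀ x, cl (2 * n) A (x + 2 * d1) = cl (2 * n) A x) →
        FS (fun a => tl (2 * n) (geo (r / e) (e * m) A) (a + g) -
          tl (2 * n) (geo (r / e) (e * m) A) (a - g)) ∧
        ∀ a, 0 ≤ tl (2 * n) (geo (r / e) (e * m) A) (a + g) -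
          tl (2 * n) (geo (r / e) (e * m) A) (a - g)

/-- recombination of the two steps -/
def T_REC : Prop := ∀ (m r e : ℕ), 0 < m → 0 < r → 0 < e → e ∣ r → ∀ χ A : ℤ → ℤ → ℤ,
  FS2 χ → FS2 A →
    (∀ i J, A i J - A i (J - 2 * r) = χ i (J + e) - χ i (J - e)) →
      ∀ x, fch 1 m χ x =
        ∑ᶠ J : ℤ, geo (r / e) (e * m) (fun y => A y J) (x - m * J - e * m)

/-- arithmetic -/
def T_ARI : Prop := ∀ m b p q : ℕ, 0 < m → 0 < b → 0 < p → 0 < q → ∃ r e : ℕ, 0 < r ∧ 0 < e ∧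
  r ∣ b ∧ e = Nat.gcd r q ∧ Nat.gcd (b * m) p ∣ r * m ∧
    Nat.gcd (e * m) (Nat.gcd (b * m) p) ∣ Nat.gcd p (m * q)

/-- positivity for `b ∣ c = b m`, in the variable `u = v^b` -/
def T_NUM1 : Prop := ∀ (b m p q : ℕ), 0 < b → 0 < m → 0 < p → 0 < q →
  ∀ χ, ChiP b (b * m) p q χ → ∀ a : ℤ,
    0 ≤ tl (2 * (b * m)) (fch 1 m χ) (a + (Nat.gcd p (m * q) : ℕ)) -
      tl (2 * (b * m)) (fch 1 m χ) (a - (Nat.gcd p (m * q) : ℕ))

/-- numeric positivity -/
def T_NUM : Prop := ∀ (b c p q : ℕ), 0 < b → 0 < c → (b ∣ c ∨ c ∣ b) → 0 < p → 0 < q →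
  ∀ χ, ChiP b c p q χ → ∀ a : ℤ,
    0 ≤ tl (2 * b * c) (fch b c χ) (a + (Nat.gcd (b * p) (c * q) : ℕ)) -
      tl (2 * b * c) (fch b c χ) (a - (Nat.gcd (b * p) (c * q) : ℕ))

/-! ### abstract linear algebra -/

/-- relative injectivity of the raising operator in negative weights -/
def T_REL : Prop := ∀ (E : Type) [AddCommGroup E] [Module ℚ E] (e f : E →ₗ[ℚ] E)
  (Z : Submodule ℚ E) (Ew : ℤ → Submodule ℚ E),
    (∀ i, ∀ x ∈ Ew i, f x ∈ Ew (i - 2)) →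
    (∀ i, ∀ x ∈ Ew i, e (f x) - f (e x) = (i : ℚ) • x) →
    (∃ M : ℤ, ∀ i < M, Ew i = ⊥) → (∀ z ∈ Z, e z ∈ Z) → (∀ z ∈ Z, f z ∈ Z) →
      ∀ i < 0, ∀ x ∈ Ew i, e x ∈ Z → x ∈ Z

/-- an `sl₂ × sl₂`-action on a subquotient `U/(U ∩ W)` -/
structure SlD {E : Type} [AddCommGroup E] [Module ℚ E] (U W : Submodule ℚ E)
    (Ew : ℤ → ℤ → Submodule ℚ E) (P : ℤ → ℤ → E →ₗ[ℚ] E) (eA fA eB fB : E →ₗ[ℚ] E) : Prop where
  eAU : ∀ u ∈ U, eA u ∈ U
  fAU : ∀ u ∈ U, fA u ∈ U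
  eBU : ∀ u ∈ U, eB u ∈ U
  fBU : ∀ u ∈ U, fB u ∈ U
  eAW : ∀ u ∈ W, eA u ∈ W
  fAW : ∀ u ∈ W, fA u ∈ W
  eBW : ∀ u ∈ W, eB u ∈ W
  fBW : ∀ u ∈ W, fB u ∈ W
  eAw : ∀ i j, ∀ x ∈ Ew i j, eA x ∈ Ew (i + 2) j
  fAw : ∀ i j, ∀ x ∈ Ew i j, fA x ∈ Ew (i - 2) j
  eBw : ∀ i j, ∀ x ∈ Ew i j, eB x ∈ Ew i (j + 2)
  fBw : ∀ i j, ∀ x ∈ Ew i j, fB x ∈ Ew i (j - 2)
  hA : ∀ i j, ∀ x ∈ Ew i j, eA (fA x) - fA (eA x) = (i : ℚ) • x
  hB : ∀ i j, ∀ x ∈ Ew i j, eB (fB x) - fB (eB x) = (j : ℚ) • x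
  cEE : ∀ x, eA (eB x) = eB (eA x)
  cEF : ∀ x, eA (fB x) = fB (eA x)
  PU : ∀ i j, ∀ u ∈ U, P i j u ∈ U
  PW : ∀ i j, ∀ u ∈ W, P i j u ∈ W
  Pw : ∀ i j x, P i j x ∈ Ew i j
  Pid : ∀ i j, ∀ x ∈ Ew i j, P i j x = x
  PeA : ∀ i j x, eA (P i j x) = P (i + 2) j (eA x)
  bot : ∃ M : ℤ, ∀ i j, (i < M ∨ j < M) → Ew i j = ⊥
  fd : ∀ i j, FiniteDimensional ℚ (U ⊓ Ew i j : Submodule ℚ E)

/-- the mixed second difference of the weight multiplicities is nonnegative -/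
def T_DDIM : Prop := ∀ (E : Type) [AddCommGroup E] [Module ℚ E] (U W : Submodule ℚ E)
  (Ew : ℤ → ℤ → Submodule ℚ E) (P : ℤ → ℤ → E →ₗ[ℚ] E) (eA fA eB fB : E →ₗ[ℚ] E),
    SlD U W Ew P eA fA eB fB → ∀ i j : ℤ, i ≤ 1 → j ≤ 1 →
      dimQ (U ⊓ Ew (i - 2) j) W + dimQ (U ⊓ Ew i (j - 2)) W ≤
        dimQ (U ⊓ Ew i j) W + dimQ (U ⊓ Ew (i - 2) (j - 2)) W

/-- direct sum decomposition of a subquotient by projections -/
def T_DSUM : Prop := ∀ (E : Type) [AddCommGroup E] [Module ℚ E] (ι : Type) (t : Finset ι)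
  (P : ι → E →ₗ[ℚ] E) (U W : Submodule ℚ E) (X : ι → Submodule ℚ E),
    (∀ i ∈ t, ∀ u ∈ U, P i u ∈ U ∧ P i u ∈ X i) → (∀ i ∈ t, ∀ u ∈ W, P i u ∈ W) →
    (∀ i ∈ t, ∀ x ∈ U, x ∈ X i → P i x = x) →
    (∀ i ∈ t, ∀ j ∈ t, i ≠ j → ∀ x ∈ U, x ∈ X i → P j x = 0) →
    (∀ u ∈ U, ∑ i ∈ t, P i u = u) →
    (∀ i ∈ t, FiniteDimensional ℚ (U ⊓ X i : Submodule ℚ E)) →
      dimQ U W = ∑ i ∈ t, dimQ (U ⊓ X i) W

/-- dimensions and linear maps -/
def T_DMAP : Prop := ∀ (E : Type) [AddCommGroup E] [Module ℚ E] (φ ψ : E →ₗ[ℚ] E)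
  (U U' W : Submodule ℚ E), (∀ x, ψ (φ x) = x) → (∀ x, φ (ψ x) = x) →
    (∀ x ∈ U, φ x ∈ U') → (∀ x ∈ U', ψ x ∈ U) → (∀ x ∈ W, φ x ∈ W) → (∀ x ∈ W, ψ x ∈ W) →
      dimQ U W = dimQ U' W

/-! ### operators on families -/

/-- commutators -/
def T_COM : Prop := ∀ (b c : ℕ) (L : Type) [Fintype L] [DecidableEq L]
  (m m' : Col b c → Col b c → ℚ) (F : Fm b c L),
    DD m (DD m' F) - DD m' (DD m F) = DD (fun x y => mmul m m' x y - mmul m' m x y) F

/-- colour matrices preserve signed invariants, charge, degree and values -/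
def T_DDU : Prop := ∀ (b c : ℕ) (L : Type) [Fintype L] [DecidableEq L]
  (m : Col b c → Col b c → ℚ) (F : Fm b c L), TyM m →
    (∀ κ n, F ∈ UU b c L κ n → DD m F ∈ UU b c L κ n) ∧
    ∀ V : (L → Bool) → Submodule ℚ (MvPolynomial L ℚ), F ∈ vin V → DD m F ∈ vin V

/-- `sl₂ × sl₂` -/
def T_MAT : Prop := T_COM → ∀ (b c : ℕ) (L : Type) [Fintype L] [DecidableEq L],
  (TyM (mEA (b := b) (c := c)) ∧ TyM (mFA (b := b) (c := c)) ∧ TyM (mEB (b := b) (c := c)) ∧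
    TyM (mFB (b := b) (c := c))) ∧
  (∀ i j, ∀ F ∈ WW b c L i j, DD mEA F ∈ WW b c L (i + 2) j ∧ DD mFA F ∈ WW b c L (i - 2) j ∧
    DD mEB F ∈ WW b c L i (j + 2) ∧ DD mFB F ∈ WW b c L i (j - 2)) ∧
  (∀ i j, ∀ F ∈ WW b c L i j, DD mEA (DD mFA F) - DD mFA (DD mEA F) = (i : ℚ) • F ∧
    DD mEB (DD mFB F) - DD mFB (DD mEB F) = (j : ℚ) • F) ∧
  (∀ F : Fm b c L, DD mEA (DD mEB F) = DD mEB (DD mEA F) ∧
    DD mEA (DD mFB F) = DD mFB (DD mEA F)) ∧
  (∀ i j, ∀ F : Fm b c L, DD mEA (PW b c L i j F) = PW b c L (i + 2) j (DD mEA F))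

/-- projections to weight spaces -/
def T_PW : Prop := ∀ (b c : ℕ) (L : Type) [Fintype L] [DecidableEq L] (i j : ℤ) (F : Fm b c L),
  (∀ κ n, F ∈ UU b c L κ n → PW b c L i j F ∈ UU b c L κ n) ∧
  (∀ V : (L → Bool) → Submodule ℚ (MvPolynomial L ℚ), F ∈ vin V → PW b c L i j F ∈ vin V) ∧
  PW b c L i j F ∈ WW b c L i j ∧ (F ∈ WW b c L i j → PW b c L i j F = F) ∧
  (∀ i' j', (i', j') ≠ (i, j) → F ∈ WW b c L i' j' → PW b c L i j F = 0)

/-- colour permutations preserve signed invariants, charge, degree and values -/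
def T_TTU : Prop := ∀ (b c : ℕ) (L : Type) [Fintype L] [DecidableEq L]
  (ρ : Equiv.Perm (Col b c)) (F : Fm b c L), TyP ρ →
    (∀ κ n, F ∈ UU b c L κ n → TT ρ F ∈ UU b c L κ n) ∧
    (∀ V : (L → Bool) → Submodule ℚ (MvPolynomial L ℚ), F ∈ vin V → TT ρ F ∈ vin V) ∧
    TT ρ⁻¹ (TT ρ F) = F ∧ TT ρ (TT ρ⁻¹ F) = F ∧ TyP ρ⁻¹

/-- finite dimension and bounds for the weights -/
def T_UFD : Prop := ∀ (b c : ℕ) (L : Type) [Fintype L] [DecidableEq L],
  (∀ κ n, FiniteDimensional ℚ (UU b c L κ n)) ∧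
  (∀ w : L → Col b c, |WA w| ≤ c * Fintype.card L ∧ |WB w| ≤ b * Fintype.card L ∧
    (∑ l, (cwt b c (w l) : ℤ)) = b * WA w + c * WB w + b * c * Fintype.card L) ∧
  (∀ i j, (∀ w : L → Col b c, ¬ (WA w = i ∧ WB w = j)) → WW b c L i j = ⊥)

/-- reversal of the colours: the multiplicities are symmetric -/
def T_SYM : Prop := T_TTU → T_DMAP → ∀ (b c : ℕ) (L : Type) [Fintype L] [DecidableEq L]
  (V I : (L → Bool) → Submodule ℚ (MvPolynomial L ℚ)) (κ : ℕ × ℕ) (n : ℕ) (i j : ℤ),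
    chi b c V I κ n (-i) j = chi b c V I κ n i j ∧ chi b c V I κ n i (-j) = chi b c V I κ n i j

/-- rotation of the colours -/
def T_ROT : Prop := T_TTU → T_DMAP → T_DSUM → T_PW → T_UFD → ∀ (b c : ℕ), 0 < b → 0 < c →
  ∀ (L : Type) [Fintype L] [DecidableEq L]
  (V I : (L → Bool) → Submodule ℚ (MvPolynomial L ℚ)) (κ : ℕ × ℕ) (n : ℕ) (i j : ℤ),
    cl (2 * c) (fun x => (chi b c V I κ n x j : ℤ)) (i + 2 * κ.1) =
      cl (2 * c) (fun x => (chi b c V I κ n x j : ℤ)) i ∧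
    cl (2 * b) (fun y => (chi b c V I κ n i y : ℤ)) (j + 2 * κ.2) =
      cl (2 * b) (fun y => (chi b c V I κ n i y : ℤ)) j

/-- the multiplicities have all the properties used in the numeric part -/
def T_CHI : Prop := ∀ (b c : ℕ), 0 < b → 0 < c → ∀ (L : Type) [Fintype L] [DecidableEq L]
  (V I : (L → Bool) → Submodule ℚ (MvPolynomial L ℚ)) (κ : ℕ × ℕ) (n : ℕ),
    ChiP b c κ.1 κ.2 (fun i j => (chi b c V I κ n i j : ℤ))

/-- assembly of `T_CHI` -/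
def T_CHIa : Prop := T_DDIM → T_COM → T_DDU → T_MAT → T_PW → T_UFD → T_SYM → T_ROT → T_TTU →
  T_DMAP → T_DSUM → T_CHI

/-! ### from `bd` to the multiplicities -/

/-- decomposition of `bd` -/
def T_DEC : Prop := T_DSUM → T_PW → T_UFD → ∀ (b c : ℕ), 0 < b → 0 < c →
  ∀ (κ₀ : ℕ × ℕ) (k : ℕ),
    (∀ J N : ℕ, J < N → (bd b c κ₀ k J : ℤ) = ∑ n ∈ range N,
      fch b c (chiB b c κ₀ k n) (J - 2 * b * c * n - b * c * (k * κ₀.1 + k * κ₀.2))) ∧
    ∀ (n : ℕ) (x : ℤ), x < 0 →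
      fch b c (chiB b c κ₀ k n) (x - 2 * b * c * n - b * c * (k * κ₀.1 + k * κ₀.2)) = 0

/-- coefficients of the series in `T_POS` -/
def T_SER : Prop := ∀ (D : ℕ), 0 < D → ∀ (β : ℕ → ℕ) (g s a : ℤ),
  (((Wall.w (-g) - Wall.w g) * (Wall.w (-s) * ser β *
    ser fun j => if D ∣ j then 1 else 0) : S)).coeff a =
      tl D (fun y => if 0 ≤ y then (β y.toNat : ℤ) else 0) (a + g + s) -
      tl D (fun y => if 0 ≤ y then (β y.toNat : ℤ) else 0) (a - g + s)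

/-- conclusion -/
def T_END : Prop := T_DSUM → T_PW → T_UFD → T_TL → T_NUM → T_CHI → T_DEC → T_SER → T_POS

end Pool.Agent.Work.MP_c41774_al.Full.T

end
end

section

/-!
# Block G, part 3: `G_POS`
-/

noncomputable section

namespace Pool.Agent.Work.MP_c41774_al.Full

open Finset
open Pool.Agent.Work.MP_c41774_al.Wall

lemma coeff_ser (n : ℕ → ℕ) (J : ℤ) :
    (ser n).coeff J = if J < 0 then 0 else (n J.natAbs : ℤ) := by
  unfold ser
  have h := PowerSeries.coeff_coe (PowerSeries.mk fun j => (n j : ℤ)) J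
  rw [PowerSeries.coeff_mk] at h
  exact h

lemma coeff_ser_mul (n n' : ℕ → ℕ) (J : ℤ) :
    (ser n * ser n').coeff J = if J < 0 then 0 else
      ((∑ p ∈ Finset.HasAntidiagonal.antidiagonal J.natAbs, n p.1 * n' p.2 : ℕ) : ℤ) := by
  unfold ser
  have h := PowerSeries.coeff_coe ((PowerSeries.mk fun j => (n j : ℤ)) *
    (PowerSeries.mk fun j => (n' j : ℤ))) J
  rw [PowerSeries.coeff_mul, map_mul] at h
  simp only [PowerSeries.coeff_mk] at h
  push_cast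
  exact h

section

variable {b c : ℕ} {κ₀ : ℕ × ℕ}

lemma gfin (hb : 0 < b) (hc : 0 < c) (K : ℕ) (J : ℤ) :
    {x : Gn b c κ₀ | gsz x ≤ K ∧ gdg x ≤ J}.Finite := by
  classical
  set N : ℕ := (J + b * c * (K : ℤ) ^ 2 * κ₀.1 * κ₀.2).toNat with hN
  refine (((Finset.range K).sigma fun k => (Finset.range (N + 1)).sigma fun j =>
    (Finset.univ ×ˢ Finset.range (N + 1) :
      Finset (Fin (bd b c κ₀ (k + 1) j) × ℕ))).finite_toSet).subset ?_
  rintro ⟨k, j, i, m⟩ ⟨h1, h2⟩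
  have h1' : k + 1 ≤ K := h1
  have h2' : (j : ℤ) + 2 * b * c * m - b * c * ((k : ℤ) + 1) ^ 2 * κ₀.1 * κ₀.2 ≤ J := h2
  have h3 : (b : ℤ) * c * ((k : ℤ) + 1) ^ 2 * κ₀.1 * κ₀.2 ≤
      b * c * (K : ℤ) ^ 2 * κ₀.1 * κ₀.2 := by
    have h4 : ((k : ℤ) + 1) ^ 2 ≤ (K : ℤ) ^ 2 := by
      have : ((k : ℤ) + 1) ≤ K := by exact_mod_cast h1'
      exact pow_le_pow_left₀ (by positivity) this 2
    have h5 : (0 : ℤ) ≤ b * c := by positivity
    have h6 : (0 : ℤ) ≤ κ₀.1 := by positivity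
    have h7 : (0 : ℤ) ≤ κ₀.2 := by positivity
    exact mul_le_mul_of_nonneg_right (mul_le_mul_of_nonneg_right
      (mul_le_mul_of_nonneg_left h4 h5) h6) h7
  have h8 : (j : ℤ) + 2 * b * c * m ≤ J + b * c * (K : ℤ) ^ 2 * κ₀.1 * κ₀.2 := by linarith
  have h9 : (m : ℤ) ≤ 2 * b * c * m := by
    have : (1 : ℤ) ≤ 2 * b * c := by
      have hb' : (1 : ℤ) ≤ b := by exact_mod_cast hb
      have hc' : (1 : ℤ) ≤ c := by exact_mod_cast hc
      nlinarith
    nlinarith [(Nat.cast_nonneg m : (0 : ℤ) ≤ m)]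
  have h10 : (0 : ℤ) ≤ 2 * b * c * m := by positivity
  rw [Finset.mem_coe, Finset.mem_sigma]
  refine ⟨Finset.mem_range.mpr h1', ?_⟩
  rw [Finset.mem_sigma]
  refine ⟨Finset.mem_range.mpr ?_, ?_⟩
  · show j < N + 1
    omega
  · show (i, m) ∈ _
    rw [Finset.mem_product]
    refine ⟨Finset.mem_univ _, Finset.mem_range.mpr ?_⟩
    show m < N + 1
    omega

/-- The number of generators of size `k + 1` and degree `J`. -/
lemma card_gen (hb : 0 < b) (hc : 0 < c) (k : ℕ) (J : ℤ) :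
    ((w (-((b : ℤ) * c * ((k : ℤ) + 1) ^ 2 * κ₀.1 * κ₀.2)) * ser (bd b c κ₀ (k + 1)) *
        ser fun j => if 2 * b * c ∣ j then 1 else 0).coeff J) =
      (Nat.card {x : Gn b c κ₀ // gsz x = k + 1 ∧ gdg x = J} : ℤ) := by
  rw [mul_assoc]
  unfold w
  rw [HahnSeries.coeff_single_mul, one_mul, coeff_ser_mul, sub_neg_eq_add]
  set A : ℤ := (b : ℤ) * c * ((k : ℤ) + 1) ^ 2 * κ₀.1 * κ₀.2 with hA
  by_cases hn : J + A < 0
  · rw [if_pos hn]
    have : IsEmpty {x : Gn b c κ₀ // gsz x = k + 1 ∧ gdg x = J} := by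
      constructor
      rintro ⟨⟨k', j, i, m⟩, h1, h2⟩
      have h1' : k' + 1 = k + 1 := h1
      obtain rfl : k' = k := by omega
      have h2' : (j : ℤ) + 2 * b * c * m - A = J := h2
      have h3 : (0 : ℤ) ≤ 2 * b * c * m := by positivity
      omega
    rw [Nat.card_of_isEmpty]
    rfl
  · rw [if_neg hn, Nat.cast_inj]
    push Not at hn
    set n : ℕ := (J + A).natAbs with hnn
    have hnJ : (n : ℤ) = J + A := by rw [hnn]; exact Int.natAbs_of_nonneg hn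
    have hbc : 0 < 2 * b * c := by positivity
    let f : (Σ p : ↥(Finset.HasAntidiagonal.antidiagonal n),
        {i : Fin (bd b c κ₀ (k + 1) p.1.1) // 2 * b * c ∣ p.1.2}) →
          {x : Gn b c κ₀ // gsz x = k + 1 ∧ gdg x = J} := fun y =>
      ⟨⟨k, y.1.1.1, y.2.1, y.1.1.2 / (2 * b * c)⟩, rfl, by
        have h1 := (Finset.HasAntidiagonal.mem_antidiagonal).mp y.1.2
        have h2 : 2 * b * c * (y.1.1.2 / (2 * b * c)) = y.1.1.2 := Nat.mul_div_cancel' y.2.2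
        show ((y.1.1.1 : ℕ) : ℤ) + 2 * b * c * ((y.1.1.2 / (2 * b * c) : ℕ) : ℤ) - A = J
        have h3 : ((2 * b * c * (y.1.1.2 / (2 * b * c)) : ℕ) : ℤ) = y.1.1.2 := by
          exact_mod_cast h2
        rw [Nat.cast_mul, Nat.cast_mul, Nat.cast_mul, Nat.cast_ofNat] at h3
        rw [h3]
        have h4 : ((y.1.1.1 + y.1.1.2 : ℕ) : ℤ) = n := by exact_mod_cast h1
        rw [Nat.cast_add] at h4
        linarith⟩
    have hf : Function.Bijective f := by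
      constructor
      · rintro ⟨⟨⟨p1, p2⟩, hp⟩, ⟨i, hi⟩⟩ ⟨⟨⟨p1', p2'⟩, hp'⟩, ⟨i', hi'⟩⟩ h
        have h1 := congrArg Subtype.val h
        simp only [f, Sigma.mk.injEq, heq_eq_eq, true_and] at h1
        obtain ⟨h2, h3⟩ := h1
        have hp1 := (Finset.HasAntidiagonal.mem_antidiagonal).mp hp
        have hp1' := (Finset.HasAntidiagonal.mem_antidiagonal).mp hp'
        simp only at hp1 hp1'
        subst h2
        obtain rfl : p2 = p2' := by omega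
        have h4 := eq_of_heq h3
        rw [Prod.mk.injEq] at h4
        have h5 : i = i' := h4.1
        subst h5
        rfl
      · rintro ⟨⟨k', j, i, m⟩, h1, h2⟩
        have h1' : k' + 1 = k + 1 := h1
        obtain rfl : k' = k := by omega
        have h2' : (j : ℤ) + 2 * b * c * m - A = J := h2
        have h3 : j + 2 * b * c * m = n := by
          have : ((j + 2 * b * c * m : ℕ) : ℤ) = n := by
            push_cast
            linarith
          exact_mod_cast this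
        refine ⟨⟨⟨(j, 2 * b * c * m), Finset.HasAntidiagonal.mem_antidiagonal.mpr h3⟩,
          ⟨i, Dvd.intro _ rfl⟩⟩, ?_⟩
        refine Subtype.ext ?_
        simp only [f]
        rw [Nat.mul_div_cancel_left m hbc]
    rw [← Nat.card_congr (Equiv.ofBijective f hf), Nat.card_sigma,
      ← Finset.sum_coe_sort (Finset.HasAntidiagonal.antidiagonal n)]
    refine Finset.sum_congr rfl fun p _ => ?_
    by_cases hd : 2 * b * c ∣ p.1.2
    · rw [if_pos hd, mul_one]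
      have : Nat.card {i : Fin (bd b c κ₀ (k + 1) p.1.1) // 2 * b * c ∣ p.1.2} =
          Nat.card (Fin (bd b c κ₀ (k + 1) p.1.1)) :=
        Nat.card_congr (Equiv.subtypeUnivEquiv fun _ => hd)
      rw [this, Nat.card_eq_fintype_card, Fintype.card_fin]
    · rw [if_neg hd, mul_zero]
      have : IsEmpty {i : Fin (bd b c κ₀ (k + 1) p.1.1) // 2 * b * c ∣ p.1.2} :=
        ⟨fun i => hd i.2⟩
      rw [Nat.card_of_isEmpty]

/-- lower bound of the degrees -/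
lemma sdg_lower {od : Gn b c κ₀ → Prop} (m : SM od) :
    -((b : ℤ) * c * (ssz gsz m : ℤ) ^ 2 * κ₀.1 * κ₀.2) ≤ sdg gdg m := by
  set K := ssz gsz m with hK
  have h1 : ∀ x ∈ m.1.support, gsz x ≤ K := by
    intro x hx
    have h2 : m.1 x * gsz x ≤ K := by
      rw [hK]
      exact Finset.single_le_sum (f := fun x => m.1 x * gsz x) (fun _ _ => Nat.zero_le _) hx
    exact le_trans (Nat.le_mul_of_pos_left _ (Nat.pos_of_ne_zero (Finsupp.mem_support_iff.mp hx)))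
      h2
  have h3 : ∀ x ∈ m.1.support, (m.1 x : ℤ) * (gsz x : ℤ) * (-((b : ℤ) * c * K * κ₀.1 * κ₀.2)) ≤
      (m.1 x : ℤ) * gdg x := by
    intro x hx
    rw [mul_assoc]
    refine mul_le_mul_of_nonneg_left ?_ (by positivity)
    have h4 : gdg x = x.2.1 + 2 * b * c * x.2.2.2 -
      b * c * (gsz x : ℤ) ^ 2 * κ₀.1 * κ₀.2 := by
      unfold gdg gsz
      push_cast
      ring
    have h5 : (b : ℤ) * c * (gsz x : ℤ) ^ 2 * κ₀.1 * κ₀.2 ≤
        (gsz x : ℤ) * ((b : ℤ) * c * K * κ₀.1 * κ₀.2) := by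
      have h6 : (gsz x : ℤ) ≤ K := by exact_mod_cast h1 x hx
      have h7 : (0 : ℤ) ≤ (gsz x : ℤ) * b * c * κ₀.1 * κ₀.2 := by positivity
      nlinarith [mul_le_mul_of_nonneg_left h6 h7]
    have h8 : (0 : ℤ) ≤ x.2.1 + 2 * b * c * x.2.2.2 := by positivity
    rw [h4]
    linarith
  have h9 := Finset.sum_le_sum h3
  rw [← Finset.sum_mul] at h9
  have h10 : (∑ x ∈ m.1.support, (m.1 x : ℤ) * (gsz x : ℤ)) = K := by
    rw [hK]
    unfold ssz Finsupp.sum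
    push_cast
    rfl
  rw [h10] at h9
  have h11 : sdg gdg m = ∑ x ∈ m.1.support, (m.1 x : ℤ) * gdg x := rfl
  rw [h11]
  calc _ = (K : ℤ) * (-((b : ℤ) * c * K * κ₀.1 * κ₀.2)) := by ring
    _ ≤ _ := h9

/-- the wall series is the generating series of super-multisets of generators -/
lemma MB_eq (hP : P_PBW) (hb : 0 < b) (hc : 0 < c) (hcop : Nat.Coprime κ₀.1 κ₀.2)
    (h1 : 0 < κ₀.1) (h2 : 0 < κ₀.2) :
    MB b c κ₀ = GS (LFin_SM (god (b := b) (c := c) (κ₀ := κ₀)) (sz := gsz) (dg := gdg)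
      (fun _ => Nat.succ_pos _) (gfin hb hc)) := by
  ext K J
  rw [coeff_GS]
  unfold MB hiB
  rw [PowerSeries.coeff_mk]
  simp only
  unfold w
  rw [HahnSeries.coeff_single_mul, one_mul, coeff_ser, sub_neg_eq_add]
  have hA : (b : ℤ) * c * ((K * κ₀.1 : ℕ) : ℤ) * ((K * κ₀.2 : ℕ) : ℤ) =
      b * c * (K : ℤ) ^ 2 * κ₀.1 * κ₀.2 := by
    push_cast
    ring
  rw [hA]
  by_cases hn : J + b * c * (K : ℤ) ^ 2 * κ₀.1 * κ₀.2 < 0
  · rw [if_pos hn, cnt_eq_zero (B := -(b * c * (K : ℤ) ^ 2 * κ₀.1 * κ₀.2))]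
    · rfl
    · intro m hm
      have := sdg_lower m
      rw [hm] at this
      exact this
    · linarith
  · rw [if_neg hn, cnt_eq_smc, hP b c hb hc κ₀ hcop h1 h2, Nat.cast_inj]
    congr 1
    rw [Int.natAbs_of_nonneg (not_lt.mp hn)]
    ring

end

theorem pr_G_POS : G_POS := by
  intro hP hT b c hb hc hbc κ₀ hcop h1 h2
  classical
  set g : ℕ := Nat.gcd (b * κ₀.1) (c * κ₀.2) with hg
  rw [MB_eq hP hb hc hcop h1 h2]
  -- the embeddings of the fibres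
  have hemb : ∀ (k : ℕ) (J : ℤ), Nonempty ({x : Gn b c κ₀ // gsz x = k ∧ gdg x = J} ↪
      {x : Gn b c κ₀ // gsz x = k ∧ gdg x = J + 2 * g * k}) := by
    intro k J
    have hfin : ∀ J' : ℤ, Finite {x : Gn b c κ₀ // gsz x = k ∧ gdg x = J'} := fun J' =>
      ((gfin hb hc k J').subset fun x hx => ⟨hx.1.le, hx.2.le⟩ :
        {x : Gn b c κ₀ | gsz x = k ∧ gdg x = J'}.Finite)
    haveI := hfin J
    haveI := hfin (J + 2 * g * k)
    have hcard : Nat.card {x : Gn b c κ₀ // gsz x = k ∧ gdg x = J} ≤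
        Nat.card {x : Gn b c κ₀ // gsz x = k ∧ gdg x = J + 2 * g * k} := by
      rcases k with _ | k
      · have : IsEmpty {x : Gn b c κ₀ // gsz x = 0 ∧ gdg x = J} :=
          ⟨fun x => by
            have := x.2.1
            unfold gsz at this
            omega⟩
        rw [Nat.card_of_isEmpty]
        exact Nat.zero_le _
      · have h3 := hT b c hb hc hbc κ₀ hcop h1 h2 (k + 1) (Nat.succ_pos k) (J + g * (k + 1))
        have hk : (((k + 1 : ℕ) : ℤ)) = (k : ℤ) + 1 := by push_cast; ring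
        rw [hk, sub_mul, HahnSeries.coeff_sub] at h3
        unfold w at h3
        rw [HahnSeries.coeff_single_mul, HahnSeries.coeff_single_mul, one_mul, one_mul] at h3
        have h4 := card_gen (κ₀ := κ₀) hb hc k (J + g * (k + 1) - -(((k : ℤ) + 1) * g))
        have h5 := card_gen (κ₀ := κ₀) hb hc k (J + g * (k + 1) - (((k : ℤ) + 1) * g))
        unfold w at h4 h5
        rw [h4, h5] at h3
        have e4 : J + g * (k + 1) - -(((k : ℤ) + 1) * g) = J + 2 * g * ((k + 1 : ℕ) : ℤ) := by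
          push_cast
          ring
        have e5 : J + g * (k + 1) - (((k : ℤ) + 1) * g) = J := by ring
        rw [e4, e5] at h3
        have h6 := sub_nonneg.mp h3
        exact_mod_cast h6
    haveI := Fintype.ofFinite {x : Gn b c κ₀ // gsz x = k ∧ gdg x = J}
    haveI := Fintype.ofFinite {x : Gn b c κ₀ // gsz x = k ∧ gdg x = J + 2 * g * k}
    rw [Nat.card_eq_fintype_card, Nat.card_eq_fintype_card] at hcard
    exact Function.Embedding.nonempty_of_card_le hcard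
  obtain ⟨emb, -⟩ : ∃ _ : ∀ (k : ℕ) (J : ℤ), ({x : Gn b c κ₀ // gsz x = k ∧ gdg x = J} ↪
      {x : Gn b c κ₀ // gsz x = k ∧ gdg x = J + 2 * g * k}), True :=
    ⟨fun k J => (hemb k J).some, trivial⟩
  set ι : Gn b c κ₀ → Gn b c κ₀ := fun x => (emb (gsz x) (gdg x) ⟨x, rfl, rfl⟩).1 with hι
  have hι' : ∀ (x : Gn b c κ₀) (k : ℕ) (J : ℤ) (hx : gsz x = k ∧ gdg x = J),
      ι x = (emb k J ⟨x, hx⟩).1 := by
    rintro x k J ⟨rfl, rfl⟩
    rfl
  have hs : ∀ x, gsz (ι x) = gsz x := fun x => (emb (gsz x) (gdg x) ⟨x, rfl, rfl⟩).2.1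
  have hd : ∀ x, gdg (ι x) = gdg x + 2 * g * gsz x := fun x =>
    (emb (gsz x) (gdg x) ⟨x, rfl, rfl⟩).2.2
  refine GS_ratio (fun _ => Nat.succ_pos _) (gfin hb hc) (g : ℤ) ι ?_ hs hd ?_
  · intro x y hxy
    have e1 : gsz y = gsz x := by rw [← hs y, ← hs x, hxy]
    have e2 : gdg y = gdg x := by
      have h3 := hd x
      have h4 := hd y
      rw [hxy] at h3
      rw [h3] at h4
      rw [e1] at h4
      linarith
    have h5 : (emb (gsz x) (gdg x) ⟨x, rfl, rfl⟩) = emb (gsz x) (gdg x) ⟨y, e1, e2⟩ := by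
      refine Subtype.ext ?_
      rw [← hι' y (gsz x) (gdg x) ⟨e1, e2⟩]
      exact hxy
    have h6 := (emb (gsz x) (gdg x)).injective h5
    exact congrArg Subtype.val h6
  · intro x
    have h3 : (ι x).1 = x.1 := by
      have := hs x
      unfold gsz at this
      omega
    unfold god
    rw [h3]

end Pool.Agent.Work.MP_c41774_al.Full

end
end

section

/-!
# Block H, item ACT2: permutations of the two parts
-/

noncomputable section

namespace Pool.Agent.Work.MP_c41774_al.Full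

open Finset MvPolynomial
open Pool.Agent.Work.MP_c41774_al.Wall

theorem HN_ACT2_left {L₁ L₂ : Type} (g₁ : Equiv.Perm L₁) (g₂ : Equiv.Perm L₂) (x : L₁ ⊕ L₂) :
    (Equiv.Perm.sumCongr g₁ g₂ x).isLeft = x.isLeft := by
  rcases x with x | x <;> rfl

theorem HN_ACT2_pr {b c : ℕ} {L₁ L₂ : Type} [Fintype L₁] [DecidableEq L₁] [Fintype L₂]
    [DecidableEq L₂] (g₁ : Equiv.Perm L₁) (g₂ : Equiv.Perm L₂) (w : L₁ ⊕ L₂ → Col b c) :
    rename (Equiv.Perm.sumCongr g₁ g₂)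
        (pr (cut (tw (w ∘ Equiv.Perm.sumCongr g₁ g₂)) tv T0) : MvPolynomial (L₁ ⊕ L₂) ℚ) =
      pr (cut (tw w) tv T0) := by
  unfold pr
  rw [map_prod]
  refine Finset.prod_nbij'
    (fun x => (Equiv.Perm.sumCongr g₁ g₂ x.1, Equiv.Perm.sumCongr g₁ g₂ x.2))
    (fun x => ((Equiv.Perm.sumCongr g₁ g₂).symm x.1, (Equiv.Perm.sumCongr g₁ g₂).symm x.2))
    ?_ ?_ ?_ ?_ ?_
  · rintro ⟨x, y⟩ hx
    simp only [cut, T0, mem_filter, mem_univ, true_and, tw, Function.comp_apply,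
      HN_ACT2_left, tv] at hx ⊢
    exact hx
  · rintro ⟨x, y⟩ hx
    obtain ⟨x, rfl⟩ := (Equiv.Perm.sumCongr g₁ g₂).surjective x
    obtain ⟨y, rfl⟩ := (Equiv.Perm.sumCongr g₁ g₂).surjective y
    simp only [cut, T0, mem_filter, mem_univ, true_and, tw, Function.comp_apply,
      HN_ACT2_left, tv] at hx
    simp only [cut, T0, mem_filter, mem_univ, true_and, tw, Function.comp_apply,
      Equiv.symm_apply_apply, tv]
    exact hx
  · rintro ⟨x, y⟩ _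
    simp only [Equiv.symm_apply_apply]
  · rintro ⟨x, y⟩ _
    simp only [Equiv.apply_symm_apply]
  · rintro ⟨x, y⟩ _
    simp only [map_sub, rename_X]

theorem pr_HN_ACT2 : HN_ACT2 := by
  intro b c L₁ L₂ _ _ _ _ g₁ g₂ F G H
  refine ⟨?_, ?_, ?_⟩
  · funext w
    show rename (Equiv.Perm.sumCongr g₁ g₂) (pr (cut (tw (w ∘ Equiv.Perm.sumCongr g₁ g₂)) tv T0) *
      H (w ∘ Equiv.Perm.sumCongr g₁ g₂)) = pr (cut (tw w) tv T0) *
      rename (Equiv.Perm.sumCongr g₁ g₂) (H (w ∘ Equiv.Perm.sumCongr g₁ g₂))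
    rw [map_mul, HN_ACT2_pr]
  · funext w
    show rename (Equiv.Perm.sumCongr g₁ g₂)
      (rename (Sum.inl : L₁ → L₁ ⊕ L₂) (F ((w ∘ Equiv.Perm.sumCongr g₁ g₂) ∘ Sum.inl)) *
        rename (Sum.inr : L₂ → L₁ ⊕ L₂) (G ((w ∘ Equiv.Perm.sumCongr g₁ g₂) ∘ Sum.inr))) =
      rename (Sum.inl : L₁ → L₁ ⊕ L₂) (rename g₁ (F ((w ∘ Sum.inl) ∘ g₁))) *
        rename (Sum.inr : L₂ → L₁ ⊕ L₂) (rename g₂ (G ((w ∘ Sum.inr) ∘ g₂)))
    rw [map_mul, rename_rename, rename_rename, rename_rename, rename_rename]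
    rfl
  · unfold sg
    rw [Equiv.Perm.sign_sumCongr]
    push_cast
    rfl

end Pool.Agent.Work.MP_c41774_al.Full

end
end

section

/-!
# Item HN_AV2: averages of the factors
-/

noncomputable section

namespace Pool.Agent.Work.MP_c41774_al.Full

open Finset MvPolynomial
open Pool.Agent.Work.MP_c41774_al.Wall

section

variable {b c : ℕ} {L₁ L₂ : Type} [Fintype L₁] [DecidableEq L₁] [Fintype L₂] [DecidableEq L₂]

theorem HN_AV2_sg (g : Equiv.Perm L₁) : sg g * sg g = 1 := by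
  unfold sg
  rw [← Int.cast_mul, ← Units.val_mul, Int.units_mul_self]
  simp

theorem HN_AV2_act_add (g : Equiv.Perm L₁) (F G : Fm b c L₁) :
    act g (F + G) = act g F + act g G := by
  funext w
  simp [act]

theorem HN_AV2_act_smul (g : Equiv.Perm L₁) (r : ℚ) (F : Fm b c L₁) :
    act g (r • F) = r • act g F := by
  funext w
  simp [act]

theorem HN_AV2_act_one (F : Fm b c L₁) : act (1 : Equiv.Perm L₁) F = F := by
  funext w
  show rename (id : L₁ → L₁) (F (w ∘ id)) = F w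
  rw [rename_id_apply]
  rfl

theorem HN_AV2_Av_add (F G : Fm b c L₁) : Av (F + G) = Av F + Av G := by
  unfold Av
  rw [← smul_add, ← Finset.sum_add_distrib]
  congr 1
  refine Finset.sum_congr rfl fun g _ => ?_
  rw [HN_AV2_act_add, smul_add]

theorem HN_AV2_Av_smul (r : ℚ) (F : Fm b c L₁) : Av (r • F) = r • Av F := by
  unfold Av
  have : ∀ g : Equiv.Perm L₁, sg g • act g (r • F) = r • (sg g • act g F) := by
    intro g
    rw [HN_AV2_act_smul, smul_smul, smul_smul, mul_comm]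
  rw [Finset.sum_congr rfl fun g _ => this g, ← Finset.smul_sum, smul_smul, smul_smul, mul_comm]

/-- the bilinear map `F, G ↦ Av (ph (ox F G))` -/
def HN_AV2_B : Fm b c L₁ →ₗ[ℚ] Fm b c L₂ →ₗ[ℚ] Fm b c (L₁ ⊕ L₂) :=
  LinearMap.mk₂ ℚ (fun F G => Av (ph (ox F G)))
    (fun F F' G => by
      rw [← HN_AV2_Av_add]
      congr 1
      funext w
      simp only [ph, ox, Pi.add_apply, map_add]
      ring)
    (fun r F G => by
      rw [← HN_AV2_Av_smul]
      congr 1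
      funext w
      simp only [ph, ox, Pi.smul_apply, map_smul, smul_mul_assoc, mul_smul_comm])
    (fun F G G' => by
      rw [← HN_AV2_Av_add]
      congr 1
      funext w
      simp only [ph, ox, Pi.add_apply, map_add]
      ring)
    (fun r F G => by
      rw [← HN_AV2_Av_smul]
      congr 1
      funext w
      simp only [ph, ox, Pi.smul_apply, map_smul, mul_smul_comm])

theorem HN_AV2_B_apply (F : Fm b c L₁) (G : Fm b c L₂) :
    HN_AV2_B F G = Av (ph (ox F G)) := rfl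

theorem HN_AV2_key (h1 : HN_ACT2) (h2 : C_AV) (g₁ : Equiv.Perm L₁) (g₂ : Equiv.Perm L₂)
    (F : Fm b c L₁) (G : Fm b c L₂) :
    HN_AV2_B (act g₁ F) (act g₂ G) = (sg g₁ * sg g₂) • HN_AV2_B F G := by
  obtain ⟨e1, e2, e3⟩ := h1 b c L₁ L₂ g₁ g₂ F G (ox F G)
  rw [HN_AV2_B_apply, HN_AV2_B_apply, ← e2, ← e1,
    (h2 b c (L₁ ⊕ L₂) (ph (ox F G)) (0, 0) 0).2.1, e3]

end

theorem pr_HN_AV2 (h1 : HN_ACT2) (h2 : C_AV) : HN_AV2 := by
  intro b c L₁ L₂ _ _ _ _ F G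
  rw [← HN_AV2_B_apply, ← HN_AV2_B_apply]
  have s1 : ∀ G' : Fm b c L₂, HN_AV2_B (Av F) G' = HN_AV2_B F G' := by
    intro G'
    have : ∀ g : Equiv.Perm L₁, HN_AV2_B (act g F) G' = sg g • HN_AV2_B F G' := by
      intro g
      have := HN_AV2_key h1 h2 g (1 : Equiv.Perm L₂) F G'
      rw [HN_AV2_act_one] at this
      rw [this]
      congr 1
      simp [sg]
    show HN_AV2_B ((Fintype.card (Equiv.Perm L₁) : ℚ)⁻¹ • ∑ g : Equiv.Perm L₁, sg g • act g F) G' = _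
    rw [map_smul, map_sum, LinearMap.smul_apply, LinearMap.sum_apply]
    have e : ∀ g : Equiv.Perm L₁, (HN_AV2_B (sg g • act g F)) G' = HN_AV2_B F G' := by
      intro g
      rw [map_smul, LinearMap.smul_apply, this, smul_smul, HN_AV2_sg, one_smul]
    rw [Finset.sum_congr rfl fun g _ => e g, Finset.sum_const, Finset.card_univ,
      ← Nat.cast_smul_eq_nsmul ℚ, smul_smul, inv_mul_cancel₀, one_smul]
    exact_mod_cast Fintype.card_ne_zero
  have s2 : ∀ F' : Fm b c L₁, HN_AV2_B F' (Av G) = HN_AV2_B F' G := by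
    intro F'
    have : ∀ g : Equiv.Perm L₂, HN_AV2_B F' (act g G) = sg g • HN_AV2_B F' G := by
      intro g
      have := HN_AV2_key h1 h2 (1 : Equiv.Perm L₁) g F' G
      rw [HN_AV2_act_one] at this
      rw [this]
      congr 1
      simp [sg]
    show HN_AV2_B F' ((Fintype.card (Equiv.Perm L₂) : ℚ)⁻¹ • ∑ g : Equiv.Perm L₂, sg g • act g G) = _
    rw [map_smul, map_sum]
    have e : ∀ g : Equiv.Perm L₂, (HN_AV2_B F') (sg g • act g G) = HN_AV2_B F' G := by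
      intro g
      rw [map_smul, this, smul_smul, HN_AV2_sg, one_smul]
    rw [Finset.sum_congr rfl fun g _ => e g, Finset.sum_const, Finset.card_univ,
      ← Nat.cast_smul_eq_nsmul ℚ, smul_smul, inv_mul_cancel₀, one_smul]
    exact_mod_cast Fintype.card_ne_zero
  rw [s1, s2]

end Pool.Agent.Work.MP_c41774_al.Full

end
end

section

/-!
# Item HN_AVG
-/

noncomputable section

namespace Pool.Agent.Work.MP_c41774_al.Full

open Finset MvPolynomial
open Pool.Agent.Work.MP_c41774_al.Wall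

section

set_option linter.unusedSectionVars false

variable {L₁ L₂ : Type} [Fintype L₁] [DecidableEq L₁] [Fintype L₂] [DecidableEq L₂]

lemma HN_AVG_sg_sq {L : Type} [Fintype L] [DecidableEq L] (g : Equiv.Perm L) :
    sg g * sg g = 1 := by
  unfold sg
  rcases Int.units_eq_one_or (Equiv.Perm.sign g) with h | h <;> rw [h] <;> norm_num

lemma HN_AVG_mem_T0 (x : L₁ ⊕ L₂) : x ∈ (T0 : Finset (L₁ ⊕ L₂)) ↔ x.isLeft = true := by
  simp [T0]

lemma HN_AVG_map_eq (g : Equiv.Perm (L₁ ⊕ L₂)) :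
    (T0 : Finset (L₁ ⊕ L₂)).map g.toEmbedding = T0 ↔
      ∃ p : Equiv.Perm L₁ × Equiv.Perm L₂, Equiv.Perm.sumCongr p.1 p.2 = g := by
  constructor
  · intro h
    have hm : Set.MapsTo g (Set.range (Sum.inl : L₁ → L₁ ⊕ L₂)) (Set.range Sum.inl) := by
      rintro _ ⟨x, rfl⟩
      have h1 : g (Sum.inl x) ∈ (T0 : Finset (L₁ ⊕ L₂)).map g.toEmbedding :=
        mem_map_of_mem _ ((HN_AVG_mem_T0 _).mpr rfl)
      rw [h, HN_AVG_mem_T0] at h1
      rcases hg : g (Sum.inl x) with y | y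
      · exact ⟨y, rfl⟩
      · rw [hg] at h1
        simp at h1
    obtain ⟨p, hp⟩ := Equiv.Perm.mem_sumCongrHom_range_of_perm_mapsTo_inl hm
    exact ⟨p, hp⟩
  · rintro ⟨p, rfl⟩
    ext x
    rw [mem_map]
    constructor
    · rintro ⟨y, hy, rfl⟩
      rw [HN_AVG_mem_T0] at hy ⊢
      rcases y with y | y
      · rfl
      · simp at hy
    · intro hx
      rw [HN_AVG_mem_T0] at hx
      rcases x with x | x
      · refine ⟨Sum.inl (p.1.symm x), (HN_AVG_mem_T0 _).mpr rfl, ?_⟩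
        simp
      · simp at hx

lemma HN_AVG_card :
    #((univ : Finset (Equiv.Perm (L₁ ⊕ L₂))).filter fun g =>
      (T0 : Finset (L₁ ⊕ L₂)).map g.toEmbedding = T0) =
      Fintype.card (Equiv.Perm L₁) * Fintype.card (Equiv.Perm L₂) := by
  have h : ((univ : Finset (Equiv.Perm (L₁ ⊕ L₂))).filter fun g =>
      (T0 : Finset (L₁ ⊕ L₂)).map g.toEmbedding = T0) =
      (univ : Finset (Equiv.Perm L₁ × Equiv.Perm L₂)).image
        (Equiv.Perm.sumCongrHom L₁ L₂) := by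
    ext g
    rw [mem_filter, HN_AVG_map_eq, mem_image]
    constructor
    · rintro ⟨_, p, hp⟩
      exact ⟨p, mem_univ _, hp⟩
    · rintro ⟨p, _, hp⟩
      exact ⟨mem_univ _, p, hp⟩
  rw [h, Finset.card_image_of_injective _ Equiv.Perm.sumCongrHom_injective, Finset.card_univ,
    Fintype.card_prod]

lemma HN_AVG_ox_smul {b c : ℕ} (r s : ℚ) (F : Fm b c L₁) (G : Fm b c L₂) :
    ph (ox (r • F) (s • G)) = (r * s) • ph (ox F G) := by
  funext w
  simp only [ph, ox, Pi.smul_apply, map_smul, smul_mul_assoc, mul_smul_comm, smul_smul]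
  rw [mul_comm s r]

end

theorem pr_HN_AVG (h1 : HN_ACT2) (h2 : HN_DIV2) (h3 : HN_CHG) (h4 : HN_TR) : HN_AVG := by
  intro b c L₁ L₂ _ _ _ _ κ₀ κ' F G hF hG hFc hθ w hw
  have hcard : (Fintype.card (Equiv.Perm (L₁ ⊕ L₂)) : ℚ) ≠ 0 := by
    exact_mod_cast Fintype.card_ne_zero
  have e1 : (Fintype.card (Equiv.Perm (L₁ ⊕ L₂)) : ℚ) • Av (ph (ox F G)) w =
      ∑ g : Equiv.Perm (L₁ ⊕ L₂), sg g • act g (ph (ox F G)) w := by
    simp only [Av, Pi.smul_apply, Finset.sum_apply]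
    rw [smul_smul, mul_inv_cancel₀ hcard, one_smul]
  have hth : ∀ v : L₁ ⊕ L₂ → Col b c, chg (v ∘ Sum.inl) = κ' → th κ₀ (tw v) T0 = 0 := by
    intro v hv
    rw [(h3 b c L₁ L₂ κ₀ κ' v).2.2.2.1, hv]
    have h : (κ₀.2 : ℤ) * κ'.1 = κ₀.1 * κ'.2 := by exact_mod_cast hθ
    linarith
  rw [e1, ← Finset.sum_filter_add_sum_filter_not univ
    (fun g : Equiv.Perm (L₁ ⊕ L₂) => (T0 : Finset (L₁ ⊕ L₂)).map g.toEmbedding = T0)]
  have e2 : ∑ g ∈ (univ : Finset (Equiv.Perm (L₁ ⊕ L₂))).filter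
      (fun g => (T0 : Finset (L₁ ⊕ L₂)).map g.toEmbedding = T0),
        sg g • act g (ph (ox F G)) w =
      ((Fintype.card (Equiv.Perm L₁) : ℚ) * (Fintype.card (Equiv.Perm L₂) : ℚ)) •
          ph (ox F G) w := by
    rw [Finset.sum_congr rfl (g := fun _ => ph (ox F G) w), Finset.sum_const, HN_AVG_card,
      ← Nat.cast_smul_eq_nsmul ℚ, Nat.cast_mul]
    intro g hg
    obtain ⟨p, rfl⟩ := (HN_AVG_map_eq g).mp (mem_filter.mp hg).2
    obtain ⟨e3, e4, e5⟩ := h1 b c L₁ L₂ p.1 p.2 F G (ox F G)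
    rw [e3, e4, e5, hF, hG, HN_AVG_ox_smul, Pi.smul_apply, smul_smul]
    have e6 : sg p.1 * sg p.2 * (sg p.1 * sg p.2) = 1 := by
      rw [mul_mul_mul_comm, HN_AVG_sg_sq, HN_AVG_sg_sq, mul_one]
    rw [e6, one_smul]
  rw [e2, add_sub_cancel_left]
  refine Ideal.sum_mem _ fun g hg => ?_
  have hne := (mem_filter.mp hg).2
  refine Submodule.smul_of_tower_mem _ (sg g) ?_
  change rename g (pr (cut (tw (w ∘ g)) tv T0) * ox F G (w ∘ g)) ∈ _
  by_cases hc : chg ((w ∘ g) ∘ Sum.inl) = κ'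
  · rw [map_mul]
    refine Ideal.mul_mem_right _ _ ?_
    obtain ⟨e3, e4⟩ := h4 (L₁ ⊕ L₂) (L₁ ⊕ L₂) g κ₀ (tw w) T0
    have e5 : rename g (pr (cut (tw (w ∘ g)) tv T0) : MvPolynomial (L₁ ⊕ L₂) ℚ) =
        pr (cut (tw w) tv (T0.map g.toEmbedding)) := e3
    rw [e5]
    refine (h2 L₁ L₂ κ₀ (tw w) (hth w hw)).2 _ hne ?_ ?_
    · rw [← e4]
      exact hth (w ∘ g) hc
    · rw [card_map, (h3 b c L₁ L₂ κ₀ κ' w).2.2.1]
  · have e3 : ox F G (w ∘ g) = 0 := by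
      unfold ox
      rw [hFc _ hc, map_zero, zero_mul]
    rw [e3, mul_zero, map_zero]
    exact Ideal.zero_mem _

end Pool.Agent.Work.MP_c41774_al.Full

end
end

section

/-!
# Item HN_CHG: charges of words and theta
-/

noncomputable section

namespace Pool.Agent.Work.MP_c41774_al.Full

open Finset MvPolynomial
open Pool.Agent.Work.MP_c41774_al.Wall

section HN_CHG

variable {L₁ L₂ : Type} [Fintype L₁] [DecidableEq L₁] [Fintype L₂] [DecidableEq L₂]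

theorem HN_CHG_sum (P : L₁ ⊕ L₂ → Bool) (x : Bool) :
    #((univ : Finset (L₁ ⊕ L₂)).filter fun l => P l = x) =
      #((univ : Finset L₁).filter fun l => P (Sum.inl l) = x) +
        #((univ : Finset L₂).filter fun l => P (Sum.inr l) = x) := by
  rw [Finset.card_filter, Finset.card_filter, Finset.card_filter, Fintype.sum_sum_type]

theorem HN_CHG_bool (P : L₁ → Bool) :
    #((univ : Finset L₁).filter fun l => P l = true) +
      #((univ : Finset L₁).filter fun l => P l = false) = Fintype.card L₁ := by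
  rw [Finset.card_filter, Finset.card_filter, ← Finset.sum_add_distrib, Fintype.card,
    Finset.card_eq_sum_ones]
  refine Finset.sum_congr rfl fun l _ => ?_
  cases P l <;> rfl

theorem HN_CHG_T0 (P : L₁ ⊕ L₂ → Bool) (x : Bool) :
    #((T0 : Finset (L₁ ⊕ L₂)).filter fun l => P l = x) =
      #((univ : Finset L₁).filter fun l => P (Sum.inl l) = x) := by
  rw [T0, Finset.filter_filter, Finset.card_filter, Finset.card_filter, Fintype.sum_sum_type]
  simp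

theorem HN_CHG_cut (P : L₁ ⊕ L₂ → Bool) :
    #(cut P tv (T0 : Finset (L₁ ⊕ L₂))) =
      #((univ : Finset L₁).filter fun l => P (Sum.inl l) = true) *
        #((univ : Finset L₂).filter fun l => P (Sum.inr l) = false) := by
  rw [← Finset.card_product]
  symm
  refine Finset.card_bij (fun e _ => (Sum.inl e.1, Sum.inr e.2)) ?_ ?_ ?_
  · intro e he
    rw [Finset.mem_product, Finset.mem_filter, Finset.mem_filter] at he
    simp only [cut, T0, Finset.mem_filter, Finset.mem_univ, true_and, Sum.isLeft_inl,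
      Sum.isLeft_inr, he.1.2, he.2.2]
    simp [tv]
  · intro e _ e' _ h
    rw [Prod.mk.injEq] at h
    exact Prod.ext (Sum.inl_injective h.1) (Sum.inr_injective h.2)
  · intro e he
    simp only [cut, T0, Finset.mem_filter, Finset.mem_univ, true_and] at he
    obtain ⟨h1, h2, h3, h4, -⟩ := he
    obtain ⟨e1, e2⟩ := e
    rcases e1 with l₁ | l₂
    · rcases e2 with m₁ | m₂
      · exact absurd rfl h2
      · exact ⟨(l₁, m₂), by
          rw [Finset.mem_product, Finset.mem_filter, Finset.mem_filter]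
          exact ⟨⟨Finset.mem_univ _, h3⟩, ⟨Finset.mem_univ _, h4⟩⟩, rfl⟩
    · exact absurd h1 (by simp)

end HN_CHG

theorem pr_HN_CHG : HN_CHG := by
  intro b c L₁ L₂ _ _ _ _ κ₀ κ' w
  have hchg : chg w = chg (w ∘ Sum.inl) + chg (w ∘ Sum.inr) := by
    refine Prod.ext ?_ ?_
    · exact HN_CHG_sum (tw w) true
    · exact HN_CHG_sum (tw w) false
  have hcard : (chg (w ∘ Sum.inl)).1 + (chg (w ∘ Sum.inl)).2 = Fintype.card L₁ :=
    HN_CHG_bool (tw (w ∘ Sum.inl))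
  have hth : th κ₀ (tw w) T0 =
      (κ₀.2 : ℤ) * (chg (w ∘ Sum.inl)).1 - (κ₀.1 : ℤ) * (chg (w ∘ Sum.inl)).2 := by
    rw [th, nx, ny, HN_CHG_T0, HN_CHG_T0]
    rfl
  refine ⟨hchg, hcard, ?_, hth, HN_CHG_cut (tw w), ?_⟩
  · rw [T0, Finset.card_filter, Fintype.sum_sum_type]
    simp
  · intro hκ h0 hs
    rw [hth]
    unfold Th0 at h0
    have h0' : (κ₀.2 : ℤ) * κ'.1 = (κ₀.1 : ℤ) * κ'.2 := by exact_mod_cast h0
    constructor
    · intro h
      have hsum : ((chg (w ∘ Sum.inl)).1 : ℤ) + (chg (w ∘ Sum.inl)).2 = κ'.1 + κ'.2 := by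
        have : (chg (w ∘ Sum.inl)).1 + (chg (w ∘ Sum.inl)).2 = κ'.1 + κ'.2 := by
          rw [hcard, hs]
        exact_mod_cast this
      have hne : (κ₀.1 : ℤ) + κ₀.2 ≠ 0 := by
        intro h'
        apply hκ
        have h1 : (0 : ℤ) ≤ κ₀.1 := by positivity
        have h2 : (0 : ℤ) ≤ κ₀.2 := by positivity
        have h3 : κ₀.1 = 0 := by omega
        have h4 : κ₀.2 = 0 := by omega
        exact Prod.ext h3 h4
      have h5 : ((κ₀.1 : ℤ) + κ₀.2) * ((chg (w ∘ Sum.inl)).1 - κ'.1) = 0 := by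
        linear_combination h - h0' + (κ₀.1 : ℤ) * hsum
      have h6 : ((chg (w ∘ Sum.inl)).1 : ℤ) - κ'.1 = 0 := by
        rcases mul_eq_zero.1 h5 with h | h
        · exact absurd h hne
        · exact h
      refine Prod.ext ?_ ?_
      · omega
      · omega
    · intro h
      rw [h, h0', sub_self]

end Pool.Agent.Work.MP_c41774_al.Full

end
end

section

/-!
# Block H, item HN_CON: contraction with a functional
-/

noncomputable section

namespace Pool.Agent.Work.MP_c41774_al.Full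

open Finset MvPolynomial
open Pool.Agent.Work.MP_c41774_al.Wall

/-- the left part of an exponent -/
def HN_CON_l {L₁ L₂ : Type} (m : (L₁ ⊕ L₂) →₀ ℕ) : L₁ →₀ ℕ :=
  m.comapDomain Sum.inl Sum.inl_injective.injOn

/-- the right part of an exponent -/
def HN_CON_r {L₁ L₂ : Type} (m : (L₁ ⊕ L₂) →₀ ℕ) : L₂ →₀ ℕ :=
  m.comapDomain Sum.inr Sum.inr_injective.injOn

theorem HN_CON_l_eq {L₁ L₂ : Type} (u : L₁ →₀ ℕ) (v : L₂ →₀ ℕ) :
    HN_CON_l (u.mapDomain (Sum.inl : L₁ → L₁ ⊕ L₂) + v.mapDomain Sum.inr) = u := by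
  ext i
  rw [HN_CON_l, Finsupp.comapDomain_apply, Finsupp.add_apply,
    Finsupp.mapDomain_apply Sum.inl_injective,
    Finsupp.mapDomain_of_notMem_range _ _ (by rintro ⟨x, hx⟩; cases hx), add_zero]

theorem HN_CON_r_eq {L₁ L₂ : Type} (u : L₁ →₀ ℕ) (v : L₂ →₀ ℕ) :
    HN_CON_r (u.mapDomain (Sum.inl : L₁ → L₁ ⊕ L₂) + v.mapDomain Sum.inr) = v := by
  ext i
  rw [HN_CON_r, Finsupp.comapDomain_apply, Finsupp.add_apply,
    Finsupp.mapDomain_apply Sum.inr_injective,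
    Finsupp.mapDomain_of_notMem_range _ _ (by rintro ⟨x, hx⟩; cases hx), zero_add]

/-- the contraction -/
def HN_CON_C {L₁ L₂ : Type} (lam : MvPolynomial L₂ ℚ →ₗ[ℚ] ℚ) :
    MvPolynomial (L₁ ⊕ L₂) ℚ →ₗ[ℚ] MvPolynomial L₁ ℚ :=
  (basisMonomials (L₁ ⊕ L₂) ℚ).constr ℚ fun m =>
    lam (monomial (HN_CON_r m) 1) • monomial (HN_CON_l m) (1 : ℚ)

theorem HN_CON_mon {L₁ L₂ : Type} (lam : MvPolynomial L₂ ℚ →ₗ[ℚ] ℚ) (m : (L₁ ⊕ L₂) →₀ ℕ)
    (r : ℚ) : HN_CON_C lam (monomial m r) =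
      r • (lam (monomial (HN_CON_r m) 1) • monomial (HN_CON_l m) (1 : ℚ)) := by
  have h1 : (monomial m r : MvPolynomial (L₁ ⊕ L₂) ℚ) =
      r • (basisMonomials (L₁ ⊕ L₂) ℚ) m := by
    rw [coe_basisMonomials, smul_monomial, smul_eq_mul, mul_one]
  rw [h1, map_smul, HN_CON_C, Module.Basis.constr_basis]

theorem pr_HN_CON : HN_CON := by
  intro L₁ L₂ lam
  refine ⟨HN_CON_C lam, fun f g => ?_⟩
  induction f using MvPolynomial.induction_on' with
  | add p q hp hq => rw [map_add, add_mul, map_add, hp, hq, smul_add]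
  | monomial u a =>
    induction g using MvPolynomial.induction_on' with
    | add p q hp hq => rw [map_add, mul_add, map_add, hp, hq, map_add, add_smul]
    | monomial v r =>
      rw [rename_monomial, rename_monomial, monomial_mul, HN_CON_mon, HN_CON_l_eq, HN_CON_r_eq]
      have h1 : (monomial v r : MvPolynomial L₂ ℚ) = r • monomial v 1 := by
        rw [smul_monomial, smul_eq_mul, mul_one]
      have h2 : (monomial u a : MvPolynomial L₁ ℚ) = a • monomial u 1 := by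
        rw [smul_monomial, smul_eq_mul, mul_one]
      rw [h1, h2, map_smul, smul_smul, smul_smul]
      congr 1
      rw [smul_eq_mul]
      ring

end Pool.Agent.Work.MP_c41774_al.Full

end
end

section

/-!
# Block H, item HN_COUNT: the numerical form of the crossing formula (helper39)
-/

noncomputable section

namespace Pool.Agent.Work.MP_c41774_al.Full

open Finset MvPolynomial
open Pool.Agent.Work.MP_c41774_al.Wall

lemma HN_COUNT_inj {κ₀ : ℕ × ℕ} (h0 : κ₀ ≠ 0) {x y : ℕ × ℕ} (hx : Th0 κ₀ x) (hy : Th0 κ₀ y)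
    (hxy : x.1 + x.2 = y.1 + y.2) : x = y := by
  unfold Th0 at hx hy
  have hpos : 0 < κ₀.1 + κ₀.2 := by
    rcases Nat.eq_zero_or_pos (κ₀.1 + κ₀.2) with h | h
    · exfalso
      apply h0
      ext
      · simp only [Prod.fst_zero]; omega
      · simp only [Prod.snd_zero]; omega
    · exact h
  have e1 : (κ₀.1 + κ₀.2) * x.1 = κ₀.1 * (x.1 + x.2) := by rw [add_mul, hx, mul_add]
  have e2 : (κ₀.1 + κ₀.2) * y.1 = κ₀.1 * (y.1 + y.2) := by rw [add_mul, hy, mul_add]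
  have e3 : x.1 = y.1 := by
    apply Nat.eq_of_mul_eq_mul_left hpos
    rw [e1, e2, hxy]
  ext
  · exact e3
  · omega

theorem pr_HN_COUNT (h1 : HN_TEL) (h2 : HN_ZERO) (h3 : HN_DREL) (h4 : HN_GR) : HN_COUNT := by
  intro b c hb hc κ₀ κ hκ₀ J
  set P : ℕ → ℕ := fun n => dimQ (VV b c (Fin (κ.1 + κ.2)) κ J ⊓ vin (JfS _ κ₀ n))
    (vin (JfS _ κ₀ (n + 1))) with hP
  have e1 : hp b c κ₀ κ J = ∑ n ∈ range (κ.1 + κ.2 + 1), P n := by
    have := h1 b c hb hc (Fin (κ.1 + κ.2)) κ₀ κ J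
    rw [Fintype.card_fin] at this
    exact this
  have e2 : ∀ κ' ∈ (Finset.Iic κ).filter (Th0 κ₀),
      ∑ x ∈ Jp b c κ' (κ - κ') J, hp b c κ₀ κ' x.1 * h0 b c κ₀ (κ - κ') x.2 =
        P (κ'.1 + κ'.2) := by
    intro κ' hκ'
    rw [mem_filter, mem_Iic] at hκ'
    obtain ⟨hle, hth⟩ := hκ'
    rw [← h4 b c hb hc κ₀ κ' (κ - κ') hκ₀ hth J]
    have hadd : κ' + (κ - κ') = κ := add_tsub_cancel_of_le hle
    have hle1 : κ'.1 ≤ κ.1 := hle.1
    have hle2 : κ'.2 ≤ κ.2 := hle.2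
    rw [hadd]
    refine h3 b c _ _ ?_ κ₀ κ J (κ'.1 + κ'.2)
    rw [Fintype.card_sum, Fintype.card_fin, Fintype.card_fin, Fintype.card_fin]
    have f1 : (κ - κ').1 = κ.1 - κ'.1 := rfl
    have f2 : (κ - κ').2 = κ.2 - κ'.2 := rfl
    rw [f1, f2]
    omega
  rw [e1, sum_congr rfl e2]
  have hinj : Set.InjOn (fun x : ℕ × ℕ => x.1 + x.2)
      ((Finset.Iic κ).filter (Th0 κ₀) : Finset (ℕ × ℕ)) := by
    intro x hx y hy hxy
    rw [mem_coe, mem_filter] at hx hy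
    exact HN_COUNT_inj hκ₀ hx.2 hy.2 hxy
  rw [← sum_image (s := (Finset.Iic κ).filter (Th0 κ₀)) (g := fun x : ℕ × ℕ => x.1 + x.2)
    (f := P) hinj]
  symm
  refine sum_subset ?_ ?_
  · intro n hn
    rw [mem_image] at hn
    obtain ⟨x, hx, rfl⟩ := hn
    rw [mem_filter, mem_Iic] at hx
    have hle1 : x.1 ≤ κ.1 := hx.1.1
    have hle2 : x.2 ≤ κ.2 := hx.1.2
    rw [mem_range]
    omega
  · intro n _ hn
    refine h2 b c _ κ₀ κ J n ?_
    intro κ' hκ' hth heq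
    apply hn
    rw [mem_image]
    exact ⟨κ', mem_filter.2 ⟨mem_Iic.2 hκ', hth⟩, heq⟩

end Pool.Agent.Work.MP_c41774_al.Full

end
end

section

/-!
# HN_CS: recursion for the number of subsets
-/

noncomputable section

namespace Pool.Agent.Work.MP_c41774_al.Full

open Finset MvPolynomial
open Pool.Agent.Work.MP_c41774_al.Wall

/-- shift by one -/
def HN_CS_su : ℕ ↪ ℕ := ⟨Nat.succ, Nat.succ_injective⟩

/-- finite sets from shifted finite sets -/
def HN_CS_f : Finset ℕ ⊕ Finset ℕ → Finset ℕ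
  | Sum.inl B => B.map HN_CS_su
  | Sum.inr B => insert 0 (B.map HN_CS_su)

theorem HN_CS_zero (B : Finset ℕ) : 0 ∉ B.map HN_CS_su := by
  intro h
  rw [Finset.mem_map] at h
  obtain ⟨k, -, hk⟩ := h
  exact Nat.succ_ne_zero k hk

theorem HN_CS_im (A : Finset ℕ) (h : 0 ∉ A) : (A.image Nat.pred).map HN_CS_su = A := by
  ext x
  simp only [Finset.mem_map, Finset.mem_image, HN_CS_su, Function.Embedding.coeFn_mk]
  constructor
  · rintro ⟨y, ⟨a, ha, rfl⟩, rfl⟩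
    have h0 : a ≠ 0 := fun h0 => h (h0 ▸ ha)
    have : Nat.succ (Nat.pred a) = a := Nat.succ_pred_eq_of_ne_zero h0
    rw [this]
    exact ha
  · intro hx
    have h0 : x ≠ 0 := fun h0 => h (h0 ▸ hx)
    exact ⟨Nat.pred x, ⟨x, hx, rfl⟩, Nat.succ_pred_eq_of_ne_zero h0⟩

theorem HN_CS_bij : Function.Bijective HN_CS_f := by
  constructor
  · rintro (B | B) (B' | B') h
    · exact congrArg Sum.inl (Finset.map_injective _ h)
    · exfalso
      apply HN_CS_zero B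
      have h' : B.map HN_CS_su = insert 0 (B'.map HN_CS_su) := h
      rw [h']
      exact Finset.mem_insert_self _ _
    · exfalso
      apply HN_CS_zero B'
      have h' : insert 0 (B.map HN_CS_su) = B'.map HN_CS_su := h
      rw [← h']
      exact Finset.mem_insert_self _ _
    · have h' : insert 0 (B.map HN_CS_su) = insert 0 (B'.map HN_CS_su) := h
      have h2 := congrArg (fun A : Finset ℕ => A.erase 0) h'
      simp only [Finset.erase_insert (HN_CS_zero B), Finset.erase_insert (HN_CS_zero B')] at h2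
      exact congrArg Sum.inr (Finset.map_injective _ h2)
  · intro A
    by_cases h : 0 ∈ A
    · refine ⟨Sum.inr ((A.erase 0).image Nat.pred), ?_⟩
      change insert 0 (((A.erase 0).image Nat.pred).map HN_CS_su) = A
      rw [HN_CS_im _ (Finset.notMem_erase 0 A), Finset.insert_erase h]
    · exact ⟨Sum.inl (A.image Nat.pred), HN_CS_im A h⟩

theorem HN_CS_sum (B : Finset ℕ) :
    ∑ k ∈ B.map HN_CS_su, (2 * k + 1) = ∑ k ∈ B, (2 * k + 1) + 2 * #B := by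
  rw [Finset.sum_map, Finset.card_eq_sum_ones, Finset.mul_sum, ← Finset.sum_add_distrib]
  refine Finset.sum_congr rfl fun k _ => ?_
  simp only [HN_CS_su, Function.Embedding.coeFn_mk, Nat.succ_eq_add_one]
  ring

theorem HN_CS_fin (s : ℕ) (hs : 0 < s) (n j : ℕ) :
    Finite {A : Finset ℕ // #A = n ∧ s * ∑ k ∈ A, (2 * k + 1) = j} := by
  have h : {A : Finset ℕ | #A = n ∧ s * ∑ k ∈ A, (2 * k + 1) = j} ⊆
      ((range (j + 1)).powerset : Set (Finset ℕ)) := by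
    rintro A ⟨-, hA⟩
    rw [Finset.mem_coe, Finset.mem_powerset]
    intro k hk
    rw [Finset.mem_range]
    have h1 : 2 * k + 1 ≤ ∑ k ∈ A, (2 * k + 1) :=
      Finset.single_le_sum (f := fun k => 2 * k + 1) (fun _ _ => Nat.zero_le _) hk
    have h2 : ∑ k ∈ A, (2 * k + 1) ≤ s * ∑ k ∈ A, (2 * k + 1) := Nat.le_mul_of_pos_left _ hs
    omega
  exact Set.Finite.to_subtype ((Finset.finite_toSet _).subset h)

theorem HN_CS_card (s n a j : ℕ) :
    Nat.card {A : Finset ℕ // #A = n ∧ s * ∑ k ∈ A, (2 * k + 1) + a = j} =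
      if a ≤ j then cs s n (j - a) else 0 := by
  split_ifs with h
  · refine Nat.card_congr (Equiv.subtypeEquivRight fun A => ?_)
    constructor
    · rintro ⟨h1, h2⟩
      exact ⟨h1, by omega⟩
    · rintro ⟨h1, h2⟩
      exact ⟨h1, by omega⟩
  · have : IsEmpty {A : Finset ℕ // #A = n ∧ s * ∑ k ∈ A, (2 * k + 1) + a = j} := by
      refine ⟨fun A => h ?_⟩
      have := A.2.2
      omega
    exact Nat.card_of_isEmpty

theorem HN_CS_fin' (s : ℕ) (hs : 0 < s) (n a j : ℕ) :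
    Finite {A : Finset ℕ // #A = n ∧ s * ∑ k ∈ A, (2 * k + 1) + a = j} := by
  have := HN_CS_fin s hs n (j - a)
  refine Finite.of_injective (β := {A : Finset ℕ // #A = n ∧ s * ∑ k ∈ A, (2 * k + 1) = j - a})
    (fun A => ⟨A.1, A.2.1, by have := A.2.2; omega⟩) ?_
  intro A A' h
  have h' : A.1 = A'.1 := by simpa using h
  exact Subtype.ext h'

theorem pr_HN_CS : HN_CS := by
  intro s hs
  constructor
  · intro j
    split_ifs with h
    · subst h
      rw [cs, Nat.card_eq_one_iff_unique]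
      refine ⟨⟨fun A A' => ?_⟩, ⟨⟨∅, by simp, by simp⟩⟩⟩
      apply Subtype.ext
      rw [Finset.card_eq_zero.mp A.2.1, Finset.card_eq_zero.mp A'.2.1]
    · rw [cs]
      have : IsEmpty {A : Finset ℕ // #A = 0 ∧ s * ∑ k ∈ A, (2 * k + 1) = j} := by
        refine ⟨fun A => h ?_⟩
        have h1 := Finset.card_eq_zero.mp A.2.1
        have h2 := A.2.2
        rw [h1] at h2
        simpa using h2.symm
      exact Nat.card_of_isEmpty
  · intro n j
    have e0 : {A : Finset ℕ // #A = n + 1 ∧ s * ∑ k ∈ A, (2 * k + 1) = j} ≃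
        {B : Finset ℕ // #B = n + 1 ∧ s * ∑ k ∈ B, (2 * k + 1) + 2 * s * (n + 1) = j} ⊕
          {B : Finset ℕ // #B = n ∧ s * ∑ k ∈ B, (2 * k + 1) + s * (2 * n + 1) = j} := by
      refine ((Equiv.ofBijective HN_CS_f HN_CS_bij).subtypeEquiv
        (p := fun B => #(HN_CS_f B) = n + 1 ∧ s * ∑ k ∈ HN_CS_f B, (2 * k + 1) = j)
        (fun B => Iff.rfl)).symm.trans ?_
      refine (Equiv.subtypeSum).trans (Equiv.sumCongr (Equiv.subtypeEquivRight fun B => ?_)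
        (Equiv.subtypeEquivRight fun B => ?_))
      · change (#(B.map HN_CS_su) = n + 1 ∧ s * ∑ k ∈ B.map HN_CS_su, (2 * k + 1) = j) ↔ _
        rw [HN_CS_sum, Finset.card_map]
        refine and_congr_right fun h => ?_
        rw [h]
        constructor <;> intro h' <;> linarith
      · change (#(insert 0 (B.map HN_CS_su)) = n + 1 ∧
          s * ∑ k ∈ insert 0 (B.map HN_CS_su), (2 * k + 1) = j) ↔ _
        rw [Finset.card_insert_of_notMem (HN_CS_zero B), Finset.sum_insert (HN_CS_zero B),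
          HN_CS_sum, Finset.card_map, Nat.add_right_cancel_iff]
        refine and_congr_right fun h => ?_
        rw [h]
        constructor <;> intro h' <;> linarith
    have f1 := HN_CS_fin' s hs (n + 1) (2 * s * (n + 1)) j
    have f2 := HN_CS_fin' s hs n (s * (2 * n + 1)) j
    rw [← HN_CS_card, ← HN_CS_card, cs, Nat.card_congr e0, Nat.card_sum]

end Pool.Agent.Work.MP_c41774_al.Full

end
end

section

/-!
# Block H, item HN_DEG
-/

noncomputable section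

namespace Pool.Agent.Work.MP_c41774_al.Full

open Finset MvPolynomial
open Pool.Agent.Work.MP_c41774_al.Wall

theorem HN_DEG_comp (b c : ℕ) (hb : 0 < b) (hc : 0 < c) (L : Type) [Fintype L] [DecidableEq L]
    (κ : ℕ × ℕ) (j : ℕ) (F : Fm b c L) (hF : F ∈ VV b c L κ j) (w : L → Col b c) (n : ℕ) :
    homogeneousComponent n (F w) =
      if 2 * b * c * n + ∑ l, cwt b c (w l) = j then F w else 0 := by
  obtain ⟨-, -, hF3⟩ := hF
  have hpos : 0 < 2 * b * c := by positivity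
  ext m
  rw [coeff_homogeneousComponent]
  by_cases hcn : 2 * b * c * n + ∑ l, cwt b c (w l) = j
  · rw [if_pos hcn]
    by_cases hm : m.degree = n
    · rw [if_pos hm]
    · rw [if_neg hm]
      by_contra h
      have h1 := hF3 w m (mem_support_iff.2 fun h2 => h h2.symm)
      apply hm
      have h2 : 2 * b * c * m.degree = 2 * b * c * n := by omega
      exact Nat.eq_of_mul_eq_mul_left hpos h2
  · rw [if_neg hcn, coeff_zero]
    by_cases hm : m.degree = n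
    · rw [if_pos hm]
      by_contra h
      have h1 := hF3 w m (mem_support_iff.2 h)
      rw [hm] at h1
      exact hcn h1
    · rw [if_neg hm]

theorem pr_HN_DEG : HN_DEG := by
  classical
  intro b c hb hc L _ _ κ I hI N d F hF hind a ha
  funext x
  obtain ⟨j0, i0⟩ := x
  have key : ∑ i, a ⟨j0, i⟩ • F j0 i ∈ vin I := by
    intro w
    by_cases hn : ∃ n, 2 * b * c * n + ∑ l, cwt b c (w l) = j0
    · obtain ⟨n, hn⟩ := hn
      have h1 := hI (tw w) _ n (ha w)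
      have h2 : homogeneousComponent n
          ((∑ x : (Σ j : Fin N, Fin (d j)), a x • F x.1 x.2) w) =
          (∑ i, a ⟨j0, i⟩ • F j0 i) w := by
        rw [Finset.sum_apply, Finset.sum_apply, map_sum, Fintype.sum_sigma,
          Finset.sum_eq_single j0]
        · refine Finset.sum_congr rfl fun i _ => ?_
          rw [Pi.smul_apply, map_smul,
            HN_DEG_comp b c hb hc L κ j0 (F j0 i) (hF j0 i) w n, if_pos hn]
        · intro j _ hj
          refine Finset.sum_eq_zero fun i _ => ?_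
          rw [Pi.smul_apply, map_smul,
            HN_DEG_comp b c hb hc L κ j (F j i) (hF j i) w n, if_neg, smul_zero]
          intro h
          exact hj (Fin.ext (by omega))
        · intro h
          exact absurd (Finset.mem_univ _) h
      rw [h2] at h1
      exact h1
    · have h0 : ∀ i, F j0 i w = 0 := by
        intro i
        by_contra h
        obtain ⟨m, hm⟩ := MvPolynomial.ne_zero_iff.1 h
        exact hn ⟨m.degree, (hF j0 i).2.2 w m (mem_support_iff.2 hm)⟩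
      have h2 : (∑ i, a ⟨j0, i⟩ • F j0 i) w = 0 := by
        rw [Finset.sum_apply]
        exact Finset.sum_eq_zero fun i _ => by rw [Pi.smul_apply, h0 i, smul_zero]
      rw [h2]
      exact Submodule.zero_mem _
  have h3 := hind j0 (fun i => a ⟨j0, i⟩) key
  exact congrFun h3 i0

end Pool.Agent.Work.MP_c41774_al.Full

end
end

section

/-!
# Block H, item HN_DIR: the series in a coprime direction
-/

set_option autoImplicit false

noncomputable section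

namespace Pool.Agent.Work.MP_c41774_al.Full

open Finset MvPolynomial
open Pool.Agent.Work.MP_c41774_al.Wall

theorem HN_DIR_ex {p q x y : ℕ} (h : Nat.Coprime p q) (ht : q * x = p * y) :
    ∃ j, x = j * p ∧ y = j * q := by
  rcases Nat.eq_zero_or_pos p with hp | hp
  · subst hp
    have hq : q = 1 := by simpa using h
    subst hq
    refine ⟨y, ?_, ?_⟩
    · simpa using ht
    · simp
  · have hd : p ∣ x := by
      apply h.dvd_of_dvd_mul_left
      rw [ht]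
      exact dvd_mul_right p y
    obtain ⟨j, rfl⟩ := hd
    refine ⟨j, mul_comm p j, ?_⟩
    have : p * y = p * (j * q) := by
      rw [← ht]
      ring
    exact Nat.eq_of_mul_eq_mul_left hp this

theorem pr_HN_DIR : HN_DIR := by
  intro b c κ₀ hco κ'
  unfold dirf
  have hpos : 0 < κ₀.1 + κ₀.2 := by
    rcases Nat.eq_zero_or_pos (κ₀.1 + κ₀.2) with h | h
    · have h1 : κ₀.1 = 0 := by omega
      have h2 : κ₀.2 = 0 := by omega
      rw [h1, h2] at hco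
      simp at hco
    · exact h
  by_cases ht : Th0 κ₀ κ'
  · rw [if_pos ht]
    obtain ⟨j, hx, hy⟩ := HN_DIR_ex hco ht
    have hk : κ' = (j * κ₀.1, j * κ₀.2) := Prod.ext hx hy
    have hle : j ≤ κ'.1 + κ'.2 := by
      rw [hx, hy, ← Nat.mul_add]
      exact Nat.le_mul_of_pos_right j hpos
    rw [Finset.sum_eq_single j]
    · rw [if_pos hk]
      unfold MB
      rw [PowerSeries.coeff_mk, ← hk]
    · intro i _ hij
      rw [if_neg]
      intro hk'
      apply hij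
      have h1 : i * κ₀.1 = j * κ₀.1 := by
        rw [← hx, hk']
      have h2 : i * κ₀.2 = j * κ₀.2 := by
        rw [← hy, hk']
      have h3 : i * (κ₀.1 + κ₀.2) = j * (κ₀.1 + κ₀.2) := by
        rw [Nat.mul_add, Nat.mul_add, h1, h2]
      exact Nat.eq_of_mul_eq_mul_right hpos h3
    · intro hj
      exact absurd (Finset.mem_range.2 (Nat.lt_succ_of_le hle)) hj
  · rw [if_neg ht]
    apply Finset.sum_eq_zero
    intro i _
    rw [if_neg]
    intro hk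
    apply ht
    unfold Th0
    rw [hk]
    ring

end Pool.Agent.Work.MP_c41774_al.Full

end
end

section

/-!
# Item HN_DIV1: the product of the cut of the left labels with `I⁺(T0) + I⁰(T0ᶜ)`
-/

noncomputable section

namespace Pool.Agent.Work.MP_c41774_al.Full

open Finset MvPolynomial
open Pool.Agent.Work.MP_c41774_al.Wall

section

variable {L M : Type}

/-- the embedding of pairs -/
def HN_DIV1_e2 (e : L ↪ M) : L × L ↪ M × M := e.prodMap e

theorem HN_DIV1_rename (e : L ↪ M) (E : Finset (L × L)) :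
    rename e (pr E : MvPolynomial L ℚ) = pr (E.map (HN_DIV1_e2 e)) := by
  rw [pr, pr, map_prod, Finset.prod_map]
  refine Finset.prod_congr rfl fun x _ => ?_
  rw [map_sub, rename_X, rename_X]
  rfl

theorem HN_DIV1_th_map (e : L ↪ M) (κ₀ : ℕ × ℕ) (τ : M → Bool) (T : Finset L) :
    th κ₀ τ (T.map e) = th κ₀ (τ ∘ e) T := by
  have h1 : nx τ (T.map e) = nx (τ ∘ e) T := by
    rw [nx, nx, Finset.filter_map, Finset.card_map]
    rfl
  have h2 : ny τ (T.map e) = ny (τ ∘ e) T := by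
    rw [ny, ny, Finset.filter_map, Finset.card_map]
    rfl
  rw [th, th, h1, h2]

theorem HN_DIV1_th_union [DecidableEq L] (κ₀ : ℕ × ℕ) (τ : L → Bool) {T T' : Finset L} (h : Disjoint T T') :
    th κ₀ τ (T ∪ T') = th κ₀ τ T + th κ₀ τ T' := by
  have h1 : nx τ (T ∪ T') = nx τ T + nx τ T' := by
    rw [nx, Finset.filter_union, Finset.card_union_of_disjoint (Finset.disjoint_filter_filter h)]
    rfl
  have h2 : ny τ (T ∪ T') = ny τ T + ny τ T' := by
    rw [ny, Finset.filter_union, Finset.card_union_of_disjoint (Finset.disjoint_filter_filter h)]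
    rfl
  rw [th, th, th, h1, h2]
  push_cast
  ring

theorem HN_DIV1_mem [DecidableEq L] {J : Ideal (MvPolynomial L ℚ)} {E E' E'' : Finset (L × L)}
    (hd : Disjoint E' E'') (hs : E ⊆ E' ∪ E'') (hJ : (pr E : MvPolynomial L ℚ) ∈ J) :
    (pr E' * pr E'' : MvPolynomial L ℚ) ∈ J := by
  have h1 : (pr E' * pr E'' : MvPolynomial L ℚ) = pr (E' ∪ E'') := (Finset.prod_union hd).symm
  have h2 : (pr E : MvPolynomial L ℚ) ∣ pr (E' ∪ E'') := Finset.prod_dvd_prod_of_subset _ _ _ hs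
  rw [h1]
  exact J.mem_of_dvd h2 hJ

end

/-- **Item HN_DIV1.** -/
theorem pr_HN_DIV1 : HN_DIV1 := by
  intro L₁ L₂ _ _ _ _ κ₀ τ hth f hf
  have hT0 : ∀ x : L₁ ⊕ L₂, x ∈ (T0 : Finset (L₁ ⊕ L₂)) ↔ x.isLeft = true := fun x => by
    simp [T0]
  let P : MvPolynomial (L₁ ⊕ L₂) ℚ := pr (cut τ tv (T0 : Finset (L₁ ⊕ L₂)))
  have key : KI κ₀ τ ≤ Submodule.comap (LinearMap.mulLeft (MvPolynomial (L₁ ⊕ L₂) ℚ) P)
      (Jf κ₀ τ (Fintype.card L₁ + 1)) := by
    refine sup_le ?_ ?_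
    · rw [Ip, Ideal.map_span]
      refine Submodule.span_le.mpr ?_
      rintro _ ⟨_, ⟨T, hT, rfl⟩, rfl⟩
      change P * rename (Sum.inl : L₁ → L₁ ⊕ L₂) (pr (cut (τ ∘ Sum.inl) tv T)) ∈
        Jf κ₀ τ (Fintype.card L₁ + 1)
      have hren := HN_DIV1_rename (M := L₁ ⊕ L₂) ⟨Sum.inl, Sum.inl_injective⟩
        (cut (τ ∘ Sum.inl) tv T)
      rw [Function.Embedding.coeFn_mk] at hren
      rw [hren]
      refine HN_DIV1_mem (E := cut τ tv (T.map ⟨Sum.inl, Sum.inl_injective⟩)) ?_ ?_ ?_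
      · rw [Finset.disjoint_left]
        rintro ⟨x, y⟩ h1 h2
        rw [Finset.mem_map] at h2
        obtain ⟨⟨k, l⟩, -, h3⟩ := h2
        have h4 : y = Sum.inl l := (congrArg Prod.snd h3).symm
        rw [cut, Finset.mem_filter, hT0, hT0, h4] at h1
        exact h1.2.2.1 rfl
      · rintro ⟨x, y⟩ h
        rw [cut, Finset.mem_filter] at h
        obtain ⟨-, hx, hy, hτx, hτy, -⟩ := h
        rw [Finset.mem_map] at hx
        obtain ⟨k, hk, rfl⟩ := hx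
        rw [Finset.mem_union]
        rcases y with l | l
        · right
          rw [Finset.mem_map]
          refine ⟨(k, l), ?_, rfl⟩
          rw [cut, Finset.mem_filter]
          refine ⟨Finset.mem_univ _, hk, fun hl => hy ?_, hτx, hτy, rfl⟩
          exact Finset.mem_map.mpr ⟨l, hl, rfl⟩
        · left
          rw [cut, Finset.mem_filter, hT0, hT0]
          exact ⟨Finset.mem_univ _, rfl, by simp, hτx, hτy, rfl⟩
      · refine Submodule.mem_sup_left (Ideal.subset_span ⟨_, ?_, rfl⟩)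
        rw [HN_DIV1_th_map]
        exact hT
    · rw [I0, Ideal.map_span]
      refine Submodule.span_le.mpr ?_
      rintro _ ⟨_, ⟨T, hT, hT', rfl⟩, rfl⟩
      change P * rename (Sum.inr : L₂ → L₁ ⊕ L₂) (pr (cut (τ ∘ Sum.inr) tv T)) ∈
        Jf κ₀ τ (Fintype.card L₁ + 1)
      have hren := HN_DIV1_rename (M := L₁ ⊕ L₂) ⟨Sum.inr, Sum.inr_injective⟩
        (cut (τ ∘ Sum.inr) tv T)
      rw [Function.Embedding.coeFn_mk] at hren
      rw [hren]
      have hdis : Disjoint (T0 : Finset (L₁ ⊕ L₂))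
          (T.map ⟨Sum.inr, Sum.inr_injective⟩) := by
        rw [Finset.disjoint_left]
        intro x h1 h2
        rw [Finset.mem_map] at h2
        obtain ⟨k, -, rfl⟩ := h2
        rw [hT0] at h1
        simp at h1
      have hth' : th κ₀ τ (T0 ∪ T.map ⟨Sum.inr, Sum.inr_injective⟩) =
          th κ₀ (τ ∘ Sum.inr) T := by
        rw [HN_DIV1_th_union κ₀ τ hdis, hth, zero_add, HN_DIV1_th_map]
        rfl
      refine HN_DIV1_mem (E := cut τ tv (T0 ∪ T.map ⟨Sum.inr, Sum.inr_injective⟩)) ?_ ?_ ?_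
      · rw [Finset.disjoint_left]
        rintro ⟨x, y⟩ h1 h2
        rw [Finset.mem_map] at h2
        obtain ⟨⟨k, l⟩, -, h3⟩ := h2
        have h4 : x = Sum.inr k := (congrArg Prod.fst h3).symm
        rw [cut, Finset.mem_filter, hT0, hT0, h4] at h1
        simp at h1
      · rintro ⟨x, y⟩ h
        rw [cut, Finset.mem_filter, Finset.mem_union, Finset.mem_union, hT0, hT0] at h
        obtain ⟨-, hx, hy, hτx, hτy, -⟩ := h
        rw [Finset.mem_union]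
        rcases y with l | l
        · exact absurd (Or.inl rfl) hy
        · rcases x with k | k
          · left
            rw [cut, Finset.mem_filter, hT0, hT0]
            exact ⟨Finset.mem_univ _, rfl, by simp, hτx, hτy, rfl⟩
          · right
            rw [Finset.mem_map]
            refine ⟨(k, l), ?_, rfl⟩
            rw [cut, Finset.mem_filter]
            refine ⟨Finset.mem_univ _, ?_, fun hl => hy (Or.inr ?_), hτx, hτy, rfl⟩
            · rcases hx with hx | hx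
              · simp at hx
              · rw [Finset.mem_map] at hx
                obtain ⟨k', hk', h⟩ := hx
                rw [← Sum.inr_injective h]
                exact hk'
            · exact Finset.mem_map.mpr ⟨l, hl, rfl⟩
      · rcases hT'.lt_or_eq with h | h
        · exact Submodule.mem_sup_left (Ideal.subset_span ⟨_, by rw [hth']; exact h, rfl⟩)
        · refine Submodule.mem_sup_right (Ideal.subset_span ⟨_, by rw [hth']; exact h.symm, ?_, rfl⟩)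
          rw [Finset.card_union_of_disjoint hdis, Finset.card_map]
          have h1 : #(T0 : Finset (L₁ ⊕ L₂)) = Fintype.card L₁ := by
            have : (T0 : Finset (L₁ ⊕ L₂)) = univ.map ⟨Sum.inl, Sum.inl_injective⟩ := by
              ext x
              rw [hT0, Finset.mem_map]
              rcases x with k | k
              · simp
              · simp
            rw [this, Finset.card_map, Finset.card_univ]
          have h2 := hT.card_pos
          omega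
  exact key hf

end Pool.Agent.Work.MP_c41774_al.Full

end
end

section

/-!
# HN_DIV2: cuts in the ideal `I⁺(T0) + I⁰(T0ᶜ)`
-/

noncomputable section

namespace Pool.Agent.Work.MP_c41774_al.Full

open Finset MvPolynomial
open Pool.Agent.Work.MP_c41774_al.Wall

section div2

variable {L₁ L₂ : Type} [Fintype L₁] [DecidableEq L₁] [Fintype L₂] [DecidableEq L₂]

/-- the left part of a set of labels -/
private def div2L (T : Finset (L₁ ⊕ L₂)) : Finset L₁ := univ.filter fun a => Sum.inl a ∈ T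

/-- the right part of a set of labels -/
private def div2R (T : Finset (L₁ ⊕ L₂)) : Finset L₂ := univ.filter fun a => Sum.inr a ∈ T

private lemma div2_count (T : Finset (L₁ ⊕ L₂)) (p : L₁ ⊕ L₂ → Prop) [DecidablePred p] :
    #(T.filter p) = #((div2L T).filter fun a => p (Sum.inl a)) +
      #((div2R T).filter fun a => p (Sum.inr a)) := by
  have h : T.filter p = (((div2L T).filter fun a => p (Sum.inl a)).map Function.Embedding.inl) ∪
      (((div2R T).filter fun a => p (Sum.inr a)).map Function.Embedding.inr) := by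
    ext l
    cases l with
    | inl a => simp [div2L]
    | inr a => simp [div2R]
  rw [h, Finset.card_union_of_disjoint, Finset.card_map, Finset.card_map]
  rw [Finset.disjoint_left]
  intro l h1 h2
  simp only [Finset.mem_map, Function.Embedding.inl_apply, Function.Embedding.inr_apply] at h1 h2
  obtain ⟨a, -, rfl⟩ := h1
  obtain ⟨b, -, h⟩ := h2
  simp at h

private lemma div2_th (κ₀ : ℕ × ℕ) (τ : L₁ ⊕ L₂ → Bool) (T : Finset (L₁ ⊕ L₂)) :
    th κ₀ τ T = th κ₀ (τ ∘ Sum.inl) (div2L T) + th κ₀ (τ ∘ Sum.inr) (div2R T) := by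
  unfold th nx ny
  rw [div2_count T (fun l => τ l = true), div2_count T (fun l => τ l = false)]
  simp only [Function.comp]
  push_cast
  ring

private lemma div2_dvd (τ : L₁ ⊕ L₂ → Bool) (T : Finset (L₁ ⊕ L₂)) :
    (∃ g, (pr (cut τ tv T) : MvPolynomial (L₁ ⊕ L₂) ℚ) =
      g * rename (Sum.inl : L₁ → L₁ ⊕ L₂) (pr (cut (τ ∘ Sum.inl) tv (div2L T)))) ∧
    (∃ g, (pr (cut τ tv T) : MvPolynomial (L₁ ⊕ L₂) ℚ) =
      g * rename (Sum.inr : L₂ → L₁ ⊕ L₂) (pr (cut (τ ∘ Sum.inr) tv (div2R T)))) := by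
  constructor
  · have h : (rename (Sum.inl : L₁ → L₁ ⊕ L₂) (pr (cut (τ ∘ Sum.inl) tv (div2L T)))) =
        ∏ e ∈ (cut (τ ∘ Sum.inl) tv (div2L T)).map
          (Function.Embedding.inl.prodMap Function.Embedding.inl),
          (X e.2 - X e.1 : MvPolynomial (L₁ ⊕ L₂) ℚ) := by
      rw [Finset.prod_map]
      unfold pr
      rw [map_prod]
      refine Finset.prod_congr rfl fun e _ => ?_
      simp
    rw [h]
    unfold pr
    have hsub : (cut (τ ∘ Sum.inl) tv (div2L T)).map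
        (Function.Embedding.inl.prodMap Function.Embedding.inl) ⊆ cut τ tv T := by
      intro e he
      simp only [Finset.mem_map, cut, Finset.mem_filter, Finset.mem_univ, true_and, div2L,
        Function.comp] at he ⊢
      obtain ⟨a, ⟨h1, h2, h3, h4, -⟩, rfl⟩ := he
      exact ⟨h1, h2, h3, h4, trivial⟩
    exact ⟨_, (Finset.prod_sdiff hsub).symm⟩
  · have h : (rename (Sum.inr : L₂ → L₁ ⊕ L₂) (pr (cut (τ ∘ Sum.inr) tv (div2R T)))) =
        ∏ e ∈ (cut (τ ∘ Sum.inr) tv (div2R T)).map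
          (Function.Embedding.inr.prodMap Function.Embedding.inr),
          (X e.2 - X e.1 : MvPolynomial (L₁ ⊕ L₂) ℚ) := by
      rw [Finset.prod_map]
      unfold pr
      rw [map_prod]
      refine Finset.prod_congr rfl fun e _ => ?_
      simp
    rw [h]
    unfold pr
    have hsub : (cut (τ ∘ Sum.inr) tv (div2R T)).map
        (Function.Embedding.inr.prodMap Function.Embedding.inr) ⊆ cut τ tv T := by
      intro e he
      simp only [Finset.mem_map, cut, Finset.mem_filter, Finset.mem_univ, true_and, div2R,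
        Function.comp] at he ⊢
      obtain ⟨a, ⟨h1, h2, h3, h4, -⟩, rfl⟩ := he
      exact ⟨h1, h2, h3, h4, trivial⟩
    exact ⟨_, (Finset.prod_sdiff hsub).symm⟩

/-- the left part has positive `θ` -/
private lemma div2_left {κ₀ : ℕ × ℕ} {τ : L₁ ⊕ L₂ → Bool} {T : Finset (L₁ ⊕ L₂)}
    (h : 0 < th κ₀ (τ ∘ Sum.inl) (div2L T)) : pr (cut τ tv T) ∈ KI κ₀ τ := by
  obtain ⟨g, hg⟩ := (div2_dvd τ T).1
  rw [hg]
  unfold KI
  refine Ideal.mul_mem_left _ _ (Ideal.mem_sup_left (Ideal.mem_map_of_mem _ ?_))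
  exact Ideal.subset_span ⟨_, h, rfl⟩

/-- the right part is nonempty and has nonnegative `θ` -/
private lemma div2_right {κ₀ : ℕ × ℕ} {τ : L₁ ⊕ L₂ → Bool} {T : Finset (L₁ ⊕ L₂)}
    (h1 : (div2R T).Nonempty) (h : 0 ≤ th κ₀ (τ ∘ Sum.inr) (div2R T)) :
    pr (cut τ tv T) ∈ KI κ₀ τ := by
  obtain ⟨g, hg⟩ := (div2_dvd τ T).2
  rw [hg]
  unfold KI
  refine Ideal.mul_mem_left _ _ (Ideal.mem_sup_right (Ideal.mem_map_of_mem _ ?_))
  exact Ideal.subset_span ⟨_, h1, h, rfl⟩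

private lemma div2_pos {κ₀ : ℕ × ℕ} {τ : L₁ ⊕ L₂ → Bool} {T : Finset (L₁ ⊕ L₂)}
    (h : 0 < th κ₀ τ T) : pr (cut τ tv T) ∈ KI κ₀ τ := by
  rw [div2_th] at h
  by_cases h1 : 0 < th κ₀ (τ ∘ Sum.inl) (div2L T)
  · exact div2_left h1
  · have h2 : 0 < th κ₀ (τ ∘ Sum.inr) (div2R T) := by omega
    refine div2_right ?_ h2.le
    by_contra h3
    rw [Finset.not_nonempty_iff_eq_empty] at h3
    rw [h3] at h2
    simp [th, nx, ny] at h2

private lemma div2_zero {κ₀ : ℕ × ℕ} {τ : L₁ ⊕ L₂ → Bool} {T : Finset (L₁ ⊕ L₂)}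
    (h : th κ₀ τ T = 0) (h1 : (div2R T).Nonempty) : pr (cut τ tv T) ∈ KI κ₀ τ := by
  rw [div2_th] at h
  by_cases h2 : 0 ≤ th κ₀ (τ ∘ Sum.inr) (div2R T)
  · exact div2_right h1 h2
  · exact div2_left (by omega)

private lemma div2_empty {T : Finset (L₁ ⊕ L₂)} (h : ¬ (div2R T).Nonempty)
    (h1 : Fintype.card L₁ ≤ #T) : T = T0 ∧ #T = Fintype.card L₁ := by
  rw [Finset.not_nonempty_iff_eq_empty] at h
  have hc : #(T0 : Finset (L₁ ⊕ L₂)) = Fintype.card L₁ := by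
    have : (T0 : Finset (L₁ ⊕ L₂)) = univ.map Function.Embedding.inl := by
      ext l
      cases l <;> simp [T0]
    rw [this, Finset.card_map, Finset.card_univ]
  have hs : T ⊆ T0 := by
    intro l hl
    cases l with
    | inl a => simp [T0]
    | inr a =>
      exfalso
      have : a ∈ div2R T := by simp [div2R, hl]
      rw [h] at this
      simp at this
  have := Finset.eq_of_subset_of_card_le hs (by rw [hc]; exact h1)
  exact ⟨this, by rw [this, hc]⟩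

end div2

theorem pr_HN_DIV2 : HN_DIV2 := by
  intro L₁ L₂ _ _ _ _ κ₀ τ _
  constructor
  · unfold Jf
    refine sup_le ?_ ?_
    · unfold Ip
      rw [Ideal.span_le]
      rintro _ ⟨T, hT, rfl⟩
      exact div2_pos hT
    · rw [Ideal.span_le]
      rintro _ ⟨T, hT, hn, rfl⟩
      refine div2_zero hT ?_
      by_contra h
      have := (div2_empty h (by omega)).2
      omega
  · intro T hT hθ hc
    refine div2_zero hθ ?_
    by_contra h
    exact hT (div2_empty h hc).1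

end Pool.Agent.Work.MP_c41774_al.Full

end
end

section

/-!
# Block H, item HN_DREL: relabelling of the graded pieces (helper39)
-/

noncomputable section

namespace Pool.Agent.Work.MP_c41774_al.Full

open Finset MvPolynomial
open Pool.Agent.Work.MP_c41774_al.Wall

lemma HN_DREL_map {E E' : Type*} [AddCommGroup E] [Module ℚ E] [AddCommGroup E'] [Module ℚ E']
    (φ : E ≃ₗ[ℚ] E') (U W : Submodule ℚ E) :
    dimQ U W = dimQ (U.map φ.toLinearMap) (W.map φ.toLinearMap) := by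
  unfold dimQ
  refine LinearEquiv.finrank_eq (Submodule.Quotient.equiv _ _ (φ.submoduleMap U) ?_)
  ext x
  simp only [Submodule.mem_map, Submodule.submoduleOf, Submodule.mem_comap, Submodule.subtype_apply]
  constructor
  · rintro ⟨y, hy, rfl⟩
    exact ⟨y, hy, rfl⟩
  · rintro ⟨y, hy, hyx⟩
    obtain ⟨u, hu, hux⟩ := x.2
    have huy : u = y := φ.injective (by
      change φ u = φ y
      exact hux.trans hyx.symm)
    subst huy
    refine ⟨⟨u, hu⟩, hy, ?_⟩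
    ext
    exact hyx

lemma HN_DREL_dimQ {E E' : Type*} [AddCommGroup E] [Module ℚ E] [AddCommGroup E'] [Module ℚ E']
    (φ : E ≃ₗ[ℚ] E') (U W : Submodule ℚ E) (U' W' : Submodule ℚ E')
    (hU : ∀ x, x ∈ U ↔ φ x ∈ U') (hW : ∀ x, x ∈ W ↔ φ x ∈ W') : dimQ U W = dimQ U' W' := by
  have h1 : U.map φ.toLinearMap = U' := by
    ext x
    constructor
    · rintro ⟨y, hy, rfl⟩
      exact (hU y).1 hy
    · intro hx
      refine ⟨φ.symm x, (hU _).2 ?_, ?_⟩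
      · rw [φ.apply_symm_apply]; exact hx
      · exact φ.apply_symm_apply x
  have h2 : W.map φ.toLinearMap = W' := by
    ext x
    constructor
    · rintro ⟨y, hy, rfl⟩
      exact (hW y).1 hy
    · intro hx
      refine ⟨φ.symm x, (hW _).2 ?_, ?_⟩
      · rw [φ.apply_symm_apply]; exact hx
      · exact φ.apply_symm_apply x
  rw [HN_DREL_map φ, h1, h2]

theorem pr_HN_DREL (h1 : C_REL) (h2 : HN_REL) : HN_DREL := by
  intro b c L L' _ _ _ _ hcard κ₀ κ J n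
  obtain ⟨φ, hφ, _, hVV, _⟩ := h1 b c L L' (Fintype.equivOfCardEq hcard)
  have hvin : ∀ (n : ℕ) (x : Fm b c L), x ∈ (vin (JfS L κ₀ n) : Submodule ℚ (Fm b c L)) ↔
      φ x ∈ (vin (JfS L' κ₀ n) : Submodule ℚ (Fm b c L')) := by
    intro n x
    rw [hφ]
    exact (h2 b c L L' (Fintype.equivOfCardEq hcard) κ₀ n x).1
  refine HN_DREL_dimQ φ _ _ _ _ ?_ (hvin (n + 1))
  intro x
  rw [Submodule.mem_inf, Submodule.mem_inf, hvin n x, ← hVV κ J]
  refine and_congr_left fun _ => ?_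
  constructor
  · intro hx
    exact ⟨x, hx, rfl⟩
  · rintro ⟨y, hy, hyx⟩
    have : y = x := φ.injective hyx
    rw [← this]
    exact hy

end Pool.Agent.Work.MP_c41774_al.Full

end
end

section

/-!
# Item HN_EMP: no labels
-/

noncomputable section

namespace Pool.Agent.Work.MP_c41774_al.Full

open Finset MvPolynomial
open Pool.Agent.Work.MP_c41774_al.Wall

theorem HN_EMP_vin {b c : ℕ} {L : Type} [Fintype L] [DecidableEq L]
    (I : (L → Bool) → Submodule ℚ (MvPolynomial L ℚ)) (hI : ∀ τ, I τ = ⊥) :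
    (vin I : Submodule ℚ (Fm b c L)) = ⊥ := by
  rw [eq_bot_iff]
  intro F hF
  rw [Submodule.mem_bot]
  funext w
  have h : F w ∈ I (tw w) := hF w
  rw [hI, Submodule.mem_bot] at h
  exact h

theorem HN_EMP_dim {b c : ℕ} {L : Type} [Fintype L] [DecidableEq L]
    (U : Submodule ℚ (Fm b c L)) : dimQ U ⊥ = Module.finrank ℚ U := by
  have h : (⊥ : Submodule ℚ (Fm b c L)).submoduleOf U = ⊥ := by
    rw [Submodule.submoduleOf, Submodule.comap_bot, Submodule.ker_subtype]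
  exact (Submodule.quotEquivOfEqBot _ h).finrank_eq

theorem HN_EMP_VV (b c : ℕ) (L : Type) [Fintype L] [DecidableEq L] [IsEmpty L] (j : ℕ) :
    Module.finrank ℚ (VV b c L (0, 0) j) = if j = 0 then 1 else 0 := by
  by_cases hj : j = 0
  · rw [if_pos hj]
    have htop : VV b c L (0, 0) j = ⊤ := by
      rw [eq_top_iff]
      intro F _
      refine ⟨fun g => ?_, fun w hw => ?_, fun w m _ => ?_⟩
      · have hg : g = 1 := Subsingleton.elim _ _
        subst hg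
        funext w
        show rename (1 : Equiv.Perm L) (F (w ∘ (1 : Equiv.Perm L))) = sg (1 : Equiv.Perm L) • F w
        have h1 : w ∘ (1 : Equiv.Perm L) = w := Subsingleton.elim _ _
        have h2 : sg (1 : Equiv.Perm L) = 1 := by rw [sg, map_one]; norm_num
        rw [h1, h2, one_smul]
        have h3 : ((1 : Equiv.Perm L) : L → L) = id := Subsingleton.elim _ _
        rw [h3, rename_id_apply]
      · exact absurd (by
          rw [chg, nx, ny]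
          have h : (univ : Finset L) = ∅ := Finset.univ_eq_empty
          rw [h, Finset.filter_empty, Finset.filter_empty, Finset.card_empty]) hw
      · have hm : m = 0 := Subsingleton.elim _ _
        rw [hm, map_zero, mul_zero, Finset.univ_eq_empty, Finset.sum_empty, hj, add_zero]
    rw [htop, finrank_top]
    have e1 : (Fm b c L) ≃ₗ[ℚ] MvPolynomial L ℚ :=
      LinearEquiv.funUnique (L → Col b c) ℚ (MvPolynomial L ℚ)
    have e2 : MvPolynomial L ℚ ≃ₗ[ℚ] ℚ := (MvPolynomial.isEmptyAlgEquiv ℚ L).toLinearEquiv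
    rw [(e1.trans e2).finrank_eq, Module.finrank_self]
  · rw [if_neg hj]
    have hbot : VV b c L (0, 0) j = ⊥ := by
      rw [eq_bot_iff]
      rintro F ⟨-, -, h3⟩
      rw [Submodule.mem_bot]
      funext w
      by_contra hne
      obtain ⟨m, hm⟩ := MvPolynomial.support_nonempty.mpr hne
      have h4 := h3 w m hm
      have hm0 : m = 0 := Subsingleton.elim _ _
      rw [hm0, map_zero, mul_zero, Finset.univ_eq_empty, Finset.sum_empty] at h4
      exact hj (by omega)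
    rw [hbot, finrank_bot]

theorem HN_EMP_Ip {L : Type} [Fintype L] [DecidableEq L] [IsEmpty L] (κ₀ : ℕ × ℕ)
    (τ : L → Bool) : IpS L κ₀ τ = ⊥ := by
  rw [IpS, Ip]
  have h : {f : MvPolynomial L ℚ | ∃ T : Finset L, 0 < th κ₀ τ T ∧ f = pr (cut τ tv T)} = ∅ := by
    rw [Set.eq_empty_iff_forall_notMem]
    rintro f ⟨T, hT, -⟩
    have hT0 : T = ∅ := Finset.eq_empty_of_isEmpty T
    rw [hT0, th, nx, ny, Finset.filter_empty, Finset.filter_empty, Finset.card_empty] at hT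
    simp at hT
  rw [h, Ideal.span_empty, Submodule.restrictScalars_bot]

theorem HN_EMP_I0 {L : Type} [Fintype L] [DecidableEq L] [IsEmpty L] (κ₀ : ℕ × ℕ)
    (τ : L → Bool) : I0S L κ₀ τ = ⊥ := by
  rw [I0S, I0]
  have h : {f : MvPolynomial L ℚ | ∃ T : Finset L, T.Nonempty ∧ 0 ≤ th κ₀ τ T ∧
      f = pr (cut τ tv T)} = ∅ := by
    rw [Set.eq_empty_iff_forall_notMem]
    rintro f ⟨T, ⟨l, _⟩, -⟩
    exact isEmptyElim l
  rw [h, Ideal.span_empty, Submodule.restrictScalars_bot]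

theorem pr_HN_EMP : HN_EMP := by
  intro b c κ₀ j
  have : IsEmpty (Fin (((0, 0) : ℕ × ℕ).1 + ((0, 0) : ℕ × ℕ).2)) := Fin.isEmpty
  constructor
  · rw [hp, HN_EMP_vin _ (fun τ => HN_EMP_Ip κ₀ τ), HN_EMP_dim, HN_EMP_VV]
  · rw [h0, HN_EMP_vin _ (fun τ => HN_EMP_I0 κ₀ τ), HN_EMP_dim, HN_EMP_VV]

end Pool.Agent.Work.MP_c41774_al.Full

end
end
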