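import Pool.Agent.Work.MP_c41774_al.Bd.B03

/-! Bundle of small proof modules (one section per former module). -/

section

/-!
# `I⁺ = 0` at the two ends
-/

noncomputable section

namespace Pool.Agent.Work.MP_c41774_al.Full

open Finset MvPolynomial
open Pool.Agent.Work.MP_c41774_al.Wall

theorem HN_ENDS_dim {E : Type*} [AddCommGroup E] [Module ℚ E] (U W : Submodule ℚ E)
    (h : ∀ u ∈ U, u ∈ W → u = 0) : dimQ U W = Module.finrank ℚ U := by
  have h0 : W.submoduleOf U = ⊥ := by
    rw [eq_bot_iff]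
    rintro ⟨u, hu⟩ hw
    rw [Submodule.submoduleOf, Submodule.mem_comap] at hw
    have := h u hu hw
    rw [Submodule.mem_bot]
    exact Subtype.ext this
  rw [dimQ]
  exact (Submodule.quotEquivOfEqBot _ h0).finrank_eq

theorem HN_ENDS_Ip {L : Type*} [Fintype L] [DecidableEq L] (κ₀ : ℕ × ℕ) (τ : L → Bool)
    (h : ∀ T : Finset L, th κ₀ τ T ≤ 0) : Ip κ₀ τ tv = ⊥ := by
  rw [Ip, Ideal.span_eq_bot]
  rintro f ⟨T, hT, -⟩
  exact absurd hT (not_lt.2 (h T))

theorem pr_HN_ENDS : HN_ENDS := by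
  intro b c _ _
  refine ⟨fun κ j => HN_ENDS_dim _ _ fun F _ hF => ?_,
    fun n j => HN_ENDS_dim _ _ fun F hF hF' => ?_⟩
  · funext w
    have h1 : F w ∈ Ip (1, 0) (tw w) tv := hF w
    rw [HN_ENDS_Ip (1, 0) (tw w) fun T => by simp [th], Ideal.mem_bot] at h1
    exact h1
  · funext w
    by_cases hw : chg w = (0, n)
    · have h1 : F w ∈ Ip (0, 1) (tw w) tv := hF' w
      have h2 : nx (tw w) univ = 0 := congrArg Prod.fst hw
      have h3 : ∀ T, nx (tw w) T = 0 := by
        intro T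
        have : nx (tw w) T ≤ nx (tw w) univ :=
          Finset.card_le_card (Finset.filter_subset_filter _ (Finset.subset_univ T))
        omega
      rw [HN_ENDS_Ip (0, 1) (tw w) fun T => by simp [th, h3 T], Ideal.mem_bot] at h1
      exact h1
    · exact hF.2.1 w hw

end Pool.Agent.Work.MP_c41774_al.Full

end
end

section

/-!
# HN_EXC: the two walls at the ends in terms of subsets of `ℕ`
-/

noncomputable section

namespace Pool.Agent.Work.MP_c41774_al.Full

open Finset MvPolynomial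
open Pool.Agent.Work.MP_c41774_al.Wall

theorem HN_EXC_card {X : Type*} (f : X → ℕ) (s : ℕ) (emb : ℕ ↪ X)
    (hf : ∀ k, f (emb k) = s * (2 * k + 1)) (n j : ℕ) (P : Finset X → Prop)
    (hP : ∀ A, P A ↔ (∀ x ∈ A, x ∈ Set.range emb) ∧ #A = n ∧ ∑ x ∈ A, f x = j) :
    Nat.card {A : Finset X // P A} = cs s n j := by
  unfold cs
  symm
  have key : ∀ B : Finset ℕ, (#B = n ∧ s * ∑ k ∈ B, (2 * k + 1) = j) ↔ P (B.map emb) := by
    intro B
    rw [hP, Finset.card_map, Finset.sum_map, Finset.mul_sum]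
    have h1 : ∑ x ∈ B, f (emb x) = ∑ i ∈ B, s * (2 * i + 1) :=
      Finset.sum_congr rfl fun k _ => hf k
    rw [h1]
    constructor
    · rintro ⟨h2, h3⟩
      refine ⟨?_, h2, h3⟩
      intro x hx
      obtain ⟨k, _, rfl⟩ := Finset.mem_map.1 hx
      exact ⟨k, rfl⟩
    · rintro ⟨_, h2, h3⟩
      exact ⟨h2, h3⟩
  refine Nat.card_congr (Equiv.ofBijective (fun B => ⟨B.1.map emb, (key B.1).1 B.2⟩) ⟨?_, ?_⟩)
  · intro B B' h
    have h1 : B.1.map emb = B'.1.map emb := congrArg Subtype.val h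
    exact Subtype.ext (Finset.map_injective emb h1)
  · rintro ⟨A, hA⟩
    have hA' := (hP A).1 hA
    classical
    have h1 : (A.preimage emb emb.injective.injOn).map emb = A := by
      ext x
      simp only [Finset.mem_map, Finset.mem_preimage]
      constructor
      · rintro ⟨k, hk, rfl⟩
        exact hk
      · intro hx
        obtain ⟨k, rfl⟩ := hA'.1 x hx
        exact ⟨k, hx, rfl⟩
    refine ⟨⟨A.preimage emb emb.injective.injOn, (key _).2 (by rw [h1]; exact hA)⟩, ?_⟩
    exact Subtype.ext h1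

/-- the enumeration of `Fin c × ℕ` -/
theorem HN_EXC_inj {c : ℕ} {k k' : ℕ}
    (h1 : c - 1 - k % c = c - 1 - k' % c) (h2 : k / c = k' / c) (hc : 0 < c) : k = k' := by
  have a1 := Nat.mod_lt k hc
  have a2 := Nat.mod_lt k' hc
  have h3 : k % c = k' % c := by omega
  rw [← Nat.div_add_mod k c, ← Nat.div_add_mod k' c, h2, h3]

theorem HN_EXC_surj {c : ℕ} (i m : ℕ) (hi : i < c) :
    c - 1 - (c * m + (c - 1 - i)) % c = i ∧ (c * m + (c - 1 - i)) / c = m := by
  have h1 : c - 1 - i < c := by omega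
  have h2 : (c * m + (c - 1 - i)) % c = c - 1 - i := by
    rw [Nat.mul_add_mod, Nat.mod_eq_of_lt h1]
  have h3 : (c * m + (c - 1 - i)) / c = m := by
    rw [Nat.mul_add_div (by omega), Nat.div_eq_of_lt h1, add_zero]
  refine ⟨?_, h3⟩
  rw [h2]
  omega

theorem HN_EXC_val {b c : ℕ} (hc : 0 < c) (k : ℕ) :
    2 * b * c * (k / c) + b * (2 * c - 1 - 2 * (c - 1 - k % c)) = b * (2 * k + 1) := by
  have a1 := Nat.mod_lt k hc
  have h1 : 2 * c - 1 - 2 * (c - 1 - k % c) = 2 * (k % c) + 1 := by omega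
  rw [h1]
  have h2 := Nat.div_add_mod k c
  calc 2 * b * c * (k / c) + b * (2 * (k % c) + 1) = b * (2 * (c * (k / c) + k % c) + 1) := by
        ring
    _ = _ := by rw [h2]

theorem pr_HN_EXC (h1 : HN_FREE) (h2 : HN_ENDS) : HN_EXC := by
  intro b c hb hc n j
  constructor
  · rw [(h2 b c hb hc).1, h1 b c hb hc _ (n, 0) j (by simp)]
    let emb : ℕ ↪ Col b c × ℕ :=
      ⟨fun k => (Sum.inl ⟨c - 1 - k % c, by omega⟩, k / c), by
        intro k k' h
        simp only [Prod.mk.injEq, Sum.inl.injEq, Fin.mk.injEq] at h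
        exact HN_EXC_inj h.1 h.2 hc⟩
    refine HN_EXC_card (fun x : Col b c × ℕ => 2 * b * c * x.2 + cwt b c x.1) b emb ?_ n j _ ?_
    · intro k
      show 2 * b * c * (k / c) + b * (2 * c - 1 - 2 * (c - 1 - k % c)) = _
      exact HN_EXC_val hc k
    · intro A
      unfold PA
      have hr : ∀ x : Col b c × ℕ, x ∈ Set.range emb ↔ x.1.isLeft = true := by
        rintro ⟨x, m⟩
        constructor
        · rintro ⟨k, hk⟩
          rw [← hk]
          rfl
        · intro hx
          rcases x with i | i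
          · refine ⟨c * m + (c - 1 - i), ?_⟩
            have := HN_EXC_surj (i : ℕ) m i.2
            show ((Sum.inl ⟨c - 1 - (c * m + (c - 1 - i)) % c, _⟩, (c * m + (c - 1 - i)) / c) :
              Col b c × ℕ) = _
            ext1
            · show (Sum.inl _ : Col b c) = Sum.inl i
              congr 1
              exact Fin.ext this.1
            · exact this.2
          · simp at hx
      constructor
      · rintro ⟨a1, a2, a3⟩
        have a4 : ∀ x ∈ A, x.1.isLeft = true := by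
          intro x hx
          rw [Finset.card_eq_zero, Finset.filter_eq_empty_iff] at a2
          simpa using a2 hx
        rw [Finset.filter_true_of_mem a4] at a1
        exact ⟨fun x hx => (hr x).2 (a4 x hx), a1, a3⟩
      · rintro ⟨a1, a2, a3⟩
        have a4 : ∀ x ∈ A, x.1.isLeft = true := fun x hx => (hr x).1 (a1 x hx)
        refine ⟨?_, ?_, a3⟩
        · rw [Finset.filter_true_of_mem a4]
          exact a2
        · show #(A.filter fun x => x.1.isLeft = false) = 0
          rw [Finset.card_eq_zero, Finset.filter_eq_empty_iff]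
          intro x hx
          rw [a4 x hx]
          simp
  · rw [(h2 b c hb hc).2, h1 b c hb hc _ (0, n) j (by simp)]
    let emb : ℕ ↪ Col b c × ℕ :=
      ⟨fun k => (Sum.inr ⟨b - 1 - k % b, by omega⟩, k / b), by
        intro k k' h
        simp only [Prod.mk.injEq, Sum.inr.injEq, Fin.mk.injEq] at h
        exact HN_EXC_inj h.1 h.2 hb⟩
    refine HN_EXC_card (fun x : Col b c × ℕ => 2 * b * c * x.2 + cwt b c x.1) c emb ?_ n j _ ?_
    · intro k
      show 2 * b * c * (k / b) + c * (2 * b - 1 - 2 * (b - 1 - k % b)) = _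
      have := HN_EXC_val (b := c) hb k
      rw [← this]
      ring
    · intro A
      unfold PA
      have hr : ∀ x : Col b c × ℕ, x ∈ Set.range emb ↔ x.1.isLeft = false := by
        rintro ⟨x, m⟩
        constructor
        · rintro ⟨k, hk⟩
          rw [← hk]
          rfl
        · intro hx
          rcases x with i | i
          · simp at hx
          · refine ⟨b * m + (b - 1 - i), ?_⟩
            have := HN_EXC_surj (i : ℕ) m i.2
            show ((Sum.inr ⟨b - 1 - (b * m + (b - 1 - i)) % b, _⟩, (b * m + (b - 1 - i)) / b) :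
              Col b c × ℕ) = _
            ext1
            · show (Sum.inr _ : Col b c) = Sum.inr i
              congr 1
              exact Fin.ext this.1
            · exact this.2
      constructor
      · rintro ⟨a1, a2, a3⟩
        have a4 : ∀ x ∈ A, x.1.isLeft = false := by
          intro x hx
          rw [Finset.card_eq_zero, Finset.filter_eq_empty_iff] at a1
          simpa using a1 hx
        rw [Finset.filter_true_of_mem a4] at a2
        exact ⟨fun x hx => (hr x).2 (a4 x hx), a2, a3⟩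
      · rintro ⟨a1, a2, a3⟩
        have a4 : ∀ x ∈ A, x.1.isLeft = false := fun x hx => (hr x).1 (a1 x hx)
        refine ⟨?_, ?_, a3⟩
        · show #(A.filter fun x => x.1.isLeft = true) = 0
          rw [Finset.card_eq_zero, Finset.filter_eq_empty_iff]
          intro x hx
          rw [a4 x hx]
          simp
        · rw [Finset.filter_true_of_mem a4]
          exact a2

end Pool.Agent.Work.MP_c41774_al.Full

end
end

section

/-!
# The dimension of the space of signed invariants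
-/

noncomputable section

namespace Pool.Agent.Work.MP_c41774_al.Full

open Finset MvPolynomial
open Pool.Agent.Work.MP_c41774_al.Wall

theorem pr_HN_FREE (h1 : HN_FREE1) (h2 : HN_FREE2) (h3 : HN_FREE3) : HN_FREE := by
  intro b c hb hc L _ _ κ j hκ
  obtain ⟨e⟩ := h1 b c hb hc L κ j
  obtain ⟨hfin, hcard⟩ := h3 b c hb hc κ j
  rw [e.finrank_eq, h2 L (Col b c × ℕ) (PA b c κ j) (hfin.subset fun A hA => hA.2)]
  refine Nat.card_congr (Equiv.subtypeEquivRight fun A => ?_)
  exact ⟨fun h => h.2, fun h => ⟨by rw [hcard A h, hκ], h⟩⟩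

end Pool.Agent.Work.MP_c41774_al.Full

end
end

section

/-!
# Item HN_FREE1: coefficient functions of signed invariants
-/

noncomputable section

namespace Pool.Agent.Work.MP_c41774_al.Full

open Finset MvPolynomial
open Pool.Agent.Work.MP_c41774_al.Wall

section

variable {b c : ℕ} {L : Type} [Fintype L] [DecidableEq L]

/-- the exponent of a map -/
def HN_FREE1_mu (u : L → Col b c × ℕ) : L →₀ ℕ :=
  Finsupp.equivFunOnFinite.symm fun l => (u l).2

/-- the word of a map -/
def HN_FREE1_wd (u : L → Col b c × ℕ) : L → Col b c := fun l => (u l).1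

/-- the map of a word and an exponent -/
def HN_FREE1_mk (w : L → Col b c) (m : L →₀ ℕ) : L → Col b c × ℕ := fun l => (w l, m l)

theorem HN_FREE1_mu_mk (w : L → Col b c) (m : L →₀ ℕ) : HN_FREE1_mu (HN_FREE1_mk w m) = m := by
  ext l; rfl

theorem HN_FREE1_wd_mk (w : L → Col b c) (m : L →₀ ℕ) : HN_FREE1_wd (HN_FREE1_mk w m) = w := rfl

theorem HN_FREE1_mk_eq (u : L → Col b c × ℕ) :
    HN_FREE1_mk (HN_FREE1_wd u) (HN_FREE1_mu u) = u := rfl

/-- coefficient function -/
def HN_FREE1_cf (F : Fm b c L) (u : L → Col b c × ℕ) : ℚ :=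
  coeff (HN_FREE1_mu u) (F (HN_FREE1_wd u))

theorem HN_FREE1_fin (F : Fm b c L) : (Function.support (HN_FREE1_cf F)).Finite := by
  refine (Set.finite_iUnion fun w : L → Col b c =>
    ((F w).support.finite_toSet.image (HN_FREE1_mk w))).subset ?_
  intro u hu
  rw [Set.mem_iUnion]
  refine ⟨HN_FREE1_wd u, HN_FREE1_mu u, ?_, HN_FREE1_mk_eq u⟩
  rw [Finset.mem_coe, MvPolynomial.mem_support_iff]
  exact hu

/-- the family of a coefficient function -/
def HN_FREE1_inv (φ : (L → Col b c × ℕ) →₀ ℚ) : Fm b c L := fun w =>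
  ∑ u ∈ φ.support, if HN_FREE1_wd u = w then monomial (HN_FREE1_mu u) (φ u) else 0

theorem HN_FREE1_coeff_inv (φ : (L → Col b c × ℕ) →₀ ℚ) (w : L → Col b c) (m : L →₀ ℕ) :
    coeff m (HN_FREE1_inv φ w) = φ (HN_FREE1_mk w m) := by
  rw [HN_FREE1_inv, coeff_sum]
  have h : ∀ u ∈ φ.support, coeff m (if HN_FREE1_wd u = w then
      monomial (HN_FREE1_mu u) (φ u) else 0) = if u = HN_FREE1_mk w m then φ u else 0 := by
    intro u _
    by_cases h1 : HN_FREE1_wd u = w
    · rw [if_pos h1, coeff_monomial]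
      by_cases h2 : HN_FREE1_mu u = m
      · rw [if_pos h2, if_pos]
        rw [← HN_FREE1_mk_eq u, h1, h2]
      · rw [if_neg h2, if_neg]
        intro h3
        exact h2 (by rw [h3, HN_FREE1_mu_mk])
    · rw [if_neg h1, coeff_zero, if_neg]
      intro h3
      exact h1 (by rw [h3, HN_FREE1_wd_mk])
  rw [Finset.sum_congr rfl h, Finset.sum_ite_eq']
  by_cases h4 : HN_FREE1_mk w m ∈ φ.support
  · rw [if_pos h4]
  · rw [if_neg h4, Finsupp.notMem_support_iff.mp h4]

variable (b c L) in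
/-- families and coefficient functions -/
def HN_FREE1_E : Fm b c L ≃ₗ[ℚ] ((L → Col b c × ℕ) →₀ ℚ) where
  toFun F := Finsupp.ofSupportFinite (HN_FREE1_cf F) (HN_FREE1_fin F)
  map_add' F G := by
    ext u
    show HN_FREE1_cf (F + G) u = HN_FREE1_cf F u + HN_FREE1_cf G u
    rw [HN_FREE1_cf, Pi.add_apply, coeff_add]
    rfl
  map_smul' r F := by
    ext u
    show HN_FREE1_cf (r • F) u = r * HN_FREE1_cf F u
    rw [HN_FREE1_cf, Pi.smul_apply, coeff_smul]
    rfl
  invFun := HN_FREE1_inv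
  left_inv F := by
    funext w
    refine MvPolynomial.ext _ _ fun m => ?_
    rw [HN_FREE1_coeff_inv]
    show HN_FREE1_cf F (HN_FREE1_mk w m) = _
    rw [HN_FREE1_cf, HN_FREE1_mu_mk, HN_FREE1_wd_mk]
  right_inv φ := by
    ext u
    show HN_FREE1_cf (HN_FREE1_inv φ) u = φ u
    rw [HN_FREE1_cf, HN_FREE1_coeff_inv, HN_FREE1_mk_eq]

theorem HN_FREE1_E_apply (F : Fm b c L) (u : L → Col b c × ℕ) :
    HN_FREE1_E b c L F u = coeff (HN_FREE1_mu u) (F (HN_FREE1_wd u)) := rfl

theorem HN_FREE1_act (g : Equiv.Perm L) (F : Fm b c L) (u : L → Col b c × ℕ) :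
    coeff (HN_FREE1_mu u) (act g F (HN_FREE1_wd u)) = HN_FREE1_E b c L F (u ∘ g) := by
  rw [HN_FREE1_E_apply, act]
  have h : HN_FREE1_mu u = Finsupp.mapDomain g (HN_FREE1_mu (u ∘ g)) := by
    ext l
    obtain ⟨k, rfl⟩ := g.surjective l
    rw [Finsupp.mapDomain_apply g.injective]
    rfl
  rw [h, coeff_rename_mapDomain _ g.injective]
  rfl

theorem HN_FREE1_sign (F : Fm b c L) :
    (∀ g : Equiv.Perm L, act g F = sg g • F) ↔
      ∀ (g : Equiv.Perm L) u, HN_FREE1_E b c L F (u ∘ g) = sg g * HN_FREE1_E b c L F u := by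
  constructor
  · intro h g u
    rw [← HN_FREE1_act, h g, Pi.smul_apply, coeff_smul]
    rfl
  · intro h g
    funext w
    refine MvPolynomial.ext _ _ fun m => ?_
    have h1 := h g (HN_FREE1_mk w m)
    rw [← HN_FREE1_act, HN_FREE1_E_apply, HN_FREE1_mu_mk, HN_FREE1_wd_mk] at h1
    rw [h1, Pi.smul_apply, coeff_smul]
    rfl

/-- signed functions vanish on maps which are not injective -/
theorem HN_FREE1_inj {X : Type} {φ : (L → X) →₀ ℚ}
    (h : ∀ (g : Equiv.Perm L) u, φ (u ∘ g) = sg g * φ u) {u : L → X} (hu : φ u ≠ 0) :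
    Function.Injective u := by
  intro k l hkl
  by_contra hne
  apply hu
  have h1 := h (Equiv.swap k l) u
  have h2 : u ∘ Equiv.swap k l = u := by
    funext x
    show u (Equiv.swap k l x) = u x
    rcases eq_or_ne x k with rfl | hx
    · rw [Equiv.swap_apply_left, hkl]
    · rcases eq_or_ne x l with rfl | hx'
      · rw [Equiv.swap_apply_right, hkl]
      · rw [Equiv.swap_apply_of_ne_of_ne hx hx']
  rw [h2, sg, Equiv.Perm.sign_swap hne] at h1
  push_cast at h1
  linarith

/-- the counts of an injective map -/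
theorem HN_FREE1_count {u : L → Col b c × ℕ} (hu : Function.Injective u) :
    #((univ.image u).filter fun x => x.1.isLeft = true) = (chg (HN_FREE1_wd u)).1 ∧
      #((univ.image u).filter fun x => x.1.isLeft = false) = (chg (HN_FREE1_wd u)).2 ∧
      ∑ x ∈ univ.image u, (2 * b * c * x.2 + cwt b c x.1) =
        2 * b * c * (HN_FREE1_mu u).degree + ∑ l, cwt b c (HN_FREE1_wd u l) := by
  refine ⟨?_, ?_, ?_⟩
  · rw [Finset.filter_image, Finset.card_image_of_injective _ hu]
    rfl
  · rw [Finset.filter_image, Finset.card_image_of_injective _ hu]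
    rfl
  · rw [Finset.sum_image fun _ _ _ _ h => hu h, Finset.sum_add_distrib]
    congr 1
    rw [← Finset.mul_sum, Finsupp.degree_eq_sum]
    rfl

theorem HN_FREE1_mem (κ : ℕ × ℕ) (j : ℕ) (F : Fm b c L) :
    F ∈ VV b c L κ j ↔ HN_FREE1_E b c L F ∈ SF L (Col b c × ℕ) (PA b c κ j) := by
  constructor
  · rintro ⟨h1, h2, h3⟩
    have h1' := (HN_FREE1_sign F).mp h1
    refine ⟨h1', fun u hu => ?_⟩
    by_contra hne
    apply hu
    obtain ⟨c1, c2, c3⟩ := HN_FREE1_count (HN_FREE1_inj h1' hne)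
    rw [HN_FREE1_E_apply] at hne
    have h4 : chg (HN_FREE1_wd u) = κ := by
      by_contra h5
      rw [h2 _ h5, coeff_zero] at hne
      exact hne rfl
    refine ⟨by rw [c1, h4], by rw [c2, h4], ?_⟩
    rw [c3]
    exact h3 _ _ (MvPolynomial.mem_support_iff.mpr hne)
  · rintro ⟨h1, h2⟩
    refine ⟨(HN_FREE1_sign F).mpr h1, fun w hw => ?_, fun w m hm => ?_⟩
    · refine MvPolynomial.ext _ _ fun m => ?_
      rw [coeff_zero]
      have h3 : HN_FREE1_E b c L F (HN_FREE1_mk w m) = coeff m (F w) := by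
        rw [HN_FREE1_E_apply, HN_FREE1_mu_mk, HN_FREE1_wd_mk]
      rw [← h3]
      by_contra hne
      obtain ⟨c1, c2, c3⟩ := HN_FREE1_count (HN_FREE1_inj h1 hne)
      have h4 : PA b c κ j (univ.image (HN_FREE1_mk w m)) := by
        by_contra h5
        exact hne (h2 _ h5)
      apply hw
      rw [← HN_FREE1_wd_mk w m]
      exact Prod.ext (c1.symm.trans h4.1) (c2.symm.trans h4.2.1)
    · have h3 : HN_FREE1_E b c L F (HN_FREE1_mk w m) = coeff m (F w) := by
        rw [HN_FREE1_E_apply, HN_FREE1_mu_mk, HN_FREE1_wd_mk]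
      have hne : HN_FREE1_E b c L F (HN_FREE1_mk w m) ≠ 0 := by
        rw [h3]
        exact MvPolynomial.mem_support_iff.mp hm
      obtain ⟨c1, c2, c3⟩ := HN_FREE1_count (HN_FREE1_inj h1 hne)
      have h4 : PA b c κ j (univ.image (HN_FREE1_mk w m)) := by
        by_contra h5
        exact hne (h2 _ h5)
      have h5 := c3.symm.trans h4.2.2
      rw [HN_FREE1_mu_mk, HN_FREE1_wd_mk] at h5
      exact h5

end

/-- **Item HN_FREE1.** -/
theorem pr_HN_FREE1 : HN_FREE1 := by
  intro b c _ _ L _ _ κ j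
  refine ⟨(HN_FREE1_E b c L).ofSubmodules _ _ ?_⟩
  ext φ
  rw [Submodule.mem_map]
  constructor
  · rintro ⟨F, hF, rfl⟩
    exact (HN_FREE1_mem κ j F).mp hF
  · intro hφ
    refine ⟨(HN_FREE1_E b c L).symm φ, ?_, (HN_FREE1_E b c L).apply_symm_apply φ⟩
    rw [HN_FREE1_mem, LinearEquiv.apply_symm_apply]
    exact hφ

end Pool.Agent.Work.MP_c41774_al.Full

end
end

section

/-!
# Item HN_FREE2: dimension of the space of signed functions
-/

noncomputable section

namespace Pool.Agent.Work.MP_c41774_al.Full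

open Finset MvPolynomial
open Pool.Agent.Work.MP_c41774_al.Wall

section
variable {L X : Type} [Fintype L] [DecidableEq L] [DecidableEq X]

theorem HN_FREE2_sgmul (g h : Equiv.Perm L) : sg (g * h) = sg g * sg h := by
  simp [sg, Equiv.Perm.sign_mul]

theorem HN_FREE2_sgsq (g : Equiv.Perm L) : sg g * sg g = 1 := by
  unfold sg
  rcases Int.units_eq_one_or (Equiv.Perm.sign g) with h | h <;> simp [h]

theorem HN_FREE2_inj {P : Finset X → Prop} {φ : (L → X) →₀ ℚ} (hφ : φ ∈ SF L X P) {u : L → X}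
    (hu : ¬ Function.Injective u) : φ u = 0 := by
  rw [Function.Injective] at hu
  push Not at hu
  obtain ⟨a, a', h1, h2⟩ := hu
  have h3 := hφ.1 (Equiv.swap a a') u
  have h4 : u ∘ (Equiv.swap a a') = u := by
    funext l
    simp only [Function.comp_apply, Equiv.swap_apply_def]
    split_ifs with h h'
    · rw [h, h1]
    · rw [h', h1]
    · rfl
  rw [h4] at h3
  have h5 : sg (Equiv.swap a a') = -1 := by simp [sg, Equiv.Perm.sign_swap h2]
  rw [h5] at h3
  linarith

/-- the element attached to an injective map -/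
def HN_FREE2_el (u : L → X) : (L → X) →₀ ℚ :=
  ∑ g : Equiv.Perm L, Finsupp.single (u ∘ g) (sg g)

theorem HN_FREE2_el_apply (u v : L → X) : HN_FREE2_el u v =
    ∑ g : Equiv.Perm L, if u ∘ g = v then sg g else 0 := by
  classical
  rw [HN_FREE2_el, Finsupp.finset_sum_apply]
  refine Finset.sum_congr rfl (fun g _ => ?_)
  rw [Finsupp.single_apply]

theorem HN_FREE2_el_mem (P : Finset X → Prop) (u : L → X) (hu : P (univ.image u)) :
    HN_FREE2_el u ∈ SF L X P := by
  refine ⟨fun h v => ?_, fun v hv => ?_⟩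
  · rw [HN_FREE2_el_apply, HN_FREE2_el_apply, Finset.mul_sum]
    refine Fintype.sum_equiv (Equiv.mulRight h⁻¹) _ _ (fun g => ?_)
    have h1 : (u ∘ g = v ∘ h) ↔ (u ∘ ((Equiv.mulRight h⁻¹) g : Equiv.Perm L) = v) := by
      constructor
      · intro e
        funext l
        have := congrFun e (h⁻¹ l)
        simpa using this
      · intro e
        funext l
        have := congrFun e (h l)
        simpa using this
    have h2 : sg h * sg ((Equiv.mulRight h⁻¹) g : Equiv.Perm L) = sg g := by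
      have : ((Equiv.mulRight h⁻¹) g : Equiv.Perm L) = g * h⁻¹ := rfl
      rw [this, ← HN_FREE2_sgmul]
      have h3 : sg (h * (g * h⁻¹)) = sg h * sg g * sg h⁻¹ := by
        rw [HN_FREE2_sgmul, HN_FREE2_sgmul]; ring
      rw [h3]
      have h4 : sg (h⁻¹) = sg h := by simp [sg, Equiv.Perm.sign_inv]
      rw [h4]
      have := HN_FREE2_sgsq h
      linear_combination (sg g) * this
    by_cases he : u ∘ g = v ∘ h
    · rw [if_pos he, if_pos (h1.mp he), h2]
    · rw [if_neg he, if_neg (fun h' => he (h1.mpr h')), mul_zero]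
  · rw [HN_FREE2_el_apply]
    refine Finset.sum_eq_zero (fun g _ => ?_)
    rw [if_neg]
    intro e
    apply hv
    have : univ.image v = univ.image u := by
      rw [← e, ← Finset.image_image]
      congr 1
      exact Finset.image_univ_equiv g
    rw [this]
    exact hu

theorem HN_FREE2_el_self (u : L → X) (hu : Function.Injective u) : HN_FREE2_el u u = 1 := by
  rw [HN_FREE2_el_apply, Finset.sum_eq_single 1]
  · rw [if_pos (by funext l; rfl)]
    simp [sg]
  · intro g _ hg
    rw [if_neg]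
    intro e
    apply hg
    ext l
    exact hu (congrFun e l)
  · intro h
    exact absurd (Finset.mem_univ _) h

theorem HN_FREE2_el_ne (u v : L → X) (huv : univ.image u ≠ univ.image v) :
    HN_FREE2_el u v = 0 := by
  rw [HN_FREE2_el_apply]
  refine Finset.sum_eq_zero (fun g _ => ?_)
  rw [if_neg]
  intro e
  apply huv
  rw [← e, ← Finset.image_image]
  congr 1
  exact (Finset.image_univ_equiv g).symm

theorem HN_FREE2_exists (A : Finset X) (hA : #A = Fintype.card L) :
    ∃ u : L → X, Function.Injective u ∧ univ.image u = A := by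
  have e : L ≃ A := Fintype.equivOfCardEq (by rw [Fintype.card_coe, hA])
  refine ⟨fun l => (e l : X), fun a a' h => e.injective (Subtype.ext h), ?_⟩
  ext x
  rw [Finset.mem_image]
  constructor
  · rintro ⟨l, _, rfl⟩
    exact (e l).2
  · intro hx
    exact ⟨e.symm ⟨x, hx⟩, Finset.mem_univ _, by simp⟩

theorem HN_FREE2_perm (u v : L → X) (hu : Function.Injective u) (hv : Function.Injective v)
    (h : univ.image u = univ.image v) : ∃ g : Equiv.Perm L, u = v ∘ g := by
  have h1 : ∀ l, ∃ l', v l' = u l := by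
    intro l
    have : u l ∈ univ.image v := by rw [← h]; exact Finset.mem_image_of_mem _ (Finset.mem_univ _)
    obtain ⟨l', _, hl'⟩ := Finset.mem_image.mp this
    exact ⟨l', hl'⟩
  choose f hf using h1
  have hinj : Function.Injective f := by
    intro a a' haa
    apply hu
    rw [← hf a, ← hf a', haa]
  refine ⟨Equiv.ofBijective f ((Finite.injective_iff_bijective).mp hinj), ?_⟩
  funext l
  exact (hf l).symm

end

theorem pr_HN_FREE2 : HN_FREE2 := by
  classical
  intro L X _ _ _ P hfin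
  haveI : Fintype {A : Finset X // #A = Fintype.card L ∧ P A} := hfin.fintype
  choose u hu1 hu2 using fun A : {A : Finset X // #A = Fintype.card L ∧ P A} =>
    HN_FREE2_exists (L := L) A.1 A.2.1
  let Ψ : SF L X P →ₗ[ℚ] ({A : Finset X // #A = Fintype.card L ∧ P A} → ℚ) :=
    { toFun := fun φ A => φ.1 (u A)
      map_add' := fun φ ψ => rfl
      map_smul' := fun r φ => rfl }
  have hinj : Function.Injective Ψ := by
    rw [injective_iff_map_eq_zero]
    intro φ hφ
    apply Subtype.ext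
    ext v
    change φ.1 v = 0
    by_cases hv : Function.Injective v
    · by_cases hP : P (univ.image v)
      · have hcard : #(univ.image v) = Fintype.card L := by
          rw [Finset.card_image_of_injective _ hv, Finset.card_univ]
        let A : {A : Finset X // #A = Fintype.card L ∧ P A} := ⟨univ.image v, hcard, hP⟩
        obtain ⟨g, hg⟩ := HN_FREE2_perm v (u A) hv (hu1 A) (hu2 A).symm
        rw [hg, φ.2.1 g (u A)]
        have : φ.1 (u A) = 0 := congrFun hφ A
        rw [this, mul_zero]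
      · exact φ.2.2 v hP
    · exact HN_FREE2_inj φ.2 hv
  have hsurj : Function.Surjective Ψ := by
    intro f
    have hmem : ∀ A, HN_FREE2_el (u A) ∈ SF L X P := fun A =>
      HN_FREE2_el_mem P (u A) (by rw [hu2]; exact A.2.2)
    refine ⟨∑ A, f A • (⟨HN_FREE2_el (u A), hmem A⟩ : SF L X P), ?_⟩
    rw [map_sum]
    funext B
    rw [Finset.sum_apply, Finset.sum_eq_single B]
    · rw [map_smul, Pi.smul_apply]
      change f B • HN_FREE2_el (u B) (u B) = f B
      rw [HN_FREE2_el_self _ (hu1 B), smul_eq_mul, mul_one]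
    · intro A _ hA
      rw [map_smul, Pi.smul_apply]
      change f A • HN_FREE2_el (u A) (u B) = 0
      rw [HN_FREE2_el_ne, smul_zero]
      rw [hu2, hu2]
      exact fun h => hA (Subtype.ext h)
    · intro h
      exact absurd (Finset.mem_univ _) h
  have e := LinearEquiv.ofBijective Ψ ⟨hinj, hsurj⟩
  rw [e.finrank_eq, Module.finrank_fintype_fun_eq_card, Nat.card_eq_fintype_card]

end Pool.Agent.Work.MP_c41774_al.Full

end
end

section

/-!
# Block H, item HN_FREE3
-/

noncomputable section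

namespace Pool.Agent.Work.MP_c41774_al.Full

open Finset MvPolynomial
open Pool.Agent.Work.MP_c41774_al.Wall

theorem pr_HN_FREE3 : HN_FREE3 := by
  classical
  intro b c hb hc κ j
  refine ⟨?_, ?_⟩
  · refine Set.Finite.subset (Finset.finite_toSet
      ((univ : Finset (Col b c)) ×ˢ range (j + 1)).powerset) ?_
    rintro A ⟨-, -, hA⟩
    rw [Finset.mem_coe, Finset.mem_powerset]
    intro x hx
    have h1 : 2 * b * c * x.2 + cwt b c x.1 ≤ j := by
      rw [← hA]
      exact Finset.single_le_sum (f := fun x => 2 * b * c * x.2 + cwt b c x.1)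
        (fun _ _ => Nat.zero_le _) hx
    have hpos : 1 ≤ 2 * b * c := by
      have : 0 < 2 * b * c := by positivity
      omega
    have h2 : x.2 ≤ 2 * b * c * x.2 := Nat.le_mul_of_pos_left _ hpos
    rw [Finset.mem_product, Finset.mem_range]
    exact ⟨Finset.mem_univ _, by omega⟩
  · rintro A ⟨h1, h2, -⟩
    rw [← h1, ← h2]
    have h3 : A.filter (fun x => x.1.isLeft = false) = A.filter (fun x => ¬ x.1.isLeft = true) := by
      refine Finset.filter_congr fun x _ => ?_
      simp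
    rw [h3]
    exact (Finset.card_filter_add_card_filter_not _).symm

end Pool.Agent.Work.MP_c41774_al.Full

end
end

section

/-!
# Item HN_GEN: decomposition of the elements of `J_{#T0}`
-/

noncomputable section

namespace Pool.Agent.Work.MP_c41774_al.Full

open Finset MvPolynomial
open Pool.Agent.Work.MP_c41774_al.Wall

theorem HN_GEN_card {L₁ L₂ : Type} [Fintype L₁] [DecidableEq L₁] [Fintype L₂]
    [DecidableEq L₂] : #(T0 : Finset (L₁ ⊕ L₂)) = Fintype.card L₁ := by
  have : (T0 : Finset (L₁ ⊕ L₂)) = univ.map ⟨Sum.inl, Sum.inl_injective⟩ := by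
    ext x
    cases x <;> simp [T0]
  rw [this, card_map, card_univ]

theorem HN_GEN_perm {L : Type} [Fintype L] [DecidableEq L] (A B : Finset L) (h : #A = #B) :
    ∃ g : Equiv.Perm L, A.map g.toEmbedding = B := by
  refine ⟨(Finset.equivOfCardEq h).extendSubtype, ?_⟩
  refine Finset.eq_of_subset_of_card_le ?_ ?_
  · intro x hx
    rw [mem_map] at hx
    obtain ⟨y, hy, rfl⟩ := hx
    have := Equiv.extendSubtype_mem (Finset.equivOfCardEq h) y hy
    exact this
  · rw [card_map, h]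

theorem HN_GEN_dec {L : Type} [Fintype L] [DecidableEq L] (κ₀ : ℕ × ℕ) (τ : L → Bool) (n : ℕ)
    (f : MvPolynomial L ℚ) (hf : f ∈ Jf κ₀ τ n) : ∃ c : Finset L → MvPolynomial L ℚ,
      f - ∑ T, (if #T = n ∧ th κ₀ τ T = 0 then c T * pr (cut τ tv T) else 0) ∈
        Jf κ₀ τ (n + 1) := by
  classical
  set v : Finset L → MvPolynomial L ℚ := fun T =>
    if #T = n ∧ th κ₀ τ T = 0 then pr (cut τ tv T) else 0 with hv
  have hle : Jf κ₀ τ n ≤ Jf κ₀ τ (n + 1) ⊔ Ideal.span (Set.range v) := by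
    refine sup_le (le_trans le_sup_left le_sup_left) (Ideal.span_le.2 ?_)
    rintro _ ⟨T, hT1, hT2, rfl⟩
    rcases hT2.eq_or_lt with h | h
    · refine Ideal.mem_sup_right (Ideal.subset_span ⟨T, ?_⟩)
      rw [hv]
      simp only
      rw [if_pos ⟨h.symm, hT1⟩]
    · refine Ideal.mem_sup_left (Ideal.mem_sup_right (Ideal.subset_span ⟨T, hT1, h, rfl⟩))
  obtain ⟨N, hN, y, hy, hsum⟩ := Submodule.mem_sup.1 (hle hf)
  obtain ⟨c, hc⟩ := Ideal.mem_span_range_iff_exists_fun.1 hy
  refine ⟨c, ?_⟩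
  have : ∑ T, (if #T = n ∧ th κ₀ τ T = 0 then c T * pr (cut τ tv T) else 0) = y := by
    rw [← hc]
    refine Finset.sum_congr rfl fun T _ => ?_
    rw [hv]
    simp only
    split_ifs
    · rfl
    · rw [mul_zero]
  rw [this, ← hsum, add_sub_cancel_right]
  exact hN

theorem pr_HN_GEN (h1 : HN_TR) : HN_GEN := by
  classical
  intro b c L₁ L₂ _ _ _ _ κ₀ F hF
  set n := Fintype.card L₁ with hn
  choose cw hcw using fun w => HN_GEN_dec κ₀ (tw w) n (F w) (hF w)
  have hgt : ∀ T : Finset (L₁ ⊕ L₂), ∃ g : Equiv.Perm (L₁ ⊕ L₂),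
      #T = n → (T0 : Finset (L₁ ⊕ L₂)).map g.toEmbedding = T := by
    intro T
    by_cases hT : #T = n
    · obtain ⟨g, hg⟩ := HN_GEN_perm (T0 : Finset (L₁ ⊕ L₂)) T (by rw [HN_GEN_card, hT])
      exact ⟨g, fun _ => hg⟩
    · exact ⟨1, fun h => absurd h hT⟩
  choose gt hgt using hgt
  refine ⟨fun g w' => ∑ T, (if gt T = g ∧ #T = n ∧ th κ₀ (tw (w' ∘ g.symm)) T = 0 then
    rename g.symm (cw (w' ∘ g.symm) T) else 0), ?_, ?_⟩
  · intro g w' hw'
    refine Finset.sum_eq_zero fun T _ => ?_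
    rw [if_neg]
    rintro ⟨hg, hT, hth⟩
    apply hw'
    have h2 := (h1 (L₁ ⊕ L₂) (L₁ ⊕ L₂) g κ₀ (tw (w' ∘ g.symm)) T0).2
    rw [← hg, hgt T hT, hg, hth] at h2
    have h3 : tw (w' ∘ g.symm) ∘ g = tw w' := by
      funext l
      simp [tw]
    rw [h3] at h2
    exact h2
  · intro w
    have key : (∑ g, act g (ph fun w' => ∑ T,
        (if gt T = g ∧ #T = n ∧ th κ₀ (tw (w' ∘ g.symm)) T = 0 then
          rename g.symm (cw (w' ∘ g.symm) T) else 0))) w =
        ∑ T, (if #T = n ∧ th κ₀ (tw w) T = 0 then cw w T * pr (cut (tw w) tv T) else 0) := by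
      rw [Finset.sum_apply]
      have h4 : ∀ g : Equiv.Perm (L₁ ⊕ L₂), act g (ph fun w' => ∑ T,
          (if gt T = g ∧ #T = n ∧ th κ₀ (tw (w' ∘ g.symm)) T = 0 then
            rename g.symm (cw (w' ∘ g.symm) T) else 0)) w =
          ∑ T, (if gt T = g ∧ #T = n ∧ th κ₀ (tw w) T = 0 then
            cw w T * pr (cut (tw w) tv T) else 0) := by
        intro g
        have h5 : (w ∘ g) ∘ g.symm = w := by
          funext l
          simp
        have h6 := (h1 (L₁ ⊕ L₂) (L₁ ⊕ L₂) g κ₀ (tw w) T0).1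
        have h7 : tw (w ∘ g) = tw w ∘ g := rfl
        simp only [act, ph]
        rw [map_mul, h7, h6, h5, map_sum, Finset.mul_sum]
        refine Finset.sum_congr rfl fun T _ => ?_
        split_ifs with h8
        · rw [rename_rename]
          have h9 : (g ∘ g.symm : L₁ ⊕ L₂ → L₁ ⊕ L₂) = id := by
            funext l
            simp
          rw [h9, rename_id, AlgHom.id_apply, mul_comm]
          have h10 := hgt T h8.2.1
          rw [h8.1] at h10
          rw [h10]
        · rw [map_zero, mul_zero]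
      rw [Finset.sum_congr rfl fun g _ => h4 g, Finset.sum_comm]
      refine Finset.sum_congr rfl fun T _ => ?_
      rw [Finset.sum_eq_single (gt T)]
      · simp
      · intro g _ hg
        rw [if_neg]
        rintro ⟨h, -⟩
        exact hg h.symm
      · intro h
        exact absurd (mem_univ _) h
    have h11 := hcw w
    rw [← key] at h11
    exact h11

end Pool.Agent.Work.MP_c41774_al.Full

end
end

section

noncomputable section

namespace Pool.Agent.Work.MP_c41774_al.Full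

open Finset MvPolynomial
open Pool.Agent.Work.MP_c41774_al.Wall

theorem pr_HN_GR (h1 : HN_IND) (h2 : HN_SPAN) (h3 : HN_MEM) (h4 : C_BAS) (h5 : C_CARD)
    (h6 : C_FD) : HN_GR := by
  intro b c hb hc κ₀ κ' κ'' hκ hθ J
  have hF := fun j => h4 (Fm b c (Fin (κ'.1 + κ'.2))) (VV b c (Fin (κ'.1 + κ'.2)) κ' j)
    (vin (IpS _ κ₀)) (h6 b c hb hc _ κ' j)
  choose F hF1 hF2 hF3 using hF
  have hG := fun j => h4 (Fm b c (Fin (κ''.1 + κ''.2))) (VV b c (Fin (κ''.1 + κ''.2)) κ'' j)
    (vin (I0S _ κ₀)) (h6 b c hb hc _ κ'' j)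
  choose G hG1 hG2 hG3 using hG
  have hc1 : Fintype.card (Fin (κ'.1 + κ'.2)) = κ'.1 + κ'.2 := Fintype.card_fin _
  have key := h5 (Fm b c (Fin (κ'.1 + κ'.2) ⊕ Fin (κ''.1 + κ''.2)))
    (VV b c (Fin (κ'.1 + κ'.2) ⊕ Fin (κ''.1 + κ''.2)) (κ' + κ'') J ⊓
      vin (JfS _ κ₀ (κ'.1 + κ'.2))) (vin (JfS _ κ₀ (κ'.1 + κ'.2 + 1)))
    (Σ x : Jp b c κ' κ'' J, Fin (hp b c κ₀ κ' x.1.1) × Fin (h0 b c κ₀ κ'' x.1.2))
    (fun y => Av (ph (ox (F y.1.1.1 y.2.1) (G y.1.1.2 y.2.2)))) ?_ ?_ ?_
  · rw [key, Fintype.card_sigma]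
    simp only [Fintype.card_prod, Fintype.card_fin]
    exact Finset.sum_coe_sort (Jp b c κ' κ'' J)
      (fun x => hp b c κ₀ κ' x.1 * h0 b c κ₀ κ'' x.2)
  · rintro ⟨⟨x, hx⟩, i, i'⟩
    have hx' : x.1 + x.2 + 2 * b * c * (κ'.1 * κ''.2) = J := (Finset.mem_filter.mp hx).2
    have := h3 b c _ _ κ₀ κ' κ'' x.1 x.2 J (F x.1 i) (G x.2 i') hθ (hF1 _ _) (hG1 _ _) hx'
    rw [hc1] at this
    exact ⟨this.1, this.2⟩
  · intro a ha
    have := h1 b c hb hc _ _ κ₀ κ' κ'' hθ J _ _ F G hF1 hG1 hF2 hG2 a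
    rw [hc1] at this
    exact this ha
  · rintro u ⟨hu1, hu2⟩
    have := h2 b c hb hc _ _ κ₀ κ' κ'' hκ hθ hc1.symm J _ _ F G hF1 hG1 hF3 hG3 u hu1
    rw [hc1] at this
    exact this hu2

end Pool.Agent.Work.MP_c41774_al.Full

end
end

section

/-!
# Item HN_HOMP: homogeneous signed invariants in the `n`-th step of the filtration
-/

noncomputable section

namespace Pool.Agent.Work.MP_c41774_al.Full

open Finset MvPolynomial
open Pool.Agent.Work.MP_c41774_al.Wall

section HOMP

lemma HN_HOMP_pr {L : Type} [Fintype L] [DecidableEq L] (E : Finset (L × L)) :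
    (pr E : MvPolynomial L ℚ).IsHomogeneous (#E) := by
  have h := IsHomogeneous.prod E (fun e : L × L => (X e.2 - X e.1 : MvPolynomial L ℚ))
    (fun _ => 1) (fun e _ => (isHomogeneous_X ℚ e.2).sub (isHomogeneous_X ℚ e.1))
  simpa [pr] using h

lemma HN_HOMP_mul {L : Type} (p f : MvPolynomial L ℚ) (D k : ℕ) (hp : p.IsHomogeneous D) :
    homogeneousComponent (D + k) (p * f) = p * homogeneousComponent k f := by
  conv_lhs => rw [← sum_homogeneousComponent f, Finset.mul_sum, map_sum]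
  have h1 : ∀ i ∈ range (f.totalDegree + 1), homogeneousComponent (D + k)
      (p * homogeneousComponent i f) = if i = k then p * homogeneousComponent k f else 0 := by
    intro i _
    rw [homogeneousComponent_of_mem (n := D + i)
      (hp.mul (homogeneousComponent_isHomogeneous i f))]
    by_cases h : i = k
    · rw [if_pos (by rw [h]), if_pos h, h]
    · rw [if_neg (by omega), if_neg h]
  rw [Finset.sum_congr rfl h1, Finset.sum_ite_eq']
  split_ifs with h
  · rfl
  · rw [homogeneousComponent_eq_zero k f (by simpa using h), mul_zero]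

lemma HN_HOMP_mul0 {L : Type} (p f : MvPolynomial L ℚ) (D n : ℕ) (hp : p.IsHomogeneous D)
    (hn : n < D) : homogeneousComponent n (p * f) = 0 := by
  conv_lhs => rw [← sum_homogeneousComponent f, Finset.mul_sum, map_sum]
  refine Finset.sum_eq_zero fun i _ => ?_
  rw [homogeneousComponent_of_mem (n := D + i)
    (hp.mul (homogeneousComponent_isHomogeneous i f)), if_neg (by omega)]

end HOMP

theorem pr_HN_HOMP (h1 : HN_SYM) (h2 : HN_PJ) (h3 : HN_CHG) : HN_HOMP := by
  intro b c hb hc L₁ L₂ _ _ _ _ κ₀ κ' κ'' hκ₀ hth hcard J F hF hFv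
  have hbc : 0 < 2 * b * c := by positivity
  obtain ⟨H0, hH0, hH0'⟩ := h1 b c L₁ L₂ κ₀ F hF.1 hFv
  obtain ⟨P, hPc, hPA, hPv, hPF⟩ := h2 b c hb hc (L₁ ⊕ L₂) (κ' + κ'') J
  obtain ⟨P', hPc', -, -, -⟩ := h2 b c hb hc (L₁ ⊕ L₂) (κ' + κ'')
    (J - 2 * b * c * (κ'.1 * κ''.2))
  have hchg (w : L₁ ⊕ L₂ → Col b c) := h3 b c L₁ L₂ κ₀ κ' w
  let H : Fm b c (L₁ ⊕ L₂) := fun w =>
    if chg (w ∘ Sum.inl) = κ' ∧ chg (w ∘ Sum.inr) = κ'' ∧ 2 * b * c * (κ'.1 * κ''.2) ≤ J then
      P' H0 w else 0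
  have hHc (w : L₁ ⊕ L₂ → Col b c) (m : L₁ ⊕ L₂ →₀ ℕ) : (H w).coeff m =
      if chg (w ∘ Sum.inl) = κ' ∧ chg (w ∘ Sum.inr) = κ'' ∧
        2 * b * c * m.degree + ∑ l, cwt b c (w l) + 2 * b * c * (κ'.1 * κ''.2) = J then
        (H0 w).coeff m else 0 := by
    show (if chg (w ∘ Sum.inl) = κ' ∧ chg (w ∘ Sum.inr) = κ'' ∧
      2 * b * c * (κ'.1 * κ''.2) ≤ J then P' H0 w else 0 : MvPolynomial _ ℚ).coeff m = _
    by_cases ha : chg (w ∘ Sum.inl) = κ'
    · by_cases hb' : chg (w ∘ Sum.inr) = κ''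
      · by_cases hJ : 2 * b * c * (κ'.1 * κ''.2) ≤ J
        · rw [if_pos ⟨ha, hb', hJ⟩, hPc']
          have hw : chg w = κ' + κ'' := by rw [(hchg w).1, ha, hb']
          by_cases hd : 2 * b * c * m.degree + ∑ l, cwt b c (w l) + 2 * b * c * (κ'.1 * κ''.2) = J
          · rw [if_pos ⟨hw, by omega⟩, if_pos ⟨ha, hb', hd⟩]
          · rw [if_neg (fun h => hd (by have := h.2; omega)), if_neg (fun h => hd h.2.2)]
        · rw [if_neg (fun h => hJ h.2.2), coeff_zero, if_neg]
          rintro ⟨_, _, h⟩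
          exact hJ (by omega)
      · rw [if_neg (fun h => hb' h.2.1), coeff_zero, if_neg (fun h => hb' h.2.1)]
    · rw [if_neg (fun h => ha h.1), coeff_zero, if_neg (fun h => ha h.1)]
  have hPhc (G : Fm b c (L₁ ⊕ L₂)) (w : L₁ ⊕ L₂ → Col b c) (n : ℕ) (hw : chg w = κ' + κ'')
      (hn : 2 * b * c * n + ∑ l, cwt b c (w l) = J) : P G w = homogeneousComponent n (G w) := by
    ext m
    rw [hPc, coeff_homogeneousComponent]
    by_cases hm : m.degree = n
    · rw [if_pos ⟨hw, by rw [hm]; exact hn⟩, if_pos hm]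
    · rw [if_neg hm, if_neg]
      rintro ⟨_, h⟩
      apply hm
      have h5 : 2 * b * c * m.degree = 2 * b * c * n := by omega
      exact Nat.eq_of_mul_eq_mul_left hbc h5
  have hPph : P (ph H0) = ph H := by
    funext w
    by_cases hz : H0 w = 0
    · have e1 : P (ph H0) w = 0 := by
        ext m
        rw [hPc]
        show (if _ then (pr (cut (tw w) tv T0) * H0 w).coeff m else 0) = _
        rw [hz, mul_zero, coeff_zero, ite_self]
      have e2 : H w = 0 := by
        ext m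
        rw [hHc, hz, coeff_zero, ite_self]
      show _ = pr (cut (tw w) tv T0) * H w
      rw [e1, e2, mul_zero]
    · have ht : th κ₀ (tw w) T0 = 0 := by
        by_contra h
        exact hz (hH0 w h)
      have ha : chg (w ∘ Sum.inl) = κ' := ((hchg w).2.2.2.2.2 hκ₀ hth hcard).mp ht
      by_cases hw : chg w = κ' + κ''
      · have hb' : chg (w ∘ Sum.inr) = κ'' := by
          have := (hchg w).1
          rw [hw, ha] at this
          exact (add_left_cancel this).symm
        have hcut := (hchg w).2.2.2.2.1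
        rw [ha, hb'] at hcut
        have hhom := HN_HOMP_pr (cut (tw w) tv (T0 : Finset (L₁ ⊕ L₂)))
        rw [hcut] at hhom
        show _ = pr (cut (tw w) tv T0) * H w
        by_cases hn : ∃ n, 2 * b * c * n + ∑ l, cwt b c (w l) = J
        · obtain ⟨n, hn⟩ := hn
          rw [hPhc _ w n hw hn]
          show homogeneousComponent n (pr (cut (tw w) tv T0) * H0 w) = _
          rcases le_or_gt (κ'.1 * κ''.2) n with hle | hlt
          · obtain ⟨k, rfl⟩ := Nat.exists_eq_add_of_le hle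
            rw [HN_HOMP_mul _ _ _ _ hhom]
            congr 1
            ext m
            rw [coeff_homogeneousComponent, hHc]
            by_cases hm : m.degree = k
            · rw [if_pos hm, if_pos ⟨ha, hb', by rw [hm]; rw [← hn]; ring⟩]
            · rw [if_neg hm, if_neg]
              rintro ⟨_, _, h⟩
              apply hm
              have h5 : 2 * b * c * m.degree = 2 * b * c * k := by
                rw [Nat.mul_add] at hn
                omega
              exact Nat.eq_of_mul_eq_mul_left hbc h5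
          · rw [HN_HOMP_mul0 _ _ _ _ hhom hlt]
            have e2 : H w = 0 := by
              ext m
              rw [hHc, if_neg, coeff_zero]
              rintro ⟨_, _, h⟩
              have h6 : 2 * b * c * n < 2 * b * c * (κ'.1 * κ''.2) :=
                Nat.mul_lt_mul_of_pos_left hlt hbc
              omega
            rw [e2, mul_zero]
        · have e1 : P (ph H0) w = 0 := by
            ext m
            rw [hPc, if_neg, coeff_zero]
            rintro ⟨_, h⟩
            exact hn ⟨_, h⟩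
          have e2 : H w = 0 := by
            ext m
            rw [hHc, if_neg, coeff_zero]
            rintro ⟨_, _, h⟩
            exact hn ⟨m.degree + κ'.1 * κ''.2, by rw [Nat.mul_add]; omega⟩
          rw [e1, e2, mul_zero]
      · have e1 : P (ph H0) w = 0 := by
          ext m
          rw [hPc, if_neg (fun h => hw h.1), coeff_zero]
        have e2 : H w = 0 := by
          ext m
          rw [hHc, if_neg, coeff_zero]
          rintro ⟨h, h', _⟩
          exact hw (by rw [(hchg w).1, h, h'])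
        show _ = pr (cut (tw w) tv T0) * H w
        rw [e1, e2, mul_zero]
  refine ⟨H, fun w hw => ?_, fun w m hm => ?_, ?_⟩
  · show (if _ then _ else _) = _
    rw [if_neg (fun h => hw ⟨h.1, h.2.1⟩)]
  · rw [mem_support_iff, hHc] at hm
    by_contra h
    exact hm (if_neg (fun h' => h h'.2.2))
  · have e : F - Av (ph H) = P (F - Av (ph H0)) := by
      rw [map_sub, hPF F hF, hPA, hPph]
    rw [e]
    exact hPv κ₀ _ _ hH0'

end Pool.Agent.Work.MP_c41774_al.Full

end
end

section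

noncomputable section

namespace Pool.Agent.Work.MP_c41774_al.Full

open Finset MvPolynomial
open Pool.Agent.Work.MP_c41774_al.Wall

/-- the members of `Jp` are small -/
theorem HN_IND_jp {b c : ℕ} {κ' κ'' : ℕ × ℕ} {J : ℕ} {x : ℕ × ℕ} (hx : x ∈ Jp b c κ' κ'' J) :
    x.1 < J + 1 ∧ x.2 < J + 1 := by
  have := (Finset.mem_filter.mp hx).1
  rw [Finset.mem_product, Finset.mem_range, Finset.mem_range] at this
  exact this

theorem pr_HN_IND (h1 : HN_AVG) (h2 : HN_DIV2) (h3 : HN_NZD) (h4 : HN_TENS) (h5 : HN_DEG)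
    (h6 : HN_CHG) (h7 : C_HOM) : HN_IND := by
  intro b c hb hc L₁ L₂ _ _ _ _ κ₀ κ' κ'' hθ J d₁ d₂ F G hF hG hFi hGi a ha
  -- Step 1
  have hKI : ∀ w : L₁ ⊕ L₂ → Col b c,
      (∑ y : (Σ x : Jp b c κ' κ'' J, Fin (d₁ x.1.1) × Fin (d₂ x.1.2)),
        a y • ox (F y.1.1.1 y.2.1) (G y.1.1.2 y.2.2)) w ∈ KI κ₀ (tw w) := by
    intro w
    by_cases hw : chg (w ∘ Sum.inl) = κ'
    · have hth : th κ₀ (tw w) (T0 : Finset (L₁ ⊕ L₂)) = 0 := by
        rw [(h6 b c L₁ L₂ κ₀ κ' w).2.2.2.1, hw]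
        have : (κ₀.2 : ℤ) * κ'.1 = κ₀.1 * κ'.2 := by exact_mod_cast hθ
        rw [this, sub_self]
      have hS := (h2 L₁ L₂ κ₀ (tw w) hth).1 (ha w)
      have hA : ∀ y : (Σ x : Jp b c κ' κ'' J, Fin (d₁ x.1.1) × Fin (d₂ x.1.2)), _ :=
        fun y => h1 b c L₁ L₂ κ₀ κ' (F y.1.1.1 y.2.1) (G y.1.1.2 y.2.2)
          (hF y.1.1.1 y.2.1).1 (hG y.1.1.2 y.2.2).1 (hF y.1.1.1 y.2.1).2.1 hθ w hw
      set cP : ℚ := (Fintype.card (Equiv.Perm (L₁ ⊕ L₂)) : ℚ)
      set c1 : ℚ := (Fintype.card (Equiv.Perm L₁) : ℚ) * (Fintype.card (Equiv.Perm L₂) : ℚ) with hc1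
      have hc1' : c1 ≠ 0 := by
        rw [hc1]
        have e1 : (Fintype.card (Equiv.Perm L₁) : ℚ) ≠ 0 := by
          exact_mod_cast Fintype.card_ne_zero
        have e2 : (Fintype.card (Equiv.Perm L₂) : ℚ) ≠ 0 := by
          exact_mod_cast Fintype.card_ne_zero
        exact mul_ne_zero e1 e2
      have hB : (∑ y : (Σ x : Jp b c κ' κ'' J, Fin (d₁ x.1.1) × Fin (d₂ x.1.2)),
          a y • (cP • Av (ph (ox (F y.1.1.1 y.2.1) (G y.1.1.2 y.2.2))) w -
            c1 • ph (ox (F y.1.1.1 y.2.1) (G y.1.1.2 y.2.2)) w)) ∈ KI κ₀ (tw w) :=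
        Ideal.sum_mem _ fun y _ => Submodule.smul_of_tower_mem _ _ (hA y)
      have hS' : cP • (∑ y : (Σ x : Jp b c κ' κ'' J, Fin (d₁ x.1.1) × Fin (d₂ x.1.2)),
          a y • Av (ph (ox (F y.1.1.1 y.2.1) (G y.1.1.2 y.2.2)))) w ∈ KI κ₀ (tw w) :=
        Submodule.smul_of_tower_mem _ _ hS
      have hC := Ideal.sub_mem _ hS' hB
      have hD : c1 • (pr (cut (tw w) tv (T0 : Finset (L₁ ⊕ L₂))) *
          (∑ y : (Σ x : Jp b c κ' κ'' J, Fin (d₁ x.1.1) × Fin (d₂ x.1.2)),
            a y • ox (F y.1.1.1 y.2.1) (G y.1.1.2 y.2.2)) w) ∈ KI κ₀ (tw w) := by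
        convert hC using 1
        rw [Finset.sum_apply, Finset.sum_apply, Finset.mul_sum, Finset.smul_sum, Finset.smul_sum,
          ← Finset.sum_sub_distrib]
        refine Finset.sum_congr rfl fun y _ => ?_
        simp only [Pi.smul_apply, ph]
        rw [smul_sub, mul_smul_comm, smul_comm cP (a y), sub_sub_cancel, smul_comm]
      have hE := Submodule.smul_of_tower_mem _ c1⁻¹ hD
      rw [smul_smul, inv_mul_cancel₀ hc1', one_smul] at hE
      exact h3 L₁ L₂ κ₀ (tw w) _ hE
    · have : (∑ y : (Σ x : Jp b c κ' κ'' J, Fin (d₁ x.1.1) × Fin (d₂ x.1.2)),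
          a y • ox (F y.1.1.1 y.2.1) (G y.1.1.2 y.2.2)) w = 0 := by
        rw [Finset.sum_apply]
        refine Finset.sum_eq_zero fun y _ => ?_
        simp only [Pi.smul_apply, ox]
        rw [(hF y.1.1.1 y.2.1).2.1 _ hw, map_zero, zero_mul, smul_zero]
      rw [this]
      exact Ideal.zero_mem _
  -- Step 2
  have hI1 := h5 b c hb hc L₁ κ' (IpS L₁ κ₀)
    (fun τ f n hf => (h7 L₁ Unit κ₀ τ tv f n).1 hf) (J + 1) d₁ F hF hFi
  have hI2 := h5 b c hb hc L₂ κ'' (I0S L₂ κ₀)
    (fun τ f n hf => (h7 L₂ Unit κ₀ τ tv f n).2 hf) (J + 1) d₂ G hG hGi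
  have key := h4 b c L₁ L₂ κ₀ (Σ j : Fin (J + 1), Fin (d₁ j)) (Σ j : Fin (J + 1), Fin (d₂ j))
    (fun x => F x.1 x.2) (fun x => G x.1 x.2) hI1 hI2
  let a' : (Σ j : Fin (J + 1), Fin (d₁ j)) × (Σ j : Fin (J + 1), Fin (d₂ j)) → ℚ := fun x =>
    if h : ((x.1.1 : ℕ), (x.2.1 : ℕ)) ∈ Jp b c κ' κ'' J then
      a ⟨⟨((x.1.1 : ℕ), (x.2.1 : ℕ)), h⟩, (x.1.2, x.2.2)⟩ else 0
  let e : (Σ x : Jp b c κ' κ'' J, Fin (d₁ x.1.1) × Fin (d₂ x.1.2)) →
      (Σ j : Fin (J + 1), Fin (d₁ j)) × (Σ j : Fin (J + 1), Fin (d₂ j)) := fun y =>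
    (⟨⟨y.1.1.1, (HN_IND_jp y.1.2).1⟩, y.2.1⟩, ⟨⟨y.1.1.2, (HN_IND_jp y.1.2).2⟩, y.2.2⟩)
  have hae : ∀ y, a' (e y) = a y := by
    rintro ⟨⟨⟨x, x'⟩, hx⟩, i, i'⟩
    simp only [a', e]
    rw [dif_pos hx]
  have heinj : Function.Injective e := by
    rintro ⟨⟨⟨x, x'⟩, hx⟩, i, i'⟩ ⟨⟨⟨y, y'⟩, hy⟩, k, k'⟩ h
    simp only [e, Prod.mk.injEq, Sigma.mk.injEq, Fin.mk.injEq] at h
    obtain ⟨⟨rfl, h1⟩, rfl, h2⟩ := h
    simp only [heq_eq_eq] at h1 h2
    subst h1
    subst h2
    rfl
  have hrange : ∀ x, x ∉ Set.range e → a' x = 0 := by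
    rintro ⟨⟨j, i⟩, ⟨j', i'⟩⟩ hx
    simp only [a']
    split_ifs with h
    · exfalso
      apply hx
      exact ⟨⟨⟨((j : ℕ), (j' : ℕ)), h⟩, (i, i')⟩, rfl⟩
    · rfl
  have hsum : (∑ x : (Σ j : Fin (J + 1), Fin (d₁ j)) × (Σ j : Fin (J + 1), Fin (d₂ j)),
      a' x • ox (F x.1.1 x.1.2) (G x.2.1 x.2.2)) =
      ∑ y : (Σ x : Jp b c κ' κ'' J, Fin (d₁ x.1.1) × Fin (d₂ x.1.2)),
        a y • ox (F y.1.1.1 y.2.1) (G y.1.1.2 y.2.2) := by
    symm
    refine Fintype.sum_of_injective e heinj _ _ ?_ ?_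
    · intro x hx
      rw [hrange x hx, zero_smul]
    · intro y
      rw [hae]
  have hz := key a' (fun w => by
    have := hKI w
    rw [← hsum] at this
    exact this)
  funext y
  rw [← hae y, hz]
  rfl

end Pool.Agent.Work.MP_c41774_al.Full

end
end

section

/-!
# Block H, item HN_J: ends, monotonicity, homogeneity of the filtration
-/

noncomputable section

namespace Pool.Agent.Work.MP_c41774_al.Full

open Finset MvPolynomial
open Pool.Agent.Work.MP_c41774_al.Wall

theorem HN_J_pr {L : Type} [Fintype L] [DecidableEq L] (E : Finset (L × L)) :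
    (pr E : MvPolynomial L ℚ).IsHomogeneous (#E) := by
  unfold pr
  have h := MvPolynomial.IsHomogeneous.prod E (fun e => (X e.2 - X e.1 : MvPolynomial L ℚ))
    (fun _ => 1) (fun e _ => (isHomogeneous_X ℚ e.2).sub (isHomogeneous_X ℚ e.1))
  simpa using h

attribute [local instance] MvPolynomial.gradedAlgebra in
theorem HN_J_span {L : Type} [Fintype L] [DecidableEq L] (S : Set (MvPolynomial L ℚ))
    (hS : ∀ f ∈ S, ∃ n, f.IsHomogeneous n) (f : MvPolynomial L ℚ) (n : ℕ)
    (hf : f ∈ Ideal.span S) : homogeneousComponent n f ∈ Ideal.span S := by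
  have h := Ideal.homogeneous_span (homogeneousSubmodule L ℚ) S (fun x hx => by
    obtain ⟨k, hk⟩ := hS x hx
    exact ⟨k, by simpa [mem_homogeneousSubmodule] using hk⟩)
  exact homogeneousComponent_mem_of_mem h hf n

theorem pr_HN_J : HN_J := by
  intro L _ _ κ₀ τ
  refine ⟨?_, ?_, ?_, ?_, ?_⟩
  · rw [Ideal.eq_top_iff_one]
    refine Ideal.mem_sup_right (Ideal.subset_span ⟨∅, ?_, Nat.zero_le _, ?_⟩)
    · simp [th, nx, ny]
    · simp [cut, pr]
  · intro n hn
    have h0 : {f : MvPolynomial L ℚ | ∃ T : Finset L, th κ₀ τ T = 0 ∧ n ≤ #T ∧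
        f = pr (cut τ tv T)} = ∅ := by
      ext f
      simp only [Set.mem_setOf_eq, Set.mem_empty_iff_false, iff_false]
      rintro ⟨T, -, hT, -⟩
      have := Finset.card_le_univ T
      omega
    rw [Jf, h0, Ideal.span_empty, sup_bot_eq]
  · intro n
    exact le_sup_left
  · intro n
    refine sup_le_sup le_rfl (Ideal.span_mono ?_)
    rintro f ⟨T, h1, h2, h3⟩
    exact ⟨T, h1, by omega, h3⟩
  · intro n i f hf
    rw [Jf, Ip, ← Ideal.span_union] at hf ⊢
    refine HN_J_span _ ?_ f i hf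
    rintro g (⟨T, -, rfl⟩ | ⟨T, -, -, rfl⟩)
    · exact ⟨_, HN_J_pr _⟩
    · exact ⟨_, HN_J_pr _⟩

end Pool.Agent.Work.MP_c41774_al.Full

end
end

section

/-!
# Item HN_KILL: products with a factor in the ideal
-/

noncomputable section

namespace Pool.Agent.Work.MP_c41774_al.Full

open Finset MvPolynomial
open Pool.Agent.Work.MP_c41774_al.Wall

theorem HN_KILL_KI {b c : ℕ} {L₁ L₂ : Type} [Fintype L₁] [DecidableEq L₁] [Fintype L₂]
    [DecidableEq L₂] (κ₀ : ℕ × ℕ) (F : Fm b c L₁) (G : Fm b c L₂)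
    (h : F ∈ vin (IpS L₁ κ₀) ∨ G ∈ vin (I0S L₂ κ₀)) (w : L₁ ⊕ L₂ → Col b c) :
    ox F G w ∈ KI κ₀ (tw w) := by
  unfold ox KI
  rcases h with h | h
  · have h1 : F (w ∘ Sum.inl) ∈ Ip κ₀ (tw w ∘ Sum.inl) tv := h (w ∘ Sum.inl)
    refine Ideal.mem_sup_left (Ideal.mul_mem_right _ _ ?_)
    exact Ideal.mem_map_of_mem _ h1
  · have h1 : G (w ∘ Sum.inr) ∈ I0 κ₀ (tw w ∘ Sum.inr) := h (w ∘ Sum.inr)
    refine Ideal.mem_sup_right (Ideal.mul_mem_left _ _ ?_)
    exact Ideal.mem_map_of_mem _ h1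

theorem pr_HN_KILL (h1 : HN_CHG) (h2 : HN_REL) (h3 : HN_DIV1) : HN_KILL := by
  intro b c L₁ L₂ _ _ _ _ κ₀ κ' F G hT hF hFG
  refine (h2 b c (L₁ ⊕ L₂) (L₁ ⊕ L₂) (Equiv.refl _) κ₀ (Fintype.card L₁ + 1)
    (ph (ox F G))).2.2 ?_
  intro w
  change pr (cut (tw w) tv T0) * ox F G w ∈ Jf κ₀ (tw w) (Fintype.card L₁ + 1)
  by_cases hw : chg (w ∘ Sum.inl) = κ'
  · refine h3 L₁ L₂ κ₀ (tw w) ?_ _ (HN_KILL_KI κ₀ F G hFG w)
    rw [(h1 b c L₁ L₂ κ₀ κ' w).2.2.2.1, hw]
    have h0 : κ₀.2 * κ'.1 = κ₀.1 * κ'.2 := hT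
    have h0' : (κ₀.2 : ℤ) * κ'.1 = (κ₀.1 : ℤ) * κ'.2 := by exact_mod_cast h0
    rw [h0', sub_self]
  · have hz : ox F G w = 0 := by
      unfold ox
      rw [hF _ hw, map_zero, zero_mul]
    rw [hz, mul_zero]
    exact Ideal.zero_mem _

end Pool.Agent.Work.MP_c41774_al.Full

end
end

section

/-!
# HN_KUN: the full product in terms of the ends
-/

noncomputable section

namespace Pool.Agent.Work.MP_c41774_al.Full

open Finset MvPolynomial
open Pool.Agent.Work.MP_c41774_al.Wall

theorem HN_KUN_split {X : Type*} [DecidableEq X] (p : X → Bool) (f : X → ℕ) (A : Finset X) :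
    ∑ x ∈ A.filter (fun x => p x = true), f x + ∑ x ∈ A.filter (fun x => p x = false), f x =
      ∑ x ∈ A, f x := by
  rw [← Finset.sum_filter_add_sum_filter_not A (fun x => p x = true) f]
  congr 2
  ext x
  simp

theorem HN_KUN_union {X : Type*} [DecidableEq X] (p : X → Bool) (A : Finset X) :
    A.filter (fun x => p x = true) ∪ A.filter (fun x => p x = false) = A := by
  ext x
  simp only [mem_union, mem_filter]
  cases p x <;> simp

theorem HN_KUN_card {X : Type*} [DecidableEq X] (p : X → Bool) (f : X → ℕ)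
    (S : ℕ → ℕ → ℕ → Finset (Finset X))
    (hS : ∀ m n j A, A ∈ S m n j ↔ #(A.filter fun x => p x = true) = m ∧
      #(A.filter fun x => p x = false) = n ∧ ∑ x ∈ A, f x = j) (m n j : ℕ) :
    #(S m n j) = ∑ x ∈ antidiagonal j, #(S m 0 x.1) * #(S 0 n x.2) := by
  have h1 : ∑ x ∈ antidiagonal j, #(S m 0 x.1) * #(S 0 n x.2) =
      #((antidiagonal j).sigma fun x => S m 0 x.1 ×ˢ S 0 n x.2) := by
    rw [Finset.card_sigma]
    exact Finset.sum_congr rfl fun x _ => (Finset.card_product _ _).symm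
  rw [h1]
  refine Finset.card_nbij'
    (fun A => ⟨(∑ x ∈ A.filter (fun x => p x = true), f x,
      ∑ x ∈ A.filter (fun x => p x = false), f x),
      (A.filter (fun x => p x = true), A.filter (fun x => p x = false))⟩)
    (fun y => y.2.1 ∪ y.2.2) ?_ ?_ ?_ ?_
  · intro A hA
    rw [Finset.mem_coe] at hA
    rw [hS] at hA
    rw [Finset.mem_coe]
    simp only [mem_sigma, mem_product, hS, HasAntidiagonal.mem_antidiagonal]
    refine ⟨?_, ⟨?_, ?_, trivial⟩, ?_, ?_, trivial⟩
    · rw [HN_KUN_split, hA.2.2]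
    · rw [Finset.filter_filter]
      simpa using hA.1
    · rw [Finset.filter_filter, Finset.card_eq_zero, Finset.filter_eq_empty_iff]
      rintro x _ ⟨h, h'⟩
      rw [h] at h'
      exact absurd h' (by simp)
    · rw [Finset.filter_filter, Finset.card_eq_zero, Finset.filter_eq_empty_iff]
      rintro x _ ⟨h, h'⟩
      rw [h] at h'
      exact absurd h' (by simp)
    · rw [Finset.filter_filter]
      simpa using hA.2.1
  · rintro ⟨⟨j1, j2⟩, B, C⟩ hy
    rw [Finset.mem_coe] at hy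
    simp only [mem_sigma, mem_product, hS, HasAntidiagonal.mem_antidiagonal] at hy
    obtain ⟨hj, ⟨hB1, hB2, hB3⟩, hC1, hC2, hC3⟩ := hy
    have hBf : ∀ x ∈ B, p x = true := by
      intro x hx
      rw [Finset.card_eq_zero, Finset.filter_eq_empty_iff] at hB2
      simpa using hB2 hx
    have hCf : ∀ x ∈ C, p x = false := by
      intro x hx
      rw [Finset.card_eq_zero, Finset.filter_eq_empty_iff] at hC1
      simpa using hC1 hx
    have hdisj : Disjoint B C := by
      rw [Finset.disjoint_left]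
      intro x hx hx'
      have h1 := hBf x hx
      rw [hCf x hx'] at h1
      exact absurd h1 (by simp)
    rw [Finset.mem_coe, hS]
    refine ⟨?_, ?_, ?_⟩
    · rw [Finset.filter_union]
      have h2 : C.filter (fun x => p x = true) = ∅ := by
        rw [Finset.filter_eq_empty_iff]
        intro x hx
        rw [hCf x hx]
        simp
      rw [h2, Finset.union_empty, hB1]
    · rw [Finset.filter_union]
      have h2 : B.filter (fun x => p x = false) = ∅ := by
        rw [Finset.filter_eq_empty_iff]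
        intro x hx
        rw [hBf x hx]
        simp
      rw [h2, Finset.empty_union, hC2]
    · rw [Finset.sum_union hdisj, hB3, hC3, hj]
  · intro A _
    exact HN_KUN_union p A
  · rintro ⟨⟨j1, j2⟩, B, C⟩ hy
    rw [Finset.mem_coe] at hy
    simp only [mem_sigma, mem_product, hS, HasAntidiagonal.mem_antidiagonal] at hy
    obtain ⟨hj, ⟨hB1, hB2, hB3⟩, hC1, hC2, hC3⟩ := hy
    have hBf : ∀ x ∈ B, p x = true := by
      intro x hx
      rw [Finset.card_eq_zero, Finset.filter_eq_empty_iff] at hB2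
      simpa using hB2 hx
    have hCf : ∀ x ∈ C, p x = false := by
      intro x hx
      rw [Finset.card_eq_zero, Finset.filter_eq_empty_iff] at hC1
      simpa using hC1 hx
    have h1 : (B ∪ C).filter (fun x => p x = true) = B := by
      rw [Finset.filter_union]
      have h2 : C.filter (fun x => p x = true) = ∅ := by
        rw [Finset.filter_eq_empty_iff]
        intro x hx
        rw [hCf x hx]
        simp
      rw [h2, Finset.union_empty, Finset.filter_true_of_mem hBf]
    have h2 : (B ∪ C).filter (fun x => p x = false) = C := by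
      rw [Finset.filter_union]
      have h2 : B.filter (fun x => p x = false) = ∅ := by
        rw [Finset.filter_eq_empty_iff]
        intro x hx
        rw [hBf x hx]
        simp
      rw [h2, Finset.empty_union, Finset.filter_true_of_mem hCf]
    simp only [h1, h2, hB3, hC3]

theorem pr_HN_KUN (h1 : HN_FREE) (h2 : HN_FREE3) (h3 : HN_ENDS) : HN_KUN := by
  intro b c hb hc κ j
  have hfin : ∀ m n i, {A : Finset (Col b c × ℕ) | PA b c (m, n) i A}.Finite := fun m n i =>
    (h2 b c hb hc (m, n) i).1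
  have hc' : ∀ m n i, Nat.card {A : Finset (Col b c × ℕ) // PA b c (m, n) i A} =
      #(hfin m n i).toFinset := by
    intro m n i
    rw [← Set.ncard_eq_toFinset_card _ (hfin m n i), ← Nat.card_coe_set_eq]
    rfl
  have e1 : hp b c (1, 0) κ j = #(hfin κ.1 κ.2 j).toFinset := by
    rw [(h3 b c hb hc).1, h1 b c hb hc _ κ j (by simp), ← hc']
  have e2 : ∀ i, hp b c (1, 0) (κ.1, 0) i = #(hfin κ.1 0 i).toFinset := by
    intro i
    rw [(h3 b c hb hc).1, h1 b c hb hc _ (κ.1, 0) i (by simp), ← hc']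
  have e3 : ∀ i, hp b c (0, 1) (0, κ.2) i = #(hfin 0 κ.2 i).toFinset := by
    intro i
    rw [(h3 b c hb hc).2, h1 b c hb hc _ (0, κ.2) i (by simp), ← hc']
  rw [e1, HN_KUN_card (X := Col b c × ℕ) (fun x => x.1.isLeft)
    (fun x => 2 * b * c * x.2 + cwt b c x.1) (fun m n i => (hfin m n i).toFinset) ?_ κ.1 κ.2 j]
  · exact Finset.sum_congr rfl fun x _ => by rw [e2, e3]
  · intro m n i A
    rw [Set.Finite.mem_toFinset]
    rfl

end Pool.Agent.Work.MP_c41774_al.Full

end
end

section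

/-!
# Averages of products lie in the right step of the filtration
-/

noncomputable section

namespace Pool.Agent.Work.MP_c41774_al.Full

open Finset MvPolynomial
open Pool.Agent.Work.MP_c41774_al.Wall

theorem MEM_pr_hom {L : Type*} [Fintype L] [DecidableEq L] (E : Finset (L × L)) :
    (pr E : MvPolynomial L ℚ).IsHomogeneous (#E) := by
  have h := IsHomogeneous.prod E (fun e : L × L => (X e.2 - X e.1 : MvPolynomial L ℚ))
    (fun _ => 1) (fun e _ => (isHomogeneous_X ℚ e.2).sub (isHomogeneous_X ℚ e.1))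
  simpa [pr] using h

theorem pr_HN_MEM (h1 : HN_CHG) (h2 : HN_REL) (h3 : C_AV) : HN_MEM := by
  intro b c L₁ L₂ _ _ _ _ κ₀ κ' κ'' j₁ j₂ J F G hth hF hG hJ
  obtain ⟨hF1, hF2, hF3⟩ := hF
  obtain ⟨hG1, hG2, hG3⟩ := hG
  constructor
  · refine (h3 b c (L₁ ⊕ L₂) (ph (ox F G)) (κ' + κ'') J).2.2.2 ⟨?_, ?_⟩
    · intro w hw
      have hc := (h1 b c L₁ L₂ κ₀ κ' w).1
      rw [hc] at hw
      by_cases h : chg (w ∘ Sum.inl) = κ'
      · have h' : chg (w ∘ Sum.inr) ≠ κ'' := fun h' => hw (by rw [h, h'])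
        simp [ph, ox, hG2 _ h']
      · simp [ph, ox, hF2 _ h]
    · intro w m hm
      by_cases h : chg (w ∘ Sum.inl) = κ'
      swap
      · simp [ph, ox, hF2 _ h] at hm
      by_cases h' : chg (w ∘ Sum.inr) = κ''
      swap
      · simp [ph, ox, hG2 _ h'] at hm
      have hs := (h1 b c L₁ L₂ κ₀ κ' w).2.2.2.2.1
      rw [h, h'] at hs
      have hm0 := MvPolynomial.support_mul _ _ hm
      obtain ⟨m1, hm1, m2, hm2, rfl⟩ := Finset.mem_add.mp hm0
      obtain ⟨m3, hm3, m4, hm4, rfl⟩ := Finset.mem_add.mp (MvPolynomial.support_mul _ _ hm2)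
      rw [support_rename_of_injective Sum.inl_injective] at hm3
      rw [support_rename_of_injective Sum.inr_injective] at hm4
      obtain ⟨n3, hn3, rfl⟩ := Finset.mem_image.mp hm3
      obtain ⟨n4, hn4, rfl⟩ := Finset.mem_image.mp hm4
      have d1 : m1.degree = #(cut (tw w) tv (T0 : Finset (L₁ ⊕ L₂))) := by
        by_contra hne
        exact (mem_support_iff.mp hm1) ((MEM_pr_hom _).coeff_eq_zero hne)
      have d3 := hF3 _ n3 hn3
      have d4 := hG3 _ n4 hn4
      rw [Fintype.sum_sum_type]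
      simp only [map_add, Finsupp.degree_mapDomain, d1, hs]
      simp only [Function.comp] at d3 d4
      rw [← hJ, ← d3, ← d4]
      ring
  · refine (h2 b c (L₁ ⊕ L₂) (L₁ ⊕ L₂) (Equiv.refl _) κ₀ (Fintype.card L₁) (ph (ox F G))).2.2 ?_
    intro w
    by_cases h : chg (w ∘ Sum.inl) = κ'
    · have h4 := (h1 b c L₁ L₂ κ₀ κ' w).2.2.2.1
      have h5 := (h1 b c L₁ L₂ κ₀ κ' w).2.2.1
      rw [h] at h4
      have h6 : th κ₀ (tw w) (T0 : Finset (L₁ ⊕ L₂)) = 0 := by
        rw [h4]
        have : κ₀.2 * κ'.1 = κ₀.1 * κ'.2 := hth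
        have h7 : (κ₀.2 : ℤ) * κ'.1 = (κ₀.1 : ℤ) * κ'.2 := by exact_mod_cast this
        omega
      change pr (cut (tw w) tv T0) * _ ∈ Jf κ₀ (tw w) (Fintype.card L₁)
      refine Ideal.mul_mem_right _ _ ?_
      refine Ideal.mem_sup_right (Ideal.subset_span ?_)
      exact ⟨T0, h6, h5.ge, rfl⟩
    · have : ph (ox F G) w = 0 := by simp [ph, ox, hF2 _ h]
      rw [this]
      exact Submodule.zero_mem _

end Pool.Agent.Work.MP_c41774_al.Full

end
end

section

/-!
# HN_NZD: the cut is a nonzerodivisor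
-/

set_option linter.unusedSectionVars false

noncomputable section

namespace Pool.Agent.Work.MP_c41774_al.Full

open Finset MvPolynomial
open Pool.Agent.Work.MP_c41774_al.Wall

section nzd

variable {L₁ L₂ : Type} [Fintype L₁] [DecidableEq L₁] [Fintype L₂] [DecidableEq L₂]

/-- the translation of the left variables -/
private def nzdS : MvPolynomial (L₁ ⊕ L₂) ℚ →ₐ[ℚ] Polynomial (MvPolynomial (L₁ ⊕ L₂) ℚ) :=
  MvPolynomial.aeval fun l => Sum.elim
    (fun a => Polynomial.C (X (Sum.inl a)) + Polynomial.X)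
    (fun a => Polynomial.C (X (Sum.inr a))) l

private lemma nzd_inl (a : L₁) :
    nzdS (X (Sum.inl a) : MvPolynomial (L₁ ⊕ L₂) ℚ) =
      Polynomial.C (X (Sum.inl a)) + Polynomial.X := by
  simp [nzdS]

private lemma nzd_inr (a : L₂) :
    nzdS (X (Sum.inr a) : MvPolynomial (L₁ ⊕ L₂) ℚ) = Polynomial.C (X (Sum.inr a)) := by
  simp [nzdS]

private lemma nzd_left (E : Finset (L₁ × L₁)) :
    nzdS (rename (Sum.inl : L₁ → L₁ ⊕ L₂) (pr E)) =
      Polynomial.C (rename (Sum.inl : L₁ → L₁ ⊕ L₂) (pr E)) := by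
  unfold pr
  rw [map_prod, map_prod, map_prod]
  refine Finset.prod_congr rfl fun e _ => ?_
  rw [map_sub, map_sub, rename_X, rename_X, nzd_inl, nzd_inl, Polynomial.C_sub]
  ring

private lemma nzd_right (E : Finset (L₂ × L₂)) :
    nzdS (rename (Sum.inr : L₂ → L₁ ⊕ L₂) (pr E)) =
      Polynomial.C (rename (Sum.inr : L₂ → L₁ ⊕ L₂) (pr E)) := by
  unfold pr
  rw [map_prod, map_prod, map_prod]
  refine Finset.prod_congr rfl fun e _ => ?_
  rw [map_sub, map_sub, rename_X, rename_X, nzd_inr, nzd_inr, Polynomial.C_sub]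

private lemma nzd_KI (κ₀ : ℕ × ℕ) (τ : L₁ ⊕ L₂ → Bool) (f : MvPolynomial (L₁ ⊕ L₂) ℚ)
    (hf : f ∈ KI κ₀ τ) : nzdS f ∈ (KI κ₀ τ).map (Polynomial.C (R := MvPolynomial (L₁ ⊕ L₂) ℚ)) := by
  have h : KI κ₀ τ ≤ ((KI κ₀ τ).map
      (Polynomial.C (R := MvPolynomial (L₁ ⊕ L₂) ℚ))).comap (nzdS (L₁ := L₁) (L₂ := L₂)) := by
    conv_lhs => unfold KI
    refine sup_le ?_ ?_
    · rw [Ideal.map_le_iff_le_comap]
      unfold Ip
      rw [Ideal.span_le]
      rintro _ ⟨T, hT, rfl⟩
      simp only [SetLike.mem_coe, Ideal.mem_comap]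
      rw [nzd_left]
      refine Ideal.mem_map_of_mem _ ?_
      unfold KI
      refine Ideal.mem_sup_left (Ideal.mem_map_of_mem _ ?_)
      exact Ideal.subset_span ⟨T, hT, rfl⟩
    · rw [Ideal.map_le_iff_le_comap]
      unfold I0
      rw [Ideal.span_le]
      rintro _ ⟨T, hT1, hT2, rfl⟩
      simp only [SetLike.mem_coe, Ideal.mem_comap]
      rw [nzd_right]
      refine Ideal.mem_map_of_mem _ ?_
      unfold KI
      refine Ideal.mem_sup_right (Ideal.mem_map_of_mem _ ?_)
      exact Ideal.subset_span ⟨T, hT1, hT2, rfl⟩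
  exact h hf

private lemma nzd_zero (f : MvPolynomial (L₁ ⊕ L₂) ℚ) : (nzdS f).coeff 0 = f := by
  rw [Polynomial.coeff_zero_eq_eval_zero]
  induction f using MvPolynomial.induction_on with
  | C a =>
    have : nzdS (C a : MvPolynomial (L₁ ⊕ L₂) ℚ) = Polynomial.C (C a) := by
      simp [nzdS, MvPolynomial.algebraMap_eq]
    rw [this, Polynomial.eval_C]
  | add p q hp hq => rw [map_add, Polynomial.eval_add, hp, hq]
  | mul_X p l hp =>
    rw [map_mul, Polynomial.eval_mul, hp]
    cases l with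
    | inl a => rw [nzd_inl]; simp
    | inr a => rw [nzd_inr]; simp

private lemma nzd_cut (τ : L₁ ⊕ L₂ → Bool) :
    nzdS (pr (cut τ tv (T0 : Finset (L₁ ⊕ L₂)))) =
      (-1) ^ #(cut τ tv (T0 : Finset (L₁ ⊕ L₂))) *
        ∏ e ∈ cut τ tv (T0 : Finset (L₁ ⊕ L₂)),
          (Polynomial.X - Polynomial.C (X e.2 - X e.1)) := by
  rw [← Finset.prod_const, ← Finset.prod_mul_distrib]
  unfold pr
  rw [map_prod]
  refine Finset.prod_congr rfl fun e he => ?_
  unfold cut T0 at he
  simp only [Finset.mem_filter, Finset.mem_univ, true_and] at he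
  obtain ⟨h1, h2, -, -, -⟩ := he
  obtain ⟨k, l⟩ := e
  cases k with
  | inr k => simp at h1
  | inl k =>
    cases l with
    | inl l => simp at h2
    | inr l =>
      simp only
      rw [map_sub, nzd_inl, nzd_inr, Polynomial.C_sub]
      ring

end nzd

theorem pr_HN_NZD : HN_NZD := by
  intro L₁ L₂ _ _ _ _ κ₀ τ f hf
  have h1 := nzd_KI κ₀ τ _ hf
  rw [map_mul, nzd_cut] at h1
  set I := KI κ₀ τ with hI
  have h2 : Polynomial.map (Ideal.Quotient.mk I) (nzdS f) = 0 := by
    have h3 : Polynomial.map (Ideal.Quotient.mk I)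
        ((-1) ^ #(cut τ tv (T0 : Finset (L₁ ⊕ L₂))) *
        (∏ e ∈ cut τ tv (T0 : Finset (L₁ ⊕ L₂)),
          (Polynomial.X - Polynomial.C (X e.2 - X e.1))) * nzdS f) = 0 := by
      ext n
      rw [Polynomial.coeff_map, Polynomial.coeff_zero, Ideal.Quotient.eq_zero_iff_mem]
      exact Ideal.mem_map_C_iff.mp h1 n
    rw [Polynomial.map_mul, Polynomial.map_mul, Polynomial.map_prod, mul_assoc] at h3
    have h4 : IsUnit (Polynomial.map (Ideal.Quotient.mk I)
        ((-1) ^ #(cut τ tv (T0 : Finset (L₁ ⊕ L₂))))) := by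
      rw [Polynomial.map_pow, Polynomial.map_neg, Polynomial.map_one]
      exact (isUnit_one.neg).pow _
    rw [h4.mul_right_eq_zero] at h3
    have h5 : (∏ e ∈ cut τ tv (T0 : Finset (L₁ ⊕ L₂)), Polynomial.map (Ideal.Quotient.mk I)
        (Polynomial.X - Polynomial.C (X e.2 - X e.1))).Monic := by
      refine Polynomial.monic_prod_of_monic _ _ fun e _ => ?_
      exact (Polynomial.monic_X_sub_C _).map _
    exact h5.mul_right_eq_zero_iff.mp h3
  have h6 : Ideal.Quotient.mk I ((nzdS f).coeff 0) = 0 := by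
    rw [← Polynomial.coeff_map, h2, Polynomial.coeff_zero]
  rw [nzd_zero, Ideal.Quotient.eq_zero_iff_mem] at h6
  exact h6

end Pool.Agent.Work.MP_c41774_al.Full

end
end

section

/-!
# Item HN_PJ: projection to charge `κ` and degree `J`
-/

noncomputable section

namespace Pool.Agent.Work.MP_c41774_al.Full

open Finset MvPolynomial
open Pool.Agent.Work.MP_c41774_al.Wall

section PJ

variable {b c : ℕ} {L : Type} [Fintype L] [DecidableEq L]

/-- the weight of a word -/
def HN_PJ_s (w : L → Col b c) : ℕ := ∑ l, cwt b c (w l)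

/-- the polynomial degree -/
def HN_PJ_n (J : ℕ) (w : L → Col b c) : ℕ := (J - HN_PJ_s w) / (2 * b * c)

/-- the projection -/
def HN_PJ_P (κ : ℕ × ℕ) (J : ℕ) : Fm b c L →ₗ[ℚ] Fm b c L :=
  LinearMap.pi fun w =>
    if chg w = κ ∧ 2 * b * c * HN_PJ_n J w + HN_PJ_s w = J then
      (homogeneousComponent (HN_PJ_n J w)) ∘ₗ (LinearMap.proj w) else 0

lemma HN_PJ_apply (κ : ℕ × ℕ) (J : ℕ) (F : Fm b c L) (w : L → Col b c) :
    HN_PJ_P κ J F w = if chg w = κ ∧ 2 * b * c * HN_PJ_n J w + HN_PJ_s w = J then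
      homogeneousComponent (HN_PJ_n J w) (F w) else 0 := by
  unfold HN_PJ_P
  rw [LinearMap.pi_apply]
  split_ifs <;> rfl

lemma HN_PJ_coeff (hb : 0 < b) (hc : 0 < c) (κ : ℕ × ℕ) (J : ℕ) (F : Fm b c L)
    (w : L → Col b c) (m : L →₀ ℕ) :
    (HN_PJ_P κ J F w).coeff m = if chg w = κ ∧ 2 * b * c * m.degree + ∑ l, cwt b c (w l) = J
      then (F w).coeff m else 0 := by
  have hbc : 0 < 2 * b * c := by positivity
  rw [HN_PJ_apply]
  change _ = if chg w = κ ∧ 2 * b * c * m.degree + HN_PJ_s w = J then (F w).coeff m else 0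
  by_cases h1 : chg w = κ
  · by_cases h2 : 2 * b * c * HN_PJ_n J w + HN_PJ_s w = J
    · rw [if_pos ⟨h1, h2⟩, coeff_homogeneousComponent]
      by_cases h3 : m.degree = HN_PJ_n J w
      · rw [if_pos h3, if_pos ⟨h1, by rw [h3]; exact h2⟩]
      · rw [if_neg h3, if_neg]
        rintro ⟨_, h4⟩
        apply h3
        have h5 : 2 * b * c * m.degree = 2 * b * c * HN_PJ_n J w := by omega
        exact Nat.eq_of_mul_eq_mul_left hbc h5
    · rw [if_neg (fun h => h2 h.2), coeff_zero, if_neg]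
      rintro ⟨_, h4⟩
      apply h2
      have h5 : HN_PJ_n J w = m.degree := by
        unfold HN_PJ_n
        rw [← h4, Nat.add_sub_cancel, Nat.mul_div_cancel_left _ hbc]
      rw [h5]
      exact h4
  · rw [if_neg (fun h => h1 h.1), coeff_zero, if_neg (fun h => h1 h.1)]

lemma HN_PJ_chg (w : L → Col b c) (g : Equiv.Perm L) : chg (w ∘ g) = chg w := by
  unfold chg nx ny
  refine Prod.ext ?_ ?_
  · show #(univ.filter fun l => tw (w ∘ g) l = true) = #(univ.filter fun l => tw w l = true)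
    refine Finset.card_bij (fun l _ => g l) ?_ ?_ ?_
    · intro l hl
      exact mem_filter.mpr ⟨mem_univ _, (mem_filter.mp hl).2⟩
    · intro l _ l' _ h
      exact g.injective h
    · intro l hl
      refine ⟨g.symm l, mem_filter.mpr ⟨mem_univ _, ?_⟩, by simp⟩
      have h := (mem_filter.mp hl).2
      show (w (g (g.symm l))).isLeft = true
      rw [Equiv.apply_symm_apply]
      exact h
  · show #(univ.filter fun l => tw (w ∘ g) l = false) = #(univ.filter fun l => tw w l = false)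
    refine Finset.card_bij (fun l _ => g l) ?_ ?_ ?_
    · intro l hl
      exact mem_filter.mpr ⟨mem_univ _, (mem_filter.mp hl).2⟩
    · intro l _ l' _ h
      exact g.injective h
    · intro l hl
      refine ⟨g.symm l, mem_filter.mpr ⟨mem_univ _, ?_⟩, by simp⟩
      have h := (mem_filter.mp hl).2
      show (w (g (g.symm l))).isLeft = false
      rw [Equiv.apply_symm_apply]
      exact h

lemma HN_PJ_act (hb : 0 < b) (hc : 0 < c) (κ : ℕ × ℕ) (J : ℕ) (F : Fm b c L)
    (g : Equiv.Perm L) : HN_PJ_P κ J (act g F) = act g (HN_PJ_P κ J F) := by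
  funext w
  ext m
  rw [HN_PJ_coeff hb hc]
  obtain ⟨m', rfl⟩ : ∃ m' : L →₀ ℕ, m = Finsupp.mapDomain g m' := by
    refine ⟨Finsupp.mapDomain g.symm m, ?_⟩
    rw [← Finsupp.mapDomain_comp]
    simp
  show (if chg w = κ ∧ _ then (rename g (F (w ∘ g))).coeff _ else 0) =
    (rename g (HN_PJ_P κ J F (w ∘ g))).coeff _
  rw [coeff_rename_mapDomain _ g.injective, coeff_rename_mapDomain _ g.injective,
    HN_PJ_coeff hb hc, HN_PJ_chg, Finsupp.degree_mapDomain]
  have hs : ∑ l, cwt b c ((w ∘ g) l) = ∑ l, cwt b c (w l) :=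
    Equiv.sum_comp g (fun l => cwt b c (w l))
  rw [hs]

lemma HN_PJ_Av (hb : 0 < b) (hc : 0 < c) (κ : ℕ × ℕ) (J : ℕ) (F : Fm b c L) :
    HN_PJ_P κ J (Av F) = Av (HN_PJ_P κ J F) := by
  unfold Av
  rw [map_smul, map_sum]
  congr 1
  refine Finset.sum_congr rfl fun g _ => ?_
  rw [map_smul, HN_PJ_act hb hc]

end PJ

theorem pr_HN_PJ (h1 : HN_J) : HN_PJ := by
  intro b c hb hc L _ _ κ J
  refine ⟨HN_PJ_P κ J, HN_PJ_coeff hb hc κ J, HN_PJ_Av hb hc κ J, ?_, ?_⟩
  · intro κ₀ n F hF w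
    rw [HN_PJ_apply]
    split_ifs
    · exact (h1 L κ₀ (tw w)).2.2.2.2 n _ _ (hF w)
    · exact Submodule.zero_mem _
  · intro F hF
    funext w
    ext m
    rw [HN_PJ_coeff hb hc]
    by_cases h2 : chg w = κ
    · by_cases h3 : 2 * b * c * m.degree + ∑ l, cwt b c (w l) = J
      · rw [if_pos ⟨h2, h3⟩]
      · rw [if_neg (fun h => h3 h.2)]
        by_contra h4
        exact h3 (hF.2.2 w m (mem_support_iff.mpr (Ne.symm h4)))
    · rw [if_neg (fun h => h2 h.1), hF.2.1 w h2, coeff_zero]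

end Pool.Agent.Work.MP_c41774_al.Full

end
end
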