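import Pool.Agent.Work.MP_c41774_al.Bd.B03
import Pool.Agent.Work.MP_c41774_al.Full.RIface

/-! Bundle of small proof modules (one section per former module). -/

section

/-!
# Relabelling, permutations and averages preserve the filtration
-/

noncomputable section

namespace Pool.Agent.Work.MP_c41774_al.Full

open Finset MvPolynomial
open Pool.Agent.Work.MP_c41774_al.Wall

theorem HN_REL_map (h1 : HN_TR) {L L' : Type} [Fintype L] [DecidableEq L] [Fintype L']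
    [DecidableEq L'] (e : L ≃ L') (κ₀ : ℕ × ℕ) (τ : L' → Bool) (n : ℕ) (f : MvPolynomial L ℚ)
    (hf : f ∈ Jf κ₀ (τ ∘ e) n) : rename e f ∈ Jf κ₀ τ n := by
  have key : Jf κ₀ (τ ∘ e) n ≤ (Jf κ₀ τ n).comap (rename (R := ℚ) e) := by
    unfold Jf Ip
    refine sup_le (Ideal.span_le.2 ?_) (Ideal.span_le.2 ?_)
    · rintro g ⟨T, hT, rfl⟩
      rw [SetLike.mem_coe, Ideal.mem_comap]
      obtain ⟨h2, h3⟩ := h1 L L' e κ₀ τ T
      refine Ideal.mem_sup_left (Ideal.subset_span ⟨T.map e.toEmbedding, ?_, h2⟩)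
      rw [← h3]; exact hT
    · rintro g ⟨T, hT, hn, rfl⟩
      rw [SetLike.mem_coe, Ideal.mem_comap]
      obtain ⟨h2, h3⟩ := h1 L L' e κ₀ τ T
      refine Ideal.mem_sup_right (Ideal.subset_span ⟨T.map e.toEmbedding, ?_, ?_, h2⟩)
      · rw [← h3]; exact hT
      · rw [Finset.card_map]; exact hn
  exact key hf

theorem HN_REL_iff (h1 : HN_TR) {L L' : Type} [Fintype L] [DecidableEq L] [Fintype L']
    [DecidableEq L'] (e : L ≃ L') (κ₀ : ℕ × ℕ) (τ : L' → Bool) (n : ℕ) (f : MvPolynomial L ℚ) :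
    f ∈ Jf κ₀ (τ ∘ e) n ↔ rename e f ∈ Jf κ₀ τ n := by
  refine ⟨HN_REL_map h1 e κ₀ τ n f, fun h => ?_⟩
  have h2 := HN_REL_map h1 e.symm κ₀ (τ ∘ e) n (rename e f) (by
    have : (τ ∘ e) ∘ e.symm = τ := by funext l; simp
    rw [this]; exact h)
  rw [rename_rename] at h2
  have h3 : (e.symm : L' → L) ∘ e = id := by funext l; simp
  rw [h3, rename_id_apply] at h2
  exact h2

theorem HN_REL_rel (h1 : HN_TR) (b c : ℕ) {L L' : Type} [Fintype L] [DecidableEq L] [Fintype L']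
    [DecidableEq L'] (e : L ≃ L') (κ₀ : ℕ × ℕ) (n : ℕ) (F : Fm b c L) :
    F ∈ vin (JfS L κ₀ n) ↔ rel e F ∈ vin (JfS L' κ₀ n) := by
  constructor
  · intro hF w
    exact (HN_REL_iff h1 e κ₀ (tw w) n _).1 (hF (w ∘ e))
  · intro hF w
    have h2 := hF (w ∘ e.symm)
    have h3 := (HN_REL_iff h1 e κ₀ (tw (w ∘ e.symm)) n (F ((w ∘ e.symm) ∘ e))).2 h2
    have h4 : (w ∘ e.symm) ∘ e = w := by funext l; simp
    have h5 : tw (w ∘ e.symm) ∘ e = tw w := by funext l; simp [tw]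
    rw [h4, h5] at h3
    exact h3

theorem pr_HN_REL (h1 : HN_TR) : HN_REL := by
  intro b c L L' _ _ _ _ e κ₀ n F
  have h2 : F ∈ vin (JfS L κ₀ n) → ∀ g : Equiv.Perm L, act g F ∈ vin (JfS L κ₀ n) := fun hF g =>
    (HN_REL_rel h1 b c g κ₀ n F).1 hF
  refine ⟨HN_REL_rel h1 b c e κ₀ n F, h2, fun hF => ?_⟩
  unfold Av
  exact Submodule.smul_mem _ _ (Submodule.sum_mem _ fun g _ => Submodule.smul_mem _ _ (h2 hF g))

end Pool.Agent.Work.MP_c41774_al.Full

end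
end

section

/-!
# HN_SER
-/

noncomputable section

namespace Pool.Agent.Work.MP_c41774_al.Full

open Finset MvPolynomial
open Pool.Agent.Work.MP_c41774_al.Wall

theorem HN_SER_wadd (m n : ℤ) : w (m + n) = w m * w n := by
  unfold w
  rw [HahnSeries.single_mul_single, mul_one]

theorem pr_HN_SER : HN_SER := by
  refine ⟨?_, ?_, ?_, ?_, ?_, ?_, HN_SER_wadd, rfl, ?_⟩
  · intro f g
    unfold ser
    rw [← map_mul]
    congr 1
    ext j
    rw [PowerSeries.coeff_mul, PowerSeries.coeff_mk]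
    push_cast
    refine Finset.sum_congr rfl fun x _ => ?_
    rw [PowerSeries.coeff_mk, PowerSeries.coeff_mk]
  · intro k f
    unfold ser
    have : w (k : ℤ) = HahnSeries.ofPowerSeries ℤ ℤ (PowerSeries.X ^ k) := by
      rw [HahnSeries.ofPowerSeries_X_pow]
      rfl
    rw [this, ← map_mul]
    congr 1
    ext j
    rw [PowerSeries.coeff_X_pow_mul', PowerSeries.coeff_mk, PowerSeries.coeff_mk]
    by_cases h : k ≤ j
    · simp only [if_pos h]
    · simp only [if_neg h, Nat.cast_zero]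
  · intro f g
    unfold ser
    rw [← map_add]
    exact congrArg _ (PowerSeries.ext fun j => by simp)
  · intro ι s f
    unfold ser
    rw [← map_sum]
    congr 1
    ext j
    rw [map_sum, PowerSeries.coeff_mk]
    push_cast
    exact Finset.sum_congr rfl fun i _ => PowerSeries.coeff_mk _ _
  · unfold ser
    have : (PowerSeries.mk fun _ : ℕ => (((0 : ℕ) : ℤ))) = 0 := by
      ext j; simp
    rw [this, map_zero]
  · unfold ser
    have : (PowerSeries.mk fun j : ℕ => (((if j = 0 then 1 else 0 : ℕ) : ℤ))) = 1 := by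
      ext j
      rw [PowerSeries.coeff_mk, PowerSeries.coeff_one]
      split_ifs <;> simp
    rw [this, map_one]
  · intro m n
    induction n with
    | zero => simp; rfl
    | succ n ih =>
      rw [pow_succ, ih, ← HN_SER_wadd]
      congr 1
      push_cast
      ring

end Pool.Agent.Work.MP_c41774_al.Full

end
end

section

noncomputable section

namespace Pool.Agent.Work.MP_c41774_al.Full

open Finset MvPolynomial
open Pool.Agent.Work.MP_c41774_al.Wall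

section HN_SPAN_aux

set_option linter.unusedSectionVars false

variable {b c : ℕ} {L₁ L₂ : Type} [Fintype L₁] [DecidableEq L₁] [Fintype L₂] [DecidableEq L₂]

theorem HN_SPAN_Av_add {L : Type} [Fintype L] [DecidableEq L] (F G : Fm b c L) :
    Av (F + G) = Av F + Av G := by
  unfold Av
  rw [← smul_add, ← Finset.sum_add_distrib]
  congr 1
  refine Finset.sum_congr rfl fun g _ => ?_
  rw [← smul_add]
  congr 1
  funext w
  simp [act]

theorem HN_SPAN_Av_smul {L : Type} [Fintype L] [DecidableEq L] (r : ℚ) (F : Fm b c L) :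
    Av (r • F) = r • Av F := by
  unfold Av
  rw [smul_comm]
  congr 1
  rw [Finset.smul_sum]
  refine Finset.sum_congr rfl fun g _ => ?_
  rw [smul_comm]
  congr 1
  funext w
  simp [act]

theorem HN_SPAN_ph_add (F G : Fm b c (L₁ ⊕ L₂)) : ph (F + G) = ph F + ph G := by
  funext w
  simp [ph, mul_add]

theorem HN_SPAN_ph_smul (r : ℚ) (F : Fm b c (L₁ ⊕ L₂)) : ph (r • F) = r • ph F := by
  funext w
  simp [ph]

theorem HN_SPAN_ox_add_left (F F' : Fm b c L₁) (G : Fm b c L₂) :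
    ox (F + F') G = ox F G + ox F' G := by
  funext w
  simp [ox, add_mul]

theorem HN_SPAN_ox_add_right (F : Fm b c L₁) (G G' : Fm b c L₂) :
    ox F (G + G') = ox F G + ox F G' := by
  funext w
  simp [ox, mul_add]

theorem HN_SPAN_ox_smul_left (r : ℚ) (F : Fm b c L₁) (G : Fm b c L₂) :
    ox (r • F) G = r • ox F G := by
  funext w
  simp [ox]

theorem HN_SPAN_ox_smul_right (r : ℚ) (F : Fm b c L₁) (G : Fm b c L₂) :
    ox F (r • G) = r • ox F G := by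
  funext w
  simp [ox]

/-- the bilinear map -/
def HN_SPAN_B : Fm b c L₁ →ₗ[ℚ] Fm b c L₂ →ₗ[ℚ] Fm b c (L₁ ⊕ L₂) :=
  LinearMap.mk₂ ℚ (fun F G => Av (ph (ox F G)))
    (fun F F' G => by rw [HN_SPAN_ox_add_left, HN_SPAN_ph_add, HN_SPAN_Av_add])
    (fun r F G => by rw [HN_SPAN_ox_smul_left, HN_SPAN_ph_smul, HN_SPAN_Av_smul])
    (fun F G G' => by rw [HN_SPAN_ox_add_right, HN_SPAN_ph_add, HN_SPAN_Av_add])
    (fun r F G => by rw [HN_SPAN_ox_smul_right, HN_SPAN_ph_smul, HN_SPAN_Av_smul])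

theorem HN_SPAN_B_apply (F : Fm b c L₁) (G : Fm b c L₂) :
    HN_SPAN_B F G = Av (ph (ox F G)) := rfl

end HN_SPAN_aux

theorem pr_HN_SPAN (h1 : HN_HOMP) (h2 : HN_TEN) (h3 : HN_KILL) : HN_SPAN := by
  intro b c hb hc L₁ L₂ _ _ _ _ κ₀ κ' κ'' hκ₀ hθ hcard J d₁ d₂ F G hF hG hFs hGs u hu huJ
  set W : Submodule ℚ (Fm b c (L₁ ⊕ L₂)) :=
    vin (JfS (L₁ ⊕ L₂) κ₀ (Fintype.card L₁ + 1)) with hW
  set v : (Σ x : Jp b c κ' κ'' J, Fin (d₁ x.1.1) × Fin (d₂ x.1.2)) → Fm b c (L₁ ⊕ L₂) :=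
    fun y => Av (ph (ox (F y.1.1.1 y.2.1) (G y.1.1.2 y.2.2))) with hv
  set M : Submodule ℚ (Fm b c (L₁ ⊕ L₂)) := Submodule.span ℚ (Set.range v) ⊔ W with hM
  have hkey : u ∈ M := by
    obtain ⟨H, hH1, hH2, hH3⟩ := h1 b c hb hc L₁ L₂ κ₀ κ' κ'' hκ₀ hθ hcard J u hu huJ
    have hsp := h2 b c hb hc L₁ L₂ κ' κ'' J H hH1 hH2
    have hle : Submodule.span ℚ {G : Fm b c (L₁ ⊕ L₂) | ∃ j₁ j₂ : ℕ,
      j₁ + j₂ + 2 * b * c * (κ'.1 * κ''.2) = J ∧ ∃ F₁ ∈ VV b c L₁ κ' j₁,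
        ∃ F₂ ∈ VV b c L₂ κ'' j₂, G = Av (ph (ox F₁ F₂))} ≤ M := by
      rw [Submodule.span_le]
      rintro x ⟨j₁, j₂, hj, F₁, hF₁, F₂, hF₂, rfl⟩
      obtain ⟨a₁, ha₁⟩ := hFs j₁ F₁ hF₁
      obtain ⟨a₂, ha₂⟩ := hGs j₂ F₂ hF₂
      set S₁ := ∑ i, a₁ i • F j₁ i with hS₁
      set S₂ := ∑ i, a₂ i • G j₂ i with hS₂
      have hS₁V : S₁ ∈ VV b c L₁ κ' j₁ :=
        Submodule.sum_mem _ fun i _ => Submodule.smul_mem _ _ (hF j₁ i)
      have hN₁V : F₁ - S₁ ∈ VV b c L₁ κ' j₁ := Submodule.sub_mem _ hF₁ hS₁V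
      have hmem : ((j₁, j₂) : ℕ × ℕ) ∈ Jp b c κ' κ'' J := by
        rw [Jp, Finset.mem_filter, Finset.mem_product, Finset.mem_range, Finset.mem_range]
        refine ⟨⟨?_, ?_⟩, hj⟩
        · show j₁ < J + 1
          omega
        · show j₂ < J + 1
          omega
      have e1 : Av (ph (ox F₁ F₂)) =
          HN_SPAN_B S₁ S₂ + (HN_SPAN_B (F₁ - S₁) F₂ + HN_SPAN_B S₁ (F₂ - S₂)) := by
        rw [← HN_SPAN_B_apply, map_sub, map_sub, LinearMap.sub_apply]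
        abel
      have e2 : HN_SPAN_B (F₁ - S₁) F₂ ∈ W :=
        h3 b c L₁ L₂ κ₀ κ' (F₁ - S₁) F₂ hθ hN₁V.2.1 (Or.inl ha₁)
      have e3 : HN_SPAN_B S₁ (F₂ - S₂) ∈ W :=
        h3 b c L₁ L₂ κ₀ κ' S₁ (F₂ - S₂) hθ hS₁V.2.1 (Or.inr ha₂)
      have e4a : ∀ i, HN_SPAN_B (F j₁ i) S₂ ∈ Submodule.span ℚ (Set.range v) := by
        intro i
        rw [hS₂, map_sum]
        refine Submodule.sum_mem _ fun k _ => ?_
        rw [map_smul]
        refine Submodule.smul_mem _ _ (Submodule.subset_span ?_)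
        exact ⟨⟨⟨(j₁, j₂), hmem⟩, (i, k)⟩, rfl⟩
      have e4 : HN_SPAN_B S₁ S₂ ∈ Submodule.span ℚ (Set.range v) := by
        have e4b : (HN_SPAN_B S₁ : Fm b c L₂ →ₗ[ℚ] Fm b c (L₁ ⊕ L₂)) =
            ∑ i, a₁ i • HN_SPAN_B (F j₁ i) := by
          rw [hS₁, map_sum]
          simp only [map_smul]
        rw [e4b, LinearMap.sum_apply]
        refine Submodule.sum_mem _ fun i _ => ?_
        rw [LinearMap.smul_apply]
        exact Submodule.smul_mem _ _ (e4a i)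
      show Av (ph (ox F₁ F₂)) ∈ M
      rw [e1]
      exact Submodule.add_mem _ (Submodule.mem_sup_left e4)
        (Submodule.mem_sup_right (Submodule.add_mem _ e2 e3))
    have e5 : u = Av (ph H) + (u - Av (ph H)) := by abel
    rw [e5]
    exact Submodule.add_mem _ (hle hsp) (Submodule.mem_sup_right hH3)
  obtain ⟨s, hs, t, ht, hst⟩ := Submodule.mem_sup.mp hkey
  obtain ⟨a, ha⟩ := (Submodule.mem_span_range_iff_exists_fun ℚ).mp hs
  refine ⟨a, ?_⟩
  have e6 : u - ∑ y, a y • v y = t := by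
    rw [ha, ← hst]
    abel
  show u - ∑ y, a y • v y ∈ W
  rw [e6]
  exact ht

end Pool.Agent.Work.MP_c41774_al.Full

end
end

section

/-!
# Block H, item SYM: decomposition of signed invariants
-/

noncomputable section

namespace Pool.Agent.Work.MP_c41774_al.Full

open Finset MvPolynomial
open Pool.Agent.Work.MP_c41774_al.Wall

theorem HN_SYM_act_add {b c : ℕ} {L : Type} [Fintype L] [DecidableEq L] (g : Equiv.Perm L)
    (F G : Fm b c L) : act g (F + G) = act g F + act g G := by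
  funext w
  simp [act]

theorem HN_SYM_act_smul {b c : ℕ} {L : Type} [Fintype L] [DecidableEq L] (g : Equiv.Perm L)
    (r : ℚ) (F : Fm b c L) : act g (r • F) = r • act g F := by
  funext w
  simp [act]

/-- the signed average as a linear map -/
def HN_SYM_Av (b c : ℕ) (L : Type) [Fintype L] [DecidableEq L] : Fm b c L →ₗ[ℚ] Fm b c L where
  toFun := Av
  map_add' F G := by
    unfold Av
    simp only [HN_SYM_act_add, smul_add, Finset.sum_add_distrib]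
  map_smul' r F := by
    unfold Av
    simp only [HN_SYM_act_smul, RingHom.id_apply, Finset.smul_sum]
    refine Finset.sum_congr rfl (fun g _ => ?_)
    rw [smul_smul, smul_smul, smul_smul, smul_smul]
    congr 1
    ring

/-- multiplication with the cut as a linear map -/
def HN_SYM_ph (b c : ℕ) (L₁ L₂ : Type) [Fintype L₁] [DecidableEq L₁] [Fintype L₂]
    [DecidableEq L₂] : Fm b c (L₁ ⊕ L₂) →ₗ[ℚ] Fm b c (L₁ ⊕ L₂) where
  toFun := ph
  map_add' F G := by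
    funext w
    simp [ph, mul_add]
  map_smul' r F := by
    funext w
    simp [ph]

theorem pr_HN_SYM (h1 : HN_GEN) (h2 : HN_REL) (h3 : C_AV) : HN_SYM := by
  intro b c L₁ L₂ _ _ _ _ κ₀ F hF hJ
  obtain ⟨H, hH, hN⟩ := h1 b c L₁ L₂ κ₀ F hJ
  refine ⟨∑ g, sg g • H g, ?_, ?_⟩
  · intro w hw
    rw [Finset.sum_apply]
    refine Finset.sum_eq_zero (fun g _ => ?_)
    rw [Pi.smul_apply, hH g w hw, smul_zero]
  · have hA : Av F = F := (h3 b c (L₁ ⊕ L₂) F 0 0).2.2.1 hF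
    have hAv := (h2 b c (L₁ ⊕ L₂) (L₁ ⊕ L₂) (Equiv.refl _) κ₀ (Fintype.card L₁ + 1)
      (F - ∑ g, act g (ph (H g)))).2.2 hN
    have e1 : Av (F - ∑ g, act g (ph (H g))) = F - ∑ g, sg g • Av (ph (H g)) := by
      change HN_SYM_Av b c (L₁ ⊕ L₂) (F - ∑ g, act g (ph (H g))) = _
      rw [map_sub, map_sum]
      change Av F - ∑ g, Av (act g (ph (H g))) = _
      rw [hA]
      congr 1
      exact Finset.sum_congr rfl (fun g _ => (h3 b c (L₁ ⊕ L₂) (ph (H g)) 0 0).2.1 g)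
    have e2 : Av (ph (∑ g, sg g • H g)) = ∑ g, sg g • Av (ph (H g)) := by
      change HN_SYM_Av b c (L₁ ⊕ L₂) (HN_SYM_ph b c L₁ L₂ (∑ g, sg g • H g)) = _
      rw [map_sum, map_sum]
      refine Finset.sum_congr rfl (fun g _ => ?_)
      rw [map_smul, map_smul]
      rfl
    rw [e2, ← e1]
    exact hAv

end Pool.Agent.Work.MP_c41774_al.Full

end
end

section

/-!
# Block H, item HN_TEL: telescoping (helper39)
-/

noncomputable section

namespace Pool.Agent.Work.MP_c41774_al.Full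

open Finset MvPolynomial
open Pool.Agent.Work.MP_c41774_al.Wall

lemma HN_TEL_congr {E : Type*} [AddCommGroup E] [Module ℚ E] (U W W' : Submodule ℚ E)
    (h : U ⊓ W = U ⊓ W') : dimQ U W = dimQ U W' := by
  have e : W.submoduleOf U = W'.submoduleOf U := by
    ext x
    change (x : E) ∈ W ↔ (x : E) ∈ W'
    have h1 : (x : E) ∈ U ⊓ W ↔ (x : E) ∈ U ⊓ W' := by rw [h]
    rw [Submodule.mem_inf, Submodule.mem_inf] at h1
    exact ⟨fun hx => (h1.1 ⟨x.2, hx⟩).2, fun hx => (h1.2 ⟨x.2, hx⟩).2⟩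
  unfold dimQ
  rw [e]

lemma HN_TEL_self {E : Type*} [AddCommGroup E] [Module ℚ E] (U : Submodule ℚ E) :
    dimQ U U = 0 := by
  have e : U.submoduleOf U = ⊤ := by
    ext x
    change (x : E) ∈ U ↔ _
    simp
  unfold dimQ
  rw [e]
  exact Module.finrank_zero_of_subsingleton

lemma HN_TEL_sum (h2 : C_DIM) {E : Type} [AddCommGroup E] [Module ℚ E] (U : ℕ → Submodule ℚ E)
    (hfd : FiniteDimensional ℚ (U 0)) (hanti : Antitone U) (N : ℕ) :
    dimQ (U 0) (U N) = ∑ n ∈ range N, dimQ (U n) (U (n + 1)) := by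
  induction N with
  | zero => rw [HN_TEL_self, sum_range_zero]
  | succ N ih =>
    rw [sum_range_succ, ← ih]
    exact h2 E (U 0) (U N) (U (N + 1)) hfd (hanti (Nat.le_succ N)) (hanti (Nat.zero_le N))

theorem pr_HN_TEL (h1 : HN_J) (h2 : C_DIM) (h3 : C_FD) : HN_TEL := by
  intro b c hb hc L _ _ κ₀ κ J
  have hanti1 : ∀ n, (vin (JfS L κ₀ (n + 1)) : Submodule ℚ (Fm b c L)) ≤ vin (JfS L κ₀ n) := by
    intro n F hF w
    exact (h1 L κ₀ (tw w)).2.2.2.1 n (hF w)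
  have htop : (vin (JfS L κ₀ 0) : Submodule ℚ (Fm b c L)) = ⊤ := by
    rw [eq_top_iff]
    intro F _ w
    change F w ∈ Jf κ₀ (tw w) 0
    rw [(h1 L κ₀ (tw w)).1]
    exact Submodule.mem_top
  have hend : (vin (JfS L κ₀ (Fintype.card L + 1)) : Submodule ℚ (Fm b c L)) =
      vin (IpS L κ₀) := by
    ext F
    constructor
    · intro hF w
      have := hF w
      change F w ∈ Jf κ₀ (tw w) (Fintype.card L + 1) at this
      rw [(h1 L κ₀ (tw w)).2.1 _ (Nat.lt_succ_self _)] at this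
      exact this
    · intro hF w
      change F w ∈ Jf κ₀ (tw w) (Fintype.card L + 1)
      rw [(h1 L κ₀ (tw w)).2.1 _ (Nat.lt_succ_self _)]
      exact hF w
  set U : ℕ → Submodule ℚ (Fm b c L) := fun n => VV b c L κ J ⊓ vin (JfS L κ₀ n) with hU
  have hU0 : U 0 = VV b c L κ J := by
    simp only [hU, htop, inf_top_eq]
  have hanti : Antitone U := antitone_nat_of_succ_le fun n => inf_le_inf_left _ (hanti1 n)
  have hfd : FiniteDimensional ℚ (U 0) := by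
    rw [hU0]
    exact h3 b c hb hc L κ J
  have key := HN_TEL_sum h2 U hfd hanti (Fintype.card L + 1)
  have e1 : dimQ (VV b c L κ J) (vin (IpS L κ₀)) = dimQ (U 0) (U (Fintype.card L + 1)) := by
    rw [hU0]
    refine HN_TEL_congr _ _ _ ?_
    simp only [hU]
    rw [hend, ← inf_assoc, inf_idem]
  rw [e1, key]
  refine sum_congr rfl fun n _ => ?_
  refine HN_TEL_congr _ _ _ ?_
  simp only [hU]
  apply le_antisymm
  · exact le_inf inf_le_left (inf_le_right.trans inf_le_right)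
  · exact le_inf inf_le_left (le_inf (inf_le_left.trans inf_le_left) inf_le_right)

end Pool.Agent.Work.MP_c41774_al.Full

end
end

section

/-!
# Item HN_TEN
-/

noncomputable section

namespace Pool.Agent.Work.MP_c41774_al.Full

open Finset MvPolynomial
open Pool.Agent.Work.MP_c41774_al.Wall

section

set_option linter.unusedSectionVars false

variable {L₁ L₂ : Type} [Fintype L₁] [DecidableEq L₁] [Fintype L₂] [DecidableEq L₂]

/-- `ph` as a linear map -/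
def HN_TEN_ph (b c : ℕ) : Fm b c (L₁ ⊕ L₂) →ₗ[ℚ] Fm b c (L₁ ⊕ L₂) where
  toFun H := ph H
  map_add' F G := by
    funext w
    simp only [ph, Pi.add_apply, mul_add]
  map_smul' r F := by
    funext w
    simp only [ph, Pi.smul_apply, mul_smul_comm, RingHom.id_apply]

/-- `Av` as a linear map -/
def HN_TEN_Av (b c : ℕ) (L : Type) [Fintype L] [DecidableEq L] : Fm b c L →ₗ[ℚ] Fm b c L where
  toFun H := Av H
  map_add' F G := by
    funext w
    simp only [Av, act, Pi.add_apply, Pi.smul_apply, Finset.sum_apply, map_add, smul_add,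
      Finset.sum_add_distrib]
  map_smul' r F := by
    funext w
    simp only [Av, act, Pi.smul_apply, Finset.sum_apply, map_smul, RingHom.id_apply,
      Finset.smul_sum]
    refine Finset.sum_congr rfl fun g _ => ?_
    simp only [smul_smul]
    congr 1
    ring

lemma HN_TEN_m (m : L₁ ⊕ L₂ →₀ ℕ) :
    m = Finsupp.mapDomain Sum.inl (m.comapDomain Sum.inl (Sum.inl_injective.injOn)) +
      Finsupp.mapDomain Sum.inr (m.comapDomain Sum.inr (Sum.inr_injective.injOn)) := by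
  ext l
  rcases l with l | l
  · rw [Finsupp.add_apply, Finsupp.mapDomain_apply Sum.inl_injective,
      Finsupp.mapDomain_of_notMem_range, Finsupp.comapDomain_apply, add_zero]
    simp
  · rw [Finsupp.add_apply, Finsupp.mapDomain_apply Sum.inr_injective,
      Finsupp.mapDomain_of_notMem_range, Finsupp.comapDomain_apply, zero_add]
    simp

lemma HN_TEN_single {b c : ℕ} (w : L₁ ⊕ L₂ → Col b c) (m : L₁ ⊕ L₂ →₀ ℕ) (r : ℚ) :
    (Pi.single w (monomial m r) : Fm b c (L₁ ⊕ L₂)) =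
      ox (Pi.single (w ∘ Sum.inl)
        (monomial (m.comapDomain Sum.inl (Sum.inl_injective.injOn)) r) : Fm b c L₁)
      (Pi.single (w ∘ Sum.inr)
        (monomial (m.comapDomain Sum.inr (Sum.inr_injective.injOn)) 1) : Fm b c L₂) := by
  funext w'
  unfold ox
  by_cases h : w' = w
  · subst h
    rw [Pi.single_eq_same, Pi.single_eq_same, Pi.single_eq_same, rename_monomial, rename_monomial,
      monomial_mul, ← HN_TEN_m, mul_one]
  · rw [Pi.single_eq_of_ne h]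
    by_cases h1 : w' ∘ Sum.inl = w ∘ Sum.inl
    · have h2 : w' ∘ Sum.inr ≠ w ∘ Sum.inr := by
        intro h2
        apply h
        funext l
        rcases l with l | l
        · exact congrFun h1 l
        · exact congrFun h2 l
      rw [Pi.single_eq_of_ne h2, map_zero, mul_zero]
    · rw [Pi.single_eq_of_ne h1, map_zero, zero_mul]

lemma HN_TEN_VV (h2 : C_AV) {b c : ℕ} {L : Type} [Fintype L] [DecidableEq L] (κ : ℕ × ℕ)
    (w : L → Col b c) (hw : chg w = κ) (m : L →₀ ℕ) (r : ℚ) :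
    Av (Pi.single w (monomial m r) : Fm b c L) ∈
      VV b c L κ (2 * b * c * m.degree + ∑ l, cwt b c (w l)) := by
  refine (h2 b c L _ κ _).2.2.2 ⟨fun w' hw' => ?_, fun w' m' hm' => ?_⟩
  · rw [Pi.single_eq_of_ne]
    rintro rfl
    exact hw' hw
  · by_cases h : w' = w
    · subst h
      rw [Pi.single_eq_same] at hm'
      have h3 := support_monomial_subset hm'
      rw [mem_singleton] at h3
      rw [h3]
    · rw [Pi.single_eq_of_ne h] at hm'
      simp at hm'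

lemma HN_TEN_deg (m : L₁ ⊕ L₂ →₀ ℕ) :
    m.degree = (m.comapDomain Sum.inl (Sum.inl_injective.injOn)).degree +
      (m.comapDomain Sum.inr (Sum.inr_injective.injOn)).degree := by
  rw [Finsupp.degree_eq_sum, Finsupp.degree_eq_sum, Finsupp.degree_eq_sum, Fintype.sum_sum_type]
  rfl

end

theorem pr_HN_TEN (h1 : HN_AV2) (h2 : C_AV) : HN_TEN := by
  intro b c hb hc L₁ L₂ _ _ _ _ κ' κ'' J H hH1 hH2
  have e1 : Av (ph H) = HN_TEN_Av b c (L₁ ⊕ L₂) (HN_TEN_ph b c H) := rfl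
  have e2 : H = ∑ w, ∑ m ∈ (H w).support, (Pi.single w (monomial m ((H w).coeff m))) := by
    conv_lhs => rw [← Finset.univ_sum_single H]
    refine Finset.sum_congr rfl fun w _ => ?_
    conv_lhs => rw [(H w).as_sum]
    funext w'
    rw [Finset.sum_apply]
    by_cases h : w' = w
    · subst h
      simp only [Pi.single_eq_same]
    · simp only [Pi.single_eq_of_ne h, Finset.sum_const_zero]
  rw [e1, e2, map_sum, map_sum]
  refine Submodule.sum_mem _ fun w _ => ?_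
  rw [map_sum, map_sum]
  refine Submodule.sum_mem _ fun m hm => ?_
  by_cases hw : chg (w ∘ Sum.inl) = κ' ∧ chg (w ∘ Sum.inr) = κ''
  · have e3 : HN_TEN_Av b c (L₁ ⊕ L₂) (HN_TEN_ph b c
        (Pi.single w (monomial m ((H w).coeff m)))) = Av (ph (Pi.single w
          (monomial m ((H w).coeff m)))) := rfl
    rw [e3, HN_TEN_single, h1]
    apply Submodule.subset_span
    refine ⟨_, _, ?_, _, HN_TEN_VV h2 κ' _ hw.1 _ _, _, HN_TEN_VV h2 κ'' _ hw.2 _ _, rfl⟩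
    have h3 := hH2 w m hm
    rw [HN_TEN_deg, Fintype.sum_sum_type] at h3
    rw [← h3]
    simp only [Function.comp_apply]
    ring
  · exfalso
    rw [hH1 w hw] at hm
    simp at hm

end Pool.Agent.Work.MP_c41774_al.Full

end
end

section

/-!
# Item HN_TENS: independence of outer products
-/

noncomputable section

namespace Pool.Agent.Work.MP_c41774_al.Full

open Finset MvPolynomial
open Pool.Agent.Work.MP_c41774_al.Wall

section
variable {L₁ L₂ : Type}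

theorem HN_TENS_span (h : MvPolynomial (L₁ ⊕ L₂) ℚ) :
    h ∈ Submodule.span ℚ {x : MvPolynomial (L₁ ⊕ L₂) ℚ | ∃ (p : MvPolynomial L₁ ℚ)
      (q : MvPolynomial L₂ ℚ), x = rename Sum.inl p * rename Sum.inr q} := by
  induction h using MvPolynomial.induction_on with
  | C a =>
    refine Submodule.subset_span ⟨MvPolynomial.C a, 1, ?_⟩
    rw [rename_C, map_one, mul_one]
  | add p q hp hq => exact Submodule.add_mem _ hp hq
  | mul_X p i hp =>
    induction hp using Submodule.span_induction with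
    | mem x hx =>
      obtain ⟨u, v, rfl⟩ := hx
      rcases i with i | i
      · refine Submodule.subset_span ⟨u * X i, v, ?_⟩
        rw [map_mul, rename_X]; ring
      · refine Submodule.subset_span ⟨u, v * X i, ?_⟩
        rw [map_mul, rename_X]; ring
    | zero => rw [zero_mul]; exact Submodule.zero_mem _
    | add x y _ _ hx hy => rw [add_mul]; exact Submodule.add_mem _ hx hy
    | smul r x _ hx => rw [smul_mul_assoc]; exact Submodule.smul_mem _ r hx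

variable [Fintype L₁] [DecidableEq L₁] [Fintype L₂] [DecidableEq L₂]

theorem HN_TENS_KI (κ₀ : ℕ × ℕ) (τ : L₁ ⊕ L₂ → Bool) (lam : MvPolynomial L₂ ℚ →ₗ[ℚ] ℚ)
    (hlam : ∀ g ∈ I0 κ₀ (τ ∘ Sum.inr), lam g = 0)
    (Cf : MvPolynomial (L₁ ⊕ L₂) ℚ →ₗ[ℚ] MvPolynomial L₁ ℚ)
    (hC : ∀ f g, Cf (rename Sum.inl f * rename Sum.inr g) = lam g • f)
    (h : MvPolynomial (L₁ ⊕ L₂) ℚ) (hh : h ∈ KI κ₀ τ) : Cf h ∈ Ip κ₀ (τ ∘ Sum.inl) tv := by
  have h1 : ∀ x ∈ (Ip κ₀ (τ ∘ Sum.inl) tv).map (rename (R := ℚ) (Sum.inl : L₁ → L₁ ⊕ L₂)),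
      ∀ y, Cf (y * x) ∈ Ip κ₀ (τ ∘ Sum.inl) tv := by
    intro x hx
    rw [Ideal.map] at hx
    induction hx using Submodule.span_induction with
    | mem x hx =>
      obtain ⟨f, hf, rfl⟩ := hx
      intro y
      have hy := HN_TENS_span y
      induction hy using Submodule.span_induction with
      | mem y hy =>
        obtain ⟨p, q, rfl⟩ := hy
        have e : (rename Sum.inl p * rename Sum.inr q * (rename Sum.inl) f :
            MvPolynomial (L₁ ⊕ L₂) ℚ) = rename Sum.inl (p * f) * rename Sum.inr q := by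
          rw [map_mul]; ring
        have e' : Cf (rename Sum.inl p * rename Sum.inr q * (rename Sum.inl) f) =
            lam q • (p * f) := by rw [e, hC]
        refine (congrArg (· ∈ Ip κ₀ (τ ∘ Sum.inl) tv) e').mpr ?_
        exact Submodule.smul_of_tower_mem _ _ (Ideal.mul_mem_left _ _ hf)
      | zero => rw [zero_mul, map_zero]; exact Ideal.zero_mem _
      | add a b' _ _ ha hb => rw [add_mul, map_add]; exact Ideal.add_mem _ ha hb
      | smul r a _ ha =>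
        rw [smul_mul_assoc, map_smul]; exact Submodule.smul_of_tower_mem _ _ ha
    | zero => intro y; rw [mul_zero, map_zero]; exact Ideal.zero_mem _
    | add a b' _ _ ha hb => intro y; rw [mul_add, map_add]; exact Ideal.add_mem _ (ha y) (hb y)
    | smul r a _ ha => intro y; rw [smul_eq_mul, ← mul_assoc]; exact ha _
  have h2 : ∀ x ∈ (I0 κ₀ (τ ∘ Sum.inr)).map (rename (R := ℚ) (Sum.inr : L₂ → L₁ ⊕ L₂)),
      ∀ y, Cf (y * x) = 0 := by
    intro x hx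
    rw [Ideal.map] at hx
    induction hx using Submodule.span_induction with
    | mem x hx =>
      obtain ⟨f, hf, rfl⟩ := hx
      intro y
      have hy := HN_TENS_span y
      induction hy using Submodule.span_induction with
      | mem y hy =>
        obtain ⟨p, q, rfl⟩ := hy
        have e : (rename Sum.inl p * rename Sum.inr q * (rename Sum.inr) f :
            MvPolynomial (L₁ ⊕ L₂) ℚ) = rename Sum.inl p * rename Sum.inr (q * f) := by
          rw [map_mul]; ring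
        have e' : Cf (rename Sum.inl p * rename Sum.inr q * (rename Sum.inr) f) =
            lam (q * f) • p := by rw [e, hC]
        refine e'.trans ?_
        rw [hlam _ (Ideal.mul_mem_left _ _ hf), zero_smul]
      | zero => rw [zero_mul, map_zero]
      | add a b' _ _ ha hb => rw [add_mul, map_add, ha, hb, add_zero]
      | smul r a _ ha => rw [smul_mul_assoc, map_smul, ha, smul_zero]
    | zero => intro y; rw [mul_zero, map_zero]
    | add a b' _ _ ha hb => intro y; rw [mul_add, map_add, ha, hb, add_zero]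
    | smul r a _ ha => intro y; rw [smul_eq_mul, ← mul_assoc]; exact ha _
  rw [KI] at hh
  obtain ⟨x, hx, y, hy, rfl⟩ := Submodule.mem_sup.mp hh
  rw [map_add]
  have e1 := h1 x hx 1
  have e2 := h2 y hy 1
  rw [one_mul] at e1 e2
  rw [e2, add_zero]
  exact e1

end

theorem pr_HN_TENS (h1 : HN_CON) : HN_TENS := by
  classical
  intro b c L₁ L₂ _ _ _ _ κ₀ ι₁ ι₂ _ _ F G hF hG a ha
  -- contraction with a functional
  have key : ∀ Λ : Fm b c L₂ →ₗ[ℚ] ℚ, (∀ x ∈ (vin (I0S L₂ κ₀) : Submodule ℚ (Fm b c L₂)), Λ x = 0) →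
      ∀ i, Λ (∑ j, a (i, j) • G j) = 0 := by
    intro Λ hΛ
    choose Cf hCf using fun w2 : L₂ → Col b c =>
      h1 L₁ L₂ (Λ ∘ₗ LinearMap.single ℚ (fun _ : L₂ → Col b c => MvPolynomial L₂ ℚ) w2)
    have hker : ∀ (w2 : L₂ → Col b c), ∀ g ∈ I0 κ₀ (tw w2),
        (Λ ∘ₗ LinearMap.single ℚ (fun _ : L₂ → Col b c => MvPolynomial L₂ ℚ) w2) g = 0 := by
      intro w2 g hg
      rw [LinearMap.comp_apply]
      refine hΛ _ (fun w => ?_)
      by_cases hw : w = w2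
      · subst hw
        rw [LinearMap.single_apply, Pi.single_eq_same]
        exact hg
      · rw [LinearMap.single_apply, Pi.single_eq_of_ne hw]
        exact Submodule.zero_mem _
    have hsum : ∀ g : Fm b c L₂, Λ g = ∑ w2, Λ (Pi.single w2 (g w2)) := by
      intro g
      rw [← map_sum, Finset.univ_sum_single]
    have hin : ∀ w1 : L₁ → Col b c, ∑ w2 : L₂ → Col b c,
        Cf w2 ((∑ x, a x • ox (F x.1) (G x.2)) (Sum.elim w1 w2)) ∈ Ip κ₀ (tw w1) tv := by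
      intro w1
      refine Ideal.sum_mem _ (fun w2 _ => ?_)
      exact HN_TENS_KI κ₀ (tw (Sum.elim w1 w2)) _ (hker w2) (Cf w2) (hCf w2) _
        (ha (Sum.elim w1 w2))
    have hval : ∀ w1 : L₁ → Col b c, ∑ w2 : L₂ → Col b c,
        Cf w2 ((∑ x, a x • ox (F x.1) (G x.2)) (Sum.elim w1 w2)) =
          (∑ i, Λ (∑ j, a (i, j) • G j) • F i) w1 := by
      intro w1
      have e1 : ∀ w2 : L₂ → Col b c, Cf w2 ((∑ x, a x • ox (F x.1) (G x.2)) (Sum.elim w1 w2)) =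
          ∑ x, (a x * Λ (Pi.single w2 (G x.2 w2))) • F x.1 w1 := by
        intro w2
        rw [Finset.sum_apply, map_sum]
        refine Finset.sum_congr rfl (fun x _ => ?_)
        rw [Pi.smul_apply, map_smul]
        have e2 : ox (F x.1) (G x.2) (Sum.elim w1 w2) =
            rename Sum.inl (F x.1 w1) * rename Sum.inr (G x.2 w2) := rfl
        rw [e2, hCf, smul_smul]
        rfl
      rw [Finset.sum_congr rfl (fun w2 _ => e1 w2), Finset.sum_comm, Fintype.sum_prod_type,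
        Finset.sum_apply]
      refine Finset.sum_congr rfl (fun i _ => ?_)
      rw [Pi.smul_apply, map_sum, Finset.sum_smul]
      refine Finset.sum_congr rfl (fun j _ => ?_)
      rw [map_smul, smul_eq_mul, hsum (G j), Finset.mul_sum, Finset.sum_smul]
    have h2 := hF (fun i => Λ (∑ j, a (i, j) • G j)) (fun w1 => by
      rw [← hval w1]; exact hin w1)
    intro i
    exact congrFun h2 i
  have h3 : ∀ i, ∑ j, a (i, j) • G j ∈ (vin (I0S L₂ κ₀) : Submodule ℚ (Fm b c L₂)) := by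
    intro i
    by_contra hc
    obtain ⟨Λ, hΛ1, hΛ2⟩ := Submodule.exists_le_ker_of_notMem hc
    exact hΛ1 (key Λ (fun x hx => hΛ2 hx) i)
  funext x
  obtain ⟨i, j⟩ := x
  exact congrFun (hG (fun j => a (i, j)) (h3 i)) j

end Pool.Agent.Work.MP_c41774_al.Full

end
end

section

/-!
# Item HN_TR: transport of cuts
-/

noncomputable section

namespace Pool.Agent.Work.MP_c41774_al.Full

open Finset MvPolynomial
open Pool.Agent.Work.MP_c41774_al.Wall

theorem HN_TR_cnt {L L' : Type} (e : L ≃ L') (P : L' → Prop) [DecidablePred P] (T : Finset L) :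
    #(T.filter fun l => P (e l)) = #((T.map e.toEmbedding).filter P) := by
  rw [Finset.filter_map, Finset.card_map]
  rfl

theorem pr_HN_TR : HN_TR := by
  intro L L' _ _ _ _ e κ₀ τ T
  refine ⟨?_, ?_⟩
  · unfold pr
    rw [map_prod]
    refine Finset.prod_bij (fun x _ => (e x.1, e x.2)) ?_ ?_ ?_ ?_
    · intro x hx
      unfold cut at hx ⊢
      rw [Finset.mem_filter] at hx ⊢
      obtain ⟨_, h1, h2, h3, h4, _⟩ := hx
      refine ⟨mem_univ _, ?_, ?_, h3, h4, rfl⟩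
      · exact Finset.mem_map.2 ⟨x.1, h1, rfl⟩
      · intro h
        obtain ⟨y, hy, hy2⟩ := Finset.mem_map.1 h
        have : y = x.2 := e.injective hy2
        exact h2 (this ▸ hy)
    · intro x _ y _ h
      rw [Prod.mk.injEq] at h
      exact Prod.ext (e.injective h.1) (e.injective h.2)
    · intro y hy
      unfold cut at hy ⊢
      rw [Finset.mem_filter] at hy
      obtain ⟨_, h1, h2, h3, h4, _⟩ := hy
      refine ⟨(e.symm y.1, e.symm y.2), ?_, ?_⟩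
      · rw [Finset.mem_filter]
        refine ⟨mem_univ _, ?_, ?_, ?_, ?_, rfl⟩
        · obtain ⟨z, hz, hz2⟩ := Finset.mem_map.1 h1
          have : e.symm y.1 = z := by rw [← hz2]; exact e.symm_apply_apply z
          rw [this]; exact hz
        · intro h
          refine h2 (Finset.mem_map.2 ⟨_, h, ?_⟩)
          exact e.apply_symm_apply y.2
        · show τ (e (e.symm y.1)) = true
          rw [e.apply_symm_apply]; exact h3
        · show τ (e (e.symm y.2)) = false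
          rw [e.apply_symm_apply]; exact h4
      · simp
    · intro x _
      rw [map_sub, rename_X, rename_X]
  · unfold th nx ny
    have h1 := HN_TR_cnt e (fun l => τ l = true) T
    have h2 := HN_TR_cnt e (fun l => τ l = false) T
    simp only [Function.comp_apply]
    rw [h1, h2]

end Pool.Agent.Work.MP_c41774_al.Full

end
end

section

/-!
# Item HN_ZERO: empty graded pieces
-/

noncomputable section

namespace Pool.Agent.Work.MP_c41774_al.Full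

open Finset MvPolynomial
open Pool.Agent.Work.MP_c41774_al.Wall

theorem HN_ZERO_card {L : Type} [DecidableEq L] (τ : L → Bool) (T : Finset L) :
    nx τ T + ny τ T = #T := by
  have h : (T.filter fun l => τ l = false) = T.filter fun l => ¬ τ l = true := by
    refine Finset.filter_congr fun l _ => ?_
    simp
  unfold nx ny
  rw [h]
  exact Finset.card_filter_add_card_filter_not _

theorem HN_ZERO_mono {L : Type} [Fintype L] [DecidableEq L] (τ : L → Bool) (T : Finset L) :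
    nx τ T ≤ nx τ univ ∧ ny τ T ≤ ny τ univ :=
  ⟨Finset.card_le_card (Finset.filter_subset_filter _ (Finset.subset_univ T)),
    Finset.card_le_card (Finset.filter_subset_filter _ (Finset.subset_univ T))⟩

theorem pr_HN_ZERO : HN_ZERO := by
  intro b c L _ _ κ₀ κ J n h
  have hle : VV b c L κ J ⊓ vin (JfS L κ₀ n) ≤ (vin (JfS L κ₀ (n + 1)) :
      Submodule ℚ (Fm b c L)) := by
    rintro F ⟨hF1, hF2⟩ w
    by_cases hw : chg w = κ
    · have hJ : Jf κ₀ (tw w) n ≤ Jf κ₀ (tw w) (n + 1) := by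
        unfold Jf
        refine sup_le le_sup_left (le_trans (Ideal.span_mono ?_) le_sup_right)
        rintro f ⟨T, hT0, hTn, rfl⟩
        refine ⟨T, hT0, ?_, rfl⟩
        rcases Nat.lt_or_ge n (#T) with h1 | h1
        · exact h1
        · exfalso
          have hT : nx (tw w) T + ny (tw w) T = n := by
            rw [HN_ZERO_card]
            omega
          obtain ⟨h3, h4⟩ := HN_ZERO_mono (tw w) T
          have hκ : (nx (tw w) T, ny (tw w) T) ≤ κ := by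
            rw [← hw]
            exact ⟨h3, h4⟩
          refine h _ hκ ?_ hT
          unfold Th0
          unfold th at hT0
          have h5 : (κ₀.2 : ℤ) * nx (tw w) T = (κ₀.1 : ℤ) * ny (tw w) T := by linarith
          exact_mod_cast h5
      exact hJ (hF2 w)
    · rw [hF1.2.1 w hw]
      exact Submodule.zero_mem _
  unfold dimQ
  have htop : (vin (JfS L κ₀ (n + 1)) : Submodule ℚ (Fm b c L)).submoduleOf
      (VV b c L κ J ⊓ vin (JfS L κ₀ n)) = ⊤ := by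
    rw [Submodule.submoduleOf]
    exact Submodule.comap_subtype_eq_top.mpr hle
  rw [htop]
  have : Subsingleton (↥(VV b c L κ J ⊓ vin (JfS L κ₀ n)) ⧸
      (⊤ : Submodule ℚ ↥(VV b c L κ J ⊓ vin (JfS L κ₀ n)))) :=
    Submodule.Quotient.subsingleton_iff.mpr rfl
  exact Module.finrank_zero_of_subsingleton

end Pool.Agent.Work.MP_c41774_al.Full

end
end

section

/-!
# Block H: constant coefficient of the wall series
-/

noncomputable section

namespace Pool.Agent.Work.MP_c41774_al.Full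

open Finset MvPolynomial
open Pool.Agent.Work.MP_c41774_al.Wall

theorem H_CONST_pt (b c : ℕ) (κ₀ κ : ℕ × ℕ) (h : κ = (0, 0)) (h1 : HN_EMP) (h2 : HN_SER) :
    hiB b c κ₀ κ = 1 := by
  subst h
  have e : hp b c κ₀ (0, 0) = fun j => if j = 0 then 1 else 0 := by
    funext j
    exact (h1 b c κ₀ j).1
  obtain ⟨-, -, -, -, -, h3, -, h4, -⟩ := h2
  rw [hiB, e, h3]
  simp [h4]

theorem pr_H_CONST (h1 : HN_EMP) (h2 : HN_SER) : H_CONST := by
  intro b c _ _ κ₀ _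
  rw [← PowerSeries.coeff_zero_eq_constantCoeff_apply, MB, PowerSeries.coeff_mk]
  exact H_CONST_pt b c κ₀ _ (by simp) h1 h2

end Pool.Agent.Work.MP_c41774_al.Full

end
end

section

/-!
# H_CROSS
-/

noncomputable section

namespace Pool.Agent.Work.MP_c41774_al.Full

open Finset MvPolynomial
open Pool.Agent.Work.MP_c41774_al.Wall

theorem H_CROSS_Jp (b c : ℕ) (κ' κ'' : ℕ × ℕ) (J : ℕ) :
    Jp b c κ' κ'' J = if 2 * b * c * (κ'.1 * κ''.2) ≤ J then
      antidiagonal (J - 2 * b * c * (κ'.1 * κ''.2)) else ∅ := by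
  split_ifs with h
  · ext x
    simp only [Jp, mem_filter, mem_product, mem_range, Finset.HasAntidiagonal.mem_antidiagonal]
    omega
  · ext x
    simp only [Jp, mem_filter, mem_product, mem_range, notMem_empty, iff_false]
    omega

theorem H_CROSS_ser (h3 : HN_SER) (b c : ℕ) (κ' κ'' : ℕ × ℕ) (f g : ℕ → ℕ) :
    (ser fun J => ∑ x ∈ Jp b c κ' κ'' J, f x.1 * g x.2) =
      w ((2 * b * c * (κ'.1 * κ''.2) : ℕ) : ℤ) * (ser f * ser g) := by
  rw [h3.1, h3.2.1]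
  congr 1
  funext J
  rw [H_CROSS_Jp]
  split_ifs with h
  · rfl
  · simp

theorem pr_H_CROSS (h1 : HN_COUNT) (h2 : HN_DIR) (h3 : HN_SER) : H_CROSS := by
  intro b c hb hc κ₀ hco κ
  have hκ₀ : κ₀ ≠ 0 := by
    rintro rfl
    simp at hco
  have hw : ∀ m n : ℤ, w (m + n) = w m * w n := h3.2.2.2.2.2.2.1
  have e1 : ser (hp b c κ₀ κ) = ∑ κ' ∈ (Finset.Iic κ).filter (Th0 κ₀),
      w ((2 * b * c * (κ'.1 * (κ - κ').2) : ℕ) : ℤ) *
        (ser (hp b c κ₀ κ') * ser (h0 b c κ₀ (κ - κ'))) := by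
    have : hp b c κ₀ κ = fun J => ∑ κ' ∈ (Finset.Iic κ).filter (Th0 κ₀),
        ∑ x ∈ Jp b c κ' (κ - κ') J, hp b c κ₀ κ' x.1 * h0 b c κ₀ (κ - κ') x.2 := by
      funext J
      exact h1 b c hb hc κ₀ κ hκ₀ J
    rw [this, ← h3.2.2.2.1 (ℕ × ℕ) ((Finset.Iic κ).filter (Th0 κ₀))
      (fun κ' J => ∑ x ∈ Jp b c κ' (κ - κ') J, hp b c κ₀ κ' x.1 * h0 b c κ₀ (κ - κ') x.2)]
    refine Finset.sum_congr rfl fun κ' _ => ?_
    exact H_CROSS_ser h3 b c κ' (κ - κ') _ _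
  unfold tmul
  have e2 : (∑ i ∈ Finset.Iic κ, w ((b : ℤ) * c * ((i.2 : ℤ) * κ.1 - i.1 * κ.2)) *
      (loB b c κ₀ i * dirf κ₀ (MB b c κ₀) (κ - i))) =
      ∑ κ' ∈ Finset.Iic κ, w ((b : ℤ) * c * ((((κ - κ').2 : ℕ) : ℤ) * κ.1 -
        (((κ - κ').1 : ℕ) : ℤ) * κ.2)) * (loB b c κ₀ (κ - κ') * dirf κ₀ (MB b c κ₀) κ') := by
    refine Finset.sum_nbij' (fun i => κ - i) (fun i => κ - i) ?_ ?_ ?_ ?_ ?_
    · intro i _
      exact Finset.mem_Iic.mpr tsub_le_self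
    · intro i _
      exact Finset.mem_Iic.mpr tsub_le_self
    · intro i hi
      exact tsub_tsub_cancel_of_le (Finset.mem_Iic.mp hi)
    · intro i hi
      exact tsub_tsub_cancel_of_le (Finset.mem_Iic.mp hi)
    · intro i hi
      have := tsub_tsub_cancel_of_le (Finset.mem_Iic.mp hi)
      simp only [this]
  rw [e2]
  unfold hiB
  rw [e1, Finset.mul_sum, Finset.sum_filter]
  refine Finset.sum_congr rfl fun κ' hκ' => ?_
  rw [h2 b c κ₀ hco κ']
  split_ifs with hT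
  · unfold hiB loB
    have hle := Finset.mem_Iic.mp hκ'
    have ha : (((κ - κ').1 : ℕ) : ℤ) = κ.1 - κ'.1 := by
      rw [Prod.fst_sub, Nat.cast_sub hle.1]
    have hb' : (((κ - κ').2 : ℕ) : ℤ) = κ.2 - κ'.2 := by
      rw [Prod.snd_sub, Nat.cast_sub hle.2]
    have key : w (-((b : ℤ) * c * κ.1 * κ.2)) * w ((2 * b * c * (κ'.1 * (κ - κ').2) : ℕ) : ℤ) =
        w ((b : ℤ) * c * ((((κ - κ').2 : ℕ) : ℤ) * κ.1 - (((κ - κ').1 : ℕ) : ℤ) * κ.2)) *
          (w (-((b : ℤ) * c * (κ - κ').1 * (κ - κ').2)) * w (-((b : ℤ) * c * κ'.1 * κ'.2))) := by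
      rw [← hw, ← hw, ← hw]
      congr 1
      push_cast
      rw [ha, hb']
      ring
    calc _ = (w (-((b : ℤ) * c * κ.1 * κ.2)) * w ((2 * b * c * (κ'.1 * (κ - κ').2) : ℕ) : ℤ)) *
          (ser (hp b c κ₀ κ') * ser (h0 b c κ₀ (κ - κ'))) := by ring
      _ = _ := by
        rw [key]
        ring
  · rw [mul_zero, mul_zero]

end Pool.Agent.Work.MP_c41774_al.Full

end
end

section

noncomputable section

namespace Pool.Agent.Work.MP_c41774_al.Full

open Finset MvPolynomial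
open Pool.Agent.Work.MP_c41774_al.Wall

/-- the functional equation of the series `∑ ser (cs s n) X^n` -/
theorem H_EX_aux (h2 : HN_CS) (h3 : HN_SER) (s : ℕ) (hs : 0 < s) (M : PowerSeries S)
    (hM : ∀ n, PowerSeries.coeff n M = ser (cs s n)) :
    PowerSeries.rescale (w (-(s : ℤ))) M = (1 + PowerSeries.X) * PowerSeries.rescale (w s) M := by
  obtain ⟨-, hw, hadd, -, -, -, hmul, h0, hpow⟩ := h3
  ext1 n
  rw [add_mul, one_mul, map_add, PowerSeries.coeff_rescale, PowerSeries.coeff_rescale, hM n]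
  cases n with
  | zero =>
    rw [PowerSeries.coeff_zero_X_mul, add_zero, pow_zero, pow_zero]
  | succ n =>
    rw [PowerSeries.coeff_succ_X_mul, PowerSeries.coeff_rescale, hM n]
    have key : ser (cs s (n + 1)) =
        w ((2 * s * (n + 1) : ℕ) : ℤ) * ser (cs s (n + 1)) +
          w ((s * (2 * n + 1) : ℕ) : ℤ) * ser (cs s n) := by
      rw [hw, hw, hadd]
      congr 1
      funext j
      exact (h2 s hs).2 n j
    rw [hpow, hpow, hpow]
    conv_lhs => rw [key]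
    rw [mul_add, ← mul_assoc, ← mul_assoc, ← hmul, ← hmul]
    congr 3
    · push_cast
      ring
    · push_cast
      ring

theorem pr_H_EX (h1 : HN_EXC) (h2 : HN_CS) (h3 : HN_SER) : H_EX := by
  intro b c hb hc
  refine H_EX_aux h2 h3 b hb _ fun n => ?_
  have h0 : w (0 : ℤ) = 1 := h3.2.2.2.2.2.2.2.1
  have e : PowerSeries.coeff n (MB b c (1, 0)) = hiB b c (1, 0) (n * 1, n * 0) :=
    PowerSeries.coeff_mk _ _
  rw [e, Nat.mul_one, Nat.mul_zero]
  have e2 : hp b c (1, 0) (n, 0) = cs b n := by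
    funext j
    exact (h1 b c hb hc n j).1
  unfold hiB
  rw [e2]
  simp only [Nat.cast_zero, mul_zero, neg_zero, h0, one_mul]

theorem pr_H_EY (h1 : HN_EXC) (h2 : HN_CS) (h3 : HN_SER) : H_EY := by
  intro b c hb hc
  refine H_EX_aux h2 h3 c hc _ fun n => ?_
  have h0 : w (0 : ℤ) = 1 := h3.2.2.2.2.2.2.2.1
  have e : PowerSeries.coeff n (MB b c (0, 1)) = hiB b c (0, 1) (n * 0, n * 1) :=
    PowerSeries.coeff_mk _ _
  rw [e, Nat.mul_one, Nat.mul_zero]
  have e2 : hp b c (0, 1) (0, n) = cs c n := by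
    funext j
    exact (h1 b c hb hc n j).2
  unfold hiB
  rw [e2]
  simp only [Nat.cast_zero, mul_zero, zero_mul, neg_zero, h0, one_mul]

end Pool.Agent.Work.MP_c41774_al.Full

end
end

section

/-!
# The full product
-/

noncomputable section

namespace Pool.Agent.Work.MP_c41774_al.Full

open Finset MvPolynomial
open Pool.Agent.Work.MP_c41774_al.Wall

theorem pr_H_HIINF (h1 : HN_KUN) (h2 : HN_SER) (h3 : HN_DIR) : H_HIINF := by
  intro b c hb hc κ
  obtain ⟨s1, -, -, -, -, -, -, s8, -⟩ := h2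
  have e1 : ∀ i : ℕ × ℕ, dirf (1, 0) (MB b c (1, 0)) i = if i.2 = 0 then hiB b c (1, 0) i else 0 := by
    intro i
    rw [h3 b c (1, 0) (by simp) i]
    have : Th0 (1, 0) i ↔ i.2 = 0 := by
      unfold Th0; simp [eq_comm]
    by_cases h : i.2 = 0
    · rw [if_pos h, if_pos (this.2 h)]
    · rw [if_neg h, if_neg (fun h' => h (this.1 h'))]
  have e2 : ∀ i : ℕ × ℕ, dirf (0, 1) (MB b c (0, 1)) i = if i.1 = 0 then hiB b c (0, 1) i else 0 := by
    intro i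
    rw [h3 b c (0, 1) (by simp) i]
    have : Th0 (0, 1) i ↔ i.1 = 0 := by
      unfold Th0; simp
    by_cases h : i.1 = 0
    · rw [if_pos h, if_pos (this.2 h)]
    · rw [if_neg h, if_neg (fun h' => h (this.1 h'))]
  unfold tmul
  rw [Finset.sum_eq_single ((κ.1, 0) : ℕ × ℕ)]
  · rw [e1, e2, if_pos rfl, if_pos (by simp)]
    have e3 : κ - ((κ.1, 0) : ℕ × ℕ) = (0, κ.2) := by
      ext <;> simp
    rw [e3]
    unfold hiB
    have e4 : w (-((b : ℤ) * c * ((κ.1, 0) : ℕ × ℕ).1 * (((κ.1, 0) : ℕ × ℕ).2 : ℕ))) = 1 := by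
      simp [s8]
    have e5 : w (-((b : ℤ) * c * ((0, κ.2) : ℕ × ℕ).1 * (((0, κ.2) : ℕ × ℕ).2 : ℕ))) = 1 := by
      simp [s8]
    rw [e4, e5, one_mul, one_mul, s1]
    congr 1
    · congr 1
      push_cast
      ring
    · congr 1
      funext j
      exact h1 b c hb hc κ j
  · intro i hi hne
    rw [e1, e2]
    by_cases h : i.2 = 0
    · by_cases h' : (κ - i).1 = 0
      · exfalso
        apply hne
        have hle := Finset.mem_Iic.1 hi
        have h4 : i.1 ≤ κ.1 := hle.1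
        rw [Prod.fst_sub] at h'
        ext
        · simp only; omega
        · exact h
      · rw [if_neg h']; ring
    · rw [if_neg h]; ring
  · intro h
    exfalso
    apply h
    rw [Finset.mem_Iic]
    exact ⟨le_refl _, Nat.zero_le _⟩

end Pool.Agent.Work.MP_c41774_al.Full

end
end

section

/-!
# Block H: H_LOZ
-/

noncomputable section

namespace Pool.Agent.Work.MP_c41774_al.Full

open Finset MvPolynomial
open Pool.Agent.Work.MP_c41774_al.Wall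

theorem H_LOZ_top {L : Type} [Fintype L] [DecidableEq L] [Nonempty L] (τ : L → Bool) :
    I0S L (0, 1) τ = ⊤ := by
  rw [eq_top_iff]
  intro f _
  show f ∈ I0 (0, 1) τ
  have h1 : (1 : MvPolynomial L ℚ) ∈ I0 (0, 1) τ := by
    refine Ideal.subset_span ⟨univ, Finset.univ_nonempty, ?_, ?_⟩
    · unfold th
      simp
    · unfold cut pr
      rw [Finset.filter_false_of_mem, Finset.prod_empty]
      intro e _ h
      exact h.2.1 (Finset.mem_univ _)
  rw [(Ideal.eq_top_iff_one _).mpr h1]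
  exact Submodule.mem_top

theorem H_LOZ_dim {b c : ℕ} {L : Type} [Fintype L] [DecidableEq L] [Nonempty L]
    (U : Submodule ℚ (Fm b c L)) : dimQ U (vin (I0S L (0, 1))) = 0 := by
  have h : (vin (I0S L (0, 1)) : Submodule ℚ (Fm b c L)) = ⊤ := by
    rw [eq_top_iff]
    intro F _ w
    rw [H_LOZ_top]
    exact Submodule.mem_top
  unfold dimQ
  rw [h]
  have h2 : (⊤ : Submodule ℚ (Fm b c L)).submoduleOf U = ⊤ := by
    rw [eq_top_iff]
    intro x _
    exact Submodule.mem_top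
  rw [h2]
  exact Module.finrank_zero_of_subsingleton

theorem pr_H_LOZ (h1 : HN_EMP) (h2 : HN_SER) : H_LOZ := by
  intro b c _ _ k
  obtain ⟨-, -, -, -, hz, ho, -, hw, -⟩ := h2
  unfold loB
  by_cases hk : k = 0
  · subst hk
    rw [if_pos rfl]
    have e1 : h0 b c (0, 1) 0 = fun j => if j = 0 then 1 else 0 := by
      funext j
      exact (h1 b c (0, 1) j).2
    rw [e1, ho, mul_one]
    have e2 : -((b : ℤ) * c * ((0 : ℕ × ℕ).1 : ℕ) * ((0 : ℕ × ℕ).2 : ℕ)) = 0 := by simp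
    rw [e2, hw]
  · rw [if_neg hk]
    have hne : Nonempty (Fin (k.1 + k.2)) := by
      refine ⟨⟨0, ?_⟩⟩
      by_contra hcon
      apply hk
      ext <;> simp <;> omega
    have e1 : h0 b c (0, 1) k = fun _ => 0 := by
      funext j
      exact H_LOZ_dim _
    rw [e1, hz, mul_zero]

end Pool.Agent.Work.MP_c41774_al.Full

end
end

section

/-!
# H_NEXT
-/

noncomputable section

namespace Pool.Agent.Work.MP_c41774_al.Full

open Finset MvPolynomial
open Pool.Agent.Work.MP_c41774_al.Wall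

theorem H_NEXT_num {a₁ a₂ b₁ b₂ x y : ℕ} (h12 : a₁ * b₂ < b₁ * a₂)
    (hno : ¬ (a₁ * y < x * a₂ ∧ x * b₂ < b₁ * y)) (hxy : 0 < x + y ∨ a₁ * y < x * a₂) :
    a₁ * y < x * a₂ ↔ b₁ * y ≤ x * b₂ := by
  constructor
  · intro h
    by_contra hc
    exact hno ⟨h, not_le.mp hc⟩
  · intro h
    rcases hxy with hxy | hxy
    · have ha2 : 0 < a₂ := by
        rcases Nat.eq_zero_or_pos a₂ with h0 | h0
        · subst h0; simp at h12
        · exact h0
      have hb1 : 0 < b₁ := by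
        rcases Nat.eq_zero_or_pos b₁ with h0 | h0
        · subst h0; simp at h12
        · exact h0
      rcases Nat.eq_zero_or_pos y with hy | hy
      · subst hy
        have hx : 0 < x := by omega
        simpa using Nat.mul_pos hx ha2
      · by_contra hc
        have hc' : x * a₂ ≤ a₁ * y := not_lt.mp hc
        -- b₁ y a₂ ≤ x b₂ a₂ ≤ a₁ y b₂ < b₁ a₂ y
        have h1 : b₁ * y * a₂ ≤ x * b₂ * a₂ := Nat.mul_le_mul_right _ h
        have h2 : x * a₂ * b₂ ≤ a₁ * y * b₂ := Nat.mul_le_mul_right _ hc'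
        have h3 : a₁ * b₂ * y < b₁ * a₂ * y := Nat.mul_lt_mul_of_pos_right h12 hy
        nlinarith
    · exact hxy

theorem H_NEXT_ideal {κ₁ κ₂ κ : ℕ × ℕ} (h12 : Slt κ₁ κ₂)
    (hno : ∀ κ' ≤ κ, ¬ (Slt κ₁ κ' ∧ Slt κ' κ₂)) {L : Type} [Fintype L] [DecidableEq L]
    (τ : L → Bool) (hτ : (nx τ univ, ny τ univ) = κ) : Ip κ₁ τ tv = I0 κ₂ τ := by
  unfold Ip I0
  congr 1
  have key : ∀ T : Finset L, 0 < th κ₁ τ T ↔ (T.Nonempty ∧ 0 ≤ th κ₂ τ T) := by
    intro T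
    have hle : (nx τ T, ny τ T) ≤ κ := by
      rw [← hτ]
      refine ⟨?_, ?_⟩
      · exact Finset.card_le_card (Finset.filter_subset_filter _ (Finset.subset_univ _))
      · exact Finset.card_le_card (Finset.filter_subset_filter _ (Finset.subset_univ _))
    have hno' := hno _ hle
    have hcard : nx τ T + ny τ T = #T := by
      unfold nx ny
      have := Finset.card_filter_add_card_filter_not (s := T) (fun l => τ l = true)
      simpa using this
    have ht1 : 0 < th κ₁ τ T ↔ κ₁.1 * ny τ T < nx τ T * κ₁.2 := by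
      unfold th
      rw [sub_pos]
      rw [← Nat.cast_mul, ← Nat.cast_mul, Nat.cast_lt, mul_comm κ₁.2]
    have ht2 : 0 ≤ th κ₂ τ T ↔ κ₂.1 * ny τ T ≤ nx τ T * κ₂.2 := by
      unfold th
      rw [sub_nonneg]
      rw [← Nat.cast_mul, ← Nat.cast_mul, Nat.cast_le, mul_comm κ₂.2]
    rw [ht1, ht2]
    constructor
    · intro h
      refine ⟨?_, (H_NEXT_num h12 hno' (Or.inr h)).mp h⟩
      rw [← Finset.card_pos, ← hcard]
      rcases Nat.eq_zero_or_pos (nx τ T) with h0 | h0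
      · rw [h0] at h; simp at h
      · omega
    · rintro ⟨hne, h⟩
      refine (H_NEXT_num h12 hno' (Or.inl ?_)).mpr h
      rw [hcard]
      exact Finset.card_pos.mpr hne
  ext f
  constructor
  · rintro ⟨T, hT, hf⟩
    exact ⟨T, ((key T).mp hT).1, ((key T).mp hT).2, hf⟩
  · rintro ⟨T, hne, hT, hf⟩
    exact ⟨T, (key T).mpr ⟨hne, hT⟩, hf⟩

theorem pr_H_NEXT : H_NEXT := by
  intro b c _ _ κ₁ κ₂ κ _ _ h12 hno
  unfold hiB loB
  congr 2
  funext j
  unfold hp h0 dimQ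
  have : (vin (IpS _ κ₁)).submoduleOf (VV b c (Fin (κ.1 + κ.2)) κ j) =
      (vin (I0S _ κ₂)).submoduleOf (VV b c (Fin (κ.1 + κ.2)) κ j) := by
    ext ⟨F, hF⟩
    simp only [Submodule.submoduleOf, Submodule.mem_comap, Submodule.subtype_apply]
    have hF2 := hF.2.1
    constructor
    · intro h w
      by_cases hw : chg w = κ
      · have := h w
        change F w ∈ Ip κ₁ (tw w) tv at this
        change F w ∈ I0 κ₂ (tw w)
        rwa [← H_NEXT_ideal h12 hno (tw w) hw]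
      · rw [hF2 w hw]; exact Submodule.zero_mem _
    · intro h w
      by_cases hw : chg w = κ
      · have := h w
        change F w ∈ I0 κ₂ (tw w) at this
        change F w ∈ Ip κ₁ (tw w) tv
        rwa [H_NEXT_ideal h12 hno (tw w) hw]
      · rw [hF2 w hw]; exact Submodule.zero_mem _
  rw [this]

end Pool.Agent.Work.MP_c41774_al.Full

end
end

section

/-!
# Block P, word level part (W): statements
-/

noncomputable section

namespace Pool.Agent.Work.MP_c41774_al.Full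

open Finset MvPolynomial
open Pool.Agent.Work.MP_c41774_al.Wall

/-! ### definitions -/

section defs

variable {b c : ℕ} {κ₀ : ℕ × ℕ}

/-- weight of a tuple of generators: `∑ (2 m_i + 1)` -/
def wt {d : ℕ} (s : Fin d → Gn b c κ₀) : ℕ := d + 2 * ∑ i, (s i).2.2.2

/-- total degree of a tuple of generators -/
def tdg {d : ℕ} (s : Fin d → Gn b c κ₀) : ℕ :=
  (∑ i, (s i).2.1) + 2 * b * c * (Ek κ₀ (ks s) + ∑ i, (s i).2.2.2)

/-- total size -/
def tsz {d : ℕ} (s : Fin d → Gn b c κ₀) : ℕ := ∑ i, ks s i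

/-- the product `e · ∏ F_i · ∏ z_i^{m_i}` -/
def Hg {d : ℕ} (k m : Fin d → ℕ) (F : ∀ i, Fm b c (ML κ₀ (k i))) : Fm b c (SL κ₀ k) :=
  fun w => pr (crs (tw w) (fs κ₀ k)) * bx F w * ∏ i, za k i ^ m i

/-- tuple from its parts -/
def mkS {d : ℕ} (k : Fin d → ℕ) (x : ∀ i, XX b c κ₀ (k i + 1)) (m : Fin d → ℕ) :
    Fin d → Gn b c κ₀ := fun i => ⟨k i, (x i).1, (x i).2, m i⟩

/-- block permutation: block `i` of `k'` goes to block `σ i` of `k` -/
def bpe (κ₀ : ℕ × ℕ) {d' d : ℕ} {k' : Fin d' → ℕ} {k : Fin d → ℕ} (σ : Fin d' ≃ Fin d)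
    (h : ∀ i, k' i = k (σ i)) : SL κ₀ k' ≃ SL κ₀ k :=
  Equiv.sigmaCongr σ fun i => finCongr (by rw [h i])

/-- `∏_{i<j, σ j < σ i} (-1)^{k_i k_j p₀ q₀}` -/
def eps (κ₀ : ℕ × ℕ) {d : ℕ} (k : Fin d → ℕ) (σ : Equiv.Perm (Fin d)) : ℚ :=
  ∏ i, ∏ j ∈ (Ioi i).filter (fun j => σ j < σ i), (-1 : ℚ) ^ (k i * k j * (κ₀.1 * κ₀.2))

/-- relabelled element `s` on `L` (not symmetrised) -/
def Ge (V : BBas b c κ₀) {d : ℕ} (s : Fin d → Gn b c κ₀) {L : Type} [Fintype L] [DecidableEq L]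
    (e : SL κ₀ (ks s) ≃ L) : Fm b c L := rel e (Hs V s)

/-- no odd element is repeated -/
def Adm {d : ℕ} (s : Fin d → Gn b c κ₀) : Prop := ∀ i j, s i = s j → god (s i) → i = j

/-- the symbol polynomial of `F` at the block structure `k` with respect to the functional `lam` -/
def sym {d : ℕ} {k : Fin d → ℕ} (lam : Fm b c (SL κ₀ k) →ₗ[ℚ] ℚ) (D : ℕ) (F : Fm b c (SL κ₀ k)) :
    MvPolynomial (Fin d) ℚ :=
  ∑ α ∈ (univ : Finset (Fin d)).finsuppAntidiag D, monomial α (lam (Cf α F))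

/-- functionals adapted to the basis, on one block -/
structure Mu (V : BBas b c κ₀) where
  mu : ∀ k : ℕ, XX b c κ₀ k → (Fm b c (ML κ₀ k) →ₗ[ℚ] ℚ)
  kill : ∀ k x, ∀ F ∈ NNk b c κ₀ k, mu k x F = 0
  one : ∀ k x y, mu k x (V.v k y.1 y.2) = if x = y then 1 else 0

end defs

/-! ### linear algebra -/

/-- dimension from an adapted family with arbitrary index type -/
def W_CARD : Prop := ∀ (E : Type) [AddCommGroup E] [Module ℚ E] (U W : Submodule ℚ E)
  (ι : Type) (v : ι → E), FiniteDimensional ℚ U → (∀ i, v i ∈ U) →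
    (∀ a : ι →₀ ℚ, (a.sum fun i r => r • v i) ∈ W → a = 0) →
    (∀ u ∈ U, u ∈ Submodule.span ℚ (Set.range v) ⊔ W) → dimQ U W = Nat.card ι

/-- existence of homogeneous bases -/
def W_BB : Prop := ∀ (b c : ℕ), 0 < b → 0 < c → ∀ κ₀ : ℕ × ℕ, Nonempty (BBas b c κ₀)

/-- existence of adapted functionals -/
def W_MU : Prop := ∀ (b c : ℕ), 0 < b → 0 < c → ∀ κ₀ : ℕ × ℕ, ∀ V : BBas b c κ₀, Nonempty (Mu V)

/-! ### formal properties of relabelling -/

/-- relabelling and the signed average -/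
def W_RELA : Prop := ∀ (b c : ℕ) (L L' L'' : Type) [Fintype L] [DecidableEq L] [Fintype L']
  [DecidableEq L'] [Fintype L''] [DecidableEq L''] (e : L ≃ L') (e' : L' ≃ L'') (F : Fm b c L),
    rel e' (rel e F) = rel (e.trans e') F ∧
    (∀ g : Equiv.Perm L, rel e (act g F) = act ((e.symm.trans g).trans e) (rel e F)) ∧
    (∀ g : Equiv.Perm L, act g F = rel g F) ∧ rel e (Av F) = Av (rel e F)

/-- relabelling a block product along a map compatible with the blocks -/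
def W_RELB : Prop := ∀ (b c : ℕ) (d : ℕ) (M M' : Fin d → Type) [∀ i, Fintype (M i)]
  [∀ i, DecidableEq (M i)] [∀ i, Fintype (M' i)] [∀ i, DecidableEq (M' i)]
  (g : ∀ i, M i ≃ M' i) (F : ∀ i, Fm b c (M i)),
    rel (Equiv.sigmaCongrRight g) (bx F) = bx (fun i => rel (g i) (F i))

/-- block permutations of the elements `Hs` -/
def W_RELP : Prop := ∀ (b c : ℕ) (κ₀ : ℕ × ℕ) (V : BBas b c κ₀) (d d' : ℕ)
  (s : Fin d → Gn b c κ₀) (s' : Fin d' → Gn b c κ₀) (σ : Fin d' ≃ Fin d)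
  (h : ∀ i, s' i = s (σ i)) (h' : ∀ i, ks s' i = ks s (σ i)),
    rel (bpe κ₀ σ h') (bv V (xs s')) = bv V (xs s) ∧
    rel (bpe κ₀ σ h') (Hs V s') = fun w => pr (crs (tw w) (σ.symm ∘ fs κ₀ (ks s))) *
      bv V (xs s) w * ∏ i, za (ks s) i ^ (ms s i)

/-- the sign of a block permutation -/
def W_SGN : Prop := ∀ (κ₀ : ℕ × ℕ) (d : ℕ) (k : Fin d → ℕ) (σ : Equiv.Perm (Fin d))
  (h : ∀ i, k i = k (σ i)), sg (bpe κ₀ σ h) =
    ∏ i, ∏ j ∈ (Ioi i).filter (fun j => σ j < σ i),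
      (-1 : ℚ) ^ ((k i * κ₀.1 + k i * κ₀.2) * (k j * κ₀.1 + k j * κ₀.2))

/-- signs inside the blocks -/
def W_SGB : Prop := ∀ (d : ℕ) (M : Fin d → Type) [∀ i, Fintype (M i)] [∀ i, DecidableEq (M i)]
  (g : ∀ i, Equiv.Perm (M i)), sg (Equiv.sigmaCongrRight g) = ∏ i, sg (g i)

/-- total sign of a stabilising permutation -/
def W_STAB : Prop := ∀ (b c : ℕ) (κ₀ : ℕ × ℕ) (d : ℕ) (s : Fin d → Gn b c κ₀)
  (σ : Equiv.Perm (Fin d)) (h' : ∀ i, ks s i = ks s (σ i)), (∀ i, s i = s (σ i)) → Adm s →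
    sg (bpe κ₀ σ h') * eps κ₀ (ks s) σ = 1

/-- total sign of the exchange of two equal odd elements -/
def W_ODDS : Prop := ∀ (b c : ℕ) (κ₀ : ℕ × ℕ) (d : ℕ) (s : Fin d → Gn b c κ₀) (i j : Fin d),
  i ≠ j → s i = s j → god (s i) → ∀ h' : ∀ l, ks s l = ks s (Equiv.swap i j l),
    sg (bpe κ₀ (Equiv.swap i j) h') * eps κ₀ (ks s) (Equiv.swap i j) = -1

/-! ### words, charges, degrees -/

/-- good words -/
def W_GW : Prop := ∀ (b c : ℕ) (κ₀ : ℕ × ℕ), 0 < κ₀.1 → 0 < κ₀.2 → ∀ (d : ℕ) (k : Fin d → ℕ),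
  (∀ i, 0 < k i) → ∀ w : SL κ₀ k → Col b c, Gw κ₀ k w →
    Good κ₀ (tw w) (fs κ₀ k) ∧ dege (tw w) (fs κ₀ k) = Ek κ₀ k ∧
    (∀ i, nx (tw w) (blk (fs κ₀ k) i) = k i * κ₀.1 ∧ ny (tw w) (blk (fs κ₀ k) i) = k i * κ₀.2) ∧
    chg w = ((∑ i, k i) * κ₀.1, (∑ i, k i) * κ₀.2)

/-- the products vanish on bad words -/
def W_BAD : Prop := ∀ (b c : ℕ) (κ₀ : ℕ × ℕ) (V : BBas b c κ₀) (d : ℕ) (s : Fin d → Gn b c κ₀)
  (w : SL κ₀ (ks s) → Col b c), ¬ Gw κ₀ (ks s) w → bv V (xs s) w = 0 ∧ Hs V s w = 0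

/-- charge, degree and weight of the elements -/
def W_MEM : Prop := ∀ (b c : ℕ), 0 < b → 0 < c → ∀ κ₀ : ℕ × ℕ, 0 < κ₀.1 → 0 < κ₀.2 →
  ∀ (V : BBas b c κ₀) (d : ℕ) (s : Fin d → Gn b c κ₀) (L : Type) [Fintype L] [DecidableEq L]
  (e : SL κ₀ (ks s) ≃ L),
    Ge V s e ∈ vin (Pf κ₀ (wt s)) ∧
    Fs V s e ∈ VV b c L (tsz s * κ₀.1, tsz s * κ₀.2) (tdg s) ⊓ vin (Pf κ₀ (wt s))

/-! ### shifts -/

/-- shifts and relabelling -/
def W_SHR : Prop := ∀ (L L' : Type) [Fintype L] [DecidableEq L] [Fintype L'] [DecidableEq L']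
  (D D' : Type) [DecidableEq D] [DecidableEq D'],
    (∀ (e : L ≃ L') (β : L' → D) (f : MvPolynomial L ℚ) (α : D →₀ ℕ),
      (Sh β (rename e f)).coeff α = rename e ((Sh (β ∘ e) f).coeff α)) ∧
    (∀ (σ : D ≃ D') (β : L → D) (f : MvPolynomial L ℚ), Sh (σ ∘ β) f = rename σ (Sh β f)) ∧
    (∀ (β : L → D) (f : MvPolynomial L ℚ), (Sh β f).coeff 0 = f)

/-- the polynomials `Dl` under permutations of the variables -/
def W_DLS : Prop := ∀ (κ₀ : ℕ × ℕ) (d : ℕ) (k k₀ : Fin d → ℕ) (σ : Equiv.Perm (Fin d)),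
  (∀ i, k i = k₀ (σ i)) →
    rename σ (Dl κ₀ k) = C (eps κ₀ k σ) * Dl κ₀ k₀ ∧ Ek κ₀ k = Ek κ₀ k₀ ∧
    (Dl κ₀ k).IsHomogeneous (Ek κ₀ k) ∧ Dl κ₀ k ≠ 0

/-- the products of basis elements and powers of `z` satisfy the relative growth conditions -/
def W_PRF : Prop := ∀ (b c : ℕ), 0 < b → 0 < c → ∀ κ₀ : ℕ × ℕ, 0 < κ₀.1 → 0 < κ₀.2 →
  ∀ (V : BBas b c κ₀) (d : ℕ) (s : Fin d → Gn b c κ₀) (w : SL κ₀ (ks s) → Col b c),
    Gw κ₀ (ks s) w →
      bv V (xs s) w * ∏ i, za (ks s) i ^ (ms s i) ∈ PR κ₀ (wt s) (tw w) (fs κ₀ (ks s)) ∧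
      ∀ α : Fin d →₀ ℕ, α ≠ 0 →
        (Sh (fs κ₀ (ks s)) (bv V (xs s) w)).coeff α ∈ Ip κ₀ (tw w) (fs κ₀ (ks s))

/-- top coefficients of the shift of a product -/
def W_TOP : Prop := ∀ (b c : ℕ), 0 < b → 0 < c → ∀ κ₀ : ℕ × ℕ, 0 < κ₀.1 → 0 < κ₀.2 →
  ∀ (V : BBas b c κ₀) (d : ℕ) (s : Fin d → Gn b c κ₀) (w : SL κ₀ (ks s) → Col b c),
    Gw κ₀ (ks s) w → ∀ (D : ℕ) (P : MvPolynomial (Fin d) ℚ), P.IsHomogeneous D →
      ∀ α : Fin d →₀ ℕ, α.degree = D + ∑ i, (s i).2.2.2 →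
        (map C P * Sh (fs κ₀ (ks s)) (bv V (xs s) w * ∏ i, za (ks s) i ^ (ms s i))).coeff α -
          C ((P * ∏ i, X i ^ (s i).2.2.2).coeff α) * bv V (xs s) w ∈
            Ip κ₀ (tw w) (fs κ₀ (ks s))

/-! ### spanning -/

/-- averaging over the block permutations -/
def W_AVG : Prop := ∀ (b c : ℕ) (κ₀ : ℕ × ℕ) (d : ℕ) (k m : Fin d → ℕ)
  (F : ∀ i, Fm b c (ML κ₀ (k i))) (L : Type) [Fintype L] [DecidableEq L] (e : SL κ₀ k ≃ L),
    Av (rel e (Hg k m F)) = Av (rel e (Hg k m fun i => Av (F i)))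

/-- expansion in the chosen bases -/
def W_EXP : Prop := ∀ (b c : ℕ), 0 < b → 0 < c → ∀ κ₀ : ℕ × ℕ, 0 < κ₀.1 → 0 < κ₀.2 →
  ∀ (V : BBas b c κ₀) (d : ℕ) (k m : Fin d → ℕ) (F : ∀ i, Fm b c (ML κ₀ (k i + 1))),
    (∀ i, (∀ g, act g (F i) = sg g • F i) ∧ F i ∈ vin (Pf κ₀ 1) ∧
      ∀ w, chg w ≠ ((k i + 1) * κ₀.1, (k i + 1) * κ₀.2) → F i w = 0) →
    ∀ (L : Type) [Fintype L] [DecidableEq L] (e : SL κ₀ (fun i => k i + 1) ≃ L),
      rel e (Hg (fun i => k i + 1) m F) ∈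
        Submodule.span ℚ (Set.range fun x : ∀ i, XX b c κ₀ (k i + 1) => Ge V (mkS k x m) e) ⊔
          vin (IpS L κ₀)

/-- one word: from the ring level span theorem -/
def W_ONE : Prop := ∀ (b c : ℕ), 0 < b → 0 < c → ∀ κ₀ : ℕ × ℕ, Nat.Coprime κ₀.1 κ₀.2 →
  0 < κ₀.1 → 0 < κ₀.2 →
  ∀ (L : Type) [Fintype L] [DecidableEq L] (K n : ℕ), 0 < K → ∀ w : L → Col b c,
    chg w = (K * κ₀.1, K * κ₀.2) → ∀ f ∈ Pf κ₀ n (tw w),
      (Pi.single w f : Fm b c L) ∈ Submodule.span ℚ {G | ∃ (d : ℕ) (k m : Fin d → ℕ)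
        (e : SL κ₀ (fun i => k i + 1) ≃ L) (F : ∀ i, Fm b c (ML κ₀ (k i + 1))),
          d + 2 * ∑ i, m i ≤ n ∧ (∀ i, F i ∈ vin (Pf κ₀ 1) ∧
            ∀ w, chg w ≠ ((k i + 1) * κ₀.1, (k i + 1) * κ₀.2) → F i w = 0) ∧
          G = rel e (Hg (fun i => k i + 1) m F)} ⊔ vin (IpS L κ₀)

/-- spanning by all tuples -/
def W_SPAN : Prop := ∀ (b c : ℕ), 0 < b → 0 < c → ∀ κ₀ : ℕ × ℕ, Nat.Coprime κ₀.1 κ₀.2 →
  0 < κ₀.1 → 0 < κ₀.2 → ∀ (V : BBas b c κ₀) (L : Type) [Fintype L] [DecidableEq L] (K n j : ℕ),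
    0 < K → ∀ F ∈ VV b c L (K * κ₀.1, K * κ₀.2) j ⊓ vin (Pf κ₀ n),
      F ∈ Submodule.span ℚ {G | ∃ (d : ℕ) (s : Fin d → Gn b c κ₀) (e : SL κ₀ (ks s) ≃ L),
        wt s ≤ n ∧ tdg s = j ∧ tsz s = K ∧ G = Fs V s e} ⊔ vin (IpS L κ₀)

/-- reordering -/
def W_SWP : Prop := ∀ (b c : ℕ), 0 < b → 0 < c → ∀ κ₀ : ℕ × ℕ, 0 < κ₀.1 → 0 < κ₀.2 →
  ∀ (V : BBas b c κ₀) (d : ℕ) (s s' : Fin d → Gn b c κ₀) (σ : Equiv.Perm (Fin d)),
  (∀ i, s' i = s (σ i)) → ∀ (h' : ∀ i, ks s' i = ks s (σ i)),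
    rel (bpe κ₀ σ h') (Hs V s') - eps κ₀ (ks s') σ • Hs V s ∈
      (vin (Pf κ₀ (wt s - 1)) : Submodule ℚ (Fm b c (SL κ₀ (ks s))))

/-- reordering of symmetrised elements -/
def W_SWF : Prop := ∀ (b c : ℕ), 0 < b → 0 < c → ∀ κ₀ : ℕ × ℕ, 0 < κ₀.1 → 0 < κ₀.2 →
  ∀ (V : BBas b c κ₀) (d : ℕ) (s s' : Fin d → Gn b c κ₀) (σ : Equiv.Perm (Fin d)),
  (∀ i, s' i = s (σ i)) → ∀ (L : Type) [Fintype L] [DecidableEq L] (e : SL κ₀ (ks s) ≃ L)
  (e' : SL κ₀ (ks s') ≃ L), ∃ ε : ℚ, Fs V s' e' - ε • Fs V s e ∈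
    (vin (Pf κ₀ (wt s - 1)) : Submodule ℚ (Fm b c L))

/-- repeated odd elements -/
def W_ODD : Prop := ∀ (b c : ℕ), 0 < b → 0 < c → ∀ κ₀ : ℕ × ℕ, 0 < κ₀.1 → 0 < κ₀.2 →
  ∀ (V : BBas b c κ₀) (d : ℕ) (s : Fin d → Gn b c κ₀), ¬ Adm s →
  ∀ (L : Type) [Fintype L] [DecidableEq L] (e : SL κ₀ (ks s) ≃ L),
    Fs V s e ∈ (vin (Pf κ₀ (wt s - 1)) : Submodule ℚ (Fm b c L))

/-! ### independence -/

/-- the symbol of a relabelled element, blocks not matching -/
def W_OFF : Prop := ∀ (b c : ℕ), 0 < b → 0 < c → ∀ κ₀ : ℕ × ℕ, 0 < κ₀.1 → 0 < κ₀.2 →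
  ∀ (V : BBas b c κ₀) (d₀ d : ℕ) (s₀ : Fin d₀ → Gn b c κ₀) (s : Fin d → Gn b c κ₀),
  wt s = wt s₀ → d₀ ≤ d → ∀ h : SL κ₀ (ks s) ≃ SL κ₀ (ks s₀),
    (¬ ∃ σ : Fin d ≃ Fin d₀, ∀ l, (h l).1 = σ l.1) → ∀ α : Fin d₀ →₀ ℕ,
      α.degree = Ek κ₀ (ks s₀) + ∑ i, (s₀ i).2.2.2 →
        Cf α (rel h (Hs V s)) ∈ NNs b c κ₀ (ks s₀)

/-- the symbol of a relabelled element, matching blocks -/
def W_ON : Prop := ∀ (b c : ℕ), 0 < b → 0 < c → ∀ κ₀ : ℕ × ℕ, 0 < κ₀.1 → 0 < κ₀.2 →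
  ∀ (V : BBas b c κ₀) (d : ℕ) (s₀ s : Fin d → Gn b c κ₀), wt s = wt s₀ →
  ∀ (h : SL κ₀ (ks s) ≃ SL κ₀ (ks s₀)) (σ : Equiv.Perm (Fin d)), (∀ l, (h l).1 = σ l.1) →
    ∀ α : Fin d →₀ ℕ, α.degree = Ek κ₀ (ks s₀) + ∑ i, (s₀ i).2.2.2 →
      Cf α (rel h (Hs V s)) - (eps κ₀ (ks s) σ *
        (Dl κ₀ (ks s₀) * ∏ i, X (σ i) ^ (s i).2.2.2 : MvPolynomial (Fin d) ℚ).coeff α) •
          rel h (bv V (xs s)) ∈ NNs b c κ₀ (ks s₀)

/-- lower weight -/
def W_LOW : Prop := ∀ (b c : ℕ), 0 < b → 0 < c → ∀ κ₀ : ℕ × ℕ, 0 < κ₀.1 → 0 < κ₀.2 →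
  ∀ (d : ℕ) (s₀ : Fin d → Gn b c κ₀) (n : ℤ), n < wt s₀ → ∀ F : Fm b c (SL κ₀ (ks s₀)),
    F ∈ vin (Pf κ₀ n) → ∀ α : Fin d →₀ ℕ, α.degree = Ek κ₀ (ks s₀) + ∑ i, (s₀ i).2.2.2 →
      Cf α F ∈ NNs b c κ₀ (ks s₀)

/-- the ideal -/
def W_LOI : Prop := ∀ (b c : ℕ) (κ₀ : ℕ × ℕ) (d : ℕ) (k : Fin d → ℕ) (F : Fm b c (SL κ₀ k)),
  F ∈ vin (IpS _ κ₀) → ∀ α : Fin d →₀ ℕ, Cf α F ∈ NNs b c κ₀ k

/-- values of the functionals on relabelled products -/
def W_VAL : Prop := ∀ (b c : ℕ), 0 < b → 0 < c → ∀ κ₀ : ℕ × ℕ, 0 < κ₀.1 → 0 < κ₀.2 →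
  ∀ (V : BBas b c κ₀) (U : Mu V) (d : ℕ) (s₀ s : Fin d → Gn b c κ₀)
  (Lam : Fm b c (SL κ₀ (ks s₀)) →ₗ[ℚ] ℚ),
    (∀ F : ∀ i, Fm b c (ML κ₀ (ks s₀ i)), Lam (bx F) = ∏ i, U.mu _ (xs s₀ i) (F i)) →
  ∀ (h : SL κ₀ (ks s) ≃ SL κ₀ (ks s₀)) (σ : Equiv.Perm (Fin d)), (∀ l, (h l).1 = σ l.1) →
    (Lam (rel h (bv V (xs s))) ≠ 0 → ∀ i, (⟨(s i).1, (s i).2.1, (s i).2.2.1⟩ :
      Σ (k : ℕ) (j : ℕ), Fin (bd b c κ₀ (k + 1) j)) =
        ⟨(s₀ (σ i)).1, (s₀ (σ i)).2.1, (s₀ (σ i)).2.2.1⟩) ∧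
    ((∀ i, s i = s₀ (σ i)) → ∀ h' : ∀ i, ks s i = ks s₀ (σ i),
      Lam (rel h (bv V (xs s))) = sg (h.trans (bpe κ₀ σ h').symm))

/-- the symbol of a symmetrised element -/
def W_SYM : Prop := ∀ (b c : ℕ), 0 < b → 0 < c → ∀ κ₀ : ℕ × ℕ, 0 < κ₀.1 → 0 < κ₀.2 →
  ∀ (V : BBas b c κ₀) (U : Mu V) (d₀ : ℕ) (s₀ : Fin d₀ → Gn b c κ₀), Adm s₀ →
  ∀ (L : Type) [Fintype L] [DecidableEq L] (e₀ : SL κ₀ (ks s₀) ≃ L),
    ∃ S : Fm b c L →ₗ[ℚ] MvPolynomial (Fin d₀) ℚ,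
      (∀ F ∈ vin (IpS L κ₀), S F = 0) ∧
      (∀ n : ℤ, n < wt s₀ → ∀ F ∈ vin (Pf κ₀ n), S F = 0) ∧
      (∀ (d : ℕ) (s : Fin d → Gn b c κ₀) (e : SL κ₀ (ks s) ≃ L), wt s = wt s₀ → d₀ ≤ d →
        ∃ Q : MvPolynomial (Fin d₀) ℚ, S (Fs V s e) = Dl κ₀ (ks s₀) * Q ∧
          ((¬ ∃ σ : Fin d ≃ Fin d₀, ∀ i, s i = s₀ (σ i)) → Q.coeff (ms s₀) = 0)) ∧
      ∃ Q : MvPolynomial (Fin d₀) ℚ, S (Fs V s₀ e₀) = Dl κ₀ (ks s₀) * Q ∧ Q.coeff (ms s₀) ≠ 0

/-- independence -/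
def W_IND : Prop := ∀ (b c : ℕ), 0 < b → 0 < c → ∀ κ₀ : ℕ × ℕ, 0 < κ₀.1 → 0 < κ₀.2 →
  ∀ (V : BBas b c κ₀) (L : Type) [Fintype L] [DecidableEq L] (ι : Type) (d : ι → ℕ)
  (s : ∀ x : ι, Fin (d x) → Gn b c κ₀) (e : ∀ x, SL κ₀ (ks (s x)) ≃ L),
    (∀ x, Adm (s x)) → (∀ x y, (∃ σ : Fin (d x) ≃ Fin (d y), ∀ i, s x i = s y (σ i)) → x = y) →
    ∀ a : ι →₀ ℚ, (a.sum fun x r => r • Fs V (s x) (e x)) ∈ vin (IpS L κ₀) → a = 0

/-! ### assembly -/

/-- super-multisets and tuples -/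
def W_TUP : Prop := ∀ (b c : ℕ) (κ₀ : ℕ × ℕ) (K : ℕ) (J : ℤ),
  ∃ (d : {m : Gn b c κ₀ →₀ ℕ // (∀ x, god x → m x ≤ 1) ∧ (m.sum fun x n => n * gsz x) = K ∧
      (m.sum fun x n => (n : ℤ) * gdg x) = J} → ℕ)
    (s : ∀ m, Fin (d m) → Gn b c κ₀),
    (∀ m, Adm (s m) ∧ tsz (s m) = K ∧
      (tdg (s m) : ℤ) - b * c * (K : ℤ) ^ 2 * κ₀.1 * κ₀.2 = J) ∧
    (∀ m m', (∃ σ : Fin (d m) ≃ Fin (d m'), ∀ i, s m i = s m' (σ i)) → m = m') ∧
    ∀ (d' : ℕ) (s' : Fin d' → Gn b c κ₀), Adm s' → tsz s' = K →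
      (tdg s' : ℤ) - b * c * (K : ℤ) ^ 2 * κ₀.1 * κ₀.2 = J →
        ∃ (m : _) (σ : Fin d' ≃ Fin (d m)), ∀ i, s' i = s m (σ i)

/-- bijections of the labels -/
def W_LAB : Prop := ∀ (b c : ℕ) (κ₀ : ℕ × ℕ) (d : ℕ) (s : Fin d → Gn b c κ₀),
  Nonempty (SL κ₀ (ks s) ≃ Fin (tsz s * κ₀.1 + tsz s * κ₀.2))

/-- reduction to representatives -/
def W_RED : Prop := ∀ (b c : ℕ), 0 < b → 0 < c → ∀ κ₀ : ℕ × ℕ, Nat.Coprime κ₀.1 κ₀.2 →
  0 < κ₀.1 → 0 < κ₀.2 → ∀ (V : BBas b c κ₀) (L : Type) [Fintype L] [DecidableEq L] (K j : ℕ),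
    0 < K → ∀ (ι : Type) (d : ι → ℕ) (s : ∀ x : ι, Fin (d x) → Gn b c κ₀)
      (e : ∀ x, SL κ₀ (ks (s x)) ≃ L),
      (∀ (d' : ℕ) (s' : Fin d' → Gn b c κ₀), Adm s' → tsz s' = K → tdg s' = j →
        ∃ (x : ι) (σ : Fin d' ≃ Fin (d x)), ∀ i, s' i = s x (σ i)) →
      ∀ n : ℕ, ∀ F ∈ VV b c L (K * κ₀.1, K * κ₀.2) j ⊓ vin (Pf κ₀ n),
        F ∈ Submodule.span ℚ (Set.range fun x => Fs V (s x) (e x)) ⊔ vin (IpS L κ₀)

/-- the case `K = 0` -/
def W_ZERO : Prop := ∀ (b c : ℕ), 0 < b → 0 < c → ∀ κ₀ : ℕ × ℕ, ∀ j : ℕ,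
    hp b c κ₀ (0, 0) j = smc (X := Gn b c κ₀) gsz gdg god 0 (j : ℤ)

end Pool.Agent.Work.MP_c41774_al.Full

end
end
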