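import Pool.Agent.Work.MP_c41774_al.Bd.B03

/-! Bundle of small proof modules (one section per former module). -/

section

/-!
# Arithmetic of the gcds
-/

noncomputable section

namespace Pool.Agent.Work.MP_c41774_al.Full.T

open Finset MvPolynomial
open Pool.Agent.Work.MP_c41774_al.Wall

theorem pr_ARI : T_ARI := by
  intro m b p q hm hb hp hq
  obtain ⟨g, p', m', hg, hco, hp', hm'⟩ :=
    Nat.exists_coprime' (m := p) (n := m) (Nat.gcd_pos_of_pos_left m hp)
  set r := Nat.gcd p' b with hr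
  have hp'0 : 0 < p' := by
    rcases Nat.eq_zero_or_pos p' with h | h
    · rw [h] at hp'; simp at hp'; omega
    · exact h
  have hrp : r ∣ p' := Nat.gcd_dvd_left _ _
  have hrb : r ∣ b := Nat.gcd_dvd_right _ _
  have hr0 : 0 < r := Nat.gcd_pos_of_pos_left _ hp'0
  refine ⟨r, Nat.gcd r q, hr0, Nat.gcd_pos_of_pos_left _ hr0, hrb, rfl, ?_, ?_⟩
  · have h1 : Nat.gcd (b * m) p = r * g := by
      rw [hm', hp', ← mul_assoc, Nat.gcd_mul_right]
      congr 1
      rw [Nat.Coprime.gcd_mul_right_cancel b hco.symm, Nat.gcd_comm]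
    rw [h1, hm', ← mul_assoc]
    exact ⟨m', by ring⟩
  · have h1 : Nat.gcd (b * m) p = r * g := by
      rw [hm', hp', ← mul_assoc, Nat.gcd_mul_right]
      congr 1
      rw [Nat.Coprime.gcd_mul_right_cancel b hco.symm, Nat.gcd_comm]
    have h2 : Nat.Coprime m' r := (hco.symm).coprime_dvd_right hrp
    have h3 : Nat.gcd (Nat.gcd r q * m) (Nat.gcd (b * m) p) = Nat.gcd r q * g := by
      rw [h1, hm', ← mul_assoc, Nat.gcd_mul_right]
      congr 1
      rw [Nat.Coprime.gcd_mul_right_cancel _ h2]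
      exact Nat.gcd_eq_left (Nat.gcd_dvd_left _ _)
    rw [h3]
    refine Nat.dvd_gcd ?_ ?_
    · rw [hp']
      exact Nat.mul_dvd_mul_right ((Nat.gcd_dvd_left _ _).trans hrp) g
    · rw [hm']
      obtain ⟨k, hk⟩ := Nat.gcd_dvd_right r q
      refine ⟨m' * k, ?_⟩
      nth_rewrite 1 [hk]
      ring

end Pool.Agent.Work.MP_c41774_al.Full.T

end
end

section

/-!
# Item CHIa: the multiplicities satisfy `ChiP`
-/

noncomputable section

namespace Pool.Agent.Work.MP_c41774_al.Full.T

open Finset MvPolynomial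
open Pool.Agent.Work.MP_c41774_al.Wall

theorem CHIa_dimQ_bot {E : Type} [AddCommGroup E] [Module ℚ E] (W : Submodule ℚ E) :
    dimQ (⊥ : Submodule ℚ E) W = 0 := by
  unfold dimQ
  exact Module.finrank_zero_of_subsingleton

theorem CHIa_fin (hUFD : T_UFD) (b c : ℕ) (L : Type) [Fintype L] [DecidableEq L]
    (V I : (L → Bool) → Submodule ℚ (MvPolynomial L ℚ)) (κ : ℕ × ℕ) (n : ℕ) :
    FS2 (fun i j => (chi b c V I κ n i j : ℤ)) := by
  obtain ⟨-, h2, h3⟩ := hUFD b c L
  refine ⟨((b : ℤ) + c) * Fintype.card L, fun i j hij => ?_⟩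
  have hw : ∃ w : L → Col b c, WA w = i ∧ WB w = j := by
    by_contra hno
    push Not at hno
    have hbot := h3 i j fun w hw => hno w hw.1 hw.2
    apply hij
    change ((dimQ (UU b c L κ n ⊓ WW b c L i j ⊓ vin V) (vin I) : ℕ) : ℤ) = 0
    rw [hbot, inf_bot_eq, bot_inf_eq, CHIa_dimQ_bot]
    rfl
  obtain ⟨w, rfl, rfl⟩ := hw
  obtain ⟨ha, hb, -⟩ := h2 w
  have hb0 : (0 : ℤ) ≤ b * Fintype.card L := by positivity
  have hc0 : (0 : ℤ) ≤ c * Fintype.card L := by positivity
  constructor <;> nlinarith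

theorem CHIa_sld (hCOM : T_COM) (hDDU : T_DDU) (hMAT : T_MAT) (hPW : T_PW) (hUFD : T_UFD)
    (b c : ℕ) (L : Type) [Fintype L] [DecidableEq L]
    (V I : (L → Bool) → Submodule ℚ (MvPolynomial L ℚ)) (κ : ℕ × ℕ) (n : ℕ) :
    SlD (UU b c L κ n ⊓ vin V) (vin I) (WW b c L) (PW b c L) (DD mEA) (DD mFA) (DD mEB)
      (DD mFB) := by
  obtain ⟨⟨tEA, tFA, tEB, tFB⟩, hw, hh, hcm, hP⟩ := hMAT hCOM b c L
  obtain ⟨hfd, hbd, hbt⟩ := hUFD b c L
  have key : ∀ m : Col b c → Col b c → ℚ, TyM m → ∀ u ∈ UU b c L κ n ⊓ vin V,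
      DD m u ∈ UU b c L κ n ⊓ vin V := by
    intro m hm u hu
    exact ⟨(hDDU b c L m u hm).1 κ n hu.1, (hDDU b c L m u hm).2 V hu.2⟩
  refine
    { eAU := key _ tEA
      fAU := key _ tFA
      eBU := key _ tEB
      fBU := key _ tFB
      eAW := fun u hu => (hDDU b c L _ u tEA).2 I hu
      fAW := fun u hu => (hDDU b c L _ u tFA).2 I hu
      eBW := fun u hu => (hDDU b c L _ u tEB).2 I hu
      fBW := fun u hu => (hDDU b c L _ u tFB).2 I hu
      eAw := fun i j x hx => (hw i j x hx).1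
      fAw := fun i j x hx => (hw i j x hx).2.1
      eBw := fun i j x hx => (hw i j x hx).2.2.1
      fBw := fun i j x hx => (hw i j x hx).2.2.2
      hA := fun i j x hx => (hh i j x hx).1
      hB := fun i j x hx => (hh i j x hx).2
      cEE := fun x => (hcm x).1
      cEF := fun x => (hcm x).2
      PU := fun i j u hu => ⟨(hPW b c L i j u).1 κ n hu.1, (hPW b c L i j u).2.1 V hu.2⟩
      PW := fun i j u hu => (hPW b c L i j u).2.1 I hu
      Pw := fun i j x => (hPW b c L i j x).2.2.1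
      Pid := fun i j x hx => (hPW b c L i j x).2.2.2.1 hx
      PeA := fun i j x => hP i j x
      bot := ?_
      fd := ?_ }
  · refine ⟨-(((b : ℤ) + c) * Fintype.card L), fun i j hij => ?_⟩
    apply hbt
    rintro w ⟨rfl, rfl⟩
    obtain ⟨ha, hb, -⟩ := hbd w
    have hb0 : (0 : ℤ) ≤ b * Fintype.card L := by positivity
    have hc0 : (0 : ℤ) ≤ c * Fintype.card L := by positivity
    rw [abs_le] at ha hb
    rcases hij with h | h
    · nlinarith
    · nlinarith
  · intro i j
    have := hfd κ n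
    exact Submodule.finiteDimensional_of_le (S₂ := UU b c L κ n)
      (inf_le_left.trans inf_le_left)

theorem pr_CHIa (hREL : T_REL) : T_CHIa := by
  intro hDDIM hCOM hDDU hMAT hPW hUFD hSYM hROT hTTU hDMAP hDSUM b c hb hc L _ _ V I κ n
  refine
    { fin := CHIa_fin hUFD b c L V I κ n
      symA := fun i j => ?_
      symB := fun i j => ?_
      dd := fun i j hi hj => ?_
      rotA := fun i j => ?_
      rotB := fun i j => ?_ }
  · exact_mod_cast (hSYM hTTU hDMAP b c L V I κ n i j).1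
  · exact_mod_cast (hSYM hTTU hDMAP b c L V I κ n i j).2
  · have h := hDDIM _ _ _ _ _ _ _ _ _ (CHIa_sld hCOM hDDU hMAT hPW hUFD b c L V I κ n) i j hi hj
    have e : ∀ i j : ℤ, UU b c L κ n ⊓ vin V ⊓ WW b c L i j =
        UU b c L κ n ⊓ WW b c L i j ⊓ vin V := fun i j => inf_right_comm _ _ _
    rw [e, e, e, e] at h
    exact_mod_cast h
  · exact (hROT hTTU hDMAP hDSUM hPW hUFD b c hb hc L V I κ n i j).1
  · exact (hROT hTTU hDMAP hDSUM hPW hUFD b c hb hc L V I κ n i j).2

end Pool.Agent.Work.MP_c41774_al.Full.T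

end
end

section

/-!
# Block T, item COM: commutator of colour derivations
-/

set_option autoImplicit false

noncomputable section

namespace Pool.Agent.Work.MP_c41774_al.Full.T

open Finset MvPolynomial
open Pool.Agent.Work.MP_c41774_al.Wall

section COM

variable {b c : ℕ} {L : Type} [Fintype L] [DecidableEq L]

/-- the part with two different positions -/
def COM_off (m m' : Col b c → Col b c → ℚ) (F : Fm b c L) (w : L → Col b c) :
    MvPolynomial L ℚ :=
  ∑ l, ∑ l', if l' = l then 0 else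
    ∑ x, ∑ y, (m (w l) x * m' (w l') y) • F (Function.update (Function.update w l x) l' y)

theorem COM_off_symm (m m' : Col b c → Col b c → ℚ) (F : Fm b c L) (w : L → Col b c) :
    COM_off m m' F w = COM_off m' m F w := by
  unfold COM_off
  rw [Finset.sum_comm]
  refine Finset.sum_congr rfl fun l _ => Finset.sum_congr rfl fun l' _ => ?_
  by_cases h : l' = l
  · rw [if_pos h, if_pos h.symm]
  · rw [if_neg h, if_neg (Ne.symm h), Finset.sum_comm]
    refine Finset.sum_congr rfl fun x _ => Finset.sum_congr rfl fun y _ => ?_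
    rw [mul_comm, Function.update_comm h]

theorem COM_diag (m m' : Col b c → Col b c → ℚ) (F : Fm b c L) (w : L → Col b c) :
    DD (mmul m m') F w =
      ∑ l, ∑ x, ∑ y, (m (w l) x * m' x y) • F (Function.update w l y) := by
  change ∑ l, ∑ a, mmul m m' (w l) a • F (Function.update w l a) = _
  refine Finset.sum_congr rfl fun l _ => ?_
  rw [Finset.sum_comm]
  refine Finset.sum_congr rfl fun a _ => ?_
  unfold mmul
  rw [Finset.sum_smul]

theorem COM_split (m m' : Col b c → Col b c → ℚ) (F : Fm b c L) (w : L → Col b c) :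
    DD m (DD m' F) w = COM_off m m' F w + DD (mmul m m') F w := by
  rw [COM_diag]
  unfold COM_off
  rw [← Finset.sum_add_distrib]
  change ∑ l, ∑ x, m (w l) x • (∑ l', ∑ y, m' (Function.update w l x l') y •
    F (Function.update (Function.update w l x) l' y)) = _
  refine Finset.sum_congr rfl fun l _ => ?_
  have h1 : (∑ x, m (w l) x • (∑ l', ∑ y, m' (Function.update w l x l') y •
      F (Function.update (Function.update w l x) l' y))) =
      ∑ l', ∑ x, ∑ y, (m (w l) x * m' (Function.update w l x l') y) •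
        F (Function.update (Function.update w l x) l' y) := by
    rw [Finset.sum_comm]
    refine Finset.sum_congr rfl fun x _ => ?_
    rw [Finset.smul_sum]
    refine Finset.sum_congr rfl fun l' _ => ?_
    rw [Finset.smul_sum]
    refine Finset.sum_congr rfl fun y _ => ?_
    rw [smul_smul]
  rw [h1]
  have h2 : ∀ l', (∑ x, ∑ y, (m (w l) x * m' (Function.update w l x l') y) •
        F (Function.update (Function.update w l x) l' y)) =
      (if l' = l then 0 else
        ∑ x, ∑ y, (m (w l) x * m' (w l') y) • F (Function.update (Function.update w l x) l' y)) +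
      (if l' = l then ∑ x, ∑ y, (m (w l) x * m' x y) • F (Function.update w l y) else 0) := by
    intro l'
    by_cases h : l' = l
    · subst h
      rw [if_pos rfl, if_pos rfl, zero_add]
      refine Finset.sum_congr rfl fun x _ => Finset.sum_congr rfl fun y _ => ?_
      rw [Function.update_self, Function.update_idem]
    · rw [if_neg h, if_neg h, add_zero]
      refine Finset.sum_congr rfl fun x _ => Finset.sum_congr rfl fun y _ => ?_
      rw [Function.update_of_ne h]
  rw [Finset.sum_congr rfl fun l' _ => h2 l', Finset.sum_add_distrib,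
    Finset.sum_ite_eq' Finset.univ l, if_pos (Finset.mem_univ l)]

theorem COM_DD_sub (m m' : Col b c → Col b c → ℚ) (F : Fm b c L) (w : L → Col b c) :
    DD (fun x y => m x y - m' x y) F w = DD m F w - DD m' F w := by
  change ∑ l, ∑ a, (m (w l) a - m' (w l) a) • F (Function.update w l a) =
    (∑ l, ∑ a, m (w l) a • F (Function.update w l a)) -
      ∑ l, ∑ a, m' (w l) a • F (Function.update w l a)
  rw [← Finset.sum_sub_distrib]
  refine Finset.sum_congr rfl fun l _ => ?_
  rw [← Finset.sum_sub_distrib]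
  refine Finset.sum_congr rfl fun a _ => ?_
  rw [sub_smul]

end COM

/-- commutator of colour derivations -/
theorem pr_COM : T_COM := by
  intro b c L _ _ m m' F
  funext w
  change DD m (DD m' F) w - DD m' (DD m F) w = _
  rw [COM_DD_sub, COM_split, COM_split, COM_off_symm m m']
  abel

end Pool.Agent.Work.MP_c41774_al.Full.T

end
end

section

/-!
# Item DDIM: the mixed second difference of the weight multiplicities is nonnegative
-/

noncomputable section

namespace Pool.Agent.Work.MP_c41774_al.Full.T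

open Finset MvPolynomial
open Pool.Agent.Work.MP_c41774_al.Wall

theorem DDIM_dimQ {E : Type*} [AddCommGroup E] [Module ℚ E] (U W : Submodule ℚ E) :
    dimQ U W = Module.finrank ℚ (U.map W.mkQ) := by
  have hker : LinearMap.ker (W.mkQ ∘ₗ U.subtype) = W.submoduleOf U := by
    rw [LinearMap.ker_comp, Submodule.ker_mkQ]
    rfl
  have hran : LinearMap.range (W.mkQ ∘ₗ U.subtype) = U.map W.mkQ := by
    rw [LinearMap.range_comp, Submodule.range_subtype]
  rw [dimQ, ← hker, ← hran]
  exact (W.mkQ ∘ₗ U.subtype).quotKerEquivRange.finrank_eq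

theorem DDIM_inj {E : Type*} [AddCommGroup E] [Module ℚ E] (X : Submodule ℚ E)
    (g : E →ₗ[ℚ] E) (h : ∀ x ∈ X, g x = 0 → x = 0) :
    Module.finrank ℚ (X.map g) = Module.finrank ℚ X := by
  have hinj : Function.Injective (g.domRestrict X) := by
    rw [← LinearMap.ker_eq_bot, LinearMap.ker_eq_bot']
    intro x hx
    exact Subtype.ext (h x.1 x.2 hx)
  rw [← LinearMap.range_domRestrict]
  exact LinearMap.finrank_range_of_inj hinj

theorem pr_DDIM (hREL : T_REL) : T_DDIM := by
  intro E _ _ U W Ew P eA fA eB fB H i j hi hj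
  obtain ⟨M, hM⟩ := H.bot
  set EA : (E ⧸ W) →ₗ[ℚ] (E ⧸ W) := W.mapQ W eA (fun x hx => H.eAW x hx) with hEA
  set EB : (E ⧸ W) →ₗ[ℚ] (E ⧸ W) := W.mapQ W eB (fun x hx => H.eBW x hx) with hEB
  have hEAx : ∀ x, EA (W.mkQ x) = W.mkQ (eA x) := fun x => rfl
  have hEBx : ∀ x, EB (W.mkQ x) = W.mkQ (eB x) := fun x => rfl
  set X : ℤ → ℤ → Submodule ℚ E := fun i j => U ⊓ Ew i j with hX
  set Xq : ℤ → ℤ → Submodule ℚ (E ⧸ W) := fun i j => (X i j).map W.mkQ with hXq
  have hfin : ∀ i j, Module.Finite ℚ (Xq i j) := by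
    intro i j
    have := H.fd i j
    exact Module.Finite.map (X i j) W.mkQ
  simp only [DDIM_dimQ]
  change Module.finrank ℚ (Xq (i - 2) j) + Module.finrank ℚ (Xq i (j - 2)) ≤
    Module.finrank ℚ (Xq i j) + Module.finrank ℚ (Xq (i - 2) (j - 2))
  have hz : ∀ x : E, W.mkQ x = 0 ↔ x ∈ W := fun x => by
    rw [← LinearMap.mem_ker, Submodule.ker_mkQ]
  have ha : ∀ y ∈ Xq (i - 2) j, EA y = 0 → y = 0 := by
    rintro y ⟨x, hx, rfl⟩ h
    rw [hEAx, hz] at h
    rw [hz]
    exact hREL E eA fA W (fun i => Ew i j) (fun i x hx => H.fAw i j x hx)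
      (fun i x hx => H.hA i j x hx) ⟨M, fun i hi => hM i j (Or.inl hi)⟩ H.eAW H.fAW (i - 2)
      (by omega) x hx.2 h
  have hb : ∀ y ∈ Xq i (j - 2), EB y = 0 → y = 0 := by
    rintro y ⟨x, hx, rfl⟩ h
    rw [hEBx, hz] at h
    rw [hz]
    exact hREL E eB fB W (fun j => Ew i j) (fun j x hx => H.fBw i j x hx)
      (fun j x hx => H.hB i j x hx) ⟨M, fun j hj => hM i j (Or.inr hj)⟩ H.eBW H.fBW (j - 2)
      (by omega) x hx.2 h
  have hA1 : (Xq (i - 2) j).map EA ≤ Xq i j := by
    rintro _ ⟨_, ⟨x, hx, rfl⟩, rfl⟩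
    refine ⟨eA x, ⟨H.eAU x hx.1, ?_⟩, (hEAx x).symm⟩
    have := H.eAw _ _ x hx.2
    rwa [sub_add_cancel] at this
  have hB1 : (Xq i (j - 2)).map EB ≤ Xq i j := by
    rintro _ ⟨_, ⟨x, hx, rfl⟩, rfl⟩
    refine ⟨eB x, ⟨H.eBU x hx.1, ?_⟩, (hEBx x).symm⟩
    have := H.eBw _ _ x hx.2
    rwa [sub_add_cancel] at this
  have hAB : (Xq (i - 2) j).map EA ⊓ (Xq i (j - 2)).map EB ≤
      (Xq (i - 2) (j - 2)).map (EB ∘ₗ EA) := by
    rintro z ⟨⟨_, ⟨y, hy, rfl⟩, hz1⟩, ⟨_, ⟨x, hx, rfl⟩, hz2⟩⟩
    rw [hEAx] at hz1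
    rw [hEBx] at hz2
    have hd : eB x - eA y ∈ W := by
      rw [← hz, map_sub, hz1, hz2, sub_self]
    have hxZ : x ∈ U.map eA ⊔ W := by
      refine hREL E eB fB (U.map eA ⊔ W) (fun j => Ew i j) (fun j x hx => H.fBw i j x hx)
        (fun j x hx => H.hB i j x hx) ⟨M, fun j hj => hM i j (Or.inr hj)⟩ ?_ ?_ (j - 2)
        (by omega) x hx.2 ?_
      · intro z hz
        obtain ⟨_, ⟨u, hu, rfl⟩, w, hw, rfl⟩ := Submodule.mem_sup.1 hz
        rw [map_add, ← H.cEE]
        exact Submodule.add_mem_sup (Submodule.mem_map_of_mem (H.eBU u hu)) (H.eBW w hw)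
      · intro z hz
        obtain ⟨_, ⟨u, hu, rfl⟩, w, hw, rfl⟩ := Submodule.mem_sup.1 hz
        rw [map_add, ← H.cEF]
        exact Submodule.add_mem_sup (Submodule.mem_map_of_mem (H.fBU u hu)) (H.fBW w hw)
      · have : eB x = eA y + (eB x - eA y) := by abel
        rw [this]
        exact Submodule.add_mem_sup (Submodule.mem_map_of_mem hy.1) hd
    obtain ⟨_, ⟨u, hu, rfl⟩, w, hw, hx2⟩ := Submodule.mem_sup.1 hxZ
    have h1 : x = eA (P (i - 2) (j - 2) u) + P i (j - 2) w := by
      have h2 := H.Pid i (j - 2) x hx.2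
      have h3 := H.PeA (i - 2) (j - 2) u
      rw [sub_add_cancel] at h3
      rw [h3, ← map_add, hx2, h2]
    refine ⟨W.mkQ (P (i - 2) (j - 2) u),
      ⟨P (i - 2) (j - 2) u, ⟨H.PU _ _ u hu, H.Pw _ _ u⟩, rfl⟩, ?_⟩
    rw [← hz2, LinearMap.comp_apply, hEAx, hEBx]
    have h4 : eB x = eB (eA (P (i - 2) (j - 2) u)) + eB (P i (j - 2) w) := by
      rw [← map_add, ← h1]
    rw [h4, map_add, (hz _).2 (H.eBW _ (H.PW _ _ w hw)), add_zero]
  have hfa := DDIM_inj (Xq (i - 2) j) EA ha
  have hfb := DDIM_inj (Xq i (j - 2)) EB hb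
  have := hfin i j
  have := hfin (i - 2) j
  have := hfin i (j - 2)
  have := hfin (i - 2) (j - 2)
  rw [← hfa, ← hfb, ← Submodule.finrank_sup_add_finrank_inf_eq]
  refine add_le_add ?_ ?_
  · exact Submodule.finrank_mono (sup_le hA1 hB1)
  · exact (Submodule.finrank_mono hAB).trans (Submodule.finrank_map_le _ _)

end Pool.Agent.Work.MP_c41774_al.Full.T

end
end

section

/-!
# Item DDU: colour matrices preserve signed invariants, charge, degree and values
-/

noncomputable section

namespace Pool.Agent.Work.MP_c41774_al.Full.T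

open Finset MvPolynomial
open Pool.Agent.Work.MP_c41774_al.Wall

section DDU

variable {b c : ℕ} {L : Type} [Fintype L] [DecidableEq L]

theorem DDU_apply (m : Col b c → Col b c → ℚ) (F : Fm b c L) (w : L → Col b c) :
    DD m F w = ∑ l, ∑ a, m (w l) a • F (Function.update w l a) := rfl

theorem DDU_act (m : Col b c → Col b c → ℚ) (F : Fm b c L) (g : Equiv.Perm L) :
    act g (DD m F) = DD m (act g F) := by
  funext w
  rw [DDU_apply]
  show rename g (DD m F (w ∘ g)) = _
  rw [DDU_apply, map_sum,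
    ← Equiv.sum_comp g fun l => ∑ a, m (w l) a • act g F (Function.update w l a)]
  refine Finset.sum_congr rfl fun l _ => ?_
  rw [map_sum]
  refine Finset.sum_congr rfl fun a _ => ?_
  rw [map_smul]
  show m (w (g l)) a • rename g (F (Function.update (w ∘ g) l a)) =
    m (w (g l)) a • rename g (F (Function.update w (g l) a ∘ g))
  rw [Function.update_comp_equiv, Equiv.symm_apply_apply]

omit [Fintype L] in
theorem DDU_tw {m : Col b c → Col b c → ℚ} (hm : TyM m) (w : L → Col b c) (l : L) (a : Col b c)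
    (h : m (w l) a ≠ 0) : tw (Function.update w l a) = tw w := by
  funext l'
  by_cases hl : l' = l
  · subst hl
    simp only [tw, Function.update_self]
    exact (hm _ _ h).symm
  · simp only [tw, Function.update_of_ne hl]

end DDU

theorem pr_DDU : T_DDU := by
  intro b c L _ _ m F hm
  refine ⟨fun κ n hF => ⟨fun g => ?_, fun w hw => ?_, fun w => ?_⟩, fun V hV w => ?_⟩
  · rw [DDU_act, hF.1 g, map_smul]
  · rw [DDU_apply]
    refine Finset.sum_eq_zero fun l _ => Finset.sum_eq_zero fun a _ => ?_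
    by_cases h : m (w l) a = 0
    · rw [h, zero_smul]
    · rw [hF.2.1, smul_zero]
      intro h'
      apply hw
      rw [← h']
      unfold chg
      rw [DDU_tw hm w l a h]
  · rw [DDU_apply]
    refine IsHomogeneous.sum _ _ _ fun l _ => IsHomogeneous.sum _ _ _ fun a _ => ?_
    exact (homogeneousSubmodule L ℚ n).smul_mem _ (hF.2.2 _)
  · rw [DDU_apply]
    refine Submodule.sum_mem _ fun l _ => Submodule.sum_mem _ fun a _ => ?_
    by_cases h : m (w l) a = 0
    · rw [h, zero_smul]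
      exact Submodule.zero_mem _
    · refine Submodule.smul_mem _ _ ?_
      have := hV (Function.update w l a)
      rwa [DDU_tw hm w l a h] at this

end Pool.Agent.Work.MP_c41774_al.Full.T

end
end

section

/-!
# Item T DEC: decomposition of `bd` into weight multiplicities
-/

noncomputable section

namespace Pool.Agent.Work.MP_c41774_al.Full.T

set_option linter.unusedSectionVars false

open Finset MvPolynomial
open Pool.Agent.Work.MP_c41774_al.Wall

variable {b c : ℕ} {L : Type} [Fintype L] [DecidableEq L]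

lemma DEC_WA_comp (w : L → Col b c) (g : Equiv.Perm L) : WA (w ∘ g) = WA w :=
  Equiv.sum_comp g fun l => wa (w l)

lemma DEC_WB_comp (w : L → Col b c) (g : Equiv.Perm L) : WB (w ∘ g) = WB w :=
  Equiv.sum_comp g fun l => wb (w l)

lemma DEC_PW_apply (i j : ℤ) (F : Fm b c L) (w : L → Col b c) :
    PW b c L i j F w = if WA w = i ∧ WB w = j then F w else 0 := rfl

lemma DEC_PW_VV {κ : ℕ × ℕ} {J : ℕ} (i j : ℤ) {F : Fm b c L} (hF : F ∈ VV b c L κ J) :
    PW b c L i j F ∈ VV b c L κ J := by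
  obtain ⟨h1, h2, h3⟩ := hF
  refine ⟨fun g => ?_, fun w hw => ?_, fun w m hm => ?_⟩
  · funext w
    have h := congrFun (h1 g) w
    simp only [act, Pi.smul_apply] at h ⊢
    rw [DEC_PW_apply, DEC_PW_apply, DEC_WA_comp, DEC_WB_comp]
    split_ifs
    · exact h
    · simp
  · rw [DEC_PW_apply, h2 w hw]
    split_ifs <;> rfl
  · rw [DEC_PW_apply] at hm
    split_ifs at hm
    · exact h3 w m hm
    · simp at hm

lemma DEC_hom_iff (n : ℕ) (p : MvPolynomial L ℚ) :
    p.IsHomogeneous n ↔ ∀ m ∈ p.support, m.degree = n := by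
  constructor
  · intro h m hm
    have h1 := h (mem_support_iff.mp hm)
    rwa [Finsupp.degree_eq_weight_one] at *
  · intro h m hm
    have h1 := h m (mem_support_iff.mpr hm)
    rwa [Finsupp.degree_eq_weight_one] at h1

lemma DEC_dimQ_bot {E : Type*} [AddCommGroup E] [Module ℚ E] (W : Submodule ℚ E) :
    dimQ (⊥ : Submodule ℚ E) W = 0 := by
  unfold dimQ
  have : Subsingleton ((⊥ : Submodule ℚ E) ⧸ W.submoduleOf ⊥) :=
    (Submodule.Quotient.mk_surjective _).subsingleton
  exact Module.finrank_zero_of_subsingleton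

variable (b c L) in
/-- the finite set of weights of words -/
def DEC_wts : Finset (ℤ × ℤ) :=
  (univ : Finset (L → Col b c)).image fun w => (WA w, WB w)

lemma DEC_mem_wts (w : L → Col b c) : (WA w, WB w) ∈ DEC_wts b c L :=
  mem_image_of_mem _ (mem_univ w)

/-- comparison of the two gradings on a weight space -/
lemma DEC_mem_iff (hb : 0 < b) (hc : 0 < c) (hU : T_UFD) {κ : ℕ × ℕ} {J n : ℕ} {i j : ℤ}
    (h : b * i + c * j = (J : ℤ) - 2 * b * c * n - b * c * Fintype.card L) {F : Fm b c L}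
    (hF : F ∈ WW b c L i j) : F ∈ VV b c L κ J ↔ F ∈ UU b c L κ n := by
  have key : ∀ w, F w ≠ 0 → ∀ m : L →₀ ℕ,
      (2 * b * c * m.degree + ∑ l, cwt b c (w l) = J ↔ m.degree = n) := by
    intro w hw m
    obtain ⟨h1, h2⟩ := hF w hw
    have h3 := ((hU b c L).2.1 w).2.2
    rw [h1, h2, h] at h3
    have hbc : (0 : ℤ) < 2 * b * c := by positivity
    constructor
    · intro h4
      have h5 : (2 * b * c * (m.degree : ℤ) + ∑ l, (cwt b c (w l) : ℤ)) = J := by
        exact_mod_cast h4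
      rw [h3] at h5
      have h6 : (2 * b * c : ℤ) * (m.degree - n) = 0 := by linarith
      rcases mul_eq_zero.mp h6 with h7 | h7
      · exact absurd h7 hbc.ne'
      · exact_mod_cast (sub_eq_zero.mp h7)
    · intro h4
      have h5 : (2 * b * c * (m.degree : ℤ) + ∑ l, (cwt b c (w l) : ℤ)) = J := by
        rw [h3, h4]
        ring
      exact_mod_cast h5
  constructor
  · rintro ⟨h1, h2, h3⟩
    refine ⟨h1, h2, fun w => ?_⟩
    rw [DEC_hom_iff]
    intro m hm
    have hw : F w ≠ 0 := by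
      rintro h0
      rw [h0] at hm
      simp at hm
    exact (key w hw m).mp (h3 w m hm)
  · rintro ⟨h1, h2, h3⟩
    refine ⟨h1, h2, fun w m hm => ?_⟩
    have hw : F w ≠ 0 := by
      rintro h0
      rw [h0] at hm
      simp at hm
    exact (key w hw m).mpr ((DEC_hom_iff n (F w)).mp (h3 w) m hm)

/-- the weight spaces without a matching degree vanish -/
lemma DEC_eq_bot (hU : T_UFD) {κ : ℕ × ℕ} {J : ℕ} {i j : ℤ}
    (h : ∀ n : ℕ, b * i + c * j ≠ (J : ℤ) - 2 * b * c * n - b * c * Fintype.card L) :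
    VV b c L κ J ⊓ WW b c L i j = ⊥ := by
  rw [eq_bot_iff]
  rintro F ⟨⟨_, _, h3⟩, hF⟩
  rw [Submodule.mem_bot]
  funext w
  by_contra hw
  have hw' : F w ≠ 0 := hw
  obtain ⟨h1, h2⟩ := hF w hw'
  obtain ⟨m, hm⟩ := MvPolynomial.support_nonempty.mpr hw'
  have h4 := h3 w m hm
  have h5 := ((hU b c L).2.1 w).2.2
  rw [h1, h2] at h5
  have h6 : (2 * b * c * (m.degree : ℤ) + ∑ l, (cwt b c (w l) : ℤ)) = J := by
    exact_mod_cast h4
  rw [h5] at h6
  exact h m.degree (by linarith)

lemma DEC_wts_nonneg (hU : T_UFD) {z : ℤ × ℤ} (hz : z ∈ DEC_wts b c L) :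
    0 ≤ b * z.1 + c * z.2 + b * c * (Fintype.card L : ℤ) := by
  obtain ⟨w, _, rfl⟩ := mem_image.mp hz
  have h := ((hU b c L).2.1 w).2.2
  simp only
  rw [← h]
  exact Finset.sum_nonneg fun l _ => by positivity

lemma DEC_not_wts (hU : T_UFD) {z : ℤ × ℤ} (hz : z ∉ DEC_wts b c L) :
    WW b c L z.1 z.2 = ⊥ := by
  apply (hU b c L).2.2
  rintro w ⟨h1, h2⟩
  exact hz (mem_image.mpr ⟨w, mem_univ _, by rw [h1, h2]⟩)

lemma DEC_chi_zero (hU : T_UFD) (V I : (L → Bool) → Submodule ℚ (MvPolynomial L ℚ)) (κ : ℕ × ℕ)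
    (n : ℕ) {z : ℤ × ℤ} (hz : z ∉ DEC_wts b c L) : chi b c V I κ n z.1 z.2 = 0 := by
  unfold chi
  rw [DEC_not_wts hU hz, inf_bot_eq, bot_inf_eq, DEC_dimQ_bot]

/-- one weight -/
lemma DEC_one (hb : 0 < b) (hc : 0 < c) (hU : T_UFD)
    (V I : (L → Bool) → Submodule ℚ (MvPolynomial L ℚ)) (κ : ℕ × ℕ) {J N : ℕ} (hJ : J < N)
    {z : ℤ × ℤ} (hz : z ∈ DEC_wts b c L) :
    (dimQ (VV b c L κ J ⊓ vin V ⊓ WW b c L z.1 z.2) (vin I) : ℤ) = ∑ n ∈ range N,
      if b * z.1 + c * z.2 = (J : ℤ) - 2 * b * c * n - b * c * Fintype.card L then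
        (chi b c V I κ n z.1 z.2 : ℤ) else 0 := by
  have hbc : (0 : ℤ) < 2 * b * c := by positivity
  by_cases hex : ∃ n : ℕ, b * z.1 + c * z.2 = (J : ℤ) - 2 * b * c * n - b * c * Fintype.card L
  · obtain ⟨n, hn⟩ := hex
    have hnN : n ∈ range N := by
      rw [mem_range]
      have h1 := DEC_wts_nonneg hU hz
      rw [hn] at h1
      have h2 : (n : ℤ) * (2 * b * c) ≤ J := by linarith
      have h3 : (n : ℤ) * 1 ≤ n * (2 * b * c) :=
        mul_le_mul_of_nonneg_left hbc (by positivity)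
      have h4 : (n : ℤ) ≤ J := by linarith
      have h5 : n ≤ J := by exact_mod_cast h4
      omega
    rw [Finset.sum_eq_single n, if_pos hn]
    · congr 1
      unfold chi
      congr 1
      ext F
      simp only [Submodule.mem_inf]
      constructor
      · rintro ⟨⟨h1, h2⟩, h3⟩
        exact ⟨⟨(DEC_mem_iff hb hc hU hn h3).mp h1, h3⟩, h2⟩
      · rintro ⟨⟨h1, h3⟩, h2⟩
        exact ⟨⟨(DEC_mem_iff hb hc hU hn h3).mpr h1, h2⟩, h3⟩
    · intro n' _ hne
      rw [if_neg]
      intro hn'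
      rw [hn] at hn'
      have h1 : (2 * b * c : ℤ) * (n' - n) = 0 := by linarith
      rcases mul_eq_zero.mp h1 with h2 | h2
      · exact hbc.ne' h2
      · exact hne (by exact_mod_cast (sub_eq_zero.mp h2))
    · intro h
      exact absurd hnN h
  · push Not at hex
    rw [Finset.sum_eq_zero, inf_right_comm, DEC_eq_bot hU hex, bot_inf_eq, DEC_dimQ_bot]
    · rfl
    · intro n _
      rw [if_neg (hex n)]

/-- the finsum in `fch` is a sum over the weights of words -/
lemma DEC_fch (hU : T_UFD) (V I : (L → Bool) → Submodule ℚ (MvPolynomial L ℚ)) (κ : ℕ × ℕ)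
    (n : ℕ) (y : ℤ) :
    fch b c (fun i j => (chi b c V I κ n i j : ℤ)) y = ∑ z ∈ DEC_wts b c L,
      if b * z.1 + c * z.2 = y then (chi b c V I κ n z.1 z.2 : ℤ) else 0 := by
  unfold fch
  refine finsum_eq_sum_of_support_subset _ fun z hz => ?_
  by_contra hz'
  apply hz
  have h : z ∉ DEC_wts b c L := fun h => hz' (Finset.mem_coe.mpr h)
  simp only
  rw [DEC_chi_zero hU V I κ n h]
  simp

theorem pr_DEC : T_DEC := by
  intro hS hP hU b c hb hc κ₀ k
  have hcard : (Fintype.card (Fin (k * κ₀.1 + k * κ₀.2)) : ℤ) = k * κ₀.1 + k * κ₀.2 := by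
    rw [Fintype.card_fin]
    push_cast
    ring
  constructor
  · intro J N hJ
    have hUX : ∀ z : ℤ × ℤ, VV b c (Fin (k * κ₀.1 + k * κ₀.2)) (k * κ₀.1, k * κ₀.2) J ⊓
        vin (Pf κ₀ 1) ⊓ WW b c _ z.1 z.2 ≤
        VV b c (Fin (k * κ₀.1 + k * κ₀.2)) (k * κ₀.1, k * κ₀.2) J ⊓ WW b c _ z.1 z.2 := by
      rintro z F ⟨⟨h1, h2⟩, h3⟩
      exact ⟨h1, h3⟩
    have h := hS (Fm b c (Fin (k * κ₀.1 + k * κ₀.2))) (ℤ × ℤ) (DEC_wts b c (Fin (k * κ₀.1 + k * κ₀.2)))
      (fun z => PW b c (Fin (k * κ₀.1 + k * κ₀.2)) z.1 z.2)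
      (VV b c (Fin (k * κ₀.1 + k * κ₀.2)) (k * κ₀.1, k * κ₀.2) J ⊓ vin (Pf κ₀ 1))
      (vin (IpS (Fin (k * κ₀.1 + k * κ₀.2)) κ₀))
      (fun z => WW b c (Fin (k * κ₀.1 + k * κ₀.2)) z.1 z.2) ?_ ?_ ?_ ?_ ?_ ?_
    · unfold bd
      rw [h]
      push_cast
      rw [Finset.sum_congr rfl fun z hz => DEC_one hb hc hU (Pf κ₀ 1) (IpS _ κ₀)
        (k * κ₀.1, k * κ₀.2) hJ hz, Finset.sum_comm]
      refine Finset.sum_congr rfl fun n _ => ?_
      unfold chiB
      rw [DEC_fch hU]
      simp only [hcard]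
    · rintro z _ F ⟨h1, h2⟩
      exact ⟨⟨DEC_PW_VV _ _ h1, (hP b c _ z.1 z.2 F).2.1 _ h2⟩, (hP b c _ z.1 z.2 F).2.2.1⟩
    · intro z _ F hF
      exact (hP b c _ z.1 z.2 F).2.1 _ hF
    · intro z _ F _ hF
      exact (hP b c _ z.1 z.2 F).2.2.2.1 hF
    · intro z _ z' _ hne F _ hF
      exact (hP b c _ z'.1 z'.2 F).2.2.2.2 z.1 z.2 (fun h => hne h) hF
    · intro F _
      funext w
      rw [Finset.sum_apply, Finset.sum_eq_single (WA w, WB w)]
      · rw [DEC_PW_apply, if_pos ⟨rfl, rfl⟩]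
      · intro z _ hz
        rw [DEC_PW_apply, if_neg]
        rintro ⟨h1, h2⟩
        exact hz (by rw [h1, h2])
      · intro h
        exact absurd (DEC_mem_wts w) h
    · intro z _
      by_cases hex : ∃ n : ℕ, b * z.1 + c * z.2 = (J : ℤ) - 2 * b * c * n -
          b * c * Fintype.card (Fin (k * κ₀.1 + k * κ₀.2))
      · obtain ⟨n, hn⟩ := hex
        have := (hU b c (Fin (k * κ₀.1 + k * κ₀.2))).1 (k * κ₀.1, k * κ₀.2) n
        refine Submodule.finiteDimensional_of_le (S₂ := UU b c _ (k * κ₀.1, k * κ₀.2) n) ?_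
        intro F hF
        have h1 := hUX z hF
        exact (DEC_mem_iff hb hc hU hn h1.2).mp h1.1
      · push Not at hex
        have h1 : VV b c (Fin (k * κ₀.1 + k * κ₀.2)) (k * κ₀.1, k * κ₀.2) J ⊓
            vin (Pf κ₀ 1) ⊓ WW b c _ z.1 z.2 = ⊥ := by
          rw [eq_bot_iff, ← DEC_eq_bot hU hex]
          exact hUX z
        rw [h1]
        infer_instance
  · intro n x hx
    unfold chiB
    rw [DEC_fch hU]
    refine Finset.sum_eq_zero fun z hz => ?_
    rw [if_neg]
    intro h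
    have h1 := DEC_wts_nonneg hU hz
    rw [h, hcard] at h1
    have h2 : (0 : ℤ) ≤ 2 * b * c * n := by positivity
    linarith

end Pool.Agent.Work.MP_c41774_al.Full.T

end
end

section

/-!
# Block T: dimensions and isomorphisms
-/

noncomputable section

namespace Pool.Agent.Work.MP_c41774_al.Full.T

open Finset MvPolynomial
open Pool.Agent.Work.MP_c41774_al.Wall

theorem pr_DMAP : T_DMAP := by
  intro E _ _ φ ψ U U' W h1 h2 hU hU' hW hW'
  let e : U ≃ₗ[ℚ] U' := LinearEquiv.ofLinear (φ.restrict hU) (ψ.restrict hU')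
    (by
      refine LinearMap.ext fun x => Subtype.ext ?_
      exact h2 x)
    (by
      refine LinearMap.ext fun x => Subtype.ext ?_
      exact h1 x)
  have he : ∀ x : U, ((e x : U') : E) = φ x := fun x => rfl
  have hmap : (W.submoduleOf U).map (e : U →ₗ[ℚ] U') = W.submoduleOf U' := by
    apply le_antisymm
    · rintro y ⟨x, hx, rfl⟩
      have hx' : (x : E) ∈ W := hx
      show ((e x : U') : E) ∈ W
      rw [he]
      exact hW _ hx'
    · intro y hy
      have hy' : (y : E) ∈ W := hy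
      refine ⟨⟨ψ y, hU' _ y.2⟩, ?_, ?_⟩
      · show ψ y ∈ W
        exact hW' _ hy'
      · apply Subtype.ext
        exact h2 y
  exact LinearEquiv.finrank_eq (Submodule.Quotient.equiv _ _ e hmap)

end Pool.Agent.Work.MP_c41774_al.Full.T

end
end

section

/-!
# Block T, item DSUM: direct sum decomposition of a subquotient by projections
-/

noncomputable section

namespace Pool.Agent.Work.MP_c41774_al.Full.T

open Finset MvPolynomial
open Pool.Agent.Work.MP_c41774_al.Wall

section DSUM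

variable {E : Type} [AddCommGroup E] [Module ℚ E] {ι : Type} (t : Finset ι)
  (P : ι → E →ₗ[ℚ] E) (U W : Submodule ℚ E) (X : ι → Submodule ℚ E)

theorem DSUM_mem {U' : Submodule ℚ E} (x : U') : x ∈ W.submoduleOf U' ↔ (x : E) ∈ W := Iff.rfl

/-- the projection `U → U ∩ X i` -/
def DSUM_pr (h1 : ∀ i ∈ t, ∀ u ∈ U, P i u ∈ U ∧ P i u ∈ X i) (i : t) :
    U →ₗ[ℚ] (U ⊓ X i : Submodule ℚ E) :=
  LinearMap.codRestrict (U ⊓ X i) ((P i).comp U.subtype) fun u => h1 i i.2 u u.2

theorem DSUM_pr_coe (h1 : ∀ i ∈ t, ∀ u ∈ U, P i u ∈ U ∧ P i u ∈ X i) (i : t) (u : U) :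
    ((DSUM_pr t P U X h1 i u : (U ⊓ X i : Submodule ℚ E)) : E) = P i u := rfl

/-- the map on the quotients -/
def DSUM_q (h1 : ∀ i ∈ t, ∀ u ∈ U, P i u ∈ U ∧ P i u ∈ X i)
    (h2 : ∀ i ∈ t, ∀ u ∈ W, P i u ∈ W) :
    (U ⧸ W.submoduleOf U) →ₗ[ℚ] ((i : t) → ((U ⊓ X i : Submodule ℚ E) ⧸
      W.submoduleOf (U ⊓ X i))) :=
  LinearMap.pi fun i => Submodule.mapQ (W.submoduleOf U) (W.submoduleOf (U ⊓ X i))
    (DSUM_pr t P U X h1 i) fun u hu => by
      rw [Submodule.mem_comap, DSUM_mem, DSUM_pr_coe]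
      exact h2 i i.2 _ ((DSUM_mem W u).mp hu)

theorem DSUM_q_mk (h1 : ∀ i ∈ t, ∀ u ∈ U, P i u ∈ U ∧ P i u ∈ X i)
    (h2 : ∀ i ∈ t, ∀ u ∈ W, P i u ∈ W) (u : U) (i : t) :
    DSUM_q t P U W X h1 h2 (Submodule.Quotient.mk u) i =
      Submodule.Quotient.mk (DSUM_pr t P U X h1 i u) := rfl

theorem DSUM_bij (h1 : ∀ i ∈ t, ∀ u ∈ U, P i u ∈ U ∧ P i u ∈ X i)
    (h2 : ∀ i ∈ t, ∀ u ∈ W, P i u ∈ W) (h3 : ∀ i ∈ t, ∀ x ∈ U, x ∈ X i → P i x = x)
    (h4 : ∀ i ∈ t, ∀ j ∈ t, i ≠ j → ∀ x ∈ U, x ∈ X i → P j x = 0)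
    (h5 : ∀ u ∈ U, ∑ i ∈ t, P i u = u) :
    Function.Bijective (DSUM_q t P U W X h1 h2) := by
  classical
  constructor
  · rw [← LinearMap.ker_eq_bot, LinearMap.ker_eq_bot']
    intro q hq
    obtain ⟨u, rfl⟩ := Submodule.Quotient.mk_surjective _ q
    rw [Submodule.Quotient.mk_eq_zero, DSUM_mem, ← h5 u u.2]
    refine Submodule.sum_mem _ fun i hi => ?_
    have h := congrFun hq ⟨i, hi⟩
    rw [DSUM_q_mk, Pi.zero_apply, Submodule.Quotient.mk_eq_zero, DSUM_mem,
      DSUM_pr_coe] at h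
    exact h
  · intro y
    choose x hx using fun i => Submodule.Quotient.mk_surjective _ (y i)
    have hu : (∑ i ∈ t.attach, (x i : E)) ∈ U :=
      Submodule.sum_mem _ fun i _ => (x i).2.1
    refine ⟨Submodule.Quotient.mk ⟨_, hu⟩, funext fun j => ?_⟩
    rw [DSUM_q_mk, ← hx j]
    congr 1
    apply Subtype.ext
    rw [DSUM_pr_coe, map_sum, Finset.sum_eq_single_of_mem j (Finset.mem_attach _ _)]
    · exact h3 j j.2 _ (x j).2.1 (x j).2.2
    · intro i _ hij
      exact h4 i i.2 j j.2 (fun h => hij (Subtype.ext h)) _ (x i).2.1 (x i).2.2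

end DSUM

theorem pr_DSUM : T_DSUM := by
  classical
  intro E _ _ ι t P U W X h1 h2 h3 h4 h5 h6
  have hb := DSUM_bij t P U W X h1 h2 h3 h4 h5
  have hf : ∀ i : t, Module.Finite ℚ ((U ⊓ X i : Submodule ℚ E) ⧸ W.submoduleOf (U ⊓ X i)) := by
    intro i
    have := h6 i i.2
    infer_instance
  rw [dimQ, (LinearEquiv.ofBijective _ hb).finrank_eq, Module.finrank_pi_fintype]
  exact Finset.sum_coe_sort t fun i => dimQ (U ⊓ X i) W

end Pool.Agent.Work.MP_c41774_al.Full.T

end
end

section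

/-!
# Block T, item END: the conclusion `T_POS`
-/

noncomputable section

namespace Pool.Agent.Work.MP_c41774_al.Full.T

open Finset MvPolynomial
open Pool.Agent.Work.MP_c41774_al.Wall

theorem END_fs {b c : ℤ} {χ : ℤ → ℤ → ℤ} (h : FS2 χ) : FS (fch b c χ) := by
  obtain ⟨M, hM⟩ := h
  refine ⟨|b| * M + |c| * M, fun x hx => ?_⟩
  by_contra hlt
  apply hx
  unfold fch
  apply finsum_eq_zero_of_forall_eq_zero
  intro z
  split_ifs with h1
  · by_contra h2
    apply hlt
    obtain ⟨h3, h4⟩ := hM _ _ h2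
    rw [← h1]
    calc |b * z.1 + c * z.2| ≤ |b * z.1| + |c * z.2| := abs_add_le _ _
      _ = |b| * |z.1| + |c| * |z.2| := by rw [abs_mul, abs_mul]
      _ ≤ _ := add_le_add (mul_le_mul_of_nonneg_left h3 (abs_nonneg _))
        (mul_le_mul_of_nonneg_left h4 (abs_nonneg _))
  · rfl

theorem END_fsadd {f g : ℤ → ℤ} (hf : FS f) (hg : FS g) : FS (fun y => f y + g y) := by
  obtain ⟨M, hM⟩ := hf
  obtain ⟨M', hM'⟩ := hg
  refine ⟨max M M', fun x hx => ?_⟩
  by_cases h : f x = 0
  · have : g x ≠ 0 := by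
      intro h'
      apply hx
      simp [h, h']
    exact (hM' x this).trans (le_max_right _ _)
  · exact (hM x h).trans (le_max_left _ _)

theorem END_fssh {f : ℤ → ℤ} (hf : FS f) (d : ℤ) : FS (fun y => f (y + d)) := by
  obtain ⟨M, hM⟩ := hf
  refine ⟨M + |d|, fun x hx => ?_⟩
  have h1 := hM _ hx
  have h2 : |x| ≤ |x + d| + |d| := by
    have := abs_sub (x + d) d
    simpa using this
  linarith

theorem END_fszero : FS (fun _ => (0 : ℤ)) := ⟨0, fun _ hx => absurd rfl hx⟩

theorem END_fsum (f : ℕ → ℤ → ℤ) (h : ∀ n, FS (f n)) (N : ℕ) :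
    FS (fun y => ∑ n ∈ range N, f n y) := by
  induction N with
  | zero => simpa using END_fszero
  | succ N ih =>
    simp only [Finset.sum_range_succ]
    exact END_fsadd ih (h N)

theorem END_tlsum (hTL : T_TL) {D : ℤ} (hD : 0 < D) (f : ℕ → ℤ → ℤ) (h : ∀ n, FS (f n)) (N : ℕ)
    (x : ℤ) : tl D (fun y => ∑ n ∈ range N, f n y) x = ∑ n ∈ range N, tl D (f n) x := by
  induction N with
  | zero => simp [tl]
  | succ N ih =>
    simp only [Finset.sum_range_succ]
    obtain ⟨-, -, -, -, h5, -⟩ := hTL D hD _ _ (END_fsum f h N) (h N)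
    rw [h5 x, ih]

theorem pr_END : T_END := by
  intro hDSUM hPW hUFD hTL hNUM hCHI hDEC hSER b c hb hc hbc κ₀ hκ hp0 hq0 k hk
  have hdec := hDEC hDSUM hPW hUFD b c hb hc κ₀ k
  obtain ⟨hdec1, hdec2⟩ := hdec
  set D : ℕ := 2 * b * c with hD
  have hDpos : 0 < D := by positivity
  have hDZ : (0 : ℤ) < (D : ℤ) := by exact_mod_cast hDpos
  have hDc : (D : ℤ) = 2 * (b : ℤ) * c := by rw [hD]; push_cast; ring
  set p : ℕ := k * κ₀.1 with hp
  set q : ℕ := k * κ₀.2 with hq
  have hpp : 0 < p := Nat.mul_pos hk hp0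
  have hqp : 0 < q := Nat.mul_pos hk hq0
  have hg : (Nat.gcd (b * p) (c * q) : ℕ) = k * Nat.gcd (b * κ₀.1) (c * κ₀.2) := by
    rw [← Nat.gcd_mul_left]
    congr 1
    · rw [hp]; ring
    · rw [hq]; ring
  set g : ℤ := (k : ℤ) * Nat.gcd (b * κ₀.1) (c * κ₀.2) with hgg
  have hgc : ((Nat.gcd (b * p) (c * q) : ℕ) : ℤ) = g := by rw [hg]; push_cast; rfl
  set s : ℤ := (b : ℤ) * c * k ^ 2 * κ₀.1 * κ₀.2 with hs
  intro a
  rw [hSER D hDpos (bd b c κ₀ k) g s a]
  have hg0 : 0 ≤ g := by positivity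
  have hs0 : 0 ≤ s := by positivity
  obtain ⟨N, hN⟩ : ∃ N : ℕ, a + g + s + 1 < (N : ℤ) := by
    refine ⟨(a + g + s + 2).toNat + 1, ?_⟩
    have := Int.self_le_toNat (a + g + s + 2)
    push_cast
    linarith
  -- the functions
  set F : ℕ → ℤ → ℤ := fun n => fch b c (chiB b c κ₀ k n) with hF
  set c0 : ℕ → ℤ := fun n => -(2 * (b : ℤ) * c * n + b * c * (k * κ₀.1 + k * κ₀.2)) with hc0
  have hchi : ∀ n, ChiP b c p q (chiB b c κ₀ k n) := fun n =>
    hCHI b c hb hc (Fin (k * κ₀.1 + k * κ₀.2)) (Pf κ₀ 1) (IpS _ κ₀) (k * κ₀.1, k * κ₀.2) n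
  have hFS : ∀ n, FS (F n) := fun n => END_fs (hchi n).fin
  have hFS' : ∀ n, FS (fun y => F n (y + c0 n)) := fun n => END_fssh (hFS n) _
  have hbeta : ∀ y : ℤ, y < N → (if 0 ≤ y then ((bd b c κ₀ k) y.toNat : ℤ) else 0) =
      ∑ n ∈ range N, F n (y + c0 n) := by
    intro y hy
    have harg : ∀ n : ℕ, y + c0 n =
        y - 2 * b * c * n - b * c * (k * κ₀.1 + k * κ₀.2) := by
      intro n; simp only [hc0]; ring
    by_cases h0 : 0 ≤ y
    · rw [if_pos h0]
      have hyc : ((y.toNat : ℕ) : ℤ) = y := Int.toNat_of_nonneg h0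
      have hlt : y.toNat < N := by
        have : ((y.toNat : ℕ) : ℤ) < N := by rw [hyc]; exact hy
        exact_mod_cast this
      rw [hdec1 _ _ hlt]
      refine Finset.sum_congr rfl fun n _ => ?_
      rw [harg n, hyc]
    · rw [if_neg h0]
      symm
      refine Finset.sum_eq_zero fun n _ => ?_
      rw [harg n]
      exact hdec2 n y (not_le.mp h0)
  have key : ∀ x : ℤ, x < N → tl D (fun y => if 0 ≤ y then ((bd b c κ₀ k) y.toNat : ℤ) else 0) x =
      ∑ n ∈ range N, tl D (F n) (x + c0 n) := by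
    intro x hx
    have e1 : tl D (fun y => if 0 ≤ y then ((bd b c κ₀ k) y.toNat : ℤ) else 0) x =
        tl D (fun y => ∑ n ∈ range N, F n (y + c0 n)) x := by
      unfold tl
      refine finsum_congr fun j => ?_
      apply hbeta
      have : (0 : ℤ) ≤ (D : ℤ) * j := by positivity
      linarith
    rw [e1, END_tlsum hTL hDZ (fun n y => F n (y + c0 n)) hFS' N x]
    refine Finset.sum_congr rfl fun n _ => ?_
    obtain ⟨-, -, -, -, -, -, -, h8, -⟩ := hTL D hDZ _ _ (hFS n) (hFS n)
    exact h8 (c0 n) x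
  rw [key _ (by linarith), key _ (by linarith), ← Finset.sum_sub_distrib]
  refine Finset.sum_nonneg fun n _ => ?_
  have h := hNUM b c p q hb hc hbc hpp hqp _ (hchi n) (a + s + c0 n)
  rw [hgc, ← hDc] at h
  have e1 : a + g + s + c0 n = a + s + c0 n + g := by ring
  have e2 : a - g + s + c0 n = a + s + c0 n - g := by ring
  rw [e1, e2]
  exact h

end Pool.Agent.Work.MP_c41774_al.Full.T

end
end

section

/-!
# HT: symmetry and finite support of `tl (a+d) - tl (a-d)`
-/

noncomputable section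

namespace Pool.Agent.Work.MP_c41774_al.Full.T

theorem pr_HT (hTL : T_TL) : T_HT := by
  intro N hN f c0 d hf hsym hcl
  obtain ⟨-, -, h3, -, -, -, -, -, -, M, hM1, hM2⟩ := hTL N hN f f hf hf
  have key := h3 c0 hsym
  refine ⟨?_, |M| + |d|, ?_⟩
  · intro a
    have e1 := key (a - d)
    have e2 := key (a + d)
    have e3 := hcl a
    have i1 : c0 - (a - d) - N = c0 - N - a + d := by ring
    have i2 : c0 - (a + d) - N = c0 - N - a - d := by ring
    rw [i1] at e1
    rw [i2] at e2
    linarith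
  · intro a ha
    by_contra hcon
    push Not at hcon
    apply ha
    have hd1 := le_abs_self d
    have hd2 := neg_abs_le d
    have hm1 := le_abs_self M
    have hm2 := neg_abs_le M
    change tl N f (a + d) - tl N f (a - d) = 0
    rcases lt_abs.mp hcon with h | h
    · rw [hM2 (a + d) (by linarith), hM2 (a - d) (by linarith), hcl a, sub_self]
    · rw [hM1 (a + d) (by linarith), hM1 (a - d) (by linarith), sub_self]

end Pool.Agent.Work.MP_c41774_al.Full.T

end
end

section

/-! Item MAT: `sl₂ × sl₂` acting on families. -/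

noncomputable section

namespace Pool.Agent.Work.MP_c41774_al.Full.T

open Finset MvPolynomial
open Pool.Agent.Work.MP_c41774_al.Wall

section
variable {b c : ℕ} {L : Type} [Fintype L] [DecidableEq L]

theorem MAT_DD_apply (m : Col b c → Col b c → ℚ) (F : Fm b c L) (w : L → Col b c) :
    DD m F w = ∑ l, ∑ a, m (w l) a • F (Function.update w l a) := rfl

theorem MAT_sum_update (h : Col b c → ℤ) (w : L → Col b c) (l : L) (x : Col b c) :
    ∑ l', h (Function.update w l x l') = ∑ l', h (w l') - h (w l) + h x := by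
  rw [← Finset.add_sum_erase _ _ (Finset.mem_univ l), ← Finset.add_sum_erase univ
    (fun l' => h (w l')) (Finset.mem_univ l)]
  rw [Function.update_self]
  have : ∑ l' ∈ univ.erase l, h (Function.update w l x l') = ∑ l' ∈ univ.erase l, h (w l') := by
    refine Finset.sum_congr rfl (fun l' hl' => ?_)
    rw [Function.update_of_ne (Finset.ne_of_mem_erase hl')]
  rw [this]
  ring

theorem MAT_WA_update (w : L → Col b c) (l : L) (x : Col b c) :
    WA (Function.update w l x) = WA w - wa (w l) + wa x := MAT_sum_update wa w l x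

theorem MAT_WB_update (w : L → Col b c) (l : L) (x : Col b c) :
    WB (Function.update w l x) = WB w - wb (w l) + wb x := MAT_sum_update wb w l x

/-- weight shift of a matrix -/
def MAT_Sh (m : Col b c → Col b c → ℚ) (s t : ℤ) : Prop :=
  ∀ x y, m x y ≠ 0 → wa y = wa x - s ∧ wb y = wb x - t

theorem MAT_EA_ne {x y : Col b c} (h : mEA x y ≠ 0) :
    ∃ i j : Fin c, x = Sum.inl i ∧ y = Sum.inl j ∧ (j : ℕ) = i + 1 := by
  rcases x with i | i <;> rcases y with j | j
  · refine ⟨i, j, rfl, rfl, ?_⟩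
    by_contra hc
    exact h (by simp [mEA, hc])
  · exact absurd rfl h
  · exact absurd rfl h
  · exact absurd rfl h

theorem MAT_FA_ne {x y : Col b c} (h : mFA x y ≠ 0) :
    ∃ i j : Fin c, x = Sum.inl i ∧ y = Sum.inl j ∧ (i : ℕ) = j + 1 := by
  rcases x with i | i <;> rcases y with j | j
  · refine ⟨i, j, rfl, rfl, ?_⟩
    by_contra hc
    exact h (by simp [mFA, hc])
  · exact absurd rfl h
  · exact absurd rfl h
  · exact absurd rfl h

theorem MAT_EB_ne {x y : Col b c} (h : mEB x y ≠ 0) :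
    ∃ i j : Fin b, x = Sum.inr i ∧ y = Sum.inr j ∧ (j : ℕ) = i + 1 := by
  rcases x with i | i <;> rcases y with j | j
  · exact absurd rfl h
  · exact absurd rfl h
  · exact absurd rfl h
  · refine ⟨i, j, rfl, rfl, ?_⟩
    by_contra hc
    exact h (by simp [mEB, hc])

theorem MAT_FB_ne {x y : Col b c} (h : mFB x y ≠ 0) :
    ∃ i j : Fin b, x = Sum.inr i ∧ y = Sum.inr j ∧ (i : ℕ) = j + 1 := by
  rcases x with i | i <;> rcases y with j | j
  · exact absurd rfl h
  · exact absurd rfl h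
  · exact absurd rfl h
  · refine ⟨i, j, rfl, rfl, ?_⟩
    by_contra hc
    exact h (by simp [mFB, hc])

theorem MAT_ty : TyM (mEA (b := b) (c := c)) ∧ TyM (mFA (b := b) (c := c)) ∧
    TyM (mEB (b := b) (c := c)) ∧ TyM (mFB (b := b) (c := c)) := by
  refine ⟨fun x y h => ?_, fun x y h => ?_, fun x y h => ?_, fun x y h => ?_⟩
  · obtain ⟨i, j, rfl, rfl, _⟩ := MAT_EA_ne h; rfl
  · obtain ⟨i, j, rfl, rfl, _⟩ := MAT_FA_ne h; rfl
  · obtain ⟨i, j, rfl, rfl, _⟩ := MAT_EB_ne h; rfl
  · obtain ⟨i, j, rfl, rfl, _⟩ := MAT_FB_ne h; rfl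

theorem MAT_shEA : MAT_Sh (mEA (b := b) (c := c)) 2 0 := by
  intro x y h
  obtain ⟨i, j, rfl, rfl, hij⟩ := MAT_EA_ne h
  refine ⟨?_, ?_⟩ <;> first | rfl | (simp only [wa, wb, hij]; push_cast; ring)

theorem MAT_shFA : MAT_Sh (mFA (b := b) (c := c)) (-2) 0 := by
  intro x y h
  obtain ⟨i, j, rfl, rfl, hij⟩ := MAT_FA_ne h
  refine ⟨?_, ?_⟩ <;> first | rfl | (simp only [wa, wb, hij]; push_cast; ring)

theorem MAT_shEB : MAT_Sh (mEB (b := b) (c := c)) 0 2 := by
  intro x y h
  obtain ⟨i, j, rfl, rfl, hij⟩ := MAT_EB_ne h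
  refine ⟨?_, ?_⟩ <;> first | rfl | (simp only [wa, wb, hij]; push_cast; ring)

theorem MAT_shFB : MAT_Sh (mFB (b := b) (c := c)) 0 (-2) := by
  intro x y h
  obtain ⟨i, j, rfl, rfl, hij⟩ := MAT_FB_ne h
  refine ⟨?_, ?_⟩ <;> first | rfl | (simp only [wa, wb, hij]; push_cast; ring)

theorem MAT_shift {m : Col b c → Col b c → ℚ} {s t : ℤ} (hm : MAT_Sh m s t) (i j : ℤ)
    {F : Fm b c L} (hF : F ∈ WW b c L i j) : DD m F ∈ WW b c L (i + s) (j + t) := by
  intro w hw
  rw [MAT_DD_apply] at hw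
  obtain ⟨l, _, hl⟩ := Finset.exists_ne_zero_of_sum_ne_zero hw
  obtain ⟨x, _, hx⟩ := Finset.exists_ne_zero_of_sum_ne_zero hl
  have h1 : m (w l) x ≠ 0 := fun h => hx (by rw [h, zero_smul])
  have h2 : F (Function.update w l x) ≠ 0 := fun h => hx (by rw [h, smul_zero])
  have h3 := hF _ h2
  rw [MAT_WA_update, MAT_WB_update] at h3
  have h4 := hm _ _ h1
  omega

/-- diagonal matrices -/
theorem MAT_diag (h : Col b c → ℤ) (F : Fm b c L) (w : L → Col b c) :
    DD (fun x y => if x = y then (h x : ℚ) else 0) F w = ((∑ l, h (w l) : ℤ) : ℚ) • F w := by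
  rw [MAT_DD_apply]
  push_cast
  rw [Finset.sum_smul]
  refine Finset.sum_congr rfl (fun l _ => ?_)
  rw [Finset.sum_eq_single (w l)]
  · rw [if_pos rfl, Function.update_eq_self]
  · intro x _ hx
    rw [if_neg (fun h => hx h.symm), zero_smul]
  · intro h
    exact absurd (Finset.mem_univ _) h

theorem MAT_matA (x y : Col b c) : mmul mEA mFA x y - mmul mFA mEA x y =
    if x = y then (wa x : ℚ) else 0 := by
  rcases x with i | i
  · rcases y with j | j
    · have h1 : mmul mEA mFA (Sum.inl i : Col b c) (Sum.inl j) =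
          if i = j then ((i : ℕ) + 1 : ℚ) * ((c : ℚ) - 1 - (i : ℕ)) else 0 := by
        unfold mmul
        rw [Fintype.sum_sum_type]
        have hz : ∑ x : Fin b, mEA (Sum.inl i : Col b c) (Sum.inr x) * mFA (Sum.inr x) (Sum.inl j)
            = 0 := Finset.sum_eq_zero (fun x _ => by simp [mEA])
        rw [hz, add_zero]
        by_cases hi : (i : ℕ) + 1 < c
        · rw [Finset.sum_eq_single (⟨i + 1, hi⟩ : Fin c)]
          · simp only [mEA, mFA, if_true]
            by_cases hij : i = j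
            · subst hij
              simp
            · have hij' : ¬ ((i : ℕ) = j) := fun h => hij (Fin.ext h)
              simp [hij, hij']
          · intro k _ hk
            have : ¬ ((k : ℕ) = i + 1) := fun h => hk (Fin.ext h)
            simp [mEA, this]
          · intro h
            exact absurd (Finset.mem_univ _) h
        · have hc : (c : ℚ) - 1 - (i : ℕ) = 0 := by
            have h2 : (i : ℕ) + 1 = c := by have := i.2; omega
            have h3 : (((i : ℕ) + 1 : ℕ) : ℚ) = (c : ℚ) := congrArg _ h2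
            push_cast at h3
            linarith
          rw [hc, mul_zero, ite_self]
          refine Finset.sum_eq_zero (fun k _ => ?_)
          have : ¬ ((k : ℕ) = i + 1) := by have := k.2; omega
          simp [mEA, this]
      have h2 : mmul mFA mEA (Sum.inl i : Col b c) (Sum.inl j) =
          if i = j then ((i : ℕ) : ℚ) * ((c : ℚ) - (i : ℕ)) else 0 := by
        unfold mmul
        rw [Fintype.sum_sum_type]
        have hz : ∑ x : Fin b, mFA (Sum.inl i : Col b c) (Sum.inr x) * mEA (Sum.inr x) (Sum.inl j)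
            = 0 := Finset.sum_eq_zero (fun x _ => by simp [mFA])
        rw [hz, add_zero]
        by_cases hi : 0 < (i : ℕ)
        · have hi' : (i : ℕ) - 1 < c := by have := i.2; omega
          rw [Finset.sum_eq_single (⟨i - 1, hi'⟩ : Fin c)]
          · have e1 : (i : ℕ) = (i : ℕ) - 1 + 1 := by omega
            have e2 : (((i : ℕ) - 1 : ℕ) : ℚ) = (i : ℕ) - 1 := by
              rw [Nat.cast_sub (by omega)]; simp
            simp only [mEA, mFA, ← e1, if_true, e2]
            by_cases hij : i = j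
            · subst hij
              simp
              ring
            · have hij' : ¬ ((j : ℕ) = i) := fun h => hij (Fin.ext h.symm)
              simp [hij, hij']
          · intro k _ hk
            have : ¬ ((i : ℕ) = k + 1) := fun h => hk (Fin.ext (by simp; omega))
            simp [mFA, this]
          · intro h
            exact absurd (Finset.mem_univ _) h
        · have hc : ((i : ℕ) : ℚ) = 0 := by
            have : (i : ℕ) = 0 := by omega
            rw [this]; simp
          rw [hc, zero_mul, ite_self]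
          refine Finset.sum_eq_zero (fun k _ => ?_)
          have : ¬ ((i : ℕ) = k + 1) := by omega
          simp [mFA, this]
      rw [h1, h2]
      by_cases hij : i = j
      · subst hij
        simp only [if_true, wa]
        push_cast
        ring
      · have : ¬ ((Sum.inl i : Col b c) = Sum.inl j) := fun h => hij (Sum.inl_injective h)
        simp [hij]
    · have h1 : mmul mEA mFA (Sum.inl i : Col b c) (Sum.inr j) = 0 :=
        Finset.sum_eq_zero (fun z _ => by rcases z with z | z <;> simp [mFA])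
      have h2 : mmul mFA mEA (Sum.inl i : Col b c) (Sum.inr j) = 0 :=
        Finset.sum_eq_zero (fun z _ => by rcases z with z | z <;> simp [mEA])
      rw [h1, h2]
      simp
  · have h1 : mmul mEA mFA (Sum.inr i : Col b c) y = 0 :=
      Finset.sum_eq_zero (fun z _ => by rcases z with z | z <;> simp [mEA])
    have h2 : mmul mFA mEA (Sum.inr i : Col b c) y = 0 :=
      Finset.sum_eq_zero (fun z _ => by rcases z with z | z <;> simp [mFA])
    rw [h1, h2]
    simp [wa]

theorem MAT_matB (x y : Col b c) : mmul mEB mFB x y - mmul mFB mEB x y =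
    if x = y then (wb x : ℚ) else 0 := by
  rcases x with i | i
  · have h1 : mmul mEB mFB (Sum.inl i : Col b c) y = 0 :=
      Finset.sum_eq_zero (fun z _ => by rcases z with z | z <;> simp [mEB])
    have h2 : mmul mFB mEB (Sum.inl i : Col b c) y = 0 :=
      Finset.sum_eq_zero (fun z _ => by rcases z with z | z <;> simp [mFB])
    rw [h1, h2]
    simp [wb]
  · rcases y with j | j
    · have h1 : mmul mEB mFB (Sum.inr i : Col b c) (Sum.inl j) = 0 :=
        Finset.sum_eq_zero (fun z _ => by rcases z with z | z <;> simp [mFB])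
      have h2 : mmul mFB mEB (Sum.inr i : Col b c) (Sum.inl j) = 0 :=
        Finset.sum_eq_zero (fun z _ => by rcases z with z | z <;> simp [mEB])
      rw [h1, h2]
      simp
    · have h1 : mmul mEB mFB (Sum.inr i : Col b c) (Sum.inr j) =
          if i = j then ((i : ℕ) + 1 : ℚ) * ((b : ℚ) - 1 - (i : ℕ)) else 0 := by
        unfold mmul
        rw [Fintype.sum_sum_type]
        have hz : ∑ x : Fin c, mEB (Sum.inr i : Col b c) (Sum.inl x) * mFB (Sum.inl x) (Sum.inr j)
            = 0 := Finset.sum_eq_zero (fun x _ => by simp [mEB])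
        rw [hz, zero_add]
        by_cases hi : (i : ℕ) + 1 < b
        · rw [Finset.sum_eq_single (⟨i + 1, hi⟩ : Fin b)]
          · simp only [mEB, mFB, if_true]
            by_cases hij : i = j
            · subst hij
              simp
            · have hij' : ¬ ((i : ℕ) = j) := fun h => hij (Fin.ext h)
              simp [hij, hij']
          · intro k _ hk
            have : ¬ ((k : ℕ) = i + 1) := fun h => hk (Fin.ext h)
            simp [mEB, this]
          · intro h
            exact absurd (Finset.mem_univ _) h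
        · have hc : (b : ℚ) - 1 - (i : ℕ) = 0 := by
            have h2 : (i : ℕ) + 1 = b := by have := i.2; omega
            have h3 : (((i : ℕ) + 1 : ℕ) : ℚ) = (b : ℚ) := congrArg _ h2
            push_cast at h3
            linarith
          rw [hc, mul_zero, ite_self]
          refine Finset.sum_eq_zero (fun k _ => ?_)
          have : ¬ ((k : ℕ) = i + 1) := by have := k.2; omega
          simp [mEB, this]
      have h2 : mmul mFB mEB (Sum.inr i : Col b c) (Sum.inr j) =
          if i = j then ((i : ℕ) : ℚ) * ((b : ℚ) - (i : ℕ)) else 0 := by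
        unfold mmul
        rw [Fintype.sum_sum_type]
        have hz : ∑ x : Fin c, mFB (Sum.inr i : Col b c) (Sum.inl x) * mEB (Sum.inl x) (Sum.inr j)
            = 0 := Finset.sum_eq_zero (fun x _ => by simp [mFB])
        rw [hz, zero_add]
        by_cases hi : 0 < (i : ℕ)
        · have hi' : (i : ℕ) - 1 < b := by have := i.2; omega
          rw [Finset.sum_eq_single (⟨i - 1, hi'⟩ : Fin b)]
          · have e1 : (i : ℕ) = (i : ℕ) - 1 + 1 := by omega
            have e2 : (((i : ℕ) - 1 : ℕ) : ℚ) = (i : ℕ) - 1 := by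
              rw [Nat.cast_sub (by omega)]; simp
            simp only [mEB, mFB, ← e1, if_true, e2]
            by_cases hij : i = j
            · subst hij
              simp
              ring
            · have hij' : ¬ ((j : ℕ) = i) := fun h => hij (Fin.ext h.symm)
              simp [hij, hij']
          · intro k _ hk
            have : ¬ ((i : ℕ) = k + 1) := fun h => hk (Fin.ext (by simp; omega))
            simp [mFB, this]
          · intro h
            exact absurd (Finset.mem_univ _) h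
        · have hc : ((i : ℕ) : ℚ) = 0 := by
            have : (i : ℕ) = 0 := by omega
            rw [this]; simp
          rw [hc, zero_mul, ite_self]
          refine Finset.sum_eq_zero (fun k _ => ?_)
          have : ¬ ((i : ℕ) = k + 1) := by omega
          simp [mFB, this]
      rw [h1, h2]
      by_cases hij : i = j
      · subst hij
        simp only [if_true, wb]
        push_cast
        ring
      · simp [hij]

theorem MAT_zero1 (m m' : Col b c → Col b c → ℚ)
    (h : ∀ x y, mmul m m' x y - mmul m' m x y = 0) (hC : T_COM) (F : Fm b c L) :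
    DD m (DD m' F) = DD m' (DD m F) := by
  have h1 := hC b c L m m' F
  have h2 : (fun x y => mmul m m' x y - mmul m' m x y) = fun _ _ => (0 : ℚ) := by
    funext x y; exact h x y
  rw [h2] at h1
  have h3 : DD (fun _ _ => (0 : ℚ)) F = 0 := by
    funext w
    rw [MAT_DD_apply]
    simp
  rw [h3, sub_eq_zero] at h1
  exact h1

theorem MAT_PWapply (i j : ℤ) (F : Fm b c L) (w : L → Col b c) :
    PW b c L i j F w = if WA w = i ∧ WB w = j then F w else 0 := rfl

end

theorem pr_MAT : T_MAT := by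
  intro hC b c L _ _
  refine ⟨MAT_ty, ?_, ?_, ?_, ?_⟩
  · intro i j F hF
    have h1 := MAT_shift (MAT_shEA (b := b) (c := c)) i j hF
    have h2 := MAT_shift (MAT_shFA (b := b) (c := c)) i j hF
    have h3 := MAT_shift (MAT_shEB (b := b) (c := c)) i j hF
    have h4 := MAT_shift (MAT_shFB (b := b) (c := c)) i j hF
    rw [add_zero] at h1 h2 h3 h4
    refine ⟨h1, ?_, h3, ?_⟩
    · exact h2
    · exact h4
  · intro i j F hF
    constructor
    · rw [hC b c L mEA mFA F]
      have h1 : (fun x y : Col b c => mmul mEA mFA x y - mmul mFA mEA x y) =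
          fun x y => if x = y then (wa x : ℚ) else 0 := by
        funext x y; exact MAT_matA x y
      rw [h1]
      funext w
      rw [MAT_diag wa F w, Pi.smul_apply]
      by_cases hw : F w = 0
      · rw [hw, smul_zero, smul_zero]
      · have h2 : (∑ l, wa (w l) : ℤ) = i := (hF w hw).1
        rw [h2]
    · rw [hC b c L mEB mFB F]
      have h1 : (fun x y : Col b c => mmul mEB mFB x y - mmul mFB mEB x y) =
          fun x y => if x = y then (wb x : ℚ) else 0 := by
        funext x y; exact MAT_matB x y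
      rw [h1]
      funext w
      rw [MAT_diag wb F w, Pi.smul_apply]
      by_cases hw : F w = 0
      · rw [hw, smul_zero, smul_zero]
      · have h2 : (∑ l, wb (w l) : ℤ) = j := (hF w hw).2
        rw [h2]
  · intro F
    constructor
    · refine MAT_zero1 _ _ (fun x y => ?_) hC F
      have h1 : mmul mEA mEB x y = 0 :=
        Finset.sum_eq_zero (fun z _ => by rcases x with x | x <;> rcases z with z | z <;> simp [mEA, mEB])
      have h2 : mmul mEB mEA x y = 0 :=
        Finset.sum_eq_zero (fun z _ => by rcases x with x | x <;> rcases z with z | z <;> simp [mEA, mEB])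
      rw [h1, h2, sub_zero]
    · refine MAT_zero1 _ _ (fun x y => ?_) hC F
      have h1 : mmul mEA mFB x y = 0 :=
        Finset.sum_eq_zero (fun z _ => by rcases x with x | x <;> rcases z with z | z <;> simp [mEA, mFB])
      have h2 : mmul mFB mEA x y = 0 :=
        Finset.sum_eq_zero (fun z _ => by rcases x with x | x <;> rcases z with z | z <;> simp [mEA, mFB])
      rw [h1, h2, sub_zero]
  · intro i j F
    funext w
    rw [MAT_DD_apply, MAT_PWapply]
    by_cases hw : WA w = i + 2 ∧ WB w = j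
    · rw [if_pos hw, MAT_DD_apply]
      refine Finset.sum_congr rfl (fun l _ => Finset.sum_congr rfl (fun x _ => ?_))
      by_cases hm : mEA (w l) x = 0
      · rw [hm, zero_smul, zero_smul]
      · have h4 := MAT_shEA _ _ hm
        rw [MAT_PWapply, if_pos]
        rw [MAT_WA_update, MAT_WB_update]
        omega
    · rw [if_neg hw]
      refine Finset.sum_eq_zero (fun l _ => Finset.sum_eq_zero (fun x _ => ?_))
      by_cases hm : mEA (w l) x = 0
      · rw [hm, zero_smul]
      · have h4 := MAT_shEA _ _ hm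
        rw [MAT_PWapply, if_neg, smul_zero]
        rw [MAT_WA_update, MAT_WB_update]
        omega

end Pool.Agent.Work.MP_c41774_al.Full.T

end
end

section

/-!
# Item T NUM: numeric positivity
-/

noncomputable section

namespace Pool.Agent.Work.MP_c41774_al.Full.T

open Finset MvPolynomial
open Pool.Agent.Work.MP_c41774_al.Wall

theorem NUM_fch_mul (b m : ℤ) (hb : b ≠ 0) (χ : ℤ → ℤ → ℤ) (x : ℤ) :
    fch b (b * m) χ (b * x) = fch 1 m χ x := by
  unfold fch
  refine finsum_congr (fun z => ?_)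
  have h : (b * z.1 + b * m * z.2 = b * x) ↔ (1 * z.1 + m * z.2 = x) := by
    constructor
    · intro h
      have h2 : b * (1 * z.1 + m * z.2) = b * x := by rw [← h]; ring
      exact mul_left_cancel₀ hb h2
    · intro h
      rw [← h]; ring
  simp only [h]

theorem NUM_fch_zero (b m : ℤ) (χ : ℤ → ℤ → ℤ) (x : ℤ) (hx : ¬ b ∣ x) :
    fch b (b * m) χ x = 0 := by
  unfold fch
  rw [finsum_congr (g := fun _ => (0 : ℤ)), finsum_zero]
  intro z
  rw [if_neg]
  intro h
  refine hx ⟨z.1 + m * z.2, ?_⟩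
  rw [← h]; ring

theorem NUM_tl_mul (b m N : ℤ) (hb : b ≠ 0) (χ : ℤ → ℤ → ℤ) (x : ℤ) :
    tl (b * N) (fch b (b * m) χ) (b * x) = tl N (fch 1 m χ) x := by
  unfold tl
  refine finsum_congr (fun k => ?_)
  rw [← NUM_fch_mul b m hb]
  congr 1
  ring

theorem NUM_tl_zero (b m N : ℤ) (χ : ℤ → ℤ → ℤ) (x : ℤ) (hx : ¬ b ∣ x) :
    tl (b * N) (fch b (b * m) χ) x = 0 := by
  unfold tl
  rw [finsum_congr (g := fun _ => (0 : ℤ)), finsum_zero]
  intro k
  refine NUM_fch_zero b m χ _ (fun h => hx ?_)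
  have h2 : b ∣ b * N * k := ⟨N * k, by ring⟩
  have h3 := dvd_add h h2
  have h4 : x - b * N * k + b * N * k = x := by ring
  rwa [h4] at h3

theorem NUM_A (hNUM1 : T_NUM1) (b m p q : ℕ) (hb : 0 < b) (hm : 0 < m) (hp : 0 < p) (hq : 0 < q)
    (χ : ℤ → ℤ → ℤ) (hχ : ChiP b (b * m) p q χ) (a : ℤ) :
    0 ≤ tl (2 * b * (b * m : ℕ)) (fch b (b * m : ℕ) χ) (a + (Nat.gcd (b * p) (b * m * q) : ℕ)) -
      tl (2 * b * (b * m : ℕ)) (fch b (b * m : ℕ) χ) (a - (Nat.gcd (b * p) (b * m * q) : ℕ)) := by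
  have hb' : (b : ℤ) ≠ 0 := by exact_mod_cast hb.ne'
  have e1 : (2 * b * (b * m : ℕ) : ℤ) = b * (2 * (b * m : ℕ)) := by push_cast; ring
  have e2 : ((b * m : ℕ) : ℤ) = (b : ℤ) * m := by push_cast; ring
  have e3 : ((Nat.gcd (b * p) (b * m * q) : ℕ) : ℤ) = b * (Nat.gcd p (m * q) : ℕ) := by
    rw [mul_assoc, Nat.gcd_mul_left]
    push_cast; ring
  rw [e1, e3, e2]
  by_cases h : (b : ℤ) ∣ a
  · obtain ⟨a', rfl⟩ := h
    rw [← mul_add, ← mul_sub, NUM_tl_mul _ _ _ hb', NUM_tl_mul _ _ _ hb']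
    exact hNUM1 b m p q hb hm hp hq χ hχ a'
  · rw [NUM_tl_zero, NUM_tl_zero]
    · simp
    · intro h'
      refine h ?_
      have := dvd_add h' (dvd_mul_right (b : ℤ) (Nat.gcd p (m * q) : ℕ))
      simpa using this
    · intro h'
      refine h ?_
      have := dvd_sub h' (dvd_mul_right (b : ℤ) (Nat.gcd p (m * q) : ℕ))
      simpa using this

theorem NUM_swap {b c p q : ℕ} {χ : ℤ → ℤ → ℤ} (h : ChiP b c p q χ) :
    ChiP c b q p (fun i j => χ j i) where
  fin := by
    obtain ⟨M, hM⟩ := h.fin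
    exact ⟨M, fun i j hij => ⟨(hM j i hij).2, (hM j i hij).1⟩⟩
  symA := fun i j => h.symB j i
  symB := fun i j => h.symA j i
  dd := fun i j hi hj => by
    have := h.dd j i hj hi
    linarith
  rotA := fun i j => h.rotB j i
  rotB := fun i j => h.rotA j i

theorem NUM_fch_swap (b c : ℤ) (χ : ℤ → ℤ → ℤ) : fch c b (fun i j => χ j i) = fch b c χ := by
  funext x
  unfold fch
  rw [← finsum_comp_equiv (Equiv.prodComm ℤ ℤ)]
  refine finsum_congr (fun z => ?_)
  simp only [Equiv.prodComm_apply, Prod.fst_swap, Prod.snd_swap]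
  have h : (c * z.2 + b * z.1 = x) ↔ (b * z.1 + c * z.2 = x) := by rw [add_comm]
  simp only [h]

theorem pr_NUM (_ : T_TL) (hNUM1 : T_NUM1) : T_NUM := by
  intro b c p q hb hc hbc hp hq χ hχ a
  rcases hbc with ⟨m, rfl⟩ | ⟨m, rfl⟩
  · have hm : 0 < m := Nat.pos_of_mul_pos_left hc
    exact NUM_A hNUM1 b m p q hb hm hp hq χ hχ a
  · have hm : 0 < m := Nat.pos_of_mul_pos_left hb
    have h := NUM_A hNUM1 c m q p hc hm hq hp _ (NUM_swap hχ) a
    rw [NUM_fch_swap] at h
    have e1 : (2 * (c : ℤ) * ((c * m : ℕ) : ℤ)) = 2 * ((c * m : ℕ) : ℤ) * c := by ring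
    rw [e1, Nat.gcd_comm] at h
    exact h

end Pool.Agent.Work.MP_c41774_al.Full.T

end
end

section

/-!
# Item NUM1: numeric positivity in the variable `u = v^b`
-/

noncomputable section

namespace Pool.Agent.Work.MP_c41774_al.Full.T

open Finset MvPolynomial
open Pool.Agent.Work.MP_c41774_al.Wall

theorem NUM1_FS_zero : FS (fun _ => 0) := ⟨0, fun _ h => absurd rfl h⟩

theorem NUM1_FS_shift {f : ℤ → ℤ} (hf : FS f) (d : ℤ) : FS (fun x => f (x + d)) := by
  obtain ⟨M, hM⟩ := hf
  refine ⟨M + |d|, fun x hx => ?_⟩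
  have h1 := hM _ hx
  have h2 : |x| ≤ |x + d| + |d| := by
    have h3 : x = (x + d) - d := by ring
    calc |x| = |(x + d) - d| := by rw [← h3]
      _ ≤ |x + d| + |d| := abs_sub _ _
  linarith

theorem NUM1_FS_add {f g : ℤ → ℤ} (hf : FS f) (hg : FS g) : FS (fun x => f x + g x) := by
  obtain ⟨M, hM⟩ := hf
  obtain ⟨N, hN⟩ := hg
  refine ⟨max M N, fun x hx => ?_⟩
  by_cases h : f x = 0
  · have h2 : g x ≠ 0 := by
      intro h3
      apply hx
      simp only
      rw [h, h3, add_zero]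
    exact le_trans (hN x h2) (le_max_right _ _)
  · exact le_trans (hM x h) (le_max_left _ _)

theorem NUM1_FS_sum {ι : Type*} (s : Finset ι) (f : ι → ℤ → ℤ) (hf : ∀ i, FS (f i)) :
    FS (fun x => ∑ i ∈ s, f i x) := by
  classical
  induction s using Finset.induction_on with
  | empty => simpa using NUM1_FS_zero
  | insert a s ha ih =>
    simp only [Finset.sum_insert ha]
    exact NUM1_FS_add (hf a) ih

theorem NUM1_FS_geo {f : ℤ → ℤ} (hf : FS f) (s : ℕ) (N : ℤ) : FS (geo s N f) := by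
  unfold geo
  refine NUM1_FS_sum (Finset.range s) (fun t x => f (x - 2 * N * t)) fun t => ?_
  have h := NUM1_FS_shift hf (-(2 * N * t))
  simpa [sub_eq_add_neg] using h

theorem NUM1_tl_sum (hTL : T_TL) {N : ℤ} (hN : 0 < N) {ι : Type*} (s : Finset ι)
    (f : ι → ℤ → ℤ) (hf : ∀ i, FS (f i)) (x : ℤ) :
    tl N (fun y => ∑ i ∈ s, f i y) x = ∑ i ∈ s, tl N (f i) x := by
  classical
  induction s using Finset.induction_on with
  | empty => simp [tl]
  | insert a s ha ih =>
    simp only [Finset.sum_insert ha]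
    have h := (hTL N hN (f a) (fun y => ∑ i ∈ s, f i y) (hf a) (NUM1_FS_sum s f hf)).2.2.2.2.1 x
    rw [h, ih]

theorem pr_NUM1 (hTL : T_TL) (hPER : T_PER) (hST1 : T_ST1) (hST2 : T_ST2) (hREC : T_REC)
    (hARI : T_ARI) : T_NUM1 := by
  intro b m p q hb hm hp hq χ hχ a
  obtain ⟨r, e, hr, he, hrb, heq, hd1, hd2⟩ := hARI m b p q hm hb hp hq
  have hbm : 0 < b * m := Nat.mul_pos hb hm
  obtain ⟨hA1, hA2, hA3, hA4, hA5⟩ := hST1 b (b * m) p q hb hbm χ hχ r e hr he hrb heq
  have her : e ∣ r := by rw [heq]; exact Nat.gcd_dvd_left _ _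
  have hrec := hREC m r e hm hr he her χ (stA r e χ) hχ.fin hA1 hA5
  obtain ⟨M, hM⟩ := hA1
  have hFS : ∀ J, FS (fun y => stA r e χ y J) := fun J => ⟨M, fun x hx => (hM x J hx).1⟩
  have hN : (0 : ℤ) < 2 * ((b * m : ℕ) : ℤ) := by positivity
  have hcl : ∀ J x, cl (2 * ((b * m : ℕ) : ℤ)) (fun y => stA r e χ y J)
      (x + 2 * ((Nat.gcd (b * m) p : ℕ) : ℤ)) =
        cl (2 * ((b * m : ℕ) : ℤ)) (fun y => stA r e χ y J) x := by
    intro J
    refine hPER _ (b * m) p ?_ ?_ _ dvd_rfl
    · exact (hTL _ hN _ _ (hFS J) (hFS J)).2.1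
    · exact fun x => hA4 x J
  have hG : ∀ J a, 0 ≤ tl (2 * ((b * m : ℕ) : ℤ)) (geo (r / e) (e * m) (fun y => stA r e χ y J))
      (a + (Nat.gcd p (m * q) : ℕ)) - tl (2 * ((b * m : ℕ) : ℤ))
        (geo (r / e) (e * m) (fun y => stA r e χ y J)) (a - (Nat.gcd p (m * q) : ℕ)) := by
    intro J
    refine (hST2 (b * m) m r e (Nat.gcd (b * m) p) (Nat.gcd p (m * q)) hbm hm hr he
      (Nat.gcd_pos_of_pos_left _ hbm) her ?_ hd1 hd2 (fun y => stA r e χ y J) (hFS J)
      (fun x => hA2 x J) (fun x hx => hA3 x J hx) (hcl J)).2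
    exact Nat.mul_le_mul_right _ (Nat.le_of_dvd hb hrb)
  -- the finite sum
  have hF : fch 1 m χ = fun x => ∑ J ∈ Finset.Icc (-M) M,
      geo (r / e) (e * m) (fun y => stA r e χ y J) (x + (-(m * J) - e * m)) := by
    funext x
    rw [hrec x, finsum_eq_sum_of_support_subset (s := Finset.Icc (-M) M)]
    · refine Finset.sum_congr rfl fun J _ => ?_
      congr 1; ring
    · intro J hJ
      rw [Function.mem_support] at hJ
      rw [Finset.coe_Icc, Set.mem_Icc, ← abs_le]
      by_contra hcon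
      apply hJ
      unfold geo
      refine Finset.sum_eq_zero fun t _ => ?_
      by_contra h
      exact hcon (hM _ _ h).2
  have hB : ∀ J : ℤ, FS (fun x => geo (r / e) (e * m) (fun y => stA r e χ y J)
      (x + (-(m * J) - e * m))) := fun J =>
    NUM1_FS_shift (NUM1_FS_geo (hFS J) _ _) _
  have hN' : (2 * ((b : ℤ) * m)) = 2 * ((b * m : ℕ) : ℤ) := by push_cast; ring
  rw [hN', hF, NUM1_tl_sum hTL hN _ _ hB, NUM1_tl_sum hTL hN _ _ hB, ← Finset.sum_sub_distrib]
  refine Finset.sum_nonneg fun J _ => ?_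
  have h8 := (hTL _ hN _ _ (NUM1_FS_geo (hFS J) (r / e) (e * m))
    (NUM1_FS_geo (hFS J) (r / e) (e * m))).2.2.2.2.2.2.2.1 (-(m * J) - e * m)
  rw [h8, h8]
  have h9 := hG J (a + (-(m * J) - e * m))
  have h10 : a + ((Nat.gcd p (m * q) : ℕ) : ℤ) + (-(m * J) - e * m) =
      a + (-(m * J) - e * m) + (Nat.gcd p (m * q) : ℕ) := by ring
  have h11 : a - ((Nat.gcd p (m * q) : ℕ) : ℤ) + (-(m * J) - e * m) =
      a + (-(m * J) - e * m) - (Nat.gcd p (m * q) : ℕ) := by ring
  rw [h10, h11]
  exact h9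

end Pool.Agent.Work.MP_c41774_al.Full.T

end
end

section

/-!
# Two periods give the gcd
-/

noncomputable section

namespace Pool.Agent.Work.MP_c41774_al.Full.T

theorem per_mul (h : ℤ → ℤ) (a : ℤ) (ha : ∀ x, h (x + 2 * a) = h x) (z : ℤ) :
    ∀ x, h (x + 2 * (a * z)) = h x := by
  induction z using Int.induction_on with
  | zero => intro x; simp
  | succ n ih =>
    intro x
    have h1 := ha (x + 2 * (a * n))
    rw [ih x] at h1
    rw [← h1]
    congr 1
    ring
  | pred n ih =>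
    intro x
    have h1 := ha (x + 2 * (a * (-(n : ℤ) - 1)))
    rw [← h1, ← ih x]
    congr 1
    ring

theorem pr_PER : T_PER := by
  intro h a b ha hb d hd x
  obtain ⟨z, hz⟩ := hd
  rw [Nat.gcd_eq_gcd_ab] at hz
  have e : x + 2 * d = x + 2 * ((a : ℤ) * (Nat.gcdA a b * z)) +
      2 * ((b : ℤ) * (Nat.gcdB a b * z)) := by
    rw [hz]
    ring
  rw [e, per_mul h b hb, per_mul h a ha]

end Pool.Agent.Work.MP_c41774_al.Full.T

end
end

section

/-!
# Item PW: projections to weight spaces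
-/

noncomputable section

namespace Pool.Agent.Work.MP_c41774_al.Full.T

open Finset MvPolynomial

variable {b c : ℕ} {L : Type} [Fintype L] [DecidableEq L]

theorem PW_apply (i j : ℤ) (F : Fm b c L) (w : L → Col b c) :
    PW b c L i j F w = if WA w = i ∧ WB w = j then F w else 0 := rfl

theorem PW_WA (g : Equiv.Perm L) (w : L → Col b c) : WA (w ∘ g) = WA w := by
  unfold WA
  exact Equiv.sum_comp g (fun l => wa (w l))

theorem PW_WB (g : Equiv.Perm L) (w : L → Col b c) : WB (w ∘ g) = WB w := by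
  unfold WB
  exact Equiv.sum_comp g (fun l => wb (w l))

theorem pr_PW : T_PW := by
  intro b c L _ _ i j F
  refine ⟨fun κ n hF => ⟨fun g => ?_, fun w hw => ?_, fun w => ?_⟩, fun V hF w => ?_,
    fun w hw => ?_, fun hF => ?_, fun i' j' hne hF => ?_⟩
  · funext w
    have h1 : act g F w = (sg g • F) w := by rw [hF.1 g]
    show rename g (PW b c L i j F (w ∘ g)) = sg g • PW b c L i j F w
    rw [PW_apply, PW_apply, PW_WA, PW_WB]
    by_cases h : WA w = i ∧ WB w = j
    · rw [if_pos h, if_pos h]; exact h1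
    · rw [if_neg h, if_neg h, map_zero, smul_zero]
  · rw [PW_apply]
    split_ifs
    · exact hF.2.1 w hw
    · rfl
  · rw [PW_apply]
    split_ifs
    · exact hF.2.2 w
    · exact isHomogeneous_zero _ _ _
  · show PW b c L i j F w ∈ V (tw w)
    rw [PW_apply]
    split_ifs
    · exact hF w
    · exact Submodule.zero_mem _
  · rw [PW_apply] at hw
    by_contra h
    exact hw (if_neg h)
  · funext w
    rw [PW_apply]
    split_ifs with h
    · rfl
    · by_contra hne
      exact h (hF w (Ne.symm hne))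
  · funext w
    rw [PW_apply, Pi.zero_apply]
    split_ifs with h
    · by_contra hne'
      have := hF w hne'
      exact hne (by rw [← this.1, ← this.2, h.1, h.2])
    · rfl

end Pool.Agent.Work.MP_c41774_al.Full.T

end
end

section

/-!
# Block T, item T_REC: recombination of the two steps (helper39)
-/

noncomputable section

namespace Pool.Agent.Work.MP_c41774_al.Full.T

open Finset MvPolynomial
open Pool.Agent.Work.MP_c41774_al.Wall

lemma REC_fin {f : ℤ → ℤ} {M : ℤ} (h : ∀ x, f x ≠ 0 → |x| ≤ M) : (Function.support f).Finite :=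
  (Set.finite_Icc (-M) M).subset fun x hx => by
    have := h x hx
    rw [abs_le] at this
    exact this

/-- the rows used are finitely supported -/
lemma REC_fin2 {χ : ℤ → ℤ → ℤ} (h : FS2 χ) (u : ℤ → ℤ) (c : ℤ) :
    (Function.support fun J => χ (u J) (J + c)).Finite := by
  obtain ⟨M, hM⟩ := h
  refine REC_fin (M := M + |c|) fun J hJ => ?_
  have h1 := (hM _ _ hJ).2
  rw [abs_le] at h1 ⊢
  have h2 := le_abs_self c
  have h3 := neg_abs_le c
  constructor <;> linarith [h1.1, h1.2]

lemma REC_shift (f : ℤ → ℤ) (c : ℤ) : ∑ᶠ J : ℤ, f (J + c) = ∑ᶠ J : ℤ, f J :=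
  finsum_comp_equiv (Equiv.addRight c)

/-- `Ψ(y) = ∑_J χ (y - m J) J` -/
def REC_S (m : ℤ) (χ : ℤ → ℤ → ℤ) (y : ℤ) : ℤ := ∑ᶠ J : ℤ, χ (y - m * J) J

lemma REC_fch (m : ℤ) (χ : ℤ → ℤ → ℤ) (y : ℤ) : fch 1 m χ y = REC_S m χ y := by
  unfold fch REC_S
  have hinj : Function.Injective (fun J : ℤ => (y - m * J, J)) := by
    intro J J' h
    exact congrArg Prod.snd h
  obtain ⟨F, hF⟩ : ∃ F : ℤ × ℤ → ℤ,
      F = fun z : ℤ × ℤ => if 1 * z.1 + m * z.2 = y then χ z.1 z.2 else 0 := ⟨_, rfl⟩
  have h1 : ∀ J : ℤ, χ (y - m * J) J = F (y - m * J, J) := by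
    intro J
    rw [hF]
    simp
  rw [finsum_congr h1, ← hF, ← finsum_mem_univ F, ← finsum_mem_range hinj]
  refine finsum_mem_inter_support_eq _ _ _ ?_
  ext z
  simp only [Set.mem_inter_iff, Set.mem_univ, true_and, Function.mem_support, Set.mem_range]
  constructor
  · intro hz
    refine ⟨⟨z.2, ?_⟩, hz⟩
    by_cases h : 1 * z.1 + m * z.2 = y
    · ext
      · simp only
        linarith
      · rfl
    · exact absurd (by rw [hF]; exact if_neg h) hz
  · exact fun hz => hz.2

lemma REC_zero {m : ℕ} {χ : ℤ → ℤ → ℤ} (h : FS2 χ) : ∃ K : ℤ, ∀ y, y < -K → REC_S m χ y = 0 := by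
  obtain ⟨M, hM⟩ := h
  refine ⟨M + m * M, fun y hy => ?_⟩
  unfold REC_S
  have h0 : ∀ J : ℤ, χ (y - m * J) J = 0 := by
    intro J
    by_contra hne
    obtain ⟨h1, h2⟩ := hM _ _ hne
    rw [abs_le] at h1 h2
    have h3 : (m : ℤ) * (-M) ≤ m * J := mul_le_mul_of_nonneg_left h2.1 (Int.natCast_nonneg m)
    linarith [h1.1]
  rw [finsum_congr h0, finsum_zero]

lemma REC_rec {m r e : ℕ} {χ A : ℤ → ℤ → ℤ} (hχ : FS2 χ) (hA : FS2 A)
    (h : ∀ i J, A i J - A i (J - 2 * r) = χ i (J + e) - χ i (J - e)) (y : ℤ) :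
    REC_S m A y - REC_S m A (y - 2 * (r * m)) =
      REC_S m χ (y + e * m) - REC_S m χ (y - e * m) := by
  have e1 : REC_S m A (y - 2 * (r * m)) = ∑ᶠ J : ℤ, A (y - m * J) (J + -(2 * r)) := by
    unfold REC_S
    rw [← REC_shift (fun J => A (y - 2 * (r * m) - m * J) J) (-(2 * r))]
    refine finsum_congr fun J => ?_
    congr 1
    ring
  have e2 : REC_S m χ (y + e * m) = ∑ᶠ J : ℤ, χ (y - m * J) (J + e) := by
    unfold REC_S
    rw [← REC_shift (fun J => χ (y + e * m - m * J) J) e]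
    refine finsum_congr fun J => ?_
    congr 1
    ring
  have e3 : REC_S m χ (y - e * m) = ∑ᶠ J : ℤ, χ (y - m * J) (J + -e) := by
    unfold REC_S
    rw [← REC_shift (fun J => χ (y - e * m - m * J) J) (-e)]
    refine finsum_congr fun J => ?_
    congr 1
    ring
  have e4 : REC_S m A y = ∑ᶠ J : ℤ, A (y - m * J) (J + 0) := by
    unfold REC_S
    exact finsum_congr fun J => by rw [add_zero]
  rw [e1, e2, e3, e4, ← finsum_sub_distrib (REC_fin2 hA _ _) (REC_fin2 hA _ _),
    ← finsum_sub_distrib (REC_fin2 hχ _ _) (REC_fin2 hχ _ _)]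
  refine finsum_congr fun J => ?_
  have := h (y - m * J) J
  rw [add_zero]
  simpa only [sub_eq_add_neg] using this

theorem pr_REC : T_REC := by
  intro m r e hm hr he her χ A hχ hA h x
  obtain ⟨s, rfl⟩ := her
  have hdiv : e * s / e = s := Nat.mul_div_cancel_left s he
  rw [hdiv, REC_fch]
  -- the right hand side as a sum of values of `Φ`
  have hR : ∀ x : ℤ, (∑ᶠ J : ℤ, geo s (e * m) (fun y => A y J) (x - m * J - e * m)) =
      ∑ t ∈ range s, REC_S m A (x - e * m - 2 * (e * m) * t) := by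
    intro x
    unfold geo
    rw [finsum_sum_comm]
    · refine sum_congr rfl fun t _ => ?_
      unfold REC_S
      refine finsum_congr fun J => ?_
      congr 1
      ring
    · intro t _
      have := REC_fin2 hA (fun J => x - m * J - e * m - 2 * (e * m) * t) 0
      simp only [add_zero] at this
      exact this
  rw [hR]
  set D : ℤ → ℤ := fun x => (∑ t ∈ range s, REC_S m A (x - e * m - 2 * (e * m) * t)) -
    REC_S m χ x with hD
  have hper : ∀ x, D (x - 2 * (e * m)) = D x := by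
    intro x
    have h1 := REC_rec (m := m) hχ hA h (x - e * m)
    have h2 : (∑ t ∈ range s, REC_S m A (x - e * m - 2 * (e * m) * t)) -
        (∑ t ∈ range s, REC_S m A (x - 2 * (e * m) - e * m - 2 * (e * m) * t)) =
        REC_S m A (x - e * m) - REC_S m A (x - e * m - 2 * ((e * s : ℕ) * m)) := by
      rw [← sum_sub_distrib]
      obtain ⟨F, hF⟩ : ∃ F : ℕ → ℤ, ∀ t, F t = - REC_S m A (x - e * m - 2 * (e * m) * t) :=
        ⟨_, fun _ => rfl⟩
      have e0 : ∀ t ∈ range s, REC_S m A (x - e * m - 2 * (e * m) * t) -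
          REC_S m A (x - 2 * (e * m) - e * m - 2 * (e * m) * t) = F (t + 1) - F t := by
        intro t _
        have e1 : x - 2 * ((e : ℤ) * m) - e * m - 2 * (e * m) * t =
          x - e * m - 2 * (e * m) * ((t + 1 : ℕ) : ℤ) := by push_cast; ring
        rw [e1, hF, hF]
        ring
      rw [sum_congr rfl e0, sum_range_sub, hF, hF]
      have e2 : x - (e : ℤ) * m - 2 * (e * m) * ((0 : ℕ) : ℤ) = x - e * m := by push_cast; ring
      have e3 : x - (e : ℤ) * m - 2 * (((e * s : ℕ) : ℤ) * m) =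
        x - e * m - 2 * (e * m) * s := by push_cast; ring
      rw [e2, e3]
      ring
    have e4 : x - (e : ℤ) * m + e * m = x := by ring
    have e5 : x - (e : ℤ) * m - e * m = x - 2 * (e * m) := by ring
    rw [e4, e5] at h1
    simp only [hD]
    linarith
  have hperk : ∀ (k : ℕ) (x : ℤ), D (x - 2 * (e * m) * k) = D x := by
    intro k
    induction k with
    | zero => intro x; simp
    | succ k ih =>
      intro x
      have e1 : x - 2 * ((e : ℤ) * m) * ((k + 1 : ℕ) : ℤ) = (x - 2 * (e * m) * k) - 2 * (e * m) := by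
        push_cast; ring
      rw [e1, hper, ih]
  obtain ⟨K1, hK1⟩ := REC_zero (m := m) hχ
  obtain ⟨K2, hK2⟩ := REC_zero (m := m) hA
  have hem : (0 : ℤ) < e * m := by positivity
  have hz : ∀ y : ℤ, y < -K1 → y < -K2 → D y = 0 := by
    intro y h1 h2
    simp only [hD]
    rw [hK1 y h1, sub_zero]
    refine sum_eq_zero fun t _ => hK2 _ ?_
    have : (0 : ℤ) ≤ 2 * (e * m) * t := by positivity
    linarith
  have hfin : D x = 0 := by
    rw [← hperk ((x + K1).toNat + (x + K2).toNat + 1) x]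
    have h1 : x + K1 ≤ ((x + K1).toNat : ℤ) := Int.self_le_toNat _
    have h2 : x + K2 ≤ ((x + K2).toNat : ℤ) := Int.self_le_toNat _
    have h3 : (0 : ℤ) ≤ ((x + K1).toNat : ℤ) := Int.natCast_nonneg _
    have h4 : (0 : ℤ) ≤ ((x + K2).toNat : ℤ) := Int.natCast_nonneg _
    refine hz _ ?_ ?_
    · push_cast
      nlinarith
    · push_cast
      nlinarith
  simp only [hD] at hfin
  linarith

end Pool.Agent.Work.MP_c41774_al.Full.T

end
end
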