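import Pool.Agent.Work.MP_c41774_al.Bd.B03
import Pool.Agent.Work.MP_c41774_al.Bd.B02
import Pool.Agent.Work.MP_c41774_al.Bd.B04
import Pool.Agent.Work.MP_c41774_al.Bd.B05

/-! Bundle of small proof modules (one section per former module). -/

section

/-!
# Item REL: relative injectivity of the raising operator
-/

noncomputable section

namespace Pool.Agent.Work.MP_c41774_al.Full.T

theorem REL_mem {E : Type} [AddCommGroup E] [Module ℚ E] {f : E →ₗ[ℚ] E}
    {Ew : ℤ → Submodule ℚ E} (hf : ∀ i, ∀ x ∈ Ew i, f x ∈ Ew (i - 2)) {i : ℤ} {x : E}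
    (hx : x ∈ Ew i) (k : ℕ) : (f ^ k) x ∈ Ew (i - 2 * k) := by
  induction k with
  | zero => simpa using hx
  | succ k ih =>
    rw [pow_succ']
    have := hf _ _ ih
    have e1 : i - 2 * (k : ℤ) - 2 = i - 2 * ((k + 1 : ℕ) : ℤ) := by push_cast; ring
    rw [e1] at this
    exact this

theorem REL_comm {E : Type} [AddCommGroup E] [Module ℚ E] {e f : E →ₗ[ℚ] E}
    {Ew : ℤ → Submodule ℚ E} (hf : ∀ i, ∀ x ∈ Ew i, f x ∈ Ew (i - 2))
    (hef : ∀ i, ∀ x ∈ Ew i, e (f x) - f (e x) = (i : ℚ) • x) {i : ℤ} {x : E}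
    (hx : x ∈ Ew i) (k : ℕ) :
    e ((f ^ (k + 1)) x) = (f ^ (k + 1)) (e x) + (((k : ℚ) + 1) * (i - k)) • (f ^ k) x := by
  induction k with
  | zero =>
    have := hef i x hx
    have e1 : e (f x) = f (e x) + (i : ℚ) • x := by rw [← this]; abel
    simpa using e1
  | succ k ih =>
    have h1 := hef _ _ (REL_mem hf hx (k + 1))
    have h2 : (f ^ (k + 1 + 1)) x = f ((f ^ (k + 1)) x) := by rw [pow_succ' f (k + 1)]; rfl
    have h3 : (f ^ (k + 1 + 1)) (e x) = f ((f ^ (k + 1)) (e x)) := by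
      rw [pow_succ' f (k + 1)]; rfl
    have h4 : f ((f ^ k) x) = (f ^ (k + 1)) x := by rw [pow_succ' f k]; rfl
    have e1 : e (f ((f ^ (k + 1)) x)) = f (e ((f ^ (k + 1)) x)) +
        ((i - 2 * ((k + 1 : ℕ) : ℤ) : ℤ) : ℚ) • (f ^ (k + 1)) x := by rw [← h1]; abel
    rw [h2, h3, e1, ih, map_add, map_smul, h4, add_assoc, ← add_smul]
    congr 2
    push_cast
    ring

theorem pr_REL : T_REL := by
  intro E _ _ e f Z Ew hf hef hM he hfZ i hi x hx hex
  have hfk : ∀ (k : ℕ) (z : E), z ∈ Z → (f ^ k) z ∈ Z := by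
    intro k
    induction k with
    | zero => intro z hz; simpa using hz
    | succ k ih =>
      intro z hz
      rw [pow_succ']
      exact hfZ _ (ih z hz)
  have key : ∀ k : ℕ, (f ^ k) x ∈ Z → x ∈ Z := by
    intro k
    induction k with
    | zero => intro h; simpa using h
    | succ k ih =>
      intro h
      apply ih
      have h1 := REL_comm hf hef hx k
      have h2 : (((k : ℚ) + 1) * (i - k)) • (f ^ k) x ∈ Z := by
        have : (((k : ℚ) + 1) * (i - k)) • (f ^ k) x =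
            e ((f ^ (k + 1)) x) - (f ^ (k + 1)) (e x) := by rw [h1]; abel
        rw [this]
        exact Z.sub_mem (he _ h) (hfk _ _ hex)
      have h3 : ((k : ℚ) + 1) * (i - k) ≠ 0 := by
        have h4 : (0 : ℚ) ≤ k := by positivity
        have h5 : (i : ℚ) < 0 := by exact_mod_cast hi
        apply mul_ne_zero
        · linarith
        · linarith
      exact (Z.smul_mem_iff h3).mp h2
  obtain ⟨M, hM⟩ := hM
  obtain ⟨k, hk⟩ : ∃ k : ℕ, i - 2 * (k : ℤ) < M := ⟨(i - M).toNat + 1, by omega⟩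
  apply key k
  have h1 := REL_mem hf hx k
  rw [hM _ hk, Submodule.mem_bot] at h1
  rw [h1]
  exact Z.zero_mem

end Pool.Agent.Work.MP_c41774_al.Full.T

end
end

section

/-!
# Item SER: coefficients of the series
-/

noncomputable section

namespace Pool.Agent.Work.MP_c41774_al.Full.T

open Finset MvPolynomial
open Pool.Agent.Work.MP_c41774_al.Wall

/-- the extension of `β` by zero -/
def SER_ext (β : ℕ → ℕ) (y : ℤ) : ℤ := if 0 ≤ y then (β y.toNat : ℤ) else 0

theorem SER_neg {β : ℕ → ℕ} {y : ℤ} (h : y < 0) : SER_ext β y = 0 := if_neg (by omega)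

theorem SER_nat {β : ℕ → ℕ} (n : ℕ) : SER_ext β (n : ℤ) = (β n : ℤ) := by
  rw [SER_ext, if_pos (by omega), Int.toNat_natCast]

theorem SER_sum (D : ℕ) (hD : 0 < D) (β : ℕ → ℕ) (n : ℕ) :
    ∑ j ∈ range (n + 1), (if D ∣ j then (β (n - j) : ℤ) else 0) =
      ∑ k ∈ range (n + 1), SER_ext β ((n : ℤ) - D * k) := by
  have e2 : ∑ k ∈ range (n + 1), SER_ext β ((n : ℤ) - D * k) =
      ∑ k ∈ range (n + 1), if D * k ≤ n then (β (n - D * k) : ℤ) else 0 := by
    refine Finset.sum_congr rfl fun k _ => ?_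
    by_cases h : D * k ≤ n
    · have h' : ((n : ℤ) - D * k) = ((n - D * k : ℕ) : ℤ) := by
        rw [Nat.cast_sub h]; push_cast; rfl
      rw [if_pos h, h', SER_nat]
    · have h' : ((n : ℤ) - D * k) < 0 := by
        have : ((n : ℕ) : ℤ) < ((D * k : ℕ) : ℤ) := by exact_mod_cast (not_le.mp h)
        push_cast at this
        omega
      rw [if_neg h, SER_neg h']
  rw [e2, ← Finset.sum_filter, ← Finset.sum_filter]
  refine Finset.sum_nbij' (fun j => j / D) (fun k => D * k) ?_ ?_ ?_ ?_ ?_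
  · intro j hj
    rw [Finset.mem_filter, Finset.mem_range] at hj ⊢
    have h1 : D * (j / D) = j := Nat.mul_div_cancel' hj.2
    have h2 : j / D ≤ j := Nat.div_le_self j D
    refine ⟨by omega, ?_⟩
    rw [h1]; omega
  · intro k hk
    rw [Finset.mem_filter, Finset.mem_range] at hk ⊢
    exact ⟨by omega, dvd_mul_right D k⟩
  · intro j hj
    rw [Finset.mem_filter] at hj
    exact Nat.mul_div_cancel' hj.2
  · intro k _
    exact Nat.mul_div_cancel_left k hD
  · intro j hj
    rw [Finset.mem_filter] at hj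
    have h1 : D * (j / D) = j := Nat.mul_div_cancel' hj.2
    show (β (n - j) : ℤ) = β (n - D * (j / D))
    rw [h1]

theorem SER_coeff (D : ℕ) (hD : 0 < D) (β : ℕ → ℕ) (x : ℤ) :
    ((ser β * ser fun j => if D ∣ j then 1 else 0) : S).coeff x = tl D (SER_ext β) x := by
  have e : (ser β * ser fun j => if D ∣ j then 1 else 0 : S) =
      HahnSeries.ofPowerSeries ℤ ℤ ((PowerSeries.mk fun j => (β j : ℤ)) *
        PowerSeries.mk fun j => (((if D ∣ j then 1 else 0 : ℕ)) : ℤ)) := by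
    rw [ser, ser, ← map_mul]
  rw [e]
  have hc := PowerSeries.coeff_coe (R := ℤ) ((PowerSeries.mk fun j => (β j : ℤ)) *
        PowerSeries.mk fun j => (((if D ∣ j then 1 else 0 : ℕ)) : ℤ)) x
  refine hc.trans ?_
  have hD' : (1 : ℤ) ≤ D := by exact_mod_cast hD
  rw [tl]
  by_cases hx : x < 0
  · rw [if_pos hx]
    symm
    refine finsum_eq_zero_of_forall_eq_zero fun k => SER_neg ?_
    have : (0 : ℤ) ≤ (D : ℤ) * k := by positivity
    omega
  · rw [if_neg hx]
    obtain ⟨n, rfl⟩ := Int.eq_ofNat_of_zero_le (not_lt.mp hx)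
    rw [Int.natAbs_natCast, PowerSeries.coeff_mul,
      finsum_eq_sum_of_support_subset (s := range (n + 1)), ← SER_sum D hD β n,
      ← Finset.Nat.sum_antidiagonal_swap, Finset.Nat.sum_antidiagonal_eq_sum_range_succ_mk]
    · refine Finset.sum_congr rfl fun j _ => ?_
      simp only [Prod.swap_prod_mk, PowerSeries.coeff_mk]
      split_ifs <;> simp
    · intro k hk
      rw [Finset.coe_range, Set.mem_Iio]
      by_contra hcon
      apply hk
      refine SER_neg ?_
      have h1 : ((n : ℤ) + 1) ≤ k := by exact_mod_cast not_lt.mp hcon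
      have h2 : (k : ℤ) ≤ D * k := le_mul_of_one_le_left (by positivity) hD'
      omega

theorem SER_w (s : ℤ) (Y : S) (a : ℤ) : (Wall.w s * Y).coeff a = Y.coeff (a - s) := by
  rw [Wall.w, HahnSeries.coeff_single_mul, one_mul]

theorem SER_w_add (m n : ℤ) : Wall.w (m + n) = Wall.w m * Wall.w n := by
  rw [Wall.w, Wall.w, Wall.w, HahnSeries.single_mul_single, mul_one]

theorem pr_SER : T_SER := by
  intro D hD β g s a
  have e : ((Wall.w (-g) - Wall.w g) * (Wall.w (-s) * ser β *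
      ser fun j => if D ∣ j then 1 else 0) : S) =
      Wall.w (-g + -s) * (ser β * ser fun j => if D ∣ j then 1 else 0) -
        Wall.w (g + -s) * (ser β * ser fun j => if D ∣ j then 1 else 0) := by
    rw [SER_w_add, SER_w_add]; ring
  rw [e, HahnSeries.coeff_sub, SER_w, SER_w, SER_coeff D hD, SER_coeff D hD]
  have e1 : a - (-g + -s) = a + g + s := by ring
  have e2 : a - (g + -s) = a - g + s := by ring
  rw [e1, e2]
  rfl

end Pool.Agent.Work.MP_c41774_al.Full.T

end
end

section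

/-!
# Block T, item ST1: step 1 of the half trick (helper27)
-/

noncomputable section

namespace Pool.Agent.Work.MP_c41774_al.Full.T

open Finset

/-- tails vanish below the support -/
theorem ST1_tl_zero {N : ℤ} (hN : 0 < N) {f : ℤ → ℤ} {M : ℤ} (hf : ∀ x, f x ≠ 0 → |x| ≤ M)
    {x : ℤ} (hx : x < -M) : tl N f x = 0 := by
  unfold tl
  refine finsum_eq_zero_of_forall_eq_zero fun k => ?_
  by_contra h
  have h1 := (abs_le.1 (hf _ h)).1
  have h2 : 0 ≤ N * (k : ℤ) := mul_nonneg hN.le (Int.natCast_nonneg k)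
  omega

/-- tails are finite sums -/
theorem ST1_tl_sum {N : ℤ} (hN : 0 < N) {f : ℤ → ℤ} {M : ℤ} (hf : ∀ x, f x ≠ 0 → |x| ≤ M)
    {x : ℤ} {K : ℕ} (hK : x + M < K) : tl N f x = ∑ k ∈ range K, f (x - N * k) := by
  unfold tl
  refine finsum_eq_sum_of_support_subset _ fun k hk => ?_
  rw [coe_range, Set.mem_Iio]
  by_contra h
  have h0 : (K : ℤ) ≤ k := by exact_mod_cast not_lt.1 h
  have h1 := (abs_le.1 (hf _ hk)).1
  have h2 : (k : ℤ) ≤ N * k := by
    have : 0 ≤ (k : ℤ) := Int.natCast_nonneg k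
    nlinarith
  omega

theorem pr_ST1 (hTL : T_TL) (hHT : T_HT) (hPER : T_PER) (hSUB : T_SUBC) (hUNI : T_UNI) :
    T_ST1 := by
  intro b c p q hb hc χ hχ r e hr he hrb heq
  obtain ⟨M, hM⟩ := hχ.fin
  have hrz : (0 : ℤ) < 2 * r := by exact_mod_cast (by omega : 0 < 2 * r)
  have hcz : (0 : ℤ) < 2 * c := by exact_mod_cast (by omega : 0 < 2 * c)
  have hez : (0 : ℤ) < e := by exact_mod_cast he
  have hFi : ∀ i x, χ i x ≠ 0 → |x| ≤ M := fun i x h => (hM i x h).2
  have hFS : ∀ i, FS (χ i) := fun i => ⟨M, hFi i⟩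
  have hFj : ∀ j, FS (fun x => χ x j) := fun j => ⟨M, fun x h => (hM x j h).1⟩
  have hsymB : ∀ i x, χ i (0 - x) = χ i x := fun i x => by rw [zero_sub]; exact hχ.symB i x
  -- class sums of the rows
  have hcl : ∀ i x, cl (2 * r) (χ i) (x + e) = cl (2 * r) (χ i) (x - e) := by
    intro i x
    obtain ⟨s, hs⟩ := hrb
    have hs0 : 0 < s := by
      rcases Nat.eq_zero_or_pos s with h | h
      · rw [h, mul_zero] at hs; omega
      · exact h
    have hN : 2 * (r : ℤ) * s = 2 * b := by rw [hs]; push_cast; ring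
    have h1 := hSUB (2 * r) hrz s hs0 (χ i) (hFS i)
    rw [hN] at h1
    have h2 : ∀ y, cl (2 * r) (χ i) (y + 2 * r) = cl (2 * r) (χ i) y :=
      (hTL (2 * r) hrz (χ i) (χ i) (hFS i) (hFS i)).2.1
    have h3 : ∀ y, cl (2 * r) (χ i) (y + 2 * q) = cl (2 * r) (χ i) y := by
      intro y
      rw [h1, h1]
      refine sum_congr rfl fun t _ => ?_
      rw [← hχ.rotB i (y + 2 * r * t)]
      congr 1
      ring
    have h4 := hPER (cl (2 * r) (χ i)) r q h2 h3 e (by rw [heq]) (x - e)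
    rw [← h4]
    congr 1
    ring
  have hA : ∀ i J, stA r e χ i (-(2 * r) - J) = stA r e χ i J := by
    intro i J
    have h := (hHT (2 * r) hrz (χ i) 0 e (hFS i) (hsymB i) (hcl i)).1 J
    unfold stA
    rw [← h]
    congr 2 <;> ring
  refine ⟨⟨M + e, fun i J h => ?_⟩, fun i J => ?_, fun i J hi => ?_, fun i J => ?_,
    fun i J => ?_⟩
  · constructor
    · by_contra hi
      refine h ?_
      have h0 : ∀ x, χ i x = 0 := fun x => by
        by_contra h1
        exact hi ((hM i x h1).1.trans (by omega))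
      have h1 : ∀ y, tl (2 * r) (χ i) y = 0 := fun y => by
        unfold tl
        exact finsum_eq_zero_of_forall_eq_zero fun k => h0 _
      unfold stA
      rw [h1, h1, sub_zero]
    · have hlow : ∀ J', stA r e χ i J' ≠ 0 → -(M + e) ≤ J' := by
        intro J' h'
        by_contra hJ
        refine h' ?_
        unfold stA
        rw [ST1_tl_zero hrz (hFi i) (by omega), ST1_tl_zero hrz (hFi i) (by omega), sub_zero]
      rw [abs_le]
      refine ⟨hlow J h, ?_⟩
      have h2 := hlow (-(2 * r) - J) (by rw [hA]; exact h)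
      omega
  · have h1 : χ (-i) = χ i := funext fun j => hχ.symA i j
    unfold stA
    rw [h1]
  · -- unimodality in `i`
    set D : ℤ → ℤ := fun j => χ i j - χ (i - 2) j with hD
    have hDFS : FS D := by
      refine ⟨M, fun x hx => ?_⟩
      by_contra h
      refine hx ?_
      have h1 : χ i x = 0 := by by_contra h1; exact h (hFi _ _ h1)
      have h2 : χ (i - 2) x = 0 := by by_contra h2; exact h (hFi _ _ h2)
      simp only [hD, h1, h2, sub_zero]
    have hDs : ∀ x, D (-x) = D x := fun x => by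
      simp only [hD, hχ.symB]
    have hDu : ∀ x, x ≤ 1 → D (x - 2) ≤ D x := fun x hx => by
      have := hχ.dd i x hi hx
      simp only [hD]
      omega
    have hDc : ∀ x, cl (2 * r) D (x + e) = cl (2 * r) D (x - e) := fun x => by
      have h1 := (hTL (2 * r) hrz (χ i) (χ (i - 2)) (hFS i) (hFS (i - 2))).2.2.2.2.2.1
      simp only [hD]
      rw [h1, h1, hcl, hcl]
    have hT : ∀ J, stA r e χ i J - stA r e χ (i - 2) J =
        tl (2 * r) D (J + e) - tl (2 * r) D (J - e) := fun J => by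
      have h1 := (hTL (2 * r) hrz (χ i) (χ (i - 2)) (hFS i) (hFS (i - 2))).2.2.2.1
      simp only [hD]
      rw [h1, h1]
      unfold stA
      ring
    have hpos : ∀ J, J ≤ 0 → 0 ≤ tl (2 * r) D (J + e) - tl (2 * r) D (J - e) := by
      intro J hJ
      have hF1 : FS (fun y => D (y + e)) := by
        obtain ⟨M', hM'⟩ := hDFS
        refine ⟨M' + e, fun x hx => ?_⟩
        have := abs_le.1 (hM' _ hx)
        rw [abs_le]
        omega
      have hF2 : FS (fun y => D (y + -e)) := by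
        obtain ⟨M', hM'⟩ := hDFS
        refine ⟨M' + e, fun x hx => ?_⟩
        have := abs_le.1 (hM' _ hx)
        rw [abs_le]
        omega
      have h1 := (hTL (2 * r) hrz D D hDFS hDFS).2.2.2.2.2.2.2.1
      have h2 := (hTL (2 * r) hrz _ _ hF1 hF2).2.2.2.1 J
      rw [h1, h1] at h2
      rw [sub_eq_add_neg J (e : ℤ), ← h2]
      unfold tl
      refine finsum_nonneg fun k => ?_
      have hk : 0 ≤ 2 * (r : ℤ) * k := mul_nonneg hrz.le (Int.natCast_nonneg k)
      have h3 := hUNI D hDs hDu (J - 2 * r * k) e (by omega) hez.le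
      rw [sub_eq_add_neg (J - 2 * (r : ℤ) * k) (e : ℤ)] at h3
      exact sub_nonneg.2 h3
    have hfin : 0 ≤ stA r e χ i J - stA r e χ (i - 2) J := by
      rcases le_or_gt J 0 with hJ | hJ
      · rw [hT]
        exact hpos J hJ
      · rw [← hA i J, ← hA (i - 2) J, hT]
        exact hpos _ (by omega)
    omega
  · -- class sums in `i`
    obtain ⟨K, hK⟩ : ∃ K : ℕ, J + e + M < K := ⟨(J + e + M).toNat + 1, by
      have := Int.self_le_toNat (J + e + M)
      push_cast
      omega⟩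
    have hst : (fun x => stA r e χ x J) = fun x => ∑ k ∈ range K,
        (χ x (J + e - 2 * r * k) - χ x (J - e - 2 * r * k)) := by
      funext x
      unfold stA
      rw [ST1_tl_sum hrz (hFi x) (K := K) (by omega), ST1_tl_sum hrz (hFi x) (K := K) (by omega),
        sum_sub_distrib]
    rw [hst]
    have key : ∀ K : ℕ, FS (fun x => ∑ k ∈ range K,
        (χ x (J + e - 2 * r * k) - χ x (J - e - 2 * r * k))) ∧
        cl (2 * c) (fun x => ∑ k ∈ range K,
          (χ x (J + e - 2 * r * k) - χ x (J - e - 2 * r * k))) (i + 2 * p) =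
        cl (2 * c) (fun x => ∑ k ∈ range K,
          (χ x (J + e - 2 * r * k) - χ x (J - e - 2 * r * k))) i := by
      intro K
      induction K with
      | zero =>
        refine ⟨⟨0, fun x hx => ?_⟩, ?_⟩
        · exact absurd (by simp) hx
        · simp [cl]
      | succ K ih =>
        have hFS1 : FS (fun x => χ x (J + e - 2 * r * K) - χ x (J - e - 2 * r * K)) := by
          refine ⟨M, fun x hx => ?_⟩
          by_contra h
          refine hx ?_
          have h1 : χ x (J + e - 2 * r * K) = 0 := by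
            by_contra h1; exact h (hM _ _ h1).1
          have h2 : χ x (J - e - 2 * r * K) = 0 := by
            by_contra h2; exact h (hM _ _ h2).1
          simp only [h1, h2, sub_zero]
        have hFS2 : FS (fun x => ∑ k ∈ range (K + 1),
            (χ x (J + e - 2 * r * k) - χ x (J - e - 2 * r * k))) := by
          refine ⟨M, fun x hx => ?_⟩
          by_contra h
          refine hx ?_
          refine sum_eq_zero fun k _ => ?_
          have h1 : χ x (J + e - 2 * r * k) = 0 := by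
            by_contra h1; exact h (hM _ _ h1).1
          have h2 : χ x (J - e - 2 * r * k) = 0 := by
            by_contra h2; exact h (hM _ _ h2).1
          rw [h1, h2, sub_zero]
        refine ⟨hFS2, ?_⟩
        simp only [sum_range_succ]
        have h1 := (hTL (2 * c) hcz _ _ ih.1 hFS1).2.2.2.2.2.2.1
        rw [h1, h1, ih.2]
        have h2 := (hTL (2 * c) hcz _ _ (hFj (J + e - 2 * r * K))
          (hFj (J - e - 2 * r * K))).2.2.2.2.2.1
        rw [h2, h2, hχ.rotA, hχ.rotA]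
    exact (key K).2
  · have h1 := (hTL (2 * r) hrz (χ i) (χ i) (hFS i) (hFS i)).1
    unfold stA
    have h2 := h1 (J + e)
    have h3 := h1 (J - e)
    rw [show J - 2 * (r : ℤ) + e = J + e - 2 * r by ring,
      show J - 2 * (r : ℤ) - e = J - e - 2 * r by ring]
    omega

end Pool.Agent.Work.MP_c41774_al.Full.T

end
end

section

/-!
# Block T, item T_ST2: step 2 of the half trick (helper39)
-/

noncomputable section

namespace Pool.Agent.Work.MP_c41774_al.Full.T

open Finset MvPolynomial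
open Pool.Agent.Work.MP_c41774_al.Wall

lemma ST2_FS_shift {f : ℤ → ℤ} (hf : FS f) (d : ℤ) : FS (fun x => f (x + d)) := by
  obtain ⟨M, hM⟩ := hf
  refine ⟨M + |d|, fun x hx => ?_⟩
  have h1 := hM _ hx
  rw [abs_le] at h1 ⊢
  have h2 := le_abs_self d
  have h3 := neg_abs_le d
  constructor <;> linarith [h1.1, h1.2]

lemma ST2_FS_add {f g : ℤ → ℤ} (hf : FS f) (hg : FS g) : FS (fun x => f x + g x) := by
  obtain ⟨M, hM⟩ := hf
  obtain ⟨M', hM'⟩ := hg
  refine ⟨max M M', fun x hx => ?_⟩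
  by_cases h : f x = 0
  · have hgx : g x ≠ 0 := fun h' => hx (by simp only [h, h', add_zero])
    exact (hM' x hgx).trans (le_max_right _ _)
  · exact (hM x h).trans (le_max_left _ _)

lemma ST2_geo_succ (s : ℕ) (N : ℤ) (f : ℤ → ℤ) :
    geo (s + 1) N f = fun x => geo s N f x + f (x + -(2 * N * s)) := by
  funext x
  simp only [geo, sum_range_succ, sub_eq_add_neg]

lemma ST2_geo_FS {f : ℤ → ℤ} (hf : FS f) (N : ℤ) : ∀ s : ℕ, FS (geo s N f)
  | 0 => ⟨0, fun x hx => absurd (by simp [geo]) hx⟩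
  | s + 1 => by
    rw [ST2_geo_succ]
    exact ST2_FS_add (ST2_geo_FS hf N s) (ST2_FS_shift hf _)

/-- tails and class sums of `geo` -/
lemma ST2_geo_tl (hTL : T_TL) {K : ℤ} (hK : 0 < K) {f : ℤ → ℤ} (hf : FS f) (N : ℤ) :
    ∀ (s : ℕ) (x : ℤ), tl K (geo s N f) x = ∑ t ∈ range s, tl K f (x + -(2 * N * t)) ∧
      cl K (geo s N f) x = ∑ t ∈ range s, cl K f (x + -(2 * N * t))
  | 0, x => by
    have h0 : geo 0 N f = fun _ => 0 := by funext y; simp [geo]
    rw [h0]
    simp [tl, cl]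
  | s + 1, x => by
    obtain ⟨_, _, _, _, h5, _, h7, _⟩ := hTL K hK (geo s N f) (fun y => f (y + -(2 * N * s)))
      (ST2_geo_FS hf N s) (ST2_FS_shift hf _)
    obtain ⟨_, _, _, _, _, _, _, h8, h9, _⟩ := hTL K hK f f hf hf
    obtain ⟨ih1, ih2⟩ := ST2_geo_tl hTL hK hf N s x
    rw [ST2_geo_succ, h5, h7, sum_range_succ, sum_range_succ, ih1, ih2, h8, h9]
    exact ⟨rfl, rfl⟩

lemma ST2_mul_period {h : ℤ → ℤ} {d : ℤ} (hd : ∀ x, h (x + d) = h x) (k : ℕ) :
    ∀ x, h (x + d * k) = h x := by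
  induction k with
  | zero => intro x; simp
  | succ k ih =>
    intro x
    have e1 : x + d * ((k + 1 : ℕ) : ℤ) = (x + d * k) + d := by push_cast; ring
    rw [e1, hd, ih]

lemma ST2_tl_le (hTL : T_TL) (hUNI : T_UNI) {K : ℤ} (hK : 0 < K) {A : ℤ → ℤ} (hA : FS A)
    (hsym : ∀ x, A (-x) = A x) (huni : ∀ x, x ≤ 1 → A (x - 2) ≤ A x) {g : ℤ} (hg : 0 ≤ g)
    (y : ℤ) (hy : y ≤ 0) : tl K A (y - g) ≤ tl K A (y + g) := by
  obtain ⟨h1, _, _, _, _, _, _, _, _, M, hM, _⟩ := hTL K hK A A hA hA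
  have key : ∀ (k : ℕ) (y : ℤ), y ≤ 0 → y + g - K * k < -M → tl K A (y - g) ≤ tl K A (y + g) := by
    intro k
    induction k with
    | zero =>
      intro y _ hk
      have hk' : y + g < -M := by simpa using hk
      rw [hM _ hk', hM _ (by linarith)]
    | succ k ih =>
      intro y hy hk
      have hk' : (y - K) + g - K * k < -M := by
        push_cast at hk
        linarith
      have h2 := ih (y - K) (by linarith) hk'
      have h3 := hUNI A hsym huni y g hy hg
      have e1 : y - K - g = y - g - K := by ring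
      have e2 : y - K + g = y + g - K := by ring
      rw [e1, e2] at h2
      rw [h1 (y - g), h1 (y + g)]
      linarith
  obtain ⟨k, hk⟩ : ∃ k : ℕ, y + g - K * k < -M := by
    refine ⟨(y + g + M).toNat + 1, ?_⟩
    have h4 : y + g + M ≤ ((y + g + M).toNat : ℤ) := Int.self_le_toNat _
    have h5 : (0 : ℤ) ≤ ((y + g + M).toNat : ℤ) := Int.natCast_nonneg _
    push_cast
    nlinarith
  exact key k y hy hk

theorem pr_ST2 (hTL : T_TL) (hHT : T_HT) (hPER : T_PER) (hUNI : T_UNI) : T_ST2 := by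
  intro n m r e d1 g hn hm hr he hd1 her hrm hd1rm hgcd A hA hsym huni hper
  obtain ⟨s, rfl⟩ := her
  have hs : 0 < s := Nat.pos_of_mul_pos_left hr
  have hdiv : e * s / e = s := Nat.mul_div_cancel_left s he
  rw [hdiv]
  have hK : (0 : ℤ) < 2 * n := by exact_mod_cast Nat.mul_pos two_pos hn
  set N : ℤ := (e : ℤ) * m with hN
  have hBFS : FS (geo s N A) := ST2_geo_FS hA N s
  have hgeo := ST2_geo_tl hTL hK hA N s
  -- period `2 e m s` of the class sum of `A`
  have hperA : ∀ x, cl (2 * n) A (x + 2 * N * s) = cl (2 * n) A x := by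
    obtain ⟨k, hk⟩ := hd1rm
    intro x
    have e1 : (2 * N * s : ℤ) = 2 * d1 * k := by
      have : ((e * s * m : ℕ) : ℤ) = ((d1 * k : ℕ) : ℤ) := by rw [hk]
      push_cast at this
      rw [hN]
      linear_combination 2 * this
    rw [e1]
    exact ST2_mul_period hper k x
  -- the class sum of `B` has period `2 e m`
  have hB1 : ∀ x, cl (2 * n) (geo s N A) (x + 2 * (e * m : ℕ)) = cl (2 * n) (geo s N A) x := by
    intro x
    rw [(hgeo _).2, (hgeo _).2, ← sub_eq_zero, ← sum_sub_distrib]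
    obtain ⟨F, hF⟩ : ∃ F : ℕ → ℤ, ∀ t, F t = - cl (2 * n) A (x + 2 * N - 2 * N * t) :=
      ⟨_, fun _ => rfl⟩
    have e0 : ∀ t ∈ range s, cl (2 * n) A (x + 2 * ((e * m : ℕ) : ℤ) + -(2 * N * t)) -
        cl (2 * n) A (x + -(2 * N * t)) = F (t + 1) - F t := by
      intro t _
      have e1 : x + 2 * ((e * m : ℕ) : ℤ) + -(2 * N * t) = x + 2 * N - 2 * N * t := by
        rw [hN]; push_cast; ring
      have e2 : x + -(2 * N * t) = x + 2 * N - 2 * N * ((t + 1 : ℕ) : ℤ) := by
        push_cast; ring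
      rw [e1, e2, hF, hF]
      ring
    rw [sum_congr rfl e0, sum_range_sub, hF, hF]
    have e3 : x + 2 * N - 2 * N * ((0 : ℕ) : ℤ) = (x + 2 * N - 2 * N * s) + 2 * N * s := by
      push_cast; ring
    rw [e3, hperA]
    ring
  have hB2 : ∀ x, cl (2 * n) (geo s N A) (x + 2 * d1) = cl (2 * n) (geo s N A) x := by
    intro x
    rw [(hgeo _).2, (hgeo _).2]
    refine sum_congr rfl fun t _ => ?_
    have e1 : x + 2 * (d1 : ℤ) + -(2 * N * t) = (x + -(2 * N * t)) + 2 * d1 := by ring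
    rw [e1, hper]
  have hB3 := hPER (cl (2 * n) (geo s N A)) (e * m) d1 hB1 hB2 g (Int.natCast_dvd_natCast.2 hgcd)
  have hB4 : ∀ x, cl (2 * n) (geo s N A) (x + g) = cl (2 * n) (geo s N A) (x - g) := by
    intro x
    rw [← hB3 (x - g)]
    congr 1
    ring
  -- symmetry of `B`
  have hBsym : ∀ x, geo s N A (2 * N * ((s : ℤ) - 1) - x) = geo s N A x := by
    intro x
    unfold geo
    rw [← sum_range_reflect]
    refine sum_congr rfl fun t ht => ?_
    have ht' : t < s := mem_range.1 ht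
    have e1 : ((s - 1 - t : ℕ) : ℤ) = (s : ℤ) - 1 - t := by omega
    rw [e1, ← hsym]
    congr 1
    ring
  obtain ⟨hG1, hG2⟩ := hHT (2 * n) hK (geo s N A) (2 * N * ((s : ℤ) - 1)) g hBFS hBsym hB4
  refine ⟨hG2, ?_⟩
  have hNpos : 0 < N := by rw [hN]; positivity
  have hneg : ∀ a : ℤ, a ≤ 0 → 0 ≤ tl (2 * n) (geo s N A) (a + g) -
      tl (2 * n) (geo s N A) (a - g) := by
    intro a ha
    rw [(hgeo _).1, (hgeo _).1, ← sum_sub_distrib]
    refine sum_nonneg fun t _ => ?_
    have e1 : a + g + -(2 * N * t) = (a - 2 * N * t) + g := by ring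
    have e2 : a - g + -(2 * N * t) = (a - 2 * N * t) - g := by ring
    rw [e1, e2]
    have ht : (0 : ℤ) ≤ 2 * N * t := by positivity
    have := ST2_tl_le hTL hUNI hK hA hsym huni (Int.natCast_nonneg g) (a - 2 * N * t)
      (by linarith)
    linarith
  intro a
  rcases le_or_gt a 0 with ha | ha
  · exact hneg a ha
  · rw [← hG1 a]
    refine hneg _ ?_
    have h1 : ((e * s * m : ℕ) : ℤ) ≤ n := by exact_mod_cast hrm
    push_cast at h1
    have h2 : 2 * N * ((s : ℤ) - 1) = 2 * (e * s * m) - 2 * N := by rw [hN]; ring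
    rw [h2]
    linarith

end Pool.Agent.Work.MP_c41774_al.Full.T

end
end

section

/-!
# Item SUBC: class sums for a divisor of the modulus
-/

noncomputable section

namespace Pool.Agent.Work.MP_c41774_al.Full.T

open Finset MvPolynomial
open Pool.Agent.Work.MP_c41774_al.Wall

theorem SUBC_fin {f : ℤ → ℤ} (hf : FS f) {N : ℤ} (hN : 0 < N) (x : ℤ) :
    (Function.support fun s : ℤ => f (x + N * s)).Finite := by
  obtain ⟨M, hM⟩ := hf
  refine (Set.finite_Icc (-(|M| + |x|)) (|M| + |x|)).subset ?_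
  intro s hs
  have h1 := hM _ hs
  have h2 : |N * s| ≤ |M| + |x| := by
    have h3 : N * s = (x + N * s) - x := by ring
    rw [h3]
    calc |(x + N * s) - x| ≤ |x + N * s| + |x| := abs_sub _ _
      _ ≤ M + |x| := by linarith
      _ ≤ |M| + |x| := by have := le_abs_self M; linarith
  rw [abs_mul, abs_of_pos hN] at h2
  have h4 : |s| ≤ N * |s| := by
    have := abs_nonneg s
    nlinarith
  rw [Set.mem_Icc]
  exact abs_le.mp (h4.trans h2)

theorem pr_SUBC : T_SUBC := by
  intro N hN s hs f hf x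
  haveI : NeZero s := ⟨hs.ne'⟩
  unfold cl
  have hfin := SUBC_fin hf hN x
  have key : ∀ g : ℤ → ℤ, (Function.support g).Finite →
      ∑ᶠ u : ℤ, g u = ∑ t ∈ range s, ∑ᶠ u : ℤ, g (t + s * u) := by
    intro g hg
    let e : Fin s × ℤ ≃ ℤ := (Equiv.prodComm _ _).trans (Int.divModEquiv s).symm
    have he : ∀ p : Fin s × ℤ, e p = (p.1 : ℕ) + s * p.2 := by
      intro p
      show p.2 * s + ((p.1 : ℕ) : ℤ) = _
      ring
    rw [← finsum_comp_equiv e]
    have hg' : (Function.support fun i => g (e i)).Finite :=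
      hg.preimage e.injective.injOn
    rw [finsum_curry _ hg', finsum_eq_sum_of_fintype, Finset.sum_range]
    refine Finset.sum_congr rfl fun t _ => ?_
    refine finsum_congr fun u => ?_
    rw [he]
  rw [key _ hfin]
  refine Finset.sum_congr rfl fun t _ => finsum_congr fun u => ?_
  congr 1
  ring

end Pool.Agent.Work.MP_c41774_al.Full.T

end
end

section

/-!
# Item SYM: symmetry of the multiplicities
-/

noncomputable section

namespace Pool.Agent.Work.MP_c41774_al.Full.T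

open Finset MvPolynomial
open Pool.Agent.Work.MP_c41774_al.Wall

theorem SYM_gen (hT : T_TTU) (hD : T_DMAP) (b c : ℕ) (L : Type) [Fintype L] [DecidableEq L]
    (V I : (L → Bool) → Submodule ℚ (MvPolynomial L ℚ)) (κ : ℕ × ℕ) (n : ℕ) (i j i' j' : ℤ)
    (ρ : Equiv.Perm (Col b c)) (hρ : TyP ρ)
    (h : ∀ w : L → Col b c, (WA (⇑ρ ∘ w) = i' ∧ WB (⇑ρ ∘ w) = j') ↔ (WA w = i ∧ WB w = j)) :
    chi b c V I κ n i' j' = chi b c V I κ n i j := by
  refine hD (Fm b c L) (TT ρ) (TT ρ⁻¹) _ _ _ ?_ ?_ ?_ ?_ ?_ ?_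
  · intro F; exact (hT b c L ρ F hρ).2.2.1
  · intro F; exact (hT b c L ρ F hρ).2.2.2.1
  · rintro F ⟨⟨h1, h2⟩, h3⟩
    refine ⟨⟨(hT b c L ρ F hρ).1 κ n h1, ?_⟩, (hT b c L ρ F hρ).2.1 V h3⟩
    intro w hw
    exact (h w).mp (h2 _ hw)
  · rintro F ⟨⟨h1, h2⟩, h3⟩
    have hρ' : TyP ρ⁻¹ := (hT b c L ρ F hρ).2.2.2.2
    refine ⟨⟨(hT b c L ρ⁻¹ F hρ').1 κ n h1, ?_⟩, (hT b c L ρ⁻¹ F hρ').2.1 V h3⟩
    intro w hw
    have h4 := (h (⇑ρ⁻¹ ∘ w)).mpr (h2 _ hw)
    have h5 : ⇑ρ ∘ (⇑ρ⁻¹ ∘ w) = w := by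
      funext l
      simp
    rwa [h5] at h4
  · intro F hF; exact (hT b c L ρ F hρ).2.1 I hF
  · intro F hF
    exact (hT b c L ρ⁻¹ F (hT b c L ρ F hρ).2.2.2.2).2.1 I hF

/-- reversal of the x-colours -/
def SYM_rA (b c : ℕ) : Equiv.Perm (Col b c) := Equiv.sumCongr Fin.revPerm (Equiv.refl _)

/-- reversal of the y-colours -/
def SYM_rB (b c : ℕ) : Equiv.Perm (Col b c) := Equiv.sumCongr (Equiv.refl _) Fin.revPerm

theorem pr_SYM : T_SYM := by
  intro hT hD b c L _ _ V I κ n i j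
  constructor
  · refine SYM_gen hT hD b c L V I κ n i j (-i) j (SYM_rA b c) ?_ ?_
    · rintro (x | x) <;> rfl
    · intro w
      have h1 : ∀ x : Col b c, wa (SYM_rA b c x) = -wa x := by
        rintro (x | x)
        · show (c : ℤ) - 1 - 2 * ((Fin.rev x : Fin c) : ℕ) = -((c : ℤ) - 1 - 2 * (x : ℕ))
          rw [Fin.val_rev]
          have := x.2
          omega
        · rfl
      have h2 : ∀ x : Col b c, wb (SYM_rA b c x) = wb x := by
        rintro (x | x) <;> rfl
      have e1 : WA (⇑(SYM_rA b c) ∘ w) = -WA w := by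
        rw [WA, WA, ← Finset.sum_neg_distrib]
        exact Finset.sum_congr rfl fun l _ => h1 _
      have e2 : WB (⇑(SYM_rA b c) ∘ w) = WB w :=
        Finset.sum_congr rfl fun l _ => h2 _
      rw [e1, e2, neg_inj]
  · refine SYM_gen hT hD b c L V I κ n i j i (-j) (SYM_rB b c) ?_ ?_
    · rintro (x | x) <;> rfl
    · intro w
      have h1 : ∀ x : Col b c, wb (SYM_rB b c x) = -wb x := by
        rintro (x | x)
        · rfl
        · show (b : ℤ) - 1 - 2 * ((Fin.rev x : Fin b) : ℕ) = -((b : ℤ) - 1 - 2 * (x : ℕ))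
          rw [Fin.val_rev]
          have := x.2
          omega
      have h2 : ∀ x : Col b c, wa (SYM_rB b c x) = wa x := by
        rintro (x | x) <;> rfl
      have e1 : WB (⇑(SYM_rB b c) ∘ w) = -WB w := by
        rw [WB, WB, ← Finset.sum_neg_distrib]
        exact Finset.sum_congr rfl fun l _ => h1 _
      have e2 : WA (⇑(SYM_rB b c) ∘ w) = WA w :=
        Finset.sum_congr rfl fun l _ => h2 _
      rw [e1, e2, neg_inj]

end Pool.Agent.Work.MP_c41774_al.Full.T

end
end

section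

/-!
# Item TL: toolkit for tails and class sums
-/

noncomputable section

namespace Pool.Agent.Work.MP_c41774_al.Full.T

open Finset MvPolynomial
open Pool.Agent.Work.MP_c41774_al.Wall

theorem TL_finN {N : ℤ} (hN : 0 < N) {f : ℤ → ℤ} (hf : FS f) (x : ℤ) :
    ∃ K : ℕ, ∀ k : ℕ, K ≤ k → f (x - N * k) = 0 := by
  obtain ⟨M, hM⟩ := hf
  refine ⟨(x + M).toNat + 1, fun k hk => ?_⟩
  by_contra h
  have h1 := (abs_le.1 (hM _ h)).1
  have h2 : (k : ℤ) ≤ N * k := by nlinarith [Int.natCast_nonneg k]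
  have h3 : x + M < k := by
    have h4 : x + M ≤ ((x + M).toNat : ℤ) := Int.self_le_toNat _
    have h5 : (((x + M).toNat + 1 : ℕ) : ℤ) ≤ k := by exact_mod_cast hk
    push_cast at h5
    omega
  omega

theorem TL_finP {N : ℤ} (hN : 0 < N) {f : ℤ → ℤ} (hf : FS f) (x : ℤ) :
    ∃ K : ℕ, ∀ k : ℕ, K ≤ k → f (x + N * (k + 1)) = 0 := by
  obtain ⟨M, hM⟩ := hf
  refine ⟨(M - x).toNat + 1, fun k hk => ?_⟩
  by_contra h
  have h1 := (abs_le.1 (hM _ h)).2
  have h2 : (k : ℤ) + 1 ≤ N * (k + 1) := by nlinarith [Int.natCast_nonneg k]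
  have h3 : M - x < k := by
    have h4 : M - x ≤ ((M - x).toNat : ℤ) := Int.self_le_toNat _
    have h5 : (((M - x).toNat + 1 : ℕ) : ℤ) ≤ k := by exact_mod_cast hk
    push_cast at h5
    omega
  omega

theorem TL_range {g : ℕ → ℤ} {K : ℕ} (h : ∀ k : ℕ, K ≤ k → g k = 0) :
    ∑ᶠ k : ℕ, g k = ∑ k ∈ range K, g k := by
  apply finsum_eq_sum_of_support_subset
  intro k hk
  rw [Finset.coe_range, Set.mem_Iio]
  by_contra hk'
  exact hk (h k (not_lt.1 hk'))

theorem TL_suppN {N : ℤ} (hN : 0 < N) {f : ℤ → ℤ} (hf : FS f) (x : ℤ) :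
    (Function.support fun k : ℕ => f (x - N * k)).Finite := by
  obtain ⟨K, hK⟩ := TL_finN hN hf x
  refine (Set.finite_Iio K).subset fun k hk => ?_
  rw [Set.mem_Iio]
  by_contra hk'
  exact hk (hK k (not_lt.1 hk'))

theorem TL_suppZ {N : ℤ} (hN : 0 < N) {f : ℤ → ℤ} (hf : FS f) (x : ℤ) :
    (Function.support fun s : ℤ => f (x + N * s)).Finite := by
  obtain ⟨K, hK⟩ := TL_finN hN hf x
  obtain ⟨K', hK'⟩ := TL_finP hN hf x
  refine (Set.finite_Icc (-(K : ℤ)) K').subset fun s hs => ?_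
  rw [Set.mem_Icc]
  constructor
  · by_contra h
    apply hs
    have h1 : K ≤ s.natAbs := by omega
    have h2 := hK _ h1
    have h3 : ((s.natAbs : ℕ) : ℤ) = -s := by omega
    rw [h3] at h2
    have h4 : x + N * s = x - N * -s := by ring
    show f (x + N * s) = 0
    rw [h4]
    exact h2
  · by_contra h
    apply hs
    have h1 : K' ≤ s.natAbs - 1 := by omega
    have h2 := hK' _ h1
    have h3 : ((s.natAbs - 1 : ℕ) : ℤ) + 1 = s := by omega
    rw [h3] at h2
    exact h2

theorem TL_split {N : ℤ} (hN : 0 < N) {f : ℤ → ℤ} (hf : FS f) (x : ℤ) :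
    cl N f x = tl N f x + ∑ᶠ k : ℕ, f (x + N * (k + 1)) := by
  obtain ⟨K, hK⟩ := TL_finN hN hf x
  obtain ⟨K', hK'⟩ := TL_finP hN hf x
  have e1 : tl N f x = ∑ s ∈ (range K).image (fun k : ℕ => -(k : ℤ)), f (x + N * s) := by
    rw [tl, TL_range hK, Finset.sum_image (by
      intro a _ b _ hab
      have h' : -(a : ℤ) = -(b : ℤ) := hab
      omega)]
    refine Finset.sum_congr rfl fun k _ => ?_
    congr 1
    ring
  have e2 : ∑ᶠ k : ℕ, f (x + N * (k + 1)) =
      ∑ s ∈ (range K').image (fun k : ℕ => (k : ℤ) + 1), f (x + N * s) := by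
    rw [TL_range hK', Finset.sum_image (by
      intro a _ b _ hab
      have h' : (a : ℤ) + 1 = (b : ℤ) + 1 := hab
      omega)]
  rw [e1, e2, ← Finset.sum_union]
  · rw [cl]
    apply finsum_eq_sum_of_support_subset
    intro s hs
    rw [Finset.mem_coe, Finset.mem_union]
    rcases le_or_gt s 0 with h0 | h0
    · left
      rw [Finset.mem_image]
      refine ⟨s.natAbs, ?_, by omega⟩
      rw [Finset.mem_range]
      by_contra hk
      apply hs
      have h2 := hK _ (not_lt.1 hk)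
      have h3 : ((s.natAbs : ℕ) : ℤ) = -s := by omega
      rw [h3] at h2
      have h4 : x + N * s = x - N * -s := by ring
      show f (x + N * s) = 0
      rw [h4]
      exact h2
    · right
      rw [Finset.mem_image]
      refine ⟨s.natAbs - 1, ?_, by omega⟩
      rw [Finset.mem_range]
      by_contra hk
      apply hs
      have h2 := hK' _ (not_lt.1 hk)
      have h3 : ((s.natAbs - 1 : ℕ) : ℤ) + 1 = s := by omega
      rw [h3] at h2
      exact h2
  · rw [Finset.disjoint_left]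
    intro s hs hs'
    obtain ⟨k, _, hk⟩ := Finset.mem_image.1 hs
    obtain ⟨k', _, hk'⟩ := Finset.mem_image.1 hs'
    omega

theorem pr_TL : T_TL := by
  intro N hN f g hf hg
  refine ⟨?_, ?_, ?_, ?_, ?_, ?_, ?_, ?_, ?_, ?_⟩
  · intro x
    obtain ⟨K, hK⟩ := TL_finN hN hf x
    have h1 : tl N f x = ∑ k ∈ range (K + 1), f (x - N * k) := by
      rw [tl]
      exact TL_range fun k hk => hK k (by omega)
    have h2 : tl N f (x - N) = ∑ k ∈ range K, f (x - N - N * k) := by
      rw [tl]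
      refine TL_range fun k hk => ?_
      have := hK (k + 1) (by omega)
      rw [← this]
      congr 1
      push_cast
      ring
    rw [h1, h2, Finset.sum_range_succ']
    rw [add_comm]
    congr 1
    · simp
    · refine Finset.sum_congr rfl fun k _ => ?_
      congr 1
      push_cast
      ring
  · intro x
    have h := finsum_comp_equiv (Equiv.addRight (1 : ℤ)) (f := fun s => f (x + N * s))
    rw [cl, cl, ← h]
    refine finsum_congr fun s => ?_
    congr 1
    rw [Equiv.coe_addRight]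
    ring
  · intro c0 hc x
    rw [TL_split hN hf]
    congr 1
    rw [tl]
    refine finsum_congr fun k => ?_
    rw [← hc]
    congr 1
    ring
  · intro x
    rw [tl, tl, tl, ← finsum_sub_distrib (TL_suppN hN hf x) (TL_suppN hN hg x)]
  · intro x
    rw [tl, tl, tl, ← finsum_add_distrib (TL_suppN hN hf x) (TL_suppN hN hg x)]
  · intro x
    rw [cl, cl, cl, ← finsum_sub_distrib (TL_suppZ hN hf x) (TL_suppZ hN hg x)]
  · intro x
    rw [cl, cl, cl, ← finsum_add_distrib (TL_suppZ hN hf x) (TL_suppZ hN hg x)]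
  · intro d x
    rw [tl, tl]
    refine finsum_congr fun k => ?_
    congr 1
    ring
  · intro d x
    rw [cl, cl]
    refine finsum_congr fun k => ?_
    congr 1
    ring
  · obtain ⟨M, hM⟩ := hf
    refine ⟨M, fun x hx => ?_, fun x hx => ?_⟩
    · rw [tl]
      have h1 : ∀ k : ℕ, f (x - N * k) = 0 := by
        intro k
        by_contra h
        have h1 := (abs_le.1 (hM _ h)).1
        have h2 : (0 : ℤ) ≤ N * k := by positivity
        omega
      simp only [h1, finsum_zero]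
    · rw [TL_split hN ⟨M, hM⟩]
      have h1 : ∀ k : ℕ, f (x + N * (k + 1)) = 0 := by
        intro k
        by_contra h
        have h1 := (abs_le.1 (hM _ h)).2
        have h2 : (0 : ℤ) ≤ N * (k + 1) := by positivity
        omega
      simp only [h1, finsum_zero, add_zero]

end Pool.Agent.Work.MP_c41774_al.Full.T

end
end

section

/-!
# Item TTU: colour permutations
-/

noncomputable section

namespace Pool.Agent.Work.MP_c41774_al.Full.T

open Finset MvPolynomial
open Pool.Agent.Work.MP_c41774_al.Wall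

theorem pr_TTU : T_TTU := by
  intro b c L _ _ ρ F hρ
  have htw : ∀ w : L → Col b c, tw (ρ ∘ w) = tw w := fun w => funext fun l => hρ (w l)
  have hchg : ∀ w : L → Col b c, chg (ρ ∘ w) = chg w := fun w => by unfold chg; rw [htw]
  refine ⟨?_, ?_, ?_, ?_, ?_⟩
  · rintro κ n ⟨h1, h2, h3⟩
    refine ⟨fun g => ?_, fun w hw => ?_, fun w => h3 _⟩
    · funext w
      exact congrFun (h1 g) (ρ ∘ w)
    · exact h2 (ρ ∘ w) (by rw [hchg]; exact hw)
  · intro V hF w
    have h := hF (ρ ∘ w)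
    rw [htw] at h
    exact h
  · funext w
    show F (ρ ∘ ((ρ⁻¹ : Equiv.Perm (Col b c)) ∘ w)) = F w
    congr 1
    funext l
    exact Equiv.apply_symm_apply ρ (w l)
  · funext w
    show F ((ρ⁻¹ : Equiv.Perm (Col b c)) ∘ (ρ ∘ w)) = F w
    congr 1
    funext l
    exact Equiv.symm_apply_apply ρ (w l)
  · intro x
    have h := hρ ((ρ⁻¹ : Equiv.Perm (Col b c)) x)
    have h2 : ρ ((ρ⁻¹ : Equiv.Perm (Col b c)) x) = x := Equiv.apply_symm_apply ρ x
    rw [h2] at h
    exact h.symm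

end Pool.Agent.Work.MP_c41774_al.Full.T

end
end

section

set_option autoImplicit false

noncomputable section

namespace Pool.Agent.Work.MP_c41774_al.Full.T

open Finset MvPolynomial
open Pool.Agent.Work.MP_c41774_al.Wall

theorem UFD_fd (b c : ℕ) (L : Type) [Fintype L] [DecidableEq L] (κ : ℕ × ℕ) (n : ℕ) :
    FiniteDimensional ℚ (UU b c L κ n) := by
  classical
  have hmem : ∀ F ∈ UU b c L κ n, ∀ w, F w ∈ restrictTotalDegree L ℚ n := by
    rintro F ⟨_, _, h3⟩ w
    rw [mem_restrictTotalDegree]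
    exact (h3 w).totalDegree_le
  let φ : UU b c L κ n →ₗ[ℚ] ((L → Col b c) → restrictTotalDegree L ℚ n) :=
    { toFun := fun F w => ⟨F.1 w, hmem F.1 F.2 w⟩
      map_add' := fun F G => rfl
      map_smul' := fun r F => rfl }
  refine FiniteDimensional.of_injective φ ?_
  intro F G h
  apply Subtype.ext
  funext w
  have := congrFun h w
  exact congrArg Subtype.val this

lemma UFD_wa {b c : ℕ} (x : Col b c) : |wa x| ≤ c := by
  rcases x with i | j
  · have := i.2
    simp only [wa]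
    rw [abs_le]
    constructor <;> omega
  · simp [wa]

lemma UFD_wb {b c : ℕ} (x : Col b c) : |wb x| ≤ b := by
  rcases x with i | j
  · simp [wb]
  · have := j.2
    simp only [wb]
    rw [abs_le]
    constructor <;> omega

lemma UFD_cwt {b c : ℕ} (x : Col b c) : (cwt b c x : ℤ) = b * wa x + c * wb x + b * c := by
  rcases x with i | j
  · have := i.2
    simp only [cwt, wa, wb]
    have h : ((2 * c - 1 - 2 * (i : ℕ) : ℕ) : ℤ) = 2 * c - 1 - 2 * (i : ℕ) := by omega
    rw [Nat.cast_mul, h]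
    ring
  · have := j.2
    simp only [cwt, wa, wb]
    have h : ((2 * b - 1 - 2 * (j : ℕ) : ℕ) : ℤ) = 2 * b - 1 - 2 * (j : ℕ) := by omega
    rw [Nat.cast_mul, h]
    ring

theorem pr_UFD : T_UFD := by
  intro b c L _ _
  refine ⟨fun κ n => UFD_fd b c L κ n, fun w => ⟨?_, ?_, ?_⟩, fun i j h => ?_⟩
  · calc |WA w| ≤ ∑ l, |wa (w l)| := Finset.abs_sum_le_sum_abs _ _
      _ ≤ ∑ _l : L, (c : ℤ) := Finset.sum_le_sum fun l _ => UFD_wa _
      _ = c * Fintype.card L := by simp [mul_comm]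
  · calc |WB w| ≤ ∑ l, |wb (w l)| := Finset.abs_sum_le_sum_abs _ _
      _ ≤ ∑ _l : L, (b : ℤ) := Finset.sum_le_sum fun l _ => UFD_wb _
      _ = b * Fintype.card L := by simp [mul_comm]
  · rw [WA, WB, Finset.mul_sum, Finset.mul_sum]
    simp only [UFD_cwt]
    rw [Finset.sum_add_distrib, Finset.sum_add_distrib]
    simp [mul_comm]
  · rw [eq_bot_iff]
    intro F hF
    rw [Submodule.mem_bot]
    funext w
    by_contra hne
    exact h w (hF w hne)

end Pool.Agent.Work.MP_c41774_al.Full.T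

end
end

section

/-!
# Item UNI: monotonicity of symmetric unimodal functions
-/

noncomputable section

namespace Pool.Agent.Work.MP_c41774_al.Full.T

theorem UNI_chain {f : ℤ → ℤ} (h : ∀ x, x ≤ 1 → f (x - 2) ≤ f x) :
    ∀ (n : ℕ) (x : ℤ), x ≤ 1 → f (x - 2 * n) ≤ f x := by
  intro n
  induction n with
  | zero => intro x _; simp
  | succ n ih =>
    intro x hx
    have e : x - 2 * ((n + 1 : ℕ) : ℤ) = (x - 2 * n) - 2 := by push_cast; ring
    rw [e]
    exact (h _ (by omega)).trans (ih x hx)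

theorem pr_UNI : T_UNI := by
  intro f hs h y d hy hd
  by_cases hc : y + d ≤ 1
  · have e : y - d = (y + d) - 2 * (d.toNat : ℤ) := by
      rw [Int.toNat_of_nonneg hd]; ring
    rw [e]
    exact UNI_chain h _ _ hc
  · have e : y - d = (-(y + d)) - 2 * ((-y).toNat : ℤ) := by
      rw [Int.toNat_of_nonneg (by omega)]; ring
    rw [← hs (y + d), e]
    exact UNI_chain h _ _ (by omega)

end Pool.Agent.Work.MP_c41774_al.Full.T

end
end

section

/-!
# Item ROT (second version, helper12): rotation of the colours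
-/

noncomputable section

namespace Pool.Agent.Work.MP_c41774_al.Full.T

open Finset MvPolynomial
open Pool.Agent.Work.MP_c41774_al.Wall

theorem JROT_cl (m : ℤ) (hm : 0 < m) (h : ℤ → ℤ) (N : ℤ) (hN : ∀ x, h x ≠ 0 → |x| ≤ N) (i : ℤ) :
    cl m h i = ∑ x ∈ (Icc (-N) N).filter (fun x => m ∣ x - i), h x := by
  unfold cl
  have hsub : Function.support (fun s : ℤ => h (i + m * s)) ⊆
      (((Icc (-N) N).filter (fun x => m ∣ x - i)).image (fun x => (x - i) / m) : Finset ℤ) := by
    intro s hs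
    have h1 := hN _ hs
    rw [abs_le] at h1
    rw [Finset.coe_image, Set.mem_image]
    refine ⟨i + m * s, ?_, ?_⟩
    · rw [Finset.mem_coe, Finset.mem_filter, Finset.mem_Icc]
      exact ⟨h1, ⟨s, by ring⟩⟩
    · rw [add_sub_cancel_left, Int.mul_ediv_cancel_left _ hm.ne']
  rw [finsum_eq_sum_of_support_subset _ hsub, Finset.sum_image]
  · refine Finset.sum_congr rfl (fun x hx => ?_)
    rw [Finset.mem_filter] at hx
    obtain ⟨z, hz⟩ := hx.2
    congr 1
    rw [hz, Int.mul_ediv_cancel_left _ hm.ne']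
    linarith
  · intro x hx y hy hxy
    rw [Finset.mem_coe, Finset.mem_filter] at hx hy
    obtain ⟨z, hz⟩ := hx.2
    obtain ⟨z', hz'⟩ := hy.2
    simp only [hz, hz', Int.mul_ediv_cancel_left _ hm.ne'] at hxy
    rw [hxy] at hz
    linarith

section
variable {b c : ℕ} {L : Type} [Fintype L] [DecidableEq L]

/-- weight space for general weights -/
def JROT_W (X Y : (L → Col b c) → ℤ) (x j : ℤ) : Submodule ℚ (Fm b c L) where
  carrier := {F | ∀ w, F w ≠ 0 → X w = x ∧ Y w = j}
  add_mem' := by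
    intro F G hF hG w hw
    by_cases h : F w = 0
    · refine hG w fun h' => hw ?_
      rw [Pi.add_apply, h, h', add_zero]
    · exact hF w h
  zero_mem' := fun w hw => absurd rfl hw
  smul_mem' := by
    intro r F hF w hw
    refine hF w fun h => hw ?_
    rw [Pi.smul_apply, h, smul_zero]

/-- class space -/
def JROT_C (X Y : (L → Col b c) → ℤ) (m i j : ℤ) : Submodule ℚ (Fm b c L) where
  carrier := {F | ∀ w, F w ≠ 0 → m ∣ X w - i ∧ Y w = j}
  add_mem' := by
    intro F G hF hG w hw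
    by_cases h : F w = 0
    · refine hG w fun h' => hw ?_
      rw [Pi.add_apply, h, h', add_zero]
    · exact hF w h
  zero_mem' := fun w hw => absurd rfl hw
  smul_mem' := by
    intro r F hF w hw
    refine hF w fun h => hw ?_
    rw [Pi.smul_apply, h, smul_zero]

/-- projection -/
def JROT_P (X : (L → Col b c) → ℤ) (x : ℤ) : Fm b c L →ₗ[ℚ] Fm b c L where
  toFun F := fun w => if X w = x then F w else 0
  map_add' F G := by
    funext w
    simp only [Pi.add_apply]
    split_ifs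
    · rfl
    · rw [add_zero]
  map_smul' r F := by
    funext w
    simp only [Pi.smul_apply, RingHom.id_apply]
    split_ifs
    · rfl
    · rw [smul_zero]

theorem JROT_P_apply (X : (L → Col b c) → ℤ) (x : ℤ) (F : Fm b c L) (w : L → Col b c) :
    JROT_P X x F w = if X w = x then F w else 0 := rfl

theorem JROT_P_UU {X : (L → Col b c) → ℤ} (hX : ∀ (g : Equiv.Perm L) w, X (w ∘ g) = X w) (x : ℤ)
    {F : Fm b c L} {κ : ℕ × ℕ} {n : ℕ} (hF : F ∈ UU b c L κ n) : JROT_P X x F ∈ UU b c L κ n := by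
  refine ⟨fun g => ?_, fun w hw => ?_, fun w => ?_⟩
  · funext w
    rw [act, JROT_P_apply, hX, Pi.smul_apply, JROT_P_apply]
    have h1 := congrFun (hF.1 g) w
    rw [act, Pi.smul_apply] at h1
    split_ifs
    · exact h1
    · rw [map_zero, smul_zero]
  · rw [JROT_P_apply, hF.2.1 w hw, ite_self]
  · rw [JROT_P_apply]
    split_ifs
    · exact hF.2.2 w
    · exact isHomogeneous_zero _ _ _

theorem JROT_P_vin (X : (L → Col b c) → ℤ) (x : ℤ)
    {V : (L → Bool) → Submodule ℚ (MvPolynomial L ℚ)} {F : Fm b c L} (hF : F ∈ vin V) :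
    JROT_P X x F ∈ vin V := by
  intro w
  rw [JROT_P_apply]
  split_ifs
  · exact hF w
  · exact Submodule.zero_mem _

theorem JROT_sum (hS : T_DSUM) (hU : ∀ κ n, FiniteDimensional ℚ (UU b c L κ n))
    {X Y : (L → Col b c) → ℤ} (hX : ∀ (g : Equiv.Perm L) w, X (w ∘ g) = X w)
    (m : ℤ) (V I : (L → Bool) → Submodule ℚ (MvPolynomial L ℚ)) (κ : ℕ × ℕ)
    (n : ℕ) (N : ℤ) (hN : ∀ w, |X w| ≤ N) (i j : ℤ) :
    dimQ (UU b c L κ n ⊓ JROT_C X Y m i j ⊓ vin V) (vin I) =
      ∑ x ∈ (Icc (-N) N).filter (fun x => m ∣ x - i),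
        dimQ (UU b c L κ n ⊓ JROT_W X Y x j ⊓ vin V) (vin I) := by
  have h1 := hS (Fm b c L) ℤ ((Icc (-N) N).filter (fun x => m ∣ x - i)) (JROT_P X)
    (UU b c L κ n ⊓ JROT_C X Y m i j ⊓ vin V) (vin I) (fun x => JROT_W X Y x j) ?_ ?_ ?_ ?_ ?_ ?_
  · rw [h1]
    refine Finset.sum_congr rfl (fun x hx => ?_)
    congr 1
    ext F
    constructor
    · rintro ⟨⟨⟨h2, _⟩, h4⟩, h5⟩
      exact ⟨⟨h2, h5⟩, h4⟩
    · rintro ⟨⟨h2, h5⟩, h4⟩
      refine ⟨⟨⟨h2, fun w hw => ?_⟩, h4⟩, h5⟩
      rw [(h5 w hw).1]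
      exact ⟨(Finset.mem_filter.mp hx).2, (h5 w hw).2⟩
  · rintro x _ F ⟨⟨h2, h3⟩, h4⟩
    refine ⟨⟨⟨JROT_P_UU hX x h2, fun w hw => ?_⟩, JROT_P_vin X x h4⟩, fun w hw => ?_⟩
    · rw [JROT_P_apply] at hw
      exact h3 w (fun h => hw (by rw [h, ite_self]))
    · rw [JROT_P_apply] at hw
      by_cases hx : X w = x
      · exact ⟨hx, (h3 w (fun h => hw (by rw [h, ite_self]))).2⟩
      · exact absurd (if_neg hx) hw
  · intro x _ F hF
    exact JROT_P_vin X x hF
  · intro x _ F _ hF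
    funext w
    rw [JROT_P_apply]
    by_cases hw : F w = 0
    · rw [hw, ite_self]
    · rw [if_pos (hF w hw).1]
  · intro x _ y _ hxy F _ hF
    funext w
    rw [JROT_P_apply]
    by_cases hw : F w = 0
    · rw [hw, ite_self]; rfl
    · rw [if_neg]
      · rfl
      · rw [(hF w hw).1]; exact hxy
  · rintro F ⟨⟨_, h3⟩, _⟩
    funext w
    rw [Finset.sum_apply]
    by_cases hw : F w = 0
    · rw [hw]
      refine Finset.sum_eq_zero (fun x _ => ?_)
      rw [JROT_P_apply, hw, ite_self]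
    · rw [Finset.sum_eq_single (X w)]
      · rw [JROT_P_apply, if_pos rfl]
      · intro x _ hx
        rw [JROT_P_apply, if_neg (fun h => hx h.symm)]
      · intro h
        exfalso
        apply h
        rw [Finset.mem_filter, Finset.mem_Icc]
        exact ⟨abs_le.mp (hN w), (h3 w hw).1⟩
  · intro x _
    haveI := hU κ n
    exact Submodule.finiteDimensional_of_le (S₂ := UU b c L κ n) (fun F hF => hF.1.1.1)

theorem JROT_gen (hT : T_TTU) (hD : T_DMAP) (hS : T_DSUM)
    (hU : ∀ κ n, FiniteDimensional ℚ (UU b c L κ n))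
    {X Y : (L → Col b c) → ℤ} (hX : ∀ (g : Equiv.Perm L) w, X (w ∘ g) = X w)
    (m : ℤ) (hm : 0 < m) (V I : (L → Bool) → Submodule ℚ (MvPolynomial L ℚ)) (κ : ℕ × ℕ) (n : ℕ)
    (N : ℤ) (hN : ∀ w, |X w| ≤ N) (i j p : ℤ) (ρ : Equiv.Perm (Col b c)) (hρ : TyP ρ)
    (h1 : ∀ w : L → Col b c, chg w = κ → m ∣ X (ρ ∘ w) - (X w - 2 * p))
    (h2 : ∀ w : L → Col b c, Y (ρ ∘ w) = Y w) :
    cl m (fun x => (dimQ (UU b c L κ n ⊓ JROT_W X Y x j ⊓ vin V) (vin I) : ℤ)) (i + 2 * p) =
      cl m (fun x => (dimQ (UU b c L κ n ⊓ JROT_W X Y x j ⊓ vin V) (vin I) : ℤ)) i := by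
  have hne : ∀ x : ℤ, (dimQ (UU b c L κ n ⊓ JROT_W X Y x j ⊓ vin V) (vin I) : ℤ) ≠ 0 →
      |x| ≤ N := by
    intro x hx
    by_contra hc
    apply hx
    have h3 : (UU b c L κ n ⊓ JROT_W X Y x j ⊓ vin V : Submodule ℚ (Fm b c L)) = ⊥ := by
      rw [eq_bot_iff]
      rintro F ⟨⟨_, h4⟩, _⟩
      rw [Submodule.mem_bot]
      funext w
      by_contra hw
      apply hc
      rw [← (h4 w hw).1]
      exact hN w
    rw [h3, dimQ]
    norm_cast
    haveI : Subsingleton (⊥ : Submodule ℚ (Fm b c L)) := inferInstance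
    exact Module.finrank_zero_of_subsingleton
  rw [JROT_cl m hm _ N hne, JROT_cl m hm _ N hne]
  have e1 := JROT_sum hS hU (Y := Y) hX m V I κ n N hN (i + 2 * p) j
  have e2 := JROT_sum hS hU (Y := Y) hX m V I κ n N hN i j
  have e3 : dimQ (UU b c L κ n ⊓ JROT_C X Y m i j ⊓ vin V) (vin I) =
      dimQ (UU b c L κ n ⊓ JROT_C X Y m (i + 2 * p) j ⊓ vin V) (vin I) := by
    refine hD (Fm b c L) (TT ρ) (TT ρ⁻¹) _ _ _ ?_ ?_ ?_ ?_ ?_ ?_
    · intro F; exact (hT b c L ρ F hρ).2.2.1
    · intro F; exact (hT b c L ρ F hρ).2.2.2.1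
    · rintro F ⟨⟨h3, h4⟩, h5⟩
      have h6 := (hT b c L ρ F hρ).1 κ n h3
      refine ⟨⟨h6, fun w hw => ?_⟩, (hT b c L ρ F hρ).2.1 V h5⟩
      have hch : chg w = κ := by
        by_contra hc
        exact hw (h6.2.1 w hc)
      have h7 := h4 (ρ ∘ w) hw
      have h8 := h1 w hch
      refine ⟨?_, by rw [← h2 w]; exact h7.2⟩
      have h9 := dvd_sub h7.1 h8
      have e : X w - (i + 2 * p) = X (⇑ρ ∘ w) - i - (X (⇑ρ ∘ w) - (X w - 2 * p)) := by ring
      rw [e]
      exact h9
    · rintro F ⟨⟨h3, h4⟩, h5⟩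
      have hρ' : TyP ρ⁻¹ := (hT b c L ρ F hρ).2.2.2.2
      have h6 := (hT b c L ρ⁻¹ F hρ').1 κ n h3
      refine ⟨⟨h6, fun w hw => ?_⟩, (hT b c L ρ⁻¹ F hρ').2.1 V h5⟩
      have h7 := h4 (⇑ρ⁻¹ ∘ w) hw
      have hch : chg (⇑ρ⁻¹ ∘ w) = κ := by
        by_contra hc
        exact hw (h3.2.1 _ hc)
      have h8 := h1 (⇑ρ⁻¹ ∘ w) hch
      have h10 : ⇑ρ ∘ (⇑ρ⁻¹ ∘ w) = w := by
        funext l
        simp
      have h11 := h2 (⇑ρ⁻¹ ∘ w)
      rw [h10] at h8 h11
      refine ⟨?_, by rw [h11]; exact h7.2⟩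
      have h9 := dvd_add h7.1 h8
      have e : X w - i = X (⇑ρ⁻¹ ∘ w) - (i + 2 * p) + (X w - (X (⇑ρ⁻¹ ∘ w) - 2 * p)) := by ring
      rw [e]
      exact h9
    · intro F hF; exact (hT b c L ρ F hρ).2.1 I hF
    · intro F hF
      exact (hT b c L ρ⁻¹ F (hT b c L ρ F hρ).2.2.2.2).2.1 I hF
  rw [← Nat.cast_sum, ← Nat.cast_sum, ← e1, ← e2, e3]

end

/-- rotation of the x-colours -/
def JROT_rA (b c : ℕ) : Equiv.Perm (Col b c) := Equiv.sumCongr (finRotate c) (Equiv.refl _)

/-- rotation of the y-colours -/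
def JROT_rB (b c : ℕ) : Equiv.Perm (Col b c) := Equiv.sumCongr (Equiv.refl _) (finRotate b)

theorem JROT_fin (c : ℕ) (x : Fin c) : ∃ z : ℤ, ((finRotate c x : Fin c) : ℕ) = (x : ℕ) + 1 + c * z := by
  rcases c with _ | c
  · exact x.elim0
  · by_cases hx : (x : ℕ) = c
    · refine ⟨-1, ?_⟩
      have : x = Fin.last c := Fin.ext hx
      rw [this, finRotate_last]
      simp
    · refine ⟨0, ?_⟩
      have hlt : (x : ℕ) < c := by have := x.2; omega
      rw [coe_finRotate_of_ne_last (by intro h; exact hx (by rw [h]; rfl))]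
      push_cast
      ring

theorem JROT_wA (b c : ℕ) (x : Col b c) : ∃ z : ℤ, wa (JROT_rA b c x) =
    wa x - (if x.isLeft = true then 2 else 0) + 2 * c * z := by
  rcases x with x | x
  · obtain ⟨z, hz⟩ := JROT_fin c x
    refine ⟨-z, ?_⟩
    change (c : ℤ) - 1 - 2 * ((finRotate c x : Fin c) : ℕ) = (c : ℤ) - 1 - 2 * (x : ℕ) -
      (if (Sum.inl x : Col b c).isLeft = true then 2 else 0) + 2 * c * (-z)
    rw [hz, if_pos (show (Sum.inl x : Col b c).isLeft = true from rfl)]
    ring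
  · refine ⟨0, ?_⟩
    change (0 : ℤ) = 0 - (if (Sum.inr x : Col b c).isLeft = true then 2 else 0) + 2 * c * 0
    rw [if_neg (by simp)]
    ring

theorem JROT_wB (b c : ℕ) (x : Col b c) : ∃ z : ℤ, wb (JROT_rB b c x) =
    wb x - (if x.isLeft = false then 2 else 0) + 2 * b * z := by
  rcases x with x | x
  · refine ⟨0, ?_⟩
    change (0 : ℤ) = 0 - (if (Sum.inl x : Col b c).isLeft = false then 2 else 0) + 2 * b * 0
    rw [if_neg (by simp)]
    ring
  · obtain ⟨z, hz⟩ := JROT_fin b x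
    refine ⟨-z, ?_⟩
    change (b : ℤ) - 1 - 2 * ((finRotate b x : Fin b) : ℕ) = (b : ℤ) - 1 - 2 * (x : ℕ) -
      (if (Sum.inr x : Col b c).isLeft = false then 2 else 0) + 2 * b * (-z)
    rw [hz, if_pos (show (Sum.inr x : Col b c).isLeft = false from rfl)]
    ring

theorem pr_ROT : T_ROT := by
  intro hT hD hS _ hU b c hb hc L _ _ V I κ n i j
  have hXA : ∀ (g : Equiv.Perm L) (w : L → Col b c), WA (w ∘ g) = WA w := fun g w =>
    Equiv.sum_comp g (fun l => wa (w l))
  have hXB : ∀ (g : Equiv.Perm L) (w : L → Col b c), WB (w ∘ g) = WB w := fun g w =>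
    Equiv.sum_comp g (fun l => wb (w l))
  constructor
  · have h := JROT_gen hT hD hS (hU b c L).1 (X := WA) (Y := WB) hXA (2 * c)
      (by positivity) V I κ n (c * Fintype.card L) (fun w => ((hU b c L).2.1 w).1) i j κ.1
      (JROT_rA b c) (by rintro (x | x) <;> rfl) ?_ ?_
    · exact h
    · intro w hw
      choose z hz using JROT_wA b c
      have e1 : WA (⇑(JROT_rA b c) ∘ w) = WA w - 2 * (nx (tw w) univ : ℤ) +
          2 * c * ∑ l, z (w l) := by
        rw [WA, WA, nx, Finset.card_filter]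
        push_cast
        rw [Finset.mul_sum, Finset.mul_sum, ← Finset.sum_sub_distrib, ← Finset.sum_add_distrib]
        refine Finset.sum_congr rfl (fun l _ => ?_)
        rw [Function.comp_apply, hz]
        simp only [tw]
        split_ifs <;> ring
      have e2 : nx (tw w) univ = κ.1 := by rw [← hw]; rfl
      rw [e1, e2]
      exact ⟨∑ l, z (w l), by ring⟩
    · intro w
      refine Finset.sum_congr rfl (fun l _ => ?_)
      rw [Function.comp_apply]
      rcases w l with x | x <;> rfl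
  · have h := JROT_gen hT hD hS (hU b c L).1 (X := WB) (Y := WA) hXB (2 * b)
      (by positivity) V I κ n (b * Fintype.card L) (fun w => ((hU b c L).2.1 w).2.1) j i κ.2
      (JROT_rB b c) (by rintro (x | x) <;> rfl) ?_ ?_
    · have e : ∀ y, JROT_W WB WA y i = WW b c L i y := by
        intro y
        ext F
        exact ⟨fun h w hw => ⟨(h w hw).2, (h w hw).1⟩, fun h w hw => ⟨(h w hw).2, (h w hw).1⟩⟩
      simp only [e] at h
      exact h
    · intro w hw
      choose z hz using JROT_wB b c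
      have e1 : WB (⇑(JROT_rB b c) ∘ w) = WB w - 2 * (ny (tw w) univ : ℤ) +
          2 * b * ∑ l, z (w l) := by
        rw [WB, WB, ny, Finset.card_filter]
        push_cast
        rw [Finset.mul_sum, Finset.mul_sum, ← Finset.sum_sub_distrib, ← Finset.sum_add_distrib]
        refine Finset.sum_congr rfl (fun l _ => ?_)
        rw [Function.comp_apply, hz]
        simp only [tw]
        split_ifs <;> ring
      have e2 : ny (tw w) univ = κ.2 := by rw [← hw]; rfl
      rw [e1, e2]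
      exact ⟨∑ l, z (w l), by ring⟩
    · intro w
      refine Finset.sum_congr rfl (fun l _ => ?_)
      rw [Function.comp_apply]
      rcases w l with x | x <;> rfl

end Pool.Agent.Work.MP_c41774_al.Full.T

end
end

section

/-!
# Block H: all outputs
-/

noncomputable section

namespace Pool.Agent.Work.MP_c41774_al.Full

theorem pr_H_all : H_CROSS ∧ H_NEXT ∧ H_LOZ ∧ H_HIINF ∧ H_CONST ∧ H_EX ∧ H_EY := by
  have c_RELI : C_RELI := by apply pr_RELI <;> assumption
  have c_REL : C_REL := by apply pr_REL <;> assumption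
  have c_ACT : C_ACT := by apply pr_ACT <;> assumption
  have c_AV : C_AV := by apply pr_AV <;> assumption
  have c_FD : C_FD := by apply pr_FD <;> assumption
  have c_HOM : C_HOM := by apply pr_HOM <;> assumption
  have c_DIM : C_DIM := by apply pr_DIM <;> assumption
  have c_BAS : C_BAS := by apply pr_BAS <;> assumption
  have c_CARD : C_CARD := by apply pr_CARD <;> assumption
  have c_DVD : C_DVD := by apply pr_DVD <;> assumption
  have c_REF : C_REF := by apply pr_REF <;> assumption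
  have c_SHI : C_SHI := by apply pr_SHI <;> assumption
  have hn_J : HN_J := by apply pr_HN_J <;> assumption
  have hn_TR : HN_TR := by apply pr_HN_TR <;> assumption
  have hn_REL : HN_REL := by apply pr_HN_REL <;> assumption
  have hn_CHG : HN_CHG := by apply pr_HN_CHG <;> assumption
  have hn_DIV1 : HN_DIV1 := by apply pr_HN_DIV1 <;> assumption
  have hn_DIV2 : HN_DIV2 := by apply pr_HN_DIV2 <;> assumption
  have hn_NZD : HN_NZD := by apply pr_HN_NZD <;> assumption
  have hn_ACT2 : HN_ACT2 := by apply pr_HN_ACT2 <;> assumption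
  have hn_AV2 : HN_AV2 := by apply pr_HN_AV2 <;> assumption
  have hn_AVG : HN_AVG := by apply pr_HN_AVG <;> assumption
  have hn_MEM : HN_MEM := by apply pr_HN_MEM <;> assumption
  have hn_KILL : HN_KILL := by apply pr_HN_KILL <;> assumption
  have hn_CON : HN_CON := by apply pr_HN_CON <;> assumption
  have hn_TENS : HN_TENS := by apply pr_HN_TENS <;> assumption
  have hn_DEG : HN_DEG := by apply pr_HN_DEG <;> assumption
  have hn_IND : HN_IND := by apply pr_HN_IND <;> assumption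
  have hn_GEN : HN_GEN := by apply pr_HN_GEN <;> assumption
  have hn_SYM : HN_SYM := by apply pr_HN_SYM <;> assumption
  have hn_PJ : HN_PJ := by apply pr_HN_PJ <;> assumption
  have hn_HOMP : HN_HOMP := by apply pr_HN_HOMP <;> assumption
  have hn_TEN : HN_TEN := by apply pr_HN_TEN <;> assumption
  have hn_SPAN : HN_SPAN := by apply pr_HN_SPAN <;> assumption
  have hn_GR : HN_GR := by apply pr_HN_GR <;> assumption
  have hn_DREL : HN_DREL := by apply pr_HN_DREL <;> assumption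
  have hn_ZERO : HN_ZERO := by apply pr_HN_ZERO <;> assumption
  have hn_TEL : HN_TEL := by apply pr_HN_TEL <;> assumption
  have hn_COUNT : HN_COUNT := by apply pr_HN_COUNT <;> assumption
  have hn_SER : HN_SER := by apply pr_HN_SER <;> assumption
  have hn_DIR : HN_DIR := by apply pr_HN_DIR <;> assumption
  have hn_EMP : HN_EMP := by apply pr_HN_EMP <;> assumption
  have hn_FREE1 : HN_FREE1 := by apply pr_HN_FREE1 <;> assumption
  have hn_FREE2 : HN_FREE2 := by apply pr_HN_FREE2 <;> assumption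
  have hn_FREE3 : HN_FREE3 := by apply pr_HN_FREE3 <;> assumption
  have hn_FREE : HN_FREE := by apply pr_HN_FREE <;> assumption
  have hn_ENDS : HN_ENDS := by apply pr_HN_ENDS <;> assumption
  have hn_EXC : HN_EXC := by apply pr_HN_EXC <;> assumption
  have hn_KUN : HN_KUN := by apply pr_HN_KUN <;> assumption
  have hn_CS : HN_CS := by apply pr_HN_CS <;> assumption
  have o_H_CROSS : H_CROSS := by apply pr_H_CROSS <;> assumption
  have o_H_NEXT : H_NEXT := by apply pr_H_NEXT <;> assumption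
  have o_H_LOZ : H_LOZ := by apply pr_H_LOZ <;> assumption
  have o_H_HIINF : H_HIINF := by apply pr_H_HIINF <;> assumption
  have o_H_CONST : H_CONST := by apply pr_H_CONST <;> assumption
  have o_H_EX : H_EX := by apply pr_H_EX <;> assumption
  have o_H_EY : H_EY := by apply pr_H_EY <;> assumption
  exact ⟨o_H_CROSS, o_H_NEXT, o_H_LOZ, o_H_HIINF, o_H_CONST, o_H_EX, o_H_EY⟩

end Pool.Agent.Work.MP_c41774_al.Full

end
end

section

/-!
# Assembly of P_PBW
-/

noncomputable section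

namespace Pool.Agent.Work.MP_c41774_al.Full

open Finset MvPolynomial

theorem FIN_deg {b c : ℕ} (hb : 0 < b) (hc : 0 < c) {L : Type} [Fintype L] [DecidableEq L]
    {κ : ℕ × ℕ} {j : ℕ} {F : Fm b c L} (hF : F ∈ VV b c L κ j) (w : L → Col b c) :
    (F w).totalDegree ≤ j := by
  rw [totalDegree]
  apply Finset.sup_le
  intro m hm
  have h := hF.2.2 w m hm
  have h1 : (m.sum fun _ e => e) = m.degree := rfl
  rw [h1]
  have h2 : 1 ≤ 2 * b * c := by
    have := Nat.mul_pos hb hc
    nlinarith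
  nlinarith [Nat.zero_le (∑ l, cwt b c (w l)), Nat.zero_le m.degree]

theorem pr_P_PBW (hBB : W_BB) (hTUP : W_TUP) (hLAB : W_LAB) (hMEM : W_MEM) (hIND : W_IND)
    (hRED : W_RED) (hCARD : W_CARD) (hZERO : W_ZERO) (hEXH : R_EXH) (hFD : C_FD) : P_PBW := by
  intro b c hb hc κ₀ hco hp0 hq0 K j
  rcases Nat.eq_zero_or_pos K with hK | hK
  · subst hK
    have h := hZERO b c hb hc κ₀ j
    simpa using h
  · obtain ⟨V⟩ := hBB b c hb hc κ₀
    set J : ℤ := (j : ℤ) - b * c * (K : ℤ) ^ 2 * κ₀.1 * κ₀.2 with hJ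
    obtain ⟨d, s, hs1, hs2, hs3⟩ := hTUP b c κ₀ K J
    have hsz : ∀ m, tsz (s m) = K := fun m => (hs1 m).2.1
    have hdg : ∀ m, tdg (s m) = j := by
      intro m
      have := (hs1 m).2.2
      rw [hJ] at this
      have h2 : (tdg (s m) : ℤ) = j := by linarith
      exact_mod_cast h2
    have he : ∀ m, Nonempty (SL κ₀ (ks (s m)) ≃ Fin (K * κ₀.1 + K * κ₀.2)) := by
      intro m
      have := hLAB b c κ₀ (d m) (s m)
      rwa [hsz m] at this
    have e := fun m => (he m).some
    have hmem : ∀ m, Fs V (s m) (e m) ∈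
        VV b c (Fin (K * κ₀.1 + K * κ₀.2)) (K * κ₀.1, K * κ₀.2) j := by
      intro m
      have := (hMEM b c hb hc κ₀ hp0 hq0 V (d m) (s m) (Fin (K * κ₀.1 + K * κ₀.2)) (e m)).2.1
      rwa [hsz m, hdg m] at this
    have hfd : FiniteDimensional ℚ
        (VV b c (Fin (K * κ₀.1 + K * κ₀.2)) (K * κ₀.1, K * κ₀.2) j) :=
      hFD b c hb hc _ _ _
    refine hCARD (Fm b c (Fin (K * κ₀.1 + K * κ₀.2)))
      (VV b c (Fin (K * κ₀.1 + K * κ₀.2)) (K * κ₀.1, K * κ₀.2) j) (vin (IpS _ κ₀)) _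
      (fun m => Fs V (s m) (e m)) hfd hmem ?_ ?_
    · intro a ha
      exact hIND b c hb hc κ₀ hp0 hq0 V _ _ d s e (fun x => (hs1 x).1) hs2 a ha
    · intro F hF
      refine hRED b c hb hc κ₀ hco hp0 hq0 V _ K j hK _ d s e ?_
        (2 * j + Fintype.card (Fin (K * κ₀.1 + K * κ₀.2))) F ⟨hF, ?_⟩
      · intro d' s' hA hz hd'
        refine hs3 d' s' hA hz ?_
        rw [hd', hJ]
      · intro w
        refine hEXH κ₀ _ (tw w) j _ ?_ (F w) (FIN_deg hb hc hF w)
        push_cast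
        exact le_refl _

end Pool.Agent.Work.MP_c41774_al.Full

end
end

section

/-!
# Item W_AVG: averaging over the block permutations
-/

noncomputable section

namespace Pool.Agent.Work.MP_c41774_al.Full

open Finset MvPolynomial
open Pool.Agent.Work.MP_c41774_al.Wall

/-! ### linearity -/

theorem W_AVG_rel_add {b c : ℕ} {L L' : Type} (e : L ≃ L') (F G : Fm b c L) :
    rel e (F + G) = rel e F + rel e G := by
  funext w
  show rename e ((F + G) (w ∘ e)) = _
  rw [Pi.add_apply, map_add]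
  rfl

theorem W_AVG_rel_smul {b c : ℕ} {L L' : Type} (e : L ≃ L') (a : ℚ) (F : Fm b c L) :
    rel e (a • F) = a • rel e F := by
  funext w
  show rename e ((a • F) (w ∘ e)) = _
  rw [Pi.smul_apply, map_smul]
  rfl

theorem W_AVG_act_add {b c : ℕ} {L : Type} (g : Equiv.Perm L) (F G : Fm b c L) :
    act g (F + G) = act g F + act g G := W_AVG_rel_add g F G

theorem W_AVG_act_smul {b c : ℕ} {L : Type} (g : Equiv.Perm L) (a : ℚ) (F : Fm b c L) :
    act g (a • F) = a • act g F := W_AVG_rel_smul g a F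

theorem W_AVG_Av_add {b c : ℕ} {L : Type} [Fintype L] [DecidableEq L] (F G : Fm b c L) :
    Av (F + G) = Av F + Av G := by
  unfold Av
  rw [← smul_add, ← Finset.sum_add_distrib]
  congr 1
  refine Finset.sum_congr rfl fun g _ => ?_
  rw [W_AVG_act_add, smul_add]

theorem W_AVG_Av_smul {b c : ℕ} {L : Type} [Fintype L] [DecidableEq L] (a : ℚ) (F : Fm b c L) :
    Av (a • F) = a • Av F := by
  unfold Av
  rw [smul_comm a]
  congr 1
  rw [Finset.smul_sum]
  refine Finset.sum_congr rfl fun g _ => ?_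
  rw [W_AVG_act_smul, smul_comm]

/-- the signed average after relabelling, as a linear map -/
def W_AVG_T {b c : ℕ} {L L' : Type} [Fintype L'] [DecidableEq L'] (e : L ≃ L') :
    Fm b c L →ₗ[ℚ] Fm b c L' where
  toFun := fun F => Av (rel e F)
  map_add' := fun F G => by rw [W_AVG_rel_add, W_AVG_Av_add]
  map_smul' := fun a F => by rw [W_AVG_rel_smul, W_AVG_Av_smul]; rfl

/-! ### block permutations -/

theorem W_AVG_pr {b c : ℕ} {κ₀ : ℕ × ℕ} {d : ℕ} (k : Fin d → ℕ)
    (g : ∀ i, Equiv.Perm (ML κ₀ (k i))) (w : SL κ₀ k → Col b c) :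
    rename (Equiv.sigmaCongrRight g)
      (pr (crs (tw (w ∘ Equiv.sigmaCongrRight g)) (fs κ₀ k))) = pr (crs (tw w) (fs κ₀ k)) := by
  unfold pr
  rw [map_prod]
  refine Finset.prod_equiv (Equiv.prodCongr (Equiv.sigmaCongrRight g) (Equiv.sigmaCongrRight g))
    (fun p => ?_) fun p _ => ?_
  · unfold crs
    rw [Finset.mem_filter, Finset.mem_filter]
    exact ⟨fun h => ⟨Finset.mem_univ _, h.2⟩, fun h => ⟨Finset.mem_univ _, h.2⟩⟩
  · rw [map_sub, rename_X, rename_X]
    rfl

theorem W_AVG_za {κ₀ : ℕ × ℕ} {d : ℕ} (k : Fin d → ℕ)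
    (g : ∀ i, Equiv.Perm (ML κ₀ (k i))) (i : Fin d) :
    rename (Equiv.sigmaCongrRight g) (za (κ₀ := κ₀) k i) = za k i := by
  unfold za
  rw [map_mul, rename_C, map_sum]
  congr 1
  rw [← Equiv.sum_comp (g i) (fun a => (X ⟨i, a⟩ : MvPolynomial (SL κ₀ k) ℚ))]
  refine Finset.sum_congr rfl fun a _ => ?_
  rw [rename_X]
  rfl

theorem W_AVG_bx {b c : ℕ} {κ₀ : ℕ × ℕ} {d : ℕ} (k : Fin d → ℕ)
    (g : ∀ i, Equiv.Perm (ML κ₀ (k i))) (F : ∀ i, Fm b c (ML κ₀ (k i)))
    (w : SL κ₀ k → Col b c) :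
    rename (Equiv.sigmaCongrRight g) (bx F (w ∘ Equiv.sigmaCongrRight g)) =
      bx (fun i => act (g i) (F i)) w := by
  show rename (Equiv.sigmaCongrRight g)
    (∏ i, rename (Sigma.mk i) (F i (wb (w ∘ Equiv.sigmaCongrRight g) i))) =
      ∏ i, rename (Sigma.mk i) (rename (g i) (F i (wb w i ∘ g i)))
  rw [map_prod]
  refine Finset.prod_congr rfl fun i _ => ?_
  rw [rename_rename, rename_rename]
  rfl

theorem W_AVG_Hg {b c : ℕ} {κ₀ : ℕ × ℕ} {d : ℕ} (k m : Fin d → ℕ)
    (g : ∀ i, Equiv.Perm (ML κ₀ (k i))) (F : ∀ i, Fm b c (ML κ₀ (k i))) :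
    act (Equiv.sigmaCongrRight g) (Hg k m F) = Hg k m (fun i => act (g i) (F i)) := by
  funext w
  show rename (Equiv.sigmaCongrRight g) (pr (crs (tw (w ∘ Equiv.sigmaCongrRight g)) (fs κ₀ k)) *
    bx F (w ∘ Equiv.sigmaCongrRight g) * ∏ i, za k i ^ m i) =
      pr (crs (tw w) (fs κ₀ k)) * bx (fun i => act (g i) (F i)) w * ∏ i, za k i ^ m i
  rw [map_mul, map_mul, W_AVG_pr, W_AVG_bx, map_prod]
  congr 1
  refine Finset.prod_congr rfl fun i _ => ?_
  rw [map_pow, W_AVG_za]

/-! ### multilinear expansion -/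

theorem W_AVG_exp {b c : ℕ} {κ₀ : ℕ × ℕ} {d : ℕ} (k m : Fin d → ℕ)
    (F : ∀ i, Fm b c (ML κ₀ (k i))) :
    Hg k m (fun i => Av (F i)) = (∏ i, (Fintype.card (Equiv.Perm (ML κ₀ (k i))) : ℚ)⁻¹) •
      ∑ g : (∀ i, Equiv.Perm (ML κ₀ (k i))), (∏ i, sg (g i)) •
        Hg k m (fun i => act (g i) (F i)) := by
  have hbx : ∀ w : SL κ₀ k → Col b c, bx (fun i => Av (F i)) w =
      C (∏ i, (Fintype.card (Equiv.Perm (ML κ₀ (k i))) : ℚ)⁻¹) *
        ∑ g : (∀ i, Equiv.Perm (ML κ₀ (k i))), C (∏ i, sg (g i)) *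
          bx (fun i => act (g i) (F i)) w := by
    intro w
    have h1 : ∀ i, rename (Sigma.mk i) (Av (F i) (wb w i)) =
        C ((Fintype.card (Equiv.Perm (ML κ₀ (k i))) : ℚ)⁻¹) *
          ∑ g : Equiv.Perm (ML κ₀ (k i)), C (sg g) *
            rename (Sigma.mk i) (act g (F i) (wb w i)) := by
      intro i
      have h2 : Av (F i) (wb w i) = C ((Fintype.card (Equiv.Perm (ML κ₀ (k i))) : ℚ)⁻¹) *
          ∑ g : Equiv.Perm (ML κ₀ (k i)), C (sg g) * act g (F i) (wb w i) := by
        unfold Av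
        rw [Pi.smul_apply, Finset.sum_apply, MvPolynomial.smul_eq_C_mul]
        congr 1
        refine Finset.sum_congr rfl fun g _ => ?_
        rw [Pi.smul_apply, MvPolynomial.smul_eq_C_mul]
      rw [h2, map_mul, map_sum, rename_C]
      congr 1
      refine Finset.sum_congr rfl fun g _ => ?_
      rw [map_mul, rename_C]
    unfold bx
    rw [Finset.prod_congr rfl fun i _ => h1 i, Finset.prod_mul_distrib, ← map_prod,
      Finset.prod_univ_sum, Fintype.piFinset_univ]
    congr 1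
    refine Finset.sum_congr rfl fun g _ => ?_
    rw [Finset.prod_mul_distrib, ← map_prod]
  funext w
  rw [Pi.smul_apply, Finset.sum_apply, MvPolynomial.smul_eq_C_mul]
  show pr (crs (tw w) (fs κ₀ k)) * bx (fun i => Av (F i)) w * ∏ i, za k i ^ m i = _
  rw [hbx]
  have h3 : ∀ g : (∀ i, Equiv.Perm (ML κ₀ (k i))),
      ((∏ i, sg (g i)) • Hg k m (fun i => act (g i) (F i))) w =
        pr (crs (tw w) (fs κ₀ k)) * (C (∏ i, sg (g i)) * bx (fun i => act (g i) (F i)) w) *
          ∏ i, za k i ^ m i := by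
    intro g
    rw [Pi.smul_apply, MvPolynomial.smul_eq_C_mul]
    show C (∏ i, sg (g i)) * (pr (crs (tw w) (fs κ₀ k)) * bx (fun i => act (g i) (F i)) w *
      ∏ i, za k i ^ m i) = _
    ring
  rw [Finset.sum_congr rfl fun g _ => h3 g, ← Finset.sum_mul, ← Finset.mul_sum]
  ring

theorem W_AVG_sg_sq {L : Type} [Fintype L] [DecidableEq L] (g : Equiv.Perm L) :
    sg g * sg g = 1 := by
  unfold sg
  rw [← Int.cast_mul, ← Units.val_mul, Int.units_mul_self]
  simp

theorem pr_W_AVG (h1 : W_RELA) (h2 : W_SGB) (h3 : C_AV) : W_AVG := by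
  intro b c κ₀ d k m F L _ _ e
  have hact : ∀ g : (∀ i, Equiv.Perm (ML κ₀ (k i))),
      W_AVG_T e (Hg k m (fun i => act (g i) (F i))) =
        (∏ i, sg (g i)) • W_AVG_T e (Hg k m F) := by
    intro g
    rw [← W_AVG_Hg]
    show Av (rel e (act (Equiv.sigmaCongrRight g) (Hg k m F))) = _
    rw [(h1 b c (SL κ₀ k) L L e (Equiv.refl L) (Hg k m F)).2.1,
      (h3 b c L (rel e (Hg k m F)) 0 0).2.1]
    have h4 : sg ((e.symm.trans (Equiv.sigmaCongrRight g)).trans e) =
        sg (Equiv.sigmaCongrRight g) := by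
      unfold sg
      have := Equiv.Perm.sign_permCongr e (Equiv.sigmaCongrRight g)
      rw [← this]
      rfl
    rw [h4, h2]
    rfl
  have hcard : ((∏ i, (Fintype.card (Equiv.Perm (ML κ₀ (k i))) : ℚ)⁻¹)) *
      (Fintype.card (∀ i, Equiv.Perm (ML κ₀ (k i))) : ℚ) = 1 := by
    rw [Fintype.card_pi, Nat.cast_prod, ← Finset.prod_mul_distrib]
    refine Finset.prod_eq_one fun i _ => ?_
    rw [inv_mul_cancel₀]
    have : 0 < Fintype.card (Equiv.Perm (ML κ₀ (k i))) := Fintype.card_pos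
    exact_mod_cast this.ne'
  symm
  show W_AVG_T e (Hg k m fun i => Av (F i)) = W_AVG_T e (Hg k m F)
  rw [W_AVG_exp, map_smul, map_sum]
  have h5 : ∀ g : (∀ i, Equiv.Perm (ML κ₀ (k i))),
      W_AVG_T e ((∏ i, sg (g i)) • Hg k m (fun i => act (g i) (F i))) =
        W_AVG_T e (Hg k m F) := by
    intro g
    rw [map_smul, hact, smul_smul, ← Finset.prod_mul_distrib]
    rw [Finset.prod_eq_one fun i _ => W_AVG_sg_sq (g i), one_smul]
  rw [Finset.sum_congr rfl fun g _ => h5 g, Finset.sum_const, Finset.card_univ,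
    ← Nat.cast_smul_eq_nsmul ℚ, smul_smul, hcard, one_smul]

end Pool.Agent.Work.MP_c41774_al.Full

end
end

section

/-!
# Item W_BAD: the products vanish on bad words
-/

noncomputable section

namespace Pool.Agent.Work.MP_c41774_al.Full

open Finset MvPolynomial
open Pool.Agent.Work.MP_c41774_al.Wall

theorem pr_W_BAD : W_BAD := by
  intro b c κ₀ V d s w hw
  have h1 : bv V (xs s) w = 0 := by
    rw [Gw] at hw
    push Not at hw
    obtain ⟨i, hi⟩ := hw
    have hm := (V.mem (ks s i) (xs s i).1 (xs s i).2).1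
    have hz : V.v (ks s i) (xs s i).1 (xs s i).2 (wb w i) = 0 := hm.2.1 (wb w i) hi
    show ∏ i, rename (Sigma.mk i) (V.v (ks s i) (xs s i).1 (xs s i).2 (wb w i)) = 0
    refine Finset.prod_eq_zero (Finset.mem_univ i) ?_
    rw [hz, map_zero]
  refine ⟨h1, ?_⟩
  show pr (crs (tw w) (fs κ₀ (ks s))) * bv V (xs s) w * ∏ i, za (ks s) i ^ (ms s i) = 0
  rw [h1, mul_zero, zero_mul]

end Pool.Agent.Work.MP_c41774_al.Full

end
end

section

/-!
# Existence of homogeneous bases
-/

noncomputable section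

namespace Pool.Agent.Work.MP_c41774_al.Full

open Finset MvPolynomial
open Pool.Agent.Work.MP_c41774_al.Wall

theorem pr_W_BB (h1 : C_BAS) (h2 : C_FD) : W_BB := by
  intro b c hb hc κ₀
  have key : ∀ k j : ℕ, ∃ v : Fin (bd b c κ₀ k j) → Fm b c (ML κ₀ k),
      (∀ i, v i ∈ VV b c (ML κ₀ k) (k * κ₀.1, k * κ₀.2) j ⊓ vin (Pf κ₀ 1)) ∧
      (∀ a : Fin (bd b c κ₀ k j) → ℚ, ∑ i, a i • v i ∈ vin (IpS _ κ₀) → a = 0) ∧
      ∀ u ∈ VV b c (ML κ₀ k) (k * κ₀.1, k * κ₀.2) j ⊓ vin (Pf κ₀ 1),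
        ∃ a : Fin (bd b c κ₀ k j) → ℚ, u - ∑ i, a i • v i ∈ vin (IpS _ κ₀) := by
    intro k j
    haveI := h2 b c hb hc (ML κ₀ k) (k * κ₀.1, k * κ₀.2) j
    exact h1 _ (VV b c (ML κ₀ k) (k * κ₀.1, k * κ₀.2) j ⊓ vin (Pf κ₀ 1)) (vin (IpS _ κ₀))
      (Submodule.finiteDimensional_inf_left _ _)
  choose v hv using key
  exact ⟨⟨v, fun k j => (hv k j).1, fun k j => (hv k j).2.1, fun k j => (hv k j).2.2⟩⟩

end Pool.Agent.Work.MP_c41774_al.Full

end
end
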