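import Pool.Agent.Work.MP_c41774_al.Bd.B05

/-! Bundle of small proof modules (one section per former module). -/

section

/-!
# Block P, item W_CARD
-/

noncomputable section

namespace Pool.Agent.Work.MP_c41774_al.Full

open Finset MvPolynomial
open Pool.Agent.Work.MP_c41774_al.Wall

theorem W_CARD_mk {E : Type} [AddCommGroup E] [Module ℚ E] (U W : Submodule ℚ E) {ι : Type}
    (v : ι → E) (hv : ∀ i, v i ∈ U) (a : ι →₀ ℚ) :
    Finsupp.linearCombination ℚ
        (fun i => (W.submoduleOf U).mkQ (⟨v i, hv i⟩ : U)) a =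
      (W.submoduleOf U).mkQ (⟨a.sum fun i r => r • v i,
        Submodule.sum_mem U fun i _ => U.smul_mem _ (hv i)⟩ : U) := by
  rw [Finsupp.linearCombination_apply]
  have : (⟨a.sum fun i r => r • v i,
      Submodule.sum_mem U fun i _ => U.smul_mem _ (hv i)⟩ : U) =
      a.sum fun i r => r • (⟨v i, hv i⟩ : U) := by
    apply Subtype.ext
    show (∑ i ∈ a.support, a i • v i) = ((∑ i ∈ a.support, a i • (⟨v i, hv i⟩ : U) : U) : E)
    rw [AddSubmonoidClass.coe_finsetSum]
    rfl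
  rw [this, Finsupp.sum, Finsupp.sum, map_sum]
  rfl

theorem pr_W_CARD : W_CARD := by
  intro E _ _ U W ι v hfd hv hli hsp
  set x : ι → (U ⧸ W.submoduleOf U) :=
    fun i => (W.submoduleOf U).mkQ (⟨v i, hv i⟩ : U) with hx
  have h1 : LinearIndependent ℚ x := by
    rw [linearIndependent_iff]
    intro a ha
    rw [hx, W_CARD_mk U W v hv a, Submodule.mkQ_apply, Submodule.Quotient.mk_eq_zero] at ha
    exact hli a ha
  have h2 : ⊤ ≤ Submodule.span ℚ (Set.range x) := by
    intro q _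
    obtain ⟨u, rfl⟩ := (W.submoduleOf U).mkQ_surjective q
    obtain ⟨y, hy, w', hw, hyw⟩ := Submodule.mem_sup.mp (hsp u u.2)
    have hyU : y ∈ U := (Submodule.span_le.mpr (by rintro _ ⟨i, rfl⟩; exact hv i)) hy
    rw [Finsupp.mem_span_range_iff_exists_finsupp] at hy
    obtain ⟨a, ha⟩ := hy
    have : (W.submoduleOf U).mkQ u = Finsupp.linearCombination ℚ x a := by
      rw [hx, W_CARD_mk U W v hv a, ← sub_eq_zero, ← map_sub, Submodule.mkQ_apply,
        Submodule.Quotient.mk_eq_zero]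
      show (u : E) - a.sum (fun i r => r • v i) ∈ W
      rw [ha, ← hyw, add_sub_cancel_left]
      exact hw
    rw [this]
    exact (Finsupp.mem_span_range_iff_exists_finsupp).mpr ⟨a, rfl⟩
  have hb := Module.finrank_eq_nat_card_basis (Module.Basis.mk h1 h2)
  rw [dimQ, hb]

end Pool.Agent.Work.MP_c41774_al.Full

end
end

section

/-!
# Item W_DLS: the polynomials `Dl` under permutations of the variables
-/

noncomputable section

namespace Pool.Agent.Work.MP_c41774_al.Full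

open Finset MvPolynomial
open Pool.Agent.Work.MP_c41774_al.Wall

theorem W_DLS_pairs {M : Type*} [CommMonoid M] {d : ℕ} (h : Fin d → Fin d → M) :
    ∏ i, ∏ j ∈ Ioi i, h i j =
      ∏ p ∈ (univ : Finset (Fin d × Fin d)).filter (fun p => p.1 < p.2), h p.1 p.2 := by
  rw [Finset.prod_finset_product' _ univ (fun i => Ioi i)]
  intro p
  simp

theorem W_DLS_sym {M : Type*} [CommMonoid M] {d : ℕ} (σ : Equiv.Perm (Fin d))
    (h : Fin d → Fin d → M) (hs : ∀ a b, h a b = h b a) :
    ∏ i, ∏ j ∈ Ioi i, h (σ i) (σ j) = ∏ i, ∏ j ∈ Ioi i, h i j := by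
  rw [W_DLS_pairs, W_DLS_pairs h]
  refine Finset.prod_bij' (fun p _ => if σ p.1 < σ p.2 then (σ p.1, σ p.2) else (σ p.2, σ p.1))
    (fun p _ => if σ.symm p.1 < σ.symm p.2 then (σ.symm p.1, σ.symm p.2) else
      (σ.symm p.2, σ.symm p.1)) ?_ ?_ ?_ ?_ ?_
  · rintro ⟨i, j⟩ hij
    simp only [mem_filter, mem_univ, true_and] at hij ⊢
    have hne : σ i ≠ σ j := fun h => hij.ne (σ.injective h)
    split_ifs with h1
    · exact h1
    · exact lt_of_le_of_ne (not_lt.1 h1) hne.symm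
  · rintro ⟨i, j⟩ hij
    simp only [mem_filter, mem_univ, true_and] at hij ⊢
    have hne : σ.symm i ≠ σ.symm j := fun h => hij.ne (σ.symm.injective h)
    split_ifs with h1
    · exact h1
    · exact lt_of_le_of_ne (not_lt.1 h1) hne.symm
  · rintro ⟨i, j⟩ hij
    simp only [mem_filter, mem_univ, true_and] at hij ⊢
    by_cases h1 : σ i < σ j
    · simp [h1, hij]
    · simp [h1, not_lt.2 hij.le]
  · rintro ⟨i, j⟩ hij
    simp only [mem_filter, mem_univ, true_and] at hij ⊢
    by_cases h1 : σ.symm i < σ.symm j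
    · simp [h1, hij]
    · simp [h1, not_lt.2 hij.le]
  · rintro ⟨i, j⟩ hij
    simp only
    split_ifs
    · rfl
    · exact hs _ _

theorem W_DLS_symm_add {d : ℕ} (σ : Equiv.Perm (Fin d))
    (h : Fin d → Fin d → ℕ) (hs : ∀ a b, h a b = h b a) :
    ∑ i, ∑ j ∈ Ioi i, h (σ i) (σ j) = ∑ i, ∑ j ∈ Ioi i, h i j := by
  have := W_DLS_sym (M := Multiplicative ℕ) σ (fun i j => Multiplicative.ofAdd (h i j))
    (fun a b => by rw [hs])
  simpa only [← ofAdd_sum, Multiplicative.ofAdd.injective.eq_iff] using this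

theorem pr_W_DLS : W_DLS := by
  intro κ₀ d k k₀ σ hk
  refine ⟨?_, ?_, ?_, ?_⟩
  · have h1 : ∀ i, ∀ j ∈ Ioi i,
        (X (σ j) - X (σ i) : MvPolynomial (Fin d) ℚ) ^ (k i * k j * (κ₀.1 * κ₀.2)) =
        (if σ j < σ i then C ((-1 : ℚ) ^ (k i * k j * (κ₀.1 * κ₀.2))) else 1) *
          (X (max (σ i) (σ j)) - X (min (σ i) (σ j))) ^
            (k₀ (σ i) * k₀ (σ j) * (κ₀.1 * κ₀.2)) := by
      intro i j _
      rw [← hk, ← hk]
      split_ifs with h
      · rw [max_eq_left h.le, min_eq_right h.le, C_pow, ← mul_pow]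
        congr 1
        simp
      · rw [max_eq_right (not_lt.1 h), min_eq_left (not_lt.1 h), one_mul]
    have h2 : rename σ (Dl κ₀ k) = ∏ i, ∏ j ∈ Ioi i,
        (X (σ j) - X (σ i) : MvPolynomial (Fin d) ℚ) ^ (k i * k j * (κ₀.1 * κ₀.2)) := by
      simp only [Dl, map_prod, map_pow, map_sub, rename_X]
    rw [h2]
    have h3 : ∏ i, ∏ j ∈ Ioi i,
        (X (σ j) - X (σ i) : MvPolynomial (Fin d) ℚ) ^ (k i * k j * (κ₀.1 * κ₀.2)) =
        ∏ i, ∏ j ∈ Ioi i,
          ((if σ j < σ i then C ((-1 : ℚ) ^ (k i * k j * (κ₀.1 * κ₀.2))) else 1) *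
          (X (max (σ i) (σ j)) - X (min (σ i) (σ j))) ^
            (k₀ (σ i) * k₀ (σ j) * (κ₀.1 * κ₀.2))) :=
      Finset.prod_congr rfl fun i _ => Finset.prod_congr rfl fun j hj => h1 i j hj
    rw [h3]
    simp only [Finset.prod_mul_distrib]
    congr 1
    · rw [eps]
      simp only [map_prod]
      refine Finset.prod_congr rfl fun i _ => ?_
      rw [Finset.prod_filter]
    · rw [W_DLS_sym σ (fun a b => (X (max a b) - X (min a b) : MvPolynomial (Fin d) ℚ) ^
        (k₀ a * k₀ b * (κ₀.1 * κ₀.2)))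
        (fun a b => by rw [max_comm, min_comm, mul_comm (k₀ a)])]
      rw [Dl]
      refine Finset.prod_congr rfl fun i _ => Finset.prod_congr rfl fun j hj => ?_
      rw [mem_Ioi] at hj
      rw [max_eq_right hj.le, min_eq_left hj.le]
  · rw [Ek, Ek, ← W_DLS_symm_add σ (fun a b => k₀ a * k₀ b * (κ₀.1 * κ₀.2))
      (fun a b => by rw [mul_comm (k₀ a)])]
    refine Finset.sum_congr rfl fun i _ => Finset.sum_congr rfl fun j _ => ?_
    rw [hk, hk]
  · rw [Dl, Ek]
    refine IsHomogeneous.prod _ _ _ fun i _ => IsHomogeneous.prod _ _ _ fun j _ => ?_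
    have := ((isHomogeneous_X ℚ j).sub (isHomogeneous_X ℚ i)).pow (k i * k j * (κ₀.1 * κ₀.2))
    simpa using this
  · rw [Dl]
    refine Finset.prod_ne_zero_iff.2 fun i _ => Finset.prod_ne_zero_iff.2 fun j hj => ?_
    refine pow_ne_zero _ (sub_ne_zero.2 fun h => ?_)
    rw [mem_Ioi] at hj
    exact hj.ne' (X_injective h)

end Pool.Agent.Work.MP_c41774_al.Full

end
end

section

/-!
# Block P, item W_EXP: expansion in the chosen bases
-/

noncomputable section

namespace Pool.Agent.Work.MP_c41774_al.Full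

open Finset MvPolynomial
open Pool.Agent.Work.MP_c41774_al.Wall

/-! ### one block -/

section one

variable {b c : ℕ} {L : Type} [Fintype L] [DecidableEq L]

/-- the component of degree `n` on the words of weight `s` -/
def W_EXP_comp (n s : ℕ) (f : Fm b c L) : Fm b c L := fun w =>
  if ∑ l, cwt b c (w l) = s then homogeneousComponent n (f w) else 0

theorem W_EXP_comp_mem (h5 : R_HOM) (κ₀ κ : ℕ × ℕ) (n s : ℕ) (f : Fm b c L)
    (hf1 : ∀ g, act g f = sg g • f) (hf2 : f ∈ vin (Pf κ₀ 1)) (hf3 : ∀ w, chg w ≠ κ → f w = 0) :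
    W_EXP_comp n s f ∈ VV b c L κ (2 * b * c * n + s) ⊓ vin (Pf κ₀ 1) := by
  refine ⟨⟨fun g => ?_, fun w hw => ?_, fun w m hm => ?_⟩, fun w => ?_⟩
  · funext w
    have h1 : (∑ l, cwt b c ((w ∘ g) l)) = ∑ l, cwt b c (w l) :=
      Equiv.sum_comp g fun l => cwt b c (w l)
    have h2 : rename g (f (w ∘ g)) = sg g • f w := congrFun (hf1 g) w
    show rename g (W_EXP_comp n s f (w ∘ g)) = sg g • W_EXP_comp n s f w
    unfold W_EXP_comp
    rw [h1]
    split_ifs
    · rw [rename_homogeneousComponent, h2, map_smul]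
    · rw [map_zero, smul_zero]
  · unfold W_EXP_comp
    rw [hf3 w hw, map_zero, ite_self]
  · unfold W_EXP_comp at hm
    split_ifs at hm with hs
    · rw [support_homogeneousComponent, Finset.mem_filter] at hm
      rw [hm.2, hs]
    · simp at hm
  · unfold W_EXP_comp
    split_ifs
    · exact h5 κ₀ L (tw w) 1 n (f w) (hf2 w)
    · exact Submodule.zero_mem _

theorem W_EXP_sum (f : Fm b c L) : ∃ N S : ℕ,
    f = ∑ n ∈ range N, ∑ s ∈ range S, W_EXP_comp n s f := by
  refine ⟨(∑ w : L → Col b c, (f w).totalDegree) + 1,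
    (∑ w : L → Col b c, ∑ l, cwt b c (w l)) + 1, ?_⟩
  funext w
  rw [Finset.sum_apply]
  have h1 : ∀ n ∈ range ((∑ w : L → Col b c, (f w).totalDegree) + 1),
      (∑ s ∈ range ((∑ w : L → Col b c, ∑ l, cwt b c (w l)) + 1), W_EXP_comp n s f) w =
        homogeneousComponent n (f w) := by
    intro n _
    rw [Finset.sum_apply, Finset.sum_eq_single (∑ l, cwt b c (w l))]
    · unfold W_EXP_comp
      rw [if_pos rfl]
    · intro s _ hs
      unfold W_EXP_comp
      rw [if_neg (Ne.symm hs)]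
    · intro hs
      exfalso
      apply hs
      rw [Finset.mem_range]
      have := Finset.single_le_sum (f := fun w : L → Col b c => ∑ l, cwt b c (w l))
        (fun _ _ => Nat.zero_le _) (Finset.mem_univ w)
      omega
  rw [Finset.sum_congr rfl h1]
  conv_lhs => rw [← sum_homogeneousComponent (f w)]
  refine Finset.sum_subset ?_ fun n _ hn => ?_
  · intro n hn
    rw [Finset.mem_range] at hn ⊢
    have := Finset.single_le_sum (f := fun w : L → Col b c => (f w).totalDegree)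
      (fun _ _ => Nat.zero_le _) (Finset.mem_univ w)
    omega
  · rw [Finset.mem_range] at hn
    exact homogeneousComponent_eq_zero _ _ (by omega)

end one

/-- families in the ideal which vanish off charge -/
def W_EXP_N (b c : ℕ) (κ₀ : ℕ × ℕ) (K : ℕ) : Submodule ℚ (Fm b c (ML κ₀ K)) where
  carrier := {F | F ∈ vin (IpS _ κ₀) ∧ ∀ w, chg w ≠ (K * κ₀.1, K * κ₀.2) → F w = 0}
  add_mem' := fun hF hG => ⟨Submodule.add_mem _ hF.1 hG.1, fun w hw => by
    rw [Pi.add_apply, hF.2 w hw, hG.2 w hw, add_zero]⟩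
  zero_mem' := ⟨Submodule.zero_mem _, fun _ _ => rfl⟩
  smul_mem' := fun r _ hF => ⟨Submodule.smul_mem _ r hF.1, fun w hw => by
    rw [Pi.smul_apply, hF.2 w hw, smul_zero]⟩

theorem W_EXP_one (h5 : R_HOM) {b c : ℕ} {κ₀ : ℕ × ℕ} (V : BBas b c κ₀) (K : ℕ)
    (f : Fm b c (ML κ₀ K))
    (hf1 : ∀ g, act g f = sg g • f) (hf2 : f ∈ vin (Pf κ₀ 1))
    (hf3 : ∀ w, chg w ≠ (K * κ₀.1, K * κ₀.2) → f w = 0) :
    f ∈ Submodule.span ℚ (Set.range fun x : XX b c κ₀ K => V.v K x.1 x.2) ⊔
      W_EXP_N b c κ₀ K := by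
  obtain ⟨N, S, hNS⟩ := W_EXP_sum f
  rw [hNS]
  refine Submodule.sum_mem _ fun n _ => Submodule.sum_mem _ fun s _ => ?_
  have h1 := W_EXP_comp_mem h5 κ₀ (K * κ₀.1, K * κ₀.2) n s f hf1 hf2 hf3
  obtain ⟨a, ha⟩ := V.spn K (2 * b * c * n + s) _ h1
  set u := W_EXP_comp n s f with hu
  set v := ∑ i, a i • V.v K (2 * b * c * n + s) i with hv
  have h2 : u = v + (u - v) := by abel
  rw [h2]
  refine Submodule.add_mem_sup ?_ ⟨ha, fun w hw => ?_⟩
  · refine Submodule.sum_mem _ fun i _ => Submodule.smul_mem _ _ (Submodule.subset_span ?_)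
    exact ⟨⟨_, i⟩, rfl⟩
  · rw [Pi.sub_apply, h1.1.2.1 w hw, hv, Finset.sum_apply, Finset.sum_eq_zero, sub_zero]
    intro i _
    rw [Pi.smul_apply, (V.mem K (2 * b * c * n + s) i).1.2.1 w hw, smul_zero]

/-! ### multilinearity -/

theorem W_EXP_multi {d : ℕ} {E : Fin d → Type} [∀ i, AddCommGroup (E i)]
    [∀ i, Module ℚ (E i)] {E' : Type} [AddCommGroup E'] [Module ℚ E'] (φ : (∀ i, E i) → E')
    (hadd : ∀ (F : ∀ i, E i) (i : Fin d) (u v : E i), φ (Function.update F i (u + v)) =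
      φ (Function.update F i u) + φ (Function.update F i v))
    (hsmul : ∀ (F : ∀ i, E i) (i : Fin d) (r : ℚ) (u : E i), φ (Function.update F i (r • u)) =
      r • φ (Function.update F i u))
    (T : Submodule ℚ E') (B : ∀ i, Set (E i)) (N Z : ∀ i, Submodule ℚ (E i))
    (hBZ : ∀ i, ∀ x ∈ B i, x ∈ Z i) (hNZ : ∀ i, N i ≤ Z i)
    (hB : ∀ F : ∀ i, E i, (∀ i, F i ∈ B i) → φ F ∈ T)
    (hN : ∀ F : ∀ i, E i, (∀ i, F i ∈ Z i) → (∃ i, F i ∈ N i) → φ F ∈ T)
    (s : Finset (Fin d)) : ∀ F : ∀ i, E i, (∀ i, i ∉ s → F i ∈ B i) →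
      (∀ i ∈ s, F i ∈ Submodule.span ℚ (B i) ⊔ N i) → φ F ∈ T := by
  induction s using Finset.induction_on with
  | empty =>
    intro F h1 _
    exact hB F fun i => h1 i (Finset.notMem_empty i)
  | insert a s ha ih =>
    intro F h1 h2
    have hspan : ∀ i, Submodule.span ℚ (B i) ≤ Z i := fun i =>
      Submodule.span_le.mpr fun x hx => hBZ i x hx
    have hZ : ∀ i, F i ∈ Z i := by
      intro i
      by_cases hi : i ∈ insert a s
      · have := h2 i hi
        exact (sup_le (hspan i) (hNZ i)) this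
      · exact hBZ i _ (h1 i hi)
    have key : ∀ z ∈ Submodule.span ℚ (B a), φ (Function.update F a z) ∈ T := by
      intro z hz
      induction hz using Submodule.span_induction with
      | mem x hx =>
        refine ih _ (fun i hi => ?_) (fun i hi => ?_)
        · by_cases hia : i = a
          · subst hia
            rw [Function.update_self]
            exact hx
          · rw [Function.update_of_ne hia]
            exact h1 i (by simp [hia, hi])
        · have hia : i ≠ a := fun h => ha (h ▸ hi)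
          rw [Function.update_of_ne hia]
          exact h2 i (Finset.mem_insert_of_mem hi)
      | zero =>
        have : φ (Function.update F a 0) = 0 := by
          have h3 := hsmul F a 0 0
          rw [zero_smul, zero_smul] at h3
          exact h3
        rw [this]
        exact Submodule.zero_mem _
      | add x y _ _ h3 h4 => rw [hadd]; exact Submodule.add_mem _ h3 h4
      | smul r x _ h3 => rw [hsmul]; exact Submodule.smul_mem _ _ h3
    obtain ⟨u, hu, r, hr, hur⟩ := Submodule.mem_sup.mp (h2 a (Finset.mem_insert_self a s))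
    have hF : F = Function.update F a (u + r) := by rw [hur, Function.update_eq_self]
    rw [hF, hadd]
    refine Submodule.add_mem _ (key u hu) ?_
    · refine hN _ (fun i => ?_) ⟨a, ?_⟩
      · by_cases hia : i = a
        · subst hia
          rw [Function.update_self]
          exact hNZ _ hr
        · rw [Function.update_of_ne hia]
          exact hZ i
      · rw [Function.update_self]
        exact hr

/-! ### the product as a multilinear map -/

section multi

variable {b c : ℕ} {κ₀ : ℕ × ℕ} {d : ℕ}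

theorem W_EXP_bx {M : Fin d → Type} [∀ i, Fintype (M i)] [∀ i, DecidableEq (M i)]
    (F : ∀ i, Fm b c (M i)) (a : Fin d) (u : Fm b c (M a)) (w : (Σ i, M i) → Col b c) :
    bx (Function.update F a u) w = rename (Sigma.mk a) (u (wb w a)) *
      ∏ i ∈ univ.erase a, rename (Sigma.mk i) (F i (wb w i)) := by
  unfold bx
  rw [← Finset.mul_prod_erase univ _ (Finset.mem_univ a), Function.update_self]
  congr 1
  refine Finset.prod_congr rfl fun i hi => ?_
  rw [Function.update_of_ne (Finset.ne_of_mem_erase hi)]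

theorem W_EXP_Hg_add (k m : Fin d → ℕ) (F : ∀ i, Fm b c (ML κ₀ (k i))) (a : Fin d)
    (u v : Fm b c (ML κ₀ (k a))) : Hg k m (Function.update F a (u + v)) =
      Hg k m (Function.update F a u) + Hg k m (Function.update F a v) := by
  funext w
  rw [Pi.add_apply]
  unfold Hg
  rw [W_EXP_bx, W_EXP_bx, W_EXP_bx, Pi.add_apply, map_add]
  ring

theorem W_EXP_Hg_smul (k m : Fin d → ℕ) (F : ∀ i, Fm b c (ML κ₀ (k i))) (a : Fin d)
    (r : ℚ) (u : Fm b c (ML κ₀ (k a))) : Hg k m (Function.update F a (r • u)) =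
      r • Hg k m (Function.update F a u) := by
  funext w
  rw [Pi.smul_apply]
  unfold Hg
  rw [W_EXP_bx, W_EXP_bx, Pi.smul_apply, map_smul, MvPolynomial.smul_eq_C_mul,
    MvPolynomial.smul_eq_C_mul]
  ring

theorem W_EXP_rel_add {L L' : Type} (e : L ≃ L') (F G : Fm b c L) :
    rel e (F + G) = rel e F + rel e G := by
  funext w
  show rename e ((F + G) (w ∘ e)) = rename e (F (w ∘ e)) + rename e (G (w ∘ e))
  rw [Pi.add_apply, map_add]

theorem W_EXP_rel_smul {L L' : Type} (e : L ≃ L') (r : ℚ) (F : Fm b c L) :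
    rel e (r • F) = r • rel e F := by
  funext w
  show rename e ((r • F) (w ∘ e)) = r • rename e (F (w ∘ e))
  rw [Pi.smul_apply, map_smul]

/-! ### ideals of the blocks -/

theorem W_EXP_mk_inj {M : Fin d → Type} (i : Fin d) :
    Function.Injective (Sigma.mk i : M i → Σ i, M i) := sigma_mk_injective

theorem W_EXP_cut {M : Fin d → Type} [∀ i, Fintype (M i)] [∀ i, DecidableEq (M i)]
    (τ : (Σ i, M i) → Bool) (i : Fin d) (T : Finset (M i)) :
    rename (Sigma.mk i) (pr (cut (fun a => τ ⟨i, a⟩) tv T) : MvPolynomial (M i) ℚ) =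
      pr (cut τ Sigma.fst (T.map ⟨Sigma.mk i, W_EXP_mk_inj i⟩)) := by
  have h : cut τ Sigma.fst (T.map ⟨Sigma.mk i, W_EXP_mk_inj i⟩) =
      (cut (fun a => τ ⟨i, a⟩) tv T).map
        ⟨Prod.map (Sigma.mk i) (Sigma.mk i), (W_EXP_mk_inj i).prodMap (W_EXP_mk_inj i)⟩ := by
    ext ⟨x, y⟩
    unfold cut
    simp only [Finset.mem_filter, Finset.mem_univ, true_and, Finset.mem_map,
      Function.Embedding.coeFn_mk, Prod.exists, Prod.map_apply, Prod.mk.injEq]
    constructor
    · rintro ⟨⟨a, ha, rfl⟩, h2, h3, h4, h5⟩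
      obtain ⟨j, y⟩ := y
      simp only at h5
      subst h5
      exact ⟨a, y, ⟨ha, fun hy => h2 ⟨y, hy, rfl⟩, h3, h4, trivial⟩, rfl, rfl⟩
    · rintro ⟨a, y', ⟨ha, hy, h3, h4, -⟩, rfl, rfl⟩
      refine ⟨⟨a, ha, rfl⟩, ?_, h3, h4, rfl⟩
      rintro ⟨z, hz, hzy⟩
      have := W_EXP_mk_inj i hzy
      exact hy (this ▸ hz)
  rw [h]
  unfold pr
  rw [map_prod, Finset.prod_map]
  refine Finset.prod_congr rfl fun x _ => ?_
  rw [map_sub, rename_X, rename_X]
  rfl

theorem W_EXP_th {M : Fin d → Type} [∀ i, Fintype (M i)] [∀ i, DecidableEq (M i)]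
    (κ₀ : ℕ × ℕ) (τ : (Σ i, M i) → Bool) (i : Fin d) (T : Finset (M i)) :
    th κ₀ τ (T.map ⟨Sigma.mk i, W_EXP_mk_inj i⟩) = th κ₀ (fun a => τ ⟨i, a⟩) T := by
  unfold th nx ny
  rw [Finset.filter_map, Finset.card_map, Finset.filter_map, Finset.card_map]
  rfl

theorem W_EXP_ideal {M : Fin d → Type} [∀ i, Fintype (M i)] [∀ i, DecidableEq (M i)]
    (κ₀ : ℕ × ℕ) (τ : (Σ i, M i) → Bool) (i : Fin d) (f : MvPolynomial (M i) ℚ)
    (hf : f ∈ Ip κ₀ (fun a => τ ⟨i, a⟩) tv) :
    rename (Sigma.mk i) f ∈ Ip κ₀ τ Sigma.fst := by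
  have h : Ip κ₀ (fun a => τ ⟨i, a⟩) tv ≤
      Ideal.comap (rename (Sigma.mk i) : MvPolynomial (M i) ℚ →ₐ[ℚ] _) (Ip κ₀ τ Sigma.fst) := by
    unfold Ip
    rw [Ideal.span_le]
    rintro g ⟨T, hT, rfl⟩
    refine Ideal.subset_span ⟨_, ?_, W_EXP_cut τ i T⟩
    rw [W_EXP_th]
    exact hT
  exact h hf

theorem W_EXP_off (h2 : C_RELI) (h4 : W_GW) (h6 : R_PUSH) (hκ1 : 0 < κ₀.1) (hκ2 : 0 < κ₀.2)
    (k m : Fin d → ℕ) (hk : ∀ i, 0 < k i) (G : ∀ i, Fm b c (ML κ₀ (k i)))
    (hG : ∀ i, ∀ w, chg w ≠ (k i * κ₀.1, k i * κ₀.2) → G i w = 0) (i₀ : Fin d)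
    (hi₀ : G i₀ ∈ vin (IpS _ κ₀)) (L : Type) [Fintype L] [DecidableEq L] (e : SL κ₀ k ≃ L) :
    rel e (Hg k m G) ∈ (vin (IpS L κ₀) : Submodule ℚ (Fm b c L)) := by
  intro w
  show rename e (Hg k m G (w ∘ e)) ∈ Ip κ₀ (tw w) tv
  rw [h2 (SL κ₀ k) L Unit Unit e id κ₀ (tw w) tv tv Function.injective_id (fun _ => rfl)]
  have htw : (tw w) ∘ e = tw (w ∘ e) := rfl
  rw [htw]
  set w' := w ∘ e with hw'
  by_cases hgood : Gw κ₀ k w'
  · have hG4 := (h4 b c κ₀ hκ1 hκ2 d k hk w' hgood).1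
    have h7 : bx G w' ∈ Ip κ₀ (tw w') (fs κ₀ k) := by
      unfold bx
      rw [← Finset.mul_prod_erase univ _ (Finset.mem_univ i₀)]
      refine Ideal.mul_mem_right _ _ ?_
      exact W_EXP_ideal κ₀ (tw w') i₀ _ (hi₀ (wb w' i₀))
    have h8 := h6 κ₀ hκ1 hκ2 _ (tw w') d (fs κ₀ k) hG4 _ h7
    exact Ideal.mul_mem_right _ _ h8
  · have : ∃ i, chg (wb w' i) ≠ (k i * κ₀.1, k i * κ₀.2) := by
      unfold Gw at hgood
      push Not at hgood
      exact hgood
    obtain ⟨i, hi⟩ := this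
    have h9 : bx G w' = 0 := by
      unfold bx
      rw [← Finset.mul_prod_erase univ _ (Finset.mem_univ i), hG i _ hi, map_zero, zero_mul]
    have h10 : Hg k m G w' = 0 := by
      unfold Hg
      rw [h9, mul_zero, zero_mul]
    rw [h10]
    exact Ideal.zero_mem _

end multi

theorem pr_W_EXP (h2 : C_RELI) (h4 : W_GW) (h5 : R_HOM) (h6 : R_PUSH) : W_EXP := by
  intro b c _ _ κ₀ hκ1 hκ2 V d k m F hF L _ _ e
  refine W_EXP_multi (E := fun i => Fm b c (ML κ₀ (k i + 1)))
    (fun G => rel e (Hg (fun i => k i + 1) m G)) ?_ ?_ _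
    (fun i => Set.range fun x : XX b c κ₀ (k i + 1) => V.v (k i + 1) x.1 x.2)
    (fun i => W_EXP_N b c κ₀ (k i + 1))
    (fun i =>
      { carrier := {F | ∀ w, chg w ≠ ((k i + 1) * κ₀.1, (k i + 1) * κ₀.2) → F w = 0}
        add_mem' := fun hF hG w hw => by rw [Pi.add_apply, hF w hw, hG w hw, add_zero]
        zero_mem' := fun _ _ => rfl
        smul_mem' := fun r _ hF w hw => by rw [Pi.smul_apply, hF w hw, smul_zero] })
    ?_ ?_ ?_ ?_ univ F (fun i hi => absurd (Finset.mem_univ i) hi) (fun i _ => ?_)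
  · intro G a u v
    show rel e _ = rel e _ + rel e _
    rw [W_EXP_Hg_add, W_EXP_rel_add]
  · intro G a r u
    show rel e _ = r • rel e _
    rw [W_EXP_Hg_smul, W_EXP_rel_smul]
  · rintro i _ ⟨x, rfl⟩ w hw
    exact (V.mem (k i + 1) x.1 x.2).1.2.1 w hw
  · intro i x hx w hw
    exact hx.2 w hw
  · intro G hG
    choose x hx using hG
    refine Submodule.mem_sup_left (Submodule.subset_span ⟨x, ?_⟩)
    have : G = fun i => V.v (k i + 1) (x i).1 (x i).2 := by
      funext i
      exact (hx i).symm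
    rw [this]
    rfl
  · rintro G hG ⟨i₀, hi₀⟩
    exact Submodule.mem_sup_right (W_EXP_off h2 h4 h6 hκ1 hκ2 _ m (fun i => Nat.succ_pos _) G
      (fun i w hw => hG i w hw) i₀ hi₀.1 L e)
  · exact W_EXP_one h5 V (k i + 1) (F i) (hF i).1 (hF i).2.1 (hF i).2.2

end Pool.Agent.Work.MP_c41774_al.Full

end
end

section

/-!
# Good words
-/

noncomputable section

namespace Pool.Agent.Work.MP_c41774_al.Full

open Finset MvPolynomial
open Pool.Agent.Work.MP_c41774_al.Wall

theorem W_GW_card {κ₀ : ℕ × ℕ} {d : ℕ} {k : Fin d → ℕ} (i : Fin d) (P : SL κ₀ k → Prop)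
    [DecidablePred P] :
    #((blk (fs κ₀ k) i).filter P) = #(univ.filter fun a : ML κ₀ (k i) => P ⟨i, a⟩) := by
  refine (Finset.card_bij (fun a _ => (⟨i, a⟩ : SL κ₀ k)) ?_ ?_ ?_).symm
  · intro a ha
    simp only [mem_filter, mem_univ, true_and] at ha
    simp only [blk, fs, mem_filter, mem_univ, true_and]
    exact ha
  · intro a _ a' _ h
    simpa using h
  · rintro ⟨j, a⟩ ha
    simp only [blk, fs, mem_filter, mem_univ, true_and] at ha
    obtain ⟨rfl, hP⟩ := ha
    exact ⟨a, by simpa using hP, rfl⟩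

theorem W_GW_sum {κ₀ : ℕ × ℕ} {d : ℕ} {k : Fin d → ℕ} (P : SL κ₀ k → Prop)
    [DecidablePred P] :
    #(univ.filter P) = ∑ i, #((blk (fs κ₀ k) i).filter P) := by
  rw [Finset.card_eq_sum_card_fiberwise (f := fs κ₀ k) (t := univ) (fun _ _ => by simp)]
  refine Finset.sum_congr rfl fun i _ => ?_
  congr 1
  ext l
  simp only [blk, mem_filter, mem_univ, true_and]
  tauto

theorem W_GW_dege {κ₀ : ℕ × ℕ} {d : ℕ} {k : Fin d → ℕ} (τ : SL κ₀ k → Bool) :
    dege τ (fs κ₀ k) =
      ∑ i, ∑ j ∈ Ioi i, nx τ (blk (fs κ₀ k) i) * ny τ (blk (fs κ₀ k) j) := by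
  rw [dege, Finset.card_eq_sum_card_fiberwise (f := fun e => fs κ₀ k e.1) (t := univ)
    (fun _ _ => by simp)]
  refine Finset.sum_congr rfl fun i _ => ?_
  rw [Finset.card_eq_sum_card_fiberwise (f := fun e => fs κ₀ k e.2) (t := Ioi i)]
  · refine Finset.sum_congr rfl fun j hj => ?_
    rw [mem_Ioi] at hj
    rw [nx, ny, ← Finset.card_product]
    congr 1
    ext ⟨l, l'⟩
    simp only [crs, blk, mem_filter, mem_univ, true_and, mem_product]
    constructor
    · rintro ⟨⟨⟨h1, h2, h3⟩, h4⟩, h5⟩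
      exact ⟨⟨h4, h1⟩, h5, h2⟩
    · rintro ⟨⟨h4, h1⟩, h5, h2⟩
      exact ⟨⟨⟨h1, h2, by rw [h4, h5]; exact hj⟩, h4⟩, h5⟩
  · intro e he
    simp only [crs, coe_filter, mem_filter, mem_univ, true_and, Set.mem_setOf_eq] at he
    rw [coe_Ioi, Set.mem_Ioi, ← he.2]
    exact he.1.2.2

theorem pr_W_GW : W_GW := by
  intro b c κ₀ h1 h2 d k hk w hw
  have hn : ∀ i, nx (tw w) (blk (fs κ₀ k) i) = k i * κ₀.1 ∧
      ny (tw w) (blk (fs κ₀ k) i) = k i * κ₀.2 := by
    intro i
    have h := hw i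
    rw [chg, Prod.mk.injEq] at h
    refine ⟨?_, ?_⟩
    · rw [← h.1, nx, W_GW_card, nx]; rfl
    · rw [← h.2, ny, W_GW_card, ny]; rfl
  refine ⟨fun i => ⟨?_, ?_⟩, ?_, hn, ?_⟩
  · have h := (hn i).1
    rw [nx] at h
    have hpos : 0 < k i * κ₀.1 := Nat.mul_pos (hk i) h1
    rw [← h, Finset.card_pos] at hpos
    obtain ⟨l, hl⟩ := hpos
    exact ⟨l, (mem_filter.1 hl).1⟩
  · have : (univ.filter fun l => fs κ₀ k l = i) = blk (fs κ₀ k) i := rfl
    rw [this, th, (hn i).1, (hn i).2]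
    push_cast; ring
  · rw [W_GW_dege, Ek]
    refine Finset.sum_congr rfl fun i _ => Finset.sum_congr rfl fun j _ => ?_
    rw [(hn i).1, (hn j).2]; ring
  · rw [chg, nx, ny, W_GW_sum, W_GW_sum, Finset.sum_mul, Finset.sum_mul, Prod.mk.injEq]
    exact ⟨Finset.sum_congr rfl fun i _ => (hn i).1, Finset.sum_congr rfl fun i _ => (hn i).2⟩

end Pool.Agent.Work.MP_c41774_al.Full

end
end

section

/-!
# Item W IND
-/

noncomputable section

namespace Pool.Agent.Work.MP_c41774_al.Full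

open Finset MvPolynomial
open Pool.Agent.Work.MP_c41774_al.Wall

theorem pr_W_IND (h1 : W_SYM) (h2 : W_MEM) (h3 : W_MU) (h4 : W_DLS) : W_IND := by
  classical
  intro b c hb hc κ₀ hp hq V L _ _ ι d s e hAdm hσ a ha
  by_contra hne
  have hsup : a.support.Nonempty := Finsupp.support_nonempty_iff.mpr hne
  -- the maximal weight
  obtain ⟨x₁, hx₁, hmax⟩ := Finset.exists_max_image a.support (fun x => wt (s x)) hsup
  have hsup' : (a.support.filter fun x => wt (s x) = wt (s x₁)).Nonempty :=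
    ⟨x₁, Finset.mem_filter.mpr ⟨hx₁, rfl⟩⟩
  obtain ⟨x₀, hx₀', hmin⟩ := Finset.exists_min_image _ d hsup'
  obtain ⟨hx₀, hw₀⟩ := Finset.mem_filter.mp hx₀'
  obtain ⟨U⟩ := h3 b c hb hc κ₀ V
  obtain ⟨S, hS1, hS2, hS3, hS4⟩ := h1 b c hb hc κ₀ hp hq V U (d x₀) (s x₀) (hAdm x₀) L (e x₀)
  have hQ : ∀ x ∈ a.support, ∃ Q : MvPolynomial (Fin (d x₀)) ℚ,
      S (Fs V (s x) (e x)) = Dl κ₀ (ks (s x₀)) * Q ∧
        (x ≠ x₀ → Q.coeff (ms (s x₀)) = 0) ∧ (x = x₀ → Q.coeff (ms (s x₀)) ≠ 0) := by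
    intro x hx
    by_cases hxx : x = x₀
    · subst hxx
      obtain ⟨Q, hQ1, hQ2⟩ := hS4
      exact ⟨Q, hQ1, fun h => absurd rfl h, fun _ => hQ2⟩
    · rcases lt_or_eq_of_le (hmax x hx) with hlt | heq
      · refine ⟨0, ?_, fun _ => by simp, fun h => absurd h hxx⟩
        rw [mul_zero]
        refine hS2 (wt (s x)) ?_ _ (h2 b c hb hc κ₀ hp hq V (d x) (s x) L (e x)).2.2
        rw [hw₀]
        exact_mod_cast hlt
      · have hd : d x₀ ≤ d x := hmin x (Finset.mem_filter.mpr ⟨hx, heq⟩)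
        obtain ⟨Q, hQ1, hQ2⟩ := hS3 (d x) (s x) (e x) (heq.trans hw₀.symm) hd
        refine ⟨Q, hQ1, fun _ => hQ2 ?_, fun h => absurd h hxx⟩
        intro h
        exact hxx (hσ x x₀ h)
  choose! Q hQ1 hQ2 hQ3 using hQ
  have hsum : Dl κ₀ (ks (s x₀)) * ∑ x ∈ a.support, C (a x) * Q x = 0 := by
    have h5 := hS1 _ ha
    rw [Finsupp.sum, map_sum] at h5
    rw [Finset.mul_sum, ← h5]
    refine Finset.sum_congr rfl fun x hx => ?_
    rw [map_smul, hQ1 x hx, MvPolynomial.smul_eq_C_mul]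
    ring
  have hDl : Dl κ₀ (ks (s x₀)) ≠ 0 :=
    (h4 κ₀ (d x₀) (ks (s x₀)) (ks (s x₀)) (Equiv.refl _) fun _ => rfl).2.2.2
  have hz := (mul_eq_zero.mp hsum).resolve_left hDl
  have h6 := congrArg (coeff (ms (s x₀))) hz
  rw [coeff_sum, coeff_zero, Finset.sum_eq_single_of_mem x₀ hx₀] at h6
  · rw [coeff_C_mul] at h6
    rcases mul_eq_zero.mp h6 with h7 | h7
    · exact (Finsupp.mem_support_iff.mp hx₀) h7
    · exact hQ3 x₀ hx₀ rfl h7
  · intro x hx hxx
    rw [coeff_C_mul, hQ2 x hx hxx, mul_zero]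

end Pool.Agent.Work.MP_c41774_al.Full

end
end

section

/-!
# Item W_LAB: the labels of a tuple
-/

noncomputable section

namespace Pool.Agent.Work.MP_c41774_al.Full

open Finset MvPolynomial
open Pool.Agent.Work.MP_c41774_al.Wall

theorem pr_W_LAB : W_LAB := by
  intro b c κ₀ d s
  refine ⟨Fintype.equivFinOfCardEq ?_⟩
  rw [Fintype.card_sigma]
  simp only [Fintype.card_fin]
  rw [Finset.sum_add_distrib, tsz, Finset.sum_mul, Finset.sum_mul]

end Pool.Agent.Work.MP_c41774_al.Full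

end
end

section

/-!
# Block P, item W_LOI: the ideal
-/

noncomputable section

namespace Pool.Agent.Work.MP_c41774_al.Full

open Finset MvPolynomial
open Pool.Agent.Work.MP_c41774_al.Wall

theorem pr_W_LOI (h1 : C_REF) (h2 : C_SHI) : W_LOI := by
  intro b c κ₀ d k F hF α w _
  have h3 : F w ∈ Ip κ₀ (tw w) tv := hF w
  have h4 : F w ∈ Ip κ₀ (tw w) (fs κ₀ k) :=
    h1 (SL κ₀ k) Unit (Fin d) κ₀ (tw w) tv (fs κ₀ k) (fun _ => ()) (fun _ => rfl) h3
  exact h2 (SL κ₀ k) (Fin d) (Fin d) κ₀ (tw w) (fs κ₀ k) (fs κ₀ k) id (fun _ => rfl) _ h4 α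

end Pool.Agent.Work.MP_c41774_al.Full

end
end

section

/-!
# Item W_LOW: symbols of elements of lower weight
-/

noncomputable section

namespace Pool.Agent.Work.MP_c41774_al.Full

open Finset MvPolynomial
open Pool.Agent.Work.MP_c41774_al.Wall

theorem pr_W_LOW (h1 : W_GW) : W_LOW := by
  intro b c _ _ κ₀ hp hq d s₀ n hn F hF α hα w hw
  obtain ⟨hG, hd, _, _⟩ := h1 b c κ₀ hp hq d (ks s₀) (fun i => Nat.succ_pos _) w hw
  refine hF w d (fs κ₀ (ks s₀)) hG α ?_
  rw [hd, hα]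
  have h2 : (wt s₀ : ℤ) = d + 2 * ∑ i, ((s₀ i).2.2.2 : ℤ) := by
    simp [wt]
  rw [h2] at hn
  push_cast
  linarith

end Pool.Agent.Work.MP_c41774_al.Full

end
end

section

/-!
# Item W_MEM: charge, degree and weight of the elements
-/

noncomputable section

namespace Pool.Agent.Work.MP_c41774_al.Full

open Finset MvPolynomial
open Pool.Agent.Work.MP_c41774_al.Wall

theorem W_MEM_chg {b c : ℕ} {L L' : Type} [Fintype L] [DecidableEq L] [Fintype L']
    [DecidableEq L'] (e : L ≃ L') (w : L' → Col b c) : chg (w ∘ e) = chg w := by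
  unfold chg nx ny tw
  simp only [Finset.card_filter, Function.comp_apply]
  rw [Equiv.sum_comp e (fun l => if (w l).isLeft = true then 1 else 0),
    Equiv.sum_comp e (fun l => if (w l).isLeft = false then 1 else 0)]

/-- degree of a homogeneous family value -/
theorem W_MEM_v {b c : ℕ} (hb : 0 < b) (hc : 0 < c) {L : Type} [Fintype L] {f : MvPolynomial L ℚ}
    {W j : ℕ} (hf : f ≠ 0) (h : ∀ m ∈ f.support, 2 * b * c * m.degree + W = j) :
    ∃ n : ℕ, f.IsHomogeneous n ∧ 2 * b * c * n + W = j := by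
  obtain ⟨m0, hm0⟩ := Finset.nonempty_iff_ne_empty.2 (fun h' => hf (support_eq_empty.1 h'))
  refine ⟨m0.degree, ?_, h m0 hm0⟩
  have hpos : 0 < 2 * b * c := by positivity
  intro m hm
  have h1 := h m (mem_support_iff.2 hm)
  have h2 := h m0 hm0
  have h3 : 2 * b * c * m.degree = 2 * b * c * m0.degree := by omega
  have h4 := Nat.eq_of_mul_eq_mul_left hpos h3
  rw [← h4, Finsupp.degree_eq_weight_one]
  rfl

theorem W_MEM_bv {b c : ℕ} (hb : 0 < b) (hc : 0 < c) {κ₀ : ℕ × ℕ} (V : BBas b c κ₀) {d : ℕ}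
    (s : Fin d → Gn b c κ₀) (w : SL κ₀ (ks s) → Col b c) (h0 : bv V (xs s) w ≠ 0) :
    ∃ N : ℕ, (bv V (xs s) w).IsHomogeneous N ∧
      2 * b * c * N + ∑ l, cwt b c (w l) = ∑ i, (s i).2.1 := by
  have h1 : ∀ i, ∃ n : ℕ, (V.v (ks s i) (xs s i).1 (xs s i).2 (wb w i)).IsHomogeneous n ∧
      2 * b * c * n + ∑ a, cwt b c (w ⟨i, a⟩) = (s i).2.1 := by
    intro i
    refine W_MEM_v hb hc (fun h => h0 ?_) ?_
    · unfold bv bx
      refine Finset.prod_eq_zero (mem_univ i) ?_
      have h' := congrArg (rename (fun a : ML κ₀ (ks s i) => (⟨i, a⟩ : SL κ₀ (ks s)))) h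
      rw [map_zero] at h'
      exact h'
    · intro m hm
      exact (V.mem (ks s i) (xs s i).1 (xs s i).2).1.2.2 (wb w i) m hm
  choose n hn hn2 using h1
  refine ⟨∑ i, n i, ?_, ?_⟩
  · unfold bv bx
    exact IsHomogeneous.prod _ _ _ (fun i _ => (hn i).rename_isHomogeneous)
  · rw [← Finset.univ_sigma_univ, Finset.sum_sigma, Finset.mul_sum, ← Finset.sum_add_distrib]
    exact Finset.sum_congr rfl (fun i _ => hn2 i)

theorem W_MEM_pr {L : Type} [Fintype L] [DecidableEq L] (E : Finset (L × L)) :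
    (pr E : MvPolynomial L ℚ).IsHomogeneous (#E) := by
  unfold pr
  rw [Finset.card_eq_sum_ones]
  exact IsHomogeneous.prod _ _ _ (fun e _ => (isHomogeneous_X ℚ _).sub (isHomogeneous_X ℚ _))

theorem W_MEM_za {κ₀ : ℕ × ℕ} {d : ℕ} (k : Fin d → ℕ) (i : Fin d) :
    (za (κ₀ := κ₀) k i).IsHomogeneous 1 := by
  unfold za
  exact (IsHomogeneous.sum _ _ _ (fun a _ => isHomogeneous_X ℚ _)).C_mul _

theorem W_MEM_Hs {b c : ℕ} (hb : 0 < b) (hc : 0 < c) {κ₀ : ℕ × ℕ} (V : BBas b c κ₀) {d : ℕ}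
    (s : Fin d → Gn b c κ₀) (w : SL κ₀ (ks s) → Col b c)
    (hE : dege (tw w) (fs κ₀ (ks s)) = Ek κ₀ (ks s)) (m : SL κ₀ (ks s) →₀ ℕ)
    (hm : m ∈ (Hs V s w).support) : 2 * b * c * m.degree + ∑ l, cwt b c (w l) = tdg s := by
  have h0 : bv V (xs s) w ≠ 0 := by
    intro h
    rw [mem_support_iff] at hm
    apply hm
    unfold Hs
    rw [h, mul_zero, zero_mul, coeff_zero]
  obtain ⟨N, hN, hN2⟩ := W_MEM_bv hb hc V s w h0
  have h1 : (Hs V s w).IsHomogeneous (Ek κ₀ (ks s) + N + ∑ i, 1 * (ms s i)) := by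
    unfold Hs
    refine IsHomogeneous.mul (IsHomogeneous.mul ?_ hN) ?_
    · rw [← hE]
      exact W_MEM_pr _
    · exact IsHomogeneous.prod _ _ _ (fun i _ => (W_MEM_za (ks s) i).pow _)
  have h2 : m.degree = Ek κ₀ (ks s) + N + ∑ i, 1 * (ms s i) := by
    by_contra h
    rw [mem_support_iff] at hm
    exact hm (h1.coeff_eq_zero h)
  have h3 : ∑ i, 1 * (ms s i) = ∑ i, (s i).2.2.2 := by
    refine Finset.sum_congr rfl (fun i _ => ?_)
    rw [one_mul]
    rfl
  rw [h2, h3, tdg, ← hN2]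
  ring

theorem pr_W_MEM (h1 : W_GW) (h2 : W_BAD) (h3 : W_PRF) (h4 : R_PRO) (h5 : C_REL) (h6 : C_ACT)
    (h7 : C_AV) : W_MEM := by
  intro b c hb hc κ₀ hp hq V d s L _ _ e
  have hks : ∀ i, 0 < ks s i := fun i => Nat.succ_pos _
  have hHs : Hs V s ∈ (vin (Pf κ₀ (wt s)) : Submodule ℚ (Fm b c (SL κ₀ (ks s)))) := by
    intro w
    by_cases hw : Gw κ₀ (ks s) w
    · have e1 := (h3 b c hb hc κ₀ hp hq V d s w hw).1
      have e2 := h4 κ₀ hp hq (SL κ₀ (ks s)) (tw w) (wt s) d (fs κ₀ (ks s))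
        (h1 b c κ₀ hp hq d (ks s) hks w hw).1 _ e1
      unfold Hs
      rw [mul_assoc]
      exact e2
    · rw [(h2 b c κ₀ V d s w hw).2]
      exact Submodule.zero_mem _
  obtain ⟨φ, hφ, -, -, -, -, hφ2⟩ := h5 b c (SL κ₀ (ks s)) L e
  have hGe : Ge V s e ∈ (vin (Pf κ₀ (wt s)) : Submodule ℚ (Fm b c L)) := by
    rw [← hφ2, Ge, ← hφ]
    exact Submodule.mem_map_of_mem hHs
  refine ⟨hGe, ?_, ?_⟩
  · unfold Fs
    refine (h7 b c L (rel e (Hs V s)) (tsz s * κ₀.1, tsz s * κ₀.2) (tdg s)).2.2.2 ⟨?_, ?_⟩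
    · intro w hw
      unfold rel
      rw [(h2 b c κ₀ V d s (w ∘ e) ?_).2, map_zero]
      intro hG
      refine hw ?_
      rw [← W_MEM_chg e w]
      exact (h1 b c κ₀ hp hq d (ks s) hks (w ∘ e) hG).2.2.2
    · intro w m hm
      unfold rel at hm
      by_cases hG : Gw κ₀ (ks s) (w ∘ e)
      · rw [support_rename_of_injective e.injective, Finset.mem_image] at hm
        obtain ⟨m', hm', rfl⟩ := hm
        rw [Finsupp.degree_mapDomain]
        have e1 := W_MEM_Hs hb hc V s (w ∘ e) (h1 b c κ₀ hp hq d (ks s) hks (w ∘ e) hG).2.1 m' hm'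
        rw [← e1]
        congr 1
        exact (Equiv.sum_comp e (fun l => cwt b c (w l))).symm
      · rw [(h2 b c κ₀ V d s (w ∘ e) hG).2, map_zero] at hm
        simp at hm
  · unfold Fs Av
    refine Submodule.smul_mem _ _ (Submodule.sum_mem _ (fun g _ => Submodule.smul_mem _ _ ?_))
    exact (h6 b c L g (rel e (Hs V s)) κ₀ (wt s)).2.2 hGe

end Pool.Agent.Work.MP_c41774_al.Full

end
end

section

/-!
# Item W_MU: functionals adapted to the basis, on one block
-/

noncomputable section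

namespace Pool.Agent.Work.MP_c41774_al.Full

open Finset MvPolynomial
open Pool.Agent.Work.MP_c41774_al.Wall

theorem W_MU_hc {L : Type} [Fintype L] (D C j j' n : ℕ) (hD : 0 < D) (h : D * n + C = j)
    (f : MvPolynomial L ℚ) (hf : ∀ m ∈ f.support, D * m.degree + C = j') :
    homogeneousComponent n f = if j' = j then f else 0 := by
  ext m
  rw [coeff_homogeneousComponent]
  by_cases hm : m ∈ f.support
  · have h1 := hf m hm
    by_cases hj : j' = j
    · rw [if_pos hj, if_pos]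
      have h2 : D * m.degree = D * n := by omega
      exact Nat.eq_of_mul_eq_mul_left hD h2
    · rw [if_neg hj, if_neg]
      · simp
      · intro h3
        apply hj
        rw [← h1, ← h, h3]
  · rw [MvPolynomial.notMem_support_iff] at hm
    rw [hm]
    split_ifs <;> simp [hm]

theorem W_MU_ind (h1 : C_HOM) {b c : ℕ} (hb : 0 < b) (hc : 0 < c) {κ₀ : ℕ × ℕ}
    (V : BBas b c κ₀) (k : ℕ) (l : XX b c κ₀ k →₀ ℚ)
    (hl : (l.sum fun x r => r • V.v k x.1 x.2) ∈ NNk b c κ₀ k) : l = 0 := by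
  classical
  have key : ∀ j, (∑ i, (fun i => l ⟨j, i⟩) i • V.v k j i) ∈
      (vin (IpS _ κ₀) : Submodule ℚ (Fm b c (ML κ₀ k))) := by
    intro j w
    rw [Finset.sum_apply]
    by_cases hw : chg w = (k * κ₀.1, k * κ₀.2)
    · by_cases hn : ∃ n, 2 * b * c * n + ∑ l, cwt b c (w l) = j
      · obtain ⟨n, hn⟩ := hn
        have h2 : homogeneousComponent n ((l.sum fun x r => r • V.v k x.1 x.2) w) ∈
            Ip κ₀ (tw w) tv := (h1 _ _ κ₀ (tw w) tv _ n).1 (hl w hw)
        have h3 : homogeneousComponent n ((l.sum fun x r => r • V.v k x.1 x.2) w) =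
            ∑ i, (l ⟨j, i⟩) • V.v k j i w := by
          have h4 : (l.sum fun x r => r • V.v k x.1 x.2) w =
              ∑ x ∈ l.support, l x • V.v k x.1 x.2 w := by
            rw [Finsupp.sum, Finset.sum_apply]
            rfl
          rw [h4, map_sum]
          have h5 : ∀ x : XX b c κ₀ k, homogeneousComponent n (l x • V.v k x.1 x.2 w) =
              l x • (if x.1 = j then V.v k x.1 x.2 w else 0) := by
            intro x
            rw [map_smul, W_MU_hc (2 * b * c) (∑ l, cwt b c (w l)) j x.1 n (by positivity) hn _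
              ((V.mem k x.1 x.2).1.2.2 w)]
          simp only [h5]
          set T : Finset (XX b c κ₀ k) := l.support ∪
            (univ : Finset (Fin (bd b c κ₀ k j))).map ⟨fun i => (⟨j, i⟩ : XX b c κ₀ k),
              fun i i' h => by simpa using h⟩ with hT
          have h6 : ∑ x ∈ l.support, l x • (if x.1 = j then V.v k x.1 x.2 w else 0) =
              ∑ x ∈ T, l x • (if x.1 = j then V.v k x.1 x.2 w else 0) := by
            refine Finset.sum_subset Finset.subset_union_left fun x _ hx => ?_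
            rw [Finsupp.notMem_support_iff] at hx
            rw [hx, zero_smul]
          have h7 : ∑ x ∈ (univ : Finset (Fin (bd b c κ₀ k j))).map
              ⟨fun i => (⟨j, i⟩ : XX b c κ₀ k), fun i i' h => by simpa using h⟩,
                l x • (if x.1 = j then V.v k x.1 x.2 w else 0) =
              ∑ x ∈ T, l x • (if x.1 = j then V.v k x.1 x.2 w else 0) := by
            refine Finset.sum_subset Finset.subset_union_right fun x _ hx => ?_
            rw [if_neg, smul_zero]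
            intro h8
            apply hx
            rw [Finset.mem_map]
            obtain ⟨j', i⟩ := x
            simp only at h8
            subst h8
            exact ⟨i, Finset.mem_univ _, rfl⟩
          rw [h6, ← h7, Finset.sum_map]
          refine Finset.sum_congr rfl fun i _ => ?_
          show l ⟨j, i⟩ • (if j = j then V.v k j i w else 0) = l ⟨j, i⟩ • V.v k j i w
          rw [if_pos rfl]
        rw [h3] at h2
        exact h2
      · have h2 : ∀ i, V.v k j i w = 0 := by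
          intro i
          by_contra h3
          obtain ⟨m, hm⟩ := MvPolynomial.support_nonempty.2 h3
          exact hn ⟨m.degree, (V.mem k j i).1.2.2 w m hm⟩
        rw [Finset.sum_eq_zero]
        · exact Submodule.zero_mem _
        · intro i _
          rw [Pi.smul_apply, h2, smul_zero]
    · rw [Finset.sum_eq_zero]
      · exact Submodule.zero_mem _
      · intro i _
        rw [Pi.smul_apply, (V.mem k j i).1.2.1 w hw, smul_zero]
  ext x
  obtain ⟨j, i⟩ := x
  exact congrFun (V.ind k j _ (key j)) i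

theorem pr_W_MU (h1 : C_HOM) : W_MU := by
  classical
  intro b c hb hc κ₀ V
  have h2 : ∀ k, LinearIndependent ℚ
      (fun x : XX b c κ₀ k => (NNk b c κ₀ k).mkQ (V.v k x.1 x.2)) := by
    intro k
    rw [linearIndependent_iff]
    intro l hl
    refine W_MU_ind h1 hb hc V k l ?_
    rw [Finsupp.linearCombination_apply] at hl
    rw [← Submodule.Quotient.mk_eq_zero, ← Submodule.mkQ_apply, ← hl, Finsupp.sum, Finsupp.sum,
      map_sum]
    refine Finset.sum_congr rfl fun x _ => ?_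
    rw [map_smul]
  have h3 : ∀ k (x : XX b c κ₀ k), ∃ g : (Fm b c (ML κ₀ k) ⧸ NNk b c κ₀ k) →ₗ[ℚ] ℚ,
      ∀ y : XX b c κ₀ k, g ((NNk b c κ₀ k).mkQ (V.v k y.1 y.2)) = if x = y then 1 else 0 := by
    intro k x
    obtain ⟨g, hg⟩ := LinearMap.exists_extend
      ((Finsupp.lapply x : (XX b c κ₀ k →₀ ℚ) →ₗ[ℚ] ℚ) ∘ₗ (h2 k).repr)
    refine ⟨g, fun y => ?_⟩
    have h4 := congrArg (fun f => f ⟨(NNk b c κ₀ k).mkQ (V.v k y.1 y.2),
      Submodule.subset_span ⟨y, rfl⟩⟩) hg
    simp only [LinearMap.coe_comp, Function.comp_apply, Submodule.coe_subtype] at h4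
    rw [h4]
    have h5 := (h2 k).repr_eq_single y ⟨(NNk b c κ₀ k).mkQ (V.v k y.1 y.2),
      Submodule.subset_span ⟨y, rfl⟩⟩ rfl
    rw [h5, Finsupp.lapply_apply, Finsupp.single_apply]
    by_cases hxy : y = x
    · rw [if_pos hxy, if_pos hxy.symm]
    · rw [if_neg hxy, if_neg (fun h => hxy h.symm)]
  choose g hg using h3
  exact ⟨{ mu := fun k x => (g k x).comp (NNk b c κ₀ k).mkQ
           kill := fun k x F hF => by
             have h4 : (NNk b c κ₀ k).mkQ F = 0 := by
               rw [Submodule.mkQ_apply, Submodule.Quotient.mk_eq_zero]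
               exact hF
             rw [LinearMap.comp_apply, h4, map_zero]
           one := fun k x y => by
             rw [LinearMap.comp_apply, hg] }⟩

end Pool.Agent.Work.MP_c41774_al.Full

end
end

section

/-!
# Block P, item W_ODD
-/

noncomputable section

namespace Pool.Agent.Work.MP_c41774_al.Full

open Finset MvPolynomial
open Pool.Agent.Work.MP_c41774_al.Wall

theorem W_ODD_act {b c : ℕ} {L : Type*} [Fintype L] [DecidableEq L] (g : Equiv.Perm L) (r : ℚ)
    (F G : Fm b c L) : act g (F - r • G) = act g F - r • act g G := by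
  funext w
  simp only [act, Pi.sub_apply, Pi.smul_apply, map_sub, map_smul]

theorem W_ODD_Av {b c : ℕ} {L : Type*} [Fintype L] [DecidableEq L] (r : ℚ)
    (F G : Fm b c L) : Av (F - r • G) = Av F - r • Av G := by
  unfold Av
  rw [smul_comm r, ← smul_sub]
  congr 1
  rw [Finset.smul_sum, ← Finset.sum_sub_distrib]
  refine Finset.sum_congr rfl fun g _ => ?_
  rw [W_ODD_act, smul_sub, smul_comm r]

theorem W_ODD_AvP {b c : ℕ} {L : Type} [Fintype L] [DecidableEq L] (h5 : C_ACT) (κ₀ : ℕ × ℕ)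
    (n : ℤ) (F : Fm b c L) (hF : F ∈ (vin (Pf κ₀ n) : Submodule ℚ (Fm b c L))) :
    Av F ∈ (vin (Pf κ₀ n) : Submodule ℚ (Fm b c L)) := by
  unfold Av
  refine Submodule.smul_mem _ _ (Submodule.sum_mem _ fun g _ => Submodule.smul_mem _ _ ?_)
  exact (h5 b c L g F κ₀ n).2.2 hF

theorem W_ODD_sgsq {L : Type*} [Fintype L] [DecidableEq L] (g : Equiv.Perm L) :
    sg g * sg g = 1 := by
  unfold sg
  rcases Int.units_eq_one_or (Equiv.Perm.sign g) with h | h
  · rw [h]; simp
  · rw [h]; simp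

theorem pr_W_ODD (h1 : W_SWP) (h2 : W_ODDS) (h3 : W_RELA) (h4 : C_AV) (h5 : C_ACT)
    (h6 : C_REL) : W_ODD := by
  intro b c hb hc κ₀ hp hq V d s hs L _ _ e
  unfold Adm at hs
  push Not at hs
  obtain ⟨i, j, hij, hod, hne⟩ := hs
  have hsig : ∀ l, s l = s (Equiv.swap i j l) := by
    intro l
    by_cases hi : l = i
    · rw [hi, Equiv.swap_apply_left, hij]
    · by_cases hj : l = j
      · rw [hj, Equiv.swap_apply_right, hij]
      · rw [Equiv.swap_apply_of_ne_of_ne hi hj]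
  have h' : ∀ l, ks s l = ks s (Equiv.swap i j l) := by
    intro l
    unfold ks
    rw [← hsig l]
  have hA := h1 b c hb hc κ₀ hp hq V d s s (Equiv.swap i j) hsig h'
  have hsg := h2 b c κ₀ d s i j hne hij hod h'
  set g := bpe κ₀ (Equiv.swap i j) h' with hg
  set r := eps κ₀ (ks s) (Equiv.swap i j) with hr
  obtain ⟨φ, hφ, -, -, -, -, hφP⟩ := h6 b c (SL κ₀ (ks s)) L e
  have hB : φ (rel g (Hs V s) - r • Hs V s) ∈
      (vin (Pf κ₀ (wt s - 1)) : Submodule ℚ (Fm b c L)) := by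
    rw [← hφP κ₀ (wt s - 1)]
    exact Submodule.mem_map_of_mem hA
  rw [map_sub, map_smul, hφ, hφ] at hB
  have hC := W_ODD_AvP h5 κ₀ _ _ hB
  rw [W_ODD_Av] at hC
  have hrel := h3 b c (SL κ₀ (ks s)) L L e (Equiv.refl L) (Hs V s)
  have hD : Av (rel e (rel g (Hs V s))) = sg g • Fs V s e := by
    have e1 : rel g (Hs V s) = act g (Hs V s) := (hrel.2.2.1 g).symm
    rw [e1, hrel.2.1 g, (h4 b c L (rel e (Hs V s)) κ₀ 0).2.1]
    have e2 : sg ((e.symm.trans g).trans e) = sg g := by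
      unfold sg
      rw [Equiv.Perm.sign_symm_trans_trans]
    rw [e2]
    rfl
  rw [hD] at hC
  have hE : (sg g - r) • Fs V s e ∈ (vin (Pf κ₀ (wt s - 1)) : Submodule ℚ (Fm b c L)) := by
    rw [sub_smul]
    exact hC
  have hsq := W_ODD_sgsq g
  have hre : r = -sg g := by
    have : sg g * (sg g * r) = sg g * (-1) := by rw [hsg]
    rw [← mul_assoc, hsq, one_mul] at this
    rw [this]; ring
  have hne0 : sg g - r ≠ 0 := by
    rw [hre]
    intro h0
    have : sg g = 0 := by linarith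
    rw [this] at hsq
    norm_num at hsq
  have := Submodule.smul_mem (vin (Pf κ₀ (wt s - 1)) : Submodule ℚ (Fm b c L))
    (sg g - r)⁻¹ hE
  rwa [smul_smul, inv_mul_cancel₀ hne0, one_smul] at this

end Pool.Agent.Work.MP_c41774_al.Full

end
end

section

/-!
# Item W_ODDS: total sign of the exchange of two equal odd elements
-/

noncomputable section

namespace Pool.Agent.Work.MP_c41774_al.Full

open Finset MvPolynomial
open Pool.Agent.Work.MP_c41774_al.Wall

theorem W_ODDS_swap {d : ℕ} (f : Fin d → Fin d → ℚ) (i j : Fin d) (hij : i < j) :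
    ∏ a, ∏ b ∈ (Ioi a).filter (fun b => Equiv.swap i j b < Equiv.swap i j a), f a b =
      f i j * ∏ l ∈ Ioo i j, (f i l * f l j) := by
  have e1 : ∀ a, a ∉ Ico i j →
      ∏ b ∈ (Ioi a).filter (fun b => Equiv.swap i j b < Equiv.swap i j a), f a b = 1 := by
    intro a ha
    rw [mem_Ico] at ha
    apply Finset.prod_eq_one
    intro b hb
    exfalso
    rw [mem_filter, mem_Ioi] at hb
    obtain ⟨h1, h2⟩ := hb
    rcases lt_trichotomy a i with h | h | h
    · rw [Equiv.swap_apply_of_ne_of_ne h.ne (h.trans hij).ne] at h2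
      by_cases hbi : b = i
      · subst hbi; rw [Equiv.swap_apply_left] at h2
        exact absurd (h2.trans (h1.trans hij)) (lt_irrefl _)
      · by_cases hbj : b = j
        · subst hbj; rw [Equiv.swap_apply_right] at h2
          exact absurd (h2.trans h) (lt_irrefl _)
        · rw [Equiv.swap_apply_of_ne_of_ne hbi hbj] at h2
          exact absurd (h2.trans h1) (lt_irrefl _)
    · exact ha ⟨h.ge, h ▸ hij⟩
    · have hja : j ≤ a := by
        by_contra hc
        exact ha ⟨h.le, not_le.mp hc⟩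
      have hbj : b ≠ j := (lt_of_le_of_lt hja h1).ne'
      have hbi : b ≠ i := (hij.trans_le hja |>.trans h1).ne'
      rw [Equiv.swap_apply_of_ne_of_ne hbi hbj] at h2
      rcases eq_or_lt_of_le hja with h3 | h3
      · subst h3; rw [Equiv.swap_apply_right] at h2
        exact absurd (h2.trans (hij.trans h1)) (lt_irrefl _)
      · rw [Equiv.swap_apply_of_ne_of_ne h.ne' h3.ne'] at h2
        exact absurd (h2.trans h1) (lt_irrefl _)
  have e2 : ∀ a ∈ Ioo i j,
      ∏ b ∈ (Ioi a).filter (fun b => Equiv.swap i j b < Equiv.swap i j a), f a b = f a j := by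
    intro a ha
    rw [mem_Ioo] at ha
    have : (Ioi a).filter (fun b => Equiv.swap i j b < Equiv.swap i j a) = {j} := by
      ext b
      rw [mem_filter, mem_Ioi, mem_singleton,
        Equiv.swap_apply_of_ne_of_ne ha.1.ne' ha.2.ne]
      constructor
      · rintro ⟨h1, h2⟩
        by_contra hbj
        rw [Equiv.swap_apply_of_ne_of_ne (ha.1.trans h1).ne' hbj] at h2
        exact absurd (h2.trans h1) (lt_irrefl _)
      · rintro rfl
        rw [Equiv.swap_apply_right]
        exact ⟨ha.2, ha.1⟩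
    rw [this, prod_singleton]
  have e3 : ∏ b ∈ (Ioi i).filter (fun b => Equiv.swap i j b < Equiv.swap i j i), f i b =
      f i j * ∏ l ∈ Ioo i j, f i l := by
    have : (Ioi i).filter (fun b => Equiv.swap i j b < Equiv.swap i j i) =
        insert j (Ioo i j) := by
      ext b
      rw [mem_filter, mem_Ioi, mem_insert, mem_Ioo, Equiv.swap_apply_left]
      constructor
      · rintro ⟨h1, h2⟩
        by_cases hbj : b = j
        · exact Or.inl hbj
        · rw [Equiv.swap_apply_of_ne_of_ne h1.ne' hbj] at h2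
          exact Or.inr ⟨h1, h2⟩
      · rintro (rfl | ⟨h1, h2⟩)
        · rw [Equiv.swap_apply_right]; exact ⟨hij, hij⟩
        · rw [Equiv.swap_apply_of_ne_of_ne h1.ne' h2.ne]; exact ⟨h1, h2⟩
    rw [this, prod_insert (by simp)]
  rw [← Finset.prod_subset (Finset.subset_univ (Ico i j)) (fun a _ ha => e1 a ha),
    ← Finset.Ioo_insert_left hij, prod_insert (by simp), e3, Finset.prod_congr rfl e2,
    prod_mul_distrib, mul_assoc]

theorem W_ODDS_core {d : ℕ} (k : Fin d → ℕ) (A B : ℕ) (i j : Fin d) (hij : i < j)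
    (hk : k i = k j) (ho : Odd (k i * (A + B + A * B))) :
    (∏ a, ∏ b ∈ (Ioi a).filter (fun b => Equiv.swap i j b < Equiv.swap i j a),
      (-1 : ℚ) ^ ((k a * A + k a * B) * (k b * A + k b * B))) *
    (∏ a, ∏ b ∈ (Ioi a).filter (fun b => Equiv.swap i j b < Equiv.swap i j a),
      (-1 : ℚ) ^ (k a * k b * (A * B))) = -1 := by
  rw [← prod_mul_distrib]
  have : ∀ a : Fin d, (∏ b ∈ (Ioi a).filter (fun b => Equiv.swap i j b < Equiv.swap i j a),
      (-1 : ℚ) ^ ((k a * A + k a * B) * (k b * A + k b * B))) *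
      (∏ b ∈ (Ioi a).filter (fun b => Equiv.swap i j b < Equiv.swap i j a),
      (-1 : ℚ) ^ (k a * k b * (A * B))) =
      ∏ b ∈ (Ioi a).filter (fun b => Equiv.swap i j b < Equiv.swap i j a),
      ((-1 : ℚ) ^ ((k a * A + k a * B) * (k b * A + k b * B)) *
        (-1 : ℚ) ^ (k a * k b * (A * B))) := fun a => prod_mul_distrib.symm
  rw [Finset.prod_congr rfl fun a _ => this a,
    W_ODDS_swap (fun a b => (-1 : ℚ) ^ ((k a * A + k a * B) * (k b * A + k b * B)) *
        (-1 : ℚ) ^ (k a * k b * (A * B))) i j hij]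
  have h1 : ∏ l ∈ Ioo i j, (((-1 : ℚ) ^ ((k i * A + k i * B) * (k l * A + k l * B)) *
        (-1 : ℚ) ^ (k i * k l * (A * B))) *
        ((-1 : ℚ) ^ ((k l * A + k l * B) * (k j * A + k j * B)) *
        (-1 : ℚ) ^ (k l * k j * (A * B)))) = 1 := by
    apply Finset.prod_eq_one
    intro l _
    rw [← hk, ← pow_add, ← pow_add, ← pow_add]
    apply Even.neg_one_pow
    refine ⟨(k i * A + k i * B) * (k l * A + k l * B) + k i * k l * (A * B), ?_⟩
    ring
  rw [h1, mul_one, ← hk, ← pow_add]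
  apply Odd.neg_one_pow
  have h2 := Nat.odd_mul.mp ho
  rw [Nat.odd_iff] at h2 ⊢
  have h3 : k i % 2 = 1 := h2.1
  have h4 : (A + B + A * B) % 2 = 1 := Nat.odd_iff.mp h2.2
  have h5 : (k i * A + k i * B) * (k i * A + k i * B) + k i * k i * (A * B) =
      k i * k i * ((A + B) * (A + B) + A * B) := by ring
  rw [h5]
  have h6 : ((A + B) * (A + B) + A * B) % 2 = 1 := by
    rcases Nat.even_or_odd A with hA | hA <;> rcases Nat.even_or_odd B with hB | hB
    · exfalso
      have : Even (A + B + A * B) := (hA.add hB).add (hA.mul_right B)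
      rw [Nat.even_iff] at this; omega
    · have : Odd ((A + B) * (A + B) + A * B) :=
        ((hA.add_odd hB).mul (hA.add_odd hB)).add_even (hA.mul_right B)
      exact Nat.odd_iff.mp this
    · have : Odd ((A + B) * (A + B) + A * B) :=
        ((hA.add_even hB).mul (hA.add_even hB)).add_even (hB.mul_left A)
      exact Nat.odd_iff.mp this
    · have : Odd ((A + B) * (A + B) + A * B) :=
        ((hA.add_odd hB).mul_left _).add_odd (hA.mul hB)
      exact Nat.odd_iff.mp this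
  exact Nat.odd_iff.mp (((Nat.odd_iff.mpr h3).mul (Nat.odd_iff.mpr h3)).mul (Nat.odd_iff.mpr h6))

theorem pr_W_ODDS (h1 : W_SGN) : W_ODDS := by
  intro b c κ₀ d s i j hij hs hg h'
  have hk : ks s i = ks s j := by
    show (s i).1 + 1 = (s j).1 + 1
    rw [hs]
  have ho : Odd (ks s i * (κ₀.1 + κ₀.2 + κ₀.1 * κ₀.2)) := hg
  rw [h1]
  unfold eps
  rcases lt_or_gt_of_ne hij with h | h
  · exact W_ODDS_core (ks s) κ₀.1 κ₀.2 i j h hk ho
  · rw [Equiv.swap_comm i j]
    exact W_ODDS_core (ks s) κ₀.1 κ₀.2 j i h hk.symm (hk ▸ ho)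

end Pool.Agent.Work.MP_c41774_al.Full

end
end

section

noncomputable section

namespace Pool.Agent.Work.MP_c41774_al.Full

open Finset MvPolynomial
open Pool.Agent.Work.MP_c41774_al.Wall

section aux

variable {L L' : Type} [Fintype L] [DecidableEq L] [Fintype L'] [DecidableEq L']

theorem W_OFF_cardf (h : L ≃ L') (P : L' → Prop) [DecidablePred P] [DecidablePred fun l => P (h l)] :
    #(univ.filter fun l : L => P (h l)) = #(univ.filter fun l : L' => P l) := by
  refine Finset.card_bij (fun l _ => h l) ?_ ?_ ?_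
  · intro l hl
    simp only [mem_filter, mem_univ, true_and] at hl ⊢
    exact hl
  · intro l _ l' _ e; exact h.injective e
  · intro l hl
    refine ⟨h.symm l, ?_, by simp⟩
    simp only [mem_filter, mem_univ, true_and, Equiv.apply_symm_apply] at hl ⊢
    exact hl

theorem W_OFF_good (κ₀ : ℕ × ℕ) (h : L ≃ L') (τ : L' → Bool) {d : ℕ} (β : L' → Fin d)
    (hg : Good κ₀ τ β) : Good κ₀ (τ ∘ h) (β ∘ h) := by
  intro i
  obtain ⟨⟨l, hl⟩, h2⟩ := hg i
  refine ⟨⟨h.symm l, ?_⟩, ?_⟩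
  · simp only [mem_filter, mem_univ, true_and, Function.comp, Equiv.apply_symm_apply] at hl ⊢
    exact hl
  · rw [← h2]
    unfold th nx ny
    rw [Finset.filter_filter, Finset.filter_filter, Finset.filter_filter, Finset.filter_filter]
    have e1 := W_OFF_cardf h (fun l => β l = i ∧ τ l = true)
    have e2 := W_OFF_cardf h (fun l => β l = i ∧ τ l = false)
    simp only [Function.comp]
    rw [e1, e2]

theorem W_OFF_dege (h : L ≃ L') (τ : L' → Bool) {d : ℕ} (β : L' → Fin d) :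
    dege (τ ∘ h) (β ∘ h) = dege τ β := by
  unfold dege crs
  exact W_OFF_cardf (h.prodCongr h) (fun e => τ e.1 = true ∧ τ e.2 = false ∧ β e.1 < β e.2)

end aux

theorem pr_W_OFF (h1 : W_SHR) (h2 : W_GW) (h3 : W_BAD) (h4 : W_PRF) (h5 : R_OFF) (h6 : C_RELI) :
    W_OFF := by
  intro b c hb hc κ₀ hp hq V d₀ d s₀ s hwt hd h hno α hα w hw
  show (Sh (fs κ₀ (ks s₀)) (rename h (Hs V s (w ∘ h)))).coeff α ∈
    Ip κ₀ (tw w) (fs κ₀ (ks s₀))
  rw [(h1 (SL κ₀ (ks s)) (SL κ₀ (ks s₀)) (Fin d₀) (Fin d₀)).1 h (fs κ₀ (ks s₀)) _ α]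
  rw [h6 (SL κ₀ (ks s)) (SL κ₀ (ks s₀)) (Fin d₀) (Fin d₀) h id κ₀ (tw w)
    (fs κ₀ (ks s₀) ∘ h) (fs κ₀ (ks s₀)) Function.injective_id (fun l => rfl)]
  by_cases hb' : Gw κ₀ (ks s) (w ∘ h)
  · have hg0 := h2 b c κ₀ hp hq d₀ (ks s₀) (fun i => Nat.succ_pos _) w hw
    have hg := h2 b c κ₀ hp hq d (ks s) (fun i => Nat.succ_pos _) (w ∘ h) hb'
    have hpr := (h4 b c hb hc κ₀ hp hq V d s (w ∘ h) hb').1
    have hH : Hs V s (w ∘ h) = pr (crs (tw (w ∘ h)) (fs κ₀ (ks s))) *
        (bv V (xs s) (w ∘ h) * ∏ i, za (ks s) i ^ (ms s i)) := by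
      unfold Hs; rw [mul_assoc]
    rw [hH]
    have hgood : Good κ₀ (tw (w ∘ h)) (fs κ₀ (ks s₀) ∘ h) := W_OFF_good κ₀ h (tw w) _ hg0.1
    refine h5 κ₀ hp hq (SL κ₀ (ks s)) (tw (w ∘ h)) (wt s : ℕ) d d₀ (fs κ₀ (ks s))
      (fs κ₀ (ks s₀) ∘ h) hg.1 hgood hd ?_ _ hpr α ?_
    · rintro ⟨σ, hσ⟩
      apply hno
      refine ⟨σ, fun l => ?_⟩
      exact congrFun hσ l
    · have e1 : dege (tw (w ∘ h)) (fs κ₀ (ks s₀) ∘ h) = Ek κ₀ (ks s₀) := by
        rw [← hg0.2.1]; exact W_OFF_dege h (tw w) _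
      rw [e1, hα, hwt]
      unfold wt
      push_cast
      ring
  · rw [(h3 b c κ₀ V d s (w ∘ h) hb').2, map_zero, coeff_zero]
    exact Ideal.zero_mem _

end Pool.Agent.Work.MP_c41774_al.Full

end
end

section

/-!
# Item W_ON: the symbol of a relabelled element, matching blocks
-/

noncomputable section

namespace Pool.Agent.Work.MP_c41774_al.Full

open Finset MvPolynomial
open Pool.Agent.Work.MP_c41774_al.Wall

theorem W_ON_cnt {κ₀ : ℕ × ℕ} {d : ℕ} (k : Fin d → ℕ) (P : SL κ₀ k → Prop) [DecidablePred P]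
    (i : Fin d) : #(univ.filter fun a : ML κ₀ (k i) => P ⟨i, a⟩) =
      #((blk (fs κ₀ k) i).filter P) := by
  refine Finset.card_bij (fun a _ => ⟨i, a⟩) ?_ ?_ ?_
  · intro a ha
    rw [Finset.mem_filter] at ha ⊢
    exact ⟨by rw [blk, Finset.mem_filter]; exact ⟨Finset.mem_univ _, rfl⟩, ha.2⟩
  · intro a _ a' _ h
    exact eq_of_heq (Sigma.mk.inj h).2
  · rintro ⟨j, a⟩ hl
    rw [Finset.mem_filter, blk, Finset.mem_filter] at hl
    have : j = i := hl.1.2
    subst this
    exact ⟨a, by simpa using hl.2, rfl⟩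

theorem W_ON_chg {b c : ℕ} {κ₀ : ℕ × ℕ} {d : ℕ} (k : Fin d → ℕ) (w : SL κ₀ k → Col b c)
    (i : Fin d) : chg (wb w i) =
      (nx (tw w) (blk (fs κ₀ k) i), ny (tw w) (blk (fs κ₀ k) i)) := by
  unfold chg nx ny
  refine Prod.ext ?_ ?_
  · exact W_ON_cnt k (fun l => tw w l = true) i
  · exact W_ON_cnt k (fun l => tw w l = false) i

theorem W_ON_card {κ₀ : ℕ × ℕ} {d : ℕ} (k : Fin d → ℕ) (i : Fin d) :
    #(blk (fs κ₀ k) i) = k i * κ₀.1 + k i * κ₀.2 := by
  have h := W_ON_cnt (κ₀ := κ₀) k (fun _ => True) i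
  rw [Finset.filter_true_of_mem (fun _ _ => trivial),
    Finset.filter_true_of_mem (fun _ _ => trivial), Finset.card_univ] at h
  rw [← h]
  simp [ML]

theorem W_ON_blk {κ₀ : ℕ × ℕ} {d : ℕ} {k k₀ : Fin d → ℕ} (h : SL κ₀ k ≃ SL κ₀ k₀)
    (σ : Equiv.Perm (Fin d)) (hh : ∀ l, (h l).1 = σ l.1) (P : SL κ₀ k₀ → Prop) [DecidablePred P]
    (i : Fin d) : #((blk (fs κ₀ k) i).filter fun l => P (h l)) =
      #((blk (fs κ₀ k₀) (σ i)).filter P) := by
  refine Finset.card_bij (fun l _ => h l) ?_ ?_ ?_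
  · intro l hl
    rw [Finset.mem_filter, blk, Finset.mem_filter] at hl ⊢
    refine ⟨⟨Finset.mem_univ _, ?_⟩, hl.2⟩
    show (h l).1 = σ i
    rw [hh l]
    exact congrArg σ hl.1.2
  · intro l _ l' _ e
    exact h.injective e
  · intro l hl
    rw [Finset.mem_filter, blk, Finset.mem_filter] at hl
    refine ⟨h.symm l, ?_, h.apply_symm_apply l⟩
    rw [Finset.mem_filter, blk, Finset.mem_filter]
    refine ⟨⟨Finset.mem_univ _, ?_⟩, by rw [h.apply_symm_apply]; exact hl.2⟩
    have e1 := hh (h.symm l)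
    rw [h.apply_symm_apply] at e1
    have e2 : l.1 = σ i := hl.1.2
    rw [e2] at e1
    exact (σ.injective e1).symm

theorem W_ON_rename {d : ℕ} {R : Type*} [CommRing R] (σ : Equiv.Perm (Fin d))
    (Q : MvPolynomial (Fin d) R) (α : Fin d →₀ ℕ) :
    (rename σ Q).coeff α = Q.coeff (α.mapDomain σ.symm) := by
  have e : α = (α.mapDomain σ.symm).mapDomain σ := by
    rw [← Finsupp.mapDomain_comp]
    have : (σ : Fin d → Fin d) ∘ σ.symm = id := by
      funext x; simp
    rw [this, Finsupp.mapDomain_id]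
  conv_lhs => rw [e]
  exact coeff_rename_mapDomain σ σ.injective Q _

theorem W_ON_degree {d : ℕ} (σ : Equiv.Perm (Fin d)) (α : Fin d →₀ ℕ) :
    (α.mapDomain σ.symm).degree = α.degree := by
  rw [Finsupp.degree_eq_sum, Finsupp.degree_eq_sum]
  rw [← Equiv.sum_comp σ.symm]
  refine Finset.sum_congr rfl fun i _ => ?_
  exact Finsupp.mapDomain_apply σ.symm.injective α i

theorem pr_W_ON (h1 : W_SHR) (h2 : W_DLS) (h3 : W_GW) (h5 : W_PRF) (h6 : W_TOP)
    (h7 : R_ON) (h8 : C_RELI) : W_ON := by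
  intro b c hb hc κ₀ hp hq V d s₀ s hwt h σ hh α hα w hw
  -- sizes of the blocks
  have hks : ∀ i, ks s i = ks s₀ (σ i) := by
    intro i
    have e := W_ON_blk (κ₀ := κ₀) h σ hh (fun _ => True) i
    rw [Finset.filter_true_of_mem (fun _ _ => trivial),
      Finset.filter_true_of_mem (fun _ _ => trivial), W_ON_card, W_ON_card] at e
    have e' : ks s i * (κ₀.1 + κ₀.2) = ks s₀ (σ i) * (κ₀.1 + κ₀.2) := by
      rw [mul_add, mul_add]; exact e
    exact Nat.eq_of_mul_eq_mul_right (by omega) e'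
  have hkp : ∀ i, 0 < ks s i := fun i => Nat.succ_pos _
  have hkp₀ : ∀ i, 0 < ks s₀ i := fun i => Nat.succ_pos _
  obtain ⟨hD1, hD2, hD3, -⟩ := h2 κ₀ d (ks s) (ks s₀) σ hks
  -- the word w'
  have hnx : ∀ i, nx (tw (w ∘ h)) (blk (fs κ₀ (ks s)) i) =
      nx (tw w) (blk (fs κ₀ (ks s₀)) (σ i)) := fun i =>
    W_ON_blk h σ hh (fun l => tw w l = true) i
  have hny : ∀ i, ny (tw (w ∘ h)) (blk (fs κ₀ (ks s)) i) =
      ny (tw w) (blk (fs κ₀ (ks s₀)) (σ i)) := fun i =>
    W_ON_blk h σ hh (fun l => tw w l = false) i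
  have hw' : Gw κ₀ (ks s) (w ∘ h) := by
    intro i
    have e1 := hw (σ i)
    rw [W_ON_chg] at e1 ⊢
    rw [hnx, hny, e1, hks i]
  obtain ⟨hG1, hG2, hG3, -⟩ := h3 b c κ₀ hp hq d (ks s) hkp (w ∘ h) hw'
  have hsum : ∑ i, (s i).2.2.2 = ∑ i, (s₀ i).2.2.2 := by
    have := hwt
    unfold wt at this
    omega
  set γ := fs κ₀ (ks s) with hγ
  set w' := w ∘ h with hw'def
  have hPR0 := (h5 b c hb hc κ₀ hp hq V d s w' hw').1
  have htop0 := fun α' hα' => h6 b c hb hc κ₀ hp hq V d s w' hw' (Ek κ₀ (ks s))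
    (Dl κ₀ (ks s)) hD3 α' hα'
  obtain ⟨f, hf⟩ : ∃ f, f = bv V (xs s) w' * ∏ i, za (ks s) i ^ (ms s i) := ⟨_, rfl⟩
  rw [← hf] at hPR0
  simp only [← hf] at htop0
  have hPR : f ∈ PR κ₀ (wt s) (tw w') γ := hPR0
  have hdeg : 2 * (dege (tw w') γ : ℤ) + (wt s : ℤ) - d = 2 * (α.degree : ℤ) := by
    rw [hG2, hα, hD2]
    unfold wt
    rw [hsum]
    push_cast
    ring
  have hon := h7 κ₀ hp hq (SL κ₀ (ks s)) (tw w') (wt s) d γ σ hG1 f hPR α hdeg
  -- the argument of the coefficient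
  have hprod : ((∏ i, ∏ j ∈ Ioi i, (X (σ j) - X (σ i)) ^
      (nx (tw w') (blk γ i) * ny (tw w') (blk γ j))) * Sh (σ ∘ γ) f :
        MvPolynomial (Fin d) (MvPolynomial (SL κ₀ (ks s)) ℚ)) =
      rename σ (MvPolynomial.map C (Dl κ₀ (ks s)) * Sh γ f) := by
    rw [map_mul, (h1 (SL κ₀ (ks s)) (SL κ₀ (ks s)) (Fin d) (Fin d)).2.1 σ γ f]
    congr 1
    unfold Dl
    rw [map_prod, map_prod]
    refine Finset.prod_congr rfl fun i _ => ?_
    rw [map_prod, map_prod]
    refine Finset.prod_congr rfl fun j _ => ?_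
    rw [(hG3 i).1, (hG3 j).2, map_pow, map_pow, map_sub, map_sub, map_X, map_X, rename_X,
      rename_X]
    congr 1
    ring
  rw [hprod, W_ON_rename] at hon
  have hα' : (α.mapDomain σ.symm).degree = Ek κ₀ (ks s) + ∑ i, (s i).2.2.2 := by
    rw [W_ON_degree, hα, hD2, hsum]
  have htop := htop0 _ hα'
  -- the ideals for `σ ∘ γ` and `γ`
  have hIp : ∀ g : MvPolynomial (SL κ₀ (ks s)) ℚ, g ∈ Ip κ₀ (tw w') γ →
      g ∈ Ip κ₀ (tw w') (σ ∘ γ) := by
    intro g hg
    have e := (h8 (SL κ₀ (ks s)) (SL κ₀ (ks s)) (Fin d) (Fin d) (Equiv.refl _) σ κ₀ (tw w') γ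
      (σ ∘ γ) σ.injective (fun l => rfl) g).2 hg
    have e2 : rename (Equiv.refl (SL κ₀ (ks s))) g = g := by
      simp
    rwa [e2] at e
  -- the scalar
  have hsc : (Dl κ₀ (ks s) * ∏ i, X i ^ (s i).2.2.2 : MvPolynomial (Fin d) ℚ).coeff
      (α.mapDomain σ.symm) = eps κ₀ (ks s) σ *
        (Dl κ₀ (ks s₀) * ∏ i, X (σ i) ^ (s i).2.2.2 : MvPolynomial (Fin d) ℚ).coeff α := by
    rw [← W_ON_rename, map_mul, hD1, map_prod, mul_assoc, coeff_C_mul]
    congr 3
    refine Finset.prod_congr rfl fun i _ => ?_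
    rw [map_pow, rename_X]
  have hHs : Hs V s w' = pr (crs (tw w') γ) * f := by
    rw [hf, ← mul_assoc]; rfl
  have hmain : (Sh (σ ∘ γ) (Hs V s w')).coeff α - C (eps κ₀ (ks s) σ *
      (Dl κ₀ (ks s₀) * ∏ i, X (σ i) ^ (s i).2.2.2 : MvPolynomial (Fin d) ℚ).coeff α) *
        bv V (xs s) w' ∈ Ip κ₀ (tw w') (σ ∘ γ) := by
    have e := Ideal.add_mem _ hon (hIp _ htop)
    rw [hsc, ← hHs, sub_add_sub_cancel] at e
    exact e
  have hβ : fs κ₀ (ks s₀) ∘ h = σ ∘ γ := by
    funext l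
    exact hh l
  have hfin := (h8 (SL κ₀ (ks s)) (SL κ₀ (ks s₀)) (Fin d) (Fin d) h id κ₀ (tw w) (σ ∘ γ)
    (fs κ₀ (ks s₀)) Function.injective_id (fun l => hh l) _).2 hmain
  have hgoal : (Cf α (rel h (Hs V s)) - (eps κ₀ (ks s) σ *
        (Dl κ₀ (ks s₀) * ∏ i, X (σ i) ^ (s i).2.2.2 : MvPolynomial (Fin d) ℚ).coeff α) •
          rel h (bv V (xs s))) w = rename h ((Sh (σ ∘ γ) (Hs V s w')).coeff α -
          C (eps κ₀ (ks s) σ *
      (Dl κ₀ (ks s₀) * ∏ i, X (σ i) ^ (s i).2.2.2 : MvPolynomial (Fin d) ℚ).coeff α) *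
        bv V (xs s) w') := by
    rw [Pi.sub_apply, Pi.smul_apply]
    have e1 : Cf α (rel h (Hs V s)) w = rename h ((Sh (σ ∘ γ) (Hs V s w')).coeff α) := by
      have := (h1 (SL κ₀ (ks s)) (SL κ₀ (ks s₀)) (Fin d) (Fin d)).1 h (fs κ₀ (ks s₀))
        (Hs V s w') α
      rw [hβ] at this
      exact this
    have e2 : rel h (bv V (xs s)) w = rename h (bv V (xs s) w') := rfl
    rw [e1, e2, map_sub, map_mul, rename_C, ← MvPolynomial.smul_eq_C_mul]
  rw [hgoal]
  exact hfin

end Pool.Agent.Work.MP_c41774_al.Full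

end
end

section

/-!
# W_ONE: one word
-/

noncomputable section

namespace Pool.Agent.Work.MP_c41774_al.Full

open Finset MvPolynomial
open Pool.Agent.Work.MP_c41774_al.Wall

theorem W_ONE_rename_pr {L L' : Type} [Fintype L] [DecidableEq L] [Fintype L'] [DecidableEq L']
    (e : L ≃ L') (E : Finset (L × L)) (E' : Finset (L' × L'))
    (h : ∀ p : L × L, p ∈ E ↔ (e p.1, e p.2) ∈ E') :
    rename e (pr E) = pr E' := by
  unfold pr
  rw [map_prod]
  refine Finset.prod_equiv (Equiv.prodCongr e e) (fun p => ?_) (fun p _ => ?_)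
  · exact h p
  · simp

theorem W_ONE_nx {L M : Type} [Fintype L] [DecidableEq L] [Fintype M] [DecidableEq M]
    {d : ℕ} (γ : L → Fin d) (i : Fin d) (g : M ≃ {l // γ l = i}) (τ : L → Bool) (v : Bool) :
    #((univ : Finset M).filter fun a => τ (g a).val = v) = #((blk γ i).filter fun l => τ l = v) := by
  refine Finset.card_bij (fun a _ => (g a).val) ?_ ?_ ?_
  · intro a ha
    simp only [mem_filter, mem_univ, true_and] at ha
    simp only [blk, mem_filter, mem_univ, true_and]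
    exact ⟨(g a).2, ha⟩
  · intro a _ a' _ h
    exact g.injective (Subtype.ext h)
  · intro l hl
    simp only [blk, mem_filter, mem_univ, true_and] at hl
    refine ⟨g.symm ⟨l, hl.1⟩, ?_, ?_⟩
    · simp [hl.2]
    · simp

theorem W_ONE_sum {L M : Type} [Fintype L] [DecidableEq L] [Fintype M] [DecidableEq M]
    {d : ℕ} (γ : L → Fin d) (i : Fin d) (g : M ≃ {l // γ l = i}) :
    ∑ a : M, (X (g a).val : MvPolynomial L ℚ) = ∑ l ∈ blk γ i, X l := by
  refine Finset.sum_bij (fun a _ => (g a).val) ?_ ?_ ?_ ?_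
  · intro a _
    simp only [blk, mem_filter, mem_univ, true_and]
    exact (g a).2
  · intro a _ a' _ h
    exact g.injective (Subtype.ext h)
  · intro l hl
    simp only [blk, mem_filter, mem_univ, true_and] at hl
    exact ⟨g.symm ⟨l, hl⟩, mem_univ _, by simp⟩
  · intro a _
    rfl

theorem W_ONE_size (p q nx ny : ℕ) (hc : Nat.Coprime p q) (hp : 0 < p)
    (h : q * nx = p * ny) : ∃ K, nx = K * p ∧ ny = K * q := by
  have hd : p ∣ nx := by
    refine hc.dvd_of_dvd_mul_left ?_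
    exact ⟨ny, h⟩
  obtain ⟨K, rfl⟩ := hd
  refine ⟨K, Nat.mul_comm _ _, ?_⟩
  refine Nat.eq_of_mul_eq_mul_left hp ?_
  rw [← h]
  ring

theorem pr_W_ONE (h1 : R_SPAN) (h2 : C_REL) : W_ONE := by
  intro b c hb hc κ₀ hcop hp hq L _ _ K n hK w hw f hf
  classical
  have hnx : nx (tw w) univ = K * κ₀.1 := congrArg Prod.fst hw
  have hny : ny (tw w) univ = K * κ₀.2 := congrArg Prod.snd hw
  have hth : th κ₀ (tw w) univ = 0 := by
    simp only [th, hnx, hny]
    push_cast
    ring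
  have hL : Nonempty L := by
    by_contra h
    rw [not_nonempty_iff] at h
    have : nx (tw w) univ = 0 := by
      simp [nx]
    rw [hnx] at this
    exact absurd this (Nat.mul_pos hK hp).ne'
  have hspan := h1 κ₀ hp hq L (tw w) n hth hL f hf
  let Φ : MvPolynomial L ℚ →ₗ[ℚ] Fm b c L := LinearMap.single ℚ (fun _ => MvPolynomial L ℚ) w
  have hΦ : ∀ g, Φ g = Pi.single w g := fun g => rfl
  rw [← hΦ]
  have hmap := Submodule.mem_map_of_mem (f := Φ) hspan
  rw [Submodule.map_sup, Submodule.map_span] at hmap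
  refine (SetLike.le_def.1 (sup_le_sup ?_ ?_)) hmap
  · rw [Submodule.span_le]
    rintro _ ⟨_, ⟨d, γ, m, u, hG, hn, hu, rfl⟩, rfl⟩
    refine Submodule.subset_span ?_
    have hsz : ∀ i, ∃ k : ℕ, nx (tw w) (blk γ i) = (k + 1) * κ₀.1 ∧
        ny (tw w) (blk γ i) = (k + 1) * κ₀.2 := by
      intro i
      obtain ⟨hne, hz⟩ := hG i
      have hz' : κ₀.2 * nx (tw w) (blk γ i) = κ₀.1 * ny (tw w) (blk γ i) := by
        have : (κ₀.2 : ℤ) * nx (tw w) (blk γ i) = κ₀.1 * ny (tw w) (blk γ i) := by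
          have := hz
          simp only [th] at this
          simp only [blk]
          linarith
        exact_mod_cast this
      obtain ⟨Ki, hx, hy⟩ := W_ONE_size κ₀.1 κ₀.2 _ _ hcop hp hz'
      have hpos : Ki ≠ 0 := by
        rintro rfl
        obtain ⟨l, hl⟩ := hne
        have hx0 : nx (tw w) (blk γ i) = 0 := by rw [hx, Nat.zero_mul]
        have hy0 : ny (tw w) (blk γ i) = 0 := by rw [hy, Nat.zero_mul]
        simp only [nx, ny, Finset.card_eq_zero, Finset.filter_eq_empty_iff] at hx0 hy0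
        have h1 := hx0 hl
        have h2 := hy0 hl
        cases h : tw w l
        · exact h2 h
        · exact h1 h
      obtain ⟨k, rfl⟩ := Nat.exists_eq_succ_of_ne_zero hpos
      exact ⟨k, hx, hy⟩
    choose k hkx hky using hsz
    have hcard : ∀ i, Fintype.card (ML κ₀ (k i + 1)) = Fintype.card {l // γ l = i} := by
      intro i
      rw [Fintype.card_subtype, Fintype.card_fin, ← hkx i, ← hky i]
      simp only [nx, ny, blk]
      rw [← Finset.card_filter_add_card_filter_not (s := univ.filter fun l => γ l = i)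
        (p := fun l => tw w l = true)]
      congr 1
      congr 1
      ext l
      simp
    let g : ∀ i, ML κ₀ (k i + 1) ≃ {l // γ l = i} := fun i => Fintype.equivOfCardEq (hcard i)
    let e : SL κ₀ (fun i => k i + 1) ≃ L := (Equiv.sigmaCongrRight g).trans
      (Equiv.sigmaFiberEquiv γ)
    have he : ∀ i a, e ⟨i, a⟩ = (g i a).val := fun i a => rfl
    have hγe : ∀ x, γ (e x) = x.1 := by
      rintro ⟨i, a⟩
      rw [he]
      exact (g i a).2
    let F : ∀ i, Fm b c (ML κ₀ (k i + 1)) := fun i =>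
      rel (g i).symm (Pi.single (fun l : {l // γ l = i} => w l.val) (u i))
    have hFw : ∀ i, F i (fun a => w (g i a).val) = rename (g i).symm (u i) := by
      intro i
      simp only [F, rel]
      congr 1
      have : ((fun a => w (g i a).val) ∘ (g i).symm) = fun l : {l // γ l = i} => w l.val := by
        funext l
        simp
      rw [this, Pi.single_eq_same]
    have hFw' : ∀ i w', w' ≠ (fun a => w (g i a).val) → F i w' = 0 := by
      intro i w' hne
      simp only [F, rel]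
      rw [Pi.single_eq_of_ne, map_zero]
      intro h
      apply hne
      funext a
      have := congrFun h (g i a)
      simpa using this
    refine ⟨d, k, m, e, F, ?_, ?_, ?_⟩
    · exact_mod_cast hn
    · intro i
      constructor
      · obtain ⟨φ, hφ, -, -, -, -, hP⟩ := h2 b c {l // γ l = i} (ML κ₀ (k i + 1)) (g i).symm
        rw [← hP κ₀ 1]
        refine ⟨Pi.single (fun l : {l // γ l = i} => w l.val) (u i), ?_, hφ _⟩
        intro w'
        by_cases h : w' = fun l : {l // γ l = i} => w l.val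
        · subst h
          rw [Pi.single_eq_same]
          exact hu i
        · rw [Pi.single_eq_of_ne h]
          exact Submodule.zero_mem _
      · intro w' hw'
        refine hFw' i w' ?_
        rintro rfl
        apply hw'
        exact Prod.ext ((W_ONE_nx γ i (g i) (tw w) true).trans (hkx i))
          ((W_ONE_nx γ i (g i) (tw w) false).trans (hky i))
    · funext w'
      rw [hΦ]
      by_cases hww : w' = w
      · subst hww
        rw [Pi.single_eq_same]
        simp only [rel, Hg, map_mul, map_prod, map_pow]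
        have e1 : rename e (pr (crs (tw (w' ∘ e)) (fs κ₀ fun i => k i + 1))) =
            pr (crs (tw w') γ) := by
          refine W_ONE_rename_pr e _ _ ?_
          rintro ⟨x, y⟩
          simp only [crs, mem_filter, mem_univ, true_and, hγe, fs, tw, Function.comp]
        have e2 : rename e (bx F (w' ∘ e)) = ∏ i, rename Subtype.val (u i) := by
          simp only [bx, map_prod]
          refine Finset.prod_congr rfl fun i _ => ?_
          have : wb (w' ∘ e) i = fun a => w' (g i a).val := rfl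
          rw [this, hFw, rename_rename, rename_rename]
          congr 2
          funext l
          simp [he]
        have e3 : ∀ i, rename e (za (κ₀ := κ₀) (fun i => k i + 1) i) = zav γ i := by
          intro i
          simp only [za, zav, map_mul, map_sum, rename_C, rename_X, he]
          rw [W_ONE_sum γ i (g i), hcard i, Fintype.card_subtype]
          rfl
        rw [e1, e2]
        simp only [e3]
        rw [Finset.prod_mul_distrib]
        ring
      · rw [Pi.single_eq_of_ne hww]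
        symm
        simp only [rel, Hg]
        have : ∃ l, w' l ≠ w l := by
          by_contra h
          push Not at h
          exact hww (funext h)
        obtain ⟨l, hl⟩ := this
        have hz : bx F (w' ∘ e) = 0 := by
          simp only [bx]
          refine Finset.prod_eq_zero (mem_univ (γ l)) ?_
          rw [hFw' (γ l), map_zero]
          intro h
          have := congrFun h ((g (γ l)).symm ⟨l, rfl⟩)
          simp only [wb, Function.comp, he, Equiv.apply_symm_apply] at this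
          exact hl this
        rw [hz]
        simp
  · rintro _ ⟨g, hg, rfl⟩
    intro w'
    rw [hΦ]
    by_cases h : w' = w
    · subst h
      rw [Pi.single_eq_same]
      exact hg
    · rw [Pi.single_eq_of_ne h]
      exact Submodule.zero_mem _

end Pool.Agent.Work.MP_c41774_al.Full

end
end

section

/-!
# Item W_PRF: relative growth conditions for products of basis elements
-/

noncomputable section

namespace Pool.Agent.Work.MP_c41774_al.Full

open Finset MvPolynomial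
open Pool.Agent.Work.MP_c41774_al.Wall

/-- the average of the variables -/
def W_PRF_av (L : Type) [Fintype L] : MvPolynomial L ℚ :=
  C ((Fintype.card L : ℚ)⁻¹) * ∑ a : L, X a

theorem W_PRF_step (h3 : R_ZPF) (κ₀ : ℕ × ℕ) (L : Type) [Fintype L] [DecidableEq L]
    (τ : L → Bool) (n : ℤ) (f : MvPolynomial L ℚ) (hf : f ∈ Pf κ₀ n τ) :
    W_PRF_av L * f ∈ Pf κ₀ (n + 2) τ := by
  have e : W_PRF_av L * f = ((Fintype.card L : ℚ)⁻¹) • ∑ a : L, X a * f := by
    rw [W_PRF_av, smul_eq_C_mul, mul_assoc, Finset.sum_mul]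
  rw [e]
  exact Submodule.smul_mem _ _ (Submodule.sum_mem _ fun a _ => h3 κ₀ L τ n a f hf)

theorem W_PRF_pow (h3 : R_ZPF) (κ₀ : ℕ × ℕ) (L : Type) [Fintype L] [DecidableEq L]
    (τ : L → Bool) (n : ℤ) (f : MvPolynomial L ℚ) (hf : f ∈ Pf κ₀ n τ) (m : ℕ) :
    W_PRF_av L ^ m * f ∈ Pf κ₀ (n + 2 * m) τ := by
  induction m with
  | zero => simpa using hf
  | succ m ih =>
    have h := W_PRF_step h3 κ₀ L τ _ _ ih
    rw [pow_succ', mul_assoc]
    have e : n + 2 * ((m + 1 : ℕ) : ℤ) = n + 2 * (m : ℤ) + 2 := by push_cast; ring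
    rw [e]
    exact h

theorem pr_W_PRF (h1 : W_GW) (h2 : R_BLK) (h3 : R_ZPF) : W_PRF := by
  intro b c hb hc κ₀ hp hq V d s w hw
  have hG : Good κ₀ (tw w) (fs κ₀ (ks s)) :=
    (h1 b c κ₀ hp hq d (ks s) (fun i => Nat.succ_pos _) w hw).1
  have hf : ∀ i, V.v (ks s i) (xs s i).1 (xs s i).2 (wb w i) ∈
      Pf κ₀ 1 (fun a => tw w ⟨i, a⟩) := fun i => (V.mem _ _ _).2 (wb w i)
  constructor
  · have h := h2 κ₀ hp hq d (fun i => ML κ₀ (ks s i)) (tw w) (fun i => 1 + 2 * ((ms s i : ℕ) : ℤ))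
      (fun i => W_PRF_av (ML κ₀ (ks s i)) ^ (ms s i) *
        V.v (ks s i) (xs s i).1 (xs s i).2 (wb w i)) hG
      (fun i => W_PRF_pow h3 κ₀ _ _ 1 _ (hf i) (ms s i))
    have e1 : ∏ i, rename (Sigma.mk i) (W_PRF_av (ML κ₀ (ks s i)) ^ (ms s i) *
        V.v (ks s i) (xs s i).1 (xs s i).2 (wb w i)) =
        bv V (xs s) w * ∏ i, za (ks s) i ^ (ms s i) := by
      rw [mul_comm]
      unfold bv bx
      rw [← Finset.prod_mul_distrib]
      refine Finset.prod_congr rfl fun i _ => ?_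
      rw [map_mul, map_pow]
      congr 2
      unfold W_PRF_av za
      rw [map_mul, map_sum, rename_C]
      simp only [rename_X]
    have e2 : ∑ i, (1 + 2 * ((ms s i : ℕ) : ℤ)) = ((wt s : ℕ) : ℤ) := by
      unfold wt ms
      rw [Finset.sum_add_distrib, ← Finset.mul_sum]
      simp
    rw [e1, e2] at h
    exact h
  · intro α hα
    have h := h2 κ₀ hp hq d (fun i => ML κ₀ (ks s i)) (tw w) (fun _ => 1)
      (fun i => V.v (ks s i) (xs s i).1 (xs s i).2 (wb w i)) hG hf
    refine h d (fs κ₀ (ks s)) id hG (fun _ => rfl) α ?_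
    have hd : α.degree ≠ 0 := fun h0 => hα ((Finsupp.degree_eq_zero_iff α).1 h0)
    have hd' : 0 < α.degree := Nat.pos_of_ne_zero hd
    have e : dege (tw w) (fs κ₀ (ks s)) = dege (tw w) (Sigma.fst (α := Fin d)
      (β := fun i => ML κ₀ (ks s i))) := rfl
    rw [e]
    simp only [sub_self, zero_add, Finset.sum_const, Finset.card_univ, Fintype.card_fin,
      nsmul_eq_mul, mul_one]
    omega

end Pool.Agent.Work.MP_c41774_al.Full

end
end
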