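import Pool.Agent.Work.MP_c41774_al.Bd.B05

/-! Bundle of small proof modules (one section per former module). -/

section

/-!
# W_RED: reduction to representatives
-/

noncomputable section

namespace Pool.Agent.Work.MP_c41774_al.Full

open Finset MvPolynomial

variable {b c : ℕ} {κ₀ : ℕ × ℕ}

theorem W_RED_ks {d : ℕ} {s s' : Fin d → Gn b c κ₀} {σ : Equiv.Perm (Fin d)}
    (h : ∀ i, s' i = s (σ i)) : ∀ i, ks s' i = ks s (σ i) := by
  intro i
  show (s' i).1 + 1 = (s (σ i)).1 + 1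
  rw [h i]

theorem W_RED_wt {d : ℕ} {s s' : Fin d → Gn b c κ₀} {σ : Equiv.Perm (Fin d)}
    (h : ∀ i, s' i = s (σ i)) : wt s' = wt s := by
  unfold wt
  have : ∑ i, (s' i).2.2.2 = ∑ i, (s i).2.2.2 := by
    rw [← Equiv.sum_comp σ (fun i => (s i).2.2.2)]
    exact Finset.sum_congr rfl fun i _ => by rw [h i]
  rw [this]

theorem W_RED_tsz {d : ℕ} {s s' : Fin d → Gn b c κ₀} {σ : Equiv.Perm (Fin d)}
    (h : ∀ i, s' i = s (σ i)) : tsz s' = tsz s := by
  unfold tsz
  rw [← Equiv.sum_comp σ (ks s)]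
  exact Finset.sum_congr rfl fun i _ => W_RED_ks h i

theorem W_RED_tdg (h5 : W_DLS) {d : ℕ} {s s' : Fin d → Gn b c κ₀} {σ : Equiv.Perm (Fin d)}
    (h : ∀ i, s' i = s (σ i)) : tdg s' = tdg s := by
  unfold tdg
  have h1 : ∑ i, (s' i).2.2.2 = ∑ i, (s i).2.2.2 := by
    rw [← Equiv.sum_comp σ (fun i => (s i).2.2.2)]
    exact Finset.sum_congr rfl fun i _ => by rw [h i]
  have h2 : ∑ i, (s' i).2.1 = ∑ i, (s i).2.1 := by
    rw [← Equiv.sum_comp σ (fun i => (s i).2.1)]
    exact Finset.sum_congr rfl fun i _ => by rw [h i]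
  have h3 : Ek κ₀ (ks s') = Ek κ₀ (ks s) := (h5 κ₀ d (ks s') (ks s) σ (W_RED_ks h)).2.1
  rw [h1, h2, h3]

theorem pr_W_RED (h1 : W_SPAN) (h2 : W_MEM) (h3 : W_SWF) (h4 : W_ODD) (h5 : W_DLS) : W_RED := by
  intro b c hb hc κ₀ hco hp hq V L _ _ K j hK ι d s e hrep n
  induction n using Nat.strong_induction_on with
  | _ n ih =>
  intro F hF
  set T := Submodule.span ℚ (Set.range fun x => Fs V (s x) (e x)) ⊔ vin (IpS L κ₀) with hT
  have hspan := h1 b c hb hc κ₀ hco hp hq V L K n j hK F hF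
  refine (sup_le (Submodule.span_le.2 ?_) le_sup_right : _ ≤ T) hspan
  rintro G ⟨d', s', e', hwt, htdg, htsz, rfl⟩
  show Fs V s' e' ∈ T
  have hd' : 0 < d' := by
    rcases Nat.eq_zero_or_pos d' with h | h
    · subst h
      simp [tsz] at htsz
      omega
    · exact h
  have hwt1 : 1 ≤ wt s' := by
    unfold wt
    omega
  have hcast : ((wt s' - 1 : ℕ) : ℤ) = (wt s' : ℤ) - 1 := by
    push_cast [Nat.cast_sub hwt1]
    ring
  have hmem' := (h2 b c hb hc κ₀ hp hq V d' s' L e').2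
  rw [htsz, htdg] at hmem'
  have hVV' : Fs V s' e' ∈ VV b c L (K * κ₀.1, K * κ₀.2) j := hmem'.1
  by_cases hA : Adm s'
  · obtain ⟨x, σ, hσ⟩ := hrep d' s' hA htsz htdg
    have hd : d' = d x := by simpa using Fintype.card_congr σ
    subst hd
    obtain ⟨ε, hε⟩ := h3 b c hb hc κ₀ hp hq V (d x) (s x) s' σ hσ L (e x) e'
    have hwtx : wt s' = wt (s x) := W_RED_wt hσ
    have htszx : tsz s' = tsz (s x) := W_RED_tsz hσ
    have htdgx : tdg s' = tdg (s x) := W_RED_tdg h5 hσ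
    have hmemx := (h2 b c hb hc κ₀ hp hq V (d x) (s x) L (e x)).2
    rw [← htszx, ← htdgx, htsz, htdg] at hmemx
    have hVVx : Fs V (s x) (e x) ∈ VV b c L (K * κ₀.1, K * κ₀.2) j := hmemx.1
    rw [← hwtx, ← hcast] at hε
    have hdiff : Fs V s' e' - ε • Fs V (s x) (e x) ∈ T := by
      apply ih (wt s' - 1) (by omega)
      exact ⟨Submodule.sub_mem _ hVV' (Submodule.smul_mem _ _ hVVx), hε⟩
    have hx : Fs V (s x) (e x) ∈ T :=
      (le_sup_left : _ ≤ T) (Submodule.subset_span ⟨x, rfl⟩)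
    have := Submodule.add_mem _ hdiff (Submodule.smul_mem _ ε hx)
    simpa using this
  · have hodd := h4 b c hb hc κ₀ hp hq V d' s' hA L e'
    rw [← hcast] at hodd
    exact ih (wt s' - 1) (by omega) _ ⟨hVV', hodd⟩

end Pool.Agent.Work.MP_c41774_al.Full

end
end

section

/-!
# Item W_RELA: relabelling and the signed average
-/

noncomputable section

namespace Pool.Agent.Work.MP_c41774_al.Full

open Finset MvPolynomial
open Pool.Agent.Work.MP_c41774_al.Wall

theorem W_RELA_trans {b c : ℕ} {L L' L'' : Type} (e : L ≃ L') (e' : L' ≃ L'') (F : Fm b c L) :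
    rel e' (rel e F) = rel (e.trans e') F := by
  funext w
  show rename e' (rename e (F ((w ∘ e') ∘ e))) = rename (e.trans e') (F (w ∘ (e.trans e')))
  rw [rename_rename]
  rfl

theorem W_RELA_act {b c : ℕ} {L L' : Type} (e : L ≃ L') (g : Equiv.Perm L) (F : Fm b c L) :
    rel e (act g F) = act ((e.symm.trans g).trans e) (rel e F) := by
  show rel e (rel g F) = rel ((e.symm.trans g).trans e) (rel e F)
  rw [W_RELA_trans, W_RELA_trans]
  congr 1
  ext x
  simp

theorem W_RELA_av {b c : ℕ} {L L' : Type} [Fintype L] [DecidableEq L] [Fintype L']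
    [DecidableEq L'] (e : L ≃ L') (F : Fm b c L) : rel e (Av F) = Av (rel e F) := by
  have hcard : Fintype.card (Equiv.Perm L) = Fintype.card (Equiv.Perm L') :=
    Fintype.card_congr (Equiv.permCongr e)
  funext w
  have h1 : rel e (Av F) w = ((Fintype.card (Equiv.Perm L) : ℚ)⁻¹) •
      ∑ g : Equiv.Perm L, sg g • (rel e (act g F)) w := by
    show rename e ((((Fintype.card (Equiv.Perm L) : ℚ)⁻¹) •
      ∑ g : Equiv.Perm L, sg g • act g F) (w ∘ e)) = _
    rw [Pi.smul_apply, Finset.sum_apply, map_smul, map_sum]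
    congr 1
    refine Finset.sum_congr rfl fun g _ => ?_
    rw [Pi.smul_apply, map_smul]
    rfl
  have h2 : Av (rel e F) w = ((Fintype.card (Equiv.Perm L') : ℚ)⁻¹) •
      ∑ g : Equiv.Perm L', sg g • (act g (rel e F)) w := by
    show (((Fintype.card (Equiv.Perm L') : ℚ)⁻¹) •
      ∑ g : Equiv.Perm L', sg g • act g (rel e F)) w = _
    rw [Pi.smul_apply, Finset.sum_apply]
    rfl
  rw [h1, h2, hcard]
  congr 1
  refine Fintype.sum_equiv (Equiv.permCongr e) _ _ fun g => ?_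
  have h3 : sg (Equiv.permCongr e g) = sg g := by
    unfold sg
    rw [Equiv.Perm.sign_permCongr]
  rw [h3, W_RELA_act]
  rfl

theorem pr_W_RELA : W_RELA := by
  intro b c L L' L'' _ _ _ _ _ _ e e' F
  exact ⟨W_RELA_trans e e' F, fun g => W_RELA_act e g F, fun _ => rfl, W_RELA_av e F⟩

end Pool.Agent.Work.MP_c41774_al.Full

end
end

section

/-!
# Item W_RELB: relabelling a block product
-/

noncomputable section

namespace Pool.Agent.Work.MP_c41774_al.Full

open Finset MvPolynomial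
open Pool.Agent.Work.MP_c41774_al.Wall

theorem pr_W_RELB : W_RELB := by
  intro b c d M M' _ _ _ _ g F
  funext w
  show rename (Equiv.sigmaCongrRight g)
    (∏ i, rename (Sigma.mk i) (F i (wb (w ∘ Equiv.sigmaCongrRight g) i))) =
      ∏ i, rename (Sigma.mk i) (rename (g i) (F i (wb w i ∘ g i)))
  rw [map_prod]
  refine Finset.prod_congr rfl fun i _ => ?_
  rw [rename_rename, rename_rename]
  rfl

end Pool.Agent.Work.MP_c41774_al.Full

end
end

section

/-!
# Block P, item W_RELP: block permutations of the elements `Hs`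
-/

noncomputable section

namespace Pool.Agent.Work.MP_c41774_al.Full

open Finset MvPolynomial
open Pool.Agent.Work.MP_c41774_al.Wall

theorem W_RELP_apply {b c : ℕ} {κ₀ : ℕ × ℕ} {d : ℕ} (s : Fin d → Gn b c κ₀)
    (σ : Equiv.Perm (Fin d)) (h' : ∀ i, ks (s ∘ σ) i = ks s (σ i)) (i : Fin d)
    (a : ML κ₀ (ks (s ∘ σ) i)) : bpe κ₀ σ h' ⟨i, a⟩ = ⟨σ i, a⟩ := rfl

theorem W_RELP_bv {b c : ℕ} {κ₀ : ℕ × ℕ} (V : BBas b c κ₀) {d : ℕ} (s : Fin d → Gn b c κ₀)
    (σ : Equiv.Perm (Fin d)) (h' : ∀ i, ks (s ∘ σ) i = ks s (σ i))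
    (w : SL κ₀ (ks s) → Col b c) :
    rename (bpe κ₀ σ h') (bv V (xs (s ∘ σ)) (w ∘ bpe κ₀ σ h')) = bv V (xs s) w := by
  unfold bv bx
  rw [map_prod, ← Equiv.prod_comp σ (fun i => rename (Sigma.mk i)
    ((fun i => V.v (ks s i) (xs s i).1 (xs s i).2) i (wb w i)))]
  refine Finset.prod_congr rfl fun i _ => ?_
  rw [rename_rename]
  rfl

theorem W_RELP_pr {b c : ℕ} {κ₀ : ℕ × ℕ} {d : ℕ} (s : Fin d → Gn b c κ₀)
    (σ : Equiv.Perm (Fin d)) (h' : ∀ i, ks (s ∘ σ) i = ks s (σ i))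
    (w : SL κ₀ (ks s) → Col b c) :
    rename (bpe κ₀ σ h') (pr (crs (tw (w ∘ bpe κ₀ σ h')) (fs κ₀ (ks (s ∘ σ))))) =
      pr (crs (tw w) (σ.symm ∘ fs κ₀ (ks s))) := by
  have hfs : ∀ l, fs κ₀ (ks s) (bpe κ₀ σ h' l) = σ (fs κ₀ (ks (s ∘ σ)) l) := fun l => rfl
  unfold pr
  rw [map_prod]
  refine Finset.prod_nbij' (fun x => (bpe κ₀ σ h' x.1, bpe κ₀ σ h' x.2))
    (fun x => ((bpe κ₀ σ h').symm x.1, (bpe κ₀ σ h').symm x.2)) ?_ ?_ ?_ ?_ ?_
  · rintro ⟨x, y⟩ hx
    simp only [crs, mem_filter, mem_univ, true_and, tw, Function.comp_apply] at hx ⊢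
    rw [hfs, hfs, Equiv.symm_apply_apply, Equiv.symm_apply_apply]
    exact hx
  · rintro ⟨x, y⟩ hx
    obtain ⟨x, rfl⟩ := (bpe κ₀ σ h').surjective x
    obtain ⟨y, rfl⟩ := (bpe κ₀ σ h').surjective y
    simp only [crs, mem_filter, mem_univ, true_and, tw, Function.comp_apply] at hx ⊢
    rw [hfs, hfs, Equiv.symm_apply_apply, Equiv.symm_apply_apply] at hx
    rw [Equiv.symm_apply_apply, Equiv.symm_apply_apply]
    exact hx
  · rintro ⟨x, y⟩ _
    simp
  · rintro ⟨x, y⟩ _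
    simp
  · rintro ⟨x, y⟩ _
    simp

theorem W_RELP_za {b c : ℕ} {κ₀ : ℕ × ℕ} {d : ℕ} (s : Fin d → Gn b c κ₀)
    (σ : Equiv.Perm (Fin d)) (h' : ∀ i, ks (s ∘ σ) i = ks s (σ i)) (i : Fin d) :
    rename (bpe κ₀ σ h') (za (ks (s ∘ σ)) i) = za (ks s) (σ i) := by
  unfold za
  rw [map_mul, rename_C, map_sum]
  congr 1
  refine Finset.sum_congr rfl fun a _ => ?_
  rw [rename_X]
  rfl

theorem pr_W_RELP : W_RELP := by
  intro b c κ₀ V d d' s s' σ h h'
  obtain rfl : d' = d := Fin.equiv_iff_eq.mp ⟨σ⟩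
  obtain rfl : s' = s ∘ σ := funext h
  refine ⟨?_, ?_⟩
  · funext w
    exact W_RELP_bv V s σ h' w
  · funext w
    show rename (bpe κ₀ σ h') (pr (crs (tw (w ∘ bpe κ₀ σ h')) (fs κ₀ (ks (s ∘ σ)))) *
      bv V (xs (s ∘ σ)) (w ∘ bpe κ₀ σ h') * ∏ i, za (ks (s ∘ σ)) i ^ (ms (s ∘ σ) i)) = _
    rw [map_mul, map_mul, W_RELP_pr, W_RELP_bv, map_prod]
    congr 1
    rw [← Equiv.prod_comp σ (fun i => za (ks s) i ^ (ms s i))]
    refine Finset.prod_congr rfl fun i _ => ?_
    rw [map_pow, W_RELP_za]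
    rfl

end Pool.Agent.Work.MP_c41774_al.Full

end
end

section

/-!
# W_SGB: signs inside the blocks
-/

noncomputable section

namespace Pool.Agent.Work.MP_c41774_al.Full

theorem W_SGB_sign (d : ℕ) (M : Fin d → Type) [∀ i, Fintype (M i)] [∀ i, DecidableEq (M i)]
    (g : ∀ i, Equiv.Perm (M i)) :
    Equiv.Perm.sign (Equiv.sigmaCongrRight g : Equiv.Perm (Σ i, M i)) =
      ∏ i, Equiv.Perm.sign (g i) := by
  let φ : (∀ i, Equiv.Perm (M i)) →* ℤˣ :=
    (Equiv.Perm.sign (α := Σ i, M i)).comp (Equiv.Perm.sigmaCongrRightHom M)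
  let ψ : (∀ i, Equiv.Perm (M i)) →* ℤˣ :=
    { toFun := fun g => ∏ i, Equiv.Perm.sign (g i)
      map_one' := by simp
      map_mul' := by
        intro x y
        simp [Finset.prod_mul_distrib] }
  have h : φ = ψ := by
    apply MonoidHom.pi_ext
    intro i x
    have h1 : (Equiv.Perm.sigmaCongrRightHom M (Pi.mulSingle i x) : Equiv.Perm (Σ i, M i)) =
        x.viaFintypeEmbedding ⟨Sigma.mk i, sigma_mk_injective⟩ := by
      ext1 ⟨j, a⟩
      by_cases hj : j = i
      · subst hj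
        have := Equiv.Perm.viaFintypeEmbedding_apply_image x
          (⟨Sigma.mk j, sigma_mk_injective⟩ : M j ↪ Σ i, M i) a
        simp only [Function.Embedding.coeFn_mk] at this
        rw [this]
        simp
      · rw [Equiv.Perm.viaFintypeEmbedding_apply_notMem_range]
        · simp [Pi.mulSingle_eq_of_ne hj]
        · rintro ⟨b, hb⟩
          exact hj (congrArg Sigma.fst hb).symm
    have h2 : ψ (Pi.mulSingle i x) = Equiv.Perm.sign x := by
      show ∏ j, Equiv.Perm.sign ((Pi.mulSingle i x : ∀ i, Equiv.Perm (M i)) j) = _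
      rw [Finset.prod_eq_single i]
      · simp
      · intro j _ hj
        simp [Pi.mulSingle_eq_of_ne hj]
      · simp
    rw [h2]
    show Equiv.Perm.sign (Equiv.Perm.sigmaCongrRightHom M (Pi.mulSingle i x)) = _
    rw [h1, Equiv.Perm.viaFintypeEmbedding_sign]
  exact DFunLike.congr_fun h g

theorem pr_W_SGB : W_SGB := by
  intro d M _ _ g
  unfold sg
  rw [W_SGB_sign]
  push_cast
  rfl

end Pool.Agent.Work.MP_c41774_al.Full

end
end

section

/-!
# Block P, item W_SGN: the sign of a block permutation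
-/

noncomputable section

namespace Pool.Agent.Work.MP_c41774_al.Full

open Finset MvPolynomial
open Pool.Agent.Work.MP_c41774_al.Wall

/-- the sign of a permutation as a product over pairs, for an arbitrary linear order -/
theorem W_SGN_sign {α β : Type} [Fintype α] [DecidableEq α] [Fintype β] [LinearOrder β]
    (e : α ≃ β) (p : Equiv.Perm α) : Equiv.Perm.sign p =
      ∏ x, ∏ y, if e x < e y then (if e (p x) < e (p y) then 1 else -1) else (1 : ℤˣ) := by
  let o : Fin (Fintype.card β) ≃o β := Fintype.orderIsoFinOfCardEq β rfl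
  let f : α ≃ Fin (Fintype.card β) := e.trans o.symm.toEquiv
  have hf : ∀ x y, f x < f y ↔ e x < e y := fun x y => o.symm.lt_iff_lt
  rw [← Equiv.Perm.sign_permCongr f p, Equiv.Perm.sign_eq_prod_prod_Ioi,
    ← Equiv.prod_comp f]
  refine Finset.prod_congr rfl fun x _ => ?_
  have h1 : Ioi (f x) = univ.filter fun j => f x < j := by ext j; simp
  rw [h1, Finset.prod_filter, ← Equiv.prod_comp f]
  refine Finset.prod_congr rfl fun y _ => ?_
  simp only [hf, Equiv.permCongr_apply, Equiv.symm_apply_apply]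

theorem W_SGN_lt {d : ℕ} {n : Fin d → ℕ} (x y : Σ i, Fin (n i)) (h : x.1 ≠ y.1) :
    (toLex x < toLex y) ↔ x.1 < y.1 := by
  rw [Sigma.Lex.lt_def]
  constructor
  · rintro (h1 | ⟨h1, -⟩)
    · exact h1
    · exact absurd h1 h
  · exact Or.inl

theorem W_SGN_lt' {d : ℕ} {n : Fin d → ℕ} (i : Fin d) (a b : Fin (n i)) :
    (toLex (⟨i, a⟩ : Σ i, Fin (n i)) < toLex ⟨i, b⟩) ↔ a < b := by
  rw [Sigma.Lex.lt_def]
  constructor
  · rintro (h1 | ⟨h0, h2⟩)
    · exact absurd h1 (lt_irrefl _)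
    · exact h2
  · exact fun h => Or.inr ⟨rfl, h⟩

theorem pr_W_SGN : W_SGN := by
  intro κ₀ d k σ h
  rw [sg, W_SGN_sign (toLex : (Σ i, ML κ₀ (k i)) ≃ Σₗ i, ML κ₀ (k i))]
  have key : ∀ (i : Fin d) (a : ML κ₀ (k i)) (j : Fin d) (b : ML κ₀ (k j)),
      (if toLex (⟨i, a⟩ : SL κ₀ k) < toLex ⟨j, b⟩ then
        (if toLex (bpe κ₀ σ h ⟨i, a⟩) < toLex (bpe κ₀ σ h ⟨j, b⟩) then 1 else -1) else (1 : ℤˣ)) =
      if i < j ∧ σ j < σ i then -1 else 1 := by
    intro i a j b
    have hb : ∀ (i : Fin d) (a : ML κ₀ (k i)),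
        bpe κ₀ σ h ⟨i, a⟩ = ⟨σ i, finCongr (by rw [h i]) a⟩ := fun i a => rfl
    by_cases hij : i = j
    · subst hij
      rw [if_neg (c := i < i ∧ σ i < σ i) (fun hc => lt_irrefl _ hc.1)]
      have hP := W_SGN_lt' (n := fun i => k i * κ₀.1 + k i * κ₀.2) i a b
      by_cases hab : a < b
      · rw [if_pos (hP.mpr hab), if_pos]
        rw [hb, hb]
        exact (W_SGN_lt' (n := fun i => k i * κ₀.1 + k i * κ₀.2) (σ i) _ _).mpr hab
      · rw [if_neg (fun hc => hab (hP.mp hc))]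
    · have hσ : σ i ≠ σ j := fun hc => hij (σ.injective hc)
      have hP := W_SGN_lt (n := fun i => k i * κ₀.1 + k i * κ₀.2) ⟨i, a⟩ ⟨j, b⟩ hij
      have hQ : toLex (bpe κ₀ σ h ⟨i, a⟩) < toLex (bpe κ₀ σ h ⟨j, b⟩) ↔ σ i < σ j :=
        W_SGN_lt (n := fun i => k i * κ₀.1 + k i * κ₀.2) (bpe κ₀ σ h ⟨i, a⟩) (bpe κ₀ σ h ⟨j, b⟩) hσ
      by_cases h1 : i < j
      · rw [if_pos (hP.mpr h1)]
        by_cases h2 : σ i < σ j
        · rw [if_pos (hQ.mpr h2), if_neg (fun hc => lt_asymm h2 hc.2)]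
        · rw [if_neg (fun hc => h2 (hQ.mp hc)), if_pos ⟨h1, lt_of_le_of_ne (not_lt.mp h2) hσ.symm⟩]
      · rw [if_neg (fun hc => h1 (hP.mp hc)), if_neg (fun hc => h1 hc.1)]
  rw [Fintype.prod_sigma]
  have e1 : ∀ i : Fin d, (∏ a : ML κ₀ (k i), ∏ y : SL κ₀ k,
      if toLex (⟨i, a⟩ : SL κ₀ k) < toLex y then
        (if toLex (bpe κ₀ σ h ⟨i, a⟩) < toLex (bpe κ₀ σ h y) then 1 else -1) else (1 : ℤˣ)) =
      ∏ j ∈ (Ioi i).filter (fun j => σ j < σ i),
        (-1 : ℤˣ) ^ ((k i * κ₀.1 + k i * κ₀.2) * (k j * κ₀.1 + k j * κ₀.2)) := by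
    intro i
    have e2 : ∀ a : ML κ₀ (k i), (∏ y : SL κ₀ k,
        if toLex (⟨i, a⟩ : SL κ₀ k) < toLex y then
          (if toLex (bpe κ₀ σ h ⟨i, a⟩) < toLex (bpe κ₀ σ h y) then 1 else -1) else (1 : ℤˣ)) =
        ∏ j, (if i < j ∧ σ j < σ i then -1 else (1 : ℤˣ)) ^ (k j * κ₀.1 + k j * κ₀.2) := by
      intro a
      rw [Fintype.prod_sigma]
      refine Finset.prod_congr rfl fun j _ => ?_
      rw [Finset.prod_congr rfl fun b _ => key i a j b, Finset.prod_const, Finset.card_univ,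
        Fintype.card_fin]
    rw [Finset.prod_congr rfl fun a _ => e2 a, Finset.prod_const, Finset.card_univ,
      Fintype.card_fin, ← Finset.prod_pow, Finset.prod_filter]
    have h1 : Ioi i = univ.filter fun j => i < j := by ext j; simp
    rw [h1, Finset.prod_filter]
    refine Finset.prod_congr rfl fun j _ => ?_
    rw [← pow_mul, mul_comm (k j * κ₀.1 + k j * κ₀.2)]
    by_cases h2 : i < j
    · by_cases h3 : σ j < σ i
      · rw [if_pos ⟨h2, h3⟩, if_pos h2, if_pos h3]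
      · rw [if_neg (fun hc => h3 hc.2), if_pos h2, if_neg h3, one_pow]
    · rw [if_neg (fun hc => h2 hc.1), if_neg h2, one_pow]
  rw [Finset.prod_congr rfl fun i _ => e1 i]
  push_cast
  rfl

end Pool.Agent.Work.MP_c41774_al.Full

end
end

section

/-!
# Item W_SHR: shifts and relabelling
-/

noncomputable section

namespace Pool.Agent.Work.MP_c41774_al.Full

open Finset MvPolynomial
open Pool.Agent.Work.MP_c41774_al.Wall

section

variable {L L' : Type} [Fintype L] [DecidableEq L] [Fintype L'] [DecidableEq L']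
  {D D' : Type} [DecidableEq D] [DecidableEq D']

theorem W_SHR_C (β : L → D) (r : ℚ) : Sh β (C r) = C (C r) := by
  unfold Sh
  rw [aeval_C]
  rfl

theorem W_SHR_X (β : L → D) (l : L) : Sh β (X l) = C (X l) + X (β l) := by
  unfold Sh
  rw [aeval_X]

theorem W_SHR_1 (e : L ≃ L') (β : L' → D) (f : MvPolynomial L ℚ) :
    Sh β (rename e f) = MvPolynomial.map (rename e : MvPolynomial L ℚ →ₐ[ℚ] _).toRingHom
      (Sh (β ∘ e) f) := by
  induction f using MvPolynomial.induction_on with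
  | C a =>
    rw [rename_C, W_SHR_C, W_SHR_C, map_C]
    congr 1
    exact (rename_C e a).symm
  | add p q hp hq => rw [map_add, map_add, map_add, map_add, hp, hq]
  | mul_X p l hp =>
    rw [map_mul, map_mul, map_mul, map_mul, hp, rename_X, W_SHR_X, W_SHR_X, map_add, map_C, map_X]
    congr 3
    exact (rename_X e l).symm

theorem W_SHR_2 (σ : D ≃ D') (β : L → D) (f : MvPolynomial L ℚ) :
    Sh (σ ∘ β) f = rename σ (Sh β f) := by
  induction f using MvPolynomial.induction_on with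
  | C a => rw [W_SHR_C, W_SHR_C, rename_C]
  | add p q hp hq => rw [map_add, map_add, map_add, hp, hq]
  | mul_X p l hp =>
    rw [map_mul, map_mul, map_mul, hp, W_SHR_X, W_SHR_X, map_add, rename_C, rename_X]
    rfl

theorem W_SHR_3 (β : L → D) (f : MvPolynomial L ℚ) : (Sh β f).coeff 0 = f := by
  rw [← constantCoeff_eq]
  induction f using MvPolynomial.induction_on with
  | C a => rw [W_SHR_C, constantCoeff_C]
  | add p q hp hq => rw [map_add, map_add, hp, hq]
  | mul_X p l hp =>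
    rw [map_mul, map_mul, hp, W_SHR_X, map_add, constantCoeff_C, constantCoeff_X, add_zero]

end

theorem pr_W_SHR : W_SHR := by
  intro L L' _ _ _ _ D D' _ _
  refine ⟨fun e β f α => ?_, fun σ β f => W_SHR_2 σ β f, fun β f => W_SHR_3 β f⟩
  rw [W_SHR_1, coeff_map]
  rfl

end Pool.Agent.Work.MP_c41774_al.Full

end
end

section

noncomputable section

namespace Pool.Agent.Work.MP_c41774_al.Full

open Finset MvPolynomial
open Pool.Agent.Work.MP_c41774_al.Wall

section aux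

variable {b c : ℕ} {L : Type} [Fintype L] [DecidableEq L]

theorem W_SPAN_act_add (g : Equiv.Perm L) (F G : Fm b c L) :
    act g (F + G) = act g F + act g G := by
  funext w; simp [act]

theorem W_SPAN_act_smul (g : Equiv.Perm L) (r : ℚ) (F : Fm b c L) :
    act g (r • F) = r • act g F := by
  funext w; simp [act]

/-- the signed average as a linear map -/
def W_SPAN_Av (b c : ℕ) (L : Type) [Fintype L] [DecidableEq L] : Fm b c L →ₗ[ℚ] Fm b c L where
  toFun := Av
  map_add' F G := by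
    simp only [Av, W_SPAN_act_add, smul_add, Finset.sum_add_distrib]
  map_smul' r F := by
    simp only [Av, W_SPAN_act_smul, RingHom.id_apply]
    have h : (∑ g : Equiv.Perm L, sg g • r • act g F) = r • ∑ g : Equiv.Perm L, sg g • act g F := by
      rw [Finset.smul_sum]
      refine Finset.sum_congr rfl fun g _ => ?_
      rw [smul_comm]
    rw [h, smul_comm]

theorem W_SPAN_Av_apply (F : Fm b c L) : W_SPAN_Av b c L F = Av F := rfl

theorem W_SPAN_Av_mem (F : Fm b c L) (I : Submodule ℚ (Fm b c L))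
    (h : ∀ g : Equiv.Perm L, act g F ∈ I) : Av F ∈ I :=
  Submodule.smul_mem _ _ (Submodule.sum_mem _ fun g _ => Submodule.smul_mem _ _ (h g))

theorem W_SPAN_nx (g : Equiv.Perm L) (w : L → Col b c) (x : Bool) :
    #(univ.filter fun l => tw (w ∘ g) l = x) = #(univ.filter fun l => tw w l = x) := by
  refine Finset.card_bij (fun l _ => g l) ?_ ?_ ?_
  · intro l hl
    simp only [mem_filter, mem_univ, true_and] at hl ⊢
    exact hl
  · intro l _ l' _ h; exact g.injective h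
  · intro l hl
    refine ⟨g.symm l, ?_, by simp⟩
    simp only [mem_filter, mem_univ, true_and, tw, Function.comp, Equiv.apply_symm_apply] at hl ⊢
    exact hl

theorem W_SPAN_chg (g : Equiv.Perm L) (w : L → Col b c) : chg (w ∘ g) = chg w := by
  unfold chg nx ny
  rw [W_SPAN_nx g w true, W_SPAN_nx g w false]

theorem W_SPAN_card (w : L → Col b c) : (chg w).1 + (chg w).2 = Fintype.card L := by
  unfold chg nx ny
  simp only
  have h := Finset.card_filter_add_card_filter_not (s := (univ : Finset L))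
    (fun l => tw w l = true)
  rw [Finset.card_univ] at h
  rw [← h]
  congr 2
  ext l
  simp

/-- weight of a word -/
def W_SPAN_cw (w : L → Col b c) : ℕ := ∑ l, cwt b c (w l)

/-- projection to degree `j` -/
def W_SPAN_pi (b c : ℕ) (L : Type) [Fintype L] [DecidableEq L] (j : ℕ) :
    Fm b c L →ₗ[ℚ] Fm b c L where
  toFun F := fun w =>
    if 2 * b * c * ((j - W_SPAN_cw w) / (2 * b * c)) + W_SPAN_cw w = j then
      homogeneousComponent ((j - W_SPAN_cw w) / (2 * b * c)) (F w) else 0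
  map_add' F G := by
    funext w
    simp only [Pi.add_apply, map_add]
    split_ifs <;> simp
  map_smul' r F := by
    funext w
    simp only [Pi.smul_apply, RingHom.id_apply, map_smul]
    split_ifs <;> simp

theorem W_SPAN_pi_apply (j : ℕ) (F : Fm b c L) (w : L → Col b c) :
    W_SPAN_pi b c L j F w =
      if 2 * b * c * ((j - W_SPAN_cw w) / (2 * b * c)) + W_SPAN_cw w = j then
      homogeneousComponent ((j - W_SPAN_cw w) / (2 * b * c)) (F w) else 0 := rfl

theorem W_SPAN_pi_self (hb : 0 < b) (hc : 0 < c) (j : ℕ) (F : Fm b c L)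
    (hF : ∀ w, ∀ m ∈ (F w).support, 2 * b * c * m.degree + ∑ l, cwt b c (w l) = j) :
    W_SPAN_pi b c L j F = F := by
  have hbc : 0 < 2 * b * c := by positivity
  funext w
  rw [W_SPAN_pi_apply]
  by_cases h0 : F w = 0
  · rw [h0]; simp
  · obtain ⟨m, hm⟩ := MvPolynomial.support_nonempty.mpr h0
    have h1 := hF w m hm
    have h2 : (j - W_SPAN_cw w) / (2 * b * c) = m.degree := by
      have : j - W_SPAN_cw w = 2 * b * c * m.degree := by
        unfold W_SPAN_cw; omega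
      rw [this, Nat.mul_div_cancel_left _ hbc]
    rw [h2, if_pos (by unfold W_SPAN_cw; exact h1)]
    ext u
    rw [coeff_homogeneousComponent]
    split_ifs with hu
    · rfl
    · by_contra hne
      apply hu
      have hus : u ∈ (F w).support := by
        rw [mem_support_iff]; exact fun h => hne h.symm
      have h3 := hF w u hus
      have h4 : 2 * b * c * u.degree = 2 * b * c * m.degree := by omega
      exact Nat.eq_of_mul_eq_mul_left hbc h4

theorem W_SPAN_pi_zero (j j' : ℕ) (hj : j' ≠ j) (F : Fm b c L)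
    (hF : ∀ w, ∀ m ∈ (F w).support, 2 * b * c * m.degree + ∑ l, cwt b c (w l) = j') :
    W_SPAN_pi b c L j F = 0 := by
  funext w
  rw [W_SPAN_pi_apply, Pi.zero_apply]
  split_ifs with h
  · ext u
    rw [coeff_homogeneousComponent, coeff_zero]
    split_ifs with hu
    · by_contra hne
      have hus : u ∈ (F w).support := by
        rw [mem_support_iff]; exact hne
      have h3 := hF w u hus
      rw [hu] at h3
      unfold W_SPAN_cw at h3 h
      omega
    · rfl
  · rfl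

end aux

theorem pr_W_SPAN (h1 : W_ONE) (h2 : W_AVG) (h3 : W_EXP) (h4 : W_MEM) (h5 : C_AV) (h6 : C_ACT)
    (h7 : C_HOM) : W_SPAN := by
  intro b c hb hc κ₀ hcop hp hq V L _ _ K n j hK F hF
  obtain ⟨⟨hF1, hF2, hF3⟩, hF4⟩ := hF
  classical
  have hFw : ∀ w, F w ∈ Pf κ₀ n (tw w) := hF4
  -- the space without the degree condition
  set S0 : Submodule ℚ (Fm b c L) :=
    Submodule.span ℚ {G | ∃ (d : ℕ) (s : Fin d → Gn b c κ₀) (e : SL κ₀ (ks s) ≃ L),
        wt s ≤ n ∧ tsz s = K ∧ G = Fs V s e} ⊔ vin (IpS L κ₀) with hS0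
  have hAvI : ∀ G ∈ (vin (IpS L κ₀) : Submodule ℚ (Fm b c L)), Av G ∈ S0 := by
    intro G hG
    apply Submodule.mem_sup_right
    exact W_SPAN_Av_mem G _ fun g => (h6 b c L g G κ₀ 0).1 hG
  have hone : ∀ w : L → Col b c, Av (Pi.single w (F w) : Fm b c L) ∈ S0 := by
    intro w
    by_cases hw : chg w = (K * κ₀.1, K * κ₀.2)
    · have hcardL : Fintype.card L = K * (κ₀.1 + κ₀.2) := by
        rw [← W_SPAN_card w, hw]; ring
      have hmem := h1 b c hb hc κ₀ hcop hp hq L K n hK w hw (F w) (hFw w)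
      have hle : (Submodule.span ℚ {G : Fm b c L | ∃ (d : ℕ) (k m : Fin d → ℕ)
        (e : SL κ₀ (fun i => k i + 1) ≃ L) (F : ∀ i, Fm b c (ML κ₀ (k i + 1))),
          d + 2 * ∑ i, m i ≤ n ∧ (∀ i, F i ∈ vin (Pf κ₀ 1) ∧
            ∀ w, chg w ≠ ((k i + 1) * κ₀.1, (k i + 1) * κ₀.2) → F i w = 0) ∧
          G = rel e (Hg (fun i => k i + 1) m F)} ⊔ vin (IpS L κ₀)) ≤
          S0.comap (W_SPAN_Av b c L) := by
        refine sup_le (Submodule.span_le.mpr ?_) ?_
        · rintro G ⟨d, k, m, e, F', hdm, hF', rfl⟩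
          show Av (rel e (Hg (fun i => k i + 1) m F')) ∈ S0
          rw [h2 b c κ₀ d (fun i => k i + 1) m F' L e]
          have hexp := h3 b c hb hc κ₀ hp hq V d k m (fun i => Av (F' i)) ?_ L e
          · have hle2 : (Submodule.span ℚ (Set.range fun x : ∀ i, XX b c κ₀ (k i + 1) =>
                Ge V (mkS k x m) e) ⊔ vin (IpS L κ₀)) ≤ S0.comap (W_SPAN_Av b c L) := by
              refine sup_le (Submodule.span_le.mpr ?_) ?_
              · rintro G ⟨x, rfl⟩
                show Av (Ge V (mkS k x m) e) ∈ S0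
                apply Submodule.mem_sup_left
                apply Submodule.subset_span
                refine ⟨d, mkS k x m, e, ?_, ?_, rfl⟩
                · exact hdm
                · have hc1 : Fintype.card (SL κ₀ (fun i => k i + 1)) = Fintype.card L :=
                    Fintype.card_congr e
                  have hc2 : Fintype.card (SL κ₀ (fun i => k i + 1)) =
                      (∑ i, (k i + 1)) * (κ₀.1 + κ₀.2) := by
                    rw [Fintype.card_sigma, Finset.sum_mul]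
                    refine Finset.sum_congr rfl fun i _ => ?_
                    rw [Fintype.card_fin]; ring
                  rw [hc2, hcardL] at hc1
                  show ∑ i, (k i + 1) = K
                  exact Nat.eq_of_mul_eq_mul_right (by omega) hc1
              · intro G hG; exact hAvI G hG
            exact hle2 hexp
          · intro i
            refine ⟨(h5 b c _ (F' i) (0, 0) 0).1, ?_, ?_⟩
            · exact W_SPAN_Av_mem (F' i) _ fun g => (h6 b c _ g (F' i) κ₀ 1).2.2 (hF' i).1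
            · intro w' hw'
              show Av (F' i) w' = 0
              unfold Av
              rw [Pi.smul_apply, Finset.sum_apply, Finset.sum_eq_zero, smul_zero]
              intro g _
              rw [Pi.smul_apply]
              unfold act
              rw [(hF' i).2 (w' ∘ g) (by rw [W_SPAN_chg]; exact hw'), map_zero, smul_zero]
        · intro G hG; exact hAvI G hG
      exact hle hmem
    · rw [hF2 w hw, Pi.single_zero]
      have : Av (0 : Fm b c L) = 0 := (W_SPAN_Av b c L).map_zero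
      rw [this]; exact Submodule.zero_mem _
  have hFS0 : F ∈ S0 := by
    have e1 : Av F = F := (h5 b c L F (0, 0) 0).2.2.1 hF1
    have e2 : F = ∑ w, (Pi.single w (F w) : Fm b c L) := (Finset.univ_sum_single F).symm
    rw [← e1]
    show W_SPAN_Av b c L F ∈ S0
    rw [e2, map_sum]
    exact Submodule.sum_mem _ fun w _ => hone w
  -- projection to degree j
  set S1 : Submodule ℚ (Fm b c L) := Submodule.span ℚ {G | ∃ (d : ℕ) (s : Fin d → Gn b c κ₀)
      (e : SL κ₀ (ks s) ≃ L), wt s ≤ n ∧ tdg s = j ∧ tsz s = K ∧ G = Fs V s e} ⊔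
        vin (IpS L κ₀) with hS1
  have hproj : S0 ≤ S1.comap (W_SPAN_pi b c L j) := by
    refine sup_le (Submodule.span_le.mpr ?_) ?_
    · rintro G ⟨d, s, e, hw, ht, rfl⟩
      show W_SPAN_pi b c L j (Fs V s e) ∈ S1
      have hm := (h4 b c hb hc κ₀ hp hq V d s L e).2
      have hm3 : ∀ w, ∀ m ∈ (Fs V s e w).support,
        2 * b * c * m.degree + ∑ l, cwt b c (w l) = tdg s := hm.1.2.2
      by_cases hj : tdg s = j
      · rw [W_SPAN_pi_self hb hc j _ (by intro w m hm'; rw [← hj]; exact hm3 w m hm')]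
        apply Submodule.mem_sup_left
        apply Submodule.subset_span
        exact ⟨d, s, e, hw, hj, ht, rfl⟩
      · rw [W_SPAN_pi_zero j (tdg s) hj _ hm3]
        exact Submodule.zero_mem _
    · intro G hG
      show W_SPAN_pi b c L j G ∈ S1
      apply Submodule.mem_sup_right
      intro w
      rw [W_SPAN_pi_apply]
      split_ifs with h
      · exact (h7 L Unit κ₀ (tw w) tv (G w) _).1 (hG w)
      · exact Submodule.zero_mem _
  have hfin := hproj hFS0
  have : W_SPAN_pi b c L j F = F := W_SPAN_pi_self hb hc j F hF3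
  rw [Submodule.mem_comap, this] at hfin
  exact hfin

end Pool.Agent.Work.MP_c41774_al.Full

end
end

section

/-!
# Item W_STAB: total sign of a stabilising permutation
-/

noncomputable section

namespace Pool.Agent.Work.MP_c41774_al.Full

open Finset MvPolynomial
open Pool.Agent.Work.MP_c41774_al.Wall

theorem W_STAB_par (k k' p q : ℕ) (h : Even (k * (p + q + p * q))) :
    Even ((k * p + k * q) * (k' * p + k' * q) + k * k' * (p * q)) := by
  simp only [Nat.even_add, Nat.even_mul] at h ⊢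
  tauto

theorem W_STAB_par' (k k' p q : ℕ) (h : Even (k' * (p + q + p * q))) :
    Even ((k * p + k * q) * (k' * p + k' * q) + k * k' * (p * q)) := by
  simp only [Nat.even_add, Nat.even_mul] at h ⊢
  tauto

theorem pr_W_STAB (h1 : W_SGN) : W_STAB := by
  intro b c κ₀ d s σ h' hs ha
  rw [h1 κ₀ d (ks s) σ h', eps, ← Finset.prod_mul_distrib]
  refine Finset.prod_eq_one fun i _ => ?_
  rw [← Finset.prod_mul_distrib]
  refine Finset.prod_eq_one fun j hj => ?_
  rw [Finset.mem_filter, Finset.mem_Ioi] at hj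
  rw [← pow_add]
  have key : ∀ l : Fin d, σ l ≠ l → Even (ks s l * (κ₀.1 + κ₀.2 + κ₀.1 * κ₀.2)) := by
    intro l hl
    rw [← Nat.not_odd_iff_even]
    intro ho
    exact hl (ha l (σ l) (hs l) ho).symm
  apply Even.neg_one_pow
  by_cases hi : σ i = i
  · have hj' : σ j ≠ j := by
      intro hj'
      have h2 := hj.2
      rw [hi, hj'] at h2
      exact absurd hj.1 (not_lt.2 h2.le)
    exact W_STAB_par' _ _ _ _ (key j hj')
  · exact W_STAB_par _ _ _ _ (key i hi)

end Pool.Agent.Work.MP_c41774_al.Full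

end
end

section

/-!
# Block P, item W_SWF: reordering of symmetrised elements
-/

noncomputable section

namespace Pool.Agent.Work.MP_c41774_al.Full

open Finset MvPolynomial
open Pool.Agent.Work.MP_c41774_al.Wall

theorem W_SWF_act_add {b c : ℕ} {L : Type*} [Fintype L] [DecidableEq L] (g : Equiv.Perm L)
    (F G : Fm b c L) : act g (F + G) = act g F + act g G := by
  funext w
  simp [act]

theorem W_SWF_act_smul {b c : ℕ} {L : Type*} [Fintype L] [DecidableEq L] (g : Equiv.Perm L)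
    (r : ℚ) (F : Fm b c L) : act g (r • F) = r • act g F := by
  funext w
  simp [act]

theorem W_SWF_Av_add {b c : ℕ} {L : Type*} [Fintype L] [DecidableEq L]
    (F G : Fm b c L) : Av (F + G) = Av F + Av G := by
  simp only [Av, W_SWF_act_add, smul_add, Finset.sum_add_distrib]

theorem W_SWF_Av_smul {b c : ℕ} {L : Type*} [Fintype L] [DecidableEq L]
    (r : ℚ) (F : Fm b c L) : Av (r • F) = r • Av F := by
  simp only [Av, W_SWF_act_smul]
  rw [smul_comm r, Finset.smul_sum (r := r)]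
  congr 1
  exact Finset.sum_congr rfl fun g _ => smul_comm _ _ _

theorem W_SWF_Av_mem (h4 : C_ACT) {b c : ℕ} {L : Type} [Fintype L] [DecidableEq L]
    (κ₀ : ℕ × ℕ) (n : ℤ) (F : Fm b c L) (hF : F ∈ (vin (Pf κ₀ n) : Submodule ℚ (Fm b c L))) :
    Av F ∈ (vin (Pf κ₀ n) : Submodule ℚ (Fm b c L)) := by
  rw [Av]
  refine Submodule.smul_mem _ _ (Submodule.sum_mem _ fun g _ => Submodule.smul_mem _ _ ?_)
  exact (h4 b c L g F κ₀ n).2.2 hF

theorem pr_W_SWF (h1 : W_SWP) (h2 : W_RELA) (h3 : C_AV) (h4 : C_ACT) (h5 : C_REL) : W_SWF := by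
  intro b c hb hc κ₀ hp hq V d s s' σ hs L _ _ e e'
  have h' : ∀ i, ks s' i = ks s (σ i) := fun i => by simp only [ks, hs i]
  obtain ⟨φ, hφ, -, -, -, -, hφP⟩ := h5 b c _ _ e
  have hr := h1 b c hb hc κ₀ hp hq V d s s' σ hs h'
  set h := bpe κ₀ σ h' with hh
  set r := rel h (Hs V s') - eps κ₀ (ks s') σ • Hs V s with hrd
  set g : Equiv.Perm L := (h.trans e).symm.trans e' with hg
  have hF : Fs V s' e' = sg g • Av (rel e (rel h (Hs V s'))) := by
    rw [← (h3 b c L _ (0, 0) 0).2.1 g, (h2 b c _ _ _ h e (Hs V s')).1,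
      (h2 b c L L L (Equiv.refl L) (Equiv.refl L) (rel (h.trans e) (Hs V s'))).2.2.1 g,
      (h2 b c _ _ _ (h.trans e) g (Hs V s')).1]
    have : (h.trans e).trans g = e' := by
      rw [hg, ← Equiv.trans_assoc, Equiv.self_trans_symm, Equiv.refl_trans]
    rw [this, Fs]
  have hR : rel h (Hs V s') = eps κ₀ (ks s') σ • Hs V s + r := by
    rw [hrd]; abel
  have hE : rel e (rel h (Hs V s')) = eps κ₀ (ks s') σ • rel e (Hs V s) + rel e r := by
    rw [hR, ← hφ, map_add, map_smul, hφ, hφ]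
  refine ⟨sg g * eps κ₀ (ks s') σ, ?_⟩
  have hfin : Fs V s' e' - (sg g * eps κ₀ (ks s') σ) • Fs V s e = sg g • Av (rel e r) := by
    rw [hF, hE, W_SWF_Av_add, W_SWF_Av_smul, smul_add, smul_smul, Fs]
    abel
  rw [hfin]
  refine Submodule.smul_mem _ _ (W_SWF_Av_mem h4 κ₀ _ _ ?_)
  rw [← hφP κ₀ (wt s - 1), ← hφ]
  exact Submodule.mem_map_of_mem hr

end Pool.Agent.Work.MP_c41774_al.Full

end
end

section

/-!
# W_SWP: reordering
-/

noncomputable section

namespace Pool.Agent.Work.MP_c41774_al.Full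

open Finset MvPolynomial
open Pool.Agent.Work.MP_c41774_al.Wall

theorem W_SWP_pairs {d : ℕ} (σ : Equiv.Perm (Fin d)) (f : Fin d → Fin d → ℚ)
    (hf : ∀ i j, f i j = f j i) :
    (∏ i, ∏ j ∈ (Ioi i).filter (fun j => σ.symm j < σ.symm i), f i j) =
      ∏ i, ∏ j ∈ (Ioi i).filter (fun j => σ j < σ i), f (σ i) (σ j) := by
  rw [Finset.prod_sigma', Finset.prod_sigma']
  refine Finset.prod_nbij' (fun p => ⟨σ.symm p.2, σ.symm p.1⟩) (fun p => ⟨σ p.2, σ p.1⟩)
    ?_ ?_ ?_ ?_ ?_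
  · rintro ⟨i, j⟩ h
    simp only [mem_sigma, mem_univ, mem_filter, mem_Ioi, true_and, Equiv.apply_symm_apply] at h ⊢
    exact ⟨h.2, h.1⟩
  · rintro ⟨i, j⟩ h
    simp only [mem_sigma, mem_univ, mem_filter, mem_Ioi, true_and, Equiv.symm_apply_apply] at h ⊢
    exact ⟨h.2, h.1⟩
  · rintro ⟨i, j⟩ _
    simp
  · rintro ⟨i, j⟩ _
    simp
  · rintro ⟨i, j⟩ _
    simp only [Equiv.apply_symm_apply]
    exact hf i j

theorem W_SWP_sq {d : ℕ} (κ₀ : ℕ × ℕ) (k : Fin d → ℕ) (σ : Equiv.Perm (Fin d)) :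
    eps κ₀ k σ * eps κ₀ k σ = 1 := by
  unfold eps
  rw [← Finset.prod_mul_distrib]
  refine Finset.prod_eq_one fun i _ => ?_
  rw [← Finset.prod_mul_distrib]
  refine Finset.prod_eq_one fun j _ => ?_
  rw [← pow_add, ← two_mul, pow_mul]
  norm_num

theorem pr_W_SWP (h1 : W_RELP) (h2 : W_GW) (h3 : W_BAD) (h4 : W_PRF) (h5 : R_SWAP) : W_SWP := by
  intro b c hb hc κ₀ hp hq V d s s' σ hs h'
  intro w
  have e1 := (h1 b c κ₀ V d d s s' σ hs h').2
  rw [Pi.sub_apply, Pi.smul_apply, e1]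
  by_cases hw : Gw κ₀ (ks s) w
  · have hk : ∀ i, 0 < ks s i := fun i => Nat.succ_pos _
    obtain ⟨g1, g2, g3, g4⟩ := h2 b c κ₀ hp hq d (ks s) hk w hw
    have e2 := (h4 b c hb hc κ₀ hp hq V d s w hw).1
    have e3 := h5 κ₀ hp hq (SL κ₀ (ks s)) (tw w) (wt s) d (fs κ₀ (ks s)) σ.symm g1 _ e2
    have e4 : (∏ i, ∏ j ∈ (Ioi i).filter (fun j => σ.symm j < σ.symm i),
        (-1 : ℚ) ^ (nx (tw w) (blk (fs κ₀ (ks s)) i) * ny (tw w) (blk (fs κ₀ (ks s)) j))) =
        eps κ₀ (ks s) σ.symm := by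
      unfold eps
      refine Finset.prod_congr rfl fun i _ => Finset.prod_congr rfl fun j _ => ?_
      rw [(g3 i).1, (g3 j).2]
      congr 1
      ring
    have e5 : eps κ₀ (ks s) σ.symm = eps κ₀ (ks s') σ := by
      unfold eps
      rw [W_SWP_pairs σ (fun i j => (-1 : ℚ) ^ (ks s i * ks s j * (κ₀.1 * κ₀.2)))
        (fun i j => by rw [mul_comm (ks s i)])]
      refine Finset.prod_congr rfl fun i _ => Finset.prod_congr rfl fun j _ => ?_
      rw [h' i, h' j]
    rw [e4, e5] at e3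
    have e6 := Submodule.smul_mem _ (-(eps κ₀ (ks s') σ)) e3
    have e7 : (-(eps κ₀ (ks s') σ)) • (pr (crs (tw w) (fs κ₀ (ks s))) *
          (bv V (xs s) w * ∏ i, za (ks s) i ^ (ms s i)) -
        eps κ₀ (ks s') σ • (pr (crs (tw w) (σ.symm ∘ fs κ₀ (ks s))) *
          (bv V (xs s) w * ∏ i, za (ks s) i ^ (ms s i)))) =
        (pr (crs (tw w) (σ.symm ∘ fs κ₀ (ks s))) * bv V (xs s) w *
          ∏ i, za (ks s) i ^ (ms s i)) - eps κ₀ (ks s') σ • Hs V s w := by
      rw [smul_sub, smul_smul, neg_mul, W_SWP_sq, neg_smul, neg_smul, one_smul]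
      unfold Hs
      rw [mul_assoc, mul_assoc]
      abel
    rw [e7] at e6
    exact e6
  · obtain ⟨e2, e3⟩ := h3 b c κ₀ V d s w hw
    beta_reduce
    rw [e3, e2, mul_zero, zero_mul, smul_zero, sub_zero]
    exact Submodule.zero_mem _

end Pool.Agent.Work.MP_c41774_al.Full

end
end

section

/-!
# W_SYM: the symbol of a symmetrised element
-/

noncomputable section

namespace Pool.Agent.Work.MP_c41774_al.Full

open Finset MvPolynomial
open Pool.Agent.Work.MP_c41774_al.Wall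

section W_SYM_sec

variable {b c : ℕ} {κ₀ : ℕ × ℕ}

/-- `Cf` as a linear map -/
def W_SYM_Cf {d : ℕ} {k : Fin d → ℕ} (α : Fin d →₀ ℕ) :
    Fm b c (SL κ₀ k) →ₗ[ℚ] Fm b c (SL κ₀ k) where
  toFun := Cf α
  map_add' F G := by
    funext w
    simp [Cf]
  map_smul' r F := by
    funext w
    simp only [Cf, Pi.smul_apply, map_smul, coeff_smul, RingHom.id_apply]

/-- `rel` as a linear map -/
def W_SYM_rel {L L' : Type} (e : L ≃ L') : Fm b c L →ₗ[ℚ] Fm b c L' where
  toFun := rel e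
  map_add' F G := by
    funext w
    simp [rel]
  map_smul' r F := by
    funext w
    simp [rel]

/-- the symbol as a linear map -/
def W_SYM_T {d : ℕ} {k : Fin d → ℕ} (Lam : Fm b c (SL κ₀ k) →ₗ[ℚ] ℚ) (D : ℕ) :
    Fm b c (SL κ₀ k) →ₗ[ℚ] MvPolynomial (Fin d) ℚ :=
  ∑ α ∈ (univ : Finset (Fin d)).finsuppAntidiag D,
    (monomial α).comp (Lam.comp (W_SYM_Cf α))

theorem W_SYM_T_apply {d : ℕ} {k : Fin d → ℕ} (Lam : Fm b c (SL κ₀ k) →ₗ[ℚ] ℚ) (D : ℕ)
    (F : Fm b c (SL κ₀ k)) : W_SYM_T Lam D F =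
      ∑ α ∈ (univ : Finset (Fin d)).finsuppAntidiag D, monomial α (Lam (Cf α F)) := by
  simp [W_SYM_T, W_SYM_Cf]

theorem W_SYM_rel_rel {L L' L'' : Type} (e : L ≃ L') (e' : L' ≃ L'') (F : Fm b c L) :
    rel e' (rel e F) = rel (e.trans e') F := by
  funext w
  simp only [rel, rename_rename]
  rfl

theorem W_SYM_act {L : Type} (g : Equiv.Perm L) (F : Fm b c L) : act g F = rel g F := rfl

theorem W_SYM_deg {d : ℕ} {D : ℕ} {α : Fin d →₀ ℕ} :
    α ∈ (univ : Finset (Fin d)).finsuppAntidiag D ↔ α.degree = D := by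
  rw [Finset.mem_finsuppAntidiag, Finsupp.degree_eq_sum]
  simp

theorem W_SYM_hom {d : ℕ} (D : ℕ) (P : MvPolynomial (Fin d) ℚ) (hP : P.IsHomogeneous D) (r : ℚ) :
    ∑ α ∈ (univ : Finset (Fin d)).finsuppAntidiag D, monomial α (r * P.coeff α) = C r * P := by
  ext β
  rw [coeff_sum, coeff_C_mul]
  simp only [coeff_monomial]
  rw [Finset.sum_ite_eq']
  split_ifs with h
  · rfl
  · rw [hP.coeff_eq_zero (fun h' => h (W_SYM_deg.2 h')), mul_zero]

theorem W_SYM_sq {L : Type} [Fintype L] [DecidableEq L] (g : Equiv.Perm L) :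
    sg g * sg g = 1 := by
  unfold sg
  rcases Int.units_eq_one_or (Equiv.Perm.sign g) with h | h <;> simp [h]

theorem W_SYM_prod {d : ℕ} (σ : Equiv.Perm (Fin d)) (m m₀ : Fin d → ℕ) :
    ((∏ i, X (σ i) ^ m i : MvPolynomial (Fin d) ℚ)).coeff (Finsupp.equivFunOnFinite.symm m₀) =
      if ∀ i, m i = m₀ (σ i) then 1 else 0 := by
  have h1 : (∏ i, X (σ i) ^ m i : MvPolynomial (Fin d) ℚ) =
      monomial (∑ i, Finsupp.single (σ i) (m i)) 1 := by
    rw [MvPolynomial.monomial_sum_one]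
    refine Finset.prod_congr rfl fun i _ => ?_
    rw [X_pow_eq_monomial]
  have h2 : ∀ j, (∑ i, Finsupp.single (σ i) (m i)) j = m (σ.symm j) := by
    intro j
    rw [Finsupp.finsetSum_apply, Finset.sum_eq_single (σ.symm j)]
    · simp
    · intro i _ hi
      rw [Finsupp.single_apply, if_neg]
      rintro rfl
      exact hi (by simp)
    · simp
  rw [h1, coeff_monomial]
  congr 1
  apply propext
  constructor
  · intro h i
    have := DFunLike.congr_fun h (σ i)
    rw [h2] at this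
    simpa using this
  · intro h
    ext j
    rw [h2, h]
    simp

theorem W_SYM_gn (x y : Gn b c κ₀)
    (h : (⟨x.1, x.2.1, x.2.2.1⟩ : Σ (k : ℕ) (j : ℕ), Fin (bd b c κ₀ (k + 1) j)) =
      ⟨y.1, y.2.1, y.2.2.1⟩) (h' : x.2.2.2 = y.2.2.2) : x = y := by
  obtain ⟨k, j, i, m⟩ := x
  obtain ⟨k', j', i', m'⟩ := y
  simp only at h h'
  obtain ⟨rfl, h⟩ := Sigma.mk.inj h
  obtain ⟨rfl, h⟩ := Sigma.mk.inj (eq_of_heq h)
  obtain rfl := eq_of_heq h
  rw [h']

end W_SYM_sec

theorem pr_W_SYM (h1 : R_FUN) (h2 : W_OFF) (h3 : W_ON) (h4 : W_LOW) (h5 : W_LOI) (h6 : W_VAL)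
    (h7 : W_STAB) (h9 : W_DLS) (h10 : C_REL) : W_SYM := by
  intro b c hb hc κ₀ hp hq V U d₀ s₀ hA L _ _ e₀
  classical
  obtain ⟨Lam, hLam, hLam0⟩ := h1 b c κ₀ d₀ (fun i => ML κ₀ (ks s₀ i))
    (fun i => (ks s₀ i * κ₀.1, ks s₀ i * κ₀.2)) (fun i => U.mu (ks s₀ i) (xs s₀ i))
    (fun i F hF => U.kill _ _ F hF)
  have hkill : ∀ G ∈ NNs b c κ₀ (ks s₀), Lam G = 0 := fun G hG => hLam0 G hG
  let D : ℕ := Ek κ₀ (ks s₀) + ∑ i, (s₀ i).2.2.2
  let T : Fm b c (SL κ₀ (ks s₀)) →ₗ[ℚ] MvPolynomial (Fin d₀) ℚ := W_SYM_T Lam D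
  have hT : ∀ F, T F = ∑ α ∈ (univ : Finset (Fin d₀)).finsuppAntidiag D,
      monomial α (Lam (Cf α F)) := fun F => W_SYM_T_apply Lam D F
  have hT0 : ∀ F, (∀ α : Fin d₀ →₀ ℕ, α.degree = D → Cf α F ∈ NNs b c κ₀ (ks s₀)) → T F = 0 := by
    intro F hF
    rw [hT]
    refine Finset.sum_eq_zero fun α hα => ?_
    rw [hkill _ (hF α (W_SYM_deg.1 hα)), map_zero]
  -- relabelling
  have hrelIp : ∀ F ∈ (vin (IpS L κ₀) : Submodule ℚ (Fm b c L)),
      rel e₀.symm F ∈ (vin (IpS _ κ₀) : Submodule ℚ (Fm b c (SL κ₀ (ks s₀)))) := by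
    intro F hF
    obtain ⟨φ, hφ, -, -, hI, -, -⟩ := h10 b c L (SL κ₀ (ks s₀)) e₀.symm
    rw [← hI κ₀]
    exact ⟨F, hF, hφ F⟩
  have hrelPf : ∀ n : ℤ, ∀ F ∈ (vin (Pf κ₀ n) : Submodule ℚ (Fm b c L)),
      rel e₀.symm F ∈ (vin (Pf κ₀ n) : Submodule ℚ (Fm b c (SL κ₀ (ks s₀)))) := by
    intro n F hF
    obtain ⟨φ, hφ, -, -, -, -, hP⟩ := h10 b c L (SL κ₀ (ks s₀)) e₀.symm
    rw [← hP κ₀ n]
    exact ⟨F, hF, hφ F⟩
  let S : Fm b c L →ₗ[ℚ] MvPolynomial (Fin d₀) ℚ := T.comp (W_SYM_rel e₀.symm)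
  have hS : ∀ F, S F = T (rel e₀.symm F) := fun F => rfl
  -- symmetrised elements
  have hSF : ∀ (d : ℕ) (s : Fin d → Gn b c κ₀) (e : SL κ₀ (ks s) ≃ L),
      S (Fs V s e) = ((Fintype.card (Equiv.Perm L) : ℚ)⁻¹) • ∑ g : Equiv.Perm L,
        sg g • T (rel ((e.trans g).trans e₀.symm) (Hs V s)) := by
    intro d s e
    simp only [Fs, Av]
    rw [map_smul, map_sum]
    congr 1
    refine Finset.sum_congr rfl fun g _ => ?_
    rw [map_smul, hS, W_SYM_act, W_SYM_rel_rel, W_SYM_rel_rel, ← Equiv.trans_assoc]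
  -- unmatched
  have hoff : ∀ (d : ℕ) (s : Fin d → Gn b c κ₀), wt s = wt s₀ → d₀ ≤ d →
      ∀ h : SL κ₀ (ks s) ≃ SL κ₀ (ks s₀), (¬ ∃ σ : Fin d ≃ Fin d₀, ∀ l, (h l).1 = σ l.1) →
        T (rel h (Hs V s)) = 0 := by
    intro d s hw hd h hσ
    exact hT0 _ fun α hα => h2 b c hb hc κ₀ hp hq V d₀ d s₀ s hw hd h hσ α hα
  -- matched
  have hon : ∀ (s : Fin d₀ → Gn b c κ₀), wt s = wt s₀ →
      ∀ (h : SL κ₀ (ks s) ≃ SL κ₀ (ks s₀)) (σ : Equiv.Perm (Fin d₀)), (∀ l, (h l).1 = σ l.1) →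
        T (rel h (Hs V s)) = Dl κ₀ (ks s₀) * (C (eps κ₀ (ks s) σ * Lam (rel h (bv V (xs s)))) *
          ∏ i, X (σ i) ^ (s i).2.2.2) := by
    intro s hw h σ hσ
    have hsum : ∑ i, (s i).2.2.2 = ∑ i, (s₀ i).2.2.2 := by
      have : d₀ + 2 * ∑ i, (s i).2.2.2 = d₀ + 2 * ∑ i, (s₀ i).2.2.2 := hw
      omega
    have hP : (Dl κ₀ (ks s₀) * ∏ i, X (σ i) ^ (s i).2.2.2 :
        MvPolynomial (Fin d₀) ℚ).IsHomogeneous D := by
      refine IsHomogeneous.mul (h9 κ₀ d₀ (ks s₀) (ks s₀) 1 (fun i => rfl)).2.2.1 ?_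
      rw [← hsum]
      refine IsHomogeneous.prod _ _ _ fun i _ => ?_
      have := (isHomogeneous_X ℚ (σ i)).pow (s i).2.2.2
      simpa using this
    have hco : ∀ α ∈ (univ : Finset (Fin d₀)).finsuppAntidiag D, Lam (Cf α (rel h (Hs V s))) =
        (eps κ₀ (ks s) σ * Lam (rel h (bv V (xs s)))) *
          (Dl κ₀ (ks s₀) * ∏ i, X (σ i) ^ (s i).2.2.2 : MvPolynomial (Fin d₀) ℚ).coeff α := by
      intro α hα
      have := hkill _ (h3 b c hb hc κ₀ hp hq V d₀ s₀ s hw h σ hσ α (W_SYM_deg.1 hα))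
      rw [map_sub, map_smul, sub_eq_zero] at this
      rw [this, smul_eq_mul]
      ring
    rw [hT, Finset.sum_congr rfl fun α hα => by rw [hco α hα], W_SYM_hom D _ hP]
    ring
  refine ⟨S, ?_, ?_, ?_, ?_⟩
  · intro F hF
    rw [hS]
    exact hT0 _ fun α _ => h5 b c κ₀ d₀ (ks s₀) _ (hrelIp F hF) α
  · intro n hn F hF
    rw [hS]
    exact hT0 _ fun α hα => h4 b c hb hc κ₀ hp hq d₀ s₀ n hn _ (hrelPf n F hF) α hα
  · intro d s e hw hd
    have key : ∀ h : SL κ₀ (ks s) ≃ SL κ₀ (ks s₀), ∃ Q : MvPolynomial (Fin d₀) ℚ,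
        T (rel h (Hs V s)) = Dl κ₀ (ks s₀) * Q ∧
          ((¬ ∃ σ : Fin d ≃ Fin d₀, ∀ i, s i = s₀ (σ i)) → Q.coeff (ms s₀) = 0) := by
      intro h
      by_cases hm : ∃ σ : Fin d ≃ Fin d₀, ∀ l, (h l).1 = σ l.1
      · obtain ⟨σ, hσ⟩ := hm
        obtain rfl : d = d₀ := by
          have := Fintype.card_congr σ
          simpa using this
        refine ⟨_, hon s hw h σ hσ, ?_⟩
        intro hno
        rw [coeff_C_mul]
        by_contra hne
        have hne1 : Lam (rel h (bv V (xs s))) ≠ 0 := by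
          intro h0
          rw [h0] at hne
          simp at hne
        have hne2 : (∏ i, X (σ i) ^ (s i).2.2.2 : MvPolynomial (Fin d) ℚ).coeff (ms s₀) ≠ 0 :=
          right_ne_zero_of_mul hne
        have hms : ∀ i, (s i).2.2.2 = (s₀ (σ i)).2.2.2 := by
          by_contra hcon
          apply hne2
          have := W_SYM_prod σ (fun i => (s i).2.2.2) (fun i => (s₀ i).2.2.2)
          rw [if_neg hcon] at this
          exact this
        have hv := (h6 b c hb hc κ₀ hp hq V U d s₀ s Lam hLam h σ hσ).1 hne1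
        exact hno ⟨σ, fun i => W_SYM_gn _ _ (hv i) (hms i)⟩
      · refine ⟨0, ?_, fun _ => by simp⟩
        rw [hoff d s hw hd h hm, mul_zero]
    choose Q hQ1 hQ2 using key
    refine ⟨((Fintype.card (Equiv.Perm L) : ℚ)⁻¹) • ∑ g : Equiv.Perm L,
      sg g • Q ((e.trans g).trans e₀.symm), ?_, ?_⟩
    · rw [hSF, mul_smul_comm, Finset.mul_sum]
      congr 1
      refine Finset.sum_congr rfl fun g _ => ?_
      rw [hQ1, mul_smul_comm]
    · intro hno
      rw [coeff_smul, coeff_sum, Finset.sum_eq_zero, smul_zero]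
      intro g _
      rw [coeff_smul, hQ2 _ hno, smul_zero]
  · have key : ∀ g : Equiv.Perm L, ∃ Q : MvPolynomial (Fin d₀) ℚ,
        T (rel ((e₀.trans g).trans e₀.symm) (Hs V s₀)) = Dl κ₀ (ks s₀) * Q ∧
          0 ≤ sg g * Q.coeff (ms s₀) ∧ (g = 1 → 0 < sg g * Q.coeff (ms s₀)) := by
      intro g
      have hval : ∀ σ : Equiv.Perm (Fin d₀),
          (∀ l, (((e₀.trans g).trans e₀.symm) l).1 = σ l.1) → (∀ i, s₀ i = s₀ (σ i)) →
          sg g * (C (eps κ₀ (ks s₀) σ * Lam (rel ((e₀.trans g).trans e₀.symm) (bv V (xs s₀)))) *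
          ∏ i, X (σ i) ^ (s₀ i).2.2.2).coeff (ms s₀) = 1 := by
        intro σ hσ hs
        have h' : ∀ i, ks s₀ i = ks s₀ (σ i) := fun i => by
          simp only [ks]
          rw [← hs i]
        have hL := (h6 b c hb hc κ₀ hp hq V U d₀ s₀ s₀ Lam hLam ((e₀.trans g).trans e₀.symm)
          σ hσ).2 hs h'
        have hst := h7 b c κ₀ d₀ s₀ σ h' hs hA
        have hX := W_SYM_prod σ (fun i => (s₀ i).2.2.2) (fun i => (s₀ i).2.2.2)
        rw [if_pos (fun i => by rw [← hs i])] at hX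
        have hX' : (∏ i, X (σ i) ^ (s₀ i).2.2.2 : MvPolynomial (Fin d₀) ℚ).coeff (ms s₀) = 1 := hX
        have hsg : sg (((e₀.trans g).trans e₀.symm).trans (bpe κ₀ σ h').symm) =
            sg g * sg (bpe κ₀ σ h') := by
          have e1 : Equiv.Perm.sign (((e₀.trans g).trans e₀.symm).trans (bpe κ₀ σ h').symm) =
              Equiv.Perm.sign g * Equiv.Perm.sign (bpe κ₀ σ h') := by
            rw [show ((e₀.trans g).trans e₀.symm).trans (bpe κ₀ σ h').symm =
              ((bpe κ₀ σ h').symm : Equiv.Perm (SL κ₀ (ks s₀))) *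
                ((e₀.trans g).trans e₀.symm : Equiv.Perm (SL κ₀ (ks s₀))) from rfl]
            rw [Equiv.Perm.sign_mul, Equiv.Perm.sign_symm, Equiv.Perm.sign_trans_trans_symm,
              mul_comm]
          simp only [sg]
          rw [e1]
          push_cast
          rfl
        rw [coeff_C_mul, hX', hL, hsg]
        have := W_SYM_sq g
        calc sg g * (eps κ₀ (ks s₀) σ * (sg g * sg (bpe κ₀ σ h')) * 1)
            = (sg g * sg g) * (sg (bpe κ₀ σ h') * eps κ₀ (ks s₀) σ) := by ring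
          _ = 1 := by rw [this, hst, mul_one]
      by_cases hg : g = 1
      · subst hg
        have hσ : ∀ l, (((e₀.trans (1 : Equiv.Perm L)).trans e₀.symm) l).1 =
            (1 : Equiv.Perm (Fin d₀)) l.1 := by
          intro l
          simp
        have hv := hval 1 hσ (fun i => rfl)
        exact ⟨_, hon s₀ rfl _ 1 hσ, by rw [hv]; norm_num, fun _ => by rw [hv]; norm_num⟩
      · by_cases hm : ∃ σ : Fin d₀ ≃ Fin d₀, ∀ l, (((e₀.trans g).trans e₀.symm) l).1 = σ l.1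
        · obtain ⟨σ, hσ⟩ := hm
          refine ⟨_, hon s₀ rfl _ σ hσ, ?_, fun h => absurd h hg⟩
          by_cases hs : ∀ i, s₀ i = s₀ (σ i)
          · rw [hval σ hσ hs]
            norm_num
          · refine le_of_eq ?_
            symm
            rw [coeff_C_mul]
            by_contra hne
            have hne' := right_ne_zero_of_mul hne
            have hne1 : Lam (rel ((e₀.trans g).trans e₀.symm) (bv V (xs s₀))) ≠ 0 := by
              intro h0
              rw [h0] at hne'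
              simp at hne'
            have hne2 : (∏ i, X (σ i) ^ (s₀ i).2.2.2 : MvPolynomial (Fin d₀) ℚ).coeff
                (ms s₀) ≠ 0 := right_ne_zero_of_mul hne'
            have hms : ∀ i, (s₀ i).2.2.2 = (s₀ (σ i)).2.2.2 := by
              by_contra hcon
              apply hne2
              have := W_SYM_prod σ (fun i => (s₀ i).2.2.2) (fun i => (s₀ i).2.2.2)
              rw [if_neg hcon] at this
              exact this
            have hv := (h6 b c hb hc κ₀ hp hq V U d₀ s₀ s₀ Lam hLam _ σ hσ).1 hne1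
            exact hs fun i => W_SYM_gn _ _ (hv i) (hms i)
        · refine ⟨0, ?_, by simp, fun h => absurd h hg⟩
          rw [hoff d₀ s₀ rfl le_rfl _ hm, mul_zero]
    choose Q hQ1 hQ2 hQ3 using key
    refine ⟨((Fintype.card (Equiv.Perm L) : ℚ)⁻¹) • ∑ g : Equiv.Perm L, sg g • Q g, ?_, ?_⟩
    · rw [hSF, mul_smul_comm, Finset.mul_sum]
      congr 1
      refine Finset.sum_congr rfl fun g _ => ?_
      rw [hQ1, mul_smul_comm]
    · rw [coeff_smul, coeff_sum]
      simp only [coeff_smul, smul_eq_mul]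
      refine mul_ne_zero ?_ ?_
      · exact inv_ne_zero (by exact_mod_cast Fintype.card_ne_zero)
      · refine ne_of_gt (Finset.sum_pos' (fun g _ => hQ2 g) ⟨1, mem_univ _, hQ3 1 rfl⟩)

end Pool.Agent.Work.MP_c41774_al.Full

end
end

section

set_option autoImplicit false

noncomputable section

namespace Pool.Agent.Work.MP_c41774_al.Full

open Finset MvPolynomial
open Pool.Agent.Work.MP_c41774_al.Wall

section top

variable {L : Type} {d : ℕ}

/-- `A` has degree at most `a` and its part of degree `a` is `A0`, which has constant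
coefficients. -/
structure W_TOP_T (A : MvPolynomial (Fin d) (MvPolynomial L ℚ)) (a : ℕ)
    (A0 : MvPolynomial (Fin d) ℚ) : Prop where
  hi : ∀ α : Fin d →₀ ℕ, a < α.degree → A.coeff α = 0
  eq : ∀ α : Fin d →₀ ℕ, α.degree = a → A.coeff α = C (A0.coeff α)
  hom : ∀ α : Fin d →₀ ℕ, α.degree ≠ a → A0.coeff α = 0

lemma W_TOP_mul {A B : MvPolynomial (Fin d) (MvPolynomial L ℚ)} {a b : ℕ}
    {A0 B0 : MvPolynomial (Fin d) ℚ} (hA : W_TOP_T A a A0) (hB : W_TOP_T B b B0) :
    W_TOP_T (A * B) (a + b) (A0 * B0) := by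
  classical
  refine ⟨fun α hα => ?_, fun α hα => ?_, fun α hα => ?_⟩
  · rw [coeff_mul]
    refine Finset.sum_eq_zero fun x hx => ?_
    have hx' := HasAntidiagonal.mem_antidiagonal.1 hx
    have hd : x.1.degree + x.2.degree = α.degree := by rw [← map_add, hx']
    rcases lt_or_ge a x.1.degree with h | h
    · rw [hA.hi _ h, zero_mul]
    · rw [hB.hi _ (by omega), mul_zero]
  · rw [coeff_mul, coeff_mul, map_sum]
    refine Finset.sum_congr rfl fun x hx => ?_
    have hx' := HasAntidiagonal.mem_antidiagonal.1 hx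
    have hd : x.1.degree + x.2.degree = α.degree := by rw [← map_add, hx']
    rcases lt_trichotomy a x.1.degree with h | h | h
    · rw [hA.hi _ h, hA.hom _ (by omega), zero_mul, zero_mul, map_zero]
    · rw [hA.eq _ h.symm, hB.eq _ (by omega), map_mul]
    · rw [hB.hi _ (by omega), hB.hom _ (by omega), mul_zero, mul_zero, map_zero]
  · rw [coeff_mul]
    refine Finset.sum_eq_zero fun x hx => ?_
    have hx' := HasAntidiagonal.mem_antidiagonal.1 hx
    have hd : x.1.degree + x.2.degree = α.degree := by rw [← map_add, hx']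
    by_cases h : x.1.degree = a
    · rw [hB.hom _ (by omega), mul_zero]
    · rw [hA.hom _ h, zero_mul]

lemma W_TOP_one : W_TOP_T (1 : MvPolynomial (Fin d) (MvPolynomial L ℚ)) 0 1 := by
  classical
  refine ⟨fun α hα => ?_, fun α hα => ?_, fun α hα => ?_⟩
  · rw [coeff_one, if_neg]
    rintro rfl
    simp at hα
  · have : α = 0 := by rwa [Finsupp.degree_eq_zero_iff] at hα
    subst this
    simp
  · rw [coeff_one, if_neg]
    rintro rfl
    simp at hα

lemma W_TOP_pow {A : MvPolynomial (Fin d) (MvPolynomial L ℚ)} {a : ℕ}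
    {A0 : MvPolynomial (Fin d) ℚ} (hA : W_TOP_T A a A0) (n : ℕ) :
    W_TOP_T (A ^ n) (n * a) (A0 ^ n) := by
  induction n with
  | zero => simpa using W_TOP_one
  | succ n ih =>
    rw [pow_succ, pow_succ, Nat.succ_mul]
    exact W_TOP_mul ih hA

lemma W_TOP_prod {ι : Type} (t : Finset ι) {A : ι → MvPolynomial (Fin d) (MvPolynomial L ℚ)}
    {a : ι → ℕ} {A0 : ι → MvPolynomial (Fin d) ℚ} (hA : ∀ i, W_TOP_T (A i) (a i) (A0 i)) :
    W_TOP_T (∏ i ∈ t, A i) (∑ i ∈ t, a i) (∏ i ∈ t, A0 i) := by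
  classical
  induction t using Finset.induction_on with
  | empty => simpa using W_TOP_one
  | insert i t hi ih =>
    rw [Finset.prod_insert hi, Finset.prod_insert hi, Finset.sum_insert hi]
    exact W_TOP_mul (hA i) ih

lemma W_TOP_lin (z : MvPolynomial L ℚ) (i : Fin d) :
    W_TOP_T (C z + X i : MvPolynomial (Fin d) (MvPolynomial L ℚ)) 1 (X i) := by
  classical
  refine ⟨fun α hα => ?_, fun α hα => ?_, fun α hα => ?_⟩
  · rw [coeff_add, coeff_C, coeff_X, if_neg, if_neg, add_zero]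
    · rintro rfl
      simp at hα
    · rintro rfl
      simp at hα
  · rw [coeff_add, coeff_C, coeff_X, coeff_X, if_neg, zero_add]
    · split_ifs <;> simp
    · rintro rfl
      simp at hα
  · rw [coeff_X, if_neg]
    rintro rfl
    simp at hα

lemma W_TOP_map {D : ℕ} {P : MvPolynomial (Fin d) ℚ} (hP : P.IsHomogeneous D) :
    W_TOP_T (map C P : MvPolynomial (Fin d) (MvPolynomial L ℚ)) D P := by
  have h : ∀ α : Fin d →₀ ℕ, α.degree ≠ D → P.coeff α = 0 := fun α hα => hP.coeff_eq_zero hα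
  refine ⟨fun α hα => ?_, fun α _ => ?_, h⟩
  · rw [coeff_map, h α (by omega), map_zero]
  · rw [coeff_map]

end top

lemma W_TOP_za {κ₀ : ℕ × ℕ} {d : ℕ} (k : Fin d → ℕ) (i : Fin d)
    (h : 0 < k i * κ₀.1 + k i * κ₀.2) :
    Sh (fs κ₀ k) (za k i) = C (za k i) + X i := by
  have hc : (Fintype.card (ML κ₀ (k i)) : ℚ) ≠ 0 := by
    rw [Fintype.card_fin]
    exact_mod_cast h.ne'
  have h1 : ∀ a : ML κ₀ (k i), Sh (fs κ₀ k) (X ⟨i, a⟩) = C (X ⟨i, a⟩) + X i := by
    intro a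
    simp [Sh, fs]
  rw [za, map_mul, map_sum]
  simp only [h1]
  rw [Finset.sum_add_distrib, mul_add]
  have h2 : Sh (fs κ₀ k) (C ((Fintype.card (ML κ₀ (k i)) : ℚ)⁻¹)) =
      C (C ((Fintype.card (ML κ₀ (k i)) : ℚ)⁻¹)) := by
    simp only [Sh, aeval_C]
    rfl
  rw [h2]
  congr 1
  · rw [map_mul, map_sum]
  · rw [Finset.sum_const, nsmul_eq_mul, ← mul_assoc]
    have h3 : (C (C ((Fintype.card (ML κ₀ (k i)) : ℚ)⁻¹)) *
        ((#(univ : Finset (ML κ₀ (k i))) : ℕ) : MvPolynomial (Fin d) (MvPolynomial (SL κ₀ k) ℚ))) =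
          C (C ((Fintype.card (ML κ₀ (k i)) : ℚ)⁻¹ * (Fintype.card (ML κ₀ (k i)) : ℚ))) := by
      rw [Finset.card_univ]
      simp only [map_mul, map_natCast]
    rw [h3, inv_mul_cancel₀ hc]
    simp

theorem pr_W_TOP (h1 : W_PRF) (h2 : W_SHR) : W_TOP := by
  classical
  intro b c hb hc κ₀ hp hq V d s w hw D P hP α hα
  set I := Ip κ₀ (tw w) (fs κ₀ (ks s)) with hI
  set B := Sh (fs κ₀ (ks s)) (bv V (xs s) w) with hB
  have hB0 : B.coeff 0 = bv V (xs s) w :=
    (h2 (SL κ₀ (ks s)) (SL κ₀ (ks s)) (Fin d) (Fin d)).2.2 _ _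
  have hB1 : ∀ ν : Fin d →₀ ℕ, ν ≠ 0 → B.coeff ν ∈ I := (h1 b c hb hc κ₀ hp hq V d s w hw).2
  have hza : ∀ i, Sh (fs κ₀ (ks s)) (za (ks s) i) = C (za (ks s) i) + X i := by
    intro i
    apply W_TOP_za
    have : 0 < ks s i := Nat.succ_pos _
    positivity
  have hQ : W_TOP_T (map C P * ∏ i, (C (za (ks s) i) + X i) ^ (s i).2.2.2 :
      MvPolynomial (Fin d) (MvPolynomial (SL κ₀ (ks s)) ℚ)) (D + ∑ i, (s i).2.2.2)
        (P * ∏ i, X i ^ (s i).2.2.2) := by
    refine W_TOP_mul (W_TOP_map hP) (W_TOP_prod _ fun i => ?_)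
    simpa using W_TOP_pow (W_TOP_lin (za (ks s) i) i) (s i).2.2.2
  set Q := (map C P * ∏ i, (C (za (ks s) i) + X i) ^ (s i).2.2.2 :
      MvPolynomial (Fin d) (MvPolynomial (SL κ₀ (ks s)) ℚ)) with hQd
  have hprod : map C P * Sh (fs κ₀ (ks s)) (bv V (xs s) w * ∏ i, za (ks s) i ^ (ms s i)) =
      Q * B := by
    rw [map_mul, map_prod]
    simp only [map_pow, hza]
    rw [hQd, hB]
    have : ∀ i, ms s i = (s i).2.2.2 := fun i => rfl
    simp only [this]
    ring
  rw [hprod, coeff_mul, ← hQ.eq α hα]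
  have hmem : ((α, 0) : (Fin d →₀ ℕ) × (Fin d →₀ ℕ)) ∈ antidiagonal α := by
    rw [HasAntidiagonal.mem_antidiagonal, add_zero]
  rw [← Finset.add_sum_erase _ _ hmem]
  simp only
  rw [hB0, add_sub_cancel_left]
  refine Ideal.sum_mem _ fun x hx => ?_
  apply Ideal.mul_mem_left
  apply hB1
  intro h0
  rw [Finset.mem_erase, HasAntidiagonal.mem_antidiagonal] at hx
  apply hx.1
  rw [h0, add_zero] at hx
  exact Prod.ext hx.2 h0

end Pool.Agent.Work.MP_c41774_al.Full

end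
end

section

/-!
# W_TUP: super-multisets and tuples
-/

noncomputable section

namespace Pool.Agent.Work.MP_c41774_al.Full

open Finset MvPolynomial
open Pool.Agent.Work.MP_c41774_al.Wall

/-- the length of the tuple of a multiset -/
def W_TUP_d {G : Type*} (m : G →₀ ℕ) : ℕ := Fintype.card (Σ x : m.support, Fin (m x))

/-- the tuple of a multiset -/
def W_TUP_s {G : Type*} (m : G →₀ ℕ) (i : Fin (W_TUP_d m)) : G :=
  ((Fintype.equivFin (Σ x : m.support, Fin (m x))).symm i).1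

theorem W_TUP_sum {G : Type*} {A : Type*} [AddCommMonoid A] (m : G →₀ ℕ) (f : G → A) :
    ∑ i, f (W_TUP_s m i) = m.sum fun x n => n • f x := by
  have h1 : ∑ i, f (W_TUP_s m i) = ∑ p : (Σ x : m.support, Fin (m x)), f p.1 :=
    Equiv.sum_comp (Fintype.equivFin (Σ x : m.support, Fin (m x))).symm fun p => f p.1
  rw [h1, Fintype.sum_sigma]
  simp only [Finset.sum_const, Finset.card_univ, Fintype.card_fin]
  rw [Finsupp.sum]
  exact Finset.sum_coe_sort m.support fun x => m x • f x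

theorem W_TUP_cnt {G : Type*} [DecidableEq G] (m : G →₀ ℕ) (x : G) :
    #{i | W_TUP_s m i = x} = m x := by
  have h := W_TUP_sum m fun y => if y = x then 1 else 0
  rw [Finset.sum_boole] at h
  simp only [Nat.cast_id] at h
  rw [h, Finsupp.sum, Finset.sum_eq_single x]
  · simp
  · intro y _ hy
    simp [hy]
  · intro hx
    simp [Finsupp.notMem_support_iff.mp hx]

theorem W_TUP_equiv {G : Type*} [DecidableEq G] {d d' : ℕ} (s : Fin d → G) (s' : Fin d' → G)
    (h : ∀ x, #{i | s' i = x} = #{i | s i = x}) : ∃ σ : Fin d' ≃ Fin d, ∀ i, s' i = s (σ i) := by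
  have hc : ∀ x, Nonempty ({i // s' i = x} ≃ {i // s i = x}) := by
    intro x
    refine ⟨Fintype.equivOfCardEq ?_⟩
    rw [Fintype.card_subtype, Fintype.card_subtype, h x]
  have e := fun x => Classical.choice (hc x)
  refine ⟨((Equiv.sigmaFiberEquiv s').symm.trans (Equiv.sigmaCongrRight e)).trans
    (Equiv.sigmaFiberEquiv s), fun i => ?_⟩
  have := (e (s' i) ⟨i, rfl⟩).2
  exact this.symm

theorem W_TUP_cntEq {G : Type*} [DecidableEq G] {d d' : ℕ} (s : Fin d → G) (s' : Fin d' → G)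
    (σ : Fin d' ≃ Fin d) (h : ∀ i, s' i = s (σ i)) (x : G) :
    #{i | s' i = x} = #{i | s i = x} := by
  refine Finset.card_bij (fun i _ => σ i) ?_ ?_ ?_
  · intro i hi
    rw [Finset.mem_filter] at hi ⊢
    exact ⟨Finset.mem_univ _, by rw [← h]; exact hi.2⟩
  · intro i _ j _ hij
    exact σ.injective hij
  · intro j hj
    rw [Finset.mem_filter] at hj
    exact ⟨σ.symm j, Finset.mem_filter.mpr ⟨Finset.mem_univ _, by
      rw [h, Equiv.apply_symm_apply]; exact hj.2⟩, by simp⟩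

theorem W_TUP_exists {G : Type*} [DecidableEq G] {d : ℕ} (s : Fin d → G) :
    ∃ m : G →₀ ℕ, ∀ x, #{i | s i = x} = m x := by
  refine ⟨Finsupp.onFinset (univ.image s) (fun x => #{i | s i = x}) ?_, fun x => rfl⟩
  intro x hx
  obtain ⟨i, hi⟩ := Finset.card_pos.mp (Nat.pos_of_ne_zero hx)
  rw [Finset.mem_filter] at hi
  exact Finset.mem_image.mpr ⟨i, Finset.mem_univ _, hi.2⟩

theorem W_TUP_Ek (κ₀ : ℕ × ℕ) {d : ℕ} (k : Fin d → ℕ) :
    2 * (Ek κ₀ k : ℤ) = ((∑ i, (k i : ℤ)) ^ 2 - ∑ i, (k i : ℤ) ^ 2) * (κ₀.1 * κ₀.2) := by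
  have h1 : (∑ i, (k i : ℤ)) ^ 2 = ∑ i, ∑ j, (k i : ℤ) * k j := by
    rw [sq, Finset.sum_mul_sum]
  have h2 : ∀ i : Fin d, ∑ j, (k i : ℤ) * k j =
      (k i : ℤ) ^ 2 + (∑ j ∈ Ioi i, (k i : ℤ) * k j + ∑ j ∈ Iio i, (k i : ℤ) * k j) := by
    intro i
    have hd : Disjoint (Ioi i) (Iio i) := by
      rw [Finset.disjoint_left]
      intro j hj hj'
      rw [Finset.mem_Ioi] at hj
      rw [Finset.mem_Iio] at hj'
      exact absurd hj (not_lt.mpr hj'.le)
    have hu : (univ : Finset (Fin d)) = insert i (Ioi i ∪ Iio i) := by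
      ext j
      simp only [Finset.mem_univ, Finset.mem_insert, Finset.mem_union, Finset.mem_Ioi,
        Finset.mem_Iio, true_iff]
      rcases lt_trichotomy i j with h | h | h
      · exact Or.inr (Or.inl h)
      · exact Or.inl h.symm
      · exact Or.inr (Or.inr h)
    rw [hu, Finset.sum_insert, Finset.sum_union hd, sq]
    simp
  have h3 : ∑ i, ∑ j ∈ Iio i, (k i : ℤ) * k j = ∑ i, ∑ j ∈ Ioi i, (k i : ℤ) * k j := by
    rw [Finset.sum_comm' (s' := fun j => Ioi j) (t' := univ)]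
    · refine Finset.sum_congr rfl fun i _ => Finset.sum_congr rfl fun j _ => mul_comm _ _
    · intro x y
      simp
  have h4 : (Ek κ₀ k : ℤ) = (∑ i, ∑ j ∈ Ioi i, (k i : ℤ) * k j) * (κ₀.1 * κ₀.2) := by
    rw [Ek]
    push_cast
    rw [Finset.sum_mul]
    exact Finset.sum_congr rfl fun i _ => (Finset.sum_mul _ _ _).symm
  rw [h4, h1, Finset.sum_congr rfl fun i _ => h2 i, Finset.sum_add_distrib,
    Finset.sum_add_distrib, h3]
  ring

theorem W_TUP_tdg {b c : ℕ} {κ₀ : ℕ × ℕ} {d : ℕ} (s : Fin d → Gn b c κ₀) :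
    (tdg s : ℤ) - b * c * (tsz s : ℤ) ^ 2 * κ₀.1 * κ₀.2 = ∑ i, gdg (s i) := by
  have h := W_TUP_Ek κ₀ (ks s)
  have h5 : ∑ i, gdg (s i) = ∑ i, ((s i).2.1 : ℤ) + 2 * b * c * ∑ i, ((s i).2.2.2 : ℤ) -
      b * c * κ₀.1 * κ₀.2 * ∑ i, (ks s i : ℤ) ^ 2 := by
    rw [Finset.mul_sum, Finset.mul_sum, ← Finset.sum_add_distrib, ← Finset.sum_sub_distrib]
    refine Finset.sum_congr rfl fun i _ => ?_
    simp only [gdg, ks]
    push_cast
    ring
  rw [h5, tdg, tsz]
  push_cast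
  linear_combination (b : ℤ) * c * h

theorem W_TUP_adm {b c : ℕ} {κ₀ : ℕ × ℕ} [DecidableEq (Gn b c κ₀)] {d : ℕ}
    (s : Fin d → Gn b c κ₀) : Adm s ↔ ∀ x, god x → #{i | s i = x} ≤ 1 := by
  constructor
  · intro h x hx
    rw [Finset.card_le_one]
    intro i hi j hj
    rw [Finset.mem_filter] at hi hj
    exact h i j (hi.2.trans hj.2.symm) (by rw [hi.2]; exact hx)
  · intro h i j hij hg
    have := h (s i) hg
    rw [Finset.card_le_one] at this
    exact this i (by simp) j (by simp [hij])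

theorem pr_W_TUP : W_TUP := by
  classical
  intro b c κ₀ K J
  have key : ∀ (m : Gn b c κ₀ →₀ ℕ), (m.sum fun x n => n * gsz x) = tsz (W_TUP_s m) ∧
      (m.sum fun x n => (n : ℤ) * gdg x) = ∑ i, gdg (W_TUP_s m i) := by
    intro m
    constructor
    · have := W_TUP_sum m (fun x : Gn b c κ₀ => gsz x)
      simp only [smul_eq_mul] at this
      rw [← this]
      rfl
    · have := W_TUP_sum m (fun x : Gn b c κ₀ => gdg x)
      simp only [nsmul_eq_mul] at this
      rw [← this]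
  refine ⟨fun m => W_TUP_d m.1, fun m => W_TUP_s m.1, fun m => ⟨?_, ?_, ?_⟩, ?_, ?_⟩
  · rw [W_TUP_adm]
    intro x hx
    rw [W_TUP_cnt]
    exact m.2.1 x hx
  · rw [← (key m.1).1]
    exact m.2.2.1
  · have h1 : tsz (W_TUP_s m.1) = K := by rw [← (key m.1).1]; exact m.2.2.1
    have h2 := W_TUP_tdg (W_TUP_s m.1)
    rw [h1, ← (key m.1).2, m.2.2.2] at h2
    exact h2
  · rintro m m' ⟨σ, hσ⟩
    apply Subtype.ext
    ext x
    rw [← W_TUP_cnt m.1 x, ← W_TUP_cnt m'.1 x]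
    exact W_TUP_cntEq _ _ σ hσ x
  · intro d' s' hadm hsz hdg
    obtain ⟨m, hm⟩ := W_TUP_exists s'
    obtain ⟨σ, hσ⟩ := W_TUP_equiv (W_TUP_s m) s' fun x => by rw [W_TUP_cnt, hm]
    have e1 : tsz s' = tsz (W_TUP_s m) := by
      have := Equiv.sum_comp σ fun i => ks (W_TUP_s m) i
      rw [tsz, tsz, ← this]
      refine Finset.sum_congr rfl fun i _ => ?_
      simp only [ks, hσ]
    have e2 : ∑ i, gdg (s' i) = ∑ i, gdg (W_TUP_s m i) := by
      have := Equiv.sum_comp σ fun i => gdg (W_TUP_s m i)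
      rw [← this]
      exact Finset.sum_congr rfl fun i _ => by rw [hσ]
    refine ⟨⟨m, ?_, ?_, ?_⟩, σ, hσ⟩
    · intro x hx
      rw [← hm x]
      exact (W_TUP_adm s').mp hadm x hx
    · rw [(key m).1, ← e1, hsz]
    · have h2 := W_TUP_tdg s'
      rw [hsz, hdg] at h2
      rw [(key m).2, ← e2, h2]

end Pool.Agent.Work.MP_c41774_al.Full

end
end

section

/-!
# Values of the functionals on relabelled products
-/

noncomputable section

namespace Pool.Agent.Work.MP_c41774_al.Full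

open Finset MvPolynomial
open Pool.Agent.Work.MP_c41774_al.Wall

theorem W_VAL_split {d : ℕ} {M M' : Fin d → Type} (σ : Equiv.Perm (Fin d))
    (h : (Σ i, M i) ≃ (Σ i, M' i)) (hl : ∀ l, (h l).1 = σ l.1) :
    ∃ hi : ∀ i, M i ≃ M' (σ i), ∀ i a, h ⟨i, a⟩ = ⟨σ i, hi i a⟩ := by
  have hex : ∀ i a, ∃ b : M' (σ i), h ⟨i, a⟩ = ⟨σ i, b⟩ := by
    intro i a
    have h1 := hl ⟨i, a⟩
    rcases hh : h ⟨i, a⟩ with ⟨j, b⟩
    rw [hh] at h1
    change j = σ i at h1
    subst h1
    exact ⟨b, rfl⟩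
  choose f hf using hex
  have hinj : ∀ i, Function.Injective (f i) := by
    intro i a a' haa
    have h1 : h ⟨i, a⟩ = h ⟨i, a'⟩ := by rw [hf, hf, haa]
    have h2 := h.injective h1
    simpa using h2
  have hsur : ∀ i, Function.Surjective (f i) := by
    intro i b
    rcases hh : h.symm ⟨σ i, b⟩ with ⟨i', a⟩
    have h1 : h ⟨i', a⟩ = ⟨σ i, b⟩ := by rw [← hh, Equiv.apply_symm_apply]
    have h2 : σ i' = σ i := by
      have := hl ⟨i', a⟩
      rw [h1] at this
      exact this.symm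
    have h3 := σ.injective h2
    subst h3
    refine ⟨a, ?_⟩
    rw [hf] at h1
    simpa using h1
  exact ⟨fun i => Equiv.ofBijective (f i) ⟨hinj i, hsur i⟩, fun i a => hf i a⟩

theorem W_VAL_bx {b c : ℕ} {d : ℕ} {M M' : Fin d → Type} [∀ i, Fintype (M i)]
    [∀ i, DecidableEq (M i)] [∀ i, Fintype (M' i)] [∀ i, DecidableEq (M' i)]
    (σ : Equiv.Perm (Fin d)) (h : (Σ i, M i) ≃ (Σ i, M' i)) (hi : ∀ i, M i ≃ M' (σ i))
    (hh : ∀ i a, h ⟨i, a⟩ = ⟨σ i, hi i a⟩) (F : ∀ i, Fm b c (M i)) (F' : ∀ i, Fm b c (M' i))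
    (hF : ∀ i, F' (σ i) = rel (hi i) (F i)) : rel h (bx F) = bx F' := by
  funext w
  unfold rel bx
  rw [map_prod, ← Equiv.prod_comp σ (fun i => rename (Sigma.mk i) (F' i (wb w i)))]
  refine Finset.prod_congr rfl fun i _ => ?_
  rw [hF i]
  unfold rel
  rw [rename_rename, rename_rename]
  have e1 : (h ∘ Sigma.mk i : M i → _) = Sigma.mk (σ i) ∘ hi i := by
    funext a
    exact hh i a
  have e2 : wb (w ∘ h) i = wb w (σ i) ∘ hi i := by
    funext a
    simp only [wb, Function.comp_apply, hh]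
  rw [e2, e1]

theorem W_VAL_card {κ₀ : ℕ × ℕ} (hp : 0 < κ₀.1) {k k' : ℕ} (g : ML κ₀ k ≃ ML κ₀ k') :
    k = k' := by
  have h := Fintype.card_congr g
  rw [Fintype.card_fin, Fintype.card_fin, ← Nat.mul_add, ← Nat.mul_add] at h
  exact Nat.eq_of_mul_eq_mul_right (by omega) h

theorem W_VAL_mu {b c : ℕ} {κ₀ : ℕ × ℕ} (V : BBas b c κ₀) (U : Mu V) (k : ℕ)
    (x y : XX b c κ₀ k) (g : Equiv.Perm (ML κ₀ k)) :
    U.mu k x (rel g (V.v k y.1 y.2)) = if x = y then sg g else 0 := by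
  have h1 : rel g (V.v k y.1 y.2) = sg g • V.v k y.1 y.2 := by
    have := (V.mem k y.1 y.2).1.1 g
    exact this
  rw [h1, map_smul, U.one]
  split_ifs <;> simp

theorem W_VAL_a {b c : ℕ} {κ₀ : ℕ × ℕ} (hp : 0 < κ₀.1) (V : BBas b c κ₀) (U : Mu V)
    (x y : Gn b c κ₀) (g : ML κ₀ (y.1 + 1) ≃ ML κ₀ (x.1 + 1))
    (h : U.mu (x.1 + 1) ⟨x.2.1, x.2.2.1⟩ (rel g (V.v (y.1 + 1) y.2.1 y.2.2.1)) ≠ 0) :
    (⟨y.1, y.2.1, y.2.2.1⟩ : Σ (k : ℕ) (j : ℕ), Fin (bd b c κ₀ (k + 1) j)) =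
      ⟨x.1, x.2.1, x.2.2.1⟩ := by
  obtain ⟨k, j, a, m⟩ := x
  obtain ⟨k', j', a', m'⟩ := y
  have hk : k' = k := by
    have := W_VAL_card hp g
    simpa using this
  subst hk
  have h2 := W_VAL_mu V U (k' + 1) ⟨j, a⟩ ⟨j', a'⟩ g
  change U.mu (k' + 1) ⟨j, a⟩ (rel g (V.v (k' + 1) j' a')) ≠ 0 at h
  rw [h2] at h
  by_cases hx : (⟨j, a⟩ : XX b c κ₀ (k' + 1)) = ⟨j', a'⟩
  · change (⟨k', ⟨j', a'⟩⟩ : Σ (k : ℕ) (j : ℕ), Fin (bd b c κ₀ (k + 1) j)) = ⟨k', ⟨j, a⟩⟩
    exact congrArg (Sigma.mk k') hx.symm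
  · rw [if_neg hx] at h
    exact absurd rfl h

theorem W_VAL_b {b c : ℕ} {κ₀ : ℕ × ℕ} (V : BBas b c κ₀) (U : Mu V)
    (x y : Gn b c κ₀) (hxy : y = x) (g : ML κ₀ (y.1 + 1) ≃ ML κ₀ (x.1 + 1))
    (hc : (y.1 + 1) * κ₀.1 + (y.1 + 1) * κ₀.2 = (x.1 + 1) * κ₀.1 + (x.1 + 1) * κ₀.2) :
    U.mu (x.1 + 1) ⟨x.2.1, x.2.2.1⟩ (rel g (V.v (y.1 + 1) y.2.1 y.2.2.1)) =
      sg (g.trans (finCongr hc).symm) := by
  subst hxy
  have h2 := W_VAL_mu V U (y.1 + 1) ⟨y.2.1, y.2.2.1⟩ ⟨y.2.1, y.2.2.1⟩ g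
  rw [if_pos rfl] at h2
  have h3 : g.trans (finCongr hc).symm = g := by
    ext a
    simp
  rw [h3]
  exact h2

theorem pr_W_VAL (h4 : W_SGB) : W_VAL := by
  intro b c _ _ κ₀ hp _ V U d s₀ s Lam hLam h σ hl
  obtain ⟨hi, hhi⟩ := W_VAL_split σ h hl
  obtain ⟨F', hF'⟩ : ∃ F' : ∀ j, Fm b c (ML κ₀ (ks s₀ j)),
      ∀ i, F' (σ i) = rel (hi i) (V.v (ks s i) (xs s i).1 (xs s i).2) :=
    ⟨(Equiv.piCongrLeft (fun j => Fm b c (ML κ₀ (ks s₀ j))) σ)
      (fun i => rel (hi i) (V.v (ks s i) (xs s i).1 (xs s i).2)),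
      fun i => Equiv.piCongrLeft_apply_apply _ σ _ i⟩
  have key : Lam (rel h (bv V (xs s))) = ∏ i, U.mu (ks s₀ (σ i)) (xs s₀ (σ i))
      (rel (hi i) (V.v (ks s i) (xs s i).1 (xs s i).2)) := by
    unfold bv
    rw [W_VAL_bx σ h hi hhi _ F' hF', hLam, ← Equiv.prod_comp σ]
    refine Finset.prod_congr rfl fun i _ => ?_
    rw [hF' i]
  refine ⟨?_, ?_⟩
  · intro hne i
    rw [key] at hne
    have h1 := (Finset.prod_ne_zero_iff.mp hne) i (mem_univ i)
    exact W_VAL_a hp V U (s₀ (σ i)) (s i) (hi i) h1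
  · intro hs h'
    rw [key]
    have h2 : h.trans (bpe κ₀ σ h').symm = Equiv.sigmaCongrRight
        (fun i => (hi i).trans (finCongr (by rw [h' i] :
          ks s i * κ₀.1 + ks s i * κ₀.2 = ks s₀ (σ i) * κ₀.1 + ks s₀ (σ i) * κ₀.2)).symm) := by
      apply Equiv.ext
      rintro ⟨i, a⟩
      rw [Equiv.trans_apply, Equiv.symm_apply_eq, hhi]
      simp [bpe, Equiv.sigmaCongr]
    rw [h2, h4 d (fun i => ML κ₀ (ks s i))]
    refine Finset.prod_congr rfl fun i _ => ?_
    exact W_VAL_b V U (s₀ (σ i)) (s i) (hs i) (hi i) _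

end Pool.Agent.Work.MP_c41774_al.Full

end
end

section

/-!
# Block P, word level: item W_ZERO (the case `K = 0`)
-/

set_option autoImplicit false

noncomputable section

namespace Pool.Agent.Work.MP_c41774_al.Full

open Finset MvPolynomial
open Pool.Agent.Work.MP_c41774_al.Wall

theorem W_ZERO_smc (b c : ℕ) (κ₀ : ℕ × ℕ) (j : ℕ) :
    smc (X := Gn b c κ₀) gsz gdg god 0 (j : ℤ) = if j = 0 then 1 else 0 := by
  unfold smc
  have h0 : ∀ m : Gn b c κ₀ →₀ ℕ, (m.sum fun x n => n * gsz x) = 0 → m = 0 := by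
    intro m hm
    ext x
    by_contra hx
    have hx' : x ∈ m.support := Finsupp.mem_support_iff.2 hx
    have := (Finset.sum_eq_zero_iff.1 hm) x hx'
    rcases Nat.mul_eq_zero.1 this with h | h
    · exact hx h
    · exact absurd h (Nat.succ_ne_zero _)
  by_cases hj : j = 0
  · subst hj
    rw [if_pos rfl, Nat.card_eq_one_iff_unique]
    refine ⟨⟨fun m m' => Subtype.ext ?_⟩, ⟨⟨0, ?_, ?_, ?_⟩⟩⟩
    · rw [h0 m.1 m.2.2.1, h0 m'.1 m'.2.2.1]
    · intro x _
      simp
    · rw [Finsupp.sum_zero_index]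
    · rw [Finsupp.sum_zero_index]
      rfl
  · rw [if_neg hj]
    have : IsEmpty {m : Gn b c κ₀ →₀ ℕ // (∀ x, god x → m x ≤ 1) ∧
        (m.sum fun x n => n * gsz x) = 0 ∧ (m.sum fun x n => (n : ℤ) * gdg x) = (j : ℤ)} := by
      refine ⟨fun m => hj ?_⟩
      have h1 := h0 m.1 m.2.2.1
      have h2 := m.2.2.2
      rw [h1, Finsupp.sum_zero_index] at h2
      exact_mod_cast h2.symm
    exact Nat.card_of_isEmpty

theorem W_ZERO_Ip {L : Type} [Fintype L] [DecidableEq L] [IsEmpty L] (κ₀ : ℕ × ℕ)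
    (τ : L → Bool) : Ip κ₀ τ (tv (L := L)) = ⊥ := by
  unfold Ip
  rw [Ideal.span_eq_bot]
  rintro f ⟨T, hT, -⟩
  have hT0 : T = ∅ := Finset.eq_empty_of_isEmpty T
  subst hT0
  simp [th, nx, ny] at hT

theorem W_ZERO_dim (h1 : C_CARD) {L : Type} [Fintype L] [DecidableEq L] [IsEmpty L] (b c : ℕ)
    (κ₀ : ℕ × ℕ) (j : ℕ) :
    dimQ (VV b c L (0, 0) j) (vin (IpS L κ₀)) = if j = 0 then 1 else 0 := by
  by_cases hj : j = 0
  · subst hj
    rw [if_pos rfl]
    have := h1 (Fm b c L) (VV b c L (0, 0) 0) (vin (IpS L κ₀)) Unit (fun _ _ => 1) ?_ ?_ ?_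
    · rw [this]
      rfl
    · rintro -
      refine ⟨fun g => ?_, fun w hw => ?_, fun w m hm => ?_⟩
      · have hg : g = 1 := Subsingleton.elim _ _
        subst hg
        funext w
        simp [act, sg]
      · exact absurd (by simp [chg, nx, ny]) hw
      · have hm0 : m = 0 := Subsingleton.elim _ _
        subst hm0
        simp
    · intro a ha
      funext u
      have hw := ha (fun l => isEmptyElim l)
      rw [Fintype.sum_unique] at hw
      have hw' : (a default • (1 : MvPolynomial L ℚ)) ∈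
          Ip κ₀ (tw (fun l => isEmptyElim l : L → Col b c)) (tv (L := L)) := hw
      rw [W_ZERO_Ip, Ideal.mem_bot] at hw'
      rcases smul_eq_zero.1 hw' with h | h
      · exact h
      · exact absurd h one_ne_zero
    · intro u _
      refine ⟨fun _ => (u (fun l => isEmptyElim l)).coeff 0, fun w => ?_⟩
      have hw : w = fun l => isEmptyElim l := Subsingleton.elim _ _
      have h0 : (u - ∑ i : Unit, (fun _ => (u (fun l => isEmptyElim l)).coeff 0 : Unit → ℚ) i •
          (fun _ _ => 1 : Unit → Fm b c L) i) w = 0 := by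
        rw [Fintype.sum_unique]
        change u w - (u (fun l => isEmptyElim l)).coeff 0 • (1 : MvPolynomial L ℚ) = 0
        rw [← hw, sub_eq_zero, MvPolynomial.smul_eq_C_mul, mul_one]
        exact MvPolynomial.eq_C_of_isEmpty _
      rw [h0]
      exact Submodule.zero_mem _
  · rw [if_neg hj]
    have := h1 (Fm b c L) (VV b c L (0, 0) j) (vin (IpS L κ₀)) Empty (fun i => i.elim) ?_ ?_ ?_
    · rw [this]
      rfl
    · rintro ⟨⟩
    · intro a _
      funext i
      exact i.elim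
    · intro u hu
      refine ⟨fun i => i.elim, fun w => ?_⟩
      have h0 : u w = 0 := by
        rw [← MvPolynomial.support_eq_empty, Finset.eq_empty_iff_forall_notMem]
        intro m hm
        have h2 := hu.2.2 w m hm
        have hm0 : m = 0 := Subsingleton.elim _ _
        subst hm0
        apply hj
        rw [← h2]
        simp
      rw [Finset.univ_eq_empty, Finset.sum_empty, sub_zero, h0]
      exact Submodule.zero_mem _

/-- the case `K = 0` -/
theorem pr_W_ZERO (h1 : C_CARD) : W_ZERO := by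
  intro b c _ _ κ₀ j
  rw [W_ZERO_smc]
  have : IsEmpty (Fin (((0, 0) : ℕ × ℕ).1 + ((0, 0) : ℕ × ℕ).2)) :=
    inferInstanceAs (IsEmpty (Fin 0))
  exact W_ZERO_dim h1 b c κ₀ j

end Pool.Agent.Work.MP_c41774_al.Full

end
end
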