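import Pool.Agent.Work.MP_c41774_al.Full.RStmts
import Pool.Agent.Work.MP_c41774_al.Bd.B02

/-! Bundle of small proof modules (one section per former module). -/

section

/-!
# Item R21 (B1): the coefficients of the top part satisfy the relative growth condition
-/

noncomputable section

namespace Pool.Agent.Work.MP_c41774_al.Full

open Finset MvPolynomial
open Pool.Agent.Work.MP_c41774_al.Wall

theorem pr_R_B1 : Q_EXCH → Q_TTC → Q_B1 := by
  intro hE hT L _ _ κ₀ τ n f hf d β _ α hα d' δ φ hδ hφ α' hα'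
  have hβ : β = φ ∘ δ := funext hφ
  have h1 : (Sh δ ((Sh β f).coeff α)).coeff α' = ((TT φ (Sh δ f)).coeff α).coeff α' := by
    rw [← hE L (Fin d) (Fin d') δ φ f, coeff_map, hβ]
    rfl
  rw [h1]
  refine hT (MvPolynomial L ℚ) (Fin d) (Fin d') φ ((Ip κ₀ τ δ).restrictScalars ℚ) (Sh δ f) α α'
    fun η hη => ?_
  refine hf d' δ hδ η ?_
  rw [hη]
  push_cast
  linarith

end Pool.Agent.Work.MP_c41774_al.Full

end
end

section

/-!
# Block R, item BDEC: `P_d(γ)` is the product of the `P₁` of the blocks, plus `I⁺_γ`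
-/

noncomputable section

namespace Pool.Agent.Work.MP_c41774_al.Full

open Finset MvPolynomial
open Pool.Agent.Work.MP_c41774_al.Wall

/-- the intermediate generating sets -/
def BDEC_S {L : Type} [Fintype L] [DecidableEq L] (κ₀ : ℕ × ℕ) (τ : L → Bool) {d₀ : ℕ}
    (γ : L → Fin d₀) (j : ℕ) : Set (MvPolynomial L ℚ) :=
  {z | ∃ b : Fin d₀ → MvPolynomial L ℚ, (∀ i : Fin d₀, (i : ℕ) < j → b i ∈ BB κ₀ τ γ i) ∧
    ∃ y ∈ PR κ₀ d₀ τ γ, y ∈ supported ℚ {l | j ≤ (γ l : ℕ)} ∧
      z = (∏ i ∈ univ.filter (fun i : Fin d₀ => (i : ℕ) < j), b i) * y}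

theorem BDEC_step (h2 : Q_TWO) {L : Type} [Fintype L] [DecidableEq L] (κ₀ : ℕ × ℕ)
    (h01 : 0 < κ₀.1) (h02 : 0 < κ₀.2) (τ : L → Bool) {d₀ : ℕ} (γ : L → Fin d₀)
    (hγ : Good κ₀ τ γ) (j : ℕ) (hj : j < d₀) :
    Submodule.span ℚ (BDEC_S κ₀ τ γ j) ≤
      Submodule.span ℚ (BDEC_S κ₀ τ γ (j + 1)) ⊔ (Ip κ₀ τ γ).restrictScalars ℚ := by
  rw [Submodule.span_le]
  rintro z ⟨b, hb, y, hy, hys, rfl⟩
  have h3 := h2 L κ₀ h01 h02 τ d₀ γ hγ ⟨j, hj⟩ y hy (by
    refine supported_mono ?_ hys
    intro l hl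
    exact Fin.le_def.mpr hl)
  set P : MvPolynomial L ℚ := ∏ i ∈ univ.filter (fun i : Fin d₀ => (i : ℕ) < j), b i with hP
  have h4 : LinearMap.mulLeft ℚ P y ∈ (Submodule.span ℚ {z | ∃ x ∈ BB κ₀ τ γ ⟨j, hj⟩,
      ∃ y ∈ PR κ₀ d₀ τ γ, y ∈ supported ℚ {l | (⟨j, hj⟩ : Fin d₀) < γ l} ∧ z = x * y} ⊔
        (Ip κ₀ τ γ).restrictScalars ℚ).map (LinearMap.mulLeft ℚ P) :=
    Submodule.mem_map_of_mem h3
  rw [Submodule.map_sup, Submodule.map_span] at h4
  refine SetLike.le_def.mp (sup_le_sup ?_ ?_) h4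
  · rw [Submodule.span_le]
    rintro _ ⟨_, ⟨x, hx, y', hy', hys', rfl⟩, rfl⟩
    apply Submodule.subset_span
    refine ⟨Function.update b ⟨j, hj⟩ x, ?_, y', hy', ?_, ?_⟩
    · intro i hi
      by_cases hij : i = ⟨j, hj⟩
      · subst hij
        rw [Function.update_self]
        exact hx
      · rw [Function.update_of_ne hij]
        refine hb i ?_
        have : (i : ℕ) ≠ j := fun h => hij (Fin.ext h)
        omega
    · refine supported_mono ?_ hys'
      intro l hl
      exact Nat.succ_le_of_lt (Fin.lt_def.mp hl)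
    · rw [LinearMap.mulLeft_apply]
      have e1 : univ.filter (fun i : Fin d₀ => (i : ℕ) < j + 1) =
          insert ⟨j, hj⟩ (univ.filter (fun i : Fin d₀ => (i : ℕ) < j)) := by
        ext i
        simp only [mem_filter, mem_univ, true_and, mem_insert, Fin.ext_iff]
        omega
      rw [e1, Finset.prod_insert (by simp), Function.update_self]
      have e2 : ∏ i ∈ univ.filter (fun i : Fin d₀ => (i : ℕ) < j), Function.update b ⟨j, hj⟩ x i =
          P := by
        refine Finset.prod_congr rfl fun i hi => ?_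
        rw [Function.update_of_ne]
        intro h
        rw [h] at hi
        simp at hi
      rw [e2]
      ring
  · rintro _ ⟨f, hf, rfl⟩
    rw [LinearMap.mulLeft_apply]
    exact Ideal.mul_mem_left _ _ hf

theorem BDEC_all (h2 : Q_TWO) {L : Type} [Fintype L] [DecidableEq L] (κ₀ : ℕ × ℕ)
    (h01 : 0 < κ₀.1) (h02 : 0 < κ₀.2) (τ : L → Bool) {d₀ : ℕ} (γ : L → Fin d₀)
    (hγ : Good κ₀ τ γ) (g : MvPolynomial L ℚ) (hg : g ∈ PR κ₀ d₀ τ γ) (j : ℕ) (hj : j ≤ d₀) :
    g ∈ Submodule.span ℚ (BDEC_S κ₀ τ γ j) ⊔ (Ip κ₀ τ γ).restrictScalars ℚ := by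
  induction j with
  | zero =>
    apply Submodule.mem_sup_left
    apply Submodule.subset_span
    refine ⟨fun _ => 0, fun i hi => absurd hi (Nat.not_lt_zero _), g, hg, ?_, ?_⟩
    · have : {l : L | 0 ≤ (γ l : ℕ)} = Set.univ := by
        ext l; simp
      rw [this, supported_univ]
      exact Algebra.mem_top
    · simp
  | succ j ih =>
    exact SetLike.le_def.mp (sup_le (BDEC_step h2 κ₀ h01 h02 τ γ hγ j (by omega)) le_sup_right)
      (ih (by omega))

theorem pr_R_BDEC : Q_TWO → Q_BDEC := by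
  intro h2 L _ _ κ₀ h01 h02 τ d₀ γ hγ g hg
  refine SetLike.le_def.mp (sup_le_sup ?_ le_rfl) (BDEC_all h2 κ₀ h01 h02 τ γ hγ g hg d₀ le_rfl)
  rw [Submodule.span_le]
  rintro z ⟨b, hb, y, hy, hys, rfl⟩
  have h5 : {l : L | d₀ ≤ (γ l : ℕ)} = ∅ := by
    ext l
    have := (γ l).2
    simp only [Set.mem_ofPred_eq, Set.mem_empty_iff_false, iff_false]
    omega
  rw [h5, supported_empty, Algebra.mem_bot] at hys
  obtain ⟨r, rfl⟩ := hys
  have h6 : (∏ i ∈ univ.filter (fun i : Fin d₀ => (i : ℕ) < d₀), b i) *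
      (algebraMap ℚ (MvPolynomial L ℚ)) r = r • ∏ i, b i := by
    rw [Algebra.smul_def, mul_comm]
    congr 1
    refine Finset.prod_congr ?_ fun _ _ => rfl
    ext i
    simp
  rw [h6]
  refine Submodule.smul_mem _ r (Submodule.subset_span ⟨b, fun i => hb i i.2, rfl⟩)

end Pool.Agent.Work.MP_c41774_al.Full

end
end

section

/-!
# Block R: R_BLK
-/

noncomputable section

namespace Pool.Agent.Work.MP_c41774_al.Full

open Finset MvPolynomial
open Pool.Agent.Work.MP_c41774_al.Wall

/-- degree bounds modulo an ideal are additive -/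
theorem R_BLK_prod {A : Type*} [CommRing A] (I : Ideal A) {σ ι : Type*} [DecidableEq ι]
    (s : Finset ι) (F : ι → MvPolynomial σ A) (N : ι → ℤ)
    (hF : ∀ i ∈ s, ∀ α : σ →₀ ℕ, N i < 2 * (α.degree : ℤ) → (F i).coeff α ∈ I) :
    ∀ α : σ →₀ ℕ, ∑ i ∈ s, N i < 2 * (α.degree : ℤ) → (∏ i ∈ s, F i).coeff α ∈ I := by
  classical
  induction s using Finset.induction_on with
  | empty =>
    intro α hα
    rw [Finset.sum_empty] at hα
    rw [Finset.prod_empty, coeff_one, if_neg]
    · exact Ideal.zero_mem _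
    · intro h
      rw [← h] at hα
      simp at hα
  | insert a s ha ih =>
    intro α hα
    rw [Finset.sum_insert ha] at hα
    rw [Finset.prod_insert ha, coeff_mul]
    refine Ideal.sum_mem _ fun x hx => ?_
    rw [Finset.HasAntidiagonal.mem_antidiagonal] at hx
    have hdeg : (α.degree : ℤ) = (x.1.degree : ℤ) + (x.2.degree : ℤ) := by
      rw [← hx, map_add]
      push_cast
      ring
    by_cases h1 : N a < 2 * (x.1.degree : ℤ)
    · exact Ideal.mul_mem_right _ _ (hF a (Finset.mem_insert_self a s) x.1 h1)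
    · refine Ideal.mul_mem_left _ _ (ih (fun i hi => hF i (Finset.mem_insert_of_mem hi)) x.2 ?_)
      omega

theorem R_BLK_ShC {X Y : Type*} (g : X → Y) (r : ℚ) :
    Sh g (C r : MvPolynomial X ℚ) = C (C r) := by
  have := (Sh g).commutes r
  rw [MvPolynomial.algebraMap_eq] at this
  rw [this]
  rfl

/-- shifts of a renamed polynomial -/
theorem R_BLK_Sh {L L' D D' : Type*} (ι : L' → L) (j : D' → D) (β : L → D) (β' : L' → D')
    (h : ∀ l, β (ι l) = j (β' l)) (f : MvPolynomial L' ℚ) :
    Sh β (rename ι f) = rename j (MvPolynomial.map (rename ι : MvPolynomial L' ℚ →ₐ[ℚ]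
      MvPolynomial L ℚ).toRingHom (Sh β' f)) := by
  have key : (Sh β).toRingHom.comp (rename ι : MvPolynomial L' ℚ →ₐ[ℚ] MvPolynomial L ℚ).toRingHom
      = ((rename j : MvPolynomial D' (MvPolynomial L ℚ) →ₐ[MvPolynomial L ℚ] _).toRingHom.comp
        (MvPolynomial.map (rename ι : MvPolynomial L' ℚ →ₐ[ℚ] MvPolynomial L ℚ).toRingHom)).comp
          (Sh β').toRingHom := by
    refine MvPolynomial.ringHom_ext (fun r => ?_) (fun l => ?_)
    · simp only [RingHom.comp_apply, AlgHom.toRingHom_eq_coe, RingHom.coe_coe, rename_C]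
      rw [R_BLK_ShC, R_BLK_ShC, map_C, rename_C]
      congr 1
      exact (rename_C ι r).symm
    · simp only [RingHom.comp_apply, AlgHom.toRingHom_eq_coe, RingHom.coe_coe, rename_X]
      unfold Sh
      rw [aeval_X, aeval_X, map_add, map_C, map_X, map_add, rename_C, rename_X, h]
      congr 2
      exact (rename_X ι l).symm
  exact RingHom.congr_fun key f

theorem pr_R_BLK (h1 : Q_SPLIT) (h2 : Q_IPI) : R_BLK := by
  intro κ₀ hκ1 hκ2 d M _ _ τ n f hfst hf d' β φ hβ hφ α hα
  obtain ⟨r, β', j, hg, hj, hji, hjφ, hsum, hdeg⟩ :=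
    h1 d M κ₀ hκ1 hκ2 τ d' β φ hfst hβ hφ
  rw [map_prod]
  refine R_BLK_prod (Ip κ₀ τ β) univ _
    (fun i => 2 * (dege (fun a => τ ⟨i, a⟩) (β' i) : ℤ) + n i - r i) ?_ α ?_
  · intro i _ α hα
    rw [R_BLK_Sh (Sigma.mk i) (j i) β (β' i) (hj i)]
    by_cases hex : ∃ α' : Fin (r i) →₀ ℕ, α'.mapDomain (j i) = α
    · obtain ⟨α', rfl⟩ := hex
      rw [coeff_rename_mapDomain _ (hji i), coeff_map]
      have hdeg' : (α'.mapDomain (j i)).degree = α'.degree := Finsupp.degree_mapDomain _ _
      rw [hdeg'] at hα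
      have h3 := hf i (r i) (β' i) (hg i) α' hα
      exact (h2 (Σ i, M i) (M i) κ₀ hκ1 hκ2 τ d' β (Sigma.mk i) (r i) (β' i) (j i) hβ
        sigma_mk_injective (hji i) (hj i) (fun l ⟨k, hk⟩ => by
          have h4 : l.1 = i := by rw [hφ l, hk, hjφ]
          obtain ⟨i', a⟩ := l
          simp only at h4
          subst h4
          exact ⟨a, rfl⟩) _).mpr h3
    · rw [coeff_rename_eq_zero]
      · exact Ideal.zero_mem _
      · intro u hu
        exact absurd ⟨u, hu⟩ hex
  · rw [Finset.sum_sub_distrib, Finset.sum_add_distrib, ← Finset.mul_sum]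
    have e1 : (dege τ β : ℤ) = dege τ (Sigma.fst : (Σ i, M i) → Fin d) +
        ∑ i, (dege (fun a => τ ⟨i, a⟩) (β' i) : ℤ) := by
      rw [hdeg]; push_cast; ring
    have e2 : (d' : ℤ) = ∑ i, (r i : ℤ) := by rw [← hsum]; push_cast; ring
    rw [e1, e2] at hα
    refine lt_of_eq_of_lt ?_ hα
    ring

end Pool.Agent.Work.MP_c41774_al.Full

end
end

section

/-!
# Item R_CTI: contraction maps `I⁺_β` to `I⁺_β`
-/

noncomputable section

namespace Pool.Agent.Work.MP_c41774_al.Full

open Finset MvPolynomial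
open Pool.Agent.Work.MP_c41774_al.Wall

theorem R_CTI_prIp {L : Type} [Fintype L] [DecidableEq L] {κ₀ : ℕ × ℕ} {τ : L → Bool} {d : ℕ}
    {β : L → Fin d} {T : Finset L} (hT : 0 < th κ₀ τ T) : pr (cut τ β T) ∈ Ip κ₀ τ β :=
  Ideal.subset_span ⟨T, hT, rfl⟩

theorem R_CTI_prS {L : Type} [Fintype L] [DecidableEq L] {τ : L → Bool} {d : ℕ}
    {β : L → Fin d} {T : Finset L} {i : Fin d} {J : Set (Fin d)} (hi : i ∈ J)
    (hT : T ⊆ blk β i) : pr (cut τ β T) ∈ supported ℚ {l | β l ∈ J} := by
  unfold pr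
  refine Subalgebra.prod_mem _ fun e he => ?_
  unfold cut at he
  rw [mem_filter] at he
  obtain ⟨_, h1, _, _, _, h5⟩ := he
  have h6 : β e.1 = i := by
    have := hT h1
    unfold blk at this
    rw [mem_filter] at this
    exact this.2
  refine Subalgebra.sub_mem _ ?_ ?_
  · rw [X_mem_supported]
    show β e.2 ∈ J
    rw [← h5, h6]; exact hi
  · rw [X_mem_supported]
    show β e.1 ∈ J
    rw [h6]; exact hi

theorem pr_R_CTI : Q_CTR → Q_DEC → Q_SPL → Q_CTI := by
  intro hCTR hDEC hSPL L _ _ κ₀ hp hq τ d β hβ J J' hJ μ hμ m a b ha hb hsum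
  obtain ⟨c, hc⟩ := hCTR L {l | β l ∈ J} μ
  have hsub : ({l | β l ∈ J'} : Set L) ⊆ ({l | β l ∈ J} : Set L)ᶜ := by
    intro l hl hl'
    exact Set.disjoint_left.mp hJ hl' hl
  have hb' : ∀ i, b i ∈ supported ℚ (({l | β l ∈ J} : Set L)ᶜ) :=
    fun i => supported_mono hsub (hb i)
  have e1 : c (∑ i, a i * b i) = ∑ i, μ (b i) • a i := by
    rw [map_sum]
    exact Finset.sum_congr rfl fun i _ => hc _ (ha i) _ (hb' i)
  rw [← e1]
  have hU : ({l | β l ∈ J ∪ J'} : Set L) = {l | β l ∈ J} ∪ {l | β l ∈ J'} := rfl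
  have hf : ∑ i, a i * b i ∈ supported ℚ {l | β l ∈ J ∪ J'} := by
    rw [hU]
    exact Subalgebra.sum_mem _ fun i _ => Subalgebra.mul_mem _
      (supported_mono Set.subset_union_left (ha i)) (supported_mono Set.subset_union_right (hb i))
  have hspan := hSPL L κ₀ hp hq τ d β hβ (J ∪ J') _ hsum hf
  have hle : Submodule.span ℚ {g | ∃ (i : Fin d) (T : Finset L) (h : MvPolynomial L ℚ),
      i ∈ J ∪ J' ∧ T ⊆ blk β i ∧ 0 < th κ₀ τ T ∧ h ∈ supported ℚ {l | β l ∈ J ∪ J'} ∧
        g = h * pr (cut τ β T)} ≤ ((Ip κ₀ τ β).restrictScalars ℚ).comap c := by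
    rw [Submodule.span_le]
    rintro g ⟨i, T, h, hi, hT, hth, hh, rfl⟩
    show c (h * pr (cut τ β T)) ∈ Ip κ₀ τ β
    rw [hU] at hh
    obtain ⟨n, a', b', ha', hb'', rfl⟩ := hDEC L _ _ h hh
    rw [Finset.sum_mul, map_sum]
    refine Ideal.sum_mem _ fun k _ => ?_
    rcases hi with hi | hi
    · have : a' k * b' k * pr (cut τ β T) = (a' k * pr (cut τ β T)) * b' k := by ring
      rw [this, hc _ (Subalgebra.mul_mem _ (ha' k) (R_CTI_prS hi hT)) _
        (supported_mono hsub (hb'' k))]
      exact Submodule.smul_of_tower_mem _ _ (Ideal.mul_mem_left _ _ (R_CTI_prIp hth))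
    · have : a' k * b' k * pr (cut τ β T) = a' k * (b' k * pr (cut τ β T)) := by ring
      have hS' : b' k * pr (cut τ β T) ∈ supported ℚ {l | β l ∈ J'} :=
        Subalgebra.mul_mem _ (hb'' k) (R_CTI_prS hi hT)
      rw [this, hc _ (ha' k) _ (supported_mono hsub hS'),
        hμ _ (Ideal.mul_mem_left _ _ (R_CTI_prIp hth)) hS', zero_smul]
      exact Ideal.zero_mem _
  exact hle hspan

end Pool.Agent.Work.MP_c41774_al.Full

end
end

section

/-!
# Item CTP: contraction preserves the growth condition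
-/

noncomputable section

namespace Pool.Agent.Work.MP_c41774_al.Full

open Finset MvPolynomial
open Pool.Agent.Work.MP_c41774_al.Wall

section CTPaux

variable {L D : Type}

/-- polynomials in the outer variables `T` with coefficients in the inner variables `S` -/
def CTP_alg (S : Set L) (T : Set D) : Subalgebra ℚ (MvPolynomial D (MvPolynomial L ℚ)) where
  carrier := {P | ∀ α, P.coeff α ∈ supported ℚ S ∧ (P.coeff α ≠ 0 → (α.support : Set D) ⊆ T)}
  mul_mem' := by
    classical
    intro P Q hP hQ α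
    rw [coeff_mul]
    refine ⟨sum_mem fun x _ => mul_mem (hP x.1).1 (hQ x.2).1, fun h => ?_⟩
    obtain ⟨x, hx, hx0⟩ := Finset.exists_ne_zero_of_sum_ne_zero h
    have h1 := (hP x.1).2 (left_ne_zero_of_mul hx0)
    have h2 := (hQ x.2).2 (right_ne_zero_of_mul hx0)
    rw [Finset.HasAntidiagonal.mem_antidiagonal] at hx
    rw [← hx]
    intro i hi
    rcases Finset.mem_union.1 (Finsupp.support_add hi) with h3 | h3
    · exact h1 h3
    · exact h2 h3
  add_mem' := by
    intro P Q hP hQ α
    rw [coeff_add]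
    refine ⟨add_mem (hP α).1 (hQ α).1, fun h => ?_⟩
    by_cases h1 : P.coeff α = 0
    · rw [h1, zero_add] at h
      exact (hQ α).2 h
    · exact (hP α).2 h1
  algebraMap_mem' := by
    classical
    intro r α
    have h0 : (algebraMap ℚ (MvPolynomial D (MvPolynomial L ℚ)) r) = C (C r) := rfl
    rw [h0, coeff_C]
    refine ⟨?_, fun h => ?_⟩
    · split_ifs
      · exact (supported ℚ S).algebraMap_mem r
      · exact (supported ℚ S).zero_mem
    · have h1 : (0 : D →₀ ℕ) = α := by
        by_contra h2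
        exact h (if_neg h2)
      rw [← h1]
      simp

theorem CTP_Sh_mem (β : L → D) (S : Set L) {f : MvPolynomial L ℚ} (hf : f ∈ supported ℚ S) :
    Sh β f ∈ CTP_alg S (β '' S) := by
  classical
  have h1 : supported ℚ S ≤ (CTP_alg S (β '' S)).comap (Sh β) := by
    refine Algebra.adjoin_le ?_
    rintro _ ⟨l, hl, rfl⟩
    show Sh β (X l) ∈ CTP_alg S (β '' S)
    have h2 : Sh β (X l) = C (X l) + X (β l) := by
      unfold Sh
      rw [aeval_X]
    rw [h2]
    refine add_mem (fun α => ?_) (fun α => ?_)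
    · rw [coeff_C]
      refine ⟨?_, fun h => ?_⟩
      · split_ifs
        · exact Algebra.subset_adjoin ⟨l, hl, rfl⟩
        · exact (supported ℚ S).zero_mem
      · have h3 : (0 : D →₀ ℕ) = α := by
          by_contra h4
          exact h (if_neg h4)
        rw [← h3]
        simp
    · rw [coeff_X]
      refine ⟨?_, fun h => ?_⟩
      · split_ifs
        · exact (supported ℚ S).one_mem
        · exact (supported ℚ S).zero_mem
      · have h3 : Finsupp.single (β l) 1 = α := by
          by_contra h4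
          exact h (if_neg h4)
        rw [← h3]
        intro i hi
        rw [Finset.mem_coe, Finsupp.mem_support_iff] at hi
        have h5 : β l = i := by
          by_contra h6
          exact hi (Finsupp.single_eq_of_ne (fun h => h6 h.symm))
        exact ⟨l, hl, h5⟩
  exact h1 hf

theorem CTP_Sh_zero (β : L → D) (f : MvPolynomial L ℚ) : (Sh β f).coeff 0 = f := by
  have h1 : (constantCoeff : MvPolynomial D (MvPolynomial L ℚ) →+* MvPolynomial L ℚ).comp
      (Sh β).toRingHom = RingHom.id _ := by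
    apply MvPolynomial.ringHom_ext
    · intro r
      have h2 : Sh β (C r) = C (C r) := by
        unfold Sh
        rw [aeval_C]
        rfl
      simp only [RingHom.comp_apply, RingHom.id_apply]
      show constantCoeff (Sh β (C r)) = C r
      rw [h2, constantCoeff_C]
    · intro l
      simp only [RingHom.comp_apply, RingHom.id_apply]
      show constantCoeff (Sh β (X l)) = X l
      unfold Sh
      rw [aeval_X, map_add, constantCoeff_C, constantCoeff_X, add_zero]
  exact congrArg (fun g : MvPolynomial L ℚ →+* MvPolynomial L ℚ => g f) h1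

theorem CTP_Sh_comp {D' : Type} (β : L → D) (φ : D → D') (f : MvPolynomial L ℚ) :
    Sh (φ ∘ β) f = rename φ (Sh β f) := by
  have h1 : (Sh (φ ∘ β)).toRingHom =
      ((rename φ : MvPolynomial D (MvPolynomial L ℚ) →ₐ[MvPolynomial L ℚ]
        MvPolynomial D' (MvPolynomial L ℚ)).toRingHom).comp (Sh β).toRingHom := by
    apply MvPolynomial.ringHom_ext
    · intro r
      have h2 : Sh β (C r) = C (C r) := by
        unfold Sh
        rw [aeval_C]
        rfl
      have h3 : Sh (φ ∘ β) (C r) = C (C r) := by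
        unfold Sh
        rw [aeval_C]
        rfl
      show Sh (φ ∘ β) (C r) = rename φ (Sh β (C r))
      rw [h2, h3, rename_C]
    · intro l
      show Sh (φ ∘ β) (X l) = rename φ (Sh β (X l))
      unfold Sh
      rw [aeval_X, aeval_X, map_add, rename_C, rename_X]
      rfl
  exact congrArg (fun g : MvPolynomial L ℚ →+* MvPolynomial D' (MvPolynomial L ℚ) => g f) h1

theorem CTP_rename_coeff {A D' : Type} [CommRing A] (φ : D → D') (T : Set D) (hφ : Set.InjOn φ T)
    (P : MvPolynomial D A) (hP : ∀ α, P.coeff α ≠ 0 → (α.support : Set D) ⊆ T) (α : D →₀ ℕ)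
    (hα : (α.support : Set D) ⊆ T) :
    (rename φ P).coeff (α.mapDomain φ) = P.coeff α := by
  classical
  have h1 : rename φ P = ∑ δ ∈ P.support, monomial (δ.mapDomain φ) (P.coeff δ) := by
    conv_lhs => rw [P.as_sum]
    rw [map_sum]
    refine Finset.sum_congr rfl fun δ _ => ?_
    rw [rename_monomial]
  rw [h1, coeff_sum]
  simp only [coeff_monomial]
  rw [Finset.sum_eq_single α]
  · rw [if_pos rfl]
  · intro δ hδ hne
    rw [if_neg]
    intro h2
    exact hne (Finsupp.mapDomain_injOn T hφ (hP δ (mem_support_iff.1 hδ)) hα h2)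
  · intro h2
    rw [notMem_support_iff] at h2
    rw [if_pos rfl, h2]

theorem CTP_degree {D' : Type} (φ : D → D') (α : D →₀ ℕ) :
    (α.mapDomain φ).degree = α.degree := Finsupp.degree_mapDomain φ α

theorem CTP_mul_coeff (β : L → D) (S S' : Set L) (hSS : Disjoint (β '' S) (β '' S'))
    {a b : MvPolynomial L ℚ} (hb : b ∈ supported ℚ S') (α : D →₀ ℕ)
    (hα : (α.support : Set D) ⊆ β '' S) :
    (Sh β (a * b)).coeff α = (Sh β a).coeff α * b := by
  classical
  rw [map_mul, coeff_mul, Finset.sum_eq_single (α, 0)]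
  · rw [CTP_Sh_zero]
  · rintro ⟨p, q⟩ hpq hne
    rw [Finset.HasAntidiagonal.mem_antidiagonal] at hpq
    simp only at hpq ⊢
    by_cases hq : (Sh β b).coeff q = 0
    · rw [hq, mul_zero]
    · exfalso
      have h1 := (CTP_Sh_mem β S' hb q).2 hq
      have h2 : (q.support : Set D) ⊆ β '' S := by
        refine Set.Subset.trans ?_ hα
        rw [← hpq]
        intro i hi
        rw [Finset.mem_coe, Finsupp.mem_support_iff] at hi ⊢
        rw [Finsupp.add_apply]
        omega
      have h3 : q = 0 := by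
        rw [← Finsupp.support_eq_empty, ← Finset.coe_eq_empty]
        exact Set.subset_eq_empty (Set.subset_inter h2 h1) (Set.disjoint_iff_inter_eq_empty.1 hSS)
      apply hne
      rw [h3, add_zero] at hpq
      rw [hpq, h3]
  · intro h
    exfalso
    apply h
    rw [Finset.HasAntidiagonal.mem_antidiagonal, add_zero]

end CTPaux

theorem pr_R_CTP : Q_RST → Q_SPL → Q_CTI → Q_CTP := by
  intro hRST hSPL hCTI L _ _ κ₀ hp hq τ d₀ γ hγ J J' hJ μ hμ n m a b ha hb hab
  intro d β χ hβ hχ α hα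
  set h : MvPolynomial L ℚ := ∑ i, μ (b i) • a i with hh
  have hhS : h ∈ supported ℚ {l | γ l ∈ J} :=
    sum_mem fun i _ => (supported ℚ {l | γ l ∈ J}).smul_mem (ha i) _
  have hnb : ∀ i : Fin d, ∃ l, β l = i := by
    intro i
    obtain ⟨l, hl⟩ := (hβ i).1
    exact ⟨l, by simpa using hl⟩
  by_cases hsup : (α.support : Set (Fin d)) ⊆ β '' {l | γ l ∈ J}
  swap
  · have h1 : (Sh β h).coeff α = 0 := by
      by_contra h2
      exact hsup ((CTP_Sh_mem β _ hhS α).2 h2)
    rw [h1]
    exact Ideal.zero_mem _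
  obtain ⟨d', β', φ, χ', hβ', hφ, hχ', hinj, hout, hdeg⟩ :=
    hRST L κ₀ hp hq τ d₀ γ d β χ J hγ hβ hχ
  have hβφ : β' = φ ∘ β := funext hφ
  set α' : Fin d' →₀ ℕ := α.mapDomain φ with hα'
  have hα'deg : α'.degree = α.degree := by
    exact CTP_degree φ α
  have hinjOn : Set.InjOn φ (β '' {l | γ l ∈ J}) := by
    rintro _ ⟨l, hl, rfl⟩ _ ⟨l', hl', rfl⟩ h1
    exact hinj l l' hl h1
  have hα'sup : (α'.support : Set (Fin d')) ⊆ β' '' {l | γ l ∈ J} := by
    classical
    intro i hi
    have h1 := Finsupp.mapDomain_support hi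
    rw [Finset.mem_image] at h1
    obtain ⟨j, hj, rfl⟩ := h1
    obtain ⟨l, hl, rfl⟩ := hsup hj
    exact ⟨l, hl, hφ l⟩
  have hdisj : Disjoint (β' '' {l | γ l ∈ J}) (β' '' {l | γ l ∈ J'}) := by
    rw [Set.disjoint_left]
    rintro _ ⟨l, hl, rfl⟩ ⟨l', hl', h1⟩
    have h2 : γ l = γ l' := by rw [hχ', hχ' l', h1]
    have h3 : γ l ∈ J' := by rw [h2]; exact hl'
    exact Set.disjoint_left.1 hJ hl h3
  -- the growth condition of the product
  have h1 : (Sh β' (∑ i, a i * b i)).coeff α' ∈ Ip κ₀ τ β' := by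
    refine hab d' β' χ' hβ' hχ' α' ?_
    rw [hα'deg]
    have h2 : 2 * (dege τ β' : ℤ) + d ≤ 2 * (dege τ β : ℤ) + d' := by exact_mod_cast hdeg
    linarith
  have h2 : (Sh β' (∑ i, a i * b i)).coeff α' = ∑ i, (Sh β' (a i)).coeff α' * b i := by
    rw [map_sum, coeff_sum]
    exact Finset.sum_congr rfl fun i _ => CTP_mul_coeff β' _ _ hdisj (hb i) α' hα'sup
  rw [h2] at h1
  have hJset : ∀ K : Set (Fin d₀), {l | β' l ∈ {i' | χ' i' ∈ K}} = {l | γ l ∈ K} := by
    intro K
    ext l
    simp only [Set.mem_ofPred_eq]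
    rw [hχ' l]
  have h3 := hCTI L κ₀ hp hq τ d' β' hβ' {i' | χ' i' ∈ J} {i' | χ' i' ∈ J'} (by
      rw [Set.disjoint_left]
      intro i hi hi'
      exact Set.disjoint_left.1 hJ hi hi') μ (by
      intro f hf hfS
      rw [hJset] at hfS
      refine hμ f ?_ hfS
      have h4 := hSPL L κ₀ hp hq τ d' β' hβ' {i' | χ' i' ∈ J'} f hf (by rw [hJset]; exact hfS)
      have h5 : Submodule.span ℚ {g | ∃ (i : Fin d') (T : Finset L) (h : MvPolynomial L ℚ),
          i ∈ {i' | χ' i' ∈ J'} ∧ T ⊆ blk β' i ∧ 0 < th κ₀ τ T ∧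
            h ∈ supported ℚ {l | β' l ∈ {i' | χ' i' ∈ J'}} ∧ g = h * pr (cut τ β' T)} ≤
          (Ip κ₀ τ γ).restrictScalars ℚ := by
        rw [Submodule.span_le]
        rintro g ⟨i, T, h, hi, hT, hth, -, rfl⟩
        have h6 : cut τ β' T = cut τ γ T := by
          unfold cut
          refine Finset.filter_congr fun e _ => ?_
          constructor
          · rintro ⟨h7, h8, h9, h10, h11⟩
            exact ⟨h7, h8, h9, h10, by rw [hχ', hχ' e.2, h11]⟩
          · rintro ⟨h7, h8, h9, h10, h11⟩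
            refine ⟨h7, h8, h9, h10, hout _ _ ?_ h11⟩
            have h12 : β' e.1 = i := by
              have := hT h7
              simpa [blk] using this
            intro h13
            rw [hχ', h12] at h13
            exact Set.disjoint_left.1 hJ h13 hi
        show h * pr (cut τ β' T) ∈ Ip κ₀ τ γ
        rw [h6]
        exact Ideal.mul_mem_left _ _ (Ideal.subset_span ⟨T, hth, rfl⟩)
      exact h5 h4) m (fun i => (Sh β' (a i)).coeff α') b (by
      intro i
      rw [hJset]
      exact (CTP_Sh_mem β' _ (ha i) α').1) (by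
      intro i
      rw [hJset]
      exact hb i) h1
  have h4 : ∑ i, μ (b i) • (Sh β' (a i)).coeff α' = (Sh β h).coeff α := by
    have h5 : ∑ i, μ (b i) • (Sh β' (a i)).coeff α' = (Sh β' h).coeff α' := by
      rw [hh, map_sum, coeff_sum]
      refine Finset.sum_congr rfl fun i _ => ?_
      rw [map_smul, coeff_smul]
    rw [h5, hβφ, CTP_Sh_comp]
    exact CTP_rename_coeff φ _ hinjOn (Sh β h) (fun δ => (CTP_Sh_mem β _ hhS δ).2) α hsup
  rw [← h4]
  exact pr_REF L (Fin d') (Fin d) κ₀ τ β' β φ hφ h3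

end Pool.Agent.Work.MP_c41774_al.Full

end
end

section

/-!
# Item R_CTR: contraction with a functional in the variables outside `S`
-/

noncomputable section

namespace Pool.Agent.Work.MP_c41774_al.Full

open Finset MvPolynomial
open Pool.Agent.Work.MP_c41774_al.Wall

theorem CTR_supp {L : Type} {S : Set L} {a : MvPolynomial L ℚ} (ha : a ∈ supported ℚ S)
    {m : L →₀ ℕ} (hm : m ∈ a.support) {l : L} (hl : m l ≠ 0) : l ∈ S := by
  classical
  rw [mem_supported] at ha
  apply ha
  rw [Finset.mem_coe, MvPolynomial.mem_vars_iff_mem_support]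
  exact ⟨m, hm, Finsupp.mem_support_iff.mpr hl⟩

theorem pr_R_CTR : Q_CTR := by
  classical
  intro L S μ
  obtain ⟨c, hmon⟩ : ∃ c : MvPolynomial L ℚ →ₗ[ℚ] MvPolynomial L ℚ, ∀ m (r : ℚ),
      c (monomial m r) = (r * μ (monomial (m.filter (fun l => l ∉ S)) 1)) •
        monomial (m.filter (fun l => l ∈ S)) 1 := by
    refine ⟨(basisMonomials L ℚ).constr ℚ (fun m =>
      μ (monomial (m.filter (fun l => l ∉ S)) 1) • monomial (m.filter (fun l => l ∈ S)) 1),
      fun m r => ?_⟩
    have h1 : monomial m r = r • basisMonomials L ℚ m := by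
      rw [coe_basisMonomials, smul_monomial, smul_eq_mul, mul_one]
    rw [h1, map_smul, Module.Basis.constr_basis, smul_smul]
  refine ⟨c, fun a ha b hb => ?_⟩
  have h2 : ∀ m ∈ a.support, ∀ m' ∈ b.support,
      c (monomial m (coeff m a) * monomial m' (coeff m' b)) =
        (coeff m' b * μ (monomial m' 1)) • monomial m (coeff m a) := by
    intro m hm m' hm'
    have e1 : (m + m').filter (fun l => l ∈ S) = m := by
      ext l
      by_cases hl : l ∈ S
      · have h3 : m' l = 0 := by
          by_contra h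
          exact CTR_supp hb hm' h hl
        rw [Finsupp.filter_apply_pos _ _ hl, Finsupp.add_apply, h3, add_zero]
      · have h3 : m l = 0 := by
          by_contra h
          exact hl (CTR_supp ha hm h)
        rw [Finsupp.filter_apply_neg _ _ hl, h3]
    have e2 : (m + m').filter (fun l => l ∉ S) = m' := by
      ext l
      by_cases hl : l ∉ S
      · have h3 : m l = 0 := by
          by_contra h
          exact hl (CTR_supp ha hm h)
        rw [Finsupp.filter_apply_pos (fun l => l ∉ S) _ hl, Finsupp.add_apply, h3, zero_add]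
      · have h3 : m' l = 0 := by
          by_contra h
          exact hl (CTR_supp hb hm' h)
        rw [Finsupp.filter_apply_neg (fun l => l ∉ S) _ hl, h3]
    rw [monomial_mul, hmon, e1, e2, smul_monomial, smul_monomial, smul_eq_mul, smul_eq_mul]
    congr 1
    ring
  have ea : ∑ m ∈ a.support, monomial m (coeff m a) = a := a.support_sum_monomial_coeff
  have eb : ∑ m ∈ b.support, monomial m (coeff m b) = b := b.support_sum_monomial_coeff
  have hb' : μ b = ∑ m' ∈ b.support, coeff m' b * μ (monomial m' 1) := by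
    conv_lhs => rw [← eb, map_sum]
    refine Finset.sum_congr rfl fun m' _ => ?_
    have : monomial m' (coeff m' b) = coeff m' b • (monomial m' 1 : MvPolynomial L ℚ) := by
      rw [smul_monomial, smul_eq_mul, mul_one]
    rw [this, map_smul, smul_eq_mul]
  calc c (a * b) = c ((∑ m ∈ a.support, monomial m (coeff m a)) *
        ∑ m' ∈ b.support, monomial m' (coeff m' b)) := by rw [ea, eb]
    _ = ∑ m ∈ a.support, ∑ m' ∈ b.support,
        (coeff m' b * μ (monomial m' 1)) • monomial m (coeff m a) := by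
      rw [Finset.sum_mul_sum, map_sum]
      refine Finset.sum_congr rfl fun m hm => ?_
      rw [map_sum]
      exact Finset.sum_congr rfl fun m' hm' => h2 m hm m' hm'
    _ = μ b • ∑ m ∈ a.support, monomial m (coeff m a) := by
      rw [hb', Finset.smul_sum]
      refine Finset.sum_congr rfl fun m _ => ?_
      rw [Finset.sum_smul]
    _ = μ b • a := by rw [ea]

end Pool.Agent.Work.MP_c41774_al.Full

end
end

section

/-!
# Block R, item DEC: polynomials in two disjoint sets of variables are sums of products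
-/

set_option autoImplicit false

noncomputable section

namespace Pool.Agent.Work.MP_c41774_al.Full

open Finset MvPolynomial
open Pool.Agent.Work.MP_c41774_al.Wall

open scoped Classical in
/-- R25: polynomials in two disjoint sets of variables are sums of products -/
theorem pr_R_DEC : Q_DEC := by
  intro L S S' g hg
  rw [mem_supported] at hg
  have hv : ∀ v ∈ g.support, ∀ l ∈ v.support, l ∈ S ∪ S' := fun v hvs l hl =>
    hg (Finset.mem_coe.2 ((MvPolynomial.mem_vars_iff_mem_support l).2 ⟨v, hvs, hl⟩))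
  let e := g.support.equivFin
  refine ⟨#g.support,
    fun i => monomial (((e.symm i : L →₀ ℕ)).filter (· ∈ S)) (coeff (e.symm i : L →₀ ℕ) g),
    fun i => monomial (((e.symm i : L →₀ ℕ)).filter fun l => ¬ l ∈ S) 1, ?_, ?_, ?_⟩
  · intro i
    rw [mem_supported]
    intro l hl
    obtain ⟨v, hvs, hl'⟩ := (MvPolynomial.mem_vars_iff_mem_support l).1 (Finset.mem_coe.1 hl)
    have hv' := MvPolynomial.support_monomial_subset hvs
    rw [Finset.mem_singleton] at hv'
    rw [hv', Finsupp.support_filter, Finset.mem_filter] at hl'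
    exact hl'.2
  · intro i
    rw [mem_supported]
    intro l hl
    obtain ⟨v, hvs, hl'⟩ := (MvPolynomial.mem_vars_iff_mem_support l).1 (Finset.mem_coe.1 hl)
    have hv' := MvPolynomial.support_monomial_subset hvs
    rw [Finset.mem_singleton] at hv'
    rw [hv', Finsupp.support_filter, Finset.mem_filter] at hl'
    exact (hv _ (e.symm i).2 l hl'.1).resolve_left hl'.2
  · simp only [monomial_mul, Finsupp.filter_add_filter_not, mul_one]
    rw [Equiv.sum_comp e.symm fun v : g.support => monomial (v : L →₀ ℕ) (coeff (v : L →₀ ℕ) g)]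
    rw [Finset.sum_coe_sort g.support fun v => monomial v (coeff v g)]
    exact as_sum g

end Pool.Agent.Work.MP_c41774_al.Full

end
end

section

/-!
# Block R, item Q_DEGE: `deg e_β` is a sum over pairs of blocks and independent of the order
-/

noncomputable section

namespace Pool.Agent.Work.MP_c41774_al.Full

open Finset MvPolynomial
open Pool.Agent.Work.MP_c41774_al.Wall

theorem DEGE_sum {L : Type} [Fintype L] [DecidableEq L] (τ : L → Bool) (d : ℕ) (β : L → Fin d) :
    dege τ β = ∑ i, ∑ j, if i < j then nk τ β i j else 0 := by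
  rw [dege, Finset.card_eq_sum_card_fiberwise (f := fun e : L × L => (β e.1, β e.2))
    (t := (univ : Finset (Fin d × Fin d))) (fun _ _ => Finset.mem_coe.mpr (Finset.mem_univ _)),
    Fintype.sum_prod_type]
  refine Finset.sum_congr rfl fun i _ => Finset.sum_congr rfl fun j _ => ?_
  split_ifs with hij
  · rw [nk, nx, ny, ← Finset.card_product]
    congr 1
    ext e
    simp only [crs, blk, mem_filter, mem_univ, true_and, mem_product, Prod.mk.injEq]
    constructor
    · rintro ⟨⟨h1, h2, h3⟩, h4, h5⟩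
      exact ⟨⟨h4, h1⟩, h5, h2⟩
    · rintro ⟨⟨h4, h1⟩, h5, h2⟩
      exact ⟨⟨h1, h2, by rw [h4, h5]; exact hij⟩, h4, h5⟩
  · rw [Finset.card_eq_zero, Finset.filter_eq_empty_iff]
    intro e he h
    simp only [crs, mem_filter, mem_univ, true_and] at he
    rw [Prod.mk.injEq] at h
    rw [← h.1, ← h.2] at hij
    exact hij he.2.2

theorem DEGE_two {d : ℕ} (N : Fin d → Fin d → ℕ) (hN : ∀ i j, N i j = N j i) :
    2 * (∑ i, ∑ j, if i < j then N i j else 0) = ∑ i, ∑ j, if i ≠ j then N i j else 0 := by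
  have h1 : (∑ i, ∑ j, if i < j then N i j else 0) = ∑ i, ∑ j, if j < i then N i j else 0 := by
    rw [Finset.sum_comm]
    refine Finset.sum_congr rfl fun i _ => Finset.sum_congr rfl fun j _ => ?_
    rw [hN j i]
  rw [two_mul]
  nth_rewrite 2 [h1]
  rw [← Finset.sum_add_distrib]
  refine Finset.sum_congr rfl fun i _ => ?_
  rw [← Finset.sum_add_distrib]
  refine Finset.sum_congr rfl fun j _ => ?_
  rcases lt_trichotomy i j with h | h | h
  · rw [if_pos h, if_neg (not_lt.mpr h.le), if_pos h.ne, add_zero]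
  · rw [if_neg (by rw [h]; exact lt_irrefl _), if_neg (by rw [h]; exact lt_irrefl _),
      if_neg (by rw [h]; exact not_not.mpr rfl)]
  · rw [if_neg (not_lt.mpr h.le), if_pos h, if_pos h.ne', zero_add]

theorem DEGE_blk {L : Type} [Fintype L] [DecidableEq L] {d : ℕ} (β : L → Fin d)
    (σ : Equiv.Perm (Fin d)) (i : Fin d) : blk (σ ∘ β) i = blk β (σ.symm i) := by
  ext l
  simp only [blk, mem_filter, mem_univ, true_and, Function.comp]
  exact ⟨fun h => by rw [← h, Equiv.symm_apply_apply], fun h => by rw [h, Equiv.apply_symm_apply]⟩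

theorem pr_R_DEGE : Q_SYMN → Q_DEGE := by
  intro hS L _ _ κ₀ hp hq τ d β hβ
  refine ⟨?_, ?_⟩
  · rw [DEGE_sum]
    refine Finset.sum_congr rfl fun i _ => ?_
    rw [← Finset.sum_filter]
    refine Finset.sum_congr ?_ fun _ _ => rfl
    ext j
    simp
  · intro σ
    have hG : Good κ₀ τ (σ ∘ β) := by
      intro i
      have h1 := DEGE_blk β σ i
      simp only [blk] at h1
      rw [h1]
      exact hβ (σ.symm i)
    refine ⟨hG, ?_⟩
    have hs : ∀ i j, nk τ β i j = nk τ β j i := fun i j => (hS L κ₀ hp hq τ d β hβ i j).1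
    have h1 := DEGE_two (fun i j => nk τ β i j) hs
    have h2 := DEGE_two (fun i j => nk τ (σ ∘ β) i j)
      (fun i j => (hS L κ₀ hp hq τ d (σ ∘ β) hG i j).1)
    have hk : ∀ i j, nk τ (σ ∘ β) i j = nk τ β (σ.symm i) (σ.symm j) := by
      intro i j
      rw [nk, nk, DEGE_blk, DEGE_blk]
    have h3 : (∑ i, ∑ j, if i ≠ j then nk τ (σ ∘ β) i j else 0) =
        ∑ i, ∑ j, if i ≠ j then nk τ β i j else 0 := by
      rw [← Equiv.sum_comp σ.symm (fun i => ∑ j, if i ≠ j then nk τ β i j else 0)]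
      refine Finset.sum_congr rfl fun i _ => ?_
      rw [← Equiv.sum_comp σ.symm (fun j => if σ.symm i ≠ j then nk τ β (σ.symm i) j else 0)]
      refine Finset.sum_congr rfl fun j _ => ?_
      rw [hk]
      simp only [ne_eq, EmbeddingLike.apply_eq_iff_eq]
    rw [DEGE_sum, DEGE_sum]
    omega

end Pool.Agent.Work.MP_c41774_al.Full

end
end

section

/-!
# Item R DIV
-/

noncomputable section

namespace Pool.Agent.Work.MP_c41774_al.Full

open Finset MvPolynomial
open Pool.Agent.Work.MP_c41774_al.Wall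

/-- `TT` commutes with base change. -/
lemma R_DIV_TT_map {A B : Type*} [CommRing A] [CommRing B] {D D' : Type*} (φ : D' → D)
    (g : A →+* B) (F : MvPolynomial D' A) :
    TT φ (MvPolynomial.map g F) = MvPolynomial.map (MvPolynomial.map g) (TT φ F) := by
  induction F using MvPolynomial.induction_on with
  | C a => simp [TT]
  | add p q hp hq => simp only [map_add, hp, hq]
  | mul_X p n hp =>
    rw [map_mul, map_mul, map_mul, map_mul, hp]
    congr 1
    simp [TT]

theorem pr_R_DIV : Q_MERGE → Q_EXCH → Q_TTC → Q_TAY → Q_DIV := by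
  intro hM hX hT hY L _ _ κ₀ h1 h2 τ n f hf e β hβ D₀ hD₀ k l hkl
  obtain ⟨φ, hφ, hgood, hdeg⟩ := hM L κ₀ h1 h2 τ e β hβ k l hkl
  set mk := Ideal.Quotient.mk (Ip κ₀ τ β) with hmk
  set G := MvPolynomial.map mk (homogeneousComponent D₀ (Sh β f)) with hG
  have hGh : G.IsHomogeneous D₀ :=
    (homogeneousComponent_isHomogeneous D₀ (Sh β f)).map mk
  refine hY _ e k l φ hkl hφ G D₀ (nk τ β k l) hGh ?_
  intro α hα
  ext ω
  rw [coeff_zero]
  by_cases hω : α.degree + ω.degree = D₀
  · have h3 : (Sh (φ ∘ β) f).coeff α ∈ Ip κ₀ τ (φ ∘ β) := by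
      refine hf e (φ ∘ β) hgood α ?_
      omega
    have h4 : (Sh (φ ∘ β) f).coeff α ∈ Ip κ₀ τ β :=
      pr_REF L (Fin e) (Fin (e + 1)) κ₀ τ (φ ∘ β) β φ (fun _ => rfl) h3
    have h5 : (Sh β ((Sh (φ ∘ β) f).coeff α)).coeff ω ∈ Ip κ₀ τ β :=
      pr_SHI L (Fin (e + 1)) (Fin (e + 1)) κ₀ τ β β id (fun _ => rfl) _ h4 ω
    have h6 : ((TT φ (Sh β f)).coeff α).coeff ω ∈ Ip κ₀ τ β := by
      rw [← hX L (Fin e) (Fin (e + 1)) β φ f, coeff_map]
      exact h5
    have h7 : ((TT φ (MvPolynomial.map mk (Sh β f))).coeff α).coeff ω = 0 := by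
      rw [R_DIV_TT_map, coeff_map, coeff_map]
      exact Ideal.Quotient.eq_zero_iff_mem.mpr h6
    have h8 : ((TT φ (MvPolynomial.map mk (Sh β f) - G)).coeff α).coeff ω ∈
        (⊥ : Submodule ℚ (MvPolynomial L ℚ ⧸ Ip κ₀ τ β)) := by
      refine hT _ (Fin e) (Fin (e + 1)) φ ⊥ _ α ω ?_
      intro η hη
      rw [hω] at hη
      rw [Submodule.mem_bot, coeff_sub, hG, coeff_map, coeff_map, coeff_homogeneousComponent,
        if_pos hη, sub_self]
    rw [Submodule.mem_bot, map_sub, coeff_sub, coeff_sub, h7, zero_sub, neg_eq_zero] at h8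
    exact h8
  · have h8 : ((TT φ G).coeff α).coeff ω ∈
        (⊥ : Submodule ℚ (MvPolynomial L ℚ ⧸ Ip κ₀ τ β)) := by
      refine hT _ (Fin e) (Fin (e + 1)) φ ⊥ _ α ω ?_
      intro η hη
      rw [Submodule.mem_bot]
      exact hGh.coeff_eq_zero (by rw [hη]; exact hω)
    exact h8

end Pool.Agent.Work.MP_c41774_al.Full

end
end

section

noncomputable section

namespace Pool.Agent.Work.MP_c41774_al.Full

open Finset MvPolynomial
open Pool.Agent.Work.MP_c41774_al.Wall

theorem pr_R_DIVU : Q_DIVU := by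
  intro A _ _ σ U P Q hP h α
  by_contra hα
  obtain ⟨lam, hlam, hU⟩ := Submodule.exists_le_ker_of_notMem hα
  let LAM : MvPolynomial σ A → MvPolynomial σ ℚ :=
    fun q => ∑ s ∈ q.support, monomial s (lam (q.coeff s))
  have hc : ∀ (q : MvPolynomial σ A) β, (LAM q).coeff β = lam (q.coeff β) := by
    classical
    intro q β
    simp only [LAM, coeff_sum, coeff_monomial]
    rw [Finset.sum_ite_eq']
    split_ifs with h
    · rfl
    · rw [notMem_support_iff.mp h, map_zero]
  have hmul : ∀ (p : MvPolynomial σ ℚ) (q : MvPolynomial σ A),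
      LAM (MvPolynomial.map (algebraMap ℚ A) p * q) = p * LAM q := by
    intro p q
    ext β
    classical
    rw [hc, coeff_mul, coeff_mul, map_sum]
    refine Finset.sum_congr rfl fun x _ => ?_
    rw [coeff_map, hc, ← Algebra.smul_def, map_smul, smul_eq_mul]
  have h0 : P * LAM Q = 0 := by
    rw [← hmul]
    ext β
    rw [hc, coeff_zero]
    exact hU (h β)
  rcases mul_eq_zero.mp h0 with h1 | h1
  · exact hP h1
  · apply hlam
    rw [← hc, h1, coeff_zero]

end Pool.Agent.Work.MP_c41774_al.Full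

end
end

section

noncomputable section

namespace Pool.Agent.Work.MP_c41774_al.Full

open Finset MvPolynomial
open Pool.Agent.Work.MP_c41774_al.Wall

theorem pr_R_EXCH : Q_EXCH := by
  intro L _ _ D D' δ φ f
  have h : (MvPolynomial.map (Sh δ).toRingHom).comp (Sh (φ ∘ δ)).toRingHom =
      (TT φ).comp (Sh δ).toRingHom := by
    apply MvPolynomial.ringHom_ext
    · intro r
      simp [Sh, TT, MvPolynomial.algebraMap_eq]
    · intro l
      simp [Sh, TT]
      ring
  exact DFunLike.congr_fun h f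

end Pool.Agent.Work.MP_c41774_al.Full

end
end

section

/-!
# Item R_EXH: the filtration is exhaustive
-/

noncomputable section

namespace Pool.Agent.Work.MP_c41774_al.Full

open Finset MvPolynomial
open Pool.Agent.Work.MP_c41774_al.Wall

theorem R_EXH_deg {L : Type} [Fintype L] {D : Type} (β : L → D) (f : MvPolynomial L ℚ) :
    (Sh β f).totalDegree ≤ f.totalDegree := by
  unfold Sh
  rw [aeval_def, eval₂_eq']
  refine totalDegree_finsetSum_le fun m hm => ?_
  refine (totalDegree_mul _ _).trans ?_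
  have h1 : (algebraMap ℚ (MvPolynomial D (MvPolynomial L ℚ)) (f.coeff m)).totalDegree = 0 := by
    change (C (C (f.coeff m)) : MvPolynomial D (MvPolynomial L ℚ)).totalDegree = 0
    exact totalDegree_C _
  rw [h1, zero_add]
  refine (totalDegree_finsetProd _ _).trans ?_
  have h2 : ∀ l : L, ((C (X l) + X (β l) : MvPolynomial D (MvPolynomial L ℚ)) ^ m l).totalDegree ≤
      m l := by
    intro l
    refine (totalDegree_pow _ _).trans ?_
    have h3 : (C (X l) + X (β l) : MvPolynomial D (MvPolynomial L ℚ)).totalDegree ≤ 1 := by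
      refine (totalDegree_add _ _).trans ?_
      rw [totalDegree_C]
      exact max_le (Nat.zero_le _) (totalDegree_X _).le
    calc m l * _ ≤ m l * 1 := Nat.mul_le_mul_left _ h3
      _ = m l := mul_one _
  calc ∑ l : L, ((C (X l) + X (β l) : MvPolynomial D (MvPolynomial L ℚ)) ^ m l).totalDegree
      ≤ ∑ l : L, m l := Finset.sum_le_sum fun l _ => h2 l
    _ = m.sum fun _ e => e := by
        rw [Finsupp.sum_fintype]
        intro i
        rfl
    _ ≤ f.totalDegree := le_totalDegree hm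

theorem pr_R_EXH : R_EXH := by
  intro κ₀ L _ _ τ N n hn f hf d β hβ α hα
  have hd : d ≤ Fintype.card L := by
    have hs : Function.Surjective β := by
      intro i
      obtain ⟨l, hl⟩ := (hβ i).1
      exact ⟨l, (Finset.mem_filter.1 hl).2⟩
    simpa using Fintype.card_le_of_surjective β hs
  have hlt : N < α.degree := by
    have h0 : (0 : ℤ) ≤ dege τ β := Int.natCast_nonneg _
    have hd' : (d : ℤ) ≤ Fintype.card L := by exact_mod_cast hd
    omega
  have hz : (Sh β f).coeff α = 0 := by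
    refine coeff_eq_zero_of_totalDegree_lt ?_
    exact lt_of_le_of_lt ((R_EXH_deg β f).trans hf) hlt
  rw [hz]
  exact Ideal.zero_mem _

end Pool.Agent.Work.MP_c41774_al.Full

end
end

section

/-!
# Item R EXT
-/

noncomputable section

namespace Pool.Agent.Work.MP_c41774_al.Full

open Finset MvPolynomial
open Pool.Agent.Work.MP_c41774_al.Wall

lemma R_EXT_two (hD : Q_DEGE) (L : Type) [Fintype L] [DecidableEq L] (κ₀ : ℕ × ℕ)
    (hp : 0 < κ₀.1) (hq : 0 < κ₀.2) (τ : L → Bool) (d : ℕ) (β : L → Fin d)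
    (hβ : Good κ₀ τ β) : 2 * dege τ β = dd τ β := by
  have h1 : dege τ (Fin.revPerm ∘ β) = dege τ β := ((hD L κ₀ hp hq τ d β hβ).2 Fin.revPerm).2
  have h2 : (univ.filter fun e : L × L => τ e.1 = true ∧ τ e.2 = false ∧ β e.1 ≠ β e.2) =
      crs τ β ∪ crs τ (Fin.revPerm ∘ β) := by
    ext e
    simp only [crs, mem_filter, mem_univ, true_and, mem_union, Function.comp_apply,
      Fin.revPerm_apply, Fin.rev_lt_rev]
    constructor
    · rintro ⟨a1, a2, a3⟩
      rcases lt_or_gt_of_ne a3 with h | h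
      · exact Or.inl ⟨a1, a2, h⟩
      · exact Or.inr ⟨a1, a2, h⟩
    · rintro (⟨a1, a2, a3⟩ | ⟨a1, a2, a3⟩)
      · exact ⟨a1, a2, a3.ne⟩
      · exact ⟨a1, a2, a3.ne'⟩
  have h3 : Disjoint (crs τ β) (crs τ (Fin.revPerm ∘ β)) := by
    rw [Finset.disjoint_left]
    intro e he he'
    simp only [crs, mem_filter, mem_univ, true_and, Function.comp_apply,
      Fin.revPerm_apply, Fin.rev_lt_rev] at he he'
    exact absurd he.2.2 (lt_asymm he'.2.2)
  have h4 : dd τ β = dege τ β + dege τ (Fin.revPerm ∘ β) := by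
    unfold dd dege
    rw [h2, Finset.card_union_of_disjoint h3]
  omega

lemma R_EXT_th {L L' : Type} [Fintype L] [DecidableEq L] [Fintype L'] [DecidableEq L']
    (κ₀ : ℕ × ℕ) (τ : L → Bool) (ι : L' ↪ L) (S : Finset L') :
    th κ₀ τ (S.map ι) = th κ₀ (τ ∘ ι) S := by
  unfold th nx ny
  rw [Finset.filter_map, Finset.card_map, Finset.filter_map, Finset.card_map]
  rfl

theorem pr_R_EXT : Q_SYMN → Q_DEGE → Q_EXT := by
  classical
  intro _ hD L L' _ _ _ _ κ₀ hp hq τ d₀ γ hγ i ι hι hi r β' hβ'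
  let I : Type := Fin r ⊕ {k : Fin d₀ // k ≠ i}
  have hcardI : Fintype.card I + 1 = d₀ + r := by
    show Fintype.card (Fin r ⊕ {k : Fin d₀ // k ≠ i}) + 1 = d₀ + r
    rw [Fintype.card_sum, Fintype.card_fin, Fintype.card_subtype_compl,
      Fintype.card_fin, Fintype.card_subtype_eq]
    have : 0 < d₀ := i.pos
    omega
  obtain ⟨e⟩ : Nonempty (I ≃ Fin (Fintype.card I)) := ⟨Fintype.equivFin I⟩
  -- the map to `I`
  obtain ⟨β₀, hβ1, hβ2⟩ : ∃ β₀ : L → I, (∀ l', β₀ (ι l') = Sum.inl (β' l')) ∧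
      ∀ l (h : γ l ≠ i), β₀ l = Sum.inr ⟨γ l, h⟩ := by
    refine ⟨fun l => if h : γ l = i then Sum.inl (β' ((hi l).1 h).choose) else
      Sum.inr ⟨γ l, h⟩, ?_, ?_⟩
    · intro l'
      have h : γ (ι l') = i := (hi _).2 ⟨l', rfl⟩
      beta_reduce
      rw [dif_pos h]
      congr 2
      exact hι ((hi (ι l')).1 h).choose_spec
    · intro l h
      beta_reduce
      rw [dif_neg h]
  set φ₀ : I → Fin d₀ := Sum.elim (fun _ => i) fun k => k.1 with hφ₀
  have hφβ : ∀ l, γ l = φ₀ (β₀ l) := by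
    intro l
    by_cases h : γ l = i
    · obtain ⟨l', rfl⟩ := (hi l).1 h
      rw [hβ1, h]
      rfl
    · rw [hβ2 l h]
      rfl
  have hgood : Good κ₀ τ (e ∘ β₀) := by
    intro x
    obtain ⟨y, rfl⟩ := e.surjective x
    rcases y with k | k
    · have hblk : (univ.filter fun l => (e ∘ β₀) l = e (Sum.inl k)) =
          (univ.filter fun l' => β' l' = k).map ⟨ι, hι⟩ := by
        ext l
        simp only [mem_filter, mem_univ, true_and, mem_map, Function.comp_apply,
          EmbeddingLike.apply_eq_iff_eq, Function.Embedding.coeFn_mk]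
        constructor
        · intro h
          have h1 : γ l = i := by
            rw [hφβ, h]
            rfl
          obtain ⟨l', rfl⟩ := (hi l).1 h1
          rw [hβ1] at h
          exact ⟨l', Sum.inl.inj h, rfl⟩
        · rintro ⟨l', h, rfl⟩
          rw [hβ1, h]
      rw [hblk]
      refine ⟨(hβ' k).1.map, ?_⟩
      have := R_EXT_th κ₀ τ ⟨ι, hι⟩ (univ.filter fun l' => β' l' = k)
      rw [this]
      exact (hβ' k).2
    · have hblk : (univ.filter fun l => (e ∘ β₀) l = e (Sum.inr k)) =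
          univ.filter fun l => γ l = k.1 := by
        ext l
        simp only [mem_filter, mem_univ, true_and, Function.comp_apply,
          EmbeddingLike.apply_eq_iff_eq]
        constructor
        · intro h
          rw [hφβ, h]
          rfl
        · intro h
          have h1 : γ l ≠ i := by
            rw [h]
            exact k.2
          rw [hβ2 l h1]
          congr 1
          exact Subtype.ext h
      rw [hblk]
      exact hγ k.1
  refine ⟨Fintype.card I, e ∘ β₀, φ₀ ∘ e.symm, e ∘ Sum.inl, hgood, ?_, ?_, ?_, ?_, hcardI, ?_⟩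
  · intro l
    simp only [Function.comp_apply, Equiv.symm_apply_apply]
    exact hφβ l
  · intro l'
    simp only [Function.comp_apply, hβ1]
  · exact e.injective.comp Sum.inl_injective
  · intro l hl k h
    simp only [Function.comp_apply, EmbeddingLike.apply_eq_iff_eq] at h
    rw [hβ2 l hl] at h
    exact absurd h (by simp)
  · have t1 := R_EXT_two hD L κ₀ hp hq τ _ (e ∘ β₀) hgood
    have t2 := R_EXT_two hD L κ₀ hp hq τ _ γ hγ
    have t3 := R_EXT_two hD L' κ₀ hp hq (τ ∘ ι) _ β' hβ'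
    have t4 : dd τ (e ∘ β₀) = dd τ γ + dd (τ ∘ ι) β' := by
      unfold dd
      have s1 : (univ.filter fun x : L × L => τ x.1 = true ∧ τ x.2 = false ∧
          (e ∘ β₀) x.1 ≠ (e ∘ β₀) x.2) =
          (univ.filter fun x : L × L => τ x.1 = true ∧ τ x.2 = false ∧ γ x.1 ≠ γ x.2) ∪
            (univ.filter fun x : L' × L' => (τ ∘ ι) x.1 = true ∧ (τ ∘ ι) x.2 = false ∧
              β' x.1 ≠ β' x.2).map ((⟨ι, hι⟩ : L' ↪ L).prodMap ⟨ι, hι⟩) := by
        ext ⟨a, b⟩
        simp only [mem_filter, mem_univ, true_and, mem_union, mem_map, Function.comp_apply,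
          ne_eq, EmbeddingLike.apply_eq_iff_eq, Function.Embedding.coe_prodMap,
          Function.Embedding.coeFn_mk, Prod.exists, Prod.map_apply, Prod.mk.injEq]
        constructor
        · rintro ⟨h1, h2, h3⟩
          by_cases h4 : γ a = γ b
          · right
            by_cases h5 : γ a = i
            · obtain ⟨a', rfl⟩ := (hi a).1 h5
              obtain ⟨b', rfl⟩ := (hi b).1 (h4 ▸ h5)
              refine ⟨a', b', ⟨h1, h2, ?_⟩, rfl, rfl⟩
              intro h6
              exact h3 (by rw [hβ1, hβ1, h6])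
            · exfalso
              refine h3 ?_
              rw [hβ2 a h5, hβ2 b (h4 ▸ h5)]
              congr 1
              exact Subtype.ext h4
          · exact Or.inl ⟨h1, h2, h4⟩
        · rintro (⟨h1, h2, h3⟩ | ⟨a', b', ⟨h1, h2, h3⟩, rfl, rfl⟩)
          · refine ⟨h1, h2, fun h => h3 ?_⟩
            rw [hφβ, hφβ, h]
          · refine ⟨h1, h2, fun h => h3 ?_⟩
            rw [hβ1, hβ1] at h
            exact Sum.inl.inj h
      rw [s1, Finset.card_union_of_disjoint, Finset.card_map]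
      rw [Finset.disjoint_left]
      rintro ⟨a, b⟩ h1 h2
      simp only [mem_filter, mem_univ, true_and, mem_map, Function.comp_apply,
          ne_eq, Function.Embedding.coe_prodMap,
          Function.Embedding.coeFn_mk, Prod.exists, Prod.map_apply, Prod.mk.injEq] at h1 h2
      obtain ⟨a', b', _, rfl, rfl⟩ := h2
      exact h1.2.2 (((hi _).2 ⟨a', rfl⟩).trans ((hi _).2 ⟨b', rfl⟩).symm)
    omega

end Pool.Agent.Work.MP_c41774_al.Full

end
end

section

/-!
# Product functionals
-/

noncomputable section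

namespace Pool.Agent.Work.MP_c41774_al.Full

open Finset MvPolynomial
open Pool.Agent.Work.MP_c41774_al.Wall

section FUN

variable {b c : ℕ} {d : ℕ} {M : Fin d → Type} [∀ i, Fintype (M i)] [∀ i, DecidableEq (M i)]

/-- `bx` as a multilinear map -/
def FUN_bx (b c : ℕ) (M : Fin d → Type) [∀ i, Fintype (M i)] [∀ i, DecidableEq (M i)] :
    MultilinearMap ℚ (fun i => Fm b c (M i)) (Fm b c (Σ i, M i)) :=
  MultilinearMap.pi fun w : (Σ i, M i) → Col b c =>
    (MultilinearMap.mkPiAlgebra ℚ (Fin d) (MvPolynomial (Σ i, M i) ℚ)).compLinearMap fun i =>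
      (rename (R := ℚ) (Sigma.mk i : M i → Σ i, M i)).toLinearMap ∘ₗ
        LinearMap.proj (R := ℚ) (φ := fun _ : M i → Col b c => MvPolynomial (M i) ℚ) (wb w i)

theorem FUN_bx_apply (F : ∀ i, Fm b c (M i)) : FUN_bx b c M F = bx F := by
  funext w
  simp [FUN_bx, bx]

/-- the elementary family -/
def FUN_el {L : Type} [Fintype L] [DecidableEq L] (v : L → Col b c) (m : L →₀ ℕ) :
    Fm b c L := Pi.single v (monomial m 1)

/-- the functional on the part of a word -/
def FUN_w (lam : ∀ i, Fm b c (M i) →ₗ[ℚ] ℚ) (w : (Σ i, M i) → Col b c) :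
    MvPolynomial (Σ i, M i) ℚ →ₗ[ℚ] ℚ :=
  (basisMonomials (Σ i, M i) ℚ).constr ℚ fun m => ∏ i, lam i (FUN_el (wb w i) (m.split i))

theorem FUN_w_monomial (lam : ∀ i, Fm b c (M i) →ₗ[ℚ] ℚ) (w : (Σ i, M i) → Col b c)
    (m : (Σ i, M i) →₀ ℕ) :
    FUN_w lam w (monomial m 1) = ∏ i, lam i (FUN_el (wb w i) (m.split i)) := by
  have : (monomial m (1 : ℚ)) = basisMonomials (Σ i, M i) ℚ m := by
    rw [coe_basisMonomials]
  rw [this, FUN_w, Module.Basis.constr_basis]

theorem FUN_split (m : ∀ i, M i →₀ ℕ) (i : Fin d) :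
    (∑ j, (m j).mapDomain (Sigma.mk j : M j → Σ i, M i)).split i = m i := by
  refine Finsupp.ext fun a => ?_
  rw [Finsupp.split_apply, Finsupp.finset_sum_apply, Finset.sum_eq_single i]
  · exact Finsupp.mapDomain_apply sigma_mk_injective _ _
  · intro j _ hj
    refine Finsupp.mapDomain_notin_range _ _ ?_
    rintro ⟨x, hx⟩
    exact hj (congrArg Sigma.fst hx)
  · intro h; exact absurd (Finset.mem_univ i) h

theorem FUN_bx_el (v : ∀ i, M i → Col b c) (m : ∀ i, M i →₀ ℕ) :
    bx (fun i => FUN_el (v i) (m i)) =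
      (Pi.single (fun l : Σ i, M i => v l.1 l.2)
        (monomial (∑ j, (m j).mapDomain (Sigma.mk j : M j → Σ i, M i)) 1) :
        Fm b c (Σ i, M i)) := by
  funext w
  rw [bx]
  by_cases h : w = fun l : Σ i, M i => v l.1 l.2
  · subst h
    rw [Pi.single_eq_same, monomial_sum_one]
    refine Finset.prod_congr rfl fun i _ => ?_
    have : wb (fun l : Σ i, M i => v l.1 l.2) i = v i := rfl
    rw [this, FUN_el, Pi.single_eq_same, rename_monomial]
  · rw [Pi.single_eq_of_ne h]
    obtain ⟨i, hi⟩ : ∃ i, wb w i ≠ v i := by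
      by_contra hcon
      push Not at hcon
      apply h
      funext l
      have := congrFun (hcon l.1) l.2
      exact this
    refine Finset.prod_eq_zero (Finset.mem_univ i) ?_
    rw [FUN_el, Pi.single_eq_of_ne hi, map_zero]

end FUN

theorem pr_R_FUN : Q_FUN := by
  intro b c d M _ _ lam
  let Lam : Fm b c (Σ i, M i) →ₗ[ℚ] ℚ := ∑ w : (Σ i, M i) → Col b c,
    FUN_w lam w ∘ₗ LinearMap.proj (R := ℚ)
      (φ := fun _ : (Σ i, M i) → Col b c => MvPolynomial (Σ i, M i) ℚ) w
  refine ⟨Lam, ?_⟩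
  have key : Lam.compMultilinearMap (FUN_bx b c M) =
      (MultilinearMap.mkPiAlgebra ℚ (Fin d) ℚ).compLinearMap lam := by
    refine Module.Basis.ext_multilinear
      (fun i => Pi.basis fun _ : M i → Col b c => basisMonomials (M i) ℚ) fun v => ?_
    have e1 : (fun i => (Pi.basis fun _ : M i → Col b c => basisMonomials (M i) ℚ) (v i)) =
        fun i => (FUN_el (v i).1 (v i).2 : Fm b c (M i)) := by
      funext i
      rw [Pi.basis_apply, coe_basisMonomials]
      rfl
    rw [e1, LinearMap.compMultilinearMap_apply, FUN_bx_apply,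
      FUN_bx_el (fun i => (v i).1) (fun i => (v i).2), MultilinearMap.compLinearMap_apply,
      MultilinearMap.mkPiAlgebra_apply]
    have e2 : ∀ G : Fm b c (Σ i, M i), Lam G = ∑ w, FUN_w lam w (G w) := by
      intro G
      simp [Lam]
    rw [e2, Finset.sum_eq_single (fun l : Σ i, M i => (v l.1).1 l.2)]
    · rw [Pi.single_eq_same, FUN_w_monomial]
      refine Finset.prod_congr rfl fun i _ => ?_
      rw [FUN_split]
      rfl
    · intro w _ hw
      rw [Pi.single_eq_of_ne hw, map_zero]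
    · intro h; exact absurd (Finset.mem_univ _) h
  intro F
  have := congrArg (fun f => f F) key
  simpa [FUN_bx_apply] using this

end Pool.Agent.Work.MP_c41774_al.Full

end
end

section

/-!
# Item R_FUNC: the product functional kills the relative ideal
-/

noncomputable section

namespace Pool.Agent.Work.MP_c41774_al.Full

open Finset MvPolynomial
open Pool.Agent.Work.MP_c41774_al.Wall

section FUNC

variable {b c d : ℕ} {M : Fin d → Type} [∀ i, Fintype (M i)] [∀ i, DecidableEq (M i)]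

theorem FUNC_single (w : (Σ i, M i) → Col b c) (m : ∀ i, MvPolynomial (M i) ℚ) :
    (Pi.single w (∏ i, rename (Sigma.mk i) (m i)) : Fm b c (Σ i, M i)) =
      bx (fun i => (Pi.single (wb w i) (m i) : Fm b c (M i))) := by
  funext w'
  rw [bx]
  by_cases h : w' = w
  · subst h
    rw [Pi.single_eq_same]
    refine Finset.prod_congr rfl fun i _ => ?_
    rw [Pi.single_eq_same]
  · rw [Pi.single_eq_of_ne h]
    have h1 : ∃ i, wb w' i ≠ wb w i := by
      by_contra hc
      push Not at hc
      apply h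
      funext ⟨i, a⟩
      exact congrFun (hc i) a
    obtain ⟨i, hi⟩ := h1
    symm
    apply Finset.prod_eq_zero (Finset.mem_univ i)
    rw [Pi.single_eq_of_ne hi, map_zero]

theorem FUNC_mono (φ : MvPolynomial (Σ i, M i) ℚ →ₗ[ℚ] ℚ)
    (h : ∀ m : ∀ i, MvPolynomial (M i) ℚ, φ (∏ i, rename (Sigma.mk i) (m i)) = 0)
    (f : MvPolynomial (Σ i, M i) ℚ) : φ f = 0 := by
  induction f using MvPolynomial.induction_on' with
  | monomial s a =>
    have h1 : monomial s a = a • ∏ i, rename (Sigma.mk i) (∏ x : M i, X x ^ s ⟨i, x⟩) := by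
      rw [MvPolynomial.monomial_eq, Finsupp.prod_fintype _ _ (fun i => pow_zero _),
        Fintype.prod_sigma, ← MvPolynomial.C_mul']
      congr 1
      refine Finset.prod_congr rfl fun i _ => ?_
      rw [map_prod]
      refine Finset.prod_congr rfl fun x _ => ?_
      rw [map_pow, rename_X]
    rw [h1, map_smul, h, smul_zero]
  | add p q hp hq => rw [map_add, hp, hq, add_zero]

theorem FUNC_cut (w : (Σ i, M i) → Col b c) (i : Fin d) (T : Finset (M i)) :
    pr (cut (tw w) Sigma.fst (T.map (Function.Embedding.sigmaMk i))) =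
      rename (Sigma.mk i) (pr (cut (tw (wb w i)) tv T)) := by
  have h1 : cut (tw w) Sigma.fst (T.map (Function.Embedding.sigmaMk i)) =
      (cut (tw (wb w i)) tv T).map ((Function.Embedding.sigmaMk i).prodMap
        (Function.Embedding.sigmaMk i)) := by
    ext ⟨⟨j, x⟩, ⟨k, y⟩⟩
    simp only [cut, Finset.mem_filter, Finset.mem_univ, true_and, Finset.mem_map]
    constructor
    · rintro ⟨⟨a, ha, hax⟩, h2, h3, h4, h5⟩
      have h6 : i = j := congrArg Sigma.fst hax
      subst h6
      have h7 : i = k := h5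
      subst h7
      have h8 : a = x := by
        have := hax
        simpa [Function.Embedding.sigmaMk] using this
      subst h8
      exact ⟨(a, y), ⟨ha, fun hy => h2 ⟨y, hy, rfl⟩, h3, h4, trivial⟩, rfl⟩
    · rintro ⟨⟨a, a'⟩, ⟨h2, h3, h4, h5, _⟩, h6⟩
      have h7 : (⟨i, a⟩ : Σ i, M i) = ⟨j, x⟩ := congrArg Prod.fst h6
      have h8 : (⟨i, a'⟩ : Σ i, M i) = ⟨k, y⟩ := congrArg Prod.snd h6
      have h10 : j = k := (congrArg Sigma.fst h7).symm.trans (congrArg Sigma.fst h8)
      rw [← h7, ← h8]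
      refine ⟨⟨a, h2, rfl⟩, ?_, h4, h5, h10⟩
      rintro ⟨z, hz, hz'⟩
      apply h3
      have h9 : z = a' := by
        simpa [Function.Embedding.sigmaMk] using hz'
      rw [← h9]
      exact hz
  rw [pr, pr, h1, Finset.prod_map, map_prod]
  refine Finset.prod_congr rfl fun e _ => ?_
  rw [map_sub, rename_X, rename_X]
  rfl

theorem FUNC_th (κ₀ : ℕ × ℕ) (w : (Σ i, M i) → Col b c) (i : Fin d) (T : Finset (M i)) :
    th κ₀ (tw w) (T.map (Function.Embedding.sigmaMk i)) = th κ₀ (tw (wb w i)) T := by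
  rw [th, th, nx, nx, ny, ny, Finset.filter_map, Finset.filter_map, Finset.card_map,
    Finset.card_map]
  rfl

theorem FUNC_map (i : Fin d) (T : Finset (Σ i, M i)) (hT : T ⊆ blk Sigma.fst i) :
    ∃ T' : Finset (M i), T = T'.map (Function.Embedding.sigmaMk i) := by
  refine ⟨univ.filter fun a => (⟨i, a⟩ : Σ i, M i) ∈ T, ?_⟩
  ext ⟨j, x⟩
  simp only [Finset.mem_map, Finset.mem_filter, Finset.mem_univ, true_and]
  constructor
  · intro h
    have h1 := hT h
    rw [blk, Finset.mem_filter] at h1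
    have h2 : j = i := h1.2
    subst h2
    exact ⟨x, h, rfl⟩
  · rintro ⟨a, ha, hax⟩
    have h3 : (⟨i, a⟩ : Σ i, M i) = ⟨j, x⟩ := hax
    rw [← h3]
    exact ha

end FUNC

theorem pr_R_FUNC (h1 : Q_FUN) (h2 : Q_GEN) : R_FUN := by
  intro b c κ₀ d M _ _ κ lam hlam
  obtain ⟨Lam, hLam⟩ := h1 b c d M lam
  refine ⟨Lam, hLam, fun G hG => ?_⟩
  have hsum : G = ∑ w, (Pi.single w (G w) : Fm b c (Σ i, M i)) :=
    (Finset.univ_sum_single G).symm
  rw [hsum, map_sum]
  refine Finset.sum_eq_zero fun w _ => ?_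
  -- linear map
  let φ : MvPolynomial (Σ i, M i) ℚ →ₗ[ℚ] ℚ :=
    Lam ∘ₗ (LinearMap.single ℚ (fun _ : (Σ i, M i) → Col b c => MvPolynomial (Σ i, M i) ℚ) w)
  have hφ : ∀ f, φ f = Lam (Pi.single w f) := fun f => rfl
  have hprod : ∀ m : ∀ i, MvPolynomial (M i) ℚ, φ (∏ i, rename (Sigma.mk i) (m i)) =
      ∏ i, lam i (Pi.single (wb w i) (m i)) := by
    intro m
    rw [hφ, FUNC_single, hLam]
  rw [← hφ]
  by_cases hw : ∀ i, chg (wb w i) = κ i
  · have h3 := hG w hw
    rw [h2] at h3
    have h4 : ∀ g ∈ Ideal.span {f | ∃ (i : Fin d) (T : Finset (Σ i, M i)), T ⊆ blk Sigma.fst i ∧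
        0 < th κ₀ (tw w) T ∧ f = pr (cut (tw w) Sigma.fst T)}, ∀ h, φ (h * g) = 0 := by
      intro g hg
      refine Submodule.span_induction ?_ ?_ ?_ ?_ hg
      · rintro _ ⟨i, T, hT, hth, rfl⟩ h
        obtain ⟨T', rfl⟩ := FUNC_map i T hT
        rw [FUNC_th] at hth
        rw [FUNC_cut]
        let ψ : MvPolynomial (Σ i, M i) ℚ →ₗ[ℚ] ℚ :=
          φ ∘ₗ (LinearMap.mulRight ℚ (rename (Sigma.mk i) (pr (cut (tw (wb w i)) tv T'))))
        have hψ : ∀ f, ψ f = φ (f * rename (Sigma.mk i) (pr (cut (tw (wb w i)) tv T'))) :=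
          fun f => rfl
        rw [← hψ]
        refine FUNC_mono ψ (fun m => ?_) h
        have h5 : (∏ j, rename (Sigma.mk j) (m j)) *
            rename (Sigma.mk i) (pr (cut (tw (wb w i)) tv T')) =
            ∏ j, rename (Sigma.mk j)
              (Function.update m i (m i * pr (cut (tw (wb w i)) tv T')) j) := by
          rw [← Finset.mul_prod_erase univ _ (Finset.mem_univ i),
            ← Finset.mul_prod_erase univ (fun j => rename (Sigma.mk j)
              (Function.update m i (m i * pr (cut (tw (wb w i)) tv T')) j)) (Finset.mem_univ i),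
            Function.update_self, map_mul]
          have h6 : ∏ j ∈ univ.erase i, rename (Sigma.mk j)
              (Function.update m i (m i * pr (cut (tw (wb w i)) tv T')) j) =
              ∏ j ∈ univ.erase i, rename (Sigma.mk j) (m j) :=
            Finset.prod_congr rfl fun j hj => by
              rw [Function.update_of_ne (Finset.ne_of_mem_erase hj)]
          rw [h6]
          ring
        rw [hψ, h5, hprod]
        apply Finset.prod_eq_zero (Finset.mem_univ i)
        apply hlam i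
        intro w' _
        by_cases hw' : w' = wb w i
        · subst hw'
          rw [Pi.single_eq_same, Function.update_self]
          exact Ideal.mul_mem_left _ _ (Ideal.subset_span ⟨T', hth, rfl⟩)
        · rw [Pi.single_eq_of_ne hw']
          exact Ideal.zero_mem _
      · intro h
        rw [mul_zero, map_zero]
      · intro x y _ _ hx hy h
        rw [mul_add, map_add, hx, hy, add_zero]
      · intro a x _ hx h
        rw [smul_eq_mul, ← mul_assoc]
        exact hx _
    have h5 := h4 _ h3 1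
    rwa [one_mul] at h5
  · push Not at hw
    obtain ⟨i, hi⟩ := hw
    refine FUNC_mono φ (fun m => ?_) _
    rw [hprod]
    apply Finset.prod_eq_zero (Finset.mem_univ i)
    apply hlam i
    intro w' hw'
    have h3 : w' ≠ wb w i := by
      rintro rfl
      exact hi hw'
    rw [Pi.single_eq_of_ne h3]
    exact Ideal.zero_mem _

end Pool.Agent.Work.MP_c41774_al.Full

end
end

section

/-!
# Block R, item GB: an element with the symbol of `f` at `β`
-/

noncomputable section

namespace Pool.Agent.Work.MP_c41774_al.Full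

open Finset MvPolynomial

section GB

variable {L : Type} [Fintype L] [DecidableEq L]

theorem GB_Ip {d : ℕ} (κ₀ : ℕ × ℕ) (τ : L → Bool) (β : L → Fin d) (σ : Equiv.Perm (Fin d)) :
    Ip κ₀ τ (σ ∘ β) = Ip κ₀ τ β := by
  have h : ∀ T : Finset L, cut τ (σ ∘ β) T = cut τ β T := by
    intro T
    unfold cut
    ext e
    simp only [Finset.mem_filter, Finset.mem_univ, true_and, Function.comp_apply,
      EmbeddingLike.apply_eq_iff_eq]
  unfold Ip
  simp only [h]

theorem GB_Sh {d : ℕ} (β : L → Fin d) (σ : Equiv.Perm (Fin d)) (h : MvPolynomial L ℚ) :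
    Sh (σ ∘ β) h = rename σ (Sh β h) := by
  have key : Sh (σ ∘ β) = ((rename σ : MvPolynomial (Fin d) (MvPolynomial L ℚ) →ₐ[MvPolynomial L ℚ]
      MvPolynomial (Fin d) (MvPolynomial L ℚ)).restrictScalars ℚ).comp (Sh β) := by
    apply MvPolynomial.algHom_ext
    intro l
    simp [Sh]
  rw [key]
  rfl

theorem GB_coeff {d : ℕ} (β : L → Fin d) (σ : Equiv.Perm (Fin d)) (h : MvPolynomial L ℚ)
    (α : Fin d →₀ ℕ) :
    (Sh (σ ∘ β) h).coeff α = (Sh β h).coeff (α.mapDomain σ.symm) := by
  rw [GB_Sh]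
  have h1 : α = (α.mapDomain σ.symm).mapDomain σ := by
    rw [← Finsupp.mapDomain_comp]
    have h2 : (σ : Fin d → Fin d) ∘ σ.symm = id := by
      funext x
      simp
    rw [h2, Finsupp.mapDomain_id]
  conv_lhs => rw [h1]
  exact coeff_rename_mapDomain _ σ.injective _ _

theorem GB_vdm_hom {d : ℕ} (τ : L → Bool) (β : L → Fin d) :
    (vdm (MvPolynomial L ℚ) τ β (id : Fin d → Fin d)).IsHomogeneous
      (∑ i, ∑ j ∈ Ioi i, nk τ β i j) := by
  unfold vdm
  apply MvPolynomial.IsHomogeneous.prod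
  intro i _
  have hf : (univ.filter fun j => id i < id j) = Ioi i := by
    ext j
    simp
  rw [hf]
  apply MvPolynomial.IsHomogeneous.prod
  intro j _
  have h1 : (X j - X i : MvPolynomial (Fin d) (MvPolynomial L ℚ)).IsHomogeneous 1 :=
    (isHomogeneous_X _ j).sub (isHomogeneous_X _ i)
  have h2 := h1.pow (nk τ β i j)
  rwa [one_mul] at h2

theorem GB_mul {d : ℕ} (V P : MvPolynomial (Fin d) (MvPolynomial L ℚ)) (N : ℕ)
    (hV : V.IsHomogeneous N) (I : Ideal (MvPolynomial L ℚ)) (ω : Fin d →₀ ℕ)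
    (hP : ∀ b : Fin d →₀ ℕ, b.degree + N = ω.degree → P.coeff b ∈ I) :
    (V * P).coeff ω ∈ I := by
  rw [coeff_mul]
  refine Ideal.sum_mem _ fun x hx' => ?_
  have hx : x.1 + x.2 = ω := by simpa using hx'
  by_cases h0 : V.coeff x.1 = 0
  · rw [h0, zero_mul]
    exact Ideal.zero_mem _
  · refine Ideal.mul_mem_left _ _ (hP _ ?_)
    have h1 : x.1.degree = N := by
      have h2 := hV h0
      rw [Finsupp.degree_eq_weight_one]
      exact h2
    rw [← hx, map_add, ← h1, add_comm]

end GB

theorem pr_R_GB : Q_DEGE → Q_SYMQ → Q_BDEC → Q_ZMUL → Q_ZTOP → R_PRO → R_OFF → R_ON → R_PUSH →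
    Q_GB := by
  classical
  intro hDEGE hSYMQ hBDEC hZMUL hZTOP hPRO hOFF hON hPUSH L _ _ κ₀ hp hq τ n f hf d β hβ
  obtain ⟨c, hc1, hc2, hc3⟩ := hSYMQ L κ₀ hp hq τ n f hf d β hβ
  obtain ⟨hdeg, hdegσ⟩ := hDEGE L κ₀ hp hq τ d β hβ
  set F : MvPolynomial L ℚ := ∑ α ∈ c.support, (∏ i, zav β i ^ α i) * c.coeff α with hFdef
  have hterm : ∀ α ∈ c.support, (∏ i, zav β i ^ α i) * c.coeff α ∈ PR κ₀ n τ β := by
    intro α hα
    have h1 := (hZMUL L κ₀ τ d β hβ d (c.coeff α) (hc1 α)).2 (fun i => α i)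
    have h2 := hc2 α (mem_support_iff.mp hα)
    rw [Finsupp.degree_eq_sum] at h2
    rwa [show (d : ℤ) + 2 * ((∑ i, α i : ℕ) : ℤ) = n by linarith] at h1
  have hF : F ∈ PR κ₀ n τ β := Submodule.sum_mem _ hterm
  have hzt : ∀ b : Fin d →₀ ℕ, 2 * (b.degree : ℤ) = n - d →
      (Sh β F).coeff b - c.coeff b ∈ Ip κ₀ τ β := by
    intro b hb
    have h1 : c.coeff b = ∑ α ∈ c.support, (if α = b then c.coeff α else 0) := by
      rw [Finset.sum_ite_eq' c.support b (fun α => c.coeff α)]
      split_ifs with h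
      · rfl
      · exact notMem_support_iff.mp h
    rw [h1, hFdef, map_sum, coeff_sum, ← Finset.sum_sub_distrib]
    refine Ideal.sum_mem _ fun α hα => ?_
    have h2 := hc2 α (mem_support_iff.mp hα)
    exact hZTOP L κ₀ τ d β hβ (c.coeff α) (hc1 α) α b (by omega)
  refine ⟨pr (crs τ β) * F, ?_, hPRO κ₀ hp hq L τ n d β hβ F hF, ?_, ?_⟩
  · rw [hFdef, Finset.mul_sum]
    refine Submodule.sum_mem _ fun α hα => ?_
    have h2 := hc2 α (mem_support_iff.mp hα)
    rw [Finsupp.degree_eq_sum] at h2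
    have h3 := hBDEC L κ₀ hp hq τ d β hβ (c.coeff α) (hc1 α)
    let Φ : MvPolynomial L ℚ →ₗ[ℚ] MvPolynomial L ℚ :=
      LinearMap.mulLeft ℚ (pr (crs τ β) * ∏ i, zav β i ^ α i)
    have h4 : Submodule.span ℚ {z | ∃ b : Fin d → MvPolynomial L ℚ,
        (∀ i, b i ∈ BB κ₀ τ β i) ∧ z = ∏ i, b i} ⊔ (Ip κ₀ τ β).restrictScalars ℚ ≤
        (Submodule.span ℚ (PG κ₀ n τ) ⊔ IpS L κ₀ τ).comap Φ := by
      refine sup_le (Submodule.span_le.mpr ?_) ?_
      · rintro z ⟨b, hb, rfl⟩
        refine Submodule.mem_sup_left (Submodule.subset_span ?_)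
        refine ⟨d, β, fun i => α i, b, hβ, hb, by linarith, ?_⟩
        change (pr (crs τ β) * ∏ i, zav β i ^ α i) * ∏ i, b i = _
        rw [mul_assoc, ← Finset.prod_mul_distrib]
      · intro z hz
        refine Submodule.mem_sup_right ?_
        change (pr (crs τ β) * ∏ i, zav β i ^ α i) * z ∈ Ip κ₀ τ tv
        rw [mul_assoc]
        exact hPUSH κ₀ hp hq L τ d β hβ _ (Ideal.mul_mem_left _ _ hz)
    have h5 : (pr (crs τ β) * ∏ i, zav β i ^ α i) * c.coeff α ∈
        Submodule.span ℚ (PG κ₀ n τ) ⊔ IpS L κ₀ τ := h4 h3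
    rwa [mul_assoc] at h5
  · intro d' β' hβ' hd' hno α hα
    exact hOFF κ₀ hp hq L τ n d d' β β' hβ hβ' hd' hno F hF α (by linarith)
  · -- the case `σ = 1`
    have h1 : ∀ ω : Fin d →₀ ℕ, 2 * (ω.degree : ℤ) = 2 * (dege τ β : ℤ) + n - d →
        (Sh β (pr (crs τ β) * F)).coeff ω - (Sh β f).coeff ω ∈ Ip κ₀ τ β := by
      intro ω hω
      have e1 := hON κ₀ hp hq L τ n d β 1 hβ F hF ω (by linarith)
      have e2 : ((1 : Equiv.Perm (Fin d)) : Fin d → Fin d) ∘ β = β := by
        funext x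
        rfl
      rw [e2] at e1
      have e3 : (∏ i, ∏ j ∈ Ioi i, (X ((1 : Equiv.Perm (Fin d)) j) -
          X ((1 : Equiv.Perm (Fin d)) i)) ^ (nx τ (blk β i) * ny τ (blk β j)) :
            MvPolynomial (Fin d) (MvPolynomial L ℚ)) = vdm (MvPolynomial L ℚ) τ β id := by
        unfold vdm
        refine Finset.prod_congr rfl fun i _ => ?_
        have hf : (univ.filter fun j => (id i : Fin d) < id j) = Ioi i := by
          ext j
          simp
        rw [hf]
        rfl
      rw [e3] at e1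
      have e4 := hc3 ω hω
      have e5 : (vdm (MvPolynomial L ℚ) τ β id * Sh β F).coeff ω -
          (vdm (MvPolynomial L ℚ) τ β id * c).coeff ω ∈ Ip κ₀ τ β := by
        rw [← coeff_sub, ← mul_sub]
        refine GB_mul _ _ _ (GB_vdm_hom τ β) _ ω fun b hb => ?_
        rw [coeff_sub]
        apply hzt
        rw [← hdeg] at hb
        omega
      have e6 := Ideal.add_mem _ (Ideal.add_mem _ e1 e5) (Ideal.neg_mem_iff _ |>.mpr e4)
      have e7 : ∀ a b c' d' : MvPolynomial L ℚ, (a - b) + (b - c') + -(d' - c') = a - d' := by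
        intro a b c' d'
        ring
      rwa [e7] at e6
    intro σ α hα
    rw [GB_coeff, GB_coeff, GB_Ip]
    apply h1
    rw [Finsupp.degree_mapDomain]
    exact hα

end Pool.Agent.Work.MP_c41774_al.Full

end
end
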