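import Pool.Agent.Work.MP_c41774_al.Full.RStmts
import Pool.Agent.Work.MP_c41774_al.Bd.B02

/-! Bundle of small proof modules (one section per former module). -/

section

/-!
# R07: generators of `I⁺_β` inside the blocks
-/

noncomputable section

namespace Pool.Agent.Work.MP_c41774_al.Full

open Finset MvPolynomial
open Pool.Agent.Work.MP_c41774_al.Wall

theorem GEN_nx {L : Type} [Fintype L] [DecidableEq L] (τ : L → Bool) {d : ℕ} (β : L → Fin d)
    (T : Finset L) : nx τ T = ∑ i, nx τ (T ∩ blk β i) := by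
  unfold nx
  rw [Finset.card_eq_sum_card_fiberwise (f := β) (t := univ) (fun _ _ => by simp)]
  refine Finset.sum_congr rfl (fun i _ => ?_)
  congr 1
  ext l
  simp only [blk, mem_filter, mem_inter, mem_univ, true_and]
  tauto

theorem GEN_ny {L : Type} [Fintype L] [DecidableEq L] (τ : L → Bool) {d : ℕ} (β : L → Fin d)
    (T : Finset L) : ny τ T = ∑ i, ny τ (T ∩ blk β i) := by
  unfold ny
  rw [Finset.card_eq_sum_card_fiberwise (f := β) (t := univ) (fun _ _ => by simp)]
  refine Finset.sum_congr rfl (fun i _ => ?_)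
  congr 1
  ext l
  simp only [blk, mem_filter, mem_inter, mem_univ, true_and]
  tauto

theorem GEN_th {L : Type} [Fintype L] [DecidableEq L] (κ₀ : ℕ × ℕ) (τ : L → Bool) {d : ℕ}
    (β : L → Fin d) (T : Finset L) : th κ₀ τ T = ∑ i, th κ₀ τ (T ∩ blk β i) := by
  unfold th
  rw [Finset.sum_sub_distrib, ← Finset.mul_sum, ← Finset.mul_sum, GEN_nx τ β T, GEN_ny τ β T]
  push_cast
  rfl

theorem GEN_cut {L : Type} [Fintype L] [DecidableEq L] (τ : L → Bool) {d : ℕ} (β : L → Fin d)
    (T : Finset L) (i : Fin d) : cut τ β (T ∩ blk β i) ⊆ cut τ β T := by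
  intro e he
  simp only [cut, blk, mem_filter, mem_inter, mem_univ, true_and] at he ⊢
  obtain ⟨⟨h1, h2⟩, h3, h4, h5, h6⟩ := he
  refine ⟨h1, ?_, h4, h5, h6⟩
  intro h7
  exact h3 ⟨h7, by rw [← h6]; exact h2⟩

theorem pr_R_GEN : Q_GEN := by
  intro L _ _ κ₀ τ d β
  apply le_antisymm
  · unfold Ip
    rw [Ideal.span_le]
    rintro f ⟨T, hT, rfl⟩
    have h1 : ∃ i, 0 < th κ₀ τ (T ∩ blk β i) := by
      by_contra hcon
      push Not at hcon
      have h2 : th κ₀ τ T ≤ 0 := by
        rw [GEN_th κ₀ τ β T]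
        exact Finset.sum_nonpos (fun i _ => hcon i)
      omega
    obtain ⟨i, hi⟩ := h1
    have h3 : (pr (cut τ β (T ∩ blk β i)) : MvPolynomial L ℚ) ∣ pr (cut τ β T) :=
      Finset.prod_dvd_prod_of_subset _ _ _ (GEN_cut τ β T i)
    exact Ideal.mem_of_dvd _ h3 (Ideal.subset_span ⟨i, T ∩ blk β i, inter_subset_right, hi, rfl⟩)
  · unfold Ip
    apply Ideal.span_mono
    rintro f ⟨i, T, _, hT, rfl⟩
    exact ⟨T, hT, rfl⟩

end Pool.Agent.Work.MP_c41774_al.Full

end
end

section

/-!
# Block R, item HOM: homogeneous components of elements of `P_n`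
-/

noncomputable section

namespace Pool.Agent.Work.MP_c41774_al.Full

open Finset MvPolynomial

section HOM

variable {L D : Type}

/-- total degree `j` in all variables -/
def HOM_P (j : ℕ) (F : MvPolynomial D (MvPolynomial L ℚ)) : Prop :=
  ∀ (α : D →₀ ℕ) (m : L →₀ ℕ), (F.coeff α).coeff m ≠ 0 → m.degree + α.degree = j

theorem HOM_P_sum {ι : Type*} (s : Finset ι) (f : ι → MvPolynomial D (MvPolynomial L ℚ)) (j : ℕ)
    (h : ∀ i ∈ s, HOM_P j (f i)) : HOM_P j (∑ i ∈ s, f i) := by
  intro α m hm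
  rw [coeff_sum, coeff_sum] at hm
  obtain ⟨i, hi, hne⟩ := Finset.exists_ne_zero_of_sum_ne_zero hm
  exact h i hi α m hne

theorem HOM_P_mul {j k : ℕ} {F G : MvPolynomial D (MvPolynomial L ℚ)} (hF : HOM_P j F)
    (hG : HOM_P k G) : HOM_P (j + k) (F * G) := by
  classical
  intro α m hm
  rw [coeff_mul, coeff_sum] at hm
  obtain ⟨x, hx', hne⟩ := Finset.exists_ne_zero_of_sum_ne_zero hm
  have hx : x.1 + x.2 = α := by simpa using hx'
  rw [coeff_mul] at hne
  obtain ⟨y, hy', hne⟩ := Finset.exists_ne_zero_of_sum_ne_zero hne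
  have hy : y.1 + y.2 = m := by simpa using hy'
  have h1 := hF x.1 y.1 (left_ne_zero_of_mul hne)
  have h2 := hG x.2 y.2 (right_ne_zero_of_mul hne)
  rw [← hx, ← hy, map_add, map_add]
  omega

theorem HOM_P_one : HOM_P 0 (1 : MvPolynomial D (MvPolynomial L ℚ)) := by
  classical
  intro α m hm
  rw [coeff_one] at hm
  split_ifs at hm with h
  · rw [coeff_one] at hm
    split_ifs at hm with h'
    · rw [← h, ← h']
      simp
    · exact absurd rfl hm
  · exact absurd (coeff_zero m) hm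

theorem HOM_P_CC (r : ℚ) : HOM_P 0 (C (C r) : MvPolynomial D (MvPolynomial L ℚ)) := by
  classical
  intro α m hm
  rw [coeff_C] at hm
  split_ifs at hm with h
  · rw [coeff_C] at hm
    split_ifs at hm with h'
    · rw [← h, ← h']
      simp
    · exact absurd rfl hm
  · exact absurd (coeff_zero m) hm

theorem HOM_P_pow {j : ℕ} {F : MvPolynomial D (MvPolynomial L ℚ)} (hF : HOM_P j F) (n : ℕ) :
    HOM_P (n * j) (F ^ n) := by
  induction n with
  | zero =>
    rw [pow_zero, zero_mul]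
    exact HOM_P_one
  | succ n ih =>
    rw [pow_succ, Nat.succ_mul]
    exact HOM_P_mul ih hF

theorem HOM_P_prod {ι : Type*} (s : Finset ι) (f : ι → MvPolynomial D (MvPolynomial L ℚ))
    (n : ι → ℕ) (h : ∀ i ∈ s, HOM_P (n i) (f i)) : HOM_P (∑ i ∈ s, n i) (∏ i ∈ s, f i) := by
  classical
  induction s using Finset.induction_on with
  | empty =>
    rw [Finset.sum_empty, Finset.prod_empty]
    exact HOM_P_one
  | insert a s ha ih =>
    rw [Finset.sum_insert ha, Finset.prod_insert ha]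
    exact HOM_P_mul (h a (Finset.mem_insert_self a s))
      (ih fun i hi => h i (Finset.mem_insert_of_mem hi))

theorem HOM_P_gen (β : L → D) (l : L) :
    HOM_P 1 (C (X l) + X (β l) : MvPolynomial D (MvPolynomial L ℚ)) := by
  classical
  intro α m hm
  rw [coeff_add, coeff_add, coeff_C, coeff_X'] at hm
  by_cases h1 : (0 : D →₀ ℕ) = α
  · have h2 : Finsupp.single (β l) 1 ≠ α := by
      intro h
      have := congrArg Finsupp.degree (h.trans h1.symm)
      simp at this
    rw [if_pos h1, if_neg h2, coeff_zero, add_zero, coeff_X'] at hm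
    split_ifs at hm with h3
    · rw [← h3, ← h1]
      simp
    · exact absurd rfl hm
  · rw [if_neg h1, coeff_zero, zero_add] at hm
    split_ifs at hm with h2
    · rw [coeff_one] at hm
      split_ifs at hm with h3
      · rw [← h3, ← h2]
        simp
      · exact absurd rfl hm
    · exact absurd (coeff_zero m) hm

theorem HOM_Sh (β : L → D) (f : MvPolynomial L ℚ) (j : ℕ) (hf : f.IsHomogeneous j) :
    HOM_P j (Sh β f) := by
  classical
  have h1 : Sh β f = ∑ v ∈ f.support, C (C (f.coeff v)) *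
      ∏ l ∈ v.support, (C (X l) + X (β l)) ^ (v l) := by
    unfold Sh
    rw [aeval_def, eval₂_eq]
    rfl
  rw [h1]
  refine HOM_P_sum _ _ _ fun v hv => ?_
  have h2 : v.degree = j := by
    have h3 := hf (mem_support_iff.mp hv)
    rw [Finsupp.degree_eq_weight_one]
    exact h3
  have h4 : HOM_P (0 + ∑ l ∈ v.support, v l * 1) (C (C (f.coeff v)) *
      ∏ l ∈ v.support, (C (X l) + X (β l)) ^ (v l) : MvPolynomial D (MvPolynomial L ℚ)) :=
    HOM_P_mul (HOM_P_CC _) (HOM_P_prod _ _ _ fun l _ => HOM_P_pow (HOM_P_gen β l) _)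
  have h5 : 0 + ∑ l ∈ v.support, v l * 1 = j := by
    rw [← h2, zero_add]
    simp [Finsupp.degree_apply]
  rwa [h5] at h4

/-- the coefficients of the shift of a homogeneous component -/
theorem HOM_comp (β : L → D) (f : MvPolynomial L ℚ) (j : ℕ) (α : D →₀ ℕ) :
    (Sh β (homogeneousComponent j f)).coeff α =
      if α.degree ≤ j then homogeneousComponent (j - α.degree) ((Sh β f).coeff α) else 0 := by
  classical
  have hP := fun k => HOM_Sh β _ k (homogeneousComponent_isHomogeneous k f)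
  ext m
  have h0 : ∀ k, m.degree + α.degree ≠ k →
      ((Sh β (homogeneousComponent k f)).coeff α).coeff m = 0 := by
    intro k hk
    by_contra h
    exact hk (hP k α m h)
  have hsum : ((Sh β f).coeff α).coeff m =
      ∑ k ∈ Finset.range (f.totalDegree + 1),
        ((Sh β (homogeneousComponent k f)).coeff α).coeff m := by
    conv_lhs => rw [← sum_homogeneousComponent f]
    rw [map_sum, coeff_sum, coeff_sum]
  have hj : ((Sh β f).coeff α).coeff m =
      ((Sh β (homogeneousComponent (m.degree + α.degree) f)).coeff α).coeff m := by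
    rw [hsum]
    by_cases hr : m.degree + α.degree ∈ Finset.range (f.totalDegree + 1)
    · rw [Finset.sum_eq_single_of_mem _ hr]
      intro k _ hk
      exact h0 k hk.symm
    · have hz : homogeneousComponent (m.degree + α.degree) f = 0 :=
        homogeneousComponent_eq_zero _ _ (by simpa using hr)
      rw [hz, map_zero, coeff_zero, coeff_zero]
      refine Finset.sum_eq_zero fun k hk => h0 k ?_
      rintro rfl
      exact hr hk
  by_cases hle : α.degree ≤ j
  · rw [if_pos hle, coeff_homogeneousComponent]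
    by_cases hm : m.degree = j - α.degree
    · have he : m.degree + α.degree = j := by omega
      rw [if_pos hm, hj, he]
    · rw [if_neg hm]
      exact h0 j (by omega)
  · rw [if_neg hle, coeff_zero]
    exact h0 j (by omega)

end HOM

theorem pr_R_HOM : R_HOM := by
  intro κ₀ L _ _ τ n j f hf d β hβ α hα
  rw [HOM_comp]
  split_ifs with h
  · exact (pr_HOM L (Fin d) κ₀ τ β _ _).1 (hf d β hβ α hα)
  · exact Ideal.zero_mem _

end Pool.Agent.Work.MP_c41774_al.Full

end
end

section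

/-!
# Item Q_INN
-/

noncomputable section

namespace Pool.Agent.Work.MP_c41774_al.Full

open Finset MvPolynomial
open Pool.Agent.Work.MP_c41774_al.Wall

section R_INN

variable {L : Type} [Fintype L] [DecidableEq L]

theorem R_INN_th (κ₀ : ℕ × ℕ) (τ : L → Bool) (T : Finset L) :
    th κ₀ τ T = ∑ l ∈ T, if τ l = true then (κ₀.2 : ℤ) else -(κ₀.1 : ℤ) := by
  unfold th nx ny
  rw [Finset.sum_ite]
  simp only [Finset.sum_const, nsmul_eq_mul, Bool.not_eq_true]
  ring

theorem R_INN_union (κ₀ : ℕ × ℕ) (τ : L → Bool) (S T : Finset L) (h : Disjoint S T) :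
    th κ₀ τ (S ∪ T) = th κ₀ τ S + th κ₀ τ T := by
  rw [R_INN_th, R_INN_th, R_INN_th, Finset.sum_union h]

theorem R_INN_zero (κ₀ : ℕ × ℕ) (τ : L → Bool) {d₀ d : ℕ} (γ : L → Fin d₀) (β : L → Fin d)
    (h0 : ∀ k l, th κ₀ τ (blk γ k ∩ blk β l) = 0) (k : Fin d₀) (l : Fin d) :
    th κ₀ τ (univ.filter fun x => γ x < k ∧ β x = l) = 0 := by
  have e : (univ.filter fun x => γ x < k ∧ β x = l) =
      (Iio k).biUnion fun k' => blk γ k' ∩ blk β l := by
    ext x
    simp [blk]
  rw [R_INN_th, e, Finset.sum_biUnion]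
  · refine Finset.sum_eq_zero fun k' _ => ?_
    rw [← R_INN_th]
    exact h0 k' l
  · intro a _ b _ hab
    rw [Function.onFun, Finset.disjoint_left]
    intro x hx hx'
    simp only [blk, Finset.mem_inter, Finset.mem_filter, Finset.mem_univ, true_and] at hx hx'
    exact hab (hx.1.symm.trans hx'.1)

theorem R_INN_gen (κ₀ : ℕ × ℕ) (τ : L → Bool) {d₀ : ℕ} (γ : L → Fin d₀) {d : ℕ}
    (β : L → Fin d) {r : ℕ} (δ : L → Fin r) (φ : Fin r → Fin d₀) (ψ : Fin r → Fin d)
    (h0 : ∀ k l, th κ₀ τ (blk γ k ∩ blk β l) = 0) (h1 : ∀ l, γ l = φ (δ l))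
    (h2 : ∀ l, β l = ψ (δ l)) (h3 : ∀ l l', γ l = γ l' → β l = β l' → δ l = δ l')
    (i : Fin r) (T : Finset L) (hT : T ⊆ blk δ i) (hth : 0 < th κ₀ τ T) :
    pr ((crs τ γ).filter fun e => β e.1 = β e.2) * pr (cut τ δ T) ∈ Ip κ₀ τ β := by
  have hTδ : ∀ x ∈ T, δ x = i := fun x hx => by
    have := hT hx
    simpa [blk] using this
  have hdT : Disjoint (univ.filter fun x => γ x < φ i ∧ β x = ψ i) T := by
    rw [Finset.disjoint_left]
    intro x hx hx'
    simp only [Finset.mem_filter, Finset.mem_univ, true_and] at hx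
    have := h1 x
    rw [hTδ x hx'] at this
    exact absurd hx.1 (by rw [this]; exact lt_irrefl _)
  have hpos : 0 < th κ₀ τ ((univ.filter fun x => γ x < φ i ∧ β x = ψ i) ∪ T) := by
    rw [R_INN_union κ₀ τ _ _ hdT, R_INN_zero κ₀ τ γ β h0, zero_add]
    exact hth
  have hsub : cut τ β ((univ.filter fun x => γ x < φ i ∧ β x = ψ i) ∪ T) ⊆
      ((crs τ γ).filter fun e => β e.1 = β e.2) ∪ cut τ δ T := by
    rintro ⟨a, b⟩ he
    simp only [cut, crs, Finset.mem_filter, Finset.mem_univ, true_and, Finset.mem_union,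
      not_or] at he ⊢
    obtain ⟨ha, ⟨hb1, hb2⟩, hta, htb, hab⟩ := he
    have hβa : β a = ψ i := by
      rcases ha with ha | ha
      · exact ha.2
      · rw [h2, hTδ a ha]
    have hγb : φ i ≤ γ b := by
      by_contra hlt
      exact hb1 ⟨not_le.1 hlt, hab.symm.trans hβa⟩
    rcases ha with ha | ha
    · exact Or.inl ⟨⟨hta, htb, lt_of_lt_of_le ha.1 hγb⟩, hab⟩
    · have hγa : γ a = φ i := by rw [h1, hTδ a ha]
      rcases lt_or_eq_of_le hγb with hlt | heq
      · exact Or.inl ⟨⟨hta, htb, by rw [hγa]; exact hlt⟩, hab⟩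
      · exact Or.inr ⟨ha, hb2, hta, htb, h3 a b (hγa.trans heq) hab⟩
  have hdis : Disjoint ((crs τ γ).filter fun e => β e.1 = β e.2) (cut τ δ T) := by
    rw [Finset.disjoint_left]
    rintro ⟨a, b⟩ he he'
    simp only [cut, crs, Finset.mem_filter, Finset.mem_univ, true_and] at he he'
    have : γ a = γ b := by rw [h1, h1, he'.2.2.2.2]
    exact absurd he.1.2.2 (by rw [this]; exact lt_irrefl _)
  have hmul : pr ((crs τ γ).filter fun e => β e.1 = β e.2) * pr (cut τ δ T) =
      pr (((crs τ γ).filter fun e => β e.1 = β e.2) ∪ cut τ δ T) := by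
    unfold pr
    rw [Finset.prod_union hdis]
  rw [hmul]
  refine Ideal.mem_of_dvd _ (Finset.prod_dvd_prod_of_subset _ _ _ hsub)
    (Ideal.subset_span ⟨_, hpos, rfl⟩)

end R_INN

theorem pr_R_INN : Q_GEN → Q_INN := by
  intro hGEN L _ _ κ₀ τ d₀ γ d β r δ φ ψ h0 h1 h2 h3 f hf
  rw [hGEN L κ₀ τ r δ] at hf
  induction hf using Submodule.span_induction with
  | mem x hx =>
    obtain ⟨i, T, hT, hth, rfl⟩ := hx
    exact R_INN_gen κ₀ τ γ β δ φ ψ h0 h1 h2 h3 i T hT hth
  | zero => rw [mul_zero]; exact Ideal.zero_mem _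
  | add x y _ _ hx hy => rw [mul_add]; exact Ideal.add_mem _ hx hy
  | smul a x _ hx =>
    rw [smul_eq_mul, mul_left_comm]
    exact Ideal.mul_mem_left _ _ hx

end Pool.Agent.Work.MP_c41774_al.Full

end
end

section

/-!
# IPI: the ideal of a union of blocks, seen on its own label set
-/

noncomputable section

namespace Pool.Agent.Work.MP_c41774_al.Full

open Finset MvPolynomial

section IPI

variable {L L' : Type} [Fintype L] [DecidableEq L] [Fintype L'] [DecidableEq L']

theorem IPI_cut {d r : ℕ} (τ : L → Bool) (β : L → Fin d) (ι : L' → L) (β' : L' → Fin r)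
    (j : Fin r → Fin d) (hι : Function.Injective ι) (hj : Function.Injective j)
    (hβ : ∀ l', β (ι l') = j (β' l')) (hr : ∀ l, (∃ k, β l = j k) → ∃ l', ι l' = l)
    (T' : Finset L') :
    cut τ β (T'.map ⟨ι, hι⟩) =
      (cut (τ ∘ ι) β' T').map ⟨Prod.map ι ι, hι.prodMap hι⟩ := by
  ext ⟨a, b⟩
  simp only [cut, mem_filter, mem_univ, true_and, mem_map, Function.Embedding.coeFn_mk,
    Function.comp_apply, Prod.map_apply, Prod.mk.injEq, Prod.exists]
  constructor
  · rintro ⟨⟨a', ha', rfl⟩, hb, h1, h2, h3⟩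
    obtain ⟨b', rfl⟩ := hr b ⟨β' a', by rw [← h3, hβ]⟩
    refine ⟨a', b', ⟨ha', ?_, h1, h2, ?_⟩, rfl, rfl⟩
    · intro hb'
      exact hb ⟨b', hb', rfl⟩
    · apply hj
      rw [← hβ, ← hβ, h3]
  · rintro ⟨a', b', ⟨h1, h2, h3, h4, h5⟩, rfl, rfl⟩
    refine ⟨⟨a', h1, rfl⟩, ?_, h3, h4, ?_⟩
    · rintro ⟨b'', hb'', h⟩
      rw [hι h] at hb''
      exact h2 hb''
    · rw [hβ, hβ, h5]

theorem IPI_th (κ₀ : ℕ × ℕ) (τ : L → Bool) (ι : L' → L) (hι : Function.Injective ι)
    (T' : Finset L') : th κ₀ τ (T'.map ⟨ι, hι⟩) = th κ₀ (τ ∘ ι) T' := by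
  unfold th nx ny
  rw [Finset.filter_map, Finset.filter_map, Finset.card_map, Finset.card_map]
  rfl

theorem IPI_pr (ι : L' → L) (hι : Function.Injective ι) (E : Finset (L' × L')) :
    pr (E.map ⟨Prod.map ι ι, hι.prodMap hι⟩) = rename ι (pr E) := by
  unfold pr
  rw [Finset.prod_map, map_prod]
  refine Finset.prod_congr rfl fun e _ => ?_
  simp

theorem IPI_gen {d r : ℕ} (κ₀ : ℕ × ℕ) (τ : L → Bool) (β : L → Fin d) (ι : L' → L)
    (β' : L' → Fin r)
    (j : Fin r → Fin d) (hι : Function.Injective ι) (hj : Function.Injective j)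
    (hβ : ∀ l', β (ι l') = j (β' l')) (hr : ∀ l, (∃ k, β l = j k) → ∃ l', ι l' = l)
    (T' : Finset L') :
    rename ι (pr (cut (τ ∘ ι) β' T')) = pr (cut τ β (T'.map ⟨ι, hι⟩)) := by
  rw [IPI_cut τ β ι β' j hι hj hβ hr, IPI_pr ι hι]

end IPI

theorem pr_R_IPI (hSPL : Q_SPL) : Q_IPI := by
  classical
  intro L L' _ _ _ _ κ₀ h1 h2 τ d β ι r β' j hG hι hj hβ hr x
  constructor
  · intro hx
    have hsup : rename ι x ∈ supported ℚ {l | β l ∈ Set.range j} := by
      rw [mem_supported]
      intro l hl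
      have := vars_rename ι x (Finset.mem_coe.mp hl)
      rw [Finset.mem_image] at this
      obtain ⟨l', _, rfl⟩ := this
      exact ⟨β' l', (hβ l').symm⟩
    have hspan := hSPL L κ₀ h1 h2 τ d β hG (Set.range j) (rename ι x) hx hsup
    let ρ : MvPolynomial L ℚ →ₐ[ℚ] MvPolynomial L' ℚ :=
      aeval fun l => if h : ∃ l', ι l' = l then X h.choose else 0
    have hρ : ∀ y : MvPolynomial L' ℚ, ρ (rename ι y) = y := by
      intro y
      have : ρ.comp (rename ι) = AlgHom.id ℚ _ := by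
        apply MvPolynomial.algHom_ext
        intro l'
        have hex : ∃ l'', ι l'' = ι l' := ⟨l', rfl⟩
        simp only [ρ, AlgHom.comp_apply, rename_X, aeval_X, AlgHom.id_apply]
        rw [dif_pos hex, hι hex.choose_spec]
      exact DFunLike.congr_fun this y
    have key : Submodule.span ℚ {g | ∃ (i : Fin d) (T : Finset L) (h : MvPolynomial L ℚ),
        i ∈ Set.range j ∧ T ⊆ blk β i ∧ 0 < th κ₀ τ T ∧
        h ∈ supported ℚ {l | β l ∈ Set.range j} ∧ g = h * pr (cut τ β T)} ≤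
        Submodule.comap ρ.toLinearMap ((Ip κ₀ (τ ∘ ι) β').restrictScalars ℚ) := by
      rw [Submodule.span_le]
      rintro g ⟨i, T, h, ⟨k, rfl⟩, hT, hth, -, rfl⟩
      have hTr : ∀ l ∈ T, ∃ l', ι l' = l := by
        intro l hl
        have := hT hl
        rw [blk, Finset.mem_filter] at this
        exact hr l ⟨k, this.2⟩
      have hTeq : T = (univ.filter fun l' => ι l' ∈ T).map ⟨ι, hι⟩ := by
        ext l
        simp only [mem_map, mem_filter, mem_univ, true_and, Function.Embedding.coeFn_mk]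
        constructor
        · intro hl
          obtain ⟨l', rfl⟩ := hTr l hl
          exact ⟨l', hl, rfl⟩
        · rintro ⟨l', hl', rfl⟩
          exact hl'
      set T' : Finset L' := univ.filter fun l' => ι l' ∈ T with hT'
      change ρ (h * pr (cut τ β T)) ∈ Ip κ₀ (τ ∘ ι) β'
      rw [map_mul]
      apply Ideal.mul_mem_left
      rw [hTeq, ← IPI_gen κ₀ τ β ι β' j hι hj hβ hr, hρ]
      apply Ideal.subset_span
      refine ⟨T', ?_, rfl⟩
      rw [← IPI_th κ₀ τ ι hι, ← hTeq]
      exact hth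
    have := key hspan
    change ρ (rename ι x) ∈ Ip κ₀ (τ ∘ ι) β' at this
    rwa [hρ] at this
  · intro hx
    have hle : Ip κ₀ (τ ∘ ι) β' ≤
        Ideal.comap (rename ι : MvPolynomial L' ℚ →ₐ[ℚ] MvPolynomial L ℚ).toRingHom
          (Ip κ₀ τ β) := by
      unfold Ip
      rw [Ideal.span_le]
      rintro f ⟨T', hT', rfl⟩
      change rename ι (pr (cut (τ ∘ ι) β' T')) ∈ Ip κ₀ τ β
      rw [IPI_gen κ₀ τ β ι β' j hι hj hβ hr]
      apply Ideal.subset_span
      exact ⟨_, by rw [IPI_th κ₀ τ ι hι]; exact hT', rfl⟩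
    exact hle hx

end Pool.Agent.Work.MP_c41774_al.Full

end
end

section

/-!
# R03: the common refinement
-/

noncomputable section

namespace Pool.Agent.Work.MP_c41774_al.Full

open Finset MvPolynomial
open Pool.Agent.Work.MP_c41774_al.Wall

section JOIN

variable {L : Type} [Fintype L] [DecidableEq L]

/-- counting pairs of labels by their blocks -/
lemma JOIN_card {r : ℕ} (τ : L → Bool) (δ : L → Fin r) (p : Fin r → Fin r → Prop)
    [∀ i j, Decidable (p i j)] :
    #(univ.filter fun e : L × L => τ e.1 = true ∧ τ e.2 = false ∧ p (δ e.1) (δ e.2)) =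
      ∑ i, ∑ j, if p i j then nk τ δ i j else 0 := by
  rw [Finset.card_eq_sum_card_fiberwise (f := fun e : L × L => (δ e.1, δ e.2)) (t := univ)
    (fun _ _ => by simp), Fintype.sum_prod_type]
  refine Finset.sum_congr rfl fun i _ => Finset.sum_congr rfl fun j _ => ?_
  by_cases h : p i j
  · rw [if_pos h, nk, nx, ny, ← Finset.card_product]
    congr 1
    ext e
    simp only [Finset.mem_filter, Finset.mem_univ, true_and, Prod.mk.injEq, Finset.mem_product,
      blk]
    constructor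
    · rintro ⟨⟨h1, h2, h3⟩, h4, h5⟩
      exact ⟨⟨h4, h1⟩, h5, h2⟩
    · rintro ⟨⟨h4, h1⟩, h5, h2⟩
      exact ⟨⟨h1, h2, by rw [h4, h5]; exact h⟩, h4, h5⟩
  · rw [if_neg h, Finset.card_eq_zero, Finset.eq_empty_iff_forall_notMem]
    intro e he
    simp only [Finset.mem_filter, Finset.mem_univ, true_and, Prod.mk.injEq] at he
    obtain ⟨⟨-, -, h3⟩, h4, h5⟩ := he
    rw [h4, h5] at h3
    exact h h3

/-- symmetric sums -/
lemma JOIN_sym {r m : ℕ} (n : Fin r → Fin r → ℕ) (hn : ∀ i j, n i j = n j i) (g : Fin r → Fin m)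
    (q : Fin r → Fin r → Prop) [∀ i j, Decidable (q i j)] (hq : ∀ i j, q i j ↔ q j i) :
    2 * (∑ i, ∑ j, if g i < g j ∧ q i j then n i j else 0) =
      ∑ i, ∑ j, if g i ≠ g j ∧ q i j then n i j else 0 := by
  have h1 : (∑ i, ∑ j, if g i < g j ∧ q i j then n i j else 0) =
      ∑ i, ∑ j, if g j < g i ∧ q i j then n i j else 0 := by
    rw [Finset.sum_comm]
    refine Finset.sum_congr rfl fun i _ => Finset.sum_congr rfl fun j _ => ?_
    rw [hn j i]
    simp only [hq j i]
  rw [two_mul]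
  nth_rw 2 [h1]
  rw [← Finset.sum_add_distrib]
  refine Finset.sum_congr rfl fun i _ => ?_
  rw [← Finset.sum_add_distrib]
  refine Finset.sum_congr rfl fun j _ => ?_
  by_cases hqq : q i j
  · rcases lt_trichotomy (g i) (g j) with h | h | h
    · simp [h, hqq, h.ne, h.le, not_lt_of_gt h]
    · simp [h]
    · simp [h, hqq, h.ne', h.le, not_lt_of_gt h]
  · simp [hqq]

end JOIN

theorem pr_R_JOIN : Q_SYMN → Q_JOIN := by
  intro hS L _ _ κ₀ h1 h2 τ d₀ γ d β hγ hβ hth
  classical
  set P : Finset (Fin d₀ × Fin d) := univ.image fun l => (γ l, β l) with hP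
  have hmem : ∀ l, (γ l, β l) ∈ P := fun l => Finset.mem_image_of_mem _ (Finset.mem_univ l)
  set e : P ≃ Fin #P := P.equivFin with he
  let δ : L → Fin #P := fun l => e ⟨(γ l, β l), hmem l⟩
  let φ : Fin #P → Fin d₀ := fun i => (e.symm i).1.1
  let ψ : Fin #P → Fin d := fun i => (e.symm i).1.2
  have hφ : ∀ l, γ l = φ (δ l) := by
    intro l
    simp [φ, δ]
  have hψ : ∀ l, β l = ψ (δ l) := by
    intro l
    simp [ψ, δ]
  have hinj : ∀ i j, φ i = φ j → ψ i = ψ j → i = j := by
    intro i j hi hj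
    apply e.symm.injective
    apply Subtype.ext
    exact Prod.ext hi hj
  have hδ : ∀ l l', γ l = γ l' → β l = β l' → δ l = δ l' := by
    intro l l' h h'
    exact hinj _ _ (by rw [← hφ, ← hφ, h]) (by rw [← hψ, ← hψ, h'])
  have hne : ∀ i, ∃ l, δ l = i := by
    intro i
    obtain ⟨l, -, hl⟩ := Finset.mem_image.mp (e.symm i).2
    refine ⟨l, ?_⟩
    apply e.symm.injective
    apply Subtype.ext
    simp [δ, hl]
  have hGood : Good κ₀ τ δ := by
    intro i
    obtain ⟨l, hl⟩ := hne i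
    refine ⟨⟨l, by simp [hl]⟩, ?_⟩
    have : (univ.filter fun l => δ l = i) = blk γ (φ i) ∩ blk β (ψ i) := by
      ext l'
      simp only [Finset.mem_filter, Finset.mem_univ, true_and, Finset.mem_inter, blk]
      constructor
      · intro h
        rw [← h]
        exact ⟨hφ l', hψ l'⟩
      · rintro ⟨h3, h4⟩
        exact hinj _ _ (by rw [← hφ, h3]) (by rw [← hψ, h4])
    rw [this]
    exact hth _ _
  have hφs : Function.Surjective φ := by
    intro i
    obtain ⟨l, hl⟩ := (hγ i).1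
    rw [Finset.mem_filter] at hl
    exact ⟨δ l, by rw [← hφ]; exact hl.2⟩
  have hψs : Function.Surjective ψ := by
    intro i
    obtain ⟨l, hl⟩ := (hβ i).1
    rw [Finset.mem_filter] at hl
    exact ⟨δ l, by rw [← hψ]; exact hl.2⟩
  refine ⟨#P, δ, φ, ψ, hGood, hφ, hψ, hδ, ?_, ?_, ?_, ?_⟩
  · simpa using Fintype.card_le_of_surjective ψ hψs
  · simpa using Fintype.card_le_of_surjective φ hφs
  · intro hr
    have hb : Function.Bijective ψ :=
      (Fintype.bijective_iff_surjective_and_card ψ).2 ⟨hψs, by simpa using hr⟩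
    refine ⟨fun i => φ ((Equiv.ofBijective ψ hb).symm i), fun l => ?_⟩
    have : (Equiv.ofBijective ψ hb).symm (β l) = δ l := by
      rw [Equiv.symm_apply_eq]
      exact hψ l
    show γ l = φ ((Equiv.ofBijective ψ hb).symm (β l))
    rw [this]
    exact hφ l
  · have hsym : ∀ i j, nk τ δ i j = nk τ δ j i := fun i j => (hS L κ₀ h1 h2 τ _ δ hGood i j).1
    have c1 : #((crs τ γ).filter fun e => β e.1 ≠ β e.2) =
        ∑ i, ∑ j, if φ i < φ j ∧ ψ i ≠ ψ j then nk τ δ i j else 0 := by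
      rw [← JOIN_card τ δ (fun i j => φ i < φ j ∧ ψ i ≠ ψ j)]
      congr 1
      ext e
      simp only [crs, Finset.mem_filter, Finset.mem_univ, true_and, ← hφ, ← hψ]
      tauto
    have c2 : dege τ δ = ∑ i, ∑ j, if i < j ∧ True then nk τ δ i j else 0 := by
      rw [← JOIN_card τ δ (fun i j => i < j ∧ True)]
      rw [dege, crs]
      simp only [and_true]
    have c3 : dege τ γ = ∑ i, ∑ j, if φ i < φ j ∧ True then nk τ δ i j else 0 := by
      rw [← JOIN_card τ δ (fun i j => φ i < φ j ∧ True)]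
      rw [dege, crs]
      simp only [and_true, ← hφ]
    have c4 : dege τ β = ∑ i, ∑ j, if ψ i < ψ j ∧ True then nk τ δ i j else 0 := by
      rw [← JOIN_card τ δ (fun i j => ψ i < ψ j ∧ True)]
      rw [dege, crs]
      simp only [and_true, ← hψ]
    have e1 := JOIN_sym (nk τ δ) hsym φ (fun i j => ψ i ≠ ψ j) (fun i j => ne_comm)
    have e2 := JOIN_sym (nk τ δ) hsym (id : Fin #P → Fin #P) (fun _ _ => True) (fun _ _ => Iff.rfl)
    have e3 := JOIN_sym (nk τ δ) hsym φ (fun _ _ => True) (fun _ _ => Iff.rfl)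
    have e4 := JOIN_sym (nk τ δ) hsym ψ (fun _ _ => True) (fun _ _ => Iff.rfl)
    simp only [id] at e2
    rw [← c1] at e1
    rw [← c2] at e2
    rw [← c3] at e3
    rw [← c4] at e4
    have key : (∑ i, ∑ j, if φ i ≠ φ j ∧ ψ i ≠ ψ j then nk τ δ i j else 0) +
        (∑ i, ∑ j, if i ≠ j ∧ True then nk τ δ i j else 0) =
        (∑ i, ∑ j, if φ i ≠ φ j ∧ True then nk τ δ i j else 0) +
        (∑ i, ∑ j, if ψ i ≠ ψ j ∧ True then nk τ δ i j else 0) := by
      rw [← Finset.sum_add_distrib, ← Finset.sum_add_distrib]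
      refine Finset.sum_congr rfl fun i _ => ?_
      rw [← Finset.sum_add_distrib, ← Finset.sum_add_distrib]
      refine Finset.sum_congr rfl fun j _ => ?_
      by_cases hi : φ i = φ j <;> by_cases hj : ψ i = ψ j
      · have : i = j := hinj i j hi hj
        simp [this]
      · have : i ≠ j := fun h => hj (by rw [h])
        simp [this, hi, hj]
      · have : i ≠ j := fun h => hi (by rw [h])
        simp [this, hi, hj]
      · have : i ≠ j := fun h => hi (by rw [h])
        simp [this, hi, hj]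
    omega

end Pool.Agent.Work.MP_c41774_al.Full

end
end

section

/-!
# Item R_LA: tensors with all contractions in subspaces
-/

noncomputable section

namespace Pool.Agent.Work.MP_c41774_al.Full

open Finset MvPolynomial
open Pool.Agent.Work.MP_c41774_al.Wall

/-- if all contractions of `∑ xᵢ ⊗ bᵢ` with functionals killing `I₂` vanish, then
`∑ B(xᵢ, bᵢ)` is in `W₀` -/
theorem LA_Z {V₁ V₂ W : Type} [AddCommGroup V₁] [Module ℚ V₁] [AddCommGroup V₂]
    [Module ℚ V₂] [AddCommGroup W] [Module ℚ W] (B : V₁ →ₗ[ℚ] V₂ →ₗ[ℚ] W)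
    (I₂ : Submodule ℚ V₂) (W₀ : Submodule ℚ W) (hB : ∀ x, ∀ y ∈ I₂, B x y ∈ W₀) {m : ℕ}
    (x : Fin m → V₁) (b : Fin m → V₂)
    (h : ∀ μ : V₂ →ₗ[ℚ] ℚ, (∀ y ∈ I₂, μ y = 0) → ∑ i, μ (b i) • x i = 0) :
    ∑ i, B (x i) (b i) ∈ W₀ := by
  classical
  let e := Module.Basis.ofVectorSpace ℚ (V₂ ⧸ I₂)
  have hE : ∀ j, ∃ E : V₂, I₂.mkQ E = e j := fun j => I₂.mkQ_surjective (e j)
  choose E hE using hE
  let T := (univ : Finset (Fin m)).biUnion fun i => (e.repr (I₂.mkQ (b i))).support
  have h1 : ∀ i, b i - ∑ j ∈ T, e.repr (I₂.mkQ (b i)) j • E j ∈ I₂ := by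
    intro i
    apply (Submodule.Quotient.mk_eq_zero I₂).mp
    rw [← Submodule.mkQ_apply, map_sub, map_sum, sub_eq_zero]
    have h2 : ∑ j ∈ T, I₂.mkQ (e.repr (I₂.mkQ (b i)) j • E j) =
        ∑ j ∈ T, e.repr (I₂.mkQ (b i)) j • e j := by
      refine Finset.sum_congr rfl fun j _ => ?_
      rw [map_smul, hE]
    rw [h2]
    conv_lhs => rw [← e.linearCombination_repr (I₂.mkQ (b i))]
    rw [Finsupp.linearCombination_apply, Finsupp.sum]
    refine Finset.sum_subset ?_ ?_
    · intro j hj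
      exact Finset.mem_biUnion.mpr ⟨i, Finset.mem_univ _, hj⟩
    · intro j _ hj
      rw [Finsupp.notMem_support_iff.mp hj, zero_smul]
  have h3 : ∀ j, ∑ i, e.repr (I₂.mkQ (b i)) j • x i = 0 := by
    intro j
    refine h ((e.coord j).comp I₂.mkQ) fun y hy => ?_
    have : I₂.mkQ y = 0 := by
      rw [← LinearMap.mem_ker, Submodule.ker_mkQ]; exact hy
    rw [LinearMap.comp_apply, this, map_zero]
  have h4 : ∑ i, B (x i) (b i) = ∑ i, B (x i) (b i - ∑ j ∈ T, e.repr (I₂.mkQ (b i)) j • E j) := by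
    have h5 : ∀ i, B (x i) (b i - ∑ j ∈ T, e.repr (I₂.mkQ (b i)) j • E j) =
        B (x i) (b i) - ∑ j ∈ T, B (e.repr (I₂.mkQ (b i)) j • x i) (E j) := by
      intro i
      rw [map_sub, map_sum]
      congr 1
      refine Finset.sum_congr rfl fun j _ => ?_
      rw [map_smul, map_smul, LinearMap.smul_apply]
    rw [Finset.sum_congr rfl fun i _ => h5 i, Finset.sum_sub_distrib, Finset.sum_comm]
    have h6 : ∑ j ∈ T, ∑ i, B (e.repr (I₂.mkQ (b i)) j • x i) (E j) = 0 := by
      refine Finset.sum_eq_zero fun j _ => ?_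
      rw [← LinearMap.sum_apply, ← map_sum, h3 j, map_zero, LinearMap.zero_apply]
    rw [h6, sub_zero]
  rw [h4]
  exact Submodule.sum_mem _ fun i _ => hB _ _ (h1 i)

/-- a projection onto a subspace -/
theorem LA_P {V : Type} [AddCommGroup V] [Module ℚ V] (U : Submodule ℚ V) :
    ∃ P : V →ₗ[ℚ] V, (∀ x, P x ∈ U) ∧ ∀ x ∈ U, P x = x := by
  obtain ⟨g, hg⟩ := LinearMap.exists_leftInverse_of_injective U.subtype U.ker_subtype
  refine ⟨U.subtype.comp g, fun x => (g x).2, fun x hx => ?_⟩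
  have := LinearMap.congr_fun hg ⟨x, hx⟩
  rw [LinearMap.comp_apply, LinearMap.id_apply] at this
  rw [LinearMap.comp_apply]
  have h1 : g x = ⟨x, hx⟩ := this
  rw [h1]
  rfl

theorem pr_R_LA : Q_LA := by
  intro V₁ V₂ W _ _ _ _ _ _ B I₁ U₁ I₂ U₂ W₀ m a b h1 h2 hB1 hB2 hμ hlam
  obtain ⟨P, hP, hP'⟩ := LA_P U₁
  obtain ⟨Q, hQ, hQ'⟩ := LA_P U₂
  have e1 : ∑ i, B (a i - P (a i)) (b i) ∈ W₀ := by
    refine LA_Z B I₂ W₀ hB2 (fun i => a i - P (a i)) b fun μ hμ0 => ?_
    have h3 := hμ μ hμ0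
    have h4 : ∑ i, μ (b i) • (a i - P (a i)) =
        (∑ i, μ (b i) • a i) - P (∑ i, μ (b i) • a i) := by
      rw [map_sum, ← Finset.sum_sub_distrib]
      refine Finset.sum_congr rfl fun i _ => ?_
      rw [smul_sub, map_smul]
    rw [h4, hP' _ h3, sub_self]
  have e2 : ∑ i, B (P (a i)) (b i - Q (b i)) ∈ W₀ := by
    have := LA_Z B.flip I₁ W₀ (fun y x hx => hB1 x hx y) (fun i => b i - Q (b i))
      (fun i => P (a i)) fun lam hlam0 => ?_
    · exact this
    have h3 := hlam (lam.comp P) fun x hx => by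
      rw [LinearMap.comp_apply, hP' _ (h1 hx)]; exact hlam0 x hx
    have h4 : ∑ i, lam (P (a i)) • (b i - Q (b i)) =
        (∑ i, (lam.comp P) (a i) • b i) - Q (∑ i, (lam.comp P) (a i) • b i) := by
      rw [map_sum, ← Finset.sum_sub_distrib]
      refine Finset.sum_congr rfl fun i _ => ?_
      rw [smul_sub, map_smul]
      rfl
    rw [h4, hQ' _ h3, sub_self]
  have e3 : ∑ i, B (a i) (b i) = ∑ i, B (P (a i)) (Q (b i)) +
      (∑ i, B (a i - P (a i)) (b i) + ∑ i, B (P (a i)) (b i - Q (b i))) := by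
    rw [← Finset.sum_add_distrib, ← Finset.sum_add_distrib]
    refine Finset.sum_congr rfl fun i _ => ?_
    rw [map_sub, LinearMap.sub_apply, map_sub]
    abel
  rw [e3]
  refine Submodule.add_mem_sup (Submodule.sum_mem _ fun i _ => Submodule.subset_span ?_)
    (Submodule.add_mem _ e1 e2)
  exact ⟨P (a i), hP _, Q (b i), hQ _, rfl⟩

end Pool.Agent.Work.MP_c41774_al.Full

end
end

section

/-!
# R04: merging two blocks
-/

noncomputable section

namespace Pool.Agent.Work.MP_c41774_al.Full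

open Finset MvPolynomial

section

variable {L : Type} [Fintype L] [DecidableEq L]

theorem merge_two (hD : Q_DEGE) (κ₀ : ℕ × ℕ) (h1 : 0 < κ₀.1) (h2 : 0 < κ₀.2) (τ : L → Bool)
    {d : ℕ} (β : L → Fin d) (hβ : Good κ₀ τ β) : 2 * dege τ β = dd τ β := by
  have h := ((hD L κ₀ h1 h2 τ d β hβ).2 Fin.revPerm).2
  have h3 : dd τ β = dege τ β + dege τ (⇑(Fin.revPerm (n := d)) ∘ β) := by
    unfold dd dege crs
    rw [← Finset.card_union_of_disjoint]
    · congr 1
      ext e
      simp only [mem_filter, mem_univ, true_and, mem_union, Function.comp_apply, Fin.revPerm_apply,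
        Fin.rev_lt_rev]
      rw [ne_iff_lt_or_gt]
      tauto
    · rw [Finset.disjoint_left]
      intro e he he'
      simp only [mem_filter, mem_univ, true_and, Function.comp_apply, Fin.revPerm_apply,
        Fin.rev_lt_rev] at he he'
      exact lt_asymm he.2.2 he'.2.2
  rw [h] at h3
  omega

theorem merge_nx {d e : ℕ} (τ : L → Bool) (β : L → Fin d) (φ : Fin d → Fin e) (i : Fin e) :
    nx τ (blk (φ ∘ β) i) = ∑ j ∈ univ.filter (fun j => φ j = i), nx τ (blk β j) := by
  unfold nx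
  rw [Finset.card_eq_sum_card_fiberwise (f := β) (t := univ.filter fun j => φ j = i)]
  · refine Finset.sum_congr rfl fun j hj => ?_
    simp only [mem_filter, mem_univ, true_and] at hj
    congr 1
    ext a
    simp only [blk, mem_filter, mem_univ, true_and, Function.comp_apply]
    constructor
    · rintro ⟨⟨_, h2⟩, h3⟩
      exact ⟨h3, h2⟩
    · rintro ⟨h3, h2⟩
      exact ⟨⟨by rw [h3, hj], h2⟩, h3⟩
  · intro a ha
    simp only [blk, coe_filter, mem_filter, mem_univ, true_and, Function.comp_apply,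
      Set.mem_ofPred_eq] at ha ⊢
    exact ha.1

theorem merge_ny {d e : ℕ} (τ : L → Bool) (β : L → Fin d) (φ : Fin d → Fin e) (i : Fin e) :
    ny τ (blk (φ ∘ β) i) = ∑ j ∈ univ.filter (fun j => φ j = i), ny τ (blk β j) := by
  unfold ny
  rw [Finset.card_eq_sum_card_fiberwise (f := β) (t := univ.filter fun j => φ j = i)]
  · refine Finset.sum_congr rfl fun j hj => ?_
    simp only [mem_filter, mem_univ, true_and] at hj
    congr 1
    ext a
    simp only [blk, mem_filter, mem_univ, true_and, Function.comp_apply]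
    constructor
    · rintro ⟨⟨_, h2⟩, h3⟩
      exact ⟨h3, h2⟩
    · rintro ⟨h3, h2⟩
      exact ⟨⟨by rw [h3, hj], h2⟩, h3⟩
  · intro a ha
    simp only [blk, coe_filter, mem_filter, mem_univ, true_and, Function.comp_apply,
      Set.mem_ofPred_eq] at ha ⊢
    exact ha.1

theorem merge_th {d e : ℕ} (κ₀ : ℕ × ℕ) (τ : L → Bool) (β : L → Fin d) (φ : Fin d → Fin e)
    (i : Fin e) :
    th κ₀ τ (blk (φ ∘ β) i) = ∑ j ∈ univ.filter (fun j => φ j = i), th κ₀ τ (blk β j) := by
  unfold th
  rw [merge_nx, merge_ny, Finset.sum_sub_distrib, ← Finset.mul_sum, ← Finset.mul_sum]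
  push_cast
  rfl

theorem merge_good {d e : ℕ} (κ₀ : ℕ × ℕ) (τ : L → Bool) (β : L → Fin d) (φ : Fin d → Fin e)
    (hφ : Function.Surjective φ) (hβ : Good κ₀ τ β) : Good κ₀ τ (φ ∘ β) := by
  intro i
  obtain ⟨j, rfl⟩ := hφ i
  constructor
  · obtain ⟨a, ha⟩ := (hβ j).1
    simp only [mem_filter, mem_univ, true_and] at ha
    exact ⟨a, by simp [ha]⟩
  · have := merge_th κ₀ τ β φ (φ j)
    rw [blk] at this
    rw [this]
    exact Finset.sum_eq_zero fun j' _ => (hβ j').2

/-- the merging map -/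
def mergeMap {e : ℕ} (k l : Fin (e + 1)) (hkl : k ≠ l) (i : Fin (e + 1)) : Fin e :=
  if h : i = k then (finSuccAboveEquiv k).symm ⟨l, hkl.symm⟩ else (finSuccAboveEquiv k).symm ⟨i, h⟩

theorem mergeMap_mrg {e : ℕ} (k l : Fin (e + 1)) (hkl : k ≠ l) : Mrg k l (mergeMap k l hkl) := by
  intro i j
  unfold mergeMap
  by_cases hi : i = k <;> by_cases hj : j = k
  · simp [hi, hj]
  · subst hi
    simp only [dite_true, hj, dite_false, EmbeddingLike.apply_eq_iff_eq, Subtype.mk.injEq]
    constructor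
    · intro h
      exact Or.inr (Or.inl ⟨by trivial, h.symm⟩)
    · rintro (h | ⟨_, h⟩ | ⟨_, h⟩)
      · exact absurd h.symm hj
      · exact h.symm
      · exact h.elim
  · subst hj
    simp only [dite_true, hi, dite_false, EmbeddingLike.apply_eq_iff_eq, Subtype.mk.injEq]
    constructor
    · intro h
      exact Or.inr (Or.inr ⟨h, by trivial⟩)
    · rintro (h | ⟨h, _⟩ | ⟨h, _⟩)
      · exact h.elim
      · exact h.elim
      · exact h
  · simp only [hi, hj, dite_false, EmbeddingLike.apply_eq_iff_eq, Subtype.mk.injEq]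
    constructor
    · exact fun h => Or.inl h
    · rintro (h | ⟨h, _⟩ | ⟨_, h⟩)
      · exact h
      · exact h.elim
      · exact h.elim

theorem mergeMap_surj {e : ℕ} (k l : Fin (e + 1)) (hkl : k ≠ l) :
    Function.Surjective (mergeMap k l hkl) := by
  intro i
  refine ⟨(finSuccAboveEquiv k i : {x // x ≠ k}), ?_⟩
  unfold mergeMap
  rw [dif_neg (finSuccAboveEquiv k i).2]
  simp

theorem merge_dd {e : ℕ} (τ : L → Bool) (β : L → Fin (e + 1)) (k l : Fin (e + 1)) (hkl : k ≠ l)
    (φ : Fin (e + 1) → Fin e) (hφ : Mrg k l φ) :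
    dd τ β = dd τ (φ ∘ β) + (nk τ β k l + nk τ β l k) := by
  have hpr (i j : Fin (e + 1)) : nk τ β i j =
      #(univ.filter fun e : L × L => τ e.1 = true ∧ τ e.2 = false ∧ β e.1 = i ∧ β e.2 = j) := by
    unfold nk nx ny
    rw [← Finset.card_product]
    congr 1
    ext e
    simp only [blk, mem_product, mem_filter, mem_univ, true_and]
    tauto
  rw [hpr, hpr, ← Finset.card_union_of_disjoint, dd, dd, ← Finset.card_union_of_disjoint]
  · congr 1
    ext e
    simp only [mem_filter, mem_univ, true_and, mem_union, Function.comp_apply]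
    have := hφ (β e.1) (β e.2)
    constructor
    · rintro ⟨h1, h2, h3⟩
      by_cases h4 : φ (β e.1) = φ (β e.2)
      · rcases this.mp h4 with h | h | h
        · exact absurd h h3
        · exact Or.inr (Or.inl ⟨h1, h2, h⟩)
        · exact Or.inr (Or.inr ⟨h1, h2, h⟩)
      · exact Or.inl ⟨h1, h2, h4⟩
    · rintro (⟨h1, h2, h3⟩ | ⟨h1, h2, h3, h4⟩ | ⟨h1, h2, h3, h4⟩)
      · exact ⟨h1, h2, fun h => h3 (by rw [h])⟩
      · exact ⟨h1, h2, by rw [h3, h4]; exact hkl⟩
      · exact ⟨h1, h2, by rw [h3, h4]; exact hkl.symm⟩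
  · rw [Finset.disjoint_left]
    intro e he he'
    simp only [mem_filter, mem_univ, true_and, mem_union, Function.comp_apply] at he he'
    refine he.2.2 ((hφ _ _).mpr ?_)
    rcases he' with h | h
    · exact Or.inr (Or.inl h.2.2)
    · exact Or.inr (Or.inr h.2.2)
  · rw [Finset.disjoint_left]
    intro e he he'
    simp only [mem_filter, mem_univ, true_and] at he he'
    exact hkl (he.2.2.1.symm.trans he'.2.2.1)

end

theorem pr_R_MERGE : Q_SYMN → Q_DEGE → Q_MERGE := by
  intro hS hD L _ _ κ₀ h1 h2 τ e β hβ k l hkl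
  have hg := merge_good κ₀ τ β (mergeMap k l hkl) (mergeMap_surj k l hkl) hβ
  refine ⟨mergeMap k l hkl, mergeMap_mrg k l hkl, hg, ?_⟩
  have a1 := merge_two hD κ₀ h1 h2 τ β hβ
  have a2 := merge_two hD κ₀ h1 h2 τ _ hg
  have a3 := merge_dd τ β k l hkl _ (mergeMap_mrg k l hkl)
  have a4 := (hS L κ₀ h1 h2 τ _ β hβ k l).1
  omega

end Pool.Agent.Work.MP_c41774_al.Full

end
end

section

/-!
# R09: incompatible partitions give zero
-/

noncomputable section

namespace Pool.Agent.Work.MP_c41774_al.Full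

open Finset MvPolynomial
open Pool.Agent.Work.MP_c41774_al.Wall

namespace R_MUL0

variable {L : Type} [Fintype L] [DecidableEq L]

/-- the weight of a label -/
def wgt (κ₀ : ℕ × ℕ) (τ : L → Bool) (l : L) : ℤ := if τ l = true then (κ₀.2 : ℤ) else -(κ₀.1 : ℤ)

omit [Fintype L] [DecidableEq L] in
theorem th_sum (κ₀ : ℕ × ℕ) (τ : L → Bool) (T : Finset L) :
    th κ₀ τ T = ∑ l ∈ T, wgt κ₀ τ l := by
  unfold wgt
  rw [Finset.sum_ite]
  rw [Finset.sum_const, Finset.sum_const, th, nx, ny]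
  have e : (T.filter fun l => ¬ τ l = true) = T.filter fun l => τ l = false := by
    refine Finset.filter_congr fun l _ => ?_
    simp
  rw [e]
  simp only [nsmul_eq_mul]
  ring

/-- the sets of the filtration -/
def Tn {d₀ d : ℕ} (γ : L → Fin d₀) (β : L → Fin d) (n : ℕ) (l : Fin d) : Finset L :=
  univ.filter fun x => (γ x : ℕ) < n ∧ β x = l

theorem exists_pos (κ₀ : ℕ × ℕ) (τ : L → Bool) {d₀ d : ℕ} (γ : L → Fin d₀) (β : L → Fin d)
    (hγ : Good κ₀ τ γ) (h : ∃ k l, th κ₀ τ (blk γ k ∩ blk β l) ≠ 0) :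
    ∃ n l, 0 < th κ₀ τ (Tn γ β n l) := by
  by_contra hcon
  push Not at hcon
  have hz : ∀ n l, th κ₀ τ (Tn γ β n l) = 0 := by
    intro n
    have hs : ∑ l, th κ₀ τ (Tn γ β n l) = 0 := by
      have e1 : ∑ l, th κ₀ τ (Tn γ β n l) =
          ∑ x ∈ univ.filter (fun x => (γ x : ℕ) < n), wgt κ₀ τ x := by
        rw [← Finset.sum_fiberwise (univ.filter (fun x => (γ x : ℕ) < n)) β (wgt κ₀ τ)]
        refine Finset.sum_congr rfl fun l _ => ?_
        rw [th_sum, Tn, Finset.filter_filter]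
      have e2 : ∑ x ∈ univ.filter (fun x => (γ x : ℕ) < n), wgt κ₀ τ x =
          ∑ k : Fin d₀, if (k : ℕ) < n then th κ₀ τ (blk γ k) else 0 := by
        rw [← Finset.sum_fiberwise (univ.filter (fun x => (γ x : ℕ) < n)) γ (wgt κ₀ τ)]
        refine Finset.sum_congr rfl fun k _ => ?_
        rw [Finset.filter_filter]
        by_cases hk : (k : ℕ) < n
        · rw [if_pos hk, th_sum, blk]
          refine Finset.sum_congr (Finset.filter_congr fun x _ => ?_) fun _ _ => rfl
          constructor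
          · exact fun h => h.2
          · exact fun h => ⟨by rw [h]; exact hk, h⟩
        · rw [if_neg hk]
          refine Finset.sum_eq_zero fun x hx => ?_
          rw [Finset.mem_filter] at hx
          exact absurd (by rw [← hx.2.2]; exact hx.2.1) hk
      rw [e1, e2]
      refine Finset.sum_eq_zero fun k _ => ?_
      have := (hγ k).2
      rw [blk, this]
      simp
    intro l
    exact (Finset.sum_eq_zero_iff_of_nonpos fun l _ => hcon n l).1 hs l (Finset.mem_univ l)
  obtain ⟨k, l, hkl⟩ := h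
  apply hkl
  have h1 := hz ((k : ℕ) + 1) l
  have h0 := hz (k : ℕ) l
  have e : Tn γ β ((k : ℕ) + 1) l = Tn γ β (k : ℕ) l ∪ (blk γ k ∩ blk β l) := by
    ext x
    simp only [Tn, blk, Finset.mem_filter, Finset.mem_univ, true_and, Finset.mem_union,
      Finset.mem_inter]
    constructor
    · rintro ⟨h, h'⟩
      rcases Nat.lt_succ_iff_lt_or_eq.1 h with h2 | h2
      · exact Or.inl ⟨h2, h'⟩
      · exact Or.inr ⟨Fin.ext h2, h'⟩
    · rintro (⟨h, h'⟩ | ⟨h, h'⟩)
      · exact ⟨by omega, h'⟩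
      · exact ⟨by rw [h]; omega, h'⟩
  have hd : Disjoint (Tn γ β (k : ℕ) l) (blk γ k ∩ blk β l) := by
    rw [Finset.disjoint_left]
    intro x hx hx'
    simp only [Tn, blk, Finset.mem_filter, Finset.mem_univ, true_and,
      Finset.mem_inter] at hx hx'
    rw [hx'.1] at hx
    exact absurd hx.1 (lt_irrefl _)
  rw [e, th_sum, Finset.sum_union hd, ← th_sum, ← th_sum, h0, zero_add] at h1
  exact h1

omit [Fintype L] [DecidableEq L] in
theorem Sh_pr {d : ℕ} (β : L → Fin d) (E : Finset (L × L)) (hE : ∀ e ∈ E, β e.1 = β e.2) :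
    Sh β (pr E) = C (pr E) := by
  rw [pr, map_prod, map_prod]
  refine Finset.prod_congr rfl fun e he => ?_
  rw [map_sub, map_sub, Sh, aeval_X, aeval_X, hE e he]
  ring

end R_MUL0

open R_MUL0 in
theorem pr_R_MUL0 : Q_MUL0 := by
  intro L _ _ κ₀ τ d₀ γ d β hγ _ h f α
  obtain ⟨n, l, hpos⟩ := exists_pos κ₀ τ γ β hγ h
  set E : Finset (L × L) := (crs τ γ).filter fun e => β e.1 = β e.2 with hE
  have hcut : cut τ β (Tn γ β n l) ⊆ E := by
    intro e he
    simp only [cut, Tn, Finset.mem_filter, Finset.mem_univ, true_and] at he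
    obtain ⟨⟨h1, h2⟩, h3, h4, h5, h6⟩ := he
    rw [hE, Finset.mem_filter, crs, Finset.mem_filter]
    refine ⟨⟨Finset.mem_univ _, h4, h5, ?_⟩, h6⟩
    have h7 : ¬ (γ e.2 : ℕ) < n := fun h8 => h3 ⟨h8, by rw [← h6, h2]⟩
    exact Fin.lt_def.2 (by omega)
  have hmem : pr E ∈ Ip κ₀ τ β := by
    have hd : (pr (cut τ β (Tn γ β n l)) : MvPolynomial L ℚ) ∣ pr E :=
      Finset.prod_dvd_prod_of_subset _ _ _ hcut
    refine Ideal.mem_of_dvd _ hd (Ideal.subset_span ⟨_, hpos, rfl⟩)
  have hsplit : (pr (crs τ γ) : MvPolynomial L ℚ) = pr E * pr (crs τ γ \ E) := by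
    rw [pr, pr, pr, mul_comm]
    exact (Finset.prod_sdiff (Finset.filter_subset _ _)).symm
  rw [hsplit, mul_assoc, map_mul, Sh_pr β E (fun e he => (Finset.mem_filter.1 he).2), coeff_C_mul]
  exact Ideal.mul_mem_right _ _ hmem

end Pool.Agent.Work.MP_c41774_al.Full

end
end

section

/-!
# Block R, item MUL1: the degree bound for compatible partitions
-/

noncomputable section

namespace Pool.Agent.Work.MP_c41774_al.Full

open Finset MvPolynomial
open Pool.Agent.Work.MP_c41774_al.Wall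

theorem mul1_coeff_mul {D A : Type*} [CommSemiring A] (I : Ideal A) (B : ℤ) (t : ℕ)
    (K H : MvPolynomial D A) (hK : K.totalDegree ≤ t)
    (hH : ∀ ω : D →₀ ℕ, B < 2 * (ω.degree : ℤ) → H.coeff ω ∈ I) (α : D →₀ ℕ)
    (hα : B + 2 * t < 2 * (α.degree : ℤ)) : (K * H).coeff α ∈ I := by
  classical
  rw [coeff_mul]
  refine Ideal.sum_mem _ fun p hp => ?_
  rw [HasAntidiagonal.mem_antidiagonal] at hp
  by_cases h : t < p.1.degree
  · have h0 : K.coeff p.1 = 0 := by
      by_contra h1
      have h2 := le_totalDegree (mem_support_iff.mpr h1)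
      have h3 : p.1.degree = p.1.sum fun _ e => e := rfl
      omega
    rw [h0, zero_mul]
    exact Ideal.zero_mem _
  · refine Ideal.mul_mem_left _ _ (hH _ ?_)
    have h1 : α.degree = p.1.degree + p.2.degree := by
      rw [← hp]
      exact map_add Finsupp.degree p.1 p.2
    omega

theorem mul1_degree_mapDomain {D D' : Type*} (ψ : D' → D) (m : D' →₀ ℕ) :
    (m.mapDomain ψ).degree = m.degree := by
  classical
  show (m.mapDomain ψ).sum (fun _ e => e) = m.sum (fun _ e => e)
  rw [Finsupp.sum_mapDomain_index (fun _ => rfl) (fun _ _ _ => rfl)]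

theorem mul1_coeff_rename {D D' A : Type*} [CommSemiring A] (I : Ideal A) (B : ℤ) (ψ : D' → D)
    (G : MvPolynomial D' A) (hG : ∀ ω : D' →₀ ℕ, B < 2 * (ω.degree : ℤ) → G.coeff ω ∈ I)
    (α : D →₀ ℕ) (hα : B < 2 * (α.degree : ℤ)) : (rename ψ G).coeff α ∈ I := by
  classical
  rw [G.as_sum, map_sum, coeff_sum]
  refine Ideal.sum_mem _ fun m _ => ?_
  rw [rename_monomial, coeff_monomial]
  split_ifs with h
  · refine hG m ?_
    rw [← h, mul1_degree_mapDomain] at hα
    exact hα
  · exact Ideal.zero_mem _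

theorem mul1_totalDegree {L : Type} [Fintype L] [DecidableEq L] {D : Type*} (β : L → D)
    (E : Finset (L × L)) : (Sh β (pr E : MvPolynomial L ℚ)).totalDegree ≤ #E := by
  unfold pr
  rw [map_prod]
  refine (totalDegree_finsetProd _ _).trans ?_
  rw [Finset.card_eq_sum_ones]
  refine Finset.sum_le_sum fun e _ => ?_
  simp only [Sh, map_sub, aeval_X]
  refine (totalDegree_sub _ _).trans (max_le ?_ ?_)
  · refine (totalDegree_add _ _).trans (max_le ?_ ?_)
    · rw [totalDegree_C]; exact Nat.zero_le _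
    · exact (totalDegree_X _).le
  · refine (totalDegree_add _ _).trans (max_le ?_ ?_)
    · rw [totalDegree_C]; exact Nat.zero_le _
    · exact (totalDegree_X _).le

theorem mul1_Sh_inner {L : Type} [Fintype L] [DecidableEq L] {D : Type*} (β : L → D)
    (E : Finset (L × L)) (hE : ∀ e ∈ E, β e.1 = β e.2) :
    Sh β (pr E : MvPolynomial L ℚ) = C (pr E) := by
  unfold pr
  rw [map_prod, map_prod]
  refine Finset.prod_congr rfl fun e he => ?_
  simp only [Sh, map_sub, aeval_X, hE e he]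
  ring

theorem mul1_Sh_rename {L : Type} {D D' : Type*} (β : L → D) (δ : L → D')
    (ψ : D' → D) (h : ∀ l, β l = ψ (δ l)) (f : MvPolynomial L ℚ) :
    Sh β f = rename ψ (Sh δ f) := by
  have key : Sh β = ((rename ψ : MvPolynomial D' (MvPolynomial L ℚ) →ₐ[MvPolynomial L ℚ]
      MvPolynomial D (MvPolynomial L ℚ)).restrictScalars ℚ).comp (Sh δ) := by
    refine MvPolynomial.algHom_ext fun l => ?_
    simp [Sh, h]
  rw [key]
  rfl

theorem mul1_main {L : Type} [Fintype L] [DecidableEq L] {D D' : Type} (β : L → D) (δ : L → D')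
    (ψ : D' → D) (h : ∀ l, β l = ψ (δ l)) (f : MvPolynomial L ℚ) (E E' F : Finset (L × L))
    (hF : (pr F : MvPolynomial L ℚ) = pr E * pr E') (hE : ∀ e ∈ E, β e.1 = β e.2) :
    Sh β (pr F * f) = Sh β (pr E') * rename ψ (C (pr E) * Sh δ f) := by
  have h1 : (pr F * f : MvPolynomial L ℚ) = pr E' * (pr E * f) := by rw [hF]; ring
  have h2 : Sh β (pr F * f) = Sh β (pr E') * (Sh β (pr E) * Sh β f) := by
    rw [h1, map_mul, map_mul]
  have h3 : rename ψ (C (pr E) * Sh δ f) = C (pr E) * rename ψ (Sh δ f) := by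
    rw [map_mul, rename_C]
  rw [h2, h3, mul1_Sh_inner β E hE, mul1_Sh_rename β δ ψ h f]

theorem mul1_split {L : Type} [DecidableEq L] {D : Type} [DecidableEq D] (β : L → D)
    (F : Finset (L × L)) : (pr F : MvPolynomial L ℚ) =
      pr (F.filter fun e => β e.1 = β e.2) * pr (F.filter fun e => β e.1 ≠ β e.2) :=
  (Finset.prod_filter_mul_prod_filter_not F (fun e => β e.1 = β e.2) _).symm


theorem mul1_PR {L : Type} [Fintype L] [DecidableEq L] {κ₀ : ℕ × ℕ} {n : ℤ} {τ : L → Bool}
    {d₀ : ℕ} {γ : L → Fin d₀} {f : MvPolynomial L ℚ} (hf : f ∈ PR κ₀ n τ γ) :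
    ∀ (d : ℕ) (β : L → Fin d) (φ : Fin d → Fin d₀), Good κ₀ τ β →
    (∀ l, γ l = φ (β l)) → ∀ α : Fin d →₀ ℕ,
    2 * (dege τ β : ℤ) - 2 * dege τ γ + n - d < 2 * (α.degree : ℤ) →
      (Sh β f).coeff α ∈ Ip κ₀ τ β := hf


theorem pr_R_MUL1 : Q_INN → Q_MUL1 := by
  intro hINN L _ _ κ₀ hp hq τ d₀ γ d β r δ φ ψ hγ hβ hθ hδ hφ hψ hj hcard n f hf α hα
  have hsplit := mul1_split β (crs τ γ)
  have hm := mul1_main β δ ψ hψ f _ _ _ hsplit (fun e he => (Finset.mem_filter.mp he).2)
  rw [hm]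

  have hB : (#((crs τ γ).filter fun e => β e.1 ≠ β e.2) : ℤ) + dege τ δ =
      dege τ γ + dege τ β := by exact_mod_cast hcard
  refine mul1_coeff_mul (Ip κ₀ τ β) (2 * (dege τ δ : ℤ) - 2 * dege τ γ + n - r)
    (#((crs τ γ).filter fun e => β e.1 ≠ β e.2)) _ _ ?_ ?_ α ?_
  · exact mul1_totalDegree β ((crs τ γ).filter fun e => β e.1 ≠ β e.2)
  · intro ω hω
    refine mul1_coeff_rename (Ip κ₀ τ β) (2 * (dege τ δ : ℤ) - 2 * dege τ γ + n - r) ψ _ ?_ ω hω
    intro ω' hω'
    rw [coeff_C_mul]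
    have h1 := mul1_PR hf r δ φ hδ hφ ω' hω'
    exact hINN L κ₀ τ d₀ γ d β r δ φ ψ hθ hφ hψ hj _ h1
  · linarith only [hB, hα]

end Pool.Agent.Work.MP_c41774_al.Full

end
end

section

noncomputable section

namespace Pool.Agent.Work.MP_c41774_al.Full

open Finset MvPolynomial
open Pool.Agent.Work.MP_c41774_al.Wall

theorem pr_R_NE : Q_NE := by
  intro L _ _ κ₀ h1 h2 τ d β i T hG hT hth
  obtain ⟨hne, hz⟩ := hG i
  have ha : ∃ a ∈ T, τ a = true := by
    by_contra hcon
    push Not at hcon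
    have h0 : nx τ T = 0 := by
      unfold nx
      rw [Finset.card_eq_zero, Finset.filter_eq_empty_iff]
      intro a ha h
      exact hcon a ha h
    unfold th at hth
    rw [h0] at hth
    have h3 : 0 ≤ (κ₀.1 : ℤ) * ny τ T := by positivity
    simp only [Nat.cast_zero, mul_zero, zero_sub] at hth
    linarith
  have hb : ∃ b ∈ blk β i, b ∉ T ∧ τ b = false := by
    by_contra hcon
    push Not at hcon
    have hny : ny τ (blk β i) ≤ ny τ T := by
      apply card_le_card
      intro l hl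
      rw [mem_filter] at hl ⊢
      refine ⟨?_, hl.2⟩
      by_contra hlT
      exact hcon l hl.1 hlT hl.2
    have hnx : nx τ T ≤ nx τ (blk β i) := card_le_card (filter_subset_filter _ hT)
    have hz' : th κ₀ τ (blk β i) = 0 := hz
    unfold th at hth hz'
    have e1 : (κ₀.2 : ℤ) * nx τ T ≤ (κ₀.2 : ℤ) * nx τ (blk β i) :=
      mul_le_mul_of_nonneg_left (by exact_mod_cast hnx) (by positivity)
    have e2 : (κ₀.1 : ℤ) * ny τ (blk β i) ≤ (κ₀.1 : ℤ) * ny τ T :=
      mul_le_mul_of_nonneg_left (by exact_mod_cast hny) (by positivity)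
    linarith
  obtain ⟨a, haT, hax⟩ := ha
  obtain ⟨b, hbi, hbT, hby⟩ := hb
  refine ⟨(a, b), ?_⟩
  have h4 : β a = i := by
    have := hT haT
    simpa [blk] using this
  have h5 : β b = i := by simpa [blk] using hbi
  simp only [cut, mem_filter, mem_univ, true_and]
  exact ⟨haT, hbT, hax, hby, by rw [h4, h5]⟩

end Pool.Agent.Work.MP_c41774_al.Full

end
end

section

/-!
# Item R OFF
-/

noncomputable section

namespace Pool.Agent.Work.MP_c41774_al.Full

open Finset MvPolynomial
open Pool.Agent.Work.MP_c41774_al.Wall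

theorem pr_R_OFF : Q_SYM1 → R_OFF := by
  intro h κ₀ hp hq L _ _ τ n d d' γ β hγ hβ hd hno f hf α hα
  refine h L κ₀ hp hq τ d γ hγ n f hf d' β hβ ?_ α hα.symm
  rintro ⟨φ, hφ⟩
  have hs : Function.Surjective φ := by
    intro i
    obtain ⟨l, hl⟩ := (hγ i).1
    exact ⟨β l, by rw [← hφ]; exact (Finset.mem_filter.mp hl).2⟩
  have h1 := Fintype.card_le_of_surjective φ hs
  rw [Fintype.card_fin, Fintype.card_fin] at h1
  have h2 : Function.Bijective φ := by
    rw [Fintype.bijective_iff_surjective_and_card]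
    refine ⟨hs, ?_⟩
    rw [Fintype.card_fin, Fintype.card_fin]
    omega
  refine hno ⟨(Equiv.ofBijective φ h2).symm, ?_⟩
  funext l
  rw [Function.comp_apply, hφ l]
  exact ((Equiv.ofBijective φ h2).symm_apply_apply (β l)).symm

end Pool.Agent.Work.MP_c41774_al.Full

end
end

section

/-!
# Block R: R_ON
-/

noncomputable section

namespace Pool.Agent.Work.MP_c41774_al.Full

open Finset MvPolynomial
open Pool.Agent.Work.MP_c41774_al.Wall

theorem R_ON_blk {L : Type} [Fintype L] [DecidableEq L] {d : ℕ} (γ : L → Fin d)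
    (σ : Equiv.Perm (Fin d)) (i : Fin d) : blk (σ ∘ γ) (σ i) = blk γ i := by
  unfold blk
  ext l
  simp

theorem R_ON_vdm {L : Type} [Fintype L] [DecidableEq L] {d : ℕ} (A : Type) [CommRing A]
    (τ : L → Bool) (γ : L → Fin d) (σ : Equiv.Perm (Fin d)) :
    vdm A τ (σ ∘ γ) σ.symm =
      ∏ i, ∏ j ∈ Ioi i, (X (σ j) - X (σ i)) ^ (nx τ (blk γ i) * ny τ (blk γ j)) := by
  unfold vdm
  rw [← Equiv.prod_comp σ]
  refine Finset.prod_congr rfl fun i _ => ?_
  symm
  refine Finset.prod_bij (fun j _ => σ j) ?_ ?_ ?_ ?_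
  · intro j hj
    rw [Finset.mem_filter]
    refine ⟨Finset.mem_univ _, ?_⟩
    rw [Equiv.symm_apply_apply, Equiv.symm_apply_apply]
    exact Finset.mem_Ioi.mp hj
  · intro j _ j' _ h
    exact σ.injective h
  · intro j hj
    rw [Finset.mem_filter, Equiv.symm_apply_apply] at hj
    exact ⟨σ.symm j, Finset.mem_Ioi.mpr hj.2, σ.apply_symm_apply j⟩
  · intro j _
    unfold nk
    rw [R_ON_blk, R_ON_blk]

theorem pr_R_ON (h1 : Q_DEGE) (h2 : Q_SYM2) : R_ON := by
  intro κ₀ hκ1 hκ2 L _ _ τ n d γ σ hγ f hf α hα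
  obtain ⟨hg, hd⟩ := (h1 L κ₀ hκ1 hκ2 τ d γ hγ).2 σ
  have h3 := h2 L κ₀ hκ1 hκ2 τ d γ hγ n f hf d (σ ∘ γ) hg σ.symm
    (fun l => (σ.symm_apply_apply (γ l)).symm) α (by rw [hd, ← hα])
  rw [R_ON_vdm] at h3
  exact h3

end Pool.Agent.Work.MP_c41774_al.Full

end
end

section

noncomputable section

namespace Pool.Agent.Work.MP_c41774_al.Full

open Finset MvPolynomial
open Pool.Agent.Work.MP_c41774_al.Wall

theorem pr_R_OUT : Q_SPAN → Q_TRJ → R_SPAN := by
  intro hS hT κ₀ h1 h2 L _ _ τ n hth _ f hf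
  have h := hS L κ₀ h1 h2 τ hth n f hf
  have key : ∀ (A B : Set (MvPolynomial L ℚ)) (W : Submodule ℚ (MvPolynomial L ℚ)), A ⊆ B →
      ∀ x ∈ Submodule.span ℚ A ⊔ W, x ∈ Submodule.span ℚ B ⊔ W := fun A B W hAB x hx =>
    (sup_le_sup_right (Submodule.span_mono hAB) W) hx
  refine key _ _ _ ?_ f h
  rintro g ⟨n', hn', d, β, m, b, hG, hb, hd, rfl⟩
  have hex : ∀ i : Fin d, ∃ u : MvPolynomial {l // β l = i} ℚ,
      u ∈ Pf κ₀ 1 (τ ∘ Subtype.val) ∧ b i = rename Subtype.val u := by
    intro i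
    exact hT L {l // β l = i} κ₀ h1 h2 τ d β hG i Subtype.val Subtype.val_injective
      (fun l => ⟨fun hl => ⟨⟨l, hl⟩, rfl⟩, fun ⟨l', hl'⟩ => hl' ▸ l'.2⟩) (b i) (hb i)
  choose u hu hbu using hex
  refine ⟨d, β, m, u, hG, hd.trans_le hn', hu, ?_⟩
  simp only [hbu]

end Pool.Agent.Work.MP_c41774_al.Full

end
end

section

/-!
# Item R PF
-/

noncomputable section

namespace Pool.Agent.Work.MP_c41774_al.Full

open Finset MvPolynomial
open Pool.Agent.Work.MP_c41774_al.Wall

lemma R_PF_totalDegree {L D : Type} [Fintype L] [DecidableEq L] [DecidableEq D] (β : L → D)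
    (f : MvPolynomial L ℚ) : (Sh β f).totalDegree ≤ f.totalDegree := by
  unfold Sh
  rw [aeval_def, eval₂_eq]
  refine totalDegree_finsetSum_le fun m hm => ?_
  refine (totalDegree_mul _ _).trans ?_
  have h1 : ((algebraMap ℚ (MvPolynomial D (MvPolynomial L ℚ))) (coeff m f)).totalDegree = 0 := by
    rw [IsScalarTower.algebraMap_apply ℚ (MvPolynomial L ℚ) (MvPolynomial D (MvPolynomial L ℚ))]
    exact totalDegree_C _
  rw [h1, zero_add]
  refine (totalDegree_finsetProd _ _).trans ?_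
  refine le_trans ?_ (le_totalDegree hm)
  rw [Finsupp.sum]
  refine Finset.sum_le_sum fun l _ => ?_
  refine (totalDegree_pow _ _).trans ?_
  have h2 : (C (X l) + X (β l) : MvPolynomial D (MvPolynomial L ℚ)).totalDegree ≤ 1 := by
    refine (totalDegree_add _ _).trans ?_
    rw [totalDegree_C]
    refine max_le (Nat.zero_le _) ?_
    exact (totalDegree_X _).le
  calc m l * _ ≤ m l * 1 := Nat.mul_le_mul_left _ h2
    _ = m l := mul_one _

lemma R_PF_coeff_zero {L D : Type} [Fintype L] [DecidableEq L] [DecidableEq D] (β : L → D)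
    (f : MvPolynomial L ℚ) {N : ℕ} (hf : f.totalDegree ≤ N) {α : D →₀ ℕ} (hα : N < α.degree) :
    (Sh β f).coeff α = 0 := by
  by_contra hne
  have h1 := le_totalDegree (mem_support_iff.mpr hne)
  have h2 : (α.sum fun _ e => e) = α.degree := rfl
  have h3 := R_PF_totalDegree β f
  omega

lemma R_PF_card {L : Type} [Fintype L] [DecidableEq L] {κ₀ : ℕ × ℕ} {τ : L → Bool} {d : ℕ}
    {β : L → Fin d} (h : Good κ₀ τ β) : d ≤ Fintype.card L := by
  have hs : Function.Surjective β := by
    intro i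
    obtain ⟨l, hl⟩ := (h i).1
    exact ⟨l, (Finset.mem_filter.mp hl).2⟩
  have := Fintype.card_le_of_surjective β hs
  rwa [Fintype.card_fin] at this

lemma R_PF_coeff0 {L D : Type} [Fintype L] [DecidableEq L] (β : L → D)
    (f : MvPolynomial L ℚ) : (Sh β f).coeff 0 = f := by
  have h : ((constantCoeff : MvPolynomial D (MvPolynomial L ℚ) →+* MvPolynomial L ℚ).comp
      (Sh β).toRingHom) f = f := by
    induction f using MvPolynomial.induction_on with
    | C a =>
      simp only [RingHom.comp_apply]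
      have : (Sh β).toRingHom (C a) = C (C a) := by
        show Sh β (C a) = C (C a)
        unfold Sh
        rw [aeval_C, IsScalarTower.algebraMap_apply ℚ (MvPolynomial L ℚ)
          (MvPolynomial D (MvPolynomial L ℚ))]
        rfl
      rw [this, constantCoeff_C]
    | add p q hp hq => rw [map_add, hp, hq]
    | mul_X p l hp =>
      rw [map_mul, hp]
      congr 1
      show constantCoeff (Sh β (X l)) = X l
      unfold Sh
      rw [aeval_X, map_add, constantCoeff_C, constantCoeff_X, add_zero]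
  exact h

lemma R_PF_th {L : Type} [Fintype L] [DecidableEq L] {κ₀ : ℕ × ℕ} {τ : L → Bool}
    (hth : th κ₀ τ univ = 0) [Nonempty L] : Good κ₀ τ (fun _ : L => (0 : Fin 1)) := by
  intro i
  have : (univ.filter fun l : L => (0 : Fin 1) = i) = univ := by
    ext l
    simp [Subsingleton.elim (0 : Fin 1) i]
  rw [this]
  exact ⟨univ_nonempty, hth⟩

theorem pr_R_PF : Q_PF := by
  intro L _ _ κ₀ τ
  have key6 : th κ₀ τ univ = 0 → Nonempty L → ∀ n : ℤ, n ≤ 0 → Pf κ₀ n τ ≤ IpS L κ₀ τ := by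
    intro hth hL n hn f hf
    have h1 := hf 1 (fun _ => (0 : Fin 1)) (R_PF_th hth) 0 (by
      have h2 : dege τ (fun _ : L => (0 : Fin 1)) = 0 := by
        unfold dege crs
        rw [Finset.card_eq_zero, Finset.filter_eq_empty_iff]
        intro e _ h
        exact absurd h.2.2 (lt_irrefl _)
      rw [h2]
      simp only [map_zero]
      push_cast
      omega)
    rw [R_PF_coeff0] at h1
    exact pr_REF L (Fin 1) Unit κ₀ τ (fun _ => (0 : Fin 1)) tv (fun _ => 0) (fun _ => rfl) h1
  refine ⟨?_, ?_, ?_, ?_, ?_, ?_⟩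
  · intro n f hf d β hβ α _
    have h1 : f ∈ Ip κ₀ τ β := pr_REF L Unit (Fin d) κ₀ τ tv β (fun _ => ()) (fun _ => rfl) hf
    exact pr_SHI L (Fin d) (Fin d) κ₀ τ β β id (fun _ => rfl) f h1 α
  · intro n n' hnn f hf d β hβ α hα
    exact hf d β hβ α (by omega)
  · intro n f hf h d β hβ α hα
    by_cases h1 : 2 * (α.degree : ℤ) = 2 * (dege τ β : ℤ) + n - d
    · exact h d β hβ α h1
    · exact hf d β hβ α (by omega)
  · intro f
    refine ⟨2 * f.totalDegree + Fintype.card L, ?_⟩
    intro d β hβ α hα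
    rw [R_PF_coeff_zero β f (le_refl _)]
    · exact Ideal.zero_mem _
    · have := R_PF_card hβ
      omega
  · intro hth n hn
    rcases isEmpty_or_nonempty L with hL | hL
    · intro f hf
      have h1 := hf 0 (fun l => (hL.false l).elim) (fun i => i.elim0) 0 (by
        have h2 : dege τ (fun l : L => ((hL.false l).elim : Fin 0)) = 0 := by
          unfold dege crs
          rw [Finset.card_eq_zero]
          exact Finset.eq_empty_of_isEmpty _
        rw [h2]
        simp only [map_zero]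
        push_cast
        omega)
      rw [R_PF_coeff0] at h1
      have h3 : Ip κ₀ τ (fun l : L => ((hL.false l).elim : Fin 0)) = Ip κ₀ τ tv := by
        unfold Ip
        congr 1
        ext g
        constructor
        · rintro ⟨T, hT, rfl⟩
          exact ⟨T, hT, by rw [Finset.eq_empty_of_isEmpty (cut τ _ T),
            Finset.eq_empty_of_isEmpty (cut τ tv T)]⟩
        · rintro ⟨T, hT, rfl⟩
          exact ⟨T, hT, by rw [Finset.eq_empty_of_isEmpty (cut τ (fun l : L =>
            ((hL.false l).elim : Fin 0)) T), Finset.eq_empty_of_isEmpty (cut τ tv T)]⟩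
      rw [h3] at h1
      exact h1
    · exact key6 hth hL n hn.le
  · intro hth hL
    exact key6 hth hL 0 (le_refl _)

end Pool.Agent.Work.MP_c41774_al.Full

end
end

section

/-!
# Item R PRO
-/

noncomputable section

namespace Pool.Agent.Work.MP_c41774_al.Full

open Finset MvPolynomial
open Pool.Agent.Work.MP_c41774_al.Wall

theorem pr_R_PRO : Q_JOIN → Q_MUL0 → Q_MUL1 → R_PRO := by
  intro hJ h0 h1 κ₀ hp hq L _ _ τ n d₀ γ hγ f hf d β hβ α hα
  by_cases h : ∀ k l, th κ₀ τ (blk γ k ∩ blk β l) = 0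
  · obtain ⟨r, δ, φ, ψ, hδ, hφ, hψ, hc, hdr, hd0r, _, hcard⟩ := hJ L κ₀ hp hq τ d₀ γ d β hγ hβ h
    exact h1 L κ₀ hp hq τ d₀ γ d β r δ φ ψ hγ hβ h hδ hφ hψ hc hcard n f hf α (by omega)
  · push Not at h
    exact h0 L κ₀ τ d₀ γ d β hγ hβ h f α

end Pool.Agent.Work.MP_c41774_al.Full

end
end

section

/-!
# R18: divisibility by the product
-/

noncomputable section

namespace Pool.Agent.Work.MP_c41774_al.Full

open Finset MvPolynomial
open Pool.Agent.Work.MP_c41774_al.Wall

section PROD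

/-- divisibility by a product of powers of pairwise independent elements -/
lemma PROD_gen {R ι : Type*} [CommRing R] [DecidableEq ι] (P : ι → R) (N : ι → ℕ) (G : R)
    (S : Finset ι) :
    (∀ s ∈ S, ∀ t ∈ S, s ≠ t → ∀ (n m : ℕ) (H : R), P s ^ n ∣ P t ^ m * H → P s ^ n ∣ H) →
    (∀ s ∈ S, P s ^ N s ∣ G) → ∏ s ∈ S, P s ^ N s ∣ G := by
  have key : ∀ (T : Finset ι) (s : ι), (∀ t ∈ T, ∀ (n m : ℕ) (H : R),
      P s ^ n ∣ P t ^ m * H → P s ^ n ∣ H) → ∀ (n : ℕ) (H : R),
      P s ^ n ∣ (∏ t ∈ T, P t ^ N t) * H → P s ^ n ∣ H := by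
    intro T
    induction T using Finset.induction_on with
    | empty => intro s _ n H h; simpa using h
    | insert t T ht ih =>
      intro s hs n H h
      rw [Finset.prod_insert ht, mul_assoc] at h
      exact ih s (fun t' ht' => hs t' (Finset.mem_insert_of_mem ht')) n H
        (hs t (Finset.mem_insert_self _ _) n _ _ h)
  induction S using Finset.induction_on with
  | empty => intro _ _; simp
  | insert t S ht ih =>
    intro hc hG
    obtain ⟨H, hH⟩ := ih (fun s hs t' ht' => hc s (Finset.mem_insert_of_mem hs) t'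
      (Finset.mem_insert_of_mem ht')) (fun s hs => hG s (Finset.mem_insert_of_mem hs))
    have h1 := hG t (Finset.mem_insert_self _ _)
    rw [hH] at h1
    have h2 := key S t (fun t' ht' => hc t (Finset.mem_insert_self _ _) t'
      (Finset.mem_insert_of_mem ht') (fun e => ht (e ▸ ht'))) _ H h1
    obtain ⟨H', hH'⟩ := h2
    rw [Finset.prod_insert ht, hH, hH']
    exact ⟨H', by ring⟩

variable {A : Type} [CommRing A] {d : ℕ}

/-- the difference of two variables is not a zero divisor -/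
lemma PROD_nzd {a b : Fin d} (hab : a ≠ b) (H : MvPolynomial (Fin d) A)
    (h : (X a - X b) * H = 0) : H = 0 := by
  let s : MvPolynomial (Fin d) A →ₐ[A] MvPolynomial (Fin d) A :=
    aeval fun c => if c = a then X a + X b else X c
  let s' : MvPolynomial (Fin d) A →ₐ[A] MvPolynomial (Fin d) A :=
    aeval fun c => if c = a then X a - X b else X c
  have hs : ∀ f, s' (s f) = f := by
    intro f
    have : s'.comp s = AlgHom.id A _ := by
      apply MvPolynomial.algHom_ext
      intro c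
      by_cases hc : c = a
      · subst hc
        simp [s, s', Ne.symm hab]
      · simp [s, s', hc]
    have h2 := congrArg (fun g : MvPolynomial (Fin d) A →ₐ[A] MvPolynomial (Fin d) A => g f) this
    simpa using h2
  have h1 : X a * s H = 0 := by
    have h2 := congrArg s h
    rw [map_mul, map_sub, map_zero] at h2
    have ha : s (X a) = X a + X b := by simp [s]
    have hb : s (X b) = X b := by simp [s, Ne.symm hab]
    rw [ha, hb, add_sub_cancel_right] at h2
    exact h2
  have h2 : s H = 0 := by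
    have := (isRegular_X (R := A) (n := a)).left
    exact this (by simpa using h1)
  rw [← hs H, h2, map_zero]

/-- one step -/
lemma PROD_one {i j k l : Fin d} (hij : i < j) (hkl : k < l) (hne : ¬ (i = k ∧ j = l))
    (H : MvPolynomial (Fin d) A) (h : (X j - X i) ∣ (X l - X k) * H) : (X j - X i) ∣ H := by
  let s : MvPolynomial (Fin d) A →ₐ[A] MvPolynomial (Fin d) A :=
    aeval fun c => if c = j then X i else X c
  have hs : ∀ f, (X j - X i) ∣ f - s f := by
    intro f
    rw [← Ideal.mem_span_singleton, ← Ideal.Quotient.eq]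
    set I : Ideal (MvPolynomial (Fin d) A) := Ideal.span {X j - X i} with hI
    have : (Ideal.Quotient.mkₐ A I) = (Ideal.Quotient.mkₐ A I).comp s := by
      apply MvPolynomial.algHom_ext
      intro c
      by_cases hc : c = j
      · subst hc
        simp only [AlgHom.comp_apply, s, aeval_X, if_true]
        rw [Ideal.Quotient.mkₐ_eq_mk, Ideal.Quotient.eq, hI, Ideal.mem_span_singleton]
      · simp [s, hc]
    have h2 := congrArg (fun g : MvPolynomial (Fin d) A →ₐ[A] (MvPolynomial (Fin d) A ⧸ I) =>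
      g f) this
    simpa using h2
  obtain ⟨Q, hQ⟩ := h
  have h1 : s (X l - X k) * s H = 0 := by
    rw [← map_mul, hQ, map_mul, map_sub]
    have hj : s (X j) = X i := by simp [s]
    have hi : s (X i) = X i := by simp [s, hij.ne]
    rw [hj, hi, sub_self, zero_mul]
  have h2 : s H = 0 := by
    rw [map_sub] at h1
    have hX : ∀ c, s (X c) = X (if c = j then i else c) := by
      intro c
      by_cases hc : c = j <;> simp [s, hc]
    rw [hX, hX] at h1
    refine PROD_nzd ?_ _ h1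
    by_cases hl : l = j
    · have hk : k ≠ j := by
        intro e
        rw [hl, e] at hkl
        exact lt_irrefl _ hkl
      rw [if_pos hl, if_neg hk]
      intro e
      exact hne ⟨e, hl.symm⟩
    · rw [if_neg hl]
      by_cases hk : k = j
      · rw [if_pos hk]
        rw [hk] at hkl
        exact (hij.trans hkl).ne'
      · rw [if_neg hk]
        exact hkl.ne'
  have h3 := hs H
  rwa [h2, sub_zero] at h3

lemma PROD_pow1 {i j k l : Fin d} (hij : i < j) (hkl : k < l) (hne : ¬ (i = k ∧ j = l)) :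
    ∀ (n : ℕ) (H : MvPolynomial (Fin d) A), (X j - X i) ^ n ∣ (X l - X k) * H →
      (X j - X i) ^ n ∣ H := by
  intro n
  induction n with
  | zero => intro H _; simp
  | succ n ih =>
    intro H h
    obtain ⟨H1, hH1⟩ := PROD_one hij hkl hne H ((dvd_pow_self _ (Nat.succ_ne_zero n)).trans h)
    obtain ⟨Q, hQ⟩ := h
    have h2 : (X j - X i) ^ n ∣ (X l - X k) * H1 := by
      refine ⟨Q, ?_⟩
      have h3 : (X j - X i) * ((X l - X k) * H1 - (X j - X i) ^ n * Q) = 0 := by
        rw [hH1] at hQ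
        rw [mul_sub, ← mul_assoc, ← mul_assoc, ← pow_succ', ← hQ]
        ring
      exact sub_eq_zero.mp (PROD_nzd hij.ne' _ h3)
    obtain ⟨H2, hH2⟩ := ih H1 h2
    exact ⟨H2, by rw [hH1, hH2, pow_succ']; ring⟩

lemma PROD_pow {i j k l : Fin d} (hij : i < j) (hkl : k < l) (hne : ¬ (i = k ∧ j = l)) (n : ℕ) :
    ∀ (m : ℕ) (H : MvPolynomial (Fin d) A), (X j - X i) ^ n ∣ (X l - X k) ^ m * H →
      (X j - X i) ^ n ∣ H := by
  intro m
  induction m with
  | zero => intro H h; simpa using h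
  | succ m ih =>
    intro H h
    rw [pow_succ', mul_assoc] at h
    exact ih H (PROD_pow1 hij hkl hne n _ h)

end PROD

theorem pr_R_PROD : Q_PROD := by
  intro A _ _ d N G h
  classical
  rw [Finset.prod_sigma']
  refine PROD_gen (fun x : (Σ _ : Fin d, Fin d) => (X x.2 - X x.1 : MvPolynomial (Fin d) A))
    (fun x => N x.1 x.2) G _ ?_ ?_
  · rintro ⟨i, j⟩ hs ⟨k, l⟩ ht hne n m H hd
    simp only [Finset.mem_sigma, Finset.mem_univ, Finset.mem_filter, true_and] at hs ht
    refine PROD_pow hs ht ?_ n m H hd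
    rintro ⟨rfl, rfl⟩
    exact hne rfl
  · rintro ⟨i, j⟩ hs
    simp only [Finset.mem_sigma, Finset.mem_univ, Finset.mem_filter, true_and] at hs
    exact h i j hs

end Pool.Agent.Work.MP_c41774_al.Full

end
end
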