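import Pool.Agent.Work.MP_c41774_al.Full.RStmts
import Pool.Agent.Work.MP_c41774_al.Bd.B02

/-! Bundle of small proof modules (one section per former module). -/

section

/-!
# R6: the product with the crossing polynomial maps the ideals of the blocks into `I⁺`
-/

noncomputable section

namespace Pool.Agent.Work.MP_c41774_al.Full

open Finset MvPolynomial
open Pool.Agent.Work.MP_c41774_al.Wall

theorem pr_R_PUSH : Q_INN → R_PUSH := by
  intro hI κ₀ _ _ L _ _ τ d γ hγ f hf
  have h := hI L κ₀ τ d γ 1 (fun _ => (0 : Fin 1)) d γ id (fun _ => 0) (fun k l => by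
    have e : blk (fun _ : L => (0 : Fin 1)) l = univ := by
      rw [blk, Finset.filter_true_of_mem]
      intro x _
      exact Subsingleton.elim _ _
    rw [e, Finset.inter_univ]
    exact (hγ k).2) (fun _ => rfl) (fun _ => rfl) (fun l l' h1 _ => h1) f hf
  have e2 : ((crs τ γ).filter fun e => (fun _ : L => (0 : Fin 1)) e.1 =
      (fun _ : L => (0 : Fin 1)) e.2) = crs τ γ := by
    rw [Finset.filter_true_of_mem]
    intro x _
    rfl
  rw [e2] at h
  exact pr_REF L (Fin 1) Unit κ₀ τ (fun _ => 0) tv (fun _ => 0) (fun _ => rfl) h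

end Pool.Agent.Work.MP_c41774_al.Full

end
end

section

/-!
# Block R, item RST: keep a refinement only inside a union of blocks
-/

noncomputable section

namespace Pool.Agent.Work.MP_c41774_al.Full

open Finset MvPolynomial
open Pool.Agent.Work.MP_c41774_al.Wall

theorem rst_setup {d d₀ : ℕ} (χ : Fin d → Fin d₀) (J : Set (Fin d₀)) :
    ∃ (d' : ℕ) (φ : Fin d → Fin d') (s : Fin d' → Fin d), (∀ k, φ (s k) = k) ∧
      (∀ i j, χ i ∈ J → φ i = φ j → i = j) ∧
      (∀ i j, χ i ∉ J → (φ i = φ j ↔ χ i = χ j)) := by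
  classical
  set g : Fin d → Fin d ⊕ Fin d₀ := fun i => if χ i ∈ J then Sum.inl i else Sum.inr (χ i)
    with hg
  let e := Fintype.equivFin (Set.range g)
  have hs : ∀ k, ∃ i, g i = (e.symm k).1 := fun k => (e.symm k).2
  choose s hs using hs
  have hφ : ∀ i j, e ⟨g i, Set.mem_range_self i⟩ = e ⟨g j, Set.mem_range_self j⟩ ↔
      g i = g j := by
    intro i j
    exact (e.apply_eq_iff_eq).trans Subtype.ext_iff
  refine ⟨Fintype.card (Set.range g), fun i => e ⟨g i, Set.mem_range_self i⟩, s, ?_, ?_, ?_⟩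
  · intro k
    have h1 : (⟨g (s k), Set.mem_range_self (s k)⟩ : Set.range g) = e.symm k := Subtype.ext (hs k)
    show e ⟨g (s k), Set.mem_range_self (s k)⟩ = k
    rw [h1, Equiv.apply_symm_apply]
  · intro i j hi h
    have h1 := (hφ i j).mp h
    by_cases hj : χ j ∈ J
    · simpa [hg, hi, hj] using h1
    · simp [hg, hi, hj] at h1
  · intro i j hi
    refine (hφ i j).trans ?_
    by_cases hj : χ j ∈ J
    · simp only [hg, hi, hj, if_true, if_false]
      constructor
      · intro h; simp at h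
      · intro h; exact absurd (h ▸ hj) hi
    · simp [hg, hi, hj]

theorem rst_two {L : Type} [Fintype L] [DecidableEq L] {κ₀ : ℕ × ℕ} (hD : Q_DEGE)
    (hp : 0 < κ₀.1) (hq : 0 < κ₀.2) {τ : L → Bool} {d : ℕ} {β : L → Fin d}
    (hβ : Good κ₀ τ β) : 2 * dege τ β = dd τ β := by
  classical
  have h1 := ((hD L κ₀ hp hq τ d β hβ).2 Fin.revPerm).2
  have h2 : dd τ β = #(crs τ β) + #(crs τ (Fin.revPerm ∘ β)) := by
    unfold dd
    rw [← Finset.card_union_of_disjoint]
    · congr 1
      ext e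
      simp only [crs, mem_filter, mem_univ, true_and, mem_union, Function.comp_apply,
        Fin.revPerm_apply, Fin.rev_lt_rev, ne_eq]
      constructor
      · rintro ⟨a, b, c⟩
        rcases lt_or_gt_of_ne c with h | h
        · exact Or.inl ⟨a, b, h⟩
        · exact Or.inr ⟨a, b, h⟩
      · rintro (⟨a, b, c⟩ | ⟨a, b, c⟩)
        · exact ⟨a, b, c.ne⟩
        · exact ⟨a, b, c.ne'⟩
    · rw [Finset.disjoint_left]
      intro e
      simp only [crs, mem_filter, mem_univ, true_and, Function.comp_apply,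
        Fin.revPerm_apply, Fin.rev_lt_rev]
      rintro ⟨_, _, h⟩ ⟨_, _, h'⟩
      exact lt_asymm h h'
  unfold dege at h1 ⊢
  omega

theorem pr_R_RST : Q_SYMN → Q_DEGE → Q_RST := by
  intro hS hD L _ _ κ₀ hp hq τ d₀ γ d β χ J hγ hβ hχ
  classical
  obtain ⟨d', φ, s, hs, hJ, hJ'⟩ := rst_setup χ J
  have hgood : Good κ₀ τ (φ ∘ β) := by
    intro k
    by_cases hk : χ (s k) ∈ J
    · have : (univ.filter fun l => (φ ∘ β) l = k) = univ.filter fun l => β l = s k := by
        ext l
        simp only [mem_filter, mem_univ, true_and, Function.comp_apply]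
        constructor
        · intro h
          exact (hJ (s k) (β l) hk (by rw [hs, h])).symm
        · intro h
          rw [h, hs]
      rw [this]
      exact hβ (s k)
    · have : (univ.filter fun l => (φ ∘ β) l = k) = univ.filter fun l => γ l = χ (s k) := by
        ext l
        simp only [mem_filter, mem_univ, true_and, Function.comp_apply]
        have h1 := hJ' (s k) (β l) hk
        rw [hs] at h1
        rw [hχ l]
        constructor
        · intro h
          exact (h1.mp h.symm).symm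
        · intro h
          exact (h1.mpr h.symm).symm
      rw [this]
      exact hγ (χ (s k))
  refine ⟨d', φ ∘ β, φ, fun k => χ (s k), hgood, fun _ => rfl, ?_, ?_, ?_, ?_⟩
  · intro l
    rw [hχ l]
    show χ (β l) = χ (s (φ (β l)))
    by_cases hk : χ (s (φ (β l))) ∈ J
    · rw [hJ _ (β l) hk (hs _)]
    · exact ((hJ' _ (β l) hk).mp (hs _)).symm
  · intro l l' hl h
    exact hJ _ _ (by rw [← hχ]; exact hl) h
  · intro l l' hl h
    refine (hJ' (β l) (β l') (by rw [← hχ]; exact hl)).mpr ?_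
    rw [← hχ, ← hχ, h]
  · rw [rst_two hD hp hq hβ, rst_two hD hp hq hgood]
    set M : Finset (L × L) := univ.filter fun e => (τ e.1 = true ∧ τ e.2 = false ∧
      β e.1 ≠ β e.2) ∧ φ (β e.1) = φ (β e.2) with hM
    have h1 : dd τ β = dd τ (φ ∘ β) + #M := by
      unfold dd
      rw [← Finset.card_union_of_disjoint]
      · congr 1
        ext e
        simp only [hM, mem_filter, mem_univ, true_and, mem_union, Function.comp_apply, ne_eq]
        constructor
        · rintro ⟨a, b, c⟩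
          by_cases h : φ (β e.1) = φ (β e.2)
          · exact Or.inr ⟨⟨a, b, c⟩, h⟩
          · exact Or.inl ⟨a, b, h⟩
        · rintro (⟨a, b, c⟩ | ⟨h, _⟩)
          · exact ⟨a, b, fun h => c (by rw [h])⟩
          · exact h
      · rw [Finset.disjoint_left]
        intro e
        simp only [hM, mem_filter, mem_univ, true_and, Function.comp_apply, ne_eq]
        rintro ⟨_, _, h⟩ ⟨_, h'⟩
        exact h h'
    have h2 : d ≤ d' + #M := by
      have hsinj : Function.Injective s := fun a b h => by rw [← hs a, ← hs b, h]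
      have h3 : #(univ.image s) = d' := by
        rw [Finset.card_image_of_injective _ hsinj, Finset.card_univ, Fintype.card_fin]
      have h4 : #((univ.image s)ᶜ) = d - d' := by
        rw [Finset.card_compl, h3, Fintype.card_fin]
      have hpick : ∀ i j : Fin d, ∃ e : L × L, τ e.1 = true ∧ τ e.2 = false ∧ β e.1 = i ∧
          β e.2 = j := by
        intro i j
        have h5 := (hS L κ₀ hp hq τ d β hβ i j).2
        unfold nk nx ny at h5
        obtain ⟨h6, h7⟩ := (show 0 < #((blk β i).filter fun l => τ l = true) ∧ 0 < #((blk β j).filter fun l => τ l = false) from ⟨Nat.pos_of_ne_zero fun h => by rw [h, zero_mul] at h5; exact lt_irrefl _ h5, Nat.pos_of_ne_zero fun h => by rw [h, mul_zero] at h5; exact lt_irrefl _ h5⟩)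
        obtain ⟨a, ha⟩ := Finset.card_pos.mp h6
        obtain ⟨b, hb⟩ := Finset.card_pos.mp h7
        simp only [blk, mem_filter, mem_univ, true_and] at ha hb
        exact ⟨(a, b), ha.2, hb.2, ha.1, hb.1⟩
      choose p hp1 hp2 hp3 hp4 using hpick
      have h8 : #((univ.image s)ᶜ) ≤ #M := by
        refine Finset.card_le_card_of_injOn (fun i => p i (s (φ i))) ?_ ?_
        · intro i hi
          have hi' : i ∉ univ.image s := by simpa using hi
          simp only [hM, coe_filter, mem_univ, true_and, Set.mem_ofPred_eq]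
          refine ⟨⟨hp1 _ _, hp2 _ _, ?_⟩, ?_⟩
          · rw [hp3, hp4]
            intro h
            exact hi' (Finset.mem_image.mpr ⟨φ i, mem_univ _, h.symm⟩)
          · rw [hp3, hp4, hs]
        · intro i _ j _ h
          have := congrArg (fun e : L × L => β e.1) h
          simpa [hp3] using this
      omega
    omega

end Pool.Agent.Work.MP_c41774_al.Full

end
end

section

/-!
# Item R SPAN
-/

noncomputable section

namespace Pool.Agent.Work.MP_c41774_al.Full

open Finset MvPolynomial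
open Pool.Agent.Work.MP_c41774_al.Wall

lemma R_SPAN_card {L : Type} [Fintype L] [DecidableEq L] {κ₀ : ℕ × ℕ} {τ : L → Bool} {d : ℕ}
    {β : L → Fin d} (h : Good κ₀ τ β) : d ≤ Fintype.card L := by
  have hs : Function.Surjective β := by
    intro i
    obtain ⟨l, hl⟩ := (h i).1
    exact ⟨l, (Finset.mem_filter.mp hl).2⟩
  have := Fintype.card_le_of_surjective β hs
  rwa [Fintype.card_fin] at this

theorem pr_R_SPAN : Q_PF → Q_STEP → Q_SPAN := by
  intro hPF hST L _ _ κ₀ h1 h2 τ hth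
  obtain ⟨p1, p2, p3, p4, p5, p6⟩ := hPF L κ₀ τ
  have key : ∀ N : ℕ, ∀ n : ℤ, n < N → ∀ f ∈ Pf κ₀ n τ,
      f ∈ Submodule.span ℚ {g | ∃ n' ≤ n, g ∈ PG κ₀ n' τ} ⊔ IpS L κ₀ τ := by
    intro N
    induction N with
    | zero =>
      intro n hn f hf
      exact Submodule.mem_sup_right (p5 hth n (by exact_mod_cast hn) hf)
    | succ N ih =>
      intro n hn f hf
      have hstep : ∀ e : ℕ, ∃ g ∈ Submodule.span ℚ (PG κ₀ n τ) ⊔ IpS L κ₀ τ, f - g ∈ Pf κ₀ n τ ∧
          ∀ (d : ℕ) (β : L → Fin d), d < e → Good κ₀ τ β → ∀ α : Fin d →₀ ℕ,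
            2 * (α.degree : ℤ) = 2 * (dege τ β : ℤ) + n - d →
              (Sh β (f - g)).coeff α ∈ Ip κ₀ τ β := by
        intro e
        induction e with
        | zero =>
          refine ⟨0, Submodule.zero_mem _, by simpa using hf, ?_⟩
          intro d β hd
          omega
        | succ e ihe =>
          obtain ⟨g, hg, hfg, hd⟩ := ihe
          obtain ⟨g', hg', hfg', hd'⟩ := hST L κ₀ h1 h2 τ n e (f - g) hfg hd
          refine ⟨g + g', Submodule.add_mem _ hg hg', ?_, ?_⟩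
          · have : f - (g + g') = f - g - g' := by ring
            rw [this]
            exact hfg'
          · have : f - (g + g') = f - g - g' := by ring
            rw [this]
            exact hd'
      obtain ⟨g, hg, hfg, hd⟩ := hstep (Fintype.card L + 1)
      have h3 : f - g ∈ Pf κ₀ (n - 1) τ := by
        refine p3 n (f - g) hfg ?_
        intro d β hβ α hα
        exact hd d β (Nat.lt_succ_of_le (R_SPAN_card hβ)) hβ α hα
      have h4 := ih (n - 1) (by push_cast at hn; omega) (f - g) h3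
      have h5 : Submodule.span ℚ {g | ∃ n' ≤ n - 1, g ∈ PG κ₀ n' τ} ⊔ IpS L κ₀ τ ≤
          Submodule.span ℚ {g | ∃ n' ≤ n, g ∈ PG κ₀ n' τ} ⊔ IpS L κ₀ τ := by
        refine sup_le_sup_right (Submodule.span_mono ?_) _
        rintro g ⟨n', hn', hg'⟩
        exact ⟨n', by omega, hg'⟩
      have h6 : Submodule.span ℚ (PG κ₀ n τ) ⊔ IpS L κ₀ τ ≤
          Submodule.span ℚ {g | ∃ n' ≤ n, g ∈ PG κ₀ n' τ} ⊔ IpS L κ₀ τ := by
        refine sup_le_sup_right (Submodule.span_mono ?_) _
        intro g hg'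
        exact ⟨n, le_refl _, hg'⟩
      have h7 : f = (f - g) + g := by ring
      rw [h7]
      exact Submodule.add_mem _ (h5 h4) (h6 hg)
  intro n f hf
  refine key (n.toNat + 1) n ?_ f hf
  push_cast
  omega

end Pool.Agent.Work.MP_c41774_al.Full

end
end

section

/-!
# Item R_SPL: elements of the ideal in the variables of a union of blocks
-/

noncomputable section

namespace Pool.Agent.Work.MP_c41774_al.Full

open Finset MvPolynomial
open Pool.Agent.Work.MP_c41774_al.Wall

open Classical in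
/-- put the variables outside `S` equal to `0` -/
def SPL_eps {L : Type} (S : Set L) : MvPolynomial L ℚ →ₐ[ℚ] MvPolynomial L ℚ :=
  aeval fun l => if l ∈ S then X l else 0

theorem SPL_eps_X {L : Type} {S : Set L} {l : L} (h : l ∈ S) :
    SPL_eps S (X l) = X l := by
  unfold SPL_eps
  rw [aeval_X, if_pos h]

theorem SPL_eps_X' {L : Type} {S : Set L} {l : L} (h : l ∉ S) :
    SPL_eps S (X l) = 0 := by
  unfold SPL_eps
  rw [aeval_X, if_neg h]

theorem SPL_eps_mem {L : Type} (S : Set L) (f : MvPolynomial L ℚ) :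
    SPL_eps S f ∈ supported ℚ S := by
  induction f using MvPolynomial.induction_on with
  | C a =>
    have : SPL_eps S (C a) = algebraMap ℚ (MvPolynomial L ℚ) a := AlgHom.commutes _ a
    rw [this]
    exact Subalgebra.algebraMap_mem _ a
  | add p q hp hq => rw [map_add]; exact Subalgebra.add_mem _ hp hq
  | mul_X p l hp =>
    rw [map_mul]
    refine Subalgebra.mul_mem _ hp ?_
    by_cases h : l ∈ S
    · rw [SPL_eps_X h]; exact X_mem_supported.mpr h
    · rw [SPL_eps_X' h]; exact Subalgebra.zero_mem _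

theorem SPL_eps_self {L : Type} {S : Set L} {f : MvPolynomial L ℚ} (hf : f ∈ supported ℚ S) :
    SPL_eps S f = f := by
  rw [supported_eq_adjoin_X] at hf
  induction hf using Algebra.adjoin_induction with
  | mem x hx =>
    obtain ⟨l, hl, rfl⟩ := hx
    exact SPL_eps_X hl
  | algebraMap r => exact AlgHom.commutes _ r
  | add x y _ _ hx hy => rw [map_add, hx, hy]
  | mul x y _ _ hx hy => rw [map_mul, hx, hy]

theorem pr_R_SPL : Q_GEN → Q_NE → Q_SPL := by
  intro hgen hne L _ _ κ₀ hp hq τ d β hβ J f hf hs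
  have hmul : ∀ s ∈ supported ℚ {l | β l ∈ J}, ∀ t ∈ Submodule.span ℚ
      {g | ∃ (i : Fin d) (T : Finset L) (h : MvPolynomial L ℚ), i ∈ J ∧
        T ⊆ blk β i ∧ 0 < th κ₀ τ T ∧ h ∈ supported ℚ {l | β l ∈ J} ∧ g = h * pr (cut τ β T)},
      s * t ∈ Submodule.span ℚ
      {g | ∃ (i : Fin d) (T : Finset L) (h : MvPolynomial L ℚ), i ∈ J ∧
        T ⊆ blk β i ∧ 0 < th κ₀ τ T ∧ h ∈ supported ℚ {l | β l ∈ J} ∧
          g = h * pr (cut τ β T)} := by
    intro s hs t ht
    induction ht using Submodule.span_induction with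
    | mem x hx =>
      obtain ⟨i, T, h, h1, h2, h3, h4, rfl⟩ := hx
      refine Submodule.subset_span ⟨i, T, s * h, h1, h2, h3, Subalgebra.mul_mem _ hs h4, ?_⟩
      ring
    | zero => rw [mul_zero]; exact Submodule.zero_mem _
    | add x y _ _ hx hy => rw [mul_add]; exact Submodule.add_mem _ hx hy
    | smul r x _ hx => rw [mul_smul_comm]; exact Submodule.smul_mem _ r hx
  have key : ∀ g ∈ Ip κ₀ τ β, SPL_eps {l | β l ∈ J} g ∈ Submodule.span ℚ
      {g | ∃ (i : Fin d) (T : Finset L) (h : MvPolynomial L ℚ), i ∈ J ∧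
        T ⊆ blk β i ∧ 0 < th κ₀ τ T ∧ h ∈ supported ℚ {l | β l ∈ J} ∧
          g = h * pr (cut τ β T)} := by
    intro g hg
    rw [hgen] at hg
    induction hg using Submodule.span_induction with
    | mem x hx =>
      obtain ⟨i, T, h2, h3, rfl⟩ := hx
      by_cases hi : i ∈ J
      · refine Submodule.subset_span ⟨i, T, 1, hi, h2, h3, Subalgebra.one_mem _, ?_⟩
        rw [one_mul]
        unfold pr
        rw [map_prod]
        refine Finset.prod_congr rfl fun e he => ?_
        unfold cut at he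
        rw [Finset.mem_filter] at he
        have h4 : β e.1 = i := by
          have := h2 he.2.1
          unfold blk at this
          exact (Finset.mem_filter.mp this).2
        have h5 : β e.2 = i := by rw [← he.2.2.2.2.2, h4]
        rw [map_sub, SPL_eps_X (show e.2 ∈ {l | β l ∈ J} by
          rw [Set.mem_ofPred_eq, h5]; exact hi), SPL_eps_X (show e.1 ∈ {l | β l ∈ J} by
          rw [Set.mem_ofPred_eq, h4]; exact hi)]
      · obtain ⟨e, he⟩ := hne L κ₀ hp hq τ d β i T hβ h2 h3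
        have : SPL_eps {l | β l ∈ J} (pr (cut τ β T)) = 0 := by
          unfold pr
          rw [map_prod]
          refine Finset.prod_eq_zero he ?_
          unfold cut at he
          rw [Finset.mem_filter] at he
          have h4 : β e.1 = i := by
            have := h2 he.2.1
            unfold blk at this
            exact (Finset.mem_filter.mp this).2
          have h5 : β e.2 = i := by rw [← he.2.2.2.2.2, h4]
          rw [map_sub, SPL_eps_X' (show e.2 ∉ {l | β l ∈ J} by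
            rw [Set.mem_ofPred_eq, h5]; exact hi), SPL_eps_X' (show e.1 ∉ {l | β l ∈ J} by
            rw [Set.mem_ofPred_eq, h4]; exact hi), sub_zero]
        rw [this]
        exact Submodule.zero_mem _
    | zero => rw [map_zero]; exact Submodule.zero_mem _
    | add x y _ _ hx hy => rw [map_add]; exact Submodule.add_mem _ hx hy
    | smul r x _ hx =>
      rw [smul_eq_mul, map_mul]
      exact hmul _ (SPL_eps_mem _ r) _ hx
  have := key f hf
  rw [SPL_eps_self hs] at this
  exact this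

end Pool.Agent.Work.MP_c41774_al.Full

end
end

section

noncomputable section

namespace Pool.Agent.Work.MP_c41774_al.Full

open Finset MvPolynomial
open Pool.Agent.Work.MP_c41774_al.Wall

theorem R_SPLIT_dd (hD : Q_DEGE) {L : Type} [Fintype L] [DecidableEq L] (κ₀ : ℕ × ℕ)
    (h1 : 0 < κ₀.1) (h2 : 0 < κ₀.2) (τ : L → Bool) (d : ℕ) (β : L → Fin d)
    (hβ : Good κ₀ τ β) : dd τ β = 2 * dege τ β := by
  have h := ((hD L κ₀ h1 h2 τ d β hβ).2 Fin.revPerm).2
  have e1 : (univ.filter fun e : L × L => τ e.1 = true ∧ τ e.2 = false ∧ β e.1 ≠ β e.2) =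
      crs τ β ∪ crs τ (Fin.revPerm ∘ β) := by
    ext e
    simp only [crs, Finset.mem_filter, Finset.mem_union, mem_univ, true_and,
      Function.comp_apply, Fin.revPerm_apply, Fin.rev_lt_rev]
    constructor
    · rintro ⟨ha, hb, hc⟩
      rcases lt_or_gt_of_ne hc with h | h
      · exact Or.inl ⟨ha, hb, h⟩
      · exact Or.inr ⟨ha, hb, h⟩
    · rintro (⟨ha, hb, hc⟩ | ⟨ha, hb, hc⟩)
      · exact ⟨ha, hb, hc.ne⟩
      · exact ⟨ha, hb, hc.ne'⟩
  have e2 : Disjoint (crs τ β) (crs τ (Fin.revPerm ∘ β)) := by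
    rw [Finset.disjoint_left]
    intro e he he'
    simp only [crs, Finset.mem_filter, mem_univ, true_and,
      Function.comp_apply, Fin.revPerm_apply, Fin.rev_lt_rev] at he he'
    exact lt_asymm he.2.2 he'.2.2
  unfold dd
  rw [e1, Finset.card_union_of_disjoint e2]
  unfold dege at h ⊢
  omega

theorem R_SPLIT_blk {d₀ : ℕ} {M : Fin d₀ → Type} [∀ i, Fintype (M i)] [∀ i, DecidableEq (M i)]
    {d : ℕ} (β : (Σ i, M i) → Fin d) (φ : Fin d → Fin d₀) (hφ : ∀ l, l.1 = φ (β l))
    {r : Fin d₀ → ℕ} (β' : ∀ i, M i → Fin (r i)) (j : ∀ i, Fin (r i) → Fin d)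
    (hj : ∀ i a, β ⟨i, a⟩ = j i (β' i a)) (hinj : ∀ i, Function.Injective (j i))
    (hφj : ∀ i k, φ (j i k) = i) (i : Fin d₀) (k : Fin (r i)) :
    (univ.filter fun l => β l = j i k) =
      (univ.filter fun a => β' i a = k).map ⟨Sigma.mk i, sigma_mk_injective⟩ := by
  ext ⟨i', a⟩
  simp only [Finset.mem_filter, mem_univ, true_and, Finset.mem_map, Function.Embedding.coeFn_mk]
  constructor
  · intro h
    have h3 : i' = i := by
      have := hφ ⟨i', a⟩
      rw [h, hφj] at this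
      exact this
    subst h3
    refine ⟨a, ?_, rfl⟩
    rw [hj] at h
    exact hinj i' h
  · rintro ⟨a', ha', heq⟩
    rw [← heq, hj, ha']

theorem pr_R_SPLIT : Q_DEGE → Q_SPLIT := by
  intro hD d₀ M _ _ κ₀ h1 h2 τ d β φ hfst hβ hφ
  classical
  let e : ∀ i : Fin d₀, {k // φ k = i} ≃ Fin (Fintype.card {k // φ k = i}) :=
    fun i => Fintype.equivFin _
  let β' : ∀ i, M i → Fin (Fintype.card {k // φ k = i}) :=
    fun i a => e i ⟨β ⟨i, a⟩, (hφ ⟨i, a⟩).symm⟩
  let j : ∀ i, Fin (Fintype.card {k // φ k = i}) → Fin d := fun i k => ((e i).symm k).1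
  have hj : ∀ i a, β ⟨i, a⟩ = j i (β' i a) := by
    intro i a
    simp only [j, β', Equiv.symm_apply_apply]
  have hinj : ∀ i, Function.Injective (j i) :=
    fun i => Subtype.val_injective.comp (e i).symm.injective
  have hφj : ∀ i k, φ (j i k) = i := fun i k => ((e i).symm k).2
  have hblk := R_SPLIT_blk β φ hφ β' j hj hinj hφj
  have hgood : ∀ i, Good κ₀ (fun a => τ ⟨i, a⟩) (β' i) := by
    intro i k
    have h := hβ (j i k)
    rw [hblk i k] at h
    refine ⟨by simpa using h.1, ?_⟩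
    have hx : nx τ ((univ.filter fun a => β' i a = k).map ⟨Sigma.mk i, sigma_mk_injective⟩) =
        nx (fun a => τ ⟨i, a⟩) (univ.filter fun a => β' i a = k) := by
      unfold nx
      rw [Finset.filter_map, Finset.card_map]
      rfl
    have hy : ny τ ((univ.filter fun a => β' i a = k).map ⟨Sigma.mk i, sigma_mk_injective⟩) =
        ny (fun a => τ ⟨i, a⟩) (univ.filter fun a => β' i a = k) := by
      unfold ny
      rw [Finset.filter_map, Finset.card_map]
      rfl
    have h' := h.2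
    unfold th at h' ⊢
    rwa [hx, hy] at h'
  refine ⟨fun i => Fintype.card {k // φ k = i}, β', j, hgood, hj, hinj, hφj, ?_, ?_⟩
  · have h := Fintype.card_congr (Equiv.sigmaFiberEquiv φ)
    rw [Fintype.card_sigma, Fintype.card_fin] at h
    exact h
  · have hA := R_SPLIT_dd hD κ₀ h1 h2 τ d β hβ
    have hB := R_SPLIT_dd hD κ₀ h1 h2 τ d₀ Sigma.fst hfst
    have hC : ∀ i, dd (fun a => τ ⟨i, a⟩) (β' i) = 2 * dege (fun a => τ ⟨i, a⟩) (β' i) :=
      fun i => R_SPLIT_dd hD κ₀ h1 h2 (fun a => τ ⟨i, a⟩) _ (β' i) (hgood i)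
    have hmain : dd τ β = dd τ (Sigma.fst : (Σ i, M i) → Fin d₀) +
        ∑ i, dd (fun a => τ ⟨i, a⟩) (β' i) := by
      have s1 : (univ.filter fun e : (Σ i, M i) × (Σ i, M i) =>
          τ e.1 = true ∧ τ e.2 = false ∧ β e.1 ≠ β e.2) =
          (univ.filter fun e : (Σ i, M i) × (Σ i, M i) =>
            τ e.1 = true ∧ τ e.2 = false ∧ e.1.1 ≠ e.2.1) ∪
          (univ.filter fun e : (Σ i, M i) × (Σ i, M i) =>
            (τ e.1 = true ∧ τ e.2 = false ∧ β e.1 ≠ β e.2) ∧ e.1.1 = e.2.1) := by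
        ext e
        simp only [Finset.mem_filter, Finset.mem_union, mem_univ, true_and]
        constructor
        · rintro ⟨ha, hb, hc⟩
          by_cases h : e.1.1 = e.2.1
          · exact Or.inr ⟨⟨ha, hb, hc⟩, h⟩
          · exact Or.inl ⟨ha, hb, h⟩
        · rintro (⟨ha, hb, hc⟩ | ⟨h, _⟩)
          · refine ⟨ha, hb, fun h => hc ?_⟩
            rw [hφ e.1, hφ e.2, h]
          · exact h
      have s2 : Disjoint (univ.filter fun e : (Σ i, M i) × (Σ i, M i) =>
            τ e.1 = true ∧ τ e.2 = false ∧ e.1.1 ≠ e.2.1)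
          (univ.filter fun e : (Σ i, M i) × (Σ i, M i) =>
            (τ e.1 = true ∧ τ e.2 = false ∧ β e.1 ≠ β e.2) ∧ e.1.1 = e.2.1) := by
        rw [Finset.disjoint_left]
        intro e he he'
        simp only [Finset.mem_filter, mem_univ, true_and] at he he'
        exact he.2.2 he'.2
      have s3 : #(univ.filter fun e : (Σ i, M i) × (Σ i, M i) =>
            (τ e.1 = true ∧ τ e.2 = false ∧ β e.1 ≠ β e.2) ∧ e.1.1 = e.2.1) =
          ∑ i, dd (fun a => τ ⟨i, a⟩) (β' i) := by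
        rw [Finset.card_eq_sum_card_fiberwise (f := fun e => e.1.1) (t := univ)
          (fun _ _ => Finset.mem_coe.2 (mem_univ _))]
        refine Finset.sum_congr rfl fun i _ => ?_
        unfold dd
        rw [← Finset.card_map (⟨fun p : M i × M i => ((⟨i, p.1⟩ : Σ i, M i), (⟨i, p.2⟩ : Σ i, M i)),
          fun p q hpq => by
            simp only [Prod.mk.injEq, Sigma.mk.injEq, heq_eq_eq, true_and] at hpq
            exact Prod.ext hpq.1 hpq.2⟩ : M i × M i ↪ (Σ i, M i) × (Σ i, M i))]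
        congr 1
        ext ⟨⟨i1, a1⟩, ⟨i2, a2⟩⟩
        simp only [Finset.mem_filter, mem_univ, true_and, Finset.mem_map, Prod.exists]
        constructor
        · rintro ⟨⟨⟨ha, hb, hc⟩, h⟩, h'⟩
          subst h'
          subst h
          refine ⟨a1, a2, ⟨ha, hb, fun heq => hc ?_⟩, rfl⟩
          rw [hj, hj, heq]
        · rintro ⟨b1, b2, ⟨ha, hb, hc⟩, heq⟩
          have heq' : (((⟨i, b1⟩ : Σ i, M i), (⟨i, b2⟩ : Σ i, M i)) :
            (Σ i, M i) × (Σ i, M i)) = (⟨i1, a1⟩, ⟨i2, a2⟩) := heq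
          simp only [Prod.mk.injEq, Sigma.mk.injEq] at heq'
          obtain ⟨⟨rfl, h4⟩, ⟨rfl, h5⟩⟩ := heq'
          obtain rfl := eq_of_heq h4
          obtain rfl := eq_of_heq h5
          refine ⟨⟨⟨ha, hb, fun h => hc ?_⟩, rfl⟩, rfl⟩
          rw [hj, hj] at h
          exact hinj _ h
      have s4 : dd τ β = #(univ.filter fun e : (Σ i, M i) × (Σ i, M i) =>
          τ e.1 = true ∧ τ e.2 = false ∧ β e.1 ≠ β e.2) := rfl
      rw [s4, s1, Finset.card_union_of_disjoint s2, s3]
      rfl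
    have hsum : ∑ i, dd (fun a => τ ⟨i, a⟩) (β' i) =
        2 * ∑ i, dege (fun a => τ ⟨i, a⟩) (β' i) := by
      rw [Finset.mul_sum]
      exact Finset.sum_congr rfl fun i _ => hC i
    rw [hA, hB, hsum] at hmain
    omega

end Pool.Agent.Work.MP_c41774_al.Full

end
end

section

noncomputable section

namespace Pool.Agent.Work.MP_c41774_al.Full

open Finset MvPolynomial
open Pool.Agent.Work.MP_c41774_al.Wall

/-- some top coefficient of `f` at `β` is not in the ideal -/
def R_STEP_bad {L : Type} [Fintype L] [DecidableEq L] (κ₀ : ℕ × ℕ) (τ : L → Bool) (n : ℤ)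
    (f : MvPolynomial L ℚ) {d : ℕ} (β : L → Fin d) : Prop :=
  Good κ₀ τ β ∧ ∃ α : Fin d →₀ ℕ, 2 * (α.degree : ℤ) = 2 * (dege τ β : ℤ) + n - d ∧
    (Sh β f).coeff α ∉ Ip κ₀ τ β

open scoped Classical in
theorem R_STEP_aux (hD : Q_DEGE) (hG : Q_GB) (L : Type) [Fintype L] [DecidableEq L]
    (κ₀ : ℕ × ℕ) (h1 : 0 < κ₀.1) (h2 : 0 < κ₀.2) (τ : L → Bool) (n : ℤ) (e : ℕ) :
    ∀ (N : ℕ) (f : MvPolynomial L ℚ), f ∈ Pf κ₀ n τ →
      (∀ (d : ℕ) (β : L → Fin d), d < e → ¬ R_STEP_bad κ₀ τ n f β) →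
      #(univ.filter fun β : L → Fin e => R_STEP_bad κ₀ τ n f β) = N →
      ∃ g ∈ Submodule.span ℚ (PG κ₀ n τ) ⊔ IpS L κ₀ τ, f - g ∈ Pf κ₀ n τ ∧
        ∀ (d : ℕ) (β : L → Fin d), d < e + 1 → ¬ R_STEP_bad κ₀ τ n (f - g) β := by
  intro N
  induction N using Nat.strong_induction_on with
  | _ N ih =>
    intro f hf hlow hN
    by_cases hex : ∃ β : L → Fin e, R_STEP_bad κ₀ τ n f β
    · obtain ⟨β, hβ⟩ := hex
      obtain ⟨g, hg1, hg2, hoff, hon⟩ := hG L κ₀ h1 h2 τ n f hf e β hβ.1
      have hsub : ∀ (d : ℕ) (β' : L → Fin d) (α : Fin d →₀ ℕ),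
          (Sh β' (f - g)).coeff α = (Sh β' f).coeff α - (Sh β' g).coeff α := by
        intro d β' α
        rw [map_sub, coeff_sub]
      have hoff' : ∀ (d : ℕ) (β' : L → Fin d), d ≤ e → (¬ ∃ σ : Fin e ≃ Fin d, β' = σ ∘ β) →
          R_STEP_bad κ₀ τ n (f - g) β' → R_STEP_bad κ₀ τ n f β' := by
        rintro d β' hd hσ ⟨hGd, α, hα, hne⟩
        refine ⟨hGd, α, hα, fun hmem => hne ?_⟩
        rw [hsub]
        exact Ideal.sub_mem _ hmem (hoff d β' hGd hd hσ α hα)
      have hlow' : ∀ (d : ℕ) (β' : L → Fin d), d < e → ¬ R_STEP_bad κ₀ τ n (f - g) β' := by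
        intro d β' hd hb
        refine hlow d β' hd (hoff' d β' hd.le ?_ hb)
        rintro ⟨σ, _⟩
        have := Fintype.card_congr σ
        simp only [Fintype.card_fin] at this
        omega
      have hβn : ∀ β' : L → Fin e, (∃ σ : Fin e ≃ Fin e, β' = σ ∘ β) →
          ¬ R_STEP_bad κ₀ τ n (f - g) β' := by
        rintro β' ⟨σ, rfl⟩ ⟨hGd, α, hα, hne⟩
        apply hne
        have hdeg : dege τ (σ ∘ β) = dege τ β := ((hD L κ₀ h1 h2 τ e β hβ.1).2 σ).2
        rw [hdeg] at hα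
        have h3 := hon σ α hα
        rw [hsub]
        have h4 := Ideal.neg_mem_iff (Ip κ₀ τ (σ ∘ β)) |>.2 h3
        rwa [neg_sub] at h4
      have hlt : #(univ.filter fun β' : L → Fin e => R_STEP_bad κ₀ τ n (f - g) β') < N := by
        rw [← hN]
        refine Finset.card_lt_card (Finset.ssubset_iff_subset_ne.2 ⟨?_, ?_⟩)
        · intro β' hb
          rw [Finset.mem_filter] at hb ⊢
          refine ⟨mem_univ _, hoff' e β' le_rfl (fun hσ => hβn β' hσ hb.2) hb.2⟩
        · intro heq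
          have hmem : β ∈ univ.filter fun β' : L → Fin e => R_STEP_bad κ₀ τ n f β' := by
            rw [Finset.mem_filter]
            exact ⟨mem_univ _, hβ⟩
          rw [← heq, Finset.mem_filter] at hmem
          exact hβn β ⟨Equiv.refl _, rfl⟩ hmem.2
      obtain ⟨g', hg'1, hg'2, hg'3⟩ := ih _ hlt (f - g) (Submodule.sub_mem _ hf hg2) hlow' rfl
      refine ⟨g + g', Submodule.add_mem _ hg1 hg'1, ?_, ?_⟩
      · rw [← sub_sub]
        exact hg'2
      · rw [← sub_sub]
        exact hg'3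
    · push Not at hex
      refine ⟨0, Submodule.zero_mem _, by rwa [sub_zero], ?_⟩
      intro d β hd
      rw [sub_zero]
      rcases Nat.lt_or_ge d e with h | h
      · exact hlow d β h
      · have : d = e := by omega
        subst this
        exact hex β

theorem pr_R_STEP : Q_DEGE → Q_GB → Q_STEP := by
  intro hD hG L _ _ κ₀ h1 h2 τ n e f hf hlow
  classical
  have hbad : ∀ (f : MvPolynomial L ℚ) (d : ℕ) (β : L → Fin d),
      (¬ R_STEP_bad κ₀ τ n f β) ↔ (Good κ₀ τ β → ∀ α : Fin d →₀ ℕ,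
        2 * (α.degree : ℤ) = 2 * (dege τ β : ℤ) + n - d → (Sh β f).coeff α ∈ Ip κ₀ τ β) := by
    intro f d β
    unfold R_STEP_bad
    push Not
    rfl
  obtain ⟨g, hg1, hg2, hg3⟩ := R_STEP_aux hD hG L κ₀ h1 h2 τ n e _ f hf
    (fun d β hd => (hbad f d β).2 (hlow d β hd)) rfl
  exact ⟨g, hg1, hg2, fun d β hd => (hbad (f - g) d β).1 (hg3 d β hd)⟩

end Pool.Agent.Work.MP_c41774_al.Full

end
end

section

/-!
# Item R SWAP
-/

noncomputable section

namespace Pool.Agent.Work.MP_c41774_al.Full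

open Finset MvPolynomial
open Pool.Agent.Work.MP_c41774_al.Wall

/-- the sign identity for double products -/
theorem SWAP_aux {B : Type*} [CommRing B] {d d' : ℕ} (φ : Fin d' → Fin d)
    (σ : Equiv.Perm (Fin d)) (F e : Fin d' → Fin d' → B) (h : ∀ i j, e i j * F j i = F i j) :
    (∏ i, ∏ j, if φ i < φ j then F i j else 1) =
      (∏ i, ∏ j, if φ i < φ j ∧ σ (φ j) < σ (φ i) then e i j else 1) *
        ∏ i, ∏ j, if σ (φ i) < σ (φ j) then F i j else 1 := by
  have h1 : (∏ i, ∏ j, if σ (φ i) < σ (φ j) then F i j else 1) =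
      (∏ i, ∏ j, if σ (φ i) < σ (φ j) ∧ φ i < φ j then F i j else 1) *
        ∏ i, ∏ j, if σ (φ i) < σ (φ j) ∧ φ j < φ i then F i j else 1 := by
    rw [← Finset.prod_mul_distrib]
    refine Finset.prod_congr rfl fun i _ => ?_
    rw [← Finset.prod_mul_distrib]
    refine Finset.prod_congr rfl fun j _ => ?_
    by_cases hs : σ (φ i) < σ (φ j)
    · rcases lt_trichotomy (φ i) (φ j) with hl | hl | hl
      · rw [if_pos hs, if_pos ⟨hs, hl⟩, if_neg (fun h => lt_asymm hl h.2), mul_one]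
      · rw [hl] at hs
        exact absurd hs (lt_irrefl _)
      · rw [if_pos hs, if_neg (fun h => lt_asymm hl h.2), if_pos ⟨hs, hl⟩, one_mul]
    · rw [if_neg hs, if_neg (fun h => hs h.1), if_neg (fun h => hs h.1), mul_one]
  have h2 : (∏ i, ∏ j, if σ (φ i) < σ (φ j) ∧ φ j < φ i then F i j else 1) =
      ∏ i, ∏ j, if σ (φ j) < σ (φ i) ∧ φ i < φ j then F j i else 1 := Finset.prod_comm
  rw [h1, h2, ← Finset.prod_mul_distrib, ← Finset.prod_mul_distrib]
  refine Finset.prod_congr rfl fun i _ => ?_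
  rw [← Finset.prod_mul_distrib, ← Finset.prod_mul_distrib]
  refine Finset.prod_congr rfl fun j _ => ?_
  by_cases hl : φ i < φ j
  · rcases lt_trichotomy (σ (φ i)) (σ (φ j)) with hs | hs | hs
    · rw [if_pos hl, if_neg (fun h => lt_asymm hs h.2), if_pos ⟨hs, hl⟩,
        if_neg (fun h => lt_asymm hs h.1), one_mul, mul_one]
    · rw [σ.injective hs] at hl
      exact absurd hl (lt_irrefl _)
    · rw [if_pos hl, if_pos ⟨hl, hs⟩, if_neg (fun h => lt_asymm hs h.1), if_pos ⟨hs, hl⟩, one_mul,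
        h]
  · rw [if_neg hl, if_neg (fun h => hl h.1), if_neg (fun h => hl h.2), if_neg (fun h => hl h.2),
      one_mul, one_mul]

section

variable {L : Type} [Fintype L] [DecidableEq L]

theorem SWAP_vdm {d d' : ℕ} (A : Type*) [CommRing A] (τ : L → Bool) (β : L → Fin d')
    (φ : Fin d' → Fin d) : vdm A τ β φ =
      ∏ i, ∏ j, if φ i < φ j then (X j - X i : MvPolynomial (Fin d') A) ^ nk τ β i j else 1 := by
  unfold vdm
  refine Finset.prod_congr rfl fun i _ => ?_
  rw [Finset.prod_filter]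

theorem SWAP_nx {d d' : ℕ} (τ : L → Bool) (β : L → Fin d') (γ : L → Fin d) (φ : Fin d' → Fin d)
    (h : ∀ l, γ l = φ (β l)) (k : Fin d) :
    nx τ (blk γ k) = ∑ i, if φ i = k then nx τ (blk β i) else 0 := by
  unfold nx blk
  rw [← Finset.sum_filter]
  rw [Finset.card_eq_sum_card_fiberwise (f := β) (t := univ.filter fun i => φ i = k)]
  · refine Finset.sum_congr rfl fun i hi => ?_
    congr 1
    ext l
    simp only [Finset.mem_filter, Finset.mem_univ, true_and, h] at hi ⊢
    constructor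
    · rintro ⟨⟨h1, h2⟩, h3⟩
      exact ⟨h3, h2⟩
    · rintro ⟨h1, h2⟩
      exact ⟨⟨by rw [h1, hi], h2⟩, h1⟩
  · intro l hl
    simp only [Finset.coe_filter, Finset.mem_filter, Finset.mem_univ, true_and, h,
      Set.mem_setOf_eq] at hl ⊢
    exact hl.1

theorem SWAP_ny {d d' : ℕ} (τ : L → Bool) (β : L → Fin d') (γ : L → Fin d) (φ : Fin d' → Fin d)
    (h : ∀ l, γ l = φ (β l)) (k : Fin d) :
    ny τ (blk γ k) = ∑ i, if φ i = k then ny τ (blk β i) else 0 := by
  unfold ny blk
  rw [← Finset.sum_filter]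
  rw [Finset.card_eq_sum_card_fiberwise (f := β) (t := univ.filter fun i => φ i = k)]
  · refine Finset.sum_congr rfl fun i hi => ?_
    congr 1
    ext l
    simp only [Finset.mem_filter, Finset.mem_univ, true_and, h] at hi ⊢
    constructor
    · rintro ⟨⟨h1, h2⟩, h3⟩
      exact ⟨h3, h2⟩
    · rintro ⟨h1, h2⟩
      exact ⟨⟨by rw [h1, hi], h2⟩, h1⟩
  · intro l hl
    simp only [Finset.coe_filter, Finset.mem_filter, Finset.mem_univ, true_and, h,
      Set.mem_setOf_eq] at hl ⊢
    exact hl.1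

/-- the sign of the permutation -/
theorem SWAP_sgn {d d' : ℕ} (τ : L → Bool) (β : L → Fin d') (γ : L → Fin d) (φ : Fin d' → Fin d)
    (h : ∀ l, γ l = φ (β l)) (σ : Equiv.Perm (Fin d)) :
    (∏ i, ∏ j ∈ (Ioi i).filter (fun j => σ j < σ i),
      (-1 : ℚ) ^ (nx τ (blk γ i) * ny τ (blk γ j))) =
      ∏ i, ∏ j, if φ i < φ j ∧ σ (φ j) < σ (φ i) then (-1 : ℚ) ^ nk τ β i j else 1 := by
  have h1 : ∀ k l : Fin d, (-1 : ℚ) ^ (nx τ (blk γ k) * ny τ (blk γ l)) =
      ∏ i, ∏ j, if φ i = k then (if φ j = l then (-1 : ℚ) ^ nk τ β i j else 1) else 1 := by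
    intro k l
    rw [SWAP_nx τ β γ φ h k, SWAP_ny τ β γ φ h l, Finset.sum_mul_sum, ← Finset.prod_pow_eq_pow_sum]
    refine Finset.prod_congr rfl fun i _ => ?_
    rw [← Finset.prod_pow_eq_pow_sum]
    refine Finset.prod_congr rfl fun j _ => ?_
    unfold nk
    split_ifs <;> simp
  have h2 : ∀ k l : Fin d, (if k < l ∧ σ l < σ k then
      (-1 : ℚ) ^ (nx τ (blk γ k) * ny τ (blk γ l)) else 1) =
      ∏ i, ∏ j, if φ i = k then (if φ j = l then
        (if φ i < φ j ∧ σ (φ j) < σ (φ i) then (-1 : ℚ) ^ nk τ β i j else 1) else 1) else 1 := by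
    intro k l
    split_ifs with hk
    · rw [h1]
      refine Finset.prod_congr rfl fun i _ => Finset.prod_congr rfl fun j _ => ?_
      by_cases h3 : φ i = k
      · by_cases h4 : φ j = l
        · rw [if_pos h3, if_pos h4, if_pos h3, if_pos h4, h3, h4, if_pos hk]
        · rw [if_pos h3, if_neg h4, if_pos h3, if_neg h4]
      · rw [if_neg h3, if_neg h3]
    · symm
      refine Finset.prod_eq_one fun i _ => Finset.prod_eq_one fun j _ => ?_
      by_cases h3 : φ i = k
      · by_cases h4 : φ j = l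
        · rw [if_pos h3, if_pos h4, h3, h4, if_neg hk]
        · rw [if_pos h3, if_neg h4]
      · rw [if_neg h3]
  calc (∏ i, ∏ j ∈ (Ioi i).filter (fun j => σ j < σ i),
      (-1 : ℚ) ^ (nx τ (blk γ i) * ny τ (blk γ j)))
      = ∏ k, ∏ l, if k < l ∧ σ l < σ k then
          (-1 : ℚ) ^ (nx τ (blk γ k) * ny τ (blk γ l)) else 1 := by
        refine Finset.prod_congr rfl fun k _ => ?_
        rw [← Finset.prod_filter]
        refine Finset.prod_congr ?_ fun _ _ => rfl
        ext l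
        simp only [Finset.mem_filter, Finset.mem_Ioi, Finset.mem_univ, true_and]
    _ = ∏ k, ∏ l, ∏ i, ∏ j, if φ i = k then (if φ j = l then
        (if φ i < φ j ∧ σ (φ j) < σ (φ i) then (-1 : ℚ) ^ nk τ β i j else 1) else 1) else 1 :=
        Finset.prod_congr rfl fun k _ => Finset.prod_congr rfl fun l _ => h2 k l
    _ = ∏ k, ∏ i, ∏ l, ∏ j, if φ i = k then (if φ j = l then
        (if φ i < φ j ∧ σ (φ j) < σ (φ i) then (-1 : ℚ) ^ nk τ β i j else 1) else 1) else 1 :=
        Finset.prod_congr rfl fun k _ => Finset.prod_comm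
    _ = ∏ i, ∏ k, ∏ l, ∏ j, if φ i = k then (if φ j = l then
        (if φ i < φ j ∧ σ (φ j) < σ (φ i) then (-1 : ℚ) ^ nk τ β i j else 1) else 1) else 1 :=
        Finset.prod_comm
    _ = ∏ i, ∏ k, ∏ j, ∏ l, if φ i = k then (if φ j = l then
        (if φ i < φ j ∧ σ (φ j) < σ (φ i) then (-1 : ℚ) ^ nk τ β i j else 1) else 1) else 1 :=
        Finset.prod_congr rfl fun i _ => Finset.prod_congr rfl fun k _ => Finset.prod_comm
    _ = ∏ i, ∏ j, if φ i < φ j ∧ σ (φ j) < σ (φ i) then (-1 : ℚ) ^ nk τ β i j else 1 := by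
        refine Finset.prod_congr rfl fun i _ => ?_
        rw [Finset.prod_comm]
        refine Finset.prod_congr rfl fun j _ => ?_
        rw [Finset.prod_eq_single (φ i)]
        · rw [Finset.prod_eq_single (φ j)]
          · rw [if_pos rfl, if_pos rfl]
          · intro l _ hl
            rw [if_pos rfl, if_neg hl.symm]
          · intro hh
            exact absurd (Finset.mem_univ _) hh
        · intro k _ hk
          refine Finset.prod_eq_one fun l _ => ?_
          rw [if_neg hk.symm]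
        · intro hh
          exact absurd (Finset.mem_univ _) hh

theorem SWAP_key {d d' : ℕ} (τ : L → Bool) (β : L → Fin d') (γ : L → Fin d) (φ : Fin d' → Fin d)
    (h : ∀ l, γ l = φ (β l)) (σ : Equiv.Perm (Fin d)) (hs : ∀ i j, nk τ β i j = nk τ β j i) :
    vdm (MvPolynomial L ℚ) τ β φ = (∏ i, ∏ j ∈ (Ioi i).filter (fun j => σ j < σ i),
      (-1 : ℚ) ^ (nx τ (blk γ i) * ny τ (blk γ j))) • vdm (MvPolynomial L ℚ) τ β (σ ∘ φ) := by
  rw [SWAP_sgn τ β γ φ h σ, SWAP_vdm, SWAP_vdm, Algebra.smul_def, map_prod]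
  rw [SWAP_aux φ σ (fun i j => (X j - X i : MvPolynomial (Fin d') (MvPolynomial L ℚ)) ^ nk τ β i j)
    (fun i j => algebraMap ℚ (MvPolynomial (Fin d') (MvPolynomial L ℚ)) ((-1 : ℚ) ^ nk τ β i j))]
  · congr 1
    refine Finset.prod_congr rfl fun i _ => ?_
    rw [map_prod]
    refine Finset.prod_congr rfl fun j _ => ?_
    split_ifs
    · rfl
    · rw [map_one]
  · intro i j
    simp only [map_pow, map_neg, map_one]
    rw [hs j i, ← mul_pow]
    congr 1
    ring

end

theorem pr_R_SWAP : Q_SYMN → Q_DEGE → Q_SYM1 → Q_SYM2 → Q_PF → R_PRO → R_SWAP := by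
  intro hSYMN hDEGE hSYM1 hSYM2 hPF hPRO κ₀ h1 h2 L _ _ τ n d γ σ hγ f hf
  obtain ⟨-, hD⟩ := hDEGE L κ₀ h1 h2 τ d γ hγ
  obtain ⟨hγ', hdeg⟩ := hD σ
  have hf' : f ∈ PR κ₀ n τ (σ ∘ γ) := by
    intro d' β φ' hβ hφ α hα
    refine hf d' β (σ.symm ∘ φ') hβ (fun l => ?_) α (by rw [hdeg] at hα; exact hα)
    show γ l = σ.symm (φ' (β l))
    rw [← hφ l]
    exact (σ.symm_apply_apply _).symm
  have hP1 := hPRO κ₀ h1 h2 L τ n d γ hγ f hf
  have hP2 := hPRO κ₀ h1 h2 L τ n d (σ ∘ γ) hγ' f hf'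
  refine (hPF L κ₀ τ).2.2.1 n _ (Submodule.sub_mem _ hP1 (Submodule.smul_mem _ _ hP2)) ?_
  intro d' β hβ α hα
  rw [map_sub, map_smul, coeff_sub, coeff_smul]
  by_cases hex : ∃ φ : Fin d' → Fin d, ∀ l, γ l = φ (β l)
  · obtain ⟨φ, hφ⟩ := hex
    have k1 := hSYM2 L κ₀ h1 h2 τ d γ hγ n f hf d' β hβ φ hφ α hα
    have k2 := hSYM2 L κ₀ h1 h2 τ d (σ ∘ γ) hγ' n f hf' d' β hβ (σ ∘ φ)
      (fun l => congrArg σ (hφ l)) α hα
    have k3 := SWAP_key τ β γ φ hφ σ (fun i j => (hSYMN L κ₀ h1 h2 τ d' β hβ i j).1)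
    rw [k3, smul_mul_assoc, coeff_smul] at k1
    have k4 := Submodule.sub_mem _ k1 (Submodule.smul_of_tower_mem (Ip κ₀ τ β)
      (∏ i, ∏ j ∈ (Ioi i).filter (fun j => σ j < σ i),
        (-1 : ℚ) ^ (nx τ (blk γ i) * ny τ (blk γ j))) k2)
    rw [smul_sub, sub_sub_sub_cancel_right] at k4
    exact k4
  · have hex' : ¬ ∃ φ : Fin d' → Fin d, ∀ l, (σ ∘ γ) l = φ (β l) := by
      rintro ⟨φ, hφ⟩
      refine hex ⟨σ.symm ∘ φ, fun l => ?_⟩
      show γ l = σ.symm (φ (β l))
      rw [← hφ l]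
      exact (σ.symm_apply_apply _).symm
    refine Submodule.sub_mem _ (hSYM1 L κ₀ h1 h2 τ d γ hγ n f hf d' β hβ hex α hα)
      (Submodule.smul_of_tower_mem _ _ (hSYM1 L κ₀ h1 h2 τ d (σ ∘ γ) hγ' n f hf' d' β hβ hex' α hα))

end Pool.Agent.Work.MP_c41774_al.Full

end
end

section

/-!
# R12: the symbol of `e_γ f` vanishes at `β` if `β` does not refine `γ`
-/

noncomputable section

namespace Pool.Agent.Work.MP_c41774_al.Full

open Finset MvPolynomial
open Pool.Agent.Work.MP_c41774_al.Wall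

theorem pr_R_SYM1 : Q_JOIN → Q_MUL0 → Q_MUL1 → Q_SYM1 := by
  intro hJ h0 h1 L _ _ κ₀ hp hq τ d₀ γ hγ n f hf d β hβ hno α hα
  by_cases hth : ∃ k l, th κ₀ τ (blk γ k ∩ blk β l) ≠ 0
  · exact h0 L κ₀ τ d₀ γ d β hγ hβ hth f α
  · push Not at hth
    obtain ⟨r, δ, φ, ψ, hδ, hφ, hψ, hinj, hdr, -, hrd, hdeg⟩ :=
      hJ L κ₀ hp hq τ d₀ γ d β hγ hβ hth
    have hne : r ≠ d := fun h => hno (hrd h)
    refine h1 L κ₀ hp hq τ d₀ γ d β r δ φ ψ hγ hβ hth hδ hφ hψ hinj hdeg n f hf α ?_
    have : (d : ℤ) < r := by exact_mod_cast lt_of_le_of_ne hdr hne.symm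
    omega

end Pool.Agent.Work.MP_c41774_al.Full

end
end

section

/-!
# Block R, item Q_SYM2: the symbol of `e_γ f` at a refinement
-/

noncomputable section

namespace Pool.Agent.Work.MP_c41774_al.Full

open Finset MvPolynomial
open Pool.Agent.Work.MP_c41774_al.Wall

/-- all coefficients of degree `≥ k` vanish -/
def R_SYM2_Dlt {D A : Type*} [CommRing A] (k : ℕ) (p : MvPolynomial D A) : Prop :=
  ∀ ω : D →₀ ℕ, k ≤ ω.degree → p.coeff ω = 0

theorem R_SYM2_mul {D A : Type*} [CommRing A] {a b : ℕ} {p q : MvPolynomial D A}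
    (hp : R_SYM2_Dlt (a + 1) p) (hq : R_SYM2_Dlt b q) : R_SYM2_Dlt (a + b) (p * q) := by
  classical
  intro ω hω
  rw [coeff_mul]
  refine Finset.sum_eq_zero fun x hx => ?_
  rw [Finset.HasAntidiagonal.mem_antidiagonal] at hx
  have hd : x.1.degree + x.2.degree = ω.degree := by
    rw [← hx]; simp
  by_cases h : a + 1 ≤ x.1.degree
  · rw [hp _ h, zero_mul]
  · rw [hq _ (by omega), mul_zero]

theorem R_SYM2_add {D A : Type*} [CommRing A] {a : ℕ} {p q : MvPolynomial D A}
    (hp : R_SYM2_Dlt a p) (hq : R_SYM2_Dlt a q) : R_SYM2_Dlt a (p + q) := by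
  intro ω hω
  rw [coeff_add, hp _ hω, hq _ hω, add_zero]

theorem R_SYM2_C {D A : Type*} [CommRing A] (r : A) :
    R_SYM2_Dlt 1 (C r : MvPolynomial D A) := by
  classical
  intro ω hω
  rw [coeff_C, if_neg]
  intro h
  rw [← h] at hω
  simp at hω

theorem R_SYM2_X {D A : Type*} [CommRing A] (i : D) :
    R_SYM2_Dlt 2 (X i : MvPolynomial D A) := by
  classical
  intro ω hω
  rw [coeff_X, if_neg]
  intro h
  rw [← h] at hω
  simp at hω

theorem R_SYM2_neg {D A : Type*} [CommRing A] {a : ℕ} {p : MvPolynomial D A}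
    (hp : R_SYM2_Dlt a p) : R_SYM2_Dlt a (-p) := by
  intro ω hω
  rw [coeff_neg, hp _ hω, neg_zero]

theorem R_SYM2_mono {D A : Type*} [CommRing A] {a a' : ℕ} {p : MvPolynomial D A}
    (hp : R_SYM2_Dlt a p) (h : a ≤ a') : R_SYM2_Dlt a' p := fun ω hω => hp ω (h.trans hω)

theorem R_SYM2_prod {L : Type*} [DecidableEq L] {D : Type*} (β : L → D)
    (E : Finset (L × L)) :
    R_SYM2_Dlt (#E + 1) (Sh β (pr E)) ∧
      R_SYM2_Dlt #E (Sh β (pr E) -
        ∏ e ∈ E, (X (β e.2) - X (β e.1) : MvPolynomial D (MvPolynomial L ℚ))) := by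
  induction E using Finset.induction_on with
  | empty =>
    have h1 : Sh β (pr (∅ : Finset (L × L))) = 1 := by
      rw [pr, Finset.prod_empty, map_one]
    rw [h1, Finset.prod_empty, sub_self]
    refine ⟨?_, fun ω _ => coeff_zero ω⟩
    rw [Finset.card_empty, zero_add, ← C_1]
    exact R_SYM2_C 1
  | insert e E he ih =>
    obtain ⟨ih1, ih2⟩ := ih
    have hx : R_SYM2_Dlt 2 (X (β e.2) - X (β e.1) : MvPolynomial D (MvPolynomial L ℚ)) := by
      rw [sub_eq_add_neg]
      exact R_SYM2_add (R_SYM2_X _) (R_SYM2_neg (R_SYM2_X _))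
    have hf : Sh β (pr (insert e E)) =
        (C (X e.2 - X e.1) + (X (β e.2) - X (β e.1))) * Sh β (pr E) := by
      rw [pr, Finset.prod_insert he, map_mul]
      congr 1
      rw [map_sub, Sh, aeval_X, aeval_X, C_sub]
      ring
    rw [Finset.card_insert_of_notMem he, Finset.prod_insert he, hf]
    constructor
    · have h1 : R_SYM2_Dlt 2 (C (X e.2 - X e.1) + (X (β e.2) - X (β e.1)) :
          MvPolynomial D (MvPolynomial L ℚ)) :=
        R_SYM2_add (R_SYM2_mono (R_SYM2_C _) (by norm_num)) hx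
      have := R_SYM2_mul h1 ih1
      exact R_SYM2_mono this (by omega)
    · have e1 : (C (X e.2 - X e.1) + (X (β e.2) - X (β e.1))) * Sh β (pr E) -
          (X (β e.2) - X (β e.1)) * ∏ e ∈ E, (X (β e.2) - X (β e.1)) =
          C (X e.2 - X e.1) * Sh β (pr E) + (X (β e.2) - X (β e.1)) *
            (Sh β (pr E) - ∏ e ∈ E, (X (β e.2) - X (β e.1))) := by ring
      rw [e1]
      refine R_SYM2_add ?_ ?_
      · have := R_SYM2_mul (a := 0) (R_SYM2_C (D := D) (X e.2 - X e.1 : MvPolynomial L ℚ)) ih1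
        exact R_SYM2_mono this (by omega)
      · have := R_SYM2_mul (a := 1) hx ih2
        exact R_SYM2_mono this (by omega)

theorem R_SYM2_card {L : Type*} [Fintype L] [DecidableEq L] (τ : L → Bool) {d d₀ : ℕ}
    (γ : L → Fin d₀) (β : L → Fin d) (φ : Fin d → Fin d₀) (hφ : ∀ l, γ l = φ (β l))
    (i j : Fin d) :
    #((crs τ γ).filter fun e => (β e.1, β e.2) = (i, j)) =
      if φ i < φ j then nx τ (blk β i) * ny τ (blk β j) else 0 := by
  by_cases h : φ i < φ j
  · rw [if_pos h, nx, ny, ← Finset.card_product]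
    congr 1
    ext e
    simp only [crs, blk, mem_filter, mem_univ, true_and, Prod.mk.injEq, mem_product]
    constructor
    · rintro ⟨⟨h1, h2, -⟩, h4, h5⟩
      exact ⟨⟨h4, h1⟩, h5, h2⟩
    · rintro ⟨⟨h4, h1⟩, h5, h2⟩
      refine ⟨⟨h1, h2, ?_⟩, h4, h5⟩
      rw [hφ, hφ, h4, h5]
      exact h
  · rw [if_neg h, Finset.card_eq_zero, Finset.filter_eq_empty_iff]
    intro e he h'
    rw [Prod.mk.injEq] at h'
    simp only [crs, mem_filter, mem_univ, true_and] at he
    rw [hφ, hφ, h'.1, h'.2] at he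
    exact h he.2.2

theorem R_SYM2_vdm {L : Type} [Fintype L] [DecidableEq L] (τ : L → Bool) {d d₀ : ℕ}
    (γ : L → Fin d₀) (β : L → Fin d) (φ : Fin d → Fin d₀) (hφ : ∀ l, γ l = φ (β l))
    (A : Type*) [CommRing A] :
    ∏ e ∈ crs τ γ, (X (β e.2) - X (β e.1) : MvPolynomial (Fin d) A) = vdm A τ β φ := by
  rw [← Finset.prod_fiberwise (crs τ γ) (fun e => (β e.1, β e.2)), Fintype.prod_prod_type]
  unfold vdm
  refine Finset.prod_congr rfl fun i _ => ?_
  rw [Finset.prod_filter]
  refine Finset.prod_congr rfl fun j _ => ?_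
  have h1 : ∏ e ∈ (crs τ γ).filter (fun e => (β e.1, β e.2) = (i, j)),
      (X (β e.2) - X (β e.1) : MvPolynomial (Fin d) A) =
      (X j - X i) ^ #((crs τ γ).filter fun e => (β e.1, β e.2) = (i, j)) := by
    rw [← Finset.prod_const]
    refine Finset.prod_congr rfl fun e he => ?_
    rw [mem_filter, Prod.mk.injEq] at he
    rw [he.2.1, he.2.2]
  rw [h1, R_SYM2_card τ γ β φ hφ]
  by_cases h : φ i < φ j
  · rw [if_pos h, if_pos h, nk]
  · rw [if_neg h, if_neg h, pow_zero]

theorem pr_R_SYM2 : Q_SYM2 := by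
  intro L _ _ κ₀ _ _ τ d₀ γ _ n f hf d β hβ φ hφ α hα
  obtain ⟨-, h2⟩ := R_SYM2_prod β (crs τ γ)
  rw [R_SYM2_vdm τ γ β φ hφ (MvPolynomial L ℚ)] at h2
  rw [map_mul, ← coeff_sub, ← sub_mul, coeff_mul]
  refine Ideal.sum_mem _ fun x hx => ?_
  rw [Finset.HasAntidiagonal.mem_antidiagonal] at hx
  have hd : x.1.degree + x.2.degree = α.degree := by
    rw [← hx]; simp
  by_cases h : #(crs τ γ) ≤ x.1.degree
  · rw [h2 _ h, zero_mul]
    exact Ideal.zero_mem _
  · refine Ideal.mul_mem_left _ _ ?_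
    refine hf d β φ hβ hφ x.2 ?_
    have h3 : dege τ γ = #(crs τ γ) := rfl
    rw [h3]
    push Not at h
    have h4 : (x.1.degree : ℤ) < #(crs τ γ) := by exact_mod_cast h
    have h5 : (x.1.degree : ℤ) + x.2.degree = α.degree := by exact_mod_cast hd
    linarith

end Pool.Agent.Work.MP_c41774_al.Full

end
end

section

/-!
# Block R, item SYMN: `n_{ij}` is symmetric and positive
-/

noncomputable section

namespace Pool.Agent.Work.MP_c41774_al.Full

open Finset MvPolynomial
open Pool.Agent.Work.MP_c41774_al.Wall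

theorem R_SYMN_pos {L : Type} [Fintype L] [DecidableEq L] (κ₀ : ℕ × ℕ) (h1 : 0 < κ₀.1)
    (h2 : 0 < κ₀.2) (τ : L → Bool) (T : Finset L) (hT : T.Nonempty) (h0 : th κ₀ τ T = 0) :
    0 < nx τ T ∧ 0 < ny τ T ∧ κ₀.2 * nx τ T = κ₀.1 * ny τ T := by
  have he : κ₀.2 * nx τ T = κ₀.1 * ny τ T := by
    unfold th at h0
    have : (κ₀.2 : ℤ) * nx τ T = (κ₀.1 : ℤ) * ny τ T := by linarith
    exact_mod_cast this
  have hc : nx τ T + ny τ T = #T := by
    have h := Finset.card_filter_add_card_filter_not (s := T) (fun l => τ l = true)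
    have h' : (T.filter fun l => ¬ τ l = true) = T.filter fun l => τ l = false := by
      refine Finset.filter_congr fun l _ => ?_
      simp
    rw [h'] at h
    exact h
  have hp : 0 < #T := hT.card_pos
  rcases Nat.eq_zero_or_pos (nx τ T) with hx | hx
  · have h3 : κ₀.1 * ny τ T = 0 := by rw [← he, hx, mul_zero]
    rcases Nat.mul_eq_zero.mp h3 with h4 | h4 <;> omega
  · rcases Nat.eq_zero_or_pos (ny τ T) with hy | hy
    · have h3 : κ₀.2 * nx τ T = 0 := by rw [he, hy, mul_zero]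
      rcases Nat.mul_eq_zero.mp h3 with h4 | h4 <;> omega
    · exact ⟨hx, hy, he⟩

theorem pr_R_SYMN : Q_SYMN := by
  intro L _ _ κ₀ h1 h2 τ d β hβ i j
  obtain ⟨hxi, hyi, hi⟩ := R_SYMN_pos κ₀ h1 h2 τ (blk β i) (hβ i).1 (hβ i).2
  obtain ⟨hxj, hyj, hj⟩ := R_SYMN_pos κ₀ h1 h2 τ (blk β j) (hβ j).1 (hβ j).2
  unfold nk
  refine ⟨?_, Nat.mul_pos hxi hyj⟩
  apply Nat.eq_of_mul_eq_mul_left h2
  calc κ₀.2 * (nx τ (blk β i) * ny τ (blk β j))
      = (κ₀.2 * nx τ (blk β i)) * ny τ (blk β j) := by ring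
    _ = (κ₀.1 * ny τ (blk β j)) * ny τ (blk β i) := by rw [hi]; ring
    _ = κ₀.2 * (nx τ (blk β j) * ny τ (blk β i)) := by rw [← hj]; ring

end Pool.Agent.Work.MP_c41774_al.Full

end
end

section

/-!
# Item R SYMQ
-/

noncomputable section

namespace Pool.Agent.Work.MP_c41774_al.Full

open Finset MvPolynomial
open Pool.Agent.Work.MP_c41774_al.Wall

/-- a homogeneous factor -/
theorem SYMQ_hom {A : Type*} [CommRing A] {D : Type*} (V Q0 G : MvPolynomial D A) (m D₀ : ℕ)
    (hV : V.IsHomogeneous m) (hG : G.IsHomogeneous D₀) (h : G = V * Q0) :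
    ∃ Q : MvPolynomial D A, G = V * Q ∧
      ∀ α, Q.coeff α ≠ 0 → α.degree + m = D₀ ∧ Q.coeff α = Q0.coeff α := by
  have h1 : G = ∑ i ∈ range (Q0.totalDegree + 1),
      if D₀ = m + i then V * homogeneousComponent i Q0 else 0 := by
    rw [← homogeneousComponent_eq_self hG]
    conv_lhs => rw [h, ← sum_homogeneousComponent (φ := Q0)]
    rw [Finset.mul_sum, map_sum]
    refine Finset.sum_congr rfl fun i _ => ?_
    exact homogeneousComponent_of_mem (hV.mul (homogeneousComponent_isHomogeneous i Q0))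
  by_cases hm : m ≤ D₀
  · refine ⟨homogeneousComponent (D₀ - m) Q0, ?_, fun α hα => ?_⟩
    · rw [h1]
      by_cases hr : D₀ - m < Q0.totalDegree + 1
      · rw [Finset.sum_eq_single (D₀ - m)]
        · rw [if_pos (by omega)]
        · intro i _ hi
          rw [if_neg (by omega)]
        · intro hh
          exact absurd (Finset.mem_range.2 hr) hh
      · rw [homogeneousComponent_eq_zero _ Q0 (by omega), mul_zero]
        refine Finset.sum_eq_zero fun i hi => ?_
        have := Finset.mem_range.1 hi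
        rw [if_neg (by omega)]
    · rw [coeff_homogeneousComponent] at hα ⊢
      split_ifs at hα ⊢ with hd
      · exact ⟨by omega, rfl⟩
      · exact absurd rfl hα
  · refine ⟨0, ?_, fun α hα => absurd (coeff_zero α) hα⟩
    rw [h1, mul_zero]
    refine Finset.sum_eq_zero fun i _ => ?_
    rw [if_neg (by omega)]

section

variable {L : Type} [Fintype L]

theorem SYMQ_map {A B : Type*} [CommRing A] [CommRing B] (f : B →+* A) {d d₀ : ℕ} (τ : L → Bool)
    (β : L → Fin d) (φ : Fin d → Fin d₀) :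
    MvPolynomial.map f (vdm B τ β φ) = vdm A τ β φ := by
  unfold vdm
  simp only [map_prod, map_pow, map_sub, map_X]

theorem SYMQ_vhom {A : Type*} [CommRing A] {d : ℕ} (τ : L → Bool) (β : L → Fin d) :
    (vdm A τ β id).IsHomogeneous (∑ i, ∑ j ∈ Ioi i, nk τ β i j) := by
  unfold vdm
  refine IsHomogeneous.prod _ _ _ fun i _ => ?_
  have h : (univ.filter fun j => id i < id j) = Ioi i := by
    ext j
    simp
  rw [h]
  refine IsHomogeneous.prod _ _ _ fun j _ => ?_
  have h1 := ((isHomogeneous_X A j).sub (isHomogeneous_X A i)).pow (nk τ β i j)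
  rwa [one_mul] at h1

theorem SYMQ_ne {d : ℕ} (τ : L → Bool) (β : L → Fin d) : vdm ℚ τ β id ≠ 0 := by
  unfold vdm
  refine Finset.prod_ne_zero_iff.2 fun i _ => Finset.prod_ne_zero_iff.2 fun j hj => ?_
  refine pow_ne_zero _ (sub_ne_zero.2 fun h => ?_)
  have h1 := X_injective h
  rw [Finset.mem_filter] at hj
  exact absurd hj.2 (by rw [h1]; exact lt_irrefl _)

end

theorem pr_R_SYMQ : Q_DEGE → Q_DIV → Q_PROD → Q_DIVU → Q_B1 → Q_SYMQ := by
  intro hDEGE hDIV hPROD hDIVU hB1 L _ _ κ₀ h1 h2 τ n f hf d β hβ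
  obtain ⟨hdeg, -⟩ := hDEGE L κ₀ h1 h2 τ d β hβ
  by_cases hD : ∃ D₀ : ℕ, 2 * (D₀ : ℤ) = 2 * (dege τ β : ℤ) + n - d
  swap
  · refine ⟨0, fun α => ?_, fun α hα => absurd (coeff_zero α) hα, fun ω hω => ?_⟩
    · rw [coeff_zero]
      exact Submodule.zero_mem _
    · exact absurd ⟨_, hω⟩ hD
  obtain ⟨D₀, hD₀⟩ := hD
  rcases d with _ | e
  · -- no blocks
    have hL : IsEmpty L := ⟨fun l => (β l).elim0⟩
    have hde : dege τ β = 0 := by
      rw [hdeg]
      rfl
    refine ⟨homogeneousComponent D₀ (Sh β f), fun α => ?_, fun α hα => ?_, fun ω hω => ?_⟩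
    · rw [coeff_homogeneousComponent]
      split_ifs with hd
      · exact hB1 L κ₀ τ n f hf 0 β hβ α (by rw [hd]; exact hD₀)
      · exact Submodule.zero_mem _
    · rw [coeff_homogeneousComponent] at hα
      split_ifs at hα with hd
      · rw [hd, hD₀, hde]
        push_cast
        ring
      · exact absurd rfl hα
    · have hv : vdm (MvPolynomial L ℚ) τ β id = 1 := by
        unfold vdm
        rfl
      rw [hv, one_mul, coeff_homogeneousComponent, if_pos, sub_self]
      · exact Ideal.zero_mem _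
      · omega
  · -- the main case
    set I := Ip κ₀ τ β with hI
    set mk := Ideal.Quotient.mk I with hmk
    set G := MvPolynomial.map mk (homogeneousComponent D₀ (Sh β f)) with hGdef
    have hGhom : G.IsHomogeneous D₀ := (homogeneousComponent_isHomogeneous D₀ (Sh β f)).map mk
    have hdvd : ∀ i j : Fin (e + 1), i < j → (X j - X i) ^ nk τ β i j ∣ G := by
      intro i j hij
      have k1 := hDIV L κ₀ h1 h2 τ n f hf e β hβ D₀ (by rw [hD₀]; push_cast; ring) i j hij.ne
      refine dvd_trans (pow_dvd_pow_of_dvd ?_ _) k1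
      exact ⟨-1, by ring⟩
    obtain ⟨Q0, hQ0⟩ := hPROD (MvPolynomial L ℚ ⧸ I) (e + 1) (nk τ β) G hdvd
    have hQ0' : G = vdm (MvPolynomial L ℚ ⧸ I) τ β id * Q0 := hQ0
    obtain ⟨Q, hQ1, hQ2⟩ := SYMQ_hom _ Q0 G _ D₀ (SYMQ_vhom τ β) hGhom hQ0'
    rw [← hdeg] at hQ2
    let U : Submodule ℚ (MvPolynomial L ℚ ⧸ I) :=
      Submodule.map (Ideal.Quotient.mkₐ ℚ I).toLinearMap (PR κ₀ (e + 1 : ℕ) τ β)
    have hGU : ∀ α, G.coeff α ∈ U := by
      intro α
      rw [hGdef, coeff_map, coeff_homogeneousComponent]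
      split_ifs with hd
      · exact ⟨_, hB1 L κ₀ τ n f hf (e + 1) β hβ α (by rw [hd]; exact hD₀), rfl⟩
      · rw [map_zero]
        exact Submodule.zero_mem _
    have hQU : ∀ α, Q0.coeff α ∈ U := by
      refine hDIVU (MvPolynomial L ℚ ⧸ I) (Fin (e + 1)) U (vdm ℚ τ β id) Q0 (SYMQ_ne τ β)
        fun α => ?_
      rw [SYMQ_map, ← hQ0']
      exact hGU α
    have hex : ∀ α : Fin (e + 1) →₀ ℕ, ∃ r ∈ PR κ₀ (e + 1 : ℕ) τ β,
        mk r = Q.coeff α ∧ (Q.coeff α = 0 → r = 0) := by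
      intro α
      by_cases h0 : Q.coeff α = 0
      · exact ⟨0, Submodule.zero_mem _, by rw [map_zero, h0], fun _ => rfl⟩
      · have k1 := hQU α
        rw [← (hQ2 α h0).2] at k1
        obtain ⟨r, hr, hr'⟩ := k1
        exact ⟨r, hr, hr', fun h => absurd h h0⟩
    choose c₀ hc1 hc2 hc3 using hex
    let c : MvPolynomial (Fin (e + 1)) (MvPolynomial L ℚ) :=
      ∑ α ∈ Q.support, monomial α (c₀ α)
    have hc : ∀ α, c.coeff α = c₀ α := by
      intro α
      show (∑ α ∈ Q.support, monomial α (c₀ α)).coeff α = _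
      rw [coeff_sum]
      simp only [coeff_monomial]
      rw [Finset.sum_ite_eq']
      split_ifs with hα
      · rfl
      · rw [hc3 α (notMem_support_iff.1 hα)]
    have hmc : MvPolynomial.map mk c = Q := by
      ext α
      rw [coeff_map, hc, hc2]
    refine ⟨c, fun α => ?_, fun α hα => ?_, fun ω hω => ?_⟩
    · rw [hc]
      exact hc1 α
    · rw [hc] at hα
      have k1 : Q.coeff α ≠ 0 := fun h => hα (hc3 α h)
      have k2 := (hQ2 α k1).1
      omega
    · rw [← Ideal.Quotient.eq_zero_iff_mem, map_sub, ← hmk, ← coeff_map, ← coeff_map, map_mul,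
        hmc, SYMQ_map, ← hQ1, hGdef, coeff_map, coeff_map, coeff_homogeneousComponent, if_pos,
        sub_self]
      omega

end Pool.Agent.Work.MP_c41774_al.Full

end
end

section

/-!
# R17: Taylor expansion along the merged variable
-/

noncomputable section

namespace Pool.Agent.Work.MP_c41774_al.Full

open Finset MvPolynomial
open Pool.Agent.Work.MP_c41774_al.Wall

section TAY

variable {A : Type} [CommRing A] {D D' : Type}

/-- all coefficients have total degree `N` -/
def TAY_H (N : ℕ) (F : MvPolynomial D (MvPolynomial D' A)) : Prop :=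
  ∀ (α : D →₀ ℕ) (ω : D' →₀ ℕ), (F.coeff α).coeff ω ≠ 0 → α.degree + ω.degree = N

lemma TAY_add {N : ℕ} {F G : MvPolynomial D (MvPolynomial D' A)} (hF : TAY_H N F)
    (hG : TAY_H N G) : TAY_H N (F + G) := by
  intro α ω h
  rw [coeff_add, coeff_add] at h
  by_cases h1 : (F.coeff α).coeff ω = 0
  · rw [h1, zero_add] at h
    exact hG α ω h
  · exact hF α ω h1

lemma TAY_sum {N : ℕ} {ι : Type} (s : Finset ι) (F : ι → MvPolynomial D (MvPolynomial D' A))
    (hF : ∀ i ∈ s, TAY_H N (F i)) : TAY_H N (∑ i ∈ s, F i) := by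
  classical
  induction s using Finset.induction_on with
  | empty => intro α ω h; simp at h
  | insert i s hi ih =>
    rw [Finset.sum_insert hi]
    exact TAY_add (hF i (Finset.mem_insert_self _ _))
      (ih fun j hj => hF j (Finset.mem_insert_of_mem hj))

lemma TAY_mul {N M : ℕ} {F G : MvPolynomial D (MvPolynomial D' A)} (hF : TAY_H N F)
    (hG : TAY_H M G) : TAY_H (N + M) (F * G) := by
  classical
  intro α ω h
  rw [coeff_mul, coeff_sum] at h
  obtain ⟨⟨a, b⟩, hab, h1⟩ := Finset.exists_ne_zero_of_sum_ne_zero h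
  rw [coeff_mul] at h1
  obtain ⟨⟨u, v⟩, huv, h2⟩ := Finset.exists_ne_zero_of_sum_ne_zero h1
  rw [Finset.HasAntidiagonal.mem_antidiagonal] at hab huv
  have h3 := hF a u (left_ne_zero_of_mul h2)
  have h4 := hG b v (right_ne_zero_of_mul h2)
  simp only at hab huv
  rw [← hab, ← huv, map_add, map_add]
  omega

lemma TAY_one : TAY_H 0 (1 : MvPolynomial D (MvPolynomial D' A)) := by
  classical
  intro α ω h
  rw [coeff_one] at h
  split_ifs at h with h1
  · rw [coeff_one] at h
    split_ifs at h with h2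
    · rw [← h1, ← h2]
      simp
    · exact absurd rfl h
  · simp at h

lemma TAY_pow {N : ℕ} {F : MvPolynomial D (MvPolynomial D' A)} (hF : TAY_H N F) (n : ℕ) :
    TAY_H (n * N) (F ^ n) := by
  induction n with
  | zero => rw [pow_zero, zero_mul]; exact TAY_one
  | succ n ih => rw [pow_succ, Nat.succ_mul]; exact TAY_mul ih hF

lemma TAY_prod {ι : Type} (s : Finset ι) (N : ι → ℕ)
    (F : ι → MvPolynomial D (MvPolynomial D' A)) (hF : ∀ i ∈ s, TAY_H (N i) (F i)) :
    TAY_H (∑ i ∈ s, N i) (∏ i ∈ s, F i) := by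
  classical
  induction s using Finset.induction_on with
  | empty => simpa using TAY_one
  | insert i s hi ih =>
    rw [Finset.sum_insert hi, Finset.prod_insert hi]
    exact TAY_mul (hF i (Finset.mem_insert_self _ _))
      (ih fun j hj => hF j (Finset.mem_insert_of_mem hj))

lemma TAY_CC (a : A) : TAY_H 0 (C (C a) : MvPolynomial D (MvPolynomial D' A)) := by
  classical
  intro α ω h
  rw [coeff_C] at h
  split_ifs at h with h1
  · rw [coeff_C] at h
    split_ifs at h with h2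
    · rw [← h1, ← h2]
      simp
    · exact absurd rfl h
  · simp at h

lemma TAY_CX (j : D') : TAY_H 1 (C (X j) : MvPolynomial D (MvPolynomial D' A)) := by
  classical
  intro α ω h
  rw [coeff_C] at h
  split_ifs at h with h1
  · rw [coeff_X'] at h
    split_ifs at h with h2
    · rw [← h1, ← h2]
      simp
    · exact absurd rfl h
  · simp at h

lemma TAY_X (j : D) : TAY_H 1 (X j : MvPolynomial D (MvPolynomial D' A)) := by
  classical
  intro α ω h
  rw [coeff_X'] at h
  split_ifs at h with h1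
  · rw [coeff_one] at h
    split_ifs at h with h2
    · rw [← h1, ← h2]
      simp
    · exact absurd rfl h
  · simp at h

/-- `TT` preserves the total degree -/
lemma TAY_TT (φ : D' → D) (G : MvPolynomial D' A) (N : ℕ) (hG : G.IsHomogeneous N) :
    TAY_H N (TT φ G) := by
  rw [TT, coe_eval₂Hom, eval₂_eq]
  apply TAY_sum
  intro s hs
  have hd : s.degree = N := by
    by_contra h
    exact (mem_support_iff.mp hs) (hG.coeff_eq_zero h)
  have h1 : TAY_H (∑ j ∈ s.support, s j * 1) (∏ j ∈ s.support,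
      ((C (X j) + X (φ j) : MvPolynomial D (MvPolynomial D' A)) ^ s j)) :=
    TAY_prod _ _ _ fun j _ => TAY_pow (TAY_add (TAY_CX j) (TAY_X (φ j))) (s j)
  have h2 : ∑ j ∈ s.support, s j * 1 = N := by
    rw [← hd]
    simp [Finsupp.degree]
  rw [h2] at h1
  have h3 := TAY_mul (TAY_CC (D := D) (D' := D') (G.coeff s)) h1
  rw [zero_add] at h3
  exact h3

/-- evaluation of a homogeneous polynomial at multiples of `w` -/
lemma TAY_dvd {B : Type} [CommRing B] (g : A →+* B) (v : D' → B) (w : B) (hv : ∀ j, w ∣ v j)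
    (p : MvPolynomial D' A) (m : ℕ) (hp : ∀ s, p.coeff s ≠ 0 → m ≤ s.degree) :
    w ^ m ∣ eval₂ g v p := by
  rw [eval₂_eq]
  apply Finset.dvd_sum
  intro s hs
  apply Dvd.dvd.mul_left
  have h1 : w ^ s.degree ∣ ∏ j ∈ s.support, v j ^ s j := by
    rw [show s.degree = ∑ j ∈ s.support, s j by simp [Finsupp.degree], ← Finset.prod_pow_eq_pow_sum]
    exact Finset.prod_dvd_prod_of_dvd _ _ fun j _ => pow_dvd_pow_of_dvd (hv j) (s j)
  exact (pow_dvd_pow w (hp s (mem_support_iff.mp hs))).trans h1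

end TAY

theorem pr_R_TAY : Q_TAY := by
  intro A _ e k l φ hkl hM G D₀ n hG h0
  classical
  let ρ : Fin e → Fin (e + 1) := fun i =>
    if h : ∃ j, j ≠ k ∧ φ j = i then h.choose else k
  have hρ : ∀ j, j ≠ k → ρ (φ j) = j := by
    intro j hj
    have h : ∃ j', j' ≠ k ∧ φ j' = φ j := ⟨j, hj, rfl⟩
    have h1 := h.choose_spec
    have h2 : ρ (φ j) = h.choose := dif_pos h
    rw [h2]
    rcases (hM _ _).mp h1.2 with h3 | h3 | h3
    · exact h3
    · exact absurd h3.1 h1.1
    · exact absurd h3.2 hj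
  have hρk : ρ (φ k) = l := by
    rw [(hM k l).mpr (Or.inr (Or.inl ⟨rfl, rfl⟩))]
    exact hρ l (Ne.symm hkl)
  let v : Fin (e + 1) → MvPolynomial (Fin (e + 1)) A := fun j => if j = k then X k - X l else 0
  let inner : MvPolynomial (Fin (e + 1)) A →+* MvPolynomial (Fin (e + 1)) A := eval₂Hom C v
  let E : MvPolynomial (Fin e) (MvPolynomial (Fin (e + 1)) A) →+* MvPolynomial (Fin (e + 1)) A :=
    eval₂Hom inner fun i => X (ρ i)
  have hE : E.comp (TT φ) = RingHom.id _ := by
    apply MvPolynomial.ringHom_ext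
    · intro a
      simp [E, TT, inner]
    · intro j
      by_cases hj : j = k
      · subst hj
        simp [E, TT, inner, v, hρk]
      · simp [E, TT, inner, v, hρ j hj, hj]
  have h1 : G = E (TT φ G) := by
    have := congrArg (fun g : MvPolynomial (Fin (e + 1)) A →+* MvPolynomial (Fin (e + 1)) A =>
      g G) hE
    simpa using this.symm
  rw [h1]
  simp only [E, coe_eval₂Hom]
  rw [eval₂_eq]
  apply Finset.dvd_sum
  intro α _
  apply Dvd.dvd.mul_right
  by_cases hα : D₀ < α.degree + n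
  · rw [h0 α hα, map_zero]
    exact dvd_zero _
  · simp only [inner, coe_eval₂Hom]
    refine TAY_dvd C v (X k - X l) ?_ _ n ?_
    · intro j
      by_cases hj : j = k
      · simp [v, hj]
      · simp [v, hj]
    · intro s hs
      have := TAY_TT φ G D₀ hG α s hs
      omega

end Pool.Agent.Work.MP_c41774_al.Full

end
end

section

/-!
# Block R, item Q_TRJ: from `L` to the block
-/

noncomputable section

namespace Pool.Agent.Work.MP_c41774_al.Full

open Finset MvPolynomial
open Pool.Agent.Work.MP_c41774_al.Wall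

theorem TRJ_Sh {L L' : Type} {r d : ℕ} (β : L → Fin d) (ι : L' → L) (β' : L' → Fin r)
    (j : Fin r → Fin d) (h : ∀ l', β (ι l') = j (β' l')) (f : MvPolynomial L' ℚ) :
    Sh β (rename ι f) =
      rename j (MvPolynomial.map (rename ι : MvPolynomial L' ℚ →ₐ[ℚ] MvPolynomial L ℚ).toRingHom
        (Sh β' f)) := by
  induction f using MvPolynomial.induction_on with
  | C a =>
    rw [rename_C]
    simp only [Sh, algHom_C]
    have h1 : ∀ (D M : Type) (a : ℚ), algebraMap ℚ (MvPolynomial D (MvPolynomial M ℚ)) a =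
        C (C a) := fun D M a => rfl
    rw [h1, h1, map_C, rename_C]
    congr 1
    simp
  | add p q hp hq => simp only [map_add, hp, hq]
  | mul_X p n hp =>
    simp only [map_mul, hp, rename_X]
    congr 1
    simp only [Sh, aeval_X, map_add, map_C, map_X, rename_C, rename_X]
    rw [h n]
    congr 2
    simp

theorem pr_R_TRJ : Q_EXT → Q_IPI → Q_TRJ := by
  intro hE hI L L' _ _ _ _ κ₀ hp hq τ d₀ γ hγ i ι hι hi b hb
  obtain ⟨hb1, hb2⟩ := hb
  have hb3 : (b.vars : Set L) ⊆ Set.range ι := by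
    have h1 : (b.vars : Set L) ⊆ {l | γ l = i} := mem_supported.mp hb2
    intro l hl
    obtain ⟨l', hl'⟩ := (hi l).mp (h1 hl)
    exact ⟨l', hl'⟩
  obtain ⟨f, hf⟩ := exists_rename_eq_of_vars_subset_range b ι hι hb3
  refine ⟨f, ?_, hf.symm⟩
  intro r β' hβ' α hα
  obtain ⟨d, β, φ, j, hβ, hφ, hj, hjinj, hout, hd, hdeg⟩ :=
    hE L L' κ₀ hp hq τ d₀ γ hγ i ι hι hi r β' hβ'
  have h1 := hb1 d β φ hβ hφ (α.mapDomain j) (by
    rw [Finsupp.degree_mapDomain, hdeg]
    push_cast
    have : (d : ℤ) + 1 = d₀ + r := by exact_mod_cast hd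
    linarith)
  rw [← hf, TRJ_Sh β ι β' j hj, coeff_rename_mapDomain j hjinj, coeff_map] at h1
  exact (hI L L' κ₀ hp hq τ d β ι r β' j hβ hι hjinj hj (by
    rintro l ⟨k, hk⟩
    by_contra hl
    exact hout l (fun h => hl ((hi l).mp h)) k hk) _).mp h1

end Pool.Agent.Work.MP_c41774_al.Full

end
end

section

/-!
# TTC: coefficients of `TT` only involve coefficients of the same total degree
-/

noncomputable section

namespace Pool.Agent.Work.MP_c41774_al.Full

open Finset MvPolynomial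

/-- all coefficients are natural numbers and vanish outside of total degree `e` -/
def TTC_P {A : Type} [CommRing A] {D D' : Type} (e : ℕ) (G : MvPolynomial D (MvPolynomial D' A)) :
    Prop :=
  ∀ (α : D →₀ ℕ) (ω : D' →₀ ℕ), ∃ n : ℕ, (G.coeff α).coeff ω = (n : A) ∧
    (α.degree + ω.degree ≠ e → n = 0)

theorem TTC_one {A : Type} [CommRing A] {D D' : Type} :
    TTC_P 0 (1 : MvPolynomial D (MvPolynomial D' A)) := by
  classical
  intro α ω
  refine ⟨if α = 0 ∧ ω = 0 then 1 else 0, ?_, ?_⟩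
  · rw [coeff_one]
    by_cases h : 0 = α
    · rw [if_pos h, coeff_one]
      by_cases h2 : 0 = ω
      · simp [← h, ← h2]
      · rw [if_neg h2, if_neg (fun h3 => h2 h3.2.symm)]
        simp
    · rw [if_neg h, if_neg (fun h3 => h h3.1.symm)]
      simp
  · intro h
    rw [if_neg]
    rintro ⟨rfl, rfl⟩
    exact h (by simp)

theorem TTC_gen {A : Type} [CommRing A] {D D' : Type} (j : D') (i : D) :
    TTC_P 1 (C (X j) + X i : MvPolynomial D (MvPolynomial D' A)) := by
  classical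
  intro α ω
  refine ⟨(if α = 0 ∧ ω = Finsupp.single j 1 then 1 else 0) +
    (if α = Finsupp.single i 1 ∧ ω = 0 then 1 else 0), ?_, ?_⟩
  · rw [coeff_add, coeff_add, coeff_C, coeff_X']
    push_cast
    congr 1
    · by_cases h : 0 = α
      · rw [if_pos h, coeff_X']
        by_cases h2 : Finsupp.single j 1 = ω
        · simp [← h, ← h2]
        · rw [if_neg h2, if_neg (fun h3 => h2 h3.2.symm)]
      · rw [if_neg h, if_neg (fun h3 => h h3.1.symm)]
        simp
    · by_cases h : Finsupp.single i 1 = α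
      · rw [if_pos h, coeff_one]
        by_cases h2 : 0 = ω
        · simp [← h, ← h2]
        · rw [if_neg h2, if_neg (fun h3 => h2 h3.2.symm)]
      · rw [if_neg h, if_neg (fun h3 => h h3.1.symm)]
        simp
  · intro h
    rw [if_neg, if_neg]
    · rintro ⟨rfl, rfl⟩
      exact h (by simp)
    · rintro ⟨rfl, rfl⟩
      exact h (by simp)

theorem TTC_mul {A : Type} [CommRing A] {D D' : Type} {e₁ e₂ : ℕ}
    {G H : MvPolynomial D (MvPolynomial D' A)} (hG : TTC_P e₁ G) (hH : TTC_P e₂ H) :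
    TTC_P (e₁ + e₂) (G * H) := by
  classical
  intro α ω
  choose n hn hn0 using hG
  choose m hm hm0 using hH
  refine ⟨∑ p ∈ HasAntidiagonal.antidiagonal α, ∑ q ∈ HasAntidiagonal.antidiagonal ω, n p.1 q.1 * m p.2 q.2, ?_, ?_⟩
  · rw [coeff_mul, coeff_sum]
    push_cast
    refine Finset.sum_congr rfl fun p _ => ?_
    rw [coeff_mul]
    refine Finset.sum_congr rfl fun q _ => ?_
    rw [hn, hm]
  · intro h
    refine Finset.sum_eq_zero fun p hp => Finset.sum_eq_zero fun q hq => ?_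
    rw [HasAntidiagonal.mem_antidiagonal] at hp hq
    by_cases h1 : p.1.degree + q.1.degree = e₁
    · rw [hm0 p.2 q.2, mul_zero]
      intro h2
      apply h
      rw [← hp, ← hq, map_add, map_add]
      omega
    · rw [hn0 p.1 q.1 h1, zero_mul]

theorem TTC_pow {A : Type} [CommRing A] {D D' : Type} {e : ℕ}
    {G : MvPolynomial D (MvPolynomial D' A)} (hG : TTC_P e G) (k : ℕ) :
    TTC_P (k * e) (G ^ k) := by
  induction k with
  | zero => simpa using TTC_one
  | succ k ih =>
    rw [pow_succ, Nat.succ_mul]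
    exact TTC_mul ih hG

theorem TTC_prod {A : Type} [CommRing A] {D D' : Type} {I : Type} (s : Finset I)
    (e : I → ℕ) (G : I → MvPolynomial D (MvPolynomial D' A)) (hG : ∀ i ∈ s, TTC_P (e i) (G i)) :
    TTC_P (∑ i ∈ s, e i) (∏ i ∈ s, G i) := by
  classical
  induction s using Finset.induction_on with
  | empty => simpa using TTC_one
  | insert a s ha ih =>
    rw [Finset.sum_insert ha, Finset.prod_insert ha]
    exact TTC_mul (hG a (Finset.mem_insert_self _ _))
      (ih fun i hi => hG i (Finset.mem_insert_of_mem hi))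

theorem pr_R_TTC : Q_TTC := by
  classical
  intro A _ _ D D' φ J F α ω hF
  rw [MvPolynomial.as_sum F, map_sum, coeff_sum, coeff_sum]
  refine J.sum_mem fun η _ => ?_
  unfold TT
  rw [coe_eval₂Hom, eval₂_monomial]
  have hP : TTC_P η.degree (η.prod fun j k =>
      (C (X j) + X (φ j) : MvPolynomial D (MvPolynomial D' A)) ^ k) := by
    have := TTC_prod (A := A) η.support (fun j => η j * 1)
      (fun j => (C (X j) + X (φ j) : MvPolynomial D (MvPolynomial D' A)) ^ (η j))
      fun j _ => TTC_pow (TTC_gen j (φ j)) _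
    simpa [Finsupp.degree, Finsupp.prod] using this
  obtain ⟨n, hn, hn0⟩ := hP α ω
  rw [RingHom.comp_apply, coeff_C_mul, coeff_C_mul, hn]
  by_cases h : α.degree + ω.degree = η.degree
  · rw [mul_comm, ← nsmul_eq_mul]
    exact J.toAddSubmonoid.nsmul_mem (hF η h.symm) n
  · rw [hn0 h, Nat.cast_zero, mul_zero]
    exact J.zero_mem

end Pool.Agent.Work.MP_c41774_al.Full

end
end

section

/-!
# Item R_TWO: splitting off one block
-/

noncomputable section

namespace Pool.Agent.Work.MP_c41774_al.Full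

open Finset MvPolynomial
open Pool.Agent.Work.MP_c41774_al.Wall

theorem R_TWO_le {L : Type} [Fintype L] [DecidableEq L] (κ₀ : ℕ × ℕ) (n : ℤ) (τ : L → Bool)
    {d₀ : ℕ} (γ : L → Fin d₀) (f : MvPolynomial L ℚ) (hf : f ∈ Ip κ₀ τ γ) :
    f ∈ PR κ₀ n τ γ := by
  intro d β φ _ hφ α _
  exact pr_SHI L (Fin d) (Fin d) κ₀ τ β β id (fun l => rfl) f
    (pr_REF L (Fin d₀) (Fin d) κ₀ τ γ β φ hφ hf) α

theorem pr_R_TWO : Q_DEC → Q_LA → Q_CTP → Q_TWO := by
  intro hDEC hLA hCTP L _ _ κ₀ h1 h2 τ d₀ γ hγ j g hg hgs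
  have hS : {l | j ≤ γ l} = {l | γ l = j} ∪ {l | j < γ l} := by
    ext l
    simp only [Set.mem_ofPred_eq, Set.mem_union]
    constructor
    · intro h
      rcases h.lt_or_eq with h | h
      · exact Or.inr h
      · exact Or.inl h.symm
    · rintro (h | h)
      · exact h.symm.le
      · exact h.le
  rw [hS] at hgs
  obtain ⟨m, a, b, ha, hb, rfl⟩ := hDEC L _ _ g hgs
  have hJ : Disjoint ({j} : Set (Fin d₀)) {i | j < i} := by
    rw [Set.disjoint_left]
    rintro i hi hi'
    rw [Set.mem_singleton_iff] at hi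
    rw [Set.mem_ofPred_eq, hi] at hi'
    exact lt_irrefl _ hi'
  have key := hLA (MvPolynomial L ℚ) (MvPolynomial L ℚ) (MvPolynomial L ℚ)
    (LinearMap.mul ℚ (MvPolynomial L ℚ))
    ((Ip κ₀ τ γ).restrictScalars ℚ ⊓ Subalgebra.toSubmodule (supported ℚ {l | γ l = j}))
    (BB κ₀ τ γ j)
    ((Ip κ₀ τ γ).restrictScalars ℚ ⊓ Subalgebra.toSubmodule (supported ℚ {l | j < γ l}))
    (PR κ₀ d₀ τ γ ⊓ Subalgebra.toSubmodule (supported ℚ {l | j < γ l}))
    ((Ip κ₀ τ γ).restrictScalars ℚ) m a b ?_ ?_ ?_ ?_ ?_ ?_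
  · have hsum : ∑ i, (LinearMap.mul ℚ (MvPolynomial L ℚ)) (a i) (b i) = ∑ i, a i * b i := rfl
    rw [hsum] at key
    refine SetLike.le_def.1 (sup_le_sup (Submodule.span_mono ?_) le_rfl) key
    rintro z ⟨x, hx, y, hy, rfl⟩
    exact ⟨x, hx, y, hy.1, hy.2, rfl⟩
  · rintro x ⟨hx1, hx2⟩
    exact ⟨R_TWO_le κ₀ d₀ τ γ x hx1, hx2⟩
  · rintro x ⟨hx1, hx2⟩
    exact ⟨R_TWO_le κ₀ d₀ τ γ x hx1, hx2⟩
  · rintro x ⟨hx1, _⟩ y
    exact Ideal.mul_mem_right y _ hx1
  · rintro x y ⟨hy1, _⟩
    exact Ideal.mul_mem_left _ x hy1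
  · intro μ hμ
    refine ⟨hCTP L κ₀ h1 h2 τ d₀ γ hγ {j} {i | j < i} hJ μ (fun f hf1 hf2 => hμ f ⟨hf1, hf2⟩)
      d₀ m a b (fun i => ha i) (fun i => hb i) hg, ?_⟩
    exact Submodule.sum_mem _ fun i _ => Submodule.smul_mem _ _ (ha i)
  · intro lam hlam
    have hg' : ∑ i, b i * a i ∈ PR κ₀ d₀ τ γ := by
      have : ∑ i, b i * a i = ∑ i, a i * b i := Finset.sum_congr rfl fun i _ => mul_comm _ _
      rw [this]; exact hg
    refine ⟨hCTP L κ₀ h1 h2 τ d₀ γ hγ {i | j < i} {j} hJ.symm lam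
      (fun f hf1 hf2 => hlam f ⟨hf1, hf2⟩)
      d₀ m b a (fun i => hb i) (fun i => ha i) hg', ?_⟩
    exact Submodule.sum_mem _ fun i _ => Submodule.smul_mem _ _ (hb i)

end Pool.Agent.Work.MP_c41774_al.Full

end
end

section

/-!
# R32: multiplication by a block centre
-/

noncomputable section

namespace Pool.Agent.Work.MP_c41774_al.Full

open Finset MvPolynomial
open Pool.Agent.Work.MP_c41774_al.Wall

theorem ZMUL_X {L : Type} [Fintype L] [DecidableEq L] (κ₀ : ℕ × ℕ) (τ : L → Bool) {d₀ : ℕ}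
    (γ : L → Fin d₀) (n : ℤ) (f : MvPolynomial L ℚ) (hf : f ∈ PR κ₀ n τ γ) (l : L) :
    X l * f ∈ PR κ₀ (n + 2) τ γ := by
  intro d β φ hβ hφ α hα
  have e : Sh β (X l * f) = C (X l) * Sh β f + X (β l) * Sh β f := by
    rw [map_mul]
    have : Sh β (X l : MvPolynomial L ℚ) = C (X l) + X (β l) := by
      rw [Sh, aeval_X]
    rw [this]; ring
  rw [e, coeff_add, coeff_C_mul, coeff_X_mul']
  refine Ideal.add_mem _ (Ideal.mul_mem_left _ _ (hf d β φ hβ hφ α (by omega))) ?_
  split_ifs with h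
  · refine hf d β φ hβ hφ _ ?_
    have h1 : Finsupp.single (β l) 1 ≤ α := by
      rw [Finsupp.single_le_iff]
      exact Nat.one_le_iff_ne_zero.mpr (Finsupp.mem_support_iff.mp h)
    have h2 : (α - Finsupp.single (β l) 1) + Finsupp.single (β l) 1 = α := tsub_add_cancel_of_le h1
    have h3 : (α - Finsupp.single (β l) 1).degree + 1 = α.degree := by
      conv_rhs => rw [← h2]
      rw [map_add, Finsupp.degree_single]
    omega
  · exact Ideal.zero_mem _

theorem ZMUL_zav {L : Type} [Fintype L] [DecidableEq L] (κ₀ : ℕ × ℕ) (τ : L → Bool) {d₀ : ℕ}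
    (γ : L → Fin d₀) (n : ℤ) (f : MvPolynomial L ℚ) (hf : f ∈ PR κ₀ n τ γ) (i : Fin d₀) :
    zav γ i * f ∈ PR κ₀ (n + 2) τ γ := by
  have e : zav γ i * f = (#(blk γ i) : ℚ)⁻¹ • ∑ l ∈ blk γ i, X l * f := by
    rw [zav, smul_eq_C_mul, Finset.mul_sum, Finset.sum_mul, Finset.mul_sum]
    refine Finset.sum_congr rfl fun l _ => by ring
  rw [e]
  exact Submodule.smul_mem _ _ (Submodule.sum_mem _ fun l _ => ZMUL_X κ₀ τ γ n f hf l)

theorem ZMUL_pow {L : Type} [Fintype L] [DecidableEq L] (κ₀ : ℕ × ℕ) (τ : L → Bool) {d₀ : ℕ}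
    (γ : L → Fin d₀) (n : ℤ) (f : MvPolynomial L ℚ) (hf : f ∈ PR κ₀ n τ γ) (i : Fin d₀) (k : ℕ) :
    zav γ i ^ k * f ∈ PR κ₀ (n + 2 * (k : ℤ)) τ γ := by
  induction k with
  | zero =>
    rw [pow_zero, one_mul, Nat.cast_zero, mul_zero, add_zero]
    exact hf
  | succ k ih =>
    have h := ZMUL_zav κ₀ τ γ _ _ ih i
    have e1 : zav γ i ^ (k + 1) * f = zav γ i * (zav γ i ^ k * f) := by ring
    have e2 : n + 2 * ((k + 1 : ℕ) : ℤ) = n + 2 * (k : ℤ) + 2 := by push_cast; ring
    rw [e1, e2]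
    exact h

theorem ZMUL_prod {L : Type} [Fintype L] [DecidableEq L] (κ₀ : ℕ × ℕ) (τ : L → Bool) {d₀ : ℕ}
    (γ : L → Fin d₀) (n : ℤ) (f : MvPolynomial L ℚ) (hf : f ∈ PR κ₀ n τ γ) (m : Fin d₀ → ℕ)
    (s : Finset (Fin d₀)) :
    (∏ i ∈ s, zav γ i ^ m i) * f ∈ PR κ₀ (n + 2 * ((∑ i ∈ s, m i : ℕ) : ℤ)) τ γ := by
  classical
  induction s using Finset.induction_on with
  | empty =>
    rw [Finset.prod_empty, Finset.sum_empty, one_mul, Nat.cast_zero, mul_zero, add_zero]
    exact hf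
  | insert a s ha ih =>
    have h := ZMUL_pow κ₀ τ γ _ _ ih a (m a)
    rw [Finset.prod_insert ha, Finset.sum_insert ha, mul_assoc]
    have e2 : n + 2 * ((m a + ∑ i ∈ s, m i : ℕ) : ℤ) =
        n + 2 * ((∑ i ∈ s, m i : ℕ) : ℤ) + 2 * (m a : ℤ) := by push_cast; ring
    rw [e2]
    exact h

theorem pr_R_ZMUL : Q_ZMUL := by
  intro L _ _ κ₀ τ d₀ γ _ n f hf
  exact ⟨fun i => ZMUL_zav κ₀ τ γ n f hf i, fun m => ZMUL_prod κ₀ τ γ n f hf m univ⟩

end Pool.Agent.Work.MP_c41774_al.Full

end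
end
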