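import Pool.Agent.Work.MP_c41774_al.Full.RStmts
import Pool.Agent.Work.MP_c41774_al.Wall.Chart

/-! Bundle of small proof modules (one section per former module). -/

section

/-!
# (R1z): multiplication by a variable
-/

noncomputable section

namespace Pool.Agent.Work.MP_c41774_al.Full

open Finset MvPolynomial
open Pool.Agent.Work.MP_c41774_al.Wall

theorem pr_R_ZPF : R_ZPF := by
  intro κ₀ L _ _ τ n l f hf d β hβ α hα
  have h1 : Sh β (X l * f) = C (X l) * Sh β f + X (β l) * Sh β f := by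
    rw [map_mul, Sh, aeval_X, add_mul]
  rw [h1, coeff_add, coeff_C_mul, coeff_X_mul']
  refine Ideal.add_mem _ (Ideal.mul_mem_left _ _ (hf d β hβ α (by omega))) ?_
  split_ifs with h
  · refine hf d β hβ _ ?_
    have h2 : α.degree = (α - Finsupp.single (β l) 1).degree + 1 := by
      have h3 : α = (α - Finsupp.single (β l) 1) + Finsupp.single (β l) 1 := by
        rw [tsub_add_cancel_of_le]
        rw [Finsupp.single_le_iff]
        exact Nat.one_le_iff_ne_zero.2 (Finsupp.mem_support_iff.1 h)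
      conv_lhs => rw [h3]
      rw [map_add, Finsupp.degree_single]
    rw [h2] at hα
    push_cast at hα
    omega
  · exact Ideal.zero_mem _

end Pool.Agent.Work.MP_c41774_al.Full

end
end

section

/-!
# Block R, item ZTOP: top coefficients of `(∏ z_i^{m_i}) f`
-/

noncomputable section

namespace Pool.Agent.Work.MP_c41774_al.Full

open Finset MvPolynomial
open Pool.Agent.Work.MP_c41774_al.Wall

/-- `P = t^a + (terms of smaller degree)` -/
def R_ZTOP_Top {A D : Type*} [CommRing A] [DecidableEq D] (P : MvPolynomial D A)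
    (a : D →₀ ℕ) : Prop :=
  ∀ ω : D →₀ ℕ, a.degree ≤ ω.degree → P.coeff ω = if ω = a then 1 else 0

theorem R_ZTOP_one {A D : Type*} [CommRing A] [DecidableEq D] :
    R_ZTOP_Top (1 : MvPolynomial D A) 0 := by
  intro ω _
  rw [coeff_one]
  by_cases h : ω = 0
  · rw [if_pos h, if_pos h.symm]
  · rw [if_neg h, if_neg (Ne.symm h)]

theorem R_ZTOP_mul {A D : Type*} [CommRing A] [DecidableEq D] {P Q : MvPolynomial D A}
    {a b : D →₀ ℕ} (hP : R_ZTOP_Top P a) (hQ : R_ZTOP_Top Q b) :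
    R_ZTOP_Top (P * Q) (a + b) := by
  intro ω hω
  rw [map_add] at hω
  rw [coeff_mul]
  have key : ∀ x ∈ antidiagonal ω, P.coeff x.1 * Q.coeff x.2 =
      if x = (a, b) then 1 else 0 := by
    rintro ⟨x, y⟩ hx
    rw [HasAntidiagonal.mem_antidiagonal] at hx
    have hd : x.degree + y.degree = ω.degree := by
      rw [← map_add]; exact congrArg _ hx
    simp only
    by_cases h1 : a.degree ≤ x.degree
    · rw [hP x h1]
      by_cases h2 : x = a
      · subst h2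
        rw [if_pos rfl, one_mul, hQ y (by omega)]
        by_cases h3 : y = b
        · rw [if_pos h3, if_pos (by rw [h3])]
        · rw [if_neg h3, if_neg (fun h => h3 (Prod.ext_iff.mp h).2)]
      · rw [if_neg h2, zero_mul, if_neg (fun h => h2 (Prod.ext_iff.mp h).1)]
    · have h2 : b.degree ≤ y.degree := by omega
      have h3 : y ≠ b := by rintro rfl; omega
      rw [hQ y h2, if_neg h3, mul_zero, if_neg (fun h => h3 (Prod.ext_iff.mp h).2)]
  rw [Finset.sum_congr rfl key]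
  by_cases h : ω = a + b
  · rw [if_pos h, Finset.sum_ite_eq', if_pos]
    rw [HasAntidiagonal.mem_antidiagonal]
    exact h.symm
  · rw [if_neg h, Finset.sum_ite_eq', if_neg]
    rw [HasAntidiagonal.mem_antidiagonal]
    exact fun h' => h h'.symm

theorem R_ZTOP_lin {A D : Type*} [CommRing A] [DecidableEq D] (z : A) (i : D) :
    R_ZTOP_Top (C z + X i : MvPolynomial D A) (Finsupp.single i 1) := by
  intro ω hω
  have h1 : ω ≠ 0 := by
    rintro rfl
    simp at hω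
  rw [coeff_add, coeff_C, if_neg (Ne.symm h1), zero_add, coeff_X']
  by_cases h : ω = Finsupp.single i 1
  · rw [if_pos h, if_pos h.symm]
  · rw [if_neg h, if_neg (Ne.symm h)]

theorem R_ZTOP_pow {A D : Type*} [CommRing A] [DecidableEq D] {P : MvPolynomial D A}
    {a : D →₀ ℕ} (hP : R_ZTOP_Top P a) (k : ℕ) : R_ZTOP_Top (P ^ k) (k • a) := by
  induction k with
  | zero => rw [pow_zero, zero_smul]; exact R_ZTOP_one
  | succ k ih => rw [pow_succ, succ_nsmul]; exact R_ZTOP_mul ih hP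

theorem R_ZTOP_prod {A D ι : Type*} [CommRing A] [DecidableEq D] (s : Finset ι)
    (P : ι → MvPolynomial D A) (a : ι → D →₀ ℕ) (h : ∀ i ∈ s, R_ZTOP_Top (P i) (a i)) :
    R_ZTOP_Top (∏ i ∈ s, P i) (∑ i ∈ s, a i) := by
  classical
  induction s using Finset.induction_on with
  | empty => rw [Finset.prod_empty, Finset.sum_empty]; exact R_ZTOP_one
  | insert x s hx ih =>
    rw [Finset.prod_insert hx, Finset.sum_insert hx]
    exact R_ZTOP_mul (h x (Finset.mem_insert_self x s))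
      (ih fun i hi => h i (Finset.mem_insert_of_mem hi))

theorem R_ZTOP_zero {L : Type} [Fintype L] [DecidableEq L] {D : Type*} (β : L → D)
    (f : MvPolynomial L ℚ) : (Sh β f).coeff 0 = f := by
  have h : (constantCoeff : MvPolynomial D (MvPolynomial L ℚ) →+* MvPolynomial L ℚ).comp
      (Sh β).toRingHom = RingHom.id _ := by
    refine MvPolynomial.ringHom_ext (fun r => ?_) (fun l => ?_)
    · simp only [RingHom.comp_apply, AlgHom.toRingHom_eq_coe, RingHom.coe_coe, RingHom.id_apply]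
      rw [Sh, aeval_C, MvPolynomial.algebraMap_apply]
      simp
    · simp only [RingHom.comp_apply, AlgHom.toRingHom_eq_coe, RingHom.coe_coe, RingHom.id_apply]
      rw [Sh, aeval_X]
      simp
  exact RingHom.congr_fun h f

theorem R_ZTOP_zav {L : Type} [Fintype L] [DecidableEq L] {d : ℕ} (γ : L → Fin d) (i : Fin d)
    (h : (blk γ i).Nonempty) : Sh γ (zav γ i) = C (zav γ i) + X i := by
  have hc : (#(blk γ i) : ℚ) ≠ 0 := by
    have := h.card_pos
    exact_mod_cast this.ne'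
  unfold zav
  rw [map_mul, map_sum]
  have h1 : ∀ l ∈ blk γ i, Sh γ (X l) = C (X l) + X i := by
    intro l hl
    have : γ l = i := (Finset.mem_filter.mp hl).2
    rw [Sh, aeval_X, this]
  have h2 : Sh γ (C ((#(blk γ i) : ℚ)⁻¹)) = C (C ((#(blk γ i) : ℚ)⁻¹)) := by
    rw [Sh, aeval_C, MvPolynomial.algebraMap_apply]
    rfl
  rw [Finset.sum_congr rfl h1, Finset.sum_add_distrib, h2, mul_add, C_mul, map_sum]
  congr 1
  rw [Finset.sum_const, nsmul_eq_mul, ← mul_assoc]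
  have h3 : (C (C ((#(blk γ i) : ℚ)⁻¹)) * ((#(blk γ i) : ℕ) : MvPolynomial (Fin d)
      (MvPolynomial L ℚ))) = 1 := by
    have h4 : ((#(blk γ i) : ℕ) : MvPolynomial (Fin d) (MvPolynomial L ℚ)) =
        C (C (#(blk γ i) : ℚ)) := by simp
    rw [h4, ← C_mul, ← C_mul, inv_mul_cancel₀ hc, C_1, C_1]
  rw [h3, one_mul]

theorem pr_R_ZTOP : Q_ZTOP := by
  intro L _ _ κ₀ τ d₀ γ hγ f hf m ω hmω
  have hI : ∀ α : Fin d₀ →₀ ℕ, α ≠ 0 → (Sh γ f).coeff α ∈ Ip κ₀ τ γ := by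
    intro α hα
    refine hf d₀ γ id hγ (fun _ => rfl) α ?_
    have h1 : 0 < α.degree := by
      rcases Nat.eq_zero_or_pos α.degree with h | h
      · exact absurd ((Finsupp.degree_eq_zero_iff α).mp h) hα
      · exact h
    have : (0 : ℤ) < α.degree := by exact_mod_cast h1
    linarith
  have hQ : R_ZTOP_Top (∏ i, (C (zav γ i) + X i : MvPolynomial (Fin d₀) (MvPolynomial L ℚ)) ^ m i)
      m := by
    have h1 := R_ZTOP_prod (univ : Finset (Fin d₀))
      (fun i => (C (zav γ i) + X i : MvPolynomial (Fin d₀) (MvPolynomial L ℚ)) ^ m i)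
      (fun i => m i • Finsupp.single i 1) (fun i _ => R_ZTOP_pow (R_ZTOP_lin _ i) (m i))
    have h2 : ∑ i, m i • Finsupp.single i 1 = m := by
      conv_rhs => rw [← Finsupp.univ_sum_single m]
      refine Finset.sum_congr rfl fun i _ => ?_
      rw [Finsupp.smul_single, smul_eq_mul, mul_one]
    rw [h2] at h1
    exact h1
  have hS : Sh γ ((∏ i, zav γ i ^ m i) * f) =
      (∏ i, (C (zav γ i) + X i : MvPolynomial (Fin d₀) (MvPolynomial L ℚ)) ^ m i) * Sh γ f := by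
    rw [map_mul, map_prod]
    congr 1
    refine Finset.prod_congr rfl fun i _ => ?_
    rw [map_pow, R_ZTOP_zav γ i (hγ i).1]
  rw [hS, coeff_mul]
  have h0 : (ω, (0 : Fin d₀ →₀ ℕ)) ∈ antidiagonal ω := by
    rw [HasAntidiagonal.mem_antidiagonal, add_zero]
  rw [← Finset.add_sum_erase _ _ h0, R_ZTOP_zero, hQ ω hmω.le]
  have h1 : (if ω = m then (1 : MvPolynomial L ℚ) else 0) * f = if m = ω then f else 0 := by
    by_cases h : m = ω
    · rw [if_pos h, if_pos h.symm, one_mul]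
    · rw [if_neg h, if_neg (Ne.symm h), zero_mul]
  rw [h1, add_sub_cancel_left]
  refine Ideal.sum_mem _ fun x hx => ?_
  rw [Finset.mem_erase, HasAntidiagonal.mem_antidiagonal] at hx
  refine Ideal.mul_mem_left _ _ (hI _ fun h => hx.1 ?_)
  refine Prod.ext ?_ h
  have := hx.2
  rw [h, add_zero] at this
  exact this

end Pool.Agent.Work.MP_c41774_al.Full

end
end

section

/-!
# Statements of the items of Part A (charts)
-/

noncomputable section

namespace Pool.Agent.Work.MP_c41774_al.Wall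

open Finset QTorus LaurentPolynomial

/-! ### Block R: the completed quantum torus and the wall crossing formula -/

/-- product of lattice series -/
def S_serMul : Prop := ∀ (b c : ℕ), 0 < b → 0 < c → ∀ φ ψ : ℕ × ℕ → S,
  ser b c φ * ser b c ψ = ser b c (tmul b c φ ψ)

/-- leading coefficient of a product -/
def S_latMul : Prop := ∀ (b c : ℕ), 0 < b → 0 < c → ∀ (a u : ℤ × ℤ) (x y : CT),
  Lat b c a x → Lat b c u y →
    Lat b c (a + u) (x * y) ∧ (x * y) (-(a + u)) = w (Lam a u) * (x (-a) * y (-u))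

/-- lattice series with leading coefficient `1` are units -/
def S_latUnit : Prop := ∀ (b c : ℕ), 0 < b → 0 < c → ∀ x : CT, Lat b c 0 x → x 0 = 1 →
  ∃ y : CT, Lat b c 0 y ∧ y 0 = 1 ∧ x * y = 1 ∧ y * x = 1

/-- the series in a fixed direction form a commutative ring -/
def S_dir : Prop := ∀ (b c : ℕ), 0 < b → 0 < c → ∀ κ₀ : ℕ × ℕ, κ₀ ≠ 0 →
  (∀ m m' : PowerSeries S, dir b c κ₀ (m * m') = dir b c κ₀ m * dir b c κ₀ m') ∧
    dir b c κ₀ 1 = 1 ∧
    ∀ m : PowerSeries S, (dir b c κ₀ m) 0 = PowerSeries.constantCoeff m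

/-- the wall crossing formula -/
def S_cross : Prop := ∀ (b c : ℕ), 0 < b → 0 < c → ∀ κ₀ : ℕ × ℕ, κ₀ ≠ 0 →
  ∀ m : PowerSeries S, PowerSeries.constantCoeff m = 1 →
  ∀ (N : ℤ) (y y' : CT), Bd N y → Bd N y' →
    dir b c κ₀ m * y = y' * dir b c κ₀ m →
      (∀ l, y' l = xs N (crs m (Lam l (kk b c κ₀))) (kk b c κ₀) y l) ∧
      ∀ l, y l = xs N (crs m (-Lam l (kk b c κ₀))) (kk b c κ₀) y' l

/-- crossing series -/
def S_crs : Prop := ∀ m : PowerSeries S, PowerSeries.constantCoeff m = 1 →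
  (∀ lam, PowerSeries.coeff 0 (crs m lam) = 1) ∧ crs m 0 = 1 ∧
  (∀ lam, crs m lam * crs m (-lam) = 1) ∧
  (∀ (lam : ℤ) (f : PowerSeries S),
    PowerSeries.rescale (w (-lam)) m = f * PowerSeries.rescale (w lam) m → crs m lam = f) ∧
  ∀ (g : ℤ) (f : PowerSeries S),
    PowerSeries.rescale (w (-g)) m = f * PowerSeries.rescale (w g) m →
      ∀ t : ℕ, crs m ((t : ℤ) * g) =
        ∏ i ∈ Finset.range t, PowerSeries.rescale (w ((2 * (i : ℤ) - t + 1) * g)) f

/-- the greatest common divisor attached to a wall -/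
def gg (b c : ℕ) (κ : ℕ × ℕ) : ℤ := (Nat.gcd (b * κ.1) (c * κ.2) : ℤ)

/-- positivity of the crossing series -/
def S_Fpos : Prop := ∀ (b c : ℕ) (D : WallData b c) (κ : ℕ × ℕ), Nat.Coprime κ.1 κ.2 →
  ∀ (t n : ℕ), SN (PowerSeries.coeff n (D.F κ ((t : ℤ) * gg b c κ)))

/-- the crossing series of the two initial walls -/
def S_Fxy : Prop := ∀ (b c : ℕ) (D : WallData b c) (t : ℕ),
  D.F (1, 0) ((t : ℤ) * b) = PowerSeries.map iota (P b t) ∧
  D.F (1, 0) (-((t : ℤ) * b)) = PowerSeries.map iota (Pinv b t) ∧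
  D.F (0, 1) ((t : ℤ) * c) = PowerSeries.map iota (P c t) ∧
  D.F (0, 1) (-((t : ℤ) * c)) = PowerSeries.map iota (Pinv c t)

/-- equality of all coefficients at positions `≤ d` -/
def Teq (d : ℤ × ℤ) (x y : CT) : Prop := ∀ m, m ≤ d → x m = y m

/-- truncation of products and inverses -/
def S_trunc : Prop :=
  (∀ (M N : ℤ) (d : ℤ × ℤ) (x x' y y' : CT), Bd M x → Bd M x' → Bd N y → Bd N y' →
    Teq (d.1 - N, d.2 - N) x x' → Teq (d.1 - M, d.2 - M) y y' → Teq d (x * y) (x' * y')) ∧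
  ∀ (d : ℤ × ℤ) (u u' : CTˣ), Bd 0 (u : CT) → Bd 0 (u' : CT) → Bd 0 ((u⁻¹ : CTˣ) : CT) →
    Bd 0 ((u'⁻¹ : CTˣ) : CT) → Teq d u u' → Teq d ((u⁻¹ : CTˣ) : CT) ((u'⁻¹ : CTˣ) : CT)

/-- the conjugating elements -/
def S_g : Prop := ∀ (b c : ℕ), 0 < b → 0 < c → ∀ (D : WallData b c),
  (∀ κ : ℕ × ℕ, Nat.Coprime κ.1 κ.2 → D.lo κ 0 = 1 ∧ D.hi κ 0 = 1) ∧
  ∀ C : Chart, C.Valid →
    Lat b c 0 (D.g C : CT) ∧ Lat b c 0 ((D.g C)⁻¹ : CTˣ) ∧
      (D.g C : CT) 0 = 1 ∧ ((D.g C)⁻¹ : CTˣ).val 0 = 1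

/-- the expansions of an element in all charts form a chart system -/
def S_chartSys : Prop := ∀ (b c : ℕ), 0 < b → 0 < c → ∀ (D : WallData b c) (x : CT) (N : ℤ),
  Bd N x → ChartSys D N fun C l => D.T C x l

/-- support and leading coefficient in all charts -/
def S_latT : Prop := ∀ (b c : ℕ), 0 < b → 0 < c → ∀ (D : WallData b c) (C : Chart), C.Valid →
  ∀ (a : ℤ × ℤ) (x : CT), Lat b c a x → Lat b c a (D.T C x) ∧ D.T C x (-a) = x (-a)

/-! ### Block V: abstract chart systems -/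

/-- transport upwards -/
def S_tUp : Prop := ∀ (b c : ℕ) (D : WallData b c) (N : ℤ) (τ : Chart → ℤ × ℤ → S),
  ChartSys D N τ → ∀ (l : ℤ × ℤ) (Q : S → Prop) (κ₁ κ₂ : ℕ × ℕ), Nat.Coprime κ₁.1 κ₁.2 →
    Nat.Coprime κ₂.1 κ₂.2 → Slt κ₁ κ₂ →
    (∀ κ : ℕ × ℕ, Nat.Coprime κ.1 κ.2 → Slt κ₁ κ → Slt κ κ₂ →
      Q (τ (.lo κ) l) → Q (τ (.hi κ) l)) →
    Q (τ (.hi κ₁) l) → Q (τ (.lo κ₂) l)

/-- transport downwards -/
def S_tDown : Prop := ∀ (b c : ℕ) (D : WallData b c) (N : ℤ) (τ : Chart → ℤ × ℤ → S),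
  ChartSys D N τ → ∀ (l : ℤ × ℤ) (Q : S → Prop) (κ₁ κ₂ : ℕ × ℕ), Nat.Coprime κ₁.1 κ₁.2 →
    Nat.Coprime κ₂.1 κ₂.2 → Slt κ₁ κ₂ →
    (∀ κ : ℕ × ℕ, Nat.Coprime κ.1 κ.2 → Slt κ₁ κ → Slt κ κ₂ →
      Q (τ (.hi κ) l) → Q (τ (.lo κ) l)) →
    Q (τ (.lo κ₂) l) → Q (τ (.hi κ₁) l)

/-- elementary facts on slopes and on the crossing operator -/
def S_elem : Prop :=
  (∀ (N : ℤ) (F : PowerSeries S) (k : ℤ × ℤ) (y : ℤ × ℤ → S) (l : ℤ × ℤ), Bd N y →
    PowerSeries.coeff 0 F = 1 →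
    xs N F k y l = y l + ∑ j ∈ Finset.Ico 1 (l.1 + l.2 - 2 * N + 1).toNat,
      PowerSeries.coeff j F * y (l - j • k)) ∧
  (∀ (N : ℤ) (k : ℤ × ℤ) (y : ℤ × ℤ → S) (l : ℤ × ℤ), Bd N y → xs N 1 k y l = y l) ∧
  (∀ (b c : ℕ) (κ : ℕ × ℕ) (l : ℤ × ℤ), ∃ t : ℤ, Lam l (kk b c κ) = t * gg b c κ) ∧
  (∀ (b c : ℕ), 0 < b → 0 < c → ∀ l : ℤ × ℤ, l.1 < 0 → l.2 < 0 →
    Nat.Coprime (slp b c l).1 (slp b c l).2 ∧ 0 < (slp b c l).1 ∧ 0 < (slp b c l).2 ∧
    Lam l (kk b c (slp b c l)) = 0 ∧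
    (∀ κ : ℕ × ℕ, Slt κ (slp b c l) ↔ 0 < Lam l (kk b c κ)) ∧
    ∀ κ : ℕ × ℕ, Slt (slp b c l) κ ↔ Lam l (kk b c κ) < 0) ∧
  (∀ κ : ℕ × ℕ, Nat.Coprime κ.1 κ.2 → κ ≠ (0, 1) → Slt (0, 1) κ) ∧
  (∀ κ : ℕ × ℕ, Nat.Coprime κ.1 κ.2 → κ ≠ (1, 0) → Slt κ (1, 0)) ∧
  (∀ κ κ' : ℕ × ℕ, Nat.Coprime κ.1 κ.2 → Nat.Coprime κ'.1 κ'.2 →
    Slt κ κ' ∨ κ = κ' ∨ Slt κ' κ) ∧
  ∀ κ κ' κ'' : ℕ × ℕ, Nat.Coprime κ.1 κ.2 → Nat.Coprime κ'.1 κ'.2 → Nat.Coprime κ''.1 κ''.2 →
    Slt κ κ' → Slt κ' κ'' → Slt κ κ''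

/-- **Propagation.** -/
def S_prop : Prop := ∀ (b c : ℕ), 0 < b → 0 < c → ∀ (D : WallData b c) (N : ℤ)
  (τ : Chart → ℤ × ℤ → S), ChartSys D N τ → (∀ l, SN (τ (ch b c l) l)) →
    ∀ C : Chart, C.Valid → ∀ l, SN (τ C l)

/-- the form `L(l,a) = l₁ a₂ - l₂ a₁` -/
def LF (l a : ℤ × ℤ) : ℤ := l.1 * a.2 - l.2 * a.1

/-- vanishing below the slope of `a` -/
def S_vanLo : Prop := ∀ (b c : ℕ), 0 < b → 0 < c → ∀ (D : WallData b c) (N : ℤ)
  (τ : Chart → ℤ × ℤ → S), ChartSys D N τ → ∀ a : ℤ × ℤ, 0 < a.1 → 0 < a.2 →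
    (∀ l, l ≠ -a → τ (ch b c l) l = 0) →
    ∀ l : ℤ × ℤ, l ≠ -a → (l.1 < 0 ∨ l.2 < 0) → 0 ≤ LF l a →
      (∀ κ : ℕ × ℕ, Nat.Coprime κ.1 κ.2 → ¬ Slt (slp b c (-a)) κ → τ (.lo κ) l = 0) ∧
      ∀ κ : ℕ × ℕ, Nat.Coprime κ.1 κ.2 → Slt κ (slp b c (-a)) → τ (.hi κ) l = 0

/-- vanishing above the slope of `a` -/
def S_vanHi : Prop := ∀ (b c : ℕ), 0 < b → 0 < c → ∀ (D : WallData b c) (N : ℤ)
  (τ : Chart → ℤ × ℤ → S), ChartSys D N τ → ∀ a : ℤ × ℤ, 0 < a.1 → 0 < a.2 →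
    (∀ l, l ≠ -a → τ (ch b c l) l = 0) →
    ∀ l : ℤ × ℤ, l ≠ -a → (l.1 < 0 ∨ l.2 < 0) → LF l a ≤ 0 →
      (∀ κ : ℕ × ℕ, Nat.Coprime κ.1 κ.2 → ¬ Slt κ (slp b c (-a)) → τ (.hi κ) l = 0) ∧
      ∀ κ : ℕ × ℕ, Nat.Coprime κ.1 κ.2 → Slt (slp b c (-a)) κ → τ (.lo κ) l = 0

/-- vanishing when `a₁ ≤ 0 < a₂` -/
def S_vanHi0 : Prop := ∀ (b c : ℕ), 0 < b → 0 < c → ∀ (D : WallData b c) (N : ℤ)
  (τ : Chart → ℤ × ℤ → S), ChartSys D N τ → ∀ a : ℤ × ℤ, a.1 ≤ 0 → 0 < a.2 →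
    (∀ l, l ≠ -a → τ (.lo (0, 1)) l = 0) →
    ∀ l : ℤ × ℤ, l ≠ -a → LF l a ≤ 0 → ∀ κ : ℕ × ℕ, Nat.Coprime κ.1 κ.2 →
      τ (.lo κ) l = 0 ∧ τ (.hi κ) l = 0

/-- integrality of the crossing series -/
def S_integ : Prop := ∀ (b c : ℕ), 0 < b → 0 < c → ∀ (D : WallData b c) (κ : ℕ × ℕ),
  Nat.Coprime κ.1 κ.2 → ∀ (t : ℤ) (n : ℕ),
    ∃ r : R, iota r = PowerSeries.coeff n (D.F κ (t * gg b c κ))

end Pool.Agent.Work.MP_c41774_al.Wall

end
end

section

/-!
# Positivity of the crossing series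
-/

noncomputable section

namespace Pool.Agent.Work.MP_c41774_al.Wall

open Finset QTorus LaurentPolynomial

theorem SN_coeff_mul {f g : PowerSeries S} (hf : ∀ n, SN (PowerSeries.coeff n f))
    (hg : ∀ n, SN (PowerSeries.coeff n g)) (n : ℕ) : SN (PowerSeries.coeff n (f * g)) := by
  rw [PowerSeries.coeff_mul]
  exact SN.sum fun i _ => (hf _).mul (hg _)

theorem SN_coeff_one (n : ℕ) : SN (PowerSeries.coeff n (1 : PowerSeries S)) := by
  rw [PowerSeries.coeff_one]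
  by_cases h : n = 0
  · rw [if_pos h]; exact SN_one
  · rw [if_neg h]; exact SN_zero

theorem SN_coeff_prod {F : ℕ → PowerSeries S} (hF : ∀ i n, SN (PowerSeries.coeff n (F i)))
    (t n : ℕ) : SN (PowerSeries.coeff n (∏ i ∈ Finset.range t, F i)) := by
  induction t generalizing n with
  | zero => rw [Finset.prod_range_zero]; exact SN_coeff_one n
  | succ t ih =>
    rw [Finset.prod_range_succ]
    exact SN_coeff_mul ih (hF t) n

theorem SN_coeff_rescale {f : PowerSeries S} (hf : ∀ n, SN (PowerSeries.coeff n f)) (s : ℤ)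
    (n : ℕ) : SN (PowerSeries.coeff n (PowerSeries.rescale (w s) f)) := by
  rw [PowerSeries.coeff_rescale, w_pow]
  exact (SN_w _).mul (hf n)

theorem pr_Fpos (h : S_crs) : S_Fpos := by
  intro b c D κ hκ t n
  obtain ⟨f, hf, hfe⟩ := D.pos κ hκ
  obtain ⟨-, -, -, -, hlast⟩ := h (D.M κ) (D.const κ hκ)
  have h1 := hlast (gg b c κ) f hfe t
  show SN (PowerSeries.coeff n (crs (D.M κ) ((t : ℤ) * gg b c κ)))
  rw [h1]
  exact SN_coeff_prod (fun i m => SN_coeff_rescale hf _ m) t n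

end Pool.Agent.Work.MP_c41774_al.Wall

end
end

section

/-!
# Crossing series of the two initial walls
-/

noncomputable section

namespace Pool.Agent.Work.MP_c41774_al.Wall

open Finset QTorus LaurentPolynomial

theorem Fxy_resc (g : ℤ) :
    PowerSeries.rescale (w g) (1 + PowerSeries.X : PowerSeries S) =
      PowerSeries.map iota (Lin (T g)) := by
  rw [Lin, map_add, map_add, map_one, map_one, map_mul, PowerSeries.map_C, PowerSeries.map_X,
    iota_T, PowerSeries.rescale_X]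

theorem Fxy_P (h : S_crs) (m : PowerSeries S) (hm : PowerSeries.constantCoeff m = 1) (g : ℤ)
    (he : PowerSeries.rescale (w (-g)) m =
      (1 + PowerSeries.X) * PowerSeries.rescale (w g) m) (t : ℕ) :
    crs m ((t : ℤ) * g) = PowerSeries.map iota (P g t) := by
  obtain ⟨-, -, -, -, h5⟩ := h m hm
  rw [h5 g _ he t, P_eq_prod, map_prod, ← Finset.prod_range_reflect]
  refine Finset.prod_congr rfl fun i hi => ?_
  rw [Finset.mem_range] at hi
  rw [Fxy_resc]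
  congr 3
  have : ((t - 1 - i : ℕ) : ℤ) = (t : ℤ) - 1 - i := by omega
  rw [this]; ring

theorem Fxy_Pinv (h : S_crs) (m : PowerSeries S) (hm : PowerSeries.constantCoeff m = 1) (g : ℤ)
    (he : PowerSeries.rescale (w (-g)) m =
      (1 + PowerSeries.X) * PowerSeries.rescale (w g) m) (t : ℕ) :
    crs m (-((t : ℤ) * g)) = PowerSeries.map iota (Pinv g t) := by
  have h1 := Fxy_P h m hm g he t
  obtain ⟨-, -, h3, -, -⟩ := h m hm
  have h4 := h3 ((t : ℤ) * g)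
  have h5 : PowerSeries.map iota (P g t) * PowerSeries.map iota (Pinv g t) = 1 := by
    rw [← map_mul, P_mul_Pinv, map_one]
  rw [h1] at h4
  refine left_inv_eq_right_inv ?_ h5
  rw [mul_comm]; exact h4

theorem pr_Fxy (h : S_crs) : S_Fxy := by
  intro b c D t
  have hx := D.const (1, 0) (by simp)
  have hy := D.const (0, 1) (by simp)
  exact ⟨Fxy_P h _ hx b D.ex t, Fxy_Pinv h _ hx b D.ex t, Fxy_P h _ hy c D.ey t,
    Fxy_Pinv h _ hy c D.ey t⟩

end Pool.Agent.Work.MP_c41774_al.Wall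

end
end

section

/-!
# Item chartSys: the expansions of an element in all charts form a chart system
-/

noncomputable section

namespace Pool.Agent.Work.MP_c41774_al.Wall

open Finset QTorus LaurentPolynomial

theorem chartSys_lat_bd {b c : ℕ} {x : CT} (h : Lat b c 0 x) : Bd 0 x := by
  intro m hm
  obtain ⟨κ, hκ⟩ := h m hm
  rw [hκ, sub_zero, kk_fst, kk_snd]
  exact ⟨by positivity, by positivity⟩

theorem chartSys_ser_zero {b c : ℕ} (hb : 0 < b) (hc : 0 < c) (φ : ℕ × ℕ → S) :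
    ser b c φ 0 = φ 0 := by
  have h := ser_kk hb hc φ 0
  have e : kk (b : ℤ) c 0 = 0 := by
    refine Prod.ext ?_ ?_
    · rw [kk_fst]; simp
    · rw [kk_snd]; simp
  rwa [e] at h

theorem chartSys_unit {b c : ℕ} (hb : 0 < b) (hc : 0 < c) (hU : S_latUnit) {x : CT}
    (hx : Lat b c 0 x) (h0 : x 0 = 1) :
    IsUnit x ∧ Bd 0 (((unitOf x)⁻¹ : CTˣ) : CT) := by
  obtain ⟨y, hy, -, hxy, hyx⟩ := hU b c hb hc x hx h0
  have hu : IsUnit x := ⟨⟨x, y, hxy, hyx⟩, rfl⟩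
  refine ⟨hu, ?_⟩
  have hv : (((unitOf x)⁻¹ : CTˣ) : CT) = y := by
    have h1 : (unitOf x : CT) * y = 1 := by rw [unitOf_val hu]; exact hxy
    calc (((unitOf x)⁻¹ : CTˣ) : CT) = (((unitOf x)⁻¹ : CTˣ) : CT) * ((unitOf x : CT) * y) := by
          rw [h1, mul_one]
      _ = y := by rw [← mul_assoc, Units.inv_mul, one_mul]
  rw [hv]
  exact chartSys_lat_bd hy

theorem chartSys_conj (u g h : CTˣ) (x : CT) (hgh : u * h = g) :
    (u : CT) * ((h : CT) * x * ((h⁻¹ : CTˣ) : CT)) = ((g : CT) * x * ((g⁻¹ : CTˣ) : CT)) * u := by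
  have e : h⁻¹ = g⁻¹ * u := by rw [← hgh]; group
  rw [e, ← hgh, Units.val_mul, Units.val_mul]
  simp only [mul_assoc]

theorem pr_chartSys (hmul : S_serMul) (hU : S_latUnit) (hdir : S_dir) (hcross : S_cross)
    (htr : S_trunc) (hg : S_g) : S_chartSys := by
  intro b c hb hc D x N hx
  obtain ⟨hg0, hgC⟩ := hg b c hb hc D
  -- units
  have hlo : ∀ κ : ℕ × ℕ, Nat.Coprime κ.1 κ.2 →
      IsUnit (ser b c (D.lo κ)) ∧ Bd 0 (((unitOf (ser b c (D.lo κ)))⁻¹ : CTˣ) : CT) :=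
    fun κ hκ => chartSys_unit hb hc hU (ser_lat _)
      ((chartSys_ser_zero hb hc _).trans (hg0 κ hκ).1)
  have hhi : ∀ κ : ℕ × ℕ, Nat.Coprime κ.1 κ.2 →
      IsUnit (ser b c (D.hi κ)) ∧ Bd 0 (((unitOf (ser b c (D.hi κ)))⁻¹ : CTˣ) : CT) :=
    fun κ hκ => chartSys_unit hb hc hU (ser_lat _)
      ((chartSys_ser_zero hb hc _).trans (hg0 κ hκ).2)
  have hne : ∀ κ : ℕ × ℕ, Nat.Coprime κ.1 κ.2 → κ ≠ 0 := by
    rintro κ hκ rfl
    simp at hκ
  have hdu : ∀ κ : ℕ × ℕ, Nat.Coprime κ.1 κ.2 →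
      IsUnit (dir b c κ (D.M κ)) :=
    fun κ hκ => (chartSys_unit hb hc hU (ser_lat _)
      (((hdir b c hb hc κ (hne κ hκ)).2.2 (D.M κ)).trans (D.const κ hκ))).1
  have hbd : ∀ C : Chart, C.Valid → Bd N (D.T C x) := by
    intro C hC
    obtain ⟨h1, h2, -, -⟩ := hgC C hC
    have := CT.bd_mul (CT.bd_mul (chartSys_lat_bd h1) hx) (chartSys_lat_bd h2)
    rw [zero_add, add_zero] at this
    exact this
  have c10 : Nat.Coprime (1, 0).1 (1, 0).2 := by simp
  have c01 : Nat.Coprime (0, 1).1 (0, 1).2 := by simp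
  -- the relation between `lo` and `hi`
  have hrel : ∀ κ : ℕ × ℕ, Nat.Coprime κ.1 κ.2 →
      unitOf (dir b c κ (D.M κ)) * D.g (.hi κ) = D.g (.lo κ) := by
    intro κ hκ
    have e1 : ser b c (D.hi κ) = ser b c (D.lo κ) * dir b c κ (D.M κ) := by
      rw [dir, hmul b c hb hc]
      congr 1
      funext κ'
      exact D.cross κ hκ κ'
    have e2 : unitOf (ser b c (D.hi κ)) =
        unitOf (ser b c (D.lo κ)) * unitOf (dir b c κ (D.M κ)) := by
      refine Units.ext ?_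
      rw [Units.val_mul, unitOf_val (hhi κ hκ).1, unitOf_val (hlo κ hκ).1,
        unitOf_val (hdu κ hκ), e1]
    show _ * ((unitOf (ser b c (D.hi κ)))⁻¹ * unitOf (dir b c (1, 0) (D.M (1, 0)))) =
      (unitOf (ser b c (D.lo κ)))⁻¹ * unitOf (dir b c (1, 0) (D.M (1, 0)))
    rw [e2]
    group
  have hcr : ∀ κ : ℕ × ℕ, Nat.Coprime κ.1 κ.2 →
      dir b c κ (D.M κ) * D.T (.hi κ) x = D.T (.lo κ) x * dir b c κ (D.M κ) := by
    intro κ hκ
    have := chartSys_conj (unitOf (dir b c κ (D.M κ))) (D.g (.lo κ)) (D.g (.hi κ)) x (hrel κ hκ)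
    rw [unitOf_val (hdu κ hκ)] at this
    exact this
  have hone : D.T .one x = x := by
    show ((1 : CTˣ) : CT) * x * (((1 : CTˣ)⁻¹ : CTˣ) : CT) = x
    rw [inv_one, Units.val_one, one_mul, mul_one]
  have hser1 : ser b c (D.lo (0, 1)) = 1 := by
    refine CT.ext fun m => ?_
    rw [CT.one_apply]
    by_cases hm : ser b c (D.lo (0, 1)) m = 0
    · rw [hm]
      by_cases h0 : m = 0
      · exfalso
        rw [h0, chartSys_ser_zero hb hc, D.lo_zero, if_pos rfl] at hm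
        exact one_ne_zero hm
      · rw [if_neg h0]
    · obtain ⟨κ, hκ⟩ := ser_lat (b := b) (c := c) (D.lo (0, 1)) m hm
      rw [sub_zero] at hκ
      subst hκ
      rw [ser_kk hb hc, D.lo_zero] at hm ⊢
      by_cases h0 : κ = 0
      · subst h0
        rw [if_pos rfl, if_pos]
        refine Prod.ext ?_ ?_
        · rw [kk_fst]; simp
        · rw [kk_snd]; simp
      · rw [if_neg h0] at hm
        exact absurd rfl hm
  have hg01 : D.g (.lo (0, 1)) = unitOf (dir b c (1, 0) (D.M (1, 0))) := by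
    show (unitOf (ser b c (D.lo (0, 1))))⁻¹ * unitOf (dir b c (1, 0) (D.M (1, 0))) = _
    have : unitOf (ser b c (D.lo (0, 1))) = 1 := by
      refine Units.ext ?_
      rw [hser1, unitOf_val isUnit_one]; rfl
    rw [this, inv_one, one_mul]
  have hcx : dir b c (1, 0) (D.M (1, 0)) * D.T .one x =
      D.T (.lo (0, 1)) x * dir b c (1, 0) (D.M (1, 0)) := by
    have := chartSys_conj (unitOf (dir b c (1, 0) (D.M (1, 0)))) (D.g (.lo (0, 1))) (D.g .one) x
      (by rw [hg01]; exact mul_one _)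
    rw [unitOf_val (hdu (1, 0) c10)] at this
    exact this
  have hg10 : unitOf (dir b c (0, 1) (D.M (0, 1))) * D.g (.hi (1, 0)) = D.g .one := by
    have e1 : ser b c (D.hi (1, 0)) =
        dir b c (1, 0) (D.M (1, 0)) * dir b c (0, 1) (D.M (0, 1)) := by
      rw [dir, dir, hmul b c hb hc]
      congr 1
      funext κ'
      exact D.hi_inf κ'
    have e2 : unitOf (ser b c (D.hi (1, 0))) =
        unitOf (dir b c (1, 0) (D.M (1, 0))) * unitOf (dir b c (0, 1) (D.M (0, 1))) := by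
      refine Units.ext ?_
      rw [Units.val_mul, unitOf_val (hhi _ c10).1, unitOf_val (hdu _ c10),
        unitOf_val (hdu _ c01), e1]
    show _ * ((unitOf (ser b c (D.hi (1, 0))))⁻¹ * unitOf (dir b c (1, 0) (D.M (1, 0)))) = 1
    rw [e2]
    group
  have hcy : dir b c (0, 1) (D.M (0, 1)) * D.T (.hi (1, 0)) x =
      D.T .one x * dir b c (0, 1) (D.M (0, 1)) := by
    have := chartSys_conj (unitOf (dir b c (0, 1) (D.M (0, 1)))) (D.g .one) (D.g (.hi (1, 0))) x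
      hg10
    rw [unitOf_val (hdu (0, 1) c01)] at this
    exact this
  refine ⟨hbd, ?_, ?_, ?_, ?_, ?_, ?_, ?_⟩
  · intro κ hκ l
    exact (hcross b c hb hc κ (hne κ hκ) (D.M κ) (D.const κ hκ) N _ _ (hbd (.hi κ) hκ)
      (hbd (.lo κ) hκ) (hcr κ hκ)).2 l
  · intro κ hκ l
    exact (hcross b c hb hc κ (hne κ hκ) (D.M κ) (D.const κ hκ) N _ _ (hbd (.hi κ) hκ)
      (hbd (.lo κ) hκ) (hcr κ hκ)).1 l
  · intro l
    exact (hcross b c hb hc (1, 0) (hne _ c10) (D.M (1, 0)) (D.const _ c10) N _ _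
      (hbd .one trivial) (hbd (.lo (0, 1)) c01) hcx).1 l
  · intro l
    exact (hcross b c hb hc (1, 0) (hne _ c10) (D.M (1, 0)) (D.const _ c10) N _ _
      (hbd .one trivial) (hbd (.lo (0, 1)) c01) hcx).2 l
  · intro l
    exact (hcross b c hb hc (0, 1) (hne _ c01) (D.M (0, 1)) (D.const _ c01) N _ _
      (hbd (.hi (1, 0)) c10) (hbd .one trivial) hcy).2 l
  · intro l
    exact (hcross b c hb hc (0, 1) (hne _ c01) (D.M (0, 1)) (D.const _ c01) N _ _
      (hbd (.hi (1, 0)) c10) (hbd .one trivial) hcy).1 l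
  · intro l
    refine ⟨(l.1 - N).toNat + (l.2 - N).toNat, fun κ₁ κ₂ h1 h2 hs hn => ?_⟩
    obtain ⟨ht1, ht2⟩ := htr
    have hE : Bd 0 (unitOf (dir b c (1, 0) (D.M (1, 0))) : CT) := by
      rw [unitOf_val (hdu _ c10)]
      exact chartSys_lat_bd (ser_lat _)
    -- the two series agree
    have e0 : Teq (l.1 - N, l.2 - N) (ser b c (D.hi κ₁)) (ser b c (D.lo κ₂)) := by
      intro m hm
      rw [Prod.le_def] at hm
      simp only at hm
      by_cases hex : ∃ κ : ℕ × ℕ, m = kk b c κ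
      · obtain ⟨κ, rfl⟩ := hex
        rw [ser_kk hb hc, ser_kk hb hc]
        rw [kk_fst, kk_snd] at hm
        have hb' : (1 : ℤ) ≤ b := by exact_mod_cast hb
        have hc' : (1 : ℤ) ≤ c := by exact_mod_cast hc
        have i1 : (κ.1 : ℤ) ≤ l.1 - N := by nlinarith [hm.1]
        have i2 : (κ.2 : ℤ) ≤ l.2 - N := by nlinarith [hm.2]
        refine D.next κ₁ κ₂ κ h1 h2 hs fun κ' hκ' => hn κ' (hκ'.trans ?_)
        rw [Prod.le_def]
        simp only
        omega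
      · have z : ∀ φ : ℕ × ℕ → S, ser b c φ m = 0 := by
          intro φ
          by_contra hz
          obtain ⟨κ, hκ⟩ := ser_lat (b := b) (c := c) φ m hz
          exact hex ⟨κ, by rw [hκ, sub_zero]⟩
        rw [z, z]
    have e1 : Teq (l.1 - N, l.2 - N) (((unitOf (ser b c (D.hi κ₁)))⁻¹ : CTˣ) : CT)
        (((unitOf (ser b c (D.lo κ₂)))⁻¹ : CTˣ) : CT) := by
      refine ht2 _ _ _ ?_ ?_ (hhi κ₁ h1).2 (hlo κ₂ h2).2 ?_
      · rw [unitOf_val (hhi κ₁ h1).1]; exact chartSys_lat_bd (ser_lat _)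
      · rw [unitOf_val (hlo κ₂ h2).1]; exact chartSys_lat_bd (ser_lat _)
      · rw [unitOf_val (hhi κ₁ h1).1, unitOf_val (hlo κ₂ h2).1]; exact e0
    have e2 : Teq (l.1 - N, l.2 - N) (D.g (.hi κ₁) : CT) (D.g (.lo κ₂) : CT) := by
      show Teq _ (((unitOf (ser b c (D.hi κ₁)))⁻¹ * unitOf (dir b c (1, 0) (D.M (1, 0))) :
        CTˣ) : CT) (((unitOf (ser b c (D.lo κ₂)))⁻¹ * unitOf (dir b c (1, 0) (D.M (1, 0))) :
        CTˣ) : CT)
      rw [Units.val_mul, Units.val_mul]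
      refine ht1 0 0 _ _ _ _ _ (hhi κ₁ h1).2 (hlo κ₂ h2).2 hE hE ?_ fun m _ => rfl
      simpa using e1
    obtain ⟨a1, a2, -, -⟩ := hgC (.hi κ₁) h1
    obtain ⟨b1, b2, -, -⟩ := hgC (.lo κ₂) h2
    have e3 : Teq (l.1 - N, l.2 - N) (((D.g (.hi κ₁))⁻¹ : CTˣ) : CT)
        (((D.g (.lo κ₂))⁻¹ : CTˣ) : CT) :=
      ht2 _ _ _ (chartSys_lat_bd a1) (chartSys_lat_bd b1) (chartSys_lat_bd a2)
        (chartSys_lat_bd b2) e2
    have e4 : Teq l ((D.g (.hi κ₁) : CT) * x) ((D.g (.lo κ₂) : CT) * x) := by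
      refine ht1 0 N _ _ _ _ _ (chartSys_lat_bd a1) (chartSys_lat_bd b1) hx hx ?_ fun m _ => rfl
      exact e2
    have f1 : Bd N ((D.g (.hi κ₁) : CT) * x).f := by
      have := CT.bd_mul (chartSys_lat_bd a1) hx
      rwa [zero_add] at this
    have f2 : Bd N ((D.g (.lo κ₂) : CT) * x).f := by
      have := CT.bd_mul (chartSys_lat_bd b1) hx
      rwa [zero_add] at this
    have e5 : Teq l (D.T (.hi κ₁) x) (D.T (.lo κ₂) x) := by
      refine ht1 N 0 _ _ _ _ _ f1 f2 (chartSys_lat_bd a2) (chartSys_lat_bd b2) ?_ e3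
      simpa using e4
    exact e5 l le_rfl

end Pool.Agent.Work.MP_c41774_al.Wall

end
end

section

/-!
# Item cross: the wall crossing formula
-/

noncomputable section

namespace Pool.Agent.Work.MP_c41774_al.Wall

open Finset QTorus LaurentPolynomial

/-! ### The direction series at lattice points -/

theorem cross_fst (j : ℕ) (k : ℤ × ℤ) : (j • k).1 = j * k.1 := by
  rw [Prod.smul_fst, nsmul_eq_mul]

theorem cross_snd (j : ℕ) (k : ℤ × ℤ) : (j • k).2 = j * k.2 := by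
  rw [Prod.smul_snd, nsmul_eq_mul]

theorem cross_pos {κ₀ : ℕ × ℕ} (h : κ₀ ≠ 0) : 1 ≤ κ₀.1 + κ₀.2 := by
  by_contra hcon
  apply h
  ext
  · simp only [Prod.fst_zero]; omega
  · simp only [Prod.snd_zero]; omega

theorem cross_inj {κ₀ : ℕ × ℕ} (h : κ₀ ≠ 0) {i j : ℕ}
    (hij : ((i * κ₀.1, i * κ₀.2) : ℕ × ℕ) = (j * κ₀.1, j * κ₀.2)) : i = j := by
  have h1 : i * κ₀.1 = j * κ₀.1 := congrArg Prod.fst hij
  have h2 : i * κ₀.2 = j * κ₀.2 := congrArg Prod.snd hij
  have h3 := cross_pos h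
  by_cases h4 : κ₀.1 = 0
  · exact Nat.eq_of_mul_eq_mul_right (by omega) h2
  · exact Nat.eq_of_mul_eq_mul_right (by omega) h1

theorem cross_dirf {κ₀ : ℕ × ℕ} (h : κ₀ ≠ 0) (m : PowerSeries S) (j : ℕ) :
    dirf κ₀ m (j * κ₀.1, j * κ₀.2) = PowerSeries.coeff j m := by
  unfold dirf
  rw [Finset.sum_eq_single j]
  · exact if_pos rfl
  · intro i _ hi
    rw [if_neg]
    intro h1
    exact hi (cross_inj h h1).symm
  · intro hj
    exfalso
    apply hj
    rw [Finset.mem_range]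
    have := cross_pos h
    show j < j * κ₀.1 + j * κ₀.2 + 1
    nlinarith

theorem cross_dirf_ne {κ₀ κ : ℕ × ℕ} {m : PowerSeries S} (h : dirf κ₀ m κ ≠ 0) :
    ∃ j : ℕ, κ = (j * κ₀.1, j * κ₀.2) := by
  by_contra hcon
  push Not at hcon
  apply h
  unfold dirf
  exact Finset.sum_eq_zero fun j _ => if_neg (hcon j)

theorem cross_kk (b c : ℕ) (κ₀ : ℕ × ℕ) (j : ℕ) :
    kk (b : ℤ) c (j * κ₀.1, j * κ₀.2) = (j : ℕ) • kk (b : ℤ) c κ₀ := by
  ext
  · rw [cross_fst, kk_fst, kk_fst]; push_cast; ring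
  · rw [cross_snd, kk_snd, kk_snd]; push_cast; ring

theorem cross_dir {b c : ℕ} (hb : 0 < b) (hc : 0 < c) {κ₀ : ℕ × ℕ} (h : κ₀ ≠ 0)
    (m : PowerSeries S) (j : ℕ) :
    dir b c κ₀ m (j • kk (b : ℤ) c κ₀) = PowerSeries.coeff j m := by
  rw [← cross_kk]
  unfold dir
  rw [ser_kk hb hc, cross_dirf h]

theorem cross_dir_ne {b c : ℕ} (hb : 0 < b) (hc : 0 < c) {κ₀ : ℕ × ℕ}
    {m : PowerSeries S} {l : ℤ × ℤ} (hl : dir b c κ₀ m l ≠ 0) :
    ∃ j : ℕ, l = j • kk (b : ℤ) c κ₀ := by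
  obtain ⟨κ, hκ⟩ := ser_lat (b := b) (c := c) (dirf κ₀ m) l hl
  rw [sub_zero] at hκ
  rw [hκ] at hl
  unfold dir at hl
  rw [ser_kk hb hc] at hl
  obtain ⟨j, hj⟩ := cross_dirf_ne hl
  exact ⟨j, by rw [hκ, hj, cross_kk]⟩

/-! ### Sums along a direction -/

/-- terms beyond the range vanish -/
theorem cross_van {k : ℤ × ℤ} (_h1 : 0 ≤ k.1) (_h2 : 0 ≤ k.2) (h3 : 1 ≤ k.1 + k.2) {N : ℤ}
    {y : ℤ × ℤ → S} (hy : Bd N y) {l : ℤ × ℤ} {j : ℕ}
    (hj : (l.1 + l.2 - 2 * N + 1).toNat ≤ j) : y (l - j • k) = 0 := by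
  by_contra hne
  have h4 := hy _ hne
  simp only [Prod.fst_sub, Prod.snd_sub, cross_fst, cross_snd] at h4
  have h5 : (j : ℤ) * 1 ≤ j * (k.1 + k.2) := mul_le_mul_of_nonneg_left h3 (by positivity)
  have h6 : (l.1 + l.2 - 2 * N + 1) ≤ (j : ℤ) := by
    have := Int.self_le_toNat (l.1 + l.2 - 2 * N + 1)
    have h7 : ((l.1 + l.2 - 2 * N + 1).toNat : ℤ) ≤ (j : ℤ) := by exact_mod_cast hj
    omega
  nlinarith

theorem cross_nonzero {k : ℤ × ℤ} (h3 : 1 ≤ k.1 + k.2) {i j : ℕ} (h : i • k = j • k) :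
    i = j := by
  have e1 := congrArg Prod.fst h
  have e2 := congrArg Prod.snd h
  simp only [cross_fst, cross_snd] at e1 e2
  have e3 : ((i : ℤ) - j) * (k.1 + k.2) = 0 := by linear_combination e1 + e2
  rcases mul_eq_zero.mp e3 with h4 | h4
  · have : (i : ℤ) = j := by omega
    exact_mod_cast this
  · omega

theorem cross_xs {k : ℤ × ℤ} (h1 : 0 ≤ k.1) (h2 : 0 ≤ k.2) (h3 : 1 ≤ k.1 + k.2) {N : ℤ}
    {y : ℤ × ℤ → S} (hy : Bd N y) (F : PowerSeries S) (l : ℤ × ℤ) {J : ℕ}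
    (hJ : (l.1 + l.2 - 2 * N + 1).toNat ≤ J) :
    xs N F k y l = ∑ j ∈ Finset.range J, PowerSeries.coeff j F * y (l - j • k) := by
  unfold xs
  refine Finset.sum_subset (Finset.range_subset_range.mpr hJ) fun j _ hj => ?_
  rw [Finset.mem_range, not_lt] at hj
  rw [cross_van h1 h2 h3 hy hj, mul_zero]

theorem cross_left {b c : ℕ} (hb : 0 < b) (hc : 0 < c) {κ₀ : ℕ × ℕ} (h : κ₀ ≠ 0)
    {k : ℤ × ℤ} (hk : k = kk (b : ℤ) c κ₀)
    (h1 : 0 ≤ k.1) (h2 : 0 ≤ k.2) (h3 : 1 ≤ k.1 + k.2) (m : PowerSeries S) {N : ℤ} {y : CT}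
    (hy : Bd N y) (l : ℤ × ℤ) {J : ℕ} (hJ : (l.1 + l.2 - 2 * N + 1).toNat ≤ J) :
    (dir b c κ₀ m * y) l =
      ∑ j ∈ Finset.range J, w (Lam (j • k) l) * (PowerSeries.coeff j m * y (l - j • k)) := by
  rw [CT.mul_apply', CT.mulf,
    finsum_eq_sum_of_support_subset (s := (Finset.range J).image fun j : ℕ => j • k)]
  · rw [Finset.sum_image (fun i _ j _ hij => cross_nonzero h3 hij)]
    refine Finset.sum_congr rfl fun j _ => ?_
    rw [hk, cross_dir hb hc h]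
  · intro i hi
    rw [Function.mem_support] at hi
    have e1 : dir b c κ₀ m i ≠ 0 := left_ne_zero_of_mul (right_ne_zero_of_mul hi)
    have e2 : y (l - i) ≠ 0 := right_ne_zero_of_mul (right_ne_zero_of_mul hi)
    obtain ⟨j, hj⟩ := cross_dir_ne hb hc e1
    rw [← hk] at hj
    rw [Finset.mem_coe, Finset.mem_image]
    refine ⟨j, ?_, hj.symm⟩
    rw [Finset.mem_range]
    by_contra hcon
    rw [not_lt] at hcon
    apply e2
    rw [hj]
    exact cross_van h1 h2 h3 hy (hJ.trans hcon)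

theorem cross_right {b c : ℕ} (hb : 0 < b) (hc : 0 < c) {κ₀ : ℕ × ℕ} (h : κ₀ ≠ 0)
    {k : ℤ × ℤ} (hk : k = kk (b : ℤ) c κ₀)
    (h1 : 0 ≤ k.1) (h2 : 0 ≤ k.2) (h3 : 1 ≤ k.1 + k.2) (m : PowerSeries S) {N : ℤ} {y : CT}
    (hy : Bd N y) (l : ℤ × ℤ) {J : ℕ} (hJ : (l.1 + l.2 - 2 * N + 1).toNat ≤ J) :
    (y * dir b c κ₀ m) l =
      ∑ j ∈ Finset.range J,
        w (Lam (l - j • k) l) * (y (l - j • k) * PowerSeries.coeff j m) := by
  rw [CT.mul_apply', CT.mulf,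
    finsum_eq_sum_of_support_subset (s := (Finset.range J).image fun j : ℕ => l - j • k)]
  · rw [Finset.sum_image (fun i _ j _ hij => cross_nonzero h3 (sub_right_injective hij))]
    refine Finset.sum_congr rfl fun j _ => ?_
    rw [sub_sub_cancel, hk, cross_dir hb hc h]
  · intro i hi
    rw [Function.mem_support] at hi
    have e1 : dir b c κ₀ m (l - i) ≠ 0 := right_ne_zero_of_mul (right_ne_zero_of_mul hi)
    have e2 : y i ≠ 0 := left_ne_zero_of_mul (right_ne_zero_of_mul hi)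
    obtain ⟨j, hj⟩ := cross_dir_ne hb hc e1
    rw [← hk] at hj
    have e3 : l - j • k = i := by rw [← hj]; abel
    rw [Finset.mem_coe, Finset.mem_image]
    refine ⟨j, ?_, e3⟩
    rw [Finset.mem_range]
    by_contra hcon
    rw [not_lt] at hcon
    apply e2
    rw [← e3]
    exact cross_van h1 h2 h3 hy (hJ.trans hcon)

/-! ### The crossing series -/

theorem cross_const {m : PowerSeries S} (hm : PowerSeries.constantCoeff m = 1) (a : S) :
    PowerSeries.constantCoeff (PowerSeries.rescale a m) = ((1 : Sˣ) : S) := by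
  rw [← PowerSeries.coeff_zero_eq_constantCoeff_apply, PowerSeries.coeff_rescale, pow_zero,
    one_mul, PowerSeries.coeff_zero_eq_constantCoeff_apply, hm, Units.val_one]

theorem cross_crs {m : PowerSeries S} (hm : PowerSeries.constantCoeff m = 1) (lam : ℤ) :
    PowerSeries.rescale (w lam) m * crs m lam = PowerSeries.rescale (w (-lam)) m := by
  unfold crs
  rw [mul_left_comm, PowerSeries.mul_invOfUnit _ _ (cross_const hm _), mul_one]

theorem cross_crs_inv {m m' : PowerSeries S} (hm : PowerSeries.constantCoeff m = 1)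
    (hm' : PowerSeries.constantCoeff m' = 1) (h : m * m' = 1) (lam : ℤ) :
    crs m' lam = crs m (-lam) := by
  have e : ∀ a : S, PowerSeries.rescale a m * PowerSeries.rescale a m' = 1 := fun a => by
    rw [← map_mul, h, map_one]
  have e1 : PowerSeries.invOfUnit (PowerSeries.rescale (w lam) m') 1 =
      PowerSeries.rescale (w lam) m := by
    calc _ = (PowerSeries.rescale (w lam) m * PowerSeries.rescale (w lam) m') *
        PowerSeries.invOfUnit (PowerSeries.rescale (w lam) m') 1 := by rw [e, one_mul]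
      _ = PowerSeries.rescale (w lam) m := by
        rw [mul_assoc, PowerSeries.mul_invOfUnit _ _ (cross_const hm' _), mul_one]
  have e2 : PowerSeries.invOfUnit (PowerSeries.rescale (w (-lam)) m) 1 =
      PowerSeries.rescale (w (-lam)) m' := by
    calc _ = (PowerSeries.rescale (w (-lam)) m' * PowerSeries.rescale (w (-lam)) m) *
        PowerSeries.invOfUnit (PowerSeries.rescale (w (-lam)) m) 1 := by
          rw [mul_comm (PowerSeries.rescale (w (-lam)) m'), e, one_mul]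
      _ = PowerSeries.rescale (w (-lam)) m' := by
        rw [mul_assoc, PowerSeries.mul_invOfUnit _ _ (cross_const hm _), mul_one]
  unfold crs
  rw [neg_neg, e1, e2, mul_comm]

/-! ### The crossing formula -/

/-- the crossed element -/
def cross_yy (N : ℤ) (k : ℤ × ℤ) (h1 : 0 ≤ k.1) (h2 : 0 ≤ k.2) (m : PowerSeries S) (y : CT)
    (hy : Bd N y) : CT :=
  ⟨fun l => xs N (crs m (Lam l k)) k y l, N, fun l hl => by
    by_contra hcon
    apply hl
    show xs N (crs m (Lam l k)) k y l = 0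
    unfold xs
    refine Finset.sum_eq_zero fun j _ => ?_
    have h4 : 0 ≤ (j : ℤ) * k.1 := by positivity
    have h5 : 0 ≤ (j : ℤ) * k.2 := by positivity
    rw [hy.eq_zero, mul_zero]
    simp only [Prod.fst_sub, Prod.snd_sub, cross_fst, cross_snd]
    omega⟩

theorem cross_yy_apply (N : ℤ) (k : ℤ × ℤ) (h1 : 0 ≤ k.1) (h2 : 0 ≤ k.2) (m : PowerSeries S)
    (y : CT) (hy : Bd N y) (l : ℤ × ℤ) :
    cross_yy N k h1 h2 m y hy l = xs N (crs m (Lam l k)) k y l := rfl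

theorem cross_yy_bd (N : ℤ) (k : ℤ × ℤ) (h1 : 0 ≤ k.1) (h2 : 0 ≤ k.2) (m : PowerSeries S)
    (y : CT) (hy : Bd N y) : Bd N (cross_yy N k h1 h2 m y hy) := fun l hl => by
  by_contra hcon
  apply hl
  rw [cross_yy_apply]
  unfold xs
  refine Finset.sum_eq_zero fun j _ => ?_
  have h4 : 0 ≤ (j : ℤ) * k.1 := by positivity
  have h5 : 0 ≤ (j : ℤ) * k.2 := by positivity
  rw [hy.eq_zero, mul_zero]
  simp only [Prod.fst_sub, Prod.snd_sub, cross_fst, cross_snd]
  omega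

theorem cross_key {b c : ℕ} (hb : 0 < b) (hc : 0 < c) {κ₀ : ℕ × ℕ} (h : κ₀ ≠ 0)
    {k : ℤ × ℤ} (hk : k = kk (b : ℤ) c κ₀)
    (h1 : 0 ≤ k.1) (h2 : 0 ≤ k.2) (h3 : 1 ≤ k.1 + k.2) {m : PowerSeries S}
    (hm : PowerSeries.constantCoeff m = 1) {N : ℤ} {y : CT} (hy : Bd N y) :
    cross_yy N k h1 h2 m y hy * dir b c κ₀ m = dir b c κ₀ m * y := by
  refine CT.ext fun l => ?_
  have hJ := le_refl (l.1 + l.2 - 2 * N + 1).toNat
  rw [cross_left hb hc h hk h1 h2 h3 m hy l hJ,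
    cross_right hb hc h hk h1 h2 h3 m (cross_yy_bd N k h1 h2 m y hy) l hJ]
  generalize hJe : (l.1 + l.2 - 2 * N + 1).toNat = J at hJ
  have a1 : ∀ i ∈ Finset.range J,
      w (Lam (l - i • k) l) * (cross_yy N k h1 h2 m y hy (l - i • k) * PowerSeries.coeff i m) =
        ∑ j ∈ Finset.range (J - i),
          PowerSeries.coeff i (PowerSeries.rescale (w (Lam l k)) m) *
            (PowerSeries.coeff j (crs m (Lam l k)) * y (l - (i + j) • k)) := by
    intro i _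
    have e1 : Lam (l - i • k) k = Lam l k := by
      simp only [Lam, Prod.fst_sub, Prod.snd_sub, cross_fst, cross_snd]
      ring
    have e2 : Lam (l - i • k) l = i * Lam l k := by
      simp only [Lam, Prod.fst_sub, Prod.snd_sub, cross_fst, cross_snd]
      ring
    have e3 : ((l - i • k).1 + (l - i • k).2 - 2 * N + 1).toNat ≤ J - i := by
      simp only [Prod.fst_sub, Prod.snd_sub, cross_fst, cross_snd]
      have h5 : (i : ℤ) * 1 ≤ i * (k.1 + k.2) := mul_le_mul_of_nonneg_left h3 (by positivity)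
      have h6 : l.1 - (i : ℤ) * k.1 + (l.2 - (i : ℤ) * k.2) - 2 * N + 1 ≤
          (l.1 + l.2 - 2 * N + 1) - i := by nlinarith
      have h7 := Int.toNat_le_toNat h6
      have h8 : ((l.1 + l.2 - 2 * N + 1) - (i : ℤ)).toNat = J - i := by omega
      omega
    rw [cross_yy_apply, e1, e2, cross_xs h1 h2 h3 hy _ _ e3, ← w_pow, Finset.sum_mul,
      Finset.mul_sum]
    refine Finset.sum_congr rfl fun j _ => ?_
    have e4 : l - i • k - j • k = l - (i + j) • k := by rw [add_smul]; abel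
    rw [e4, PowerSeries.coeff_rescale]
    ring
  have a2 : ∀ n ∈ Finset.range J,
      w (Lam (n • k) l) * (PowerSeries.coeff n m * y (l - n • k)) =
        ∑ i ∈ Finset.range (n + 1),
          PowerSeries.coeff i (PowerSeries.rescale (w (Lam l k)) m) *
            (PowerSeries.coeff (n - i) (crs m (Lam l k)) * y (l - (i + (n - i)) • k)) := by
    intro n _
    have e1 : Lam (n • k) l = n * (-Lam l k) := by
      simp only [Lam, cross_fst, cross_snd]
      ring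
    rw [e1, ← w_pow]
    have e2 : w (-Lam l k) ^ n * (PowerSeries.coeff n m * y (l - n • k)) =
        PowerSeries.coeff n (PowerSeries.rescale (w (-Lam l k)) m) * y (l - n • k) := by
      rw [PowerSeries.coeff_rescale]; ring
    rw [e2, ← cross_crs hm, PowerSeries.coeff_mul,
      Finset.Nat.sum_antidiagonal_eq_sum_range_succ
        (fun i j => PowerSeries.coeff i (PowerSeries.rescale (w (Lam l k)) m) *
          PowerSeries.coeff j (crs m (Lam l k))), Finset.sum_mul]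
    refine Finset.sum_congr rfl fun i hi => ?_
    rw [Finset.mem_range] at hi
    have e3 : i + (n - i) = n := by omega
    rw [e3]
    ring
  rw [Finset.sum_congr rfl a1, Finset.sum_congr rfl a2]
  exact (Finset.sum_range_diag_flip J fun i j =>
    PowerSeries.coeff i (PowerSeries.rescale (w (Lam l k)) m) *
      (PowerSeries.coeff j (crs m (Lam l k)) * y (l - (i + j) • k))).symm

theorem pr_cross (h : S_dir) : S_cross := by
  intro b c hb hc κ₀ hκ₀
  obtain ⟨hmul, hone, -⟩ := h b c hb hc κ₀ hκ₀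
  have hpos := cross_pos hκ₀
  obtain ⟨k, hk⟩ : ∃ k, k = kk (b : ℤ) c κ₀ := ⟨_, rfl⟩
  have h1 : 0 ≤ k.1 := by rw [hk, kk_fst]; positivity
  have h2 : 0 ≤ k.2 := by rw [hk, kk_snd]; positivity
  have h3 : 1 ≤ k.1 + k.2 := by
    rw [hk, kk_fst, kk_snd]
    have e1 : (κ₀.1 : ℤ) ≤ b * κ₀.1 := by
      have : (1 : ℤ) ≤ b := by exact_mod_cast hb
      nlinarith [Int.natCast_nonneg κ₀.1]
    have e2 : (κ₀.2 : ℤ) ≤ c * κ₀.2 := by
      have : (1 : ℤ) ≤ c := by exact_mod_cast hc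
      nlinarith [Int.natCast_nonneg κ₀.2]
    have e3 : (1 : ℤ) ≤ (κ₀.1 : ℤ) + κ₀.2 := by exact_mod_cast hpos
    omega
  rw [← hk]
  -- the first formula, for all series with constant coefficient `1`
  have first : ∀ m m' : PowerSeries S, PowerSeries.constantCoeff m = 1 → m * m' = 1 →
      ∀ (N : ℤ) (y y' : CT), Bd N y → dir b c κ₀ m * y = y' * dir b c κ₀ m →
      ∀ l, y' l = xs N (crs m (Lam l k)) k y l := by
    intro m m' hm hmm N y y' hy he l
    have e1 := cross_key hb hc hκ₀ hk h1 h2 h3 hm hy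
    have e2 : dir b c κ₀ m * dir b c κ₀ m' = 1 := by rw [← hmul, hmm, hone]
    have e3 : y' = cross_yy N k h1 h2 m y hy := by
      calc y' = y' * (dir b c κ₀ m * dir b c κ₀ m') := by rw [e2, mul_one]
        _ = (cross_yy N k h1 h2 m y hy * dir b c κ₀ m) * dir b c κ₀ m' := by
          rw [← mul_assoc, ← he, e1]
        _ = cross_yy N k h1 h2 m y hy := by rw [mul_assoc, e2, mul_one]
    rw [e3, cross_yy_apply]
  intro m hm N y y' hy hy' he
  have hinv : m * PowerSeries.invOfUnit m 1 = 1 :=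
    PowerSeries.mul_invOfUnit _ _ (by rw [hm, Units.val_one])
  have hm' : PowerSeries.constantCoeff (PowerSeries.invOfUnit m 1) = 1 := by
    have := congrArg (PowerSeries.constantCoeff (R := S)) hinv
    rw [map_mul, hm, one_mul, map_one] at this
    exact this
  have hinv' : PowerSeries.invOfUnit m 1 * m = 1 := by rw [mul_comm]; exact hinv
  refine ⟨first m _ hm hinv N y y' hy he, fun l => ?_⟩
  have e1 : dir b c κ₀ m * dir b c κ₀ (PowerSeries.invOfUnit m 1) = 1 := by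
    rw [← hmul, hinv, hone]
  have e2 : dir b c κ₀ (PowerSeries.invOfUnit m 1) * dir b c κ₀ m = 1 := by
    rw [← hmul, hinv', hone]
  have e3 : dir b c κ₀ (PowerSeries.invOfUnit m 1) * y' =
      y * dir b c κ₀ (PowerSeries.invOfUnit m 1) := by
    calc dir b c κ₀ (PowerSeries.invOfUnit m 1) * y' =
        dir b c κ₀ (PowerSeries.invOfUnit m 1) * (y' * dir b c κ₀ m) *
          dir b c κ₀ (PowerSeries.invOfUnit m 1) := by
            rw [mul_assoc, mul_assoc, e1, mul_one]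
      _ = y * dir b c κ₀ (PowerSeries.invOfUnit m 1) := by
        rw [← he, ← mul_assoc, e2, one_mul]
  rw [first (PowerSeries.invOfUnit m 1) m hm' hinv' N y' y hy' e3 l,
    cross_crs_inv hm hm' hinv]

end Pool.Agent.Work.MP_c41774_al.Wall

end
end

section

/-!
# Crossing series
-/

noncomputable section

namespace Pool.Agent.Work.MP_c41774_al.Wall

open Finset QTorus LaurentPolynomial

theorem crs_const_rescale (a : S) (m : PowerSeries S) (hm : PowerSeries.constantCoeff m = 1) :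
    PowerSeries.constantCoeff (PowerSeries.rescale a m) = ((1 : Sˣ) : S) := by
  rw [← PowerSeries.coeff_zero_eq_constantCoeff_apply, PowerSeries.coeff_rescale, pow_zero,
    one_mul, PowerSeries.coeff_zero_eq_constantCoeff_apply, hm, Units.val_one]

theorem crs_mul_inv (a : S) (m : PowerSeries S) (hm : PowerSeries.constantCoeff m = 1) :
    PowerSeries.rescale a m * PowerSeries.invOfUnit (PowerSeries.rescale a m) 1 = 1 :=
  PowerSeries.mul_invOfUnit _ _ (crs_const_rescale a m hm)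

theorem crs_unique (m : PowerSeries S) (hm : PowerSeries.constantCoeff m = 1) (lam : ℤ)
    (f : PowerSeries S)
    (h : PowerSeries.rescale (w (-lam)) m = f * PowerSeries.rescale (w lam) m) :
    crs m lam = f := by
  rw [crs, h, mul_assoc, crs_mul_inv _ _ hm, mul_one]

theorem crs_spec (m : PowerSeries S) (hm : PowerSeries.constantCoeff m = 1) (lam : ℤ) :
    crs m lam * PowerSeries.rescale (w lam) m = PowerSeries.rescale (w (-lam)) m := by
  have h := crs_mul_inv (w lam) m hm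
  calc crs m lam * PowerSeries.rescale (w lam) m
      = PowerSeries.rescale (w (-lam)) m * (PowerSeries.rescale (w lam) m *
        PowerSeries.invOfUnit (PowerSeries.rescale (w lam) m) 1) := by rw [crs]; ring
    _ = _ := by rw [h, mul_one]

theorem crs_resc_w (s t : ℤ) (m : PowerSeries S) :
    PowerSeries.rescale (w s) (PowerSeries.rescale (w t) m) = PowerSeries.rescale (w (s + t)) m := by
  ext1 n
  rw [PowerSeries.coeff_rescale, PowerSeries.coeff_rescale, PowerSeries.coeff_rescale, w_add,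
    mul_pow, mul_assoc]

theorem pr_crs : S_crs := by
  intro m hm
  refine ⟨fun lam => ?_, ?_, fun lam => ?_, fun lam f h => crs_unique m hm lam f h, ?_⟩
  · have h := congrArg PowerSeries.constantCoeff (crs_spec m hm lam)
    rw [map_mul, crs_const_rescale _ m hm, crs_const_rescale _ m hm, Units.val_one, mul_one] at h
    rw [PowerSeries.coeff_zero_eq_constantCoeff_apply]
    exact h
  · refine crs_unique m hm 0 1 ?_
    rw [neg_zero, one_mul]
  · have h1 := crs_mul_inv (w lam) m hm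
    have h2 := crs_mul_inv (w (-lam)) m hm
    calc crs m lam * crs m (-lam)
        = (PowerSeries.rescale (w lam) m *
            PowerSeries.invOfUnit (PowerSeries.rescale (w lam) m) 1) *
          (PowerSeries.rescale (w (-lam)) m *
            PowerSeries.invOfUnit (PowerSeries.rescale (w (-lam)) m) 1) := by
          rw [crs, crs, neg_neg]; ring
      _ = 1 := by rw [h1, h2, mul_one]
  · intro g f hf t
    have key : ∀ s : ℤ, PowerSeries.rescale (w (s - g)) m =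
        PowerSeries.rescale (w s) f * PowerSeries.rescale (w (s + g)) m := by
      intro s
      have h := congrArg (PowerSeries.rescale (w s)) hf
      rw [map_mul, crs_resc_w, crs_resc_w, ← sub_eq_add_neg] at h
      exact h
    have tel : ∀ n : ℕ, PowerSeries.rescale (w (-((t : ℤ) * g))) m =
        (∏ i ∈ Finset.range n, PowerSeries.rescale (w ((2 * (i : ℤ) - t + 1) * g)) f) *
          PowerSeries.rescale (w ((2 * (n : ℤ) - t) * g)) m := by
      intro n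
      induction n with
      | zero =>
        rw [Finset.prod_range_zero, one_mul]
        congr 2
        push_cast
        ring_nf
      | succ n ih =>
        rw [ih, Finset.prod_range_succ, mul_assoc]
        congr 1
        have h := key ((2 * (n : ℤ) - t + 1) * g)
        have e1 : (2 * (n : ℤ) - t + 1) * g - g = (2 * (n : ℤ) - t) * g := by ring
        have e2 : (2 * (n : ℤ) - t + 1) * g + g = (2 * ((n + 1 : ℕ) : ℤ) - t) * g := by
          push_cast; ring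
        rw [e1, e2] at h
        exact h
    refine crs_unique m hm _ _ ?_
    have h := tel t
    have e : (2 * (t : ℤ) - t) * g = (t : ℤ) * g := by ring
    rw [e] at h
    exact h

end Pool.Agent.Work.MP_c41774_al.Wall

end
end

section

/-!
# Item dir: the series in a fixed direction
-/

noncomputable section

namespace Pool.Agent.Work.MP_c41774_al.Wall

open Finset QTorus LaurentPolynomial

/-- the multiples of `κ₀` -/
def dir_D (κ₀ : ℕ × ℕ) (j : ℕ) : ℕ × ℕ := (j * κ₀.1, j * κ₀.2)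

theorem dir_pos {κ₀ : ℕ × ℕ} (h : κ₀ ≠ 0) : 1 ≤ κ₀.1 + κ₀.2 := by
  by_contra hcon
  apply h
  ext
  · simp only [Prod.fst_zero]; omega
  · simp only [Prod.snd_zero]; omega

theorem dir_D_zero (κ₀ : ℕ × ℕ) : dir_D κ₀ 0 = 0 := by
  ext
  · show 0 * κ₀.1 = 0; ring
  · show 0 * κ₀.2 = 0; ring

theorem dir_le {κ₀ : ℕ × ℕ} (h : κ₀ ≠ 0) (j : ℕ) : j ≤ j * κ₀.1 + j * κ₀.2 := by
  have := dir_pos h
  nlinarith

theorem dir_D_inj {κ₀ : ℕ × ℕ} (h : κ₀ ≠ 0) : Function.Injective (dir_D κ₀) := by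
  intro i j hij
  have h1 : i * κ₀.1 = j * κ₀.1 := congrArg Prod.fst hij
  have h2 : i * κ₀.2 = j * κ₀.2 := congrArg Prod.snd hij
  have h3 := dir_pos h
  by_cases h4 : κ₀.1 = 0
  · exact Nat.eq_of_mul_eq_mul_right (by omega) h2
  · exact Nat.eq_of_mul_eq_mul_right (by omega) h1

theorem dir_dirf_D {κ₀ : ℕ × ℕ} (h : κ₀ ≠ 0) (m : PowerSeries S) (j : ℕ) :
    dirf κ₀ m (dir_D κ₀ j) = PowerSeries.coeff j m := by
  unfold dirf
  rw [Finset.sum_eq_single j]
  · exact if_pos rfl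
  · intro i _ hi
    rw [if_neg]
    intro h1
    exact hi (dir_D_inj h h1).symm
  · intro hj
    exfalso
    apply hj
    rw [Finset.mem_range]
    have := dir_le h j
    show j < j * κ₀.1 + j * κ₀.2 + 1
    omega

theorem dir_dirf_not {κ₀ κ : ℕ × ℕ} (m : PowerSeries S) (h : ∀ j, κ ≠ dir_D κ₀ j) :
    dirf κ₀ m κ = 0 := by
  unfold dirf
  refine Finset.sum_eq_zero fun j _ => ?_
  rw [if_neg]
  exact h j

theorem dir_dirf_ne {κ₀ κ : ℕ × ℕ} {m : PowerSeries S} (h : dirf κ₀ m κ ≠ 0) :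
    ∃ j, κ = dir_D κ₀ j := by
  by_contra hcon
  push Not at hcon
  exact h (dir_dirf_not m hcon)

theorem dir_D_add (κ₀ : ℕ × ℕ) (i j : ℕ) : dir_D κ₀ (i + j) = dir_D κ₀ i + dir_D κ₀ j := by
  ext
  · show (i + j) * κ₀.1 = i * κ₀.1 + j * κ₀.1; ring
  · show (i + j) * κ₀.2 = i * κ₀.2 + j * κ₀.2; ring

theorem dir_tmul (b c : ℕ) {κ₀ : ℕ × ℕ} (h : κ₀ ≠ 0) (m m' : PowerSeries S) (κ : ℕ × ℕ) :
    tmul b c (dirf κ₀ m) (dirf κ₀ m') κ = dirf κ₀ (m * m') κ := by
  by_cases hκ : ∃ j, κ = dir_D κ₀ j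
  · obtain ⟨j, rfl⟩ := hκ
    rw [dir_dirf_D h, PowerSeries.coeff_mul,
      Finset.Nat.sum_antidiagonal_eq_sum_range_succ
        (fun a b => PowerSeries.coeff a m * PowerSeries.coeff b m')]
    unfold tmul
    have h1 : ∑ i ∈ (Finset.range (j + 1)).image (dir_D κ₀),
        w ((b : ℤ) * c * ((i.2 : ℤ) * (dir_D κ₀ j).1 - i.1 * (dir_D κ₀ j).2)) *
          (dirf κ₀ m i * dirf κ₀ m' (dir_D κ₀ j - i)) =
        ∑ i ∈ Finset.Iic (dir_D κ₀ j),
        w ((b : ℤ) * c * ((i.2 : ℤ) * (dir_D κ₀ j).1 - i.1 * (dir_D κ₀ j).2)) *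
          (dirf κ₀ m i * dirf κ₀ m' (dir_D κ₀ j - i)) := by
      refine Finset.sum_subset ?_ ?_
      · intro i hi
        rw [Finset.mem_image] at hi
        obtain ⟨a, ha, rfl⟩ := hi
        rw [Finset.mem_range] at ha
        rw [Finset.mem_Iic, Prod.le_def]
        exact ⟨Nat.mul_le_mul_right _ (by omega), Nat.mul_le_mul_right _ (by omega)⟩
      · intro i hi hni
        by_cases h2 : dirf κ₀ m i = 0
        · rw [h2]; ring
        · by_cases h3 : dirf κ₀ m' (dir_D κ₀ j - i) = 0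
          · rw [h3]; ring
          · exfalso
            obtain ⟨a, ha⟩ := dir_dirf_ne h2
            obtain ⟨d, hd⟩ := dir_dirf_ne h3
            apply hni
            rw [Finset.mem_image]
            refine ⟨a, ?_, ha.symm⟩
            rw [Finset.mem_Iic] at hi
            have h4 : dir_D κ₀ j = dir_D κ₀ (a + d) := by
              rw [dir_D_add, ← ha, ← hd, add_tsub_cancel_of_le hi]
            have h5 := dir_D_inj h h4
            rw [Finset.mem_range]; omega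
    rw [← h1, Finset.sum_image (fun _ _ _ _ hxy => dir_D_inj h hxy)]
    refine Finset.sum_congr rfl fun a ha => ?_
    rw [Finset.mem_range] at ha
    have h2 : dir_D κ₀ j - dir_D κ₀ a = dir_D κ₀ (j - a) := by
      have : dir_D κ₀ j = dir_D κ₀ a + dir_D κ₀ (j - a) := by
        rw [← dir_D_add]; congr 1; omega
      rw [this, add_tsub_cancel_left]
    rw [h2, dir_dirf_D h, dir_dirf_D h]
    have h3 : (b : ℤ) * c * (((dir_D κ₀ a).2 : ℤ) * (dir_D κ₀ j).1 -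
        (dir_D κ₀ a).1 * (dir_D κ₀ j).2) = 0 := by
      simp only [dir_D]; push_cast; ring
    rw [h3, w_zero, one_mul]
  · push Not at hκ
    rw [dir_dirf_not _ hκ]
    unfold tmul
    refine Finset.sum_eq_zero fun i hi => ?_
    by_cases h2 : dirf κ₀ m i = 0
    · rw [h2]; ring
    · by_cases h3 : dirf κ₀ m' (κ - i) = 0
      · rw [h3]; ring
      · exfalso
        obtain ⟨a, ha⟩ := dir_dirf_ne h2
        obtain ⟨d, hd⟩ := dir_dirf_ne h3
        rw [Finset.mem_Iic] at hi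
        apply hκ (a + d)
        rw [dir_D_add, ← ha, ← hd, add_tsub_cancel_of_le hi]

theorem dir_one_apply {κ₀ : ℕ × ℕ} (h : κ₀ ≠ 0) (κ : ℕ × ℕ) :
    dirf κ₀ 1 κ = if κ = 0 then 1 else 0 := by
  by_cases hκ : ∃ j, κ = dir_D κ₀ j
  · obtain ⟨j, rfl⟩ := hκ
    rw [dir_dirf_D h, PowerSeries.coeff_one]
    have h0 : (0 : ℕ × ℕ) = dir_D κ₀ 0 := (dir_D_zero κ₀).symm
    by_cases hj : j = 0
    · rw [if_pos hj, if_pos (by rw [hj, h0])]
    · rw [if_neg hj, if_neg]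
      intro h1
      rw [h0] at h1
      exact hj (dir_D_inj h h1)
  · push Not at hκ
    rw [dir_dirf_not _ hκ, if_neg]
    intro h1
    apply hκ 0
    rw [h1, dir_D_zero]

theorem pr_dir (h1 : S_serMul) : S_dir := by
  intro b c hb hc κ₀ hκ₀
  refine ⟨fun m m' => ?_, ?_, fun m => ?_⟩
  · unfold dir
    rw [h1 b c hb hc]
    congr 1
    funext κ
    exact (dir_tmul b c hκ₀ m m' κ).symm
  · refine CT.ext fun l => ?_
    rw [CT.one_apply]
    show (if kk b c ((l.1 / b).toNat, (l.2 / c).toNat) = l then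
      dirf κ₀ 1 ((l.1 / b).toNat, (l.2 / c).toNat) else 0) = if l = 0 then 1 else 0
    rw [dir_one_apply hκ₀]
    by_cases hl : l = 0
    · subst hl
      have h2 : (((0 : ℤ × ℤ).1 / (b : ℤ)).toNat, ((0 : ℤ × ℤ).2 / (c : ℤ)).toNat) = (0 : ℕ × ℕ) := by
        simp
      rw [h2]
      simp [kk]
    · rw [if_neg hl]
      split_ifs with h2 h3
      · exfalso
        apply hl
        rw [← h2, h3]
        simp [kk]
      · rfl
      · rfl
  · have h0 : (0 : ℤ × ℤ) = kk (b : ℤ) c (dir_D κ₀ 0) := by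
      rw [dir_D_zero]; ext <;> simp [kk]
    unfold dir
    rw [h0, ser_kk hb hc, dir_dirf_D hκ₀]
    simp

end Pool.Agent.Work.MP_c41774_al.Wall

end
end

section

/-!
# Item elem
-/

noncomputable section

namespace Pool.Agent.Work.MP_c41774_al.Wall

open Finset QTorus LaurentPolynomial

theorem elem_one (N : ℤ) (F : PowerSeries S) (k : ℤ × ℤ) (y : ℤ × ℤ → S) (l : ℤ × ℤ)
    (hy : Bd N y) (hF : PowerSeries.coeff 0 F = 1) :
    xs N F k y l = y l + ∑ j ∈ Finset.Ico 1 (l.1 + l.2 - 2 * N + 1).toNat,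
      PowerSeries.coeff j F * y (l - j • k) := by
  unfold xs
  rcases Nat.eq_zero_or_pos (l.1 + l.2 - 2 * N + 1).toNat with h | h
  · have h0 : y l = 0 := hy.eq_zero (by omega)
    rw [h, h0, Finset.range_zero, Finset.sum_empty, Finset.Ico_eq_empty (by omega),
      Finset.sum_empty, add_zero]
  · rw [Finset.sum_range_eq_add_Ico _ h, hF, one_mul, zero_smul, sub_zero]

theorem elem_Lam (b c : ℕ) (κ : ℕ × ℕ) (l : ℤ × ℤ) :
    Lam l (kk b c κ) = l.2 * (b * κ.1) - l.1 * (c * κ.2) := rfl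

theorem elem_three (b c : ℕ) (κ : ℕ × ℕ) (l : ℤ × ℤ) :
    ∃ t : ℤ, Lam l (kk b c κ) = t * gg b c κ := by
  have h1 : gg b c κ ∣ ((b * κ.1 : ℕ) : ℤ) := Int.natCast_dvd_natCast.2 (Nat.gcd_dvd_left _ _)
  have h2 : gg b c κ ∣ ((c * κ.2 : ℕ) : ℤ) := Int.natCast_dvd_natCast.2 (Nat.gcd_dvd_right _ _)
  have h3 : gg b c κ ∣ Lam l (kk b c κ) := by
    rw [elem_Lam]
    push_cast at h1 h2
    exact dvd_sub (h1.mul_left _) (h2.mul_left _)
  obtain ⟨t, ht⟩ := h3
  exact ⟨t, by rw [ht, mul_comm]⟩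

theorem elem_four (b c : ℕ) (hb : 0 < b) (hc : 0 < c) (l : ℤ × ℤ) (h1 : l.1 < 0)
    (h2 : l.2 < 0) :
    Nat.Coprime (slp b c l).1 (slp b c l).2 ∧ 0 < (slp b c l).1 ∧ 0 < (slp b c l).2 ∧
    Lam l (kk b c (slp b c l)) = 0 ∧
    (∀ κ : ℕ × ℕ, Slt κ (slp b c l) ↔ 0 < Lam l (kk b c κ)) ∧
    ∀ κ : ℕ × ℕ, Slt (slp b c l) κ ↔ Lam l (kk b c κ) < 0 := by
  have hA : 0 < c * l.1.natAbs := Nat.mul_pos hc (by omega)
  have hB : 0 < b * l.2.natAbs := Nat.mul_pos hb (by omega)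
  have hg : 0 < Nat.gcd (c * l.1.natAbs) (b * l.2.natAbs) := Nat.gcd_pos_of_pos_left _ hA
  obtain ⟨A', hA'⟩ := Nat.gcd_dvd_left (c * l.1.natAbs) (b * l.2.natAbs)
  obtain ⟨B', hB'⟩ := Nat.gcd_dvd_right (c * l.1.natAbs) (b * l.2.natAbs)
  have hs1 : (slp b c l).1 = A' := Nat.div_eq_of_eq_mul_right hg hA'
  have hs2 : (slp b c l).2 = B' := Nat.div_eq_of_eq_mul_right hg hB'
  have hcop : Nat.Coprime (slp b c l).1 (slp b c l).2 := Nat.coprime_div_gcd_div_gcd hg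
  have hA0 : 0 < A' := by
    rcases Nat.eq_zero_or_pos A' with h | h
    · rw [h, mul_zero] at hA'
      omega
    · exact h
  have hB0 : 0 < B' := by
    rcases Nat.eq_zero_or_pos B' with h | h
    · rw [h, mul_zero] at hB'
      omega
    · exact h
  set g := Nat.gcd (c * l.1.natAbs) (b * l.2.natAbs) with hgdef
  have e1 : (c : ℤ) * (-l.1) = g * A' := by
    have : ((c * l.1.natAbs : ℕ) : ℤ) = ((g * A' : ℕ) : ℤ) := by exact_mod_cast hA'
    push_cast at this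
    rw [← this, abs_of_neg h1]
  have e2 : (b : ℤ) * (-l.2) = g * B' := by
    have : ((b * l.2.natAbs : ℕ) : ℤ) = ((g * B' : ℕ) : ℤ) := by exact_mod_cast hB'
    push_cast at this
    rw [← this, abs_of_neg h2]
  have hL : ∀ κ : ℕ × ℕ, Lam l (kk b c κ) = g * ((A' : ℤ) * κ.2 - B' * κ.1) := by
    intro κ
    rw [elem_Lam]
    linear_combination (κ.2 : ℤ) * e1 - (κ.1 : ℤ) * e2
  have hgz : (0 : ℤ) < g := by exact_mod_cast hg
  refine ⟨hcop, by rw [hs1]; exact hA0, by rw [hs2]; exact hB0, ?_, ?_, ?_⟩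
  · rw [hL, hs1, hs2]
    ring
  · intro κ
    rw [hL, mul_pos_iff_of_pos_left hgz, Slt, hs1, hs2]
    constructor
    · intro h
      have : ((κ.1 * B' : ℕ) : ℤ) < ((A' * κ.2 : ℕ) : ℤ) := by exact_mod_cast h
      push_cast at this
      linarith
    · intro h
      have : ((κ.1 * B' : ℕ) : ℤ) < ((A' * κ.2 : ℕ) : ℤ) := by
        push_cast
        linarith
      exact_mod_cast this
  · intro κ
    have hneg : ∀ x : ℤ, (g : ℤ) * x < 0 ↔ x < 0 := fun x => by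
      rw [← neg_pos, ← mul_neg, mul_pos_iff_of_pos_left hgz, neg_pos]
    rw [hL, hneg, Slt, hs1, hs2]
    constructor
    · intro h
      have : ((A' * κ.2 : ℕ) : ℤ) < ((κ.1 * B' : ℕ) : ℤ) := by exact_mod_cast h
      push_cast at this
      linarith
    · intro h
      have : ((A' * κ.2 : ℕ) : ℤ) < ((κ.1 * B' : ℕ) : ℤ) := by
        push_cast
        linarith
      exact_mod_cast this

theorem elem_seven (κ κ' : ℕ × ℕ) (h : Nat.Coprime κ.1 κ.2) (h' : Nat.Coprime κ'.1 κ'.2) :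
    Slt κ κ' ∨ κ = κ' ∨ Slt κ' κ := by
  rcases lt_trichotomy (κ.1 * κ'.2) (κ'.1 * κ.2) with h1 | h1 | h1
  · exact Or.inl h1
  · refine Or.inr (Or.inl (Prod.ext ?_ ?_))
    · refine Nat.dvd_antisymm ?_ ?_
      · exact h.dvd_of_dvd_mul_right (h1 ▸ Nat.dvd_mul_right κ.1 κ'.2)
      · exact h'.dvd_of_dvd_mul_right (h1.symm ▸ Nat.dvd_mul_right κ'.1 κ.2)
    · refine Nat.dvd_antisymm ?_ ?_
      · exact h.symm.dvd_of_dvd_mul_left (h1.symm ▸ Nat.dvd_mul_left κ.2 κ'.1)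
      · exact h'.symm.dvd_of_dvd_mul_left (h1 ▸ Nat.dvd_mul_left κ'.2 κ.1)
  · exact Or.inr (Or.inr h1)

theorem elem_eight (κ κ' κ'' : ℕ × ℕ) (h1 : Slt κ κ') (h2 : Slt κ' κ'') : Slt κ κ'' := by
  unfold Slt at *
  have p1 : 0 < κ.2 := by
    rcases Nat.eq_zero_or_pos κ.2 with h | h
    · rw [h, mul_zero] at h1
      omega
    · exact h
  have p2 : 0 < κ'.2 := by
    rcases Nat.eq_zero_or_pos κ'.2 with h | h
    · rw [h, mul_zero] at h2
      omega
    · exact h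
  have e1 : κ.1 * κ'.2 * κ''.2 ≤ κ'.1 * κ.2 * κ''.2 := Nat.mul_le_mul_right _ h1.le
  have e2 : κ'.1 * κ''.2 * κ.2 < κ''.1 * κ'.2 * κ.2 := Nat.mul_lt_mul_of_pos_right h2 p1
  have e3 : κ.1 * κ''.2 * κ'.2 < κ''.1 * κ.2 * κ'.2 := by
    calc κ.1 * κ''.2 * κ'.2 = κ.1 * κ'.2 * κ''.2 := by ring
      _ ≤ κ'.1 * κ.2 * κ''.2 := e1
      _ = κ'.1 * κ''.2 * κ.2 := by ring
      _ < κ''.1 * κ'.2 * κ.2 := e2
      _ = κ''.1 * κ.2 * κ'.2 := by ring
  exact Nat.lt_of_mul_lt_mul_right e3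

theorem pr_elem : S_elem := by
  refine ⟨elem_one, ?_, elem_three, elem_four, ?_, ?_, elem_seven, ?_⟩
  · intro N k y l hy
    rw [elem_one N 1 k y l hy (by simp)]
    rw [Finset.sum_eq_zero, add_zero]
    intro j hj
    rw [Finset.mem_Ico] at hj
    rw [PowerSeries.coeff_one, if_neg (by omega), zero_mul]
  · intro κ h hne
    unfold Slt
    rcases Nat.eq_zero_or_pos κ.1 with h0 | h0
    · exfalso
      apply hne
      rw [h0, Nat.coprime_zero_left] at h
      exact Prod.ext h0 h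
    · simpa using h0
  · intro κ h hne
    unfold Slt
    rcases Nat.eq_zero_or_pos κ.2 with h0 | h0
    · exfalso
      apply hne
      rw [h0, Nat.coprime_zero_right] at h
      exact Prod.ext h h0
    · simpa using h0
  · intro κ κ' κ'' _ _ _ h1 h2
    exact elem_eight κ κ' κ'' h1 h2

end Pool.Agent.Work.MP_c41774_al.Wall

end
end

section

noncomputable section

namespace Pool.Agent.Work.MP_c41774_al.Wall

open Finset QTorus LaurentPolynomial

theorem g_dirf_zero (κ₀ : ℕ × ℕ) (m : PowerSeries S) :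
    dirf κ₀ m 0 = PowerSeries.constantCoeff m := by
  have h1 : Finset.range ((0 : ℕ × ℕ).1 + (0 : ℕ × ℕ).2 + 1) = {0} := rfl
  have h2 : (0 : ℕ × ℕ) = (0 * κ₀.1, 0 * κ₀.2) := by rw [zero_mul, zero_mul]; rfl
  rw [dirf, h1, Finset.sum_singleton, if_pos h2, PowerSeries.coeff_zero_eq_constantCoeff]

theorem g_hi_zero {b c : ℕ} (D : WallData b c) (κ : ℕ × ℕ) (h : Nat.Coprime κ.1 κ.2) :
    D.hi κ 0 = D.lo κ 0 := by
  have h1 : Finset.Iic (0 : ℕ × ℕ) = {0} := rfl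
  rw [D.cross κ h, tmul, h1, Finset.sum_singleton]
  have h2 : (0 : ℕ × ℕ) - 0 = 0 := rfl
  rw [h2, g_dirf_zero, D.const κ h, mul_one]
  simp [w_zero]

theorem g_first {b c : ℕ} (D : WallData b c) (κ : ℕ × ℕ) (h : Nat.Coprime κ.1 κ.2) :
    D.lo κ 0 = 1 ∧ D.hi κ 0 = 1 := by
  have h01 : D.lo (0, 1) 0 = 1 := by rw [D.lo_zero, if_pos rfl]
  have hlo : D.lo κ 0 = 1 := by
    by_cases hκ : κ = (0, 1)
    · rw [hκ]; exact h01
    · have hpos : 0 < κ.1 := by
        rcases Nat.eq_zero_or_pos κ.1 with h0 | h0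
        · exfalso
          apply hκ
          rw [h0, Nat.coprime_zero_left] at h
          exact Prod.ext h0 h
        · exact h0
      have h1 := D.next (0, 1) κ 0 (by simp) h (by
        simp only [Slt]; omega) (by
        intro κ' hκ' hc
        have h2 : κ' = 0 := le_antisymm hκ' (zero_le)
        rw [h2] at hc
        have h3 := hc.1
        simp [Slt] at h3)
      rw [← h1, g_hi_zero D (0, 1) (by simp), h01]
  exact ⟨hlo, by rw [g_hi_zero D κ h, hlo]⟩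

/-- good units -/
def gGood (b c : ℕ) (u : CTˣ) : Prop :=
  Lat b c 0 (u : CT) ∧ Lat b c 0 ((u⁻¹ : CTˣ) : CT) ∧ (u : CT) 0 = 1 ∧ ((u⁻¹ : CTˣ) : CT) 0 = 1

theorem gGood.inv {b c : ℕ} {u : CTˣ} (h : gGood b c u) : gGood b c u⁻¹ := by
  refine ⟨h.2.1, ?_, h.2.2.2, ?_⟩
  · rw [inv_inv]; exact h.1
  · rw [inv_inv]; exact h.2.2.1

theorem gMul (h2 : S_latMul) {b c : ℕ} (hb : 0 < b) (hc : 0 < c) {x y : CT} (hx : Lat b c 0 x)
    (hy : Lat b c 0 y) (hx0 : x 0 = 1) (hy0 : y 0 = 1) : Lat b c 0 (x * y) ∧ (x * y) 0 = 1 := by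
  obtain ⟨h3, h4⟩ := h2 b c hb hc 0 0 x y hx hy
  rw [add_zero] at h3 h4
  refine ⟨h3, ?_⟩
  rw [neg_zero, hx0, hy0] at h4
  rw [h4]
  simp [Lam, w_zero]

theorem gGood.mul (h2 : S_latMul) {b c : ℕ} (hb : 0 < b) (hc : 0 < c) {u v : CTˣ}
    (hu : gGood b c u) (hv : gGood b c v) : gGood b c (u * v) := by
  have h3 := gMul h2 hb hc hu.1 hv.1 hu.2.2.1 hv.2.2.1
  have h4 := gMul h2 hb hc hv.2.1 hu.2.1 hv.2.2.2 hu.2.2.2
  refine ⟨?_, ?_, ?_, ?_⟩
  · rw [Units.val_mul]; exact h3.1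
  · rw [mul_inv_rev, Units.val_mul]; exact h4.1
  · rw [Units.val_mul]; exact h3.2
  · rw [mul_inv_rev, Units.val_mul]; exact h4.2

theorem gGood_one (b c : ℕ) : gGood b c 1 := by
  have h1 : Lat b c 0 (1 : CT) := by
    intro m hm
    refine ⟨0, ?_⟩
    by_contra h
    apply hm
    rw [CT.one_apply, if_neg]
    intro h'
    apply h
    rw [h']
    simp
  have h2 : (1 : CT) 0 = 1 := by rw [CT.one_apply, if_pos rfl]
  refine ⟨?_, ?_, ?_, ?_⟩
  · rw [Units.val_one]; exact h1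
  · rw [inv_one, Units.val_one]; exact h1
  · rw [Units.val_one]; exact h2
  · rw [inv_one, Units.val_one]; exact h2

theorem gGood_unitOf (h3 : S_latUnit) {b c : ℕ} (hb : 0 < b) (hc : 0 < c) (x : CT)
    (hx : Lat b c 0 x) (hx0 : x 0 = 1) : gGood b c (unitOf x) := by
  obtain ⟨y, hy, hy0, hxy, hyx⟩ := h3 b c hb hc x hx hx0
  have hu : IsUnit x := ⟨⟨x, y, hxy, hyx⟩, rfl⟩
  have h1 : (unitOf x : CT) = x := unitOf_val hu
  have h2 : ((unitOf x)⁻¹ : CTˣ) = (⟨y, x, hyx, hxy⟩ : CTˣ) := by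
    rw [inv_eq_iff_eq_inv]
    apply Units.ext
    rw [h1]
    rfl
  refine ⟨?_, ?_, ?_, ?_⟩
  · rw [h1]; exact hx
  · rw [h2]; exact hy
  · rw [h1]; exact hx0
  · rw [h2]; exact hy0

theorem pr_g (h2 : S_latMul) (h3 : S_latUnit) (h4 : S_dir) : S_g := by
  intro b c hb hc D
  refine ⟨fun κ h => g_first D κ h, ?_⟩
  have hser : ∀ φ : ℕ × ℕ → S, φ 0 = 1 → gGood b c (unitOf (ser b c φ)) := by
    intro φ hφ
    refine gGood_unitOf h3 hb hc _ (ser_lat φ) ?_
    have h5 := ser_kk hb hc φ 0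
    have h6 : kk b c 0 = 0 := by simp
    rw [h6] at h5
    rw [h5, hφ]
  have hdir : gGood b c (unitOf (dir b c (1, 0) (D.M (1, 0)))) := by
    refine gGood_unitOf h3 hb hc _ (ser_lat _) ?_
    rw [(h4 b c hb hc (1, 0) (by simp)).2.2, D.const (1, 0) (by simp)]
  have key : ∀ C : Chart, C.Valid → gGood b c (D.g C) := by
    intro C hC
    cases C with
    | one => exact gGood_one b c
    | lo κ => exact gGood.mul h2 hb hc (hser _ (g_first D κ hC).1).inv hdir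
    | hi κ => exact gGood.mul h2 hb hc (hser _ (g_first D κ hC).2).inv hdir
  intro C hC
  exact key C hC

end Pool.Agent.Work.MP_c41774_al.Wall

end
end

section

/-!
# Integrality of the crossing series
-/

noncomputable section

namespace Pool.Agent.Work.MP_c41774_al.Wall

open Finset QTorus LaurentPolynomial

namespace Integ

/-- being in the range of `iota` -/
def Rg (s : S) : Prop := ∃ r : R, iota r = s

theorem Rg.zero : Rg 0 := ⟨0, map_zero _⟩

theorem Rg.one : Rg 1 := ⟨1, map_one _⟩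

theorem Rg.add {s t : S} (hs : Rg s) (ht : Rg t) : Rg (s + t) := by
  obtain ⟨r, hr⟩ := hs
  obtain ⟨r', hr'⟩ := ht
  exact ⟨r + r', by rw [map_add, hr, hr']⟩

theorem Rg.sub {s t : S} (hs : Rg s) (ht : Rg t) : Rg (s - t) := by
  obtain ⟨r, hr⟩ := hs
  obtain ⟨r', hr'⟩ := ht
  exact ⟨r - r', by rw [map_sub, hr, hr']⟩

theorem Rg.mul {s t : S} (hs : Rg s) (ht : Rg t) : Rg (s * t) := by
  obtain ⟨r, hr⟩ := hs
  obtain ⟨r', hr'⟩ := ht
  exact ⟨r * r', by rw [map_mul, hr, hr']⟩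

theorem Rg.sum {ι : Type*} {s : Finset ι} {f : ι → S} (h : ∀ i ∈ s, Rg (f i)) :
    Rg (∑ i ∈ s, f i) := by
  classical
  induction s using Finset.induction_on with
  | empty => exact ⟨0, by simp⟩
  | insert a s ha ih =>
    rw [Finset.sum_insert ha]
    exact (h a (by simp)).add (ih fun i hi => h i (by simp [hi]))

variable {b c : ℕ}

theorem smul_kk_fst (j : ℕ) (κ : ℕ × ℕ) : (j • kk (b : ℤ) c κ).1 = j * (b * κ.1) := by
  rw [Prod.smul_fst, nsmul_eq_mul, kk_fst]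

theorem smul_kk_snd (j : ℕ) (κ : ℕ × ℕ) : (j • kk (b : ℤ) c κ).2 = j * (c * κ.2) := by
  rw [Prod.smul_snd, nsmul_eq_mul, kk_snd]

theorem pos_step {l : ℤ × ℤ} {κ' μ ν : ℕ × ℕ} {j : ℕ} (hb : 0 < b) (hc : 0 < c)
    (h : l + kk b c μ - j • kk b c κ' = l + kk b c ν) :
    (ν.1 + j * κ'.1, ν.2 + j * κ'.2) = μ := by
  have h1 := congrArg Prod.fst h
  have h2 := congrArg Prod.snd h
  simp only [Prod.fst_add, Prod.snd_add, Prod.fst_sub, Prod.snd_sub, smul_kk_fst,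
    smul_kk_snd, kk_fst, kk_snd] at h1 h2
  have hb' : (b : ℤ) ≠ 0 := by exact_mod_cast hb.ne'
  have hc' : (c : ℤ) ≠ 0 := by exact_mod_cast hc.ne'
  have e1 : (b : ℤ) * ((ν.1 : ℤ) + j * κ'.1) = b * μ.1 := by linear_combination -h1
  have e2 : (c : ℤ) * ((ν.2 : ℤ) + j * κ'.2) = c * μ.2 := by linear_combination -h2
  have f1 := mul_left_cancel₀ hb' e1
  have f2 := mul_left_cancel₀ hc' e2
  refine Prod.ext ?_ ?_
  · show ν.1 + j * κ'.1 = μ.1
    exact_mod_cast f1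
  · show ν.2 + j * κ'.2 = μ.2
    exact_mod_cast f2

/-- A crossing preserves integrality. -/
theorem cross_Rg (hb : 0 < b) (hc : 0 < c) (hE : S_elem) {N : ℤ} {F : PowerSeries S}
    {κ' μ : ℕ × ℕ} {y : ℤ × ℤ → S} {l : ℤ × ℤ} (hy : Bd N y)
    (hF : PowerSeries.coeff 0 F = 1)
    (hs : ∀ m, y m ≠ 0 → ∃ κ : ℕ × ℕ, m = l + kk b c κ)
    (hj : ∀ j : ℕ, 1 ≤ j → ∀ ν : ℕ × ℕ, (ν.1 + j * κ'.1, ν.2 + j * κ'.2) = μ →
      Rg (PowerSeries.coeff j F) ∧ Rg (y (l + kk b c ν)))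
    (h0 : Rg (y (l + kk b c μ))) :
    Rg (xs N F (kk b c κ') y (l + kk b c μ)) := by
  rw [hE.1 N F (kk b c κ') y (l + kk b c μ) hy hF]
  refine h0.add (Rg.sum fun j hjm => ?_)
  have h1j : 1 ≤ j := (Finset.mem_Ico.mp hjm).1
  by_cases h : y (l + kk b c μ - j • kk b c κ') = 0
  · rw [h, mul_zero]; exact Rg.zero
  · obtain ⟨ν, hν⟩ := hs _ h
    have := hj j h1j ν (pos_step hb hc hν)
    rw [hν]
    exact this.1.mul this.2

/-- the expansions of a monomial -/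
def tau (D : WallData b c) (l : ℤ × ℤ) (C : Chart) (m : ℤ × ℤ) : S := D.T C (CT.mon l 1) m

/-- the terms of the crossing of `κ'` at `μ` are integral -/
def Gd (D : WallData b c) (l : ℤ × ℤ) (μ κ' : ℕ × ℕ) : Prop :=
  ∀ j : ℕ, 1 ≤ j → ∀ ν : ℕ × ℕ, (ν.1 + j * κ'.1, ν.2 + j * κ'.2) = μ →
    (∀ t : ℤ, Rg (PowerSeries.coeff j (D.F κ' (t * gg b c κ')))) ∧
      ∀ C : Chart, C.Valid → Rg (tau D l C (l + kk b c ν))

theorem bd_mon (l : ℤ × ℤ) : Bd (min l.1 l.2) (CT.mon l 1) := by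
  intro m h
  have : m = l := by
    by_contra h'
    exact h (by rw [CT.mon_apply, if_neg h'])
  rw [this]; omega

theorem tau_sys (hb : 0 < b) (hc : 0 < c) (hCS : S_chartSys) (D : WallData b c) (l : ℤ × ℤ) :
    ChartSys D (min l.1 l.2) (tau D l) :=
  hCS b c hb hc D (CT.mon l 1) (min l.1 l.2) (bd_mon l)

theorem tau_lat (hb : 0 < b) (hc : 0 < c) (hL : S_latT) (D : WallData b c) (l : ℤ × ℤ)
    (C : Chart) (hC : C.Valid) :
    (∀ m, tau D l C m ≠ 0 → ∃ κ : ℕ × ℕ, m = l + kk b c κ) ∧ tau D l C l = 1 := by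
  have h0 : Lat b c (-l) (CT.mon l 1) := by
    intro m h
    refine ⟨0, ?_⟩
    have : m = l := by
      by_contra h'
      exact h (by rw [CT.mon_apply, if_neg h'])
    rw [this, kk_zero]; abel
  obtain ⟨h1, h2⟩ := hL b c hb hc D C hC (-l) (CT.mon l 1) h0
  constructor
  · intro m hm
    obtain ⟨κ, hκ⟩ := h1 m hm
    exact ⟨κ, by rw [hκ]; abel⟩
  · rw [neg_neg] at h2
    rw [tau, h2, CT.mon_apply, if_pos rfl]

theorem tau_one (D : WallData b c) (l m : ℤ × ℤ) : Rg (tau D l .one m) := by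
  have : D.T .one (CT.mon l 1) = CT.mon l 1 := by
    show ((D.g .one : CTˣ) : CT) * CT.mon l 1 * (((D.g .one : CTˣ)⁻¹ : CTˣ) : CT) = CT.mon l 1
    show ((1 : CTˣ) : CT) * CT.mon l 1 * (((1 : CTˣ)⁻¹ : CTˣ) : CT) = CT.mon l 1
    rw [inv_one, Units.val_one, one_mul, mul_one]
  rw [tau, this, CT.mon_apply]
  by_cases h : m = l
  · rw [if_pos h]; exact Rg.one
  · rw [if_neg h]; exact Rg.zero

theorem F_zero (hcr : S_crs) (D : WallData b c) (κ : ℕ × ℕ) (hκ : Nat.Coprime κ.1 κ.2)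
    (lam : ℤ) : PowerSeries.coeff 0 (D.F κ lam) = 1 :=
  (hcr (D.M κ) (D.const κ hκ)).1 lam

theorem key_up (hb : 0 < b) (hc : 0 < c) (hCS : S_chartSys) (hL : S_latT) (hcr : S_crs)
    (hE : S_elem) (D : WallData b c) (l : ℤ × ℤ) (μ κ' : ℕ × ℕ) (hκ' : Nat.Coprime κ'.1 κ'.2)
    (hG : Gd D l μ κ') :
    Rg (tau D l (.lo κ') (l + kk b c μ)) → Rg (tau D l (.hi κ') (l + kk b c μ)) := by
  intro h
  have hs := tau_sys hb hc hCS D l
  rw [hs.up κ' hκ' (l + kk b c μ)]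
  refine cross_Rg hb hc hE (hs.bd _ hκ') (F_zero hcr D κ' hκ' _)
    (tau_lat hb hc hL D l (.lo κ') hκ').1 (fun j hj ν hν => ?_) h
  obtain ⟨h1, h2⟩ := hG j hj ν hν
  refine ⟨?_, h2 _ hκ'⟩
  obtain ⟨t, ht⟩ := hE.2.2.1 b c κ' (l + kk b c μ)
  rw [ht, ← neg_mul]
  exact h1 (-t)

theorem key_down (hb : 0 < b) (hc : 0 < c) (hCS : S_chartSys) (hL : S_latT) (hcr : S_crs)
    (hE : S_elem) (D : WallData b c) (l : ℤ × ℤ) (μ κ' : ℕ × ℕ) (hκ' : Nat.Coprime κ'.1 κ'.2)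
    (hG : Gd D l μ κ') :
    Rg (tau D l (.hi κ') (l + kk b c μ)) → Rg (tau D l (.lo κ') (l + kk b c μ)) := by
  intro h
  have hs := tau_sys hb hc hCS D l
  rw [hs.down κ' hκ' (l + kk b c μ)]
  refine cross_Rg hb hc hE (hs.bd _ hκ') (F_zero hcr D κ' hκ' _)
    (tau_lat hb hc hL D l (.hi κ') hκ').1 (fun j hj ν hν => ?_) h
  obtain ⟨h1, h2⟩ := hG j hj ν hν
  refine ⟨?_, h2 _ hκ'⟩
  obtain ⟨t, ht⟩ := hE.2.2.1 b c κ' (l + kk b c μ)
  rw [ht]
  exact h1 t

theorem key_x (hb : 0 < b) (hc : 0 < c) (hCS : S_chartSys) (hL : S_latT) (hcr : S_crs)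
    (hE : S_elem) (D : WallData b c) (l : ℤ × ℤ) (μ : ℕ × ℕ) (hG : Gd D l μ (1, 0)) :
    Rg (tau D l (.lo (0, 1)) (l + kk b c μ)) := by
  have hs := tau_sys hb hc hCS D l
  have c10 : Nat.Coprime ((1, 0) : ℕ × ℕ).1 ((1, 0) : ℕ × ℕ).2 := by simp
  rw [hs.x_in (l + kk b c μ)]
  refine cross_Rg hb hc hE (hs.bd .one trivial) (F_zero hcr D (1, 0) c10 _)
    (tau_lat hb hc hL D l .one trivial).1 (fun j hj ν hν => ?_) (tau_one D l _)
  obtain ⟨h1, h2⟩ := hG j hj ν hν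
  refine ⟨?_, h2 _ trivial⟩
  obtain ⟨t, ht⟩ := hE.2.2.1 b c (1, 0) (l + kk b c μ)
  rw [ht]
  exact h1 t

theorem key_y (hb : 0 < b) (hc : 0 < c) (hCS : S_chartSys) (hL : S_latT) (hcr : S_crs)
    (hE : S_elem) (D : WallData b c) (l : ℤ × ℤ) (μ : ℕ × ℕ) (hG : Gd D l μ (0, 1)) :
    Rg (tau D l (.hi (1, 0)) (l + kk b c μ)) := by
  have hs := tau_sys hb hc hCS D l
  have c01 : Nat.Coprime ((0, 1) : ℕ × ℕ).1 ((0, 1) : ℕ × ℕ).2 := by simp
  rw [hs.y_in (l + kk b c μ)]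
  refine cross_Rg hb hc hE (hs.bd .one trivial) (F_zero hcr D (0, 1) c01 _)
    (tau_lat hb hc hL D l .one trivial).1 (fun j hj ν hν => ?_) (tau_one D l _)
  obtain ⟨h1, h2⟩ := hG j hj ν hν
  refine ⟨?_, h2 _ trivial⟩
  obtain ⟨t, ht⟩ := hE.2.2.1 b c (0, 1) (l + kk b c μ)
  rw [ht, ← neg_mul]
  exact h1 (-t)

/-- Integrality of the lower chart of `κ`. -/
theorem lo_Rg (hb : 0 < b) (hc : 0 < c) (hCS : S_chartSys) (hL : S_latT) (hU : S_tUp)
    (hcr : S_crs) (hE : S_elem) (D : WallData b c) (l : ℤ × ℤ) (μ κ : ℕ × ℕ)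
    (hκ : Nat.Coprime κ.1 κ.2) (hx : Gd D l μ (1, 0))
    (hG : ∀ κ' : ℕ × ℕ, Nat.Coprime κ'.1 κ'.2 → Slt κ' κ → Gd D l μ κ') :
    Rg (tau D l (.lo κ) (l + kk b c μ)) := by
  have hs := tau_sys hb hc hCS D l
  have h1 := key_x hb hc hCS hL hcr hE D l μ hx
  have c01 : Nat.Coprime ((0, 1) : ℕ × ℕ).1 ((0, 1) : ℕ × ℕ).2 := by simp
  by_cases h01 : κ = (0, 1)
  · rw [h01]; exact h1
  · have hlt : Slt (0, 1) κ := hE.2.2.2.2.1 κ hκ h01
    refine hU b c D _ _ hs (l + kk b c μ) Rg (0, 1) κ c01 hκ hlt ?_ ?_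
    · intro κ' hκ' _ h'
      exact key_up hb hc hCS hL hcr hE D l μ κ' hκ' (hG κ' hκ' h')
    · exact key_up hb hc hCS hL hcr hE D l μ (0, 1) c01 (hG (0, 1) c01 hlt) h1

/-- Integrality of the upper chart of `κ`. -/
theorem hi_Rg (hb : 0 < b) (hc : 0 < c) (hCS : S_chartSys) (hL : S_latT) (hDn : S_tDown)
    (hcr : S_crs) (hE : S_elem) (D : WallData b c) (l : ℤ × ℤ) (μ κ : ℕ × ℕ)
    (hκ : Nat.Coprime κ.1 κ.2) (hy : Gd D l μ (0, 1))
    (hG : ∀ κ' : ℕ × ℕ, Nat.Coprime κ'.1 κ'.2 → Slt κ κ' → Gd D l μ κ') :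
    Rg (tau D l (.hi κ) (l + kk b c μ)) := by
  have hs := tau_sys hb hc hCS D l
  have h1 := key_y hb hc hCS hL hcr hE D l μ hy
  have c10 : Nat.Coprime ((1, 0) : ℕ × ℕ).1 ((1, 0) : ℕ × ℕ).2 := by simp
  by_cases h10 : κ = (1, 0)
  · rw [h10]; exact h1
  · have hlt : Slt κ (1, 0) := hE.2.2.2.2.2.1 κ hκ h10
    refine hDn b c D _ _ hs (l + kk b c μ) Rg κ (1, 0) hκ c10 hlt ?_ ?_
    · intro κ' hκ' h' _
      exact key_down hb hc hCS hL hcr hE D l μ κ' hκ' (hG κ' hκ' h')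
    · exact key_down hb hc hCS hL hcr hE D l μ (1, 0) c10 (hG (1, 0) c10 hlt) h1

theorem sum_pos {κ : ℕ × ℕ} (hκ : Nat.Coprime κ.1 κ.2) : 1 ≤ κ.1 + κ.2 := by
  rcases Nat.eq_zero_or_pos (κ.1 + κ.2) with h | h
  · have h1 : κ.1 = 0 := by omega
    have h2 : κ.2 = 0 := by omega
    rw [h1, h2] at hκ
    simp at hκ
  · exact h

/-- integrality up to degree `n` -/
def INT (D : WallData b c) (n : ℕ) : Prop :=
  ∀ κ : ℕ × ℕ, Nat.Coprime κ.1 κ.2 → ∀ j : ℕ, j * (κ.1 + κ.2) ≤ n → ∀ t : ℤ,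
    Rg (PowerSeries.coeff j (D.F κ (t * gg b c κ)))

/-- Part (A). -/
theorem partOne (hb : 0 < b) (hc : 0 < c) (hCS : S_chartSys) (hL : S_latT) (hU : S_tUp)
    (hcr : S_crs) (hE : S_elem) (D : WallData b c) (l : ℤ × ℤ) (n : ℕ) (hI : INT D n) :
    ∀ s : ℕ, s ≤ n → ∀ μ : ℕ × ℕ, μ.1 + μ.2 = s → ∀ C : Chart, C.Valid →
      Rg (tau D l C (l + kk b c μ)) := by
  intro s
  induction s using Nat.strong_induction_on with
  | _ s ih =>
    intro hsn μ hμ
    have hG : ∀ κ' : ℕ × ℕ, Nat.Coprime κ'.1 κ'.2 → Gd D l μ κ' := by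
      intro κ' hκ' j hj ν hν
      have e1 : ν.1 + j * κ'.1 = μ.1 := congrArg Prod.fst hν
      have e2 : ν.2 + j * κ'.2 = μ.2 := congrArg Prod.snd hν
      have e3 : ν.1 + ν.2 + j * (κ'.1 + κ'.2) = s := by rw [← hμ, ← e1, ← e2]; ring
      have e4 : 1 ≤ j * (κ'.1 + κ'.2) := Nat.mul_pos hj (sum_pos hκ')
      constructor
      · exact hI κ' hκ' j (by omega)
      · exact ih (ν.1 + ν.2) (by omega) (by omega) ν rfl
    have c10 : Nat.Coprime ((1, 0) : ℕ × ℕ).1 ((1, 0) : ℕ × ℕ).2 := by simp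
    intro C hC
    cases C with
    | one => exact tau_one D l _
    | lo κ =>
      exact lo_Rg hb hc hCS hL hU hcr hE D l μ κ hC (hG _ c10) fun κ' hκ' _ => hG κ' hκ'
    | hi κ =>
      exact key_up hb hc hCS hL hcr hE D l μ κ hC (hG κ hC)
        (lo_Rg hb hc hCS hL hU hcr hE D l μ κ hC (hG _ c10) fun κ' hκ' _ => hG κ' hκ')

theorem exists_l (κ : ℕ × ℕ) (t : ℤ) : ∃ l : ℤ × ℤ, Lam l (kk b c κ) = -(t * gg b c κ) := by
  have h := Nat.gcd_eq_gcd_ab (b * κ.1) (c * κ.2)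
  refine ⟨(t * Nat.gcdB (b * κ.1) (c * κ.2), -(t * Nat.gcdA (b * κ.1) (c * κ.2))), ?_⟩
  have h' : gg b c κ = (b : ℤ) * κ.1 * Nat.gcdA (b * κ.1) (c * κ.2) +
      (c : ℤ) * κ.2 * Nat.gcdB (b * κ.1) (c * κ.2) := by
    rw [gg, h]; push_cast; ring
  rw [h']
  simp only [Lam, kk_fst, kk_snd]
  ring

theorem cop_scale {κ κ' : ℕ × ℕ} (hκ : Nat.Coprime κ.1 κ.2) (hκ' : Nat.Coprime κ'.1 κ'.2)
    {j j' : ℕ} (hj : 1 ≤ j) (h1 : j * κ.1 = j' * κ'.1) (h2 : j * κ.2 = j' * κ'.2) : κ = κ' := by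
  have e1 : Nat.gcd (j * κ.1) (j * κ.2) = j := by
    rw [Nat.gcd_mul_left]; rw [Nat.Coprime] at hκ; rw [hκ, mul_one]
  have e2 : Nat.gcd (j' * κ'.1) (j' * κ'.2) = j' := by
    rw [Nat.gcd_mul_left]; rw [Nat.Coprime] at hκ'; rw [hκ', mul_one]
  have e3 : j = j' := by rw [← e1, h1, h2, e2]
  subst e3
  exact Prod.ext (Nat.eq_of_mul_eq_mul_left hj h1) (Nat.eq_of_mul_eq_mul_left hj h2)

theorem Slt.ne {κ κ' : ℕ × ℕ} (h : Slt κ κ') : κ ≠ κ' := by
  intro e
  rw [e] at h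
  exact lt_irrefl _ h

theorem mainStep (hb : 0 < b) (hc : 0 < c) (hCS : S_chartSys) (hL : S_latT) (hU : S_tUp)
    (hDn : S_tDown) (hcr : S_crs) (hE : S_elem) (D : WallData b c) (n : ℕ) (hI : INT D n)
    (κ : ℕ × ℕ) (hκ : Nat.Coprime κ.1 κ.2) (hp : 1 ≤ κ.1) (hq : 1 ≤ κ.2) (j : ℕ) (hj : 1 ≤ j)
    (hn : j * (κ.1 + κ.2) = n + 1) (t : ℤ) :
    Rg (PowerSeries.coeff j (D.F κ (t * gg b c κ))) := by
  obtain ⟨l, hl⟩ := exists_l (b := b) (c := c) κ t
  have hA := partOne hb hc hCS hL hU hcr hE D l n hI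
  have hA' : ∀ ν : ℕ × ℕ, ν.1 + ν.2 ≤ n → ∀ C : Chart, C.Valid →
      Rg (tau D l C (l + kk b c ν)) := fun ν hν => hA (ν.1 + ν.2) hν ν rfl
  have hG : ∀ κ' : ℕ × ℕ, Nat.Coprime κ'.1 κ'.2 → κ' ≠ κ → Gd D l (j * κ.1, j * κ.2) κ' := by
    intro κ' hκ' hne j' hj' ν hν
    have e1 : ν.1 + j' * κ'.1 = j * κ.1 := congrArg Prod.fst hν
    have e2 : ν.2 + j' * κ'.2 = j * κ.2 := congrArg Prod.snd hν
    have e3 : ν.1 + ν.2 + j' * (κ'.1 + κ'.2) = n + 1 := by
      rw [← hn, mul_add, mul_add, ← e1, ← e2]; ring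
    have e4 : 1 ≤ j' * (κ'.1 + κ'.2) := Nat.mul_pos hj' (sum_pos hκ')
    refine ⟨?_, hA' ν (by omega)⟩
    refine hI κ' hκ' j' ?_
    by_contra hcon
    have e5 : ν.1 = 0 := by omega
    have e6 : ν.2 = 0 := by omega
    rw [e5, zero_add] at e1
    rw [e6, zero_add] at e2
    exact hne (cop_scale hκ' hκ hj' e1 e2)
  have c10 : Nat.Coprime ((1, 0) : ℕ × ℕ).1 ((1, 0) : ℕ × ℕ).2 := by simp
  have c01 : Nat.Coprime ((0, 1) : ℕ × ℕ).1 ((0, 1) : ℕ × ℕ).2 := by simp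
  have n10 : ((1, 0) : ℕ × ℕ) ≠ κ := by
    intro h
    have : (0 : ℕ) = κ.2 := congrArg Prod.snd h
    omega
  have n01 : ((0, 1) : ℕ × ℕ) ≠ κ := by
    intro h
    have : (0 : ℕ) = κ.1 := congrArg Prod.fst h
    omega
  have hlo := lo_Rg hb hc hCS hL hU hcr hE D l (j * κ.1, j * κ.2) κ hκ (hG _ c10 n10)
    fun κ' hκ' h => hG κ' hκ' (Slt.ne h)
  have hhi := hi_Rg hb hc hCS hL hDn hcr hE D l (j * κ.1, j * κ.2) κ hκ (hG _ c01 n01)
    fun κ' hκ' h => hG κ' hκ' (Slt.ne h).symm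
  have hs := tau_sys hb hc hCS D l
  obtain ⟨hsup, hlead⟩ := tau_lat hb hc hL D l (.lo κ) hκ
  rw [hs.up κ hκ, hE.1 _ _ _ _ _ (hs.bd (.lo κ) hκ) (F_zero hcr D κ hκ _)] at hhi
  have hLam : -Lam (l + kk b c (j * κ.1, j * κ.2)) (kk b c κ) = t * gg b c κ := by
    rw [Lam_add_left, hl]
    simp only [Lam, kk_fst, kk_snd]
    push_cast
    ring
  rw [hLam] at hhi
  set M : ℕ := ((l + kk (b : ℤ) c (j * κ.1, j * κ.2)).1 + (l + kk (b : ℤ) c (j * κ.1, j * κ.2)).2 -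
    2 * min l.1 l.2 + 1).toNat with hM
  have hbκ : (0 : ℤ) < b * κ.1 := by positivity
  have hcκ : (0 : ℤ) < c * κ.2 := by positivity
  have hjM : j ∈ Finset.Ico 1 M := by
    rw [Finset.mem_Ico]
    refine ⟨hj, ?_⟩
    have e1 : (j : ℤ) * 1 ≤ j * (b * κ.1) := by
      apply mul_le_mul_of_nonneg_left _ (by positivity)
      omega
    have e2 : (0 : ℤ) ≤ j * (c * κ.2) := by positivity
    have e3 : (l + kk (b : ℤ) c (j * κ.1, j * κ.2)).1 = l.1 + j * (b * κ.1) := by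
      simp only [Prod.fst_add, kk_fst]; push_cast; ring
    have e4 : (l + kk (b : ℤ) c (j * κ.1, j * κ.2)).2 = l.2 + j * (c * κ.2) := by
      simp only [Prod.snd_add, kk_snd]; push_cast; ring
    rw [hM, e3, e4]
    have e5 : min l.1 l.2 ≤ l.1 := min_le_left _ _
    have e6 : min l.1 l.2 ≤ l.2 := min_le_right _ _
    omega
  rw [← Finset.add_sum_erase _ _ hjM] at hhi
  have hterm : tau D l (.lo κ) (l + kk b c (j * κ.1, j * κ.2) - j • kk b c κ) = 1 := by
    have : l + kk (b : ℤ) c (j * κ.1, j * κ.2) - j • kk b c κ = l := by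
      refine Prod.ext ?_ ?_
      · simp only [Prod.fst_sub, Prod.fst_add, kk_fst, smul_kk_fst]
        push_cast; ring
      · simp only [Prod.snd_sub, Prod.snd_add, kk_snd, smul_kk_snd]
        push_cast; ring
    rw [this]; exact hlead
  rw [hterm, mul_one] at hhi
  have hrest : Rg (∑ x ∈ (Finset.Ico 1 M).erase j,
      PowerSeries.coeff x (D.F κ (t * gg b c κ)) *
        tau D l (.lo κ) (l + kk b c (j * κ.1, j * κ.2) - x • kk b c κ)) := by
    refine Rg.sum fun x hx => ?_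
    rw [Finset.mem_erase, Finset.mem_Ico] at hx
    by_cases h : tau D l (.lo κ) (l + kk b c (j * κ.1, j * κ.2) - x • kk b c κ) = 0
    · rw [h, mul_zero]; exact Rg.zero
    · obtain ⟨ν, hν⟩ := hsup _ h
      have hν' := pos_step hb hc hν
      have e1 : ν.1 + x * κ.1 = j * κ.1 := congrArg Prod.fst hν'
      have e2 : ν.2 + x * κ.2 = j * κ.2 := congrArg Prod.snd hν'
      have hxj : x ≤ j := by
        have : x * κ.1 ≤ j * κ.1 := by omega
        exact Nat.le_of_mul_le_mul_right this hp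
      have hxj' : x < j := by omega
      have e3 : ν.1 + ν.2 + x * (κ.1 + κ.2) = n + 1 := by
        rw [← hn, mul_add, mul_add, ← e1, ← e2]; ring
      have e4 : 1 ≤ x * (κ.1 + κ.2) := Nat.mul_pos hx.2.1 (sum_pos hκ)
      have e5 : x * (κ.1 + κ.2) < j * (κ.1 + κ.2) :=
        Nat.mul_lt_mul_of_pos_right hxj' (sum_pos hκ)
      rw [hν]
      exact (hI κ hκ x (by omega) t).mul (hA' ν (by omega) _ hκ)
  have hfin := (hhi.sub hlo).sub hrest
  have e : ∀ A B C : S, A + (B + C) - A - C = B := fun A B C => by ring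
  rwa [e] at hfin

end Integ

open Integ

theorem pr_integ (hFxy : S_Fxy) (hCS : S_chartSys) (hL : S_latT) (hU : S_tUp) (hDn : S_tDown)
    (hE : S_elem) (hcr : S_crs) : S_integ := by
  intro b c hb hc D
  have hx : ∀ (t : ℤ) (j : ℕ), Rg (PowerSeries.coeff j (D.F (1, 0) (t * gg b c (1, 0)))) := by
    intro t j
    have hg : gg b c (1, 0) = b := by simp [gg]
    rw [hg]
    rcases le_total 0 t with ht | ht
    · obtain ⟨u, rfl⟩ := Int.eq_ofNat_of_zero_le ht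
      rw [(hFxy b c D u).1, PowerSeries.coeff_map]
      exact ⟨_, rfl⟩
    · obtain ⟨u, hu⟩ := Int.eq_ofNat_of_zero_le (show 0 ≤ -t by omega)
      have hu' : t * (b : ℤ) = -((u : ℤ) * b) := by rw [← hu]; ring
      rw [hu', (hFxy b c D u).2.1, PowerSeries.coeff_map]
      exact ⟨_, rfl⟩
  have hy : ∀ (t : ℤ) (j : ℕ), Rg (PowerSeries.coeff j (D.F (0, 1) (t * gg b c (0, 1)))) := by
    intro t j
    have hg : gg b c (0, 1) = c := by simp [gg]
    rw [hg]
    rcases le_total 0 t with ht | ht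
    · obtain ⟨u, rfl⟩ := Int.eq_ofNat_of_zero_le ht
      rw [(hFxy b c D u).2.2.1, PowerSeries.coeff_map]
      exact ⟨_, rfl⟩
    · obtain ⟨u, hu⟩ := Int.eq_ofNat_of_zero_le (show 0 ≤ -t by omega)
      have hu' : t * (c : ℤ) = -((u : ℤ) * c) := by rw [← hu]; ring
      rw [hu', (hFxy b c D u).2.2.2, PowerSeries.coeff_map]
      exact ⟨_, rfl⟩
  have key : ∀ n : ℕ, INT D n := by
    intro n
    induction n with
    | zero =>
      intro κ hκ j hj t
      have h1 := sum_pos hκ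
      have h0 : j = 0 := by
        rcases Nat.eq_zero_or_pos j with h | h
        · exact h
        · have := Nat.mul_pos h h1
          omega
      rw [h0, F_zero hcr D κ hκ]
      exact Rg.one
    | succ n ih =>
      intro κ hκ j hj t
      by_cases hle : j * (κ.1 + κ.2) ≤ n
      · exact ih κ hκ j hle t
      · have hn : j * (κ.1 + κ.2) = n + 1 := by omega
        have hj1 : 1 ≤ j := by
          rcases Nat.eq_zero_or_pos j with h | h
          · rw [h, zero_mul] at hn; omega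
          · exact h
        rcases Nat.eq_zero_or_pos κ.1 with h1 | h1
        · have h2 : κ.2 = 1 := by
            rw [h1] at hκ; simpa using hκ
          have : κ = (0, 1) := Prod.ext h1 h2
          rw [this]; exact hy t j
        · rcases Nat.eq_zero_or_pos κ.2 with h2 | h2
          · have h3 : κ.1 = 1 := by
              rw [h2] at hκ; simpa using hκ
            have : κ = (1, 0) := Prod.ext h3 h2
            rw [this]; exact hx t j
          · exact mainStep hb hc hCS hL hU hDn hcr hE D n ih κ hκ h1 h2 j hj1 hn t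
  intro κ hκ t n
  exact key (n * (κ.1 + κ.2)) κ hκ n le_rfl t

end Pool.Agent.Work.MP_c41774_al.Wall

end
end

section

/-!
# Leading coefficient of a product of lattice elements
-/

noncomputable section

namespace Pool.Agent.Work.MP_c41774_al.Wall

open Finset QTorus LaurentPolynomial

theorem pr_latMul : S_latMul := by
  intro b c hb hc a u x y hx hy
  have hb' : (0 : ℤ) < (b : ℤ) := by exact_mod_cast hb
  have hc' : (0 : ℤ) < (c : ℤ) := by exact_mod_cast hc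
  have key : ∀ m i : ℤ × ℤ, w (Lam i m) * (x i * y (m - i)) ≠ 0 →
      ∃ k1 k2 : ℕ × ℕ, i = kk b c k1 - a ∧ m - i = kk b c k2 - u ∧
        m = kk b c (k1 + k2) - (a + u) := by
    intro m i h
    have h1 : x i ≠ 0 := left_ne_zero_of_mul (right_ne_zero_of_mul h)
    have h2 : y (m - i) ≠ 0 := right_ne_zero_of_mul (right_ne_zero_of_mul h)
    obtain ⟨k1, hk1⟩ := hx i h1
    obtain ⟨k2, hk2⟩ := hy (m - i) h2
    refine ⟨k1, k2, hk1, hk2, ?_⟩
    have h3 : m = (m - i) + i := by abel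
    rw [h3, hk2, hk1, kk_add]
    abel
  constructor
  · intro m hm
    rw [CT.mul_apply', CT.mulf] at hm
    obtain ⟨i, hi⟩ : ∃ i, w (Lam i m) * (x i * y (m - i)) ≠ 0 := by
      by_contra hcon
      push Not at hcon
      apply hm
      have : (fun i => w (Lam i m) * (x i * y (m - i))) = fun _ => 0 := funext hcon
      rw [this, finsum_zero]
    obtain ⟨k1, k2, -, -, h⟩ := key m i hi
    exact ⟨k1 + k2, h⟩
  · rw [CT.mul_apply', CT.mulf, finsum_eq_single _ (-a)]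
    · have e1 : -(a + u) - -a = -u := by abel
      have e2 : Lam (-a) (-(a + u)) = Lam a u := by
        simp only [Lam, Prod.fst_neg, Prod.snd_neg, Prod.fst_add, Prod.snd_add]; ring
      rw [e1, e2]
    · intro i hi
      by_contra hne
      obtain ⟨k1, k2, h1, h2, h3⟩ := key _ i hne
      apply hi
      have h4 : kk (b : ℤ) c (k1 + k2) = kk (b : ℤ) c 0 := by
        rw [kk_zero]
        have : kk (b : ℤ) c (k1 + k2) = (kk (b : ℤ) c (k1 + k2) - (a + u)) + (a + u) := by abel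
        rw [this, ← h3]
        abel
      have h5 : k1 + k2 = 0 := kk_injective hb' hc' h4
      have h6 : k1 = 0 := by
        have e1 := congrArg Prod.fst h5
        have e2 := congrArg Prod.snd h5
        simp only [Prod.fst_add, Prod.snd_add, Prod.fst_zero, Prod.snd_zero] at e1 e2
        exact Prod.ext (by simp only [Prod.fst_zero]; omega) (by simp only [Prod.snd_zero]; omega)
      rw [h1, h6, kk_zero, zero_sub]

end Pool.Agent.Work.MP_c41774_al.Wall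

end
end

section

/-!
# Item latT: support and leading coefficient in all charts
-/

noncomputable section

namespace Pool.Agent.Work.MP_c41774_al.Wall

open Finset QTorus LaurentPolynomial

theorem pr_latT (hM : S_latMul) (hg : S_g) : S_latT := by
  intro b c hb hc D C hC a x hx
  obtain ⟨h1, h2, h3, h4⟩ := (hg b c hb hc D).2 C hC
  obtain ⟨e1, e2⟩ := hM b c hb hc 0 a _ x h1 hx
  obtain ⟨e3, e4⟩ := hM b c hb hc (0 + a) 0 _ _ e1 h2
  rw [zero_add] at e1 e2 e3 e4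
  rw [add_zero] at e3 e4
  have l1 : Lam 0 a = 0 := by simp [Lam]
  have l2 : Lam a 0 = 0 := by simp [Lam]
  refine ⟨e3, ?_⟩
  have h4' : (((D.g C)⁻¹ : CTˣ) : CT) (-0) = 1 := by rw [neg_zero]; exact h4
  have h3' : (D.g C : CT) (-0) = 1 := by rw [neg_zero]; exact h3
  show ((D.g C : CT) * x * ((D.g C)⁻¹ : CTˣ)) (-a) = x (-a)
  rw [e4, e2, l1, l2, w_zero, h4', h3']
  ring

end Pool.Agent.Work.MP_c41774_al.Wall

end
end

section

/-!
# Item latUnit: lattice series with leading coefficient one are units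
-/

noncomputable section

namespace Pool.Agent.Work.MP_c41774_al.Wall

open Finset QTorus LaurentPolynomial

/-- the coefficients of the right inverse -/
def latUnit_psi (b c : ℕ) (φ : ℕ × ℕ → S) (κ : ℕ × ℕ) : S :=
  if κ = 0 then 1 else
    - ∑ i ∈ ((Finset.Iic κ).erase 0).attach,
      w ((b : ℤ) * c * ((i.1.2 : ℤ) * κ.1 - i.1.1 * κ.2)) *
        (φ i.1 * latUnit_psi b c φ (κ - i.1))
termination_by κ.1 + κ.2
decreasing_by
  have h := i.2
  rw [Finset.mem_erase, Finset.mem_Iic, Prod.le_def] at h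
  obtain ⟨h1, h2, h3⟩ := h
  have h4 : i.1.1 ≠ 0 ∨ i.1.2 ≠ 0 := by
    by_contra hcon
    push Not at hcon
    exact h1 (Prod.ext hcon.1 hcon.2)
  rw [Prod.fst_sub, Prod.snd_sub]
  omega

lemma latUnit_psi_zero (b c : ℕ) (φ : ℕ × ℕ → S) : latUnit_psi b c φ 0 = 1 := by
  rw [latUnit_psi, if_pos rfl]

lemma latUnit_psi_ne (b c : ℕ) (φ : ℕ × ℕ → S) (κ : ℕ × ℕ) (hκ : κ ≠ 0) :
    latUnit_psi b c φ κ = - ∑ i ∈ (Finset.Iic κ).erase 0,
      w ((b : ℤ) * c * ((i.2 : ℤ) * κ.1 - i.1 * κ.2)) *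
        (φ i * latUnit_psi b c φ (κ - i)) := by
  rw [latUnit_psi, if_neg hκ]
  congr 1
  exact Finset.sum_attach ((Finset.Iic κ).erase 0) (fun i =>
    w ((b : ℤ) * c * ((i.2 : ℤ) * κ.1 - i.1 * κ.2)) * (φ i * latUnit_psi b c φ (κ - i)))

lemma latUnit_tmul (b c : ℕ) (φ : ℕ × ℕ → S) (h0 : φ 0 = 1) (κ : ℕ × ℕ) :
    tmul b c φ (latUnit_psi b c φ) κ = if κ = 0 then 1 else 0 := by
  have hmem : (0 : ℕ × ℕ) ∈ Finset.Iic κ := by
    rw [Finset.mem_Iic]
    exact ⟨Nat.zero_le _, Nat.zero_le _⟩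
  unfold tmul
  rw [← Finset.add_sum_erase _ _ hmem]
  have hfirst : w ((b : ℤ) * c * (((0 : ℕ × ℕ).2 : ℤ) * κ.1 - ((0 : ℕ × ℕ).1 : ℤ) * κ.2)) *
      (φ 0 * latUnit_psi b c φ (κ - 0)) = latUnit_psi b c φ κ := by
    have h1 : (b : ℤ) * c * (((0 : ℕ × ℕ).2 : ℤ) * κ.1 - ((0 : ℕ × ℕ).1 : ℤ) * κ.2) = 0 := by
      simp
    rw [h1, w_zero, h0, one_mul, one_mul, tsub_zero]
  rw [hfirst]
  by_cases hκ : κ = 0
  · rw [if_pos hκ, hκ, latUnit_psi_zero]
    have hE : (Finset.Iic (0 : ℕ × ℕ)).erase 0 = ∅ := by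
      ext i
      simp only [Finset.mem_erase, Finset.mem_Iic, Finset.notMem_empty, iff_false, not_and]
      intro h1 h2
      exact h1 (le_antisymm h2 ⟨Nat.zero_le _, Nat.zero_le _⟩)
    rw [hE, Finset.sum_empty, add_zero]
  · rw [if_neg hκ, latUnit_psi_ne b c φ κ hκ, neg_add_cancel]

lemma latUnit_kk_zero (b c : ℕ) : kk (b : ℤ) (c : ℤ) (0 : ℕ × ℕ) = 0 := by
  refine Prod.ext ?_ ?_
  · rw [kk_fst]; simp
  · rw [kk_snd]; simp

lemma latUnit_ser {b c : ℕ} (hb : 0 < b) (hc : 0 < c) (x : CT) (hx : Lat b c 0 x) :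
    ser b c (fun κ => x (kk b c κ)) = x := by
  refine CT.ext fun m => ?_
  by_cases hm : x m = 0
  · rw [hm]
    show (if _ then _ else _) = (0 : S)
    split_ifs with h
    · show x (kk b c ((m.1 / b).toNat, (m.2 / c).toNat)) = 0
      rw [h, hm]
    · rfl
  · obtain ⟨κ, hκ⟩ := hx m hm
    rw [sub_zero] at hκ
    rw [hκ, ser_kk hb hc]

lemma latUnit_one {b c : ℕ} (hb : 0 < b) (hc : 0 < c) :
    ser b c (fun κ => if κ = 0 then 1 else 0) = 1 := by
  refine CT.ext fun m => ?_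
  rw [CT.one_apply]
  by_cases hm : m = 0
  · rw [if_pos hm, hm, ← latUnit_kk_zero b c, ser_kk hb hc, if_pos rfl]
  · rw [if_neg hm]
    show (if _ then _ else _) = (0 : S)
    split_ifs with h h'
    · exfalso
      rw [h', latUnit_kk_zero] at h
      exact hm h.symm
    · rfl
    · rfl

lemma latUnit_right (h : S_serMul) {b c : ℕ} (hb : 0 < b) (hc : 0 < c) (x : CT)
    (hx : Lat b c 0 x) (h0 : x 0 = 1) : ∃ y : CT, Lat b c 0 y ∧ y 0 = 1 ∧ x * y = 1 := by
  set φ : ℕ × ℕ → S := fun κ => x (kk b c κ) with hφ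
  have hφ0 : φ 0 = 1 := by
    show x (kk (b : ℤ) (c : ℤ) (0 : ℕ × ℕ)) = 1
    rw [latUnit_kk_zero, h0]
  refine ⟨ser b c (latUnit_psi b c φ), ser_lat _, ?_, ?_⟩
  · have h1 := ser_kk hb hc (latUnit_psi b c φ) 0
    rw [latUnit_kk_zero] at h1
    rw [h1, latUnit_psi_zero]
  · have h1 : x = ser b c φ := (latUnit_ser hb hc x hx).symm
    conv_lhs => rw [h1]
    rw [h b c hb hc, ← latUnit_one hb hc]
    congr 1
    funext κ
    exact latUnit_tmul b c φ hφ0 κ

theorem pr_latUnit (h : S_serMul) : S_latUnit := by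
  intro b c hb hc x hx h0
  obtain ⟨y, hy, hy0, hxy⟩ := latUnit_right h hb hc x hx h0
  obtain ⟨z, _, _, hyz⟩ := latUnit_right h hb hc y hy hy0
  refine ⟨y, hy, hy0, hxy, ?_⟩
  have hxz : x = z := by
    calc x = x * (y * z) := by rw [hyz, mul_one]
      _ = (x * y) * z := by rw [mul_assoc]
      _ = z := by rw [hxy, one_mul]
  rw [hxz]
  exact hyz

end Pool.Agent.Work.MP_c41774_al.Wall

end
end

section

/-!
# The product of two lattice series
-/

noncomputable section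

namespace Pool.Agent.Work.MP_c41774_al.Wall

open Finset QTorus LaurentPolynomial

theorem pr_serMul : S_serMul := by
  intro b c hb hc φ ψ
  have hinj : Function.Injective (kk (b : ℤ) (c : ℤ)) :=
    kk_injective (by exact_mod_cast hb) (by exact_mod_cast hc)
  refine CT.ext fun m => ?_
  -- nonzero terms
  have key : ∀ i : ℤ × ℤ, w (Lam i m) * (ser b c φ i * ser b c ψ (m - i)) ≠ 0 →
      ∃ κ₁ κ₂ : ℕ × ℕ, i = kk b c κ₁ ∧ m = kk b c (κ₁ + κ₂) := by
    intro i hi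
    have h1 : ser b c φ i ≠ 0 := left_ne_zero_of_mul (right_ne_zero_of_mul hi)
    have h2 : ser b c ψ (m - i) ≠ 0 := right_ne_zero_of_mul (right_ne_zero_of_mul hi)
    obtain ⟨κ₁, h1⟩ := ser_lat φ _ h1
    obtain ⟨κ₂, h2⟩ := ser_lat ψ _ h2
    rw [sub_zero] at h1 h2
    refine ⟨κ₁, κ₂, h1, ?_⟩
    rw [kk_add, ← h1, ← h2]
    abel
  by_cases hm : ∃ κ : ℕ × ℕ, m = kk b c κ
  · obtain ⟨κ, rfl⟩ := hm
    rw [ser_kk hb hc, CT.mul_apply', CT.mulf,
      finsum_eq_sum_of_support_subset (s := (Iic κ).image (kk (b : ℤ) (c : ℤ))),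
      Finset.sum_image (fun x _ y _ h => hinj h), tmul]
    · refine Finset.sum_congr rfl fun i hi => ?_
      have hle : i ≤ κ := Finset.mem_Iic.mp hi
      have e1 : kk (b : ℤ) c κ - kk (b : ℤ) c i = kk (b : ℤ) c (κ - i) := by
        have : kk (b : ℤ) c κ = kk (b : ℤ) c (κ - i) + kk (b : ℤ) c i := by
          rw [← kk_add, tsub_add_cancel_of_le hle]
        rw [this]; abel
      rw [e1, ser_kk hb hc, ser_kk hb hc]
      congr 2
      simp only [Lam, kk_fst, kk_snd]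
      ring
    · intro i hi
      rw [Function.mem_support] at hi
      obtain ⟨κ₁, κ₂, h1, h2⟩ := key i hi
      have h3 : κ = κ₁ + κ₂ := hinj h2
      rw [Finset.mem_coe, Finset.mem_image]
      exact ⟨κ₁, Finset.mem_Iic.mpr (by rw [h3]; exact le_self_add), h1.symm⟩
  · have hr : ser b c (tmul b c φ ψ) m = 0 := by
      by_contra h
      obtain ⟨κ, hκ⟩ := ser_lat _ _ h
      rw [sub_zero] at hκ
      exact hm ⟨κ, hκ⟩
    rw [hr, CT.mul_apply', CT.mulf]
    apply finsum_eq_zero_of_forall_eq_zero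
    intro i
    by_contra h
    obtain ⟨κ₁, κ₂, -, h2⟩ := key i h
    exact hm ⟨κ₁ + κ₂, h2⟩

end Pool.Agent.Work.MP_c41774_al.Wall

end
end
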