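import Pool.Agent.Work.MP_c41774_al.Bd.B07
import Pool.Agent.Work.MP_c41774_al.Bd.B06
import Pool.Agent.Work.MP_c41774_al.Bd.B12
import Pool.Agent.Work.MP_c41774_al.Bd.B10
import Pool.Agent.Work.MP_c41774_al.Bd.B11
import Pool.Agent.Work.MP_c41774_al.Bd.B13
import Pool.Agent.Work.MP_c41774_al.Bd.B02
import Pool.Agent.Work.MP_c41774_al.Bd.B08
import Pool.Agent.Work.MP_c41774_al.Bd.B09
import Pool.Agent.Work.MP_c41774_al.Greedy

/-! Bundle of small proof modules (one section per former module). -/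

section

/-!
# Block T: assembly, `T_POS` from `T_ROT`
-/

noncomputable section

namespace Pool.Agent.Work.MP_c41774_al.Full.T

theorem T_NUM_all : T_NUM := pr_NUM pr_TL (pr_NUM1 pr_TL pr_PER
  (pr_ST1 pr_TL (pr_HT pr_TL) pr_PER pr_SUBC pr_UNI)
  (pr_ST2 pr_TL (pr_HT pr_TL) pr_PER pr_UNI) pr_REC pr_ARI)

theorem T_CHI_all (hROT : T_ROT) : T_CHI :=
  pr_CHIa pr_REL (pr_DDIM pr_REL) pr_COM pr_DDU pr_MAT pr_PW pr_UFD pr_SYM hROT pr_TTU pr_DMAP
    pr_DSUM

theorem T_POS_of_ROT (hROT : T_ROT) : T_POS :=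
  pr_END pr_DSUM pr_PW pr_UFD pr_TL T_NUM_all (T_CHI_all hROT) pr_DEC pr_SER

end Pool.Agent.Work.MP_c41774_al.Full.T

end
end

section

/-!
# Block R: assembly

All outputs `R_*` of the ring level part.
-/

noncomputable section

namespace Pool.Agent.Work.MP_c41774_al.Full

theorem rAll_DEGE : Q_DEGE := pr_R_DEGE pr_R_SYMN
theorem rAll_JOIN : Q_JOIN := pr_R_JOIN pr_R_SYMN
theorem rAll_RST : Q_RST := pr_R_RST pr_R_SYMN rAll_DEGE
theorem rAll_MERGE : Q_MERGE := pr_R_MERGE pr_R_SYMN rAll_DEGE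
theorem rAll_INN : Q_INN := pr_R_INN pr_R_GEN
theorem rAll_MUL1 : Q_MUL1 := pr_R_MUL1 rAll_INN
theorem rAll_SYM1 : Q_SYM1 := pr_R_SYM1 rAll_JOIN pr_R_MUL0 rAll_MUL1
theorem rAll_PRO : R_PRO := pr_R_PRO rAll_JOIN pr_R_MUL0 rAll_MUL1
theorem rAll_DIV : Q_DIV := pr_R_DIV rAll_MERGE pr_R_EXCH pr_R_TTC pr_R_TAY
theorem rAll_B1 : Q_B1 := pr_R_B1 pr_R_EXCH pr_R_TTC
theorem rAll_SYMQ : Q_SYMQ := pr_R_SYMQ rAll_DEGE rAll_DIV pr_R_PROD pr_R_DIVU rAll_B1
theorem rAll_SPL : Q_SPL := pr_R_SPL pr_R_GEN pr_R_NE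
theorem rAll_CTI : Q_CTI := pr_R_CTI pr_R_CTR pr_R_DEC rAll_SPL
theorem rAll_CTP : Q_CTP := pr_R_CTP rAll_RST rAll_SPL rAll_CTI
theorem rAll_TWO : Q_TWO := pr_R_TWO pr_R_DEC pr_R_LA rAll_CTP
theorem rAll_BDEC : Q_BDEC := pr_R_BDEC rAll_TWO
theorem rAll_OFF : R_OFF := pr_R_OFF rAll_SYM1
theorem rAll_ON : R_ON := pr_R_ON rAll_DEGE pr_R_SYM2
theorem rAll_PUSH : R_PUSH := pr_R_PUSH rAll_INN
theorem rAll_GB : Q_GB :=
  pr_R_GB rAll_DEGE rAll_SYMQ rAll_BDEC pr_R_ZMUL pr_R_ZTOP rAll_PRO rAll_OFF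
    rAll_ON rAll_PUSH
theorem rAll_STEP : Q_STEP := pr_R_STEP rAll_DEGE rAll_GB
theorem rAll_QSPAN : Q_SPAN := pr_R_SPAN pr_R_PF rAll_STEP
theorem rAll_SPLIT : Q_SPLIT := pr_R_SPLIT rAll_DEGE
theorem rAll_EXT : Q_EXT := pr_R_EXT pr_R_SYMN rAll_DEGE
theorem rAll_IPI : Q_IPI := pr_R_IPI rAll_SPL
theorem rAll_TRJ : Q_TRJ := pr_R_TRJ rAll_EXT rAll_IPI
theorem rAll_BLK : R_BLK := pr_R_BLK rAll_SPLIT rAll_IPI
theorem rAll_SWAP : R_SWAP :=
  pr_R_SWAP pr_R_SYMN rAll_DEGE rAll_SYM1 pr_R_SYM2 pr_R_PF rAll_PRO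
theorem rAll_FUN : R_FUN := pr_R_FUNC pr_R_FUN pr_R_GEN
theorem rAll_SPAN : R_SPAN := pr_R_OUT rAll_QSPAN rAll_TRJ

/-- all outputs of block R -/
theorem rAll : R_SPAN ∧ R_PRO ∧ R_ZPF ∧ R_BLK ∧ R_OFF ∧ R_ON ∧ R_SWAP ∧
    R_FUN ∧ R_HOM ∧ R_PUSH ∧ R_EXH :=
  ⟨rAll_SPAN, rAll_PRO, pr_R_ZPF, rAll_BLK, rAll_OFF, rAll_ON, rAll_SWAP, rAll_FUN,
    pr_R_HOM, rAll_PUSH, pr_R_EXH⟩

end Pool.Agent.Work.MP_c41774_al.Full

end
end

section

/-!
# Block P: `P_PBW` from the ring level outputs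
-/

noncomputable section

namespace Pool.Agent.Work.MP_c41774_al.Full

theorem blockP_of_R (rSPAN : R_SPAN) (rPRO : R_PRO) (rZPF : R_ZPF) (rBLK : R_BLK) (rOFF : R_OFF)
    (rON : R_ON) (rSWAP : R_SWAP) (rFUN : R_FUN) (rHOM : R_HOM) (rPUSH : R_PUSH)
    (rEXH : R_EXH) : P_PBW := by
  have cRELI : C_RELI := pr_RELI
  have cREL : C_REL := pr_REL cRELI
  have cACT : C_ACT := pr_ACT cREL
  have cAV : C_AV := pr_AV
  have cFD : C_FD := pr_FD
  have cHOM : C_HOM := pr_HOM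
  have cBAS : C_BAS := pr_BAS
  have cCARD : C_CARD := pr_CARD
  have cREF : C_REF := pr_REF
  have cSHI : C_SHI := pr_SHI
  have wRELA : W_RELA := pr_W_RELA
  have wRELB : W_RELB := pr_W_RELB
  have wRELP : W_RELP := pr_W_RELP
  have wSGN : W_SGN := pr_W_SGN
  have wSGB : W_SGB := pr_W_SGB
  have wSTAB : W_STAB := pr_W_STAB wSGN
  have wODDS : W_ODDS := pr_W_ODDS wSGN
  have wGW : W_GW := pr_W_GW
  have wBAD : W_BAD := pr_W_BAD
  have wSHR : W_SHR := pr_W_SHR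
  have wDLS : W_DLS := pr_W_DLS
  have wPRF : W_PRF := pr_W_PRF wGW rBLK rZPF
  have wTOP : W_TOP := pr_W_TOP wPRF wSHR
  have wMEM : W_MEM := pr_W_MEM wGW wBAD wPRF rPRO cREL cACT cAV
  have wBB : W_BB := pr_W_BB cBAS cFD
  have wMU : W_MU := pr_W_MU cHOM
  have wAVG : W_AVG := pr_W_AVG wRELA wSGB cAV
  have wEXP : W_EXP := pr_W_EXP cRELI wGW rHOM rPUSH
  have wONE : W_ONE := pr_W_ONE rSPAN cREL
  have wSPAN : W_SPAN := pr_W_SPAN wONE wAVG wEXP wMEM cAV cACT cHOM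
  have wSWP : W_SWP := pr_W_SWP wRELP wGW wBAD wPRF rSWAP
  have wSWF : W_SWF := pr_W_SWF wSWP wRELA cAV cACT cREL
  have wODD : W_ODD := pr_W_ODD wSWP wODDS wRELA cAV cACT cREL
  have wOFF : W_OFF := pr_W_OFF wSHR wGW wBAD wPRF rOFF cRELI
  have wON : W_ON := pr_W_ON wSHR wDLS wGW wPRF wTOP rON cRELI
  have wLOW : W_LOW := pr_W_LOW wGW
  have wLOI : W_LOI := pr_W_LOI cREF cSHI
  have wVAL : W_VAL := pr_W_VAL wSGB
  have wSYM : W_SYM := pr_W_SYM rFUN wOFF wON wLOW wLOI wVAL wSTAB wDLS cREL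
  have wIND : W_IND := pr_W_IND wSYM wMEM wMU wDLS
  have wRED : W_RED := pr_W_RED wSPAN wMEM wSWF wODD wDLS
  exact pr_P_PBW wBB pr_W_TUP pr_W_LAB wMEM wIND wRED pr_W_CARD (pr_W_ZERO cCARD) rEXH cFD

end Pool.Agent.Work.MP_c41774_al.Full

end
end

section

/-!
# Block T: `T_POS`
-/

noncomputable section

namespace Pool.Agent.Work.MP_c41774_al.Full.T

theorem T_POS_all : T_POS := T_POS_of_ROT pr_ROT

end Pool.Agent.Work.MP_c41774_al.Full.T

end
end

section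

/-!
# Item tDown: transport of a property down through the walls
-/

noncomputable section

namespace Pool.Agent.Work.MP_c41774_al.Wall

open Finset QTorus LaurentPolynomial

theorem tDown_trans {κ κ' κ'' : ℕ × ℕ} (h : Slt κ κ') (h' : Slt κ' κ'') : Slt κ κ'' := by
  unfold Slt at *
  have hq : 0 < κ.2 := by
    rcases Nat.eq_zero_or_pos κ.2 with h0 | h0
    · rw [h0, mul_zero] at h; omega
    · exact h0
  have hq' : 0 < κ'.2 := by
    rcases Nat.eq_zero_or_pos κ'.2 with h0 | h0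
    · rw [h0, mul_zero] at h'; omega
    · exact h0
  have h1 : κ'.2 * (κ.1 * κ''.2) < κ'.2 * (κ''.1 * κ.2) := by
    calc κ'.2 * (κ.1 * κ''.2) = (κ.1 * κ'.2) * κ''.2 := by ring
      _ ≤ (κ'.1 * κ.2) * κ''.2 := Nat.mul_le_mul_right _ h.le
      _ = (κ'.1 * κ''.2) * κ.2 := by ring
      _ < (κ''.1 * κ'.2) * κ.2 := Nat.mul_lt_mul_of_pos_right h' hq
      _ = κ'.2 * (κ''.1 * κ.2) := by ring
  exact Nat.lt_of_mul_lt_mul_left h1

theorem tDown_irrefl (κ : ℕ × ℕ) : ¬ Slt κ κ := by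
  unfold Slt
  exact lt_irrefl _

/-- the reduced form of a vector strictly between two slopes -/
theorem tDown_red {κ₁ κ₂ κ' : ℕ × ℕ} {n : ℕ} (hn : κ' ≤ ((n, n) : ℕ × ℕ)) (h1 : Slt κ₁ κ')
    (h2 : Slt κ' κ₂) : ∃ κ : ℕ × ℕ, Nat.Coprime κ.1 κ.2 ∧ κ ≤ ((n, n) : ℕ × ℕ) ∧ Slt κ₁ κ ∧
      Slt κ κ₂ := by
  have hp : 0 < κ'.1 := by
    unfold Slt at h1
    rcases Nat.eq_zero_or_pos κ'.1 with h0 | h0
    · rw [h0, zero_mul] at h1; omega
    · exact h0
  have hd : 0 < Nat.gcd κ'.1 κ'.2 := Nat.gcd_pos_of_pos_left _ hp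
  set d := Nat.gcd κ'.1 κ'.2 with hdd
  obtain ⟨p, hp'⟩ : d ∣ κ'.1 := Nat.gcd_dvd_left _ _
  obtain ⟨q, hq'⟩ : d ∣ κ'.2 := Nat.gcd_dvd_right _ _
  have hcop : Nat.Coprime p q := by
    have h3 : Nat.gcd κ'.1 κ'.2 = d * Nat.gcd p q := by
      conv_lhs => rw [hp', hq']
      exact Nat.gcd_mul_left _ _ _
    rw [← hdd] at h3
    have h4 : d * 1 = d * Nat.gcd p q := by rw [mul_one]; exact h3
    exact (Nat.eq_of_mul_eq_mul_left hd h4).symm
  have hle1 : p ≤ κ'.1 := by rw [hp']; exact Nat.le_mul_of_pos_left p hd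
  have hle2 : q ≤ κ'.2 := by rw [hq']; exact Nat.le_mul_of_pos_left q hd
  refine ⟨(p, q), hcop, ⟨le_trans hle1 hn.1, le_trans hle2 hn.2⟩, ?_, ?_⟩
  · unfold Slt at *
    rw [hp', hq'] at h1
    have h3 : d * (κ₁.1 * q) < d * (p * κ₁.2) := by
      calc d * (κ₁.1 * q) = κ₁.1 * (d * q) := by ring
        _ < d * p * κ₁.2 := h1
        _ = d * (p * κ₁.2) := by ring
    exact Nat.lt_of_mul_lt_mul_left h3
  · unfold Slt at *
    rw [hp', hq'] at h2
    have h3 : d * (p * κ₂.2) < d * (κ₂.1 * q) := by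
      calc d * (p * κ₂.2) = d * p * κ₂.2 := by ring
        _ < κ₂.1 * (d * q) := h2
        _ = d * (κ₂.1 * q) := by ring
    exact Nat.lt_of_mul_lt_mul_left h3

theorem pr_tDown : S_tDown := by
  classical
  intro b c D N τ H l Q κ₁ κ₂ hc1 hc2 h12 step hQ
  obtain ⟨n, hn⟩ := H.next l
  have key : ∀ m : ℕ, ∀ κ₁ κ₂ : ℕ × ℕ, Nat.Coprime κ₁.1 κ₁.2 → Nat.Coprime κ₂.1 κ₂.2 →
      Slt κ₁ κ₂ →
      (∀ κ : ℕ × ℕ, Nat.Coprime κ.1 κ.2 → Slt κ₁ κ → Slt κ κ₂ →
        Q (τ (.hi κ) l) → Q (τ (.lo κ) l)) →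
      #((Finset.Iic ((n, n) : ℕ × ℕ)).filter fun κ' => Slt κ₁ κ' ∧ Slt κ' κ₂) = m →
      Q (τ (.lo κ₂) l) → Q (τ (.hi κ₁) l) := by
    intro m
    induction m using Nat.strong_induction_on with
    | _ m ih =>
      intro κ₁ κ₂ hc1 hc2 h12 step hm hQ
      by_cases hex : ∃ κ' ≤ ((n, n) : ℕ × ℕ), Slt κ₁ κ' ∧ Slt κ' κ₂
      · obtain ⟨κ', hκ', h1, h2⟩ := hex
        obtain ⟨κ, hc, hκn, hκ1, hκ2⟩ := tDown_red hκ' h1 h2
        have hmem : κ ∈ (Finset.Iic ((n, n) : ℕ × ℕ)).filter fun κ' => Slt κ₁ κ' ∧ Slt κ' κ₂ :=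
          Finset.mem_filter.mpr ⟨Finset.mem_Iic.mpr hκn, hκ1, hκ2⟩
        have hlt1 : #((Finset.Iic ((n, n) : ℕ × ℕ)).filter fun κ' => Slt κ₁ κ' ∧ Slt κ' κ) <
            #((Finset.Iic ((n, n) : ℕ × ℕ)).filter fun κ' => Slt κ₁ κ' ∧ Slt κ' κ₂) := by
          apply Finset.card_lt_card
          refine Finset.ssubset_iff_subset_ne.mpr ⟨?_, ?_⟩
          · intro x hx
            rw [Finset.mem_filter] at hx ⊢
            exact ⟨hx.1, hx.2.1, tDown_trans hx.2.2 hκ2⟩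
          · intro heq
            rw [← heq, Finset.mem_filter] at hmem
            exact tDown_irrefl κ hmem.2.2
        have hlt2 : #((Finset.Iic ((n, n) : ℕ × ℕ)).filter fun κ' => Slt κ κ' ∧ Slt κ' κ₂) <
            #((Finset.Iic ((n, n) : ℕ × ℕ)).filter fun κ' => Slt κ₁ κ' ∧ Slt κ' κ₂) := by
          apply Finset.card_lt_card
          refine Finset.ssubset_iff_subset_ne.mpr ⟨?_, ?_⟩
          · intro x hx
            rw [Finset.mem_filter] at hx ⊢
            exact ⟨hx.1, tDown_trans hκ1 hx.2.1, hx.2.2⟩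
          · intro heq
            rw [← heq, Finset.mem_filter] at hmem
            exact tDown_irrefl κ hmem.2.1
        have s1 : Q (τ (.hi κ) l) := ih _ (hm ▸ hlt2) κ κ₂ hc hc2 hκ2
          (fun x hx hx1 hx2 => step x hx (tDown_trans hκ1 hx1) hx2) rfl hQ
        have s2 : Q (τ (.lo κ) l) := step κ hc hκ1 hκ2 s1
        exact ih _ (hm ▸ hlt1) κ₁ κ hc1 hc hκ1
          (fun x hx hx1 hx2 => step x hx hx1 (tDown_trans hx2 hκ2)) rfl s2
      · have hno : ∀ κ' ≤ ((n, n) : ℕ × ℕ), ¬ (Slt κ₁ κ' ∧ Slt κ' κ₂) :=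
          fun κ' h h' => hex ⟨κ', h, h'⟩
        rw [hn κ₁ κ₂ hc1 hc2 h12 hno]
        exact hQ
  exact key _ κ₁ κ₂ hc1 hc2 h12 step rfl hQ

end Pool.Agent.Work.MP_c41774_al.Wall

end
end

section

/-!
# Item tUp: transport of a property up through the walls
-/

noncomputable section

namespace Pool.Agent.Work.MP_c41774_al.Wall

open Finset QTorus LaurentPolynomial

theorem tUp_trans {κ κ' κ'' : ℕ × ℕ} (h : Slt κ κ') (h' : Slt κ' κ'') : Slt κ κ'' := by
  unfold Slt at *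
  have hq : 0 < κ.2 := by
    rcases Nat.eq_zero_or_pos κ.2 with h0 | h0
    · rw [h0, mul_zero] at h; omega
    · exact h0
  have hq' : 0 < κ'.2 := by
    rcases Nat.eq_zero_or_pos κ'.2 with h0 | h0
    · rw [h0, mul_zero] at h'; omega
    · exact h0
  have h1 : κ'.2 * (κ.1 * κ''.2) < κ'.2 * (κ''.1 * κ.2) := by
    calc κ'.2 * (κ.1 * κ''.2) = (κ.1 * κ'.2) * κ''.2 := by ring
      _ ≤ (κ'.1 * κ.2) * κ''.2 := Nat.mul_le_mul_right _ h.le
      _ = (κ'.1 * κ''.2) * κ.2 := by ring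
      _ < (κ''.1 * κ'.2) * κ.2 := Nat.mul_lt_mul_of_pos_right h' hq
      _ = κ'.2 * (κ''.1 * κ.2) := by ring
  exact Nat.lt_of_mul_lt_mul_left h1

theorem tUp_irrefl (κ : ℕ × ℕ) : ¬ Slt κ κ := by
  unfold Slt
  exact lt_irrefl _

/-- the reduced form of a vector strictly between two slopes -/
theorem tUp_red {κ₁ κ₂ κ' : ℕ × ℕ} {n : ℕ} (hn : κ' ≤ ((n, n) : ℕ × ℕ)) (h1 : Slt κ₁ κ')
    (h2 : Slt κ' κ₂) : ∃ κ : ℕ × ℕ, Nat.Coprime κ.1 κ.2 ∧ κ ≤ ((n, n) : ℕ × ℕ) ∧ Slt κ₁ κ ∧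
      Slt κ κ₂ := by
  have hp : 0 < κ'.1 := by
    unfold Slt at h1
    rcases Nat.eq_zero_or_pos κ'.1 with h0 | h0
    · rw [h0, zero_mul] at h1; omega
    · exact h0
  have hd : 0 < Nat.gcd κ'.1 κ'.2 := Nat.gcd_pos_of_pos_left _ hp
  set d := Nat.gcd κ'.1 κ'.2 with hdd
  obtain ⟨p, hp'⟩ : d ∣ κ'.1 := Nat.gcd_dvd_left _ _
  obtain ⟨q, hq'⟩ : d ∣ κ'.2 := Nat.gcd_dvd_right _ _
  have hcop : Nat.Coprime p q := by
    have h3 : Nat.gcd κ'.1 κ'.2 = d * Nat.gcd p q := by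
      conv_lhs => rw [hp', hq']
      exact Nat.gcd_mul_left _ _ _
    rw [← hdd] at h3
    have h4 : d * 1 = d * Nat.gcd p q := by rw [mul_one]; exact h3
    exact (Nat.eq_of_mul_eq_mul_left hd h4).symm
  have hle1 : p ≤ κ'.1 := by rw [hp']; exact Nat.le_mul_of_pos_left p hd
  have hle2 : q ≤ κ'.2 := by rw [hq']; exact Nat.le_mul_of_pos_left q hd
  refine ⟨(p, q), hcop, ⟨le_trans hle1 hn.1, le_trans hle2 hn.2⟩, ?_, ?_⟩
  · unfold Slt at *
    rw [hp', hq'] at h1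
    have h3 : d * (κ₁.1 * q) < d * (p * κ₁.2) := by
      calc d * (κ₁.1 * q) = κ₁.1 * (d * q) := by ring
        _ < d * p * κ₁.2 := h1
        _ = d * (p * κ₁.2) := by ring
    exact Nat.lt_of_mul_lt_mul_left h3
  · unfold Slt at *
    rw [hp', hq'] at h2
    have h3 : d * (p * κ₂.2) < d * (κ₂.1 * q) := by
      calc d * (p * κ₂.2) = d * p * κ₂.2 := by ring
        _ < κ₂.1 * (d * q) := h2
        _ = d * (κ₂.1 * q) := by ring
    exact Nat.lt_of_mul_lt_mul_left h3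

theorem pr_tUp : S_tUp := by
  classical
  intro b c D N τ H l Q κ₁ κ₂ hc1 hc2 h12 step hQ
  obtain ⟨n, hn⟩ := H.next l
  have key : ∀ m : ℕ, ∀ κ₁ κ₂ : ℕ × ℕ, Nat.Coprime κ₁.1 κ₁.2 → Nat.Coprime κ₂.1 κ₂.2 →
      Slt κ₁ κ₂ →
      (∀ κ : ℕ × ℕ, Nat.Coprime κ.1 κ.2 → Slt κ₁ κ → Slt κ κ₂ →
        Q (τ (.lo κ) l) → Q (τ (.hi κ) l)) →
      #((Finset.Iic ((n, n) : ℕ × ℕ)).filter fun κ' => Slt κ₁ κ' ∧ Slt κ' κ₂) = m →
      Q (τ (.hi κ₁) l) → Q (τ (.lo κ₂) l) := by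
    intro m
    induction m using Nat.strong_induction_on with
    | _ m ih =>
      intro κ₁ κ₂ hc1 hc2 h12 step hm hQ
      by_cases hex : ∃ κ' ≤ ((n, n) : ℕ × ℕ), Slt κ₁ κ' ∧ Slt κ' κ₂
      · obtain ⟨κ', hκ', h1, h2⟩ := hex
        obtain ⟨κ, hc, hκn, hκ1, hκ2⟩ := tUp_red hκ' h1 h2
        have hmem : κ ∈ (Finset.Iic ((n, n) : ℕ × ℕ)).filter fun κ' => Slt κ₁ κ' ∧ Slt κ' κ₂ :=
          Finset.mem_filter.mpr ⟨Finset.mem_Iic.mpr hκn, hκ1, hκ2⟩
        have hlt1 : #((Finset.Iic ((n, n) : ℕ × ℕ)).filter fun κ' => Slt κ₁ κ' ∧ Slt κ' κ) <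
            #((Finset.Iic ((n, n) : ℕ × ℕ)).filter fun κ' => Slt κ₁ κ' ∧ Slt κ' κ₂) := by
          apply Finset.card_lt_card
          refine Finset.ssubset_iff_subset_ne.mpr ⟨?_, ?_⟩
          · intro x hx
            rw [Finset.mem_filter] at hx ⊢
            exact ⟨hx.1, hx.2.1, tUp_trans hx.2.2 hκ2⟩
          · intro heq
            rw [← heq, Finset.mem_filter] at hmem
            exact tUp_irrefl κ hmem.2.2
        have hlt2 : #((Finset.Iic ((n, n) : ℕ × ℕ)).filter fun κ' => Slt κ κ' ∧ Slt κ' κ₂) <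
            #((Finset.Iic ((n, n) : ℕ × ℕ)).filter fun κ' => Slt κ₁ κ' ∧ Slt κ' κ₂) := by
          apply Finset.card_lt_card
          refine Finset.ssubset_iff_subset_ne.mpr ⟨?_, ?_⟩
          · intro x hx
            rw [Finset.mem_filter] at hx ⊢
            exact ⟨hx.1, tUp_trans hκ1 hx.2.1, hx.2.2⟩
          · intro heq
            rw [← heq, Finset.mem_filter] at hmem
            exact tUp_irrefl κ hmem.2.1
        have s1 : Q (τ (.lo κ) l) := ih _ (hm ▸ hlt1) κ₁ κ hc1 hc hκ1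
          (fun x hx hx1 hx2 => step x hx hx1 (tUp_trans hx2 hκ2)) rfl hQ
        have s2 : Q (τ (.hi κ) l) := step κ hc hκ1 hκ2 s1
        exact ih _ (hm ▸ hlt2) κ κ₂ hc hc2 hκ2
          (fun x hx hx1 hx2 => step x hx (tUp_trans hκ1 hx1) hx2) rfl s2
      · have hno : ∀ κ' ≤ ((n, n) : ℕ × ℕ), ¬ (Slt κ₁ κ' ∧ Slt κ' κ₂) :=
          fun κ' h h' => hex ⟨κ', h, h'⟩
        rw [← hn κ₁ κ₂ hc1 hc2 h12 hno]
        exact hQ
  exact key _ κ₁ κ₂ hc1 hc2 h12 step rfl hQ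

end Pool.Agent.Work.MP_c41774_al.Wall

end
end

section

/-!
# Truncation of products and inverses
-/

noncomputable section

namespace Pool.Agent.Work.MP_c41774_al.Wall

open Finset QTorus LaurentPolynomial

theorem trunc_mul (M N : ℤ) (d : ℤ × ℤ) (x x' y y' : CT) (hx : Bd M x) (hx' : Bd M x')
    (hy : Bd N y) (hy' : Bd N y') (h1 : Teq (d.1 - N, d.2 - N) x x')
    (h2 : Teq (d.1 - M, d.2 - M) y y') : Teq d (x * y) (x' * y') := by
  intro m hm
  rw [Prod.le_def] at hm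
  rw [CT.mul_apply hx hy, CT.mul_apply hx' hy']
  refine Finset.sum_congr rfl fun i hi => ?_
  rw [mem_Icc, Prod.le_def, Prod.le_def] at hi
  simp only at hi
  rw [h1 i (by rw [Prod.le_def]; simp only; omega),
    h2 (m - i) (by rw [Prod.le_def]; simp only [Prod.fst_sub, Prod.snd_sub]; omega)]

theorem trunc_bd_sub {N : ℤ} {x y : CT} (hx : Bd N x) (hy : Bd N y) : Bd N (x - y : CT) := by
  intro m hm
  by_cases h : x m = 0
  · refine hy m fun h' => hm ?_
    rw [CT.sub_apply, h, h', sub_zero]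
  · exact hx m h

theorem trunc_bd_zero {N : ℤ} : Bd N (0 : CT) := fun m hm => absurd (CT.zero_apply m) hm

theorem pr_trunc : S_trunc := by
  refine ⟨trunc_mul, fun d u u' hu hu' hv hv' h m hm => ?_⟩
  have hB : Bd 0 (((u' : CT) - (u : CT) : CT)) := trunc_bd_sub hu' hu
  have h1 : Teq d (((u⁻¹ : CTˣ) : CT) * ((u' : CT) - (u : CT))) (((u⁻¹ : CTˣ) : CT) * 0) := by
    refine trunc_mul 0 0 d _ _ _ _ hv hv hB trunc_bd_zero (fun _ _ => rfl) ?_
    intro n hn
    rw [sub_zero, sub_zero, Prod.mk.eta] at hn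
    rw [CT.sub_apply, h n hn, sub_self, CT.zero_apply]
  have hAB : Bd 0 ((((u⁻¹ : CTˣ) : CT) * ((u' : CT) - (u : CT)) : CT)) := by
    have := CT.bd_mul hv hB
    rwa [add_zero] at this
  have h2 : Teq d (((u⁻¹ : CTˣ) : CT) * ((u' : CT) - (u : CT)) * ((u'⁻¹ : CTˣ) : CT))
      (0 * ((u'⁻¹ : CTˣ) : CT)) := by
    refine trunc_mul 0 0 d _ _ _ _ hAB trunc_bd_zero hv' hv' ?_ (fun _ _ => rfl)
    intro n hn
    rw [sub_zero, sub_zero, Prod.mk.eta] at hn
    rw [h1 n hn, mul_zero]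
  have h3 : ((u⁻¹ : CTˣ) : CT) * ((u' : CT) - (u : CT)) * ((u'⁻¹ : CTˣ) : CT) =
      ((u⁻¹ : CTˣ) : CT) - ((u'⁻¹ : CTˣ) : CT) := by
    rw [mul_sub, sub_mul, Units.inv_mul, one_mul, mul_assoc, Units.mul_inv, mul_one]
  have h4 := h2 m hm
  rw [h3, zero_mul, CT.zero_apply, CT.sub_apply] at h4
  exact sub_eq_zero.mp h4

end Pool.Agent.Work.MP_c41774_al.Wall

end
end

section

/-!
# Vanishing above the slope of `a`
-/

noncomputable section

namespace Pool.Agent.Work.MP_c41774_al.Wall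

open Finset QTorus LaurentPolynomial

theorem vanHi_aux (h_elem : S_elem) (h_tUp : S_tUp) (h_tDown : S_tDown) (h_crs : S_crs)
    (b c : ℕ) (hb : 0 < b) (hc : 0 < c) (D : WallData b c) (N : ℤ)
    (τ : Chart → ℤ × ℤ → S) (hτ : ChartSys D N τ) (a : ℤ × ℤ) (ha1 : 0 < a.1) (ha2 : 0 < a.2)
    (hβ : ∀ l, l ≠ -a → τ (ch b c l) l = 0) (n : ℕ) :
    ∀ l : ℤ × ℤ, (l.1 + l.2 - 2 * N).toNat = n → l ≠ -a → (l.1 < 0 ∨ l.2 < 0) → LF l a ≤ 0 →
      (∀ κ : ℕ × ℕ, Nat.Coprime κ.1 κ.2 → ¬ Slt κ (slp b c (-a)) → τ (.hi κ) l = 0) ∧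
      ∀ κ : ℕ × ℕ, Nat.Coprime κ.1 κ.2 → Slt (slp b c (-a)) κ → τ (.lo κ) l = 0 := by
  obtain ⟨e1, e2, -, e4, e5, e6, e7, e8⟩ := h_elem
  induction n using Nat.strong_induction_on with
  | _ n ih =>
  intro l hn hla hneg hLF
  obtain ⟨αco, α1, α2, αz, αlo, αhi⟩ := e4 b c hb hc (-a) (by simp; omega) (by simp; omega)
  set α := slp b c (-a) with hα
  have hLamk : ∀ κ : ℕ × ℕ, LF (kk b c κ) a = -Lam (-a) (kk b c κ) := by
    intro κ
    simp only [LF, Lam, kk_fst, kk_snd, Prod.fst_neg, Prod.snd_neg]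
    ring
  have hasym : ∀ κ κ' : ℕ × ℕ, Slt κ κ' → ¬ Slt κ' κ := by
    intro κ κ' h h'
    simp only [Slt] at h h'
    omega
  -- KEY
  have key : ∀ κ : ℕ × ℕ, Nat.Coprime κ.1 κ.2 → Slt α κ → τ (.hi κ) l = τ (.lo κ) l := by
    intro κ hκ hακ
    have hpos : 0 < LF (kk b c κ) a := by
      rw [hLamk]
      have := (αhi κ).1 hακ
      omega
    have hκ0 : 0 < κ.1 + κ.2 := by
      by_contra h
      have h1 : κ.1 = 0 := by omega
      have h2 : κ.2 = 0 := by omega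
      rw [h1, h2] at hκ
      simp at hκ
    have hkk1 : (0 : ℤ) ≤ (kk (b : ℤ) c κ).1 := by rw [kk_fst]; positivity
    have hkk2 : (0 : ℤ) ≤ (kk (b : ℤ) c κ).2 := by rw [kk_snd]; positivity
    have hkk3 : (0 : ℤ) < (kk (b : ℤ) c κ).1 + (kk (b : ℤ) c κ).2 := by
      rw [kk_fst, kk_snd]
      rcases Nat.eq_zero_or_pos κ.1 with h | h
      · have : 0 < κ.2 := by omega
        have : (0 : ℤ) < (c : ℤ) * κ.2 := by positivity
        have : (0 : ℤ) ≤ (b : ℤ) * κ.1 := by positivity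
        omega
      · have : (0 : ℤ) < (b : ℤ) * κ.1 := by positivity
        have : (0 : ℤ) ≤ (c : ℤ) * κ.2 := by positivity
        omega
    have hc1 : PowerSeries.coeff 0 (D.F κ (-Lam l (kk b c κ))) = 1 :=
      (h_crs (D.M κ) (D.const κ hκ)).1 _
    rw [hτ.up κ hκ l, e1 N _ _ _ l (hτ.bd (.lo κ) hκ) hc1]
    rw [Finset.sum_eq_zero, add_zero]
    intro j hj
    rw [Finset.mem_Ico] at hj
    have hj1 : 1 ≤ j := hj.1
    have hj2 : (j : ℤ) < l.1 + l.2 - 2 * N + 1 := by omega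
    have hl1 : (l - j • kk (b : ℤ) c κ).1 = l.1 - j * (kk (b : ℤ) c κ).1 := by simp
    have hl2 : (l - j • kk (b : ℤ) c κ).2 = l.2 - j * (kk (b : ℤ) c κ).2 := by simp
    have hLF' : LF (l - j • kk (b : ℤ) c κ) a = LF l a - j * LF (kk b c κ) a := by
      simp only [LF, hl1, hl2]; ring
    have hj0 : (0 : ℤ) < j := by omega
    have hm1 : (0 : ℤ) ≤ j * (kk (b : ℤ) c κ).1 := mul_nonneg hj0.le hkk1
    have hm2 : (0 : ℤ) ≤ j * (kk (b : ℤ) c κ).2 := mul_nonneg hj0.le hkk2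
    have hm3 : (0 : ℤ) < j * (kk (b : ℤ) c κ).1 + j * (kk (b : ℤ) c κ).2 := by
      rw [← mul_add]; exact mul_pos hj0 hkk3
    have hm4 : (0 : ℤ) < j * LF (kk b c κ) a := mul_pos hj0 hpos
    have hlt : ((l - j • kk (b : ℤ) c κ).1 + (l - j • kk (b : ℤ) c κ).2 - 2 * N).toNat < n := by
      rw [hl1, hl2]; omega
    have hne : l - j • kk (b : ℤ) c κ ≠ -a := by
      intro h
      have : LF (l - j • kk (b : ℤ) c κ) a = 0 := by
        rw [h]; simp only [LF, Prod.fst_neg, Prod.snd_neg]; ring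
      omega
    have hneg' : (l - j • kk (b : ℤ) c κ).1 < 0 ∨ (l - j • kk (b : ℤ) c κ).2 < 0 := by
      rw [hl1, hl2]; omega
    have hLF'' : LF (l - j • kk (b : ℤ) c κ) a ≤ 0 := by omega
    have := (ih _ hlt _ rfl hne hneg' hLF'').2 κ hκ hακ
    rw [this, mul_zero]
  -- (A)
  have hα10 : Slt α (1, 0) := e6 α αco (by intro h; rw [h] at α2; simp at α2)
  have hco10 : Nat.Coprime ((1, 0) : ℕ × ℕ).1 ((1, 0) : ℕ × ℕ).2 := by simp
  have hor : ∀ κ : ℕ × ℕ, Nat.Coprime κ.1 κ.2 → ¬ Slt κ α → α = κ ∨ Slt α κ := by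
    intro κ hκ h
    rcases e7 κ α hκ αco with h1 | h1 | h1
    · exact absurd h1 h
    · exact Or.inl h1.symm
    · exact Or.inr h1
  have hA : ∀ κ : ℕ × ℕ, Nat.Coprime κ.1 κ.2 → ¬ Slt κ α → τ (.hi κ) l = 0 := by
    intro κ hκ hκα
    have hκα' := hor κ hκ hκα
    by_cases h2 : 0 ≤ l.2
    · -- case (ii)
      have h1 : l.1 < 0 := by omega
      have h10 : τ (.hi (1, 0)) l = 0 := by
        have := hβ l hla
        rw [ch, if_neg (by omega), if_neg (by omega), if_pos h2] at this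
        exact this
      by_cases hκ1 : κ = (1, 0)
      · rw [hκ1]; exact h10
      · have hlt := e6 κ hκ hκ1
        refine h_tDown b c D N τ hτ l (fun s => s = 0) κ (1, 0) hκ hco10 hlt ?_ ?_
        · intro κ' hκ' hlt1 _ hQ
          have : Slt α κ' := by
            rcases hκα' with h | h
            · rw [h]; exact hlt1
            · exact e8 α κ κ' αco hκ hκ' h hlt1
          have hk := key κ' hκ' this
          rw [← hk]; exact hQ
        · show τ (.lo (1, 0)) l = 0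
          rw [← key (1, 0) hco10 hα10]; exact h10
    · -- case (iii)
      have h2 : l.2 < 0 := by omega
      have h1 : l.1 < 0 := by
        by_contra h
        have h1 : 0 ≤ l.1 := by omega
        have h3 : 0 ≤ l.1 * a.2 := mul_nonneg h1 ha2.le
        have h4 : l.2 * a.1 < 0 := mul_neg_of_neg_of_pos h2 ha1
        simp only [LF] at hLF
        omega
      obtain ⟨σco, σ1, σ2, σz, σlo, σhi⟩ := e4 b c hb hc l h1 h2
      have hlo : τ (.lo (slp b c l)) l = 0 := by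
        have := hβ l hla
        rw [ch, if_neg (by omega), if_neg (by omega), if_neg (by omega)] at this
        exact this
      set σ := slp b c l with hσ
      have hhi : τ (.hi σ) l = 0 := by
        rw [hτ.up σ σco l, σz, neg_zero]
        have : D.F σ 0 = 1 := (h_crs (D.M σ) (D.const σ σco)).2.1
        rw [this, e2 N _ _ l (hτ.bd (.lo σ) σco)]
        exact hlo
      have hσα : ¬ Slt σ α := by
        rw [σhi α]
        have hz : Lam (-a) (kk b c α) = 0 := αz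
        simp only [Lam, kk_fst, kk_snd, Prod.fst_neg, Prod.snd_neg] at hz ⊢
        simp only [LF] at hLF
        intro hcon
        have h5 : a.1 * (l.2 * ((b : ℤ) * α.1) - l.1 * ((c : ℤ) * α.2)) =
            ((b : ℤ) * α.1) * -(l.1 * a.2 - l.2 * a.1) := by
          have : a.1 * ((c : ℤ) * α.2) = a.2 * ((b : ℤ) * α.1) := by linarith
          linear_combination (-l.1) * this
        have h6 : a.1 * (l.2 * ((b : ℤ) * α.1) - l.1 * ((c : ℤ) * α.2)) < 0 :=
          mul_neg_of_pos_of_neg ha1 hcon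
        have h7 : 0 ≤ ((b : ℤ) * α.1) * -(l.1 * a.2 - l.2 * a.1) :=
          mul_nonneg (by positivity) (by omega)
        omega
      have hσα' := hor σ σco hσα
      rcases e7 κ σ hκ σco with h | h | h
      · -- κ < σ : go down
        refine h_tDown b c D N τ hτ l (fun s => s = 0) κ σ hκ σco h ?_ hlo
        intro κ' hκ' hlt1 _ hQ
        have : Slt α κ' := by
          rcases hκα' with h | h
          · rw [h]; exact hlt1
          · exact e8 α κ κ' αco hκ hκ' h hlt1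
        have hk := key κ' hκ' this
        rw [← hk]; exact hQ
      · rw [h]; exact hhi
      · -- σ < κ : go up
        have hακ : Slt α κ := by
          rcases hσα' with h' | h'
          · rw [h']; exact h
          · exact e8 α σ κ αco σco hκ h' h
        rw [key κ hκ hακ]
        refine h_tUp b c D N τ hτ l (fun s => s = 0) σ κ σco hκ h ?_ hhi
        intro κ' hκ' hlt1 _ hQ
        have : Slt α κ' := by
          rcases hσα' with h' | h'
          · rw [h']; exact hlt1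
          · exact e8 α σ κ' αco σco hκ' h' hlt1
        have hk := key κ' hκ' this
        rw [hk]; exact hQ
  refine ⟨hA, fun κ hκ hακ => ?_⟩
  rw [← key κ hκ hακ]
  exact hA κ hκ (hasym _ _ hακ)

/-- vanishing above the slope of `a` -/
theorem pr_vanHi (h_elem : S_elem) (h_tUp : S_tUp) (h_tDown : S_tDown) (h_crs : S_crs) :
    S_vanHi := by
  intro b c hb hc D N τ hτ a ha1 ha2 hβ l hla hneg hLF
  exact vanHi_aux h_elem h_tUp h_tDown h_crs b c hb hc D N τ hτ a ha1 ha2 hβ _ l rfl hla hneg hLF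

end Pool.Agent.Work.MP_c41774_al.Wall

end
end

section

/-!
# Item vanHi0
-/

noncomputable section

namespace Pool.Agent.Work.MP_c41774_al.Wall

open Finset QTorus LaurentPolynomial

namespace VanHi0

/-- the step from `lo κ` to `hi κ` -/
theorem step (hc : S_crs) (he : S_elem) {b c : ℕ} (D : WallData b c) {N : ℤ}
    {τ : Chart → ℤ × ℤ → S} (hτ : ChartSys D N τ) {a : ℤ × ℤ} (ha1 : a.1 ≤ 0) (ha2 : 0 < a.2)
    {l : ℤ × ℤ} (hla : LF l a ≤ 0) {κ : ℕ × ℕ} (hκ : Nat.Coprime κ.1 κ.2)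
    (ih : ∀ l' : ℤ × ℤ, (l'.1 + l'.2 - 2 * N).toNat < (l.1 + l.2 - 2 * N).toNat →
      l' ≠ -a → LF l' a ≤ 0 → τ (.lo κ) l' = 0) (h0 : τ (.lo κ) l = 0) :
    τ (.hi κ) l = 0 := by
  obtain ⟨e1, e2, -⟩ := he
  obtain ⟨c1, c2, -⟩ := hc (D.M κ) (D.const κ hκ)
  have hbd : Bd N (τ (.lo κ)) := hτ.bd (.lo κ) hκ
  have hk1 : (kk (b : ℤ) c κ).1 = b * κ.1 := kk_fst _ _ _
  have hk2 : (kk (b : ℤ) c κ).2 = c * κ.2 := kk_snd _ _ _
  have hkn1 : 0 ≤ (kk (b : ℤ) c κ).1 := by rw [hk1]; positivity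
  have hkn2 : 0 ≤ (kk (b : ℤ) c κ).2 := by rw [hk2]; positivity
  have hLk : 0 ≤ LF (kk b c κ) a := by
    unfold LF
    have := mul_nonneg hkn1 ha2.le
    have := mul_nonneg hkn2 (neg_nonneg.mpr ha1)
    linarith
  have hs1 : ∀ j : ℕ, (j • kk (b : ℤ) c κ).1 = j * (kk (b : ℤ) c κ).1 := fun j => by
    rw [Prod.smul_fst, nsmul_eq_mul]
  have hs2 : ∀ j : ℕ, (j • kk (b : ℤ) c κ).2 = j * (kk (b : ℤ) c κ).2 := fun j => by
    rw [Prod.smul_snd, nsmul_eq_mul]
  have hsub : ∀ j : ℕ, LF (l - j • kk b c κ) a = LF l a - j * LF (kk b c κ) a := by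
    intro j
    simp only [LF, Prod.fst_sub, Prod.snd_sub, hs1, hs2]
    ring
  rw [hτ.up κ hκ l]
  by_cases hex : ∃ j : ℕ, 1 ≤ j ∧ l - j • kk b c κ = -a
  · obtain ⟨j, hj, hja⟩ := hex
    have h1 : LF l a = j * LF (kk b c κ) a := by
      have := hsub j
      rw [hja] at this
      have h2 : LF (-a) a = 0 := by simp only [LF, Prod.fst_neg, Prod.snd_neg]; ring
      linarith
    have hj' : (1 : ℤ) ≤ j := by exact_mod_cast hj
    have h2 : LF (kk b c κ) a = 0 := by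
      nlinarith
    have h3 : Lam l (kk b c κ) = 0 := by
      have e : l = j • kk b c κ - a := by
        have : l = (l - j • kk b c κ) + j • kk b c κ := by abel
        rw [this, hja]; abel
      unfold LF at h2
      have e3 : l.1 = j * (kk (b : ℤ) c κ).1 - a.1 := by rw [← hs1, ← Prod.fst_sub, ← e]
      have e4 : l.2 = j * (kk (b : ℤ) c κ).2 - a.2 := by rw [← hs2, ← Prod.snd_sub, ← e]
      simp only [Lam, e3, e4]
      linarith
    rw [h3, neg_zero]
    have h4 : D.F κ 0 = 1 := c2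
    rw [h4, e2 N _ _ l hbd, h0]
  · push Not at hex
    have h5 : PowerSeries.coeff 0 (D.F κ (-Lam l (kk b c κ))) = 1 := c1 _
    rw [e1 N _ _ _ l hbd h5, h0, zero_add]
    refine Finset.sum_eq_zero fun j hj => ?_
    rw [Finset.mem_Ico] at hj
    obtain ⟨hj1, hj2⟩ := hj
    have hj' : (1 : ℤ) ≤ j := by exact_mod_cast hj1
    by_cases hkz : (kk (b : ℤ) c κ).1 + (kk (b : ℤ) c κ).2 ≤ 0
    · -- then kk = 0 and b κ.1 = 0 = c κ.2
      have z1 : (kk (b : ℤ) c κ).1 = 0 := by omega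
      have z2 : (kk (b : ℤ) c κ).2 = 0 := by omega
      have z : kk (b : ℤ) c κ = 0 := Prod.ext z1 z2
      rw [z, smul_zero, sub_zero, h0, mul_zero]
    · rw [ih (l - j • kk b c κ) ?_ (hex j hj1) ?_, mul_zero]
      · simp only [Prod.fst_sub, Prod.snd_sub, hs1, hs2]
        have h6 : (1 : ℤ) ≤ j * (kk (b : ℤ) c κ).1 + j * (kk (b : ℤ) c κ).2 := by nlinarith
        omega
      · rw [hsub j]
        have := mul_nonneg (by omega : (0 : ℤ) ≤ j) hLk
        linarith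

end VanHi0

theorem pr_vanHi0 (hc : S_crs) (he : S_elem) (ht : S_tUp) : S_vanHi0 := by
  intro b c hb hc0 D N τ hτ a ha1 ha2 hstart
  have key : ∀ n : ℕ, ∀ l : ℤ × ℤ, (l.1 + l.2 - 2 * N).toNat = n → l ≠ -a → LF l a ≤ 0 →
      ∀ κ : ℕ × ℕ, Nat.Coprime κ.1 κ.2 → τ (.lo κ) l = 0 ∧ τ (.hi κ) l = 0 := by
    intro n
    induction n using Nat.strong_induction_on with
    | _ n ih =>
      intro l hn hl hla
      have hst : ∀ κ : ℕ × ℕ, Nat.Coprime κ.1 κ.2 → τ (.lo κ) l = 0 → τ (.hi κ) l = 0 := by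
        intro κ hκ h0
        refine VanHi0.step hc he D hτ ha1 ha2 hla hκ (fun l' h1 h2 h3 => ?_) h0
        exact (ih _ (hn ▸ h1) l' rfl h2 h3 κ hκ).1
      have h01 : Nat.Coprime ((0, 1) : ℕ × ℕ).1 ((0, 1) : ℕ × ℕ).2 := by decide
      have hs0 : τ (.lo (0, 1)) l = 0 := hstart l hl
      intro κ hκ
      by_cases hk : κ = (0, 1)
      · subst hk
        exact ⟨hs0, hst _ hκ hs0⟩
      · have hlt : Slt (0, 1) κ := he.2.2.2.2.1 κ hκ hk
        have h7 : τ (.lo κ) l = 0 :=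
          ht b c D N τ hτ l (fun s => s = 0) (0, 1) κ h01 hκ hlt
            (fun κ' h1 _ _ h4 => hst κ' h1 h4) (hst _ h01 hs0)
        exact ⟨h7, hst κ hκ h7⟩
  intro l hl hla κ hκ
  exact key _ l rfl hl hla κ hκ

end Pool.Agent.Work.MP_c41774_al.Wall

end
end

section

/-!
# Item vanLo
-/

noncomputable section

namespace Pool.Agent.Work.MP_c41774_al.Wall

open Finset QTorus LaurentPolynomial

/-- the main step, for one `l` -/
lemma vanLo_step (he : S_elem) (hc : S_crs) (hu : S_tUp) (hd : S_tDown) (b c : ℕ) (hb : 0 < b)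
    (hc0 : 0 < c) (D : WallData b c) (N : ℤ) (τ : Chart → ℤ × ℤ → S) (hτ : ChartSys D N τ)
    (a : ℤ × ℤ) (ha1 : 0 < a.1) (ha2 : 0 < a.2) (hv : ∀ l, l ≠ -a → τ (ch b c l) l = 0)
    (n : ℕ) (ih : ∀ l : ℤ × ℤ, (l.1 + l.2 - 2 * N).toNat < n → l ≠ -a → (l.1 < 0 ∨ l.2 < 0) →
      0 ≤ LF l a →
      (∀ κ : ℕ × ℕ, Nat.Coprime κ.1 κ.2 → ¬ Slt (slp b c (-a)) κ → τ (.lo κ) l = 0) ∧
      ∀ κ : ℕ × ℕ, Nat.Coprime κ.1 κ.2 → Slt κ (slp b c (-a)) → τ (.hi κ) l = 0)
    (l : ℤ × ℤ) (hn : (l.1 + l.2 - 2 * N).toNat = n) (hl : l ≠ -a) (hneg : l.1 < 0 ∨ l.2 < 0)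
    (hLF : 0 ≤ LF l a) :
    (∀ κ : ℕ × ℕ, Nat.Coprime κ.1 κ.2 → ¬ Slt (slp b c (-a)) κ → τ (.lo κ) l = 0) ∧
      ∀ κ : ℕ × ℕ, Nat.Coprime κ.1 κ.2 → Slt κ (slp b c (-a)) → τ (.hi κ) l = 0 := by
  obtain ⟨e1, -, -, e4, e5, -, e7, e8⟩ := he
  set α := slp b c (-a) with hα
  obtain ⟨hαc, hα1, hα2, -, hαlt, hαgt⟩ := e4 b c hb hc0 (-a) (by simpa using ha1)
    (by simpa using ha2)
  rw [← hα] at hαc hα1 hα2 hαlt hαgt
  rcases lt_or_ge (l.1 + l.2) (2 * N) with hsmall | hlarge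
  · have hz : ∀ C : Chart, C.Valid → τ C l = 0 := fun C hC =>
      (hτ.bd C hC).eq_zero (by omega)
    exact ⟨fun κ hκ _ => hz (.lo κ) hκ, fun κ hκ _ => hz (.hi κ) hκ⟩
  -- equality of the two charts at a wall below `α`
  have heq : ∀ κ : ℕ × ℕ, Nat.Coprime κ.1 κ.2 → Slt κ α → τ (.hi κ) l = τ (.lo κ) l := by
    intro κ hκ hlt
    have hF0 : PowerSeries.coeff 0 (D.F κ (-Lam l (kk b c κ))) = 1 :=
      (hc (D.M κ) (D.const κ hκ)).1 _
    rw [hτ.up κ hκ l, e1 N _ _ _ _ (hτ.bd (.lo κ) hκ) hF0, Finset.sum_eq_zero, add_zero]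
    intro j hj
    rw [Finset.mem_Ico] at hj
    have hj1 : (1 : ℤ) ≤ j := by exact_mod_cast hj.1
    have hLam : 0 < Lam (-a) (kk b c κ) := (hαlt κ).1 hlt
    have hk1 : 0 ≤ (b : ℤ) * κ.1 := by positivity
    have hk2 : 0 ≤ (c : ℤ) * κ.2 := by positivity
    have hkpos : 0 < (b : ℤ) * κ.1 + (c : ℤ) * κ.2 := by
      rcases Nat.eq_zero_or_pos κ.1 with h | h
      · have : κ.2 = 1 := by
          rw [h, Nat.coprime_zero_left] at hκ
          exact hκ
        rw [h, this]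
        push_cast
        omega
      · have h1 : 0 < (b : ℤ) * κ.1 := by positivity
        omega
    have f1 : (l - j • kk (b : ℤ) c κ).1 = l.1 - j * (b * κ.1) := by
      simp
    have f2 : (l - j • kk (b : ℤ) c κ).2 = l.2 - j * (c * κ.2) := by
      simp
    have hLF' : 0 < LF (l - j • kk (b : ℤ) c κ) a := by
      have g1 : LF (l - j • kk (b : ℤ) c κ) a = LF l a + j * Lam (-a) (kk b c κ) := by
        unfold LF
        rw [f1, f2]
        simp only [Lam, Prod.fst_neg, Prod.snd_neg, kk_fst, kk_snd]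
        ring
      rw [g1]
      have : 0 < (j : ℤ) * Lam (-a) (kk b c κ) := by positivity
      omega
    have hne : l - j • kk (b : ℤ) c κ ≠ -a := by
      intro h
      rw [h] at hLF'
      unfold LF at hLF'
      simp only [Prod.fst_neg, Prod.snd_neg] at hLF'
      nlinarith
    have hb1 : 0 ≤ (j : ℤ) * (b * κ.1) := by positivity
    have hb2 : 0 ≤ (j : ℤ) * (c * κ.2) := by positivity
    have hneg' : (l - j • kk (b : ℤ) c κ).1 < 0 ∨ (l - j • kk (b : ℤ) c κ).2 < 0 := by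
      rw [f1, f2]
      omega
    have hdec : ((l - j • kk (b : ℤ) c κ).1 + (l - j • kk (b : ℤ) c κ).2 - 2 * N).toNat < n := by
      rw [f1, f2]
      have h1 : (b : ℤ) * κ.1 + (c : ℤ) * κ.2 ≤ j * (b * κ.1) + j * (c * κ.2) := by nlinarith
      omega
    rcases lt_or_ge 0 (l.1 + l.2 - 2 * N) with hpos | hzero
    · rw [(ih _ hdec hne hneg' hLF'.le).1 κ hκ (lt_asymm hlt), mul_zero]
    · exfalso
      omega
  -- transport from one chart
  have hfrom : ∀ σ : ℕ × ℕ, Nat.Coprime σ.1 σ.2 → ¬ Slt α σ → τ (.lo σ) l = 0 →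
      ∀ κ : ℕ × ℕ, Nat.Coprime κ.1 κ.2 → ¬ Slt α κ → τ (.lo κ) l = 0 := by
    intro σ hσ hσα hσ0 κ hκ hκα
    have hle : ∀ ρ ρ' : ℕ × ℕ, Nat.Coprime ρ.1 ρ.2 → Nat.Coprime ρ'.1 ρ'.2 → Slt ρ ρ' →
        ¬ Slt α ρ' → Slt ρ α := by
      intro ρ ρ' hρ hρ' h1 h2
      rcases e7 ρ' α hρ' hαc with h | h | h
      · exact e8 ρ ρ' α hρ hρ' hαc h1 h
      · rw [← h]
        exact h1
      · exact absurd h h2
    rcases e7 κ σ hκ hσ with h | h | h
    · have h1 : τ (.hi κ) l = 0 := by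
        refine hd b c D N τ hτ l (fun x => x = 0) κ σ hκ hσ h ?_ hσ0
        intro κ' hκ' _ h3 h4
        rw [← heq κ' hκ' (hle κ' σ hκ' hσ h3 hσα)]
        exact h4
      rw [← heq κ hκ (hle κ σ hκ hσ h hσα)]
      exact h1
    · rw [h]
      exact hσ0
    · refine hu b c D N τ hτ l (fun x => x = 0) σ κ hσ hκ h ?_ ?_
      · intro κ' hκ' _ h3 h4
        rw [heq κ' hκ' (hle κ' κ hκ' hκ h3 hκα)]
        exact h4
      · rw [heq σ hσ (hle σ κ hσ hκ h hκα)]
        exact hσ0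
  have hlo : ∀ κ : ℕ × ℕ, Nat.Coprime κ.1 κ.2 → ¬ Slt α κ → τ (.lo κ) l = 0 := by
    have hval := hv l hl
    rcases lt_or_ge l.1 0 with h1 | h1
    · rcases lt_or_ge l.2 0 with h2 | h2
      · -- both negative
        obtain ⟨hsc, hs1, hs2, hs0, -, -⟩ := e4 b c hb hc0 l h1 h2
        have hch : ch b c l = Chart.lo (slp b c l) := by
          unfold ch
          rw [if_neg (by omega), if_neg (by omega), if_neg (by omega)]
        rw [hch] at hval
        refine hfrom (slp b c l) hsc ?_ hval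
        intro hs
        have h3 := (hαgt (slp b c l)).1 hs
        simp only [Lam, Prod.fst_neg, Prod.snd_neg, kk_fst, kk_snd] at h3 hs0
        unfold LF at hLF
        set p : ℤ := (b : ℤ) * (slp b c l).1 with hp
        set q : ℤ := (c : ℤ) * (slp b c l).2 with hq
        have hp0 : 0 ≤ p := by positivity
        have g1 : (-l.1) * (a.1 * q - a.2 * p) = p * (l.1 * a.2 - l.2 * a.1) := by
          linear_combination a.1 * hs0
        have g2 : 0 ≤ p * (l.1 * a.2 - l.2 * a.1) := mul_nonneg hp0 hLF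
        have g3 : a.1 * q - a.2 * p < 0 := by linarith
        have g4 : (-l.1) * (a.1 * q - a.2 * p) < 0 := mul_neg_of_pos_of_neg (by omega) g3
        omega
      · exfalso
        unfold LF at hLF
        have g1 : l.1 * a.2 < 0 := mul_neg_of_neg_of_pos h1 ha2
        have g2 : 0 ≤ l.2 * a.1 := mul_nonneg h2 ha1.le
        omega
    · have h2 : l.2 < 0 := by omega
      have hch : ch b c l = Chart.lo (0, 1) := by
        unfold ch
        rw [if_neg (by omega), if_pos h1]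
      rw [hch] at hval
      refine hfrom (0, 1) (by decide) ?_ hval
      intro hs
      unfold Slt at hs
      omega
  refine ⟨hlo, fun κ hκ hlt => ?_⟩
  rw [heq κ hκ hlt]
  exact hlo κ hκ (lt_asymm hlt)

theorem pr_vanLo (he : S_elem) (hc : S_crs) (hu : S_tUp) (hd : S_tDown) : S_vanLo := by
  intro b c hb hc0 D N τ hτ a ha1 ha2 hv
  suffices h : ∀ n : ℕ, ∀ l : ℤ × ℤ, (l.1 + l.2 - 2 * N).toNat = n → l ≠ -a →
      (l.1 < 0 ∨ l.2 < 0) → 0 ≤ LF l a →
      (∀ κ : ℕ × ℕ, Nat.Coprime κ.1 κ.2 → ¬ Slt (slp b c (-a)) κ → τ (.lo κ) l = 0) ∧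
      ∀ κ : ℕ × ℕ, Nat.Coprime κ.1 κ.2 → Slt κ (slp b c (-a)) → τ (.hi κ) l = 0 by
    intro l hl hneg hLF
    exact h _ l rfl hl hneg hLF
  intro n
  induction n using Nat.strong_induction_on with
  | _ n ih =>
    intro l hn hl hneg hLF
    exact vanLo_step he hc hu hd b c hb hc0 D N τ hτ a ha1 ha2 hv n
      (fun l' hl' => ih _ hl' l' rfl) l hn hl hneg hLF

end Pool.Agent.Work.MP_c41774_al.Wall

end
end

section

/-!
# Statements of the items of Part A, second block (greedy basis, shift, assembly)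
-/

noncomputable section

namespace Pool.Agent.Work.MP_c41774_al.Wall

open Finset QTorus LaurentPolynomial

variable {b c : ℕ}

/-- the coefficient, in `ℤ[v^{±1}]`, of `X^l` in the expansion of `f` in the chart `C` -/
def WallData.co (D : WallData b c) (C : Chart) (f : QTorus) (l : ℤ × ℤ) : R :=
  Function.invFun iota (D.T C (emb f) l)

/-! ### Block C: expansions of elements of the cluster algebra -/

/-- integrality of all charts -/
def S_intT : Prop := ∀ (b c : ℕ), 0 < b → 0 < c → ∀ (D : WallData b c) (C : Chart), C.Valid →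
  ∀ (f : QTorus) (l : ℤ × ℤ), iota (D.co C f l) = D.T C (emb f) l

/-- algebraic properties of the charts -/
def S_coAlg : Prop := ∀ (b c : ℕ), 0 < b → 0 < c → ∀ (D : WallData b c) (C : Chart), C.Valid →
  (∀ l, D.co C 0 l = 0) ∧
  (∀ (f g : QTorus) (l : ℤ × ℤ), D.co C (f + g) l = D.co C f l + D.co C g l) ∧
  (∀ (f g : QTorus) (l : ℤ × ℤ), D.co C (f - g) l = D.co C f l - D.co C g l) ∧
  (∀ (r : R) (f : QTorus) (l : ℤ × ℤ), D.co C (r • f) l = r * D.co C f l) ∧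
  (∀ (ι : Type) (s : Finset ι) (f : ι → QTorus) (l : ℤ × ℤ),
    D.co C (∑ i ∈ s, f i) l = ∑ i ∈ s, D.co C (f i) l) ∧
  (∀ (f g : QTorus) (l : ℤ × ℤ), ∃ s : Finset (ℤ × ℤ), ∀ s' : Finset (ℤ × ℤ), s ⊆ s' →
    D.co C (f * g) l = ∑ i ∈ s', T (Lam i l) * (D.co C f i * D.co C g (l - i))) ∧
  (∀ l, D.co C 1 l = if l = 0 then 1 else 0) ∧
  ∀ (a : ℤ × ℤ) (f : QTorus), (∀ m, f m ≠ 0 → ∃ κ : ℕ × ℕ, m = kk b c κ - a) →
    (∀ m, D.co C f m ≠ 0 → ∃ κ : ℕ × ℕ, m = kk b c κ - a) ∧ D.co C f (-a) = f (-a)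

/-- a uniform lower bound for the supports in all charts -/
def S_coBd : Prop := ∀ (b c : ℕ), 0 < b → 0 < c → ∀ (D : WallData b c) (f : QTorus),
  ∃ N : ℤ, ∀ C : Chart, C.Valid → ∀ m, D.co C f m ≠ 0 → N ≤ m.1 ∧ N ≤ m.2

/-- the initial chart -/
def S_coOne : Prop := ∀ (b c : ℕ) (D : WallData b c) (f : QTorus) (l : ℤ × ℤ),
  D.co .one f l = f l

/-- the crossings of the two initial walls; `J` is any number of terms beyond which all terms
vanish -/
def S_rows : Prop := ∀ (b c : ℕ), 0 < b → 0 < c → ∀ (D : WallData b c) (f : QTorus)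
  (l : ℤ × ℤ) (n : ℕ),
  (l.2 = n → D.co (.lo (0, 1)) f l =
    ∑ j ∈ Finset.range (n + 1), qb b n j * f (l.1 - b * j, l.2)) ∧
  (l.2 = -n → f l = ∑ j ∈ Finset.range (n + 1), qb b n j * D.co (.lo (0, 1)) f (l.1 - b * j, l.2)) ∧
  (l.1 = n → D.co (.hi (1, 0)) f l =
    ∑ j ∈ Finset.range (n + 1), qb c n j * f (l.1, l.2 - c * j)) ∧
  (l.1 = -n → f l = ∑ j ∈ Finset.range (n + 1), qb c n j * D.co (.hi (1, 0)) f (l.1, l.2 - c * j)) ∧
  (l.2 = -n → D.co (.hi (1, 0)) f l =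
    ∑ j ∈ Finset.range (n + 1), qb b n j * D.co (.lo (1, 0)) f (l.1 - b * j, l.2))

/-- the row and column transforms are the expansions in the charts `lo (0,1)` and `hi (1,0)` -/
def S_H : Prop := ∀ (b c : ℕ), 0 < b → 0 < c → ∀ (D : WallData b c) (a : ℤ × ℤ) (f : QTorus),
  (∀ m, f m ≠ 0 → ∃ κ : ℕ × ℕ, m = kk b c κ - a) → ∀ κ : ℕ × ℕ,
    ((c : ℤ) * κ.2 ≤ a.2 → D.co (.lo (0, 1)) f (kk b c κ - a) = H b c a (coef b c a f) κ) ∧
    ((b : ℤ) * κ.1 ≤ a.1 → D.co (.hi (1, 0)) f (kk b c κ - a) = Ht b c a (coef b c a f) κ)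

/-- the cluster algebra is generated by four consecutive cluster variables -/
def S_gen : Prop := ∀ (b c : ℕ), 0 < b → 0 < c → ∀ X : ℤ → QTorus, IsClusterSeq b c X →
  clusterAlgebra X = Algebra.adjoin R {X 0, X 1, X 2, X 3}

/-- the expansions of elements of the cluster algebra in the charts of the clusters `{X₀,X₁}` and
`{X₂,X₃}` are finite -/
def S_fin : Prop := ∀ (b c : ℕ), 0 < b → 0 < c → ∀ (D : WallData b c) (X : ℤ → QTorus),
  IsClusterSeq b c X → ∀ f ∈ clusterAlgebra X,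
    {l | D.co (.lo (0, 1)) f l ≠ 0}.Finite ∧ {l | D.co (.hi (1, 0)) f l ≠ 0}.Finite

/-- finiteness of the expansion coefficients -/
def S_finBeta : Prop := ∀ (b c : ℕ), 0 < b → 0 < c → ∀ (D : WallData b c) (X : ℤ → QTorus),
  IsClusterSeq b c X → ∀ f ∈ clusterAlgebra X, {l | D.co (ch b c l) f l ≠ 0}.Finite

/-- the explicit greedy elements outside the positive quadrant -/
def Estd (b c : ℕ) (a : ℤ × ℤ) : QTorus :=
  if a.1 ≤ 0 then
    ∑ p ∈ Finset.range (a.2.toNat + 1), mon ((b : ℤ) * p - a.1, -a.2) (qb b a.2.toNat p)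
  else
    ∑ q ∈ Finset.range (a.1.toNat + 1), mon (-a.1, (c : ℤ) * q - a.2) (qb c a.1.toNat q)

/-- they are pointed and belong to the cluster algebra -/
def S_stdMem : Prop := ∀ (b c : ℕ), 0 < b → 0 < c → ∀ X : ℤ → QTorus, IsClusterSeq b c X →
  ∀ a : ℤ × ℤ, a.1 ≤ 0 ∨ a.2 ≤ 0 → IsPointed b c a (Estd b c a) ∧ Estd b c a ∈ clusterAlgebra X

/-- their expansions -/
def S_stdCo : Prop := ∀ (b c : ℕ), 0 < b → 0 < c → ∀ (D : WallData b c) (a : ℤ × ℤ),
  (a.1 ≤ 0 → ∀ l, l ≠ -a → l.2 < 0 → D.co (.lo (0, 1)) (Estd b c a) l = 0) ∧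
  (a.1 ≤ 0 → 0 < a.2 → ∀ l, l ≠ -a → D.co (.lo (0, 1)) (Estd b c a) l = 0) ∧
  (a.2 ≤ 0 → 0 < a.1 → ∀ l, l ≠ -a → D.co (.hi (1, 0)) (Estd b c a) l = 0) ∧
  (a.1 ≤ 0 ∨ a.2 ≤ 0 → ∀ l, D.co (ch b c l) (Estd b c a) l = if l = -a then 1 else 0)

/-- they are greedy -/
def S_stdGreedy : Prop := ∀ (b c : ℕ), 0 < b → 0 < c → ∀ a : ℤ × ℤ, a.1 ≤ 0 ∨ a.2 ≤ 0 →
  IsGreedy b c a (Estd b c a)

/-- the standard monomial pointed at `a` -/
def Mstd (b c : ℕ) (a : ℤ × ℤ) : QTorus :=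
  (T (a.1 * a.2) : R) • (Estd b c (a.1, 0) * Estd b c (0, a.2))

/-- the standard monomials are pointed and belong to the cluster algebra -/
def S_mstd : Prop := ∀ (b c : ℕ), 0 < b → 0 < c → ∀ X : ℤ → QTorus, IsClusterSeq b c X →
  ∀ a : ℤ × ℤ, 0 < a.1 → 0 < a.2 → IsPointed b c a (Mstd b c a) ∧ Mstd b c a ∈ clusterAlgebra X

/-- A family of elements of the cluster algebra dual to the coefficients `β_l`. -/
structure GoodFam (D : WallData b c) (X : ℤ → QTorus) (G : ℤ × ℤ → QTorus) : Prop where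
  mem : ∀ a, G a ∈ clusterAlgebra X
  pointed : ∀ a, IsPointed b c a (G a)
  beta : ∀ a l, D.co (ch b c l) (G a) l = if l = -a then 1 else 0

/-- existence -/
def S_exists : Prop := ∀ (b c : ℕ), 0 < b → 0 < c → ∀ (D : WallData b c) (X : ℤ → QTorus),
  IsClusterSeq b c X → ∃ G, GoodFam D X G

/-- positivity in all charts -/
def S_goodPos : Prop := ∀ (b c : ℕ), 0 < b → 0 < c → ∀ (D : WallData b c) (f : QTorus),
  (∀ l, NN (D.co (ch b c l) f l)) → ∀ C : Chart, C.Valid → ∀ l, NN (D.co C f l)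

/-- uniqueness -/
def S_uniqBeta : Prop := ∀ (b c : ℕ), 0 < b → 0 < c → ∀ (D : WallData b c) (f g : QTorus),
  (∀ l, D.co (ch b c l) f l = D.co (ch b c l) g l) → f = g

/-- expansions -/
def S_span : Prop := ∀ (b c : ℕ), 0 < b → 0 < c → ∀ (D : WallData b c) (X : ℤ → QTorus),
  IsClusterSeq b c X → ∀ G, GoodFam D X G → ∀ f ∈ clusterAlgebra X,
    ∃ ρ : (ℤ × ℤ) →₀ R, (∀ d, ρ d = D.co (ch b c (-d)) f (-d)) ∧ f = ρ.sum fun d r => r • G d

/-- linear independence -/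
def S_li : Prop := ∀ (b c : ℕ), 0 < b → 0 < c → ∀ G : ℤ × ℤ → QTorus,
  (∀ a, IsPointed b c a (G a)) → LinearIndependent R G

/-- the criterion for greediness in the positive quadrant -/
def S_greedyOfBeta : Prop := ∀ (b c : ℕ), 0 < b → 0 < c → ∀ (D : WallData b c) (a : ℤ × ℤ)
  (f : QTorus), 0 < a.1 → 0 < a.2 → IsPointed b c a f →
    (∀ l, l ≠ -a → D.co (ch b c l) f l = 0) → IsGreedy b c a f

/-- a pointed element with vanishing transforms is greedy -/
def S_isGreedy : Prop := ∀ (b c : ℕ) (a : ℤ × ℤ) (f : QTorus), IsPointed b c a f →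
  (∀ κ : ℕ × ℕ, κ ≠ 0 → 0 ≤ LL b c κ a → H b c a (coef b c a f) κ = 0) →
  (∀ κ : ℕ × ℕ, κ ≠ 0 → LL b c κ a ≤ 0 → Ht b c a (coef b c a f) κ = 0) → IsGreedy b c a f

/-- uniqueness and bar-invariance of the greedy elements -/
def S_greedyUniq : Prop := ∀ (b c : ℕ), 0 < b → 0 < c → ∀ (a : ℤ × ℤ) (f g : QTorus),
  IsGreedy b c a f → (IsGreedy b c a g → f = g) ∧ QTorus.bar f = f

/-- the structure constants are nonnegative -/
def S_mulPos : Prop := ∀ (b c : ℕ), 0 < b → 0 < c → ∀ (D : WallData b c) (X : ℤ → QTorus),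
  IsClusterSeq b c X → ∀ G, GoodFam D X G → ∀ a u : ℤ × ℤ,
    ∃ ρ : (ℤ × ℤ) →₀ R, (∀ d, NN (ρ d)) ∧ ρ (a + u) = T (Lam a u) ∧
      G a * G u = ρ.sum fun d r => r • G d

/-- all members of a good family are greedy, and they are the explicit elements outside the
positive quadrant -/
def S_goodGreedy : Prop := ∀ (b c : ℕ), 0 < b → 0 < c → ∀ (D : WallData b c) (X : ℤ → QTorus),
  IsClusterSeq b c X → ∀ G, GoodFam D X G →
    (∀ a, IsGreedy b c a (G a)) ∧ ∀ a : ℤ × ℤ, a.1 ≤ 0 ∨ a.2 ≤ 0 → G a = Estd b c a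

/-! ### Block D: change of the initial cluster -/

/-- the new base point -/
def sh (b : ℕ) (a : ℤ × ℤ) : ℤ × ℤ := (a.2, b * max a.2 0 - a.1)

/-- the support of the expansion of a greedy element in the cluster `{X₂, X₃}` -/
def S_sup : Prop := ∀ (b c : ℕ), 0 < b → 0 < c → ∀ (D : WallData b c) (X : ℤ → QTorus),
  IsClusterSeq b c X → ∀ G, GoodFam D X G → ∀ a : ℤ × ℤ, 0 < a.2 →
    (∀ l, D.co (.hi (1, 0)) (G a) l ≠ 0 →
      ∃ κ : ℕ × ℕ, l = kk b c κ - a ∧ (κ.1 : ℤ) ≤ a.2) ∧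
    D.co (.hi (1, 0)) (G a) (b * a.2 - a.1, -a.2) = 1 ∧
    ∀ l, D.co (.lo (1, 0)) (G a) l ≠ 0 → l.2 < 0 →
      ∃ κ : ℕ × ℕ, l = kk b c κ - a ∧ (κ.1 : ℤ) + a.2 - c * κ.2 ≤ a.2

/-- the vanishing statements used for the shift -/
def S_shVan : Prop := ∀ (b c : ℕ), 0 < b → 0 < c → ∀ (D : WallData b c) (X : ℤ → QTorus),
  IsClusterSeq b c X → ∀ G, GoodFam D X G → ∀ a : ℤ × ℤ, 0 < a.2 →
    ∀ l : ℤ × ℤ, l ≠ (b * a.2 - a.1, -a.2) →
      (0 ≤ LF l a + b * a.2 * l.2 → 0 < l.1 → G a l = 0) ∧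
      (0 ≤ LF l a + b * a.2 * l.2 → l.1 ≤ 0 → D.co (.hi (1, 0)) (G a) l = 0) ∧
      (LF l a + b * a.2 * l.2 ≤ 0 → 0 ≤ l.2 → D.co (.hi (1, 0)) (G a) l = 0) ∧
      (LF l a + b * a.2 * l.2 ≤ 0 → l.2 < 0 → D.co (.lo (1, 0)) (G a) (l.1 + b * l.2, l.2) = 0)

/-- the rotated expansion of a greedy element is greedy -/
def S_shGreedy : Prop := ∀ (b c : ℕ), 0 < b → 0 < c → ∀ (D : WallData b c) (X : ℤ → QTorus),
  IsClusterSeq b c X → ∀ G, GoodFam D X G → ∀ (a : ℤ × ℤ) (g : QTorus),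
    (∀ l : ℤ × ℤ, g (l.2, -l.1) = D.co (.hi (1, 0)) (G a) l) → IsGreedy c b (sh b a) g

/-- the change of the initial cluster -/
def S_psi : Prop := ∀ (b c : ℕ), 0 < b → 0 < c → ∀ (D : WallData b c) (X X' : ℤ → QTorus),
  IsClusterSeq b c X → IsClusterSeq c b X' →
    ∃ ψ : clusterAlgebra X →ₐ[R] QTorus, Function.Injective ψ ∧
      (∀ (x : clusterAlgebra X) (l : ℤ × ℤ), ψ x (l.2, -l.1) = D.co (.hi (1, 0)) x l) ∧
      ∀ (m : ℤ) (x : clusterAlgebra X), (x : QTorus) = X m → ψ x = X' (m - 1)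

/-- the shift: the isomorphism of the two cluster algebras maps greedy elements to greedy
elements -/
def S_shift : Prop := ∀ (b c : ℕ), 0 < b → 0 < c → ∀ (D : WallData b c) (D' : WallData c b)
  (X X' : ℤ → QTorus), IsClusterSeq b c X → IsClusterSeq c b X' → ∀ G G', GoodFam D X G →
    GoodFam D' X' G' →
    ∃ ψ : clusterAlgebra X →ₐ[R] clusterAlgebra X', Function.Injective ψ ∧
      (∀ (m : ℤ) (x : clusterAlgebra X), (x : QTorus) = X m → (ψ x : QTorus) = X' (m - 1)) ∧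
      ∀ (a : ℤ × ℤ) (x : clusterAlgebra X), (x : QTorus) = G a → (ψ x : QTorus) = G' (sh b a)

/-- cluster monomials -/
def S_monomials : Prop := ∀ (b c : ℕ), 0 < b → 0 < c → ∀ (D : WallData b c) (_ : WallData c b)
  (X : ℤ → QTorus), IsClusterSeq b c X → ∀ G, GoodFam D X G → ∀ (m : ℤ) (i j : ℕ),
    (T ((i : ℤ) * j) : R) • (X m ^ i * X (m + 1) ^ j) ∈ Set.range G

/-- invariance under the shift by two -/
def S_shiftTwo : Prop := ∀ (b c : ℕ), 0 < b → 0 < c → ∀ (D : WallData b c) (_ : WallData c b)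
  (X : ℤ → QTorus), IsClusterSeq b c X → ∀ G, GoodFam D X G →
    ∀ σ : clusterAlgebra X ≃ₐ[R] clusterAlgebra X,
      (∀ (m : ℤ) (x : clusterAlgebra X), (x : QTorus) = X m → (σ x : QTorus) = X (m + 2)) →
      ∀ x : clusterAlgebra X, (x : QTorus) ∈ Set.range G ↔ (σ x : QTorus) ∈ Set.range G

/-- invariance under the shift by one -/
def S_shiftOne : Prop := ∀ (b : ℕ), 0 < b → ∀ (D : WallData b b)
  (X : ℤ → QTorus), IsClusterSeq b b X → ∀ G, GoodFam D X G →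
    ∀ σ : clusterAlgebra X ≃ₐ[R] clusterAlgebra X,
      (∀ (m : ℤ) (x : clusterAlgebra X), (x : QTorus) = X m → (σ x : QTorus) = X (m + 1)) →
      ∀ x : clusterAlgebra X, (x : QTorus) ∈ Set.range G ↔ (σ x : QTorus) ∈ Set.range G

/-- **PART A**: wall data give a strongly positive greedy basis. -/
def S_partA : Prop := ∀ (b c : ℕ), 0 < b → 0 < c → Nonempty (WallData b c) →
  Nonempty (WallData c b) → ∀ X : ℤ → QTorus, IsClusterSeq b c X →
    ∃ G : ℤ × ℤ → QTorus, (∀ a, IsGreedy b c a (G a)) ∧ IsStronglyPositive b c X G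

end Pool.Agent.Work.MP_c41774_al.Wall

end
end

section

/-!
# From Part A and wall data to the answer of Q1 and Q2
-/

noncomputable section

namespace Pool.Agent.Work.MP_c41774_al.Wall

open QTorus LaurentPolynomial

/-- existence of wall data (Parts 1 and 2) -/
def S_wallData : Prop := ∀ b c : ℕ, 0 < b → 0 < c → b ∣ c ∨ c ∣ b → Nonempty (WallData b c)

/-- The answer of Q1 and Q2. -/
theorem answer (hA : S_partA) (hB : S_wallData) (hU : S_greedyUniq) (b c : ℕ) (hb : 0 < b)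
    (hc : 0 < c) (hbc : b ∣ c ∨ c ∣ b) (X : ℤ → QTorus) (hX : IsClusterSeq b c X) :
    ∃ G : ℤ × ℤ → QTorus, (∀ a, IsGreedy b c a (G a)) ∧
      (∀ a x, IsGreedy b c a x → x = G a) ∧ IsLowerBasis b c X G ∧
        ∀ B, IsLowerBasis b c X B → B = G := by
  obtain ⟨G, hG, hSP⟩ := hA b c hb hc (hB b c hb hc hbc) (hB c b hc hb hbc.symm) X hX
  have hlow : IsLowerBasis b c X G :=
    ⟨hSP, fun B' hB' a => greedy_le_local hb hc hX hG hB' a
      fun p q _ _ _ m => sp_nonneg hb hc hX hSP _ m⟩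
  refine ⟨G, hG, fun a x hx => ?_, hlow, fun B hB' => ?_⟩
  · exact (hU b c hb hc a x (G a) hx).1 (hG a)
  · funext a
    exact CoefLE.antisymm (hB'.2 G hSP a) (hlow.2 B hB'.1 a)

end Pool.Agent.Work.MP_c41774_al.Wall

end
end

section

/-!
# The row and column transforms are expansions in charts
-/

noncomputable section

namespace Pool.Agent.Work.MP_c41774_al.Wall

open Finset QTorus LaurentPolynomial

theorem H_xs {N : ℤ} (F : PowerSeries S) (k : ℤ × ℤ) (hk : 0 < k.1 + k.2) (y : ℤ × ℤ → S)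
    (hy : Bd N y) (l : ℤ × ℤ) (n : ℕ) (hn : ∀ j : ℕ, n < j → y (l - j • k) = 0) :
    xs N F k y l = ∑ j ∈ Finset.range (n + 1), PowerSeries.coeff j F * y (l - j • k) := by
  unfold xs
  set J : ℕ := (l.1 + l.2 - 2 * N + 1).toNat with hJ
  have h1 : ∀ j : ℕ, J ≤ j → y (l - j • k) = 0 := by
    intro j hj
    have h2 : l.1 + l.2 - 2 * N + 1 ≤ (j : ℤ) := by
      have := Int.self_le_toNat (l.1 + l.2 - 2 * N + 1)
      have h3 : ((l.1 + l.2 - 2 * N + 1).toNat : ℤ) ≤ j := by exact_mod_cast hj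
      omega
    by_contra hne
    have h4 := hy _ hne
    simp only [Prod.fst_sub, Prod.snd_sub, Prod.smul_fst, Prod.smul_snd] at h4
    simp only [nsmul_eq_mul] at h4
    have h5 : (j : ℤ) ≤ j * (k.1 + k.2) := by
      have : (j : ℤ) * 1 ≤ j * (k.1 + k.2) := by
        apply mul_le_mul_of_nonneg_left (by omega) (by omega)
      omega
    have h6 : (j : ℤ) * (k.1 + k.2) = j * k.1 + j * k.2 := by ring
    omega
  have h2 : ∑ j ∈ Finset.range J, PowerSeries.coeff j F * y (l - j • k) =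
      ∑ j ∈ Finset.range (max J (n + 1)), PowerSeries.coeff j F * y (l - j • k) := by
    refine Finset.sum_subset (Finset.range_mono (le_max_left _ _)) fun j _ hj => ?_
    rw [h1 j (by simpa using hj), mul_zero]
  have h3 : ∑ j ∈ Finset.range (n + 1), PowerSeries.coeff j F * y (l - j • k) =
      ∑ j ∈ Finset.range (max J (n + 1)), PowerSeries.coeff j F * y (l - j • k) := by
    refine Finset.sum_subset (Finset.range_mono (le_max_right _ _)) fun j _ hj => ?_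
    have h4 : n < j := by
      rw [Finset.mem_range] at hj
      omega
    rw [hn j h4, mul_zero]
  rw [h2, h3]

theorem H_one {b c : ℕ} (D : WallData b c) (f : QTorus) (l : ℤ × ℤ) :
    D.T .one (emb f) l = iota (f l) := by
  have h1 : D.T .one (emb f) = emb f := by
    show ((1 : CTˣ) : CT) * emb f * (((1 : CTˣ)⁻¹ : CTˣ) : CT) = emb f
    rw [inv_one, Units.val_one, one_mul, mul_one]
  rw [h1, emb_apply]

theorem pr_H (h1 : S_chartSys) (h2 : S_Fxy) (h3 : S_intT) : S_H := by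
  intro b c hb hc D a f hf κ
  obtain ⟨N, hN⟩ := CT.exists_bd (emb f)
  have hcs := h1 b c hb hc D (emb f) N hN
  have hbd : Bd N (fun l => D.T .one (emb f) l) := hcs.bd .one trivial
  have hbZ : (0 : ℤ) < b := by exact_mod_cast hb
  have hcZ : (0 : ℤ) < c := by exact_mod_cast hc
  constructor
  · intro hle
    apply iota_injective
    rw [h3 b c hb hc D (.lo (0, 1)) (by simp [Chart.Valid]) f]
    set n : ℕ := ht c a κ.2 with hn
    have hn' : (n : ℤ) = a.2 - c * κ.2 := by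
      rw [hn, ht, Int.toNat_of_nonneg (by omega)]
    have hx := hcs.x_in (kk b c κ - a)
    rw [hx]
    have hL : Lam (kk (b : ℤ) c κ - a) (kk b c (1, 0)) = -((n : ℤ) * b) := by
      simp only [Lam, Prod.fst_sub, Prod.snd_sub, kk_fst, kk_snd]
      rw [hn']; push_cast; ring
    rw [hL, ((h2 b c D n).2.1)]
    have hpt : ∀ j : ℕ, (kk (b : ℤ) c κ - a - j • kk (b : ℤ) c (1, 0)) =
        ((b : ℤ) * ((κ.1 : ℤ) - j) - a.1, (c : ℤ) * κ.2 - a.2) := by
      intro j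
      ext
      · rw [Prod.fst_sub, Prod.fst_sub, Prod.smul_fst, nsmul_eq_mul]
        simp only [kk_fst]; push_cast; ring
      · rw [Prod.snd_sub, Prod.snd_sub, Prod.smul_snd, nsmul_eq_mul]
        simp only [kk_snd]; push_cast; ring
    rw [H_xs _ _ (by simp only [kk_fst, kk_snd]; push_cast; omega) _ hbd _ κ.1 ?_]
    · have e1 : ∀ j ∈ Finset.range (κ.1 + 1),
          PowerSeries.coeff j (PowerSeries.map iota (Pinv b n)) *
            D.T .one (emb f) (kk b c κ - a - j • kk b c (1, 0)) =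
          iota (coef b c a f (κ.1 - j, κ.2) * PowerSeries.coeff j (Pinv b n)) := by
        intro j hj
        rw [H_one, PowerSeries.coeff_map, ← map_mul, hpt, coef, mul_comm]
        congr 3
        ext
        · simp only
          rw [Nat.cast_sub (by rw [Finset.mem_range] at hj; omega)]
        · rfl
      rw [Finset.sum_congr rfl e1, ← map_sum, H, PowerSeries.coeff_mul,
        Finset.Nat.sum_antidiagonal_eq_sum_range_succ_mk, ← Finset.sum_range_reflect]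
      congr 1
      refine Finset.sum_congr rfl fun j hj => ?_
      rw [Finset.mem_range] at hj
      have e2 : κ.1 + 1 - 1 - j = κ.1 - j := by omega
      have e3 : κ.1 - (κ.1 - j) = j := by omega
      simp only [e2, e3, coeff_row]
      rw [← hn]
    · intro j hj
      rw [H_one, hpt]
      have : f ((b : ℤ) * ((κ.1 : ℤ) - j) - a.1, (c : ℤ) * κ.2 - a.2) = 0 := by
        by_contra hne
        obtain ⟨κ', hκ'⟩ := hf _ hne
        have h4 := congrArg Prod.fst hκ'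
        simp only [Prod.fst_sub, kk_fst] at h4
        have h5 : (b : ℤ) * ((κ.1 : ℤ) - j) = b * κ'.1 := by omega
        have h6 := mul_left_cancel₀ (by omega) h5
        omega
      rw [this, map_zero]
  · intro hle
    apply iota_injective
    rw [h3 b c hb hc D (.hi (1, 0)) (by simp [Chart.Valid]) f]
    set n : ℕ := ht b a.swap κ.1 with hn
    have hn' : (n : ℤ) = a.1 - b * κ.1 := by
      rw [hn, ht, Int.toNat_of_nonneg (by simp only [Prod.snd_swap]; omega)]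
      simp only [Prod.snd_swap]
    have hx := hcs.y_in (kk b c κ - a)
    rw [hx]
    have hL : -Lam (kk (b : ℤ) c κ - a) (kk b c (0, 1)) = -((n : ℤ) * c) := by
      simp only [Lam, Prod.fst_sub, Prod.snd_sub, kk_fst, kk_snd]
      rw [hn']; push_cast; ring
    rw [hL, ((h2 b c D n).2.2.2)]
    have hpt : ∀ j : ℕ, (kk (b : ℤ) c κ - a - j • kk (b : ℤ) c (0, 1)) =
        ((b : ℤ) * κ.1 - a.1, (c : ℤ) * ((κ.2 : ℤ) - j) - a.2) := by
      intro j
      ext
      · rw [Prod.fst_sub, Prod.fst_sub, Prod.smul_fst, nsmul_eq_mul]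
        simp only [kk_fst]; push_cast; ring
      · rw [Prod.snd_sub, Prod.snd_sub, Prod.smul_snd, nsmul_eq_mul]
        simp only [kk_snd]; push_cast; ring
    rw [H_xs _ _ (by simp only [kk_fst, kk_snd]; push_cast; omega) _ hbd _ κ.2 ?_]
    · have e1 : ∀ j ∈ Finset.range (κ.2 + 1),
          PowerSeries.coeff j (PowerSeries.map iota (Pinv c n)) *
            D.T .one (emb f) (kk b c κ - a - j • kk b c (0, 1)) =
          iota (coef b c a f (κ.1, κ.2 - j) * PowerSeries.coeff j (Pinv c n)) := by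
        intro j hj
        rw [H_one, PowerSeries.coeff_map, ← map_mul, hpt, coef, mul_comm]
        congr 3
        ext
        · rfl
        · simp only
          rw [Nat.cast_sub (by rw [Finset.mem_range] at hj; omega)]
      rw [Finset.sum_congr rfl e1, ← map_sum, Ht, H, PowerSeries.coeff_mul,
        Finset.Nat.sum_antidiagonal_eq_sum_range_succ_mk, ← Finset.sum_range_reflect]
      congr 1
      refine Finset.sum_congr rfl fun j hj => ?_
      simp only [Prod.fst_swap, Prod.snd_swap] at hj ⊢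
      rw [Finset.mem_range] at hj
      have e2 : κ.2 + 1 - 1 - j = κ.2 - j := by omega
      have e3 : κ.2 - (κ.2 - j) = j := by omega
      simp only [e2, e3, coeff_row, fl_apply, Prod.swap_prod_mk]
      rw [← hn]
    · intro j hj
      rw [H_one, hpt]
      have : f ((b : ℤ) * κ.1 - a.1, (c : ℤ) * ((κ.2 : ℤ) - j) - a.2) = 0 := by
        by_contra hne
        obtain ⟨κ', hκ'⟩ := hf _ hne
        have h4 := congrArg Prod.snd hκ'
        simp only [Prod.snd_sub, kk_snd] at h4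
        have h5 : (c : ℤ) * ((κ.2 : ℤ) - j) = c * κ'.2 := by omega
        have h6 := mul_left_cancel₀ (by omega) h5
        omega
      rw [this, map_zero]

end Pool.Agent.Work.MP_c41774_al.Wall

end
end

section

/-!
# Algebraic properties of the chart coefficients
-/

noncomputable section

namespace Pool.Agent.Work.MP_c41774_al.Wall

open Finset QTorus LaurentPolynomial

variable {b c : ℕ}

theorem coAlg_Tzero (D : WallData b c) (C : Chart) : D.T C 0 = 0 := by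
  rw [WallData.T, mul_zero, zero_mul]

theorem coAlg_Tadd (D : WallData b c) (C : Chart) (x y : CT) :
    D.T C (x + y) = D.T C x + D.T C y := by
  rw [WallData.T, WallData.T, WallData.T, mul_add, add_mul]

theorem coAlg_Tsub (D : WallData b c) (C : Chart) (x y : CT) :
    D.T C (x - y) = D.T C x - D.T C y := by
  rw [WallData.T, WallData.T, WallData.T, mul_sub, sub_mul]

theorem coAlg_Tone (D : WallData b c) (C : Chart) : D.T C 1 = 1 := by
  rw [WallData.T, mul_one, Units.mul_inv]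

theorem coAlg_Tmul (D : WallData b c) (C : Chart) (x y : CT) :
    D.T C (x * y) = D.T C x * D.T C y := by
  rw [WallData.T, WallData.T, WallData.T]
  have h : ((D.g C)⁻¹ : CTˣ).val * (D.g C : CT) = 1 := Units.inv_mul _
  calc (D.g C : CT) * (x * y) * ((D.g C)⁻¹ : CTˣ)
      = (D.g C : CT) * x * 1 * y * ((D.g C)⁻¹ : CTˣ) := by
        rw [mul_one]; simp only [mul_assoc]
    _ = _ := by rw [← h]; simp only [mul_assoc]

theorem coAlg_mon_comm (s : S) (x : CT) : CT.mon 0 s * x = x * CT.mon 0 s := by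
  refine CT.ext fun m => ?_
  rw [CT.mon_mul_apply, CT.mul_mon_apply]
  have h1 : Lam 0 m = 0 := by simp [Lam]
  have h2 : Lam m 0 = 0 := by simp [Lam]
  rw [h1, h2, mul_comm s]

theorem coAlg_mon_apply (s : S) (x : CT) (m : ℤ × ℤ) : (CT.mon 0 s * x) m = s * x m := by
  rw [CT.mon_mul_apply]
  have h1 : Lam 0 m = 0 := by simp [Lam]
  rw [h1, w_zero, one_mul, sub_zero]

theorem coAlg_Tsmul (D : WallData b c) (C : Chart) (r : R) (f : QTorus) (l : ℤ × ℤ) :
    D.T C (emb (r • f)) l = iota r * D.T C (emb f) l := by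
  have h1 : emb (r • f) = CT.mon 0 (iota r) * emb f := by
    refine CT.ext fun m => ?_
    rw [coAlg_mon_apply, emb_apply, emb_apply, QTorus.smul_apply, map_mul]
  have h2 : D.T C (emb (r • f)) = CT.mon 0 (iota r) * D.T C (emb f) := by
    rw [h1, WallData.T, WallData.T, ← mul_assoc, ← coAlg_mon_comm]
    simp only [mul_assoc]
  rw [h2, coAlg_mon_apply]

theorem pr_coAlg (hI : S_intT) (hL : S_latT) : S_coAlg := by
  intro b c hb hc D C hC
  have hi : ∀ (f : QTorus) (l : ℤ × ℤ), iota (D.co C f l) = D.T C (emb f) l :=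
    hI b c hb hc D C hC
  have h0 : ∀ l, D.co C 0 l = 0 := by
    intro l
    apply iota_injective
    rw [hi, map_zero, map_zero, coAlg_Tzero]
    rfl
  have hadd : ∀ (f g : QTorus) (l : ℤ × ℤ), D.co C (f + g) l = D.co C f l + D.co C g l := by
    intro f g l
    apply iota_injective
    rw [hi, map_add, map_add, coAlg_Tadd, CT.add_apply, hi, hi]
  refine ⟨h0, hadd, ?_, ?_, ?_, ?_, ?_, ?_⟩
  · intro f g l
    apply iota_injective
    rw [hi, map_sub, map_sub, coAlg_Tsub, CT.sub_apply, hi, hi]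
  · intro r f l
    apply iota_injective
    rw [hi, map_mul, hi, coAlg_Tsmul]
  · intro ι s f l
    classical
    induction s using Finset.induction_on with
    | empty => rw [Finset.sum_empty, Finset.sum_empty, h0]
    | insert a s ha ih => rw [Finset.sum_insert ha, Finset.sum_insert ha, hadd, ih]
  · intro f g l
    obtain ⟨N, hf, hg⟩ := CT.exists_bd2 (D.T C (emb f)) (D.T C (emb g))
    refine ⟨Icc (N, N) (l.1 - N, l.2 - N), fun s' hs' => ?_⟩
    apply iota_injective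
    rw [hi, map_mul, coAlg_Tmul, CT.mul_apply hf hg, map_sum]
    have h1 : ∀ i, iota (T (Lam i l) * (D.co C f i * D.co C g (l - i))) =
        w (Lam i l) * (D.T C (emb f) i * D.T C (emb g) (l - i)) := by
      intro i
      rw [map_mul, map_mul, iota_T, hi, hi]
    rw [Finset.sum_congr rfl fun i _ => h1 i]
    refine Finset.sum_subset hs' fun i _ hi2 => ?_
    have : D.T C (emb f) i = 0 ∨ D.T C (emb g) (l - i) = 0 := by
      by_contra hcon
      push Not at hcon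
      have e1 := hf _ hcon.1
      have e2 := hg _ hcon.2
      apply hi2
      rw [mem_Icc, Prod.le_def, Prod.le_def]
      simp only [Prod.fst_sub, Prod.snd_sub] at e2 ⊢
      omega
    rcases this with h | h <;> rw [h] <;> simp
  · intro l
    apply iota_injective
    rw [hi, map_one, coAlg_Tone, CT.one_apply]
    by_cases h : l = 0
    · rw [if_pos h, if_pos h, map_one]
    · rw [if_neg h, if_neg h, map_zero]
  · intro a f hf
    have hlat : Lat b c a (emb f) := by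
      intro m hm
      refine hf m fun h => hm ?_
      rw [emb_apply, h, map_zero]
    obtain ⟨h1, h2⟩ := hL b c hb hc D C hC a (emb f) hlat
    refine ⟨fun m hm => h1 m fun h => hm ?_, ?_⟩
    · apply iota_injective
      rw [hi, h, map_zero]
    · apply iota_injective
      rw [hi, h2, emb_apply]

end Pool.Agent.Work.MP_c41774_al.Wall

end
end

section

/-!
# A uniform lower bound for the supports in all charts
-/

noncomputable section

namespace Pool.Agent.Work.MP_c41774_al.Wall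

open Finset QTorus LaurentPolynomial

theorem pr_coBd (h1 : S_intT) (h2 : S_chartSys) : S_coBd := by
  intro b c hb hc D f
  obtain ⟨N, hN⟩ := CT.exists_bd (emb f)
  refine ⟨N, fun C hC m hm => ?_⟩
  have h3 := h2 b c hb hc D (emb f) N hN
  have h4 : Bd N (fun l => D.T C (emb f) l) := h3.bd C hC
  refine h4 m ?_
  show D.T C (emb f) m ≠ 0
  rw [← h1 b c hb hc D C hC f m]
  intro h5
  apply hm
  apply iota_injective
  rw [h5, map_zero]

end Pool.Agent.Work.MP_c41774_al.Wall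

end
end

section

/-!
# The initial chart
-/

noncomputable section

namespace Pool.Agent.Work.MP_c41774_al.Wall

open Finset QTorus LaurentPolynomial

theorem pr_coOne : S_coOne := by
  intro b c D f l
  have h1 : D.T .one (emb f) = emb f := by
    show ((1 : CTˣ) : CT) * emb f * (((1 : CTˣ)⁻¹ : CTˣ) : CT) = emb f
    rw [inv_one, Units.val_one, one_mul, mul_one]
  unfold WallData.co
  rw [h1, emb_apply]
  exact Function.leftInverse_invFun iota_injective _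

end Pool.Agent.Work.MP_c41774_al.Wall

end
end
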