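import Pool.Agent.Work.MP_c41774_al.Bd.B14
import Pool.Agent.Work.MP_c41774_al.Bd.B01

/-! Bundle of small proof modules (one section per former module). -/

section

/-!
# Existence of the dual family
-/

noncomputable section

namespace Pool.Agent.Work.MP_c41774_al.Wall

open Finset QTorus LaurentPolynomial

variable {b c : ℕ}

/-- the chart of `l` is valid -/
theorem ch_valid_ex (hb : 0 < b) (l : ℤ × ℤ) : (ch b c l).Valid := by
  unfold ch
  split_ifs with h1 h2 h3
  · exact trivial
  · exact (by decide : Nat.Coprime 0 1)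
  · exact (by decide : Nat.Coprime 1 0)
  · show Nat.Coprime (c * l.1.natAbs / Nat.gcd (c * l.1.natAbs) (b * l.2.natAbs))
      (b * l.2.natAbs / Nat.gcd (c * l.1.natAbs) (b * l.2.natAbs))
    refine Nat.coprime_div_gcd_div_gcd (Nat.gcd_pos_of_pos_right _ ?_)
    have : l.2.natAbs ≠ 0 := by omega
    positivity

/-- pointedness in terms of the cone -/
theorem isPointed_iff_ex {a : ℤ × ℤ} {x : QTorus} : IsPointed b c a x ↔
    (∀ m, x m ≠ 0 → ∃ κ : ℕ × ℕ, m = kk b c κ - a) ∧ x (-a) = 1 := by
  have h : coef b c a x 0 = x (-a) := by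
    unfold coef
    congr 1
    ext <;> simp
  rw [IsPointed, h]
  rfl

/-- the property of a member of the dual family -/
def GoodAt (D : WallData b c) (X : ℤ → QTorus) (a : ℤ × ℤ) (x : QTorus) : Prop :=
  x ∈ clusterAlgebra X ∧ IsPointed b c a x ∧
    ∀ l, D.co (ch b c l) x l = if l = -a then 1 else 0

theorem pr_exists (hA : S_coAlg) (hF : S_finBeta) (hS : S_stdMem) (hSC : S_stdCo) (hM : S_mstd) :
    S_exists := by
  intro b c hb hc D X hX
  have std : ∀ a : ℤ × ℤ, a.1 ≤ 0 ∨ a.2 ≤ 0 → ∃ x, GoodAt D X a x := by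
    intro a ha
    obtain ⟨h1, h2⟩ := hS b c hb hc X hX a ha
    exact ⟨Estd b c a, h2, h1, (hSC b c hb hc D a).2.2.2 ha⟩
  have main : ∀ (n : ℕ) (a : ℤ × ℤ), (a.1 + a.2).toNat = n → ∃ x, GoodAt D X a x := by
    intro n
    induction n using Nat.strong_induction_on with
    | _ n ih =>
      intro a ha
      by_cases hout : a.1 ≤ 0 ∨ a.2 ≤ 0
      · exact std a hout
      push Not at hout
      obtain ⟨ha1, ha2⟩ := hout
      obtain ⟨hMp, hMm⟩ := hM b c hb hc X hX a ha1 ha2
      set M := Mstd b c a with hMdef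
      rw [isPointed_iff_ex] at hMp
      obtain ⟨hMc, hMa⟩ := hMp
      have hfin := hF b c hb hc D X hX M hMm
      have hval := fun l : ℤ × ℤ => ch_valid_ex (b := b) (c := c) hb l
      set B : Finset (ℤ × ℤ) := hfin.toFinset.erase (-a) with hB
      have hBmem : ∀ l, l ∈ B ↔ l ≠ -a ∧ D.co (ch b c l) M l ≠ 0 := by
        intro l
        rw [hB, Finset.mem_erase, Set.Finite.mem_toFinset]
        rfl
      have hcone : ∀ l ∈ B, ∃ κ : ℕ × ℕ, l = kk b c κ - a := by
        intro l hl
        obtain ⟨_, _, _, _, _, _, _, h8⟩ := hA b c hb hc D (ch b c l) (hval l)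
        exact (h8 a M hMc).1 l ((hBmem l).1 hl).2
      have hG : ∀ l, ∃ y, l ∈ B → GoodAt D X (-l) y := by
        intro l
        by_cases hl : l ∈ B
        · obtain ⟨κ, hκ⟩ := hcone l hl
          have hne := ((hBmem l).1 hl).1
          have hκ0 : κ ≠ 0 := by
            rintro rfl
            apply hne
            rw [hκ]
            ext <;> simp
          by_cases hout : (-l).1 ≤ 0 ∨ (-l).2 ≤ 0
          · obtain ⟨y, hy⟩ := std (-l) hout
            exact ⟨y, fun _ => hy⟩
          · push Not at hout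
            have e1 : l.1 = b * κ.1 - a.1 := by rw [hκ]; rfl
            have e2 : l.2 = c * κ.2 - a.2 := by rw [hκ]; rfl
            have hlt : ((-l).1 + (-l).2).toNat < n := by
              have hκ' : 0 < κ.1 ∨ 0 < κ.2 := by
                by_contra hcon
                push Not at hcon
                apply hκ0
                ext
                · simpa using hcon.1
                · simpa using hcon.2
              simp only [Prod.fst_neg, Prod.snd_neg] at hout ⊢
              have hbk : (0 : ℤ) ≤ b * κ.1 := by positivity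
              have hck : (0 : ℤ) ≤ c * κ.2 := by positivity
              have hpos : (0 : ℤ) < b * κ.1 + c * κ.2 := by
                rcases hκ' with h | h
                · have : (0 : ℤ) < b * κ.1 := by positivity
                  omega
                · have : (0 : ℤ) < c * κ.2 := by positivity
                  omega
              omega
            obtain ⟨y, hy⟩ := ih _ hlt (-l) rfl
            exact ⟨y, fun _ => hy⟩
        · exact ⟨0, fun h => absurd h hl⟩
      choose G hG using hG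
      have hbeta : ∀ m, D.co (ch b c m) (M - ∑ l ∈ B, D.co (ch b c l) M l • G l) m =
          if m = -a then 1 else 0 := by
        intro m
        obtain ⟨_, _, h3, h4, h5, _, _, h8⟩ := hA b c hb hc D (ch b c m) (hval m)
        rw [h3, h5]
        have e : ∑ l ∈ B, D.co (ch b c m) (D.co (ch b c l) M l • G l) m =
            ∑ l ∈ B, if m = l then D.co (ch b c l) M l else 0 := by
          refine Finset.sum_congr rfl fun l hl => ?_
          rw [h4, (hG l hl).2.2 m, neg_neg, mul_ite, mul_one, mul_zero]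
        rw [e, Finset.sum_ite_eq B m]
        by_cases hm : m = -a
        · have hnB : m ∉ B := fun h => ((hBmem m).1 h).1 hm
          rw [if_neg hnB, if_pos hm, sub_zero]
          have := (h8 a M hMc).2
          rw [hMa] at this
          rw [← this, ← hm]
        · rw [if_neg hm]
          by_cases hmB : m ∈ B
          · rw [if_pos hmB, sub_self]
          · rw [if_neg hmB, sub_zero]
            by_contra hcon
            exact hmB ((hBmem m).2 ⟨hm, hcon⟩)
      have hsupp : ∀ m, (M - ∑ l ∈ B, D.co (ch b c l) M l • G l) m ≠ 0 →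
          ∃ κ : ℕ × ℕ, m = kk b c κ - a := by
        intro m hm
        by_cases hMm' : M m = 0
        · rw [QTorus.sub_apply, hMm', zero_sub, neg_ne_zero, QTorus.sum_apply] at hm
          obtain ⟨l, hl, hlne⟩ := Finset.exists_ne_zero_of_sum_ne_zero hm
          rw [QTorus.smul_apply] at hlne
          have hGne : G l m ≠ 0 := right_ne_zero_of_mul hlne
          obtain ⟨κ, hκ⟩ := hcone l hl
          obtain ⟨κ', hκ'⟩ := ((isPointed_iff_ex.1 (hG l hl).2.1).1 m hGne)
          refine ⟨κ' + κ, ?_⟩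
          rw [hκ', hκ]
          ext
          · simp only [Prod.fst_sub, Prod.fst_neg, kk_fst, Prod.fst_add]; push_cast; ring
          · simp only [Prod.snd_sub, Prod.snd_neg, kk_snd, Prod.snd_add]; push_cast; ring
        · exact hMc m hMm'
      refine ⟨M - ∑ l ∈ B, D.co (ch b c l) M l • G l, ?_, ?_, hbeta⟩
      · refine sub_mem hMm (sum_mem fun l hl => ?_)
        exact (clusterAlgebra X).smul_mem (hG l hl).1 _
      · rw [isPointed_iff_ex]
        refine ⟨hsupp, ?_⟩
        obtain ⟨_, _, _, _, _, _, _, h8⟩ := hA b c hb hc D (ch b c (-a)) (hval (-a))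
        rw [← (h8 a _ hsupp).2, hbeta (-a), if_pos rfl]
  choose G hG using fun a : ℤ × ℤ => main _ a rfl
  exact ⟨G, ⟨fun a => (hG a).1, fun a => (hG a).2.1, fun a => (hG a).2.2⟩⟩

end Pool.Agent.Work.MP_c41774_al.Wall

end
end

section

/-!
# Finiteness of the two neighbouring charts on the cluster algebra
-/

noncomputable section

namespace Pool.Agent.Work.MP_c41774_al.Wall

open Finset QTorus LaurentPolynomial

variable {b c : ℕ}

/-- uniqueness of the solution of a row equation -/
theorem fin_row_unique {b : ℕ} (hb : 0 < b) (n : ℕ) (h : ℤ → R) (N : ℤ)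
    (hN : ∀ x, h x ≠ 0 → N ≤ x)
    (heq : ∀ x, ∑ j ∈ Finset.range (n + 1), qb b n j * h (x - b * j) = 0) :
    ∀ x, h x = 0 := by
  have key : ∀ (k : ℕ) (x : ℤ), x < N + k → h x = 0 := by
    intro k
    induction k with
    | zero =>
      intro x hx
      by_contra hne
      have := hN x hne
      simp only [Nat.cast_zero, add_zero] at hx
      omega
    | succ k ih =>
      intro x hx
      have h1 := heq x
      rw [Finset.sum_range_succ', Finset.sum_eq_zero, zero_add] at h1
      · simpa using h1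
      · intro j _
        rw [ih, mul_zero]
        have h2 : (b : ℤ) * ((j + 1 : ℕ) : ℤ) ≥ 1 := by
          have : 1 ≤ b * (j + 1) := Nat.mul_pos hb (Nat.succ_pos j)
          exact_mod_cast this
        push_cast at hx h2 ⊢
        omega
  intro x
  exact key (x - N + 1).toNat x (by omega)

/-- finiteness of a row transform -/
theorem fin_aux {b : ℕ} (hb : 0 < b) (g f g0 : ℤ × ℤ → R) (N : ℤ)
    (h1 : ∀ (n : ℕ) (x : ℤ), g (x, n) = ∑ j ∈ Finset.range (n + 1), qb b n j * f (x - b * j, n))
    (h2 : ∀ (n : ℕ) (x : ℤ), f (x, -n) = ∑ j ∈ Finset.range (n + 1), qb b n j * g (x - b * j, -n))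
    (hN : ∀ m, g m ≠ 0 → N ≤ m.1) (hN0 : ∀ m, g0 m ≠ 0 → N ≤ m.1)
    (hf : {m | f m ≠ 0}.Finite) (hg0 : {m | g0 m ≠ 0}.Finite)
    (h3 : ∀ (n : ℕ) (x : ℤ), 0 < n →
      f (x, -n) = ∑ j ∈ Finset.range (n + 1), qb b n j * g0 (x - b * j, -n)) :
    {m | g m ≠ 0}.Finite := by
  have hneg : ∀ (n : ℕ), 0 < n → ∀ x : ℤ, g (x, -n) = g0 (x, -n) := by
    intro n hn x
    have := fin_row_unique hb n (fun x => g (x, -n) - g0 (x, -n)) N (by
      intro y hy
      by_cases h : g (y, -n) = 0
      · refine hN0 (y, -n) fun h' => hy ?_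
        simp only [h, h', sub_zero]
      · exact hN (y, -n) h) (by
      intro y
      simp only [mul_sub, Finset.sum_sub_distrib]
      rw [← h2, ← h3 n y hn, sub_self]) x
    exact sub_eq_zero.mp this
  refine Set.Finite.subset (((hf.toFinset.biUnion fun m =>
      (Finset.range (m.2.toNat + 1)).image fun j : ℕ =>
        ((m.1 + b * j, m.2) : ℤ × ℤ)).finite_toSet).union hg0) ?_
  rintro ⟨x, y⟩ hxy
  rw [Set.mem_ofPred_eq] at hxy
  rcases le_or_gt 0 y with hy | hy
  · left
    obtain ⟨n, rfl⟩ := Int.eq_ofNat_of_zero_le hy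
    rw [h1] at hxy
    obtain ⟨j, hj, hne⟩ := Finset.exists_ne_zero_of_sum_ne_zero hxy
    have hne' : f (x - b * j, n) ≠ 0 := right_ne_zero_of_mul hne
    rw [Finset.mem_coe, Finset.mem_biUnion]
    refine ⟨(x - b * j, n), by simpa using hne', ?_⟩
    rw [Finset.mem_image]
    refine ⟨j, ?_, ?_⟩
    · simpa using hj
    · simp
  · right
    obtain ⟨n, hn⟩ := Int.eq_ofNat_of_zero_le (a := -y) (by omega)
    have hy' : y = -(n : ℤ) := by omega
    subst hy'
    rw [Set.mem_ofPred_eq, ← hneg n (by omega)]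
    exact hxy

/-- finiteness on an algebra from finiteness on generators -/
theorem fin_of_gens (hAlg : S_coAlg) (hb : 0 < b) (hc : 0 < c) (D : WallData b c) (C : Chart)
    (hC : C.Valid) (A : Set QTorus) (hA : ∀ x ∈ A, {l | D.co C x l ≠ 0}.Finite) :
    ∀ f ∈ Algebra.adjoin R A, {l | D.co C f l ≠ 0}.Finite := by
  obtain ⟨-, hadd, -, hsmul, -, hmul, hone, -⟩ := hAlg b c hb hc D C hC
  intro f hf
  induction hf using Algebra.adjoin_induction with
  | mem x hx => exact hA x hx
  | algebraMap r =>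
    refine Set.Finite.subset (Set.finite_singleton (0 : ℤ × ℤ)) ?_
    intro l hl
    rw [Set.mem_ofPred_eq, Algebra.algebraMap_eq_smul_one, hsmul, hone] at hl
    by_contra h
    rw [Set.mem_singleton_iff] at h
    rw [if_neg h, mul_zero] at hl
    exact hl rfl
  | add x y _ _ hx hy =>
    refine Set.Finite.subset (hx.union hy) ?_
    intro l hl
    rw [Set.mem_ofPred_eq, hadd] at hl
    by_contra h
    rw [Set.mem_union, not_or, Set.mem_ofPred_eq, Set.mem_ofPred_eq, not_not, not_not] at h
    rw [h.1, h.2, add_zero] at hl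
    exact hl rfl
  | mul x y _ _ hx hy =>
    refine Set.Finite.subset (Set.Finite.image2 (fun i j => i + j) hx hy) ?_
    intro l hl
    rw [Set.mem_ofPred_eq] at hl
    obtain ⟨s, hs⟩ := hmul x y l
    rw [hs s (Finset.Subset.refl s)] at hl
    obtain ⟨i, -, hi⟩ := Finset.exists_ne_zero_of_sum_ne_zero hl
    have h1 := right_ne_zero_of_mul hi
    refine ⟨i, left_ne_zero_of_mul h1, l - i, right_ne_zero_of_mul h1, ?_⟩
    simp

theorem fin_supp (x : QTorus) : {m | x m ≠ 0}.Finite := by
  refine Set.Finite.subset (supp x).finite_toSet ?_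
  intro m hm
  exact mem_supp.mpr hm

/-- the chart `lo (0,1)` -/
theorem fin_lo (hBd : S_coBd) (hrows : S_rows) (hb : 0 < b) (hc : 0 < c) (D : WallData b c)
    (f : QTorus) (g0 : ℤ × ℤ → R) (hg0 : {m | g0 m ≠ 0}.Finite) (hN0 : ∃ N : ℤ, ∀ m, g0 m ≠ 0 → N ≤ m.1)
    (h3 : ∀ (n : ℕ) (x : ℤ), 0 < n →
      f (x, -n) = ∑ j ∈ Finset.range (n + 1), qb b n j * g0 (x - b * j, -n)) :
    {l | D.co (.lo (0, 1)) f l ≠ 0}.Finite := by
  obtain ⟨N, hN⟩ := hBd b c hb hc D f
  obtain ⟨N', hN'⟩ := hN0
  have hC : (Chart.lo (0, 1)).Valid := by show Nat.Coprime 0 1; simp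
  refine fin_aux hb (D.co (.lo (0, 1)) f) (fun m => f m) g0 (min N N') ?_ ?_ ?_ ?_ (fin_supp f)
    hg0 h3
  · intro n x
    exact (hrows b c hb hc D f (x, n) n).1 rfl
  · intro n x
    exact (hrows b c hb hc D f (x, -n) n).2.1 rfl
  · intro m hm
    exact (min_le_left _ _).trans (hN _ hC m hm).1
  · intro m hm
    exact (min_le_right _ _).trans (hN' m hm)

/-- the chart `hi (1,0)` -/
theorem fin_hi (hBd : S_coBd) (hrows : S_rows) (hb : 0 < b) (hc : 0 < c) (D : WallData b c)
    (f : QTorus) (g0 : ℤ × ℤ → R) (hg0 : {m | g0 m ≠ 0}.Finite) (hN0 : ∃ N : ℤ, ∀ m, g0 m ≠ 0 → N ≤ m.1)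
    (h3 : ∀ (n : ℕ) (x : ℤ), 0 < n →
      f (-n, x) = ∑ j ∈ Finset.range (n + 1), qb c n j * g0 (x - c * j, -n)) :
    {l | D.co (.hi (1, 0)) f l ≠ 0}.Finite := by
  obtain ⟨N, hN⟩ := hBd b c hb hc D f
  obtain ⟨N', hN'⟩ := hN0
  have hC : (Chart.hi (1, 0)).Valid := by show Nat.Coprime 1 0; simp
  have hfs : {m : ℤ × ℤ | f (m.2, m.1) ≠ 0}.Finite := by
    have := (fin_supp f).preimage (f := fun m : ℤ × ℤ => (m.2, m.1))
      (Function.Injective.injOn (fun a a' h => by
        simp only [Prod.mk.injEq] at h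
        exact Prod.ext h.2 h.1))
    exact this
  have key := fin_aux hc (fun m => D.co (.hi (1, 0)) f (m.2, m.1)) (fun m => f (m.2, m.1)) g0
    (min N N') (by
      intro n x
      exact (hrows b c hb hc D f (n, x) n).2.2.1 rfl) (by
      intro n x
      exact (hrows b c hb hc D f (-n, x) n).2.2.2.1 rfl) (by
      intro m hm
      exact (min_le_left _ _).trans (hN _ hC _ hm).2) (by
      intro m hm
      exact (min_le_right _ _).trans (hN' m hm)) hfs hg0 h3
  have := key.preimage (f := fun m : ℤ × ℤ => (m.2, m.1))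
      (Function.Injective.injOn (fun a a' h => by
        simp only [Prod.mk.injEq] at h
        exact Prod.ext h.2 h.1))
  exact this

theorem pr_fin (hgen : S_gen) (hAlg : S_coAlg) (hrows : S_rows) (hBd : S_coBd) : S_fin := by
  intro b c hb hc D X hX f hf
  rw [hgen b c hb hc X hX] at hf
  have hClo : (Chart.lo (0, 1)).Valid := by show Nat.Coprime 0 1; simp
  have hChi : (Chart.hi (1, 0)).Valid := by show Nat.Coprime 1 0; simp
  -- the correction function of `X 0` and `X 3`
  let δ : ℤ × ℤ → R := fun m => if m = (0, -1) then 1 else 0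
  have hδ : {m | δ m ≠ 0}.Finite := by
    refine Set.Finite.subset (Set.finite_singleton ((0, -1) : ℤ × ℤ)) ?_
    intro m hm
    by_contra h
    exact hm (if_neg h)
  have hδN : ∃ N : ℤ, ∀ m, δ m ≠ 0 → N ≤ m.1 := by
    refine ⟨0, fun m hm => ?_⟩
    have : m = (0, -1) := by
      by_contra h
      exact hm (if_neg h)
    rw [this]
  have h0 : {m : ℤ × ℤ | (0 : R) ≠ 0}.Finite := by simp
  have h0N : ∃ N : ℤ, ∀ m : ℤ × ℤ, (0 : R) ≠ 0 → N ≤ m.1 := ⟨0, fun m hm => absurd rfl hm⟩
  have hrow0 : ∀ (β : ℕ) (g : ℤ × ℤ → R), 0 < β →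
      (∀ x y : ℤ, g (x, y) = (if (x, y) = ((0, -1) : ℤ × ℤ) then 1 else 0) +
        (if (x, y) = ((β, -1) : ℤ × ℤ) then 1 else 0)) →
      ∀ (n : ℕ) (x : ℤ), 0 < n →
        g (x, -n) = ∑ j ∈ Finset.range (n + 1), qb β n j * δ (x - β * j, -n) := by
    intro β g hβ hg n x hn
    rw [hg]
    by_cases hn1 : n = 1
    · subst hn1
      rw [Finset.sum_range_succ, Finset.sum_range_succ, Finset.sum_range_zero, zero_add,
        qb_zero_right, qb_self, one_mul, one_mul]
      simp only [δ, Nat.cast_zero, mul_zero, sub_zero, Nat.cast_one, mul_one]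
      congr 1
      by_cases h : x = β
      · subst h; simp
      · rw [if_neg, if_neg]
        · intro h'
          rw [Prod.mk.injEq] at h'
          omega
        · intro h'
          rw [Prod.mk.injEq] at h'
          exact h h'.1
    · rw [if_neg, if_neg, add_zero, Finset.sum_eq_zero]
      · intro j _
        simp only [δ]
        rw [if_neg, mul_zero]
        intro h'
        rw [Prod.mk.injEq] at h'
        omega
      · intro h'
        rw [Prod.mk.injEq] at h'
        omega
      · intro h'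
        rw [Prod.mk.injEq] at h'
        omega
  have hz : ∀ (β n : ℕ) (x : ℤ), (0 : R) = ∑ j ∈ Finset.range (n + 1), qb β n j *
      (fun _ : ℤ × ℤ => (0 : R)) (x - β * j, -n) := by
    intro β n x
    simp
  constructor
  · refine fin_of_gens hAlg hb hc D _ hClo _ ?_ f hf
    intro x hx
    simp only [Set.mem_insert_iff, Set.mem_singleton_iff] at hx
    rcases hx with rfl | rfl | rfl | rfl
    · refine fin_lo hBd hrows hb hc D _ δ hδ hδN ?_
      refine hrow0 b (fun m => X 0 m) hb ?_
      intro x y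
      rw [X_zero hX, QTorus.add_apply, QTorus.mon_apply, QTorus.mon_apply]
      simp only [eq_comm]
    · refine fin_lo hBd hrows hb hc D _ (fun _ => 0) h0 h0N ?_
      intro n x hn
      rw [← hz b n x, hX.one, X1, QTorus.mon_apply, if_neg]
      intro h; rw [Prod.mk.injEq] at h; omega
    · refine fin_lo hBd hrows hb hc D _ (fun _ => 0) h0 h0N ?_
      intro n x hn
      rw [← hz b n x, hX.two, X2, QTorus.mon_apply, if_neg]
      intro h; rw [Prod.mk.injEq] at h; omega
    · refine fin_lo hBd hrows hb hc D _ (fun _ => 0) h0 h0N ?_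
      intro n x hn
      rw [← hz b n x, X_three hX, QTorus.add_apply, QTorus.mon_apply, QTorus.mon_apply, if_neg, if_neg,
        add_zero]
      · intro h; rw [Prod.mk.injEq] at h; omega
      · intro h; rw [Prod.mk.injEq] at h; omega
  · refine fin_of_gens hAlg hb hc D _ hChi _ ?_ f hf
    intro x hx
    simp only [Set.mem_insert_iff, Set.mem_singleton_iff] at hx
    rcases hx with rfl | rfl | rfl | rfl
    · refine fin_hi hBd hrows hb hc D _ (fun _ => 0) h0 h0N ?_
      intro n x hn
      rw [← hz c n x, X_zero hX, QTorus.add_apply, QTorus.mon_apply, QTorus.mon_apply, if_neg, if_neg,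
        add_zero]
      · intro h; rw [Prod.mk.injEq] at h; omega
      · intro h; rw [Prod.mk.injEq] at h; omega
    · refine fin_hi hBd hrows hb hc D _ (fun _ => 0) h0 h0N ?_
      intro n x hn
      rw [← hz c n x, hX.one, X1, QTorus.mon_apply, if_neg]
      intro h; rw [Prod.mk.injEq] at h; omega
    · refine fin_hi hBd hrows hb hc D _ (fun _ => 0) h0 h0N ?_
      intro n x hn
      rw [← hz c n x, hX.two, X2, QTorus.mon_apply, if_neg]
      intro h; rw [Prod.mk.injEq] at h; omega
    · refine fin_hi hBd hrows hb hc D _ δ hδ hδN ?_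
      refine hrow0 c (fun m => X 3 (m.2, m.1)) hc ?_
      intro x y
      rw [X_three hX, QTorus.add_apply, QTorus.mon_apply, QTorus.mon_apply]
      congr 1
      · by_cases h : x = 0 ∧ y = -1
        · rw [h.1, h.2]; simp
        · rw [if_neg, if_neg]
          · intro h'; rw [Prod.mk.injEq] at h'; exact h h'
          · intro h'; rw [Prod.mk.injEq] at h'; exact h ⟨h'.2.symm, h'.1.symm⟩
      · by_cases h : x = c ∧ y = -1
        · rw [h.1, h.2]; simp
        · rw [if_neg, if_neg]
          · intro h'; rw [Prod.mk.injEq] at h'; exact h h'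
          · intro h'; rw [Prod.mk.injEq] at h'; exact h ⟨h'.2.symm, h'.1.symm⟩

end Pool.Agent.Work.MP_c41774_al.Wall

end
end

section

/-!
# Item finBeta: finiteness of the beta coefficients
-/

noncomputable section

namespace Pool.Agent.Work.MP_c41774_al.Wall

open Finset QTorus LaurentPolynomial

theorem pr_finBeta (hfin : S_fin) (hone : S_coOne) (hbd : S_coBd) : S_finBeta := by
  intro b c hb hc D X hX f hf
  obtain ⟨hA, hB⟩ := hfin b c hb hc D X hX f hf
  obtain ⟨N, hN⟩ := hbd b c hb hc D f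
  refine (((((supp f).finite_toSet).union hA).union hB).union
    (Set.finite_Icc ((N, N) : ℤ × ℤ) (0, 0))).subset ?_
  intro l hl
  rw [Set.mem_ofPred_eq] at hl
  by_cases h1 : 0 ≤ l.1 ∧ 0 ≤ l.2
  · left; left; left
    rw [ch, if_pos h1, hone] at hl
    exact mem_supp.mpr hl
  · by_cases h2 : 0 ≤ l.1
    · left; left; right
      rw [ch, if_neg h1, if_pos h2] at hl
      exact hl
    · by_cases h3 : 0 ≤ l.2
      · left; right
        rw [ch, if_neg h1, if_neg h2, if_pos h3] at hl
        exact hl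
      · right
        rw [ch, if_neg h1, if_neg h2, if_neg h3] at hl
        have hv : (Chart.lo (slp b c l)).Valid := by
          show Nat.Coprime _ _
          apply Nat.coprime_div_gcd_div_gcd
          apply Nat.gcd_pos_of_pos_left
          exact Nat.mul_pos hc (Int.natAbs_pos.mpr (by omega))
        have h4 := hN _ hv l hl
        exact ⟨⟨h4.1, h4.2⟩, ⟨by show l.1 ≤ 0; omega, by show l.2 ≤ 0; omega⟩⟩

end Pool.Agent.Work.MP_c41774_al.Wall

end
end

section

/-!
# The cluster algebra is generated by four consecutive cluster variables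
-/

noncomputable section

namespace Pool.Agent.Work.MP_c41774_al.Wall

open Finset QTorus LaurentPolynomial

theorem gen_poly_mem {t : ℤ} {β γ : ℕ} {x0 x1 x2 x3 : QTorus} (h : Quad t β γ x0 x1 x2 x3)
    (hγ : 0 < γ) (A : Subalgebra R QTorus) (hA : x2 ∈ A) (k : ℕ) :
    ∃ w : QTorus, w ∈ A ∧ x3 ^ k * x1 ^ k = 1 + w * x2 := by
  induction k with
  | zero => exact ⟨0, A.zero_mem, by simp⟩
  | succ k ih =>
    obtain ⟨w, hw, hk⟩ := ih
    obtain ⟨γ', rfl⟩ : ∃ j, γ = j + 1 := ⟨γ - 1, by omega⟩
    have e1 : x3 ^ (k + 1) * x1 ^ (k + 1) = x3 ^ k * x1 ^ k *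
        (1 + (T (t * ((γ' + 1 : ℕ) : ℤ) + 2 * t * ((γ' + 1 : ℕ) : ℤ) * k) : R) •
          x2 ^ (γ' + 1)) := by
      rw [pow_succ, pow_succ', mul_assoc, ← mul_assoc x3 x1, h.r2, add_mul, one_mul, mul_add,
        smul_mul_assoc, qcomm_pow_pow h.c12, smul_smul, ← T_add, mul_smul_comm, mul_add, mul_one,
        mul_smul_comm, ← mul_assoc (x3 ^ k) (x1 ^ k), mul_assoc (2 * t), add_comm]
    rw [e1, hk]
    set s : R := T (t * ((γ' + 1 : ℕ) : ℤ) + 2 * t * ((γ' + 1 : ℕ) : ℤ) * k) with hs
    refine ⟨w + s • x2 ^ γ' + w * x2 * s • x2 ^ γ', ?_, ?_⟩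
    · have h1 : s • x2 ^ γ' ∈ A := A.smul_mem (A.pow_mem hA γ') s
      exact A.add_mem (A.add_mem hw h1) (A.mul_mem (A.mul_mem hw hA) h1)
    · rw [mul_add, mul_one, add_mul, one_mul, pow_succ, ← smul_mul_assoc, add_mul, add_mul,
        ← mul_assoc (w * x2)]
      abel

theorem gen_step {t : ℤ} {β γ : ℕ} {x0 x1 x2 x3 x4 : QTorus} (h : Quad t β γ x0 x1 x2 x3)
    (ht : t ≠ 0) (hβ : 0 < β) (hγ : 0 < γ) (n3 : x3 ≠ 0) (A : Subalgebra R QTorus)
    (h0 : x0 ∈ A) (h2 : x2 ∈ A) (h3 : x3 ∈ A)
    (hr : x4 * x2 = (T (t * β) : R) • x3 ^ β + 1 ∨ x2 * x4 = (T (-(t * β)) : R) • x3 ^ β + 1) :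
    Quad t γ β x1 x2 x3 x4 ∧ x4 ≠ 0 ∧ x4 ∈ A := by
  obtain ⟨y, hy, hy0⟩ := h.step ht hβ hγ n3
  have hyx : y = x4 := by
    rcases hr with hr | hr
    · exact mul_right_cancel₀ h.n2 (hy.r2.trans hr.symm)
    · exact mul_left_cancel₀ h.n2 (hy.r2'.trans hr.symm)
  subst hyx
  refine ⟨hy, hy0, ?_⟩
  obtain ⟨w, hw, hk⟩ := gen_poly_mem h hγ A h2 β
  have hwx : w * x2 = x3 ^ β * x1 ^ β - 1 := by rw [hk]; abel
  have r3 : ((T (t * β) : R) • (x3 ^ β * x0) - w) * x2 = (T (t * β) : R) • x3 ^ β + 1 := by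
    rw [sub_mul, hwx, smul_mul_assoc, mul_assoc, h.r1', mul_add, mul_one, mul_smul_comm,
      smul_add, smul_smul, ← T_add, add_neg_cancel, T_zero, one_smul]
    abel
  have e : y = (T (t * β) : R) • (x3 ^ β * x0) - w :=
    mul_right_cancel₀ h.n2 (hy.r2.trans r3.symm)
  rw [e]
  exact A.sub_mem (A.smul_mem (A.mul_mem (A.pow_mem h3 β) h0) _) hw

theorem gen_seq {t : ℤ} {β γ : ℕ} (f : ℕ → QTorus) (h : Quad t β γ (f 0) (f 1) (f 2) (f 3))
    (ht : t ≠ 0) (hβ : 0 < β) (hγ : 0 < γ) (n3 : f 3 ≠ 0) (A : Subalgebra R QTorus)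
    (h0 : f 0 ∈ A) (h1 : f 1 ∈ A) (h2 : f 2 ∈ A) (h3 : f 3 ∈ A)
    (hr : ∀ n, Even n → f (n + 4) * f (n + 2) = (T (t * β) : R) • f (n + 3) ^ β + 1 ∨
      f (n + 2) * f (n + 4) = (T (-(t * β)) : R) • f (n + 3) ^ β + 1)
    (hr' : ∀ n, ¬ Even n → f (n + 4) * f (n + 2) = (T (t * γ) : R) • f (n + 3) ^ γ + 1 ∨
      f (n + 2) * f (n + 4) = (T (-(t * γ)) : R) • f (n + 3) ^ γ + 1) :
    ∀ n, f n ∈ A := by
  have key : ∀ n, Quad t (if Even n then β else γ) (if Even n then γ else β)
        (f n) (f (n + 1)) (f (n + 2)) (f (n + 3)) ∧ f (n + 3) ≠ 0 ∧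
        f n ∈ A ∧ f (n + 1) ∈ A ∧ f (n + 2) ∈ A ∧ f (n + 3) ∈ A := by
    intro n
    induction n with
    | zero => exact ⟨by simpa using h, n3, h0, h1, h2, h3⟩
    | succ n ih =>
      obtain ⟨hq, hn, m0, m1, m2, m3⟩ := ih
      by_cases hev : Even n
      · have hev' : ¬ Even (n + 1) := by rw [Nat.even_add_one]; simpa using hev
        rw [if_pos hev, if_pos hev] at hq
        rw [if_neg hev', if_neg hev']
        obtain ⟨q4, n4, m4⟩ := gen_step hq ht hβ hγ hn A m0 m2 m3 (hr n hev)
        exact ⟨q4, n4, m1, m2, m3, m4⟩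
      · have hev' : Even (n + 1) := by rw [Nat.even_add_one]; exact hev
        rw [if_neg hev, if_neg hev] at hq
        rw [if_pos hev', if_pos hev']
        obtain ⟨q4, n4, m4⟩ := gen_step hq ht hγ hβ hn A m0 m2 m3 (hr' n hev)
        exact ⟨q4, n4, m1, m2, m3, m4⟩
  exact fun n => (key n).2.2.1

theorem pr_gen : S_gen := by
  intro b c hb hc X hX
  set A : Subalgebra R QTorus := Algebra.adjoin R {X 0, X 1, X 2, X 3} with hA
  have m0 : X 0 ∈ A := Algebra.subset_adjoin (by simp)
  have m1 : X 1 ∈ A := Algebra.subset_adjoin (by simp)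
  have m2 : X 2 ∈ A := Algebra.subset_adjoin (by simp)
  have m3 : X 3 ∈ A := Algebra.subset_adjoin (by simp)
  have hq : Quad 1 b c (X 0) (X 1) (X 2) (X 3) := by
    have := initial_quad b c
    rw [← X_zero hX, ← X_three hX, ← hX.one, ← hX.two] at this
    exact this
  have n3 : X 3 ≠ 0 := by
    rw [X_three hX]
    intro h
    have := congrArg (fun f : QTorus => f (-1, 0)) h
    simp [mon_apply, hc.ne'] at this
  have n0 : X 0 ≠ 0 := by
    rw [X_zero hX]
    intro h
    have := congrArg (fun f : QTorus => f (0, -1)) h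
    simp [mon_apply, hb.ne'] at this
  have hup : ∀ n : ℕ, X n ∈ A := by
    refine gen_seq (t := 1) (β := b) (γ := c) (fun n : ℕ => X n) hq one_ne_zero hb hc n3 A
      m0 m1 m2 m3 ?_ ?_
    · intro n hn
      left
      have hodd : Odd ((n : ℤ) + 3) := by
        have h1 : Even (n : ℤ) := by exact_mod_cast hn
        exact h1.add_odd (by decide)
      have := hX.odd _ hodd
      have e1 : (n : ℤ) + 3 + 1 = ((n + 4 : ℕ) : ℤ) := by push_cast; ring
      have e2 : (n : ℤ) + 3 - 1 = ((n + 2 : ℕ) : ℤ) := by push_cast; ring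
      have e3 : (n : ℤ) + 3 = ((n + 3 : ℕ) : ℤ) := by push_cast; ring
      rw [e1, e2, e3] at this
      rw [one_mul]
      exact this
    · intro n hn
      left
      have heven : Even ((n : ℤ) + 3) := by
        have h1 : Odd (n : ℤ) := by exact_mod_cast Nat.not_even_iff_odd.mp hn
        exact h1.add_odd (by decide)
      have := hX.even _ heven
      have e1 : (n : ℤ) + 3 + 1 = ((n + 4 : ℕ) : ℤ) := by push_cast; ring
      have e2 : (n : ℤ) + 3 - 1 = ((n + 2 : ℕ) : ℤ) := by push_cast; ring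
      have e3 : (n : ℤ) + 3 = ((n + 3 : ℕ) : ℤ) := by push_cast; ring
      rw [e1, e2, e3] at this
      rw [one_mul]
      exact this
  have hdown : ∀ n : ℕ, X (3 - n) ∈ A := by
    refine gen_seq (t := -1) (β := c) (γ := b) (fun n : ℕ => X (3 - n)) ?_ (by norm_num) hc hb
      ?_ A ?_ ?_ ?_ ?_ ?_ ?_
    · have := hq.reverse
      simpa using this
    · simpa using n0
    · simpa using m3
    · simpa using m2
    · simpa using m1
    · simpa using m0
    · intro n hn
      right
      have heven : Even (-(n : ℤ)) := by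
        have h1 : Even (n : ℤ) := by exact_mod_cast hn
        exact h1.neg
      have := hX.even _ heven
      have e1 : -(n : ℤ) + 1 = 3 - ((n + 2 : ℕ) : ℤ) := by push_cast; ring
      have e2 : -(n : ℤ) - 1 = 3 - ((n + 4 : ℕ) : ℤ) := by push_cast; ring
      have e3 : -(n : ℤ) = 3 - ((n + 3 : ℕ) : ℤ) := by push_cast; ring
      rw [e1, e2, e3] at this
      rw [neg_mul, neg_neg, one_mul]
      exact this
    · intro n hn
      right
      have hodd : Odd (-(n : ℤ)) := by
        have h1 : Odd (n : ℤ) := by exact_mod_cast Nat.not_even_iff_odd.mp hn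
        exact h1.neg
      have := hX.odd _ hodd
      have e1 : -(n : ℤ) + 1 = 3 - ((n + 2 : ℕ) : ℤ) := by push_cast; ring
      have e2 : -(n : ℤ) - 1 = 3 - ((n + 4 : ℕ) : ℤ) := by push_cast; ring
      have e3 : -(n : ℤ) = 3 - ((n + 3 : ℕ) : ℤ) := by push_cast; ring
      rw [e1, e2, e3] at this
      rw [neg_mul, neg_neg, one_mul]
      exact this
  have hall : ∀ m : ℤ, X m ∈ A := by
    intro m
    rcases le_or_gt 0 m with h | h
    · have := hup m.toNat
      rwa [Int.toNat_of_nonneg h] at this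
    · have := hdown (3 - m).toNat
      rwa [Int.toNat_of_nonneg (by omega), sub_sub_cancel] at this
  apply le_antisymm
  · refine Algebra.adjoin_le ?_
    rintro _ ⟨m, rfl⟩
    exact hall m
  · refine Algebra.adjoin_le ?_
    rintro x hx
    simp only [Set.mem_insert_iff, Set.mem_singleton_iff] at hx
    rcases hx with rfl | rfl | rfl | rfl
    all_goals exact Algebra.subset_adjoin ⟨_, rfl⟩

end Pool.Agent.Work.MP_c41774_al.Wall

end
end

section

/-!
# Good families are greedy
-/

noncomputable section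

namespace Pool.Agent.Work.MP_c41774_al.Wall

open Finset QTorus LaurentPolynomial

theorem pr_goodGreedy (hgb : S_greedyOfBeta) (_hm : S_stdMem) (hco : S_stdCo)
    (hsg : S_stdGreedy) (hu : S_uniqBeta) : S_goodGreedy := by
  intro b c hb hc D X hX G hG
  have key : ∀ a : ℤ × ℤ, a.1 ≤ 0 ∨ a.2 ≤ 0 → G a = Estd b c a := by
    intro a ha
    refine hu b c hb hc D (G a) (Estd b c a) fun l => ?_
    rw [hG.beta a l, (hco b c hb hc D a).2.2.2 ha l]
  refine ⟨fun a => ?_, key⟩
  by_cases ha : a.1 ≤ 0 ∨ a.2 ≤ 0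
  · rw [key a ha]
    exact hsg b c hb hc a ha
  · push Not at ha
    refine hgb b c hb hc D a (G a) ha.1 ha.2 (hG.pointed a) fun l hl => ?_
    rw [hG.beta a l, if_neg hl]

end Pool.Agent.Work.MP_c41774_al.Wall

end
end

section

/-!
# Item goodPos: positivity in all charts
-/

noncomputable section

namespace Pool.Agent.Work.MP_c41774_al.Wall

open Finset QTorus LaurentPolynomial

theorem goodPos_ch {b c : ℕ} (hc : 0 < c) (l : ℤ × ℤ) : (ch b c l).Valid := by
  unfold ch
  split_ifs with h1 h2 h3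
  · trivial
  · show Nat.Coprime 0 1
    decide
  · show Nat.Coprime 1 0
    decide
  · show Nat.Coprime (slp b c l).1 (slp b c l).2
    unfold slp
    refine Nat.coprime_div_gcd_div_gcd (Nat.gcd_pos_of_pos_left _ ?_)
    exact Nat.mul_pos hc (Int.natAbs_pos.2 (by omega))

theorem pr_goodPos (h1 : S_prop) (h2 : S_chartSys) (h3 : S_intT) : S_goodPos := by
  intro b c hb hc D f hf C hC l
  obtain ⟨N, hN⟩ := CT.exists_bd (emb f)
  have hsys := h2 b c hb hc D (emb f) N hN
  have key : ∀ l, SN (D.T (ch b c l) (emb f) l) := fun l => by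
    rw [← h3 b c hb hc D _ (goodPos_ch hc l) f l]
    exact SN_iota.2 (hf l)
  have hfin := h1 b c hb hc D N _ hsys key C hC l
  rw [← SN_iota, h3 b c hb hc D C hC f l]
  exact hfin

end Pool.Agent.Work.MP_c41774_al.Wall

end
end

section

/-!
# Dual elements are greedy in the positive quadrant
-/

noncomputable section

namespace Pool.Agent.Work.MP_c41774_al.Wall

open Finset QTorus LaurentPolynomial

theorem GOB.ch_valid {b c : ℕ} (hc : 0 < c) (l : ℤ × ℤ) : (ch b c l).Valid := by
  unfold ch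
  split_ifs with h1 h2 h3
  · trivial
  · show Nat.Coprime 0 1
    simp
  · show Nat.Coprime 1 0
    simp
  · show Nat.Coprime (slp b c l).1 (slp b c l).2
    have h : l.1.natAbs ≠ 0 := by omega
    refine Nat.coprime_div_gcd_div_gcd (Nat.gcd_pos_of_pos_left _ ?_)
    exact Nat.mul_pos hc (Nat.pos_of_ne_zero h)

theorem pr_greedyOfBeta (hLo : S_vanLo) (hHi : S_vanHi) (hcs : S_chartSys) (hint : S_intT)
    (hH : S_H) (hone : S_coOne) (hgr : S_isGreedy) : S_greedyOfBeta := by
  intro b c hb hc D a f ha1 ha2 hf hbeta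
  obtain ⟨N, hN⟩ := CT.exists_bd (emb f)
  have hτ := hcs b c hb hc D (emb f) N hN
  have hz : ∀ C : Chart, C.Valid → ∀ l, D.T C (emb f) l = 0 → D.co C f l = 0 := by
    intro C hC l h
    apply iota_injective
    rw [hint b c hb hc D C hC f l, h, map_zero]
  have hv : ∀ l, l ≠ -a → D.T (ch b c l) (emb f) l = 0 := by
    intro l hl
    rw [← hint b c hb hc D _ (GOB.ch_valid hc l) f l, hbeta l hl, map_zero]
  have hbz : (0 : ℤ) < b := by exact_mod_cast hb
  have hcz : (0 : ℤ) < c := by exact_mod_cast hc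
  have hsupp : ∀ m, f m ≠ 0 → ∃ κ : ℕ × ℕ, m = kk b c κ - a := by
    intro m hm
    obtain ⟨κ, hκ⟩ := hf.1 m hm
    exact ⟨κ, by rw [hκ, kk_sub]⟩
  have hne : ∀ κ : ℕ × ℕ, κ ≠ 0 → kk b c κ - a ≠ -a := by
    intro κ hκ h
    apply hκ
    apply kk_injective hbz hcz
    rw [kk_zero]
    have : kk (b : ℤ) c κ = (kk b c κ - a) + a := by abel
    rw [this, h]; abel
  have hLF : ∀ κ : ℕ × ℕ, LF (kk b c κ - a) a = LL b c κ a := by
    intro κ
    simp only [LF, LL, Prod.fst_sub, Prod.snd_sub, kk_fst, kk_snd]; ring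
  have hpos : ∀ l : ℤ × ℤ, l ≠ -a → 0 ≤ l.1 → 0 ≤ l.2 → f l = 0 := by
    intro l hl h1 h2
    have := hbeta l hl
    rw [ch, if_pos ⟨h1, h2⟩, hone b c D f l] at this
    exact this
  refine hgr b c a f hf ?_ ?_
  · intro κ hκ hL
    have hl := hne κ hκ
    by_cases h2 : (kk (b : ℤ) c κ - a).2 < 0
    · have h3 : (c : ℤ) * κ.2 ≤ a.2 := by
        rw [Prod.snd_sub, kk_snd] at h2; omega
      rw [← (hH b c hb hc D a f hsupp κ).1 h3]
      refine hz _ (by show Nat.Coprime 0 1; simp) _ ?_
      refine (hLo b c hb hc D N _ hτ a ha1 ha2 hv _ hl (Or.inr h2) (by rw [hLF]; exact hL)).1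
        (0, 1) (by simp) ?_
      intro h
      simp [Slt] at h
    · push Not at h2
      have h3 : a.2 - (c : ℤ) * κ.2 ≤ 0 := by
        rw [Prod.snd_sub, kk_snd] at h2; omega
      rw [H, ht, Int.toNat_of_nonpos h3, Pinv_zero, mul_one, coeff_row]
      show coef b c a f κ = 0
      rw [coef_def]
      by_cases h1 : 0 ≤ (kk (b : ℤ) c κ - a).1
      · exact hpos _ hl h1 h2
      · exfalso
        push Not at h1
        rw [← hLF, LF] at hL
        have e1 := mul_neg_of_neg_of_pos h1 ha2
        have e2 := mul_nonneg h2 ha1.le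
        omega
  · intro κ hκ hL
    have hl := hne κ hκ
    by_cases h1 : (kk (b : ℤ) c κ - a).1 < 0
    · have h3 : (b : ℤ) * κ.1 ≤ a.1 := by
        rw [Prod.fst_sub, kk_fst] at h1; omega
      rw [← (hH b c hb hc D a f hsupp κ).2 h3]
      refine hz _ (by show Nat.Coprime 1 0; simp) _ ?_
      refine (hHi b c hb hc D N _ hτ a ha1 ha2 hv _ hl (Or.inl h1) (by rw [hLF]; exact hL)).1
        (1, 0) (by simp) ?_
      intro h
      simp [Slt] at h
    · push Not at h1
      have h3 : a.1 - (b : ℤ) * κ.1 ≤ 0 := by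
        rw [Prod.fst_sub, kk_fst] at h1; omega
      rw [Ht, H, ht, Prod.snd_swap, Prod.snd_swap, Int.toNat_of_nonpos h3, Pinv_zero, mul_one,
        coeff_row, fl_apply]
      show coef b c a f κ = 0
      rw [coef_def]
      by_cases h2 : 0 ≤ (kk (b : ℤ) c κ - a).2
      · exact hpos _ hl h1 h2
      · exfalso
        push Not at h2
        rw [← hLF, LF] at hL
        have e1 := mul_nonneg h1 ha2.le
        have e2 := mul_neg_of_neg_of_pos h2 ha1
        omega

end Pool.Agent.Work.MP_c41774_al.Wall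

end
end

section

/-!
# Item greedyUniq: uniqueness and bar-invariance of the greedy elements
-/

noncomputable section

namespace Pool.Agent.Work.MP_c41774_al.Wall

open Finset QTorus LaurentPolynomial

theorem greedyUniq_coef {b c : ℕ} {a : ℤ × ℤ} {f g : QTorus} (hf : IsGreedy b c a f)
    (hg : IsGreedy b c a g) : ∀ n p q : ℕ, p + q = n → coef b c a f (p, q) = coef b c a g (p, q) := by
  intro n
  induction n using Nat.strong_induction_on with
  | _ n ih =>
    intro p q hpq
    by_cases h0 : (p, q) = (0, 0)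
    · rw [h0]
      exact hf.1.2.trans hg.1.2.symm
    · rcases le_total ((c : ℤ) * a.1 * q) (b * a.2 * p) with h | h
      · rw [(hf.2 p q h0).1 h, (hg.2 p q h0).1 h]
        refine Finset.sum_congr rfl fun k hk => ?_
        rw [Finset.mem_Icc] at hk
        rw [ih (p - k + q) (by omega) (p - k) q rfl]
      · rw [(hf.2 p q h0).2 h, (hg.2 p q h0).2 h]
        refine Finset.sum_congr rfl fun k hk => ?_
        rw [Finset.mem_Icc] at hk
        rw [ih (p + (q - k)) (by omega) p (q - k) rfl]

theorem greedyUniq_eq {b c : ℕ} {a : ℤ × ℤ} {f g : QTorus} (hf : IsGreedy b c a f)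
    (hg : IsGreedy b c a g) : f = g := by
  refine QTorus.ext fun m => ?_
  by_cases hm : ∃ κ : ℕ × ℕ, m = ((b : ℤ) * κ.1 - a.1, (c : ℤ) * κ.2 - a.2)
  · obtain ⟨κ, rfl⟩ := hm
    exact greedyUniq_coef hf hg (κ.1 + κ.2) κ.1 κ.2 rfl
  · have h1 : f m = 0 := by
      by_contra h
      exact hm (hf.1.1 m h)
    have h2 : g m = 0 := by
      by_contra h
      exact hm (hg.1.1 m h)
    rw [h1, h2]

theorem greedyUniq_coef_bar (b c : ℕ) (a : ℤ × ℤ) (f : QTorus) (κ : ℕ × ℕ) :
    coef b c a (QTorus.bar f) κ = invert (coef b c a f κ) := by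
  unfold coef
  rw [QTorus.bar_apply]

theorem greedyUniq_bar {b c : ℕ} {a : ℤ × ℤ} {f : QTorus} (hf : IsGreedy b c a f) :
    IsGreedy b c a (QTorus.bar f) := by
  refine ⟨⟨fun m hm => hf.1.1 m fun h => hm ?_, ?_⟩, fun p q h0 => ⟨fun h => ?_, fun h => ?_⟩⟩
  · rw [QTorus.bar_apply, h, map_zero]
  · rw [greedyUniq_coef_bar, hf.1.2, map_one]
  · rw [greedyUniq_coef_bar, (hf.2 p q h0).1 h, map_sum]
    refine Finset.sum_congr rfl fun k _ => ?_
    rw [map_mul, map_mul, greedyUniq_coef_bar, invert_qb, map_pow, map_neg, map_one]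
  · rw [greedyUniq_coef_bar, (hf.2 p q h0).2 h, map_sum]
    refine Finset.sum_congr rfl fun k _ => ?_
    rw [map_mul, map_mul, greedyUniq_coef_bar, invert_qb, map_pow, map_neg, map_one]

theorem pr_greedyUniq : S_greedyUniq := by
  intro b c _ _ a f g hf
  exact ⟨fun hg => greedyUniq_eq hf hg, greedyUniq_eq (greedyUniq_bar hf) hf⟩

end Pool.Agent.Work.MP_c41774_al.Wall

end
end

section

/-!
# Integrality of all charts
-/

noncomputable section

namespace Pool.Agent.Work.MP_c41774_al.Wall

open Finset QTorus LaurentPolynomial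

namespace IntT

/-- being in the range of `iota` -/
def Rg (s : S) : Prop := ∃ r : R, iota r = s

theorem Rg.mul {s t : S} (hs : Rg s) (ht : Rg t) : Rg (s * t) := by
  obtain ⟨r, hr⟩ := hs
  obtain ⟨r', hr'⟩ := ht
  exact ⟨r * r', by rw [map_mul, hr, hr']⟩

theorem Rg.sum {ι : Type*} {s : Finset ι} {f : ι → S} (h : ∀ i ∈ s, Rg (f i)) :
    Rg (∑ i ∈ s, f i) := by
  classical
  induction s using Finset.induction_on with
  | empty => exact ⟨0, by simp⟩
  | insert a s ha ih =>
    rw [Finset.sum_insert ha]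
    obtain ⟨r, hr⟩ := h a (by simp)
    obtain ⟨r', hr'⟩ := ih fun i hi => h i (by simp [hi])
    exact ⟨r + r', by rw [map_add, hr, hr']⟩

theorem Rg.xs {N : ℤ} {F : PowerSeries S} {k : ℤ × ℤ} {y : ℤ × ℤ → S} {l : ℤ × ℤ}
    (hF : ∀ j, Rg (PowerSeries.coeff j F)) (h0 : Rg (y l))
    (hj : ∀ j : ℕ, 1 ≤ j → Rg (y (l - j • k))) : Rg (xs N F k y l) := by
  unfold Wall.xs
  refine Rg.sum fun j _ => (hF j).mul ?_
  rcases Nat.eq_zero_or_pos j with rfl | hj'
  · simpa using h0
  · exact hj j hj'

end IntT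

open IntT

theorem pr_intT (h1 : S_chartSys) (h2 : S_integ) (h3 : S_elem) (h4 : S_tUp) : S_intT := by
  intro b c hb hc D C hC f l
  refine Function.invFun_eq (f := iota) ?_
  obtain ⟨N, hN⟩ := CT.exists_bd (emb f)
  have hτ := h1 b c hb hc D (emb f) N hN
  have hF : ∀ κ : ℕ × ℕ, Nat.Coprime κ.1 κ.2 → ∀ l : ℤ × ℤ, ∀ j,
      Rg (PowerSeries.coeff j (D.F κ (Lam l (kk b c κ)))) ∧
        Rg (PowerSeries.coeff j (D.F κ (-Lam l (kk b c κ)))) := by
    intro κ hκ l j
    obtain ⟨t, ht⟩ := h3.2.2.1 b c κ l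
    constructor
    · rw [ht]; exact h2 b c hb hc D κ hκ t j
    · rw [ht, ← neg_mul]; exact h2 b c hb hc D κ hκ (-t) j
  have hone : ∀ l, Rg (D.T .one (emb f) l) := by
    intro l
    have : D.T .one (emb f) = emb f := by
      show ((1 : CTˣ) : CT) * emb f * (((1 : CTˣ)⁻¹ : CTˣ) : CT) = emb f
      simp
    rw [this]
    exact ⟨f l, rfl⟩
  have key : ∀ n : ℕ, ∀ l : ℤ × ℤ, l.1 + l.2 - 2 * N < n → ∀ C : Chart, C.Valid →
      Rg (D.T C (emb f) l) := by
    intro n
    induction n with
    | zero =>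
      intro l hl C hC
      have : D.T C (emb f) l = 0 := by
        by_contra hne
        have := hτ.bd C hC l hne
        push_cast at hl
        omega
      rw [this]
      exact ⟨0, map_zero _⟩
    | succ n ih =>
      intro l hl
      have hdec : ∀ κ : ℕ × ℕ, Nat.Coprime κ.1 κ.2 → ∀ C : Chart, C.Valid → ∀ j : ℕ, 1 ≤ j →
          Rg (D.T C (emb f) (l - j • kk b c κ)) := by
        intro κ hκ C hC j hj
        refine ih _ ?_ C hC
        have hk : (1 : ℤ) ≤ b * κ.1 + c * κ.2 := by
          have h0 : 0 < κ.1 ∨ 0 < κ.2 := by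
            by_contra hcon
            push Not at hcon
            have e1 : κ.1 = 0 := by omega
            have e2 : κ.2 = 0 := by omega
            rw [e1, e2] at hκ
            simp at hκ
          have hn : 1 ≤ b * κ.1 + c * κ.2 := by
            rcases h0 with h | h
            · have := Nat.mul_pos hb h; omega
            · have := Nat.mul_pos hc h; omega
          exact_mod_cast hn
        have e1 : (l - j • kk (b : ℤ) c κ).1 = l.1 - j * (b * κ.1) := by
          rw [Prod.fst_sub, Prod.smul_fst, kk_fst]; simp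
        have e2 : (l - j • kk (b : ℤ) c κ).2 = l.2 - j * (c * κ.2) := by
          rw [Prod.snd_sub, Prod.smul_snd, kk_snd]; simp
        rw [e1, e2]
        have hj' : (1 : ℤ) ≤ j := by exact_mod_cast hj
        push_cast at hl
        nlinarith
      have hup : ∀ κ : ℕ × ℕ, Nat.Coprime κ.1 κ.2 → Rg (D.T (.lo κ) (emb f) l) →
          Rg (D.T (.hi κ) (emb f) l) := by
        intro κ hκ h
        have := hτ.up κ hκ l
        rw [this]
        exact Rg.xs (fun j => (hF κ hκ l j).2) h (hdec κ hκ (.lo κ) hκ)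
      have c10 : Nat.Coprime ((1, 0) : ℕ × ℕ).1 ((1, 0) : ℕ × ℕ).2 := by simp
      have c01 : Nat.Coprime ((0, 1) : ℕ × ℕ).1 ((0, 1) : ℕ × ℕ).2 := by simp
      have hlo0 : Rg (D.T (.lo (0, 1)) (emb f) l) := by
        have := hτ.x_in l
        rw [this]
        exact Rg.xs (fun j => (hF (1, 0) c10 l j).1) (hone l) (fun j _ => hone _)
      have hlo : ∀ κ : ℕ × ℕ, Nat.Coprime κ.1 κ.2 → Rg (D.T (.lo κ) (emb f) l) := by
        intro κ hκ
        by_cases h : κ = (0, 1)
        · rw [h]; exact hlo0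
        · exact h4 b c D N _ hτ l Rg (0, 1) κ c01 hκ (h3.2.2.2.2.1 κ hκ h)
            (fun κ' hκ' _ _ h' => hup κ' hκ' h') (hup (0, 1) c01 hlo0)
      intro C hC
      cases C with
      | one => exact hone l
      | lo κ => exact hlo κ hC
      | hi κ => exact hup κ hC (hlo κ hC)
  exact key (l.1 + l.2 - 2 * N + 1).toNat l (by omega) C hC

end Pool.Agent.Work.MP_c41774_al.Wall

end
end

section

/-!
# From vanishing transforms to the greedy recursion
-/

noncomputable section

namespace Pool.Agent.Work.MP_c41774_al.Wall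

open Finset QTorus LaurentPolynomial

theorem pr_isGreedy : S_isGreedy := by
  intro b c a f hp hrow hcol
  refine ⟨hp, fun p q hpq => ⟨fun hL => ?_, fun hL => ?_⟩⟩
  · have h := hrow (p, q) hpq (by simp only [LL]; linarith)
    rw [H_eq, sub_eq_zero] at h
    exact h
  · have h := hcol (p, q) hpq (by simp only [LL]; linarith)
    rw [Ht, H_eq, sub_eq_zero] at h
    exact h

end Pool.Agent.Work.MP_c41774_al.Wall

end
end

section

/-!
# Item li: linear independence of pointed families
-/

noncomputable section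

namespace Pool.Agent.Work.MP_c41774_al.Wall

open Finset QTorus LaurentPolynomial

theorem pr_li : S_li := by
  classical
  intro b c hb hc G hG
  rw [linearIndependent_iff']
  intro s r hr a ha
  by_contra hne
  set D := s.filter fun d => r d ≠ 0 with hD
  have hDne : D.Nonempty := ⟨a, by rw [hD, Finset.mem_filter]; exact ⟨ha, hne⟩⟩
  obtain ⟨d₀, hd₀, hmax⟩ := Finset.exists_max_image D (fun d => d.1 + d.2) hDne
  simp only [hD, Finset.mem_filter] at hd₀ hmax
  have h1 : (∑ i ∈ s, r i • G i : QTorus) (-d₀) = r d₀ := by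
    rw [QTorus.sum_apply, Finset.sum_eq_single d₀]
    · rw [QTorus.smul_apply]
      have := (hG d₀).2
      rw [coef_def, kk_zero, zero_sub] at this
      rw [this, mul_one]
    · intro d' hd' hne'
      rw [QTorus.smul_apply]
      by_contra h
      have h2 := right_ne_zero_of_mul h
      have h3 := left_ne_zero_of_mul h
      obtain ⟨κ, hκ⟩ := (hG d').1 _ h2
      rw [kk_sub] at hκ
      have e1 : d' = d₀ + kk b c κ := by
        have : d' = kk b c κ - (-d₀) := by rw [hκ]; abel
        rw [this]; abel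
      have h4 : κ ≠ 0 := by
        rintro rfl
        rw [kk_zero, add_zero] at e1
        exact hne' e1
      have h5 := hmax d' ⟨hd', h3⟩
      rw [e1] at h5
      simp only [Prod.fst_add, Prod.snd_add, kk_fst, kk_snd] at h5
      have p1 : 0 ≤ (b : ℤ) * κ.1 := by positivity
      have p2 : 0 ≤ (c : ℤ) * κ.2 := by positivity
      have p3 : (b : ℤ) * κ.1 = 0 := by omega
      have p4 : (c : ℤ) * κ.2 = 0 := by omega
      apply h4
      have q1 : (κ.1 : ℤ) = 0 := by
        rcases mul_eq_zero.mp p3 with h | h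
        · omega
        · exact h
      have q2 : (κ.2 : ℤ) = 0 := by
        rcases mul_eq_zero.mp p4 with h | h
        · omega
        · exact h
      exact Prod.ext (by exact_mod_cast q1) (by exact_mod_cast q2)
    · intro h
      exact absurd hd₀.1 h
  rw [hr, QTorus.zero_apply] at h1
  exact hd₀.2 h1.symm

end Pool.Agent.Work.MP_c41774_al.Wall

end
end

section

/-!
# Item monomials: cluster monomials belong to the good family
-/

noncomputable section

namespace Pool.Agent.Work.MP_c41774_al.Wall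

open Finset QTorus LaurentPolynomial

/-- the cluster monomials -/
def mono_y (X : ℤ → QTorus) (m : ℤ) (i j : ℕ) : QTorus :=
  (T ((i : ℤ) * j) : R) • (X m ^ i * X (m + 1) ^ j)

/-- the cluster monomials as elements of the cluster algebra -/
def mono_z (X : ℤ → QTorus) (m : ℤ) (i j : ℕ) : clusterAlgebra X :=
  (T ((i : ℤ) * j) : R) • ((⟨X m, Algebra.subset_adjoin ⟨m, rfl⟩⟩ : clusterAlgebra X) ^ i *
    (⟨X (m + 1), Algebra.subset_adjoin ⟨m + 1, rfl⟩⟩ : clusterAlgebra X) ^ j)

theorem mono_z_val (X : ℤ → QTorus) (m : ℤ) (i j : ℕ) :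
    ((mono_z X m i j : clusterAlgebra X) : QTorus) = mono_y X m i j := rfl

theorem mono_psi {X X' : ℤ → QTorus} (ψ : clusterAlgebra X →ₐ[R] clusterAlgebra X')
    (hψ : ∀ (m : ℤ) (x : clusterAlgebra X), (x : QTorus) = X m → (ψ x : QTorus) = X' (m - 1))
    (m : ℤ) (i j : ℕ) : (ψ (mono_z X (m + 1) i j) : QTorus) = mono_y X' m i j := by
  have h1 := hψ (m + 1) (⟨X (m + 1), Algebra.subset_adjoin ⟨m + 1, rfl⟩⟩ : clusterAlgebra X) rfl
  have h2 := hψ (m + 1 + 1)
    (⟨X (m + 1 + 1), Algebra.subset_adjoin ⟨m + 1 + 1, rfl⟩⟩ : clusterAlgebra X) rfl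
  rw [add_sub_cancel_right] at h1 h2
  unfold mono_z mono_y
  rw [map_smul, map_mul, map_pow, map_pow]
  show (T ((i : ℤ) * j) : R) • ((ψ _ : QTorus) ^ i * (ψ _ : QTorus) ^ j) = _
  rw [h1, h2]

theorem mono_base (h3 : S_goodGreedy) {b c : ℕ} (hb : 0 < b) (hc : 0 < c) (D : WallData b c)
    {X : ℤ → QTorus} (hX : IsClusterSeq b c X) {G : ℤ × ℤ → QTorus} (hG : GoodFam D X G)
    (i j : ℕ) : mono_y X 1 i j ∈ Set.range G := by
  refine ⟨(-(i : ℤ), -(j : ℤ)), ?_⟩
  rw [(h3 b c hb hc D X hX G hG).2 _ (Or.inl (by simp))]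
  unfold Estd mono_y
  have e : (1 : ℤ) + 1 = 2 := by norm_num
  rw [e, hX.one, hX.two, ← mon_eq, if_pos (by simp)]
  have h0 : (-(j : ℤ)).toNat = 0 := by simp
  simp only [h0, zero_add, Finset.range_one, Finset.sum_singleton]
  have hq : qb b 0 0 = 1 := by simp [qb]
  rw [hq]
  refine mon_congr ?_ ?_ rfl
  · simp
  · simp

theorem pr_monomials (h1 : S_shift) (h2 : S_exists) (h3 : S_goodGreedy) : S_monomials := by
  have key : ∀ m : ℤ, ∀ (b c : ℕ), 0 < b → 0 < c → ∀ (D : WallData b c) (_ : WallData c b)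
      (X : ℤ → QTorus), IsClusterSeq b c X → ∀ G, GoodFam D X G → ∀ (i j : ℕ),
      mono_y X m i j ∈ Set.range G := by
    have up : ∀ m : ℤ, (∀ (b c : ℕ), 0 < b → 0 < c → ∀ (D : WallData b c) (_ : WallData c b)
        (X : ℤ → QTorus), IsClusterSeq b c X → ∀ G, GoodFam D X G → ∀ (i j : ℕ),
        mono_y X m i j ∈ Set.range G) →
        (∀ (b c : ℕ), 0 < b → 0 < c → ∀ (D : WallData b c) (_ : WallData c b)
        (X : ℤ → QTorus), IsClusterSeq b c X → ∀ G, GoodFam D X G → ∀ (i j : ℕ),
        mono_y X (m + 1) i j ∈ Set.range G) := by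
      intro m ih b c hb hc D D' X hX G hG i j
      obtain ⟨X', hX', -⟩ := existsUnique_clusterSeq hc hb
      obtain ⟨G', hG'⟩ := h2 c b hc hb D' X' hX'
      obtain ⟨ψ, hinj, hψX, hψG⟩ := h1 b c hb hc D D' X X' hX hX' G G' hG hG'
      obtain ⟨d, hd⟩ := ih c b hc hb D' D X' hX' G' hG' i j
      set a : ℤ × ℤ := ((b : ℤ) * max d.1 0 - d.2, d.1) with ha
      have hsh : sh b a = d := by
        rw [ha]
        unfold sh
        refine Prod.ext ?_ ?_
        · rfl
        · show (b : ℤ) * max d.1 0 - ((b : ℤ) * max d.1 0 - d.2) = d.2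
          ring
      have e1 := hψG a ⟨G a, hG.mem a⟩ rfl
      rw [hsh, hd, ← mono_psi ψ hψX m i j] at e1
      have e2 := hinj (Subtype.ext e1)
      exact ⟨a, congrArg Subtype.val e2⟩
    have down : ∀ m : ℤ, (∀ (b c : ℕ), 0 < b → 0 < c → ∀ (D : WallData b c) (_ : WallData c b)
        (X : ℤ → QTorus), IsClusterSeq b c X → ∀ G, GoodFam D X G → ∀ (i j : ℕ),
        mono_y X (m + 1) i j ∈ Set.range G) →
        (∀ (b c : ℕ), 0 < b → 0 < c → ∀ (D : WallData b c) (_ : WallData c b)
        (X : ℤ → QTorus), IsClusterSeq b c X → ∀ G, GoodFam D X G → ∀ (i j : ℕ),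
        mono_y X m i j ∈ Set.range G) := by
      intro m ih b c hb hc D D' X hX G hG i j
      obtain ⟨X', hX', -⟩ := existsUnique_clusterSeq hc hb
      obtain ⟨G', hG'⟩ := h2 c b hc hb D' X' hX'
      obtain ⟨ψ, hinj, hψX, hψG⟩ := h1 c b hc hb D' D X' X hX' hX G' G hG' hG
      obtain ⟨d, hd⟩ := ih c b hc hb D' D X' hX' G' hG' i j
      have e1 := hψG d (mono_z X' (m + 1) i j) hd.symm
      rw [mono_psi ψ hψX m i j] at e1
      exact ⟨sh c d, e1.symm⟩
    have base : ∀ (b c : ℕ), 0 < b → 0 < c → ∀ (D : WallData b c) (_ : WallData c b)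
        (X : ℤ → QTorus), IsClusterSeq b c X → ∀ G, GoodFam D X G → ∀ (i j : ℕ),
        mono_y X 1 i j ∈ Set.range G :=
      fun b c hb hc D _ X hX G hG i j => mono_base h3 hb hc D hX hG i j
    have hup : ∀ n : ℕ, ∀ (b c : ℕ), 0 < b → 0 < c → ∀ (D : WallData b c) (_ : WallData c b)
        (X : ℤ → QTorus), IsClusterSeq b c X → ∀ G, GoodFam D X G → ∀ (i j : ℕ),
        mono_y X (1 + n) i j ∈ Set.range G := by
      intro n
      induction n with
      | zero => simpa using base
      | succ n ih =>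
        have h := up _ ih
        have e : (1 : ℤ) + (n + 1 : ℕ) = 1 + n + 1 := by push_cast; ring
        rw [e]
        exact h
    have hdown : ∀ n : ℕ, ∀ (b c : ℕ), 0 < b → 0 < c → ∀ (D : WallData b c) (_ : WallData c b)
        (X : ℤ → QTorus), IsClusterSeq b c X → ∀ G, GoodFam D X G → ∀ (i j : ℕ),
        mono_y X (1 - n) i j ∈ Set.range G := by
      intro n
      induction n with
      | zero => simpa using base
      | succ n ih =>
        have e : (1 : ℤ) - n = 1 - (n + 1 : ℕ) + 1 := by push_cast; ring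
        rw [e] at ih
        exact down _ ih
    intro m
    rcases le_total 1 m with h | h
    · have e : m = 1 + ((m - 1).toNat : ℕ) := by omega
      rw [e]
      exact hup _
    · have e : m = 1 - ((1 - m).toNat : ℕ) := by omega
      rw [e]
      exact hdown _
  intro b c hb hc D D' X hX G hG m i j
  exact key m b c hb hc D D' X hX G hG i j

end Pool.Agent.Work.MP_c41774_al.Wall

end
end

section

/-!
# Item mstd: standard monomials
-/

noncomputable section

namespace Pool.Agent.Work.MP_c41774_al.Wall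

open Finset QTorus LaurentPolynomial

theorem pr_mstd (h : S_stdMem) : S_mstd := by
  intro b c hb hc X hX a ha1 ha2
  obtain ⟨p1, m1⟩ := h b c hb hc X hX (a.1, 0) (Or.inr le_rfl)
  obtain ⟨p2, m2⟩ := h b c hb hc X hX (0, a.2) (Or.inl le_rfl)
  have ea : ((a.1, 0) : ℤ × ℤ) + (0, a.2) = a := by ext <;> simp
  refine ⟨⟨fun m hm => ?_, ?_⟩, Subalgebra.smul_mem _ (mul_mem m1 m2) _⟩
  · rw [Mstd, smul_apply] at hm
    obtain ⟨κ, hκ⟩ := mul_support p1 p2 (right_ne_zero_of_mul hm)
    rw [ea] at hκ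
    exact ⟨κ, hκ⟩
  · have e1 := coef_mul hb hc p1 p2 0
    rw [ea] at e1
    have e2 : coef b c a (Mstd b c a) 0 =
        T (a.1 * a.2) * coef b c a (Estd b c (a.1, 0) * Estd b c (0, a.2)) 0 := rfl
    have e3 : (((a.1, 0) : ℤ × ℤ) + (0, a.2)) = a := ea
    rw [e2, e1, conv]
    simp only [Prod.fst_zero, Prod.snd_zero, Finset.Nat.antidiagonal_zero, Finset.sum_singleton]
    have q1 : coef b c (a.1, 0) (Estd b c (a.1, 0)) (0, 0) = 1 := p1.2
    have q2 : coef b c (0, a.2) (Estd b c (0, a.2)) (0, 0) = 1 := p2.2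
    rw [q1, q2, mul_one, mul_one, ← T_add, ← T_zero]
    congr 1
    simp [tw]

end Pool.Agent.Work.MP_c41774_al.Wall

end
end

section

/-!
# Item mulPos: positivity of the structure constants
-/

noncomputable section

namespace Pool.Agent.Work.MP_c41774_al.Wall

open Finset QTorus LaurentPolynomial

theorem mulPos_valid {b c : ℕ} (hb : 0 < b) (_hc : 0 < c) (l : ℤ × ℤ) : (ch b c l).Valid := by
  unfold ch
  split_ifs with h1 h2 h3
  · exact trivial
  · exact Nat.coprime_zero_left 1 |>.mpr rfl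
  · exact Nat.coprime_zero_right 1 |>.mpr rfl
  · have hl2 : l.2 < 0 := not_le.mp h3
    refine Nat.coprime_div_gcd_div_gcd (Nat.gcd_pos_of_pos_right _ ?_)
    exact Nat.mul_pos hb (Int.natAbs_pos.mpr hl2.ne)

theorem mulPos_lead {b c : ℕ} (hb : 0 < b) (hc : 0 < c) {a u : ℤ × ℤ} {x y : QTorus}
    (hx : IsPointed b c a x) (hy : IsPointed b c u y) :
    (x * y) (-(a + u)) = T (Lam a u) := by
  have h := coef_mul hb hc hx hy 0
  rw [conv] at h
  have h1 : coef b c (a + u) (x * y) 0 = (x * y) (-(a + u)) := by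
    rw [coef_def]; simp
  rw [← h1, h]
  simp only [Prod.fst_zero, Prod.snd_zero, Finset.Nat.antidiagonal_zero, Finset.sum_singleton]
  have hx2 : coef b c a x (0, 0) = 1 := hx.2
  have hy2 : coef b c u y (0, 0) = 1 := hy.2
  rw [hx2, hy2, mul_one, mul_one]
  congr 1
  simp only [tw, Lam]
  ring

/-- **Positivity of the structure constants.** -/
theorem pr_mulPos (hspan : S_span) (hpos : S_goodPos) (halg : S_coAlg) : S_mulPos := by
  intro b c hb hc D X hX G hG a u
  have hmem : G a * G u ∈ clusterAlgebra X := mul_mem (hG.mem a) (hG.mem u)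
  obtain ⟨ρ, hρ, hf⟩ := hspan b c hb hc D X hX G hG _ hmem
  have hNN : ∀ (a : ℤ × ℤ) (C : Chart), C.Valid → ∀ l, NN (D.co C (G a) l) := by
    intro a
    refine hpos b c hb hc D (G a) fun l => ?_
    rw [hG.beta a l]
    split_ifs
    · exact NN_one
    · exact NN_zero
  refine ⟨ρ, fun d => ?_, ?_, hf⟩
  · rw [hρ d]
    have hv := mulPos_valid hb hc (-d)
    obtain ⟨-, -, -, -, -, hmul, -, -⟩ := halg b c hb hc D (ch b c (-d)) hv
    obtain ⟨s, hs⟩ := hmul (G a) (G u) (-d)
    rw [hs s (Finset.Subset.refl s)]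
    refine NN.sum fun i _ => ?_
    exact (NN_T _).mul ((hNN a _ hv i).mul (hNN u _ hv _))
  · rw [hρ]
    have hv := mulPos_valid hb hc (-(a + u))
    obtain ⟨-, -, -, -, -, -, -, hlead⟩ := halg b c hb hc D (ch b c (-(a + u))) hv
    rw [(hlead (a + u) (G a * G u) fun m hm => mul_support (hG.pointed a) (hG.pointed u) hm).2]
    exact mulPos_lead hb hc (hG.pointed a) (hG.pointed u)

end Pool.Agent.Work.MP_c41774_al.Wall

end
end

section

/-!
# Assembly of Part A
-/

noncomputable section

namespace Pool.Agent.Work.MP_c41774_al.Wall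

open Finset QTorus LaurentPolynomial

theorem pr_partA (hex : S_exists) (hgg : S_goodGreedy) (hli : S_li) (hspan : S_span)
    (hgu : S_greedyUniq) (hs2 : S_shiftTwo) (hs1 : S_shiftOne) (hmon : S_monomials)
    (hmul : S_mulPos) : S_partA := by
  intro b c hb hc ⟨D⟩ ⟨D'⟩ X hX
  obtain ⟨G, hG⟩ := hex b c hb hc D X hX
  have hgr := (hgg b c hb hc D X hX G hG).1
  refine ⟨G, hgr, ?_⟩
  refine
    { pointed := hG.pointed
      linearIndependent := hli b c hb hc G hG.pointed
      span := ?_
      bar := fun a => (hgu b c hb hc a (G a) (G a) (hgr a)).2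
      shift_two := hs2 b c hb hc D D' X hX G hG
      shift_one := ?_
      monomials := hmon b c hb hc D D' X hX G hG
      mul := ?_ }
  · refine le_antisymm ?_ ?_
    · rw [Submodule.span_le]
      rintro _ ⟨d, rfl⟩
      exact hG.mem d
    · intro f hf
      obtain ⟨ρ, -, hρ⟩ := hspan b c hb hc D X hX G hG f hf
      rw [hρ]
      exact Submodule.sum_mem _ fun d _ =>
        Submodule.smul_mem _ _ (Submodule.subset_span ⟨d, rfl⟩)
  · intro hbc
    subst hbc
    exact hs1 b hb D X hX G hG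
  · intro a a'
    obtain ⟨ρ, h1, -, h2⟩ := hmul b c hb hc D X hX G hG a a'
    exact ⟨ρ, h1, h2⟩

end Pool.Agent.Work.MP_c41774_al.Wall

end
end

section

/-!
# Propagation: positivity of all chart coefficients
-/

noncomputable section

namespace Pool.Agent.Work.MP_c41774_al.Wall

open Finset QTorus LaurentPolynomial

theorem prop_aux_gg {b c : ℕ} (hb : 0 < b) (hc : 0 < c) (κ : ℕ × ℕ) (hκ : Nat.Coprime κ.1 κ.2) :
    0 < gg b c κ := by
  unfold gg
  have : 0 < Nat.gcd (b * κ.1) (c * κ.2) := by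
    rw [Nat.pos_iff_ne_zero]
    intro h
    rw [Nat.gcd_eq_zero_iff] at h
    have h1 : κ.1 = 0 := by
      rcases Nat.mul_eq_zero.mp h.1 with h | h
      · omega
      · exact h
    have h2 : κ.2 = 0 := by
      rcases Nat.mul_eq_zero.mp h.2 with h | h
      · omega
      · exact h
    rw [h1, h2] at hκ
    exact absurd hκ (by decide)
  exact_mod_cast this

theorem pr_prop (hF : S_Fpos) (hE : S_elem) (hU : S_tUp) (hD : S_tDown) (hC : S_crs) :
    S_prop := by
  intro b c hb hc D N τ hτ hch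
  obtain ⟨e1, -, e3, e4, e5, e6, e7, -⟩ := hE
  have hbZ : (0 : ℤ) < b := by exact_mod_cast hb
  have hcZ : (0 : ℤ) < c := by exact_mod_cast hc
  -- positivity of the crossing series
  have Fp : ∀ κ : ℕ × ℕ, Nat.Coprime κ.1 κ.2 → ∀ (l : ℤ × ℤ), 0 ≤ Lam l (kk b c κ) →
      ∀ n, SN (PowerSeries.coeff n (D.F κ (Lam l (kk b c κ)))) := by
    intro κ hκ l hl n
    obtain ⟨t, ht⟩ := e3 b c κ l
    have hg := prop_aux_gg hb hc κ hκ
    have ht0 : 0 ≤ t := by
      by_contra h
      push Not at h
      nlinarith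
    have := hF b c D κ hκ t.toNat n
    rw [Int.toNat_of_nonneg ht0] at this
    rw [ht]
    exact this
  have Fn : ∀ κ : ℕ × ℕ, Nat.Coprime κ.1 κ.2 → ∀ (l : ℤ × ℤ), Lam l (kk b c κ) ≤ 0 →
      ∀ n, SN (PowerSeries.coeff n (D.F κ (-Lam l (kk b c κ)))) := by
    intro κ hκ l hl n
    obtain ⟨t, ht⟩ := e3 b c κ l
    have hg := prop_aux_gg hb hc κ hκ
    have ht0 : 0 ≤ -t := by
      by_contra h
      push Not at h
      nlinarith
    have := hF b c D κ hκ (-t).toNat n
    rw [Int.toNat_of_nonneg ht0] at this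
    rw [ht, ← neg_mul]
    exact this
  have F0 : ∀ κ : ℕ × ℕ, Nat.Coprime κ.1 κ.2 → ∀ lam : ℤ,
      PowerSeries.coeff 0 (D.F κ lam) = 1 := fun κ hκ lam => (hC (D.M κ) (D.const κ hκ)).1 lam
  have key : ∀ n : ℕ, ∀ l : ℤ × ℤ, l.1 + l.2 - 2 * N < n → ∀ C : Chart, C.Valid →
      SN (τ C l) := by
    intro n
    induction n with
    | zero =>
      intro l hl C hV
      have : τ C l = 0 := (hτ.bd C hV).eq_zero (by push_cast at hl; omega)
      rw [this]; exact SN_zero
    | succ n ih =>
      intro l hl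
      have ihk : ∀ κ : ℕ × ℕ, Nat.Coprime κ.1 κ.2 → ∀ j : ℕ, 1 ≤ j → ∀ C : Chart, C.Valid →
          SN (τ C (l - j • kk b c κ)) := by
        intro κ hκ j hj
        apply ih
        have h1 : (l - j • kk (b : ℤ) c κ).1 = l.1 - j * (b * κ.1) := by simp
        have h2 : (l - j • kk (b : ℤ) c κ).2 = l.2 - j * (c * κ.2) := by simp
        rw [h1, h2]
        have h3 : 1 ≤ κ.1 + κ.2 := by
          by_contra h
          have h4 : κ.1 = 0 := by omega
          have h5 : κ.2 = 0 := by omega
          rw [h4, h5] at hκ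
          exact absurd hκ (by decide)
        have h6 : (1 : ℤ) ≤ b * κ.1 + c * κ.2 := by
          have a1 : (κ.1 : ℤ) ≤ b * κ.1 := by
            have : (0 : ℤ) ≤ κ.1 := by positivity
            nlinarith
          have a2 : (κ.2 : ℤ) ≤ c * κ.2 := by
            have : (0 : ℤ) ≤ κ.2 := by positivity
            nlinarith
          have a3 : (1 : ℤ) ≤ κ.1 + κ.2 := by exact_mod_cast h3
          linarith
        have h7 : (1 : ℤ) ≤ j := by exact_mod_cast hj
        have h8 : (1 : ℤ) ≤ j * (b * κ.1 + c * κ.2) := by nlinarith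
        push_cast at hl
        nlinarith
      have step : ∀ κ : ℕ × ℕ, Nat.Coprime κ.1 κ.2 → ∀ (F : PowerSeries S) (C : Chart),
          C.Valid → (∀ n, SN (PowerSeries.coeff n F)) → PowerSeries.coeff 0 F = 1 →
          SN (τ C l) → SN (xs N F (kk b c κ) (τ C) l) := by
        intro κ hκ F C hV hFp hF0 hl0
        rw [e1 N F (kk b c κ) (τ C) l (hτ.bd C hV) hF0]
        refine hl0.add (SN.sum fun j hj => ?_)
        rw [Finset.mem_Ico] at hj
        exact (hFp j).mul (ihk κ hκ j hj.1 C hV)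
      have SU : ∀ κ : ℕ × ℕ, Nat.Coprime κ.1 κ.2 → Lam l (kk b c κ) ≤ 0 →
          SN (τ (.lo κ) l) → SN (τ (.hi κ) l) := by
        intro κ hκ hL h
        rw [hτ.up κ hκ l]
        exact step κ hκ _ (.lo κ) hκ (Fn κ hκ l hL) (F0 κ hκ _) h
      have SD : ∀ κ : ℕ × ℕ, Nat.Coprime κ.1 κ.2 → 0 ≤ Lam l (kk b c κ) →
          SN (τ (.hi κ) l) → SN (τ (.lo κ) l) := by
        intro κ hκ hL h
        rw [hτ.down κ hκ l]
        exact step κ hκ _ (.hi κ) hκ (Fp κ hκ l hL) (F0 κ hκ _) h
      have c10 : Nat.Coprime ((1, 0) : ℕ × ℕ).1 ((1, 0) : ℕ × ℕ).2 := by decide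
      have c01 : Nat.Coprime ((0, 1) : ℕ × ℕ).1 ((0, 1) : ℕ × ℕ).2 := by decide
      have L10 : Lam l (kk b c (1, 0)) = b * l.2 := by
        simp only [Lam, kk_fst, kk_snd]; push_cast; ring
      have L01 : Lam l (kk b c (0, 1)) = -(c * l.1) := by
        simp only [Lam, kk_fst, kk_snd]; push_cast; ring
      have Lk : ∀ κ : ℕ × ℕ, Lam l (kk b c κ) = b * l.2 * κ.1 - c * l.1 * κ.2 := by
        intro κ
        simp only [Lam, kk_fst, kk_snd]; ring
      have xin : 0 ≤ l.2 → SN (τ .one l) → SN (τ (.lo (0, 1)) l) := by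
        intro h2 h
        rw [hτ.x_in l]
        exact step (1, 0) c10 _ .one trivial
          (Fp (1, 0) c10 l (by rw [L10]; positivity)) (F0 _ c10 _) h
      have xout : l.2 ≤ 0 → SN (τ (.lo (0, 1)) l) → SN (τ .one l) := by
        intro h2 h
        rw [hτ.x_out l]
        exact step (1, 0) c10 _ (.lo (0, 1)) c01
          (Fn (1, 0) c10 l (by rw [L10]; nlinarith)) (F0 _ c10 _) h
      have yin : 0 ≤ l.1 → SN (τ .one l) → SN (τ (.hi (1, 0)) l) := by
        intro h2 h
        rw [hτ.y_in l]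
        exact step (0, 1) c01 _ .one trivial
          (Fn (0, 1) c01 l (by rw [L01]; nlinarith)) (F0 _ c01 _) h
      have yout : l.1 ≤ 0 → SN (τ (.hi (1, 0)) l) → SN (τ .one l) := by
        intro h2 h
        rw [hτ.y_out l]
        exact step (0, 1) c01 _ (.hi (1, 0)) c10
          (Fp (0, 1) c01 l (by rw [L01]; nlinarith)) (F0 _ c01 _) h
      have upTo : ∀ κ : ℕ × ℕ, Nat.Coprime κ.1 κ.2 →
          (∀ κ' : ℕ × ℕ, Nat.Coprime κ'.1 κ'.2 → ¬ Slt κ κ' → Lam l (kk b c κ') ≤ 0) →
          SN (τ (.lo (0, 1)) l) → SN (τ (.lo κ) l) ∧ SN (τ (.hi κ) l) := by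
        intro κ hκ hL h
        by_cases hk : κ = (0, 1)
        · subst hk
          exact ⟨h, SU (0, 1) c01 (hL (0, 1) c01 (by unfold Slt; omega)) h⟩
        · have h1 : Slt (0, 1) κ := e5 κ hκ hk
          have h2 : SN (τ (.hi (0, 1)) l) :=
            SU (0, 1) c01 (hL (0, 1) c01 (by unfold Slt at h1 ⊢; omega)) h
          have h3 : SN (τ (.lo κ) l) := by
            refine hU b c D N τ hτ l SN (0, 1) κ c01 hκ h1 ?_ h2
            intro κ' hκ' _ hlt
            exact SU κ' hκ' (hL κ' hκ' (by unfold Slt at hlt ⊢; omega))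
          exact ⟨h3, SU κ hκ (hL κ hκ (by unfold Slt; omega)) h3⟩
      have downTo : ∀ κ : ℕ × ℕ, Nat.Coprime κ.1 κ.2 →
          (∀ κ' : ℕ × ℕ, Nat.Coprime κ'.1 κ'.2 → ¬ Slt κ' κ → 0 ≤ Lam l (kk b c κ')) →
          SN (τ (.hi (1, 0)) l) → SN (τ (.lo κ) l) ∧ SN (τ (.hi κ) l) := by
        intro κ hκ hL h
        by_cases hk : κ = (1, 0)
        · subst hk
          exact ⟨SD (1, 0) c10 (hL (1, 0) c10 (by unfold Slt; omega)) h, h⟩
        · have h1 : Slt κ (1, 0) := e6 κ hκ hk
          have h2 : SN (τ (.lo (1, 0)) l) :=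
            SD (1, 0) c10 (hL (1, 0) c10 (by unfold Slt at h1 ⊢; omega)) h
          have h3 : SN (τ (.hi κ) l) := by
            refine hD b c D N τ hτ l SN κ (1, 0) hκ c10 h1 ?_ h2
            intro κ' hκ' hlt _
            exact SD κ' hκ' (hL κ' hκ' (by unfold Slt at hlt ⊢; omega))
          exact ⟨SD κ hκ (hL κ hκ (by unfold Slt; omega)) h3, h3⟩
      have hl0 := hch l
      have concl : SN (τ .one l) ∧ ∀ κ : ℕ × ℕ, Nat.Coprime κ.1 κ.2 →
          SN (τ (.lo κ) l) ∧ SN (τ (.hi κ) l) := by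
        by_cases h1 : 0 ≤ l.1
        · by_cases h2 : 0 ≤ l.2
          · -- first quadrant
            rw [ch, if_pos ⟨h1, h2⟩] at hl0
            refine ⟨hl0, fun κ hκ => ?_⟩
            rcases le_total (Lam l (kk b c κ)) 0 with hL | hL
            · refine upTo κ hκ (fun κ' hκ' hn => ?_) (xin h2 hl0)
              rw [Lk] at hL ⊢
              unfold Slt at hn
              push Not at hn
              have hn' : (κ'.1 : ℤ) * κ.2 ≤ κ.1 * κ'.2 := by exact_mod_cast hn
              rcases Nat.eq_zero_or_pos κ.2 with h0 | h0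
              · have hk1 : κ.1 = 1 := by
                  rw [h0] at hκ; simpa using hκ
                rw [h0, hk1] at hL
                push_cast at hL
                have hl2 : l.2 = 0 := by nlinarith
                rw [hl2]
                have : 0 ≤ (c : ℤ) * l.1 * κ'.2 := by positivity
                nlinarith
              · have h0' : (0 : ℤ) < κ.2 := by exact_mod_cast h0
                have p1 : (b : ℤ) * l.2 * (κ'.1 * κ.2) ≤ b * l.2 * (κ.1 * κ'.2) :=
                  mul_le_mul_of_nonneg_left hn' (by positivity)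
                have p2 : ((b : ℤ) * l.2 * κ.1) * κ'.2 ≤ (c * l.1 * κ.2) * κ'.2 :=
                  mul_le_mul_of_nonneg_right (by linarith) (by positivity)
                have p3 : ((b : ℤ) * l.2 * κ'.1 - c * l.1 * κ'.2) * κ.2 ≤ 0 := by nlinarith
                by_contra hcon
                push Not at hcon
                have := mul_pos hcon h0'
                linarith
            · refine downTo κ hκ (fun κ' hκ' hn => ?_) (yin h1 hl0)
              rw [Lk] at hL ⊢
              unfold Slt at hn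
              push Not at hn
              have hn' : (κ.1 : ℤ) * κ'.2 ≤ κ'.1 * κ.2 := by exact_mod_cast hn
              rcases Nat.eq_zero_or_pos κ.1 with h0 | h0
              · have hk1 : κ.2 = 1 := by
                  rw [h0] at hκ; simpa using hκ
                rw [h0, hk1] at hL
                push_cast at hL
                have hl1 : l.1 = 0 := by nlinarith
                rw [hl1]
                have : 0 ≤ (b : ℤ) * l.2 * κ'.1 := by positivity
                nlinarith
              · have h0' : (0 : ℤ) < κ.1 := by exact_mod_cast h0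
                have p1 : (c : ℤ) * l.1 * (κ.1 * κ'.2) ≤ c * l.1 * (κ'.1 * κ.2) :=
                  mul_le_mul_of_nonneg_left hn' (by positivity)
                have p2 : ((c : ℤ) * l.1 * κ.2) * κ'.1 ≤ (b * l.2 * κ.1) * κ'.1 :=
                  mul_le_mul_of_nonneg_right (by linarith) (by positivity)
                have p3 : 0 ≤ ((b : ℤ) * l.2 * κ'.1 - c * l.1 * κ'.2) * κ.1 := by nlinarith
                by_contra hcon
                push Not at hcon
                have := mul_neg_of_neg_of_pos hcon h0'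
                linarith
          · -- fourth quadrant
            rw [ch, if_neg (fun h => h2 h.2), if_pos h1] at hl0
            push Not at h2
            refine ⟨xout h2.le hl0, fun κ hκ => upTo κ hκ (fun κ' _ _ => ?_) hl0⟩
            rw [Lk]
            have p1 : (b : ℤ) * l.2 * κ'.1 ≤ 0 :=
              mul_nonpos_of_nonpos_of_nonneg (by nlinarith) (by positivity)
            have p2 : 0 ≤ (c : ℤ) * l.1 * κ'.2 := by positivity
            linarith
        · push Not at h1
          by_cases h2 : 0 ≤ l.2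
          · -- second quadrant
            rw [ch, if_neg (fun h => absurd h.1 (not_le.mpr h1)), if_neg (not_le.mpr h1),
              if_pos h2] at hl0
            refine ⟨yout h1.le hl0, fun κ hκ => downTo κ hκ (fun κ' _ _ => ?_) hl0⟩
            rw [Lk]
            have p1 : (c : ℤ) * l.1 * κ'.2 ≤ 0 :=
              mul_nonpos_of_nonpos_of_nonneg (by nlinarith) (by positivity)
            have p2 : 0 ≤ (b : ℤ) * l.2 * κ'.1 := by positivity
            linarith
          · -- third quadrant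
            push Not at h2
            rw [ch, if_neg (fun h => absurd h.1 (not_le.mpr h1)), if_neg (not_le.mpr h1),
              if_neg (not_le.mpr h2)] at hl0
            obtain ⟨s1, -, -, s4, s5, s6⟩ := e4 b c hb hc l h1 h2
            have all : ∀ κ : ℕ × ℕ, Nat.Coprime κ.1 κ.2 →
                SN (τ (.lo κ) l) ∧ SN (τ (.hi κ) l) := by
              intro κ hκ
              have hhi : SN (τ (.hi (slp b c l)) l) := SU _ s1 s4.le hl0
              rcases e7 κ (slp b c l) hκ s1 with h | h | h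
              · have h3 : SN (τ (.hi κ) l) := by
                  refine hD b c D N τ hτ l SN κ (slp b c l) hκ s1 h ?_ hl0
                  intro κ' hκ' _ hlt
                  exact SD κ' hκ' ((s5 κ').mp hlt).le
                exact ⟨SD κ hκ ((s5 κ).mp h).le h3, h3⟩
              · rw [h]; exact ⟨hl0, hhi⟩
              · have h3 : SN (τ (.lo κ) l) := by
                  refine hU b c D N τ hτ l SN (slp b c l) κ s1 hκ h ?_ hhi
                  intro κ' hκ' hlt _
                  exact SU κ' hκ' ((s6 κ').mp hlt).le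
                exact ⟨h3, SU κ hκ ((s6 κ).mp h).le h3⟩
            exact ⟨xout h2.le (all (0, 1) c01).1, all⟩
      intro C hV
      cases C with
      | one => exact concl.1
      | lo κ => exact (concl.2 κ hV).1
      | hi κ => exact (concl.2 κ hV).2
  intro C hV l
  exact key (l.1 + l.2 - 2 * N + 1).toNat l (by omega) C hV

end Pool.Agent.Work.MP_c41774_al.Wall

end
end
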