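import Pool.Agent.Work.MP_c41774_al.Bd.B14
import Pool.Agent.Work.MP_c41774_al.Bd.B01
import Pool.Agent.Work.MP_c41774_al.Bd.B13
import Pool.Agent.Work.MP_c41774_al.Bd.B15

/-! Bundle of small proof modules (one section per former module). -/

section

/-!
# The change of the initial cluster
-/

noncomputable section

namespace Pool.Agent.Work.MP_c41774_al.Wall

open Finset QTorus LaurentPolynomial

variable {b c : ℕ}

/-- the rotation `m ↦ (-m₂, m₁)` -/
def psi_rot (m : ℤ × ℤ) : ℤ × ℤ := (-m.2, m.1)

theorem psi_rot_inj : Function.Injective psi_rot := by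
  intro m n h
  have h1 := congrArg Prod.fst h
  have h2 := congrArg Prod.snd h
  simp only [psi_rot] at h1 h2
  exact Prod.ext h2 (neg_injective h1)

theorem psi_rot_Lam (m n : ℤ × ℤ) : Lam (psi_rot m) (psi_rot n) = Lam m n := by
  simp only [Lam, psi_rot]; ring

theorem psi_rot_sub (m n : ℤ × ℤ) : psi_rot (m - n) = psi_rot m - psi_rot n := by
  simp only [psi_rot, Prod.fst_sub, Prod.snd_sub, Prod.mk_sub_mk]
  exact Prod.ext (by simp only; ring) rfl

/-- The rotated expansion. -/
def psi_F (D : WallData b c) (x : QTorus) (hx : {l | D.co (.hi (1, 0)) x l ≠ 0}.Finite) :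
    QTorus :=
  Finsupp.ofSupportFinite (fun m : ℤ × ℤ => D.co (.hi (1, 0)) x (psi_rot m)) (by
    refine Set.Finite.subset (hx.preimage psi_rot_inj.injOn) fun m hm => ?_
    exact hm)

theorem psi_F_apply (D : WallData b c) (x : QTorus)
    (hx : {l | D.co (.hi (1, 0)) x l ≠ 0}.Finite) (m : ℤ × ℤ) :
    psi_F D x hx m = D.co (.hi (1, 0)) x (psi_rot m) := rfl

theorem psi_valid : Chart.Valid (.hi (1, 0)) := by
  show Nat.Coprime 1 0
  simp

theorem psi_F_mul (hb : 0 < b) (hc : 0 < c) (hA : S_coAlg) (D : WallData b c) (x y : QTorus)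
    (hx : {l | D.co (.hi (1, 0)) x l ≠ 0}.Finite)
    (hy : {l | D.co (.hi (1, 0)) y l ≠ 0}.Finite)
    (hxy : {l | D.co (.hi (1, 0)) (x * y) l ≠ 0}.Finite) :
    psi_F D (x * y) hxy = psi_F D x hx * psi_F D y hy := by
  classical
  ext1 m
  obtain ⟨-, -, -, -, -, h, -, -⟩ := hA b c hb hc D _ psi_valid
  obtain ⟨s, hs⟩ := h x y (psi_rot m)
  rw [QTorus.mul_apply, psi_F_apply,
    hs (s ∪ (supp (psi_F D x hx)).image psi_rot) subset_union_left]
  rw [← Finset.sum_subset (s₁ := (supp (psi_F D x hx)).image psi_rot) subset_union_right,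
    Finset.sum_image psi_rot_inj.injOn]
  · refine Finset.sum_congr rfl fun i _ => ?_
    rw [psi_rot_Lam, psi_F_apply, psi_F_apply, psi_rot_sub]
    congr 2
    simp only [Lam, Prod.fst_sub, Prod.snd_sub]; ring
  · intro i _ hi
    have : D.co (.hi (1, 0)) x i = 0 := by
      by_contra hne
      apply hi
      rw [Finset.mem_image]
      refine ⟨(i.2, -i.1), ?_, ?_⟩
      · rw [mem_supp, psi_F_apply]
        have : psi_rot (i.2, -i.1) = i := by simp [psi_rot]
        rw [this]
        exact hne
      · simp [psi_rot]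
    rw [this]; ring

theorem psi_X1 (hb : 0 < b) (hc : 0 < c) (hA : S_coAlg) (hR : S_rows) (D : WallData b c)
    (hx : {l | D.co (.hi (1, 0)) X1 l ≠ 0}.Finite) :
    psi_F D X1 hx = mon (0, -1) 1 + mon ((c : ℤ), -1) 1 := by
  ext1 m
  obtain ⟨-, -, -, -, -, -, -, h⟩ := hA b c hb hc D _ psi_valid
  have hX : ∀ m, (X1 : QTorus) m ≠ 0 → ∃ κ : ℕ × ℕ, m = kk b c κ - (-1, 0) := by
    intro m hm
    rw [X1, QTorus.mon_apply] at hm
    have : m = (1, 0) := by
      by_contra hne
      exact hm (if_neg (Ne.symm hne))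
    exact ⟨0, by rw [this, kk_zero]; simp⟩
  obtain ⟨h1, -⟩ := h (-1, 0) X1 hX
  rw [psi_F_apply, QTorus.add_apply, QTorus.mon_apply, QTorus.mon_apply]
  obtain ⟨p, q⟩ := m
  -- coefficient at l = (-q, p)
  have key : D.co (.hi (1, 0)) X1 (psi_rot (p, q)) =
      if q = -1 then (if p = 0 then 1 else if p = c then 1 else 0) else 0 := by
    by_cases hneg : -q < 0
    · rw [if_neg (by omega)]
      by_contra hne
      obtain ⟨κ, hκ⟩ := h1 _ hne
      have := congrArg Prod.fst hκ
      simp only [psi_rot, Prod.fst_sub, kk_fst] at this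
      have h3 : 0 ≤ (b : ℤ) * κ.1 := by positivity
      omega
    · obtain ⟨n, hn⟩ : ∃ n : ℕ, -q = n := ⟨(-q).toNat, by omega⟩
      have hr := (hR b c hb hc D X1 (psi_rot (p, q)) n).2.2.1 (by simpa [psi_rot] using hn)
      rw [hr]
      by_cases hq : q = -1
      · have hn1 : n = 1 := by omega
        subst hn1
        rw [if_pos hq, Finset.sum_range_succ, Finset.sum_range_one, qb_zero_right, qb_self]
        subst hq
        simp only [psi_rot, X1, QTorus.mon_apply, Prod.mk.injEq]
        by_cases hp : p = 0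
        · subst hp
          simp
          omega
        · by_cases hp2 : p = c
          · subst hp2
            simp
            omega
          · rw [if_neg hp, if_neg hp2]
            rw [if_neg, if_neg]
            · ring
            · rintro ⟨-, h⟩
              apply hp2
              push_cast at h
              linarith
            · rintro ⟨-, h⟩
              apply hp
              push_cast at h
              linarith
      · rw [if_neg hq]
        refine Finset.sum_eq_zero fun j _ => ?_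
        rw [X1, QTorus.mon_apply, if_neg, mul_zero]
        intro h
        have := congrArg Prod.fst h
        simp only [psi_rot] at this
        omega
  rw [key]
  simp only [Prod.mk.injEq]
  by_cases hq : q = -1
  · subst hq
    by_cases hp : p = 0
    · subst hp
      have : ¬ (c : ℤ) = 0 := by omega
      simp
      omega
    · by_cases hp2 : p = c
      · subst hp2
        simp
        omega
      · have h1 : ¬ (0 : ℤ) = p := fun h => hp h.symm
        have h2 : ¬ (c : ℤ) = p := fun h => hp2 h.symm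
        simp [hp, hp2, h1, h2]
  · have h1 : ¬ (-1 : ℤ) = q := fun h => hq h.symm
    simp [hq, h1]

theorem psi_X2 (hb : 0 < b) (hc : 0 < c) (hA : S_coAlg) (hR : S_rows) (D : WallData b c)
    (hx : {l | D.co (.hi (1, 0)) X2 l ≠ 0}.Finite) :
    psi_F D X2 hx = X1 := by
  ext1 m
  obtain ⟨-, -, -, -, -, -, -, h⟩ := hA b c hb hc D _ psi_valid
  have hX : ∀ m, (X2 : QTorus) m ≠ 0 → ∃ κ : ℕ × ℕ, m = kk b c κ - (0, -1) := by
    intro m hm
    rw [X2, QTorus.mon_apply] at hm
    have : m = (0, 1) := by
      by_contra hne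
      exact hm (if_neg (Ne.symm hne))
    exact ⟨0, by rw [this, kk_zero]; simp⟩
  obtain ⟨h1, -⟩ := h (0, -1) X2 hX
  rw [psi_F_apply, X1, QTorus.mon_apply]
  obtain ⟨p, q⟩ := m
  by_cases hneg : -q < 0
  · rw [if_neg (by intro h; have := congrArg Prod.snd h; simp only at this; omega)]
    by_contra hne
    obtain ⟨κ, hκ⟩ := h1 _ hne
    have := congrArg Prod.fst hκ
    simp only [psi_rot, Prod.fst_sub, kk_fst] at this
    have h3 : 0 ≤ (b : ℤ) * κ.1 := by positivity
    omega
  · obtain ⟨n, hn⟩ : ∃ n : ℕ, -q = n := ⟨(-q).toNat, by omega⟩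
    have hr := (hR b c hb hc D X2 (psi_rot (p, q)) n).2.2.1 (by simpa [psi_rot] using hn)
    rw [hr]
    by_cases hq : q = 0
    · have hn1 : n = 0 := by omega
      subst hn1
      rw [Finset.sum_range_one, qb_zero_right]
      subst hq
      simp only [psi_rot, X2, QTorus.mon_apply, Prod.mk.injEq]
      by_cases hp : p = 1
      · subst hp; simp
      · have h1 : ¬ (1 : ℤ) = p := fun h => hp h.symm
        simp [h1]
    · rw [if_neg (by intro h; have := congrArg Prod.snd h; simp only at this; omega)]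
      refine Finset.sum_eq_zero fun j _ => ?_
      rw [X2, QTorus.mon_apply, if_neg, mul_zero]
      intro h
      have := congrArg Prod.fst h
      simp only [psi_rot] at this
      omega

theorem psi_X'_zero {X' : ℤ → QTorus} (hX' : IsClusterSeq c b X') :
    X' 0 = mon (0, -1) 1 + mon ((c : ℤ), -1) 1 := by
  have h1 := hX'.odd 1 odd_one
  have h2 := (initial_quad c b).r1
  rw [show (1 : ℤ) + 1 = 2 by norm_num, show (1 : ℤ) - 1 = 0 by norm_num, hX'.one, hX'.two] at h1
  rw [one_mul, ← h1] at h2
  exact (mul_left_cancel₀ (initial_quad c b).n2 h2).symm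

theorem pr_psi (hF : S_fin) (hA : S_coAlg) (hR : S_rows) (hI : S_intT) : S_psi := by
  intro b c hb hc D X X' hX hX'
  have fin : ∀ x : clusterAlgebra X, {l | D.co (.hi (1, 0)) (x : QTorus) l ≠ 0}.Finite :=
    fun x => (hF b c hb hc D X hX x x.2).2
  obtain ⟨a0, aadd, -, asmul, -, -, aone, -⟩ := hA b c hb hc D _ psi_valid
  let ψ : clusterAlgebra X →ₐ[R] QTorus := AlgHom.ofLinearMap
    { toFun := fun x => psi_F D x (fin x)
      map_add' := fun x y => by
        ext1 m
        rw [QTorus.add_apply, psi_F_apply, psi_F_apply, psi_F_apply]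
        exact aadd _ _ _
      map_smul' := fun r x => by
        ext1 m
        rw [RingHom.id_apply, QTorus.smul_apply, psi_F_apply, psi_F_apply]
        exact asmul _ _ _ }
    (by
      ext1 m
      show psi_F D ((1 : clusterAlgebra X) : QTorus) (fin 1) m = _
      rw [psi_F_apply, one_def, QTorus.mon_apply]
      show D.co _ (1 : QTorus) _ = _
      rw [aone]
      by_cases h : m = 0
      · subst h
        rw [if_pos rfl, if_pos]
        simp [psi_rot]
      · rw [if_neg (Ne.symm h), if_neg]
        intro h'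
        apply h
        apply psi_rot_inj
        rw [h']
        simp [psi_rot]
        rfl)
    (fun x y => psi_F_mul hb hc hA D x y (fin x) (fin y) (fin (x * y)))
  have ψ_apply : ∀ x : clusterAlgebra X, ψ x = psi_F D x (fin x) := fun _ => rfl
  refine ⟨ψ, ?_, ?_, ?_⟩
  · rw [injective_iff_map_eq_zero]
    intro x hx
    have h1 : ∀ l, D.co (.hi (1, 0)) (x : QTorus) l = 0 := by
      intro l
      have h2 := congrArg (fun f : QTorus => f (l.2, -l.1)) hx
      simp only [ψ_apply, QTorus.zero_apply] at h2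
      rw [psi_F_apply] at h2
      have h3 : psi_rot (l.2, -l.1) = l := by simp [psi_rot]
      rwa [h3] at h2
    have h2 : D.T (.hi (1, 0)) (emb (x : QTorus)) = 0 := by
      refine CT.ext fun m => ?_
      rw [← hI b c hb hc D _ psi_valid, h1, map_zero, CT.zero_apply]
    rw [WallData.T] at h2
    have h3 : emb (x : QTorus) = 0 := by
      have h4 := (Units.mul_left_eq_zero _).mp h2
      exact (Units.mul_right_eq_zero _).mp h4
    have h5 : (x : QTorus) = 0 := emb_injective (by rw [h3, map_zero])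
    exact Subtype.ext h5
  · intro x l
    rw [ψ_apply, psi_F_apply]
    have h3 : psi_rot (l.2, -l.1) = l := by simp [psi_rot]
    rw [h3]
  · -- the values
    have hmem : ∀ m, X m ∈ clusterAlgebra X := fun m => Algebra.subset_adjoin (Set.mem_range_self m)
    let Y : ℤ → QTorus := fun m => ψ ⟨X m, hmem m⟩
    have hne : ∀ m, X' m ≠ 0 := by
      obtain ⟨Z, hZ, hne⟩ := exists_clusterSeq_ne_zero hc hb
      have := (existsUnique_clusterSeq hc hb).unique hX' hZ
      rw [this]
      exact hne
    have Yodd : ∀ m : ℤ, Odd m → Y (m + 1) * Y (m - 1) = (T (b : ℤ) : R) • Y m ^ b + 1 := by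
      intro m hm
      have h1 : (⟨X (m + 1), hmem _⟩ : clusterAlgebra X) * ⟨X (m - 1), hmem _⟩ =
          (T (b : ℤ) : R) • (⟨X m, hmem m⟩ : clusterAlgebra X) ^ b + 1 :=
        Subtype.ext (hX.odd m hm)
      have h2 := congrArg ψ h1
      rw [map_mul, map_add, map_smul, map_pow, map_one] at h2
      exact h2
    have Yeven : ∀ m : ℤ, Even m → Y (m + 1) * Y (m - 1) = (T (c : ℤ) : R) • Y m ^ c + 1 := by
      intro m hm
      have h1 : (⟨X (m + 1), hmem _⟩ : clusterAlgebra X) * ⟨X (m - 1), hmem _⟩ =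
          (T (c : ℤ) : R) • (⟨X m, hmem m⟩ : clusterAlgebra X) ^ c + 1 :=
        Subtype.ext (hX.even m hm)
      have h2 := congrArg ψ h1
      rw [map_mul, map_add, map_smul, map_pow, map_one] at h2
      exact h2
    have rel : ∀ m : ℤ, Y m = X' (m - 1) → Y (m + 1) * Y (m - 1) = X' m * X' (m - 2) := by
      intro m hm
      have e1 : m - 1 + 1 = m := by ring
      have e2 : m - 1 - 1 = m - 2 := by ring
      rcases Int.even_or_odd m with h | h
      · have h1 := hX'.odd (m - 1) (h.sub_odd odd_one)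
        rw [e1, e2] at h1
        rw [Yeven m h, h1, hm]
      · have h1 := hX'.even (m - 1) (h.sub_odd odd_one)
        rw [e1, e2] at h1
        rw [Yodd m h, h1, hm]
    have Y1 : Y 1 = X' 0 := by
      rw [psi_X'_zero hX']
      show psi_F D (X 1) (fin ⟨X 1, hmem 1⟩) = _
      have : ∀ (x : QTorus) (h : x = X1) (hx : {l | D.co (.hi (1, 0)) x l ≠ 0}.Finite),
          psi_F D x hx = mon (0, -1) 1 + mon ((c : ℤ), -1) 1 := by
        intro x h hx
        subst h
        exact psi_X1 hb hc hA hR D hx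
      exact this _ hX.one _
    have Y2 : Y 2 = X' 1 := by
      rw [hX'.one]
      show psi_F D (X 2) (fin ⟨X 2, hmem 2⟩) = _
      have : ∀ (x : QTorus) (h : x = X2) (hx : {l | D.co (.hi (1, 0)) x l ≠ 0}.Finite),
          psi_F D x hx = X1 := by
        intro x h hx
        subst h
        exact psi_X2 hb hc hA hR D hx
      exact this _ hX.two _
    have hup : ∀ n : ℕ, Y (n + 1) = X' n ∧ Y (n + 2) = X' (n + 1) := by
      intro n
      induction n with
      | zero => exact ⟨by simpa using Y1, by simpa using Y2⟩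
      | succ n ih =>
        have e2 : (((n + 1 : ℕ) : ℤ) + 1) = n + 2 := by push_cast; ring
        have e3 : (((n + 1 : ℕ) : ℤ) + 2) = n + 3 := by push_cast; ring
        have e0 : ((n + 1 : ℕ) : ℤ) = n + 1 := by push_cast; ring
        rw [e2, e3, e0]
        refine ⟨ih.2, ?_⟩
        have h := rel (n + 2) (by rw [ih.2]; congr 1; ring)
        have e4 : (n : ℤ) + 2 + 1 = n + 3 := by ring
        have e5 : (n : ℤ) + 2 - 1 = n + 1 := by ring
        have e6 : (n : ℤ) + 2 - 2 = n := by ring
        rw [e4, e5, e6, ih.1] at h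
        exact mul_right_cancel₀ (hne _) h
    have hdown : ∀ n : ℕ, Y (2 - n) = X' (1 - n) ∧ Y (1 - n) = X' (-n) := by
      intro n
      induction n with
      | zero => exact ⟨by simpa using Y2, by simpa using Y1⟩
      | succ n ih =>
        have e2 : (2 - ((n + 1 : ℕ) : ℤ)) = 1 - n := by push_cast; ring
        have e3 : (1 - ((n + 1 : ℕ) : ℤ)) = -n := by push_cast; ring
        have e0 : -((n + 1 : ℕ) : ℤ) = -n - 1 := by push_cast; ring
        rw [e2, e3, e0]
        refine ⟨ih.2, ?_⟩
        have h := rel (1 - n) (by rw [ih.2]; congr 1; ring)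
        have e4 : 1 - (n : ℤ) + 1 = 2 - n := by ring
        have e5 : 1 - (n : ℤ) - 1 = -n := by ring
        have e6 : 1 - (n : ℤ) - 2 = -n - 1 := by ring
        rw [e4, e5, e6, ih.1] at h
        exact mul_left_cancel₀ (hne _) h
    have hall : ∀ m : ℤ, Y m = X' (m - 1) := by
      intro m
      rcases le_or_gt 1 m with h | h
      · have := (hup (m - 1).toNat).1
        rw [Int.toNat_of_nonneg (by omega), sub_add_cancel] at this
        exact this
      · have := (hdown (1 - m).toNat).2
        rw [Int.toNat_of_nonneg (by omega), sub_sub_cancel] at this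
        rw [this]; congr 1; ring
    intro m x hx
    rw [← hall m]
    show ψ x = ψ ⟨X m, hmem m⟩
    congr 1
    exact Subtype.ext hx

end Pool.Agent.Work.MP_c41774_al.Wall

end
end

section

/-!
# The two initial walls in terms of quantum binomials
-/

noncomputable section

namespace Pool.Agent.Work.MP_c41774_al.Wall

open Finset QTorus LaurentPolynomial

theorem rows_xs (b n : ℕ) (N : ℤ) (k : ℤ × ℤ) (hk : 1 ≤ k.1 + k.2) (y : ℤ × ℤ → S)
    (hy : Bd N y) (l : ℤ × ℤ) :
    xs N (PowerSeries.map iota (P b n)) k y l =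
      ∑ j ∈ Finset.range (n + 1), iota (qb b n j) * y (l - j • k) := by
  have e : ∀ j : ℕ, PowerSeries.coeff j (PowerSeries.map iota (P b n)) = iota (qb b n j) :=
    fun j => by rw [PowerSeries.coeff_map, coeff_P]
  rw [xs]
  simp only [e]
  have h1 : ∑ j ∈ Finset.range (l.1 + l.2 - 2 * N + 1).toNat, iota (qb b n j) * y (l - j • k) =
      ∑ j ∈ Finset.range (max (l.1 + l.2 - 2 * N + 1).toNat (n + 1)),
        iota (qb b n j) * y (l - j • k) := by
    refine Finset.sum_subset (Finset.range_subset_range.mpr (le_max_left _ _)) ?_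
    intro j _ hj
    rw [Finset.mem_range, not_lt] at hj
    have hj' : l.1 + l.2 - 2 * N + 1 ≤ (j : ℤ) := by omega
    have hz : y (l - j • k) = 0 := by
      refine hy.eq_zero ?_
      show l.1 - j • k.1 < N ∨ l.2 - j • k.2 < N
      rw [nsmul_eq_mul, nsmul_eq_mul]
      by_contra hcon
      push Not at hcon
      have hjk : (j : ℤ) ≤ j * k.1 + j * k.2 := by
        have : (0 : ℤ) ≤ j := by positivity
        nlinarith
      omega
    rw [hz, mul_zero]
  have h2 : ∑ j ∈ Finset.range (n + 1), iota (qb b n j) * y (l - j • k) =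
      ∑ j ∈ Finset.range (max (l.1 + l.2 - 2 * N + 1).toNat (n + 1)),
        iota (qb b n j) * y (l - j • k) := by
    refine Finset.sum_subset (Finset.range_subset_range.mpr (le_max_right _ _)) ?_
    intro j _ hj
    rw [Finset.mem_range, not_lt] at hj
    rw [qb_eq_zero b n j (by omega), map_zero, zero_mul]
  rw [h1, h2]

theorem rows_sub1 (b c j : ℕ) (l : ℤ × ℤ) :
    l - j • kk (b : ℤ) c (1, 0) = (l.1 - b * j, l.2) := by
  refine Prod.ext ?_ ?_
  · show l.1 - j • ((b : ℤ) * ((1 : ℕ) : ℤ)) = l.1 - b * j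
    rw [nsmul_eq_mul]; push_cast; ring
  · show l.2 - j • ((c : ℤ) * ((0 : ℕ) : ℤ)) = l.2
    rw [nsmul_eq_mul]; push_cast; ring

theorem rows_sub2 (b c j : ℕ) (l : ℤ × ℤ) :
    l - j • kk (b : ℤ) c (0, 1) = (l.1, l.2 - c * j) := by
  refine Prod.ext ?_ ?_
  · show l.1 - j • ((b : ℤ) * ((0 : ℕ) : ℤ)) = l.1
    rw [nsmul_eq_mul]; push_cast; ring
  · show l.2 - j • ((c : ℤ) * ((1 : ℕ) : ℤ)) = l.2 - c * j
    rw [nsmul_eq_mul]; push_cast; ring

theorem pr_rows (hcs : S_chartSys) (hF : S_Fxy) (hI : S_intT) (hO : S_coOne) : S_rows := by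
  intro b c hb hc D f l n
  obtain ⟨N, hN⟩ := (emb f).bd
  have hs := hcs b c hb hc D (emb f) N hN
  have hbZ : (1 : ℤ) ≤ b := by exact_mod_cast hb
  have hcZ : (1 : ℤ) ≤ c := by exact_mod_cast hc
  have hk1 : 1 ≤ (kk (b : ℤ) c (1, 0)).1 + (kk (b : ℤ) c (1, 0)).2 := by
    simp only [kk_fst, kk_snd, Nat.cast_one, Nat.cast_zero, mul_one, mul_zero, add_zero]
    exact hbZ
  have hk2 : 1 ≤ (kk (b : ℤ) c (0, 1)).1 + (kk (b : ℤ) c (0, 1)).2 := by
    simp only [kk_fst, kk_snd, Nat.cast_one, Nat.cast_zero, mul_one, mul_zero, zero_add]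
    exact hcZ
  have v0 : Chart.Valid .one := trivial
  have v1 : Chart.Valid (.lo (0, 1)) := by show Nat.Coprime 0 1; decide
  have v2 : Chart.Valid (.hi (1, 0)) := by show Nat.Coprime 1 0; decide
  have v3 : Chart.Valid (.lo (1, 0)) := by show Nat.Coprime 1 0; decide
  have hT : ∀ C : Chart, C.Valid → ∀ l', D.T C (emb f) l' = iota (D.co C f l') :=
    fun C hC l' => (hI b c hb hc D C hC f l').symm
  have hone : ∀ l', D.T .one (emb f) l' = iota (f l') := fun l' => by
    rw [hT .one v0, hO b c D f l']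
  obtain ⟨F1, F1', F2, F2'⟩ := hF b c D n
  have L1 : Lam l (kk (b : ℤ) c (1, 0)) = l.2 * b := by
    simp only [Lam, kk_fst, kk_snd, Nat.cast_one, Nat.cast_zero]; ring
  have L2 : Lam l (kk (b : ℤ) c (0, 1)) = -(l.1 * c) := by
    simp only [Lam, kk_fst, kk_snd, Nat.cast_one, Nat.cast_zero]; ring
  refine ⟨fun h => ?_, fun h => ?_, fun h => ?_, fun h => ?_, fun h => ?_⟩
  · have h' := hs.x_in l
    rw [L1, h, F1, rows_xs b n N _ hk1 _ (hs.bd .one v0)] at h'
    apply iota_injective
    rw [map_sum, ← hT _ v1, h']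
    refine Finset.sum_congr rfl fun j _ => ?_
    rw [map_mul, hone, rows_sub1]
  · have h' := hs.x_out l
    have e : -Lam l (kk (b : ℤ) c (1, 0)) = (n : ℤ) * b := by rw [L1, h]; ring
    rw [e, F1, rows_xs b n N _ hk1 _ (hs.bd _ v1)] at h'
    apply iota_injective
    rw [map_sum, ← hone, h']
    refine Finset.sum_congr rfl fun j _ => ?_
    rw [map_mul, hT _ v1, rows_sub1]
  · have h' := hs.y_in l
    have e : -Lam l (kk (b : ℤ) c (0, 1)) = (n : ℤ) * c := by rw [L2, h]; ring
    rw [e, F2, rows_xs c n N _ hk2 _ (hs.bd .one v0)] at h'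
    apply iota_injective
    rw [map_sum, ← hT _ v2, h']
    refine Finset.sum_congr rfl fun j _ => ?_
    rw [map_mul, hone, rows_sub2]
  · have h' := hs.y_out l
    have e : Lam l (kk (b : ℤ) c (0, 1)) = (n : ℤ) * c := by rw [L2, h]; ring
    rw [e, F2, rows_xs c n N _ hk2 _ (hs.bd _ v2)] at h'
    apply iota_injective
    rw [map_sum, ← hone, h']
    refine Finset.sum_congr rfl fun j _ => ?_
    rw [map_mul, hT _ v2, rows_sub2]
  · have h' := hs.up (1, 0) (by show Nat.Coprime 1 0; decide) l
    have e : -Lam l (kk (b : ℤ) c (1, 0)) = (n : ℤ) * b := by rw [L1, h]; ring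
    rw [e, F1, rows_xs b n N _ hk1 _ (hs.bd _ v3)] at h'
    apply iota_injective
    rw [map_sum, ← hT _ v2, h']
    refine Finset.sum_congr rfl fun j _ => ?_
    rw [map_mul, hT _ v3, rows_sub1]

end Pool.Agent.Work.MP_c41774_al.Wall

end
end

section

/-!
# The rotated greedy element is greedy
-/

noncomputable section

namespace Pool.Agent.Work.MP_c41774_al.Wall

open Finset QTorus LaurentPolynomial

/-- symmetry of the quantum binomials -/
theorem shg_qb_symm (b : ℤ) : ∀ n j : ℕ, j ≤ n → qb b n (n - j) = qb b n j := by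
  intro n
  induction n with
  | zero => intro j hj; obtain rfl : j = 0 := by omega
            rfl
  | succ n ih =>
    intro j hj
    rcases Nat.eq_zero_or_pos j with rfl | h0
    · rw [Nat.sub_zero, qb_self, qb_zero_right]
    rcases Nat.lt_or_ge n j with h1 | h1
    · obtain rfl : j = n + 1 := by omega
      rw [Nat.sub_self, qb_self, qb_zero_right]
    · obtain ⟨k, rfl⟩ : ∃ k, j = k + 1 := ⟨j - 1, by omega⟩
      have e1 : n + 1 - (k + 1) = (n - k - 1) + 1 := by omega
      have hbar : ∀ k : ℕ, qb b (n + 1) (k + 1) =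
          T (-(b * ((k : ℤ) + 1))) * qb b n (k + 1) + T (b * ((n : ℤ) - k)) * qb b n k := by
        intro k
        rw [← invert_qb b (n + 1) (k + 1), qb_succ_succ, map_add, map_mul, map_mul, invert_T,
          invert_T, invert_qb, invert_qb, neg_neg]
      have e2 : n - k - 1 + 1 = n - k := by omega
      have e3 : qb b n (n - k - 1 + 1) = qb b n k := by rw [e2]; exact ih k (by omega)
      have e4 : qb b n (n - k - 1) = qb b n (k + 1) := by
        have := ih (k + 1) h1
        rw [← this, Nat.sub_sub]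
      have e5 : ((n - k - 1 : ℕ) : ℤ) = n - k - 1 := by omega
      rw [e1, hbar, qb_succ_succ, e3, e4, e5, add_comm]
      congr 3 <;> ring

/-- the convolution of a series with `P b n`, with an arbitrary range of summation -/
theorem shg_coeff_mul_P (b : ℤ) (n : ℕ) (u : ℤ → R) (hu : ∀ i, i < 0 → u i = 0) (s : ℕ) :
    PowerSeries.coeff s ((PowerSeries.mk fun i : ℕ => u i) * P b n) =
      ∑ j ∈ Finset.range (n + 1), qb b n j * u ((s : ℤ) - j) := by
  rw [mul_comm, PowerSeries.coeff_mul, Finset.Nat.sum_antidiagonal_eq_sum_range_succ_mk]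
  simp only [coeff_P, PowerSeries.coeff_mk]
  have e1 : ∑ j ∈ Finset.range (s + 1), qb b n j * u (((s - j : ℕ) : ℤ)) =
      ∑ j ∈ Finset.range (s + 1), qb b n j * u ((s : ℤ) - j) := by
    refine Finset.sum_congr rfl fun j hj => ?_
    have := Finset.mem_range.mp hj
    rw [Nat.cast_sub (by omega)]
  have e2 : ∀ N : ℕ, s ≤ N → n ≤ N → ∑ j ∈ Finset.range (s + 1), qb b n j * u ((s : ℤ) - j) =
      ∑ j ∈ Finset.range (N + 1), qb b n j * u ((s : ℤ) - j) := by
    intro N h1 _
    refine Finset.sum_subset (Finset.range_subset_range.mpr (by omega)) fun j _ hj => ?_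
    rw [hu, mul_zero]
    rw [Finset.mem_range] at hj
    omega
  have e3 : ∀ N : ℕ, s ≤ N → n ≤ N → ∑ j ∈ Finset.range (n + 1), qb b n j * u ((s : ℤ) - j) =
      ∑ j ∈ Finset.range (N + 1), qb b n j * u ((s : ℤ) - j) := by
    intro N _ h1
    refine Finset.sum_subset (Finset.range_subset_range.mpr (by omega)) fun j _ hj => ?_
    rw [qb_eq_zero, zero_mul]
    rw [Finset.mem_range] at hj
    omega
  rw [e1, e2 (max s n) (by omega) (by omega), e3 (max s n) (by omega) (by omega)]

theorem pr_shGreedy (h_sup : S_sup) (h_shVan : S_shVan) (h_rows : S_rows) (h_coAlg : S_coAlg)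
    (h_good : S_goodGreedy) (h_stdCo : S_stdCo) (h_stdG : S_stdGreedy) (h_isG : S_isGreedy) :
    S_shGreedy := by
  intro b c hb hc D X hX G hG a g hg
  have hv : (Chart.hi (1, 0)).Valid := by
    show Nat.Coprime 1 0
    norm_num
  have hgl : ∀ m : ℤ × ℤ, g m = D.co (.hi (1, 0)) (G a) (-m.2, m.1) := by
    intro m
    have := hg (-m.2, m.1)
    simp only [neg_neg] at this
    exact this
  have hpt := hG.pointed a
  have hpt1 : ∀ m, G a m ≠ 0 → ∃ κ : ℕ × ℕ, m = kk b c κ - a := by
    intro m hm
    obtain ⟨κ, hκ⟩ := hpt.1 m hm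
    exact ⟨κ, hκ⟩
  have hcone := (h_coAlg b c hb hc D (.hi (1, 0)) hv).2.2.2.2.2.2.2 a (G a) hpt1
  have hlead : G a (-a) = 1 := by
    have := hpt.2
    rw [coef] at this
    rw [← this]
    congr 1
    refine Prod.ext ?_ ?_ <;> simp
  rcases le_or_gt a.2 0 with ha | ha
  · -- outside the upper half plane: explicit elements
    have hGE : G a = Estd b c a := (h_good b c hb hc D X hX G hG).2 a (Or.inr ha)
    have hsh : sh b a = (a.2, -a.1) := by simp [sh, max_eq_right ha]
    have key : g = Estd c b (sh b a) := by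
      refine QTorus.ext fun m => ?_
      rw [hgl, hsh, Estd, if_pos ha, QTorus.sum_apply]
      simp only [QTorus.mon_apply, neg_neg]
      rcases lt_or_ge 0 a.1 with h1 | h1
      · have hn : (-a.1).toNat = 0 := by omega
        rw [hn]
        simp only [zero_add, Finset.range_one, Finset.sum_singleton, qb_zero_right]
        by_cases hm : (-m.2, m.1) = -a
        · rw [hm, hcone.2, hlead, if_pos]
          have e1 := congrArg Prod.fst hm
          have e2 := congrArg Prod.snd hm
          simp only [Prod.fst_neg, Prod.snd_neg] at e1 e2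
          refine Prod.ext ?_ ?_
          · simp only [Nat.cast_zero, mul_zero]; omega
          · simp only; omega
        · rw [hGE, (h_stdCo b c hb hc D a).2.2.1 ha h1 _ hm, if_neg]
          intro h
          apply hm
          rw [← h]
          refine Prod.ext ?_ ?_ <;> simp
      · -- both coordinates nonpositive
        have hE : ∀ l : ℤ × ℤ, G a l = if l = -a then 1 else 0 := by
          intro l
          rw [hGE, Estd, if_pos h1, QTorus.sum_apply]
          have hn : a.2.toNat = 0 := by omega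
          rw [hn]
          simp only [zero_add, Finset.range_one, Finset.sum_singleton, qb_zero_right,
            QTorus.mon_apply]
          by_cases hl : l = -a
          · rw [if_pos hl, if_pos]
            rw [hl]
            refine Prod.ext ?_ ?_ <;> simp
          · rw [if_neg hl, if_neg]
            intro h
            apply hl
            rw [← h]
            refine Prod.ext ?_ ?_ <;> simp
        rcases lt_or_ge m.2 0 with h2 | h2 <;> rcases eq_or_ne m.2 a.1 with h3 | h3
        · -- l.1 = -m.2 > 0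
          have hr := (h_rows b c hb hc D (G a) (-m.2, m.1) (-a.1).toNat).2.2.1
            (by simp only; omega)
          rw [hr]
          refine Finset.sum_congr rfl fun j _ => ?_
          rw [hE]
          by_cases h4 : ((c : ℤ) * j - a.2, a.1) = m
          · rw [if_pos h4, if_pos, mul_one]
            rw [← h4]
            refine Prod.ext ?_ ?_
            · simp
            · simp only [Prod.snd_neg]; ring
          · rw [if_neg h4, if_neg, mul_zero]
            intro h5
            apply h4
            have e2 := congrArg Prod.snd h5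
            simp only [Prod.snd_neg] at e2
            refine Prod.ext ?_ ?_
            · simp only; omega
            · simp only; omega
        · have hr := (h_rows b c hb hc D (G a) (-m.2, m.1) (-m.2).toNat).2.2.1
            (by simp only; omega)
          rw [hr, Finset.sum_eq_zero, Finset.sum_eq_zero]
          · intro j _
            rw [if_neg]
            intro h
            apply h3
            rw [← h]
          · intro j _
            rw [hE, if_neg, mul_zero]
            intro h
            have e1 := congrArg Prod.fst h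
            simp only [Prod.fst_neg] at e1
            omega
        · -- m.2 = a.1 = 0
          have h0 : a.1 = 0 := by omega
          have hr := (h_rows b c hb hc D (G a) (-m.2, m.1) (-a.1).toNat).2.2.1
            (by simp only; omega)
          rw [hr]
          refine Finset.sum_congr rfl fun j _ => ?_
          rw [hE]
          by_cases h4 : ((c : ℤ) * j - a.2, a.1) = m
          · rw [if_pos h4, if_pos, mul_one]
            rw [← h4]
            refine Prod.ext ?_ ?_
            · simp
            · simp only [Prod.snd_neg]; ring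
          · rw [if_neg h4, if_neg, mul_zero]
            intro h5
            apply h4
            have e2 := congrArg Prod.snd h5
            simp only [Prod.snd_neg] at e2
            refine Prod.ext ?_ ?_
            · simp only; omega
            · simp only; omega
        · rw [Finset.sum_eq_zero]
          · by_contra hne
            obtain ⟨κ, hκ⟩ := hcone.1 _ hne
            have e1 := congrArg Prod.fst hκ
            simp only [Prod.fst_sub, kk_fst] at e1
            have : 0 ≤ (b : ℤ) * κ.1 := by positivity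
            omega
          · intro j _
            rw [if_neg]
            intro h
            apply h3
            rw [← h]
    rw [key]
    refine h_stdG c b hc hb (sh b a) (Or.inl ?_)
    rw [hsh]
    exact ha
  · -- the upper half plane
    have hsh : sh b a = (a.2, b * a.2 - a.1) := by simp [sh, max_eq_left ha.le]
    rw [hsh]
    obtain ⟨sA, sB, sC⟩ := h_sup b c hb hc D X hX G hG a ha
    have hvan := h_shVan b c hb hc D X hX G hG a ha
    have hbz : (0 : ℤ) < b := by exact_mod_cast hb
    have hcz : (0 : ℤ) < c := by exact_mod_cast hc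
    -- the value of `coef`
    have hco : ∀ q r : ℕ, coef c b (a.2, b * a.2 - a.1) g (q, r) =
        D.co (.hi (1, 0)) (G a) (b * (a.2 - r) - a.1, c * q - a.2) := by
      intro q r
      rw [coef, hgl]
      congr 1
      refine Prod.ext ?_ ?_
      · simp only; ring
      · simp only
    have hne : ∀ q r : ℕ, ((q, r) : ℕ × ℕ) ≠ 0 →
        ((b : ℤ) * (a.2 - r) - a.1, (c : ℤ) * q - a.2) ≠ (b * a.2 - a.1, -a.2) := by
      intro q r h0 h
      apply h0
      have e1 := congrArg Prod.fst h
      have e2 := congrArg Prod.snd h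
      simp only at e1 e2
      have e3 : (b : ℤ) * r = 0 := by linarith
      have e4 : (c : ℤ) * q = 0 := by linarith
      have e5 : (r : ℤ) = 0 := by
        rcases mul_eq_zero.mp e3 with h | h
        · omega
        · exact h
      have e6 : (q : ℤ) = 0 := by
        rcases mul_eq_zero.mp e4 with h | h
        · omega
        · exact h
      refine Prod.ext ?_ ?_
      · show q = 0
        omega
      · show r = 0
        omega
    refine h_isG c b (a.2, b * a.2 - a.1) g ⟨?_, ?_⟩ ?_ ?_
    · -- support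
      intro m hm
      rw [hgl] at hm
      obtain ⟨κ, hκ, hκ1⟩ := sA _ hm
      have e1 := congrArg Prod.fst hκ
      have e2 := congrArg Prod.snd hκ
      simp only [Prod.fst_sub, Prod.snd_sub, kk_fst, kk_snd] at e1 e2
      refine ⟨(κ.2, (a.2 - κ.1).toNat), ?_⟩
      have e3 : (((a.2 - κ.1).toNat : ℕ) : ℤ) = a.2 - κ.1 := by omega
      refine Prod.ext ?_ ?_
      · simp only; omega
      · simp only [e3]
        have : (b : ℤ) * (a.2 - κ.1) = b * a.2 - b * κ.1 := by ring
        rw [this]; omega
    · -- leading coefficient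
      rw [show (0 : ℕ × ℕ) = (0, 0) from rfl, hco]
      rw [← sB]
      congr 1
      refine Prod.ext ?_ ?_
      · simp
      · simp
    · -- row transforms
      rintro ⟨q, r⟩ h0 hLL
      set l : ℤ × ℤ := ((b : ℤ) * (a.2 - r) - a.1, (c : ℤ) * q - a.2) with hl
      have hLF : LF l a + b * a.2 * l.2 = LL c b (q, r) (a.2, b * a.2 - a.1) := by
        simp only [hl, LF, LL]; ring
      obtain ⟨v1, v2, -, -⟩ := hvan l (hne q r h0)
      rw [hLF] at v1 v2
      have hht : ht b (a.2, b * a.2 - a.1) r = l.1.toNat := by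
        simp only [ht, hl]
        congr 1; ring
      rw [H, hht]
      rcases le_or_gt l.1 0 with h1 | h1
      · rw [Int.toNat_of_nonpos h1, Pinv_zero, mul_one, coeff_row, hco]
        exact v2 hLL h1
      · obtain ⟨n, hn⟩ : ∃ n : ℕ, l.1 = n := ⟨l.1.toNat, by omega⟩
        have hn' : l.1.toNat = n := by omega
        rw [hn']
        have hrow : row (coef c b (a.2, b * a.2 - a.1) g) r =
            (PowerSeries.mk fun i : ℕ => (fun i : ℤ => G a (l.1, (c : ℤ) * i - a.2)) i) *
              P c n := by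
          refine PowerSeries.ext fun s => ?_
          rw [shg_coeff_mul_P c n (fun i : ℤ => G a (l.1, (c : ℤ) * i - a.2)), coeff_row, hco]
          · have hr := (h_rows b c hb hc D (G a)
              ((b : ℤ) * (a.2 - r) - a.1, (c : ℤ) * s - a.2) n).2.2.1 hn
            rw [hr]
            refine Finset.sum_congr rfl fun j _ => ?_
            congr 2
            refine Prod.ext ?_ ?_
            · rfl
            · simp only; ring
          · intro i hi
            by_contra hne'
            obtain ⟨κ, hκ⟩ := hpt1 _ hne'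
            have e2 := congrArg Prod.snd hκ
            simp only [Prod.snd_sub, kk_snd] at e2
            have e3 : 0 ≤ (c : ℤ) * κ.2 := by positivity
            have e4 : (c : ℤ) * i < 0 := mul_neg_of_pos_of_neg hcz hi
            omega
        rw [hrow, mul_assoc, P_mul_Pinv, mul_one, PowerSeries.coeff_mk]
        exact v1 hLL h1
    · -- column transforms
      rintro ⟨q, r⟩ h0 hLL
      set l : ℤ × ℤ := ((b : ℤ) * (a.2 - r) - a.1, (c : ℤ) * q - a.2) with hl
      have hLF : LF l a + b * a.2 * l.2 = LL c b (q, r) (a.2, b * a.2 - a.1) := by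
        simp only [hl, LF, LL]; ring
      obtain ⟨-, -, v3, v4⟩ := hvan l (hne q r h0)
      rw [hLF] at v3 v4
      have hht : ht c (Prod.swap (a.2, b * a.2 - a.1)) q = (-l.2).toNat := by
        simp only [ht, hl, Prod.swap_prod_mk]
        congr 1; ring
      rw [Ht, H, Prod.swap_prod_mk]
      simp only
      rw [hht]
      rcases le_or_gt 0 l.2 with h1 | h1
      · rw [Int.toNat_of_nonpos (by omega), Pinv_zero, mul_one, coeff_row, fl_apply,
          Prod.swap_prod_mk, hco]
        exact v3 hLL h1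
      · obtain ⟨n, hn⟩ : ∃ n : ℕ, l.2 = -n := ⟨(-l.2).toNat, by omega⟩
        have hn' : (-l.2).toNat = n := by omega
        have hcq : (c : ℤ) * q - a.2 = -n := hn
        rw [hn']
        have hrow : row (fl (coef c b (a.2, b * a.2 - a.1) g)) q =
            (PowerSeries.mk fun i : ℕ =>
              (fun i : ℤ => D.co (.lo (1, 0)) (G a) (b * (a.2 - i) - a.1 - b * n, l.2)) i) *
              P b n := by
          refine PowerSeries.ext fun s => ?_
          rw [shg_coeff_mul_P b n
            (fun i : ℤ => D.co (.lo (1, 0)) (G a) (b * (a.2 - i) - a.1 - b * n, l.2)),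
            coeff_row, fl_apply, Prod.swap_prod_mk, hco]
          · have hr := (h_rows b c hb hc D (G a)
              ((b : ℤ) * (a.2 - s) - a.1, (c : ℤ) * q - a.2) n).2.2.2.2 hn
            rw [hr, ← Finset.sum_range_reflect]
            refine Finset.sum_congr rfl fun j hj => ?_
            have hj := Finset.mem_range.mp hj
            have e1 : n + 1 - 1 - j = n - j := by omega
            rw [e1, shg_qb_symm b n j (by omega), Nat.cast_sub (by omega)]
            congr 2
            refine Prod.ext ?_ ?_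
            · simp only; ring
            · rfl
          · intro i hi
            by_contra hne'
            obtain ⟨κ, hκ, hκ1⟩ := sC _ hne' (by simp only; omega)
            have e1 := congrArg Prod.fst hκ
            have e2 := congrArg Prod.snd hκ
            simp only [Prod.fst_sub, Prod.snd_sub, kk_fst, kk_snd] at e1 e2
            have e3 : (b : ℤ) * (a.2 - i - n) = b * κ.1 := by linarith
            have e4 : a.2 - i - n = κ.1 := mul_left_cancel₀ (by omega) e3
            omega
        rw [hrow, mul_assoc, P_mul_Pinv, mul_one, PowerSeries.coeff_mk]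
        have := v4 hLL h1
        have e5 : (l.1 + (b : ℤ) * l.2, l.2) =
            ((b : ℤ) * (a.2 - (r : ℤ)) - a.1 - b * n, l.2) := by
          rw [hn]
          refine Prod.ext ?_ rfl
          simp only [hl]; ring
        rw [e5] at this
        exact this

end Pool.Agent.Work.MP_c41774_al.Wall

end
end

section

/-!
# Vanishing statements for the shift
-/

noncomputable section

namespace Pool.Agent.Work.MP_c41774_al.Wall

open Finset QTorus LaurentPolynomial

private theorem ch_valid' {b c : ℕ} (hc : 0 < c) (l : ℤ × ℤ) : (ch b c l).Valid := by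
  unfold ch
  split_ifs with h1 h2 h3
  · exact trivial
  · show Nat.Coprime 0 1; simp
  · show Nat.Coprime 1 0; simp
  · show Nat.Coprime (slp b c l).1 (slp b c l).2
    have hl1 : 0 < l.1.natAbs := by omega
    exact Nat.coprime_div_gcd_div_gcd (Nat.gcd_pos_of_pos_left _ (Nat.mul_pos hc hl1))

private theorem NN_sum_zero {ι : Type*} {s : Finset ι} {f : ι → R} (h : ∀ i ∈ s, NN (f i))
    (h0 : ∑ i ∈ s, f i = 0) : ∀ i ∈ s, f i = 0 := by
  intro i hi
  refine LaurentPolynomial.ext fun n => ?_
  have h1 : (∑ i ∈ s, f i).coeff n = ∑ i ∈ s, (f i).coeff n := by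
    classical
    clear h h0 hi
    induction s using Finset.induction_on with
    | empty => simp
    | insert a s ha ih => rw [Finset.sum_insert ha, Finset.sum_insert ha, ← ih]; simp
  rw [h0] at h1
  have h2 := (Finset.sum_eq_zero_iff_of_nonneg (fun i hi => h i hi n)).mp h1.symm
  rw [h2 i hi]; simp

theorem pr_shVan (hsup : S_sup) (hrows : S_rows) (hone : S_coOne) (hpos : S_goodPos)
    (hlo : S_vanLo) (hhi : S_vanHi) (hhi0 : S_vanHi0) (hcs : S_chartSys) (hint : S_intT)
    (hstd : S_stdCo) (hgg : S_goodGreedy) : S_shVan := by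
  intro b c hb hc D X hX G hG a ha2 l hl
  have hb' : (0 : ℤ) < b := by exact_mod_cast hb
  have hc' : (0 : ℤ) < c := by exact_mod_cast hc
  obtain ⟨N, hN⟩ := CT.exists_bd (emb (G a))
  have hsys := hcs b c hb hc D (emb (G a)) N hN
  have v01 : Nat.Coprime ((0, 1) : ℕ × ℕ).1 ((0, 1) : ℕ × ℕ).2 := by simp
  have v10 : Nat.Coprime ((1, 0) : ℕ × ℕ).1 ((1, 0) : ℕ × ℕ).2 := by simp
  have hβ0 : ∀ l, l ≠ -a → D.co (ch b c l) (G a) l = 0 := fun l hl => by
    rw [hG.beta, if_neg hl]
  have hβS : ∀ l, l ≠ -a → D.T (ch b c l) (emb (G a)) l = 0 := fun l hl => by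
    rw [← hint b c hb hc D _ (ch_valid' hc l), hβ0 l hl, map_zero]
  have hzero : ∀ (C : Chart), C.Valid → ∀ l, D.T C (emb (G a)) l = 0 → D.co C (G a) l = 0 := by
    intro C hC l h
    apply iota_injective
    rw [hint b c hb hc D C hC, h, map_zero]
  have hzero' : ∀ (C : Chart), C.Valid → ∀ l, D.co C (G a) l = 0 → D.T C (emb (G a)) l = 0 := by
    intro C hC l h
    rw [← hint b c hb hc D C hC, h, map_zero]
  have hNN : ∀ C : Chart, C.Valid → ∀ l, NN (D.co C (G a) l) := by
    refine hpos b c hb hc D (G a) fun l => ?_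
    rw [hG.beta]
    split_ifs
    · exact NN_one
    · exact NN_zero
  have hstdG : a.1 ≤ 0 → G a = Estd b c a := fun h =>
    (hgg b c hb hc D X hX G hG).2 a (Or.inl h)
  -- K1
  have K1 : ∀ m : ℤ × ℤ, 0 ≤ m.1 → 0 ≤ m.2 → G a m = 0 := by
    intro m h1 h2
    have hm : m ≠ -a := by
      intro h
      rw [h, Prod.snd_neg] at h2
      omega
    have := hβ0 m hm
    rw [ch, if_pos ⟨h1, h2⟩, hone] at this
    exact this
  have K2 : ∀ m : ℤ × ℤ, m.2 < 0 → m ≠ -a → 0 ≤ LF m a → D.co (.lo (0, 1)) (G a) m = 0 := by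
    intro m h2 hm hL
    rcases le_or_gt a.1 0 with h1 | h1
    · rw [hstdG h1]
      exact (hstd b c hb hc D a).2.1 h1 ha2 m hm
    · refine hzero (.lo (0, 1)) v01 m ?_
      exact (hlo b c hb hc D N _ hsys a h1 ha2 hβS m hm (Or.inr h2) hL).1 (0, 1) v01
        (by simp [Slt])
  have K3 : ∀ m : ℤ × ℤ, m.1 < 0 → 0 ≤ m.2 → D.co (.hi (1, 0)) (G a) m = 0 := by
    intro m h1 h2
    have hm : m ≠ -a := by
      intro h
      rw [h, Prod.snd_neg] at h2
      omega
    have := hβ0 m hm
    rw [ch, if_neg (by omega), if_neg (by omega), if_pos h2] at this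
    exact this
  have K4 : ∀ m : ℤ × ℤ, m.2 < 0 → m ≠ -a → LF m a ≤ 0 → D.co (.lo (1, 0)) (G a) m = 0 := by
    intro m h2 hm hL
    refine hzero (.lo (1, 0)) v10 m ?_
    rcases le_or_gt a.1 0 with h1 | h1
    · refine (hhi0 b c hb hc D N _ hsys a h1 ha2 (fun l hl => ?_) m hm hL (1, 0) v10).1
      refine hzero' (.lo (0, 1)) v01 l ?_
      rw [hstdG h1]
      exact (hstd b c hb hc D a).2.1 h1 ha2 l hl
    · refine (hhi b c hb hc D N _ hsys a h1 ha2 hβS m hm (Or.inr h2) hL).2 (1, 0) v10 ?_
      have h3 : 0 < b * (-a.2).natAbs := Nat.mul_pos hb (by omega)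
      have h4 : 0 < (slp b c (-a)).2 := by
        simp only [slp, Prod.fst_neg, Prod.snd_neg]
        exact Nat.div_pos (Nat.le_of_dvd h3 (Nat.gcd_dvd_right _ _))
          (Nat.gcd_pos_of_pos_right _ h3)
      show (slp b c (-a)).1 * 0 < 1 * (slp b c (-a)).2
      omega
  have V : l.2 < 0 → 0 ≤ LF l a + b * a.2 * l.2 → G a l = 0 := by
    intro h2 hL
    have hn : l.2 = -((-l.2).toNat : ℤ) := by omega
    rw [(hrows b c hb hc D (G a) l (-l.2).toNat).2.1 hn]
    refine Finset.sum_eq_zero fun j hj => ?_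
    have hj := Finset.mem_range.mp hj
    have hj' : (j : ℤ) ≤ -l.2 := by omega
    have hLF : LF (l.1 - b * j, l.2) a = LF l a - b * j * a.2 := by
      simp only [LF]; ring
    have e1 : b * a.2 * (-l.2 - j) = -(b * a.2 * l.2) - b * j * a.2 := by ring
    have e2 : 0 ≤ b * a.2 * (-l.2 - j) := by
      have := mul_nonneg (mul_pos hb' ha2).le (sub_nonneg.mpr hj')
      exact this
    by_cases hm : (l.1 - b * j, l.2) = -a
    · exfalso
      have h3 := congrArg Prod.fst hm
      have h4 := congrArg Prod.snd hm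
      simp only [Prod.fst_neg, Prod.snd_neg] at h3 h4
      rw [hm] at hLF
      have h5 : LF (-a) a = 0 := by simp only [LF, Prod.fst_neg, Prod.snd_neg]; ring
      rw [h5] at hLF
      have h6 : 0 ≤ b * a.2 * (j - a.2) := by
        have : b * a.2 * (j - a.2) = LF l a + b * a.2 * l.2 := by
          rw [h4]; linear_combination hLF
        rw [this]; exact hL
      have h7 : 0 ≤ (j : ℤ) - a.2 := by
        by_contra h
        push Not at h
        have := mul_neg_of_pos_of_neg (mul_pos hb' ha2) h
        omega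
      have h8 : (j : ℤ) = a.2 := by omega
      apply hl
      refine Prod.ext ?_ h4
      show l.1 = b * a.2 - a.1
      rw [h8] at h3
      linarith
    · rw [K2 (l.1 - b * j, l.2) h2 hm (by rw [hLF]; linarith), mul_zero]
  refine ⟨fun hL h1 => ?_, fun hL h1 => ?_, fun hL h2 => ?_, fun hL h2 => ?_⟩
  · rcases lt_or_ge l.2 0 with h2 | h2
    · exact V h2 hL
    · exact K1 l h1.le h2
  · have hn : l.1 = -((-l.1).toNat : ℤ) := by omega
    have hrow := (hrows b c hb hc D (G a) l (-l.1).toNat).2.2.2.1 hn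
    have key : G a l = 0 → D.co (.hi (1, 0)) (G a) l = 0 := by
      intro h0
      rw [h0] at hrow
      have h3 := NN_sum_zero (fun j _ => (NN_qb _ _ _).mul (hNN (.hi (1, 0)) v10 _)) hrow.symm 0 (by simp)
      simpa using h3
    rcases lt_or_ge l.2 0 with h2 | h2
    · exact key (V h2 hL)
    · rcases lt_or_eq_of_le h1 with h3 | h3
      · exact K3 l h3 h2
      · exact key (K1 l h3.ge h2)
  · rcases lt_or_ge l.1 0 with h1 | h1
    · exact K3 l h1 h2
    · by_contra hne
      obtain ⟨κ, hκ, hκ2⟩ := (hsup b c hb hc D X hX G hG a ha2).1 l hne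
      have h3 : l.1 ≤ b * a.2 - a.1 := by
        rw [hκ]
        show (b : ℤ) * κ.1 - a.1 ≤ _
        have := mul_le_mul_of_nonneg_left hκ2 hb'.le
        linarith
      have h4 : LF l a + b * a.2 * l.2 = l.1 * a.2 + l.2 * (b * a.2 - a.1) := by
        simp only [LF]; ring
      have h5 : 0 ≤ l.2 * (b * a.2 - a.1) := mul_nonneg h2 (h1.trans h3)
      have h6 : l.1 = 0 := by
        by_contra h
        have : 0 < l.1 * a.2 := mul_pos (by omega) ha2
        linarith
      apply hne
      have hn : l.1 = ((0 : ℕ) : ℤ) := by simpa using h6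
      rw [(hrows b c hb hc D (G a) l 0).2.2.1 hn]
      simp only [zero_add, Finset.sum_range_one, qb_zero_right, one_mul, Nat.cast_zero, mul_zero,
        sub_zero]
      exact K1 l h1 h2
  · refine K4 _ h2 ?_ ?_
    · intro hm
      have h3 := congrArg Prod.fst hm
      have h4 := congrArg Prod.snd hm
      simp only [Prod.fst_neg, Prod.snd_neg] at h3 h4
      apply hl
      refine Prod.ext ?_ h4
      show l.1 = b * a.2 - a.1
      rw [h4] at h3
      linarith
    · have : LF (l.1 + b * l.2, l.2) a = LF l a + b * a.2 * l.2 := by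
        simp only [LF]; ring
      rw [this]; exact hL

end Pool.Agent.Work.MP_c41774_al.Wall

end
end

section

/-!
# Shift maps greedy elements to greedy elements
-/

noncomputable section

namespace Pool.Agent.Work.MP_c41774_al.Wall

open Finset QTorus LaurentPolynomial

theorem pr_shift (hpsi : S_psi) (hsg : S_shGreedy) (hgg : S_goodGreedy) (hgu : S_greedyUniq) :
    S_shift := by
  intro b c hb hc D D' X X' hX hX' G G' hG hG'
  obtain ⟨ψ0, hinj, hrot, hvar⟩ := hpsi b c hb hc D X X' hX hX'
  have hmem : ∀ x : clusterAlgebra X, ψ0 x ∈ clusterAlgebra X' := by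
    rintro ⟨x, hx⟩
    have key : ∀ (x : QTorus) (hx : x ∈ Algebra.adjoin R (Set.range X)),
        ψ0 ⟨x, hx⟩ ∈ clusterAlgebra X' := by
      intro x hx
      induction hx using Algebra.adjoin_induction with
      | mem x hx =>
        obtain ⟨m, rfl⟩ := hx
        rw [hvar m _ rfl]
        exact Algebra.subset_adjoin ⟨m - 1, rfl⟩
      | algebraMap r =>
        have h1 : ψ0 (algebraMap R (clusterAlgebra X) r) = algebraMap R QTorus r := ψ0.commutes r
        have h2 : ψ0 (algebraMap R (clusterAlgebra X) r) ∈ clusterAlgebra X' := by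
          rw [h1]; exact Subalgebra.algebraMap_mem _ r
        exact h2
      | add x y hx hy ihx ihy =>
        have h1 : ψ0 ((⟨x, hx⟩ : clusterAlgebra X) + ⟨y, hy⟩) ∈ clusterAlgebra X' := by
          rw [map_add]; exact add_mem ihx ihy
        exact h1
      | mul x y hx hy ihx ihy =>
        have h1 : ψ0 ((⟨x, hx⟩ : clusterAlgebra X) * ⟨y, hy⟩) ∈ clusterAlgebra X' := by
          rw [map_mul]; exact mul_mem ihx ihy
        exact h1
    exact key x hx
  refine ⟨ψ0.codRestrict (clusterAlgebra X') hmem, ?_, ?_, ?_⟩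
  · intro x y hxy
    apply hinj
    exact congrArg Subtype.val hxy
  · intro m x hx
    exact hvar m x hx
  · intro a x hx
    have h1 : IsGreedy c b (sh b a) (ψ0 x) := by
      refine hsg b c hb hc D X hX G hG a (ψ0 x) fun l => ?_
      rw [hrot x l, hx]
    have h2 : IsGreedy c b (sh b a) (G' (sh b a)) := (hgg c b hc hb D' X' hX' G' hG').1 (sh b a)
    exact (hgu c b hc hb (sh b a) (ψ0 x) (G' (sh b a)) h1).1 h2

end Pool.Agent.Work.MP_c41774_al.Wall

end
end

section

/-!
# Item shiftOne: invariance under the shift by one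
-/

noncomputable section

namespace Pool.Agent.Work.MP_c41774_al.Wall

open Finset QTorus LaurentPolynomial

theorem shiftOne_comp {X : ℤ → QTorus} (ψ : clusterAlgebra X →ₐ[R] clusterAlgebra X)
    (σ : clusterAlgebra X ≃ₐ[R] clusterAlgebra X)
    (hψ : ∀ (m : ℤ) (x : clusterAlgebra X), (x : QTorus) = X m → (ψ x : QTorus) = X (m - 1))
    (hσ : ∀ (m : ℤ) (x : clusterAlgebra X), (x : QTorus) = X m → (σ x : QTorus) = X (m + 1)) :
    ∀ x : clusterAlgebra X, ψ (σ x) = x := by
  rintro ⟨x, hx⟩
  refine Algebra.adjoin_induction (p := fun y hy => ψ (σ (⟨y, hy⟩ : clusterAlgebra X)) =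
    (⟨y, hy⟩ : clusterAlgebra X)) ?_ ?_ ?_ ?_ hx
  · rintro y ⟨m, rfl⟩
    have h1 := hσ m ⟨X m, Algebra.subset_adjoin ⟨m, rfl⟩⟩ rfl
    have h2 := hψ (m + 1) _ h1
    rw [add_sub_cancel_right] at h2
    exact Subtype.ext h2
  · intro r
    have : (⟨algebraMap R QTorus r, Subalgebra.algebraMap_mem _ r⟩ : clusterAlgebra X) =
        algebraMap R (clusterAlgebra X) r := rfl
    show ψ (σ (⟨algebraMap R QTorus r, Subalgebra.algebraMap_mem _ r⟩ : clusterAlgebra X)) = _
    rw [this, AlgEquiv.commutes, AlgHom.commutes]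
  · intro y z hy hz h1 h2
    have : (⟨y + z, add_mem hy hz⟩ : clusterAlgebra X) =
        (⟨y, hy⟩ : clusterAlgebra X) + (⟨z, hz⟩ : clusterAlgebra X) := rfl
    show ψ (σ (⟨y + z, add_mem hy hz⟩ : clusterAlgebra X)) = _
    rw [this, map_add, map_add, h1, h2]
  · intro y z hy hz h1 h2
    have : (⟨y * z, mul_mem hy hz⟩ : clusterAlgebra X) =
        (⟨y, hy⟩ : clusterAlgebra X) * (⟨z, hz⟩ : clusterAlgebra X) := rfl
    show ψ (σ (⟨y * z, mul_mem hy hz⟩ : clusterAlgebra X)) = _
    rw [this, map_mul, map_mul, h1, h2]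

theorem pr_shiftOne (h : S_shift) : S_shiftOne := by
  intro b hb D X hX G hG σ hσ x
  obtain ⟨ψ, hinj, hψX, hψG⟩ := h b b hb hb D D X X hX hX G G hG hG
  have hcomp := shiftOne_comp ψ σ hψX hσ
  constructor
  · rintro ⟨a, ha⟩
    -- `a = sh b a0`
    set a0 : ℤ × ℤ := ((b : ℤ) * max a.1 0 - a.2, a.1) with ha0
    have hsh : sh b a0 = a := by
      rw [ha0]
      unfold sh
      refine Prod.ext ?_ ?_
      · rfl
      · show (b : ℤ) * max a.1 0 - ((b : ℤ) * max a.1 0 - a.2) = a.2
        ring
    have h1 := hψG a0 ⟨G a0, hG.mem a0⟩ rfl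
    rw [hsh, ha] at h1
    have h2 : ψ ⟨G a0, hG.mem a0⟩ = ψ (σ x) := by
      rw [hcomp x]
      exact Subtype.ext h1
    have h3 := hinj h2
    exact ⟨a0, congrArg Subtype.val h3⟩
  · rintro ⟨a, ha⟩
    have h1 := hψG a (σ x) ha.symm
    rw [hcomp x] at h1
    exact ⟨sh b a, h1.symm⟩

end Pool.Agent.Work.MP_c41774_al.Wall

end
end

section

/-!
# Item shiftTwo: invariance under the shift by two
-/

noncomputable section

namespace Pool.Agent.Work.MP_c41774_al.Wall

open Finset QTorus LaurentPolynomial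

lemma shiftTwo_surj (b : ℕ) (d : ℤ × ℤ) : ∃ a : ℤ × ℤ, sh b a = d := by
  refine ⟨(b * max d.1 0 - d.2, d.1), ?_⟩
  unfold sh
  refine Prod.ext rfl ?_
  show (b : ℤ) * max d.1 0 - (b * max d.1 0 - d.2) = d.2
  ring

theorem pr_shiftTwo (h1 : S_shift) (h2 : S_exists) : S_shiftTwo := by
  intro b c hb hc D D' X hX G hG σ hσ x
  obtain ⟨X', hX', -⟩ := existsUnique_clusterSeq hc hb
  obtain ⟨G', hG'⟩ := h2 c b hc hb D' X' hX'
  obtain ⟨ψ₁, i1, g1, G1⟩ := h1 b c hb hc D D' X X' hX hX' G G' hG hG'
  obtain ⟨ψ₂, i2, g2, G2⟩ := h1 c b hc hb D' D X' X hX' hX G' G hG' hG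
  have hθX : ∀ (m : ℤ) (y : clusterAlgebra X), (y : QTorus) = X m →
      (ψ₂ (ψ₁ y) : QTorus) = X (m - 2) := by
    intro m y hy
    have e1 := g1 m y hy
    have e2 := g2 (m - 1) (ψ₁ y) e1
    rw [e2]
    congr 1
    ring
  have hθG : ∀ (a : ℤ × ℤ) (y : clusterAlgebra X), (y : QTorus) = G a →
      (ψ₂ (ψ₁ y) : QTorus) = G (sh c (sh b a)) := by
    intro a y hy
    exact G2 (sh b a) (ψ₁ y) (G1 a y hy)
  have hid : ∀ y : clusterAlgebra X, ψ₂ (ψ₁ (σ y)) = y := by
    intro y
    have hhom : (ψ₂.comp ψ₁).comp (σ : clusterAlgebra X →ₐ[R] clusterAlgebra X) =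
        AlgHom.id R (clusterAlgebra X) := by
      refine AlgHom.ext_of_adjoin_eq_top (Algebra.adjoin_adjoin_coe_preimage (R := R)
        (s := Set.range X)) ?_
      rintro z ⟨m, hm⟩
      have e1 := hσ m z hm.symm
      have e2 := hθX (m + 2) (σ z) e1
      refine Subtype.ext ?_
      show (ψ₂ (ψ₁ (σ z)) : QTorus) = (z : QTorus)
      rw [e2, ← hm]
      congr 1
      ring
    exact DFunLike.congr_fun hhom y
  constructor
  · rintro ⟨a, ha⟩
    obtain ⟨a1, ha1⟩ := shiftTwo_surj c a
    obtain ⟨a0, ha0⟩ := shiftTwo_surj b a1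
    have e1 := hθG a0 ⟨G a0, hG.mem a0⟩ rfl
    rw [ha0, ha1, ha] at e1
    have e2 : ψ₂ (ψ₁ ⟨G a0, hG.mem a0⟩) = ψ₂ (ψ₁ (σ x)) := by
      rw [hid x]
      exact Subtype.ext e1
    have e3 := i1 (i2 e2)
    exact ⟨a0, congrArg Subtype.val e3⟩
  · rintro ⟨a, ha⟩
    have e1 := hθG a (σ x) ha.symm
    rw [hid x] at e1
    exact ⟨sh c (sh b a), e1.symm⟩

end Pool.Agent.Work.MP_c41774_al.Wall

end
end

section

/-!
# Item span: expansions in the dual family (helper31)
-/

noncomputable section

namespace Pool.Agent.Work.MP_c41774_al.Wall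

open Finset QTorus LaurentPolynomial

theorem span_chValid (b c : ℕ) (hb : 0 < b) (l : ℤ × ℤ) : (ch b c l).Valid := by
  unfold ch
  split_ifs with h1 h2 h3
  · trivial
  · show Nat.Coprime 0 1
    norm_num
  · show Nat.Coprime 1 0
    norm_num
  · have h4 : l.2 ≠ 0 := by
      rintro h
      exact h3 h.ge
    have h5 : 0 < b * l.2.natAbs := Nat.mul_pos hb (Int.natAbs_pos.2 h4)
    exact Nat.coprime_div_gcd_div_gcd (Nat.gcd_pos_of_pos_right _ h5)

theorem pr_span (hU : S_uniqBeta) (hF : S_finBeta) (hA : S_coAlg) : S_span := by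
  classical
  intro b c hb hc D X hX G hG f hf
  have hfin := hF b c hb hc D X hX f hf
  have hfin' : (Function.support (fun d : ℤ × ℤ => D.co (ch b c (-d)) f (-d))).Finite := by
    refine (hfin.preimage (f := fun d : ℤ × ℤ => -d) (neg_injective.injOn)).subset ?_
    intro d hd
    exact hd
  refine ⟨Finsupp.ofSupportFinite (fun d : ℤ × ℤ => D.co (ch b c (-d)) f (-d)) hfin',
    fun d => rfl, ?_⟩
  set ρ := Finsupp.ofSupportFinite (fun d : ℤ × ℤ => D.co (ch b c (-d)) f (-d)) hfin' with hρ
  have hρa : ∀ d, ρ d = D.co (ch b c (-d)) f (-d) := fun d => rfl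
  refine hU b c hb hc D _ _ fun l => ?_
  obtain ⟨_, _, _, hsmul, hsum, _, _, _⟩ := hA b c hb hc D (ch b c l) (span_chValid b c hb l)
  rw [Finsupp.sum, hsum]
  simp_rw [hsmul, hG.beta]
  rw [Finset.sum_eq_single (-l)]
  · rw [hρa, neg_neg, if_pos (by simp), mul_one]
  · intro d _ hd
    rw [if_neg, mul_zero]
    intro h
    exact hd (by rw [h, neg_neg])
  · intro h
    rw [Finsupp.notMem_support_iff.1 h, zero_mul]

end Pool.Agent.Work.MP_c41774_al.Wall

end
end

section

/-!
# Expansions of the explicit greedy elements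
-/

noncomputable section

namespace Pool.Agent.Work.MP_c41774_al.Wall

open Finset QTorus LaurentPolynomial

private theorem row_val {b c : ℕ} {a : ℤ × ℤ} (h1 : a.1 ≤ 0)
    (m : ℤ × ℤ) (hm : m.2 ≠ -a.2) : Estd b c a m = 0 := by
  rw [Estd, if_pos h1, sum_apply]
  refine Finset.sum_eq_zero fun p _ => ?_
  rw [mon_apply, if_neg]
  intro h
  exact hm (congrArg Prod.snd h).symm

private theorem col_val {b c : ℕ} {a : ℤ × ℤ} (h1 : 0 < a.1)
    (m : ℤ × ℤ) (hm : m.1 ≠ -a.1) : Estd b c a m = 0 := by
  rw [Estd, if_neg (by omega), sum_apply]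
  refine Finset.sum_eq_zero fun p _ => ?_
  rw [mon_apply, if_neg]
  intro h
  exact hm (congrArg Prod.fst h).symm

private theorem std_pointed {b c : ℕ} (hb : 0 < b) (hc : 0 < c) (a : ℤ × ℤ) :
    IsPointed b c a (Estd b c a) := by
  rw [Estd]
  split_ifs
  · exact pointed_row hb hc b a.2.toNat a
  · exact pointed_col hb hc c a.1.toNat a

theorem pr_stdCo (hrows : S_rows) (hH : S_H) (hco : S_coAlg) (hone : S_coOne) : S_stdCo := by
  intro b c hb hc D a
  have hb' : (0 : ℤ) < b := by exact_mod_cast hb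
  have hc' : (0 : ℤ) < c := by exact_mod_cast hc
  have hp := std_pointed hb hc a
  have hcone : ∀ m, Estd b c a m ≠ 0 → ∃ κ : ℕ × ℕ, m = kk b c κ - a := fun m hm => hp.1 m hm
  have hval : Estd b c a (-a) = 1 := by
    have := hp.2
    rw [coef_def, kk_zero, zero_sub] at this
    exact this
  have hlat : ∀ C : Chart, C.Valid → (∀ m, D.co C (Estd b c a) m ≠ 0 →
      ∃ κ : ℕ × ℕ, m = kk b c κ - a) ∧ D.co C (Estd b c a) (-a) = 1 := by
    intro C hC
    obtain ⟨-, -, -, -, -, -, -, h⟩ := hco b c hb hc D C hC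
    have := h a (Estd b c a) hcone
    rw [hval] at this
    exact this
  have v01 : Chart.Valid (.lo (0, 1)) := by show Nat.Coprime 0 1; simp
  have v10 : Chart.Valid (.hi (1, 0)) := by show Nat.Coprime 1 0; simp
  have vone : Chart.Valid .one := trivial
  -- part 2
  have P2 : a.1 ≤ 0 → 0 < a.2 → ∀ l, l ≠ -a → D.co (.lo (0, 1)) (Estd b c a) l = 0 := by
    intro h1 h2 l hl
    by_contra hne
    obtain ⟨κ, hκ⟩ := (hlat _ v01).1 l hne
    have hκ0 : κ ≠ 0 := by
      rintro rfl
      apply hl
      rw [hκ, kk_zero, zero_sub]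
    apply hne
    rcases le_or_gt ((c : ℤ) * κ.2) a.2 with h3 | h3
    · rw [hκ, (hH b c hb hc D a _ hcone κ).1 h3, H]
      by_cases hκ2 : κ.2 = 0
      · have hrow : row (coef b c a (Estd b c a)) κ.2 = P b (ht c a κ.2) := by
          ext1 p
          rw [coeff_row, coeff_P, hκ2]
          have := sum_mon_row (c := c) hb b a.2.toNat a p 0 hc
          rw [if_pos rfl] at this
          rw [Estd, if_pos h1, this, ht]
          simp
        rw [hrow, P_mul_Pinv, PowerSeries.coeff_one, if_neg]
        intro h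
        exact hκ0 (Prod.ext h hκ2)
      · have hrow : row (coef b c a (Estd b c a)) κ.2 = 0 := by
          ext1 p
          rw [coeff_row]
          have := sum_mon_row (c := c) hb b a.2.toNat a p κ.2 hc
          rw [if_neg hκ2] at this
          rw [Estd, if_pos h1, this]
          simp
        rw [hrow, zero_mul, map_zero]
    · have h4 : 0 ≤ l.2 := by
        rw [hκ]
        show 0 ≤ (c : ℤ) * κ.2 - a.2
        omega
      have h5 : l.2 = (l.2.toNat : ℤ) := by omega
      rw [(hrows b c hb hc D _ l l.2.toNat).1 h5]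
      refine Finset.sum_eq_zero fun j _ => ?_
      rw [row_val h1 _ (by show l.2 ≠ -a.2; omega), mul_zero]
  -- part 1
  have P1 : a.1 ≤ 0 → ∀ l, l ≠ -a → l.2 < 0 → D.co (.lo (0, 1)) (Estd b c a) l = 0 := by
    intro h1 l hl h3
    rcases lt_or_ge 0 a.2 with h2 | h2
    · exact P2 h1 h2 l hl
    · by_contra hne
      obtain ⟨κ, hκ⟩ := (hlat _ v01).1 l hne
      have h4 : 0 ≤ (c : ℤ) * κ.2 := by positivity
      have h5 : l.2 = (c : ℤ) * κ.2 - a.2 := by rw [hκ]; rfl
      omega
  -- part 3
  have P3 : a.2 ≤ 0 → 0 < a.1 → ∀ l, l ≠ -a → D.co (.hi (1, 0)) (Estd b c a) l = 0 := by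
    intro h2 h1 l hl
    by_contra hne
    obtain ⟨κ, hκ⟩ := (hlat _ v10).1 l hne
    have hκ0 : κ ≠ 0 := by
      rintro rfl
      apply hl
      rw [hκ, kk_zero, zero_sub]
    apply hne
    rcases le_or_gt ((b : ℤ) * κ.1) a.1 with h3 | h3
    · rw [hκ, (hH b c hb hc D a _ hcone κ).2 h3, Ht, H]
      by_cases hκ1 : κ.1 = 0
      · have hrow : row (fl (coef b c a (Estd b c a))) κ.swap.2 =
            P c (ht b a.swap κ.swap.2) := by
          ext1 q
          rw [coeff_row, coeff_P, fl_apply, Prod.snd_swap, hκ1, Prod.swap_prod_mk]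
          have := sum_mon_col (b := b) hb c a.1.toNat a 0 q hc
          rw [if_pos rfl] at this
          rw [Estd, if_neg (by omega), this, ht]
          simp
        rw [hrow, P_mul_Pinv, PowerSeries.coeff_one, if_neg]
        intro h
        exact hκ0 (Prod.ext hκ1 h)
      · have hrow : row (fl (coef b c a (Estd b c a))) κ.swap.2 = 0 := by
          ext1 q
          rw [coeff_row, fl_apply, Prod.snd_swap, Prod.swap_prod_mk]
          have := sum_mon_col (b := b) hb c a.1.toNat a κ.1 q hc
          rw [if_neg hκ1] at this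
          rw [Estd, if_neg (by omega), this]
          simp
        rw [hrow, zero_mul, map_zero]
    · have h4 : 0 ≤ l.1 := by
        rw [hκ]
        show 0 ≤ (b : ℤ) * κ.1 - a.1
        omega
      have h5 : l.1 = (l.1.toNat : ℤ) := by omega
      rw [(hrows b c hb hc D _ l l.1.toNat).2.2.1 h5]
      refine Finset.sum_eq_zero fun j _ => ?_
      rw [col_val h1 _ (by show l.1 ≠ -a.1; omega), mul_zero]
  refine ⟨P1, P2, P3, fun h l => ?_⟩
  by_cases hl : l = -a
  · rw [if_pos hl, hl]
    unfold ch
    split_ifs with k1 k2 k3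
    · exact (hlat _ vone).2
    · exact (hlat _ v01).2
    · exact (hlat _ v10).2
    · exfalso
      simp only [Prod.fst_neg, Prod.snd_neg] at k2 k3
      omega
  · rw [if_neg hl]
    have hcone' : ∀ C : Chart, C.Valid → (l.1 < -a.1 ∨ l.2 < -a.2) →
        D.co C (Estd b c a) l = 0 := by
      intro C hC hlt
      by_contra hne
      obtain ⟨κ, hκ⟩ := (hlat C hC).1 l hne
      have h3 : l.1 = (b : ℤ) * κ.1 - a.1 := by rw [hκ]; rfl
      have h4 : l.2 = (c : ℤ) * κ.2 - a.2 := by rw [hκ]; rfl
      have h5 : 0 ≤ (b : ℤ) * κ.1 := by positivity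
      have h6 : 0 ≤ (c : ℤ) * κ.2 := by positivity
      omega
    unfold ch
    split_ifs with k1 k2 k3
    · rw [hone]
      rcases le_or_gt a.1 0 with h1 | h1
      · rcases lt_or_ge 0 a.2 with h2 | h2
        · exact row_val h1 l (by omega)
        · rw [Estd, if_pos h1, Int.toNat_of_nonpos h2]
          simp only [zero_add, Finset.sum_range_one, qb_zero_right, Nat.cast_zero, mul_zero,
            zero_sub]
          rw [mon_apply, if_neg]
          intro h
          exact hl h.symm
      · exact col_val h1 l (by omega)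
    · rcases le_or_gt a.1 0 with h1 | h1
      · exact P1 h1 l hl (by omega)
      · exact hcone' _ v01 (by omega)
    · rcases le_or_gt a.1 0 with h1 | h1
      · exact hcone' _ v10 (by omega)
      · exact P3 (by omega) h1 l hl
    · have hval2 : Chart.Valid (.lo (slp b c l)) := by
        show Nat.Coprime (slp b c l).1 (slp b c l).2
        have hl1 : 0 < l.1.natAbs := by omega
        exact Nat.coprime_div_gcd_div_gcd (Nat.gcd_pos_of_pos_left _ (Nat.mul_pos hc hl1))
      exact hcone' _ hval2 (by omega)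

end Pool.Agent.Work.MP_c41774_al.Wall

end
end

section

/-!
# Item stdGreedy: the explicit elements are greedy
-/

noncomputable section

namespace Pool.Agent.Work.MP_c41774_al.Wall

open Finset QTorus LaurentPolynomial

/-- If the coefficient function is a single full row, the row transform vanishes off `0`. -/
theorem stdGreedy_row (b c : ℤ) (a : ℤ × ℤ) (e : ℕ × ℕ → R)
    (he : ∀ κ, e κ = if κ.2 = 0 then qb b a.2.toNat κ.1 else 0) (κ : ℕ × ℕ) (hκ : κ ≠ 0) :
    H b c a e κ = 0 := by
  by_cases h2 : κ.2 = 0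
  · have h1 : κ.1 ≠ 0 := fun h => hκ (Prod.ext h h2)
    have hrow : row e κ.2 = P b a.2.toNat := by
      ext1 p
      rw [coeff_row, he, coeff_P, if_pos h2]
    have hht : ht c a κ.2 = a.2.toNat := by
      rw [ht, h2]; simp
    rw [H, hrow, hht, P_mul_Pinv, PowerSeries.coeff_one, if_neg h1]
  · have hrow : row e κ.2 = 0 := by
      ext1 p
      rw [coeff_row, he, if_neg h2, map_zero]
    rw [H, hrow, zero_mul, map_zero]

/-- If the coefficient function is a single row, the column transform is trivial at height 0. -/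
theorem stdGreedy_col (b c : ℤ) (a : ℤ × ℤ) (e : ℕ × ℕ → R) (f : ℕ → R)
    (he : ∀ κ, e κ = if κ.1 = 0 then f κ.2 else 0) (κ : ℕ × ℕ) (h0 : ht c a κ.2 = 0) :
    H b c a e κ = if κ.1 = 0 then f κ.2 else 0 := by
  have hPinv : Pinv b 0 = 1 := by
    have := P_mul_Pinv b 0
    rwa [P_zero, one_mul] at this
  rw [H, h0, hPinv, mul_one, coeff_row, he]

theorem pr_stdGreedy (h : S_isGreedy) : S_stdGreedy := by
  intro b c hb hc a ha
  by_cases h1 : a.1 ≤ 0
  · have hE : Estd b c a = ∑ p ∈ Finset.range (a.2.toNat + 1),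
        mon ((b : ℤ) * p - a.1, -a.2) (qb b a.2.toNat p) := by rw [Estd, if_pos h1]
    have hco : ∀ κ : ℕ × ℕ, coef b c a (Estd b c a) κ =
        if κ.2 = 0 then qb b a.2.toNat κ.1 else 0 := by
      intro κ
      rw [hE]
      exact sum_mon_row hb b a.2.toNat a κ.1 κ.2 hc
    refine h b c a _ ?_ ?_ ?_
    · rw [hE]; exact pointed_row hb hc _ _ _
    · intro κ hκ _
      exact stdGreedy_row b c a _ hco κ hκ
    · intro κ hκ hL
      have := stdGreedy_col (c : ℤ) b a.swap (fl (coef b c a (Estd b c a)))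
        (fun p => qb b a.2.toNat p) (fun κ => hco κ.swap) κ.swap (by
          have h3 : (0 : ℤ) ≤ (b : ℤ) * κ.1 := by positivity
          show (a.1 - (b : ℤ) * κ.1).toNat = 0
          omega)
      rw [Ht, this]
      split_ifs with h4
      · have h4' : κ.2 = 0 := h4
        have h5 : κ.1 ≠ 0 := fun h => hκ (Prod.ext h h4')
        have h6 : a.2 ≤ 0 := by
          rw [LL, h4'] at hL
          by_contra hcon
          push Not at hcon
          have : 0 < (b : ℤ) * κ.1 * a.2 := by positivity
          simp only [Nat.cast_zero, mul_zero, zero_mul, sub_zero] at hL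
          omega
        have h7 : a.2.toNat = 0 := by omega
        show qb b a.2.toNat κ.1 = 0
        rw [h7]
        exact qb_eq_zero _ _ _ (by omega)
      · rfl
  · push Not at h1
    have h2 : a.2 ≤ 0 := by
      rcases ha with h | h
      · omega
      · exact h
    have hE : Estd b c a = ∑ q ∈ Finset.range (a.1.toNat + 1),
        mon (-a.1, (c : ℤ) * q - a.2) (qb c a.1.toNat q) := by
      rw [Estd, if_neg (by omega)]
    have hco : ∀ κ : ℕ × ℕ, coef b c a (Estd b c a) κ =
        if κ.1 = 0 then qb c a.1.toNat κ.2 else 0 := by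
      intro κ
      rw [hE]
      exact sum_mon_col hb c a.1.toNat a κ.1 κ.2 hc
    refine h b c a _ ?_ ?_ ?_
    · rw [hE]; exact pointed_col hb hc _ _ _
    · intro κ hκ hL
      rw [stdGreedy_col (b : ℤ) c a _ (fun q => qb c a.1.toNat q) hco κ (by
          have h3 : (0 : ℤ) ≤ (c : ℤ) * κ.2 := by positivity
          show (a.2 - (c : ℤ) * κ.2).toNat = 0
          omega)]
      split_ifs with h4
      · exfalso
        have h5 : κ.2 ≠ 0 := fun h => hκ (Prod.ext h4 h)
        rw [LL, h4] at hL
        have : 0 < (c : ℤ) * κ.2 * a.1 := by positivity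
        simp only [Nat.cast_zero, mul_zero, zero_mul, zero_sub] at hL
        omega
      · rfl
    · intro κ hκ _
      exact stdGreedy_row (c : ℤ) b a.swap (fl (coef b c a (Estd b c a)))
        (fun κ => hco κ.swap) κ.swap (fun h => hκ (by
          have := congrArg Prod.swap h
          simpa using this))

end Pool.Agent.Work.MP_c41774_al.Wall

end
end

section

/-!
# The explicit greedy elements outside the positive quadrant
-/

noncomputable section

namespace Pool.Agent.Work.MP_c41774_al.Wall

open Finset QTorus LaurentPolynomial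

theorem stdMem_gen {X : ℤ → QTorus} (t : R) (m n : ℤ) (i j : ℕ) :
    t • (X m ^ i * X n ^ j) ∈ clusterAlgebra X := by
  have h (k : ℤ) : X k ∈ clusterAlgebra X := Algebra.subset_adjoin (Set.mem_range_self k)
  exact Subalgebra.smul_mem _ (mul_mem (pow_mem (h m) _) (pow_mem (h n) _)) _

theorem pr_stdMem : S_stdMem := by
  intro b c hb hc X hX a ha
  unfold Estd
  split_ifs with ha1
  · refine ⟨pointed_row hb hc b a.2.toNat a, ?_⟩
    have h1 : (((-a.1).toNat : ℕ) : ℤ) = -a.1 := Int.toNat_of_nonneg (by omega)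
    rcases le_or_gt 0 a.2 with h | h
    · have h2 : ((a.2.toNat : ℕ) : ℤ) = a.2 := Int.toNat_of_nonneg h
      have := stdMem_gen (X := X) (T ((a.2.toNat : ℤ) * (-a.1).toNat)) 0 1 a.2.toNat (-a.1).toNat
      rw [left_monomial hX, h1, h2] at this
      exact this
    · have h2 : (((-a.2).toNat : ℕ) : ℤ) = -a.2 := Int.toNat_of_nonneg (by omega)
      have h3 : a.2.toNat = 0 := Int.toNat_of_nonpos h.le
      have := stdMem_gen (X := X) (T (((-a.1).toNat : ℤ) * (-a.2).toNat)) 1 2
        (-a.1).toNat (-a.2).toNat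
      rw [hX.one, hX.two, ← mon_eq, h1, h2] at this
      rw [h3]
      simpa using this
  · refine ⟨pointed_col hb hc c a.1.toNat a, ?_⟩
    have ha2 : a.2 ≤ 0 := by
      rcases ha with h | h
      · exact absurd h ha1
      · exact h
    have h1 : (((-a.2).toNat : ℕ) : ℤ) = -a.2 := Int.toNat_of_nonneg (by omega)
    have h2 : ((a.1.toNat : ℕ) : ℤ) = a.1 := Int.toNat_of_nonneg (by omega)
    have := stdMem_gen (X := X) (T (((-a.2).toNat : ℤ) * a.1.toNat)) 2 3 (-a.2).toNat a.1.toNat
    rw [right_monomial hX, h1, h2] at this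
    exact this

end Pool.Agent.Work.MP_c41774_al.Wall

end
end

section

/-!
# Item sup: support in the chart of the cluster {X2, X3}
-/

noncomputable section

namespace Pool.Agent.Work.MP_c41774_al.Wall

open Finset QTorus LaurentPolynomial

theorem sup_NN_add_eq_zero {f g : R} (hf : NN f) (hg : NN g) (h : f + g = 0) :
    f = 0 ∧ g = 0 := by
  have key : ∀ n : ℤ, f.coeff n = 0 ∧ g.coeff n = 0 := by
    intro n
    have h1 := hf n
    have h2 := hg n
    have h3 : (f + g).coeff n = 0 := by rw [h]; simp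
    rw [AddMonoidAlgebra.coeff_add] at h3
    have h4 : f.coeff n + g.coeff n = 0 := h3
    constructor <;> omega
  constructor
  · refine LaurentPolynomial.ext fun n => ?_
    rw [(key n).1]; simp
  · refine LaurentPolynomial.ext fun n => ?_
    rw [(key n).2]; simp

theorem sup_NN_sum_ne {ι : Type*} {s : Finset ι} {f : ι → R} (h : ∀ i ∈ s, NN (f i))
    {i : ι} (hi : i ∈ s) (hne : f i ≠ 0) : ∑ j ∈ s, f j ≠ 0 := by
  classical
  intro h0
  rw [← Finset.add_sum_erase s f hi] at h0
  exact hne (sup_NN_add_eq_zero (h i hi)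
    (NN.sum fun j hj => h j (Finset.mem_of_mem_erase hj)) h0).1

theorem sup_T_ne (m : ℤ) : (T m : R) ≠ 0 := (isUnit_T m).ne_zero

theorem sup_valid10 : (Chart.hi (1, 0)).Valid := by
  show Nat.Coprime 1 0
  decide

theorem sup_valid10' : (Chart.lo (1, 0)).Valid := by
  show Nat.Coprime 1 0
  decide

theorem sup_valid01 : (Chart.lo (0, 1)).Valid := by
  show Nat.Coprime 0 1
  decide

theorem sup_Estd {b c : ℕ} {a : ℤ × ℤ} (ha : a.1 ≤ 0) {m : ℤ × ℤ} (h : Estd b c a m ≠ 0) :
    ∃ p : ℕ, p ≤ a.2.toNat ∧ m = ((b : ℤ) * p - a.1, -a.2) := by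
  rw [Estd, if_pos ha, QTorus.sum_apply] at h
  obtain ⟨p, hp, hne⟩ := Finset.exists_ne_zero_of_sum_ne_zero h
  rw [QTorus.mon_apply] at hne
  rw [Finset.mem_range] at hp
  refine ⟨p, by omega, ?_⟩
  by_contra hm
  exact hne (if_neg (Ne.symm hm))

theorem pr_sup (hAlg : S_coAlg) (hRows : S_rows) (hPos : S_goodPos)
    (hMul : S_mulPos) (hGr : S_goodGreedy) (hStd : S_stdCo) (hVan : S_vanLo)
    (hCS : S_chartSys) (hInt : S_intT) (hEl : S_elem) : S_sup := by
  intro b c hb hc D X hX G hG a ha2
  -- positivity of all coefficients of the members of the family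
  have hNN : ∀ d C, C.Valid → ∀ l, NN (D.co C (G d) l) := by
    intro d C hC l
    refine hPos b c hb hc D (G d) (fun l' => ?_) C hC l
    rw [hG.beta d l']
    split_ifs
    · exact NN_one
    · exact NN_zero
  have hcone : ∀ d C, C.Valid → ∀ m, D.co C (G d) m ≠ 0 → ∃ κ : ℕ × ℕ, m = kk b c κ - d :=
    fun d C hC => ((hAlg b c hb hc D C hC).2.2.2.2.2.2.2 d (G d) (hG.pointed d).1).1
  have hlead : ∀ d C, C.Valid → D.co C (G d) (-d) = 1 := by
    intro d C hC
    rw [((hAlg b c hb hc D C hC).2.2.2.2.2.2.2 d (G d) (hG.pointed d).1).2]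
    have h1 := (hG.pointed d).2
    rw [coef] at h1
    rw [← h1]
    congr 1
    ext <;> simp
  -- Step A
  have stepA : ∀ d : ℤ × ℤ, 0 < d.2 → d.1 ≤ 0 → ∀ l, D.co (.hi (1, 0)) (G d) l ≠ 0 →
      ∃ κ : ℕ × ℕ, l = kk b c κ - d ∧ (κ.1 : ℤ) ≤ d.2 := by
    intro d hd2 hd1 l hl
    obtain ⟨κ, hκ⟩ := hcone d _ sup_valid10 l hl
    refine ⟨κ, hκ, ?_⟩
    have hl1 : l.1 = (b : ℤ) * κ.1 - d.1 := by rw [hκ]; simp
    have hl1' : 0 ≤ l.1 := by
      rw [hl1]
      have : (0 : ℤ) ≤ (b : ℤ) * κ.1 := by positivity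
      omega
    have hr := (hRows b c hb hc D (G d) l l.1.toNat).2.2.1 (by omega)
    rw [hr] at hl
    obtain ⟨j, -, hj⟩ := Finset.exists_ne_zero_of_sum_ne_zero hl
    have hj' := right_ne_zero_of_mul hj
    rw [(hGr b c hb hc D X hX G hG).2 d (Or.inl hd1)] at hj'
    obtain ⟨p, hp, hpe⟩ := sup_Estd hd1 hj'
    have h1 := congrArg Prod.fst hpe
    simp only at h1
    rw [hl1] at h1
    have h2 : (b : ℤ) * κ.1 = (b : ℤ) * p := by linarith
    have h3 : (κ.1 : ℤ) = p := mul_left_cancel₀ (by exact_mod_cast hb.ne') h2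
    omega
  -- (1)
  have part1 : ∀ l, D.co (.hi (1, 0)) (G a) l ≠ 0 →
      ∃ κ : ℕ × ℕ, l = kk b c κ - a ∧ (κ.1 : ℤ) ≤ a.2 := by
    by_cases ha1 : a.1 ≤ 0
    · exact stepA a ha2 ha1
    push Not at ha1
    intro l hl
    have hA := hAlg b c hb hc D _ sup_valid10
    obtain ⟨ρ, hρ, hρa, hρe⟩ := hMul b c hb hc D X hX G hG (a.1, 0) (0, a.2)
    have haa : (a.1, (0 : ℤ)) + ((0 : ℤ), a.2) = a := by ext <;> simp
    rw [haa] at hρa
    have hmem : a ∈ ρ.support := by
      rw [Finsupp.mem_support_iff, hρa]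
      exact sup_T_ne _
    have e1 : D.co (.hi (1, 0)) (G (a.1, 0) * G (0, a.2)) l =
        ∑ d ∈ ρ.support, ρ d * D.co (.hi (1, 0)) (G d) l := by
      rw [hρe, Finsupp.sum, hA.2.2.2.2.1]
      exact Finset.sum_congr rfl fun d _ => hA.2.2.2.1 _ _ _
    have e2 : D.co (.hi (1, 0)) (G (a.1, 0) * G (0, a.2)) l ≠ 0 := by
      rw [e1]
      refine sup_NN_sum_ne (fun d _ => (hρ d).mul (hNN d _ sup_valid10 l)) hmem ?_
      rw [hρa]
      exact mul_ne_zero (sup_T_ne _) hl
    obtain ⟨s, hs⟩ := hA.2.2.2.2.2.1 (G (a.1, 0)) (G (0, a.2)) l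
    rw [hs s le_rfl] at e2
    obtain ⟨i, -, hi⟩ := Finset.exists_ne_zero_of_sum_ne_zero e2
    have hi1 := left_ne_zero_of_mul (right_ne_zero_of_mul hi)
    have hi2 := right_ne_zero_of_mul (right_ne_zero_of_mul hi)
    rw [(hGr b c hb hc D X hX G hG).2 (a.1, 0) (Or.inr le_rfl)] at hi1
    have hi3 : i = -(a.1, (0 : ℤ)) := by
      by_contra hne
      exact hi1 ((hStd b c hb hc D (a.1, 0)).2.2.1 le_rfl ha1 i hne)
    obtain ⟨κ, hκ, hκ2⟩ := stepA (0, a.2) ha2 le_rfl (l - i) hi2
    refine ⟨κ, ?_, hκ2⟩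
    rw [hi3] at hκ
    have h1 := congrArg Prod.fst hκ
    have h2 := congrArg Prod.snd hκ
    simp only [Prod.fst_sub, Prod.snd_sub, Prod.fst_neg, Prod.snd_neg, kk_fst, kk_snd] at h1 h2
    ext
    · simp only [Prod.fst_sub, kk_fst]; linarith
    · simp only [Prod.snd_sub, kk_snd]; linarith
  refine ⟨part1, ?_, ?_⟩
  · -- (2)
    set l0 : ℤ × ℤ := ((b : ℤ) * a.2 - a.1, -a.2) with hl0
    have hrow : D.co (.hi (1, 0)) (G a) l0 = G a l0 := by
      rcases le_or_gt 0 l0.1 with h | h
      · have hr := (hRows b c hb hc D (G a) l0 l0.1.toNat).2.2.1 (by omega)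
        rw [hr, Finset.sum_eq_single 0]
        · simp
        · intro j _ hj
          have hz : G a (l0.1, l0.2 - c * j) = 0 := by
            by_contra hne
            obtain ⟨κ, hκ⟩ := (hG.pointed a).1 _ hne
            have h2 := congrArg Prod.snd hκ
            simp only [hl0] at h2
            have h3 : (0 : ℤ) ≤ (c : ℤ) * κ.2 := by positivity
            have h4 : (0 : ℤ) < (c : ℤ) * j := by positivity
            linarith
          rw [hz, mul_zero]
        · intro h0
          exact absurd (Finset.mem_range.mpr (by omega)) h0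
      · have hr := (hRows b c hb hc D (G a) l0 (-l0.1).toNat).2.2.2.1 (by omega)
        rw [hr, Finset.sum_eq_single 0]
        · simp
        · intro j _ hj
          have hz : D.co (.hi (1, 0)) (G a) (l0.1, l0.2 - c * j) = 0 := by
            by_contra hne
            obtain ⟨κ, hκ⟩ := hcone a _ sup_valid10 _ hne
            have h2 := congrArg Prod.snd hκ
            simp only [hl0, Prod.snd_sub, kk_snd] at h2
            have h3 : (0 : ℤ) ≤ (c : ℤ) * κ.2 := by positivity
            have h4 : (0 : ℤ) < (c : ℤ) * j := by positivity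
            linarith
          rw [hz, mul_zero]
        · intro h0
          exact absurd (Finset.mem_range.mpr (by omega)) h0
    rw [hrow]
    -- vanishing in the chart of {X0, X1}
    have hvan : ∀ p : ℕ, 1 ≤ p → D.co (.lo (0, 1)) (G a) ((b : ℤ) * p - a.1, -a.2) = 0 := by
      intro p hp
      have hbp : (0 : ℤ) < (b : ℤ) * p := by positivity
      have hne : (((b : ℤ) * p - a.1, -a.2) : ℤ × ℤ) ≠ -a := by
        intro h
        have h1 := congrArg Prod.fst h
        simp only [Prod.fst_neg] at h1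
        linarith
      by_cases ha1 : a.1 ≤ 0
      · rw [(hGr b c hb hc D X hX G hG).2 a (Or.inl ha1)]
        exact (hStd b c hb hc D a).2.1 ha1 ha2 _ hne
      · push Not at ha1
        obtain ⟨N, hN⟩ := (emb (G a)).bd
        have hcs := hCS b c hb hc D (emb (G a)) N hN
        have hchv : ∀ l, (ch b c l).Valid := by
          intro l
          unfold ch
          split_ifs with h1 h2 h3
          · trivial
          · exact sup_valid01
          · exact sup_valid10
          · exact ((hEl.2.2.2.1) b c hb hc l (by omega) (by omega)).1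
        have hbeta : ∀ l, l ≠ -a → D.T (ch b c l) (emb (G a)) l = 0 := by
          intro l hl
          rw [← hInt b c hb hc D _ (hchv l), hG.beta a l, if_neg hl, map_zero]
        have hv := (hVan b c hb hc D N _ hcs a ha1 ha2 hbeta ((b : ℤ) * p - a.1, -a.2) hne
          (Or.inr (by simp only; omega)) (by
            rw [LF]
            have : (0 : ℤ) ≤ (b : ℤ) * p * a.2 := by positivity
            nlinarith)).1 (0, 1) (by decide) (by
              unfold Slt
              simp)
        have hi := hInt b c hb hc D _ sup_valid01 (G a) ((b : ℤ) * p - a.1, -a.2)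
        have hv' : D.T (.lo (0, 1)) (emb (G a)) ((b : ℤ) * p - a.1, -a.2) = 0 := hv
        rw [hv', ← map_zero iota] at hi
        exact iota_injective hi
    have hr := (hRows b c hb hc D (G a) l0 a.2.toNat).2.1 (by rw [hl0]; simp only; omega)
    rw [hr, Finset.sum_eq_single a.2.toNat]
    · rw [qb_self, one_mul]
      have : ((l0.1 - (b : ℤ) * (a.2.toNat : ℤ), l0.2) : ℤ × ℤ) = -a := by
        ext
        · simp only [hl0, Prod.fst_neg]
          rw [Int.toNat_of_nonneg ha2.le]; ring
        · simp [hl0]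
      rw [this]
      exact hlead a _ sup_valid01
    · intro j hj hne
      rw [Finset.mem_range] at hj
      have : ((l0.1 - (b : ℤ) * (j : ℤ), l0.2) : ℤ × ℤ) =
          ((b : ℤ) * ((a.2.toNat - j : ℕ) : ℤ) - a.1, -a.2) := by
        ext
        · simp only [hl0]
          rw [Nat.cast_sub (by omega), Int.toNat_of_nonneg ha2.le]; ring
        · simp [hl0]
      rw [this, hvan _ (by omega), mul_zero]
    · intro h0
      exact absurd (Finset.mem_range.mpr (by omega)) h0
  · -- (3)
    intro l hl hl2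
    obtain ⟨κ, hκ⟩ := hcone a _ sup_valid10' l hl
    refine ⟨κ, hκ, ?_⟩
    set n : ℕ := (-l.2).toNat with hn
    have hn' : (n : ℤ) = -l.2 := by omega
    have hr := (hRows b c hb hc D (G a) (l.1 + b * n, l.2) n).2.2.2.2 (by simp only; omega)
    have hne : D.co (.hi (1, 0)) (G a) (l.1 + b * n, l.2) ≠ 0 := by
      rw [hr]
      refine sup_NN_sum_ne (i := n) (fun j _ => (NN_qb _ _ _).mul (hNN a _ sup_valid10' _))
        (Finset.mem_range.mpr (by omega)) ?_
      rw [qb_self, one_mul]
      have : ((l.1 + (b : ℤ) * n - (b : ℤ) * n, l.2) : ℤ × ℤ) = l := by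
        ext
        · simp
        · rfl
      simp only
      rw [this]
      exact hl
    obtain ⟨κ', hκ', hle⟩ := part1 _ hne
    have h1 := congrArg Prod.fst hκ'
    have h2 := congrArg Prod.fst hκ
    have h3 := congrArg Prod.snd hκ
    simp only [Prod.fst_sub, Prod.snd_sub, kk_fst, kk_snd] at h1 h2 h3
    have h4 : (b : ℤ) * (κ.1 + n) = (b : ℤ) * κ'.1 := by
      rw [mul_add]; linarith
    have h5 : (κ.1 : ℤ) + n = κ'.1 := mul_left_cancel₀ (by exact_mod_cast hb.ne') h4
    have h6 : (n : ℤ) = a.2 - c * κ.2 := by rw [hn', h3]; ring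
    linarith

end Pool.Agent.Work.MP_c41774_al.Wall

end
end

section

/-!
# Item uniqBeta: uniqueness
-/

noncomputable section

namespace Pool.Agent.Work.MP_c41774_al.Wall

open Finset QTorus LaurentPolynomial

lemma uniqBeta_valid {b c : ℕ} (_hb : 0 < b) (hc : 0 < c) (l : ℤ × ℤ) : (ch b c l).Valid := by
  unfold ch
  split_ifs with h1 h2 h3
  · trivial
  · show Nat.Coprime 0 1
    simp
  · show Nat.Coprime 1 0
    simp
  · show Nat.Coprime (slp b c l).1 (slp b c l).2
    refine Nat.coprime_div_gcd_div_gcd ?_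
    refine Nat.gcd_pos_of_pos_left _ ?_
    exact Nat.mul_pos hc (by omega)

theorem pr_uniqBeta (h1 : S_goodPos) (h2 : S_coAlg) (h3 : S_coOne) : S_uniqBeta := by
  intro b c hb hc D f g hfg
  have key : ∀ f g : QTorus, (∀ l, D.co (ch b c l) f l = D.co (ch b c l) g l) →
      ∀ m, NN ((f - g) m) := by
    intro f g h m
    rw [← h3 b c D (f - g) m]
    refine h1 b c hb hc D (f - g) ?_ .one trivial m
    intro l
    rw [(h2 b c hb hc D (ch b c l) (uniqBeta_valid hb hc l)).2.2.1 f g l, h l, sub_self]
    intro n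
    simp
  have e1 := key f g hfg
  have e2 := key g f (fun l => (hfg l).symm)
  refine QTorus.ext fun m => ?_
  refine LaurentPolynomial.ext fun n => ?_
  have e3 := e1 m n
  have e4 := e2 m n
  rw [QTorus.sub_apply, AddMonoidAlgebra.coeff_sub, Finsupp.sub_apply] at e3 e4
  omega

end Pool.Agent.Work.MP_c41774_al.Wall

end
end

section

/-!
# Part A: the theorem on greedy bases follows from positive wall data

The items `I_*.lean` are put together.
-/

set_option autoImplicit false

namespace Pool.Agent.Work.MP_c41774_al.Wall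

/-- Part A: if there are positive wall data for `(b, c)` then there is a greedy element for every
index, the greedy elements form a basis and this basis is strongly positive. -/
theorem partA : S_partA := by
  have h_serMul : S_serMul := pr_serMul
  have h_latMul : S_latMul := pr_latMul
  have h_latUnit : S_latUnit := pr_latUnit h_serMul
  have h_dir : S_dir := pr_dir h_serMul
  have h_cross : S_cross := pr_cross h_dir
  have h_crs : S_crs := pr_crs
  have h_Fpos : S_Fpos := pr_Fpos h_crs
  have h_Fxy : S_Fxy := pr_Fxy h_crs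
  have h_trunc : S_trunc := pr_trunc
  have h_g : S_g := pr_g h_latMul h_latUnit h_dir
  have h_chartSys : S_chartSys := pr_chartSys h_serMul h_latUnit h_dir h_cross h_trunc h_g
  have h_latT : S_latT := pr_latT h_latMul h_g
  have h_tUp : S_tUp := pr_tUp
  have h_tDown : S_tDown := pr_tDown
  have h_elem : S_elem := pr_elem
  have h_prop : S_prop := pr_prop h_Fpos h_elem h_tUp h_tDown h_crs
  have h_vanLo : S_vanLo := pr_vanLo h_elem h_crs h_tUp h_tDown
  have h_vanHi : S_vanHi := pr_vanHi h_elem h_tUp h_tDown h_crs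
  have h_vanHi0 : S_vanHi0 := pr_vanHi0 h_crs h_elem h_tUp
  have h_integ : S_integ := pr_integ h_Fxy h_chartSys h_latT h_tUp h_tDown h_elem h_crs
  have h_intT : S_intT := pr_intT h_chartSys h_integ h_elem h_tUp
  have h_coAlg : S_coAlg := pr_coAlg h_intT h_latT
  have h_coOne : S_coOne := pr_coOne
  have h_coBd : S_coBd := pr_coBd h_intT h_chartSys
  have h_rows : S_rows := pr_rows h_chartSys h_Fxy h_intT h_coOne
  have h_H : S_H := pr_H h_chartSys h_Fxy h_intT
  have h_gen : S_gen := pr_gen
  have h_fin : S_fin := pr_fin h_gen h_coAlg h_rows h_coBd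
  have h_finBeta : S_finBeta := pr_finBeta h_fin h_coOne h_coBd
  have h_stdMem : S_stdMem := pr_stdMem
  have h_stdCo : S_stdCo := pr_stdCo h_rows h_H h_coAlg h_coOne
  have h_isGreedy : S_isGreedy := pr_isGreedy
  have h_stdGreedy : S_stdGreedy := pr_stdGreedy h_isGreedy
  have h_mstd : S_mstd := pr_mstd h_stdMem
  have h_exists : S_exists := pr_exists h_coAlg h_finBeta h_stdMem h_stdCo h_mstd
  have h_goodPos : S_goodPos := pr_goodPos h_prop h_chartSys h_intT
  have h_uniqBeta : S_uniqBeta := pr_uniqBeta h_goodPos h_coAlg h_coOne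
  have h_span : S_span := pr_span h_uniqBeta h_finBeta h_coAlg
  have h_li : S_li := pr_li
  have h_greedyOfBeta : S_greedyOfBeta := pr_greedyOfBeta h_vanLo h_vanHi h_chartSys h_intT h_H h_coOne h_isGreedy
  have h_greedyUniq : S_greedyUniq := pr_greedyUniq
  have h_mulPos : S_mulPos := pr_mulPos h_span h_goodPos h_coAlg
  have h_goodGreedy : S_goodGreedy := pr_goodGreedy h_greedyOfBeta h_stdMem h_stdCo h_stdGreedy h_uniqBeta
  have h_sup : S_sup := pr_sup h_coAlg h_rows h_goodPos h_mulPos h_goodGreedy h_stdCo h_vanLo h_chartSys h_intT h_elem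
  have h_shVan : S_shVan := pr_shVan h_sup h_rows h_coOne h_goodPos h_vanLo h_vanHi h_vanHi0 h_chartSys h_intT h_stdCo h_goodGreedy
  have h_shGreedy : S_shGreedy := pr_shGreedy h_sup h_shVan h_rows h_coAlg h_goodGreedy h_stdCo h_stdGreedy h_isGreedy
  have h_psi : S_psi := pr_psi h_fin h_coAlg h_rows h_intT
  have h_shift : S_shift := pr_shift h_psi h_shGreedy h_goodGreedy h_greedyUniq
  have h_monomials : S_monomials := pr_monomials h_shift h_exists h_goodGreedy
  have h_shiftTwo : S_shiftTwo := pr_shiftTwo h_shift h_exists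
  have h_shiftOne : S_shiftOne := pr_shiftOne h_shift
  exact pr_partA h_exists h_goodGreedy h_li h_span h_greedyUniq h_shiftTwo h_shiftOne h_monomials h_mulPos

/-- Uniqueness of greedy elements. -/
theorem greedyUniq : S_greedyUniq := pr_greedyUniq

end Pool.Agent.Work.MP_c41774_al.Wall

end

section

/-!
# The automorphisms `X_m ↦ X_{m+2}` and, for `b = c`, `X_m ↦ X_{m+1}` exist
-/

set_option autoImplicit false

namespace Pool.Agent.Work.MP_c41774_al.Wall

open QTorus LaurentPolynomial

theorem existsAll : S_exists := by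
  have h_serMul : S_serMul := pr_serMul
  have h_latMul : S_latMul := pr_latMul
  have h_latUnit : S_latUnit := pr_latUnit h_serMul
  have h_dir : S_dir := pr_dir h_serMul
  have h_cross : S_cross := pr_cross h_dir
  have h_crs : S_crs := pr_crs
  have h_Fxy : S_Fxy := pr_Fxy h_crs
  have h_trunc : S_trunc := pr_trunc
  have h_g : S_g := pr_g h_latMul h_latUnit h_dir
  have h_chartSys : S_chartSys := pr_chartSys h_serMul h_latUnit h_dir h_cross h_trunc h_g
  have h_latT : S_latT := pr_latT h_latMul h_g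
  have h_tUp : S_tUp := pr_tUp
  have h_tDown : S_tDown := pr_tDown
  have h_elem : S_elem := pr_elem
  have h_integ : S_integ := pr_integ h_Fxy h_chartSys h_latT h_tUp h_tDown h_elem h_crs
  have h_intT : S_intT := pr_intT h_chartSys h_integ h_elem h_tUp
  have h_coAlg : S_coAlg := pr_coAlg h_intT h_latT
  have h_coOne : S_coOne := pr_coOne
  have h_coBd : S_coBd := pr_coBd h_intT h_chartSys
  have h_rows : S_rows := pr_rows h_chartSys h_Fxy h_intT h_coOne
  have h_H : S_H := pr_H h_chartSys h_Fxy h_intT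
  have h_gen : S_gen := pr_gen
  have h_fin : S_fin := pr_fin h_gen h_coAlg h_rows h_coBd
  have h_finBeta : S_finBeta := pr_finBeta h_fin h_coOne h_coBd
  have h_stdMem : S_stdMem := pr_stdMem
  have h_stdCo : S_stdCo := pr_stdCo h_rows h_H h_coAlg h_coOne
  have h_mstd : S_mstd := pr_mstd h_stdMem
  exact pr_exists h_coAlg h_finBeta h_stdMem h_stdCo h_mstd

theorem psiAll : S_psi := by
  have h_serMul : S_serMul := pr_serMul
  have h_latMul : S_latMul := pr_latMul
  have h_latUnit : S_latUnit := pr_latUnit h_serMul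
  have h_dir : S_dir := pr_dir h_serMul
  have h_cross : S_cross := pr_cross h_dir
  have h_crs : S_crs := pr_crs
  have h_Fxy : S_Fxy := pr_Fxy h_crs
  have h_trunc : S_trunc := pr_trunc
  have h_g : S_g := pr_g h_latMul h_latUnit h_dir
  have h_chartSys : S_chartSys := pr_chartSys h_serMul h_latUnit h_dir h_cross h_trunc h_g
  have h_latT : S_latT := pr_latT h_latMul h_g
  have h_tUp : S_tUp := pr_tUp
  have h_tDown : S_tDown := pr_tDown
  have h_elem : S_elem := pr_elem
  have h_integ : S_integ := pr_integ h_Fxy h_chartSys h_latT h_tUp h_tDown h_elem h_crs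
  have h_intT : S_intT := pr_intT h_chartSys h_integ h_elem h_tUp
  have h_coAlg : S_coAlg := pr_coAlg h_intT h_latT
  have h_coOne : S_coOne := pr_coOne
  have h_coBd : S_coBd := pr_coBd h_intT h_chartSys
  have h_rows : S_rows := pr_rows h_chartSys h_Fxy h_intT h_coOne
  have h_gen : S_gen := pr_gen
  have h_fin : S_fin := pr_fin h_gen h_coAlg h_rows h_coBd
  exact pr_psi h_fin h_coAlg h_rows h_intT

/-- change of the initial cluster, with values in the cluster algebra -/
theorem psiCod {b c : ℕ} (hb : 0 < b) (hc : 0 < c) (D : WallData b c) {X X' : ℤ → QTorus}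
    (hX : IsClusterSeq b c X) (hX' : IsClusterSeq c b X') :
    ∃ ψ : clusterAlgebra X →ₐ[R] clusterAlgebra X', Function.Injective ψ ∧
      ∀ (m : ℤ) (x : clusterAlgebra X), (x : QTorus) = X m → (ψ x : QTorus) = X' (m - 1) := by
  obtain ⟨ψ, hinj, -, hψ⟩ := psiAll b c hb hc D X X' hX hX'
  have hran : ∀ x : clusterAlgebra X, ψ x ∈ clusterAlgebra X' := by
    intro x
    have h1 : (clusterAlgebra X').comap ψ = ⊤ := by
      have h2 : Algebra.adjoin R ((Subtype.val : clusterAlgebra X → QTorus) ⁻¹' Set.range X) = ⊤ :=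
        Algebra.adjoin_adjoin_coe_preimage (R := R) (s := Set.range X)
      rw [eq_top_iff, ← h2, Algebra.adjoin_le_iff]
      rintro z ⟨m, hm⟩
      show ψ z ∈ clusterAlgebra X'
      rw [hψ m z hm.symm]
      exact Algebra.subset_adjoin ⟨m - 1, rfl⟩
    have : x ∈ (clusterAlgebra X').comap ψ := by rw [h1]; trivial
    exact this
  refine ⟨ψ.codRestrict _ hran, ?_, fun m x hx => hψ m x hx⟩
  intro x y hxy
  exact hinj (congrArg Subtype.val hxy)

theorem auto_of_inj {X : ℤ → QTorus} {k : ℤ}
    (θ : clusterAlgebra X →ₐ[R] clusterAlgebra X) (hinj : Function.Injective θ)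
    (hθ : ∀ (m : ℤ) (x : clusterAlgebra X), (x : QTorus) = X m → (θ x : QTorus) = X (m - k)) :
    ∃ σ : clusterAlgebra X ≃ₐ[R] clusterAlgebra X,
      ∀ (m : ℤ) (x : clusterAlgebra X), (x : QTorus) = X m → (σ x : QTorus) = X (m + k) := by
  have hsurj : Function.Surjective θ := by
    have h2 : Algebra.adjoin R ((Subtype.val : clusterAlgebra X → QTorus) ⁻¹' Set.range X) = ⊤ :=
      Algebra.adjoin_adjoin_coe_preimage (R := R) (s := Set.range X)
    have h1 : θ.range = ⊤ := by
      rw [eq_top_iff, ← h2, Algebra.adjoin_le_iff]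
      rintro z ⟨m, hm⟩
      refine ⟨⟨X (m + k), Algebra.subset_adjoin ⟨m + k, rfl⟩⟩, ?_⟩
      refine Subtype.ext ?_
      show (θ _ : QTorus) = (z : QTorus)
      rw [hθ (m + k) _ rfl, ← hm]
      congr 1
      ring
    intro z
    have : z ∈ θ.range := by rw [h1]; trivial
    exact this
  let e : clusterAlgebra X ≃ₐ[R] clusterAlgebra X := AlgEquiv.ofBijective θ ⟨hinj, hsurj⟩
  refine ⟨e.symm, fun m x hx => ?_⟩
  have h3 : θ ⟨X (m + k), Algebra.subset_adjoin ⟨m + k, rfl⟩⟩ = x := by
    refine Subtype.ext ?_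
    rw [hθ (m + k) _ rfl, hx]
    congr 1
    ring
  have h4 : e.symm x = ⟨X (m + k), Algebra.subset_adjoin ⟨m + k, rfl⟩⟩ := by
    rw [AlgEquiv.symm_apply_eq]
    exact h3.symm
  rw [h4]

/-- the automorphism `X_m ↦ X_{m+2}` -/
theorem auto_two {b c : ℕ} (hb : 0 < b) (hc : 0 < c) (D : WallData b c) (D' : WallData c b)
    {X : ℤ → QTorus} (hX : IsClusterSeq b c X) :
    ∃ σ : clusterAlgebra X ≃ₐ[R] clusterAlgebra X,
      ∀ (m : ℤ) (x : clusterAlgebra X), (x : QTorus) = X m → (σ x : QTorus) = X (m + 2) := by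
  obtain ⟨X', hX', -⟩ := existsUnique_clusterSeq hc hb
  obtain ⟨ψ₁, i1, g1⟩ := psiCod hb hc D hX hX'
  obtain ⟨ψ₂, i2, g2⟩ := psiCod hc hb D' hX' hX
  refine auto_of_inj (ψ₂.comp ψ₁) (i2.comp i1) fun m x hx => ?_
  have e1 := g1 m x hx
  have e2 := g2 (m - 1) (ψ₁ x) e1
  show (ψ₂ (ψ₁ x) : QTorus) = _
  rw [e2]
  congr 1
  ring

/-- the automorphism `X_m ↦ X_{m+1}` for `b = c` -/
theorem auto_one {b : ℕ} (hb : 0 < b) (D : WallData b b)
    {X : ℤ → QTorus} (hX : IsClusterSeq b b X) :
    ∃ σ : clusterAlgebra X ≃ₐ[R] clusterAlgebra X,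
      ∀ (m : ℤ) (x : clusterAlgebra X), (x : QTorus) = X m → (σ x : QTorus) = X (m + 1) := by
  obtain ⟨ψ₁, i1, g1⟩ := psiCod hb hb D hX hX
  exact auto_of_inj ψ₁ i1 g1

end Pool.Agent.Work.MP_c41774_al.Wall

end
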